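import Pool.Agent.AddSq.Iface

/-!
# Elementary facts on `fl`, `tt`, `tl`
-/

namespace Pool.Agent.AddSq

open Finset

theorem mem_Dset {d : ℤ} : d ∈ Dset ↔ d ≠ 0 ∧ -110 ≤ d ∧ d ≤ 110 := by
  unfold Dset
  rw [mem_erase, mem_Icc]

theorem neg_mem_Dset {d : ℤ} (h : d ∈ Dset) : -d ∈ Dset := by
  rw [mem_Dset] at *
  omega

theorem sqrt_two_mul_self : Real.sqrt 2 * Real.sqrt 2 = 2 := Real.mul_self_sqrt (by norm_num)

theorem sqrt_two_pos : 0 < Real.sqrt 2 := Real.sqrt_pos.mpr (by norm_num)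

theorem sqrt_two_lower : (1.41421356 : ℝ) < Real.sqrt 2 := by
  rw [show (1.41421356 : ℝ) = Real.sqrt (1.41421356 ^ 2) by
    rw [Real.sqrt_sq (by norm_num)]]
  exact Real.sqrt_lt_sqrt (by norm_num) (by norm_num)

theorem sqrt_two_upper : Real.sqrt 2 < (1.41421357 : ℝ) := by
  rw [show (1.41421357 : ℝ) = Real.sqrt (1.41421357 ^ 2) by
    rw [Real.sqrt_sq (by norm_num)]]
  exact Real.sqrt_lt_sqrt (by norm_num) (by norm_num)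

/-- `s = ⌊√2 c n⌋` for `s = Nat.sqrt (2 c² n²)` -/
theorem nat_sqrt_bounds (c n : ℕ) :
    ((Nat.sqrt (2 * c ^ 2 * n ^ 2) : ℕ) : ℝ) ≤ Real.sqrt 2 * c * n ∧
    Real.sqrt 2 * c * n < (Nat.sqrt (2 * c ^ 2 * n ^ 2) : ℕ) + 1 := by
  have h1 := Real.nat_sqrt_le_real_sqrt (a := 2 * c ^ 2 * n ^ 2)
  have h2 := Real.real_sqrt_lt_nat_sqrt_succ (a := 2 * c ^ 2 * n ^ 2)
  have e : Real.sqrt ((2 * c ^ 2 * n ^ 2 : ℕ) : ℝ) = Real.sqrt 2 * c * n := by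
    push_cast
    rw [show (2 : ℝ) * (c : ℝ) ^ 2 * (n : ℝ) ^ 2 = 2 * ((c : ℝ) * n) ^ 2 by ring,
      Real.sqrt_mul (by norm_num), Real.sqrt_sq (by positivity)]
    ring
  rw [e] at h1 h2
  exact ⟨h1, h2⟩

theorem fl_nonneg_eq {n : ℕ} : fl (n : ℤ) = (Nat.sqrt (2 * n ^ 2) : ℤ) := by
  unfold fl
  rw [if_pos (by positivity)]
  simp

theorem fl_neg_eq {n : ℕ} (hn : 0 < n) : fl (-(n : ℤ)) = -((Nat.sqrt (2 * n ^ 2) : ℤ) + 1) := by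
  unfold fl
  rw [if_neg (by omega)]
  simp

theorem tt_bounds (d : ℤ) : 0 ≤ tt d ∧ tt d ≤ 1 := by
  unfold tt
  rcases lt_or_ge d 0 with h | h
  · obtain ⟨n, rfl⟩ : ∃ n : ℕ, d = -(n : ℤ) := ⟨d.natAbs, by omega⟩
    rw [fl_neg_eq (by omega)]
    have h1 := nat_sqrt_bounds 1 n
    simp only [one_pow, mul_one, Nat.cast_one] at h1
    push_cast
    constructor <;> linarith [h1.1, h1.2]
  · obtain ⟨n, rfl⟩ : ∃ n : ℕ, d = (n : ℤ) := ⟨d.natAbs, by omega⟩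
    rw [fl_nonneg_eq]
    have h1 := nat_sqrt_bounds 1 n
    simp only [one_pow, mul_one, Nat.cast_one] at h1
    push_cast
    constructor <;> linarith [h1.1, h1.2]

theorem toNat_cast {z : ℤ} (h : -1 < (z : ℝ)) : ((z.toNat : ℕ) : ℝ) = z := by
  have hz : (0 : ℤ) ≤ z := by
    have h1 : (-1 : ℤ) < z := by exact_mod_cast h
    omega
  have h1 : ((z.toNat : ℕ) : ℤ) = z := Int.toNat_of_nonneg hz
  have h2 : (((z.toNat : ℕ) : ℤ) : ℝ) = (z : ℝ) := by rw [h1]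
  rw [← h2]
  rw [Int.cast_natCast]

theorem nat_sqrt_bounds' (n : ℕ) :
    ((Nat.sqrt (2 * 10 ^ 18 * n ^ 2) : ℕ) : ℝ) ≤ Real.sqrt 2 * 10 ^ 9 * n ∧
    Real.sqrt 2 * 10 ^ 9 * n < (Nat.sqrt (2 * 10 ^ 18 * n ^ 2) : ℕ) + 1 := by
  have h2 := nat_sqrt_bounds (10 ^ 9) n
  rw [show 2 * (10 ^ 9) ^ 2 * n ^ 2 = 2 * 10 ^ 18 * n ^ 2 by ring] at h2
  have e : (((10 ^ 9 : ℕ) : ℕ) : ℝ) = 10 ^ 9 := by norm_num
  rw [e] at h2
  exact h2

/-- `tl d ≤ 10⁹ tt d ≤ tl d + 1` -/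
theorem tl_bounds (d : ℤ) :
    (tl d : ℝ) ≤ 10 ^ 9 * tt d ∧ 10 ^ 9 * tt d ≤ (tl d : ℝ) + 1 := by
  unfold tl
  rcases lt_or_ge d 0 with h | h
  · obtain ⟨n, rfl⟩ : ∃ n : ℕ, d = -(n : ℤ) := ⟨d.natAbs, by omega⟩
    have hn : 0 < n := by omega
    rw [if_neg (by omega)]
    unfold tt
    rw [fl_neg_eq hn]
    have e : (-(n : ℤ)).natAbs = n := by simp
    rw [e]
    have h1 := nat_sqrt_bounds 1 n
    simp only [one_pow, mul_one, Nat.cast_one] at h1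
    have h2 := nat_sqrt_bounds' n
    generalize Nat.sqrt (2 * 10 ^ 18 * n ^ 2) = s9 at *
    generalize Nat.sqrt (2 * n ^ 2) = s1 at *
    have ec : ((-((s9 : ℤ) + 1) - 10 ^ 9 * -((s1 : ℤ) + 1) : ℤ) : ℝ) =
        -((s9 : ℝ) + 1) + 10 ^ 9 * ((s1 : ℝ) + 1) := by
      push_cast
      ring
    rw [toNat_cast (by rw [ec]; nlinarith [h1.2, h2.1]), ec]
    push_cast
    constructor
    · nlinarith [h2.1, h2.2]
    · nlinarith [h2.1, h2.2]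
  · obtain ⟨n, rfl⟩ : ∃ n : ℕ, d = (n : ℤ) := ⟨d.natAbs, by omega⟩
    rw [if_pos h]
    unfold tt
    rw [fl_nonneg_eq]
    have e : ((n : ℤ)).natAbs = n := by simp
    rw [e]
    have h1 := nat_sqrt_bounds 1 n
    simp only [one_pow, mul_one, Nat.cast_one] at h1
    have h2 := nat_sqrt_bounds' n
    generalize Nat.sqrt (2 * 10 ^ 18 * n ^ 2) = s9 at *
    generalize Nat.sqrt (2 * n ^ 2) = s1 at *
    have ec : (((s9 : ℤ) - 10 ^ 9 * (s1 : ℤ) : ℤ) : ℝ) = (s9 : ℝ) - 10 ^ 9 * (s1 : ℝ) := by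
      push_cast
      ring
    rw [toNat_cast (by rw [ec]; nlinarith [h1.1, h2.2]), ec]
    push_cast
    constructor
    · nlinarith [h2.1, h2.2]
    · nlinarith [h2.1, h2.2]

theorem fl_neg' {d : ℤ} (hd : d ≠ 0) : fl (-d) = -fl d - 1 := by
  rcases lt_or_ge d 0 with h | h
  · obtain ⟨n, rfl⟩ : ∃ n : ℕ, d = -(n : ℤ) := ⟨d.natAbs, by omega⟩
    rw [neg_neg, fl_nonneg_eq, fl_neg_eq (by omega)]
    ring
  · obtain ⟨n, rfl⟩ : ∃ n : ℕ, d = (n : ℤ) := ⟨d.natAbs, by omega⟩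
    rw [fl_nonneg_eq, fl_neg_eq (by omega)]
    ring

theorem tt_neg' {d : ℤ} (hd : d ≠ 0) : tt (-d) = 1 - tt d := by
  unfold tt
  rw [fl_neg' hd]
  push_cast
  ring

/-- all finite checks on `fl`, `tl` for `|d| ≤ 110` -/
theorem tl_check : ∀ i ∈ Finset.range 221, (i : ℤ) - 110 ≠ 0 →
    5050633 ≤ tl ((i : ℤ) - 110) ∧ tl ((i : ℤ) - 110) ≤ 994949366 ∧
    fl ((i : ℤ) - 110) ≠ 0 ∧ fl ((i : ℤ) - 110) ≠ -1 ∧
    ((fl ((i : ℤ) - 110)).natAbs + ((i : ℤ) - 110).natAbs) * 10 ^ 9 ≤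
      49500 * tl ((i : ℤ) - 110) ∧ (fl ((i : ℤ) - 110)).natAbs ≤ 156 := by
  decide +kernel

theorem Dset_check {d : ℤ} (hd : d ∈ Dset) :
    5050633 ≤ tl d ∧ tl d ≤ 994949366 ∧ fl d ≠ 0 ∧ fl d ≠ -1 ∧
    ((fl d).natAbs + d.natAbs) * 10 ^ 9 ≤ 49500 * tl d ∧ (fl d).natAbs ≤ 156 := by
  rw [mem_Dset] at hd
  have h := tl_check (d + 110).toNat (Finset.mem_range.mpr (by omega))
  have e : (((d + 110).toNat : ℕ) : ℤ) - 110 = d := by omega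
  rw [e] at h
  exact h hd.1

theorem tt_lower {d : ℤ} (hd : d ∈ Dset) : (0.00505 : ℝ) < tt d := by
  have h1 := (tl_bounds d).1
  have h2 : (5050633 : ℝ) ≤ tl d := by exact_mod_cast (Dset_check hd).1
  linarith

theorem tt_upper {d : ℤ} (hd : d ∈ Dset) : tt d < (0.99495 : ℝ) := by
  have h := tt_lower (neg_mem_Dset hd)
  rw [tt_neg' (mem_Dset.mp hd).1] at h
  linarith

end Pool.Agent.AddSq
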