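import Pool.Agent.AddSq.Lag2
import Pool.Agent.AddSq.FlFacts

/-!
# Lag two: the data of the certificate (`D = 110`, `K ≥ 5 000 000`, `3 H ≤ 2 K`)
-/

namespace Pool.Agent.AddSq

open Finset

/-- `h ≈ 2 √2 s κ` for a real `κ ∈ [K, 5 K / 3]` -/
def NearH (K : ℕ) (h : ℤ) (s : ℝ) : Prop :=
  ∃ κ : ℝ, (K : ℝ) ≤ κ ∧ κ ≤ 5 / 3 * K ∧ |(h : ℝ) - 2 * Real.sqrt 2 * s * κ| ≤ 1000

/-- same branch: the possible `e` -/
def Es2 (d : ℤ) : Finset ℤ :=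
  (if tl d ≤ 500100000 then {fl d} else ∅) ∪ (if tl (-d) ≤ 500100000 then {fl d + 1} else ∅)

def Js2 (d e : ℤ) : ℕ := if e = fl d then mult2s d - 2 else mult2s (-d) - 2

def comps2 (K : ℕ) (d e h : ℤ) : Prop :=
  (e = fl d ∧ 0 < h ∧ cls d h = true ∧ NearH K h (tt d)) ∨
    (e = fl d + 1 ∧ h < 0 ∧ cls (-d) (-h) = true ∧ NearH K (-h) (tt (-d)))

/-- from the even to the odd branch: the possible `e` -/
def Ec2 (d : ℤ) : Finset ℤ :=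
  if d ≠ 1 ∧ 207000000 ≤ tl (1 - d) ∧ tl (1 - d) ≤ 707500000 then {-fl (1 - d)} else ∅

def Jc2 (d _e : ℤ) : ℕ := mult2c (1 - d) - 1

def compc2 (K : ℕ) (d _e h : ℤ) : Prop :=
  h < 0 ∧ cls (1 - d) (-h - 1) = true ∧ NearH K (-h) (tt (1 - d))

/-- the numerical inequalities, same branch -/
def NumSame : Prop := ∀ d ∈ Dset, tl d ≤ 500100000 → SameOK 5000000 d (fl d) (mult2s d - 2)

/-- the numerical inequalities, from the even to the odd branch -/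
def NumCross : Prop := ∀ d ∈ Dset, 207000000 ≤ tl d → tl d ≤ 707500000 →
  CrossOK 5000000 (1 - d) (-fl d) (mult2c d - 1)

/-- the certificate in terms of active shifts -/
def ActiveCert2 (S : ℕ) : Prop := ∀ K : ℕ, 5000000 ≤ K → ∀ h : ℤ, 0 < h →
  ∀ T₁ ⊆ Dset, ∀ T₂ ⊆ Dset,
    (∀ d ∈ T₁, cls d h = true ∧ NearH K h (tt d)) →
    (∀ d ∈ T₂, cls d (h - 1) = true ∧ NearH K h (tt d)) →
    ∑ d ∈ T₁, W2s d + ∑ d ∈ T₂, W2c d ≤ S

end Pool.Agent.AddSq
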