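import Pool.Agent.AddSq.Cert
import Pool.Agent.AddSq.Lag2Cert

/-!
# The certificate of lag two in the form used by the counting (MP_006ce8_co)
-/

namespace Pool.Agent.AddSq

open Finset

theorem NearH.active {K : ℕ} {h d : ℤ} (hn : NearH K h (tt d)) : Active (K : ℝ) (h : ℝ) d := by
  obtain ⟨κ, h1, h2, h3⟩ := hn
  exact ⟨κ, by linarith, by linarith, h3.trans (by norm_num)⟩

theorem active_cert2 : ActiveCert2 5720 := by
  intro K hK h _ T₁ hT₁ T₂ hT₂ h1 h2
  have hK' : (5000000 : ℝ) ≤ K := by exact_mod_cast hK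
  exact active_sum2 hK' h T₁ T₂ (fun d hd => ⟨hT₁ hd, (h1 d hd).1, (h1 d hd).2.active⟩)
    (fun d hd => ⟨hT₂ hd, (h2 d hd).1, (h2 d hd).2.active⟩)

end Pool.Agent.AddSq
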