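import Pool.Agent.AddSq.Comp

/-!
# The algorithm as a recursive (not everywhere defined) function

`LostIn t n` is primitive recursive in `(t, n)` (tables of decreasing length), so the unbounded
search for a winning strategy of either player, together with the total certificate `isDraw`,
is a recursive, not everywhere defined function which never errs and halts on all wins, on all losses and on
all certified draws.
-/

namespace Pool.Agent.AddSq

/-- look up in a list of truth values -/
def lkb (l : List Bool) (m : ℕ) : Bool := l.getD m false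

/-- from the table of `LostIn t` to `WinIn t` at one position -/
def winQ (l : List Bool) (m : ℕ) : Bool := !(m == 0) && (lkb l (rem m) || lkb l (up m))

/-- from the table of `LostIn t` to `LostIn (t+1)` at one position -/
def lostQ (l : List Bool) (m : ℕ) : Bool := (m == 0) || (winQ l (rem m) && winQ l (up m))

/-- from the table of `LostIn t` to the (five times shorter) table of `LostIn (t+1)` -/
def tabStep (l : List Bool) : List Bool := (List.range (l.length / 5)).map (lostQ l)

/-- the table of `LostIn 0` of length `N` -/
def tabInit (N : ℕ) : List Bool := (List.range N).map (fun m => m == 0)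

/-- `l` is the table of `LostIn t` -/
def TabOK (t : ℕ) (l : List Bool) : Prop := ∀ m < l.length, (lkb l m = true ↔ LostIn t m)

theorem lkb_map (f : ℕ → Bool) {m n : ℕ} (h : m < n) : lkb ((List.range n).map f) m = f m := by
  unfold lkb
  simp [List.getD_eq_getElem?_getD, h]

theorem tabOK_init (N : ℕ) : TabOK 0 (tabInit N) := by
  intro m hm
  have hm' : m < N := by simpa [tabInit] using hm
  unfold tabInit
  rw [lkb_map _ hm']
  simp [LostIn]

theorem winQ_iff {t : ℕ} {l : List Bool} (h : TabOK t l) {m : ℕ} (hm : 2 * m < l.length) :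
    winQ l m = true ↔ WinIn t m := by
  have u := up_le_two m
  have hr : rem m ≤ m := Nat.sub_le _ _
  rw [winIn_iff, ← h (rem m) (by omega), ← h (up m) (by omega)]
  simp only [winQ, Bool.and_eq_true, Bool.or_eq_true, Bool.not_eq_true', beq_eq_false_iff_ne]
  constructor
  · rintro ⟨h1, h2⟩
    exact ⟨by omega, h2⟩
  · rintro ⟨h1, h2⟩
    exact ⟨by omega, h2⟩

theorem lostQ_iff {t : ℕ} {l : List Bool} (h : TabOK t l) {m : ℕ} (hm : 5 * m < l.length) :
    lostQ l m = true ↔ LostIn (t + 1) m := by
  have u := up_le_two m
  have hr : rem m ≤ m := Nat.sub_le _ _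
  rw [lostIn_succ_iff, ← winQ_iff h (m := rem m) (by omega), ← winQ_iff h (m := up m) (by omega)]
  simp only [lostQ, Bool.or_eq_true, Bool.and_eq_true, beq_iff_eq]

theorem tabOK_step {t : ℕ} {l : List Bool} (h : TabOK t l) : TabOK (t + 1) (tabStep l) := by
  intro m hm
  have hm' : m < l.length / 5 := by simpa [tabStep] using hm
  unfold tabStep
  rw [lkb_map _ hm']
  exact lostQ_iff h (by omega)

theorem length_tabStep (l : List Bool) : (tabStep l).length = l.length / 5 := by
  simp [tabStep]

/-- the length of the first table -/
def len5 (t n : ℕ) : ℕ := (fun x => 5 * x)^[t] (n + 1)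

theorem len5_eq (t n : ℕ) : len5 t n = 5 ^ t * (n + 1) := by
  unfold len5
  induction t with
  | zero => simp
  | succ t ih =>
    rw [Function.iterate_succ_apply', ih]
    ring

/-- `LostIn t n` as a truth value -/
def lostB (t n : ℕ) : Bool := lkb (tabStep^[t] (tabInit (len5 t n))) n

theorem iter_tab (t : ℕ) : ∀ (s : ℕ) (l : List Bool) (n : ℕ), TabOK s l →
    l.length = 5 ^ t * (n + 1) → TabOK (s + t) (tabStep^[t] l) ∧ (tabStep^[t] l).length = n + 1 := by
  induction t with
  | zero =>
    intro s l n h hl
    exact ⟨h, by simpa using hl⟩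
  | succ t ih =>
    intro s l n h hl
    have h1 := tabOK_step h
    have hl' : (tabStep l).length = 5 ^ t * (n + 1) := by
      rw [length_tabStep, hl]
      apply Nat.div_eq_of_eq_mul_right (by norm_num)
      ring
    have h2 := ih (s + 1) (tabStep l) n h1 hl'
    rw [Function.iterate_succ_apply]
    have e : s + (t + 1) = s + 1 + t := by omega
    rw [e]
    exact h2

theorem lostB_iff (t n : ℕ) : lostB t n = true ↔ LostIn t n := by
  have h := iter_tab t 0 (tabInit (len5 t n)) n (tabOK_init _)
    (by rw [← len5_eq]; simp [tabInit])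
  rw [Nat.zero_add] at h
  exact h.1 n (by rw [h.2]; omega)

/-- `WinIn t n` as a truth value -/
def winB (t n : ℕ) : Bool := !(n == 0) && (lostB t (rem n) || lostB t (up n))

theorem winB_iff (t n : ℕ) : winB t n = true ↔ WinIn t n := by
  rw [winIn_iff, ← lostB_iff, ← lostB_iff]
  simp only [winB, Bool.and_eq_true, Bool.or_eq_true, Bool.not_eq_true', beq_eq_false_iff_ne]
  constructor
  · rintro ⟨h1, h2⟩
    exact ⟨by omega, h2⟩
  · rintro ⟨h1, h2⟩
    exact ⟨by omega, h2⟩

/-! ### Primitive recursiveness -/

theorem lkb_primrec : Primrec₂ lkb := Primrec.list_getD false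

theorem isZero_primrec : Primrec (fun m : ℕ => m == 0) :=
  Primrec.beq.comp Primrec.id (Primrec.const 0)

theorem winQ_primrec : Primrec₂ winQ := by
  have s0 : Primrec (fun p : List Bool × ℕ => p.2) := Primrec.snd
  exact Primrec.and.comp (Primrec.not.comp (isZero_primrec.comp s0))
    (Primrec.or.comp (lkb_primrec.comp Primrec.fst (rem_primrec.comp s0))
      (lkb_primrec.comp Primrec.fst (up_primrec.comp s0)))

theorem lostQ_primrec : Primrec₂ lostQ := by
  have s0 : Primrec (fun p : List Bool × ℕ => p.2) := Primrec.snd
  exact Primrec.or.comp (isZero_primrec.comp s0)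
    (Primrec.and.comp (winQ_primrec.comp Primrec.fst (rem_primrec.comp s0))
      (winQ_primrec.comp Primrec.fst (up_primrec.comp s0)))

theorem tabStep_primrec : Primrec tabStep :=
  Primrec.list_map (Primrec.list_range.comp
    (Primrec.nat_div.comp Primrec.list_length (Primrec.const 5))) lostQ_primrec

theorem tabInit_primrec : Primrec tabInit :=
  Primrec.list_map Primrec.list_range (isZero_primrec.comp Primrec.snd).to₂

theorem len5_primrec : Primrec₂ len5 :=
  Primrec.nat_iterate Primrec.fst (Primrec.succ.comp Primrec.snd)
    (Primrec.nat_mul.comp (Primrec.const 5) Primrec.snd).to₂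

theorem lostB_primrec : Primrec₂ lostB :=
  lkb_primrec.comp (Primrec.nat_iterate Primrec.fst
    (tabInit_primrec.comp (len5_primrec.comp Primrec.fst Primrec.snd))
    (tabStep_primrec.comp Primrec.snd).to₂) Primrec.snd

theorem winB_primrec : Primrec₂ winB :=
  Primrec.and.comp (Primrec.not.comp (isZero_primrec.comp Primrec.snd))
    (Primrec.or.comp (lostB_primrec.comp Primrec.fst (rem_primrec.comp Primrec.snd))
      (lostB_primrec.comp Primrec.fst (up_primrec.comp Primrec.snd)))

/-! ### The algorithm -/

/-- stop at time `t` -/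
noncomputable def stopB (n t : ℕ) : Bool := isDraw n || (winB t n || lostB t n)

/-- the answer: `0` draw, `1` win, `2` loss -/
noncomputable def valB (n t : ℕ) : ℕ := bif isDraw n then 0 else bif winB t n then 1 else 2

/-- the algorithm -/
noncomputable def algo (n : ℕ) : Part ℕ :=
  (Nat.rfind (fun t => Part.some (stopB n t))).map (valB n)

theorem stopB_primrec : Primrec₂ stopB :=
  Primrec.or.comp (isDraw_primrec.comp Primrec.fst)
    (Primrec.or.comp (winB_primrec.comp Primrec.snd Primrec.fst)
      (lostB_primrec.comp Primrec.snd Primrec.fst))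

theorem valB_primrec : Primrec₂ valB :=
  Primrec.cond (isDraw_primrec.comp Primrec.fst) (Primrec.const 0)
    (Primrec.cond (winB_primrec.comp Primrec.snd Primrec.fst) (Primrec.const 1)
      (Primrec.const 2))

theorem algo_partrec : Partrec algo := by
  have h : Partrec₂ (fun (n t : ℕ) => (Part.some (stopB n t) : Part Bool)) :=
    stopB_primrec.to_comp.partrec₂
  exact (Partrec.rfind h).map valB_primrec.to_comp

theorem algo_of_stop {n t : ℕ} (h : stopB n t = true) :
    ∃ s, stopB n s = true ∧ algo n = Part.some (valB n s) := by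
  have hd : (Nat.rfind (fun t => (Part.some (stopB n t) : Part Bool))).Dom := by
    rw [Nat.rfind_dom]
    refine ⟨t, ?_, fun _ => trivial⟩
    rw [h]
    exact Part.mem_some _
  refine ⟨(Nat.rfind (fun t => (Part.some (stopB n t) : Part Bool))).get hd, ?_, ?_⟩
  · have := Nat.rfind_spec (Part.get_mem hd)
    exact (Part.mem_some_iff.mp this).symm
  · unfold algo
    rw [Part.eq_some_iff]
    exact Part.mem_map _ (Part.get_mem hd)

theorem algo_none {n : ℕ} (h : ∀ t, stopB n t = false) : algo n = Part.none := by
  rw [Part.eq_none_iff]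
  intro v hv
  unfold algo at hv
  obtain ⟨t, ht, _⟩ := (Part.mem_map_iff _).mp hv
  have := Nat.rfind_spec ht
  have h2 := Part.mem_some_iff.mp this
  rw [h t] at h2
  exact absurd h2 (by decide)

theorem not_win_and_lost {n : ℕ} (hw : Win n) (hl : Lost n) : False := by
  obtain ⟨s, hw⟩ := hw
  obtain ⟨t, hl⟩ := hl
  exact not_lostIn_and_winIn t s n hl hw

/-- on a win the algorithm answers `1` -/
theorem algo_win {n : ℕ} (h : Win n) : algo n = Part.some 1 := by
  have hnd : isDraw n = false := by
    by_contra hc
    exact ((isDraw_iff n).mp (by simpa using hc)).1 (win_wp h)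
  obtain ⟨t, ht⟩ := h
  obtain ⟨s, hs, he⟩ := algo_of_stop (n := n) (t := t)
    (by simp [stopB, (winB_iff t n).mpr ht])
  have hl : lostB s n = false := by
    by_contra hc
    exact not_win_and_lost ⟨t, ht⟩ ⟨s, (lostB_iff s n).mp (by simpa using hc)⟩
  have hw : winB s n = true := by simpa [stopB, hnd, hl] using hs
  rw [he]
  simp [valB, hnd, hw]

/-- on a loss the algorithm answers `2` -/
theorem algo_loss {n : ℕ} (h : Lost n) : algo n = Part.some 2 := by
  have hnd : isDraw n = false := by
    by_contra hc
    exact ((isDraw_iff n).mp (by simpa using hc)).2 (lost_lp h)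
  obtain ⟨t, ht⟩ := h
  obtain ⟨s, hs, he⟩ := algo_of_stop (n := n) (t := t)
    (by simp [stopB, (lostB_iff t n).mpr ht])
  have hw : winB s n = false := by
    by_contra hc
    exact not_win_and_lost ⟨s, (winB_iff s n).mp (by simpa using hc)⟩ ⟨t, ht⟩
  rw [he]
  simp [valB, hnd, hw]

/-- on a certified draw the algorithm answers `0` -/
theorem algo_isDraw {n : ℕ} (h : isDraw n = true) : algo n = Part.some 0 := by
  obtain ⟨s, hs, he⟩ := algo_of_stop (n := n) (t := 0) (by simp [stopB, h])
  rw [he]
  simp [valB, h]

/-- on a draw which is not certified the algorithm does not halt -/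
theorem algo_draw {n : ℕ} (h : Draw n) (hd : isDraw n = false) : algo n = Part.none := by
  obtain ⟨h1, h2, h3⟩ := h
  apply algo_none
  intro t
  have hw : winB t n = false := by
    by_contra hc
    exact h2 ⟨t, (winB_iff t n).mp (by simpa using hc)⟩
  have hl : lostB t n = false := by
    by_contra hc
    exact h3 ⟨h1, t, (lostB_iff t n).mp (by simpa using hc)⟩
  simp [stopB, hd, hw, hl]

/-- **The algorithm.**  A recursive, not everywhere defined function which, on a positive integer, never gives a
wrong answer (`0` draw, `1` win, `2` loss), halts on every win, on every loss and on every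
certified draw. -/
theorem algo_spec : Partrec algo ∧ (∀ n, Win n → algo n = Part.some 1) ∧
    (∀ n, Loss n → algo n = Part.some 2) ∧
    (∀ n, Draw n → algo n = Part.some 0 ∨ algo n = Part.none) ∧
    (∀ n, isDraw n = true → algo n = Part.some 0) := by
  refine ⟨algo_partrec, fun n h => algo_win h, fun n h => algo_loss h.2, fun n h => ?_,
    fun n h => algo_isDraw h⟩
  cases hd : isDraw n with
  | true => exact Or.inl (algo_isDraw hd)
  | false => exact Or.inr (algo_draw h hd)

end Pool.Agent.AddSq
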