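import Pool.Agent.AddSq.Defs

/-!
# The add-or-subtract-square game: arithmetic of the orbit `n, up n, up (up n)`

`n = k² + r₀`, `up n = 2k² + r₀ = m² + r₁`, `up (up n) = p² + r₂` with `p ∈ {2k, 2k - 1}`.
-/

namespace Pool.Agent.AddSq

/-- `Q(k,m) = 2k² - m²` -/
def Q (k m : ℤ) : ℤ := 2 * k ^ 2 - m ^ 2

theorem sqrt_block {k r : ℕ} (hr : r ≤ 2 * k) : Nat.sqrt (k * k + r) = k :=
  Nat.sqrt_add_eq k (by omega)

theorem sq_block {k r : ℕ} (hr : r ≤ 2 * k) : sq (k * k + r) = k * k := by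
  unfold sq; rw [sqrt_block hr]

theorem rem_block {k r : ℕ} (hr : r ≤ 2 * k) : rem (k * k + r) = r := by
  unfold rem; rw [sq_block hr]; omega

theorem up_block {k r : ℕ} (hr : r ≤ 2 * k) : up (k * k + r) = 2 * (k * k) + r := by
  unfold up; rw [sq_block hr]; omega

theorem sq_mono {a b : ℕ} (h : a ≤ b) : sq a ≤ sq b := by
  have := Nat.sqrt_le_sqrt h
  exact Nat.mul_le_mul this this

theorem up_strictMono : StrictMono up := by
  intro a b h
  have := sq_mono h.le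
  unfold up
  omega

theorem up_le_two_mul (n : ℕ) : up n ≤ 2 * n := by
  have := sq_le n
  unfold up
  omega

theorem up_eq (n : ℕ) : up n = 2 * (Nat.sqrt n * Nat.sqrt n) + rem n := by
  have := sq_add_rem n
  unfold up sq
  omega

/-- `r₁ = r₀ + Q(k, m)` -/
theorem rem_up (n : ℕ) :
    (rem (up n) : ℤ) = rem n + Q (Nat.sqrt n) (Nat.sqrt (up n)) := by
  have h1 := up_eq n
  have h2 := sq_add_rem (up n)
  have h3 : (Nat.sqrt (up n) : ℤ) * Nat.sqrt (up n) + rem (up n)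
      = 2 * (Nat.sqrt n * Nat.sqrt n) + rem n := by
    have : Nat.sqrt (up n) * Nat.sqrt (up n) + rem (up n)
      = 2 * (Nat.sqrt n * Nat.sqrt n) + rem n := by rw [h2, ← h1]
    exact_mod_cast this
  unfold Q
  linarith

/-- the strip: `m² ≤ 2k² + 2k`, `2k² ≤ m² + 2m` for `m = √(up n)`, `k = √n` -/
theorem strip (n : ℕ) :
    Nat.sqrt (up n) * Nat.sqrt (up n) ≤ 2 * (Nat.sqrt n * Nat.sqrt n) + 2 * Nat.sqrt n ∧
    2 * (Nat.sqrt n * Nat.sqrt n) ≤
      Nat.sqrt (up n) * Nat.sqrt (up n) + 2 * Nat.sqrt (up n) := by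
  have h1 := up_eq n
  have h2 := sq_add_rem (up n)
  have h3 := rem_le_two_sqrt n
  have h4 := rem_le_two_sqrt (up n)
  constructor <;> omega

theorem sqrt_up_le {n : ℕ} (hk : 2 ≤ Nat.sqrt n) :
    Nat.sqrt (up n) ≤ 2 * Nat.sqrt n - 1 := by
  obtain ⟨h, _⟩ := strip n
  by_contra hc
  have h1 : 2 * Nat.sqrt n ≤ Nat.sqrt (up n) := by omega
  have h2 : (2 * Nat.sqrt n) * (2 * Nat.sqrt n) ≤ Nat.sqrt (up n) * Nat.sqrt (up n) :=
    Nat.mul_le_mul h1 h1
  nlinarith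

theorem sqrt_le_sqrt_up (n : ℕ) : Nat.sqrt n ≤ Nat.sqrt (up n) :=
  Nat.sqrt_le_sqrt (by unfold up; omega)

/-- the second up move: `up (up n) = 4k² + 2r₀ - r₁` -/
theorem up_up (n : ℕ) :
    (up (up n) : ℤ) = 4 * (Nat.sqrt n : ℤ) ^ 2 + 2 * rem n - rem (up n) := by
  have h1 := up_eq n
  have h2 := sq_add_rem (up n)
  have h3 := up_eq (up n)
  have e1 : (up n : ℤ) = 2 * (Nat.sqrt n * Nat.sqrt n) + rem n := by exact_mod_cast h1
  have e2 : (Nat.sqrt (up n) : ℤ) * Nat.sqrt (up n) + rem (up n) = up n := by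
    exact_mod_cast h2
  have e3 : (up (up n) : ℤ) = 2 * (Nat.sqrt (up n) * Nat.sqrt (up n)) + rem (up n) := by
    exact_mod_cast h3
  nlinarith

/-- Case `r₁ ≤ 2 r₀`: `p = 2k`, `r₂ = 2 r₀ - r₁`. -/
theorem case_even {n : ℕ} (h : rem (up n) ≤ 2 * rem n) :
    Nat.sqrt (up (up n)) = 2 * Nat.sqrt n ∧
    (rem (up (up n)) : ℤ) = 2 * rem n - rem (up n) := by
  have h1 := up_up n
  have h2 := rem_le_two_sqrt n
  have e : up (up n) = (2 * Nat.sqrt n) * (2 * Nat.sqrt n) + (2 * rem n - rem (up n)) := by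
    have : ((up (up n) : ℕ) : ℤ)
        = (((2 * Nat.sqrt n) * (2 * Nat.sqrt n) + (2 * rem n - rem (up n)) : ℕ) : ℤ) := by
      rw [h1]
      push_cast [Nat.cast_sub h]
      ring
    exact_mod_cast this
  have hb : 2 * rem n - rem (up n) ≤ 2 * (2 * Nat.sqrt n) := by omega
  refine ⟨?_, ?_⟩
  · rw [e, sqrt_block hb]
  · rw [e, rem_block hb]
    push_cast [Nat.cast_sub h]
    ring

/-- Case `r₁ > 2 r₀`: `p = 2k - 1`, `r₂ = 4k - 1 + 2 r₀ - r₁`. -/
theorem case_odd {n : ℕ} (h : 2 * rem n < rem (up n)) :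
    Nat.sqrt (up (up n)) + 1 = 2 * Nat.sqrt n ∧
    (rem (up (up n)) : ℤ) = 4 * Nat.sqrt n - 1 + 2 * rem n - rem (up n) := by
  have h1 := up_up n
  have h4 := rem_le_two_sqrt (up n)
  -- `k ≥ 1`
  have hk1 : 1 ≤ Nat.sqrt n := by
    by_contra hc
    have h0 : Nat.sqrt n = 0 := by omega
    have hn : n = 0 := by
      have := Nat.sqrt_eq_zero.mp h0
      exact this
    subst hn
    rw [up_zero, rem_zero] at h
    omega
  have hm : Nat.sqrt (up n) ≤ 2 * Nat.sqrt n - 1 := by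
    rcases Nat.lt_or_ge 1 (Nat.sqrt n) with hk | hk
    · exact sqrt_up_le hk
    · have hk' : Nat.sqrt n = 1 := by omega
      obtain ⟨s1, s2⟩ := strip n
      rw [hk'] at s1 s2 ⊢
      by_contra hc
      have h5 : Nat.sqrt (up n) = 2 := by
        have : Nat.sqrt (up n) < 3 := by
          by_contra hc2
          have : 3 * 3 ≤ Nat.sqrt (up n) * Nat.sqrt (up n) :=
            Nat.mul_le_mul (by omega) (by omega)
          omega
        omega
      -- then `up n = 4 + r₁ = 2 + r₀` with `r₀ ≤ 2`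
      have h6 := up_eq n
      have h7 := sq_add_rem (up n)
      have h8 := rem_le_two_sqrt n
      rw [h5] at h7
      rw [hk'] at h6 h8
      omega
  have hsub : 1 ≤ 2 * Nat.sqrt n := by omega
  obtain ⟨K, hK⟩ : ∃ K, 2 * Nat.sqrt n = K + 1 := ⟨2 * Nat.sqrt n - 1, by omega⟩
  have hKz : (2 : ℤ) * Nat.sqrt n = K + 1 := by exact_mod_cast hK
  obtain ⟨R, hR⟩ : ∃ R, 2 * K + 1 + 2 * rem n = R + rem (up n) :=
    ⟨2 * K + 1 + 2 * rem n - rem (up n), by omega⟩
  have hRz : (2 : ℤ) * K + 1 + 2 * rem n = R + rem (up n) := by exact_mod_cast hR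
  have e : up (up n) = K * K + R := by
    have : ((up (up n) : ℕ) : ℤ) = ((K * K + R : ℕ) : ℤ) := by
      rw [h1]
      push_cast
      nlinarith
    exact_mod_cast this
  have hb : R ≤ 2 * K := by omega
  refine ⟨?_, ?_⟩
  · rw [e, sqrt_block hb, hK]
  · rw [e, rem_block hb]
    linarith

/-- Case `p = 2k`: `r₀ - r₂ = Q(k, m)`. -/
theorem lag_two_even {n : ℕ} (h : rem (up n) ≤ 2 * rem n) :
    (rem n : ℤ) - rem (up (up n)) = Q (Nat.sqrt n) (Nat.sqrt (up n)) := by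
  have h1 := (case_even h).2
  have h2 := rem_up n
  linarith

/-- Case `p = 2k - 1`: `r₀ - r₂ = Q(k - 1, m) - 1`. -/
theorem lag_two_odd {n : ℕ} (h : 2 * rem n < rem (up n)) :
    (rem n : ℤ) - rem (up (up n)) = Q (Nat.sqrt n - 1) (Nat.sqrt (up n)) - 1 := by
  have h1 := (case_odd h).2
  have h2 := rem_up n
  unfold Q at *
  linarith

end Pool.Agent.AddSq
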