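import Pool.Agent.AddSq.Leaf

/-!
# Assembly of tables from blocks
-/

namespace Pool.Agent.AddSq

/-- evaluates the argument first -/
noncomputable def frc (g : ℕ → ℕ) (k : ℕ) : ℕ :=
  @Nat.rec (fun _ => ℕ) (g 0) (fun j _ => g (Nat.succ j)) k

theorem frc_eq (g : ℕ → ℕ) (k : ℕ) : frc g k = g k := by
  cases k <;> rfl

/-- union of the blocks `k, …, k + 2 ^ e - 1`, relative to `k²` -/
noncomputable def asm (f : ℕ → ℕ) (e : ℕ) : ℕ → ℕ :=
  @Nat.rec (fun _ => ℕ → ℕ) (frc f)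
    (fun d ih => frc (fun k => Nat.lor (ih k)
      (Nat.shiftLeft (ih (Nat.add k (Nat.shiftLeft 1 d)))
        (Nat.sub (sqr (Nat.add k (Nat.shiftLeft 1 d))) (sqr k))))) e

theorem asm_zero (f : ℕ → ℕ) (k : ℕ) : asm f 0 k = f k := frc_eq f k

theorem asm_succ (f : ℕ → ℕ) (e k : ℕ) :
    asm f (e + 1) k = asm f e k |||
      (asm f e (k + 2 ^ e)) <<< ((k + 2 ^ e) * (k + 2 ^ e) - k * k) := by
  have h : asm f (e + 1) k = frc (fun k => Nat.lor (asm f e k)
      (Nat.shiftLeft (asm f e (Nat.add k (Nat.shiftLeft 1 e)))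
        (Nat.sub (sqr (Nat.add k (Nat.shiftLeft 1 e))) (sqr k)))) k := rfl
  rw [h, frc_eq]
  change asm f e k ||| (asm f e (k + 1 <<< e)) <<< ((k + 1 <<< e) * (k + 1 <<< e) - k * k) = _
  rw [Nat.one_shiftLeft]

theorem asm_testBit {f : ℕ → ℕ} {e : ℕ} : ∀ {k j i : ℕ}, k ≤ j → j < k + 2 ^ e →
    (f j).testBit i = true → (asm f e k).testBit (j * j - k * k + i) = true := by
  induction e with
  | zero =>
    intro k j i h1 h2 h
    have : j = k := by
      rw [pow_zero] at h2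
      omega
    subst this
    rw [asm_zero, Nat.sub_self, Nat.zero_add]
    exact h
  | succ e ih =>
    intro k j i h1 h2 h
    rw [asm_succ, Nat.testBit_or, Bool.or_eq_true]
    rcases Nat.lt_or_ge j (k + 2 ^ e) with h3 | h3
    · exact Or.inl (ih h1 h3 h)
    · right
      have h4 := ih (k := k + 2 ^ e) h3 (by rw [pow_succ] at h2; omega) h
      rw [Nat.testBit_shiftLeft]
      have h5 : (k + 2 ^ e) * (k + 2 ^ e) ≤ j * j := Nat.mul_le_mul h3 h3
      have h6 : k * k ≤ (k + 2 ^ e) * (k + 2 ^ e) := Nat.mul_le_mul (by omega) (by omega)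
      rw [Bool.and_eq_true]
      refine ⟨by rw [decide_eq_true_eq]; omega, ?_⟩
      have e1 : j * j - k * k + i - ((k + 2 ^ e) * (k + 2 ^ e) - k * k) =
          j * j - (k + 2 ^ e) * (k + 2 ^ e) + i := by omega
      rw [e1]
      exact h4

/-- whole block -/
def whole (f : ℕ → ℕ → ℕ → ℕ) (k : ℕ) : ℕ := f k 0 (Nat.succ (Nat.mul 2 k))

theorem Sup.whole {f : ℕ → ℕ → ℕ → ℕ} {P : ℕ → Prop} {B k i : ℕ} (h : Sup f P B)
    (h1 : 1 ≤ k) (h2 : k ≤ B) (hi : i ≤ 2 * k) (hP : P (k * k + i)) :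
    (AddSq.whole f k).testBit i = true := by
  apply h k 0 _ i h1 h2
  · change 0 + (2 * k + 1) ≤ 2 * k + 1
    omega
  · change i < 2 * k + 1
    omega
  · simpa using hP

/-- the table `w` below `K²` together with the blocks `K, …, K + 2 ^ e - 1` from `f` -/
noncomputable def ext (w : ℕ) (f : ℕ → ℕ → ℕ → ℕ) (K e : ℕ) : ℕ :=
  Nat.lor w (Nat.shiftLeft (asm (whole f) e K) (sqr K))

theorem ext_testBit {w K e B : ℕ} {f : ℕ → ℕ → ℕ → ℕ} {P : ℕ → Prop}
    (hw : ∀ n < K * K, P n → w.testBit n = true) (hf : Sup f P B) (hK : 1 ≤ K)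
    (hB : K + 2 ^ e ≤ B + 1) :
    ∀ n < (K + 2 ^ e) * (K + 2 ^ e), P n → (ext w f K e).testBit n = true := by
  intro n hn hP
  change (w ||| (asm (whole f) e K) <<< (K * K)).testBit n = true
  rw [Nat.testBit_or, Bool.or_eq_true]
  rcases Nat.lt_or_ge n (K * K) with h | h
  · exact Or.inl (hw n h hP)
  · right
    have h1 : K ≤ Nat.sqrt n := Nat.le_sqrt.mpr h
    have h2 : Nat.sqrt n < K + 2 ^ e := Nat.sqrt_lt.mpr hn
    have h3 := Nat.sqrt_le n
    have h4 := Nat.sqrt_le_add n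
    obtain ⟨i, hi⟩ : ∃ i, n = Nat.sqrt n * Nat.sqrt n + i := ⟨n - Nat.sqrt n * Nat.sqrt n, by omega⟩
    generalize Nat.sqrt n = k at *
    subst hi
    have h5 : (whole f k).testBit i = true :=
      hf.whole (by omega) (by omega) (by omega) hP
    have h6 := asm_testBit (e := e) (f := whole f) h1 h2 h5
    rw [Nat.testBit_shiftLeft, Bool.and_eq_true]
    have h7 : K * K ≤ k * k := Nat.mul_le_mul h1 h1
    refine ⟨by rw [decide_eq_true_eq]; omega, ?_⟩
    have e1 : k * k + i - K * K = k * k - K * K + i := by omega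
    rw [e1]
    exact h6

theorem tab_ext {w l K d e : ℕ} (hT : Tab w l Win Lost (K * K)) (hK : 1 ≤ K)
    (h1 : 2 * last (K + 2 ^ e) (2 * d + 1) + 1 ≤ K * K)
    (h2 : last (K + 2 ^ e) (2 * d + 1) ≤ 2 ^ 31) :
    Tab (ext w (WW w l d) K e) (ext l (LL w l d) K e) Win Lost
      ((K + 2 ^ e) * (K + 2 ^ e)) := by
  have hs := sup_LL_WW hT rules_win_lost d
  have e1 : last (K + 2 ^ e) (2 * d + 1) =
      last ((3 * (K + 2 ^ e) + 3) / 2) (2 * d) := rfl
  have hs2 : Sup (LL w l d) Lost (K + 2 ^ e) :=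
    (hs.1 ((3 * (K + 2 ^ e) + 3) / 2) Lost rules_win_lost.lost (by omega) (by omega)).anti
      (by omega)
  exact ⟨ext_testBit hT.1 (hs.2 (K + 2 ^ e) h1 h2) hK (by omega),
    ext_testBit hT.2 hs2 hK (by omega)⟩

end Pool.Agent.AddSq
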