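import Pool.Agent.AddSq.Window

/-!
# The normal form of the window inequalities (weighted form)
-/

namespace Pool.Agent.AddSq

open Finset

theorem winSet_filter {x y : ℕ} (h : x ≤ y) :
    (winSet y).filter (fun a => a ≤ x) = winSet x := by
  ext n
  rw [mem_filter, mem_winSet, mem_winSet]
  constructor
  · rintro ⟨⟨_, h1⟩, h2⟩
    exact ⟨h2, h1⟩
  · rintro ⟨h1, h2⟩
    exact ⟨⟨h1.trans h, h2⟩, h1⟩

theorem sum_winSet_filter (c K z : ℕ) :
    ∑ k ∈ Ico K z, (((winSet (c * (z - 1))).filter (fun a => a ≤ c * k)).card : ℝ) =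
      ((∑ k ∈ Ico K z, cW (c * k) : ℕ) : ℝ) := by
  push_cast
  apply sum_congr rfl
  intro k hk
  rw [mem_Ico] at hk
  have h : c * k ≤ c * (z - 1) := Nat.mul_le_mul_left c (by omega)
  rw [winSet_filter h]
  rfl

/-- **Normal form of the window inequality.** -/
theorem normal_form {K₀ S1 S2 : ℕ} (hK₀ : 1 ≤ K₀) (h1 : LagBound1 K₀ S1) (h2 : LagBound2 K₀ S2)
    {K z R : ℕ} (hK : K₀ ≤ K) (hKz : K ≤ z) (hw : 3 * (z - K) ≤ 2 * K)
    (hR : 8 * ((z - 1) * z) ≤ R * R) :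
    ∃ N1 N2 : ℕ, cL (z * z - 1) ≤ cL (K * K - 1) + N1 + N2 ∧
      (110 * N1) ^ 2 ≤ (110 * cW (2 * (z - 1)) + ∑ k ∈ Ico K z, cW (2 * k)) *
        (110 * N1 + S1 * (cL R) ^ 2) ∧
      (110 * N2) ^ 2 ≤ (110 * cW (4 * (z - 1)) + ∑ k ∈ Ico K z, cW (4 * k)) *
        (110 * N2 + S2 * (cW (2 * (z - 1))) ^ 2) := by
  have e : K + (z - K) = z := by omega
  refine ⟨_, _, cL_window' (R := R) (by omega) hKz hR, ?_, ?_⟩
  · have h := h1 K (z - K) (winSet (2 * (z - 1))) (lostSet R) hK hw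
    rw [e, sum_winSet_filter 2 K z] at h
    have h' : ((110 : ℝ) * ((pairs1 (winSet (2 * (z - 1))) (lostSet R) K (z - K)).card : ℕ)) ^ 2 ≤
      (110 * (cW (2 * (z - 1)) : ℝ) + ((∑ k ∈ Ico K z, cW (2 * k) : ℕ) : ℝ)) *
        (110 * ((pairs1 (winSet (2 * (z - 1))) (lostSet R) K (z - K)).card : ℕ) +
          S1 * (cL R : ℝ) ^ 2) := h
    exact_mod_cast h'
  · have h := h2 K (z - K) (winSet (2 * (z - 1))) (winSet (4 * (z - 1))) hK hw
    rw [e, sum_winSet_filter 4 K z] at h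
    have h' : ((110 : ℝ) * ((pairs2 (winSet (2 * (z - 1))) (winSet (4 * (z - 1))) K
          (z - K)).card : ℕ)) ^ 2 ≤
      (110 * (cW (4 * (z - 1)) : ℝ) + ((∑ k ∈ Ico K z, cW (4 * k) : ℕ) : ℝ)) *
        (110 * ((pairs2 (winSet (2 * (z - 1))) (winSet (4 * (z - 1))) K (z - K)).card : ℕ) +
          S2 * (cW (2 * (z - 1)) : ℝ) ^ 2) := h
    exact_mod_cast h'

end Pool.Agent.AddSq
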