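import Pool.Agent.AddSq.Gen
import Pool.Agent.AddSq.Window2

/-!
# The normal form for arbitrary sets satisfying the rules
-/

namespace Pool.Agent.AddSq

namespace GW

open Finset

variable {W L : ℕ → Prop}

open Classical in
/-- `{n ≤ y : W n}` -/
noncomputable def gset (W : ℕ → Prop) (y : ℕ) : Finset ℕ := (Icc 0 y).filter W

theorem mem_gset {y n : ℕ} : n ∈ gset W y ↔ n ≤ y ∧ W n := by
  classical
  simp [gset]

theorem gcount_eq (y : ℕ) : gcount W y = (gset W y).card := rfl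

theorem gcount_mono (W : ℕ → Prop) : Monotone (gcount W) := by
  intro x y h
  rw [gcount_eq, gcount_eq]
  apply card_le_card
  intro n hn
  rw [mem_gset] at hn ⊢
  exact ⟨hn.1.trans h, hn.2⟩

theorem gcount_le (W : ℕ → Prop) (x : ℕ) : gcount W x ≤ x + 1 := by
  classical
  rw [gcount_eq]
  unfold gset
  refine (card_filter_le _ _).trans ?_
  simp

theorem gcount_le_of_pos (hW : ∀ n, W n → 1 ≤ n) (x : ℕ) : gcount W x ≤ x := by
  rw [gcount_eq]
  have h : gset W x ⊆ Icc 1 x := by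
    intro n hn
    rw [mem_gset] at hn
    exact mem_Icc.mpr ⟨hW n hn.2, hn.1⟩
  refine (card_le_card h).trans ?_
  simp

/-- the wins up to `x` -/
theorem gwin (h : GRules W L) (x : ℕ) :
    gcount W x ≤ (∑ k ∈ Icc 1 (Nat.sqrt x), gcount L (2 * k)) + gcount L (2 * x) := by
  classical
  have hsub : gset W x ⊆
      ((Icc 1 (Nat.sqrt x)).biUnion (fun k => (gset L (2 * k)).image (fun a => k * k + a))) ∪
        ((gset L (2 * x)).filter (fun m => ∃ n, up n = m)).preimage up
          (up_strictMono.injective.injOn) := by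
    intro n hn
    rw [mem_gset] at hn
    obtain ⟨hnx, hw⟩ := hn
    have h1 := h.wpos n hw
    rw [mem_union]
    rcases h.w n h1 hw with h2 | h2
    · left
      rw [mem_biUnion]
      refine ⟨Nat.sqrt n, ?_, ?_⟩
      · rw [mem_Icc]
        exact ⟨Nat.sqrt_pos.mpr h1, Nat.sqrt_le_sqrt hnx⟩
      · rw [mem_image]
        refine ⟨rem n, ?_, sq_add_rem n⟩
        rw [mem_gset]
        exact ⟨rem_le_two_sqrt n, h2⟩
    · right
      rw [mem_preimage, mem_filter, mem_gset]
      refine ⟨⟨?_, h2⟩, n, rfl⟩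
      have := up_le_two_mul n
      omega
  rw [gcount_eq]
  refine (card_le_card hsub).trans ((card_union_le _ _).trans (Nat.add_le_add ?_ ?_))
  · refine card_biUnion_le.trans (sum_le_sum (fun k _ => ?_))
    exact card_image_le
  · rw [gcount_eq]
    refine (card_le_card_of_injOn up ?_ up_strictMono.injective.injOn).trans
      (card_le_card (filter_subset (fun m => ∃ n, up n = m) (gset L (2 * x))))
    intro n hn
    rw [mem_coe, mem_preimage] at hn
    exact mem_coe.mpr hn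

open Classical in
/-- positions of the window with `r₀ ∈ W`, `r₁ ∈ L` -/
noncomputable def gwin1 (W L : ℕ → Prop) (K H : ℕ) : Finset ℕ :=
  (Ico (K * K) ((K + H) * (K + H))).filter (fun n => W (rem n) ∧ L (rem (up n)))

open Classical in
/-- positions of the window with `r₀, r₂ ∈ W` -/
noncomputable def gwin2 (W : ℕ → Prop) (K H : ℕ) : Finset ℕ :=
  (Ico (K * K) ((K + H) * (K + H))).filter (fun n => W (rem n) ∧ W (rem (up (up n))))

theorem gloss_window (h : GRules W L) {K : ℕ} (hK : 1 ≤ K) (H : ℕ) :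
    gcount L ((K + H) * (K + H) - 1) ≤
      gcount L (K * K - 1) + (gwin1 W L K H).card + (gwin2 W K H).card := by
  classical
  have hK2 : 1 ≤ K * K := Nat.mul_pos hK hK
  have hsub : gset L ((K + H) * (K + H) - 1) ⊆
      gset L (K * K - 1) ∪ gwin1 W L K H ∪ gwin2 W K H := by
    intro n hn
    rw [mem_gset] at hn
    obtain ⟨h2, hl⟩ := hn
    rw [mem_union, mem_union, mem_gset]
    rcases Nat.lt_or_ge n (K * K) with hlt | hge
    · exact Or.inl (Or.inl ⟨by omega, hl⟩)
    · have hKH : 1 ≤ (K + H) * (K + H) := Nat.mul_pos (by omega) (by omega)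
      have hw : n ∈ Ico (K * K) ((K + H) * (K + H)) := by
        rw [mem_Ico]
        omega
      obtain ⟨h3, h4⟩ := h.l n (by omega) hl
      rcases h4 with h4 | ⟨h4, _⟩
      · left; right
        exact mem_filter.mpr ⟨hw, h3, h4⟩
      · right
        exact mem_filter.mpr ⟨hw, h3, h4⟩
  have h1 := card_le_card hsub
  have h2 := card_union_le (gset L (K * K - 1) ∪ gwin1 W L K H) (gwin2 W K H)
  have h3 := card_union_le (gset L (K * K - 1)) (gwin1 W L K H)
  rw [gcount_eq, gcount_eq]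
  omega

theorem gwin1_card_le {K H R : ℕ} (hR : 8 * ((K + H - 1) * (K + H)) ≤ R * R) :
    (gwin1 W L K H).card ≤ (pairs1 (gset W (2 * (K + H - 1))) (gset L R) K H).card := by
  classical
  apply card_le_card_of_injOn (fun n => (rem n, Nat.sqrt n))
  · intro n hn
    rw [mem_coe, gwin1, mem_filter, mem_Ico] at hn
    obtain ⟨⟨h1, h2⟩, h3, h4⟩ := hn
    have hk1 : K ≤ Nat.sqrt n := by rw [Nat.le_sqrt]; exact h1
    have hk2 : Nat.sqrt n < K + H := by rw [Nat.sqrt_lt]; exact h2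
    have hr := rem_le_two_sqrt n
    have hn' : Nat.sqrt n * Nat.sqrt n + rem n = n := sq_add_rem n
    rw [mem_coe, pairs1, mem_filter, mem_product, mem_Ico, mem_gset]
    refine ⟨⟨⟨by simp only; omega, h3⟩, hk1, hk2⟩, hr, ?_⟩
    rw [mem_gset]
    refine ⟨r1_le' hr hk2 hR, ?_⟩
    simp only [r1]
    rw [hn']
    exact h4
  · intro n _ n' _ h
    simp only [Prod.mk.injEq] at h
    have h1 := sq_add_rem n
    have h2 := sq_add_rem n'
    rw [h.1, h.2] at h1
    omega

theorem gwin2_card_le (W : ℕ → Prop) (K H : ℕ) :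
    (gwin2 W K H).card ≤ (pairs2 (gset W (2 * (K + H - 1))) (gset W (4 * (K + H - 1))) K H).card := by
  classical
  apply card_le_card_of_injOn (fun n => (rem n, Nat.sqrt n))
  · intro n hn
    rw [mem_coe, gwin2, mem_filter, mem_Ico] at hn
    obtain ⟨⟨h1, h2⟩, h3, h4⟩ := hn
    have hk1 : K ≤ Nat.sqrt n := by rw [Nat.le_sqrt]; exact h1
    have hk2 : Nat.sqrt n < K + H := by rw [Nat.sqrt_lt]; exact h2
    have hr := rem_le_two_sqrt n
    have hn' : Nat.sqrt n * Nat.sqrt n + rem n = n := sq_add_rem n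
    rw [mem_coe, pairs2, mem_filter, mem_product, mem_Ico, mem_gset]
    refine ⟨⟨⟨by simp only; omega, h3⟩, hk1, hk2⟩, hr, ?_⟩
    rw [mem_gset]
    have h5 := r2_le hr
    refine ⟨by simp only; omega, ?_⟩
    simp only [r2]
    rw [hn']
    exact h4
  · intro n _ n' _ h
    simp only [Prod.mk.injEq] at h
    have h1 := sq_add_rem n
    have h2 := sq_add_rem n'
    rw [h.1, h.2] at h1
    omega

theorem gset_filter {x y : ℕ} (h : x ≤ y) :
    (gset W y).filter (fun a => a ≤ x) = gset W x := by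
  ext n
  rw [mem_filter, mem_gset, mem_gset]
  constructor
  · rintro ⟨⟨_, h1⟩, h2⟩
    exact ⟨h2, h1⟩
  · rintro ⟨h1, h2⟩
    exact ⟨⟨h1.trans h, h2⟩, h1⟩

theorem sum_gset_filter (c K z : ℕ) :
    ∑ k ∈ Ico K z, (((gset W (c * (z - 1))).filter (fun a => a ≤ c * k)).card : ℝ) =
      ((∑ k ∈ Ico K z, gcount W (c * k) : ℕ) : ℝ) := by
  push_cast
  apply sum_congr rfl
  intro k hk
  rw [mem_Ico] at hk
  have h : c * k ≤ c * (z - 1) := Nat.mul_le_mul_left c (by omega)
  rw [gset_filter h]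
  rfl

/-- the loss inequality of the normal form -/
theorem gloss (h : GRules W L) {K₀ S1 S2 : ℕ} (hK₀ : 1 ≤ K₀) (h1 : LagBound1 K₀ S1)
    (h2 : LagBound2 K₀ S2) {K z R : ℕ} (hK : K₀ ≤ K) (hKz : K ≤ z) (hw : 3 * (z - K) ≤ 2 * K)
    (hR : 8 * ((z - 1) * z) ≤ R * R) :
    ∃ N1 N2 : ℕ, gcount L (z * z - 1) ≤ gcount L (K * K - 1) + N1 + N2 ∧
      (110 * N1) ^ 2 ≤ (110 * gcount W (2 * (z - 1)) + ∑ k ∈ Ico K z, gcount W (2 * k)) *
        (110 * N1 + S1 * (gcount L R) ^ 2) ∧
      (110 * N2) ^ 2 ≤ (110 * gcount W (4 * (z - 1)) + ∑ k ∈ Ico K z, gcount W (4 * k)) *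
        (110 * N2 + S2 * (gcount W (2 * (z - 1))) ^ 2) := by
  have e : K + (z - K) = z := by omega
  refine ⟨(pairs1 (gset W (2 * (z - 1))) (gset L R) K (z - K)).card,
    (pairs2 (gset W (2 * (z - 1))) (gset W (4 * (z - 1))) K (z - K)).card, ?_, ?_, ?_⟩
  · have q1 := gloss_window h (K := K) (by omega) (z - K)
    have q2 := gwin1_card_le (W := W) (L := L) (K := K) (H := z - K) (R := R) (by rw [e]; exact hR)
    have q3 := gwin2_card_le W K (z - K)
    rw [e] at q1 q2 q3
    omega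
  · have h := h1 K (z - K) (gset W (2 * (z - 1))) (gset L R) hK hw
    rw [e, sum_gset_filter 2 K z] at h
    have h' : ((110 : ℝ) * ((pairs1 (gset W (2 * (z - 1))) (gset L R) K (z - K)).card : ℕ)) ^ 2 ≤
      (110 * (gcount W (2 * (z - 1)) : ℝ) + ((∑ k ∈ Ico K z, gcount W (2 * k) : ℕ) : ℝ)) *
        (110 * ((pairs1 (gset W (2 * (z - 1))) (gset L R) K (z - K)).card : ℕ) +
          S1 * (gcount L R : ℝ) ^ 2) := h
    exact_mod_cast h'
  · have h := h2 K (z - K) (gset W (2 * (z - 1))) (gset W (4 * (z - 1))) hK hw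
    rw [e, sum_gset_filter 4 K z] at h
    have h' : ((110 : ℝ) * ((pairs2 (gset W (2 * (z - 1))) (gset W (4 * (z - 1))) K
          (z - K)).card : ℕ)) ^ 2 ≤
      (110 * (gcount W (4 * (z - 1)) : ℝ) + ((∑ k ∈ Ico K z, gcount W (4 * k) : ℕ) : ℝ)) *
        (110 * ((pairs2 (gset W (2 * (z - 1))) (gset W (4 * (z - 1))) K (z - K)).card : ℕ) +
          S2 * (gcount W (2 * (z - 1)) : ℝ) ^ 2) := h
    exact_mod_cast h'

end GW

/-- **The normal form for arbitrary sets with the rules.** -/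
theorem sysW_of_rules {W L : ℕ → Prop} (h : GRules W L) {S1 S2 K0 : ℕ} (hK0 : 1 ≤ K0)
    (h1 : LagBound1 K0 S1) (h2 : LagBound2 K0 S2) : SysW S1 S2 K0 (gcount W) (gcount L) where
  monoW := GW.gcount_mono W
  monoL := GW.gcount_mono L
  leW := GW.gcount_le_of_pos h.wpos
  leL := GW.gcount_le L
  win := GW.gwin h
  loss := fun _ _ _ hK hKz hw hR => GW.gloss h hK0 h1 h2 hK hKz hw hR

end Pool.Agent.AddSq
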