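import Pool.Agent.AddSq.Iface

/-!
# Generic form: supersets of the wins and of the lost positions

The counting argument uses only the following properties of the two sets.  They hold for the
true sets `Win`, `Lost` and for the computable supersets `Wp`, `Lp` (file `Approx`).
-/

namespace Pool.Agent.AddSq

open Finset

/-- the rules used by the counting argument -/
structure GRules (W L : ℕ → Prop) : Prop where
  /-- `0` is a lost position -/
  l0 : L 0
  /-- wins are positive -/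
  wpos : ∀ n, W n → 1 ≤ n
  /-- a win: `r₀` is lost or `up n` is lost -/
  w : ∀ n, 1 ≤ n → W n → L (rem n) ∨ L (up n)
  /-- a lost position `n ≥ 1`: the rule truncated at `r₄` -/
  l : ∀ n, 1 ≤ n → L n → W (rem n) ∧ (L (rem (up n)) ∨ (W (rem (up (up n))) ∧
    (L (rem (up (up (up n)))) ∨ W (rem (up (up (up (up n))))))))
  /-- below `2200²` there are no further elements -/
  small : ∀ n < 2200 * 2200, (W n → Win n) ∧ (L n → Lost n)

open Classical in
/-- `#{n ∈ [0, x] : W n}` -/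
noncomputable def gcount (W : ℕ → Prop) (x : ℕ) : ℕ := ((Icc 0 x).filter W).card

/-- `Valid` for arbitrary counting functions -/
def ValidF (cW cL : ℕ → ℕ) (M X : ℕ) (u b : ℝ) : Prop := ∀ x : ℕ, 1 ≤ x → x ≤ X →
  (cW x : ℝ) ≤ u * max (x : ℝ) (Real.sqrt ((x : ℝ) * M)) ∧
  (cL x : ℝ) ≤ b * max (x : ℝ) (Real.sqrt ((x : ℝ) * M))

/-- what the real analysis and the levels use (weighted normal form) -/
structure SysW (S1 S2 K0 : ℕ) (cW cL : ℕ → ℕ) : Prop where
  monoW : Monotone cW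
  monoL : Monotone cL
  leW : ∀ x, cW x ≤ x
  leL : ∀ x, cL x ≤ x + 1
  win : ∀ x, cW x ≤ (∑ k ∈ Finset.Icc 1 (Nat.sqrt x), cL (2 * k)) + cL (2 * x)
  loss : ∀ K z R, K0 ≤ K → K ≤ z → 3 * (z - K) ≤ 2 * K → 8 * ((z - 1) * z) ≤ R * R →
    ∃ N1 N2 : ℕ, cL (z * z - 1) ≤ cL (K * K - 1) + N1 + N2 ∧
      (110 * N1) ^ 2 ≤ (110 * cW (2 * (z - 1)) + ∑ k ∈ Ico K z, cW (2 * k)) *
        (110 * N1 + S1 * (cL R) ^ 2) ∧
      (110 * N2) ^ 2 ≤ (110 * cW (4 * (z - 1)) + ∑ k ∈ Ico K z, cW (4 * k)) *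
        (110 * N2 + S2 * (cW (2 * (z - 1))) ^ 2)

end Pool.Agent.AddSq
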