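import Pool.Agent.AddSq.Final
import Pool.Agent.AddSq.Gen

/-!
# From the step to density one (block E of MP_006ce8_co)

Everything is generic: `cW`, `cL` are the two counting functions, `StepThm c₁ c₂ c₃ c₄ cW cL` is
the statement of the step theorem with its four numerical constants.
-/

namespace Pool.Agent.AddSq

open Finset

/-- The statement of the step theorem (constants `c₁ … c₄`). -/
def StepThm (c₁ c₂ c₃ c₄ : ℝ) (cW cL : ℕ → ℕ) : Prop :=
  ∀ (M X : ℕ) (u b p q : ℝ), 32 * M ≤ X → ValidF cW cL M X u b → 0 < u → 0 < b → 0 < p → 0 < q →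
    c₁ * u * p + c₂ * u * b ^ 2 ≤ p ^ 2 → c₃ * u * q + c₄ * u ^ 3 ≤ q ^ 2 → p + q ≤ 0.01 →
    10 ^ 9 ≤ (p + q) * (M : ℝ) →
    ValidF cW cL (M ^ 2) (X ^ 2 / 32) (1.09 * b + 2.1 * (p + q)) (1.1 * (p + q))

theorem ValidF.mono {cW cL : ℕ → ℕ} {M X : ℕ} {u b u' b' : ℝ} (h : ValidF cW cL M X u b)
    (hu : u ≤ u') (hb : b ≤ b') {X' : ℕ} (hX : X' ≤ X) : ValidF cW cL M X' u' b' := by
  intro x hx1 hx
  have h0 : (0 : ℝ) ≤ max (x : ℝ) (Real.sqrt ((x : ℝ) * M)) :=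
    le_trans (Nat.cast_nonneg x) (le_max_left _ _)
  obtain ⟨h1, h2⟩ := h x hx1 (hx.trans hX)
  exact ⟨h1.trans (mul_le_mul_of_nonneg_right hu h0), h2.trans (mul_le_mul_of_nonneg_right hb h0)⟩

/-- Parameters which are contracted by the factor `lam` in one step. -/
structure Contr (c₁ c₂ c₃ c₄ u b p q lam : ℝ) : Prop where
  hc1 : 0 ≤ c₁
  hc2 : 0 ≤ c₂
  hc3 : 0 ≤ c₃
  hc4 : 0 ≤ c₄
  hu : 0 < u
  hb : 0 < b
  hp : 0 < p
  hq : 0 < q
  hl0 : 0 < lam
  hl1 : lam < 1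
  hp2 : c₁ * u * p + c₂ * u * b ^ 2 ≤ p ^ 2
  hq2 : c₃ * u * q + c₄ * u ^ 3 ≤ q ^ 2
  hP : p + q ≤ 0.01
  hu' : 1.09 * b + 2.1 * (p + q) ≤ lam * u
  hb' : 1.1 * (p + q) ≤ lam * b

theorem levels {c₁ c₂ c₃ c₄ u b p q lam : ℝ} (hc : Contr c₁ c₂ c₃ c₄ u b p q lam)
    {cW cL : ℕ → ℕ} (hstep : StepThm c₁ c₂ c₃ c₄ cW cL) {M Y : ℕ} (hMY : M ≤ Y)
    (hM : 10 ^ 9 ≤ (p + q) * (M : ℝ)) (hM2 : 1 ≤ lam * (M : ℝ))
    (hv : ValidF cW cL M (32 * Y) u b) (j : ℕ) :
    ValidF cW cL (M ^ 2 ^ j) (32 * Y ^ 2 ^ j) (u * lam ^ j) (b * lam ^ j) ∧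
      10 ^ 9 ≤ (p + q) * lam ^ j * ((M ^ 2 ^ j : ℕ) : ℝ) := by
  have hl := hc.hl0
  have hpq : 0 < p + q := add_pos hc.hp hc.hq
  have hMpos : (1 : ℝ) ≤ (M : ℝ) := by
    by_contra hcon
    push Not at hcon
    have : (M : ℝ) = 0 := by
      have h1 : M < 1 := by exact_mod_cast hcon
      have h2 : M = 0 := by omega
      simp [h2]
    rw [this] at hM
    norm_num at hM
  induction j with
  | zero =>
    refine ⟨by simpa using hv, by simpa using hM⟩
  | succ j ih =>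
    obtain ⟨h1, h2⟩ := ih
    set s : ℝ := lam ^ j with hs
    have hs0 : 0 < s := pow_pos hl j
    have hs1 : s ≤ 1 := pow_le_one₀ hl.le hc.hl1.le
    have hs2 : 0 ≤ s ^ 2 := sq_nonneg s
    have hs3 : s ^ 3 ≤ s ^ 2 := by
      have : s ^ 3 = s ^ 2 * s := by ring
      rw [this]
      exact mul_le_of_le_one_right hs2 hs1
    have h3 := hstep (M ^ 2 ^ j) (32 * Y ^ 2 ^ j) (u * s) (b * s) (p * s) (q * s)
      (by exact Nat.mul_le_mul_left 32 (Nat.pow_le_pow_left hMY _)) h1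
      (mul_pos hc.hu hs0) (mul_pos hc.hb hs0) (mul_pos hc.hp hs0) (mul_pos hc.hq hs0)
      (by
        have e1 : c₁ * (u * s) * (p * s) + c₂ * (u * s) * (b * s) ^ 2 =
            c₁ * u * p * s ^ 2 + c₂ * u * b ^ 2 * s ^ 3 := by ring
        have e2 : (p * s) ^ 2 = p ^ 2 * s ^ 2 := by ring
        rw [e1, e2]
        have h5 : c₂ * u * b ^ 2 * s ^ 3 ≤ c₂ * u * b ^ 2 * s ^ 2 :=
          mul_le_mul_of_nonneg_left hs3
            (mul_nonneg (mul_nonneg hc.hc2 hc.hu.le) (sq_nonneg b))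
        have h6 := mul_le_mul_of_nonneg_right hc.hp2 hs2
        nlinarith)
      (by
        have e1 : c₃ * (u * s) * (q * s) + c₄ * (u * s) ^ 3 =
            c₃ * u * q * s ^ 2 + c₄ * u ^ 3 * s ^ 3 := by ring
        have e2 : (q * s) ^ 2 = q ^ 2 * s ^ 2 := by ring
        rw [e1, e2]
        have h5 : c₄ * u ^ 3 * s ^ 3 ≤ c₄ * u ^ 3 * s ^ 2 :=
          mul_le_mul_of_nonneg_left hs3 (mul_nonneg hc.hc4 (pow_nonneg hc.hu.le 3))
        have h6 := mul_le_mul_of_nonneg_right hc.hq2 hs2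
        nlinarith)
      (by
        have : p * s + q * s = (p + q) * s := by ring
        rw [this]
        exact (mul_le_of_le_one_right hpq.le hs1).trans hc.hP)
      (by
        have : p * s + q * s = (p + q) * s := by ring
        rw [this]
        exact h2)
    have hMM : M ^ 2 ^ (j + 1) = (M ^ 2 ^ j) ^ 2 := by rw [pow_succ, pow_mul]
    have hYY : 32 * Y ^ 2 ^ (j + 1) = (32 * Y ^ 2 ^ j) ^ 2 / 32 := by
      rw [pow_succ, pow_mul]
      have : (32 * Y ^ 2 ^ j) ^ 2 = 32 * (32 * (Y ^ 2 ^ j) ^ 2) := by ring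
      rw [this, Nat.mul_div_cancel_left _ (by norm_num)]
    constructor
    · rw [hMM, hYY]
      apply h3.mono _ _ le_rfl
      · have e1 : 1.09 * (b * s) + 2.1 * (p * s + q * s) = (1.09 * b + 2.1 * (p + q)) * s := by ring
        have e2 : u * lam ^ (j + 1) = (lam * u) * s := by rw [pow_succ]; ring
        rw [e1, e2]
        exact mul_le_mul_of_nonneg_right hc.hu' hs0.le
      · have e1 : 1.1 * (p * s + q * s) = (1.1 * (p + q)) * s := by ring
        have e2 : b * lam ^ (j + 1) = (lam * b) * s := by rw [pow_succ]; ring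
        rw [e1, e2]
        exact mul_le_mul_of_nonneg_right hc.hb' hs0.le
    · rw [hMM]
      push_cast
      push_cast at h2
      have hbig : (M : ℝ) ≤ (M : ℝ) ^ 2 ^ j := by
        calc (M : ℝ) = (M : ℝ) ^ 1 := (pow_one _).symm
          _ ≤ (M : ℝ) ^ 2 ^ j := pow_le_pow_right₀ hMpos Nat.one_le_two_pow
      have h5 : 1 ≤ lam * (M : ℝ) ^ 2 ^ j :=
        hM2.trans (mul_le_mul_of_nonneg_left hbig hl.le)
      have e1 : (p + q) * lam ^ (j + 1) * ((M : ℝ) ^ 2 ^ j) ^ 2 =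
          ((p + q) * s * (M : ℝ) ^ 2 ^ j) * (lam * (M : ℝ) ^ 2 ^ j) := by rw [pow_succ]; ring
      rw [e1]
      have h6 : (0 : ℝ) ≤ (p + q) * s * (M : ℝ) ^ 2 ^ j := by positivity
      calc (10 : ℝ) ^ 9 ≤ (p + q) * s * (M : ℝ) ^ 2 ^ j := h2
        _ = (p + q) * s * (M : ℝ) ^ 2 ^ j * 1 := (mul_one _).symm
        _ ≤ _ := mul_le_mul_of_nonneg_left h5 h6

/-- Few elements of the two sets on the intervals `[M^(2^j), 32 Y^(2^j)]`. -/
theorem few_on_intervals {c₁ c₂ c₃ c₄ u b p q lam : ℝ} (hc : Contr c₁ c₂ c₃ c₄ u b p q lam)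
    {cW cL : ℕ → ℕ} (hstep : StepThm c₁ c₂ c₃ c₄ cW cL) {M Y : ℕ} (hMY : M ≤ Y)
    (hM : 10 ^ 9 ≤ (p + q) * (M : ℝ)) (hM2 : 1 ≤ lam * (M : ℝ))
    (hv : ValidF cW cL M (32 * Y) u b) (j x : ℕ) (hx1 : M ^ 2 ^ j ≤ x)
    (hx2 : x ≤ 32 * Y ^ 2 ^ j) :
    ((cW x + cL x : ℕ) : ℝ) ≤ (u + b) * lam ^ j * x := by
  obtain ⟨h1, h2⟩ := levels hc hstep hMY hM hM2 hv j
  have hMj : 1 ≤ M ^ 2 ^ j := by
    apply Nat.one_le_pow
    rcases Nat.eq_zero_or_pos M with h0 | h0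
    · subst h0
      norm_num at hM
    · exact h0
  obtain ⟨h3, h4⟩ := h1 x (hMj.trans hx1) hx2
  have hmax : max (x : ℝ) (Real.sqrt ((x : ℝ) * ((M ^ 2 ^ j : ℕ) : ℝ))) = x := by
    apply max_eq_left
    rw [Real.sqrt_le_left (Nat.cast_nonneg x), pow_two]
    exact mul_le_mul_of_nonneg_left (by exact_mod_cast hx1) (Nat.cast_nonneg x)
  rw [hmax] at h3 h4
  push_cast
  nlinarith

/-- Complement counting. -/
theorem le_cnt_add {P W L : ℕ → Prop} (h : ∀ n, 1 ≤ n → ¬ P n → W n ∨ L n) (x : ℕ) :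
    x ≤ cnt P x + (gcount W x + gcount L x) := by
  classical
  have h1 : cnt P x + ((Icc 1 x).filter (fun n => ¬ P n)).card = x := by
    unfold cnt
    rw [card_filter_add_card_filter_not]
    simp
  have h2 : ((Icc 1 x).filter (fun n => ¬ P n)).card ≤ gcount W x + gcount L x := by
    unfold gcount
    refine le_trans (card_le_card ?_) (card_union_le _ _)
    intro n hn
    obtain ⟨hn1, hn2⟩ := mem_filter.1 hn
    have hn3 := mem_Icc.1 hn1
    rw [mem_union, mem_filter, mem_filter, mem_Icc]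
    rcases h n hn3.1 hn2 with h3 | h3
    · exact Or.inl ⟨⟨Nat.zero_le _, hn3.2⟩, h3⟩
    · exact Or.inr ⟨⟨Nat.zero_le _, hn3.2⟩, h3⟩
  omega

theorem cnt_le (P : ℕ → Prop) (x : ℕ) : cnt P x ≤ x := by
  classical
  unfold cnt
  calc ((Icc 1 x).filter P).card ≤ (Icc 1 x).card := card_filter_le _ _
    _ = x := by simp

/-- Upper density one from sparse complements at arbitrarily large `x`. -/
theorem limsup_cnt {P : ℕ → Prop}
    (h : ∀ ε : ℝ, 0 < ε → ∀ X : ℕ, ∃ x ≥ X, ((x : ℝ) - cnt P x) ≤ ε * x) :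
    Filter.limsup (fun x : ℕ => (cnt P x : ℝ) / x) Filter.atTop = 1 := by
  have hle : ∀ x : ℕ, (cnt P x : ℝ) / x ≤ 1 := by
    intro x
    rcases Nat.eq_zero_or_pos x with h0 | h0
    · subst h0; simp
    · rw [div_le_one (by exact_mod_cast h0)]
      exact_mod_cast cnt_le P x
  have hge : ∀ x : ℕ, 0 ≤ (cnt P x : ℝ) / x := fun x => by positivity
  have hb : Filter.IsBoundedUnder (· ≤ ·) Filter.atTop
      (fun x : ℕ => (cnt P x : ℝ) / x) :=
    Filter.isBoundedUnder_of ⟨1, hle⟩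
  have hc : Filter.IsCoboundedUnder (· ≤ ·) Filter.atTop
      (fun x : ℕ => (cnt P x : ℝ) / x) := by
    apply Filter.IsBoundedUnder.isCoboundedUnder_le
    exact Filter.isBoundedUnder_of ⟨0, hge⟩
  apply le_antisymm
  · exact Filter.limsup_le_of_le hc (Filter.Eventually.of_forall hle)
  · apply le_of_forall_pos_le_add
    intro ε hε
    have h1 : 1 - ε ≤ Filter.limsup (fun x : ℕ => (cnt P x : ℝ) / x) Filter.atTop := by
      apply Filter.le_limsup_of_frequently_le _ hb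
      rw [Filter.frequently_atTop]
      intro X
      obtain ⟨x, hx, hx2⟩ := h ε hε (max X 1)
      refine ⟨x, le_trans (le_max_left _ _) hx, ?_⟩
      have hx1 : 1 ≤ x := le_trans (le_max_right _ _) hx
      have hx0 : (0 : ℝ) < x := by exact_mod_cast hx1
      rw [le_div_iff₀ hx0]
      linarith
    linarith

/-- Density one along the intervals and upper density one, for every property `P` whose complement
lies in the union of the two sets. -/
theorem dense_of_step {c₁ c₂ c₃ c₄ u b p q lam : ℝ} (hc : Contr c₁ c₂ c₃ c₄ u b p q lam)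
    {P W L : ℕ → Prop} (hP : ∀ n, 1 ≤ n → ¬ P n → W n ∨ L n)
    (hstep : StepThm c₁ c₂ c₃ c₄ (gcount W) (gcount L)) {M Y : ℕ} (hMY : M ≤ Y)
    (hM : 10 ^ 9 ≤ (p + q) * (M : ℝ)) (hM2 : 1 ≤ lam * (M : ℝ))
    (hv : ValidF (gcount W) (gcount L) M (32 * Y) u b) :
    (∀ j x : ℕ, M ^ 2 ^ j ≤ x → x ≤ 32 * Y ^ 2 ^ j →
      (x : ℝ) - cnt P x ≤ (u + b) * lam ^ j * x) ∧
    Filter.limsup (fun x : ℕ => (cnt P x : ℝ) / x) Filter.atTop = 1 := by
  have h1 : ∀ j x : ℕ, M ^ 2 ^ j ≤ x → x ≤ 32 * Y ^ 2 ^ j →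
      (x : ℝ) - cnt P x ≤ (u + b) * lam ^ j * x := by
    intro j x hx1 hx2
    have h2 := few_on_intervals hc hstep hMY hM hM2 hv j x hx1 hx2
    have h3 : (x : ℝ) ≤ cnt P x + ((gcount W x + gcount L x : ℕ) : ℝ) := by
      exact_mod_cast le_cnt_add hP x
    linarith
  refine ⟨h1, limsup_cnt ?_⟩
  intro ε hε X
  have hMnat : 2 ≤ M := by
    by_contra hcon
    push Not at hcon
    have h2 : (M : ℝ) ≤ 1 := by exact_mod_cast (by omega : M ≤ 1)
    have h3 : (p + q) * (M : ℝ) ≤ 0.01 * 1 :=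
      mul_le_mul hc.hP h2 (Nat.cast_nonneg _) (by norm_num)
    have h4 : (10 : ℝ) ^ 9 ≤ 0.01 * 1 := hM.trans h3
    norm_num at h4
  obtain ⟨j0, hj0⟩ := exists_pow_lt_of_lt_one (div_pos hε (add_pos hc.hu hc.hb)) hc.hl1
  refine ⟨M ^ 2 ^ (max j0 X), ?_, ?_⟩
  · have h2 : X < 2 ^ X := Nat.lt_two_pow_self
    have h3 : 2 ^ X ≤ 2 ^ (max j0 X) := Nat.pow_le_pow_right (by norm_num) (le_max_right _ _)
    have h4 : 2 ^ (max j0 X) < M ^ 2 ^ (max j0 X) :=
      lt_of_lt_of_le Nat.lt_two_pow_self (Nat.pow_le_pow_left hMnat _)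
    show X ≤ M ^ 2 ^ (max j0 X)
    omega
  · have h2 := h1 (max j0 X) (M ^ 2 ^ (max j0 X)) le_rfl
      ((Nat.pow_le_pow_left hMY _).trans (Nat.le_mul_of_pos_left _ (by norm_num)))
    refine h2.trans (mul_le_mul_of_nonneg_right ?_ (Nat.cast_nonneg _))
    have h3 : lam ^ (max j0 X) ≤ lam ^ j0 :=
      pow_le_pow_of_le_one hc.hl0.le hc.hl1.le (le_max_left _ _)
    have h4 : lam ^ (max j0 X) ≤ ε / (u + b) := h3.trans hj0.le
    have hub : 0 < u + b := add_pos hc.hu hc.hb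
    rw [le_div_iff₀ hub] at h4
    linarith

/-- The constants of `step_gen`: the vector (.0055, .0018) is contracted by `.95`. -/
theorem contr_old : Contr 0.01137 6.69 0.02274 7.40 0.0055 0.0018 0.000378 0.001174 0.95 := by
  constructor <;> norm_num

/-- Weighted constants: the vector (.007, .0023) is contracted by `.953`. -/
theorem contr_weighted :
    Contr 0.0092 5.36 0.0184 5.93 0.007 0.0023 0.00048 0.0015 0.953 := by
  constructor <;> norm_num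

end Pool.Agent.AddSq
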