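import Mathlib

/-!
# MP_006ce8_co, block D': the real analysis of the step

Quadratic inequalities of one window, the fourth roots, the sum of `max (2 k, √(2 k M))`.
-/

set_option autoImplicit false

namespace Pool.Agent.AddSq

open Finset

theorem quad_root {x p a b : ℝ} (hx : 0 ≤ x) (hp : 0 < p) (hb : 0 ≤ b)
    (h1 : x ^ 2 ≤ a * x + b) (h2 : a * p + b ≤ p ^ 2) : x ≤ p := by
  by_contra hc
  push Not at hc
  have hx0 : 0 < x := hp.trans hc
  have h3 : x * (a * p + b) ≤ x * p ^ 2 := mul_le_mul_of_nonneg_left h2 hx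
  have h4 : x ^ 2 * p ≤ (a * x + b) * p := mul_le_mul_of_nonneg_right h1 hp.le
  have h5 : b * p ≤ b * x := mul_le_mul_of_nonneg_left hc.le hb
  have h6 : x * p * (x - p) ≤ 0 := by nlinarith
  have h7 : 0 < x * p * (x - p) := mul_pos (mul_pos hx0 hp) (by linarith)
  linarith

/-- monotonicity of the inequality of one lag -/
theorem lag_mono {N A A' H z B B' S : ℝ}
    (h : (110 * N) ^ 2 ≤ A * ((H + 110) * (110 * N + S * B ^ 2))) (hN : 0 ≤ N)
    (hA : A ≤ A') (hA' : 0 ≤ A') (hH0 : 0 ≤ H) (hH : H + 110 ≤ 0.400022 * z)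
    (hB : B ^ 2 ≤ B') (hS : 0 ≤ S) :
    12100 * N ^ 2 ≤ A' * ((0.400022 * z) * (110 * N + S * B')) := by
  have h1 : 0 ≤ 110 * N + S * B ^ 2 := by positivity
  have h2 : 110 * N + S * B ^ 2 ≤ 110 * N + S * B' := by
    have := mul_le_mul_of_nonneg_left hB hS
    linarith
  have h3 : (H + 110) * (110 * N + S * B ^ 2) ≤ (0.400022 * z) * (110 * N + S * B') :=
    mul_le_mul hH h2 h1 (by linarith)
  have h4 : A * ((H + 110) * (110 * N + S * B ^ 2)) ≤
      A' * ((0.400022 * z) * (110 * N + S * B')) :=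
    mul_le_mul hA h3 (mul_nonneg (by linarith) h1) hA'
  linarith

/-- lag one, window above `M / 2` -/
theorem flat_one {N z u b p : ℝ} (hN : 0 ≤ N) (hz : 0 < z) (hu : 0 < u) (hp0 : 0 < p)
    (hp : 0.01137 * u * p + 6.69 * u * b ^ 2 ≤ p ^ 2)
    (h : 12100 * N ^ 2 ≤ (2 * u * z) * ((0.400022 * z) * (110 * N + 5172 * (8 * b ^ 2 * z ^ 2)))) :
    N ≤ 0.64 * 0.9997 * p * z ^ 2 := by
  have hz2 : 0 < z ^ 2 := by positivity
  apply quad_root (a := 2 * 0.400022 / 110 * u * z ^ 2)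
    (b := 2 * 0.400022 * 8 * 5172 / 12100 * u * b ^ 2 * (z ^ 2) ^ 2) hN (by positivity)
    (by positivity)
  · nlinarith
  · have h1 : 0 ≤ u * p * (z ^ 2) ^ 2 := by positivity
    have h2 : 0 ≤ u * b ^ 2 * (z ^ 2) ^ 2 := by positivity
    have h3 : (0.64 * 0.9997) ^ 2 * (z ^ 2) ^ 2 * (0.01137 * u * p + 6.69 * u * b ^ 2) ≤
        (0.64 * 0.9997) ^ 2 * (z ^ 2) ^ 2 * p ^ 2 :=
      mul_le_mul_of_nonneg_left hp (by positivity)
    nlinarith

/-- lag two, window above `M / 2` -/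
theorem flat_two {N z u q : ℝ} (hN : 0 ≤ N) (hz : 0 < z) (hu : 0 < u) (hq0 : 0 < q)
    (hq : 0.02274 * u * q + 7.40 * u ^ 3 ≤ q ^ 2)
    (h : 12100 * N ^ 2 ≤ (4 * u * z) * ((0.400022 * z) * (110 * N + 5720 * (4 * u ^ 2 * z ^ 2)))) :
    N ≤ 0.64 * 0.9997 * q * z ^ 2 := by
  have hz2 : 0 < z ^ 2 := by positivity
  apply quad_root (a := 4 * 0.400022 / 110 * u * z ^ 2)
    (b := 4 * 0.400022 * 4 * 5720 / 12100 * u ^ 3 * (z ^ 2) ^ 2) hN (by positivity)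
    (by positivity)
  · nlinarith
  · have h1 : 0 ≤ u * q * (z ^ 2) ^ 2 := by positivity
    have h2 : 0 ≤ u ^ 3 * (z ^ 2) ^ 2 := by positivity
    have h3 : (0.64 * 0.9997) ^ 2 * (z ^ 2) ^ 2 * (0.02274 * u * q + 7.40 * u ^ 3) ≤
        (0.64 * 0.9997) ^ 2 * (z ^ 2) ^ 2 * q ^ 2 :=
      mul_le_mul_of_nonneg_left hq (by positivity)
    nlinarith

/-- lag one, window below `M / 2`, `z = w⁴ M` -/
theorem small_one {N M w u b p : ℝ} (hN : 0 ≤ N) (hM : 0 < M) (hw : 0 < w) (hw1 : w ≤ 0.8409)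
    (hu : 0 < u) (hp0 : 0 < p)
    (hp : 0.01137 * u * p + 6.69 * u * b ^ 2 ≤ p ^ 2)
    (h : 12100 * N ^ 2 ≤ (1.414214 * u * M * w ^ 2) *
      ((0.400022 * (w ^ 4 * M)) * (110 * N + 5172 * (4 * b ^ 2 * w ^ 4 * M ^ 2)))) :
    N ≤ 0.3806 * 0.9997 * p * M ^ 2 * w ^ 5 := by
  apply quad_root (a := 1.414214 * 0.400022 / 110 * u * M ^ 2 * w ^ 6)
    (b := 1.414214 * 0.400022 * 4 * 5172 / 12100 * u * b ^ 2 * M ^ 4 * w ^ 10) hN (by positivity)
    (by positivity)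
  · have e : (1.414214 * u * M * w ^ 2) *
      ((0.400022 * (w ^ 4 * M)) * (110 * N + 5172 * (4 * b ^ 2 * w ^ 4 * M ^ 2))) =
      12100 * (1.414214 * 0.400022 / 110 * u * M ^ 2 * w ^ 6 * N +
        1.414214 * 0.400022 * 4 * 5172 / 12100 * u * b ^ 2 * M ^ 4 * w ^ 10) := by ring
    rw [e] at h
    linarith
  · have h1 : 0 ≤ u * p * M ^ 4 * w ^ 10 := by positivity
    have h2 : 0 ≤ u * b ^ 2 * M ^ 4 * w ^ 10 := by positivity
    have h3 : (0.3806 * 0.9997) ^ 2 * (M ^ 4 * w ^ 10) * (0.01137 * u * p + 6.69 * u * b ^ 2) ≤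
        (0.3806 * 0.9997) ^ 2 * (M ^ 4 * w ^ 10) * p ^ 2 :=
      mul_le_mul_of_nonneg_left hp (by positivity)
    have h4 : u * p * M ^ 4 * w ^ 10 * w ≤ u * p * M ^ 4 * w ^ 10 * 0.8409 :=
      mul_le_mul_of_nonneg_left hw1 h1
    nlinarith

/-- lag two, window below `M / 2`, `z = w⁴ M` -/
theorem small_two {N M w u q : ℝ} (hN : 0 ≤ N) (hM : 0 < M) (hw : 0 < w) (hw1 : w ≤ 0.8409)
    (hu : 0 < u) (hq0 : 0 < q)
    (hq : 0.02274 * u * q + 7.40 * u ^ 3 ≤ q ^ 2)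
    (h : 12100 * N ^ 2 ≤ (2.828428 * u * M * w ^ 2) *
      ((0.400022 * (w ^ 4 * M)) * (110 * N + 5720 * (2 * u ^ 2 * w ^ 4 * M ^ 2)))) :
    N ≤ 0.3806 * 0.9997 * q * M ^ 2 * w ^ 5 := by
  apply quad_root (a := 2.828428 * 0.400022 / 110 * u * M ^ 2 * w ^ 6)
    (b := 2.828428 * 0.400022 * 2 * 5720 / 12100 * u ^ 3 * M ^ 4 * w ^ 10) hN (by positivity)
    (by positivity)
  · have e : (2.828428 * u * M * w ^ 2) *
      ((0.400022 * (w ^ 4 * M)) * (110 * N + 5720 * (2 * u ^ 2 * w ^ 4 * M ^ 2))) =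
      12100 * (2.828428 * 0.400022 / 110 * u * M ^ 2 * w ^ 6 * N +
        2.828428 * 0.400022 * 2 * 5720 / 12100 * u ^ 3 * M ^ 4 * w ^ 10) := by ring
    rw [e] at h
    linarith
  · have h1 : 0 ≤ u * q * M ^ 4 * w ^ 10 := by positivity
    have h2 : 0 ≤ u ^ 3 * M ^ 4 * w ^ 10 := by positivity
    have h3 : (0.3806 * 0.9997) ^ 2 * (M ^ 4 * w ^ 10) * (0.02274 * u * q + 7.40 * u ^ 3) ≤
        (0.3806 * 0.9997) ^ 2 * (M ^ 4 * w ^ 10) * q ^ 2 :=
      mul_le_mul_of_nonneg_left hq (by positivity)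
    have h4 : u * q * M ^ 4 * w ^ 10 * w ≤ u * q * M ^ 4 * w ^ 10 * 0.8409 :=
      mul_le_mul_of_nonneg_left hw1 h1
    nlinarith

/-- the two shapes meet: `0.8066 w⁵ ≤ w⁸ + 0.0967` -/
theorem shape_le {w : ℝ} (hw : 0 ≤ w) : 0.8066 * w ^ 5 ≤ w ^ 8 + 0.0967 := by
  set τ := w / 0.7959 with hτ
  have hτ0 : 0 ≤ τ := by positivity
  have hwτ : w = 0.7959 * τ := by
    rw [hτ]
    field_simp
  have key : 0 ≤ 5 * τ ^ 8 - 8 * τ ^ 5 + 3 := by
    have e : 5 * τ ^ 8 - 8 * τ ^ 5 + 3 =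
        (τ - 1) ^ 2 * (5 * τ ^ 6 + 10 * τ ^ 5 + 15 * τ ^ 4 + 12 * τ ^ 3 + 9 * τ ^ 2 + 6 * τ + 3) := by
      ring
    rw [e]
    positivity
  rw [hwτ]
  have h8 : 0 ≤ τ ^ 8 := by positivity
  have e1 : 0.8066 * (0.7959 * τ) ^ 5 = 0.8066 * 0.7959 ^ 5 * τ ^ 5 := by ring
  have e2 : (0.7959 * τ) ^ 8 = 0.7959 ^ 8 * τ ^ 8 := by ring
  rw [e1, e2]
  nlinarith

/-- the fourth root of `z / M` -/
noncomputable def fr (z M : ℝ) : ℝ := Real.sqrt (Real.sqrt (z / M))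

theorem fr_nonneg (z M : ℝ) : 0 ≤ fr z M := Real.sqrt_nonneg _

theorem fr_pos {z M : ℝ} (hz : 0 < z) (hM : 0 < M) : 0 < fr z M :=
  Real.sqrt_pos.2 (Real.sqrt_pos.2 (div_pos hz hM))

theorem fr_pow_two {z M : ℝ} : fr z M ^ 2 = Real.sqrt (z / M) :=
  Real.sq_sqrt (Real.sqrt_nonneg _)

theorem fr_pow_four {z M : ℝ} (hz : 0 ≤ z) (hM : 0 < M) : fr z M ^ 4 * M = z := by
  have h1 : fr z M ^ 4 = z / M := by
    have : fr z M ^ 4 = (fr z M ^ 2) ^ 2 := by ring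
    rw [this, fr_pow_two, Real.sq_sqrt (by positivity)]
  rw [h1]
  field_simp

theorem fr_sqrt {z M : ℝ} (hz : 0 ≤ z) (hM : 0 < M) : Real.sqrt (z * M) = M * fr z M ^ 2 := by
  rw [fr_pow_two]
  have h1 : z * M = M ^ 2 * (z / M) := by field_simp
  rw [h1, Real.sqrt_mul (by positivity), Real.sqrt_sq hM.le]

theorem fr_le {z M : ℝ} (hz : 0 ≤ z) (hM : 0 < M) (h : 2 * z ≤ M) : fr z M ≤ 0.8409 := by
  have h1 := fr_pow_four hz hM
  have h0 := fr_nonneg z M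
  by_contra hc
  push Not at hc
  have h2 : (0.8409 : ℝ) ^ 4 < fr z M ^ 4 := pow_lt_pow_left₀ hc (by norm_num) (by norm_num)
  have h3 : (0.8409 : ℝ) ^ 4 * M < fr z M ^ 4 * M := mul_lt_mul_of_pos_right h2 hM
  have h4 : (1 / 2 : ℝ) * M ≤ (0.8409 : ℝ) ^ 4 * M :=
    mul_le_mul_of_nonneg_right (by norm_num) hM.le
  linarith

theorem fr_ratio {K z M : ℝ} (hK : 0 ≤ K) (hz : 0 ≤ z) (hM : 0 < M)
    (h : K ≤ 0.6000001 * z) : fr K M ^ 5 ≤ 0.52813 * fr z M ^ 5 := by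
  have h1 := fr_pow_four hK hM
  have h2 := fr_pow_four hz hM
  have h3 := fr_nonneg K M
  have h4 := fr_nonneg z M
  have h5 : fr K M ≤ 0.88013 * fr z M := by
    by_contra hc
    push Not at hc
    have h6 : (0.88013 * fr z M) ^ 4 < fr K M ^ 4 :=
      pow_lt_pow_left₀ hc (by positivity) (by norm_num)
    have h7 : (0.88013 * fr z M) ^ 4 * M < fr K M ^ 4 * M := mul_lt_mul_of_pos_right h6 hM
    have h8 : (0.88013 * fr z M) ^ 4 * M = 0.88013 ^ 4 * (fr z M ^ 4 * M) := by ring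
    rw [h8, h1, h2] at h7
    nlinarith
  have h6 : fr K M ^ 5 ≤ (0.88013 * fr z M) ^ 5 := pow_le_pow_left₀ h3 h5 5
  have h7 : (0.88013 * fr z M) ^ 5 = 0.88013 ^ 5 * fr z M ^ 5 := by ring
  have h8 : 0 ≤ fr z M ^ 5 := by positivity
  rw [h7] at h6
  nlinarith

/-- sum of square roots -/
theorem sum_sqrt_le (s : ℕ) : ∑ k ∈ Icc 1 s, Real.sqrt (k : ℝ) ≤
    2 / 3 * ((s : ℝ) * Real.sqrt s) + Real.sqrt s / 2 := by
  induction s with
  | zero => simp
  | succ s ih =>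
    rw [Finset.sum_Icc_succ_top (by omega)]
    set a := Real.sqrt (s : ℝ) with ha
    set b := Real.sqrt ((s + 1 : ℕ) : ℝ) with hb
    have ha0 : 0 ≤ a := Real.sqrt_nonneg _
    have hb0 : 0 ≤ b := Real.sqrt_nonneg _
    have ha2 : a ^ 2 = s := Real.sq_sqrt (by positivity)
    have hb2 : b ^ 2 = s + 1 := by
      rw [hb, Real.sq_sqrt (by positivity)]
      push_cast
      ring
    have hab : a ≤ b := Real.sqrt_le_sqrt (by push_cast; linarith)
    have h1 : 0 ≤ (b - a) ^ 3 := pow_nonneg (by linarith) 3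
    have e1 : ((s + 1 : ℕ) : ℝ) = b ^ 2 := by
      push_cast
      linarith
    rw [e1]
    rw [← ha2] at ih
    have h2 : b ^ 2 - a ^ 2 = 1 := by linarith
    have h3 : (a + b) * (b ^ 2 - a ^ 2) = a + b := by rw [h2]; ring
    nlinarith

/-- the sum over the blocks below `√x`, first part -/
theorem sum_max_small {s : ℕ} {M : ℝ} (hM : 0 ≤ M) (h : 2 * (s : ℝ) ≤ M) :
    ∑ k ∈ Icc 1 s, max (2 * (k : ℝ)) (Real.sqrt (2 * k * M)) ≤
      2 / 3 * (s * Real.sqrt (2 * s * M)) + Real.sqrt (2 * s * M) / 2 := by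
  have h1 : ∀ k ∈ Icc 1 s, max (2 * (k : ℝ)) (Real.sqrt (2 * k * M)) =
      Real.sqrt (2 * M) * Real.sqrt k := by
    intro k hk
    rw [mem_Icc] at hk
    have hk2 : (k : ℝ) ≤ s := by exact_mod_cast hk.2
    have e : Real.sqrt (2 * M) * Real.sqrt k = Real.sqrt (2 * k * M) := by
      rw [← Real.sqrt_mul (by positivity)]
      congr 1
      ring
    rw [e]
    apply max_eq_right
    apply Real.le_sqrt_of_sq_le
    have hk0 : (0 : ℝ) ≤ k := by positivity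
    nlinarith
  rw [sum_congr rfl h1, ← mul_sum]
  have e : Real.sqrt (2 * s * M) = Real.sqrt (2 * M) * Real.sqrt s := by
    rw [← Real.sqrt_mul (by positivity)]
    congr 1
    ring
  rw [e]
  have h2 := mul_le_mul_of_nonneg_left (sum_sqrt_le s) (Real.sqrt_nonneg (2 * M))
  linarith

/-- the sum over the blocks below `√x`, second part -/
theorem sum_max_le {s : ℕ} {M : ℕ} (h : M ≤ 2 * s + 1) :
    ∑ k ∈ Icc 1 s, max (2 * (k : ℝ)) (Real.sqrt (2 * k * M)) ≤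
      (s : ℝ) ^ 2 + s + (M : ℝ) ^ 2 / 12 + M := by
  induction s with
  | zero =>
    simp
    positivity
  | succ s ih =>
    rcases Nat.lt_or_ge (2 * s + 1) M with hlt | hge
    · have hM1 : M = 2 * (s + 1) ∨ M = 2 * (s + 1) + 1 := by omega
      have hMr : 2 * (((s + 1 : ℕ) : ℝ)) ≤ M := by
        rcases hM1 with h1 | h1
        · rw [h1]; push_cast; linarith
        · rw [h1]; push_cast; linarith
      have hMr2 : (M : ℝ) ≤ 2 * (((s + 1 : ℕ) : ℝ)) + 1 := by exact_mod_cast h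
      refine (sum_max_small (by positivity) hMr).trans ?_
      set t : ℝ := ((s + 1 : ℕ) : ℝ) with ht
      have ht0 : 0 ≤ t := by positivity
      have hsq : Real.sqrt (2 * t * M) ≤ M := by
        apply Real.sqrt_le_iff.2
        constructor
        · positivity
        · have hM0 : (0 : ℝ) ≤ M := by positivity
          nlinarith
      have h2 : 2 / 3 * (t * Real.sqrt (2 * t * M)) ≤ 2 / 3 * (t * M) := by
        apply mul_le_mul_of_nonneg_left _ (by norm_num)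
        exact mul_le_mul_of_nonneg_left hsq ht0
      have hM0 : (0 : ℝ) ≤ M := by positivity
      nlinarith [sq_nonneg ((M : ℝ) - 2 * t)]
    · rw [Finset.sum_Icc_succ_top (by omega)]
      have h1 := ih hge
      have h2 : max (2 * ((s + 1 : ℕ) : ℝ)) (Real.sqrt (2 * ((s + 1 : ℕ) : ℝ) * M)) ≤
          2 * ((s + 1 : ℕ) : ℝ) := by
        apply max_le le_rfl
        apply Real.sqrt_le_iff.2
        constructor
        · positivity
        · have h3 : (M : ℝ) ≤ 2 * ((s + 1 : ℕ) : ℝ) := by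
            have : M ≤ 2 * (s + 1) := by omega
            exact_mod_cast this
          have h4 : (0 : ℝ) ≤ 2 * ((s + 1 : ℕ) : ℝ) := by positivity
          nlinarith
      push_cast at h1 h2 ⊢
      nlinarith

end Pool.Agent.AddSq
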