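import Pool.Agent.AddSq.Window
import Pool.Agent.AddSq.StepReal

/-!
# MP_006ce8_co, block D: the wins part of the step
-/

set_option autoImplicit false

namespace Pool.Agent.AddSq

open Finset

/-- the sum of the losses over the blocks -/
theorem wins_sum {M X : ℕ} {b : ℝ}
    (hv : ∀ x : ℕ, 1 ≤ x → x ≤ X → (cL x : ℝ) ≤ b * max (x : ℝ) (Real.sqrt ((x : ℝ) * M)))
    {s : ℕ} (hs : 2 * s ≤ X) :
    ((∑ k ∈ Icc 1 s, cL (2 * k) : ℕ) : ℝ) ≤
      b * ∑ k ∈ Icc 1 s, max (2 * (k : ℝ)) (Real.sqrt (2 * k * M)) := by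
  push_cast
  rw [mul_sum]
  apply sum_le_sum
  intro k hk
  rw [mem_Icc] at hk
  have h := hv (2 * k) (by omega) (by omega)
  push_cast at h
  exact h

theorem wins_part {M X : ℕ} {b P : ℝ} (hM : 10 ^ 9 ≤ (M : ℝ)) (_hMX : 32 * M ≤ X) (hb : 0 < b)
    (hP : 0 < P)
    (hv : ∀ x : ℕ, 1 ≤ x → x ≤ X → (cL x : ℝ) ≤ b * max (x : ℝ) (Real.sqrt ((x : ℝ) * M)))
    (LA : ∀ x : ℕ, 16 * x ≤ X ^ 2 → (cL x : ℝ) ≤ P * (1.0001 * x + 0.098 * M ^ 2))
    (LB : ∀ x : ℕ, 1 ≤ x → 4 * x ≤ M ^ 2 → (cL x : ℝ) ≤ 1.1 * P * M * Real.sqrt x)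
    (x : ℕ) (hx : 1 ≤ x) (hX : 32 * x ≤ X ^ 2) :
    (cW x : ℝ) ≤ (1.09 * b + 2.1 * P) * max (x : ℝ) (Real.sqrt ((x : ℝ) * (M : ℝ) ^ 2)) := by
  have hM0 : (0 : ℝ) < M := by linarith
  set r : ℝ := Real.sqrt (x : ℝ) with hr
  have hr0 : 0 ≤ r := Real.sqrt_nonneg _
  have hr2 : r ^ 2 = x := Real.sq_sqrt (by positivity)
  have hrM : Real.sqrt ((x : ℝ) * (M : ℝ) ^ 2) = r * M := by
    rw [Real.sqrt_mul (by positivity), Real.sqrt_sq hM0.le]
  rw [hrM]
  set m : ℝ := max (x : ℝ) (r * M) with hm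
  have hm1 : (x : ℝ) ≤ m := le_max_left _ _
  have hm2 : r * M ≤ m := le_max_right _ _
  set s := Nat.sqrt x with hs
  have hsx : s * s ≤ x := Nat.sqrt_le x
  have hsr : (s : ℝ) ≤ r := by
    apply Real.le_sqrt_of_sq_le
    have : ((s * s : ℕ) : ℝ) ≤ x := by exact_mod_cast hsx
    push_cast at this
    nlinarith
  have hsX : 2 * s ≤ X := by
    by_contra hc
    push Not at hc
    have h1 : X * X < (2 * s) * (2 * s) := Nat.mul_lt_mul'' hc hc
    nlinarith
  -- the sum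
  have hsum : ((∑ k ∈ Icc 1 s, cL (2 * k) : ℕ) : ℝ) ≤ b * (1.09 * m) := by
    refine (wins_sum hv hsX).trans ?_
    apply mul_le_mul_of_nonneg_left _ hb.le
    rcases Nat.lt_or_ge (2 * s + 1) M with hlt | hge
    · have h1 : ∑ k ∈ Icc 1 s, max (2 * (k : ℝ)) (Real.sqrt (2 * k * M)) ≤
          ∑ _k ∈ Icc 1 s, (M : ℝ) := by
        apply sum_le_sum
        intro k hk
        rw [mem_Icc] at hk
        have h2 : 2 * (k : ℝ) ≤ M := by
          have : 2 * k ≤ M := by omega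
          exact_mod_cast this
        apply max_le h2
        apply Real.sqrt_le_iff.2
        refine ⟨hM0.le, ?_⟩
        nlinarith
      refine h1.trans ?_
      rw [sum_const, Nat.card_Icc, nsmul_eq_mul]
      simp only [Nat.add_sub_cancel]
      have h2 : (s : ℝ) * M ≤ r * M := mul_le_mul_of_nonneg_right hsr hM0.le
      have h3 : 0 ≤ r * M := by positivity
      linarith
    · refine (sum_max_le hge).trans ?_
      have hMr : (M : ℝ) ≤ 2 * r + 1 := by
        have : (M : ℝ) ≤ 2 * s + 1 := by exact_mod_cast hge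
        linarith
      have hs2 : (s : ℝ) ^ 2 ≤ r ^ 2 := pow_le_pow_left₀ (by positivity) hsr 2
      rcases le_total (M : ℝ) r with h | h
      · have h1 : (M : ℝ) ^ 2 ≤ r ^ 2 := pow_le_pow_left₀ hM0.le h 2
        have h2 : 10 ^ 9 * r ≤ r ^ 2 := by nlinarith
        nlinarith
      · have h1 := mul_nonneg (sub_nonneg.2 h) (by linarith : 0 ≤ r - (M - 1) / 2)
        have h2 : 10 ^ 9 * (M : ℝ) ≤ M ^ 2 := by nlinarith
        have h3 : r * M ≤ M ^ 2 := by nlinarith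
        nlinarith
  -- the last term
  have hlast : (cL (2 * x) : ℝ) ≤ 2.1 * P * m := by
    by_cases h8 : 8 * x ≤ M ^ 2
    · have h1 := LB (2 * x) (by omega) (by omega)
      have h2 : Real.sqrt ((2 * x : ℕ) : ℝ) ≤ 1.5 * r := by
        apply Real.sqrt_le_iff.2
        constructor
        · positivity
        · push_cast
          nlinarith
      have h3 : 1.1 * P * M * Real.sqrt ((2 * x : ℕ) : ℝ) ≤ 1.1 * P * M * (1.5 * r) :=
        mul_le_mul_of_nonneg_left h2 (by positivity)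
      have h4 : 0 ≤ P * (r * M) := by positivity
      have h5 : P * (r * M) ≤ P * m := mul_le_mul_of_nonneg_left hm2 hP.le
      nlinarith
    · push Not at h8
      have h1 := LA (2 * x) (by omega)
      push_cast at h1
      have h8' : (M : ℝ) ^ 2 < 8 * x := by exact_mod_cast h8
      have h2 : 1.0001 * (2 * (x : ℝ)) + 0.098 * (M : ℝ) ^ 2 ≤ 2.1 * m := by
        rw [← hr2] at h8' hm1 ⊢
        rcases le_total (M : ℝ) r with h | h
        · have h3 : (M : ℝ) ^ 2 ≤ r ^ 2 := pow_le_pow_left₀ hM0.le h 2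
          nlinarith
        · have h3 : (M : ℝ) ≤ 3 * r := by
            by_contra hc
            push Not at hc
            nlinarith
          have h4 := mul_nonneg (sub_nonneg.2 h) (by linarith : 0 ≤ r - M / 3)
          have h5 : r * M ≤ M ^ 2 := by nlinarith
          nlinarith
      have h3 : P * (1.0001 * (2 * (x : ℝ)) + 0.098 * (M : ℝ) ^ 2) ≤ P * (2.1 * m) :=
        mul_le_mul_of_nonneg_left h2 hP.le
      linarith
  have hrec : (cW x : ℝ) ≤ ((∑ k ∈ Icc 1 s, cL (2 * k) : ℕ) : ℝ) + (cL (2 * x) : ℝ) := by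
    exact_mod_cast cW_rec x
  linarith

end Pool.Agent.AddSq
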