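import Pool.Agent.AddSq.Window
import Pool.Agent.AddSq.StepWins

/-!
# The recursion step (block D of the blueprint)
-/

set_option autoImplicit false

namespace Pool.Agent.AddSq

open Finset

/-- the quadratic lemma -/
theorem quad_le {x a d w : ℝ} (hw : 0 < w) (hd : 0 ≤ d)
    (h : x ^ 2 ≤ a * x + d) (hq : a * w + d ≤ w ^ 2) : x ≤ w := by
  by_contra hcon
  push Not at hcon
  have h1 : (x - w) * (x + w - a) ≤ 0 := by nlinarith
  have h2 : x + w - a ≤ 0 := by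
    by_contra h3
    push Not at h3
    have := mul_pos (sub_pos.mpr hcon) h3
    linarith
  have h3 : a * w ≤ w ^ 2 := by linarith
  have h4 : a ≤ w := by
    by_contra h5
    push Not at h5
    nlinarith
  linarith

/-- `(110 N)² ≤ c (110 N + S B²)` in the form needed -/
theorem lag_le {N c S B w : ℝ} (hc : 0 ≤ c) (hS : 0 ≤ S) (hw : 0 < w)
    (h : (110 * N) ^ 2 ≤ c * (110 * N + S * B ^ 2))
    (hq : c * (110 * w) + c * (S * B ^ 2) ≤ (110 * w) ^ 2) : N ≤ w := by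
  have h1 : (110 * N) ^ 2 ≤ c * (110 * N) + c * (S * B ^ 2) := by
    rw [← mul_add]; exact h
  have h2 := quad_le (x := 110 * N) (a := c) (d := c * (S * B ^ 2)) (w := 110 * w)
    (by positivity) (by positivity) h1 hq
  linarith

theorem sum_filter_le (A : Finset ℕ) (f : ℕ → ℕ) (K H : ℕ) {α : ℝ} (hA : (A.card : ℝ) ≤ α) :
    110 * (A.card : ℝ) + ∑ k ∈ Finset.Ico K (K + H),
      ((A.filter (fun a => a ≤ f k)).card : ℝ) ≤ (110 + (H : ℝ)) * α := by
  have h1 : ∀ k ∈ Finset.Ico K (K + H), ((A.filter (fun a => a ≤ f k)).card : ℝ) ≤ α := by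
    intro k _
    refine le_trans ?_ hA
    exact_mod_cast Finset.card_filter_le _ _
  have h2 := Finset.sum_le_card_nsmul _ _ _ h1
  rw [Nat.card_Ico, Nat.add_sub_cancel_left, nsmul_eq_mul] at h2
  linarith

/-- the lower end of the window -/
def lowEnd (z : ℕ) : ℕ := (3 * z + 4) / 5

theorem lowEnd_lt {z : ℕ} (hz : 3 ≤ z) : lowEnd z < z := by
  unfold lowEnd; omega

theorem lowEnd_ge (z : ℕ) : 3 * z ≤ 5 * lowEnd z := by
  unfold lowEnd; omega

theorem lowEnd_le (z : ℕ) : 5 * lowEnd z ≤ 3 * z + 4 := by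
  unfold lowEnd; omega

theorem sqrt8 (z : ℕ) : 8 * ((z - 1) * z) ≤ Nat.sqrt (8 * (z * z)) * Nat.sqrt (8 * (z * z)) := by
  rcases Nat.eq_zero_or_pos z with h | h
  · subst h; simp
  have h1 : 8 * (z * z) < (Nat.sqrt (8 * (z * z)) + 1) * (Nat.sqrt (8 * (z * z)) + 1) :=
    Nat.lt_succ_sqrt _
  have h2 : Nat.sqrt (8 * (z * z)) ≤ 3 * z := by
    rw [← Nat.sqrt_eq (3 * z)]
    apply Nat.sqrt_le_sqrt
    nlinarith
  obtain ⟨w, rfl⟩ : ∃ w, z = w + 1 := ⟨z - 1, by omega⟩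
  simp only [Nat.add_sub_cancel]
  nlinarith

theorem sqrt8_le (z : ℕ) : ((Nat.sqrt (8 * (z * z)) : ℕ) : ℝ) ^ 2 ≤ 8 * (z : ℝ) ^ 2 := by
  have h : Nat.sqrt (8 * (z * z)) * Nat.sqrt (8 * (z * z)) ≤ 8 * (z * z) := Nat.sqrt_le _
  have h2 : ((Nat.sqrt (8 * (z * z)) * Nat.sqrt (8 * (z * z)) : ℕ) : ℝ) ≤
      ((8 * (z * z) : ℕ) : ℝ) := by exact_mod_cast h
  push_cast at h2
  nlinarith

/-- One window in terms of bounds for the four set sizes. -/
theorem window_bound (h1 : LagBound1 5000000 5172) (h2 : LagBound2 5000000 5720) {z : ℕ}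
    (hz : 10000000 ≤ z) {α β γ w₁ w₂ : ℝ} (hα : ((cW (2 * (z - 1)) : ℕ) : ℝ) ≤ α)
    (hβ : ((cL (Nat.sqrt (8 * (z * z))) : ℕ) : ℝ) ≤ β)
    (hγ : ((cW (4 * (z - 1)) : ℕ) : ℝ) ≤ γ) (hw₁ : 0 < w₁) (hw₂ : 0 < w₂)
    (hq₁ : (α * (0.400011 * z)) * (110 * w₁) + (α * (0.400011 * z)) * (5172 * β ^ 2) ≤
      (110 * w₁) ^ 2)
    (hq₂ : (γ * (0.400011 * z)) * (110 * w₂) + (γ * (0.400011 * z)) * (5720 * α ^ 2) ≤
      (110 * w₂) ^ 2) :
    ((cL (z * z - 1) : ℕ) : ℝ) ≤ ((cL (lowEnd z * lowEnd z - 1) : ℕ) : ℝ) + w₁ + w₂ := by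
  have hlow := lowEnd_lt (z := z) (by omega)
  have hge := lowEnd_ge z
  have hle := lowEnd_le z
  have hw := cL_window' (K := lowEnd z) (z := z) (R := Nat.sqrt (8 * (z * z))) (by omega)
    hlow.le (sqrt8 z)
  have hα0 : 0 ≤ α := le_trans (Nat.cast_nonneg _) hα
  have hβ0 : 0 ≤ β := le_trans (Nat.cast_nonneg _) hβ
  have hγ0 : 0 ≤ γ := le_trans (Nat.cast_nonneg _) hγ
  have hzR : (10000000 : ℝ) ≤ z := by exact_mod_cast hz
  have hH : (110 : ℝ) + ((z - lowEnd z : ℕ) : ℝ) ≤ 0.400011 * z := by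
    have : ((z - lowEnd z : ℕ) : ℝ) ≤ 2 / 5 * z := by
      have : 5 * (z - lowEnd z) ≤ 2 * z := by omega
      have h5 : ((5 * (z - lowEnd z) : ℕ) : ℝ) ≤ ((2 * z : ℕ) : ℝ) := by exact_mod_cast this
      push_cast at h5
      linarith
    linarith
  -- lag one
  have hN1 : ((pairs1 (winSet (2 * (z - 1))) (lostSet (Nat.sqrt (8 * (z * z)))) (lowEnd z)
      (z - lowEnd z)).card : ℝ) ≤ w₁ := by
    have hb := h1 (lowEnd z) (z - lowEnd z) (winSet (2 * (z - 1)))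
      (lostSet (Nat.sqrt (8 * (z * z)))) (by omega) (by omega)
    set N : ℝ := ((pairs1 (winSet (2 * (z - 1))) (lostSet (Nat.sqrt (8 * (z * z)))) (lowEnd z)
      (z - lowEnd z)).card : ℝ) with hN
    have hN0 : 0 ≤ N := Nat.cast_nonneg _
    have hA : ((winSet (2 * (z - 1))).card : ℝ) ≤ α := hα
    have hB : ((lostSet (Nat.sqrt (8 * (z * z)))).card : ℝ) ≤ β := hβ
    have hsum := le_trans (sum_filter_le (winSet (2 * (z - 1))) (fun k => 2 * k) (lowEnd z)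
      (z - lowEnd z) hA) (mul_le_mul_of_nonneg_right hH hα0)
    rw [mul_comm (0.400011 * (z : ℝ)) α] at hsum
    have hB2 : ((lostSet (Nat.sqrt (8 * (z * z)))).card : ℝ) ^ 2 ≤ β ^ 2 :=
      pow_le_pow_left₀ (Nat.cast_nonneg _) hB 2
    refine lag_le (N := N) (c := α * (0.400011 * z)) (S := 5172) (B := β) (w := w₁)
      (by positivity) (by norm_num) hw₁ ?_ hq₁
    refine le_trans hb ?_
    push_cast
    refine mul_le_mul hsum ?_ (by positivity) (by positivity)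
    linarith
  -- lag two
  have hN2 : ((pairs2 (winSet (2 * (z - 1))) (winSet (4 * (z - 1))) (lowEnd z)
      (z - lowEnd z)).card : ℝ) ≤ w₂ := by
    have hb := h2 (lowEnd z) (z - lowEnd z) (winSet (2 * (z - 1)))
      (winSet (4 * (z - 1))) (by omega) (by omega)
    set N : ℝ := ((pairs2 (winSet (2 * (z - 1))) (winSet (4 * (z - 1))) (lowEnd z)
      (z - lowEnd z)).card : ℝ) with hN
    have hN0 : 0 ≤ N := Nat.cast_nonneg _
    have hA : ((winSet (2 * (z - 1))).card : ℝ) ≤ α := hα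
    have hB : ((winSet (4 * (z - 1))).card : ℝ) ≤ γ := hγ
    have hsum := le_trans (sum_filter_le (winSet (4 * (z - 1))) (fun k => 4 * k) (lowEnd z)
      (z - lowEnd z) hB) (mul_le_mul_of_nonneg_right hH hγ0)
    rw [mul_comm (0.400011 * (z : ℝ)) γ] at hsum
    have hA2 : ((winSet (2 * (z - 1))).card : ℝ) ^ 2 ≤ α ^ 2 :=
      pow_le_pow_left₀ (Nat.cast_nonneg _) hA 2
    refine lag_le (N := N) (c := γ * (0.400011 * z)) (S := 5720) (B := α) (w := w₂)
      (by positivity) (by norm_num) hw₂ ?_ hq₂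
    refine le_trans hb ?_
    push_cast
    refine mul_le_mul hsum ?_ (by positivity) (by positivity)
    linarith
  have hw' : ((cL (z * z - 1) : ℕ) : ℝ) ≤ ((cL (lowEnd z * lowEnd z - 1) : ℕ) : ℝ) +
      ((pairs1 (winSet (2 * (z - 1))) (lostSet (Nat.sqrt (8 * (z * z)))) (lowEnd z)
      (z - lowEnd z)).card : ℝ) +
      ((pairs2 (winSet (2 * (z - 1))) (winSet (4 * (z - 1))) (lowEnd z)
      (z - lowEnd z)).card : ℝ) := by exact_mod_cast hw
  linarith

/-! ### the two kinds of windows -/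

theorem flat_window (h1 : LagBound1 5000000 5172) (h2 : LagBound2 5000000 5720) {M X : ℕ}
    {u b p q : ℝ} (hv : Valid M X u b) (hu : 0 < u) (hb : 0 < b) (hp0 : 0 < p) (hq0 : 0 < q)
    (hp : 0.01137 * u * p + 6.69 * u * b ^ 2 ≤ p ^ 2)
    (hq : 0.02274 * u * q + 7.40 * u ^ 3 ≤ q ^ 2) {z : ℕ} (hz : 10000000 ≤ z)
    (hzX : 4 * (z - 1) ≤ X) (hMz : M ≤ 2 * z) :
    ((cL (z * z - 1) : ℕ) : ℝ) ≤ ((cL (lowEnd z * lowEnd z - 1) : ℕ) : ℝ) +
      0.639808 * (p + q) * (z : ℝ) ^ 2 := by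
  have hzR : (10000000 : ℝ) ≤ z := by exact_mod_cast hz
  have hz0 : (0 : ℝ) < z := by linarith
  have hMR : (M : ℝ) ≤ 2 * z := by exact_mod_cast hMz
  have hM0 : (0 : ℝ) ≤ M := Nat.cast_nonneg _
  have hRle : Nat.sqrt (8 * (z * z)) ≤ 3 * z := by
    rw [← Nat.sqrt_eq (3 * z)]
    apply Nat.sqrt_le_sqrt
    nlinarith
  have hRpos : 1 ≤ Nat.sqrt (8 * (z * z)) := Nat.sqrt_pos.mpr (by positivity)
  have hR3 : ((Nat.sqrt (8 * (z * z)) : ℕ) : ℝ) ≤ 3 * z := by exact_mod_cast hRle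
  have hR0 : (0 : ℝ) ≤ ((Nat.sqrt (8 * (z * z)) : ℕ) : ℝ) := Nat.cast_nonneg _
  have hα : ((cW (2 * (z - 1)) : ℕ) : ℝ) ≤ 2 * u * z := by
    have h := (hv (2 * (z - 1)) (by omega) (by omega)).1
    refine le_trans h ?_
    have hc : ((2 * (z - 1) : ℕ) : ℝ) ≤ 2 * z := by
      have : 2 * (z - 1) ≤ 2 * z := by omega
      exact_mod_cast this
    have hm : max (((2 * (z - 1) : ℕ) : ℝ)) (Real.sqrt (((2 * (z - 1) : ℕ) : ℝ) * M)) ≤ 2 * z := by
      refine max_le hc (Real.sqrt_le_iff.mpr ⟨by positivity, ?_⟩)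
      calc ((2 * (z - 1) : ℕ) : ℝ) * M ≤ (2 * z) * (2 * z) :=
            mul_le_mul hc hMR hM0 (by positivity)
        _ = (2 * (z : ℝ)) ^ 2 := by ring
    calc u * _ ≤ u * (2 * z) := mul_le_mul_of_nonneg_left hm hu.le
      _ = 2 * u * z := by ring
  have hβ : ((cL (Nat.sqrt (8 * (z * z))) : ℕ) : ℝ) ≤ b * Real.sqrt (8 * (z : ℝ) ^ 2) := by
    have h := (hv (Nat.sqrt (8 * (z * z))) hRpos (by omega)).2
    refine le_trans h (mul_le_mul_of_nonneg_left ?_ hb.le)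
    refine max_le (Real.le_sqrt_of_sq_le (sqrt8_le z)) (Real.sqrt_le_sqrt ?_)
    calc ((Nat.sqrt (8 * (z * z)) : ℕ) : ℝ) * M ≤ (3 * z) * (2 * z) :=
          mul_le_mul hR3 hMR hM0 (by positivity)
      _ ≤ 8 * (z : ℝ) ^ 2 := by nlinarith
  have hγ : ((cW (4 * (z - 1)) : ℕ) : ℝ) ≤ 4 * u * z := by
    have h := (hv (4 * (z - 1)) (by omega) hzX).1
    refine le_trans h ?_
    have hc : ((4 * (z - 1) : ℕ) : ℝ) ≤ 4 * z := by
      have : 4 * (z - 1) ≤ 4 * z := by omega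
      exact_mod_cast this
    have hm : max (((4 * (z - 1) : ℕ) : ℝ)) (Real.sqrt (((4 * (z - 1) : ℕ) : ℝ) * M)) ≤ 4 * z := by
      refine max_le hc (Real.sqrt_le_iff.mpr ⟨by positivity, ?_⟩)
      calc ((4 * (z - 1) : ℕ) : ℝ) * M ≤ (4 * z) * (2 * z) :=
            mul_le_mul hc hMR hM0 (by positivity)
        _ ≤ (4 * (z : ℝ)) ^ 2 := by nlinarith
    calc u * _ ≤ u * (4 * z) := mul_le_mul_of_nonneg_left hm hu.le
      _ = 4 * u * z := by ring
  have hsq : Real.sqrt (8 * (z : ℝ) ^ 2) ^ 2 = 8 * (z : ℝ) ^ 2 := Real.sq_sqrt (by positivity)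
  have hz4 : 0 ≤ (z : ℝ) ^ 4 := by positivity
  have hup : 0 ≤ u * p := by positivity
  have huq : 0 ≤ u * q := by positivity
  have hub : 0 ≤ u * b ^ 2 := by positivity
  have hu3 : 0 ≤ u ^ 3 := by positivity
  have key := window_bound h1 h2 hz hα hβ hγ (w₁ := 0.639808 * p * (z : ℝ) ^ 2)
    (w₂ := 0.639808 * q * (z : ℝ) ^ 2) (by positivity) (by positivity)
    (by
      rw [mul_pow b, hsq]
      have k1 : 0 ≤ 12100 * 0.639808 ^ 2 * p ^ 2 - 0.800022 * 110 * 0.639808 * (u * p) -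
          0.800022 * 5172 * 8 * (u * b ^ 2) := by nlinarith
      have k2 := mul_nonneg hz4 k1
      nlinarith)
    (by
      have k1 : 0 ≤ 12100 * 0.639808 ^ 2 * q ^ 2 - 1.600044 * 110 * 0.639808 * (u * q) -
          1.600044 * 5720 * 4 * u ^ 3 := by nlinarith
      have k2 := mul_nonneg hz4 k1
      nlinarith)
  linarith

/-- `r(z) = (2 z / M)^(1/4)` -/
noncomputable def rr (M : ℕ) (z : ℕ) : ℝ := Real.sqrt (Real.sqrt (2 * z / M))

theorem rr_nonneg (M z : ℕ) : 0 ≤ rr M z := Real.sqrt_nonneg _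

theorem rr_four {M : ℕ} (z : ℕ) : rr M z ^ 4 = 2 * z / M := by
  have h0 : (0 : ℝ) ≤ 2 * z / M := by positivity
  have h1 : rr M z ^ 2 = Real.sqrt (2 * z / M) := Real.sq_sqrt (Real.sqrt_nonneg _)
  calc rr M z ^ 4 = (rr M z ^ 2) ^ 2 := by ring
    _ = Real.sqrt (2 * z / M) ^ 2 := by rw [h1]
    _ = 2 * z / M := Real.sq_sqrt h0

theorem rr_le_one {M z : ℕ} (hM : 0 < M) (h : 2 * z ≤ M) : rr M z ≤ 1 := by
  have h1 : rr M z ^ 4 ≤ 1 ^ 4 := by
    rw [rr_four, one_pow, div_le_one (by exact_mod_cast hM)]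
    exact_mod_cast h
  exact (pow_le_pow_iff_left₀ (rr_nonneg M z) zero_le_one (by norm_num)).mp h1

theorem sqrt_window (h1 : LagBound1 5000000 5172) (h2 : LagBound2 5000000 5720) {M X : ℕ}
    {u b p q : ℝ} (hv : Valid M X u b) (hMX : 32 * M ≤ X)
    (hu : 0 < u) (hb : 0 < b) (hp0 : 0 < p) (hq0 : 0 < q)
    (hp : 0.01137 * u * p + 6.69 * u * b ^ 2 ≤ p ^ 2)
    (hq : 0.02274 * u * q + 7.40 * u ^ 3 ≤ q ^ 2) {z : ℕ} (hz : 10000000 ≤ z)
    (hMz : 2 * z ≤ M) :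
    ((cL (z * z - 1) : ℕ) : ℝ) ≤ ((cL (lowEnd z * lowEnd z - 1) : ℕ) : ℝ) +
      0.16 * (p + q) * (M : ℝ) ^ 2 * rr M z ^ 5 := by
  have hzR : (10000000 : ℝ) ≤ z := by exact_mod_cast hz
  have hz0 : (0 : ℝ) < z := by linarith
  have hMR : 2 * (z : ℝ) ≤ M := by exact_mod_cast hMz
  have hM0 : (0 : ℝ) < M := by linarith
  have hr0 := rr_nonneg M z
  have hr1 := rr_le_one (M := M) (z := z) (by omega) hMz
  have hr4 := rr_four (M := M) z
  set r := rr M z with hr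
  have hrpos : 0 < r := by
    rcases eq_or_lt_of_le hr0 with h | h
    · rw [← h] at hr4
      have : 0 < 2 * (z : ℝ) / M := by positivity
      rw [← hr4] at this
      norm_num at this
    · exact h
  have hzr : 2 * (z : ℝ) = M * r ^ 4 := by
    rw [hr4]
    field_simp
  have hRle : Nat.sqrt (8 * (z * z)) ≤ 3 * z := by
    rw [← Nat.sqrt_eq (3 * z)]
    apply Nat.sqrt_le_sqrt
    nlinarith
  have hRpos : 1 ≤ Nat.sqrt (8 * (z * z)) := Nat.sqrt_pos.mpr (by positivity)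
  have hR3 : ((Nat.sqrt (8 * (z * z)) : ℕ) : ℝ) ≤ 3 * z := by exact_mod_cast hRle
  have hR0 : (0 : ℝ) ≤ ((Nat.sqrt (8 * (z * z)) : ℕ) : ℝ) := Nat.cast_nonneg _
  have hMr2 : (M * r ^ 2) ^ 2 = 2 * z * (M : ℝ) := by
    calc ((M : ℝ) * r ^ 2) ^ 2 = M * (M * r ^ 4) := by ring
      _ = 2 * z * (M : ℝ) := by rw [← hzr]; ring
  have hα : ((cW (2 * (z - 1)) : ℕ) : ℝ) ≤ u * (M * r ^ 2) := by
    have h := (hv (2 * (z - 1)) (by omega) (by omega)).1
    refine le_trans h (mul_le_mul_of_nonneg_left ?_ hu.le)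
    have hc : ((2 * (z - 1) : ℕ) : ℝ) ≤ 2 * z := by
      have : 2 * (z - 1) ≤ 2 * z := by omega
      exact_mod_cast this
    have hc0 : (0 : ℝ) ≤ ((2 * (z - 1) : ℕ) : ℝ) := Nat.cast_nonneg _
    refine max_le ?_ (Real.sqrt_le_iff.mpr ⟨by positivity, ?_⟩)
    · refine le_trans hc (le_of_sq_le_sq ?_ (by positivity))
      rw [hMr2]
      nlinarith
    · rw [hMr2]
      exact mul_le_mul_of_nonneg_right hc hM0.le
  have hβ : ((cL (Nat.sqrt (8 * (z * z))) : ℕ) : ℝ) ≤ b * Real.sqrt (4 * (z : ℝ) * M) := by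
    have h := (hv (Nat.sqrt (8 * (z * z))) hRpos (by omega)).2
    refine le_trans h (mul_le_mul_of_nonneg_left ?_ hb.le)
    refine max_le (Real.le_sqrt_of_sq_le (le_trans (sqrt8_le z) ?_)) (Real.sqrt_le_sqrt ?_)
    · nlinarith
    · calc ((Nat.sqrt (8 * (z * z)) : ℕ) : ℝ) * M ≤ (3 * z) * M :=
            mul_le_mul_of_nonneg_right hR3 hM0.le
        _ ≤ 4 * (z : ℝ) * M := by nlinarith
  have hγ : ((cW (4 * (z - 1)) : ℕ) : ℝ) ≤ u * (2 * M * r ^ 2) := by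
    have h := (hv (4 * (z - 1)) (by omega) (by omega)).1
    refine le_trans h (mul_le_mul_of_nonneg_left ?_ hu.le)
    have hc : ((4 * (z - 1) : ℕ) : ℝ) ≤ 4 * z := by
      have : 4 * (z - 1) ≤ 4 * z := by omega
      exact_mod_cast this
    have h4 : (2 * M * r ^ 2) ^ 2 = 8 * z * (M : ℝ) := by
      calc (2 * (M : ℝ) * r ^ 2) ^ 2 = 4 * (M * r ^ 2) ^ 2 := by ring
        _ = 8 * z * (M : ℝ) := by rw [hMr2]; ring
    refine max_le ?_ (Real.sqrt_le_iff.mpr ⟨by positivity, ?_⟩)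
    · refine le_trans hc (le_of_sq_le_sq ?_ (by positivity))
      rw [h4]
      nlinarith
    · rw [h4]
      calc ((4 * (z - 1) : ℕ) : ℝ) * M ≤ (4 * z) * M := mul_le_mul_of_nonneg_right hc hM0.le
        _ ≤ 8 * z * (M : ℝ) := by nlinarith
  have hsq : Real.sqrt (4 * (z : ℝ) * M) ^ 2 = 4 * (z : ℝ) * M := Real.sq_sqrt (by positivity)
  have hsq2 : 4 * (z : ℝ) * M = 2 * M ^ 2 * r ^ 4 := by
    calc 4 * (z : ℝ) * M = 2 * (2 * z) * M := by ring
      _ = 2 * M ^ 2 * r ^ 4 := by rw [hzr]; ring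
  have hzz : (z : ℝ) = M * r ^ 4 / 2 := by linarith
  have hup : 0 ≤ u * p := by positivity
  have huq : 0 ≤ u * q := by positivity
  have hub : 0 ≤ u * b ^ 2 := by positivity
  have hu3 : 0 ≤ u ^ 3 := by positivity
  have hM4 : 0 ≤ (M : ℝ) ^ 4 * r ^ 10 := by positivity
  have key := window_bound h1 h2 hz hα hβ hγ (w₁ := 0.16 * p * (M : ℝ) ^ 2 * r ^ 5)
    (w₂ := 0.16 * q * (M : ℝ) ^ 2 * r ^ 5) (by positivity) (by positivity)
    (by
      rw [mul_pow b, hsq, hsq2, hzz]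
      have k0 : u * p * r ≤ u * p := mul_le_of_le_one_right hup hr1
      have k1 : 0 ≤ 309.76 * p ^ 2 - 3.5200968 * (u * p * r) -
          2068.856892 * (u * b ^ 2) := by nlinarith
      have k2 := mul_nonneg hM4 k1
      have k3 : (110 * (0.16 * p * (M : ℝ) ^ 2 * r ^ 5)) ^ 2 -
          ((u * (M * r ^ 2) * (0.400011 * (M * r ^ 4 / 2))) *
            (110 * (0.16 * p * (M : ℝ) ^ 2 * r ^ 5)) +
          (u * (M * r ^ 2) * (0.400011 * (M * r ^ 4 / 2))) *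
            (5172 * (b ^ 2 * (2 * M ^ 2 * r ^ 4)))) =
          (M : ℝ) ^ 4 * r ^ 10 * (309.76 * p ^ 2 - 3.5200968 * (u * p * r) -
          2068.856892 * (u * b ^ 2)) := by ring
      linarith)
    (by
      rw [hzz]
      have k0 : u * q * r ≤ u * q := mul_le_of_le_one_right huq hr1
      have k1 : 0 ≤ 309.76 * q ^ 2 - 7.0401936 * (u * q * r) -
          2288.06292 * u ^ 3 := by nlinarith
      have k2 := mul_nonneg hM4 k1
      have k3 : (110 * (0.16 * q * (M : ℝ) ^ 2 * r ^ 5)) ^ 2 -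
          ((u * (2 * M * r ^ 2) * (0.400011 * (M * r ^ 4 / 2))) *
            (110 * (0.16 * q * (M : ℝ) ^ 2 * r ^ 5)) +
          (u * (2 * M * r ^ 2) * (0.400011 * (M * r ^ 4 / 2))) *
            (5720 * (u * (M * r ^ 2)) ^ 2)) =
          (M : ℝ) ^ 4 * r ^ 10 * (309.76 * q ^ 2 - 7.0401936 * (u * q * r) -
          2288.06292 * u ^ 3) := by ring
      linarith)
  linarith

/-! ### the two inductions -/

/-- The hypotheses of the step. -/
structure StepHyp (M X : ℕ) (u b p q : ℝ) : Prop where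
  h1 : LagBound1 5000000 5172
  h2 : LagBound2 5000000 5720
  hMX : 32 * M ≤ X
  hv : Valid M X u b
  hu : 0 < u
  hb : 0 < b
  hp0 : 0 < p
  hq0 : 0 < q
  hp : 0.01137 * u * p + 6.69 * u * b ^ 2 ≤ p ^ 2
  hq : 0.02274 * u * q + 7.40 * u ^ 3 ≤ q ^ 2
  hP : p + q ≤ 0.01
  hM : 10 ^ 9 ≤ (p + q) * (M : ℝ)

namespace StepHyp

variable {M X : ℕ} {u b p q : ℝ}

theorem M_large (h : StepHyp M X u b p q) : (100000000000 : ℝ) ≤ (M : ℝ) := by
  have h1 := h.hM
  have h2 := h.hP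
  have h3 : (0 : ℝ) ≤ M := Nat.cast_nonneg _
  nlinarith

theorem z_large (h : StepHyp M X u b p q) {z : ℕ} (hz : 0.01 * (p + q) * (M : ℝ) < z) :
    10000000 ≤ z := by
  have h1 := h.hM
  have h2 : (10000000 : ℝ) ≤ z := by linarith
  exact_mod_cast h2

theorem low_real {z : ℕ} (hz : 10000000 ≤ z) : ((lowEnd z : ℕ) : ℝ) ≤ 0.6000001 * z := by
  have h1 := lowEnd_le z
  have h2 : ((5 * lowEnd z : ℕ) : ℝ) ≤ ((3 * z + 4 : ℕ) : ℝ) := by exact_mod_cast h1
  have h3 : (10000000 : ℝ) ≤ z := by exact_mod_cast hz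
  push_cast at h2
  linarith

theorem trivial_small {z : ℕ} (hz1 : 1 ≤ z)
    (hz : (z : ℝ) ≤ 0.01 * (p + q) * (M : ℝ)) :
    ((cL (z * z - 1) : ℕ) : ℝ) ≤ (0.01 * (p + q) * (M : ℝ)) ^ 2 := by
  have h1 := cL_trivial hz1
  have h2 : ((cL (z * z - 1) : ℕ) : ℝ) ≤ ((z * z : ℕ) : ℝ) := by exact_mod_cast h1
  push_cast at h2
  have h3 : (0 : ℝ) ≤ z := Nat.cast_nonneg _
  nlinarith

theorem first (h : StepHyp M X u b p q) : ∀ z : ℕ, 1 ≤ z → 2 * z ≤ M →
    ((cL (z * z - 1) : ℕ) : ℝ) ≤ 0.34 * (p + q) * (M : ℝ) ^ 2 * rr M z ^ 5 +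
      (0.01 * (p + q) * (M : ℝ)) ^ 2 := by
  intro z
  induction z using Nat.strong_induction_on with
  | _ z ih =>
    intro hz1 hzM
    have hPpos : 0 < p + q := add_pos h.hp0 h.hq0
    rcases le_or_gt (z : ℝ) (0.01 * (p + q) * (M : ℝ)) with hs | hs
    · have h1 := trivial_small (p := p) (q := q) (M := M) hz1 hs
      have h2 : 0 ≤ 0.34 * (p + q) * (M : ℝ) ^ 2 * rr M z ^ 5 := by
        have := rr_nonneg M z
        positivity
      linarith
    · have hz := h.z_large hs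
      have hw := sqrt_window h.h1 h.h2 h.hv h.hMX h.hu h.hb h.hp0 h.hq0 h.hp h.hq hz hzM
      have hK1 : 1 ≤ lowEnd z := by have := lowEnd_ge z; omega
      have hKlt := lowEnd_lt (z := z) (by omega)
      have hIH := ih (lowEnd z) hKlt hK1 (by omega)
      have hlow := low_real hz
      have hM0 : (0 : ℝ) < M := by
        have := h.M_large
        linarith
      have hr4 := rr_four (M := M) z
      have hk4 := rr_four (M := M) (lowEnd z)
      have hr0 := rr_nonneg M z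
      have hk0 := rr_nonneg M (lowEnd z)
      set r := rr M z
      set k := rr M (lowEnd z)
      have h4 : k ^ 4 ≤ 0.6000001 * r ^ 4 := by
        rw [hr4, hk4]
        have : 2 * ((lowEnd z : ℕ) : ℝ) / M ≤ (0.6000001 * (2 * z)) / M :=
          div_le_div_of_nonneg_right (by linarith) hM0.le
        calc 2 * ((lowEnd z : ℕ) : ℝ) / M ≤ (0.6000001 * (2 * z)) / M := this
          _ = 0.6000001 * (2 * z / M) := by ring
      have h1 : k ≤ 0.8802 * r := by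
        have : k ^ 4 ≤ (0.8802 * r) ^ 4 := by
          rw [mul_pow]
          have : 0 ≤ r ^ 4 := by positivity
          nlinarith
        exact (pow_le_pow_iff_left₀ hk0 (by positivity) (by norm_num)).mp this
      have h5 : k ^ 5 ≤ 0.5281201 * r ^ 5 := by
        calc k ^ 5 = k ^ 4 * k := by ring
          _ ≤ (0.6000001 * r ^ 4) * (0.8802 * r) :=
              mul_le_mul h4 h1 hk0 (by positivity)
          _ = (0.6000001 * 0.8802) * r ^ 5 := by ring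
          _ ≤ 0.5281201 * r ^ 5 := by
              have : 0 ≤ r ^ 5 := by positivity
              nlinarith
      have hPM : 0 ≤ (p + q) * (M : ℝ) ^ 2 := by positivity
      have h6 := mul_le_mul_of_nonneg_left h5 hPM
      have h7 : 0 ≤ (p + q) * (M : ℝ) ^ 2 * r ^ 5 := by positivity
      nlinarith

theorem poly {x : ℝ} (hx : 0 ≤ x) : 8 * x ^ 5 ≤ 5 * x ^ 8 + 3 := by
  have h1 : 0 ≤ (x - 1) ^ 2 * (5 * x ^ 6 + 10 * x ^ 5 + 15 * x ^ 4 + 12 * x ^ 3 + 9 * x ^ 2 +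
      6 * x + 3) := by positivity
  nlinarith

theorem poly2 {r : ℝ} (hr : 0 ≤ r) : 0.34 * r ^ 5 ≤ r ^ 8 / 4 + 0.0975 := by
  have h := poly (x := r / 0.9475) (by positivity)
  have h5 : (r / 0.9475) ^ 5 = r ^ 5 / 0.9475 ^ 5 := div_pow _ _ _
  have h8 : (r / 0.9475) ^ 8 = r ^ 8 / 0.9475 ^ 8 := div_pow _ _ _
  rw [h5, h8] at h
  have h9 : 0 ≤ r ^ 8 := by positivity
  have h10 : 0 ≤ r ^ 5 := by positivity
  norm_num at h
  norm_num
  nlinarith

theorem second (h : StepHyp M X u b p q) : ∀ z : ℕ, 1 ≤ z → 4 * (z - 1) ≤ X →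
    ((cL (z * z - 1) : ℕ) : ℝ) ≤ (p + q) * (z : ℝ) ^ 2 + 0.0975 * (p + q) * (M : ℝ) ^ 2 +
      (0.01 * (p + q) * (M : ℝ)) ^ 2 := by
  intro z
  induction z using Nat.strong_induction_on with
  | _ z ih =>
    intro hz1 hzX
    have hPpos : 0 < p + q := add_pos h.hp0 h.hq0
    have hML := h.M_large
    have hM0 : (0 : ℝ) < M := by linarith
    rcases le_or_gt (2 * z) M with hzM | hzM
    · have h1 := h.first z hz1 hzM
      have hr0 := rr_nonneg M z
      have hr4 := rr_four (M := M) z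
      have h2 := poly2 hr0
      have h3 : (M : ℝ) ^ 2 * (rr M z ^ 8 / 4) = (z : ℝ) ^ 2 := by
        have : rr M z ^ 8 = (2 * z / M) ^ 2 := by rw [← hr4]; ring
        rw [this]
        field_simp
        ring
      have hPM : 0 ≤ (p + q) * (M : ℝ) ^ 2 := by positivity
      have h4 := mul_le_mul_of_nonneg_left h2 hPM
      have h5 : (p + q) * (M : ℝ) ^ 2 * (rr M z ^ 8 / 4 + 0.0975) =
          (p + q) * (z : ℝ) ^ 2 + 0.0975 * (p + q) * (M : ℝ) ^ 2 := by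
        rw [← h3]; ring
      rw [h5] at h4
      linarith
    · have hzM' : (M : ℝ) < 2 * z := by exact_mod_cast hzM
      have hz : 10000000 ≤ z := by
        have : (10000000 : ℝ) ≤ z := by linarith
        exact_mod_cast this
      have hw := flat_window h.h1 h.h2 h.hv h.hu h.hb h.hp0 h.hq0 h.hp h.hq hz hzX hzM.le
      have hK1 : 1 ≤ lowEnd z := by have := lowEnd_ge z; omega
      have hKlt := lowEnd_lt (z := z) (by omega)
      have hIH := ih (lowEnd z) hKlt hK1 (by omega)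
      have hlow := low_real hz
      have hlow0 : (0 : ℝ) ≤ ((lowEnd z : ℕ) : ℝ) := Nat.cast_nonneg _
      have h3 : ((lowEnd z : ℕ) : ℝ) ^ 2 ≤ 0.3600002 * (z : ℝ) ^ 2 := by
        have h4 := pow_le_pow_left₀ hlow0 hlow 2
        have h5 : (0 : ℝ) ≤ (z : ℝ) ^ 2 := by positivity
        nlinarith
      have h6 := mul_le_mul_of_nonneg_left h3 hPpos.le
      have h7 : 0 ≤ (p + q) * (z : ℝ) ^ 2 := by positivity
      nlinarith

theorem LA (h : StepHyp M X u b p q) (x : ℕ) (hx : 16 * x ≤ X ^ 2) :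
    (cL x : ℝ) ≤ (p + q) * (1.0001 * x + 0.098 * (M : ℝ) ^ 2) := by
  have hPpos : 0 < p + q := add_pos h.hp0 h.hq0
  have hML := h.M_large
  have hM0 : (0 : ℝ) < M := by linarith
  have hs1 : Nat.sqrt x * Nat.sqrt x ≤ x := Nat.sqrt_le x
  have hs2 : x < (Nat.sqrt x + 1) * (Nat.sqrt x + 1) := Nat.lt_succ_sqrt x
  set s := Nat.sqrt x with hs
  have hsX : 4 * s ≤ X := by
    by_contra hcon
    push Not at hcon
    nlinarith
  have h1 := h.second (s + 1) (by omega) (by simpa using hsX)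
  have h2 : (cL x : ℝ) ≤ ((cL ((s + 1) * (s + 1) - 1) : ℕ) : ℝ) := by
    have := cL_mono (x := x) (y := (s + 1) * (s + 1) - 1) (by omega)
    exact_mod_cast this
  push_cast at h1
  have hsx : (s : ℝ) ^ 2 ≤ x := by
    have : ((s * s : ℕ) : ℝ) ≤ (x : ℝ) := by exact_mod_cast hs1
    push_cast at this
    nlinarith
  have h3 : ((s : ℝ) + 1) ^ 2 ≤ 1.0001 * x + 10001 := by
    nlinarith [sq_nonneg ((s : ℝ) - 10000)]
  have h4 := mul_le_mul_of_nonneg_left h3 hPpos.le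
  have h5 : (0.01 * (p + q) * (M : ℝ)) ^ 2 ≤ 0.000001 * (p + q) * (M : ℝ) ^ 2 := by
    have e1 : (0.01 * (p + q) * (M : ℝ)) ^ 2 = 0.0001 * ((p + q) * (p + q)) * (M : ℝ) ^ 2 := by
      ring
    rw [e1]
    have e2 : (p + q) * (p + q) ≤ 0.01 * (p + q) := mul_le_mul_of_nonneg_right h.hP hPpos.le
    have e3 : (0 : ℝ) ≤ (M : ℝ) ^ 2 := by positivity
    nlinarith [mul_le_mul_of_nonneg_right e2 e3]
  have h6 : (10001 : ℝ) ≤ 0.0004 * (M : ℝ) ^ 2 := by
    nlinarith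
  have h7 := mul_le_mul_of_nonneg_left h6 hPpos.le
  nlinarith

theorem LB (h : StepHyp M X u b p q) (x : ℕ) (hx1 : 1 ≤ x) (hx : 4 * x ≤ M ^ 2) :
    (cL x : ℝ) ≤ 1.1 * (p + q) * M * Real.sqrt x := by
  have hPpos : 0 < p + q := add_pos h.hp0 h.hq0
  have hML := h.M_large
  have hPM := h.hM
  have hMX := h.hMX
  have hM0 : (0 : ℝ) < M := by linarith
  have hs1 : Nat.sqrt x * Nat.sqrt x ≤ x := Nat.sqrt_le x
  have hs2 : x < (Nat.sqrt x + 1) * (Nat.sqrt x + 1) := Nat.lt_succ_sqrt x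
  set s := Nat.sqrt x with hs
  have hxr : (1 : ℝ) ≤ x := by exact_mod_cast hx1
  have hw2 : Real.sqrt x ^ 2 = x := Real.sq_sqrt (by linarith)
  have hw1 : 1 ≤ Real.sqrt x := by
    rw [← Real.sqrt_one]
    exact Real.sqrt_le_sqrt hxr
  have hsw : (s : ℝ) ≤ Real.sqrt x := by
    refine Real.le_sqrt_of_sq_le ?_
    have : ((s * s : ℕ) : ℝ) ≤ (x : ℝ) := by exact_mod_cast hs1
    push_cast at this
    nlinarith
  have hws : Real.sqrt x < (s : ℝ) + 1 := by
    rw [Real.sqrt_lt' (by positivity)]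
    have : ((x : ℕ) : ℝ) < (((s + 1) * (s + 1) : ℕ) : ℝ) := by exact_mod_cast hs2
    push_cast at this
    nlinarith
  have h2 : (cL x : ℝ) ≤ ((cL ((s + 1) * (s + 1) - 1) : ℕ) : ℝ) := by
    have := cL_mono (x := x) (y := (s + 1) * (s + 1) - 1) (by omega)
    exact_mod_cast this
  set w := Real.sqrt x with hw
  rcases le_or_gt (2 * (s + 1)) M with hc | hc
  · rcases le_or_gt (((s + 1 : ℕ) : ℝ)) (0.01 * (p + q) * (M : ℝ)) with hd | hd
    · have h3 : (cL x : ℝ) ≤ x + 1 := by exact_mod_cast cL_le x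
      push_cast at hd
      have h4 : w ≤ 0.01 * ((p + q) * (M : ℝ)) := by linarith
      have h5 : w * w ≤ 0.01 * ((p + q) * (M : ℝ)) * w :=
        mul_le_mul_of_nonneg_right h4 (by linarith)
      have h6 : (10 : ℝ) ^ 9 * w ≤ ((p + q) * (M : ℝ)) * w :=
        mul_le_mul_of_nonneg_right hPM (by linarith)
      norm_num at h6
      nlinarith
    · have h3 := h.first (s + 1) (by omega) hc
      have hr0 := rr_nonneg M (s + 1)
      have hr1 := rr_le_one (M := M) (z := s + 1) (by omega) hc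
      have hr4 := rr_four (M := M) (s + 1)
      set r := rr M (s + 1)
      have h4 : r ^ 5 ≤ r ^ 4 := by
        calc r ^ 5 = r ^ 4 * r := by ring
          _ ≤ r ^ 4 * 1 := mul_le_mul_of_nonneg_left hr1 (by positivity)
          _ = r ^ 4 := mul_one _
      rw [hr4] at h4
      have hz0 : (0 : ℝ) < ((s + 1 : ℕ) : ℝ) := by positivity
      have h5 : (M : ℝ) ^ 2 * (2 * ((s + 1 : ℕ) : ℝ) / M) = 2 * M * ((s + 1 : ℕ) : ℝ) := by
        field_simp
      have h6 : (M : ℝ) ^ 2 * r ^ 5 ≤ 2 * M * ((s + 1 : ℕ) : ℝ) := by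
        rw [← h5]
        exact mul_le_mul_of_nonneg_left h4 (by positivity)
      have h7 := mul_le_mul_of_nonneg_left h6 hPpos.le
      have h8 : (0.01 * (p + q) * (M : ℝ)) ^ 2 ≤
          0.01 * (p + q) * (M : ℝ) * ((s + 1 : ℕ) : ℝ) := by
        rw [pow_two]
        exact mul_le_mul_of_nonneg_left hd.le (by positivity)
      have h9 : ((s + 1 : ℕ) : ℝ) ≤ 1.5 * w := by
        have hz := h.z_large hd
        have : (9999999 : ℝ) ≤ s := by
          have : 9999999 ≤ s := by omega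
          exact_mod_cast this
        push_cast
        linarith
      have h10 := mul_le_mul_of_nonneg_left h9 (show 0 ≤ (p + q) * (M : ℝ) by positivity)
      have h11 : 0 ≤ (p + q) * (M : ℝ) * w := by positivity
      nlinarith
  · have h3 : 16 * x ≤ X ^ 2 := by
      have : (32 * M) ^ 2 ≤ X ^ 2 := Nat.pow_le_pow_left hMX 2
      nlinarith
    have h4 := h.LA x h3
    have h5 : (M : ℝ) < 2 * ((s : ℝ) + 1) := by
      have : ((M : ℕ) : ℝ) < ((2 * (s + 1) : ℕ) : ℝ) := by exact_mod_cast hc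
      push_cast at this
      linarith
    have h6 : 0.49 * (M : ℝ) ≤ w := by
      linarith
    have h7 : (x : ℝ) ≤ (M : ℝ) ^ 2 / 4 := by
      have : ((4 * x : ℕ) : ℝ) ≤ ((M ^ 2 : ℕ) : ℝ) := by exact_mod_cast hx
      push_cast at this
      linarith
    have h8 : 1.0001 * (x : ℝ) + 0.098 * (M : ℝ) ^ 2 ≤ 1.1 * (M * w) := by
      have : (M : ℝ) * (0.49 * M) ≤ M * w := mul_le_mul_of_nonneg_left h6 hM0.le
      nlinarith [sq_nonneg (M : ℝ)]
    have h9 := mul_le_mul_of_nonneg_left h8 hPpos.le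
    nlinarith

/-- the loss part of the new validity -/
theorem losses (h : StepHyp M X u b p q) (x : ℕ) (hx1 : 1 ≤ x) (hx : 32 * x ≤ X ^ 2) :
    (cL x : ℝ) ≤ 1.1 * (p + q) * max (x : ℝ) (Real.sqrt ((x : ℝ) * (M : ℝ) ^ 2)) := by
  have hPpos : 0 < p + q := add_pos h.hp0 h.hq0
  have hML := h.M_large
  have hM0 : (0 : ℝ) < M := by linarith
  have hxr : (1 : ℝ) ≤ x := by exact_mod_cast hx1
  have hw2 : Real.sqrt x ^ 2 = x := Real.sq_sqrt (by linarith)
  have hw0 : 0 ≤ Real.sqrt x := Real.sqrt_nonneg _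
  have hsqrt : Real.sqrt ((x : ℝ) * (M : ℝ) ^ 2) = Real.sqrt x * M := by
    rw [Real.sqrt_mul (by linarith), Real.sqrt_sq hM0.le]
  rcases le_or_gt (4 * x) (M ^ 2) with h4 | h4
  · refine le_trans (h.LB x hx1 h4) ?_
    have h5 : Real.sqrt x * M ≤ max (x : ℝ) (Real.sqrt ((x : ℝ) * (M : ℝ) ^ 2)) := by
      rw [hsqrt]; exact le_max_right _ _
    have h6 := mul_le_mul_of_nonneg_left h5 (show 0 ≤ 1.1 * (p + q) by positivity)
    nlinarith
  · have hLA := h.LA x (by omega)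
    refine le_trans hLA ?_
    rw [mul_comm 1.1 (p + q), mul_assoc]
    refine mul_le_mul_of_nonneg_left ?_ hPpos.le
    rcases le_or_gt ((M : ℝ) ^ 2) x with h5 | h5
    · have h6 : (x : ℝ) ≤ max (x : ℝ) (Real.sqrt ((x : ℝ) * (M : ℝ) ^ 2)) := le_max_left _ _
      nlinarith
    · have h6 : Real.sqrt x * M ≤ max (x : ℝ) (Real.sqrt ((x : ℝ) * (M : ℝ) ^ 2)) := by
        rw [hsqrt]; exact le_max_right _ _
      refine le_trans ?_ (mul_le_mul_of_nonneg_left h6 (by norm_num))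
      have h7 : Real.sqrt x ≤ M := by
        rw [Real.sqrt_le_left hM0.le]
        exact h5.le
      have h8 : (M : ℝ) / 2 ≤ Real.sqrt x := by
        refine Real.le_sqrt_of_sq_le ?_
        have : ((M ^ 2 : ℕ) : ℝ) < ((4 * x : ℕ) : ℝ) := by exact_mod_cast h4
        push_cast at this
        nlinarith
      have h9 : 0 ≤ (M - Real.sqrt x) * (Real.sqrt x - (M : ℝ) / 2) :=
        mul_nonneg (by linarith) (by linarith)
      nlinarith

end StepHyp

/-- THE STEP: from validity at `M` (on `[1, X]`) to validity at `M²` (on `[1, X²/32]`). -/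
theorem step (h1 : LagBound1 5000000 5172) (h2 : LagBound2 5000000 5720) {M X : ℕ}
    {u b p q : ℝ} (hMX : 32 * M ≤ X) (hv : Valid M X u b) (hu : 0 < u) (hb : 0 < b)
    (hp0 : 0 < p) (hq0 : 0 < q)
    (hp : 0.01137 * u * p + 6.69 * u * b ^ 2 ≤ p ^ 2)
    (hq : 0.02274 * u * q + 7.40 * u ^ 3 ≤ q ^ 2) (hP : p + q ≤ 0.01)
    (hM : 10 ^ 9 ≤ (p + q) * (M : ℝ)) :
    Valid (M ^ 2) (X ^ 2 / 32) (1.09 * b + 2.1 * (p + q)) (1.1 * (p + q)) := by
  have h : StepHyp M X u b p q := ⟨h1, h2, hMX, hv, hu, hb, hp0, hq0, hp, hq, hP, hM⟩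
  intro x hx1 hx
  have hx32 : 32 * x ≤ X ^ 2 := by
    have := (Nat.le_div_iff_mul_le (by norm_num : 0 < 32)).mp hx
    omega
  have hM9 : (10 : ℝ) ^ 9 ≤ (M : ℝ) := le_trans (by norm_num) h.M_large
  have hcast : ((M ^ 2 : ℕ) : ℝ) = (M : ℝ) ^ 2 := by push_cast; ring
  rw [hcast]
  constructor
  · exact wins_part hM9 hMX hb (add_pos hp0 hq0) (fun y hy1 hy => (hv y hy1 hy).2)
      (fun y hy => h.LA y hy) (fun y hy1 hy => h.LB y hy1 hy) x hx1 hx32
  · exact h.losses x hx1 hx32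

end Pool.Agent.AddSq
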