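import Pool.Agent.AddSq.Gen
import Pool.Agent.AddSq.Step

/-!
# The recursion step for arbitrary counting functions (system `SysW`)
-/

set_option autoImplicit false

namespace Pool.Agent.AddSq.StepG

open Finset

/-- One window, general form: bounds for the weighted sums and for the set sizes. -/
theorem window_gen {cW cL : ℕ → ℕ} (hs : SysW 5172 5720 5000000 cW cL) {z : ℕ}
    (hz : 10000000 ≤ z) {α β A₁ A₂ w₁ w₂ : ℝ}
    (hA₁ : 110 * ((cW (2 * (z - 1)) : ℕ) : ℝ) +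
      ∑ k ∈ Ico (lowEnd z) z, ((cW (2 * k) : ℕ) : ℝ) ≤ A₁)
    (hβ : ((cL (Nat.sqrt (8 * (z * z))) : ℕ) : ℝ) ≤ β)
    (hA₂ : 110 * ((cW (4 * (z - 1)) : ℕ) : ℝ) +
      ∑ k ∈ Ico (lowEnd z) z, ((cW (4 * k) : ℕ) : ℝ) ≤ A₂)
    (hα : ((cW (2 * (z - 1)) : ℕ) : ℝ) ≤ α) (hw₁ : 0 < w₁) (hw₂ : 0 < w₂)
    (hq₁ : A₁ * (110 * w₁) + A₁ * (5172 * β ^ 2) ≤ (110 * w₁) ^ 2)
    (hq₂ : A₂ * (110 * w₂) + A₂ * (5720 * α ^ 2) ≤ (110 * w₂) ^ 2) :
    ((cL (z * z - 1) : ℕ) : ℝ) ≤ ((cL (lowEnd z * lowEnd z - 1) : ℕ) : ℝ) + w₁ + w₂ := by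
  have hlow := lowEnd_lt (z := z) (by omega)
  have hge := lowEnd_ge z
  have hle := lowEnd_le z
  obtain ⟨N1, N2, hw, h1, h2⟩ := hs.loss (lowEnd z) z (Nat.sqrt (8 * (z * z))) (by omega)
    hlow.le (by omega) (sqrt8 z)
  have hA₁0 : 0 ≤ A₁ := le_trans (add_nonneg (by positivity)
    (Finset.sum_nonneg (fun _ _ => Nat.cast_nonneg _))) hA₁
  have hA₂0 : 0 ≤ A₂ := le_trans (add_nonneg (by positivity)
    (Finset.sum_nonneg (fun _ _ => Nat.cast_nonneg _))) hA₂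
  have hN1 : (N1 : ℝ) ≤ w₁ := by
    have h1' : ((110 : ℝ) * N1) ^ 2 ≤ (110 * ((cW (2 * (z - 1)) : ℕ) : ℝ) +
        ∑ k ∈ Ico (lowEnd z) z, ((cW (2 * k) : ℕ) : ℝ)) *
        (110 * (N1 : ℝ) + 5172 * ((cL (Nat.sqrt (8 * (z * z))) : ℕ) : ℝ) ^ 2) := by
      exact_mod_cast h1
    refine lag_le (N := N1) (c := A₁) (S := 5172) (B := β) (w := w₁) hA₁0 (by norm_num) hw₁
      ?_ hq₁
    refine le_trans h1' (mul_le_mul hA₁ ?_ (by positivity) hA₁0)
    have := pow_le_pow_left₀ (Nat.cast_nonneg _) hβ 2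
    linarith
  have hN2 : (N2 : ℝ) ≤ w₂ := by
    have h2' : ((110 : ℝ) * N2) ^ 2 ≤ (110 * ((cW (4 * (z - 1)) : ℕ) : ℝ) +
        ∑ k ∈ Ico (lowEnd z) z, ((cW (4 * k) : ℕ) : ℝ)) *
        (110 * (N2 : ℝ) + 5720 * ((cW (2 * (z - 1)) : ℕ) : ℝ) ^ 2) := by
      exact_mod_cast h2
    refine lag_le (N := N2) (c := A₂) (S := 5720) (B := α) (w := w₂) hA₂0 (by norm_num) hw₂
      ?_ hq₂
    refine le_trans h2' (mul_le_mul hA₂ ?_ (by positivity) hA₂0)
    have := pow_le_pow_left₀ (Nat.cast_nonneg _) hα 2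
    linarith
  have hw' : ((cL (z * z - 1) : ℕ) : ℝ) ≤ ((cL (lowEnd z * lowEnd z - 1) : ℕ) : ℝ) +
      (N1 : ℝ) + (N2 : ℝ) := by exact_mod_cast hw
  linarith

/-- One window, crude form of the sums. -/
theorem window_bound {cW cL : ℕ → ℕ} (hs : SysW 5172 5720 5000000 cW cL) {z : ℕ}
    (hz : 10000000 ≤ z) {α β γ w₁ w₂ : ℝ} (hα : ((cW (2 * (z - 1)) : ℕ) : ℝ) ≤ α)
    (hβ : ((cL (Nat.sqrt (8 * (z * z))) : ℕ) : ℝ) ≤ β)
    (hγ : ((cW (4 * (z - 1)) : ℕ) : ℝ) ≤ γ) (hw₁ : 0 < w₁) (hw₂ : 0 < w₂)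
    (hq₁ : (α * (0.400011 * z)) * (110 * w₁) + (α * (0.400011 * z)) * (5172 * β ^ 2) ≤
      (110 * w₁) ^ 2)
    (hq₂ : (γ * (0.400011 * z)) * (110 * w₂) + (γ * (0.400011 * z)) * (5720 * α ^ 2) ≤
      (110 * w₂) ^ 2) :
    ((cL (z * z - 1) : ℕ) : ℝ) ≤ ((cL (lowEnd z * lowEnd z - 1) : ℕ) : ℝ) + w₁ + w₂ := by
  have hge := lowEnd_ge z
  have hα0 : 0 ≤ α := le_trans (Nat.cast_nonneg _) hα
  have hγ0 : 0 ≤ γ := le_trans (Nat.cast_nonneg _) hγ
  have hzR : (10000000 : ℝ) ≤ z := by exact_mod_cast hz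
  have hH : (110 : ℝ) + ((z - lowEnd z : ℕ) : ℝ) ≤ 0.400011 * z := by
    have : ((z - lowEnd z : ℕ) : ℝ) ≤ 2 / 5 * z := by
      have : 5 * (z - lowEnd z) ≤ 2 * z := by omega
      have h5 : ((5 * (z - lowEnd z) : ℕ) : ℝ) ≤ ((2 * z : ℕ) : ℝ) := by exact_mod_cast this
      push_cast at h5
      linarith
    linarith
  have hsum : ∀ (f : ℕ → ℕ) (c : ℝ), (∀ k ∈ Ico (lowEnd z) z, ((cW (f k) : ℕ) : ℝ) ≤ c) →
      ∑ k ∈ Ico (lowEnd z) z, ((cW (f k) : ℕ) : ℝ) ≤ ((z - lowEnd z : ℕ) : ℝ) * c := by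
    intro f c hf
    have h2 := Finset.sum_le_card_nsmul _ _ _ hf
    rwa [Nat.card_Ico, nsmul_eq_mul] at h2
  refine window_gen hs hz (A₁ := α * (0.400011 * z)) (A₂ := γ * (0.400011 * z)) (α := α)
    (β := β) ?_ hβ ?_ hα hw₁ hw₂ hq₁ hq₂
  · have h1 := hsum (fun k => 2 * k) α (by
      intro k hk
      rw [mem_Ico] at hk
      refine le_trans ?_ hα
      exact_mod_cast hs.monoW (by omega))
    have h2 := mul_le_mul_of_nonneg_right hH hα0
    linarith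
  · have h1 := hsum (fun k => 4 * k) γ (by
      intro k hk
      rw [mem_Ico] at hk
      refine le_trans ?_ hγ
      exact_mod_cast hs.monoW (by omega))
    have h2 := mul_le_mul_of_nonneg_right hH hγ0
    linarith

/-- the sum of the losses over the blocks -/
theorem wins_sum {cL : ℕ → ℕ} {M X : ℕ} {b : ℝ}
    (hv : ∀ x : ℕ, 1 ≤ x → x ≤ X → (cL x : ℝ) ≤ b * max (x : ℝ) (Real.sqrt ((x : ℝ) * M)))
    {s : ℕ} (hs : 2 * s ≤ X) :
    ((∑ k ∈ Icc 1 s, cL (2 * k) : ℕ) : ℝ) ≤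
      b * ∑ k ∈ Icc 1 s, max (2 * (k : ℝ)) (Real.sqrt (2 * k * M)) := by
  push_cast
  rw [mul_sum]
  apply sum_le_sum
  intro k hk
  rw [mem_Icc] at hk
  have h := hv (2 * k) (by omega) (by omega)
  push_cast at h
  exact h

theorem wins_part {cW cL : ℕ → ℕ} (hsys : SysW 5172 5720 5000000 cW cL) {M X : ℕ} {b P : ℝ} (hM : 10 ^ 9 ≤ (M : ℝ)) (_hMX : 32 * M ≤ X) (hb : 0 < b)
    (hP : 0 < P)
    (hv : ∀ x : ℕ, 1 ≤ x → x ≤ X → (cL x : ℝ) ≤ b * max (x : ℝ) (Real.sqrt ((x : ℝ) * M)))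
    (LA : ∀ x : ℕ, 16 * x ≤ X ^ 2 → (cL x : ℝ) ≤ P * (1.0001 * x + 0.098 * M ^ 2))
    (LB : ∀ x : ℕ, 1 ≤ x → 4 * x ≤ M ^ 2 → (cL x : ℝ) ≤ 1.1 * P * M * Real.sqrt x)
    (x : ℕ) (hx : 1 ≤ x) (hX : 32 * x ≤ X ^ 2) :
    (cW x : ℝ) ≤ (1.09 * b + 2.1 * P) * max (x : ℝ) (Real.sqrt ((x : ℝ) * (M : ℝ) ^ 2)) := by
  have hM0 : (0 : ℝ) < M := by linarith
  set r : ℝ := Real.sqrt (x : ℝ) with hr
  have hr0 : 0 ≤ r := Real.sqrt_nonneg _
  have hr2 : r ^ 2 = x := Real.sq_sqrt (by positivity)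
  have hrM : Real.sqrt ((x : ℝ) * (M : ℝ) ^ 2) = r * M := by
    rw [Real.sqrt_mul (by positivity), Real.sqrt_sq hM0.le]
  rw [hrM]
  set m : ℝ := max (x : ℝ) (r * M) with hm
  have hm1 : (x : ℝ) ≤ m := le_max_left _ _
  have hm2 : r * M ≤ m := le_max_right _ _
  set s := Nat.sqrt x with hs
  have hsx : s * s ≤ x := Nat.sqrt_le x
  have hsr : (s : ℝ) ≤ r := by
    apply Real.le_sqrt_of_sq_le
    have : ((s * s : ℕ) : ℝ) ≤ x := by exact_mod_cast hsx
    push_cast at this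
    nlinarith
  have hsX : 2 * s ≤ X := by
    by_contra hc
    push Not at hc
    have h1 : X * X < (2 * s) * (2 * s) := Nat.mul_lt_mul'' hc hc
    nlinarith
  -- the sum
  have hsum : ((∑ k ∈ Icc 1 s, cL (2 * k) : ℕ) : ℝ) ≤ b * (1.09 * m) := by
    refine (wins_sum hv hsX).trans ?_
    apply mul_le_mul_of_nonneg_left _ hb.le
    rcases Nat.lt_or_ge (2 * s + 1) M with hlt | hge
    · have h1 : ∑ k ∈ Icc 1 s, max (2 * (k : ℝ)) (Real.sqrt (2 * k * M)) ≤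
          ∑ _k ∈ Icc 1 s, (M : ℝ) := by
        apply sum_le_sum
        intro k hk
        rw [mem_Icc] at hk
        have h2 : 2 * (k : ℝ) ≤ M := by
          have : 2 * k ≤ M := by omega
          exact_mod_cast this
        apply max_le h2
        apply Real.sqrt_le_iff.2
        refine ⟨hM0.le, ?_⟩
        nlinarith
      refine h1.trans ?_
      rw [sum_const, Nat.card_Icc, nsmul_eq_mul]
      simp only [Nat.add_sub_cancel]
      have h2 : (s : ℝ) * M ≤ r * M := mul_le_mul_of_nonneg_right hsr hM0.le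
      have h3 : 0 ≤ r * M := by positivity
      linarith
    · refine (sum_max_le hge).trans ?_
      have hMr : (M : ℝ) ≤ 2 * r + 1 := by
        have : (M : ℝ) ≤ 2 * s + 1 := by exact_mod_cast hge
        linarith
      have hs2 : (s : ℝ) ^ 2 ≤ r ^ 2 := pow_le_pow_left₀ (by positivity) hsr 2
      rcases le_total (M : ℝ) r with h | h
      · have h1 : (M : ℝ) ^ 2 ≤ r ^ 2 := pow_le_pow_left₀ hM0.le h 2
        have h2 : 10 ^ 9 * r ≤ r ^ 2 := by nlinarith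
        nlinarith
      · have h1 := mul_nonneg (sub_nonneg.2 h) (by linarith : 0 ≤ r - (M - 1) / 2)
        have h2 : 10 ^ 9 * (M : ℝ) ≤ M ^ 2 := by nlinarith
        have h3 : r * M ≤ M ^ 2 := by nlinarith
        nlinarith
  -- the last term
  have hlast : (cL (2 * x) : ℝ) ≤ 2.1 * P * m := by
    by_cases h8 : 8 * x ≤ M ^ 2
    · have h1 := LB (2 * x) (by omega) (by omega)
      have h2 : Real.sqrt ((2 * x : ℕ) : ℝ) ≤ 1.5 * r := by
        apply Real.sqrt_le_iff.2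
        constructor
        · positivity
        · push_cast
          nlinarith
      have h3 : 1.1 * P * M * Real.sqrt ((2 * x : ℕ) : ℝ) ≤ 1.1 * P * M * (1.5 * r) :=
        mul_le_mul_of_nonneg_left h2 (by positivity)
      have h4 : 0 ≤ P * (r * M) := by positivity
      have h5 : P * (r * M) ≤ P * m := mul_le_mul_of_nonneg_left hm2 hP.le
      nlinarith
    · push Not at h8
      have h1 := LA (2 * x) (by omega)
      push_cast at h1
      have h8' : (M : ℝ) ^ 2 < 8 * x := by exact_mod_cast h8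
      have h2 : 1.0001 * (2 * (x : ℝ)) + 0.098 * (M : ℝ) ^ 2 ≤ 2.1 * m := by
        rw [← hr2] at h8' hm1 ⊢
        rcases le_total (M : ℝ) r with h | h
        · have h3 : (M : ℝ) ^ 2 ≤ r ^ 2 := pow_le_pow_left₀ hM0.le h 2
          nlinarith
        · have h3 : (M : ℝ) ≤ 3 * r := by
            by_contra hc
            push Not at hc
            nlinarith
          have h4 := mul_nonneg (sub_nonneg.2 h) (by linarith : 0 ≤ r - M / 3)
          have h5 : r * M ≤ M ^ 2 := by nlinarith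
          nlinarith
      have h3 : P * (1.0001 * (2 * (x : ℝ)) + 0.098 * (M : ℝ) ^ 2) ≤ P * (2.1 * m) :=
        mul_le_mul_of_nonneg_left h2 hP.le
      linarith
  have hrec : (cW x : ℝ) ≤ ((∑ k ∈ Icc 1 s, cL (2 * k) : ℕ) : ℝ) + (cL (2 * x) : ℝ) := by
    exact_mod_cast hsys.win x
  linarith

/-! ### the two kinds of windows -/

theorem flat_window {cW cL : ℕ → ℕ} (hs : SysW 5172 5720 5000000 cW cL) {M X : ℕ}
    {u b p q : ℝ} (hv : ValidF cW cL M X u b) (hu : 0 < u) (hb : 0 < b) (hp0 : 0 < p) (hq0 : 0 < q)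
    (hp : 0.01137 * u * p + 6.69 * u * b ^ 2 ≤ p ^ 2)
    (hq : 0.02274 * u * q + 7.40 * u ^ 3 ≤ q ^ 2) {z : ℕ} (hz : 10000000 ≤ z)
    (hzX : 4 * (z - 1) ≤ X) (hMz : M ≤ 2 * z) :
    ((cL (z * z - 1) : ℕ) : ℝ) ≤ ((cL (lowEnd z * lowEnd z - 1) : ℕ) : ℝ) +
      0.639808 * (p + q) * (z : ℝ) ^ 2 := by
  have hzR : (10000000 : ℝ) ≤ z := by exact_mod_cast hz
  have hz0 : (0 : ℝ) < z := by linarith
  have hMR : (M : ℝ) ≤ 2 * z := by exact_mod_cast hMz
  have hM0 : (0 : ℝ) ≤ M := Nat.cast_nonneg _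
  have hRle : Nat.sqrt (8 * (z * z)) ≤ 3 * z := by
    rw [← Nat.sqrt_eq (3 * z)]
    apply Nat.sqrt_le_sqrt
    nlinarith
  have hRpos : 1 ≤ Nat.sqrt (8 * (z * z)) := Nat.sqrt_pos.mpr (by positivity)
  have hR3 : ((Nat.sqrt (8 * (z * z)) : ℕ) : ℝ) ≤ 3 * z := by exact_mod_cast hRle
  have hR0 : (0 : ℝ) ≤ ((Nat.sqrt (8 * (z * z)) : ℕ) : ℝ) := Nat.cast_nonneg _
  have hα : ((cW (2 * (z - 1)) : ℕ) : ℝ) ≤ 2 * u * z := by
    have h := (hv (2 * (z - 1)) (by omega) (by omega)).1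
    refine le_trans h ?_
    have hc : ((2 * (z - 1) : ℕ) : ℝ) ≤ 2 * z := by
      have : 2 * (z - 1) ≤ 2 * z := by omega
      exact_mod_cast this
    have hm : max (((2 * (z - 1) : ℕ) : ℝ)) (Real.sqrt (((2 * (z - 1) : ℕ) : ℝ) * M)) ≤ 2 * z := by
      refine max_le hc (Real.sqrt_le_iff.mpr ⟨by positivity, ?_⟩)
      calc ((2 * (z - 1) : ℕ) : ℝ) * M ≤ (2 * z) * (2 * z) :=
            mul_le_mul hc hMR hM0 (by positivity)
        _ = (2 * (z : ℝ)) ^ 2 := by ring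
    calc u * _ ≤ u * (2 * z) := mul_le_mul_of_nonneg_left hm hu.le
      _ = 2 * u * z := by ring
  have hβ : ((cL (Nat.sqrt (8 * (z * z))) : ℕ) : ℝ) ≤ b * Real.sqrt (8 * (z : ℝ) ^ 2) := by
    have h := (hv (Nat.sqrt (8 * (z * z))) hRpos (by omega)).2
    refine le_trans h (mul_le_mul_of_nonneg_left ?_ hb.le)
    refine max_le (Real.le_sqrt_of_sq_le (sqrt8_le z)) (Real.sqrt_le_sqrt ?_)
    calc ((Nat.sqrt (8 * (z * z)) : ℕ) : ℝ) * M ≤ (3 * z) * (2 * z) :=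
          mul_le_mul hR3 hMR hM0 (by positivity)
      _ ≤ 8 * (z : ℝ) ^ 2 := by nlinarith
  have hγ : ((cW (4 * (z - 1)) : ℕ) : ℝ) ≤ 4 * u * z := by
    have h := (hv (4 * (z - 1)) (by omega) hzX).1
    refine le_trans h ?_
    have hc : ((4 * (z - 1) : ℕ) : ℝ) ≤ 4 * z := by
      have : 4 * (z - 1) ≤ 4 * z := by omega
      exact_mod_cast this
    have hm : max (((4 * (z - 1) : ℕ) : ℝ)) (Real.sqrt (((4 * (z - 1) : ℕ) : ℝ) * M)) ≤ 4 * z := by
      refine max_le hc (Real.sqrt_le_iff.mpr ⟨by positivity, ?_⟩)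
      calc ((4 * (z - 1) : ℕ) : ℝ) * M ≤ (4 * z) * (2 * z) :=
            mul_le_mul hc hMR hM0 (by positivity)
        _ ≤ (4 * (z : ℝ)) ^ 2 := by nlinarith
    calc u * _ ≤ u * (4 * z) := mul_le_mul_of_nonneg_left hm hu.le
      _ = 4 * u * z := by ring
  have hsq : Real.sqrt (8 * (z : ℝ) ^ 2) ^ 2 = 8 * (z : ℝ) ^ 2 := Real.sq_sqrt (by positivity)
  have hz4 : 0 ≤ (z : ℝ) ^ 4 := by positivity
  have hup : 0 ≤ u * p := by positivity
  have huq : 0 ≤ u * q := by positivity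
  have hub : 0 ≤ u * b ^ 2 := by positivity
  have hu3 : 0 ≤ u ^ 3 := by positivity
  have key := window_bound hs hz hα hβ hγ (w₁ := 0.639808 * p * (z : ℝ) ^ 2)
    (w₂ := 0.639808 * q * (z : ℝ) ^ 2) (by positivity) (by positivity)
    (by
      rw [mul_pow b, hsq]
      have k1 : 0 ≤ 12100 * 0.639808 ^ 2 * p ^ 2 - 0.800022 * 110 * 0.639808 * (u * p) -
          0.800022 * 5172 * 8 * (u * b ^ 2) := by nlinarith
      have k2 := mul_nonneg hz4 k1
      nlinarith)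
    (by
      have k1 : 0 ≤ 12100 * 0.639808 ^ 2 * q ^ 2 - 1.600044 * 110 * 0.639808 * (u * q) -
          1.600044 * 5720 * 4 * u ^ 3 := by nlinarith
      have k2 := mul_nonneg hz4 k1
      nlinarith)
  linarith

theorem sqrt_window {cW cL : ℕ → ℕ} (hs : SysW 5172 5720 5000000 cW cL) {M X : ℕ}
    {u b p q : ℝ} (hv : ValidF cW cL M X u b) (hMX : 32 * M ≤ X)
    (hu : 0 < u) (hb : 0 < b) (hp0 : 0 < p) (hq0 : 0 < q)
    (hp : 0.01137 * u * p + 6.69 * u * b ^ 2 ≤ p ^ 2)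
    (hq : 0.02274 * u * q + 7.40 * u ^ 3 ≤ q ^ 2) {z : ℕ} (hz : 10000000 ≤ z)
    (hMz : 2 * z ≤ M) :
    ((cL (z * z - 1) : ℕ) : ℝ) ≤ ((cL (lowEnd z * lowEnd z - 1) : ℕ) : ℝ) +
      0.16 * (p + q) * (M : ℝ) ^ 2 * rr M z ^ 5 := by
  have hzR : (10000000 : ℝ) ≤ z := by exact_mod_cast hz
  have hz0 : (0 : ℝ) < z := by linarith
  have hMR : 2 * (z : ℝ) ≤ M := by exact_mod_cast hMz
  have hM0 : (0 : ℝ) < M := by linarith
  have hr0 := rr_nonneg M z
  have hr1 := rr_le_one (M := M) (z := z) (by omega) hMz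
  have hr4 := rr_four (M := M) z
  set r := rr M z with hr
  have hrpos : 0 < r := by
    rcases eq_or_lt_of_le hr0 with h | h
    · rw [← h] at hr4
      have : 0 < 2 * (z : ℝ) / M := by positivity
      rw [← hr4] at this
      norm_num at this
    · exact h
  have hzr : 2 * (z : ℝ) = M * r ^ 4 := by
    rw [hr4]
    field_simp
  have hRle : Nat.sqrt (8 * (z * z)) ≤ 3 * z := by
    rw [← Nat.sqrt_eq (3 * z)]
    apply Nat.sqrt_le_sqrt
    nlinarith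
  have hRpos : 1 ≤ Nat.sqrt (8 * (z * z)) := Nat.sqrt_pos.mpr (by positivity)
  have hR3 : ((Nat.sqrt (8 * (z * z)) : ℕ) : ℝ) ≤ 3 * z := by exact_mod_cast hRle
  have hR0 : (0 : ℝ) ≤ ((Nat.sqrt (8 * (z * z)) : ℕ) : ℝ) := Nat.cast_nonneg _
  have hMr2 : (M * r ^ 2) ^ 2 = 2 * z * (M : ℝ) := by
    calc ((M : ℝ) * r ^ 2) ^ 2 = M * (M * r ^ 4) := by ring
      _ = 2 * z * (M : ℝ) := by rw [← hzr]; ring
  have hα : ((cW (2 * (z - 1)) : ℕ) : ℝ) ≤ u * (M * r ^ 2) := by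
    have h := (hv (2 * (z - 1)) (by omega) (by omega)).1
    refine le_trans h (mul_le_mul_of_nonneg_left ?_ hu.le)
    have hc : ((2 * (z - 1) : ℕ) : ℝ) ≤ 2 * z := by
      have : 2 * (z - 1) ≤ 2 * z := by omega
      exact_mod_cast this
    have hc0 : (0 : ℝ) ≤ ((2 * (z - 1) : ℕ) : ℝ) := Nat.cast_nonneg _
    refine max_le ?_ (Real.sqrt_le_iff.mpr ⟨by positivity, ?_⟩)
    · refine le_trans hc (le_of_sq_le_sq ?_ (by positivity))
      rw [hMr2]
      nlinarith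
    · rw [hMr2]
      exact mul_le_mul_of_nonneg_right hc hM0.le
  have hβ : ((cL (Nat.sqrt (8 * (z * z))) : ℕ) : ℝ) ≤ b * Real.sqrt (4 * (z : ℝ) * M) := by
    have h := (hv (Nat.sqrt (8 * (z * z))) hRpos (by omega)).2
    refine le_trans h (mul_le_mul_of_nonneg_left ?_ hb.le)
    refine max_le (Real.le_sqrt_of_sq_le (le_trans (sqrt8_le z) ?_)) (Real.sqrt_le_sqrt ?_)
    · nlinarith
    · calc ((Nat.sqrt (8 * (z * z)) : ℕ) : ℝ) * M ≤ (3 * z) * M :=
            mul_le_mul_of_nonneg_right hR3 hM0.le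
        _ ≤ 4 * (z : ℝ) * M := by nlinarith
  have hγ : ((cW (4 * (z - 1)) : ℕ) : ℝ) ≤ u * (2 * M * r ^ 2) := by
    have h := (hv (4 * (z - 1)) (by omega) (by omega)).1
    refine le_trans h (mul_le_mul_of_nonneg_left ?_ hu.le)
    have hc : ((4 * (z - 1) : ℕ) : ℝ) ≤ 4 * z := by
      have : 4 * (z - 1) ≤ 4 * z := by omega
      exact_mod_cast this
    have h4 : (2 * M * r ^ 2) ^ 2 = 8 * z * (M : ℝ) := by
      calc (2 * (M : ℝ) * r ^ 2) ^ 2 = 4 * (M * r ^ 2) ^ 2 := by ring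
        _ = 8 * z * (M : ℝ) := by rw [hMr2]; ring
    refine max_le ?_ (Real.sqrt_le_iff.mpr ⟨by positivity, ?_⟩)
    · refine le_trans hc (le_of_sq_le_sq ?_ (by positivity))
      rw [h4]
      nlinarith
    · rw [h4]
      calc ((4 * (z - 1) : ℕ) : ℝ) * M ≤ (4 * z) * M := mul_le_mul_of_nonneg_right hc hM0.le
        _ ≤ 8 * z * (M : ℝ) := by nlinarith
  have hsq : Real.sqrt (4 * (z : ℝ) * M) ^ 2 = 4 * (z : ℝ) * M := Real.sq_sqrt (by positivity)
  have hsq2 : 4 * (z : ℝ) * M = 2 * M ^ 2 * r ^ 4 := by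
    calc 4 * (z : ℝ) * M = 2 * (2 * z) * M := by ring
      _ = 2 * M ^ 2 * r ^ 4 := by rw [hzr]; ring
  have hzz : (z : ℝ) = M * r ^ 4 / 2 := by linarith
  have hup : 0 ≤ u * p := by positivity
  have huq : 0 ≤ u * q := by positivity
  have hub : 0 ≤ u * b ^ 2 := by positivity
  have hu3 : 0 ≤ u ^ 3 := by positivity
  have hM4 : 0 ≤ (M : ℝ) ^ 4 * r ^ 10 := by positivity
  have key := window_bound hs hz hα hβ hγ (w₁ := 0.16 * p * (M : ℝ) ^ 2 * r ^ 5)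
    (w₂ := 0.16 * q * (M : ℝ) ^ 2 * r ^ 5) (by positivity) (by positivity)
    (by
      rw [mul_pow b, hsq, hsq2, hzz]
      have k0 : u * p * r ≤ u * p := mul_le_of_le_one_right hup hr1
      have k1 : 0 ≤ 309.76 * p ^ 2 - 3.5200968 * (u * p * r) -
          2068.856892 * (u * b ^ 2) := by nlinarith
      have k2 := mul_nonneg hM4 k1
      have k3 : (110 * (0.16 * p * (M : ℝ) ^ 2 * r ^ 5)) ^ 2 -
          ((u * (M * r ^ 2) * (0.400011 * (M * r ^ 4 / 2))) *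
            (110 * (0.16 * p * (M : ℝ) ^ 2 * r ^ 5)) +
          (u * (M * r ^ 2) * (0.400011 * (M * r ^ 4 / 2))) *
            (5172 * (b ^ 2 * (2 * M ^ 2 * r ^ 4)))) =
          (M : ℝ) ^ 4 * r ^ 10 * (309.76 * p ^ 2 - 3.5200968 * (u * p * r) -
          2068.856892 * (u * b ^ 2)) := by ring
      linarith)
    (by
      rw [hzz]
      have k0 : u * q * r ≤ u * q := mul_le_of_le_one_right huq hr1
      have k1 : 0 ≤ 309.76 * q ^ 2 - 7.0401936 * (u * q * r) -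
          2288.06292 * u ^ 3 := by nlinarith
      have k2 := mul_nonneg hM4 k1
      have k3 : (110 * (0.16 * q * (M : ℝ) ^ 2 * r ^ 5)) ^ 2 -
          ((u * (2 * M * r ^ 2) * (0.400011 * (M * r ^ 4 / 2))) *
            (110 * (0.16 * q * (M : ℝ) ^ 2 * r ^ 5)) +
          (u * (2 * M * r ^ 2) * (0.400011 * (M * r ^ 4 / 2))) *
            (5720 * (u * (M * r ^ 2)) ^ 2)) =
          (M : ℝ) ^ 4 * r ^ 10 * (309.76 * q ^ 2 - 7.0401936 * (u * q * r) -
          2288.06292 * u ^ 3) := by ring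
      linarith)
  linarith

/-! ### the two inductions -/

/-- The hypotheses of the step. -/
structure StepHyp (cW cL : ℕ → ℕ) (M X : ℕ) (u b p q : ℝ) : Prop where
  sys : SysW 5172 5720 5000000 cW cL
  hMX : 32 * M ≤ X
  hv : ValidF cW cL M X u b
  hu : 0 < u
  hb : 0 < b
  hp0 : 0 < p
  hq0 : 0 < q
  hp : 0.01137 * u * p + 6.69 * u * b ^ 2 ≤ p ^ 2
  hq : 0.02274 * u * q + 7.40 * u ^ 3 ≤ q ^ 2
  hP : p + q ≤ 0.01
  hM : 10 ^ 9 ≤ (p + q) * (M : ℝ)

namespace StepHyp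

variable {cW cL : ℕ → ℕ} {M X : ℕ} {u b p q : ℝ}

theorem M_large (h : StepHyp cW cL M X u b p q) : (100000000000 : ℝ) ≤ (M : ℝ) := by
  have h1 := h.hM
  have h2 := h.hP
  have h3 : (0 : ℝ) ≤ M := Nat.cast_nonneg _
  nlinarith

theorem z_large (h : StepHyp cW cL M X u b p q) {z : ℕ} (hz : 0.01 * (p + q) * (M : ℝ) < z) :
    10000000 ≤ z := by
  have h1 := h.hM
  have h2 : (10000000 : ℝ) ≤ z := by linarith
  exact_mod_cast h2

theorem low_real {z : ℕ} (hz : 10000000 ≤ z) : ((lowEnd z : ℕ) : ℝ) ≤ 0.6000001 * z := by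
  have h1 := lowEnd_le z
  have h2 : ((5 * lowEnd z : ℕ) : ℝ) ≤ ((3 * z + 4 : ℕ) : ℝ) := by exact_mod_cast h1
  have h3 : (10000000 : ℝ) ≤ z := by exact_mod_cast hz
  push_cast at h2
  linarith

theorem trivial_small (h : StepHyp cW cL M X u b p q) {z : ℕ} (hz1 : 1 ≤ z)
    (hz : (z : ℝ) ≤ 0.01 * (p + q) * (M : ℝ)) :
    ((cL (z * z - 1) : ℕ) : ℝ) ≤ (0.01 * (p + q) * (M : ℝ)) ^ 2 := by
  have h1 : cL (z * z - 1) ≤ z * z := by
    have h1 := h.sys.leL (z * z - 1)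
    have h2 : 1 ≤ z * z := Nat.mul_pos hz1 hz1
    omega
  have h2 : ((cL (z * z - 1) : ℕ) : ℝ) ≤ ((z * z : ℕ) : ℝ) := by exact_mod_cast h1
  push_cast at h2
  have h3 : (0 : ℝ) ≤ z := Nat.cast_nonneg _
  nlinarith

theorem first (h : StepHyp cW cL M X u b p q) : ∀ z : ℕ, 1 ≤ z → 2 * z ≤ M →
    ((cL (z * z - 1) : ℕ) : ℝ) ≤ 0.34 * (p + q) * (M : ℝ) ^ 2 * rr M z ^ 5 +
      (0.01 * (p + q) * (M : ℝ)) ^ 2 := by
  intro z
  induction z using Nat.strong_induction_on with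
  | _ z ih =>
    intro hz1 hzM
    have hPpos : 0 < p + q := add_pos h.hp0 h.hq0
    rcases le_or_gt (z : ℝ) (0.01 * (p + q) * (M : ℝ)) with hs | hs
    · have h1 := h.trivial_small hz1 hs
      have h2 : 0 ≤ 0.34 * (p + q) * (M : ℝ) ^ 2 * rr M z ^ 5 := by
        have := rr_nonneg M z
        positivity
      linarith
    · have hz := h.z_large hs
      have hw := sqrt_window h.sys h.hv h.hMX h.hu h.hb h.hp0 h.hq0 h.hp h.hq hz hzM
      have hK1 : 1 ≤ lowEnd z := by have := lowEnd_ge z; omega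
      have hKlt := lowEnd_lt (z := z) (by omega)
      have hIH := ih (lowEnd z) hKlt hK1 (by omega)
      have hlow := low_real hz
      have hM0 : (0 : ℝ) < M := by
        have := h.M_large
        linarith
      have hr4 := rr_four (M := M) z
      have hk4 := rr_four (M := M) (lowEnd z)
      have hr0 := rr_nonneg M z
      have hk0 := rr_nonneg M (lowEnd z)
      set r := rr M z
      set k := rr M (lowEnd z)
      have h4 : k ^ 4 ≤ 0.6000001 * r ^ 4 := by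
        rw [hr4, hk4]
        have : 2 * ((lowEnd z : ℕ) : ℝ) / M ≤ (0.6000001 * (2 * z)) / M :=
          div_le_div_of_nonneg_right (by linarith) hM0.le
        calc 2 * ((lowEnd z : ℕ) : ℝ) / M ≤ (0.6000001 * (2 * z)) / M := this
          _ = 0.6000001 * (2 * z / M) := by ring
      have h1 : k ≤ 0.8802 * r := by
        have : k ^ 4 ≤ (0.8802 * r) ^ 4 := by
          rw [mul_pow]
          have : 0 ≤ r ^ 4 := by positivity
          nlinarith
        exact (pow_le_pow_iff_left₀ hk0 (by positivity) (by norm_num)).mp this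
      have h5 : k ^ 5 ≤ 0.5281201 * r ^ 5 := by
        calc k ^ 5 = k ^ 4 * k := by ring
          _ ≤ (0.6000001 * r ^ 4) * (0.8802 * r) :=
              mul_le_mul h4 h1 hk0 (by positivity)
          _ = (0.6000001 * 0.8802) * r ^ 5 := by ring
          _ ≤ 0.5281201 * r ^ 5 := by
              have : 0 ≤ r ^ 5 := by positivity
              nlinarith
      have hPM : 0 ≤ (p + q) * (M : ℝ) ^ 2 := by positivity
      have h6 := mul_le_mul_of_nonneg_left h5 hPM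
      have h7 : 0 ≤ (p + q) * (M : ℝ) ^ 2 * r ^ 5 := by positivity
      nlinarith

theorem poly_g {x : ℝ} (hx : 0 ≤ x) : 8 * x ^ 5 ≤ 5 * x ^ 8 + 3 := by
  have h1 : 0 ≤ (x - 1) ^ 2 * (5 * x ^ 6 + 10 * x ^ 5 + 15 * x ^ 4 + 12 * x ^ 3 + 9 * x ^ 2 +
      6 * x + 3) := by positivity
  nlinarith

theorem poly2_g {r : ℝ} (hr : 0 ≤ r) : 0.34 * r ^ 5 ≤ r ^ 8 / 4 + 0.0975 := by
  have h := poly_g (x := r / 0.9475) (by positivity)
  have h5 : (r / 0.9475) ^ 5 = r ^ 5 / 0.9475 ^ 5 := div_pow _ _ _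
  have h8 : (r / 0.9475) ^ 8 = r ^ 8 / 0.9475 ^ 8 := div_pow _ _ _
  rw [h5, h8] at h
  have h9 : 0 ≤ r ^ 8 := by positivity
  have h10 : 0 ≤ r ^ 5 := by positivity
  norm_num at h
  norm_num
  nlinarith

theorem second (h : StepHyp cW cL M X u b p q) : ∀ z : ℕ, 1 ≤ z → 4 * (z - 1) ≤ X →
    ((cL (z * z - 1) : ℕ) : ℝ) ≤ (p + q) * (z : ℝ) ^ 2 + 0.0975 * (p + q) * (M : ℝ) ^ 2 +
      (0.01 * (p + q) * (M : ℝ)) ^ 2 := by
  intro z
  induction z using Nat.strong_induction_on with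
  | _ z ih =>
    intro hz1 hzX
    have hPpos : 0 < p + q := add_pos h.hp0 h.hq0
    have hML := h.M_large
    have hM0 : (0 : ℝ) < M := by linarith
    rcases le_or_gt (2 * z) M with hzM | hzM
    · have h1 := h.first z hz1 hzM
      have hr0 := rr_nonneg M z
      have hr4 := rr_four (M := M) z
      have h2 := poly2_g hr0
      have h3 : (M : ℝ) ^ 2 * (rr M z ^ 8 / 4) = (z : ℝ) ^ 2 := by
        have : rr M z ^ 8 = (2 * z / M) ^ 2 := by rw [← hr4]; ring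
        rw [this]
        field_simp
        ring
      have hPM : 0 ≤ (p + q) * (M : ℝ) ^ 2 := by positivity
      have h4 := mul_le_mul_of_nonneg_left h2 hPM
      have h5 : (p + q) * (M : ℝ) ^ 2 * (rr M z ^ 8 / 4 + 0.0975) =
          (p + q) * (z : ℝ) ^ 2 + 0.0975 * (p + q) * (M : ℝ) ^ 2 := by
        rw [← h3]; ring
      rw [h5] at h4
      linarith
    · have hzM' : (M : ℝ) < 2 * z := by exact_mod_cast hzM
      have hz : 10000000 ≤ z := by
        have : (10000000 : ℝ) ≤ z := by linarith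
        exact_mod_cast this
      have hw := flat_window h.sys h.hv h.hu h.hb h.hp0 h.hq0 h.hp h.hq hz hzX hzM.le
      have hK1 : 1 ≤ lowEnd z := by have := lowEnd_ge z; omega
      have hKlt := lowEnd_lt (z := z) (by omega)
      have hIH := ih (lowEnd z) hKlt hK1 (by omega)
      have hlow := low_real hz
      have hlow0 : (0 : ℝ) ≤ ((lowEnd z : ℕ) : ℝ) := Nat.cast_nonneg _
      have h3 : ((lowEnd z : ℕ) : ℝ) ^ 2 ≤ 0.3600002 * (z : ℝ) ^ 2 := by
        have h4 := pow_le_pow_left₀ hlow0 hlow 2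
        have h5 : (0 : ℝ) ≤ (z : ℝ) ^ 2 := by positivity
        nlinarith
      have h6 := mul_le_mul_of_nonneg_left h3 hPpos.le
      have h7 : 0 ≤ (p + q) * (z : ℝ) ^ 2 := by positivity
      nlinarith

theorem LA (h : StepHyp cW cL M X u b p q) (x : ℕ) (hx : 16 * x ≤ X ^ 2) :
    (cL x : ℝ) ≤ (p + q) * (1.0001 * x + 0.098 * (M : ℝ) ^ 2) := by
  have hPpos : 0 < p + q := add_pos h.hp0 h.hq0
  have hML := h.M_large
  have hM0 : (0 : ℝ) < M := by linarith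
  have hs1 : Nat.sqrt x * Nat.sqrt x ≤ x := Nat.sqrt_le x
  have hs2 : x < (Nat.sqrt x + 1) * (Nat.sqrt x + 1) := Nat.lt_succ_sqrt x
  set s := Nat.sqrt x with hs
  have hsX : 4 * s ≤ X := by
    by_contra hcon
    push Not at hcon
    nlinarith
  have h1 := h.second (s + 1) (by omega) (by simpa using hsX)
  have h2 : (cL x : ℝ) ≤ ((cL ((s + 1) * (s + 1) - 1) : ℕ) : ℝ) := by
    have := h.sys.monoL (show x ≤ (s + 1) * (s + 1) - 1 by omega)
    exact_mod_cast this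
  push_cast at h1
  have hsx : (s : ℝ) ^ 2 ≤ x := by
    have : ((s * s : ℕ) : ℝ) ≤ (x : ℝ) := by exact_mod_cast hs1
    push_cast at this
    nlinarith
  have h3 : ((s : ℝ) + 1) ^ 2 ≤ 1.0001 * x + 10001 := by
    nlinarith [sq_nonneg ((s : ℝ) - 10000)]
  have h4 := mul_le_mul_of_nonneg_left h3 hPpos.le
  have h5 : (0.01 * (p + q) * (M : ℝ)) ^ 2 ≤ 0.000001 * (p + q) * (M : ℝ) ^ 2 := by
    have e1 : (0.01 * (p + q) * (M : ℝ)) ^ 2 = 0.0001 * ((p + q) * (p + q)) * (M : ℝ) ^ 2 := by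
      ring
    rw [e1]
    have e2 : (p + q) * (p + q) ≤ 0.01 * (p + q) := mul_le_mul_of_nonneg_right h.hP hPpos.le
    have e3 : (0 : ℝ) ≤ (M : ℝ) ^ 2 := by positivity
    nlinarith [mul_le_mul_of_nonneg_right e2 e3]
  have h6 : (10001 : ℝ) ≤ 0.0004 * (M : ℝ) ^ 2 := by
    nlinarith
  have h7 := mul_le_mul_of_nonneg_left h6 hPpos.le
  nlinarith

theorem LB (h : StepHyp cW cL M X u b p q) (x : ℕ) (hx1 : 1 ≤ x) (hx : 4 * x ≤ M ^ 2) :
    (cL x : ℝ) ≤ 1.1 * (p + q) * M * Real.sqrt x := by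
  have hPpos : 0 < p + q := add_pos h.hp0 h.hq0
  have hML := h.M_large
  have hPM := h.hM
  have hMX := h.hMX
  have hM0 : (0 : ℝ) < M := by linarith
  have hs1 : Nat.sqrt x * Nat.sqrt x ≤ x := Nat.sqrt_le x
  have hs2 : x < (Nat.sqrt x + 1) * (Nat.sqrt x + 1) := Nat.lt_succ_sqrt x
  set s := Nat.sqrt x with hs
  have hxr : (1 : ℝ) ≤ x := by exact_mod_cast hx1
  have hw2 : Real.sqrt x ^ 2 = x := Real.sq_sqrt (by linarith)
  have hw1 : 1 ≤ Real.sqrt x := by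
    rw [← Real.sqrt_one]
    exact Real.sqrt_le_sqrt hxr
  have hsw : (s : ℝ) ≤ Real.sqrt x := by
    refine Real.le_sqrt_of_sq_le ?_
    have : ((s * s : ℕ) : ℝ) ≤ (x : ℝ) := by exact_mod_cast hs1
    push_cast at this
    nlinarith
  have hws : Real.sqrt x < (s : ℝ) + 1 := by
    rw [Real.sqrt_lt' (by positivity)]
    have : ((x : ℕ) : ℝ) < (((s + 1) * (s + 1) : ℕ) : ℝ) := by exact_mod_cast hs2
    push_cast at this
    nlinarith
  have h2 : (cL x : ℝ) ≤ ((cL ((s + 1) * (s + 1) - 1) : ℕ) : ℝ) := by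
    have := h.sys.monoL (show x ≤ (s + 1) * (s + 1) - 1 by omega)
    exact_mod_cast this
  set w := Real.sqrt x with hw
  rcases le_or_gt (2 * (s + 1)) M with hc | hc
  · rcases le_or_gt (((s + 1 : ℕ) : ℝ)) (0.01 * (p + q) * (M : ℝ)) with hd | hd
    · have h3 : (cL x : ℝ) ≤ x + 1 := by exact_mod_cast h.sys.leL x
      push_cast at hd
      have h4 : w ≤ 0.01 * ((p + q) * (M : ℝ)) := by linarith
      have h5 : w * w ≤ 0.01 * ((p + q) * (M : ℝ)) * w :=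
        mul_le_mul_of_nonneg_right h4 (by linarith)
      have h6 : (10 : ℝ) ^ 9 * w ≤ ((p + q) * (M : ℝ)) * w :=
        mul_le_mul_of_nonneg_right hPM (by linarith)
      norm_num at h6
      nlinarith
    · have h3 := h.first (s + 1) (by omega) hc
      have hr0 := rr_nonneg M (s + 1)
      have hr1 := rr_le_one (M := M) (z := s + 1) (by omega) hc
      have hr4 := rr_four (M := M) (s + 1)
      set r := rr M (s + 1)
      have h4 : r ^ 5 ≤ r ^ 4 := by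
        calc r ^ 5 = r ^ 4 * r := by ring
          _ ≤ r ^ 4 * 1 := mul_le_mul_of_nonneg_left hr1 (by positivity)
          _ = r ^ 4 := mul_one _
      rw [hr4] at h4
      have hz0 : (0 : ℝ) < ((s + 1 : ℕ) : ℝ) := by positivity
      have h5 : (M : ℝ) ^ 2 * (2 * ((s + 1 : ℕ) : ℝ) / M) = 2 * M * ((s + 1 : ℕ) : ℝ) := by
        field_simp
      have h6 : (M : ℝ) ^ 2 * r ^ 5 ≤ 2 * M * ((s + 1 : ℕ) : ℝ) := by
        rw [← h5]
        exact mul_le_mul_of_nonneg_left h4 (by positivity)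
      have h7 := mul_le_mul_of_nonneg_left h6 hPpos.le
      have h8 : (0.01 * (p + q) * (M : ℝ)) ^ 2 ≤
          0.01 * (p + q) * (M : ℝ) * ((s + 1 : ℕ) : ℝ) := by
        rw [pow_two]
        exact mul_le_mul_of_nonneg_left hd.le (by positivity)
      have h9 : ((s + 1 : ℕ) : ℝ) ≤ 1.5 * w := by
        have hz := h.z_large hd
        have : (9999999 : ℝ) ≤ s := by
          have : 9999999 ≤ s := by omega
          exact_mod_cast this
        push_cast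
        linarith
      have h10 := mul_le_mul_of_nonneg_left h9 (show 0 ≤ (p + q) * (M : ℝ) by positivity)
      have h11 : 0 ≤ (p + q) * (M : ℝ) * w := by positivity
      nlinarith
  · have h3 : 16 * x ≤ X ^ 2 := by
      have : (32 * M) ^ 2 ≤ X ^ 2 := Nat.pow_le_pow_left hMX 2
      nlinarith
    have h4 := h.LA x h3
    have h5 : (M : ℝ) < 2 * ((s : ℝ) + 1) := by
      have : ((M : ℕ) : ℝ) < ((2 * (s + 1) : ℕ) : ℝ) := by exact_mod_cast hc
      push_cast at this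
      linarith
    have h6 : 0.49 * (M : ℝ) ≤ w := by
      linarith
    have h7 : (x : ℝ) ≤ (M : ℝ) ^ 2 / 4 := by
      have : ((4 * x : ℕ) : ℝ) ≤ ((M ^ 2 : ℕ) : ℝ) := by exact_mod_cast hx
      push_cast at this
      linarith
    have h8 : 1.0001 * (x : ℝ) + 0.098 * (M : ℝ) ^ 2 ≤ 1.1 * (M * w) := by
      have : (M : ℝ) * (0.49 * M) ≤ M * w := mul_le_mul_of_nonneg_left h6 hM0.le
      nlinarith [sq_nonneg (M : ℝ)]
    have h9 := mul_le_mul_of_nonneg_left h8 hPpos.le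
    nlinarith

/-- the loss part of the new validity -/
theorem losses (h : StepHyp cW cL M X u b p q) (x : ℕ) (hx1 : 1 ≤ x) (hx : 32 * x ≤ X ^ 2) :
    (cL x : ℝ) ≤ 1.1 * (p + q) * max (x : ℝ) (Real.sqrt ((x : ℝ) * (M : ℝ) ^ 2)) := by
  have hPpos : 0 < p + q := add_pos h.hp0 h.hq0
  have hML := h.M_large
  have hM0 : (0 : ℝ) < M := by linarith
  have hxr : (1 : ℝ) ≤ x := by exact_mod_cast hx1
  have hw2 : Real.sqrt x ^ 2 = x := Real.sq_sqrt (by linarith)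
  have hw0 : 0 ≤ Real.sqrt x := Real.sqrt_nonneg _
  have hsqrt : Real.sqrt ((x : ℝ) * (M : ℝ) ^ 2) = Real.sqrt x * M := by
    rw [Real.sqrt_mul (by linarith), Real.sqrt_sq hM0.le]
  rcases le_or_gt (4 * x) (M ^ 2) with h4 | h4
  · refine le_trans (h.LB x hx1 h4) ?_
    have h5 : Real.sqrt x * M ≤ max (x : ℝ) (Real.sqrt ((x : ℝ) * (M : ℝ) ^ 2)) := by
      rw [hsqrt]; exact le_max_right _ _
    have h6 := mul_le_mul_of_nonneg_left h5 (show 0 ≤ 1.1 * (p + q) by positivity)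
    nlinarith
  · have hLA := h.LA x (by omega)
    refine le_trans hLA ?_
    rw [mul_comm 1.1 (p + q), mul_assoc]
    refine mul_le_mul_of_nonneg_left ?_ hPpos.le
    rcases le_or_gt ((M : ℝ) ^ 2) x with h5 | h5
    · have h6 : (x : ℝ) ≤ max (x : ℝ) (Real.sqrt ((x : ℝ) * (M : ℝ) ^ 2)) := le_max_left _ _
      nlinarith
    · have h6 : Real.sqrt x * M ≤ max (x : ℝ) (Real.sqrt ((x : ℝ) * (M : ℝ) ^ 2)) := by
        rw [hsqrt]; exact le_max_right _ _
      refine le_trans ?_ (mul_le_mul_of_nonneg_left h6 (by norm_num))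
      have h7 : Real.sqrt x ≤ M := by
        rw [Real.sqrt_le_left hM0.le]
        exact h5.le
      have h8 : (M : ℝ) / 2 ≤ Real.sqrt x := by
        refine Real.le_sqrt_of_sq_le ?_
        have : ((M ^ 2 : ℕ) : ℝ) < ((4 * x : ℕ) : ℝ) := by exact_mod_cast h4
        push_cast at this
        nlinarith
      have h9 : 0 ≤ (M - Real.sqrt x) * (Real.sqrt x - (M : ℝ) / 2) :=
        mul_nonneg (by linarith) (by linarith)
      nlinarith

end StepHyp

/-- THE STEP: from validity at `M` (on `[1, X]`) to validity at `M²` (on `[1, X²/32]`). -/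
theorem step_gen {cW cL : ℕ → ℕ} (hsys : SysW 5172 5720 5000000 cW cL) {M X : ℕ}
    {u b p q : ℝ} (hMX : 32 * M ≤ X) (hv : ValidF cW cL M X u b) (hu : 0 < u) (hb : 0 < b)
    (hp0 : 0 < p) (hq0 : 0 < q)
    (hp : 0.01137 * u * p + 6.69 * u * b ^ 2 ≤ p ^ 2)
    (hq : 0.02274 * u * q + 7.40 * u ^ 3 ≤ q ^ 2) (hP : p + q ≤ 0.01)
    (hM : 10 ^ 9 ≤ (p + q) * (M : ℝ)) :
    ValidF cW cL (M ^ 2) (X ^ 2 / 32) (1.09 * b + 2.1 * (p + q)) (1.1 * (p + q)) := by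
  have h : StepHyp cW cL M X u b p q := ⟨hsys, hMX, hv, hu, hb, hp0, hq0, hp, hq, hP, hM⟩
  intro x hx1 hx
  have hx32 : 32 * x ≤ X ^ 2 := by
    have := (Nat.le_div_iff_mul_le (by norm_num : 0 < 32)).mp hx
    omega
  have hM9 : (10 : ℝ) ^ 9 ≤ (M : ℝ) := le_trans (by norm_num) h.M_large
  have hcast : ((M ^ 2 : ℕ) : ℝ) = (M : ℝ) ^ 2 := by push_cast; ring
  rw [hcast]
  constructor
  · exact wins_part hsys hM9 hMX hb (add_pos hp0 hq0) (fun y hy1 hy => (hv y hy1 hy).2)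
      (fun y hy => h.LA y hy) (fun y hy1 hy => h.LB y hy1 hy) x hx1 hx32
  · exact h.losses x hx1 hx32

end Pool.Agent.AddSq.StepG
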