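import Pool.Agent.AddSq.Algo
import Pool.Agent.AddSq.GenWindow
import Pool.Agent.AddSq.Limit
import Pool.Agent.AddSq.StepGen

/-!
# Assembly of the final theorem of MP_006ce8_co from the two lag bounds and the start
-/

namespace Pool.Agent.AddSq

open Finset

/-- every property `P` which holds for all positive integers outside `Wp ∪ Lp` -/
theorem not_isDraw {n : ℕ} (h : ¬ isDraw n = true) : Wp n ∨ Lp n := by
  rw [isDraw_iff] at h
  tauto

theorem card_true_eq (D : ℕ → Bool) (x : ℕ) :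
    ((Icc 1 x).filter (fun n => D n = true)).card = cnt (fun n => D n = true) x := by
  unfold cnt
  congr

theorem card_false_eq (D : ℕ → Bool) (x : ℕ) :
    (((Icc 1 x).filter (fun n => D n = false)).card : ℝ) =
      (x : ℝ) - cnt (fun n => D n = true) x := by
  have h1 : ((Icc 1 x).filter (fun n => D n = true)).card +
      ((Icc 1 x).filter (fun n => ¬ D n = true)).card = x := by
    rw [card_filter_add_card_filter_not]
    simp
  have h2 : ((Icc 1 x).filter (fun n => ¬ D n = true)) = (Icc 1 x).filter (fun n => D n = false) :=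
    filter_congr (fun n _ => by simp)
  rw [h2] at h1
  rw [← card_true_eq]
  have h3 : (((Icc 1 x).filter (fun n => D n = true)).card : ℝ) +
      ((Icc 1 x).filter (fun n => D n = false)).card = x := by exact_mod_cast h1
  linarith

/-- **Assembly**, generic in the constants of the step. -/
theorem final_gen {c₁ c₂ c₃ c₄ u b p q lam r : ℝ} (hc : Contr c₁ c₂ c₃ c₄ u b p q lam)
    (hr : lam ≤ r)
    (hstep : StepThm c₁ c₂ c₃ c₄ (gcount Wp) (gcount Lp)) {M Y : ℕ} (hMY : M < Y)
    (hM : 10 ^ 9 ≤ (p + q) * (M : ℝ)) (hM2 : 1 ≤ lam * (M : ℝ))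
    (hv : ValidF (gcount Wp) (gcount Lp) M (32 * Y) u b) :
    ∃ g : ℕ →. ℕ, Partrec g ∧ (∀ n, Win n → g n = Part.some 1) ∧
      (∀ n, Loss n → g n = Part.some 2) ∧
      (∀ n, Draw n → g n = Part.some 0 ∨ g n = Part.none) ∧
      ∃ D : ℕ → Bool, Primrec D ∧ (∀ n, 1 ≤ n → D n = true → Draw n ∧ g n = Part.some 0) ∧
        Filter.limsup (fun x : ℕ =>
          (((Icc 1 x).filter (fun n => D n = true)).card : ℝ) / x) Filter.atTop = 1 ∧
        ∀ j x : ℕ, M ^ 2 ^ j ≤ x → x ≤ 32 * Y ^ 2 ^ j →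
          (((Icc 1 x).filter (fun n => D n = false)).card : ℝ) ≤ (u + b) * r ^ j * x := by
  obtain ⟨s1, s2, s3, s4, s5⟩ := algo_spec
  obtain ⟨d1, d2⟩ := dense_of_step hc (P := fun n => isDraw n = true) (W := Wp) (L := Lp)
    (fun n _ h => not_isDraw h) hstep hMY.le hM hM2 hv
  refine ⟨algo, s1, s2, s3, s4, isDraw, isDraw_primrec, fun n hn h => ⟨isDraw_sound hn h, s5 n h⟩,
    ?_, ?_⟩
  · simp only [card_true_eq]
    exact d2
  · intro j x h1 h2
    rw [card_false_eq]
    refine (d1 j x h1 h2).trans ?_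
    have h3 : lam ^ j ≤ r ^ j := pow_le_pow_left₀ hc.hl0.le hr j
    have h4 : 0 ≤ u + b := (add_pos hc.hu hc.hb).le
    exact mul_le_mul_of_nonneg_right (mul_le_mul_of_nonneg_left h3 h4) (Nat.cast_nonneg x)

/-- The step theorem in the form used here. -/
theorem stepThm_old {cW cL : ℕ → ℕ} (hsys : SysW 5172 5720 5000000 cW cL) :
    StepThm 0.01137 6.69 0.02274 7.40 cW cL :=
  fun _ _ _ _ _ _ h1 h2 h3 h4 h5 h6 h7 h8 h9 h10 =>
    StepG.step_gen hsys h1 h2 h3 h4 h5 h6 h7 h8 h9 h10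

/-- **Assembly** from the lag bounds and the start. -/
theorem final_of (h1 : LagBound1 5000000 5172) (h2 : LagBound2 5000000 5720) {M Y : ℕ}
    (hMY : M < Y) (hM : 10 ^ 12 ≤ M)
    (hv : ValidF (gcount Wp) (gcount Lp) M (32 * Y) 0.0055 0.0018) :
    ∃ g : ℕ →. ℕ, Partrec g ∧ (∀ n, Win n → g n = Part.some 1) ∧
      (∀ n, Loss n → g n = Part.some 2) ∧
      (∀ n, Draw n → g n = Part.some 0 ∨ g n = Part.none) ∧
      ∃ D : ℕ → Bool, Primrec D ∧ (∀ n, 1 ≤ n → D n = true → Draw n ∧ g n = Part.some 0) ∧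
        Filter.limsup (fun x : ℕ =>
          (((Icc 1 x).filter (fun n => D n = true)).card : ℝ) / x) Filter.atTop = 1 ∧
        ∀ j x : ℕ, M ^ 2 ^ j ≤ x → x ≤ 32 * Y ^ 2 ^ j →
          (((Icc 1 x).filter (fun n => D n = false)).card : ℝ) ≤
            0.0073 * (19 / 20) ^ j * x := by
  have hsys : SysW 5172 5720 5000000 (gcount Wp) (gcount Lp) :=
    sysW_of_rules grules_wl (by norm_num) h1 h2
  have hM' : (10 : ℝ) ^ 12 ≤ M := by exact_mod_cast hM
  have h := final_gen contr_old (r := 19 / 20) (by norm_num) (stepThm_old hsys) hMY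
    (by
      have : (10 : ℝ) ^ 9 ≤ (0.000378 + 0.001174) * 10 ^ 12 := by norm_num
      exact this.trans (mul_le_mul_of_nonneg_left hM' (by norm_num)))
    (by
      have : (1 : ℝ) ≤ 0.95 * 10 ^ 12 := by norm_num
      exact this.trans (mul_le_mul_of_nonneg_left hM' (by norm_num))) hv
  have he : (0.0055 : ℝ) + 0.0018 = 0.0073 := by norm_num
  simp only [he] at h
  exact h

end Pool.Agent.AddSq
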