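import Pool.Agent.AddSq.Arith

/-!
# Bit blocks for the add-or-subtract-square game

`Sup f P B`: the function `f` computes, for blocks `p ≤ B`, a bitset which contains all
`i < len` with `P (p² + u + i)`.  The combinators `seg`, `nx`, `fo`, `fa` are evaluated by the
kernel; only this direction is needed for the upper bounds.
-/

namespace Pool.Agent.AddSq

/-- `⌊p √2⌋` for `p < 2 ^ 31` -/
def mm (p : ℕ) : ℕ := Nat.shiftRight (Nat.mul p 26087635650665564424) 64

def sqr (p : ℕ) : ℕ := Nat.mul p p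

/-- first residue of the up move from the block `p` -/
def am (p : ℕ) : ℕ := Nat.sub (Nat.mul 2 (Nat.mul p p)) (sqr (mm p))

/-- first remainder of the block `p` whose up move is in the block `mm p + 1` -/
def tm (p : ℕ) : ℕ := Nat.sub (sqr (Nat.succ (mm p))) (Nat.mul 2 (Nat.mul p p))

theorem sq_ne_two_sq {a b : ℕ} (hb : 1 ≤ b) : a * a ≠ 2 * (b * b) := by
  intro h
  have h2 : Irrational (Real.sqrt 2) := irrational_sqrt_two
  apply h2
  refine ⟨(a : ℚ) / b, ?_⟩
  have hb' : (0 : ℝ) < b := by exact_mod_cast hb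
  have h3 : (a : ℝ) * a = 2 * (b * b) := by exact_mod_cast h
  have h4 : ((a : ℝ) / b) ^ 2 = 2 := by
    field_simp
    nlinarith
  push_cast
  rw [← h4, Real.sqrt_sq (by positivity)]

theorem mm_le (p : ℕ) : mm p * mm p ≤ 2 * (p * p) := by
  have h1 : mm p * 2 ^ 64 ≤ p * 26087635650665564424 := by
    unfold mm
    change (p * 26087635650665564424) >>> 64 * 2 ^ 64 ≤ _
    rw [Nat.shiftRight_eq_div_pow]
    exact Nat.div_mul_le_self _ _
  have h2 : (mm p * 2 ^ 64) * (mm p * 2 ^ 64) ≤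
      (p * 26087635650665564424) * (p * 26087635650665564424) := Nat.mul_le_mul h1 h1
  have h3 : 26087635650665564424 * 26087635650665564424 ≤ 2 * (2 ^ 64 * 2 ^ 64) := by norm_num
  have h4 : (mm p * mm p) * (2 ^ 64 * 2 ^ 64) ≤ 2 * (p * p) * (2 ^ 64 * 2 ^ 64) := by
    calc (mm p * mm p) * (2 ^ 64 * 2 ^ 64) = (mm p * 2 ^ 64) * (mm p * 2 ^ 64) := by ring
      _ ≤ (p * 26087635650665564424) * (p * 26087635650665564424) := h2
      _ = (p * p) * (26087635650665564424 * 26087635650665564424) := by ring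
      _ ≤ (p * p) * (2 * (2 ^ 64 * 2 ^ 64)) := Nat.mul_le_mul le_rfl h3
      _ = 2 * (p * p) * (2 ^ 64 * 2 ^ 64) := by ring
  exact Nat.le_of_mul_le_mul_right h4 (by positivity)

theorem lt_mm {p : ℕ} (h1 : 1 ≤ p) (h : p < 2 ^ 31) :
    2 * (p * p) < (mm p + 1) * (mm p + 1) := by
  by_contra hcon
  push Not at hcon
  have hne : (mm p + 1) * (mm p + 1) ≠ 2 * (p * p) := sq_ne_two_sq h1
  have h2 : (mm p + 1) * (mm p + 1) + 1 ≤ 2 * (p * p) := by omega
  have h3 : p * 26087635650665564424 < (mm p + 1) * 2 ^ 64 := by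
    unfold mm
    change _ < ((p * 26087635650665564424) >>> 64 + 1) * 2 ^ 64
    rw [Nat.shiftRight_eq_div_pow]
    have := Nat.lt_div_mul_add (a := p * 26087635650665564424) (b := 2 ^ 64) (by norm_num)
    rw [Nat.add_mul, one_mul]
    exact this
  have h4 : (p * 26087635650665564424) * (p * 26087635650665564424) <
      ((mm p + 1) * 2 ^ 64) * ((mm p + 1) * 2 ^ 64) := Nat.mul_lt_mul'' h3 h3
  have h5 : (2 ^ 64 * 2 ^ 64) * 2 ≤
      26087635650665564424 * 26087635650665564424 + 2 * 26087635650665564424 + 1 := by norm_num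
  have h6 : (mm p + 1) * (mm p + 1) * (2 ^ 64 * 2 ^ 64) + 2 ^ 64 * 2 ^ 64 ≤
      2 * (p * p) * (2 ^ 64 * 2 ^ 64) := by
    calc (mm p + 1) * (mm p + 1) * (2 ^ 64 * 2 ^ 64) + 2 ^ 64 * 2 ^ 64
        = ((mm p + 1) * (mm p + 1) + 1) * (2 ^ 64 * 2 ^ 64) := by ring
      _ ≤ 2 * (p * p) * (2 ^ 64 * 2 ^ 64) := Nat.mul_le_mul h2 le_rfl
  have h7 : (p * p) * ((2 ^ 64 * 2 ^ 64) * 2) ≤
      (p * p) * (26087635650665564424 * 26087635650665564424 + 2 * 26087635650665564424 + 1) :=
    Nat.mul_le_mul le_rfl h5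
  have h8 : p * p ≤ (2 ^ 31 - 1) * (2 ^ 31 - 1) := Nat.mul_le_mul (by omega) (by omega)
  have e1 : ((mm p + 1) * 2 ^ 64) * ((mm p + 1) * 2 ^ 64) =
    (mm p + 1) * (mm p + 1) * (2 ^ 64 * 2 ^ 64) := by ring
  have e2 : (p * 26087635650665564424) * (p * 26087635650665564424) =
    (p * p) * (26087635650665564424 * 26087635650665564424) := by ring
  rw [e1, e2] at h4
  generalize (mm p + 1) * (mm p + 1) = x at *
  generalize p * p = y at *
  norm_num at *
  omega

theorem mm_eq {p : ℕ} (h1 : 1 ≤ p) (h : p < 2 ^ 31) : Nat.sqrt (2 * (p * p)) = mm p := by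
  symm
  rw [Nat.eq_sqrt]
  exact ⟨mm_le p, lt_mm h1 h⟩

theorem am_eq (p : ℕ) : am p + mm p * mm p = 2 * (p * p) := by
  have := mm_le p
  unfold am sqr
  change 2 * (p * p) - mm p * mm p + mm p * mm p = _
  omega

theorem tm_eq {p : ℕ} (h1 : 1 ≤ p) (h : p < 2 ^ 31) :
    tm p + 2 * (p * p) = (mm p + 1) * (mm p + 1) := by
  have := lt_mm h1 h
  unfold tm sqr
  change (mm p + 1) * (mm p + 1) - 2 * (p * p) + 2 * (p * p) = _
  omega

theorem le_mm (p : ℕ) (h1 : 1 ≤ p) (h : p < 2 ^ 31) : p ≤ mm p := by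
  have := lt_mm h1 h
  by_contra hc
  push Not at hc
  have h3 : (mm p + 1) * (mm p + 1) ≤ p * p := Nat.mul_le_mul hc hc
  omega

theorem two_mm_le (p : ℕ) : 2 * mm p ≤ 3 * p := by
  have := mm_le p
  nlinarith

/-- The specification of the block functions. -/
def Sup (f : ℕ → ℕ → ℕ → ℕ) (P : ℕ → Prop) (B : ℕ) : Prop :=
  ∀ p u len i, 1 ≤ p → p ≤ B → u + len ≤ 2 * p + 1 → i < len → P (p * p + (u + i)) →
    (f p u len).testBit i = true

theorem Sup.mono {f : ℕ → ℕ → ℕ → ℕ} {P Q : ℕ → Prop} {B : ℕ} (h : Sup f P B)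
    (hQ : ∀ n, Q n → P n) : Sup f Q B :=
  fun p u len i h1 h2 h3 h4 h5 => h p u len i h1 h2 h3 h4 (hQ _ h5)

/-- `len` bits of `X` from the bit `u` on -/
def seg (X _p u len : ℕ) : ℕ :=
  Nat.land (Nat.shiftRight X u) (Nat.sub (Nat.shiftLeft 1 len) 1)

theorem testBit_mask {len i : ℕ} (h : i < len) :
    (Nat.sub (Nat.shiftLeft 1 len) 1).testBit i = true := by
  change ((1 <<< len) - 1).testBit i = true
  rw [Nat.one_shiftLeft, Nat.testBit_two_pow_sub_one]
  simpa using h

theorem testBit_seg {X p u len i : ℕ} (h : i < len) :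
    (seg X p u len).testBit i = X.testBit (u + i) := by
  unfold seg
  change (X >>> u &&& _).testBit i = _
  rw [Nat.testBit_and, testBit_mask h, Nat.testBit_shiftRight, Bool.and_true]

theorem sup_seg {X B R : ℕ} {T : ℕ → Prop} (hX : ∀ n < R, T n → X.testBit n = true)
    (hB : 2 * B + 1 ≤ R) : Sup (seg X) (fun n => T (rem n)) B := by
  intro p u len i h1 h2 h3 h4 h5
  rw [testBit_seg h4]
  rw [rem_block (by omega)] at h5
  exact hX _ (by omega) h5

/-- union -/
def fo (f g : ℕ → ℕ → ℕ → ℕ) (p u len : ℕ) : ℕ := Nat.lor (f p u len) (g p u len)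

/-- intersection -/
def fa (f g : ℕ → ℕ → ℕ → ℕ) (p u len : ℕ) : ℕ := Nat.land (f p u len) (g p u len)

theorem sup_fo {f g : ℕ → ℕ → ℕ → ℕ} {P Q : ℕ → Prop} {B : ℕ} (hf : Sup f P B)
    (hg : Sup g Q B) : Sup (fo f g) (fun n => P n ∨ Q n) B := by
  intro p u len i h1 h2 h3 h4 h5
  change (f p u len ||| g p u len).testBit i = true
  rw [Nat.testBit_or, Bool.or_eq_true]
  rcases h5 with h5 | h5
  · exact Or.inl (hf p u len i h1 h2 h3 h4 h5)
  · exact Or.inr (hg p u len i h1 h2 h3 h4 h5)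

theorem sup_fa {f g : ℕ → ℕ → ℕ → ℕ} {P Q : ℕ → Prop} {B : ℕ} (hf : Sup f P B)
    (hg : Sup g Q B) : Sup (fa f g) (fun n => P n ∧ Q n) B := by
  intro p u len i h1 h2 h3 h4 h5
  change (f p u len &&& g p u len).testBit i = true
  rw [Nat.testBit_and, Bool.and_eq_true]
  exact ⟨hf p u len i h1 h2 h3 h4 h5.1, hg p u len i h1 h2 h3 h4 h5.2⟩

/-- the next block: the up move from the residues `[u, u + len)` of the block `p` -/
noncomputable def nx (f : ℕ → ℕ → ℕ → ℕ) (p u len : ℕ) : ℕ :=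
  @Bool.rec (fun _ => ℕ)
    (@Bool.rec (fun _ => ℕ)
      (Nat.lor (f (mm p) (Nat.add u (am p)) (Nat.sub (tm p) u))
        (Nat.shiftLeft (f (Nat.succ (mm p)) 0 (Nat.sub len (Nat.sub (tm p) u)))
          (Nat.sub (tm p) u)))
      (f (Nat.succ (mm p)) (Nat.sub u (tm p)) len) (Nat.ble (tm p) u))
    (f (mm p) (Nat.add u (am p)) len) (Nat.ble (Nat.add u len) (tm p))

theorem sup_nx {f : ℕ → ℕ → ℕ → ℕ} {P : ℕ → Prop} {B B' : ℕ} (hf : Sup f P B')
    (hB : 3 * B + 2 ≤ 2 * B') (hB2 : B < 2 ^ 31) : Sup (nx f) (fun n => P (up n)) B := by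
  intro p u len i h1 h2 h3 h4 h5
  have hp : p < 2 ^ 31 := by omega
  have ha := am_eq p
  have ht := tm_eq h1 hp
  have hm := le_mm p h1 hp
  have hm2 := two_mm_le p
  rw [up_block (by omega)] at h5
  have hsq : (mm p + 1) * (mm p + 1) = mm p * mm p + 2 * mm p + 1 := by ring
  have hA : u + i < tm p → P (mm p * mm p + (u + am p + i)) := by
    intro _
    have e : 2 * (p * p) + (u + i) = mm p * mm p + (u + am p + i) := by omega
    rwa [e] at h5
  have hC : tm p ≤ u + i → P ((mm p + 1) * (mm p + 1) + (u + i - tm p)) := by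
    intro _
    have e : 2 * (p * p) + (u + i) = (mm p + 1) * (mm p + 1) + (u + i - tm p) := by omega
    rwa [e] at h5
  unfold nx
  cases hb : Nat.ble (Nat.add u len) (tm p) with
  | true =>
    have hle : u + len ≤ tm p := Nat.le_of_ble_eq_true hb
    change (f (mm p) (u + am p) len).testBit i = true
    exact hf (mm p) (u + am p) len i (by omega) (by omega) (by omega) h4 (hA (by omega))
  | false =>
    have hlt : ¬ (u + len ≤ tm p) := fun hh => by
      have := Nat.ble_eq_true_of_le hh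
      rw [show u + len = Nat.add u len from rfl, hb] at this
      exact absurd this (by decide)
    cases hb2 : Nat.ble (tm p) u with
    | true =>
      have hle : tm p ≤ u := Nat.le_of_ble_eq_true hb2
      change (f (mm p + 1) (u - tm p) len).testBit i = true
      refine hf (mm p + 1) (u - tm p) len i (by omega) (by omega) (by omega) h4 ?_
      have := hC (by omega)
      rwa [show u + i - tm p = u - tm p + i by omega] at this
    | false =>
      have hlt2 : ¬ (tm p ≤ u) := fun hh => by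
        have := Nat.ble_eq_true_of_le hh
        rw [hb2] at this
        exact absurd this (by decide)
      change (f (mm p) (u + am p) (tm p - u) |||
        (f (mm p + 1) 0 (len - (tm p - u)) <<< (tm p - u))).testBit i = true
      rw [Nat.testBit_or, Bool.or_eq_true]
      by_cases hi : u + i < tm p
      · left
        exact hf (mm p) (u + am p) (tm p - u) i (by omega) (by omega) (by omega) (by omega)
          (hA hi)
      · right
        rw [Nat.testBit_shiftLeft, Bool.and_eq_true]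
        refine ⟨by simp; omega, ?_⟩
        refine hf (mm p + 1) 0 (len - (tm p - u)) (i - (tm p - u)) (by omega) (by omega)
          (by omega) (by omega) ?_
        have := hC (by omega)
        rwa [show u + i - tm p = 0 + (i - (tm p - u)) by omega] at this

end Pool.Agent.AddSq
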