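import Pool.Agent.AddSq.Arith

/-!
# Counting lemma, line part

For fixed `b, b'` and `(d, e)` the solutions `k` of
`r₁(k, a) = b`, `r₁(k + d, a) = b'`, `m(k + d, a) - m(k, a) = e`
lie on a line with step `e / gcd(2d, e)`, and there are at most `J + 1` of them.
-/

namespace Pool.Agent.AddSq

/-- `r₁(k, a) = b` and `m = √(2k² + a)`, `0 ≤ a ≤ 2k` -/
structure Sol (k m a b : ℤ) : Prop where
  a_nonneg : 0 ≤ a
  a_le : a ≤ 2 * k
  m_nonneg : 0 ≤ m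
  b_eq : b = a + Q k m
  b_nonneg : 0 ≤ b
  b_le : b ≤ 2 * m

theorem Sol.k_nonneg {k m a b : ℤ} (h : Sol k m a b) : 0 ≤ k := by
  have := h.a_nonneg
  have := h.a_le
  omega

/-- the strip: `-1 < m - √2 k < 1` -/
theorem Sol.strip {k m a b : ℤ} (h : Sol k m a b) :
    |(m : ℝ) - Real.sqrt 2 * k| < 1 := by
  have hk := h.k_nonneg
  have h2 : Real.sqrt 2 * Real.sqrt 2 = 2 := Real.mul_self_sqrt (by norm_num)
  have hs : 1 ≤ Real.sqrt 2 := by
    rw [show (1 : ℝ) = Real.sqrt 1 by simp]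
    exact Real.sqrt_le_sqrt (by norm_num)
  have hkr : (0 : ℝ) ≤ k := by exact_mod_cast hk
  have hmr : (0 : ℝ) ≤ m := by exact_mod_cast h.m_nonneg
  have e1 : (b : ℝ) = a + (2 * (k : ℝ) ^ 2 - (m : ℝ) ^ 2) := by
    have := h.b_eq
    unfold Q at this
    exact_mod_cast this
  have e2 : (0 : ℝ) ≤ a := by exact_mod_cast h.a_nonneg
  have e3 : (a : ℝ) ≤ 2 * k := by exact_mod_cast h.a_le
  have e4 : (0 : ℝ) ≤ b := by exact_mod_cast h.b_nonneg
  have e5 : (b : ℝ) ≤ 2 * m := by exact_mod_cast h.b_le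
  rw [abs_lt]
  constructor
  · -- `√2 k < m + 1`
    have h3 : (Real.sqrt 2 * k) ^ 2 < ((m : ℝ) + 1) ^ 2 := by
      have : (Real.sqrt 2 * k) ^ 2 = 2 * (k : ℝ) ^ 2 := by
        rw [mul_pow, pow_two (Real.sqrt 2), h2]
      rw [this]
      nlinarith
    have := lt_of_pow_lt_pow_left₀ 2 (by positivity) h3
    linarith
  · -- `m < √2 k + 1`
    have h3 : (m : ℝ) ^ 2 < (Real.sqrt 2 * k + 1) ^ 2 := by
      have : (Real.sqrt 2 * k + 1) ^ 2 = 2 * (k : ℝ) ^ 2 + 2 * (Real.sqrt 2 * k) + 1 := by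
        rw [add_sq, mul_pow, pow_two (Real.sqrt 2), h2]
        ring
      rw [this]
      have h4 : (k : ℝ) ≤ Real.sqrt 2 * k := by nlinarith
      nlinarith
    have := lt_of_pow_lt_pow_left₀ 2 (by positivity) h3
    linarith

/-- the line relation -/
theorem Sol.line {k m a b m' b' d e : ℤ} (h : Sol k m a b) (h' : Sol (k + d) m' a b')
    (he : m' - m = e) : b' - b = 2 * (2 * d * k - e * m) + 2 * d ^ 2 - e ^ 2 := by
  have h1 := h.b_eq
  have h2 := h'.b_eq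
  unfold Q at h1 h2
  have h3 : m' = m + e := by omega
  subst h3
  rw [h1, h2]
  ring

/-- two solutions on the same line: the difference of the `a`'s -/
theorem a_diff {k₁ k₂ m₁ m₂ a₁ a₂ b : ℤ} (h₁ : Sol k₁ m₁ a₁ b) (h₂ : Sol k₂ m₂ a₂ b) :
    a₁ - a₂ = 2 * (k₂ - k₁) * (k₁ + k₂) - (m₂ - m₁) * (m₁ + m₂) := by
  have e1 := h₁.b_eq
  have e2 := h₂.b_eq
  unfold Q at e1 e2
  linear_combination e2 - e1

/-- The key inequality for two solutions `k₁ < k₂` on the same line: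
with `k₂ - k₁ = e' j`, `m₂ - m₁ = f j`, `e = g e'`, `2 d = g f`, `t = |√2 d - e|`:
`|j| (2 t k₂ - 2|e| - 2|d|) ≤ g k₂`. -/
theorem key_ineq {k₁ k₂ m₁ m₂ a₁ a₂ b d e e' f j : ℤ} {g : ℕ} (hg : 0 < g)
    (h₁ : Sol k₁ m₁ a₁ b) (h₂ : Sol k₂ m₂ a₂ b) (hlt : k₁ < k₂)
    (he : e = g * e') (hf : 2 * d = g * f) (hk : k₂ - k₁ = e' * j) (hm : m₂ - m₁ = f * j)
    (hK : 4 * |(d : ℝ)| ≤ |Real.sqrt 2 * d - e| * k₂) :
    |(j : ℝ)| * (2 * |Real.sqrt 2 * d - e| * k₂ - 2 * |(e : ℝ)| - 2 * |(d : ℝ)|) ≤ g * k₂ := by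
  set t := |Real.sqrt 2 * d - e| with ht
  have ht0 : 0 ≤ t := abs_nonneg _
  have hgr : (0 : ℝ) < g := by exact_mod_cast hg
  have hk1 : (0 : ℝ) ≤ k₁ := by exact_mod_cast h₁.k_nonneg
  have hk2 : (0 : ℝ) ≤ k₂ := by exact_mod_cast h₂.k_nonneg
  -- `g (a₁ - a₂) = 2 j (e (k₁ + k₂) - d (m₁ + m₂))`
  have e1 : (g : ℝ) * (a₁ - a₂) = 2 * j * (e * (k₁ + k₂) - d * (m₁ + m₂)) := by
    have h3 := a_diff h₁ h₂
    have h4 : (g : ℤ) * (a₁ - a₂) = 2 * j * (e * (k₁ + k₂) - d * (m₁ + m₂)) := by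
      rw [h3, hk, hm, he]
      have : (g : ℤ) * (2 * (e' * j) * (k₁ + k₂) - f * j * (m₁ + m₂)) =
          2 * j * ((g * e') * (k₁ + k₂)) - (g * f) * j * (m₁ + m₂) := by ring
      rw [this, ← hf]
      ring
    exact_mod_cast h4
  set y₁ : ℝ := m₁ - Real.sqrt 2 * k₁ with hy₁
  set y₂ : ℝ := m₂ - Real.sqrt 2 * k₂ with hy₂
  have hs1 : |y₁| < 1 := h₁.strip
  have hs2 : |y₂| < 1 := h₂.strip
  have e2 : (e : ℝ) * (k₁ + k₂) - d * (m₁ + m₂) =
      -((Real.sqrt 2 * d - e) * (k₁ + k₂)) - d * (y₁ + y₂) := by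
    rw [hy₁, hy₂]; ring
  have e3 : t * (k₁ + k₂) - 2 * |(d : ℝ)| ≤ |(e : ℝ) * (k₁ + k₂) - d * (m₁ + m₂)| := by
    rw [e2]
    have q1 : |(Real.sqrt 2 * d - e) * (k₁ + k₂)| = t * (k₁ + k₂) := by
      rw [abs_mul, abs_of_nonneg (by positivity : (0 : ℝ) ≤ (k₁ : ℝ) + k₂)]
    have q2 : |(d : ℝ) * (y₁ + y₂)| ≤ |(d : ℝ)| * 2 := by
      rw [abs_mul]
      apply mul_le_mul_of_nonneg_left _ (abs_nonneg _)
      exact (abs_add_le _ _).trans (by linarith)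
    have q3 := abs_sub_abs_le_abs_sub (-((Real.sqrt 2 * d - e) * ((k₁ : ℝ) + k₂)))
      (d * (y₁ + y₂))
    rw [abs_neg, q1] at q3
    linarith
  -- `|a₁ - a₂| ≤ 2 k₂`
  have e4 : |(a₁ : ℝ) - a₂| ≤ 2 * k₂ := by
    rw [abs_le]
    have p1 : (0 : ℝ) ≤ a₁ := by exact_mod_cast h₁.a_nonneg
    have p2 : (0 : ℝ) ≤ a₂ := by exact_mod_cast h₂.a_nonneg
    have p3 : (a₁ : ℝ) ≤ 2 * k₁ := by exact_mod_cast h₁.a_le
    have p4 : (a₂ : ℝ) ≤ 2 * k₂ := by exact_mod_cast h₂.a_le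
    have p5 : (k₁ : ℝ) ≤ k₂ := by exact_mod_cast hlt.le
    constructor <;> linarith
  have e5 : |(j : ℝ)| * (t * (k₁ + k₂) - 2 * |(d : ℝ)|) ≤ g * k₂ := by
    have p1 : |(g : ℝ) * (a₁ - a₂)| = 2 * (|(j : ℝ)| * |(e : ℝ) * (k₁ + k₂) - d * (m₁ + m₂)|) := by
      rw [e1, abs_mul, abs_mul]
      norm_num
      ring
    have p2 : |(g : ℝ) * (a₁ - a₂)| ≤ g * (2 * k₂) := by
      rw [abs_mul, abs_of_pos hgr]
      exact mul_le_mul_of_nonneg_left e4 hgr.le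
    have p3 : |(j : ℝ)| * (t * (k₁ + k₂) - 2 * |(d : ℝ)|) ≤
        |(j : ℝ)| * |(e : ℝ) * (k₁ + k₂) - d * (m₁ + m₂)| :=
      mul_le_mul_of_nonneg_left e3 (abs_nonneg _)
    linarith
  -- `δ = k₂ - k₁ = |e'| |j|`
  have e6 : ((k₂ : ℝ) - k₁) * g = |(e : ℝ)| * |(j : ℝ)| := by
    have p1 : ((k₂ : ℝ) - k₁) = |(e' : ℝ) * j| := by
      have : ((k₂ : ℝ) - k₁) = (e' : ℝ) * j := by exact_mod_cast hk
      rw [← this, abs_of_pos]
      have : (k₁ : ℝ) < k₂ := by exact_mod_cast hlt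
      linarith
    rw [p1, abs_mul, he]
    push_cast
    rw [abs_mul, abs_of_pos hgr]
    ring
  -- `t δ ≤ 2 |e|`
  have hd0 : 0 ≤ |(d : ℝ)| := abs_nonneg _
  have he0 : 0 ≤ |(e : ℝ)| := abs_nonneg _
  have hj0 : 0 ≤ |(j : ℝ)| := abs_nonneg _
  have hδ0 : 0 < (k₂ : ℝ) - k₁ := by
    have : (k₁ : ℝ) < k₂ := by exact_mod_cast hlt
    linarith
  have e7 : t * ((k₂ : ℝ) - k₁) ≤ 2 * |(e : ℝ)| := by
    rcases eq_or_lt_of_le hk2 with hz | hpos
    · linarith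
    -- multiply `e5` by `|e|`
    have p1 : |(e : ℝ)| * (|(j : ℝ)| * (t * (k₁ + k₂) - 2 * |(d : ℝ)|)) ≤ |(e : ℝ)| * (g * k₂) :=
      mul_le_mul_of_nonneg_left e5 he0
    have p2 : |(e : ℝ)| * (|(j : ℝ)| * (t * (k₁ + k₂) - 2 * |(d : ℝ)|)) =
        g * (((k₂ : ℝ) - k₁) * (t * (k₁ + k₂) - 2 * |(d : ℝ)|)) := by
      rw [← mul_assoc, ← e6]; ring
    have p3 : ((k₂ : ℝ) - k₁) * (t * (k₁ + k₂) - 2 * |(d : ℝ)|) ≤ |(e : ℝ)| * k₂ := by
      have : g * (((k₂ : ℝ) - k₁) * (t * (k₁ + k₂) - 2 * |(d : ℝ)|)) ≤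
          g * (|(e : ℝ)| * k₂) := by
        rw [← p2]; linarith
      exact le_of_mul_le_mul_left this hgr
    -- `t (k₁ + k₂) - 2|d| ≥ t k₂ / 2`
    have p4 : t * k₂ / 2 ≤ t * (k₁ + k₂) - 2 * |(d : ℝ)| := by nlinarith
    have p5 : ((k₂ : ℝ) - k₁) * (t * k₂ / 2) ≤ |(e : ℝ)| * k₂ :=
      (mul_le_mul_of_nonneg_left p4 hδ0.le).trans p3
    have p6 : (t * ((k₂ : ℝ) - k₁)) * k₂ ≤ (2 * |(e : ℝ)|) * k₂ := by nlinarith
    exact le_of_mul_le_mul_right p6 hpos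
  have e8 : 2 * t * k₂ - 2 * |(e : ℝ)| ≤ t * (k₁ + k₂) := by nlinarith
  have e9 : |(j : ℝ)| * (2 * t * k₂ - 2 * |(e : ℝ)| - 2 * |(d : ℝ)|) ≤
      |(j : ℝ)| * (t * (k₁ + k₂) - 2 * |(d : ℝ)|) :=
    mul_le_mul_of_nonneg_left (by linarith) hj0
  linarith

/-- **Line count.** -/
theorem line_count {d e b b' : ℤ} {J : ℕ} {K : ℤ} (he : e ≠ 0) (hK1 : 1 ≤ K)
    (hK : 4 * |(d : ℝ)| ≤ |Real.sqrt 2 * d - e| * K)
    (hJ : ((Int.gcd (2 * d) e : ℕ) : ℝ) * K <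
      (J + 1) * (2 * |Real.sqrt 2 * d - e| * K - 2 * |(e : ℝ)| - 2 * |(d : ℝ)|))
    (T : Finset ℤ)
    (hT : ∀ k ∈ T, K ≤ k ∧ ∃ m m' a, Sol k m a b ∧ Sol (k + d) m' a b' ∧ m' - m = e) :
    T.card ≤ J + 1 := by
  classical
  rcases T.eq_empty_or_nonempty with h0 | hne
  · subst h0; simp
  set g := Int.gcd (2 * d) e with hgdef
  have hg : 0 < g := Int.gcd_pos_of_ne_zero_right _ he
  obtain ⟨f, hf⟩ : ((g : ℕ) : ℤ) ∣ 2 * d := Int.gcd_dvd_left _ _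
  obtain ⟨e', he'⟩ : ((g : ℕ) : ℤ) ∣ e := Int.gcd_dvd_right _ _
  have he'0 : e' ≠ 0 := by
    rintro rfl
    simp at he'
    exact he he'
  have hcop : IsCoprime e' f := by
    have h1 : Int.gcd f e' = 1 := by
      have h2 : Int.gcd (g * f) (g * e') = g * Int.gcd f e' := by
        rw [Int.gcd_mul_left]
        simp
      rw [← hf, ← he'] at h2
      have h3 : g * Int.gcd f e' = g * 1 := by rw [← h2, mul_one]
      exact Nat.eq_of_mul_eq_mul_left hg h3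
    exact (Int.isCoprime_iff_gcd_eq_one.mpr h1).symm
  -- two elements
  have pair : ∀ k₁ ∈ T, ∀ k₂ ∈ T, k₁ < k₂ → ∃ j : ℤ, k₂ - k₁ = e' * j ∧ |j| ≤ J := by
    intro k₁ hk₁ k₂ hk₂ hlt
    obtain ⟨hK₁, m₁, m₁', a₁, s₁, s₁', q₁⟩ := hT k₁ hk₁
    obtain ⟨hK₂, m₂, m₂', a₂, s₂, s₂', q₂⟩ := hT k₂ hk₂
    have l₁ := s₁.line s₁' q₁
    have l₂ := s₂.line s₂' q₂
    have hl : 2 * d * (k₂ - k₁) = e * (m₂ - m₁) := by linarith
    have hl2 : f * (k₂ - k₁) = e' * (m₂ - m₁) := by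
      have h3 : (g : ℤ) * (f * (k₂ - k₁)) = g * (e' * (m₂ - m₁)) := by
        calc (g : ℤ) * (f * (k₂ - k₁)) = (g * f) * (k₂ - k₁) := by ring
          _ = 2 * d * (k₂ - k₁) := by rw [← hf]
          _ = e * (m₂ - m₁) := hl
          _ = (g * e') * (m₂ - m₁) := by rw [← he']
          _ = g * (e' * (m₂ - m₁)) := by ring
      exact mul_left_cancel₀ (by exact_mod_cast hg.ne') h3
    have hdvd : e' ∣ k₂ - k₁ := by
      apply hcop.dvd_of_dvd_mul_left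
      exact ⟨m₂ - m₁, hl2⟩
    obtain ⟨j, hj⟩ := hdvd
    have hm : m₂ - m₁ = f * j := by
      have : e' * (m₂ - m₁) = e' * (f * j) := by rw [← hl2, hj]; ring
      exact mul_left_cancel₀ he'0 this
    refine ⟨j, hj, ?_⟩
    have hKr : (K : ℝ) ≤ k₂ := by exact_mod_cast hK₂
    have hK1r : (1 : ℝ) ≤ K := by exact_mod_cast hK1
    set t := |Real.sqrt 2 * d - e| with ht
    have ht0 : 0 ≤ t := abs_nonneg _
    have key := key_ineq hg s₁ s₂ hlt he' hf hj hm (hK.trans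
      (mul_le_mul_of_nonneg_left hKr ht0))
    rw [← ht] at key
    by_contra hc
    have hjJ : (J : ℝ) + 1 ≤ |(j : ℝ)| := by
      have : (J : ℤ) + 1 ≤ |j| := by omega
      exact_mod_cast this
    have hd0 : 0 ≤ |(d : ℝ)| := abs_nonneg _
    have he0 : 0 ≤ |(e : ℝ)| := abs_nonneg _
    have hJ0 : (0 : ℝ) ≤ J := by positivity
    have hg0 : (0 : ℝ) ≤ g := by positivity
    -- coefficient positive
    have c1 : 0 < 2 * t * K - 2 * |(e : ℝ)| - 2 * |(d : ℝ)| := by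
      by_contra hneg
      push Not at hneg
      have : ((J : ℝ) + 1) * (2 * t * K - 2 * |(e : ℝ)| - 2 * |(d : ℝ)|) ≤ 0 :=
        mul_nonpos_of_nonneg_of_nonpos (by linarith) hneg
      have : (0 : ℝ) ≤ g * K := by positivity
      linarith
    have c2 : 2 * t * K - 2 * |(e : ℝ)| - 2 * |(d : ℝ)| ≤
        2 * t * k₂ - 2 * |(e : ℝ)| - 2 * |(d : ℝ)| := by nlinarith
    have c3 : ((J : ℝ) + 1) * (2 * t * k₂ - 2 * |(e : ℝ)| - 2 * |(d : ℝ)|) ≤ g * k₂ :=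
      (mul_le_mul_of_nonneg_right hjJ (by linarith)).trans key
    -- compare with `hJ`
    have c4 : (g : ℝ) < (J + 1) * (2 * t) := by
      have p1 : (g : ℝ) * K < ((J : ℝ) + 1) * (2 * t) * K := by nlinarith
      exact lt_of_mul_lt_mul_right p1 (by linarith)
    nlinarith
  -- injection into `range (J + 1)`
  obtain ⟨k₀, hk₀, hmin⟩ := T.exists_min_image id hne
  have hle : T.card ≤ (Finset.range (J + 1)).card := by
    apply Finset.card_le_card_of_injOn (fun k => ((k - k₀) / e').natAbs)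
    · intro k hk
      have hk' : k ∈ T := hk
      rw [Finset.coe_range, Set.mem_Iio]
      rcases eq_or_lt_of_le (hmin k hk') with h | h
      · simp only [id] at h
        simp [h]
      · obtain ⟨j, hj, hjJ⟩ := pair k₀ hk₀ k hk' h
        simp only
        rw [hj, Int.mul_ediv_cancel_left _ he'0]
        have h5 : j.natAbs ≤ J := by
          have h6 := hjJ
          rw [Int.abs_eq_natAbs] at h6
          exact_mod_cast h6
        omega
    · intro k₁ h₁ k₂ h₂ heq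
      have h₁' : k₁ ∈ T := h₁
      have h₂' : k₂ ∈ T := h₂
      have form : ∀ k ∈ T, ∃ j : ℤ, k - k₀ = e' * j ∧ 0 ≤ e' * j := by
        intro k hk
        rcases eq_or_lt_of_le (hmin k hk) with h | h
        · simp only [id] at h
          exact ⟨0, by rw [h]; ring, by simp⟩
        · obtain ⟨j, hj, _⟩ := pair k₀ hk₀ k hk h
          refine ⟨j, hj, ?_⟩
          simp only [id] at h
          omega
      obtain ⟨j₁, q₁, p₁⟩ := form k₁ h₁'
      obtain ⟨j₂, q₂, p₂⟩ := form k₂ h₂'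
      simp only at heq
      rw [q₁, q₂, Int.mul_ediv_cancel_left _ he'0, Int.mul_ediv_cancel_left _ he'0] at heq
      have : j₁ = j₂ := by
        rcases lt_or_gt_of_ne he'0 with hneg | hpos
        · have r₁ : j₁ ≤ 0 := by
            by_contra hc
            push Not at hc
            nlinarith
          have r₂ : j₂ ≤ 0 := by
            by_contra hc
            push Not at hc
            nlinarith
          omega
        · have r₁ : 0 ≤ j₁ := by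
            by_contra hc
            push Not at hc
            nlinarith
          have r₂ : 0 ≤ j₂ := by
            by_contra hc
            push Not at hc
            nlinarith
          omega
      subst this
      omega
  simpa using hle

end Pool.Agent.AddSq
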