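import Pool.Agent.AddSq.VdC
import Pool.Agent.AddSq.LineCount

/-!
# Counting lemma, lag one

`N = #{(k, a) : K ≤ k < K + H, a ∈ A, a ≤ 2k, r₁(k, a) ∈ B}` satisfies
`D² N² ≤ |A| (H + D) (D N + M |B|²)` for every certificate `M`.
-/

namespace Pool.Agent.AddSq

open Finset

/-- `r₁` of the position `k² + a` -/
def r1 (k a : ℕ) : ℕ := rem (up (k * k + a))

/-- `√(up n)` for `n = k² + a` -/
def m1 (k a : ℕ) : ℕ := Nat.sqrt (up (k * k + a))

theorem sol_r1 {k a : ℕ} (h : a ≤ 2 * k) : Sol k (m1 k a) a (r1 k a) := by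
  have e1 : Nat.sqrt (k * k + a) = k := sqrt_block h
  have e2 : rem (k * k + a) = a := rem_block h
  refine ⟨by positivity, by exact_mod_cast h, by positivity, ?_, by positivity, ?_⟩
  · have := rem_up (k * k + a)
    rw [e1, e2] at this
    exact this
  · have := rem_le_two_sqrt (up (k * k + a))
    unfold r1 m1
    exact_mod_cast this

/-- the number of pairs -/
def pairs1 (A B : Finset ℕ) (K H : ℕ) : Finset (ℕ × ℕ) :=
  (A ×ˢ Finset.Ico K (K + H)).filter (fun p => p.1 ≤ 2 * p.2 ∧ r1 p.2 p.1 ∈ B)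

/-- pairs at distance `d` -/
theorem pair_bound {B : Finset ℕ} {K H : ℕ} {d : ℤ} {E : Finset ℤ} {J : ℤ → ℕ}
    {comp : ℤ → ℤ → Prop} [∀ e h, Decidable (comp e h)] (hK : 1 ≤ K) (A : Finset ℕ)
    (hE : ∀ k m m' a b b' : ℤ, K ≤ k → k < K + H → K ≤ k + d → k + d < K + H →
      Sol k m a b → Sol (k + d) m' a b' → m' - m ∈ E ∧ comp (m' - m) (b' - b))
    (hJ : ∀ e ∈ E, e ≠ 0 ∧ 4 * |(d : ℝ)| ≤ |Real.sqrt 2 * d - e| * K ∧
      ((Int.gcd (2 * d) e : ℕ) : ℝ) * K <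
        (J e + 1) * (2 * |Real.sqrt 2 * d - e| * K - 2 * |(e : ℝ)| - 2 * |(d : ℝ)|)) :
    ((A ×ˢ Finset.Ico K (K + H)).filter (fun p : ℕ × ℕ => (p.1 ≤ 2 * p.2 ∧ r1 p.2 p.1 ∈ B) ∧
      ((K : ℤ) ≤ p.2 + d ∧ (p.2 : ℤ) + d < K + H ∧ (p.1 : ℤ) ≤ 2 * (p.2 + d) ∧
        r1 (p.2 + d).toNat p.1 ∈ B))).card ≤
      ∑ b ∈ B, ∑ b' ∈ B, ∑ e ∈ E, (if comp e ((b' : ℤ) - b) then J e + 1 else 0) := by
  classical
  set P := (A ×ˢ Finset.Ico K (K + H)).filter (fun p : ℕ × ℕ =>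
      (p.1 ≤ 2 * p.2 ∧ r1 p.2 p.1 ∈ B) ∧
      ((K : ℤ) ≤ p.2 + d ∧ (p.2 : ℤ) + d < K + H ∧ (p.1 : ℤ) ≤ 2 * (p.2 + d) ∧
        r1 (p.2 + d).toNat p.1 ∈ B)) with hP
  -- facts about an element of `P`
  have facts : ∀ p ∈ P, (K : ℤ) ≤ p.2 ∧ (p.2 : ℤ) < K + H ∧ (K : ℤ) ≤ p.2 + d ∧
      (p.2 : ℤ) + d < K + H ∧ Sol p.2 (m1 p.2 p.1) p.1 (r1 p.2 p.1) ∧
      Sol (p.2 + d) (m1 (p.2 + d).toNat p.1) p.1 (r1 (p.2 + d).toNat p.1) ∧
      r1 p.2 p.1 ∈ B ∧ r1 (p.2 + d).toNat p.1 ∈ B := by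
    intro p hp
    rw [hP, mem_filter, mem_product, mem_Ico] at hp
    obtain ⟨⟨_, h1, h2⟩, ⟨h3, h4⟩, h5, h6, h7, h8⟩ := hp
    have hn : (((p.2 : ℤ) + d).toNat : ℤ) = p.2 + d := Int.toNat_of_nonneg (by omega)
    have h9 : p.1 ≤ 2 * ((p.2 : ℤ) + d).toNat := by
      have : (p.1 : ℤ) ≤ 2 * (((p.2 : ℤ) + d).toNat : ℤ) := by rw [hn]; exact h7
      exact_mod_cast this
    have h10 := sol_r1 h9
    rw [hn] at h10
    exact ⟨by exact_mod_cast h1, by exact_mod_cast h2, h5, h6, sol_r1 h3, h10, h4, h8⟩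
  set F : ℕ → ℕ → ℤ → Finset (ℕ × ℕ) := fun b b' e => P.filter (fun p =>
    r1 p.2 p.1 = b ∧ r1 (p.2 + d : ℤ).toNat p.1 = b' ∧
      (m1 (p.2 + d : ℤ).toNat p.1 : ℤ) - m1 p.2 p.1 = e) with hF
  have hsub : P ⊆ B.biUnion (fun b => B.biUnion (fun b' => E.biUnion (fun e => F b b' e))) := by
    intro p hp
    obtain ⟨h1, h2, h3, h4, s1, s2, hb1, hb2⟩ := facts p hp
    rw [mem_biUnion]
    refine ⟨_, hb1, ?_⟩
    rw [mem_biUnion]
    refine ⟨_, hb2, ?_⟩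
    rw [mem_biUnion]
    refine ⟨_, (hE _ _ _ _ _ _ h1 h2 h3 h4 s1 s2).1, ?_⟩
    rw [hF, mem_filter]
    exact ⟨hp, rfl, rfl, rfl⟩
  have hcardF : ∀ b b' : ℕ, ∀ e ∈ E, (F b b' e).card ≤
      (if comp e ((b' : ℤ) - b) then J e + 1 else 0) := by
    intro b b' e he
    rcases (F b b' e).eq_empty_or_nonempty with h0 | hne
    · rw [h0]; simp
    obtain ⟨p₀, hp₀⟩ := hne
    rw [hF, mem_filter] at hp₀
    obtain ⟨hp₀P, q1, q2, q3⟩ := hp₀
    have hcomp : comp e ((b' : ℤ) - b) := by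
      obtain ⟨h1, h2, h3, h4, s1, s2, _, _⟩ := facts p₀ hp₀P
      have := (hE _ _ _ _ _ _ h1 h2 h3 h4 s1 s2).2
      rw [q3, q1, q2] at this
      exact this
    rw [if_pos hcomp]
    obtain ⟨he0, hJ1, hJ2⟩ := hJ e he
    -- inject into the `k`'s
    have hinj : Set.InjOn (fun p : ℕ × ℕ => (p.2 : ℤ)) (F b b' e : Set (ℕ × ℕ)) := by
      intro p hp q hq hpq
      rw [mem_coe, hF, mem_filter] at hp hq
      obtain ⟨hpP, p1, p2, p3⟩ := hp
      obtain ⟨hqP, r1', r2, r3⟩ := hq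
      obtain ⟨_, _, _, _, s1, s2, _, _⟩ := facts p hpP
      obtain ⟨_, _, _, _, t1, t2, _, _⟩ := facts q hqP
      simp only at hpq
      have hk : p.2 = q.2 := by exact_mod_cast hpq
      have l1 := s1.line s2 p3
      have l2 := t1.line t2 r3
      rw [p1, p2] at l1
      rw [r1', r2] at l2
      have hm : (m1 p.2 p.1 : ℤ) = m1 q.2 q.1 := by
        have h3 : e * (m1 p.2 p.1 : ℤ) = e * m1 q.2 q.1 := by
          rw [hk] at l1 ⊢
          linarith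
        exact mul_left_cancel₀ he0 h3
      have e1 := s1.b_eq
      have e2 := t1.b_eq
      rw [p1] at e1
      rw [r1'] at e2
      rw [hk] at e1 hm
      rw [hm] at e1
      have : (p.1 : ℤ) = q.1 := by linarith
      exact Prod.ext (by exact_mod_cast this) hk
    rw [← Finset.card_image_of_injOn hinj]
    apply line_count (K := K) he0 (by exact_mod_cast hK) (by exact_mod_cast hJ1)
      (by exact_mod_cast hJ2) (d := d) (b := b) (b' := b')
    intro k hk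
    rw [mem_image] at hk
    obtain ⟨p, hp, rfl⟩ := hk
    rw [hF, mem_filter] at hp
    obtain ⟨hpP, p1, p2, p3⟩ := hp
    obtain ⟨h1, _, _, _, s1, s2, _, _⟩ := facts p hpP
    rw [p1] at s1
    rw [p2] at s2
    exact ⟨h1, _, _, _, s1, s2, p3⟩
  refine (Finset.card_le_card hsub).trans (Finset.card_biUnion_le.trans ?_)
  apply Finset.sum_le_sum
  intro b _
  refine Finset.card_biUnion_le.trans ?_
  apply Finset.sum_le_sum
  intro b' _
  refine Finset.card_biUnion_le.trans ?_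
  apply Finset.sum_le_sum
  intro e he
  exact hcardF b b' e he

/-- **Counting lemma, lag one.** -/
theorem lag1 (A B : Finset ℕ) {K H D M : ℕ} (hK : 1 ≤ K) (E : ℤ → Finset ℤ) (J : ℤ → ℤ → ℕ)
    (comp : ℤ → ℤ → ℤ → Prop) [∀ d e h, Decidable (comp d e h)]
    (hE : ∀ d : ℤ, d ≠ 0 → |d| < D → ∀ k m m' a b b' : ℤ, K ≤ k → k < K + H → K ≤ k + d →
      k + d < K + H → Sol k m a b → Sol (k + d) m' a b' →
      m' - m ∈ E d ∧ comp d (m' - m) (b' - b))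
    (hJ : ∀ d : ℤ, d ≠ 0 → |d| < D → ∀ e ∈ E d, e ≠ 0 ∧
      4 * |(d : ℝ)| ≤ |Real.sqrt 2 * d - e| * K ∧
      ((Int.gcd (2 * d) e : ℕ) : ℝ) * K <
        (J d e + 1) * (2 * |Real.sqrt 2 * d - e| * K - 2 * |(e : ℝ)| - 2 * |(d : ℝ)|))
    (hM : ∀ h : ℤ, ∑ d ∈ (Ioo (-(D : ℤ)) D).erase 0,
      (D - d.natAbs) * ∑ e ∈ E d, (if comp d e h then J d e + 1 else 0) ≤ M) :
    ((D : ℝ) * (pairs1 A B K H).card) ^ 2 ≤
      (A.card : ℝ) * (((H : ℝ) + D) * (D * (pairs1 A B K H).card + M * (B.card : ℝ) ^ 2)) := by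
  classical
  set N := (pairs1 A B K H).card with hN
  set cond : ℕ → ℤ → Prop := fun a k =>
    (K : ℤ) ≤ k ∧ k < K + H ∧ (a : ℤ) ≤ 2 * k ∧ r1 k.toNat a ∈ B with hcond
  set g : ℕ → ℤ → ℝ := fun a k => if cond a k then 1 else 0 with hg
  have hsupp : ∀ a ∈ A, ∀ k, g a k ≠ 0 → (K : ℤ) ≤ k ∧ k < (K : ℤ) + H := by
    intro a _ k hk
    by_contra hc
    apply hk
    rw [hg]
    simp only
    rw [if_neg]
    intro h
    exact hc ⟨h.1, h.2.1⟩
  have key := vdc_family A (K := (K : ℤ)) (H := H) (D := D) hsupp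
  -- products
  have hprod : ∀ (d : ℤ), ∑ a ∈ A, ∑ k ∈ Ico (K : ℤ) (K + H), g a k * g a (k + d) =
      (((A ×ˢ Finset.Ico K (K + H)).filter (fun p : ℕ × ℕ =>
        (p.1 ≤ 2 * p.2 ∧ r1 p.2 p.1 ∈ B) ∧
        ((K : ℤ) ≤ p.2 + d ∧ (p.2 : ℤ) + d < K + H ∧ (p.1 : ℤ) ≤ 2 * (p.2 + d) ∧
          r1 (p.2 + d).toNat p.1 ∈ B))).card : ℝ) := by
    intro d
    rw [Finset.card_filter, Finset.sum_product]
    push_cast
    apply Finset.sum_congr rfl
    intro a _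
    symm
    refine Finset.sum_bij' (fun (k : ℕ) _ => (k : ℤ)) (fun (k : ℤ) _ => k.toNat)
      ?_ ?_ ?_ ?_ ?_
    · intro k hk
      rw [mem_Ico] at hk ⊢
      exact ⟨by exact_mod_cast hk.1, by exact_mod_cast hk.2⟩
    · intro k hk
      rw [mem_Ico] at hk ⊢
      omega
    · intro k _
      simp
    · intro k hk
      rw [mem_Ico] at hk
      exact Int.toNat_of_nonneg (by omega)
    · intro k hk
      rw [mem_Ico] at hk
      have h1 : cond a (k : ℤ) ↔ (a ≤ 2 * k ∧ r1 k a ∈ B) := by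
        rw [hcond]
        simp only [Int.toNat_natCast]
        constructor
        · rintro ⟨_, _, q1, q2⟩
          exact ⟨by exact_mod_cast q1, q2⟩
        · rintro ⟨q1, q2⟩
          exact ⟨by exact_mod_cast hk.1, by exact_mod_cast hk.2, by exact_mod_cast q1, q2⟩
      rw [hg]
      simp only
      by_cases c1 : cond a (k : ℤ)
      · by_cases c2 : cond a ((k : ℤ) + d)
        · rw [if_pos c1, if_pos c2, if_pos ⟨h1.mp c1, c2⟩]
          norm_num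
        · rw [if_pos c1, if_neg c2, if_neg (fun h => c2 h.2)]
          norm_num
      · rw [if_neg c1, if_neg (fun h => c1 (h1.mpr h.1))]
        norm_num
  have hsum : ∑ a ∈ A, ∑ k ∈ Ico (K : ℤ) (K + H), g a k = N := by
    have h0 := hprod 0
    have h1 : ∀ a ∈ A, ∑ k ∈ Ico (K : ℤ) (K + H), g a k * g a (k + 0) =
        ∑ k ∈ Ico (K : ℤ) (K + H), g a k := by
      intro a _
      apply Finset.sum_congr rfl
      intro k _
      rw [add_zero, hg]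
      simp only
      split_ifs <;> norm_num
    rw [← Finset.sum_congr rfl h1, h0, hN, pairs1]
    congr 2
    apply Finset.filter_congr
    rintro ⟨a, k⟩ hp
    rw [mem_product, mem_Ico] at hp
    simp only [add_zero, Int.toNat_natCast]
    constructor
    · rintro ⟨q, _⟩
      exact q
    · intro q
      exact ⟨q, by exact_mod_cast hp.2.1, by exact_mod_cast hp.2.2, by exact_mod_cast q.1, q.2⟩
  have h0 : ∑ a ∈ A, ∑ k ∈ Ico (K : ℤ) (K + H), g a k * g a (k + 0) = N := by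
    rw [← hsum]
    apply Finset.sum_congr rfl
    intro a _
    apply Finset.sum_congr rfl
    intro k _
    rw [add_zero, hg]
    simp only
    split_ifs <;> norm_num
  rw [hsum] at key
  refine key.trans (mul_le_mul_of_nonneg_left (mul_le_mul_of_nonneg_left ?_ (by positivity))
    (by positivity))
  -- split off `d = 0`
  rcases Nat.eq_zero_or_pos D with hD0 | hD
  · subst hD0
    simp
    positivity
  have hmem : (0 : ℤ) ∈ Ioo (-(D : ℤ)) D := by rw [mem_Ioo]; omega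
  rw [← Finset.add_sum_erase _ _ hmem, h0]
  have hz : ((D : ℝ) - |((0 : ℤ) : ℝ)|) * N = D * N := by simp
  rw [hz]
  apply add_le_add le_rfl
  -- the terms `d ≠ 0`
  have hterm : ∀ d ∈ (Ioo (-(D : ℤ)) D).erase 0,
      ((D : ℝ) - |(d : ℝ)|) * ∑ a ∈ A, ∑ k ∈ Ico (K : ℤ) (K + H), g a k * g a (k + d) ≤
      ((∑ b ∈ B, ∑ b' ∈ B, (D - d.natAbs) *
        ∑ e ∈ E d, (if comp d e ((b' : ℤ) - b) then J d e + 1 else 0) : ℕ) : ℝ) := by
    intro d hd
    rw [mem_erase, mem_Ioo] at hd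
    obtain ⟨hd0, hd1, hd2⟩ := hd
    have habs : |d| < D := abs_lt.mpr ⟨hd1, hd2⟩
    have hw : (D : ℝ) - |(d : ℝ)| = ((D - d.natAbs : ℕ) : ℝ) := by
      have h1 : d.natAbs ≤ D := by omega
      rw [Nat.cast_sub h1, Nat.cast_natAbs]
      push_cast
      ring
    rw [hprod d, hw]
    have hb := pair_bound (B := B) (K := K) (H := H) (d := d) (E := E d) (J := J d)
      (comp := comp d) hK A (hE d hd0 habs) (hJ d hd0 habs)
    have hb2 := Nat.mul_le_mul_left (D - d.natAbs) hb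
    have e1 : (D - d.natAbs) * ∑ b ∈ B, ∑ b' ∈ B, ∑ e ∈ E d,
        (if comp d e ((b' : ℤ) - b) then J d e + 1 else 0) =
        ∑ b ∈ B, ∑ b' ∈ B, (D - d.natAbs) *
        ∑ e ∈ E d, (if comp d e ((b' : ℤ) - b) then J d e + 1 else 0) := by
      rw [Finset.mul_sum]
      apply Finset.sum_congr rfl
      intro b _
      rw [Finset.mul_sum]
    rw [e1] at hb2
    exact_mod_cast hb2
  refine (Finset.sum_le_sum hterm).trans ?_
  have hfin : ∑ d ∈ (Ioo (-(D : ℤ)) D).erase 0, ∑ b ∈ B, ∑ b' ∈ B, (D - d.natAbs) *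
        ∑ e ∈ E d, (if comp d e ((b' : ℤ) - b) then J d e + 1 else 0) ≤
      M * B.card ^ 2 := by
    rw [Finset.sum_comm]
    have h1 : ∀ b ∈ B, ∑ d ∈ (Ioo (-(D : ℤ)) D).erase 0, ∑ b' ∈ B, (D - d.natAbs) *
        ∑ e ∈ E d, (if comp d e ((b' : ℤ) - b) then J d e + 1 else 0) ≤ M * B.card := by
      intro b _
      rw [Finset.sum_comm]
      have h2 : ∀ b' ∈ B, ∑ d ∈ (Ioo (-(D : ℤ)) D).erase 0, (D - d.natAbs) *
        ∑ e ∈ E d, (if comp d e ((b' : ℤ) - b) then J d e + 1 else 0) ≤ M := fun b' _ =>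
          hM _
      refine (Finset.sum_le_sum h2).trans ?_
      rw [Finset.sum_const, smul_eq_mul, mul_comm]
    refine (Finset.sum_le_sum h1).trans ?_
    rw [Finset.sum_const, smul_eq_mul]
    apply le_of_eq
    ring
  calc ∑ d ∈ (Ioo (-(D : ℤ)) D).erase 0, ((∑ b ∈ B, ∑ b' ∈ B, (D - d.natAbs) *
        ∑ e ∈ E d, (if comp d e ((b' : ℤ) - b) then J d e + 1 else 0) : ℕ) : ℝ)
      = ((∑ d ∈ (Ioo (-(D : ℤ)) D).erase 0, ∑ b ∈ B, ∑ b' ∈ B, (D - d.natAbs) *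
        ∑ e ∈ E d, (if comp d e ((b' : ℤ) - b) then J d e + 1 else 0) : ℕ) : ℝ) := by
        push_cast; rfl
    _ ≤ ((M * B.card ^ 2 : ℕ) : ℝ) := by exact_mod_cast hfin
    _ = (M : ℝ) * (B.card : ℝ) ^ 2 := by push_cast; ring

end Pool.Agent.AddSq
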