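import Pool.Agent.AddSq.Final
import Pool.Agent.AddSq.Lag1

/-!
# From positions to pairs `(r₀, k)`
-/

namespace Pool.Agent.AddSq

open Finset

open Classical in
/-- the wins `≤ y` -/
noncomputable def winSet (y : ℕ) : Finset ℕ := (Icc 0 y).filter Win

open Classical in
/-- the lost positions `≤ y` (including `0`) -/
noncomputable def lostSet (y : ℕ) : Finset ℕ := (Icc 0 y).filter Lost

theorem mem_winSet {y n : ℕ} : n ∈ winSet y ↔ n ≤ y ∧ Win n := by
  classical
  simp [winSet]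

theorem mem_lostSet {y n : ℕ} : n ∈ lostSet y ↔ n ≤ y ∧ Lost n := by
  classical
  simp [lostSet]

theorem card_winSet (y : ℕ) : (winSet y).card = cnt Win y := by
  classical
  unfold winSet cnt
  congr 1
  ext n
  simp only [mem_filter, mem_Icc]
  constructor
  · rintro ⟨⟨_, h⟩, hw⟩
    exact ⟨⟨hw.pos, h⟩, hw⟩
  · rintro ⟨⟨_, h⟩, hw⟩
    exact ⟨⟨Nat.zero_le _, h⟩, hw⟩

theorem card_lostSet (y : ℕ) : (lostSet y).card = 1 + cnt Loss y := by
  classical
  have h : lostSet y = insert 0 ((Icc 1 y).filter Loss) := by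
    ext n
    simp only [lostSet, mem_filter, mem_Icc, mem_insert]
    constructor
    · rintro ⟨⟨_, h⟩, hl⟩
      rcases Nat.eq_zero_or_pos n with h0 | h0
      · exact Or.inl h0
      · exact Or.inr ⟨⟨h0, h⟩, ⟨h0, hl⟩⟩
    · rintro (rfl | ⟨⟨_, h⟩, hl⟩)
      · exact ⟨⟨le_rfl, Nat.zero_le _⟩, lost_zero⟩
      · exact ⟨⟨Nat.zero_le _, h⟩, hl.2⟩
  rw [h, card_insert_of_notMem]
  · unfold cnt
    omega
  · simp

/-- `r₁(k, a) ≤ √(8 z²)` for `k < z` -/
theorem r1_le {k a z : ℕ} (ha : a ≤ 2 * k) (hk : k < z) :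
    r1 k a ≤ Nat.sqrt (8 * (z * z)) := by
  have h := sol_r1 ha
  rw [Nat.le_sqrt]
  have e1 : Nat.sqrt (k * k + a) = k := sqrt_block ha
  have h1 := (strip (k * k + a)).1
  rw [e1] at h1
  have h2 := rem_le_two_sqrt (up (k * k + a))
  have h3 : r1 k a * r1 k a ≤ (2 * m1 k a) * (2 * m1 k a) := Nat.mul_le_mul h2 h2
  have h4 : (k + 1) * (k + 1) ≤ z * z := Nat.mul_le_mul hk hk
  have h5 : m1 k a * m1 k a ≤ 2 * (k * k) + 2 * k := h1
  nlinarith

/-- **Bridge, lag one.** -/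
theorem bridge1 (K H : ℕ) :
    open Classical in
    ((Ico (K * K) ((K + H) * (K + H))).filter
      (fun n => Win (rem n) ∧ Lost (rem (up n)))).card ≤
      (pairs1 (winSet (2 * (K + H))) (lostSet (Nat.sqrt (8 * ((K + H) * (K + H))))) K H).card := by
  classical
  apply card_le_card_of_injOn (fun n => (rem n, Nat.sqrt n))
  · intro n hn
    rw [mem_coe, mem_filter, mem_Ico] at hn
    obtain ⟨⟨h1, h2⟩, h3, h4⟩ := hn
    have hk1 : K ≤ Nat.sqrt n := by rw [Nat.le_sqrt]; exact h1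
    have hk2 : Nat.sqrt n < K + H := by rw [Nat.sqrt_lt]; exact h2
    have hr := rem_le_two_sqrt n
    have hn' : Nat.sqrt n * Nat.sqrt n + rem n = n := sq_add_rem n
    rw [mem_coe, pairs1, mem_filter, mem_product, mem_Ico, mem_winSet]
    refine ⟨⟨⟨by simp only; omega, h3⟩, hk1, hk2⟩, hr, ?_⟩
    rw [mem_lostSet]
    refine ⟨r1_le hr hk2, ?_⟩
    simp only [r1]
    rw [hn']
    exact h4
  · intro n _ n' _ h
    simp only [Prod.mk.injEq] at h
    have h1 := sq_add_rem n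
    have h2 := sq_add_rem n'
    rw [h.1, h.2] at h1
    omega

/-- positions with a prescribed remainder: block sums -/
theorem cnt_rem_le (P : ℕ → Prop) (x : ℕ) :
    open Classical in
    cnt (fun n => P (rem n)) x ≤
      ∑ k ∈ Icc 1 (Nat.sqrt x), ((Icc 0 (2 * k)).filter P).card := by
  classical
  unfold cnt
  have h : (Icc 1 x).filter (fun n => P (rem n)) ⊆
      (Icc 1 (Nat.sqrt x)).biUnion (fun k => ((Icc 0 (2 * k)).filter P).image
        (fun a => k * k + a)) := by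
    intro n hn
    rw [mem_filter, mem_Icc] at hn
    obtain ⟨⟨h1, h2⟩, h3⟩ := hn
    rw [mem_biUnion]
    refine ⟨Nat.sqrt n, ?_, ?_⟩
    · rw [mem_Icc]
      exact ⟨Nat.sqrt_pos.mpr h1, Nat.sqrt_le_sqrt h2⟩
    · rw [mem_image]
      refine ⟨rem n, ?_, sq_add_rem n⟩
      rw [mem_filter, mem_Icc]
      exact ⟨⟨Nat.zero_le _, rem_le_two_sqrt n⟩, h3⟩
  refine (card_le_card h).trans (card_biUnion_le.trans ?_)
  apply sum_le_sum
  intro k _
  exact card_image_le

/-- number of wins plus lost positions in terms of the remainders -/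
theorem cnt_lost_rem_le (x : ℕ) :
    cnt (fun n => Lost (rem n)) x ≤ ∑ k ∈ Icc 1 (Nat.sqrt x), (1 + cnt Loss (2 * k)) := by
  classical
  refine (cnt_rem_le Lost x).trans (sum_le_sum (fun k _ => ?_))
  rw [← card_lostSet]
  apply card_le_card
  intro n hn
  rw [mem_filter, mem_Icc] at hn
  rw [mem_lostSet]
  exact ⟨hn.1.2, hn.2⟩

end Pool.Agent.AddSq
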