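import Pool.Agent.AddSq.Bridge

/-!
# The normal form of the recursion inequalities
-/

namespace Pool.Agent.AddSq

open Finset

/-- **(B)** wins up to `x`: block sums of the lost positions, plus the losses up to `2x`. -/
theorem winCount_rec (x : ℕ) :
    winCount x ≤ ∑ k ∈ Icc 1 (Nat.sqrt x), (1 + lossCount (2 * k)) + lossCount (2 * x) := by
  refine (winCount_le x).trans (Nat.add_le_add_right ?_ _)
  exact cnt_lost_rem_le x

open Classical in
/-- the positions of the window with `r₀` a win and `r₁` lost -/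
noncomputable def win1 (K H : ℕ) : Finset ℕ :=
  (Ico (K * K) ((K + H) * (K + H))).filter (fun n => Win (rem n) ∧ Lost (rem (up n)))

open Classical in
/-- the positions of the window with `r₀` a win and `r₂` a win -/
noncomputable def win2 (K H : ℕ) : Finset ℕ :=
  (Ico (K * K) ((K + H) * (K + H))).filter (fun n => Win (rem n) ∧ Win (rem (up (up n))))

/-- the losses of one window -/
theorem lossCount_window {K : ℕ} (hK : 1 ≤ K) (H : ℕ) :
    lossCount ((K + H) ^ 2 - 1) ≤
      lossCount (K ^ 2 - 1) + (win1 K H).card + (win2 K H).card := by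
  classical
  have hK2 : 1 ≤ K ^ 2 := Nat.one_le_pow _ _ hK
  have hsub : (Icc 1 ((K + H) ^ 2 - 1)).filter (fun n => Loss n) ⊆
      ((Icc 1 (K ^ 2 - 1)).filter (fun n => Loss n)) ∪ (win1 K H) ∪ (win2 K H) := by
    intro n hn
    rw [mem_filter, mem_Icc] at hn
    obtain ⟨⟨h1, h2⟩, hl⟩ := hn
    rw [mem_union, mem_union, mem_filter, mem_Icc]
    rcases Nat.lt_or_ge n (K ^ 2) with h | h
    · exact Or.inl (Or.inl ⟨⟨h1, by omega⟩, hl⟩)
    · have hw : n ∈ Ico (K * K) ((K + H) * (K + H)) := by
        rw [mem_Ico, ← pow_two, ← pow_two]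
        omega
      obtain ⟨h3, h4 | h4⟩ := hl.cases
      · left; right
        exact mem_filter.mpr ⟨hw, h3, h4⟩
      · right
        exact mem_filter.mpr ⟨hw, h3, h4⟩
  have h1 := card_le_card hsub
  have h2 := card_union_le (((Icc 1 (K ^ 2 - 1)).filter (fun n => Loss n)) ∪ (win1 K H))
    (win2 K H)
  have h3 := card_union_le ((Icc 1 (K ^ 2 - 1)).filter (fun n => Loss n)) (win1 K H)
  unfold lossCount
  omega

/-- the shape of the counting inequality in `ℕ` -/
theorem cast_ineq {D N A H M B : ℕ}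
    (h : ((D : ℝ) * N) ^ 2 ≤ (A : ℝ) * (((H : ℝ) + D) * (D * N + M * (B : ℝ) ^ 2))) :
    (D * N) ^ 2 ≤ A * ((H + D) * (D * N + M * B ^ 2)) := by
  exact_mod_cast h

end Pool.Agent.AddSq
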