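import Pool.Agent.AddSq.CorKern

/-!
# Kernel facts: correlations, group 18
-/

namespace Pool.Agent.AddSq.Co

set_option maxRecDepth 100000

def l18_1 : List (Nat × Nat × Nat × Nat × Nat × Nat × Nat × List (Nat × Nat)) :=
   [(0, 0, 0, 0, 66559, 2097152, 298, [(261119, 103)]),
    (65536, 0, 0, 65536, 66559, 2097152, 215, [(261119, 27)]),
    (131072, 0, 0, 131072, 66559, 2097152, 191, [(261119, 32)]),
    (196608, 0, 0, 196608, 66559, 2097152, 233, []),
    (262144, 0, 0, 262144, 66559, 2097152, 190, [(261119, 16)]),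
    (327680, 0, 0, 327680, 66559, 2097152, 202, []),
    (393216, 0, 0, 393216, 66559, 2097152, 171, [(261119, 17)]),
    (458752, 0, 0, 458752, 66559, 2097152, 175, [(3072, 13), (261119, 13)]),
    (524288, 0, 0, 524288, 66559, 2097152, 171, [(3072, 26), (261119, 17)]),
    (589824, 0, 0, 589824, 66559, 2097152, 172, [(3072, 22), (261119, 18)]),
    (655360, 0, 0, 655360, 66559, 2097152, 179, [(3072, 17), (261119, 6)]),
    (720896, 0, 0, 720896, 66559, 2097152, 176, [(3072, 20)]),
    (786432, 0, 0, 786432, 66559, 2097152, 171, [(3072, 11)]),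
    (851968, 0, 0, 851968, 66559, 2097152, 171, []),
    (917504, 0, 0, 917504, 66559, 2097152, 178, []),
    (983040, 0, 0, 983040, 66559, 2097152, 176, [])]

def l18_2 : List (Nat × Nat × Nat × Nat × Nat × Nat × Nat × List (Nat × Nat)) :=
   [(0, 0, 0, 0, 263167, 2097152, 130, []),
    (262144, 0, 0, 262144, 263167, 2097152, 77, []),
    (524288, 0, 0, 524288, 263167, 2097152, 68, []),
    (786432, 0, 0, 786432, 263167, 2097152, 59, [])]

def l18_3 : List (Nat × Nat × Nat × Nat × Nat × Nat × Nat × List (Nat × Nat)) :=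
   [(0, 0, 0, 0, 263167, 2097152, 144, []),
    (262144, 0, 0, 262144, 263167, 2097152, 74, []),
    (524288, 0, 0, 524288, 263167, 2097152, 60, []),
    (786432, 0, 0, 786432, 263167, 2097152, 63, [(3072, 5)])]

def n18 : List (Nat × Nat × Nat × Nat) :=
   [(0, 0, 0, 3421),
    (65536, 0, 0, 2559),
    (131072, 0, 0, 2272),
    (196608, 0, 0, 2349),
    (262144, 0, 0, 2167),
    (327680, 0, 0, 2081),
    (393216, 0, 0, 1986),
    (458752, 0, 0, 2002),
    (524288, 0, 0, 1971),
    (589824, 0, 0, 1904),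
    (655360, 0, 0, 1847),
    (720896, 0, 0, 1840),
    (786432, 0, 0, 1800),
    (851968, 0, 0, 1799),
    (917504, 0, 0, 1821),
    (983040, 0, 0, 1804)]

theorem ck18 : sf TL.WT TL.LT true true false 16 9 0 0 0 2097152 l18_1 = true ∧
    sf TL.WT TL.LT true false true 18 9 0 0 0 2097152 l18_2 = true ∧
    sf TL.WT TL.LT false true false 18 9 0 0 0 2097152 l18_3 = true ∧
    cfs TL.WT TL.LT 16 n18 = true := by
  refine ⟨?_, ?_, ?_, ?_⟩ <;> decide +kernel

end Pool.Agent.AddSq.Co
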