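import Pool.Agent.AddSq.CorCons

/-!
# Kernel facts: correlations, group 19
-/

namespace Pool.Agent.AddSq.Co

set_option maxRecDepth 100000

def l19_1 : List (Nat × Nat × Nat × Nat × Nat × Nat × Nat × List (Nat × Nat)) :=
   [(0, 0, 0, 0, 132095, 4194304, 422, [(523263, 194)]),
    (131072, 0, 0, 131072, 132095, 4194304, 367, [(523263, 21)]),
    (262144, 0, 0, 262144, 132095, 4194304, 299, [(523263, 46)]),
    (393216, 0, 0, 393216, 132095, 4194304, 288, [(3072, 49), (523263, 12)]),
    (524288, 0, 0, 524288, 132095, 4194304, 278, [(3072, 120), (523263, 28)]),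
    (655360, 0, 0, 655360, 132095, 4194304, 286, [(3072, 101), (523263, 11)]),
    (786432, 0, 0, 786432, 132095, 4194304, 272, [(3072, 75), (523263, 2)]),
    (917504, 0, 0, 917504, 132095, 4194304, 273, [(3072, 60)]),
    (1048576, 0, 0, 1048576, 132095, 4194304, 284, [(3072, 41)]),
    (1179648, 0, 0, 1179648, 132095, 4194304, 239, [(3072, 54), (523263, 1)]),
    (1310720, 0, 0, 1310720, 132095, 4194304, 288, [(3072, 36)]),
    (1441792, 0, 0, 1441792, 132095, 4194304, 256, [(3072, 46)]),
    (1572864, 0, 0, 1572864, 132095, 4194304, 259, [(3072, 37), (523263, 2)]),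
    (1703936, 0, 0, 1703936, 132095, 4194304, 252, [(3072, 45), (523263, 4)]),
    (1835008, 0, 0, 1835008, 132095, 4194304, 254, [(3072, 14), (523263, 12)]),
    (1966080, 0, 0, 1966080, 132095, 4194304, 293, [])]

def l19_2 : List (Nat × Nat × Nat × Nat × Nat × Nat × Nat × List (Nat × Nat)) :=
   [(0, 0, 0, 0, 525311, 4194304, 192, []),
    (524288, 0, 0, 524288, 525311, 4194304, 99, [(3072, 5)]),
    (1048576, 0, 0, 1048576, 525311, 4194304, 86, [(3072, 7)]),
    (1572864, 0, 0, 1572864, 525311, 4194304, 83, [(3072, 9)])]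

def l19_3 : List (Nat × Nat × Nat × Nat × Nat × Nat × Nat × List (Nat × Nat)) :=
   [(0, 0, 0, 0, 525311, 4194304, 192, []),
    (524288, 0, 0, 524288, 525311, 4194304, 105, [(3072, 9)]),
    (1048576, 0, 0, 1048576, 525311, 4194304, 88, [(3072, 1)]),
    (1572864, 0, 0, 1572864, 525311, 4194304, 82, [(3072, 21)])]

def n19 : List (Nat × Nat × Nat × Nat) :=
   [(0, 0, 0, 5980),
    (131072, 0, 0, 4621),
    (262144, 0, 0, 4248),
    (393216, 0, 0, 3988),
    (524288, 0, 0, 3875),
    (655360, 0, 0, 3687),
    (786432, 0, 0, 3599),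
    (917504, 0, 0, 3625),
    (1048576, 0, 0, 3480),
    (1179648, 0, 0, 3332),
    (1310720, 0, 0, 3378),
    (1441792, 0, 0, 3350),
    (1572864, 0, 0, 3415),
    (1703936, 0, 0, 3370),
    (1835008, 0, 0, 3312),
    (1966080, 0, 0, 3205)]

theorem ck19 : sf TL.WT TL.LT true true false 17 10 0 0 0 4194304 l19_1 = true ∧
    sf TL.WT TL.LT true false true 19 10 0 0 0 4194304 l19_2 = true ∧
    sf TL.WT TL.LT false true false 19 10 0 0 0 4194304 l19_3 = true ∧
    cfs TL.WT TL.LT 17 n19 = true := by
  have c1_1 : sf TL.WT TL.LT true true false 17 10 0 0 0 4194304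
      [(0, 0, 0, 0, 132095, 4194304, 422, [(523263, 194)])] = true := by
    decide +kernel
  have c1_2 : sf TL.WT TL.LT true true false 17 10 0 0 0 4194304
      [(131072, 0, 0, 131072, 132095, 4194304, 367, [(523263, 21)])] = true := by
    decide +kernel
  have c1_3 : sf TL.WT TL.LT true true false 17 10 0 0 0 4194304
      [(262144, 0, 0, 262144, 132095, 4194304, 299, [(523263, 46)])] = true := by
    decide +kernel
  have c1_4 : sf TL.WT TL.LT true true false 17 10 0 0 0 4194304
      [(393216, 0, 0, 393216, 132095, 4194304, 288, [(3072, 49), (523263, 12)])] = true := by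
    decide +kernel
  have c1_5 : sf TL.WT TL.LT true true false 17 10 0 0 0 4194304
      [(524288, 0, 0, 524288, 132095, 4194304, 278, [(3072, 120), (523263, 28)])] = true := by
    decide +kernel
  have c1_6 : sf TL.WT TL.LT true true false 17 10 0 0 0 4194304
      [(655360, 0, 0, 655360, 132095, 4194304, 286, [(3072, 101), (523263, 11)])] = true := by
    decide +kernel
  have c1_7 : sf TL.WT TL.LT true true false 17 10 0 0 0 4194304
      [(786432, 0, 0, 786432, 132095, 4194304, 272, [(3072, 75), (523263, 2)])] = true := by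
    decide +kernel
  have c1_8 : sf TL.WT TL.LT true true false 17 10 0 0 0 4194304
      [(917504, 0, 0, 917504, 132095, 4194304, 273, [(3072, 60)])] = true := by
    decide +kernel
  have c1_9 : sf TL.WT TL.LT true true false 17 10 0 0 0 4194304
      [(1048576, 0, 0, 1048576, 132095, 4194304, 284, [(3072, 41)])] = true := by
    decide +kernel
  have c1_10 : sf TL.WT TL.LT true true false 17 10 0 0 0 4194304
      [(1179648, 0, 0, 1179648, 132095, 4194304, 239, [(3072, 54), (523263, 1)])] = true := by
    decide +kernel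
  have c1_11 : sf TL.WT TL.LT true true false 17 10 0 0 0 4194304
      [(1310720, 0, 0, 1310720, 132095, 4194304, 288, [(3072, 36)])] = true := by
    decide +kernel
  have c1_12 : sf TL.WT TL.LT true true false 17 10 0 0 0 4194304
      [(1441792, 0, 0, 1441792, 132095, 4194304, 256, [(3072, 46)])] = true := by
    decide +kernel
  have c1_13 : sf TL.WT TL.LT true true false 17 10 0 0 0 4194304
      [(1572864, 0, 0, 1572864, 132095, 4194304, 259, [(3072, 37), (523263, 2)])] = true := by
    decide +kernel
  have c1_14 : sf TL.WT TL.LT true true false 17 10 0 0 0 4194304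
      [(1703936, 0, 0, 1703936, 132095, 4194304, 252, [(3072, 45), (523263, 4)])] = true := by
    decide +kernel
  have c1_15 : sf TL.WT TL.LT true true false 17 10 0 0 0 4194304
      [(1835008, 0, 0, 1835008, 132095, 4194304, 254, [(3072, 14), (523263, 12)])] = true := by
    decide +kernel
  have c1_16 : sf TL.WT TL.LT true true false 17 10 0 0 0 4194304
      [(1966080, 0, 0, 1966080, 132095, 4194304, 293, [])] = true := by
    decide +kernel
  have c2_1 : sf TL.WT TL.LT true false true 19 10 0 0 0 4194304
      [(0, 0, 0, 0, 525311, 4194304, 192, [])] = true := by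
    decide +kernel
  have c2_2 : sf TL.WT TL.LT true false true 19 10 0 0 0 4194304
      [(524288, 0, 0, 524288, 525311, 4194304, 99, [(3072, 5)])] = true := by
    decide +kernel
  have c2_3 : sf TL.WT TL.LT true false true 19 10 0 0 0 4194304
      [(1048576, 0, 0, 1048576, 525311, 4194304, 86, [(3072, 7)])] = true := by
    decide +kernel
  have c2_4 : sf TL.WT TL.LT true false true 19 10 0 0 0 4194304
      [(1572864, 0, 0, 1572864, 525311, 4194304, 83, [(3072, 9)])] = true := by
    decide +kernel
  have c3_1 : sf TL.WT TL.LT false true false 19 10 0 0 0 4194304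
      [(0, 0, 0, 0, 525311, 4194304, 192, [])] = true := by
    decide +kernel
  have c3_2 : sf TL.WT TL.LT false true false 19 10 0 0 0 4194304
      [(524288, 0, 0, 524288, 525311, 4194304, 105, [(3072, 9)])] = true := by
    decide +kernel
  have c3_3 : sf TL.WT TL.LT false true false 19 10 0 0 0 4194304
      [(1048576, 0, 0, 1048576, 525311, 4194304, 88, [(3072, 1)])] = true := by
    decide +kernel
  have c3_4 : sf TL.WT TL.LT false true false 19 10 0 0 0 4194304
      [(1572864, 0, 0, 1572864, 525311, 4194304, 82, [(3072, 21)])] = true := by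
    decide +kernel
  have c4_1 : cfs TL.WT TL.LT 17
      [(0, 0, 0, 5980), (131072, 0, 0, 4621), (262144, 0, 0, 4248), (393216, 0, 0, 3988)] = true
      := by
    decide +kernel
  have c4_2 : cfs TL.WT TL.LT 17
      [(524288, 0, 0, 3875), (655360, 0, 0, 3687), (786432, 0, 0, 3599), (917504, 0, 0, 3625)] =
      true := by
    decide +kernel
  have c4_3 : cfs TL.WT TL.LT 17
      [(1048576, 0, 0, 3480), (1179648, 0, 0, 3332), (1310720, 0, 0, 3378), (1441792, 0, 0, 3350)]
      = true := by
    decide +kernel
  have c4_4 : cfs TL.WT TL.LT 17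
      [(1572864, 0, 0, 3415), (1703936, 0, 0, 3370), (1835008, 0, 0, 3312), (1966080, 0, 0, 3205)]
      = true := by
    decide +kernel
  exact ⟨sf_cons c1_1 (sf_cons c1_2 (sf_cons c1_3 (sf_cons c1_4 (sf_cons c1_5 (sf_cons c1_6
      (sf_cons c1_7 (sf_cons c1_8 (sf_cons c1_9 (sf_cons c1_10 (sf_cons c1_11 (sf_cons c1_12
      (sf_cons c1_13 (sf_cons c1_14 (sf_cons c1_15 c1_16)))))))))))))),
    sf_cons c2_1 (sf_cons c2_2 (sf_cons c2_3 c2_4)),
    sf_cons c3_1 (sf_cons c3_2 (sf_cons c3_3 c3_4)),
    cfs_append c4_1 (cfs_append c4_2 (cfs_append c4_3 c4_4))⟩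

end Pool.Agent.AddSq.Co
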