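import Pool.Agent.AddSq.CorCons

/-!
# Kernel facts: correlations, group 20
-/

namespace Pool.Agent.AddSq.Co

set_option maxRecDepth 100000

def l20_1 : List (Nat × Nat × Nat × Nat × Nat × Nat × Nat × List (Nat × Nat)) :=
   [(0, 0, 0, 0, 263167, 8388608, 655, [(1047551, 291)]),
    (262144, 0, 0, 262144, 263167, 8388608, 505, [(1047551, 94)]),
    (524288, 0, 0, 524288, 263167, 8388608, 452, [(3072, 330), (1047551, 42)]),
    (786432, 0, 0, 786432, 263167, 8388608, 465, [(3072, 217)]),
    (1048576, 0, 0, 1048576, 263167, 8388608, 424, [(3072, 171), (1047551, 24)]),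
    (1310720, 0, 0, 1310720, 263167, 8388608, 412, [(3072, 179), (1047551, 35)]),
    (1572864, 0, 0, 1572864, 263167, 8388608, 419, [(3072, 180)]),
    (1835008, 0, 0, 1835008, 263167, 8388608, 450, [(3072, 100)])]

def l20_2 : List (Nat × Nat × Nat × Nat × Nat × Nat × Nat × List (Nat × Nat)) :=
   [(2097152, 0, 0, 2097152, 263167, 8388608, 413, [(3072, 138)]),
    (2359296, 0, 0, 2359296, 263167, 8388608, 407, [(3072, 118), (1047551, 1)]),
    (2621440, 0, 0, 2621440, 263167, 8388608, 398, [(3072, 82)]),
    (2883584, 0, 0, 2883584, 263167, 8388608, 452, [(3072, 87)]),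
    (3145728, 0, 0, 3145728, 263167, 8388608, 406, [(3072, 166), (1047551, 1)]),
    (3407872, 0, 0, 3407872, 263167, 8388608, 392, [(3072, 191), (1047551, 4)]),
    (3670016, 0, 0, 3670016, 263167, 8388608, 432, [(3072, 139)]),
    (3932160, 0, 0, 3932160, 263167, 8388608, 379, [(3072, 159)])]

def l20_3 : List (Nat × Nat × Nat × Nat × Nat × Nat × Nat × List (Nat × Nat)) :=
   [(0, 0, 0, 0, 1049599, 8388608, 257, []),
    (1048576, 0, 0, 1048576, 1049599, 8388608, 139, [(3072, 46)]),
    (2097152, 0, 0, 2097152, 1049599, 8388608, 135, [(3072, 12)]),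
    (3145728, 0, 0, 3145728, 1049599, 8388608, 118, [(3072, 32)])]

def l20_4 : List (Nat × Nat × Nat × Nat × Nat × Nat × Nat × List (Nat × Nat)) :=
   [(0, 0, 0, 0, 1049599, 8388608, 275, []),
    (1048576, 0, 0, 1048576, 1049599, 8388608, 140, [(3072, 52)]),
    (2097152, 0, 0, 2097152, 1049599, 8388608, 129, [(3072, 9)]),
    (3145728, 0, 0, 3145728, 1049599, 8388608, 119, [(3072, 2)])]

def n20 : List (Nat × Nat × Nat × Nat) :=
   [(0, 0, 0, 10601),
    (262144, 0, 0, 8236),
    (524288, 0, 0, 7562),
    (786432, 0, 0, 7224),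
    (1048576, 0, 0, 6812),
    (1310720, 0, 0, 6728),
    (1572864, 0, 0, 6785),
    (1835008, 0, 0, 6517),
    (2097152, 0, 0, 6251),
    (2359296, 0, 0, 6198),
    (2621440, 0, 0, 6120),
    (2883584, 0, 0, 6134),
    (3145728, 0, 0, 6147),
    (3407872, 0, 0, 6171),
    (3670016, 0, 0, 6094),
    (3932160, 0, 0, 5985)]

theorem ck20 : sf TL.WT TL.LT true true false 18 11 2200 697 0 8388608 l20_1 = true ∧
    sf TL.WT TL.LT true true false 18 11 2200 697 0 8388608 l20_2 = true ∧
    sf TL.WT TL.LT true false true 20 11 2200 697 0 8388608 l20_3 = true ∧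
    sf TL.WT TL.LT false true false 20 11 2200 697 0 8388608 l20_4 = true ∧
    cfs TL.WT TL.LT 18 n20 = true := by
  have c1_1 : sf TL.WT TL.LT true true false 18 11 2200 697 0 8388608
      [(0, 0, 0, 0, 263167, 8388608, 655, [(1047551, 291)])] = true := by
    decide +kernel
  have c1_2 : sf TL.WT TL.LT true true false 18 11 2200 697 0 8388608
      [(262144, 0, 0, 262144, 263167, 8388608, 505, [(1047551, 94)])] = true := by
    decide +kernel
  have c1_3 : sf TL.WT TL.LT true true false 18 11 2200 697 0 8388608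
      [(524288, 0, 0, 524288, 263167, 8388608, 452, [(3072, 330), (1047551, 42)])] = true := by
    decide +kernel
  have c1_4 : sf TL.WT TL.LT true true false 18 11 2200 697 0 8388608
      [(786432, 0, 0, 786432, 263167, 8388608, 465, [(3072, 217)])] = true := by
    decide +kernel
  have c1_5 : sf TL.WT TL.LT true true false 18 11 2200 697 0 8388608
      [(1048576, 0, 0, 1048576, 263167, 8388608, 424, [(3072, 171), (1047551, 24)])] = true := by
    decide +kernel
  have c1_6 : sf TL.WT TL.LT true true false 18 11 2200 697 0 8388608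
      [(1310720, 0, 0, 1310720, 263167, 8388608, 412, [(3072, 179), (1047551, 35)])] = true := by
    decide +kernel
  have c1_7 : sf TL.WT TL.LT true true false 18 11 2200 697 0 8388608
      [(1572864, 0, 0, 1572864, 263167, 8388608, 419, [(3072, 180)])] = true := by
    decide +kernel
  have c1_8 : sf TL.WT TL.LT true true false 18 11 2200 697 0 8388608
      [(1835008, 0, 0, 1835008, 263167, 8388608, 450, [(3072, 100)])] = true := by
    decide +kernel
  have c2_1 : sf TL.WT TL.LT true true false 18 11 2200 697 0 8388608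
      [(2097152, 0, 0, 2097152, 263167, 8388608, 413, [(3072, 138)])] = true := by
    decide +kernel
  have c2_2 : sf TL.WT TL.LT true true false 18 11 2200 697 0 8388608
      [(2359296, 0, 0, 2359296, 263167, 8388608, 407, [(3072, 118), (1047551, 1)])] = true := by
    decide +kernel
  have c2_3 : sf TL.WT TL.LT true true false 18 11 2200 697 0 8388608
      [(2621440, 0, 0, 2621440, 263167, 8388608, 398, [(3072, 82)])] = true := by
    decide +kernel
  have c2_4 : sf TL.WT TL.LT true true false 18 11 2200 697 0 8388608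
      [(2883584, 0, 0, 2883584, 263167, 8388608, 452, [(3072, 87)])] = true := by
    decide +kernel
  have c2_5 : sf TL.WT TL.LT true true false 18 11 2200 697 0 8388608
      [(3145728, 0, 0, 3145728, 263167, 8388608, 406, [(3072, 166), (1047551, 1)])] = true := by
    decide +kernel
  have c2_6 : sf TL.WT TL.LT true true false 18 11 2200 697 0 8388608
      [(3407872, 0, 0, 3407872, 263167, 8388608, 392, [(3072, 191), (1047551, 4)])] = true := by
    decide +kernel
  have c2_7 : sf TL.WT TL.LT true true false 18 11 2200 697 0 8388608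
      [(3670016, 0, 0, 3670016, 263167, 8388608, 432, [(3072, 139)])] = true := by
    decide +kernel
  have c2_8 : sf TL.WT TL.LT true true false 18 11 2200 697 0 8388608
      [(3932160, 0, 0, 3932160, 263167, 8388608, 379, [(3072, 159)])] = true := by
    decide +kernel
  have c3_1 : sf TL.WT TL.LT true false true 20 11 2200 697 0 8388608
      [(0, 0, 0, 0, 1049599, 8388608, 257, [])] = true := by
    decide +kernel
  have c3_2 : sf TL.WT TL.LT true false true 20 11 2200 697 0 8388608
      [(1048576, 0, 0, 1048576, 1049599, 8388608, 139, [(3072, 46)])] = true := by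
    decide +kernel
  have c3_3 : sf TL.WT TL.LT true false true 20 11 2200 697 0 8388608
      [(2097152, 0, 0, 2097152, 1049599, 8388608, 135, [(3072, 12)])] = true := by
    decide +kernel
  have c3_4 : sf TL.WT TL.LT true false true 20 11 2200 697 0 8388608
      [(3145728, 0, 0, 3145728, 1049599, 8388608, 118, [(3072, 32)])] = true := by
    decide +kernel
  have c4_1 : sf TL.WT TL.LT false true false 20 11 2200 697 0 8388608
      [(0, 0, 0, 0, 1049599, 8388608, 275, [])] = true := by
    decide +kernel
  have c4_2 : sf TL.WT TL.LT false true false 20 11 2200 697 0 8388608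
      [(1048576, 0, 0, 1048576, 1049599, 8388608, 140, [(3072, 52)])] = true := by
    decide +kernel
  have c4_3 : sf TL.WT TL.LT false true false 20 11 2200 697 0 8388608
      [(2097152, 0, 0, 2097152, 1049599, 8388608, 129, [(3072, 9)])] = true := by
    decide +kernel
  have c4_4 : sf TL.WT TL.LT false true false 20 11 2200 697 0 8388608
      [(3145728, 0, 0, 3145728, 1049599, 8388608, 119, [(3072, 2)])] = true := by
    decide +kernel
  have c5_1 : cfs TL.WT TL.LT 18
      [(0, 0, 0, 10601), (262144, 0, 0, 8236), (524288, 0, 0, 7562), (786432, 0, 0, 7224)] = true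
      := by
    decide +kernel
  have c5_2 : cfs TL.WT TL.LT 18
      [(1048576, 0, 0, 6812), (1310720, 0, 0, 6728), (1572864, 0, 0, 6785), (1835008, 0, 0, 6517)]
      = true := by
    decide +kernel
  have c5_3 : cfs TL.WT TL.LT 18
      [(2097152, 0, 0, 6251), (2359296, 0, 0, 6198), (2621440, 0, 0, 6120), (2883584, 0, 0, 6134)]
      = true := by
    decide +kernel
  have c5_4 : cfs TL.WT TL.LT 18
      [(3145728, 0, 0, 6147), (3407872, 0, 0, 6171), (3670016, 0, 0, 6094), (3932160, 0, 0, 5985)]
      = true := by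
    decide +kernel
  exact ⟨sf_cons c1_1 (sf_cons c1_2 (sf_cons c1_3 (sf_cons c1_4 (sf_cons c1_5 (sf_cons c1_6
      (sf_cons c1_7 c1_8)))))),
    sf_cons c2_1 (sf_cons c2_2 (sf_cons c2_3 (sf_cons c2_4 (sf_cons c2_5 (sf_cons c2_6 (sf_cons
      c2_7 c2_8)))))),
    sf_cons c3_1 (sf_cons c3_2 (sf_cons c3_3 c3_4)),
    sf_cons c4_1 (sf_cons c4_2 (sf_cons c4_3 c4_4)),
    cfs_append c5_1 (cfs_append c5_2 (cfs_append c5_3 c5_4))⟩

end Pool.Agent.AddSq.Co
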