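import Pool.Agent.AddSq.CorCons

/-!
# Kernel facts: correlations, group 21
-/

namespace Pool.Agent.AddSq.Co

set_option maxRecDepth 100000

def l21_1 : List (Nat × Nat × Nat × Nat × Nat × Nat × Nat × List (Nat × Nat)) :=
   [(0, 0, 0, 0, 525311, 16777216, 1034, [(2096127, 433)]),
    (524288, 0, 0, 524288, 525311, 16777216, 822, [(7168, 641), (2096127, 43)]),
    (1048576, 0, 0, 1048576, 525311, 16777216, 707, [(7168, 480), (2096127, 58)]),
    (1572864, 0, 0, 1572864, 525311, 16777216, 730, [(7168, 419)]),
    (2097152, 0, 0, 2097152, 525311, 16777216, 680, [(7168, 380), (2096127, 17)]),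
    (2621440, 0, 0, 2621440, 525311, 16777216, 717, [(7168, 286)])]

def l21_2 : List (Nat × Nat × Nat × Nat × Nat × Nat × Nat × List (Nat × Nat)) :=
   [(3145728, 0, 0, 3145728, 525311, 16777216, 655, [(7168, 501), (2096127, 4)]),
    (3670016, 0, 0, 3670016, 525311, 16777216, 640, [(7168, 451), (2096127, 18)]),
    (4194304, 0, 0, 4194304, 525311, 16777216, 630, [(7168, 396), (2096127, 21)]),
    (4718592, 2200, 90, 4718592, 525311, 16777216, 629, [(7168, 330), (2096127, 4)]),
    (5242880, 2289, 113, 5242880, 525311, 16777216, 614, [(7168, 347)]),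
    (5767168, 2401, 108, 5767168, 525311, 16777216, 618, [(7168, 300), (2096127, 27)])]

def l21_3 : List (Nat × Nat × Nat × Nat × Nat × Nat × Nat × List (Nat × Nat)) :=
   [(6291456, 2508, 103, 6291456, 525311, 16777216, 643, [(7168, 300)]),
    (6815744, 2610, 100, 6815744, 525311, 16777216, 635, [(7168, 271)]),
    (7340032, 2709, 96, 7340032, 525311, 16777216, 592, [(7168, 320)]),
    (7864320, 2804, 93, 7864320, 525311, 16777216, 558, [(7168, 268), (2096127, 31)])]

def l21_4 : List (Nat × Nat × Nat × Nat × Nat × Nat × Nat × List (Nat × Nat)) :=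
   [(0, 0, 0, 0, 2098175, 16777216, 365, [(7168, 30)]),
    (2097152, 0, 0, 2097152, 2098175, 16777216, 214, [(7168, 83)]),
    (4194304, 2200, 309, 4194304, 2098175, 16777216, 200, [(7168, 84)]),
    (6291456, 2508, 389, 6291456, 2098175, 16777216, 186, [(7168, 54)])]

def l21_5 : List (Nat × Nat × Nat × Nat × Nat × Nat × Nat × List (Nat × Nat)) :=
   [(0, 0, 0, 0, 2098175, 16777216, 374, [(7168, 73)]),
    (2097152, 0, 0, 2097152, 2098175, 16777216, 209, [(7168, 50)]),
    (4194304, 2200, 309, 4194304, 2098175, 16777216, 188, [(7168, 62)]),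
    (6291456, 2508, 389, 6291456, 2098175, 16777216, 179, [(7168, 40)])]

def n21 : List (Nat × Nat × Nat × Nat) :=
   [(0, 0, 0, 18837),
    (524288, 0, 0, 14786),
    (1048576, 0, 0, 13540),
    (1572864, 0, 0, 13302),
    (2097152, 0, 0, 12449),
    (2621440, 0, 0, 12254),
    (3145728, 0, 0, 12318),
    (3670016, 0, 0, 12079),
    (4194304, 0, 0, 11861),
    (4718592, 2200, 90, 11585),
    (5242880, 2289, 113, 11493),
    (5767168, 2401, 108, 11350),
    (6291456, 2508, 103, 11300),
    (6815744, 2610, 100, 11273),
    (7340032, 2709, 96, 11139),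
    (7864320, 2804, 93, 10824)]

theorem ck21 : sf TL.WT TL.LT true true false 19 12 2200 1896 0 16777216 l21_1 = true ∧
    sf TL.WT TL.LT true true false 19 12 2200 1896 0 16777216 l21_2 = true ∧
    sf TL.WT TL.LT true true false 19 12 2200 1896 0 16777216 l21_3 = true ∧
    sf TL.WT TL.LT true false true 21 12 2200 1896 0 16777216 l21_4 = true ∧
    sf TL.WT TL.LT false true false 21 12 2200 1896 0 16777216 l21_5 = true ∧
    cfs TL.WT TL.LT 19 n21 = true := by
  have c1_1 : sf TL.WT TL.LT true true false 19 12 2200 1896 0 16777216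
      [(0, 0, 0, 0, 525311, 16777216, 1034, [(2096127, 433)])] = true := by
    decide +kernel
  have c1_2 : sf TL.WT TL.LT true true false 19 12 2200 1896 0 16777216
      [(524288, 0, 0, 524288, 525311, 16777216, 822, [(7168, 641), (2096127, 43)])] = true := by
    decide +kernel
  have c1_3 : sf TL.WT TL.LT true true false 19 12 2200 1896 0 16777216
      [(1048576, 0, 0, 1048576, 525311, 16777216, 707, [(7168, 480), (2096127, 58)])] = true := by
    decide +kernel
  have c1_4 : sf TL.WT TL.LT true true false 19 12 2200 1896 0 16777216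
      [(1572864, 0, 0, 1572864, 525311, 16777216, 730, [(7168, 419)])] = true := by
    decide +kernel
  have c1_5 : sf TL.WT TL.LT true true false 19 12 2200 1896 0 16777216
      [(2097152, 0, 0, 2097152, 525311, 16777216, 680, [(7168, 380), (2096127, 17)])] = true := by
    decide +kernel
  have c1_6 : sf TL.WT TL.LT true true false 19 12 2200 1896 0 16777216
      [(2621440, 0, 0, 2621440, 525311, 16777216, 717, [(7168, 286)])] = true := by
    decide +kernel
  have c2_1 : sf TL.WT TL.LT true true false 19 12 2200 1896 0 16777216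
      [(3145728, 0, 0, 3145728, 525311, 16777216, 655, [(7168, 501), (2096127, 4)])] = true := by
    decide +kernel
  have c2_2 : sf TL.WT TL.LT true true false 19 12 2200 1896 0 16777216
      [(3670016, 0, 0, 3670016, 525311, 16777216, 640, [(7168, 451), (2096127, 18)])] = true := by
    decide +kernel
  have c2_3 : sf TL.WT TL.LT true true false 19 12 2200 1896 0 16777216
      [(4194304, 0, 0, 4194304, 525311, 16777216, 630, [(7168, 396), (2096127, 21)])] = true := by
    decide +kernel
  have c2_4 : sf TL.WT TL.LT true true false 19 12 2200 1896 0 16777216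
      [(4718592, 2200, 90, 4718592, 525311, 16777216, 629, [(7168, 330), (2096127, 4)])] = true :=
      by
    decide +kernel
  have c2_5 : sf TL.WT TL.LT true true false 19 12 2200 1896 0 16777216
      [(5242880, 2289, 113, 5242880, 525311, 16777216, 614, [(7168, 347)])] = true := by
    decide +kernel
  have c2_6 : sf TL.WT TL.LT true true false 19 12 2200 1896 0 16777216
      [(5767168, 2401, 108, 5767168, 525311, 16777216, 618, [(7168, 300), (2096127, 27)])] = true
      := by
    decide +kernel
  have c3_1 : sf TL.WT TL.LT true true false 19 12 2200 1896 0 16777216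
      [(6291456, 2508, 103, 6291456, 525311, 16777216, 643, [(7168, 300)])] = true := by
    decide +kernel
  have c3_2 : sf TL.WT TL.LT true true false 19 12 2200 1896 0 16777216
      [(6815744, 2610, 100, 6815744, 525311, 16777216, 635, [(7168, 271)])] = true := by
    decide +kernel
  have c3_3 : sf TL.WT TL.LT true true false 19 12 2200 1896 0 16777216
      [(7340032, 2709, 96, 7340032, 525311, 16777216, 592, [(7168, 320)])] = true := by
    decide +kernel
  have c3_4 : sf TL.WT TL.LT true true false 19 12 2200 1896 0 16777216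
      [(7864320, 2804, 93, 7864320, 525311, 16777216, 558, [(7168, 268), (2096127, 31)])] = true
      := by
    decide +kernel
  have c4_1 : sf TL.WT TL.LT true false true 21 12 2200 1896 0 16777216
      [(0, 0, 0, 0, 2098175, 16777216, 365, [(7168, 30)])] = true := by
    decide +kernel
  have c4_2 : sf TL.WT TL.LT true false true 21 12 2200 1896 0 16777216
      [(2097152, 0, 0, 2097152, 2098175, 16777216, 214, [(7168, 83)])] = true := by
    decide +kernel
  have c4_3 : sf TL.WT TL.LT true false true 21 12 2200 1896 0 16777216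
      [(4194304, 2200, 309, 4194304, 2098175, 16777216, 200, [(7168, 84)])] = true := by
    decide +kernel
  have c4_4 : sf TL.WT TL.LT true false true 21 12 2200 1896 0 16777216
      [(6291456, 2508, 389, 6291456, 2098175, 16777216, 186, [(7168, 54)])] = true := by
    decide +kernel
  have c5_1 : sf TL.WT TL.LT false true false 21 12 2200 1896 0 16777216
      [(0, 0, 0, 0, 2098175, 16777216, 374, [(7168, 73)])] = true := by
    decide +kernel
  have c5_2 : sf TL.WT TL.LT false true false 21 12 2200 1896 0 16777216
      [(2097152, 0, 0, 2097152, 2098175, 16777216, 209, [(7168, 50)])] = true := by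
    decide +kernel
  have c5_3 : sf TL.WT TL.LT false true false 21 12 2200 1896 0 16777216
      [(4194304, 2200, 309, 4194304, 2098175, 16777216, 188, [(7168, 62)])] = true := by
    decide +kernel
  have c5_4 : sf TL.WT TL.LT false true false 21 12 2200 1896 0 16777216
      [(6291456, 2508, 389, 6291456, 2098175, 16777216, 179, [(7168, 40)])] = true := by
    decide +kernel
  have c6_1 : cfs TL.WT TL.LT 19
      [(0, 0, 0, 18837), (524288, 0, 0, 14786), (1048576, 0, 0, 13540), (1572864, 0, 0, 13302)] =
      true := by
    decide +kernel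
  have c6_2 : cfs TL.WT TL.LT 19
      [(2097152, 0, 0, 12449), (2621440, 0, 0, 12254), (3145728, 0, 0, 12318), (3670016, 0, 0,
      12079)] = true := by
    decide +kernel
  have c6_3 : cfs TL.WT TL.LT 19
      [(4194304, 0, 0, 11861), (4718592, 2200, 90, 11585), (5242880, 2289, 113, 11493), (5767168,
      2401, 108, 11350)] = true := by
    decide +kernel
  have c6_4 : cfs TL.WT TL.LT 19
      [(6291456, 2508, 103, 11300), (6815744, 2610, 100, 11273), (7340032, 2709, 96, 11139),
      (7864320, 2804, 93, 10824)] = true := by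
    decide +kernel
  exact ⟨sf_cons c1_1 (sf_cons c1_2 (sf_cons c1_3 (sf_cons c1_4 (sf_cons c1_5 c1_6)))),
    sf_cons c2_1 (sf_cons c2_2 (sf_cons c2_3 (sf_cons c2_4 (sf_cons c2_5 c2_6)))),
    sf_cons c3_1 (sf_cons c3_2 (sf_cons c3_3 c3_4)),
    sf_cons c4_1 (sf_cons c4_2 (sf_cons c4_3 c4_4)),
    sf_cons c5_1 (sf_cons c5_2 (sf_cons c5_3 c5_4)),
    cfs_append c6_1 (cfs_append c6_2 (cfs_append c6_3 c6_4))⟩

end Pool.Agent.AddSq.Co
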