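import Pool.Agent.AddSq.CorCons

/-!
# Kernel facts: correlations, group 22
-/

namespace Pool.Agent.AddSq.Co

set_option maxRecDepth 100000

def l22a_1 : List (Nat × Nat × Nat × Nat × Nat × Nat × Nat × List (Nat × Nat)) :=
   [(0, 0, 0, 0, 1049599, 17825792, 1606, [(7168, 235), (4193279, 633)]),
    (1048576, 0, 0, 1048576, 1049599, 17825792, 1253, [(7168, 1000), (4193279, 141)]),
    (2097152, 0, 0, 2097152, 1049599, 17825792, 1149, [(7168, 755), (4193279, 128)]),
    (3145728, 0, 0, 3145728, 1049599, 17825792, 1129, [(7168, 1090), (4193279, 50)]),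
    (4194304, 2200, 90, 4194304, 1049599, 17825792, 1062, [(7168, 882), (4193279, 66)]),
    (5242880, 2289, 220, 5242880, 1049599, 17825792, 1025, [(7168, 838), (4193279, 43)])]

def l22a_2 : List (Nat × Nat × Nat × Nat × Nat × Nat × Nat × List (Nat × Nat)) :=
   [(6291456, 2508, 202, 6291456, 1049599, 17825792, 1010, [(7168, 835), (4193279, 4)]),
    (7340032, 2709, 188, 7340032, 1049599, 17825792, 1042, [(7168, 727)]),
    (8388608, 2896, 176, 8388608, 1049599, 17825792, 959, [(7168, 693)]),
    (9437184, 3072, 167, 9437184, 1049599, 17825792, 931, [(7168, 709)]),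
    (10485760, 3238, 159, 10485760, 1049599, 17825792, 901, [(7168, 744), (4193279, 22)]),
    (11534336, 3396, 152, 11534336, 1049599, 5241856, 879, [(7168, 695), (4193279, 19)])]

def l22a_3 : List (Nat × Nat × Nat × Nat × Nat × Nat × Nat × List (Nat × Nat)) :=
   [(12582912, 3547, 146, 12582912, 1049599, 4193280, 868, [(7168, 685)]),
    (13631488, 3692, 140, 13631488, 1049599, 3144704, 888, [(7168, 617)]),
    (14680064, 3831, 135, 14680064, 1049599, 2096128, 909, [(7168, 556)]),
    (15728640, 3965, 131, 15728640, 1049599, 1047552, 912, [(7168, 509)])]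

def l22a_4 : List (Nat × Nat × Nat × Nat × Nat × Nat × Nat × List (Nat × Nat)) :=
   [(0, 0, 0, 0, 1048575, 16777216, 1606, []),
    (1048576, 0, 0, 0, 1048575, 16777216, 1253, []),
    (2097152, 0, 0, 0, 1048575, 16777216, 1149, []),
    (3145728, 0, 0, 0, 1048575, 16777216, 1129, []),
    (4194304, 2200, 90, 0, 1048575, 16777216, 1062, []),
    (5242880, 2289, 220, 0, 1048575, 16777216, 1025, [])]

theorem ck22a : sf TL.WT TL.LT true true false 20 13 2200 2023 0 17825792 l22a_1 = true ∧
    sf TL.WT TL.LT true true false 20 13 2200 2023 0 17825792 l22a_2 = true ∧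
    sf TL.WT TL.LT true true false 20 13 2200 2023 0 17825792 l22a_3 = true ∧
    sf TL.WT TL.LT true true false 20 12 4096 1697 16777216 16777216 l22a_4 = true := by
  have c1_1 : sf TL.WT TL.LT true true false 20 13 2200 2023 0 17825792
      [(0, 0, 0, 0, 1049599, 17825792, 1606, [(7168, 235), (4193279, 633)])] = true := by
    decide +kernel
  have c1_2 : sf TL.WT TL.LT true true false 20 13 2200 2023 0 17825792
      [(1048576, 0, 0, 1048576, 1049599, 17825792, 1253, [(7168, 1000), (4193279, 141)])] = true
      := by
    decide +kernel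
  have c1_3 : sf TL.WT TL.LT true true false 20 13 2200 2023 0 17825792
      [(2097152, 0, 0, 2097152, 1049599, 17825792, 1149, [(7168, 755), (4193279, 128)])] = true :=
      by
    decide +kernel
  have c1_4 : sf TL.WT TL.LT true true false 20 13 2200 2023 0 17825792
      [(3145728, 0, 0, 3145728, 1049599, 17825792, 1129, [(7168, 1090), (4193279, 50)])] = true :=
      by
    decide +kernel
  have c1_5 : sf TL.WT TL.LT true true false 20 13 2200 2023 0 17825792
      [(4194304, 2200, 90, 4194304, 1049599, 17825792, 1062, [(7168, 882), (4193279, 66)])] = true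
      := by
    decide +kernel
  have c1_6 : sf TL.WT TL.LT true true false 20 13 2200 2023 0 17825792
      [(5242880, 2289, 220, 5242880, 1049599, 17825792, 1025, [(7168, 838), (4193279, 43)])] =
      true := by
    decide +kernel
  have c2_1 : sf TL.WT TL.LT true true false 20 13 2200 2023 0 17825792
      [(6291456, 2508, 202, 6291456, 1049599, 17825792, 1010, [(7168, 835), (4193279, 4)])] = true
      := by
    decide +kernel
  have c2_2 : sf TL.WT TL.LT true true false 20 13 2200 2023 0 17825792
      [(7340032, 2709, 188, 7340032, 1049599, 17825792, 1042, [(7168, 727)])] = true := by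
    decide +kernel
  have c2_3 : sf TL.WT TL.LT true true false 20 13 2200 2023 0 17825792
      [(8388608, 2896, 176, 8388608, 1049599, 17825792, 959, [(7168, 693)])] = true := by
    decide +kernel
  have c2_4 : sf TL.WT TL.LT true true false 20 13 2200 2023 0 17825792
      [(9437184, 3072, 167, 9437184, 1049599, 17825792, 931, [(7168, 709)])] = true := by
    decide +kernel
  have c2_5 : sf TL.WT TL.LT true true false 20 13 2200 2023 0 17825792
      [(10485760, 3238, 159, 10485760, 1049599, 17825792, 901, [(7168, 744), (4193279, 22)])] =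
      true := by
    decide +kernel
  have c2_6 : sf TL.WT TL.LT true true false 20 13 2200 2023 0 17825792
      [(11534336, 3396, 152, 11534336, 1049599, 5241856, 879, [(7168, 695), (4193279, 19)])] =
      true := by
    decide +kernel
  have c3_1 : sf TL.WT TL.LT true true false 20 13 2200 2023 0 17825792
      [(12582912, 3547, 146, 12582912, 1049599, 4193280, 868, [(7168, 685)])] = true := by
    decide +kernel
  have c3_2 : sf TL.WT TL.LT true true false 20 13 2200 2023 0 17825792
      [(13631488, 3692, 140, 13631488, 1049599, 3144704, 888, [(7168, 617)])] = true := by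
    decide +kernel
  have c3_3 : sf TL.WT TL.LT true true false 20 13 2200 2023 0 17825792
      [(14680064, 3831, 135, 14680064, 1049599, 2096128, 909, [(7168, 556)])] = true := by
    decide +kernel
  have c3_4 : sf TL.WT TL.LT true true false 20 13 2200 2023 0 17825792
      [(15728640, 3965, 131, 15728640, 1049599, 1047552, 912, [(7168, 509)])] = true := by
    decide +kernel
  have c4_1 : sf TL.WT TL.LT true true false 20 12 4096 1697 16777216 16777216
      [(0, 0, 0, 0, 1048575, 16777216, 1606, [])] = true := by
    decide +kernel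
  have c4_2 : sf TL.WT TL.LT true true false 20 12 4096 1697 16777216 16777216
      [(1048576, 0, 0, 0, 1048575, 16777216, 1253, [])] = true := by
    decide +kernel
  have c4_3 : sf TL.WT TL.LT true true false 20 12 4096 1697 16777216 16777216
      [(2097152, 0, 0, 0, 1048575, 16777216, 1149, [])] = true := by
    decide +kernel
  have c4_4 : sf TL.WT TL.LT true true false 20 12 4096 1697 16777216 16777216
      [(3145728, 0, 0, 0, 1048575, 16777216, 1129, [])] = true := by
    decide +kernel
  have c4_5 : sf TL.WT TL.LT true true false 20 12 4096 1697 16777216 16777216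
      [(4194304, 2200, 90, 0, 1048575, 16777216, 1062, [])] = true := by
    decide +kernel
  have c4_6 : sf TL.WT TL.LT true true false 20 12 4096 1697 16777216 16777216
      [(5242880, 2289, 220, 0, 1048575, 16777216, 1025, [])] = true := by
    decide +kernel
  exact ⟨sf_cons c1_1 (sf_cons c1_2 (sf_cons c1_3 (sf_cons c1_4 (sf_cons c1_5 c1_6)))),
    sf_cons c2_1 (sf_cons c2_2 (sf_cons c2_3 (sf_cons c2_4 (sf_cons c2_5 c2_6)))),
    sf_cons c3_1 (sf_cons c3_2 (sf_cons c3_3 c3_4)),
    sf_cons c4_1 (sf_cons c4_2 (sf_cons c4_3 (sf_cons c4_4 (sf_cons c4_5 c4_6))))⟩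

end Pool.Agent.AddSq.Co
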