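import Pool.Agent.AddSq.CorCons

/-!
# Kernel facts: correlations, group 22
-/

namespace Pool.Agent.AddSq.Co

set_option maxRecDepth 100000

def l22b_1 : List (Nat × Nat × Nat × Nat × Nat × Nat × Nat × List (Nat × Nat)) :=
   [(6291456, 2508, 202, 0, 1048575, 16777216, 1010, []),
    (7340032, 2709, 188, 0, 1048575, 16777216, 1042, []),
    (8388608, 2896, 176, 0, 1048575, 16777216, 959, []),
    (9437184, 3072, 167, 0, 1048575, 16777216, 931, []),
    (10485760, 3238, 159, 0, 1048575, 16777216, 901, []),
    (11534336, 3396, 152, 0, 1048575, 16777216, 879, [])]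

def l22b_2 : List (Nat × Nat × Nat × Nat × Nat × Nat × Nat × List (Nat × Nat)) :=
   [(12582912, 3547, 146, 0, 1048575, 16777216, 868, []),
    (13631488, 3692, 140, 0, 1048575, 16777216, 888, []),
    (14680064, 3831, 135, 0, 1048575, 16777216, 897, [(2097151, 12)]),
    (15728640, 3965, 131, 0, 1048575, 16777216, 876, [(3145727, 36)])]

def l22b_3 : List (Nat × Nat × Nat × Nat × Nat × Nat × Nat × List (Nat × Nat)) :=
   [(0, 0, 0, 0, 4195327, 20971520, 520, [(7168, 172)]),
    (4194304, 2200, 697, 4194304, 4195327, 20971520, 337, [(7168, 185)]),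
    (8388608, 2896, 652, 8388608, 4195327, 20971520, 292, [(7168, 140)]),
    (12582912, 3547, 549, 12582912, 4195327, 4193280, 254, [(7168, 102)])]

def l22b_4 : List (Nat × Nat × Nat × Nat × Nat × Nat × Nat × List (Nat × Nat)) :=
   [(0, 0, 0, 0, 4194303, 16777216, 520, []),
    (4194304, 2200, 697, 0, 4194303, 16777216, 337, []),
    (8388608, 2896, 652, 0, 4194303, 16777216, 292, []),
    (12582912, 3547, 549, 0, 4194303, 16777216, 254, [])]

theorem ck22b : sf TL.WT TL.LT true true false 20 12 4096 1697 16777216 16777216 l22b_1 = true ∧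
    sf TL.WT TL.LT true true false 20 12 4096 1697 16777216 16777216 l22b_2 = true ∧
    sf TL.WT TL.LT true false true 22 13 2200 2380 0 20971520 l22b_3 = true ∧
    sf TL.WT TL.LT true false true 22 12 4096 1697 16777216 16777216 l22b_4 = true := by
  have c1_1 : sf TL.WT TL.LT true true false 20 12 4096 1697 16777216 16777216
      [(6291456, 2508, 202, 0, 1048575, 16777216, 1010, [])] = true := by
    decide +kernel
  have c1_2 : sf TL.WT TL.LT true true false 20 12 4096 1697 16777216 16777216
      [(7340032, 2709, 188, 0, 1048575, 16777216, 1042, [])] = true := by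
    decide +kernel
  have c1_3 : sf TL.WT TL.LT true true false 20 12 4096 1697 16777216 16777216
      [(8388608, 2896, 176, 0, 1048575, 16777216, 959, [])] = true := by
    decide +kernel
  have c1_4 : sf TL.WT TL.LT true true false 20 12 4096 1697 16777216 16777216
      [(9437184, 3072, 167, 0, 1048575, 16777216, 931, [])] = true := by
    decide +kernel
  have c1_5 : sf TL.WT TL.LT true true false 20 12 4096 1697 16777216 16777216
      [(10485760, 3238, 159, 0, 1048575, 16777216, 901, [])] = true := by
    decide +kernel
  have c1_6 : sf TL.WT TL.LT true true false 20 12 4096 1697 16777216 16777216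
      [(11534336, 3396, 152, 0, 1048575, 16777216, 879, [])] = true := by
    decide +kernel
  have c2_1 : sf TL.WT TL.LT true true false 20 12 4096 1697 16777216 16777216
      [(12582912, 3547, 146, 0, 1048575, 16777216, 868, [])] = true := by
    decide +kernel
  have c2_2 : sf TL.WT TL.LT true true false 20 12 4096 1697 16777216 16777216
      [(13631488, 3692, 140, 0, 1048575, 16777216, 888, [])] = true := by
    decide +kernel
  have c2_3 : sf TL.WT TL.LT true true false 20 12 4096 1697 16777216 16777216
      [(14680064, 3831, 135, 0, 1048575, 16777216, 897, [(2097151, 12)])] = true := by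
    decide +kernel
  have c2_4 : sf TL.WT TL.LT true true false 20 12 4096 1697 16777216 16777216
      [(15728640, 3965, 131, 0, 1048575, 16777216, 876, [(3145727, 36)])] = true := by
    decide +kernel
  have c3_1 : sf TL.WT TL.LT true false true 22 13 2200 2380 0 20971520
      [(0, 0, 0, 0, 4195327, 20971520, 520, [(7168, 172)])] = true := by
    decide +kernel
  have c3_2 : sf TL.WT TL.LT true false true 22 13 2200 2380 0 20971520
      [(4194304, 2200, 697, 4194304, 4195327, 20971520, 337, [(7168, 185)])] = true := by
    decide +kernel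
  have c3_3 : sf TL.WT TL.LT true false true 22 13 2200 2380 0 20971520
      [(8388608, 2896, 652, 8388608, 4195327, 20971520, 292, [(7168, 140)])] = true := by
    decide +kernel
  have c3_4 : sf TL.WT TL.LT true false true 22 13 2200 2380 0 20971520
      [(12582912, 3547, 549, 12582912, 4195327, 4193280, 254, [(7168, 102)])] = true := by
    decide +kernel
  have c4_1 : sf TL.WT TL.LT true false true 22 12 4096 1697 16777216 16777216
      [(0, 0, 0, 0, 4194303, 16777216, 520, [])] = true := by
    decide +kernel
  have c4_2 : sf TL.WT TL.LT true false true 22 12 4096 1697 16777216 16777216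
      [(4194304, 2200, 697, 0, 4194303, 16777216, 337, [])] = true := by
    decide +kernel
  have c4_3 : sf TL.WT TL.LT true false true 22 12 4096 1697 16777216 16777216
      [(8388608, 2896, 652, 0, 4194303, 16777216, 292, [])] = true := by
    decide +kernel
  have c4_4 : sf TL.WT TL.LT true false true 22 12 4096 1697 16777216 16777216
      [(12582912, 3547, 549, 0, 4194303, 16777216, 254, [])] = true := by
    decide +kernel
  exact ⟨sf_cons c1_1 (sf_cons c1_2 (sf_cons c1_3 (sf_cons c1_4 (sf_cons c1_5 c1_6)))),
    sf_cons c2_1 (sf_cons c2_2 (sf_cons c2_3 c2_4)),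
    sf_cons c3_1 (sf_cons c3_2 (sf_cons c3_3 c3_4)),
    sf_cons c4_1 (sf_cons c4_2 (sf_cons c4_3 c4_4))⟩

end Pool.Agent.AddSq.Co
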