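import Pool.Agent.AddSq.CorCons

/-!
# Kernel facts: correlations, group 22
-/

namespace Pool.Agent.AddSq.Co

set_option maxRecDepth 100000

def l22c_1 : List (Nat × Nat × Nat × Nat × Nat × Nat × Nat × List (Nat × Nat)) :=
   [(0, 0, 0, 0, 4195327, 20971520, 540, [(7168, 166)]),
    (4194304, 2200, 697, 4194304, 4195327, 20971520, 334, [(7168, 135)]),
    (8388608, 2896, 652, 8388608, 4195327, 20971520, 285, [(7168, 90)]),
    (12582912, 3547, 549, 12582912, 4195327, 4193280, 271, [(7168, 61)])]

def l22c_2 : List (Nat × Nat × Nat × Nat × Nat × Nat × Nat × List (Nat × Nat)) :=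
   [(0, 0, 0, 0, 4194303, 16777216, 540, []),
    (4194304, 2200, 697, 0, 4194303, 16777216, 334, []),
    (8388608, 2896, 652, 0, 4194303, 16777216, 285, []),
    (12582912, 3547, 549, 0, 4194303, 16777216, 271, [])]

def n22c : List (Nat × Nat × Nat × Nat) :=
   [(0, 0, 0, 33623),
    (1048576, 0, 0, 26842),
    (2097152, 0, 0, 24703),
    (3145728, 0, 0, 24397),
    (4194304, 2200, 90, 23446),
    (5242880, 2289, 220, 22843),
    (6291456, 2508, 202, 22573),
    (7340032, 2709, 188, 21963),
    (8388608, 2896, 176, 21092),
    (9437184, 3072, 167, 20757),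
    (10485760, 3238, 159, 20434),
    (11534336, 3396, 152, 19725),
    (12582912, 3547, 146, 19585),
    (13631488, 3692, 140, 19417),
    (14680064, 3831, 135, 19770),
    (15728640, 3965, 131, 19491)]

theorem ck22c : sf TL.WT TL.LT false true false 22 13 2200 2380 0 20971520 l22c_1 = true ∧
    sf TL.WT TL.LT false true false 22 12 4096 1697 16777216 16777216 l22c_2 = true ∧
    cfs TL.WT TL.LT 20 n22c = true := by
  have c1_1 : sf TL.WT TL.LT false true false 22 13 2200 2380 0 20971520
      [(0, 0, 0, 0, 4195327, 20971520, 540, [(7168, 166)])] = true := by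
    decide +kernel
  have c1_2 : sf TL.WT TL.LT false true false 22 13 2200 2380 0 20971520
      [(4194304, 2200, 697, 4194304, 4195327, 20971520, 334, [(7168, 135)])] = true := by
    decide +kernel
  have c1_3 : sf TL.WT TL.LT false true false 22 13 2200 2380 0 20971520
      [(8388608, 2896, 652, 8388608, 4195327, 20971520, 285, [(7168, 90)])] = true := by
    decide +kernel
  have c1_4 : sf TL.WT TL.LT false true false 22 13 2200 2380 0 20971520
      [(12582912, 3547, 549, 12582912, 4195327, 4193280, 271, [(7168, 61)])] = true := by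
    decide +kernel
  have c2_1 : sf TL.WT TL.LT false true false 22 12 4096 1697 16777216 16777216
      [(0, 0, 0, 0, 4194303, 16777216, 540, [])] = true := by
    decide +kernel
  have c2_2 : sf TL.WT TL.LT false true false 22 12 4096 1697 16777216 16777216
      [(4194304, 2200, 697, 0, 4194303, 16777216, 334, [])] = true := by
    decide +kernel
  have c2_3 : sf TL.WT TL.LT false true false 22 12 4096 1697 16777216 16777216
      [(8388608, 2896, 652, 0, 4194303, 16777216, 285, [])] = true := by
    decide +kernel
  have c2_4 : sf TL.WT TL.LT false true false 22 12 4096 1697 16777216 16777216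
      [(12582912, 3547, 549, 0, 4194303, 16777216, 271, [])] = true := by
    decide +kernel
  have c3_1 : cfs TL.WT TL.LT 20
      [(0, 0, 0, 33623), (1048576, 0, 0, 26842), (2097152, 0, 0, 24703), (3145728, 0, 0, 24397)] =
      true := by
    decide +kernel
  have c3_2 : cfs TL.WT TL.LT 20
      [(4194304, 2200, 90, 23446), (5242880, 2289, 220, 22843), (6291456, 2508, 202, 22573),
      (7340032, 2709, 188, 21963)] = true := by
    decide +kernel
  have c3_3 : cfs TL.WT TL.LT 20
      [(8388608, 2896, 176, 21092), (9437184, 3072, 167, 20757), (10485760, 3238, 159, 20434),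
      (11534336, 3396, 152, 19725)] = true := by
    decide +kernel
  have c3_4 : cfs TL.WT TL.LT 20
      [(12582912, 3547, 146, 19585), (13631488, 3692, 140, 19417), (14680064, 3831, 135, 19770),
      (15728640, 3965, 131, 19491)] = true := by
    decide +kernel
  exact ⟨sf_cons c1_1 (sf_cons c1_2 (sf_cons c1_3 c1_4)),
    sf_cons c2_1 (sf_cons c2_2 (sf_cons c2_3 c2_4)),
    cfs_append c3_1 (cfs_append c3_2 (cfs_append c3_3 c3_4))⟩

end Pool.Agent.AddSq.Co
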