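import Pool.Agent.AddSq.CorKern

/-!
# Kernel facts: correlations, group 23
-/

namespace Pool.Agent.AddSq.Co

set_option maxRecDepth 100000

def l23a_1 : List (Nat × Nat × Nat × Nat × Nat × Nat × Nat × List (Nat × Nat)) :=
   [(0, 0, 0, 0, 2098175, 18874368, 2515, [(15360, 1431), (8387583, 922)]),
    (2097152, 0, 0, 2097152, 2098175, 18874368, 1963, [(15360, 1933), (8387583, 295)]),
    (4194304, 2200, 309, 4194304, 2098175, 18874368, 1809, [(15360, 1941), (8387583, 166)]),
    (6291456, 2508, 389, 6291456, 2098175, 18874368, 1716, [(15360, 1776), (8387583, 126)])]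

def l23a_2 : List (Nat × Nat × Nat × Nat × Nat × Nat × Nat × List (Nat × Nat)) :=
   [(8388608, 2896, 343, 8388608, 2098175, 18874368, 1678, [(15360, 1614)]),
    (10485760, 3238, 310, 10485760, 2098175, 6290432, 1542, [(15360, 1718)]),
    (12582912, 3547, 285, 12582912, 2098175, 4193280, 1604, [(15360, 1454)]),
    (14680064, 3831, 265, 14680064, 2098175, 2096128, 1508, [(15360, 1378)])]

def l23a_3 : List (Nat × Nat × Nat × Nat × Nat × Nat × Nat × List (Nat × Nat)) :=
   [(0, 0, 0, 0, 2097151, 18874368, 2515, []),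
    (2097152, 0, 0, 0, 2097151, 18874368, 1963, []),
    (4194304, 2200, 309, 0, 2097151, 18874368, 1809, []),
    (6291456, 2508, 389, 0, 2097151, 18874368, 1716, [])]

def l23a_4 : List (Nat × Nat × Nat × Nat × Nat × Nat × Nat × List (Nat × Nat)) :=
   [(8388608, 2896, 343, 0, 2097151, 18874368, 1678, []),
    (10485760, 3238, 310, 0, 2097151, 18874368, 1506, [(2097151, 36)]),
    (12582912, 3547, 285, 0, 2097151, 18874368, 1494, [(4194303, 110)]),
    (14680064, 3831, 265, 0, 2097151, 18874368, 1508, [])]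

def l23a_5 : List (Nat × Nat × Nat × Nat × Nat × Nat × Nat × List (Nat × Nat)) :=
   [(16777216, 4096, 249, 0, 2098175, 18874368, 1411, [(15360, 1425), (8387583, 14)]),
    (18874368, 4344, 236, 2097152, 2098175, 18874368, 1424, [(15360, 1251)]),
    (20971520, 4579, 224, 4194304, 2098175, 18874368, 1400, [(15360, 1117), (8387583, 66)]),
    (23068672, 4802, 215, 6291456, 2098175, 18874368, 1338, [(15360, 1124), (8387583, 86)])]

theorem ck23a : sf TL.WT TL.LT true true false 21 13 2200 2145 0 18874368 l23a_1 = true ∧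
    sf TL.WT TL.LT true true false 21 13 2200 2145 0 18874368 l23a_2 = true ∧
    sf TL.WT TL.LT true true false 21 13 4096 1875 16777216 18874368 l23a_3 = true ∧
    sf TL.WT TL.LT true true false 21 13 4096 1875 16777216 18874368 l23a_4 = true ∧
    sf TL.WT TL.LT true true false 21 13 4096 1875 16777216 18874368 l23a_5 = true := by
  refine ⟨?_, ?_, ?_, ?_, ?_⟩ <;> decide +kernel

end Pool.Agent.AddSq.Co
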