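import Pool.Agent.AddSq.CorKern

/-!
# Kernel facts: correlations, group 23
-/

namespace Pool.Agent.AddSq.Co

set_option maxRecDepth 100000

def l23c_1 : List (Nat × Nat × Nat × Nat × Nat × Nat × Nat × List (Nat × Nat)) :=
   [(25165824, 5016, 206, 0, 2097151, 18874368, 1354, []),
    (27262976, 5221, 198, 0, 2097151, 18874368, 1319, [(2097151, 89)]),
    (29360128, 5418, 191, 0, 2097151, 18874368, 1296, [(4194303, 31)]),
    (31457280, 5608, 185, 0, 2097151, 18874368, 1289, [(6291455, 24)])]

def l23c_2 : List (Nat × Nat × Nat × Nat × Nat × Nat × Nat × List (Nat × Nat)) :=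
   [(0, 0, 0, 0, 2097151, 16777216, 2515, []),
    (2097152, 0, 0, 0, 2097151, 16777216, 1963, []),
    (4194304, 2200, 309, 0, 2097151, 16777216, 1809, []),
    (6291456, 2508, 389, 0, 2097151, 16777216, 1716, [])]

def l23c_3 : List (Nat × Nat × Nat × Nat × Nat × Nat × Nat × List (Nat × Nat)) :=
   [(8388608, 2896, 343, 0, 2097151, 16777216, 1678, []),
    (10485760, 3238, 310, 0, 2097151, 16777216, 1506, []),
    (12582912, 3547, 285, 0, 2097151, 16777216, 1494, []),
    (14680064, 3831, 265, 0, 2097151, 16777216, 1508, [])]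

def l23c_4 : List (Nat × Nat × Nat × Nat × Nat × Nat × Nat × List (Nat × Nat)) :=
   [(16777216, 4096, 249, 0, 2097151, 16777216, 1411, []),
    (18874368, 4344, 236, 0, 2097151, 16777216, 1424, []),
    (20971520, 4579, 224, 0, 2097151, 16777216, 1400, []),
    (23068672, 4802, 215, 0, 2097151, 16777216, 1338, [])]

theorem ck23c : sf TL.WT TL.LT true true false 21 13 5792 1449 33554432 18874368 l23c_1 = true ∧
    sf TL.WT TL.LT true true false 21 12 7094 1098 50331648 16777216 l23c_2 = true ∧
    sf TL.WT TL.LT true true false 21 12 7094 1098 50331648 16777216 l23c_3 = true ∧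
    sf TL.WT TL.LT true true false 21 12 7094 1098 50331648 16777216 l23c_4 = true := by
  refine ⟨?_, ?_, ?_, ?_⟩ <;> decide +kernel

end Pool.Agent.AddSq.Co
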