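import Pool.Agent.AddSq.CorKern

/-!
# Kernel facts: correlations, group 23
-/

namespace Pool.Agent.AddSq.Co

set_option maxRecDepth 100000

def l23d_1 : List (Nat × Nat × Nat × Nat × Nat × Nat × Nat × List (Nat × Nat)) :=
   [(25165824, 5016, 206, 0, 2097151, 16777216, 1354, []),
    (27262976, 5221, 198, 0, 2097151, 16777216, 1319, []),
    (29360128, 5418, 191, 0, 2097151, 16777216, 1296, []),
    (31457280, 5608, 185, 0, 2097151, 16777216, 1289, [])]

def l23d_2 : List (Nat × Nat × Nat × Nat × Nat × Nat × Nat × List (Nat × Nat)) :=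
   [(0, 2200, 697, 0, 8389631, 25165824, 797, [(15360, 417)]),
    (8388608, 2896, 1200, 8388608, 8389631, 8387584, 500, [(15360, 271)])]

def l23d_3 : List (Nat × Nat × Nat × Nat × Nat × Nat × Nat × List (Nat × Nat)) :=
   [(0, 2200, 697, 0, 8388607, 25165824, 797, []),
    (8388608, 2896, 1200, 0, 8388607, 25165824, 500, [])]

def l23d_4 : List (Nat × Nat × Nat × Nat × Nat × Nat × Nat × List (Nat × Nat)) :=
   [(16777216, 4096, 921, 0, 8389631, 25165824, 413, [(15360, 230)]),
    (25165824, 5016, 777, 8388608, 8389631, 8387584, 364, [(15360, 243)])]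

theorem ck23d : sf TL.WT TL.LT true true false 21 12 7094 1098 50331648 16777216 l23d_1 = true ∧
    sf TL.WT TL.LT true false true 23 13 2200 2817 0 25165824 l23d_2 = true ∧
    sf TL.WT TL.LT true false true 23 13 4096 2381 16777216 25165824 l23d_3 = true ∧
    sf TL.WT TL.LT true false true 23 13 4096 2381 16777216 25165824 l23d_4 = true := by
  refine ⟨?_, ?_, ?_, ?_⟩ <;> decide +kernel

end Pool.Agent.AddSq.Co
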