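import Pool.Agent.AddSq.CorKern

/-!
# Kernel facts: correlations, group 23
-/

namespace Pool.Agent.AddSq.Co

set_option maxRecDepth 100000

def l23e_1 : List (Nat × Nat × Nat × Nat × Nat × Nat × Nat × List (Nat × Nat)) :=
   [(0, 2200, 697, 0, 8388607, 25165824, 797, []),
    (8388608, 2896, 1200, 0, 8388607, 25165824, 500, [])]

def l23e_2 : List (Nat × Nat × Nat × Nat × Nat × Nat × Nat × List (Nat × Nat)) :=
   [(16777216, 4096, 921, 0, 8388607, 25165824, 413, []),
    (25165824, 5016, 777, 0, 8388607, 25165824, 364, [])]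

def l23e_3 : List (Nat × Nat × Nat × Nat × Nat × Nat × Nat × List (Nat × Nat)) :=
   [(0, 2200, 697, 0, 8388607, 16777216, 797, []),
    (8388608, 2896, 1200, 0, 8388607, 16777216, 500, [])]

def l23e_4 : List (Nat × Nat × Nat × Nat × Nat × Nat × Nat × List (Nat × Nat)) :=
   [(16777216, 4096, 921, 0, 8388607, 16777216, 413, []),
    (25165824, 5016, 777, 0, 8388607, 16777216, 364, [])]

def l23e_5 : List (Nat × Nat × Nat × Nat × Nat × Nat × Nat × List (Nat × Nat)) :=
   [(0, 2200, 697, 0, 8389631, 25165824, 820, [(15360, 355)]),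
    (8388608, 2896, 1200, 8388608, 8389631, 8387584, 493, [(15360, 203)])]

theorem ck23e : sf TL.WT TL.LT true false true 23 13 5792 1871 33554432 25165824 l23e_1 = true ∧
    sf TL.WT TL.LT true false true 23 13 5792 1871 33554432 25165824 l23e_2 = true ∧
    sf TL.WT TL.LT true false true 23 12 7094 1098 50331648 16777216 l23e_3 = true ∧
    sf TL.WT TL.LT true false true 23 12 7094 1098 50331648 16777216 l23e_4 = true ∧
    sf TL.WT TL.LT false true false 23 13 2200 2817 0 25165824 l23e_5 = true := by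
  refine ⟨?_, ?_, ?_, ?_, ?_⟩ <;> decide +kernel

end Pool.Agent.AddSq.Co
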