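import Pool.Agent.AddSq.CorKern

/-!
# Kernel facts: correlations, group 23
-/

namespace Pool.Agent.AddSq.Co

set_option maxRecDepth 100000

def l23f_1 : List (Nat × Nat × Nat × Nat × Nat × Nat × Nat × List (Nat × Nat)) :=
   [(0, 2200, 697, 0, 8388607, 25165824, 820, []),
    (8388608, 2896, 1200, 0, 8388607, 25165824, 493, [])]

def l23f_2 : List (Nat × Nat × Nat × Nat × Nat × Nat × Nat × List (Nat × Nat)) :=
   [(16777216, 4096, 921, 0, 8389631, 25165824, 418, [(15360, 145)]),
    (25165824, 5016, 777, 8388608, 8389631, 8387584, 369, [(15360, 89)])]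

def l23f_3 : List (Nat × Nat × Nat × Nat × Nat × Nat × Nat × List (Nat × Nat)) :=
   [(0, 2200, 697, 0, 8388607, 25165824, 820, []),
    (8388608, 2896, 1200, 0, 8388607, 25165824, 493, [])]

def l23f_4 : List (Nat × Nat × Nat × Nat × Nat × Nat × Nat × List (Nat × Nat)) :=
   [(16777216, 4096, 921, 0, 8388607, 25165824, 418, []),
    (25165824, 5016, 777, 0, 8388607, 25165824, 369, [])]

theorem ck23f : sf TL.WT TL.LT false true false 23 13 4096 2381 16777216 25165824 l23f_1 = true ∧
    sf TL.WT TL.LT false true false 23 13 4096 2381 16777216 25165824 l23f_2 = true ∧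
    sf TL.WT TL.LT false true false 23 13 5792 1871 33554432 25165824 l23f_3 = true ∧
    sf TL.WT TL.LT false true false 23 13 5792 1871 33554432 25165824 l23f_4 = true := by
  refine ⟨?_, ?_, ?_, ?_⟩ <;> decide +kernel

end Pool.Agent.AddSq.Co
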