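import Pool.Agent.AddSq.CorKern

/-!
# Kernel facts: correlations, group 23
-/

namespace Pool.Agent.AddSq.Co

set_option maxRecDepth 100000

def l23g_1 : List (Nat × Nat × Nat × Nat × Nat × Nat × Nat × List (Nat × Nat)) :=
   [(0, 2200, 697, 0, 8388607, 16777216, 820, []),
    (8388608, 2896, 1200, 0, 8388607, 16777216, 493, [])]

def l23g_2 : List (Nat × Nat × Nat × Nat × Nat × Nat × Nat × List (Nat × Nat)) :=
   [(16777216, 4096, 921, 0, 8388607, 16777216, 418, []),
    (25165824, 5016, 777, 0, 8388607, 16777216, 369, [])]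

def n23g : List (Nat × Nat × Nat × Nat) :=
   [(0, 0, 0, 60465),
    (2097152, 0, 0, 49100),
    (4194304, 2200, 309, 46289),
    (6291456, 2508, 389, 44536),
    (8388608, 2896, 343, 41849),
    (10485760, 3238, 310, 40159),
    (12582912, 3547, 285, 39002),
    (14680064, 3831, 265, 39261),
    (16777216, 4096, 249, 38652),
    (18874368, 4344, 236, 37968),
    (20971520, 4579, 224, 37562),
    (23068672, 4802, 215, 37003),
    (25165824, 5016, 206, 36704),
    (27262976, 5221, 198, 36199),
    (29360128, 5418, 191, 35120),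
    (31457280, 5608, 185, 34607)]

theorem ck23g : sf TL.WT TL.LT false true false 23 12 7094 1098 50331648 16777216 l23g_1 = true ∧
    sf TL.WT TL.LT false true false 23 12 7094 1098 50331648 16777216 l23g_2 = true ∧
    cfs TL.WT TL.LT 21 n23g = true := by
  refine ⟨?_, ?_, ?_⟩ <;> decide +kernel

end Pool.Agent.AddSq.Co
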