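import Pool.Agent.AddSq.CertTab

/-!
# The finite certificate for active sets (MP_006ce8_co)

`active_sum1`, `active_sum1_neg`, `active_sum2`: the sums of the weights over the active sets.
-/

namespace Pool.Agent.AddSq

open Finset

theorem tl_le (d : ℤ) : (tl d : ℝ) ≤ 10 ^ 9 * tt d := (tl_bounds d).1

theorem tt_le (d : ℤ) : 10 ^ 9 * tt d ≤ tl d + 1 := (tl_bounds d).2

theorem tt_le_one (d : ℤ) : tt d ≤ 1 := (tt_bounds d).2

theorem tt_nonneg (d : ℤ) : 0 ≤ tt d := (tt_bounds d).1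

/-- `t(d) ≥ .00505` on `Dset` -/
theorem tt_ge {d : ℤ} (hd : d ∈ Dset) : 0.005050633 ≤ tt d := by
  have h := tl_le d
  have h0 : (5050633 : ℝ) ≤ tl d := by exact_mod_cast tl_ge hd
  norm_num
  linarith

theorem tt_pos {d : ℤ} (hd : d ∈ Dset) : 0 < tt d := by
  have h := tt_ge hd
  norm_num at h
  linarith

/-- the `d` of larger `t` is near the `i` of smaller `t` if both are active -/
theorem near_of_active {K κ κ' h : ℝ} {i d : ℤ} (hK : 5000000 ≤ K) (h1 : K - 100 ≤ κ)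
    (h2 : κ' ≤ 5 / 3 * K + 100) (h3 : |h - 2 * Real.sqrt 2 * tt d * κ| ≤ 5000)
    (h4 : |h - 2 * Real.sqrt 2 * tt i * κ'| ≤ 5000) (h5 : tl i ≤ tl d) : near i d = true := by
  have s1 : (1.414 : ℝ) ≤ Real.sqrt 2 := by
    apply Real.le_sqrt_of_sq_le; norm_num
  have s0 : (0 : ℝ) < Real.sqrt 2 := by linarith
  have td := tt_nonneg d
  have ti := tt_nonneg i
  have td1 := tt_le_one d
  have ti1 := tt_le_one i
  have e1 : 2 * Real.sqrt 2 * tt d * κ ≤ h + 5000 := by
    have := (abs_le.1 h3).1; linarith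
  have e2 : h - 5000 ≤ 2 * Real.sqrt 2 * tt i * κ' := by
    have := (abs_le.1 h4).2; linarith
  have e3 : 2 * Real.sqrt 2 * tt d * (K - 100) ≤ 2 * Real.sqrt 2 * tt d * κ :=
    mul_le_mul_of_nonneg_left h1 (by positivity)
  have e4 : 2 * Real.sqrt 2 * tt i * κ' ≤ 2 * Real.sqrt 2 * tt i * (5 / 3 * K + 100) :=
    mul_le_mul_of_nonneg_left h2 (by positivity)
  have e5 : Real.sqrt 2 * (3 * tt d * (K - 100)) ≤
      Real.sqrt 2 * (tt i * (5 * K + 300)) + 15000 := by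
    nlinarith
  have e6 : (15000 : ℝ) ≤ Real.sqrt 2 * 10609 := by nlinarith
  have e7 : 3 * tt d * (K - 100) ≤ tt i * (5 * K + 300) + 10609 := by
    have : Real.sqrt 2 * (3 * tt d * (K - 100)) ≤
        Real.sqrt 2 * (tt i * (5 * K + 300) + 10609) := by linarith
    exact le_of_mul_le_mul_left this s0
  have e8 : 3 * tt d * K ≤ 5 * tt i * K + 11209 := by nlinarith
  have e9 : 3 * tt d ≤ 5 * tt i + 0.0022418 := by
    have hKpos : 0 < K := by linarith
    have : (3 * tt d) * K ≤ (5 * tt i + 0.0022418) * K := by nlinarith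
    exact le_of_mul_le_mul_right this hKpos
  have f1 := tl_le d
  have f2 := tt_le i
  have e10 : (3 : ℝ) * tl d ≤ 5 * tl i + 3000000 := by nlinarith
  have e11 : 3 * tl d ≤ 5 * tl i + 3000000 := by exact_mod_cast e10
  unfold near
  rw [Bool.and_eq_true, decide_eq_true_eq, decide_eq_true_eq]
  exact ⟨h5, e11⟩

/-- `d` is active for `h` in a window starting at `K` -/
def Active (K : ℝ) (h : ℝ) (d : ℤ) : Prop :=
  ∃ κ : ℝ, K - 100 ≤ κ ∧ κ ≤ 5 / 3 * K + 100 ∧ |h - 2 * Real.sqrt 2 * tt d * κ| ≤ 5000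

/-- lag one: the weights of an active set -/
theorem active_sum1 {K : ℝ} (hK : 5000000 ≤ K) (h : ℤ) (T : Finset ℤ)
    (hT : ∀ d ∈ T, d ∈ Dset ∧ cls d h = true ∧ Active K h d) : ∑ d ∈ T, W1 d ≤ 5172 := by
  rcases T.eq_empty_or_nonempty with rfl | hne
  · simp
  obtain ⟨i, hi, hmin⟩ := T.exists_min_image tl hne
  obtain ⟨hiD, -, κ', hk1, hk2, hk3⟩ := hT i hi
  refine le_trans ?_ (cert1 h i hiD)
  have hsub : T ⊆ Dset := fun d hd => (hT d hd).1
  calc ∑ d ∈ T, W1 d = ∑ d ∈ T, (if cls d h && near i d then W1 d else 0) := by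
        refine Finset.sum_congr rfl (fun d hd => ?_)
        obtain ⟨-, hc, κ, hl1, hl2, hl3⟩ := hT d hd
        rw [hc, near_of_active hK hl1 hk2 hl3 hk3 (hmin d hd)]
        exact (if_pos rfl).symm
    _ ≤ ∑ d ∈ Dset, (if cls d h && near i d then W1 d else 0) :=
        Finset.sum_le_sum_of_subset hsub

/-- the mirror image of `active_sum1` (negative differences) -/
theorem active_sum1_neg {K : ℝ} (hK : 5000000 ≤ K) (h : ℤ) (T : Finset ℤ)
    (hT : ∀ d ∈ T, -d ∈ Dset ∧ cls (-d) (-h) = true ∧ Active K ((-h : ℤ) : ℝ) (-d)) :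
    ∑ d ∈ T, W1 (-d) ≤ 5172 := by
  have hinj : Set.InjOn (fun d : ℤ => -d) (T : Set ℤ) := fun a _ b _ hab => neg_injective hab
  have h1 := active_sum1 hK (-h) (T.image (fun d : ℤ => -d)) (by
    intro d hd
    obtain ⟨e, he, rfl⟩ := Finset.mem_image.1 hd
    exact hT e he)
  rwa [Finset.sum_image hinj] at h1

/-- lag two: the weights of two active sets (`T1`: equal types, `T2`: types `(-1, 0)`) -/
theorem active_sum2 {K : ℝ} (hK : 5000000 ≤ K) (h : ℤ) (T1 T2 : Finset ℤ)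
    (hT1 : ∀ d ∈ T1, d ∈ Dset ∧ cls d h = true ∧ Active K h d)
    (hT2 : ∀ d ∈ T2, d ∈ Dset ∧ cls d (h - 1) = true ∧ Active K h d) :
    ∑ d ∈ T1, W2s d + ∑ d ∈ T2, W2c d ≤ 5720 := by
  rcases (T1 ∪ T2).eq_empty_or_nonempty with he | hne
  · obtain ⟨rfl, rfl⟩ := Finset.union_eq_empty.1 he
    simp
  obtain ⟨i, hi, hmin⟩ := (T1 ∪ T2).exists_min_image tl hne
  have hiA : i ∈ Dset ∧ Active K h i := by
    rcases Finset.mem_union.1 hi with hi | hi
    · exact ⟨(hT1 i hi).1, (hT1 i hi).2.2⟩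
    · exact ⟨(hT2 i hi).1, (hT2 i hi).2.2⟩
  obtain ⟨hiD, κ', hk1, hk2, hk3⟩ := hiA
  have hsub1 : T1 ⊆ Dset := fun d hd => (hT1 d hd).1
  have hsub2 : T2 ⊆ Dset := fun d hd => (hT2 d hd).1
  have g1 : ∑ d ∈ T1, W2s d ≤ ∑ d ∈ Dset, (if cls d h && near i d then W2s d else 0) := by
    calc ∑ d ∈ T1, W2s d = ∑ d ∈ T1, (if cls d h && near i d then W2s d else 0) := by
          refine Finset.sum_congr rfl (fun d hd => ?_)
          obtain ⟨-, hc, κ, hl1, hl2, hl3⟩ := hT1 d hd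
          rw [hc, near_of_active hK hl1 hk2 hl3 hk3 (hmin d (Finset.mem_union_left _ hd))]
          exact (if_pos rfl).symm
      _ ≤ ∑ d ∈ Dset, (if cls d h && near i d then W2s d else 0) :=
          Finset.sum_le_sum_of_subset hsub1
  have g2 : ∑ d ∈ T2, W2c d ≤
      ∑ d ∈ Dset, (if cls d (h - 1) && near i d then W2c d else 0) := by
    calc ∑ d ∈ T2, W2c d = ∑ d ∈ T2, (if cls d (h - 1) && near i d then W2c d else 0) := by
          refine Finset.sum_congr rfl (fun d hd => ?_)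
          obtain ⟨-, hc, κ, hl1, hl2, hl3⟩ := hT2 d hd
          rw [hc, near_of_active hK hl1 hk2 hl3 hk3 (hmin d (Finset.mem_union_right _ hd))]
          exact (if_pos rfl).symm
      _ ≤ ∑ d ∈ Dset, (if cls d (h - 1) && near i d then W2c d else 0) :=
          Finset.sum_le_sum_of_subset hsub2
  refine le_trans (add_le_add g1 g2) ?_
  rw [← Finset.sum_add_distrib]
  exact cert2 h i hiD

end Pool.Agent.AddSq
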