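import Pool.Agent.AddSq.Asm

/-!
# Kernel checks: closure of a literal table
-/

namespace Pool.Agent.AddSq

/-- `a ⊆ b` as bit sets -/
def subb (a b : ℕ) : Bool := Nat.beq (Nat.land a b) a

theorem subb_spec {a b : ℕ} (h : subb a b = true) {i : ℕ} (hi : a.testBit i = true) :
    b.testBit i = true := by
  have h1 : a &&& b = a := Nat.eq_of_beq_eq_true h
  have h2 : (a &&& b).testBit i = true := by rw [h1]; exact hi
  rw [Nat.testBit_and, Bool.and_eq_true] at h2
  exact h2.2

/-- `g p` for all `1 ≤ p ≤ K` -/
noncomputable def allb (g : ℕ → Bool) (K : ℕ) : Bool :=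
  @Nat.rec (fun _ => Bool) true
    (fun p ih => @Bool.rec (fun _ => Bool) false ih (g (Nat.succ p))) K

theorem allb_spec {g : ℕ → Bool} {K : ℕ} (h : allb g K = true) :
    ∀ p, 1 ≤ p → p ≤ K → g p = true := by
  induction K with
  | zero => intro p h1 h2; omega
  | succ K ih =>
    have e : allb g (K + 1) =
      @Bool.rec (fun _ => Bool) false (allb g K) (g (Nat.succ K)) := rfl
    rw [e] at h
    cases hg : g (Nat.succ K) with
    | false => rw [hg] at h; exact Bool.noConfusion h
    | true =>
      rw [hg] at h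
      intro p h1 h2
      rcases Nat.lt_or_ge K p with h3 | h3
      · have : p = Nat.succ K := by omega
        rw [this]; exact hg
      · exact ih h p h1 h3

/-- the block of `f` is contained in the table `x` -/
noncomputable def blockIn (f : ℕ → ℕ → ℕ → ℕ) (x p : ℕ) : Bool :=
  subb (whole f p) (Nat.shiftRight x (sqr p))

theorem blockIn_spec {f : ℕ → ℕ → ℕ → ℕ} {x p i : ℕ} (h : blockIn f x p = true)
    (hi : (f p 0 (2 * p + 1)).testBit i = true) : x.testBit (p * p + i) = true := by
  have h1 := subb_spec h (i := i) hi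
  change (x >>> (p * p)).testBit i = true at h1
  rw [Nat.testBit_shiftRight] at h1
  exact h1

theorem tab_base {w l K d : ℕ} (hK : 2 * last K (2 * d + 1) + 1 ≤ K * K)
    (hK2 : last K (2 * d + 1) ≤ 2 ^ 31) (h0 : l.testBit 0 = true)
    (hL : allb (blockIn (LL w l d) l) (K - 1) = true)
    (hW : allb (blockIn (WW w l d) w) (K - 1) = true) :
    Tab w l Win Lost (K * K) :=
  closure_win_lost hK hK2 h0
    (fun p h1 h2 _ _ h => blockIn_spec (allb_spec hL p h1 (by omega)) h)
    (fun p h1 h2 _ _ h => blockIn_spec (allb_spec hW p h1 (by omega)) h)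

end Pool.Agent.AddSq
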