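import Pool.Agent.AddSq.Defs

/-!
# Certified tables: sets closed under the rules truncated at depth `J` contain all wins and all
lost positions.

`WR J W L n` is the condition that `n` can be a win, looked at through the remainders `r₀, …, r_(J-1)`
only; `LR J W L n` is the condition that `n` can be lost.
-/

namespace Pool.Agent.AddSq

mutual
/-- truncated win rule of depth `j` -/
def WR (W L : ℕ → Prop) : ℕ → ℕ → Prop
  | 0, _ => True
  | j + 1, n => L (rem n) ∨ LR W L j (up n)
/-- truncated loss rule of depth `j` -/
def LR (W L : ℕ → Prop) : ℕ → ℕ → Prop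
  | 0, _ => True
  | j + 1, n => W (rem n) ∧ WR W L j (up n)
end

theorem WR_zero (W L : ℕ → Prop) (n : ℕ) : WR W L 0 n := by simp [WR]
theorem LR_zero (W L : ℕ → Prop) (n : ℕ) : LR W L 0 n := by simp [LR]
theorem WR_succ (W L : ℕ → Prop) (j n : ℕ) : WR W L (j + 1) n ↔ (L (rem n) ∨ LR W L j (up n)) := by
  simp [WR]
theorem LR_succ (W L : ℕ → Prop) (j n : ℕ) : LR W L (j + 1) n ↔ (W (rem n) ∧ WR W L j (up n)) := by
  simp [LR]

/-- The remainders of `n`, the orbit being `up^[i] n`. -/
theorem rule_aux (T : ℕ) (W L : ℕ → Prop) :
    ∀ (j s m : ℕ), (∀ t ≤ s, (∀ n < T, WinIn t n → W n) ∧ (∀ n < T, LostIn t n → L n)) →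
      (∀ i < j, rem (up^[i] m) < T) →
      (WinIn s m → WR W L j m) ∧ (1 ≤ m → LostIn s m → LR W L j m) := by
  intro j
  induction j with
  | zero => intro s m _ _; exact ⟨fun _ => WR_zero W L m, fun _ _ => LR_zero W L m⟩
  | succ j ih =>
    intro s m hC hr
    have hr0 : rem m < T := by simpa using hr 0 (by omega)
    have hr1 : ∀ i < j, rem (up^[i] (up m)) < T := fun i hi => by
      have := hr (i + 1) (by omega)
      rwa [Function.iterate_succ_apply] at this
    constructor
    · intro hw
      obtain ⟨h1, h2 | h2⟩ := winIn_iff.mp hw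
      · exact (WR_succ W L j m).mpr (Or.inl ((hC s le_rfl).2 _ hr0 h2))
      · exact (WR_succ W L j m).mpr (Or.inr ((ih s (up m) hC hr1).2 (up_pos h1) h2))
    · intro hm hl
      cases s with
      | zero =>
        have : m = 0 := hl
        omega
      | succ s =>
        rcases lostIn_succ_iff.mp hl with h | ⟨ha, hb⟩
        · omega
        · have hC' : ∀ t ≤ s, (∀ n < T, WinIn t n → W n) ∧ (∀ n < T, LostIn t n → L n) :=
            fun t ht => hC t (by omega)
          exact (LR_succ W L j m).mpr
            ⟨(hC s (by omega)).1 _ hr0 ha, (ih s (up m) hC' hr1).1 hb⟩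

/-- Two predicates which are closed below `T` under the truncated rules contain all wins and all
lost positions below `T`. -/
theorem closure_bound (T J : ℕ) (W L : ℕ → Prop)
    (hr : ∀ n < T, ∀ i < J + 1, rem (up^[i] n) < T)
    (h0 : L 0)
    (hL : ∀ n, 1 ≤ n → n < T → LR W L J n → L n)
    (hW : ∀ n, 1 ≤ n → n < T → WR W L (J + 1) n → W n) :
    (∀ n < T, Win n → W n) ∧ (∀ n < T, Lost n → L n) := by
  have key : ∀ t, (∀ n < T, WinIn t n → W n) ∧ (∀ n < T, LostIn t n → L n) := by
    intro t
    induction t using Nat.strong_induction_on with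
    | _ t ih =>
      have hLt : ∀ n < T, LostIn t n → L n := by
        intro n hn h
        rcases Nat.eq_zero_or_pos n with hz | hp
        · subst hz; exact h0
        · cases J with
          | zero => exact hL n hp hn (LR_zero W L n)
          | succ J =>
            cases t with
            | zero =>
              have : n = 0 := h
              omega
            | succ t =>
              rcases lostIn_succ_iff.mp h with h | ⟨ha, hb⟩
              · omega
              · have hC : ∀ s ≤ t, (∀ n < T, WinIn s n → W n) ∧ (∀ n < T, LostIn s n → L n) :=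
                  fun s hs => ih s (by omega)
                have hr0 : rem n < T := by simpa using hr n hn 0 (by omega)
                have hr1 : ∀ i < J, rem (up^[i] (up n)) < T := fun i hi => by
                  have := hr n hn (i + 1) (by omega)
                  rwa [Function.iterate_succ_apply] at this
                exact hL n hp hn ((LR_succ W L J n).mpr
                  ⟨(hC t le_rfl).1 _ hr0 ha, (rule_aux T W L J t (up n) hC hr1).1 hb⟩)
      refine ⟨?_, hLt⟩
      intro n hn h
      have hC : ∀ s ≤ t, (∀ n < T, LostIn s n → L n) := fun s hs => by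
        rcases Nat.lt_or_ge s t with h1 | h1
        · exact (ih s h1).2
        · have : s = t := by omega
          subst this; exact hLt
      have hr0 : rem n < T := by simpa using hr n hn 0 (by omega)
      have hr1 : ∀ i < J, rem (up^[i] (up n)) < T := fun i hi => by
        have := hr n hn (i + 1) (by omega)
        rwa [Function.iterate_succ_apply] at this
      obtain ⟨h1, h2 | h2⟩ := winIn_iff.mp h
      · exact hW n h1 hn ((WR_succ W L J n).mpr (Or.inl (hLt _ hr0 h2)))
      · refine hW n h1 hn ((WR_succ W L J n).mpr (Or.inr ?_))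
        -- `LostIn t (up n)`
        cases J with
        | zero => exact LR_zero W L _
        | succ J =>
          cases t with
          | zero =>
            have h3 : up n = 0 := h2
            have := up_pos h1
            omega
          | succ t =>
            rcases lostIn_succ_iff.mp h2 with h | ⟨ha, hb⟩
            · have := up_pos h1
              omega
            · have hC' : ∀ s ≤ t, (∀ n < T, WinIn s n → W n) ∧ (∀ n < T, LostIn s n → L n) :=
                fun s hs => ih s (by omega)
              have hr1' : rem (up n) < T := by simpa using hr1 0 (by omega)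
              have hr2 : ∀ i < J, rem (up^[i] (up (up n))) < T := fun i hi => by
                have := hr1 (i + 1) (by omega)
                rwa [Function.iterate_succ_apply] at this
              exact (LR_succ W L J (up n)).mpr
                ⟨(hC' t le_rfl).1 _ hr1' ha, (rule_aux T W L J t (up (up n)) hC' hr2).1 hb⟩
  exact ⟨fun n hn ⟨t, h⟩ => (key t).1 n hn h, fun n hn ⟨t, h⟩ => (key t).2 n hn h⟩

/-- The truncated rules hold for wins and lost positions, when the table is valid for the
remainders. -/
theorem rule_of_win (T : ℕ) (W L : ℕ → Prop) (hW : ∀ n < T, Win n → W n)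
    (hL : ∀ n < T, Lost n → L n) (j m : ℕ) (hr : ∀ i < j, rem (up^[i] m) < T) :
    (Win m → WR W L j m) ∧ (1 ≤ m → Lost m → LR W L j m) := by
  have hC : ∀ s, ∀ t ≤ s, (∀ n < T, WinIn t n → W n) ∧ (∀ n < T, LostIn t n → L n) :=
    fun s t _ => ⟨fun n hn h => hW n hn ⟨t, h⟩, fun n hn h => hL n hn ⟨t, h⟩⟩
  refine ⟨?_, ?_⟩
  · rintro ⟨t, h⟩
    exact (rule_aux T W L j t m (hC t) hr).1 h
  · rintro h1 ⟨t, h⟩
    exact (rule_aux T W L j t m (hC t) hr).2 h1 h

end Pool.Agent.AddSq
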