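import Pool.Agent.AddSq.Gen

/-!
# The computable supersets of the wins and of the lost positions

`wl n = (W, L)`: below `2200²` these are the true values (a finite table), and from `2200²` on
they are computed from the values at the smaller positions `r₀, r₁, …, r₅` with the rules
truncated at `r₄` (lost) and `r₅` (win).  The function `wl` is primitive recursive.
-/

namespace Pool.Agent.AddSq

/-- the bound below which the true values are used -/
def N0 : ℕ := 2200 * 2200

/-- the truncated rule for a lost position -/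
def ruleL (g : ℕ → Bool × Bool) (n : ℕ) : Bool :=
  (g (rem n)).1 && ((g (rem (up n))).2 || ((g (rem (up (up n)))).1 &&
    ((g (rem (up (up (up n))))).2 || (g (rem (up (up (up (up n)))))).1)))

/-- the truncated rule for a win -/
def ruleW (g : ℕ → Bool × Bool) (n : ℕ) : Bool := (g (rem n)).2 || ruleL g (up n)

open Classical in
/-- the true values -/
noncomputable def T0 (n : ℕ) : Bool × Bool := (decide (Win n), decide (Lost n))

/-- the pair of the supersets (wins, lost positions) -/
noncomputable def wl (n : ℕ) : Bool × Bool :=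
  if n < N0 then T0 n else
    (ruleW (fun m => if _h : m < n then wl m else (false, false)) n,
      ruleL (fun m => if _h : m < n then wl m else (false, false)) n)
termination_by n

theorem wl_small' {n : ℕ} (h : n < N0) : wl n = T0 n := by
  rw [wl, if_pos h]

theorem up_le_two (n : ℕ) : up n ≤ 2 * n := by
  have := sq_le n
  unfold up
  omega

theorem le_up (n : ℕ) : n ≤ up n := by
  unfold up
  omega

theorem rem_lt_of {m n : ℕ} (h : 4 * m < n * n) : rem m < n := by
  have h1 := rem_le_two_sqrt m
  have h2 := Nat.sqrt_le m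
  by_contra hc
  have h3 : n ≤ 2 * Nat.sqrt m := by omega
  have h4 : n * n ≤ (2 * Nat.sqrt m) * (2 * Nat.sqrt m) := Nat.mul_le_mul h3 h3
  nlinarith

theorem rem_lt_aux {m n : ℕ} (hn : N0 ≤ n) (h : m ≤ 32 * n) : rem m < n := by
  apply rem_lt_of
  have h1 : 2200 * 2200 ≤ n := hn
  nlinarith

theorem ruleL_congr {g g' : ℕ → Bool × Bool} {n N : ℕ} (hN : N0 ≤ N) (hn : n ≤ 2 * N)
    (h : ∀ m < N, g m = g' m) : ruleL g n = ruleL g' n := by
  have u1 := up_le_two n
  have u2 := up_le_two (up n)
  have u3 := up_le_two (up (up n))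
  have u4 := up_le_two (up (up (up n)))
  unfold ruleL
  rw [h (rem n) (rem_lt_aux hN (by omega)), h (rem (up n)) (rem_lt_aux hN (by omega)),
    h (rem (up (up n))) (rem_lt_aux hN (by omega)),
    h (rem (up (up (up n)))) (rem_lt_aux hN (by omega)),
    h (rem (up (up (up (up n))))) (rem_lt_aux hN (by omega))]

theorem ruleW_congr {g g' : ℕ → Bool × Bool} {N : ℕ} (hN : N0 ≤ N)
    (h : ∀ m < N, g m = g' m) : ruleW g N = ruleW g' N := by
  unfold ruleW
  rw [h (rem N) (rem_lt_aux hN (by omega)), ruleL_congr hN (up_le_two N) h]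

theorem wl_big {n : ℕ} (h : N0 ≤ n) : wl n = (ruleW wl n, ruleL wl n) := by
  have key : ∀ m < n, (fun m => if _h : m < n then wl m else (false, false)) m = wl m := by
    intro m hm
    simp only [dif_pos hm]
  rw [wl, if_neg (not_lt.mpr h), ruleW_congr h key, ruleL_congr h (by omega) key]

/-- the superset of the wins -/
def Wp (n : ℕ) : Prop := (wl n).1 = true

/-- the superset of the lost positions -/
def Lp (n : ℕ) : Prop := (wl n).2 = true

theorem wp_small {n : ℕ} (h : n < N0) : Wp n ↔ Win n := by
  unfold Wp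
  rw [wl_small' h]
  simp [T0]

theorem lp_small {n : ℕ} (h : n < N0) : Lp n ↔ Lost n := by
  unfold Lp
  rw [wl_small' h]
  simp [T0]

theorem ruleL_wl (n : ℕ) : ruleL wl n = true ↔ (Wp (rem n) ∧ (Lp (rem (up n)) ∨
    (Wp (rem (up (up n))) ∧ (Lp (rem (up (up (up n)))) ∨ Wp (rem (up (up (up (up n))))))))) := by
  simp [ruleL, Wp, Lp]

theorem lp_big {n : ℕ} (h : N0 ≤ n) : Lp n ↔ (Wp (rem n) ∧ (Lp (rem (up n)) ∨
    (Wp (rem (up (up n))) ∧ (Lp (rem (up (up (up n)))) ∨ Wp (rem (up (up (up (up n))))))))) := by
  rw [← ruleL_wl]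
  unfold Lp
  rw [wl_big h]

theorem wp_big {n : ℕ} (h : N0 ≤ n) : Wp n ↔ (Lp (rem n) ∨ Lp (up n)) := by
  have h2 : N0 ≤ up n := h.trans (le_up n)
  unfold Wp
  rw [wl_big h]
  simp only [ruleW, Bool.or_eq_true]
  apply or_congr Iff.rfl
  rw [lp_big h2, ruleL_wl]

/-! ### The supersets -/

/-- the truncated rule for the true lost positions -/
theorem lost_rule {n : ℕ} (hn : 1 ≤ n) (h : Lost n) : Win (rem n) ∧ (Lost (rem (up n)) ∨
    (Win (rem (up (up n))) ∧ (Lost (rem (up (up (up n)))) ∨ Win (rem (up (up (up (up n)))))))) := by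
  have key : ∀ m : ℕ, 1 ≤ m → Lost m → Win (rem m) ∧ (Lost (rem (up m)) ∨ Lost (up (up m))) := by
    intro m hm hl
    rcases lost_iff.mp hl with h0 | ⟨h1, h2⟩
    · omega
    · exact ⟨h1, (win_iff.mp h2).2⟩
  obtain ⟨h1, h2⟩ := key n hn h
  refine ⟨h1, h2.imp id fun h3 => ?_⟩
  have p2 : 1 ≤ up (up n) := up_pos (up_pos hn)
  obtain ⟨h4, h5⟩ := key _ p2 h3
  refine ⟨h4, h5.imp id fun h6 => ?_⟩
  exact (key _ (up_pos (up_pos p2)) h6).1

theorem super (n : ℕ) : (Win n → Wp n) ∧ (Lost n → Lp n) := by
  induction n using Nat.strong_induction_on with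
  | _ n ih =>
    by_cases hn : n < N0
    · exact ⟨(wp_small hn).mpr, (lp_small hn).mpr⟩
    · have hN : N0 ≤ n := not_lt.mp hn
      have hpos : 1 ≤ n := le_trans (by norm_num [N0]) hN
      have L : ∀ m : ℕ, 1 ≤ m → m ≤ 2 * n → Lost m → Wp (rem m) ∧ (Lp (rem (up m)) ∨
          (Wp (rem (up (up m))) ∧ (Lp (rem (up (up (up m)))) ∨
            Wp (rem (up (up (up (up m)))))))) := by
        intro m hm hmn hl
        have u1 := up_le_two m
        have u2 := up_le_two (up m)
        have u3 := up_le_two (up (up m))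
        have u4 := up_le_two (up (up (up m)))
        obtain ⟨h1, h2⟩ := lost_rule hm hl
        refine ⟨(ih _ (rem_lt_aux hN (by omega))).1 h1, ?_⟩
        refine h2.imp (fun h => (ih _ (rem_lt_aux hN (by omega))).2 h) fun h => ?_
        refine ⟨(ih _ (rem_lt_aux hN (by omega))).1 h.1, ?_⟩
        exact h.2.imp (fun h => (ih _ (rem_lt_aux hN (by omega))).2 h)
          fun h => (ih _ (rem_lt_aux hN (by omega))).1 h
      constructor
      · intro hw
        rw [wp_big hN]
        rcases (win_iff.mp hw).2 with h | h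
        · exact Or.inl ((ih _ (rem_lt_aux hN (by omega))).2 h)
        · right
          rw [lp_big (hN.trans (le_up n))]
          exact L _ (up_pos hpos) (up_le_two n) h
      · intro hl
        rw [lp_big hN]
        exact L n hpos (by omega) hl

theorem win_wp {n : ℕ} (h : Win n) : Wp n := (super n).1 h

theorem lost_lp {n : ℕ} (h : Lost n) : Lp n := (super n).2 h

/-- the supersets satisfy the rules used by the counting argument -/
theorem grules_wl : GRules Wp Lp where
  l0 := lost_lp lost_zero
  wpos := by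
    intro n h
    by_contra hc
    have h0 : n = 0 := by omega
    subst h0
    exact not_win_zero ((wp_small (by norm_num [N0])).mp h)
  w := by
    intro n hn h
    by_cases hN : n < N0
    · have hw := (wp_small hN).mp h
      exact (win_iff.mp hw).2.imp lost_lp lost_lp
    · exact (wp_big (not_lt.mp hN)).mp h
  l := by
    intro n hn h
    by_cases hN : n < N0
    · obtain ⟨h1, h2⟩ := lost_rule hn ((lp_small hN).mp h)
      exact ⟨win_wp h1, h2.imp lost_lp fun h3 => ⟨win_wp h3.1, h3.2.imp lost_lp win_wp⟩⟩
    · exact (lp_big (not_lt.mp hN)).mp h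
  small := fun n hn => ⟨(wp_small hn).mp, (lp_small hn).mp⟩

/-! ### Computability -/

theorem rem_primrec : Primrec rem :=
  (Primrec.nat_sub.comp Primrec.id (Primrec.nat_mul.comp Primrec.nat_sqrt Primrec.nat_sqrt)).of_eq
    fun _ => rfl

theorem up_primrec : Primrec up :=
  (Primrec.nat_add.comp Primrec.id (Primrec.nat_mul.comp Primrec.nat_sqrt Primrec.nat_sqrt)).of_eq
    fun _ => rfl

/-- the values given by a list -/
def lk (l : List (Bool × Bool)) (m : ℕ) : Bool × Bool := l.getD m (false, false)

theorem lk_primrec : Primrec₂ lk := Primrec.list_getD (false, false)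

theorem ruleL_primrec : Primrec₂ (fun (l : List (Bool × Bool)) (n : ℕ) => ruleL (lk l) n) := by
  have g : ∀ {f : List (Bool × Bool) × ℕ → ℕ}, Primrec f → Primrec fun p => lk p.1 (rem (f p)) :=
    fun hf => lk_primrec.comp Primrec.fst (rem_primrec.comp hf)
  have s0 : Primrec (fun p : List (Bool × Bool) × ℕ => p.2) := Primrec.snd
  have s1 := up_primrec.comp s0
  have s2 := up_primrec.comp s1
  have s3 := up_primrec.comp s2
  have s4 := up_primrec.comp s3
  exact Primrec.and.comp (Primrec.fst.comp (g s0)) (Primrec.or.comp (Primrec.snd.comp (g s1))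
    (Primrec.and.comp (Primrec.fst.comp (g s2)) (Primrec.or.comp (Primrec.snd.comp (g s3))
      (Primrec.fst.comp (g s4)))))

theorem ruleW_primrec : Primrec₂ (fun (l : List (Bool × Bool)) (n : ℕ) => ruleW (lk l) n) :=
  Primrec.or.comp (Primrec.snd.comp (lk_primrec.comp Primrec.fst (rem_primrec.comp Primrec.snd)))
    (ruleL_primrec.comp Primrec.fst (up_primrec.comp Primrec.snd))

/-- the course-of-values step -/
noncomputable def stepL (l : List (Bool × Bool)) : Bool × Bool :=
  if l.length < N0 then lk ((List.range N0).map T0) l.length else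
    (ruleW (lk l) l.length, ruleL (lk l) l.length)

theorem stepL_primrec : Primrec stepL := by
  refine Primrec.ite (Primrec.nat_lt.comp Primrec.list_length (Primrec.const N0))
    (lk_primrec.comp (Primrec.const _) Primrec.list_length) ?_
  exact Primrec.pair (ruleW_primrec.comp Primrec.id Primrec.list_length)
    (ruleL_primrec.comp Primrec.id Primrec.list_length)

theorem lk_map (f : ℕ → Bool × Bool) {m n : ℕ} (h : m < n) : lk ((List.range n).map f) m = f m := by
  unfold lk
  simp [List.getD_eq_getElem?_getD, h]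

theorem stepL_wl (n : ℕ) : stepL ((List.range n).map wl) = wl n := by
  have hlen : ((List.range n).map wl).length = n := by simp
  unfold stepL
  rw [hlen]
  by_cases h : n < N0
  · rw [if_pos h, lk_map T0 h, wl_small' h]
  · rw [if_neg h, wl_big (not_lt.mp h)]
    have key : ∀ m < n, lk ((List.range n).map wl) m = wl m := fun m hm => lk_map wl hm
    rw [ruleW_congr (not_lt.mp h) key, ruleL_congr (not_lt.mp h) (by omega) key]

theorem wl_primrec : Primrec wl := by
  have h : Primrec₂ (fun (_ : Unit) (n : ℕ) => wl n) := by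
    refine Primrec.nat_strong_rec (g := fun _ l => some (stepL l)) _
      (Primrec.option_some.comp (stepL_primrec.comp Primrec.snd)) ?_
    intro _ n
    exact congrArg some (stepL_wl n)
  exact h.comp (Primrec.const ()) Primrec.id

/-- `isDraw n = true`: the algorithm certifies that `n` is a draw -/
noncomputable def isDraw (n : ℕ) : Bool := !(wl n).1 && !(wl n).2

theorem isDraw_iff (n : ℕ) : isDraw n = true ↔ ¬ Wp n ∧ ¬ Lp n := by
  simp [isDraw, Wp, Lp]

theorem isDraw_primrec : Primrec isDraw :=
  Primrec.and.comp (Primrec.not.comp (Primrec.fst.comp wl_primrec))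
    (Primrec.not.comp (Primrec.snd.comp wl_primrec))

theorem isDraw_computable : Computable isDraw := isDraw_primrec.to_comp

/-- the algorithm never errs -/
theorem isDraw_sound {n : ℕ} (hn : 1 ≤ n) (h : isDraw n = true) : Draw n := by
  obtain ⟨h1, h2⟩ := (isDraw_iff n).mp h
  exact ⟨hn, fun hw => h1 (win_wp hw), fun hl => h2 (lost_lp hl.2)⟩

end Pool.Agent.AddSq
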