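import Pool.Agent.AddSq.CorKern

/-!
# Kernel functions for the correlations: the facts for lists from the facts for their entries
-/

namespace Pool.Agent.AddSq.Co

theorem sf_cons {wt lt : Nat} {sA sB c : Bool} {k d b0 cnt y0 len : Nat}
    {e : Nat × Nat × Nat × Nat × Nat × Nat × Nat × List (Nat × Nat)}
    {l : List (Nat × Nat × Nat × Nat × Nat × Nat × Nat × List (Nat × Nat))}
    (h1 : sf wt lt sA sB c k d b0 cnt y0 len [e] = true)
    (h2 : sf wt lt sA sB c k d b0 cnt y0 len l = true) :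
    sf wt lt sA sB c k d b0 cnt y0 len (e :: l) = true := by
  unfold sf at h1 h2 ⊢
  generalize spr 17 d (bs wt lt sB b0 cnt y0 len) = Ys at h1 h2 ⊢
  have key : pcs wt lt sA c k len y0 Ys [e] = true → pcs wt lt sA c k len y0 Ys l = true →
      pcs wt lt sA c k len y0 Ys (e :: l) = true := by
    intro g1 g2
    unfold pcs at g1 g2 ⊢
    simp only [Bool.and_eq_true] at g1 ⊢
    exact ⟨g1.1, g1.2.1, g2⟩
  simp only [Bool.and_eq_true] at h1 h2 ⊢
  exact ⟨h1.1, h1.2.1, key h1.2.2 h2.2.2⟩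

theorem cfs_append {wt lt k : Nat} {l m : List (Nat × Nat × Nat × Nat)}
    (h1 : cfs wt lt k l = true) (h2 : cfs wt lt k m = true) : cfs wt lt k (l ++ m) = true := by
  induction l with
  | nil => exact h2
  | cons e l ih =>
    have a : cf wt lt k e.1 e.2.1 e.2.2.1 e.2.2.2 = true ∧ cfs wt lt k l = true :=
      (Bool.and_eq_true _ _).mp h1
    exact (Bool.and_eq_true _ _).mpr ⟨a.1, ih a.2⟩

end Pool.Agent.AddSq.Co
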