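import Pool.Agent.AddSq.FastDefs

/-!
# Kernel functions for the correlations

Bit tables of blocks, spreading to the base `2 ^ 17`, and the digits of a product.
-/

namespace Pool.Agent.AddSq.Co

open Pool.Agent.AddSq.Fa

/-- the rule for the wins, the first argument of the result is the set of candidates -/
noncomputable def wf (l0 w1 l2 w3 l4 w5 : Nat) : Nat → Nat → Nat → Nat → Nat :=
  fo (sh l0) (nz (fa (sh w1) (nz (fo (sh l2) (nz (fa (sh w3) (nz (fo (sh l4) (nz (sh w5))))))))))

/-- wins of the block `k ≤ KM` -/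
noncomputable def wblk (wt lt KM : Nat) : Nat → Nat :=
  frc (fun k => wf (cut lt (Nat.succ (Nat.mul 2 KM)))
    (cut wt (Nat.add (Nat.mul 3 KM) 16))
    (cut lt (Nat.add (Nat.mul 4 KM) (Nat.add (Nat.div KM 64) 32)))
    (cut wt (Nat.add (Nat.mul 6 KM) 32))
    (cut lt (Nat.add (Nat.mul 8 KM) (Nat.add (Nat.div KM 64) 32)))
    (cut wt (Nat.add (Nat.mul 12 KM) 64))
    (msk (Nat.succ (Nat.mul 2 k))) k 0 (Nat.succ (Nat.mul 2 k)))

/-- union of the blocks `K, …, K + n - 1`, relative to `K²`; `d` is the fuel -/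
noncomputable def asr (f : Nat → Nat) (d : Nat) : Nat → Nat → Nat :=
  @Nat.rec (fun _ => Nat → Nat → Nat) (fun K _ => f K)
    (fun _ ih K n => @Bool.rec (fun _ => Nat)
      (frc (fun h => frc (fun K => frc (fun K' => Nat.lor (ih K h)
        (Nat.shiftLeft (ih K' (Nat.sub n h)) (Nat.sub (Nat.mul K' K') (Nat.mul K K))))
          (Nat.add K h)) K) (Nat.div n 2))
      (f K) (Nat.ble n 1)) d

/-- the bits `[y0, y0 + len)` of the table `T` -/
noncomputable def segT (T y0 len : Nat) : Nat := Nat.land (Nat.shiftRight T y0) (msk len)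

/-- the positions `[y0, y0 + len)`, from the blocks `b0, …, b0 + cnt - 1` -/
noncomputable def segB (f : Nat → Nat) (b0 cnt y0 len : Nat) : Nat :=
  Nat.land (Nat.shiftRight (asr f 14 b0 cnt) (Nat.sub y0 (Nat.mul b0 b0))) (msk len)

/-- the positions `[y0, y0 + len)`, from the table below `2200²` and from the blocks
`2200, …, 2199 + cnt` -/
noncomputable def segM (T : Nat) (f : Nat → Nat) (cnt y0 len : Nat) : Nat :=
  Nat.land (Nat.lor (Nat.shiftRight T y0)
    (Nat.shiftLeft (asr f 14 2200 cnt) (Nat.sub 4840000 y0))) (msk len)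

/-- `w`-bit units at the distance `F`, `n` of them -/
noncomputable def rep (w F n : Nat) : Nat :=
  Nat.mul (Nat.div (Nat.sub (Nat.shiftLeft 1 (Nat.mul F n)) 1) (Nat.sub (Nat.shiftLeft 1 F) 1))
    (Nat.sub (Nat.shiftLeft 1 w) 1)

/-- one level of the spreading to the digit length `s ≥ 17`: `z` has units of `16 w` bits at the
distance `16 * s * w`, the result has units of `w` bits at the distance `s * w`, `n` of them -/
noncomputable def lev (s w n z : Nat) : Nat :=
  Nat.land (Nat.mul z (rep 1 (Nat.mul (Nat.sub s 1) w) 16)) (rep w (Nat.mul s w) n)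

/-- spreading of `4096` bits -/
noncomputable def spr12 (s x : Nat) : Nat :=
  lev s 1 4096 (lev s 16 256 (lev s 256 16 x))

/-- spreading of `4096 * 2 ^ d` bits -/
noncomputable def spr (s : Nat) (d : Nat) : Nat → Nat :=
  @Nat.rec (fun _ => Nat → Nat)
    (fun x => @Bool.rec (fun _ => Nat) (spr12 s x) 0 (Nat.beq x 0))
    (fun d ih x => @Bool.rec (fun _ => Nat)
      (Nat.lor (ih (Nat.land x (msk (Nat.shiftLeft 4096 d))))
        (Nat.shiftLeft (ih (Nat.shiftRight x (Nat.shiftLeft 4096 d)))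
          (Nat.mul s (Nat.shiftLeft 4096 d)))) 0 (Nat.beq x 0)) d

/-- swaps neighbouring units of `w` bits, `n` pairs of units -/
noncomputable def swp (w n x : Nat) : Nat :=
  Nat.lor (Nat.land (Nat.shiftRight x w) (rep w (Nat.mul 2 w) n))
    (Nat.shiftLeft (Nat.land x (rep w (Nat.mul 2 w) n)) w)

/-- reversal of `2 ^ k` bits -/
noncomputable def rev (k x : Nat) : Nat :=
  @Nat.rec (fun _ => Nat) x
    (fun j y => swp (Nat.shiftLeft 1 j) (Nat.shiftLeft 1 (Nat.sub (Nat.sub k 1) j)) y) k

end Pool.Agent.AddSq.Co
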