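import Pool.Agent.AddSq.CorSpread

/-!
# Reversal of bit sets
-/

namespace Pool.Agent.AddSq.Co

open Pool.Agent.AddSq.Fa Finset

/-- reversal inside the units of `w` bits, total length `N` -/
def Rv (N w x y : ℕ) : Prop :=
  ∀ e, y.testBit e = true ↔ e < N ∧ x.testBit (e - e % w + (w - 1 - e % w)) = true

theorem swp_spec {N w n x y : ℕ} (hw : 0 < w) (hN : N = 2 * w * n) (h : Rv N w x y) :
    Rv N (2 * w) x (swp w n y) := by
  intro e
  have hdef : swp w n y = ((y >>> w) &&& rep w (2 * w) n) |||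
      ((y &&& rep w (2 * w) n) <<< w) := rfl
  have hm : ∀ e, (rep w (2 * w) n).testBit e = true ↔ e < N ∧ e % (2 * w) < w := by
    intro e
    rw [rep_testBit (by omega) (by omega), hN, Nat.div_lt_iff_lt_mul (by omega),
      Nat.mul_comm n]
  rw [hdef, Nat.testBit_or, Nat.testBit_and, Nat.testBit_shiftLeft, Nat.testBit_and,
    Nat.testBit_shiftRight, Bool.or_eq_true, Bool.and_eq_true, Bool.and_eq_true,
    Bool.and_eq_true, decide_eq_true_eq, hm, hm, h, h]
  obtain ⟨q, r, hr, he⟩ : ∃ q r, r < 2 * w ∧ e = 2 * w * q + r :=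
    ⟨e / (2 * w), e % (2 * w), Nat.mod_lt _ (by omega), (Nat.div_add_mod e (2 * w)).symm⟩
  have m1 : ∀ q t, t < 2 * w → (2 * w * q + t) % (2 * w) = t := by
    intro q t ht
    rw [Nat.mul_add_mod, Nat.mod_eq_of_lt ht]
  have m2 : ∀ q t, t < w → (2 * w * q + t) % w = t := by
    intro q t ht
    rw [show 2 * w * q + t = w * (2 * q) + t by ring, Nat.mul_add_mod, Nat.mod_eq_of_lt ht]
  have m3 : ∀ q t, t < w → (2 * w * q + (w + t)) % w = t := by
    intro q t ht
    rw [show 2 * w * q + (w + t) = w * (2 * q + 1) + t by ring, Nat.mul_add_mod,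
      Nat.mod_eq_of_lt ht]
  have hN2 : 2 * w * q < N ↔ 2 * w * q + (2 * w) ≤ N := by
    rw [hN]
    constructor
    · intro hh
      have h1 : q < n := Nat.lt_of_mul_lt_mul_left hh
      calc 2 * w * q + 2 * w = 2 * w * (q + 1) := by ring
        _ ≤ 2 * w * n := Nat.mul_le_mul_left _ h1
    · intro hh
      omega
  rcases Nat.lt_or_ge r w with hrw | hrw
  · -- even unit
    have a1 : e % (2 * w) = r := by rw [he]; exact m1 q r hr
    have a2 : (w + e) % w = r := by
      rw [he, show w + (2 * w * q + r) = 2 * w * q + (w + r) by ring]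
      exact m3 q r hrw
    rw [a1, a2]
    constructor
    · rintro (⟨⟨g1, g2⟩, g3, g4⟩ | ⟨g0, ⟨g1, g2⟩, g3, g4⟩)
      · refine ⟨g3, ?_⟩
        rwa [show w + e - r + (w - 1 - r) = e - r + (2 * w - 1 - r) by omega] at g2
      · exfalso
        cases q with
        | zero =>
          rw [Nat.mul_zero, Nat.zero_add] at he
          omega
        | succ q =>
          have a3 : e - w = 2 * w * q + (w + r) := by
            rw [he]
            have : 2 * w * (q + 1) = 2 * w * q + 2 * w := by ring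
            omega
          rw [a3, m1 q (w + r) (by omega)] at g4
          omega
    · rintro ⟨g1, g2⟩
      left
      have g3 := hN2.mp (by omega)
      refine ⟨⟨by omega, ?_⟩, g1, hrw⟩
      rwa [show w + e - r + (w - 1 - r) = e - r + (2 * w - 1 - r) by omega]
  · obtain ⟨t, rfl⟩ : ∃ t, r = w + t := ⟨r - w, by omega⟩
    have a1 : e % (2 * w) = w + t := by rw [he]; exact m1 q _ hr
    have a3 : e - w = 2 * w * q + t := by omega
    have a4 : (e - w) % (2 * w) = t := by rw [a3]; exact m1 q t (by omega)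
    have a5 : (e - w) % w = t := by rw [a3]; exact m2 q t (by omega)
    rw [a1, a4, a5]
    constructor
    · rintro (⟨⟨g1, g2⟩, g3, g4⟩ | ⟨g0, ⟨g1, g2⟩, g3, g4⟩)
      · omega
      · have g5 := hN2.mp (by omega)
        refine ⟨by omega, ?_⟩
        rwa [show e - w - t + (w - 1 - t) = e - (w + t) + (2 * w - 1 - (w + t)) by omega] at g2
    · rintro ⟨g1, g2⟩
      right
      refine ⟨by omega, ⟨by omega, ?_⟩, by omega, by omega⟩
      rwa [show e - w - t + (w - 1 - t) = e - (w + t) + (2 * w - 1 - (w + t)) by omega]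

/-- The reversal of `2 ^ k` bits. -/
theorem rev_spec {k x : ℕ} (hx : x < 2 ^ (2 ^ k)) (e : ℕ) :
    (rev k x).testBit e = true ↔ e < 2 ^ k ∧ x.testBit (2 ^ k - 1 - e) = true := by
  have key : ∀ j, j ≤ k → Rv (2 ^ k) (2 ^ j) x
      (@Nat.rec (fun _ => ℕ) x
        (fun j y => swp (Nat.shiftLeft 1 j) (Nat.shiftLeft 1 (Nat.sub (Nat.sub k 1) j)) y) j) := by
    intro j
    induction j with
    | zero =>
      intro _ e
      rw [pow_zero, Nat.mod_one]
      constructor
      · intro h
        exact ⟨lt_of_bit hx h, by simpa using h⟩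
      · rintro ⟨_, h⟩
        simpa using h
    | succ j ih =>
      intro hj
      have h1 := ih (by omega)
      change Rv (2 ^ k) (2 ^ (j + 1)) x (swp (1 <<< j) (1 <<< (k - 1 - j)) _)
      rw [Nat.one_shiftLeft, Nat.one_shiftLeft, pow_succ, Nat.mul_comm]
      refine swp_spec (by positivity) ?_ h1
      rw [← pow_succ', ← pow_add]
      congr 1
      omega
  have h := key k le_rfl e
  change (rev k x).testBit e = true ↔ _ at h
  rw [h]
  constructor
  · rintro ⟨h1, h2⟩
    rw [Nat.mod_eq_of_lt h1] at h2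
    refine ⟨h1, ?_⟩
    rwa [show e - e + (2 ^ k - 1 - e) = 2 ^ k - 1 - e by omega] at h2
  · rintro ⟨h1, h2⟩
    rw [Nat.mod_eq_of_lt h1]
    refine ⟨h1, ?_⟩
    rwa [show e - e + (2 ^ k - 1 - e) = 2 ^ k - 1 - e by omega]

end Pool.Agent.AddSq.Co
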