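import Pool.Agent.AddSq.CorTab
import Mathlib.Combinatorics.Colex

/-!
# Correctness of the spreading of bit sets
-/

namespace Pool.Agent.AddSq.Co

open Pool.Agent.AddSq.Fa Finset

/-- the set of bits -/
def bts (x : ℕ) : Finset ℕ := x.bitIndices.toFinset

theorem mem_bts {x e : ℕ} : e ∈ bts x ↔ x.testBit e = true := by
  unfold bts
  rw [List.mem_toFinset, Nat.mem_bitIndices]

theorem sum_bts (x : ℕ) : ∑ e ∈ bts x, 2 ^ e = x := sum_toFinset_bitIndices_two_pow x

theorem testBit_sum (S : Finset ℕ) (i : ℕ) : (∑ s ∈ S, 2 ^ s).testBit i = true ↔ i ∈ S := by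
  have h := toFinset_bitIndices_sum_two_pow S
  rw [← mem_bts]
  unfold bts
  rw [h]

/-- product without carries -/
theorem testBit_mul_iff {x M : ℕ}
    (hinj : ∀ e m e' m', x.testBit e = true → M.testBit m = true → x.testBit e' = true →
      M.testBit m' = true → e + m = e' + m' → e = e' ∧ m = m') (t : ℕ) :
    (x * M).testBit t = true ↔ ∃ e m, x.testBit e = true ∧ M.testBit m = true ∧ e + m = t := by
  have h1 : x * M = ∑ p ∈ bts x ×ˢ bts M, 2 ^ (p.1 + p.2) := by
    rw [Finset.sum_product]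
    conv_lhs => rw [← sum_bts x, ← sum_bts M]
    rw [Finset.sum_mul_sum]
    apply Finset.sum_congr rfl
    intro e _
    apply Finset.sum_congr rfl
    intro m _
    rw [pow_add]
  have h2 : ∑ p ∈ bts x ×ˢ bts M, 2 ^ (p.1 + p.2) =
      ∑ s ∈ (bts x ×ˢ bts M).image (fun p => p.1 + p.2), 2 ^ s := by
    rw [Finset.sum_image]
    intro p hp q hq hpq
    rw [Finset.mem_coe, Finset.mem_product, mem_bts, mem_bts] at hp hq
    obtain ⟨h3, h4⟩ := hinj p.1 p.2 q.1 q.2 hp.1 hp.2 hq.1 hq.2 hpq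
    exact Prod.ext h3 h4
  rw [h1, h2, testBit_sum, Finset.mem_image]
  constructor
  · rintro ⟨p, hp, hs⟩
    rw [Finset.mem_product, mem_bts, mem_bts] at hp
    exact ⟨p.1, p.2, hp.1, hp.2, hs⟩
  · rintro ⟨e, m, he, hm, hs⟩
    exact ⟨(e, m), by rw [Finset.mem_product, mem_bts, mem_bts]; exact ⟨he, hm⟩, hs⟩

theorem rep_eq (w F n : ℕ) : rep w F n = (2 ^ (F * n) - 1) / (2 ^ F - 1) * (2 ^ w - 1) := by
  unfold rep
  change ((1 <<< (F * n)) - 1) / ((1 <<< F) - 1) * ((1 <<< w) - 1) = _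
  rw [Nat.one_shiftLeft, Nat.one_shiftLeft, Nat.one_shiftLeft]

theorem rep_zero (w F : ℕ) : rep w F 0 = 0 := by
  rw [rep_eq]
  simp

theorem rep_succ {w F : ℕ} (hF : 0 < F) (n : ℕ) :
    rep w F (n + 1) = 2 ^ (F * n) * (2 ^ w - 1) + rep w F n := by
  have hX : 1 < 2 ^ F := Nat.one_lt_two_pow (by omega)
  have e : ∀ n, (2 : ℕ) ^ (F * n) = (2 ^ F) ^ n := fun n => by rw [← pow_mul]
  rw [rep_eq, rep_eq, e, e, ← Nat.geomSum_eq hX, ← Nat.geomSum_eq hX, Finset.sum_range_succ]
  ring

theorem rep_lt {w F : ℕ} (hF : 0 < F) (hw : w ≤ F) (n : ℕ) : rep w F n < 2 ^ (F * n) := by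
  induction n with
  | zero => rw [rep_zero]; simp
  | succ n ih =>
    rw [rep_succ hF]
    have h1 : (2 : ℕ) ^ (F * (n + 1)) = 2 ^ (F * n) * 2 ^ F := by
      rw [← pow_add]; congr 1
    have h2 : (2 : ℕ) ^ w ≤ 2 ^ F := Nat.pow_le_pow_right (by norm_num) hw
    have h4 : 0 < 2 ^ w := by positivity
    rw [h1]
    calc 2 ^ (F * n) * (2 ^ w - 1) + rep w F n
        < 2 ^ (F * n) * (2 ^ w - 1) + 2 ^ (F * n) := Nat.add_lt_add_left ih _
      _ = 2 ^ (F * n) * (2 ^ w - 1 + 1) := by ring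
      _ ≤ 2 ^ (F * n) * 2 ^ F := Nat.mul_le_mul_left _ (by omega)

theorem rep_testBit {w F : ℕ} (hF : 0 < F) (hw : w ≤ F) (n e : ℕ) :
    (rep w F n).testBit e = true ↔ e / F < n ∧ e % F < w := by
  induction n with
  | zero => rw [rep_zero]; simp
  | succ n ih =>
    rw [rep_succ hF, Nat.testBit_two_pow_mul_add _ (rep_lt hF hw n)]
    by_cases he : e < F * n
    · rw [if_pos he, ih]
      have : e / F < n := (Nat.div_lt_iff_lt_mul hF).mpr (by rw [Nat.mul_comm]; exact he)
      constructor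
      · rintro ⟨_, h⟩; exact ⟨by omega, h⟩
      · rintro ⟨_, h⟩; exact ⟨this, h⟩
    · rw [if_neg he, Nat.testBit_two_pow_sub_one, decide_eq_true_eq]
      push Not at he
      have h1 : n ≤ e / F := (Nat.le_div_iff_mul_le hF).mpr (by rw [Nat.mul_comm]; exact he)
      have h2 := Nat.div_add_mod e F
      constructor
      · intro h
        have h3 : e / F < n + 1 := by
          rw [Nat.div_lt_iff_lt_mul hF]
          have : (n + 1) * F = F * n + F := by ring
          omega
        have h4 : e / F = n := by omega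
        refine ⟨h3, ?_⟩
        rw [h4] at h2
        omega
      · rintro ⟨h3, h4⟩
        have h5 : e / F = n := by omega
        rw [h5] at h2
        omega

/-- `z` consists of units of `w` bits of `x` at the distance `f` -/
def St (f w : ℕ) (x z : ℕ) : Prop :=
  ∀ e, z.testBit e = true ↔ e % f < w ∧ x.testBit (e / f * w + e % f) = true

/-- one level; the arithmetic is left to the instances -/
theorem lev_spec {s w n F f a v N x z : ℕ} (hf : f = s * w) (ha : a = (s - 1) * w)
    (hn : N = n * w) (hx : x < 2 ^ N) (ha0 : 0 < a) (hf0 : 0 < f) (hwf : w ≤ f)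
    (h1 : ∀ e i, i < 16 → e % F < v → (e + i * a) % f < w →
      (e + i * a) / f * w + (e + i * a) % f = e / F * v + e % F)
    (h2 : ∀ e, e % f < w → ∃ e' i, i < 16 ∧ e' % F < v ∧ e' + i * a = e ∧
      e' / F * v + e' % F = e / f * w + e % f)
    (h3 : ∀ e i e' i', i < 16 → i' < 16 → e % F < v → e' % F < v →
      e + i * a = e' + i' * a → e = e')
    (hz : St F v x z) : St f w x (lev s w n z) := by
  intro e
  have hM : ∀ m, (rep 1 a 16).testBit m = true ↔ ∃ i, i < 16 ∧ m = i * a := by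
    intro m
    rw [rep_testBit ha0 (by omega)]
    have hd := Nat.div_add_mod m a
    constructor
    · rintro ⟨g1, g2⟩
      refine ⟨m / a, g1, ?_⟩
      have : m % a = 0 := by omega
      rw [this] at hd
      rw [Nat.mul_comm]
      omega
    · rintro ⟨i, g1, g2⟩
      subst g2
      rw [Nat.mul_div_cancel _ ha0, Nat.mul_mod_left]
      exact ⟨g1, by norm_num⟩
  have hdef : lev s w n z = (z * rep 1 a 16) &&& rep w f n := by
    unfold lev
    rw [hf, ha]
    rfl
  rw [hdef, Nat.testBit_and, Bool.and_eq_true, rep_testBit hf0 hwf, testBit_mul_iff]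
  · constructor
    · rintro ⟨⟨e', m, he', hm, rfl⟩, g1, g2⟩
      obtain ⟨i, hi, rfl⟩ := (hM m).mp hm
      obtain ⟨g3, g4⟩ := (hz e').mp he'
      refine ⟨g2, ?_⟩
      rw [h1 e' i hi g3 g2]
      exact g4
    · rintro ⟨g1, g2⟩
      obtain ⟨e', i, hi, g3, g4, g5⟩ := h2 e g1
      refine ⟨⟨e', i * a, ?_, (hM _).mpr ⟨i, hi, rfl⟩, g4⟩, ?_, g1⟩
      · rw [hz e', g5]
        exact ⟨g3, g2⟩
      · by_contra hc
        push Not at hc
        have h4 : N ≤ e / f * w + e % f := by
          rw [hn]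
          exact (Nat.mul_le_mul_right w hc).trans (Nat.le_add_right _ _)
        have h5 : x.testBit (e / f * w + e % f) = false :=
          Nat.testBit_lt_two_pow (lt_of_lt_of_le hx (Nat.pow_le_pow_right (by norm_num) h4))
        rw [h5] at g2
        exact absurd g2 (by decide)
  · intro e1 m1 e2 m2 k1 k2 k3 k4 k5
    obtain ⟨i1, hi1, rfl⟩ := (hM m1).mp k2
    obtain ⟨i2, hi2, rfl⟩ := (hM m2).mp k4
    have h6 := h3 e1 i1 e2 i2 hi1 hi2 ((hz e1).mp k1).1 ((hz e2).mp k3).1 k5
    subst h6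
    exact ⟨rfl, by omega⟩

theorem lev_256 {x z : ℕ} (hx : x < 2 ^ 4096) (hz : St 69632 4096 x z) :
    St 4352 256 x (lev 17 256 16 z) := by
  refine lev_spec (f := 4352) (a := 4096) (N := 4096) (F := 69632) (v := 4096) (by norm_num)
    (by norm_num) (by norm_num) hx (by norm_num) (by norm_num) (by norm_num) ?_ ?_ ?_ hz
  · intro e i h1 h2 h3
    omega
  · intro e h1
    refine ⟨e / 69632 * 69632 + e / 4352 % 16 * 256 + e % 4352, e / 4352 % 16, ?_, ?_, ?_, ?_⟩ <;> omega
  · intro e i e' i' h1 h2 h3 h4 h5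
    omega

theorem lev_16 {x z : ℕ} (hx : x < 2 ^ 4096) (hz : St 4352 256 x z) :
    St 272 16 x (lev 17 16 256 z) := by
  refine lev_spec (f := 272) (a := 256) (N := 4096) (F := 4352) (v := 256) (by norm_num)
    (by norm_num) (by norm_num) hx (by norm_num) (by norm_num) (by norm_num) ?_ ?_ ?_ hz
  · intro e i h1 h2 h3
    omega
  · intro e h1
    refine ⟨e / 4352 * 4352 + e / 272 % 16 * 16 + e % 272, e / 272 % 16, ?_, ?_, ?_, ?_⟩ <;> omega
  · intro e i e' i' h1 h2 h3 h4 h5
    omega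

theorem lev_1 {x z : ℕ} (hx : x < 2 ^ 4096) (hz : St 272 16 x z) :
    St 17 1 x (lev 17 1 4096 z) := by
  refine lev_spec (f := 17) (a := 16) (N := 4096) (F := 272) (v := 16) (by norm_num)
    (by norm_num) (by norm_num) hx (by norm_num) (by norm_num) (by norm_num) ?_ ?_ ?_ hz
  · intro e i h1 h2 h3
    omega
  · intro e h1
    refine ⟨e / 272 * 272 + e / 17 % 16 * 1 + e % 17, e / 17 % 16, ?_, ?_, ?_, ?_⟩ <;> omega
  · intro e i e' i' h1 h2 h3 h4 h5
    omega

theorem lt_two_pow_of_bits {x n : ℕ} (h : ∀ i, n ≤ i → ¬ x.testBit i = true) : x < 2 ^ n :=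
  Nat.lt_pow_two_of_testBit x (fun i hi => by
    have := h i hi
    cases hb : x.testBit i with
    | true => exact absurd hb this
    | false => rfl)

theorem lt_of_bit {x n i : ℕ} (hx : x < 2 ^ n) (h : x.testBit i = true) : i < n := by
  by_contra hc
  push Not at hc
  rw [Nat.testBit_lt_two_pow (lt_of_lt_of_le hx (Nat.pow_le_pow_right (by norm_num) hc))] at h
  exact absurd h (by decide)

theorem spr12_spec {x : ℕ} (hx : x < 2 ^ 4096) : St 17 1 x (spr12 17 x) := by
  have h0 : St 69632 4096 x x := by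
    intro e
    constructor
    · intro h
      have h1 := lt_of_bit hx h
      have h2 : e / 69632 = 0 := by omega
      have h3 : e % 69632 = e := by omega
      rw [h2, h3, Nat.zero_mul, Nat.zero_add]
      exact ⟨h1, h⟩
    · rintro ⟨h1, h2⟩
      have h3 := lt_of_bit hx h2
      have h4 : e / 69632 * 4096 + e % 69632 = e := by omega
      rwa [h4] at h2
  exact lev_1 hx (lev_16 hx (lev_256 hx h0))

/-- The spreading to the digit length `17`. -/
theorem spr_spec (d : ℕ) : ∀ {x : ℕ}, x < 2 ^ (4096 * 2 ^ d) → ∀ e,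
    ((spr 17 d x).testBit e = true ↔ e % 17 = 0 ∧ x.testBit (e / 17) = true) := by
  have hz : ∀ (x r : ℕ), (∀ e, (r.testBit e = true ↔ e % 17 = 0 ∧ x.testBit (e / 17) = true)) →
      ∀ e, ((@Bool.rec (fun _ => ℕ) r 0 (Nat.beq x 0)).testBit e = true ↔
        e % 17 = 0 ∧ x.testBit (e / 17) = true) := by
    intro x r hr e
    cases hb : Nat.beq x 0 with
    | false => exact hr e
    | true =>
      have : x = 0 := Nat.eq_of_beq_eq_true hb
      subst this
      simp
  induction d with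
  | zero =>
    intro x hx e
    have hx' : x < 2 ^ 4096 := by
      rw [pow_zero, Nat.mul_one] at hx
      exact hx
    refine hz x (spr12 17 x) (fun e => ?_) e
    rw [spr12_spec hx' e, Nat.mul_one]
    constructor
    · rintro ⟨h1, h2⟩
      have h3 : e % 17 = 0 := by omega
      rw [h3, Nat.add_zero] at h2
      exact ⟨h3, h2⟩
    · rintro ⟨h1, h2⟩
      rw [h1, Nat.add_zero]
      exact ⟨by norm_num, h2⟩
  | succ d ih =>
    intro x hx e
    refine hz x _ (fun e => ?_) e
    obtain ⟨N, hN⟩ : ∃ N, 4096 * 2 ^ d = N := ⟨_, rfl⟩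
    have hN2 : 4096 * 2 ^ (d + 1) = N + N := by rw [pow_succ, ← hN]; ring
    have hs : (4096 <<< d : ℕ) = N := by rw [Nat.shiftLeft_eq, hN]
    change ((spr 17 d (x &&& msk (4096 <<< d))) |||
      (spr 17 d (x >>> (4096 <<< d))) <<< (17 * (4096 <<< d))).testBit e = true ↔ _
    rw [hs]
    rw [hN] at ih
    rw [hN2] at hx
    have hm : ∀ i, (x &&& msk N).testBit i = true ↔ i < N ∧ x.testBit i = true := by
      intro i
      have h1 : (msk N).testBit i = true ↔ i < N := by
        change ((1 <<< N) - 1 : ℕ).testBit i = true ↔ _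
        rw [Nat.one_shiftLeft, Nat.testBit_two_pow_sub_one, decide_eq_true_eq]
      rw [Nat.testBit_and, Bool.and_eq_true, h1, and_comm]
    have h1 : x &&& msk N < 2 ^ N := lt_two_pow_of_bits (fun i hi h => by
      have := ((hm i).mp h).1
      omega)
    have h2 : x >>> N < 2 ^ N := lt_two_pow_of_bits (fun i hi h => by
      rw [Nat.testBit_shiftRight] at h
      have := lt_of_bit hx h
      omega)
    rw [Nat.testBit_or, Bool.or_eq_true, Nat.testBit_shiftLeft, Bool.and_eq_true,
      decide_eq_true_eq, ih h1 e, ih h2, hm, Nat.testBit_shiftRight]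
    constructor
    · rintro (⟨g1, g2, g3⟩ | ⟨g1, g2, g3⟩)
      · exact ⟨g1, g3⟩
      · refine ⟨by omega, ?_⟩
        rwa [show N + (e - 17 * N) / 17 = e / 17 by omega] at g3
    · rintro ⟨g1, g2⟩
      by_cases hc : e / 17 < N
      · exact Or.inl ⟨g1, hc, g2⟩
      · right
        refine ⟨by omega, by omega, ?_⟩
        rwa [show N + (e - 17 * N) / 17 = e / 17 by omega]

end Pool.Agent.AddSq.Co
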