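import Pool.Agent.AddSq.FastCount
import Pool.Agent.AddSq.Gen

/-!
# From the kernel facts to a list of bounds for the number of lost positions
-/

namespace Pool.Agent.AddSq.Fa

open Finset

theorem cntI_zero_eq (P : ℕ → Prop) {x y : ℕ} (h : y = x + 1) : cntI P 0 y = gcount P x := by
  classical
  subst h
  unfold cntI gcount
  apply congrArg Finset.card
  ext n
  simp only [Finset.mem_filter, Finset.mem_Ico, Finset.mem_Icc]
  constructor
  · rintro ⟨⟨_, h2⟩, h3⟩
    exact ⟨⟨Nat.zero_le _, by omega⟩, h3⟩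
  · rintro ⟨⟨_, h2⟩, h3⟩
    exact ⟨⟨Nat.zero_le _, by omega⟩, h3⟩

/-- the meaning of one fact -/
theorem ok_spec {W L : ℕ → Prop} (hR : ∀ n, 1 ≤ n → L n → W (rem n) ∧ Tail4 W L n)
    (hT : Tab TL.WT TL.LT W L (2200 * 2200)) {e T c : ℕ} (hT0 : 1 ≤ T)
    (hT1 : T + 2 ^ e ≤ 18800) (h : ok T e c = true) :
    cntI L ((32 * T) * (32 * T)) ((32 * (T + 2 ^ e)) * (32 * (T + 2 ^ e))) ≤ c := by
  have hpos : 0 < 2 ^ e := Nat.two_pow_pos _
  obtain ⟨s, hs⟩ : ∃ s, T + 2 ^ e = s + 1 := ⟨T + 2 ^ e - 1, by omega⟩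
  have h2 : ok T e c = Nat.ble (cs (31 + 32 * s) (2 * (s + 1)) e T) c := by
    unfold ok
    change @Nat.rec (fun _ => Bool) false
      (fun s _ => Nat.ble (cs (31 + 32 * s) (2 * (s + 1)) e T) c) (T + 1 <<< e) = _
    rw [Nat.one_shiftLeft, hs]
  rw [h2] at h
  exact cs_spec hR hT (by omega) hT0 (by omega) (by omega) (by omega) h

theorem FT_append {l1 l2 : List (ℕ × ℕ × ℕ)} (h1 : FT l1) (h2 : FT l2) : FT (l1 ++ l2) := by
  induction l1 with
  | nil => exact h2
  | cons f l ih => exact ⟨h1.1, ih h1.2⟩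

/-- walks through the facts `(T, e, c)` and checks the list `(R, v)` -/
def walk : List (ℕ × ℕ × ℕ) → ℕ → ℕ → List (ℕ × ℕ) → Bool
  | _, _, _, [] => true
  | [], _, _, _ :: _ => false
  | f :: F, T, v, p :: ps =>
    Nat.beq f.1 T && (Nat.ble (T + 2 ^ f.2.1) 18800 &&
      (if Nat.beq (32 * (T + 2 ^ f.2.1)) p.1 then
        Nat.ble (v + f.2.2) p.2 && walk F (T + 2 ^ f.2.1) (v + f.2.2) ps
      else walk F (T + 2 ^ f.2.1) (v + f.2.2) (p :: ps)))

theorem walk_spec {W L : ℕ → Prop} (hR : ∀ n, 1 ≤ n → L n → W (rem n) ∧ Tail4 W L n)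
    (hT : Tab TL.WT TL.LT W L (2200 * 2200)) : ∀ (F : List (ℕ × ℕ × ℕ)) (T v : ℕ)
    (ps : List (ℕ × ℕ)), 1 ≤ T → FT F → cntI L 0 ((32 * T) * (32 * T)) ≤ v →
    walk F T v ps = true → ∀ p ∈ ps, 1 ≤ p.1 ∧ cntI L 0 (p.1 * p.1) ≤ p.2 := by
  intro F
  induction F with
  | nil =>
    intro T v ps h1 hF hv h
    cases ps with
    | nil => intro p hp; exact absurd hp (List.not_mem_nil)
    | cons p ps => exact absurd h (by simp [walk])
  | cons f F ih =>
    intro T v ps h1 hF hv h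
    cases ps with
    | nil => intro p hp; exact absurd hp (List.not_mem_nil)
    | cons p ps =>
      unfold walk at h
      rw [Bool.and_eq_true, Bool.and_eq_true] at h
      obtain ⟨e1, e2, h3⟩ := h
      have e1' : f.1 = T := Nat.eq_of_beq_eq_true e1
      have e2' : T + 2 ^ f.2.1 ≤ 18800 := Nat.le_of_ble_eq_true e2
      have hpos : 0 < 2 ^ f.2.1 := Nat.two_pow_pos _
      have hok := hF.1
      rw [e1'] at hok
      have hc := ok_spec hR hT h1 e2' hok
      have hadd : cntI L 0 ((32 * (T + 2 ^ f.2.1)) * (32 * (T + 2 ^ f.2.1))) ≤ v + f.2.2 := by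
        rw [cntI_add L (Nat.zero_le ((32 * T) * (32 * T)))
          (Nat.mul_le_mul (by omega) (by omega))]
        exact Nat.add_le_add hv hc
      by_cases hb : Nat.beq (32 * (T + 2 ^ f.2.1)) p.1 = true
      · rw [if_pos hb, Bool.and_eq_true] at h3
        have hb' : 32 * (T + 2 ^ f.2.1) = p.1 := Nat.eq_of_beq_eq_true hb
        intro q hq
        rcases List.mem_cons.mp hq with hq | hq
        · subst hq
          refine ⟨by omega, ?_⟩
          rw [← hb']
          exact hadd.trans (Nat.le_of_ble_eq_true h3.1)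
        · exact ih _ _ ps (by omega) hF.2 hadd h3.2 q hq
      · rw [if_neg hb] at h3
        exact ih _ _ (p :: ps) (by omega) hF.2 hadd h3

theorem ct_spec {L : ℕ → Prop} (hT : ∀ n < 2200 * 2200, L n → TL.LT.testBit n = true)
    {n a b : ℕ} (hn : n < 134217728) (hb : b ≤ 2200)
    (hn2 : b * b ≤ a * a + 32 * n) : cntI L (a * a) (b * b) ≤ ct n a b := by
  have key : ∀ X : ℕ, (∀ m < 2200 * 2200, L m → X.testBit m = true) →
      cntI L (a * a) (b * b) ≤ pcn n (Nat.land (Nat.shiftRight X (Nat.mul a a))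
        (msk (Nat.sub (Nat.mul b b) (Nat.mul a a)))) := by
    classical
    intro X hX
    rw [pcn_eq hn]
    unfold cntI Pop.pop
    apply Finset.card_le_card_of_injOn (fun m => m - a * a)
    · intro m hm
      obtain ⟨h1, h2⟩ := Finset.mem_filter.mp (Finset.mem_coe.mp hm)
      obtain ⟨h3, h4⟩ := Finset.mem_Ico.mp h1
      have hbb : b * b ≤ 2200 * 2200 := Nat.mul_le_mul hb hb
      refine Finset.mem_coe.mpr (Finset.mem_filter.mpr ⟨Finset.mem_range.mpr ?_, ?_⟩)
      · show m - a * a < 32 * n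
        omega
      · show ((X >>> (a * a)) &&& msk (b * b - a * a)).testBit (m - a * a) = true
        rw [Nat.testBit_and, msk_testBit (by omega), Bool.and_true, Nat.testBit_shiftRight]
        rw [show a * a + (m - a * a) = m by omega]
        exact hX m (by omega) h2
    · intro x hx y hy hxy
      have hx' := (Finset.mem_Ico.mp (Finset.mem_filter.mp (Finset.mem_coe.mp hx)).1).1
      have hy' := (Finset.mem_Ico.mp (Finset.mem_filter.mp (Finset.mem_coe.mp hy)).1).1
      simp only at hxy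
      omega
  exact key TL.LT hT

theorem chkT_spec {L : ℕ → Prop} (hT : ∀ n < 2200 * 2200, L n → TL.LT.testBit n = true)
    {n : ℕ} (hn : n < 134217728) : ∀ (l : List (ℕ × ℕ)) (a v : ℕ),
    (∀ p ∈ l, 1 ≤ p.1 ∧ p.1 ≤ 2200) → cntI L 0 (a * a) ≤ v → chkT n l a v = true →
    ∀ p ∈ l, 1 ≤ p.1 ∧ cntI L 0 (p.1 * p.1) ≤ p.2 := by
  intro l
  induction l with
  | nil => intro a v h1 h2 h3 p hp; exact absurd hp (List.not_mem_nil)
  | cons q l ih =>
    intro a v h1 h2 h3
    have h4 : (Nat.ble a q.1 && Nat.ble (q.1 * q.1) (a * a + 32 * n) &&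
      (Nat.ble (v + ct n a q.1) q.2 && chkT n l q.1 q.2)) = true := h3
    rw [Bool.and_eq_true, Bool.and_eq_true, Bool.and_eq_true] at h4
    obtain ⟨⟨b1, b2⟩, b3, b4⟩ := h4
    have hq := h1 q (List.mem_cons_self)
    have c1 : cntI L (a * a) (q.1 * q.1) ≤ ct n a q.1 :=
      ct_spec hT hn hq.2 (Nat.le_of_ble_eq_true b2)
    have c2 : cntI L 0 (q.1 * q.1) ≤ q.2 := by
      have h5 : a * a ≤ q.1 * q.1 :=
        Nat.mul_le_mul (Nat.le_of_ble_eq_true b1) (Nat.le_of_ble_eq_true b1)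
      rw [cntI_add L (Nat.zero_le (a * a)) h5]
      exact (Nat.add_le_add h2 c1).trans (Nat.le_of_ble_eq_true b3)
    intro p hp
    rcases List.mem_cons.mp hp with hp | hp
    · subst hp
      exact ⟨hq.1, c2⟩
    · exact ih q.1 q.2 (fun r hr => h1 r (List.mem_cons_of_mem _ hr)) c2 b4 p hp

end Pool.Agent.AddSq.Fa
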