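import Pool.Agent.AddSq.CorDefs
import Pool.Agent.AddSq.FastList

/-!
# Correctness of the bit tables of blocks
-/

namespace Pool.Agent.AddSq.Co

open Pool.Agent.AddSq.Fa

/-- the rule for the wins, truncated at `r₅` -/
def Win5 (W L : ℕ → Prop) (n : ℕ) : Prop :=
  L (rem n) ∨ (W (rem (up n)) ∧ (L (rem (up (up n))) ∨ (W (rem (up (up (up n)))) ∧
    (L (rem (up (up (up (up n))))) ∨ W (rem (up (up (up (up (up n))))))))))

theorem win5_of_rules {W L : ℕ → Prop} (h : GRules W L) (n : ℕ) (hn : W n) : Win5 W L n := by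
  have h1 := h.wpos n hn
  rcases h.w n h1 hn with h2 | h2
  · exact Or.inl h2
  · have hu : 1 ≤ up n := by
      unfold up
      omega
    exact Or.inr (h.l (up n) hu h2)

theorem supA_wf {W L : ℕ → Prop} {l0 w1 l2 w3 l4 w5 R0 R1 R2 R3 R4 R5 B : ℕ}
    (h0 : ∀ n < R0, L n → l0.testBit n = true)
    (h1 : ∀ n < R1, W n → w1.testBit n = true)
    (h2 : ∀ n < R2, L n → l2.testBit n = true)
    (h3 : ∀ n < R3, W n → w3.testBit n = true)
    (h4 : ∀ n < R4, L n → l4.testBit n = true)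
    (h5 : ∀ n < R5, W n → w5.testBit n = true)
    (b0 : 2 * B + 1 ≤ R0)
    (b1 : 2 * nxt B + 1 ≤ R1) (b2 : 2 * nxt (nxt B) + 1 ≤ R2)
    (b3 : 2 * nxt (nxt (nxt B)) + 1 ≤ R3) (b4 : 2 * nxt (nxt (nxt (nxt B))) + 1 ≤ R4)
    (b5 : 2 * nxt (nxt (nxt (nxt (nxt B)))) + 1 ≤ R5)
    (hB : nxt (nxt (nxt (nxt B))) < 2 ^ 31) : SupA (wf l0 w1 l2 w3 l4 w5) (Win5 W L) B := by
  have e1 := le_nxt B
  have e2 := le_nxt (nxt B)
  have e3 := le_nxt (nxt (nxt B))
  have e4 := le_nxt (nxt (nxt (nxt B)))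
  have s5 := supA_sh (T := W) h5 b5
  have s4 := supA_fo (supA_sh (T := L) h4 b4) (supA_nz s5 le_rfl hB)
  have s3 := supA_fa (supA_sh (T := W) h3 b3) (supA_nz s4 le_rfl (by omega))
  have s2 := supA_fo (supA_sh (T := L) h2 b2) (supA_nz s3 le_rfl (by omega))
  have s1 := supA_fa (supA_sh (T := W) h1 b1) (supA_nz s2 le_rfl (by omega))
  exact supA_fo (supA_sh (T := L) h0 b0) (supA_nz s1 le_rfl (by omega))

theorem wblk_spec {W L : ℕ → Prop} (hR : ∀ n, W n → Win5 W L n)
    {wt lt R : ℕ} (hT : Tab wt lt W L R)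
    {KM k : ℕ} (hKM : 12 * KM + 64 ≤ R) (hKM2 : KM ≤ 100000000) (hk0 : 1 ≤ k)
    (hk : k ≤ KM) :
    ∀ i ≤ 2 * k, W (k * k + i) → (wblk wt lt KM k).testBit i = true := by
  intro i hi h
  have h1 := hR _ h
  unfold wblk
  rw [Fa.frc_eq]
  have hw : (msk (2 * k + 1)).testBit i = true := msk_testBit (by omega)
  have a0 := Fa.cut_sup (b := 2 * KM + 1) hT.2 (by omega)
  have a1 := Fa.cut_sup (b := 3 * KM + 16) hT.1 (by omega)
  have a2 := Fa.cut_sup (b := 4 * KM + (KM / 64 + 32)) hT.2 (by omega)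
  have a3 := Fa.cut_sup (b := 6 * KM + 32) hT.1 (by omega)
  have a4 := Fa.cut_sup (b := 8 * KM + (KM / 64 + 32)) hT.2 (by omega)
  have a5 := Fa.cut_sup (b := 12 * KM + 64) hT.1 (by omega)
  have key := supA_wf (B := KM) a0 a1 a2 a3 a4 a5 (by omega) (by unfold nxt; omega)
    (by unfold nxt; omega) (by unfold nxt; omega) (by unfold nxt; omega) (by unfold nxt; omega)
    (by unfold nxt; omega)
    (msk (2 * k + 1)) k 0 (2 * k + 1) i hk0 hk (by omega) (by omega) hw
    (by rw [Nat.zero_add]; exact h1)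
  exact key

theorem asr_testBit {P : ℕ → Prop} {f : ℕ → ℕ} (d : ℕ) : ∀ (K n : ℕ), 1 ≤ n → n ≤ 2 ^ d →
    (∀ k, K ≤ k → k < K + n → ∀ i ≤ 2 * k, P (k * k + i) → (f k).testBit i = true) →
    ∀ m, K * K ≤ m → m < (K + n) * (K + n) → P m →
      (asr f d K n).testBit (m - K * K) = true := by
  have one : ∀ K : ℕ, (∀ i ≤ 2 * K, P (K * K + i) → (f K).testBit i = true) →
      ∀ m, K * K ≤ m → m < (K + 1) * (K + 1) → P m → (f K).testBit (m - K * K) = true := by
    intro K hf m h1 h2 h3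
    have h4 : (K + 1) * (K + 1) = K * K + 2 * K + 1 := by ring
    apply hf (m - K * K) (by omega)
    rwa [show K * K + (m - K * K) = m by omega]
  induction d with
  | zero =>
    intro K n h1 h2 hf
    have : n = 1 := by
      rw [pow_zero] at h2
      omega
    subst this
    exact one K (hf K le_rfl (by omega))
  | succ d ih =>
    intro K n h1 h2 hf
    have e : asr f (d + 1) K n = @Bool.rec (fun _ => ℕ)
      (Fa.frc (fun h => Fa.frc (fun K => Fa.frc (fun K' => Nat.lor (asr f d K h)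
        (Nat.shiftLeft (asr f d K' (Nat.sub n h)) (Nat.sub (Nat.mul K' K') (Nat.mul K K))))
          (Nat.add K h)) K) (Nat.div n 2))
      (f K) (Nat.ble n 1) := rfl
    cases hb : Nat.ble n 1 with
    | true =>
      have : n = 1 := by
        have := Nat.le_of_ble_eq_true hb
        omega
      rw [e, hb]
      subst this
      exact one K (hf K le_rfl (by omega))
    | false =>
      have hn : ¬ n ≤ 1 := fun hh => by
        rw [Nat.ble_eq_true_of_le hh] at hb
        exact absurd hb (by decide)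
      rw [e, hb]
      change ∀ m, _ → _ → _ → ((Fa.frc (fun h => Fa.frc (fun K => Fa.frc (fun K' => Nat.lor (asr f d K h)
        (Nat.shiftLeft (asr f d K' (Nat.sub n h)) (Nat.sub (Nat.mul K' K') (Nat.mul K K))))
          (Nat.add K h)) K) (Nat.div n 2)) : ℕ).testBit _ = true
      rw [Fa.frc_eq, Fa.frc_eq, Fa.frc_eq]
      change ∀ m, _ → _ → _ → (asr f d K (n / 2) ||| (asr f d (K + n / 2) (n - n / 2)) <<<
        ((K + n / 2) * (K + n / 2) - K * K)).testBit (m - K * K) = true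
      have h3 : 1 ≤ n / 2 := by omega
      have h4 : n / 2 ≤ 2 ^ d := by rw [pow_succ] at h2; omega
      have h5 : n - n / 2 ≤ 2 ^ d := by rw [pow_succ] at h2; omega
      generalize hh : n / 2 = h at *
      have hh2 : h < n := by omega
      intro m hm1 hm2 hm3
      rw [Nat.testBit_or, Bool.or_eq_true]
      by_cases hc : m < (K + h) * (K + h)
      · left
        exact ih K h h3 h4 (fun k hk1 hk2 => hf k hk1 (by omega)) m hm1 hc hm3
      · right
        have h6 : K * K ≤ (K + h) * (K + h) := Nat.mul_le_mul (by omega) (by omega)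
        rw [Nat.testBit_shiftLeft, Bool.and_eq_true]
        refine ⟨by rw [decide_eq_true_eq]; omega, ?_⟩
        have h7 := ih (K + h) (n - h) (by omega) h5 (fun k hk1 hk2 => hf k (by omega) (by omega))
          m (by omega) (by rw [show K + h + (n - h) = K + n by omega]; exact hm2) hm3
        rwa [show m - K * K - ((K + h) * (K + h) - K * K) = m - (K + h) * (K + h) by omega]

/-- `X` contains the positions `[y0, y0 + len)` with `P`, relative to `y0` -/
def Seg (P : ℕ → Prop) (X y0 len : ℕ) : Prop :=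
  ∀ m, y0 ≤ m → m < y0 + len → P m → X.testBit (m - y0) = true

theorem seg_segT {P : ℕ → Prop} {T y0 len R : ℕ} (hT : ∀ n < R, P n → T.testBit n = true)
    (h : y0 + len ≤ R) : Seg P (segT T y0 len) y0 len := by
  intro m h1 h2 h3
  change ((T >>> y0) &&& msk len).testBit (m - y0) = true
  rw [Nat.testBit_and, msk_testBit (by omega), Bool.and_true, Nat.testBit_shiftRight,
    show y0 + (m - y0) = m by omega]
  exact hT m (by omega) h3

theorem seg_segB {P : ℕ → Prop} {f : ℕ → ℕ} {b0 cnt y0 len : ℕ}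
    (hf : ∀ k, b0 ≤ k → k < b0 + cnt → ∀ i ≤ 2 * k, P (k * k + i) → (f k).testBit i = true)
    (hc1 : 1 ≤ cnt) (hc2 : cnt ≤ 16384) (h1 : b0 * b0 ≤ y0)
    (h2 : y0 + len ≤ (b0 + cnt) * (b0 + cnt)) : Seg P (segB f b0 cnt y0 len) y0 len := by
  intro m h3 h4 h5
  change (((asr f 14 b0 cnt) >>> (y0 - b0 * b0)) &&& msk len).testBit (m - y0) = true
  rw [Nat.testBit_and, msk_testBit (by omega), Bool.and_true, Nat.testBit_shiftRight,
    show y0 - b0 * b0 + (m - y0) = m - b0 * b0 by omega]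
  exact asr_testBit 14 b0 cnt hc1 (by norm_num; exact hc2) hf m (by omega) (by omega) h5

theorem seg_segM {P : ℕ → Prop} {T : ℕ} {f : ℕ → ℕ} {cnt y0 len : ℕ}
    (hT : ∀ n < 2200 * 2200, P n → T.testBit n = true)
    (hf : ∀ k, 2200 ≤ k → k < 2200 + cnt → ∀ i ≤ 2 * k, P (k * k + i) → (f k).testBit i = true)
    (hc1 : 1 ≤ cnt) (hc2 : cnt ≤ 16384) (h1 : y0 ≤ 4840000)
    (h2 : y0 + len ≤ (2200 + cnt) * (2200 + cnt)) : Seg P (segM T f cnt y0 len) y0 len := by
  intro m h3 h4 h5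
  change (((T >>> y0) ||| (asr f 14 2200 cnt) <<< (4840000 - y0)) &&& msk len).testBit
    (m - y0) = true
  rw [Nat.testBit_and, msk_testBit (by omega), Bool.and_true, Nat.testBit_or,
    Bool.or_eq_true, Nat.testBit_shiftRight, show y0 + (m - y0) = m by omega]
  by_cases hc : m < 2200 * 2200
  · exact Or.inl (hT m hc h5)
  · right
    rw [Nat.testBit_shiftLeft, Bool.and_eq_true]
    refine ⟨by rw [decide_eq_true_eq]; omega, ?_⟩
    rw [show m - y0 - (4840000 - y0) = m - 2200 * 2200 by omega]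
    exact asr_testBit 14 2200 cnt hc1 (by norm_num; exact hc2) hf m (by omega) (by omega) h5

end Pool.Agent.AddSq.Co
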