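import Mathlib

/-!
Popcount of a natural number by mask folds, for evaluation in the kernel.

`fs s n x` is the sum of the first `n` digits of `x` in base `2 ^ s`.
`fold s m x` turns base `2 ^ s` digits into base `2 ^ (2 s)` digits, pair by pair.
`pc n x` is the number of set bits of `x` among the first `32 n` ones.
-/

namespace Pool.Agent.AddSq.Pop

/-- Sum of the first `n` digits of `x` in base `2 ^ s`. -/
def fs (s n x : ℕ) : ℕ := ∑ j ∈ Finset.range n, (x / 2 ^ (s * j)) % 2 ^ s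

/-- The mask with the low `s` bits of each of the first `n` fields of length `2 s`. -/
def mask (s n : ℕ) : ℕ := (2 ^ (2 * s * n) - 1) / (2 ^ (2 * s) - 1) * (2 ^ s - 1)

/-- One fold: pairs of digits are added. -/
def fold (s m x : ℕ) : ℕ := Nat.add (Nat.land x m) (Nat.land (Nat.shiftRight x s) m)

theorem mask_zero (s : ℕ) : mask s 0 = 0 := by simp [mask]

theorem mask_succ (s n : ℕ) (hs : 0 < s) :
    mask s (n + 1) = 2 ^ (2 * s * n) * (2 ^ s - 1) + mask s n := by
  have hX : 1 < 2 ^ (2 * s) := Nat.one_lt_two_pow (by omega)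
  have e : ∀ n, (2 : ℕ) ^ (2 * s * n) = (2 ^ (2 * s)) ^ n := fun n => by rw [← pow_mul]
  unfold mask
  rw [e, e, ← Nat.geomSum_eq hX, ← Nat.geomSum_eq hX, Finset.sum_range_succ]
  ring

theorem mask_lt (s n : ℕ) (hs : 0 < s) : mask s n < 2 ^ (2 * s * n) := by
  induction n with
  | zero => simp [mask_zero]
  | succ n ih =>
    rw [mask_succ s n hs]
    have h1 : (2 : ℕ) ^ (2 * s * (n + 1)) = 2 ^ (2 * s * n) * 2 ^ (2 * s) := by
      rw [← pow_add]; congr 1
    have h2 : (2 : ℕ) ^ s < 2 ^ (2 * s) := Nat.pow_lt_pow_right (by norm_num) (by omega)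
    have h3 : 0 < 2 ^ (2 * s * n) := by positivity
    have h4 : 0 < 2 ^ s := by positivity
    rw [h1]
    calc 2 ^ (2 * s * n) * (2 ^ s - 1) + mask s n
        < 2 ^ (2 * s * n) * (2 ^ s - 1) + 2 ^ (2 * s * n) := Nat.add_lt_add_left ih _
      _ = 2 ^ (2 * s * n) * (2 ^ s - 1 + 1) := by ring
      _ ≤ 2 ^ (2 * s * n) * 2 ^ (2 * s) := Nat.mul_le_mul_left _ (by omega)

/-- Land of numbers split at bit `i`. -/
theorem land_split (i a b c d : ℕ) (hb : b < 2 ^ i) (hd : d < 2 ^ i) :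
    (2 ^ i * a + b) &&& (2 ^ i * c + d) = 2 ^ i * (a &&& c) + (b &&& d) := by
  apply Nat.eq_of_testBit_eq
  intro j
  have hbd : b &&& d < 2 ^ i := lt_of_le_of_lt Nat.and_le_left hb
  rw [Nat.testBit_and, Nat.testBit_two_pow_mul_add a hb, Nat.testBit_two_pow_mul_add c hd,
    Nat.testBit_two_pow_mul_add (a &&& c) hbd]
  split <;> simp

/-- Digits of a remainder. -/
theorem mod_div_mod (x a b s : ℕ) (h : b + s ≤ a) :
    (x % 2 ^ a) / 2 ^ b % 2 ^ s = x / 2 ^ b % 2 ^ s := by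
  apply Nat.eq_of_testBit_eq
  intro j
  rw [Nat.testBit_mod_two_pow, Nat.testBit_mod_two_pow, Nat.testBit_div_two_pow,
    Nat.testBit_div_two_pow, Nat.testBit_mod_two_pow]
  by_cases hj : j < s
  · have : j + b < a := by omega
    simp [hj, this]
  · simp [hj]

theorem land_mask_lt (s n x : ℕ) (hs : 0 < s) (hx : x < 2 ^ (2 * s * n)) :
    x &&& mask s n = ∑ j ∈ Finset.range n, (x / 2 ^ (2 * s * j)) % 2 ^ s * 2 ^ (2 * s * j) := by
  induction n generalizing x with
  | zero => simp [mask_zero]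
  | succ n ih =>
    have h0 : 0 < 2 ^ (2 * s * n) := by positivity
    have e : x = 2 ^ (2 * s * n) * (x / 2 ^ (2 * s * n)) + x % 2 ^ (2 * s * n) :=
      (Nat.div_add_mod _ _).symm
    have hm := Nat.mod_lt x h0
    conv_lhs => rw [e]
    rw [mask_succ s n hs, land_split _ _ _ _ _ hm (mask_lt s n hs),
      Nat.and_two_pow_sub_one_eq_mod, ih _ hm, Finset.sum_range_succ, add_comm,
      mul_comm (2 ^ (2 * s * n)) (_ % 2 ^ s)]
    congr 1
    apply Finset.sum_congr rfl
    intro j hj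
    have hj : j < n := Finset.mem_range.mp hj
    have hs2 : 2 * s * j + s ≤ 2 * s * n := by
      have : j + 1 ≤ n := hj
      calc 2 * s * j + s ≤ 2 * s * (j + 1) := by ring_nf; omega
        _ ≤ _ := Nat.mul_le_mul_left _ this
    rw [mod_div_mod _ _ _ _ hs2]

theorem land_mask (s n x : ℕ) (hs : 0 < s) :
    x &&& mask s n = ∑ j ∈ Finset.range n, (x / 2 ^ (2 * s * j)) % 2 ^ s * 2 ^ (2 * s * j) := by
  have h0 : 0 < 2 ^ (2 * s * n) := by positivity
  have h1 : x &&& mask s n = (x % 2 ^ (2 * s * n)) &&& mask s n := by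
    apply Nat.eq_of_testBit_eq
    intro j
    rw [Nat.testBit_and, Nat.testBit_and, Nat.testBit_mod_two_pow]
    by_cases hj : j < 2 * s * n
    · simp [hj]
    · have : (mask s n).testBit j = false := by
        apply Nat.testBit_lt_two_pow
        exact lt_of_lt_of_le (mask_lt s n hs) (Nat.pow_le_pow_right (by norm_num) (by omega))
      simp [this]
  rw [h1, land_mask_lt s n _ hs (Nat.mod_lt _ h0)]
  apply Finset.sum_congr rfl
  intro j hj
  have hj : j < n := Finset.mem_range.mp hj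
  have hs2 : 2 * s * j + s ≤ 2 * s * n := by
    have : j + 1 ≤ n := hj
    calc 2 * s * j + s ≤ 2 * s * (j + 1) := by ring_nf; omega
      _ ≤ _ := Nat.mul_le_mul_left _ this
  rw [mod_div_mod _ _ _ _ hs2]

theorem poly_lt (X n : ℕ) (c : ℕ → ℕ) (hc : ∀ j, c j < X) :
    ∑ j ∈ Finset.range n, c j * X ^ j < X ^ n := by
  induction n with
  | zero => simp
  | succ n ih =>
    rw [Finset.sum_range_succ]
    have h1 : (c n + 1) * X ^ n ≤ X * X ^ n := Nat.mul_le_mul_right _ (hc n)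
    calc _ < X ^ n + c n * X ^ n := Nat.add_lt_add_right ih _
      _ = (c n + 1) * X ^ n := by ring
      _ ≤ X * X ^ n := h1
      _ = X ^ (n + 1) := by ring

theorem poly_digit (X n i : ℕ) (c : ℕ → ℕ) (hc : ∀ j, c j < X) (hi : i < n) :
    (∑ j ∈ Finset.range n, c j * X ^ j) / X ^ i % X = c i := by
  have hX : 0 < X := lt_of_le_of_lt (Nat.zero_le _) (hc 0)
  obtain ⟨k, rfl⟩ : ∃ k, n = i + (k + 1) := ⟨n - i - 1, by omega⟩
  rw [Finset.sum_range_add]
  have h1 : ∑ x ∈ Finset.range (k + 1), c (i + x) * X ^ (i + x)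
      = X ^ i * (X * (∑ x ∈ Finset.range k, c (i + (x + 1)) * X ^ x) + c i) := by
    rw [Finset.sum_range_succ', mul_add, Finset.mul_sum, Finset.mul_sum, add_zero, mul_comm (c i)]
    congr 1
    apply Finset.sum_congr rfl
    intro j _
    rw [pow_add, pow_succ]; ring
  rw [h1, add_comm, Nat.mul_add_div (by positivity), Nat.div_eq_of_lt (poly_lt X i c hc), add_zero,
    Nat.mul_add_mod, Nat.mod_eq_of_lt (hc i)]

theorem poly_eq (X n x : ℕ) (hX : 0 < X) (hx : x < X ^ n) :
    x = ∑ j ∈ Finset.range n, (x / X ^ j % X) * X ^ j := by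
  induction n generalizing x with
  | zero => simp at hx; simp [hx]
  | succ n ih =>
    rw [Finset.sum_range_succ']
    have h1 : x / X < X ^ n := by
      rw [Nat.div_lt_iff_lt_mul hX]; rwa [pow_succ] at hx
    have h2 := ih _ h1
    have h3 : ∑ k ∈ Finset.range n, x / X ^ (k + 1) % X * X ^ (k + 1) = (x / X) * X := by
      conv_rhs => rw [h2]
      rw [Finset.sum_mul]
      apply Finset.sum_congr rfl
      intro j _
      rw [Nat.div_div_eq_div_mul, pow_succ, mul_comm X, mul_assoc]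
    rw [h3]; simp [Nat.div_add_mod']

theorem sum_range_two_mul (n : ℕ) (f : ℕ → ℕ) :
    ∑ j ∈ Finset.range (2 * n), f j = ∑ j ∈ Finset.range n, (f (2 * j) + f (2 * j + 1)) := by
  induction n with
  | zero => simp
  | succ n ih =>
    rw [show 2 * (n + 1) = 2 * n + 1 + 1 by ring, Finset.sum_range_succ, Finset.sum_range_succ,
      Finset.sum_range_succ, ih]
    ring

theorem fold_eq (s n x : ℕ) (hs : 0 < s) :
    fold s (mask s n) x = ∑ j ∈ Finset.range n,
      ((x / 2 ^ (s * (2 * j))) % 2 ^ s + (x / 2 ^ (s * (2 * j + 1))) % 2 ^ s) *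
        (2 ^ (2 * s)) ^ j := by
  have h : fold s (mask s n) x = (x &&& mask s n) + ((x >>> s) &&& mask s n) := rfl
  rw [h, land_mask s n x hs, land_mask s n _ hs, ← Finset.sum_add_distrib]
  apply Finset.sum_congr rfl
  intro j _
  rw [Nat.shiftRight_eq_div_pow, Nat.div_div_eq_div_mul, ← pow_add, ← pow_mul, ← add_mul,
    show 2 * s * j = s * (2 * j) by ring, show s + s * (2 * j) = s * (2 * j + 1) by ring]

theorem fold_digit_lt (s : ℕ) (hs : 0 < s) (x : ℕ) (j : ℕ) :
    (x / 2 ^ (s * (2 * j))) % 2 ^ s + (x / 2 ^ (s * (2 * j + 1))) % 2 ^ s < 2 ^ (2 * s) := by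
  have h0 : 0 < 2 ^ s := by positivity
  have h1 := Nat.mod_lt (x / 2 ^ (s * (2 * j))) h0
  have h2 := Nat.mod_lt (x / 2 ^ (s * (2 * j + 1))) h0
  have h3 : 2 ^ (s + 1) ≤ 2 ^ (2 * s) := Nat.pow_le_pow_right (by norm_num) (by omega)
  rw [pow_succ] at h3
  omega

/-- A fold keeps the digit sum. -/
theorem fs_fold (s n x : ℕ) (hs : 0 < s) : fs (2 * s) n (fold s (mask s n) x) = fs s (2 * n) x := by
  unfold fs
  rw [sum_range_two_mul, fold_eq s n x hs]
  apply Finset.sum_congr rfl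
  intro j hj
  have hj : j < n := Finset.mem_range.mp hj
  rw [show (2 : ℕ) ^ (2 * s * j) = (2 ^ (2 * s)) ^ j by rw [← pow_mul],
    poly_digit (2 ^ (2 * s)) n j _ (fold_digit_lt s hs x) hj]

theorem fold_lt (s n x : ℕ) (hs : 0 < s) : fold s (mask s n) x < 2 ^ (2 * s * n) := by
  rw [fold_eq s n x hs, show (2 : ℕ) ^ (2 * s * n) = (2 ^ (2 * s)) ^ n by rw [← pow_mul]]
  exact poly_lt _ _ _ (fold_digit_lt s hs x)

theorem fs_modEq (s n x : ℕ) (hx : x < 2 ^ (s * n)) : fs s n x ≡ x [MOD 2 ^ s - 1] := by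
  have hX : 0 < 2 ^ s := by positivity
  have h := poly_eq (2 ^ s) n x hX (by rwa [← pow_mul])
  have h1 : fs s n x = ∑ j ∈ Finset.range n, x / (2 ^ s) ^ j % 2 ^ s := by
    unfold fs
    apply Finset.sum_congr rfl
    intro j _
    rw [← pow_mul]
  conv_rhs => rw [h]
  rw [h1]
  apply Nat.ModEq.sum
  intro j _
  have h2 : 2 ^ s ≡ 1 [MOD 2 ^ s - 1] := by
    have : 2 ^ s = 1 + (2 ^ s - 1) := by omega
    conv_lhs => rw [this]
    simp [Nat.ModEq]
  have h3 : (2 ^ s) ^ j ≡ 1 [MOD 2 ^ s - 1] := by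
    have := h2.pow j
    simpa using this
  have h4 := Nat.ModEq.mul_left (x / (2 ^ s) ^ j % 2 ^ s) h3
  rw [mul_one] at h4
  exact h4.symm

theorem fs_eq_mod (s n x : ℕ) (hx : x < 2 ^ (s * n)) (h : fs s n x < 2 ^ s - 1) :
    fs s n x = x % (2 ^ s - 1) := by
  have := fs_modEq s n x hx
  unfold Nat.ModEq at this
  rwa [Nat.mod_eq_of_lt h] at this

/-- The number of set bits of `x` below `n`. -/
def pop (n x : ℕ) : ℕ := ((Finset.range n).filter fun i => x.testBit i = true).card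

theorem pop_eq_fs (n x : ℕ) : pop n x = fs 1 n x := by
  unfold pop fs
  rw [Finset.card_filter]
  apply Finset.sum_congr rfl
  intro j _
  rw [one_mul, pow_one, Nat.testBit_eq_decide_div_mod_eq]
  rcases Nat.mod_two_eq_zero_or_one (x / 2 ^ j) with h | h <;> simp [h]

/-- Popcount by five folds and one remainder; `n` is the number of 32-bit words, the masks are
passed as arguments so that they are computed only once. -/
def pc (m1 m2 m4 m8 m16 x : ℕ) : ℕ :=
  Nat.mod (fold 16 m16 (fold 8 m8 (fold 4 m4 (fold 2 m2 (fold 1 m1 x))))) 4294967295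

theorem pc_eq (n x : ℕ) (hn : n < 134217728) :
    pc (mask 1 (16 * n)) (mask 2 (8 * n)) (mask 4 (4 * n)) (mask 8 (2 * n)) (mask 16 n) x
      = pop (32 * n) x := by
  have h : fs 32 n (fold 16 (mask 16 n) (fold 8 (mask 8 (2 * n)) (fold 4 (mask 4 (4 * n))
      (fold 2 (mask 2 (8 * n)) (fold 1 (mask 1 (16 * n)) x))))) = pop (32 * n) x := by
    rw [show (32 : ℕ) = 2 * 16 by rfl, fs_fold 16 n _ (by norm_num)]
    rw [show (16 : ℕ) = 2 * 8 by rfl, fs_fold 8 (2 * n) _ (by norm_num)]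
    rw [show 2 * (2 * n) = 4 * n by ring, show (8 : ℕ) = 2 * 4 by rfl,
      fs_fold 4 (4 * n) _ (by norm_num)]
    rw [show 2 * (4 * n) = 2 * 4 * n by ring, show fs 4 (2 * 4 * n) = fs (2 * 2) (2 * 4 * n) by rfl,
      fs_fold 2 (2 * 4 * n) _ (by norm_num)]
    rw [show fs 2 = fs (2 * 1) by rfl, show 2 * (2 * 4 * n) = 2 * (2 * 4) * n by ring,
      fs_fold 1 (2 * (2 * 4) * n) _ (by norm_num), pop_eq_fs]
    congr 1; ring
  have hlt := fold_lt 16 n (fold 8 (mask 8 (2 * n)) (fold 4 (mask 4 (4 * n))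
      (fold 2 (mask 2 (8 * n)) (fold 1 (mask 1 (16 * n)) x)))) (by norm_num)
  have hpop : pop (32 * n) x ≤ 32 * n := by
    unfold pop
    exact (Finset.card_filter_le _ _).trans (by simp)
  have := fs_eq_mod 32 n _ hlt (by rw [h]; norm_num; omega)
  rw [h] at this
  exact this.symm

end Pool.Agent.AddSq.Pop
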