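import Pool.Agent.AddSq.CorrIface
import Pool.Agent.AddSq.Popcount

/-!
# Correlations by one multiplication: the digits of a product

`X` is the set `A ∩ [p, q)` reversed and spread with `f` bits per position, `Y` the set
`B ∩ [y₀, y₁)` spread in the same way. The digit `t` of `X * Y` in base `2 ^ f` is the number of
pairs `(a, b)` with `b - a = t + y₀ + 1 - q`. Two masks bound all the digits of a range.
-/

namespace Pool.Agent.AddSq.CP

open Finset

/-- digit `t` of `P` in base `2 ^ f` -/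
def dg (f P t : ℕ) : ℕ := P / 2 ^ (f * t) % 2 ^ f

/-- `1 + 2 ^ f + … + 2 ^ (f (T - 1))` -/
def ones (f T : ℕ) : ℕ := (2 ^ (f * T) - 1) / (2 ^ f - 1)

theorem ones_eq_sum {f : ℕ} (hf : 1 ≤ f) (T : ℕ) :
    ones f T = ∑ t ∈ range T, (2 ^ f) ^ t := by
  have hX : 1 < 2 ^ f := Nat.one_lt_two_pow (by omega)
  unfold ones
  rw [pow_mul, ← Nat.geomSum_eq hX]

/-- all the bits of `X` are at multiples of `f`, below `f * n` -/
def Spr (f n X : ℕ) : Prop := X < 2 ^ (f * n) ∧ ∀ e, X.testBit e = true → f ∣ e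

theorem dg_lt {f : ℕ} (P t : ℕ) : dg f P t < 2 ^ f := Nat.mod_lt _ (by positivity)

theorem dg_testBit {f P t k : ℕ} (hk : k < f) : (dg f P t).testBit k = P.testBit (f * t + k) := by
  unfold dg
  rw [Nat.testBit_mod_two_pow, Nat.testBit_div_two_pow, decide_eq_true hk, Bool.true_and,
    add_comm]

theorem dg_shift (f P t0 j : ℕ) : dg f (P >>> (f * t0)) j = dg f P (t0 + j) := by
  unfold dg
  rw [Nat.shiftRight_eq_div_pow, Nat.div_div_eq_div_mul, ← pow_add, ← mul_add]

theorem expand {f : ℕ} {P M : ℕ} (h : P < 2 ^ (f * M)) :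
    P = ∑ t ∈ range M, dg f P t * (2 ^ f) ^ t := by
  have h1 := Pop.poly_eq (2 ^ f) M P (by positivity) (by rwa [← pow_mul])
  conv_lhs => rw [h1]
  apply sum_congr rfl
  intro t _
  unfold dg
  rw [← pow_mul]

theorem dg_sum {f N t : ℕ} (c : ℕ → ℕ) (hc : ∀ j, c j < 2 ^ f) (ht : t < N) :
    dg f (∑ j ∈ range N, c j * (2 ^ f) ^ j) t = c t := by
  unfold dg
  rw [pow_mul]
  exact Pop.poly_digit (2 ^ f) N t c hc ht

/-- the top bit of the digit `j` is a bit of the mask -/
theorem mask_testBit {f T j : ℕ} (hf : 1 ≤ f) (hj : j < T) :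
    (2 ^ (f - 1) * ones f T).testBit (f * j + (f - 1)) = true := by
  have hX : 1 < 2 ^ f := Nat.one_lt_two_pow (by omega)
  have h1 : dg f (ones f T) j = 1 := by
    rw [ones_eq_sum hf]
    have := dg_sum (f := f) (N := T) (t := j) (fun _ => 1) (fun _ => hX) hj
    simpa using this
  rw [Nat.testBit_two_pow_mul, show f * j + (f - 1) - (f - 1) = f * j + 0 by omega,
    ← dg_testBit (by omega : 0 < f), h1]
  simp

/-- a number whose top bit is zero -/
theorem lt_of_top {f d : ℕ} (hf : 1 ≤ f) (hd : d < 2 ^ f) (h : d.testBit (f - 1) = false) :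
    d < 2 ^ (f - 1) := by
  by_contra hcon
  push Not at hcon
  have h1 : d / 2 ^ (f - 1) = 1 := by
    apply Nat.div_eq_of_lt_le
    · omega
    · have : 2 ^ f = (1 + 1) * 2 ^ (f - 1) := by
        conv_lhs => rw [show f = f - 1 + 1 by omega, pow_succ]
        ring
      omega
  rw [Nat.testBit_eq_decide_div_mod_eq, h1] at h
  simp at h

/-- the mask test on a number `Q` -/
theorem top_of_mask {f Q T j : ℕ} (hf : 1 ≤ f)
    (h : Q &&& (2 ^ (f - 1) * ones f T) = 0) (hj : j < T) : dg f Q j < 2 ^ (f - 1) := by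
  have h1 : (Q &&& (2 ^ (f - 1) * ones f T)).testBit (f * j + (f - 1)) = false := by
    rw [h]
    exact Nat.zero_testBit _
  rw [Nat.testBit_and, mask_testBit hf hj, Bool.and_true] at h1
  apply lt_of_top hf (dg_lt _ _)
  rwa [dg_testBit (by omega)]

/-- adding `κ` to the first `T` digits -/
theorem dg_add {f Q κ T j : ℕ} (hf : 1 ≤ f) (hκ : κ < 2 ^ (f - 1))
    (hd : ∀ i < T, dg f Q i < 2 ^ (f - 1)) (hj : j < T) :
    dg f (Q + κ * ones f T) j = dg f Q j + κ := by
  obtain ⟨M, hM, hTM⟩ : ∃ M, Q < 2 ^ (f * M) ∧ T ≤ M := by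
    refine ⟨max Q T, ?_, le_max_right _ _⟩
    calc Q < 2 ^ Q := Nat.lt_two_pow_self
      _ ≤ 2 ^ (f * max Q T) := by
        apply Nat.pow_le_pow_right (by norm_num)
        calc Q ≤ max Q T := le_max_left _ _
          _ ≤ f * max Q T := Nat.le_mul_of_pos_left _ (by omega)
  have h2 : 2 ^ f = 2 ^ (f - 1) + 2 ^ (f - 1) := by
    conv_lhs => rw [show f = f - 1 + 1 by omega, pow_succ]
    ring
  set c : ℕ → ℕ := fun i => if i < T then dg f Q i + κ else dg f Q i with hc
  have hcl : ∀ i, c i < 2 ^ f := by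
    intro i
    simp only [hc]
    split
    · rename_i hi
      have := hd i hi
      omega
    · exact dg_lt _ _
  have key : Q + κ * ones f T = ∑ i ∈ range M, c i * (2 ^ f) ^ i := by
    have e1 : κ * ones f T = ∑ i ∈ range M, (if i < T then κ else 0) * (2 ^ f) ^ i := by
      rw [ones_eq_sum hf, mul_sum]
      rw [← sum_subset (range_subset_range.2 hTM)]
      · apply sum_congr rfl
        intro i hi
        rw [if_pos (mem_range.1 hi)]
      · intro i _ hi
        rw [if_neg (by simpa using hi), zero_mul]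
    conv_lhs => rw [expand hM, e1, ← sum_add_distrib]
    apply sum_congr rfl
    intro i _
    simp only [hc]
    split <;> ring
  rw [key, dg_sum c hcl (by omega)]
  simp only [hc, if_pos hj]

/-- first test: the digits `t ∈ [t₀, t₀ + T)` are below `2 ^ (f - 1)` -/
theorem dg_of_mask {f P t0 T : ℕ} (hf : 1 ≤ f)
    (h : (P >>> (f * t0)) &&& (2 ^ (f - 1) * ones f T) = 0) :
    ∀ t, t0 ≤ t → t < t0 + T → dg f P t < 2 ^ (f - 1) := by
  intro t h1 h2
  have := top_of_mask hf h (j := t - t0) (by omega)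
  rwa [dg_shift, show t0 + (t - t0) = t by omega] at this

/-- second test: the digits `t ∈ [t₀, t₀ + T)` are at most `τ` -/
theorem dg_le {f P t0 T τ : ℕ} (hf : 1 ≤ f) (hτ : τ < 2 ^ (f - 1))
    (h1 : ∀ t, t0 ≤ t → t < t0 + T → dg f P t < 2 ^ (f - 1))
    (h2 : ((P >>> (f * t0)) + (2 ^ (f - 1) - 1 - τ) * ones f T) &&&
      (2 ^ (f - 1) * ones f T) = 0) :
    ∀ t, t0 ≤ t → t < t0 + T → dg f P t ≤ τ := by
  intro t h3 h4
  have h5 := top_of_mask hf h2 (j := t - t0) (by omega)
  rw [dg_add hf (by omega) (fun i hi => by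
    rw [dg_shift]
    exact h1 _ (by omega) (by omega)) (by omega), dg_shift,
    show t0 + (t - t0) = t by omega] at h5
  omega

/-- both tests in one -/
theorem dg_le_of_or {f P t0 T τ : ℕ} (hf : 1 ≤ f) (hτ : τ < 2 ^ (f - 1))
    (h : ((P >>> (f * t0)) ||| ((P >>> (f * t0)) + (2 ^ (f - 1) - 1 - τ) * ones f T)) &&&
      (2 ^ (f - 1) * ones f T) = 0) :
    ∀ t, t0 ≤ t → t < t0 + T → dg f P t ≤ τ := by
  have h' : ∀ a b c : ℕ, (a ||| b) &&& c = 0 → a &&& c = 0 ∧ b &&& c = 0 := by
    intro a b c h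
    have h1 : ∀ i, (((a ||| b) &&& c)).testBit i = false := by
      intro i
      rw [h]
      exact Nat.zero_testBit _
    constructor
    · apply Nat.eq_of_testBit_eq
      intro i
      have h2 := h1 i
      rw [Nat.testBit_and, Nat.testBit_or] at h2
      rw [Nat.testBit_and, Nat.zero_testBit]
      revert h2
      cases a.testBit i <;> cases b.testBit i <;> cases c.testBit i <;> simp
    · apply Nat.eq_of_testBit_eq
      intro i
      have h2 := h1 i
      rw [Nat.testBit_and, Nat.testBit_or] at h2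
      rw [Nat.testBit_and, Nat.zero_testBit]
      revert h2
      cases a.testBit i <;> cases b.testBit i <;> cases c.testBit i <;> simp
  obtain ⟨h1, h2⟩ := h' _ _ _ h
  exact dg_le hf hτ (dg_of_mask hf h1) h2

/-! ### The product -/

/-- the positions of a spread number -/
def pos (f n X : ℕ) : Finset ℕ := (range n).filter (fun i => X.testBit (f * i) = true)

theorem spr_eq {f n X : ℕ} (hf : 1 ≤ f) (h : Spr f n X) : X = ∑ i ∈ pos f n X, (2 ^ f) ^ i := by
  conv_lhs => rw [expand h.1]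
  unfold pos
  rw [sum_filter]
  apply sum_congr rfl
  intro i _
  have hd : dg f X i = if X.testBit (f * i) = true then 1 else 0 := by
    apply Nat.eq_of_testBit_eq
    intro k
    by_cases hk : k < f
    · rw [dg_testBit hk]
      by_cases hk0 : k = 0
      · subst hk0
        rw [add_zero]
        cases X.testBit (f * i) <;> simp
      · have h1 : X.testBit (f * i + k) = false := by
          by_contra hcon
          rw [Bool.not_eq_false] at hcon
          have h2 := h.2 _ hcon
          rw [Nat.dvd_add_right (Dvd.intro i rfl)] at h2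
          have := Nat.le_of_dvd (by omega) h2
          omega
        rw [h1]
        symm
        split
        · exact Nat.testBit_one_eq_true_iff_self_eq_zero.not.2 hk0 |> Bool.eq_false_of_not_eq_true
        · exact Nat.zero_testBit _
    · have h1 : dg f X i < 2 ^ k :=
        lt_of_lt_of_le (dg_lt _ _) (Nat.pow_le_pow_right (by norm_num) (by omega))
      rw [Nat.testBit_lt_two_pow h1]
      symm
      split
      · exact Nat.testBit_one_eq_true_iff_self_eq_zero.not.2 (by omega) |>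
          Bool.eq_false_of_not_eq_true
      · exact Nat.zero_testBit _
  rw [hd]
  split <;> simp

theorem prod_eq {f n m X Y : ℕ} (hf : 1 ≤ f) (hX : Spr f n X) (hY : Spr f m Y) :
    X * Y = ∑ t ∈ range (n + m),
      ((pos f n X ×ˢ pos f m Y).filter (fun z => z.1 + z.2 = t)).card * (2 ^ f) ^ t := by
  conv_lhs => rw [spr_eq hf hX, spr_eq hf hY]
  rw [sum_mul_sum, ← sum_product']
  have hmap : ∀ z ∈ pos f n X ×ˢ pos f m Y, z.1 + z.2 ∈ range (n + m) := by
    intro z hz
    unfold pos at hz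
    simp only [mem_product, mem_filter, mem_range] at hz ⊢
    omega
  rw [← sum_fiberwise_of_maps_to hmap]
  apply sum_congr rfl
  intro t _
  rw [card_eq_sum_ones, sum_mul]
  apply sum_congr rfl
  intro z hz
  rw [one_mul, ← pow_add, (mem_filter.1 hz).2]

theorem card_fib_le_left (S S' : Finset ℕ) (t : ℕ) :
    ((S ×ˢ S').filter (fun z => z.1 + z.2 = t)).card ≤ S.card := by
  apply card_le_card_of_injOn (fun z => z.1)
  · intro z hz
    have hz := mem_coe.1 hz
    simp only [mem_filter, mem_product] at hz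
    exact hz.1.1
  · intro z hz w hw h
    have hz := mem_coe.1 hz
    have hw := mem_coe.1 hw
    simp only [mem_filter, mem_product] at hz hw h
    ext <;> omega

theorem card_fib_le_right (S S' : Finset ℕ) (t : ℕ) :
    ((S ×ˢ S').filter (fun z => z.1 + z.2 = t)).card ≤ S'.card := by
  apply card_le_card_of_injOn (fun z => z.2)
  · intro z hz
    have hz := mem_coe.1 hz
    simp only [mem_filter, mem_product] at hz
    exact hz.1.2
  · intro z hz w hw h
    have hz := mem_coe.1 hz
    have hw := mem_coe.1 hw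
    simp only [mem_filter, mem_product] at hz hw h
    ext <;> omega

/-- the digits of the product -/
theorem dg_prod {f n m X Y : ℕ} (hf : 1 ≤ f) (hX : Spr f n X) (hY : Spr f m Y)
    (hc : (pos f n X).card < 2 ^ f ∨ (pos f m Y).card < 2 ^ f) {t : ℕ} (ht : t < n + m) :
    dg f (X * Y) t = ((pos f n X ×ˢ pos f m Y).filter (fun z => z.1 + z.2 = t)).card := by
  rw [prod_eq hf hX hY]
  apply dg_sum (fun t => ((pos f n X ×ˢ pos f m Y).filter (fun z => z.1 + z.2 = t)).card) _ ht
  intro j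
  rcases hc with hc | hc
  · exact lt_of_le_of_lt (card_fib_le_left _ _ _) hc
  · exact lt_of_le_of_lt (card_fib_le_right _ _ _) hc

theorem card_pos_le_pop {f n X w : ℕ} (hf : 1 ≤ f) (hw : f * n ≤ w) :
    (pos f n X).card ≤ Pop.pop w X := by
  unfold pos Pop.pop
  apply card_le_card_of_injOn (fun i => f * i)
  · intro i hi
    have hi := mem_coe.1 hi
    simp only [mem_filter, mem_range] at hi
    apply mem_coe.2
    simp only [mem_filter, mem_range]
    refine ⟨lt_of_lt_of_le ?_ hw, hi.2⟩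
    exact Nat.mul_lt_mul_of_pos_left hi.1 (by omega)
  · intro i _ j _ h
    exact Nat.eq_of_mul_eq_mul_left (by omega : 0 < f) h

/-- a count of a correlation is at most the digit of the product -/
theorem corrY_le_dg {A B : ℕ → Prop} {f p q y0 y1 X Y h : ℕ} (hf : 1 ≤ f)
    (hX : Spr f (q - p) X) (hY : Spr f (y1 - y0) Y)
    (hc : (pos f (q - p) X).card < 2 ^ f ∨ (pos f (y1 - y0) Y).card < 2 ^ f)
    (hA : ∀ a, p ≤ a → a < q → A a → X.testBit (f * (q - 1 - a)) = true)
    (hB : ∀ b, y0 ≤ b → b < y1 → B b → Y.testBit (f * (b - y0)) = true)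
    (hy : y0 ≤ p + h) {t : ℕ} (ht : t + y0 + 1 = q + h) (ht2 : t < (q - p) + (y1 - y0)) :
    corrY A B y1 p q h ≤ dg f (X * Y) t := by
  classical
  rw [dg_prod hf hX hY hc ht2]
  unfold corrY
  apply card_le_card_of_injOn (fun a => (q - 1 - a, a + h - y0))
  · intro a ha
    have ha := mem_coe.1 ha
    simp only [mem_filter, mem_Ico] at ha
    obtain ⟨⟨h1, h2⟩, h3, h4, h5⟩ := ha
    apply mem_coe.2
    unfold pos
    simp only [mem_filter, mem_product, mem_range]
    refine ⟨⟨⟨by omega, hA a h1 h2 h3⟩, by omega, hB (a + h) (by omega) h5 h4⟩, by omega⟩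
  · intro a ha b hb h'
    have ha := mem_coe.1 ha
    have hb := mem_coe.1 hb
    simp only [mem_filter, mem_Ico, Prod.mk.injEq] at ha hb h'
    omega

/-- the last segment `[y₀, y₁)`: all shifts `h ≥ h₀` -/
theorem corrY_last {A B : ℕ → Prop} {f p q y0 y1 X Y h0 t0 T τ : ℕ} (hf : 1 ≤ f)
    (hX : Spr f (q - p) X) (hY : Spr f (y1 - y0) Y)
    (hc : (pos f (q - p) X).card < 2 ^ f ∨ (pos f (y1 - y0) Y).card < 2 ^ f)
    (hA : ∀ a, p ≤ a → a < q → A a → X.testBit (f * (q - 1 - a)) = true)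
    (hB : ∀ b, y0 ≤ b → b < y1 → B b → Y.testBit (f * (b - y0)) = true)
    (hy : y0 ≤ p + h0) (ht : t0 + y0 + 1 = q + h0)
    (hT : (q - p) + (y1 - y0) ≤ t0 + T + 1)
    (hd : ∀ t, t0 ≤ t → t < t0 + T → dg f (X * Y) t ≤ τ) :
    ∀ h, h0 ≤ h → corrY A B y1 p q h ≤ τ := by
  classical
  intro h hh
  by_cases hs : p + h < y1
  · by_cases hpq : p < q
    · exact (corrY_le_dg hf hX hY hc hA hB (by omega) (t := t0 + (h - h0)) (by omega)
        (by omega)).trans (hd _ (by omega) (by omega))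
    · have : corrY A B y1 p q h = 0 := by
        unfold corrY
        rw [Ico_eq_empty (by omega)]
        simp
      omega
  · have : corrY A B y1 p q h = 0 := by
      unfold corrY
      rw [card_eq_zero, filter_eq_empty_iff]
      intro a ha
      rw [mem_Ico] at ha
      rintro ⟨_, _, h3⟩
      omega
    omega

/-- an inner segment `[y₀, y₁)`: the shifts with `q + h ≤ y₁` -/
theorem corrY_inner {A B : ℕ → Prop} {f p q y0 y1 X Y h0 t0 T τ : ℕ} (hf : 1 ≤ f)
    (hX : Spr f (q - p) X) (hY : Spr f (y1 - y0) Y)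
    (hc : (pos f (q - p) X).card < 2 ^ f ∨ (pos f (y1 - y0) Y).card < 2 ^ f)
    (hA : ∀ a, p ≤ a → a < q → A a → X.testBit (f * (q - 1 - a)) = true)
    (hB : ∀ b, y0 ≤ b → b < y1 → B b → Y.testBit (f * (b - y0)) = true)
    (hy : y0 ≤ p + h0) (ht : t0 + y0 + 1 = q + h0)
    (hT : y1 - y0 ≤ t0 + T)
    (hd : ∀ t, t0 ≤ t → t < t0 + T → dg f (X * Y) t ≤ τ) (Yb : ℕ) :
    ∀ h, h0 ≤ h → q + h ≤ y1 → corrY A B Yb p q h ≤ τ := by
  classical
  intro h hh hq
  have h1 : corrY A B Yb p q h ≤ corrY A B y1 p q h := by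
    unfold corrY
    apply card_le_card
    intro a ha
    simp only [mem_filter, mem_Ico] at ha ⊢
    exact ⟨ha.1, ha.2.1, ha.2.2.1, by omega⟩
  by_cases hpq : p < q
  · exact h1.trans ((corrY_le_dg hf hX hY hc hA hB (by omega) (t := t0 + (h - h0)) (by omega)
      (by omega)).trans (hd _ (by omega) (by omega)))
  · have : corrY A B y1 p q h = 0 := by
      unfold corrY
      rw [Ico_eq_empty (by omega)]
      simp
    omega

/-! ### Assembling -/

/-- two ranges of shifts -/
theorem corrY_join {A B : ℕ → Prop} {Y p q h0 h1 y1 τ : ℕ}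
    (ha : ∀ h, h0 ≤ h → q + h ≤ y1 → corrY A B Y p q h ≤ τ)
    (hb : ∀ h, h1 ≤ h → corrY A B Y p q h ≤ τ) (hh : q + h1 ≤ y1 + 1) :
    ∀ h, h0 ≤ h → corrY A B Y p q h ≤ τ := by
  intro h hh0
  by_cases h2 : q + h ≤ y1
  · exact ha h hh0 h2
  · exact hb h (by omega)

theorem corrLe_nil (A B : ℕ → Prop) (Y h0 : ℕ) : CorrLe A B Y h0 [] := fun x hx => by
  simp at hx

theorem corrLe_cons {A B : ℕ → Prop} {Y h0 p q τ : ℕ} {l : List (ℕ × ℕ × ℕ)}
    (h1 : ∀ h, h0 ≤ h → corrY A B Y p q h ≤ τ) (h2 : CorrLe A B Y h0 l) :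
    CorrLe A B Y h0 ((p, q, τ) :: l) := by
  intro x hx
  rcases List.mem_cons.1 hx with rfl | hx
  · exact h1
  · exact h2 x hx

theorem corrLe_append {A B : ℕ → Prop} {Y h0 : ℕ} {l l' : List (ℕ × ℕ × ℕ)}
    (h1 : CorrLe A B Y h0 l) (h2 : CorrLe A B Y h0 l') : CorrLe A B Y h0 (l ++ l') := by
  intro x hx
  rcases List.mem_append.1 hx with hx | hx
  · exact h1 x hx
  · exact h2 x hx

end Pool.Agent.AddSq.CP
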