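import Pool.Agent.AddSq.CorrSum

/-!
# The correlation bounds, window by window

`run` checks a list of windows of blocks; `run_spec` turns it into bounds for
`gcount L (z² - 1)`.
-/

namespace Pool.Agent.AddSq.Cor

open Finset

/-- at most so many blocks of `[K, z)` have a shift `< h` -/
theorem card_small_le {h D M K z : ℕ} (hc : h * (5658 * D * M + 1000 * h) ≤ 4000 * (M * M))
    (hM : 1 ≤ M) (hK : M ≤ mm K) :
    ((Ico K z).filter (fun k => qq k < h ∨ pp k < h)).card ≤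
      2 * ((z - K - 1) / (D + 1) + 1) := by
  classical
  have h1 : ((Ico K z).filter (fun k => qq k < h)).card ≤ (z - K - 1) / (D + 1) + 1 := by
    apply card_le_of_gap
    · intro k hk
      rw [mem_filter, mem_Ico] at hk
      exact hk.1
    · intro k hk k' hk' hlt
      rw [mem_filter, mem_Ico] at hk hk'
      exact gap_qq hc hM (hK.trans (mm_mono hk.1.1)) hlt hk.2 hk'.2
  have h2 : ((Ico K z).filter (fun k => pp k < h)).card ≤ (z - K - 1) / (D + 1) + 1 := by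
    apply card_le_of_gap
    · intro k hk
      rw [mem_filter, mem_Ico] at hk
      exact hk.1
    · intro k hk k' hk' hlt
      rw [mem_filter, mem_Ico] at hk hk'
      exact gap_pp hc hM (hK.trans (mm_mono hk.1.1)) hlt hk.2 hk'.2
  rw [filter_or]
  have h3 := card_union_le ((Ico K z).filter (fun k => qq k < h))
    ((Ico K z).filter (fun k => pp k < h))
  omega

open Classical in
/-- numbers of elements of pieces -/
def CntLe (W : ℕ → Prop) (l : List (ℕ × ℕ × ℕ)) : Prop :=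
  ∀ x ∈ l, ((Ico x.1 x.2.1).filter W).card ≤ x.2.2

theorem gcount_le_meet {W : ℕ → Prop} {l : List (ℕ × ℕ × ℕ)} (hl : CntLe W l) {x v : ℕ}
    (hx : x < v) (hv : v ≤ cend 0 l) : gcount W x ≤ meet l 0 v := by
  classical
  refine le_trans (card_le_card ?_) (card_le_meet W l 0 v (fun y hy => hl y hy))
  intro a ha
  rw [mem_filter, mem_Icc] at ha
  rw [mem_filter, mem_Ico]
  exact ⟨⟨Nat.zero_le _, by omega⟩, cover_of_cend l 0 a (Nat.zero_le _) (by omega), ha.2⟩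

/-- a window `[K₀, K₁)` of blocks with its parameters -/
structure Win where
  /-- the end of the window -/
  K1 : ℕ
  /-- `⌊√2 K₁⌋` -/
  M1 : ℕ
  /-- number of cells -/
  n : ℕ
  /-- length of a cell -/
  s : ℕ
  /-- number of cells, second tier -/
  n1 : ℕ
  /-- length of a cell, second tier -/
  s1 : ℕ
  /-- the gap for the first tier -/
  D2 : ℕ
  /-- the gap for the second tier -/
  D1 : ℕ
  /-- bound for a block, first tier -/
  F2 : ℕ
  /-- bound for a block, second tier -/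
  F1 : ℕ
  /-- trivial bound for a block -/
  T : ℕ
  /-- intermediate points -/
  pts : List (ℕ × ℕ)
  /-- the bound at `K₁` -/
  v1 : ℕ

/-- the bound for the blocks `[K₀, z)` -/
def Win.bd (w : Win) (K0 z : ℕ) : ℕ :=
  (z - K0) * w.F2 + 2 * ((z - K0 - 1) / (w.D2 + 1) + 1) * w.F1 +
    2 * ((z - K0 - 1) / (w.D1 + 1) + 1) * w.T

/-- the static conditions of a window -/
def Win.ok (t2 t1 : Tier) (ha : ℕ) (wa cw : List (ℕ × ℕ × ℕ)) (Y K0 M0 : ℕ) (w : Win) : Bool :=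
  Nat.ble 1 K0 && Nat.ble K0 w.K1 && Nat.ble (4 * w.K1) Y &&
  Nat.ble (ha + 1) K0 && Nat.ble (2 * w.K1 - 1) (cend 0 wa) &&
  Nat.ble 1 M0 && Nat.ble (M0 * M0) (2 * (K0 * K0)) &&
  Nat.ble (2 * (w.K1 * w.K1) + 1) ((w.M1 + 1) * (w.M1 + 1)) &&
  t2.cov (2 * w.K1 - 1) && t1.cov (2 * w.K1 - 1) && Nat.ble (2 * w.K1 - 1) (cend 0 cw) &&
  (Nat.ble 1 w.n && Nat.ble (2 * w.M1 + 1) (w.n * w.s) &&
  Nat.ble 1 w.n1 && Nat.ble (2 * w.M1 + 1) (w.n1 * w.s1)) &&
  Nat.ble (t2.h * (5658 * w.D2 * M0 + 1000 * t2.h)) (4000 * (M0 * M0)) &&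
  Nat.ble (t1.h * (5658 * w.D1 * M0 + 1000 * t1.h)) (4000 * (M0 * M0)) &&
  Nat.ble (meet cw 0 (2 * w.K1 - 1)) w.T &&
  t2.cells wa w.K1 M0 w.M1 w.s w.F2 w.n 0 && t1.cells wa w.K1 M0 w.M1 w.s1 w.F1 w.n1 0

/-- the points of a window are correct, if `v₀` is a bound at `K₀` -/
def Win.pt (w : Win) (K0 v0 : ℕ) : Bool :=
  Nat.ble (v0 + w.bd K0 w.K1) w.v1 &&
  w.pts.all (fun p => Nat.ble K0 p.1 && Nat.ble p.1 w.K1 && Nat.ble (v0 + w.bd K0 p.1) p.2)

/-- the whole check -/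
def run (t2 t1 : Tier) (ha : ℕ) (wa cw : List (ℕ × ℕ × ℕ)) (Y : ℕ) :
    ℕ → ℕ → ℕ → List Win → Bool
  | _, _, _, [] => true
  | K0, M0, v0, w :: ws => w.ok t2 t1 ha wa cw Y K0 M0 && w.pt K0 v0 &&
      run t2 t1 ha wa cw Y w.K1 w.M1 w.v1 ws

/-- the bounds which `run` proves -/
def outp : List Win → List (ℕ × ℕ)
  | [] => []
  | w :: ws => w.pts ++ (w.K1, w.v1) :: outp ws

section
variable {W L : ℕ → Prop} {Y ha : ℕ} {t2 t1 : Tier} {wa cw : List (ℕ × ℕ × ℕ)}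

theorem win_sum (h2 : TierOk W L Y t2) (h1 : TierOk W L Y t1) (hwa : CorrLe W W Y ha wa)
    (hcw : CntLe W cw) {K0 M0 : ℕ} {w : Win} (hw : w.ok t2 t1 ha wa cw Y K0 M0 = true) {z : ℕ}
    (hz : z ≤ w.K1) : ∑ k ∈ Ico K0 z, (blk W L k).card ≤ w.bd K0 z := by
  classical
  unfold Win.ok at hw
  simp only [Bool.and_eq_true, Nat.ble_eq] at hw
  obtain ⟨⟨⟨⟨⟨⟨⟨⟨⟨⟨⟨⟨⟨⟨⟨⟨hK0, hK1⟩, hY⟩, hha⟩, hcwa⟩, hM0⟩, hMM⟩, hM1⟩, hc2⟩, hc1⟩, hccw⟩,
    ⟨⟨⟨hn, hns⟩, hn1⟩, hns1⟩⟩, hg2⟩, hg1⟩, hT⟩, hf2⟩, hf1⟩ := hw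
  have hmK0 : M0 ≤ mm K0 := Nat.le_sqrt.mpr hMM
  have hpt : ∀ k ∈ Ico K0 z, (blk W L k).card ≤ w.F2 +
      ((if qq k < t2.h ∨ pp k < t2.h then 1 else 0) * w.F1 +
      (if qq k < t1.h ∨ pp k < t1.h then 1 else 0) * w.T) := by
    intro k hk
    rw [mem_Ico] at hk
    have hk1 : k < w.K1 := by omega
    have hmk : M0 ≤ mm k := hmK0.trans (mm_mono hk.1)
    have hmk1 : mm k ≤ w.M1 := by
      by_contra hc
      have h3 := Nat.sqrt_le (2 * (k * k))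
      have h4 : (w.M1 + 1) * (w.M1 + 1) ≤ mm k * mm k :=
        Nat.mul_le_mul (by omega) (by omega)
      have h5 : k * k ≤ w.K1 * w.K1 := Nat.mul_le_mul hk1.le hk1.le
      unfold mm at h4
      omega
    have hpk : pp k ≤ 0 + w.n * w.s := by
      have := pp_add k
      omega
    have hpk1 : pp k ≤ 0 + w.n1 * w.s1 := by
      have := pp_add k
      omega
    by_cases c2 : qq k < t2.h ∨ pp k < t2.h
    · by_cases c1 : qq k < t1.h ∨ pp k < t1.h
      · have h3 := blk_card_le_triv W L k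
        have h4 := gcount_le_meet hcw (x := 2 * k) (v := 2 * w.K1 - 1) (by omega) hccw
        rw [if_pos c1]
        omega
      · rw [not_or, not_lt, not_lt] at c1
        obtain ⟨p, hp1, hp2, hp3⟩ := Tier.cells_spec wa t1 w.n1 0 hf1 (pp k) (Nat.zero_le _) hpk1 hn1
        have h3 := blk_le_cell h1 hwa hY hcwa (by omega) hk1 hmk hmk1 hc1 c1.1 c1.2 hp1 hp2
        rw [if_pos c2]
        omega
    · rw [not_or, not_lt, not_lt] at c2
      obtain ⟨p, hp1, hp2, hp3⟩ := Tier.cells_spec wa t2 w.n 0 hf2 (pp k) (Nat.zero_le _) hpk hn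
      have h3 := blk_le_cell h2 hwa hY hcwa (by omega) hk1 hmk hmk1 hc2 c2.1 c2.2 hp1 hp2
      omega
  refine (sum_le_sum hpt).trans ?_
  rw [sum_add_distrib, sum_add_distrib, ← sum_mul, ← sum_mul, ← card_filter, ← card_filter,
    sum_const, Nat.card_Ico, smul_eq_mul]
  unfold Win.bd
  have e2 := card_small_le (K := K0) (z := z) hg2 hM0 hmK0
  have e1 := card_small_le (K := K0) (z := z) hg1 hM0 hmK0
  have e3 := Nat.mul_le_mul_right w.F1 e2
  have e4 := Nat.mul_le_mul_right w.T e1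
  omega

theorem run_spec (hr : GRules W L) (h2 : TierOk W L Y t2) (h1 : TierOk W L Y t1)
    (hwa : CorrLe W W Y ha wa) (hcw : CntLe W cw) : ∀ (ws : List Win) (K0 M0 v0 : ℕ),
    gcount L (K0 * K0 - 1) ≤ v0 → run t2 t1 ha wa cw Y K0 M0 v0 ws = true →
    ∀ p ∈ outp ws, 1 ≤ p.1 ∧ gcount L (p.1 * p.1 - 1) ≤ p.2
  | [], _, _, _, _, _, p, hp => by
    unfold outp at hp
    exact absurd hp List.not_mem_nil
  | w :: ws, K0, M0, v0, hv, hrun, p, hp => by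
    unfold run at hrun
    rw [Bool.and_eq_true, Bool.and_eq_true] at hrun
    obtain ⟨⟨hok, hpt⟩, hrest⟩ := hrun
    have hok' := hok
    unfold Win.ok at hok'
    simp only [Bool.and_eq_true, Nat.ble_eq] at hok'
    obtain ⟨⟨⟨⟨⟨⟨⟨⟨⟨⟨⟨⟨⟨⟨⟨⟨hK0, hK1⟩, -⟩, -⟩, -⟩, -⟩, -⟩, -⟩, -⟩, -⟩, -⟩, -⟩, -⟩, -⟩, -⟩, -⟩, -⟩ := hok'
    unfold Win.pt at hpt
    rw [Bool.and_eq_true, Nat.ble_eq, List.all_eq_true] at hpt
    have key : ∀ z, K0 ≤ z → z ≤ w.K1 → gcount L (z * z - 1) ≤ v0 + w.bd K0 z := by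
      intro z h3 h4
      refine (gcount_blocks hr hK0 h3).trans ?_
      exact Nat.add_le_add hv (win_sum h2 h1 hwa hcw hok h4)
    unfold outp at hp
    rw [List.mem_append, List.mem_cons] at hp
    rcases hp with hp | rfl | hp
    · have h3 := hpt.2 p hp
      rw [Bool.and_eq_true, Bool.and_eq_true, Nat.ble_eq, Nat.ble_eq, Nat.ble_eq] at h3
      obtain ⟨⟨h3, h4⟩, h5⟩ := h3
      exact ⟨by omega, (key p.1 h3 h4).trans h5⟩
    · exact ⟨by show 1 ≤ w.K1; omega, (key w.K1 hK1 le_rfl).trans hpt.1⟩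
    · exact run_spec hr h2 h1 hwa hcw ws w.K1 w.M1 w.v1 ((key w.K1 hK1 le_rfl).trans hpt.1) hrest p hp

end

end Pool.Agent.AddSq.Cor
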