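import Pool.Agent.AddSq.CorKern
import Pool.Agent.AddSq.CorTab
import Pool.Agent.AddSq.CorSpread
import Pool.Agent.AddSq.CorRev
import Pool.Agent.AddSq.CorrPoly
import Pool.Agent.AddSq.CorrRun

/-!
# Correctness of the kernel functions for the correlations
-/

namespace Pool.Agent.AddSq.Co

open Finset Pool.Agent.AddSq.Fa

/-! ### the bit sets -/

/-- the set `W` (`true`) or `L` (`false`) -/
def PS (W L : ℕ → Prop) (s : Bool) : ℕ → Prop := @Bool.rec (fun _ => ℕ → Prop) L W s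

theorem msk_lt (b : ℕ) : msk b < 2 ^ b := by
  change (1 <<< b) - 1 < 2 ^ b
  rw [Nat.one_shiftLeft]
  have : 0 < 2 ^ b := by positivity
  omega

theorem land_msk_lt (a b : ℕ) : a &&& msk b < 2 ^ b := Nat.and_lt_two_pow a (msk_lt b)

/-- what is known about the tables -/
structure TOk (W L : ℕ → Prop) (wt lt : ℕ) : Prop where
  w5 : ∀ n, W n → Win5 W L n
  l4 : ∀ n, 1 ≤ n → L n → W (rem n) ∧ Tail4 W L n
  tab : Tab wt lt W L 4840000

theorem tok_of_rules {W L : ℕ → Prop} (h : GRules W L) : TOk W L TL.WT TL.LT where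
  w5 := fun n hn => win5_of_rules h n hn
  l4 := fun n hn hl => h.l n hn hl
  tab := ⟨fun n hn hw => TL.tab_valid.1 n (by omega) ((h.small n (by omega)).1 hw),
      fun n hn hl => TL.tab_valid.2 n (by omega) ((h.small n (by omega)).2 hl)⟩

theorem tb_spec {W L : ℕ → Prop} {wt lt : ℕ} (h : TOk W L wt lt) (s : Bool) :
    ∀ n < 4840000, PS W L s n → (tb wt lt s).testBit n = true := by
  cases s with
  | true => exact h.tab.1
  | false => exact h.tab.2

theorem lblk_spec {W L : ℕ → Prop} (hR : ∀ n, 1 ≤ n → L n → W (rem n) ∧ Tail4 W L n)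
    {wt lt R : ℕ} (hT : Tab wt lt W L R)
    {KM k : ℕ} (hKM : 8 * KM + KM / 64 + 32 ≤ R) (hKM2 : KM ≤ 100000000) (hk0 : 1 ≤ k)
    (hk : k ≤ KM) :
    ∀ i ≤ 2 * k, L (k * k + i) → (lblk wt lt KM k).testBit i = true := by
  intro i hi h
  have hn : 1 ≤ k * k + i := by
    have : 1 * 1 ≤ k * k := Nat.mul_le_mul hk0 hk0
    omega
  obtain ⟨h0, h1⟩ := hR _ hn h
  rw [rem_block (by omega)] at h0
  unfold lblk
  rw [Fa.frc_eq]
  have hw : ((Fa.cut wt (2 * KM + 1)) &&& (msk (2 * k + 1))).testBit i = true := by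
    rw [Nat.testBit_and, Fa.cut_testBit (by omega), msk_testBit (by omega), Bool.and_true]
    exact hT.1 i (by omega) h0
  have a1 := Fa.cut_sup (b := 3 * KM + 16) hT.2 (by omega)
  have a2 := Fa.cut_sup (b := 4 * KM + (KM / 64 + 32)) hT.1 (by omega)
  have a3 := Fa.cut_sup (b := 6 * KM + 32) hT.2 (by omega)
  have a4 := Fa.cut_sup (b := 8 * KM + (KM / 64 + 32)) hT.1 (by omega)
  have key := supA_lf (B := KM) a1 a2 a3 a4 (by unfold nxt; omega) (by unfold nxt; omega)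
    (by unfold nxt; omega) (by unfold nxt; omega) (by unfold nxt; omega)
    ((Fa.cut wt (2 * KM + 1)) &&& (msk (2 * k + 1))) k 0 (2 * k + 1) i hk0 hk (by omega) (by omega) hw
    (by rw [Nat.zero_add]; exact h1)
  exact key

theorem fb_spec {W L : ℕ → Prop} {wt lt : ℕ} (h : TOk W L wt lt) (s : Bool) {KM k : ℕ}
    (hKM : KM ≤ 300000) (hk0 : 1 ≤ k) (hk : k ≤ KM) :
    ∀ i ≤ 2 * k, PS W L s (k * k + i) → (fb wt lt s KM k).testBit i = true := by
  cases s with
  | true => exact wblk_spec h.w5 h.tab (by omega) (by omega) hk0 hk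
  | false => exact lblk_spec h.l4 h.tab (by omega) (by omega) hk0 hk

theorem bs_spec {W L : ℕ → Prop} {wt lt : ℕ} (h : TOk W L wt lt) (s : Bool)
    {b0 cnt y0 len : ℕ} (hok : bok b0 cnt y0 len = true) (hc : cnt ≤ 16384) :
    Seg (PS W L s) (bs wt lt s b0 cnt y0 len) y0 len ∧ bs wt lt s b0 cnt y0 len < 2 ^ len := by
  unfold bok at hok
  unfold bs
  cases hb : Nat.beq cnt 0 with
  | true =>
    rw [hb] at hok
    have h1 : y0 + len ≤ 4840000 := Nat.le_of_ble_eq_true hok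
    exact ⟨seg_segT (tb_spec h s) h1, land_msk_lt _ _⟩
  | false =>
    rw [hb] at hok
    have hc1 : 1 ≤ cnt := by
      rcases Nat.eq_zero_or_pos cnt with h0 | h0
      · rw [h0] at hb
        exact absurd hb (by decide)
      · exact h0
    cases hb2 : Nat.ble y0 4840000 with
    | true =>
      rw [hb2] at hok
      have h1 : y0 + len ≤ (2200 + cnt) * (2200 + cnt) := Nat.le_of_ble_eq_true hok
      have h2 := Nat.le_of_ble_eq_true hb2
      refine ⟨seg_segM (fun n hn => tb_spec h s n (by omega)) ?_ hc1 hc h2 h1, land_msk_lt _ _⟩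
      intro k hk1 hk2
      exact fb_spec h s (KM := 2200 + cnt) (by omega) (by omega) (by omega)
    | false =>
      rw [hb2] at hok
      have hok' : ((Nat.ble (b0 * b0) y0 && Nat.ble 1 b0) &&
        (Nat.ble (y0 + len) ((b0 + cnt) * (b0 + cnt)) && Nat.ble (b0 + cnt) 300000)) = true := hok
      rw [Bool.and_eq_true, Bool.and_eq_true, Bool.and_eq_true, Nat.ble_eq, Nat.ble_eq,
        Nat.ble_eq, Nat.ble_eq] at hok'
      obtain ⟨⟨h1, h2⟩, h3, h4⟩ := hok'
      refine ⟨seg_segB ?_ hc1 hc h1 h3, land_msk_lt _ _⟩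
      intro k hk1 hk2
      exact fb_spec h s (KM := b0 + cnt) h4 (by omega) (by omega)

/-! ### the digits -/

open CP

theorem rep_one (F n : ℕ) : rep 1 F n = ones F n := by
  rw [rep_eq]
  unfold ones
  rw [show 2 ^ 1 - 1 = 1 by norm_num, Nat.mul_one]

theorem dg_const_ones {f c T j : ℕ} (hf : 1 ≤ f) (hc : c < 2 ^ f) (hj : j < T) :
    dg f (c * ones f T) j = c := by
  rw [ones_eq_sum hf, mul_sum]
  exact dg_sum (f := f) (N := T) (t := j) (fun _ => c) (fun _ => hc) hj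

/-- adding a vector to the first `T` digits -/
theorem dg_addv {f Q T j : ℕ} {v : ℕ → ℕ} (hf : 1 ≤ f)
    (hd : ∀ i < T, dg f Q i + v i < 2 ^ f) (hj : j < T) :
    dg f (Q + ∑ i ∈ range T, v i * (2 ^ f) ^ i) j = dg f Q j + v j := by
  obtain ⟨M, hM, hTM⟩ : ∃ M, Q < 2 ^ (f * M) ∧ T ≤ M := by
    refine ⟨max Q T, ?_, le_max_right _ _⟩
    calc Q < 2 ^ Q := Nat.lt_two_pow_self
      _ ≤ 2 ^ (f * max Q T) := by
        apply Nat.pow_le_pow_right (by norm_num)
        calc Q ≤ max Q T := le_max_left _ _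
          _ ≤ f * max Q T := Nat.le_mul_of_pos_left _ (by omega)
  set c : ℕ → ℕ := fun i => if i < T then dg f Q i + v i else dg f Q i with hc
  have hcl : ∀ i, c i < 2 ^ f := by
    intro i
    simp only [hc]
    split
    · rename_i hi
      exact hd i hi
    · exact dg_lt _ _
  have key : Q + ∑ i ∈ range T, v i * (2 ^ f) ^ i = ∑ i ∈ range M, c i * (2 ^ f) ^ i := by
    have e1 : ∑ i ∈ range T, v i * (2 ^ f) ^ i =
        ∑ i ∈ range M, (if i < T then v i else 0) * (2 ^ f) ^ i := by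
      rw [← sum_subset (range_subset_range.2 hTM)]
      · apply sum_congr rfl
        intro i hi
        rw [if_pos (mem_range.1 hi)]
      · intro i _ hi
        rw [if_neg (by simpa using hi), zero_mul]
    conv_lhs => rw [expand hM, e1, ← sum_add_distrib]
    apply sum_congr rfl
    intro i _
    simp only [hc]
    split <;> ring
  rw [key, dg_sum c hcl (by omega)]
  simp only [hc, if_pos hj]

/-- the test with one mask -/
theorem dg_le_one {f b P D C t0 T c : ℕ} {v : ℕ → ℕ} (hf : 1 ≤ f) (hb : b ≤ f)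
    (hc : c + 2 ^ b ≤ 2 ^ f)
    (hd : ∀ t, dg f P t ≤ c) (hD : ∀ j < T, dg f D j = dg f P (t0 + j))
    (hv : ∀ i < T, v i < 2 ^ b) (hC : C = ∑ i ∈ range T, v i * (2 ^ f) ^ i)
    (h : (D + C) &&& ((2 ^ f - 2 ^ b) * ones f T) = 0) :
    ∀ j < T, dg f P (t0 + j) + v j < 2 ^ b := by
  intro j hj
  have hpb : 0 < 2 ^ b := by positivity
  have hpf : 2 ^ b ≤ 2 ^ f := Nat.pow_le_pow_right (by norm_num) hb
  have hdig : dg f (D + C) j = dg f P (t0 + j) + v j := by
    rw [hC, dg_addv hf (fun i hi => ?_) hj, hD j hj]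
    rw [hD i hi]
    have h1 := hd (t0 + i)
    have h2 := hv i hi
    omega
  rw [← hdig]
  apply Nat.lt_pow_two_of_testBit
  intro i hi
  by_cases hif : i < f
  · rw [dg_testBit hif]
    have h3 : ((D + C) &&& ((2 ^ f - 2 ^ b) * ones f T)).testBit (f * j + i) = false := by
      rw [h]
      exact Nat.zero_testBit _
    rw [Nat.testBit_and] at h3
    have h4 : ((2 ^ f - 2 ^ b) * ones f T).testBit (f * j + i) = true := by
      rw [← dg_testBit hif, dg_const_ones hf (by omega) hj]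
      have e : 2 ^ f - 2 ^ b = 2 ^ b * (2 ^ (f - b) - 1) := by
        rw [Nat.mul_sub, ← pow_add, Nat.mul_one]
        congr 2
        omega
      rw [e, Nat.testBit_two_pow_mul, Bool.and_eq_true, Nat.testBit_two_pow_sub_one]
      exact ⟨decide_eq_true hi, decide_eq_true (by omega)⟩
    rwa [h4, Bool.and_true] at h3
  · apply Nat.testBit_lt_two_pow
    exact lt_of_lt_of_le (dg_lt _ _) (Nat.pow_le_pow_right (by norm_num) (by omega))

/-- the sum of the `δ` with `j < T`, for the `(T, δ)` of the list -/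
def ex (l : List (ℕ × ℕ)) (j : ℕ) : ℕ :=
  match l with
  | [] => 0
  | e :: l => (if j < e.1 then e.2 else 0) + ex l j

theorem ex_mono (l : List (ℕ × ℕ)) {i j : ℕ} (h : i ≤ j) : ex l j ≤ ex l i := by
  induction l with
  | nil => exact le_rfl
  | cons e l ih =>
    unfold ex
    refine Nat.add_le_add ?_ ih
    by_cases h1 : j < e.1
    · rw [if_pos h1, if_pos (by omega)]
    · rw [if_neg h1]
      exact Nat.zero_le _

theorem ex_le_sdl (l : List (ℕ × ℕ)) (j : ℕ) : ex l j ≤ sdl l := by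
  induction l with
  | nil => exact le_rfl
  | cons e l ih =>
    change (if j < e.1 then e.2 else 0) + ex l j ≤ e.2 + sdl l
    refine Nat.add_le_add ?_ ih
    split
    · exact le_rfl
    · exact Nat.zero_le _

theorem exn_eq {T : ℕ} : ∀ (l : List (ℕ × ℕ)), lel T l = true →
    exn l = ∑ i ∈ range T, ex l i * (2 ^ 17) ^ i
  | [], _ => by
    change 0 = ∑ i ∈ range T, 0 * (2 ^ 17) ^ i
    simp
  | e :: l, h => by
    have h' : (Nat.ble e.1 T && lel T l) = true := h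
    rw [Bool.and_eq_true, Nat.ble_eq] at h'
    have ih := exn_eq l h'.2
    change e.2 * rep 1 17 e.1 + exn l = ∑ i ∈ range T, ex (e :: l) i * (2 ^ 17) ^ i
    rw [ih, rep_one, ones_eq_sum (by norm_num), mul_sum]
    have e1 : ∑ i ∈ range e.1, e.2 * (2 ^ 17) ^ i =
        ∑ i ∈ range T, (if i < e.1 then e.2 else 0) * (2 ^ 17) ^ i := by
      rw [← sum_subset (range_subset_range.2 h'.1)]
      · apply sum_congr rfl
        intro i hi
        rw [if_pos (mem_range.1 hi)]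
      · intro i _ hi
        rw [if_neg (by simpa using hi), zero_mul]
    rw [e1, ← sum_add_distrib]
    apply sum_congr rfl
    intro i _
    rw [ex, add_mul]

theorem sbl_eq (C : ℕ) (l : List (ℕ × ℕ)) : sbl C l = C - exn l := by
  cases l with
  | nil => rfl
  | cons e l => rfl

theorem dg_msk {f Q T j : ℕ} (hj : j < T) : dg f (Q &&& msk (f * T)) j = dg f Q j := by
  apply Nat.eq_of_testBit_eq
  intro i
  by_cases hi : i < f
  · rw [dg_testBit hi, dg_testBit hi, Nat.testBit_and, msk_testBit, Bool.and_true]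
    calc f * j + i < f * j + f := by omega
      _ = f * (j + 1) := by ring
      _ ≤ f * T := Nat.mul_le_mul le_rfl (by omega)
  · rw [Nat.testBit_lt_two_pow, Nat.testBit_lt_two_pow]
    · exact lt_of_lt_of_le (dg_lt _ _) (Nat.pow_le_pow_right (by norm_num) (by omega))
    · exact lt_of_lt_of_le (dg_lt _ _) (Nat.pow_le_pow_right (by norm_num) (by omega))

theorem dgs_spec {P T0 t0 T : ℕ} : ∀ j < T, dg 17 (dgs P T0 t0 T) j = dg 17 P (t0 + j) := by
  intro j hj
  unfold dgs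
  cases hb : Nat.beq T T0 with
  | true => exact dg_shift 17 P t0 j
  | false =>
    change dg 17 ((P &&& msk (17 * (t0 + T))) >>> (17 * t0)) j = _
    rw [dg_shift, dg_msk (by omega)]

theorem Spr_shift {f n X u : ℕ} (hX : Spr f n X) : Spr f (n - u) (X >>> (f * u)) := by
  constructor
  · apply lt_two_pow_of_bits
    intro i hi h
    rw [Nat.testBit_shiftRight] at h
    have h1 := lt_of_bit hX.1 h
    have h2 : f * n ≤ f * u + f * (n - u) := by
      rw [← mul_add]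
      exact Nat.mul_le_mul le_rfl (by omega)
    omega
  · intro e he
    rw [Nat.testBit_shiftRight] at he
    exact (Nat.dvd_add_right (Dvd.intro u rfl)).mp (hX.2 _ he)

theorem pos_shift_card {f n X u : ℕ} :
    (pos f (n - u) (X >>> (f * u))).card ≤ (pos f n X).card := by
  apply card_le_card_of_injOn (fun i => u + i)
  · intro i hi
    have hi := mem_coe.1 hi
    unfold pos at hi
    apply mem_coe.2
    unfold pos
    simp only [mem_filter, mem_range] at hi ⊢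
    rw [Nat.testBit_shiftRight, ← mul_add] at hi
    exact ⟨by omega, hi.2⟩
  · intro i _ j _ hij
    simp only at hij
    omega

/-- all the digits of a product are at most the smaller number of elements -/
theorem dg_prod_le {f n m X Y c : ℕ} (hf : 1 ≤ f) (hX : Spr f n X) (hY : Spr f m Y)
    (hcf : c < 2 ^ f) (hc : (pos f n X).card ≤ c ∨ (pos f m Y).card ≤ c) (t : ℕ) :
    dg f (X * Y) t ≤ c := by
  by_cases ht : t < n + m
  · rw [dg_prod hf hX hY (by omega) ht]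
    rcases hc with hc | hc
    · exact (card_fib_le_left _ _ _).trans hc
    · exact (card_fib_le_right _ _ _).trans hc
  · have h1 : X * Y < 2 ^ (f * t) := by
      calc X * Y < 2 ^ (f * n) * 2 ^ (f * m) := by
            apply Nat.mul_lt_mul'' hX.1 hY.1
        _ = 2 ^ (f * (n + m)) := by rw [← pow_add, ← mul_add]
        _ ≤ 2 ^ (f * t) := Nat.pow_le_pow_right (by norm_num) (Nat.mul_le_mul le_rfl (by omega))
    unfold dg
    rw [Nat.div_eq_of_lt h1]
    simp

theorem spr_Spr {d n x : ℕ} (hx : x < 2 ^ n) (hn : n ≤ 4096 * 2 ^ d) : Spr 17 n (spr 17 d x) := by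
  have hx2 : x < 2 ^ (4096 * 2 ^ d) :=
    lt_of_lt_of_le hx (Nat.pow_le_pow_right (by norm_num) hn)
  have h1 := spr_spec d hx2
  constructor
  · apply lt_two_pow_of_bits
    intro i hi h
    have h2 := (h1 i).mp h
    have h3 := lt_of_bit hx h2.2
    omega
  · intro e he
    exact Nat.dvd_of_mod_eq_zero ((h1 e).mp he).1

theorem card_pos_spr {d n x w : ℕ} (hx : x < 2 ^ n) (hn : n ≤ 4096 * 2 ^ d) (hw : n ≤ w) :
    (pos 17 n (spr 17 d x)).card ≤ Pop.pop w x := by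
  have hx2 : x < 2 ^ (4096 * 2 ^ d) :=
    lt_of_lt_of_le hx (Nat.pow_le_pow_right (by norm_num) hn)
  have h1 := spr_spec d hx2
  unfold pos Pop.pop
  apply card_le_card
  intro i hi
  simp only [mem_filter, mem_range] at hi ⊢
  have h2 := (h1 (17 * i)).mp hi.2
  rw [show 17 * i / 17 = i by omega] at h2
  exact ⟨by omega, h2.2⟩

/-! ### the facts -/

/-- a record `(p, y1, h0, T, τ, l)` for the piece `[p, p + 2 ^ k)` -/
def FactH (A B : ℕ → Prop) (k : ℕ) (r : ℕ × ℕ × ℕ × ℕ × ℕ × List (ℕ × ℕ)) : Prop :=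
  ∀ h, r.2.2.1 ≤ h → h < r.2.2.1 + r.2.2.2.1 →
    corrY A B r.2.1 r.1 (r.1 + 2 ^ k) h ≤ r.2.2.2.2.1 + ex r.2.2.2.2.2 (h - r.2.2.1)

/-- the records of a segment -/
def recs (k len y0 : ℕ) (l : List (ℕ × ℕ × ℕ × ℕ × ℕ × ℕ × ℕ × List (ℕ × ℕ))) :
    List (ℕ × ℕ × ℕ × ℕ × ℕ × List (ℕ × ℕ)) :=
  l.map (fun e => (e.1, y0 + len, e.2.2.2.2.1 + (y0 + e.2.2.2.1) + 1 - (e.1 + 2 ^ k),
    e.2.2.2.2.2))

theorem corrY_zero {A B : ℕ → Prop} {Y p q h : ℕ} (hh : Y ≤ p + h) : corrY A B Y p q h = 0 := by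
  classical
  unfold corrY
  rw [card_eq_zero, filter_eq_empty_iff]
  intro a ha
  rw [mem_Ico] at ha
  rintro ⟨_, _, h3⟩
  omega

theorem chks_spec {A B : ℕ → Prop} {k T0 len y0 y1 p X Ys : ℕ} (hy1 : y1 = y0 + len)
    (hX : Spr 17 (2 ^ k) X) (hY : Spr 17 len Ys)
    (hA : ∀ a, p ≤ a → a < p + 2 ^ k → A a → X.testBit (17 * (p + 2 ^ k - 1 - a)) = true)
    (hB : ∀ b, y0 ≤ b → b < y1 → B b → Ys.testBit (17 * (b - y0)) = true)
    (hc : (pos 17 (2 ^ k) X).card ≤ 122880 ∨ (pos 17 len Ys).card ≤ 122880)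
    (e : ℕ × ℕ × ℕ × List (ℕ × ℕ)) (hl : chks (Nat.mul X Ys) T0 k y0 p e = true) :
    FactH A B k (p, y1, e.1 + y0 + 1 - (p + 2 ^ k), e.2) := by
  have hl' : ((Nat.ble (1 <<< k) (e.1 + 1) &&
      (lel e.2.1 e.2.2.2 && Nat.ble (p + 1 <<< k) (e.1 + y0 + 1))) &&
      (Nat.ble (e.2.2.1 + sdl e.2.2.2) 8191 &&
      Nat.beq ((dgs (X * Ys) T0 e.1 e.2.1 + sbl ((8191 - e.2.2.1) * rep 1 17 e.2.1) e.2.2.2) &&&
        (122880 * rep 1 17 e.2.1)) 0)) = true := hl
  rw [Bool.and_eq_true, Bool.and_eq_true, Bool.and_eq_true, Bool.and_eq_true, Nat.ble_eq,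
    Nat.ble_eq, Nat.ble_eq, Nat.one_shiftLeft] at hl'
  obtain ⟨⟨h1, h0, h2⟩, h3, h4⟩ := hl'
  have h5 := Nat.eq_of_beq_eq_true h4
  have hex := ex_le_sdl e.2.2.2
  have hC : sbl ((8191 - e.2.2.1) * rep 1 17 e.2.1) e.2.2.2 =
      ∑ i ∈ range e.2.1, (8191 - e.2.2.1 - ex e.2.2.2 i) * (2 ^ 17) ^ i := by
    rw [sbl_eq, exn_eq e.2.2.2 h0, rep_one, ones_eq_sum (by norm_num), mul_sum]
    apply Nat.sub_eq_of_eq_add
    rw [← sum_add_distrib]
    apply sum_congr rfl
    intro i _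
    rw [← add_mul]
    congr 1
    have := hex i
    omega
  rw [rep_one] at h5
  have h7 := dg_le_one (f := 17) (b := 13) (c := 122880)
    (v := fun i => 8191 - e.2.2.1 - ex e.2.2.2 i) (by norm_num) (by norm_num)
    (by norm_num) (dg_prod_le (by norm_num) hX hY (by norm_num) hc) dgs_spec
    (fun i _ => by
      have : (2 : ℕ) ^ 13 = 8192 := by norm_num
      omega) (by rw [← rep_one]; exact hC) h5
  intro h hh1 hh2
  change e.1 + y0 + 1 - (p + 2 ^ k) ≤ h at hh1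
  change h < e.1 + y0 + 1 - (p + 2 ^ k) + e.2.1 at hh2
  change corrY A B y1 p (p + 2 ^ k) h ≤ e.2.2.1 + ex e.2.2.2 (h - (e.1 + y0 + 1 - (p + 2 ^ k)))
  rcases Nat.lt_or_ge (p + h) y1 with h8 | h8
  · have hpk : 0 < 2 ^ k := by positivity
    have e1 : p + 2 ^ k - p = 2 ^ k := by omega
    have e2 : y1 - y0 = len := by omega
    have key := corrY_le_dg (A := A) (B := B) (f := 17) (p := p) (q := p + 2 ^ k) (y0 := y0)
      (y1 := y1) (X := X) (Y := Ys) (h := h) (by norm_num) (by rw [e1]; exact hX)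
      (by rw [e2]; exact hY) (by rw [e1, e2]; omega) hA hB (by omega)
      (t := e.1 + (h - (e.1 + y0 + 1 - (p + 2 ^ k)))) (by omega) (by omega)
    have h9 := h7 (h - (e.1 + y0 + 1 - (p + 2 ^ k))) (by omega)
    have h10 := hex (h - (e.1 + y0 + 1 - (p + 2 ^ k)))
    have h11 : (2 : ℕ) ^ 13 = 8192 := by norm_num
    omega
  · rw [corrY_zero h8]
    exact Nat.zero_le _

theorem xr_spec {W L : ℕ → Prop} {wt lt : ℕ} (h : TOk W L wt lt) (s : Bool) {k b0 cnt p : ℕ}
    (hok : bok b0 cnt p (2 ^ k) = true) (hc : cnt ≤ 16384) :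
    (∀ a, p ≤ a → a < p + 2 ^ k → PS W L s a →
      (xr wt lt s k b0 cnt p).testBit (p + 2 ^ k - 1 - a) = true) ∧
    xr wt lt s k b0 cnt p < 2 ^ (2 ^ k) := by
  have e : Nat.shiftLeft 1 k = 2 ^ k := Nat.one_shiftLeft k
  unfold xr
  rw [e]
  obtain ⟨h1, h2⟩ := bs_spec h s hok hc
  have h3 := rev_spec h2
  constructor
  · intro a ha1 ha2 ha3
    rw [h3]
    refine ⟨by omega, ?_⟩
    have h4 := h1 a ha1 ha2 ha3
    rwa [show 2 ^ k - 1 - (p + 2 ^ k - 1 - a) = a - p by omega]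
  · apply lt_two_pow_of_bits
    intro i hi hh
    have := ((h3 i).mp hh).1
    omega

theorem spr_bit {d n x : ℕ} (hx : x < 2 ^ n) (hn : n ≤ 4096 * 2 ^ d) {i : ℕ}
    (hi : x.testBit i = true) : (spr 17 d x).testBit (17 * i) = true := by
  have hx2 : x < 2 ^ (4096 * 2 ^ d) :=
    lt_of_lt_of_le hx (Nat.pow_le_pow_right (by norm_num) hn)
  rw [spr_spec d hx2]
  refine ⟨by omega, ?_⟩
  rwa [show 17 * i / 17 = i by omega]

theorem cutl_eq (Ys u : ℕ) : cutl Ys u = Ys >>> (17 * u) := by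
  unfold cutl
  cases hb : Nat.beq u 0 with
  | true =>
    rw [Nat.eq_of_beq_eq_true hb, Nat.mul_zero, Nat.shiftRight_zero]
  | false => rfl

theorem pcs_spec {W L : ℕ → Prop} {wt lt : ℕ} (h : TOk W L wt lt) (sA : Bool) {B : ℕ → Prop}
    {c : Bool} {k len y0 Ys : ℕ} (hk : 12 ≤ k) (hk2 : k ≤ 27)
    (hY : Spr 17 len Ys)
    (hB : ∀ b, y0 ≤ b → b < y0 + len → B b → Ys.testBit (17 * (b - y0)) = true)
    (hc : c = true → (pos 17 len Ys).card ≤ 122880) :
    ∀ l, pcs wt lt sA c k len y0 Ys l = true → ∀ r ∈ recs k len y0 l, FactH (PS W L sA) B k r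
  | [], _, r, hr => by
    unfold recs at hr
    exact absurd hr List.not_mem_nil
  | e :: l, hl, r, hr => by
    have e0 : Nat.shiftLeft 1 k = 2 ^ k := Nat.one_shiftLeft k
    have e1 : Nat.shiftLeft 1 (Nat.sub k 5) = 2 ^ (k - 5) := Nat.one_shiftLeft _
    have e2 : 2 ^ k = 32 * 2 ^ (k - 5) := by
      rw [show (32 : ℕ) = 2 ^ 5 by norm_num, ← pow_add]
      congr 1
      omega
    have e3 : 2 ^ k = 4096 * 2 ^ (k - 12) := by
      rw [show (4096 : ℕ) = 2 ^ 12 by norm_num, ← pow_add]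
      congr 1
      omega
    have e4 : 2 ^ (k - 5) < 134217728 := by
      calc 2 ^ (k - 5) ≤ 2 ^ 22 := Nat.pow_le_pow_right (by norm_num) (by omega)
        _ < 134217728 := by norm_num
    have hl' : ((((bok e.2.1 e.2.2.1 e.1 (Nat.shiftLeft 1 k) && Nat.ble e.2.2.1 16384) &&
      Nat.ble e.2.2.2.1 len) &&
      (c || Nat.ble (pcn (Nat.shiftLeft 1 (Nat.sub k 5))
        (xr wt lt sA k e.2.1 e.2.2.1 e.1)) 122880)) &&
      (chks (Nat.mul (spr 17 (Nat.sub k 12) (xr wt lt sA k e.2.1 e.2.2.1 e.1))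
        (cutl Ys e.2.2.2.1)) len k (y0 + e.2.2.2.1) e.1 e.2.2.2.2 &&
        pcs wt lt sA c k len y0 Ys l)) = true := hl
    rw [Bool.and_eq_true, Bool.and_eq_true, Bool.and_eq_true, Bool.and_eq_true, Bool.and_eq_true,
      Bool.or_eq_true, Nat.ble_eq, Nat.ble_eq, Nat.ble_eq, e0, e1, pcn_eq e4, ← e2,
      cutl_eq] at hl'
    obtain ⟨⟨⟨⟨h1, h2⟩, hu⟩, h3⟩, h4, h5⟩ := hl'
    obtain ⟨hx1, hx2⟩ := xr_spec h sA h1 h2
    unfold recs at hr
    rw [List.map_cons, List.mem_cons] at hr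
    rcases hr with rfl | hr
    · refine chks_spec (len := len - e.2.2.2.1) (by omega) (spr_Spr hx2 e3.le)
        (Spr_shift hY) ?_ ?_ ?_ _ h4
      · intro a ha1 ha2 ha3
        exact spr_bit hx2 e3.le (hx1 a ha1 ha2 ha3)
      · intro b hb1 hb2 hb3
        rw [Nat.testBit_shiftRight, ← mul_add]
        have := hB b (by omega) (by omega) hb3
        rwa [show b - y0 = e.2.2.2.1 + (b - (y0 + e.2.2.2.1)) by omega] at this
      · rcases h3 with h3 | h3
        · exact Or.inr (pos_shift_card.trans (hc h3))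
        · exact Or.inl ((card_pos_spr hx2 e3.le le_rfl).trans h3)
    · exact pcs_spec h sA hk hk2 hY hB hc l h5 r hr

/-- the fact of a segment -/
theorem sf_spec {W L : ℕ → Prop} {wt lt : ℕ} (h : TOk W L wt lt) {sA sB c : Bool}
    {k d b0 cnt y0 len : ℕ} {l : List (ℕ × ℕ × ℕ × ℕ × ℕ × ℕ × ℕ × List (ℕ × ℕ))}
    (hf : sf wt lt sA sB c k d b0 cnt y0 len l = true) :
    ∀ r ∈ recs k len y0 l, FactH (PS W L sA) (PS W L sB) k r := by
  have hf' : (((bok b0 cnt y0 len && Nat.ble cnt 16384) &&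
      ((Nat.ble len (4096 <<< d) && Nat.ble d 16) && (Nat.ble 12 k && Nat.ble k 27))) &&
    ((!c || Nat.ble (pcn (128 <<< d) (bs wt lt sB b0 cnt y0 len)) 122880) &&
      pcs wt lt sA c k len y0 (spr 17 d (bs wt lt sB b0 cnt y0 len)) l)) = true := hf
  rw [Bool.and_eq_true, Bool.and_eq_true, Bool.and_eq_true, Bool.and_eq_true, Bool.and_eq_true,
    Bool.and_eq_true, Bool.and_eq_true, Bool.or_eq_true, Nat.ble_eq, Nat.ble_eq, Nat.ble_eq,
    Nat.ble_eq, Nat.ble_eq, Nat.ble_eq, Nat.shiftLeft_eq, Nat.shiftLeft_eq] at hf'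
  obtain ⟨⟨⟨h1, h2⟩, ⟨h3, h4⟩, h5, h6⟩, h7, h8⟩ := hf'
  obtain ⟨g1, g2⟩ := bs_spec h sB h1 h2
  have e4 : 128 * 2 ^ d < 134217728 := by
    calc 128 * 2 ^ d ≤ 128 * 2 ^ 16 :=
          Nat.mul_le_mul le_rfl (Nat.pow_le_pow_right (by norm_num) h4)
      _ < 134217728 := by norm_num
  rw [pcn_eq e4, show 32 * (128 * 2 ^ d) = 4096 * 2 ^ d by ring] at h7
  refine pcs_spec h sA h5 h6 (spr_Spr g2 h3) ?_ ?_ l h8
  · intro b hb1 hb2 hb3
    exact spr_bit g2 h3 (g1 b hb1 hb2 hb3)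
  · intro hc
    rcases h7 with h7 | h7
    · rw [hc] at h7
      exact absurd h7 (by decide)
    · exact (card_pos_spr g2 h3 h3).trans h7

open Classical in
/-- the number of elements of a piece -/
theorem cf_spec {W L : ℕ → Prop} {wt lt : ℕ} (h : TOk W L wt lt) {k p b0 cnt c : ℕ}
    (hf : cf wt lt k p b0 cnt c = true) : ((Ico p (p + 2 ^ k)).filter W).card ≤ c := by
  have hf' : (((bok b0 cnt p (1 <<< k) && Nat.ble cnt 16384) && (Nat.ble 5 k && Nat.ble k 27)) &&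
    Nat.ble (pcn (1 <<< (k - 5)) (bs wt lt true b0 cnt p (1 <<< k))) c) = true := hf
  rw [Bool.and_eq_true, Bool.and_eq_true, Bool.and_eq_true, Bool.and_eq_true,
    Nat.ble_eq, Nat.ble_eq, Nat.ble_eq, Nat.ble_eq, Nat.one_shiftLeft, Nat.one_shiftLeft] at hf'
  obtain ⟨⟨⟨h1, h2⟩, h3, h4⟩, h5⟩ := hf'
  have e2 : 2 ^ k = 32 * 2 ^ (k - 5) := by
    rw [show (32 : ℕ) = 2 ^ 5 by norm_num, ← pow_add]
    congr 1
    omega
  have e4 : 2 ^ (k - 5) < 134217728 := by
    calc 2 ^ (k - 5) ≤ 2 ^ 22 := Nat.pow_le_pow_right (by norm_num) (by omega)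
      _ < 134217728 := by norm_num
  obtain ⟨g1, g2⟩ := bs_spec h true h1 h2
  rw [pcn_eq e4, ← e2] at h5
  refine le_trans ?_ h5
  unfold Pop.pop
  apply card_le_card_of_injOn (fun a => a - p)
  · intro a ha
    have ha := mem_coe.1 ha
    simp only [mem_filter, mem_Ico] at ha
    apply mem_coe.2
    simp only [mem_filter, mem_range]
    exact ⟨by omega, g1 a ha.1.1 ha.1.2 ha.2⟩
  · intro a ha b hb hab
    have ha := mem_coe.1 ha
    have hb := mem_coe.1 hb
    simp only [mem_filter, mem_Ico] at ha hb hab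
    omega

theorem cfs_spec {W L : ℕ → Prop} {wt lt : ℕ} (h : TOk W L wt lt) {k : ℕ} :
    ∀ {l : List (ℕ × ℕ × ℕ × ℕ)}, cfs wt lt k l = true →
      Cor.CntLe W (l.map (fun e => (e.1, e.1 + 2 ^ k, e.2.2.2)))
  | [], _, x, hx => by
    simp at hx
  | e :: l, hl, x, hx => by
    have hl' : (cf wt lt k e.1 e.2.1 e.2.2.1 e.2.2.2 && cfs wt lt k l) = true := hl
    rw [Bool.and_eq_true] at hl'
    rw [List.map_cons, List.mem_cons] at hx
    rcases hx with rfl | hx
    · exact cf_spec h hl'.1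
    · exact cfs_spec h hl'.2 x hx

/-! ### the chains of records -/

/-- the shifts `≥ H` of the piece `[p, p + 2 ^ k)` are covered by records with bound `≤ τ`;
`n` is the fuel -/
def cov (l : List (ℕ × ℕ × ℕ × ℕ × ℕ × List (ℕ × ℕ))) (Y k p τ : ℕ) : ℕ → ℕ → Bool
  | 0, _ => false
  | n + 1, H => l.any (fun r => Nat.beq r.1 p && (Nat.ble r.2.2.1 H &&
      (Nat.ble (r.2.2.2.2.1 + ex r.2.2.2.2.2 (H - r.2.2.1)) τ &&
      ((Nat.beq r.2.1 Y && Nat.ble Y (p + (r.2.2.1 + r.2.2.2.1))) ||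
        (Nat.ble (H + 1) (r.2.2.1 + r.2.2.2.1) && (Nat.ble (p + 2 ^ k + H) r.2.1 &&
          cov l Y k p τ n (min (r.2.2.1 + r.2.2.2.1) (r.2.1 + 1 - (p + 2 ^ k)))))))))

theorem cov_spec {A B : ℕ → Prop} {l : List (ℕ × ℕ × ℕ × ℕ × ℕ × List (ℕ × ℕ))} {Y k p τ : ℕ}
    (hl : ∀ r ∈ l, FactH A B k r) : ∀ (n H : ℕ), cov l Y k p τ n H = true →
    ∀ h, H ≤ h → corrY A B Y p (p + 2 ^ k) h ≤ τ
  | 0, H, hc, _, _ => by
    unfold cov at hc
    exact absurd hc (by decide)
  | n + 1, H, hc, h, hh => by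
    unfold cov at hc
    rw [List.any_eq_true] at hc
    obtain ⟨r, hr, hc⟩ := hc
    rw [Bool.and_eq_true, Bool.and_eq_true, Bool.and_eq_true, Bool.or_eq_true,
      Bool.and_eq_true, Bool.and_eq_true, Bool.and_eq_true,
      Nat.ble_eq, Nat.ble_eq, Nat.ble_eq, Nat.ble_eq, Nat.ble_eq] at hc
    obtain ⟨h1, h2, h3, h4⟩ := hc
    have h1' := Nat.eq_of_beq_eq_true h1
    have key := hl r hr
    unfold FactH at key
    rw [h1'] at key
    have hex := ex_mono r.2.2.2.2.2 (i := H - r.2.2.1) (j := h - r.2.2.1) (by omega)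
    rcases h4 with ⟨h4, h5⟩ | ⟨h4, h5, h6⟩
    · have h4' := Nat.eq_of_beq_eq_true h4
      rw [h4'] at key
      rcases Nat.lt_or_ge h (r.2.2.1 + r.2.2.2.1) with h7 | h7
      · have := key h (h2.trans hh) h7
        omega
      · rw [corrY_zero (by omega)]
        exact Nat.zero_le _
    · rcases Nat.lt_or_ge h (min (r.2.2.1 + r.2.2.2.1) (r.2.1 + 1 - (p + 2 ^ k))) with h7 | h7
      · have h8 : h < r.2.2.1 + r.2.2.2.1 := lt_of_lt_of_le h7 (min_le_left _ _)
        have h9 : h < r.2.1 + 1 - (p + 2 ^ k) := lt_of_lt_of_le h7 (min_le_right _ _)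
        have h10 : corrY A B Y p (p + 2 ^ k) h ≤ corrY A B r.2.1 p (p + 2 ^ k) h := by
          unfold corrY
          apply card_le_card
          intro a ha
          simp only [mem_filter, mem_Ico] at ha ⊢
          exact ⟨ha.1, ha.2.1, ha.2.2.1, by omega⟩
        have := key h (h2.trans hh) h8
        omega
      · exact cov_spec hl n _ h6 h h7

/-- the check of a list of thresholds -/
def covs (l : List (ℕ × ℕ × ℕ × ℕ × ℕ × List (ℕ × ℕ))) (Y k H : ℕ)
    (t : List (ℕ × ℕ × ℕ)) : Bool :=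
  t.all (fun x => Nat.beq x.2.1 (x.1 + 2 ^ k) && cov l Y k x.1 x.2.2 40 H)

theorem covs_spec {A B : ℕ → Prop} {l : List (ℕ × ℕ × ℕ × ℕ × ℕ × List (ℕ × ℕ))} {Y k H : ℕ}
    (hl : ∀ r ∈ l, FactH A B k r) {t : List (ℕ × ℕ × ℕ)} (hc : covs l Y k H t = true) :
    CorrLe A B Y H t := by
  unfold covs at hc
  rw [List.all_eq_true] at hc
  intro x hx h hh
  have h1 := hc x hx
  rw [Bool.and_eq_true] at h1
  rw [Nat.eq_of_beq_eq_true h1.1]
  exact cov_spec hl _ _ h1.2 h hh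

end Pool.Agent.AddSq.Co
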