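import Pool.Agent.AddSq.CorrDat
import Pool.Agent.AddSq.CorrRun

/-!
# The tiers of the groups 19, ..., 24
-/

namespace Pool.Agent.AddSq.Cor

/-- group 19, first tier -/
def t2_19 : Tier := Tier.mk 4096 ww2_19 wl2_19 lw2_19

/-- group 19, second tier -/
def t1_19 : Tier := Tier.mk 1024 ww1_19 wl1_19 lw1_19

/-- group 20, first tier -/
def t2_20 : Tier := Tier.mk 4096 ww2_20 wl2_20 lw2_20

/-- group 20, second tier -/
def t1_20 : Tier := Tier.mk 1024 ww1_20 wl1_20 lw1_20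

/-- group 21, first tier -/
def t2_21 : Tier := Tier.mk 8192 ww2_21 wl2_21 lw2_21

/-- group 21, second tier -/
def t1_21 : Tier := Tier.mk 1024 ww1_21 wl1_21 lw1_21

/-- group 22, first tier -/
def t2_22 : Tier := Tier.mk 8192 ww2_22 wl2_22 lw2_22

/-- group 22, second tier -/
def t1_22 : Tier := Tier.mk 1024 ww1_22 wl1_22 lw1_22

/-- group 23, first tier -/
def t2_23 : Tier := Tier.mk 16384 ww2_23 wl2_23 lw2_23

/-- group 23, second tier -/
def t1_23 : Tier := Tier.mk 1024 ww1_23 wl1_23 lw1_23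

/-- group 24a, first tier -/
def t2_24a : Tier := Tier.mk 16384 ww2_24a wl2_24a lw2_24a

/-- group 24a, second tier -/
def t1_24a : Tier := Tier.mk 1024 ww1_24a wl1_24a lw1_24a

/-- group 24, first tier -/
def t2_24 : Tier := Tier.mk 16384 ww2_24 wl2_24 lw2_24

/-- group 24, second tier -/
def t1_24 : Tier := Tier.mk 1024 ww1_24 wl1_24 lw1_24

/-- the facts of a group which the kernel computation delivers -/
structure GrpOk (W L : ℕ → Prop) (Y : ℕ) (t2 t1 : Tier) (ha : ℕ)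
    (wa cw : List (ℕ × ℕ × ℕ)) : Prop where
  h2 : TierOk W L Y t2
  h1 : TierOk W L Y t1
  hA : CorrLe W W Y ha wa
  hc : CntLe W cw

theorem corrY_mono (A B : ℕ → Prop) {Y Y' : ℕ} (hY : Y' ≤ Y) (p q h : ℕ) :
    corrY A B Y' p q h ≤ corrY A B Y p q h := by
  classical
  refine Finset.card_le_card ?_
  intro a ha
  rw [Finset.mem_filter] at ha ⊢
  exact ⟨ha.1, ha.2.1, ha.2.2.1, by omega⟩

theorem CorrLe.mono {A B : ℕ → Prop} {Y Y' h0 : ℕ} {l l' : List (ℕ × ℕ × ℕ)}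
    (h : CorrLe A B Y h0 l) (hY : Y' ≤ Y) (hl : ∀ x ∈ l', x ∈ l) : CorrLe A B Y' h0 l' :=
  fun x hx d hd => (corrY_mono A B hY x.1 x.2.1 d).trans (h x (hl x hx) d hd)

theorem GrpOk.trunc {W L : ℕ → Prop} (h : GrpOk W L 134217728 t2_24 t1_24 16777215 wa_24 cw_24) :
    GrpOk W L 100663296 t2_24a t1_24a 16777215 wa_24a cw_24a where
  h2 := ⟨CorrLe.mono h.h2.ww (by norm_num) (by decide),
    CorrLe.mono h.h2.wl (by norm_num) (by decide), CorrLe.mono h.h2.lw (by norm_num) (by decide)⟩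
  h1 := ⟨CorrLe.mono h.h1.ww (by norm_num) (by decide),
    CorrLe.mono h.h1.wl (by norm_num) (by decide), CorrLe.mono h.h1.lw (by norm_num) (by decide)⟩
  hA := CorrLe.mono h.hA (by norm_num) (by decide)
  hc := fun x hx => h.hc x ((by decide : ∀ x ∈ cw_24a, x ∈ cw_24) x hx)

end Pool.Agent.AddSq.Cor
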