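import Pool.Agent.AddSq.CorFact
import Pool.Agent.AddSq.CorrTiers
import Pool.Agent.AddSq.CK19

/-!
# The correlations of the group 19
-/

namespace Pool.Agent.AddSq.Co

open Pool.Agent.AddSq.Cor

set_option maxRecDepth 100000

/-- the records for `W`, `W` -/
def rww_19 : List (ℕ × ℕ × ℕ × ℕ × ℕ × List (ℕ × ℕ)) :=
  recs 17 4194304 0 l19_1

theorem rww_19_ok {W L : ℕ → Prop} (h : TOk W L TL.WT TL.LT) :
    ∀ r ∈ rww_19, FactH W W 17 r := by
  intro r hr
  unfold rww_19 at hr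
  exact sf_spec h ck19.1 r hr

/-- the records for `W`, `L` -/
def rwl_19 : List (ℕ × ℕ × ℕ × ℕ × ℕ × List (ℕ × ℕ)) :=
  recs 19 4194304 0 l19_2

theorem rwl_19_ok {W L : ℕ → Prop} (h : TOk W L TL.WT TL.LT) :
    ∀ r ∈ rwl_19, FactH W L 19 r := by
  intro r hr
  unfold rwl_19 at hr
  exact sf_spec h ck19.2.1 r hr

/-- the records for `L`, `W` -/
def rlw_19 : List (ℕ × ℕ × ℕ × ℕ × ℕ × List (ℕ × ℕ)) :=
  recs 19 4194304 0 l19_3

theorem rlw_19_ok {W L : ℕ → Prop} (h : TOk W L TL.WT TL.LT) :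
    ∀ r ∈ rlw_19, FactH L W 19 r := by
  intro r hr
  unfold rlw_19 at hr
  exact sf_spec h ck19.2.2.1 r hr

theorem grpOk_19 {W L : ℕ → Prop} (h : GRules W L) :
    GrpOk W L 4194304 t2_19 t1_19 524287 wa_19 cw_19 := by
  have hT := tok_of_rules h
  refine ⟨⟨?_, ?_, ?_⟩, ⟨?_, ?_, ?_⟩, ?_, ?_⟩
  · exact covs_spec (H := 4096) (t := ww2_19) (rww_19_ok hT) (by decide +kernel)
  · exact covs_spec (H := 4096) (t := wl2_19) (rwl_19_ok hT) (by decide +kernel)
  · exact covs_spec (H := 4096) (t := lw2_19) (rlw_19_ok hT) (by decide +kernel)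
  · exact covs_spec (H := 1024) (t := ww1_19) (rww_19_ok hT) (by decide +kernel)
  · exact covs_spec (H := 1024) (t := wl1_19) (rwl_19_ok hT) (by decide +kernel)
  · exact covs_spec (H := 1024) (t := lw1_19) (rlw_19_ok hT) (by decide +kernel)
  · exact covs_spec (rww_19_ok hT) (by decide +kernel)
  · have e : cw_19 = n19.map (fun e => (e.1, e.1 + 2 ^ 17, e.2.2.2)) := by decide +kernel
    rw [e]
    exact cfs_spec hT ck19.2.2.2

end Pool.Agent.AddSq.Co
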