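import Pool.Agent.AddSq.CorFact
import Pool.Agent.AddSq.CorrTiers
import Pool.Agent.AddSq.CK20

/-!
# The correlations of the group 20
-/

namespace Pool.Agent.AddSq.Co

open Pool.Agent.AddSq.Cor

set_option maxRecDepth 100000

/-- the records for `W`, `W` -/
def rww_20 : List (ℕ × ℕ × ℕ × ℕ × ℕ × List (ℕ × ℕ)) :=
  recs 18 8388608 0 l20_1 ++
    (recs 18 8388608 0 l20_2)

theorem rww_20_ok {W L : ℕ → Prop} (h : TOk W L TL.WT TL.LT) :
    ∀ r ∈ rww_20, FactH W W 18 r := by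
  intro r hr
  unfold rww_20 at hr
  simp only [List.mem_append] at hr
  rcases hr with hr | hr
  · exact sf_spec h ck20.1 r hr
  · exact sf_spec h ck20.2.1 r hr

/-- the records for `W`, `L` -/
def rwl_20 : List (ℕ × ℕ × ℕ × ℕ × ℕ × List (ℕ × ℕ)) :=
  recs 20 8388608 0 l20_3

theorem rwl_20_ok {W L : ℕ → Prop} (h : TOk W L TL.WT TL.LT) :
    ∀ r ∈ rwl_20, FactH W L 20 r := by
  intro r hr
  unfold rwl_20 at hr
  exact sf_spec h ck20.2.2.1 r hr

/-- the records for `L`, `W` -/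
def rlw_20 : List (ℕ × ℕ × ℕ × ℕ × ℕ × List (ℕ × ℕ)) :=
  recs 20 8388608 0 l20_4

theorem rlw_20_ok {W L : ℕ → Prop} (h : TOk W L TL.WT TL.LT) :
    ∀ r ∈ rlw_20, FactH L W 20 r := by
  intro r hr
  unfold rlw_20 at hr
  exact sf_spec h ck20.2.2.2.1 r hr

theorem grpOk_20 {W L : ℕ → Prop} (h : GRules W L) :
    GrpOk W L 8388608 t2_20 t1_20 1048575 wa_20 cw_20 := by
  have hT := tok_of_rules h
  refine ⟨⟨?_, ?_, ?_⟩, ⟨?_, ?_, ?_⟩, ?_, ?_⟩
  · exact covs_spec (H := 4096) (t := ww2_20) (rww_20_ok hT) (by decide +kernel)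
  · exact covs_spec (H := 4096) (t := wl2_20) (rwl_20_ok hT) (by decide +kernel)
  · exact covs_spec (H := 4096) (t := lw2_20) (rlw_20_ok hT) (by decide +kernel)
  · exact covs_spec (H := 1024) (t := ww1_20) (rww_20_ok hT) (by decide +kernel)
  · exact covs_spec (H := 1024) (t := wl1_20) (rwl_20_ok hT) (by decide +kernel)
  · exact covs_spec (H := 1024) (t := lw1_20) (rlw_20_ok hT) (by decide +kernel)
  · exact covs_spec (rww_20_ok hT) (by decide +kernel)
  · have e : cw_20 = n20.map (fun e => (e.1, e.1 + 2 ^ 18, e.2.2.2)) := by decide +kernel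
    rw [e]
    exact cfs_spec hT ck20.2.2.2.2

end Pool.Agent.AddSq.Co
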