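import Pool.Agent.AddSq.CorFact
import Pool.Agent.AddSq.CorrTiers
import Pool.Agent.AddSq.CK21

/-!
# The correlations of the group 21
-/

namespace Pool.Agent.AddSq.Co

open Pool.Agent.AddSq.Cor

set_option maxRecDepth 100000

/-- the records for `W`, `W` -/
def rww_21 : List (ℕ × ℕ × ℕ × ℕ × ℕ × List (ℕ × ℕ)) :=
  recs 19 16777216 0 l21_1 ++
    (recs 19 16777216 0 l21_2 ++
    (recs 19 16777216 0 l21_3))

theorem rww_21_ok {W L : ℕ → Prop} (h : TOk W L TL.WT TL.LT) :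
    ∀ r ∈ rww_21, FactH W W 19 r := by
  intro r hr
  unfold rww_21 at hr
  simp only [List.mem_append] at hr
  rcases hr with hr | hr | hr
  · exact sf_spec h ck21.1 r hr
  · exact sf_spec h ck21.2.1 r hr
  · exact sf_spec h ck21.2.2.1 r hr

/-- the records for `W`, `L` -/
def rwl_21 : List (ℕ × ℕ × ℕ × ℕ × ℕ × List (ℕ × ℕ)) :=
  recs 21 16777216 0 l21_4

theorem rwl_21_ok {W L : ℕ → Prop} (h : TOk W L TL.WT TL.LT) :
    ∀ r ∈ rwl_21, FactH W L 21 r := by
  intro r hr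
  unfold rwl_21 at hr
  exact sf_spec h ck21.2.2.2.1 r hr

/-- the records for `L`, `W` -/
def rlw_21 : List (ℕ × ℕ × ℕ × ℕ × ℕ × List (ℕ × ℕ)) :=
  recs 21 16777216 0 l21_5

theorem rlw_21_ok {W L : ℕ → Prop} (h : TOk W L TL.WT TL.LT) :
    ∀ r ∈ rlw_21, FactH L W 21 r := by
  intro r hr
  unfold rlw_21 at hr
  exact sf_spec h ck21.2.2.2.2.1 r hr

theorem grpOk_21 {W L : ℕ → Prop} (h : GRules W L) :
    GrpOk W L 16777216 t2_21 t1_21 2097151 wa_21 cw_21 := by
  have hT := tok_of_rules h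
  refine ⟨⟨?_, ?_, ?_⟩, ⟨?_, ?_, ?_⟩, ?_, ?_⟩
  · exact covs_spec (H := 8192) (t := ww2_21) (rww_21_ok hT) (by decide +kernel)
  · exact covs_spec (H := 8192) (t := wl2_21) (rwl_21_ok hT) (by decide +kernel)
  · exact covs_spec (H := 8192) (t := lw2_21) (rlw_21_ok hT) (by decide +kernel)
  · exact covs_spec (H := 1024) (t := ww1_21) (rww_21_ok hT) (by decide +kernel)
  · exact covs_spec (H := 1024) (t := wl1_21) (rwl_21_ok hT) (by decide +kernel)
  · exact covs_spec (H := 1024) (t := lw1_21) (rlw_21_ok hT) (by decide +kernel)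
  · exact covs_spec (rww_21_ok hT) (by decide +kernel)
  · have e : cw_21 = n21.map (fun e => (e.1, e.1 + 2 ^ 19, e.2.2.2)) := by decide +kernel
    rw [e]
    exact cfs_spec hT ck21.2.2.2.2.2

end Pool.Agent.AddSq.Co
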