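import Pool.Agent.AddSq.CorFact
import Pool.Agent.AddSq.CorrTiers
import Pool.Agent.AddSq.CK22a
import Pool.Agent.AddSq.CK22b
import Pool.Agent.AddSq.CK22c

/-!
# The correlations of the group 22
-/

namespace Pool.Agent.AddSq.Co

open Pool.Agent.AddSq.Cor

set_option maxRecDepth 100000

/-- the records for `W`, `W` -/
def rww_22 : List (ℕ × ℕ × ℕ × ℕ × ℕ × List (ℕ × ℕ)) :=
  recs 20 17825792 0 l22a_1 ++
    (recs 20 17825792 0 l22a_2 ++
    (recs 20 17825792 0 l22a_3 ++
    (recs 20 16777216 16777216 l22a_4 ++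
    (recs 20 16777216 16777216 l22b_1 ++
    (recs 20 16777216 16777216 l22b_2)))))

theorem rww_22_ok {W L : ℕ → Prop} (h : TOk W L TL.WT TL.LT) :
    ∀ r ∈ rww_22, FactH W W 20 r := by
  intro r hr
  unfold rww_22 at hr
  simp only [List.mem_append] at hr
  rcases hr with hr | hr | hr | hr | hr | hr
  · exact sf_spec h ck22a.1 r hr
  · exact sf_spec h ck22a.2.1 r hr
  · exact sf_spec h ck22a.2.2.1 r hr
  · exact sf_spec h ck22a.2.2.2 r hr
  · exact sf_spec h ck22b.1 r hr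
  · exact sf_spec h ck22b.2.1 r hr

/-- the records for `W`, `L` -/
def rwl_22 : List (ℕ × ℕ × ℕ × ℕ × ℕ × List (ℕ × ℕ)) :=
  recs 22 20971520 0 l22b_3 ++
    (recs 22 16777216 16777216 l22b_4)

theorem rwl_22_ok {W L : ℕ → Prop} (h : TOk W L TL.WT TL.LT) :
    ∀ r ∈ rwl_22, FactH W L 22 r := by
  intro r hr
  unfold rwl_22 at hr
  simp only [List.mem_append] at hr
  rcases hr with hr | hr
  · exact sf_spec h ck22b.2.2.1 r hr
  · exact sf_spec h ck22b.2.2.2 r hr

/-- the records for `L`, `W` -/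
def rlw_22 : List (ℕ × ℕ × ℕ × ℕ × ℕ × List (ℕ × ℕ)) :=
  recs 22 20971520 0 l22c_1 ++
    (recs 22 16777216 16777216 l22c_2)

theorem rlw_22_ok {W L : ℕ → Prop} (h : TOk W L TL.WT TL.LT) :
    ∀ r ∈ rlw_22, FactH L W 22 r := by
  intro r hr
  unfold rlw_22 at hr
  simp only [List.mem_append] at hr
  rcases hr with hr | hr
  · exact sf_spec h ck22c.1 r hr
  · exact sf_spec h ck22c.2.1 r hr

theorem grpOk_22 {W L : ℕ → Prop} (h : GRules W L) :
    GrpOk W L 33554432 t2_22 t1_22 4194303 wa_22 cw_22 := by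
  have hT := tok_of_rules h
  refine ⟨⟨?_, ?_, ?_⟩, ⟨?_, ?_, ?_⟩, ?_, ?_⟩
  · exact covs_spec (H := 8192) (t := ww2_22) (rww_22_ok hT) (by decide +kernel)
  · exact covs_spec (H := 8192) (t := wl2_22) (rwl_22_ok hT) (by decide +kernel)
  · exact covs_spec (H := 8192) (t := lw2_22) (rlw_22_ok hT) (by decide +kernel)
  · exact covs_spec (H := 1024) (t := ww1_22) (rww_22_ok hT) (by decide +kernel)
  · exact covs_spec (H := 1024) (t := wl1_22) (rwl_22_ok hT) (by decide +kernel)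
  · exact covs_spec (H := 1024) (t := lw1_22) (rlw_22_ok hT) (by decide +kernel)
  · exact covs_spec (rww_22_ok hT) (by decide +kernel)
  · have e : cw_22 = n22c.map (fun e => (e.1, e.1 + 2 ^ 20, e.2.2.2)) := by decide +kernel
    rw [e]
    exact cfs_spec hT ck22c.2.2

end Pool.Agent.AddSq.Co
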