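import Pool.Agent.AddSq.CorFact
import Pool.Agent.AddSq.CorrTiers
import Pool.Agent.AddSq.CK23a
import Pool.Agent.AddSq.CK23b
import Pool.Agent.AddSq.CK23c
import Pool.Agent.AddSq.CK23d
import Pool.Agent.AddSq.CK23e
import Pool.Agent.AddSq.CK23f
import Pool.Agent.AddSq.CK23g

/-!
# The correlations of the group 23
-/

namespace Pool.Agent.AddSq.Co

open Pool.Agent.AddSq.Cor

set_option maxRecDepth 100000

/-- the records for `W`, `W` -/
def rww_23 : List (ℕ × ℕ × ℕ × ℕ × ℕ × List (ℕ × ℕ)) :=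
  recs 21 18874368 0 l23a_1 ++
    (recs 21 18874368 0 l23a_2 ++
    (recs 21 18874368 16777216 l23a_3 ++
    (recs 21 18874368 16777216 l23a_4 ++
    (recs 21 18874368 16777216 l23a_5 ++
    (recs 21 18874368 16777216 l23b_1 ++
    (recs 21 18874368 33554432 l23b_2 ++
    (recs 21 18874368 33554432 l23b_3 ++
    (recs 21 18874368 33554432 l23b_4 ++
    (recs 21 18874368 33554432 l23c_1 ++
    (recs 21 16777216 50331648 l23c_2 ++
    (recs 21 16777216 50331648 l23c_3 ++
    (recs 21 16777216 50331648 l23c_4 ++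
    (recs 21 16777216 50331648 l23d_1)))))))))))))

theorem rww_23_ok {W L : ℕ → Prop} (h : TOk W L TL.WT TL.LT) :
    ∀ r ∈ rww_23, FactH W W 21 r := by
  intro r hr
  unfold rww_23 at hr
  simp only [List.mem_append] at hr
  rcases hr with hr | hr | hr | hr | hr | hr | hr | hr | hr | hr | hr | hr | hr | hr
  · exact sf_spec h ck23a.1 r hr
  · exact sf_spec h ck23a.2.1 r hr
  · exact sf_spec h ck23a.2.2.1 r hr
  · exact sf_spec h ck23a.2.2.2.1 r hr
  · exact sf_spec h ck23a.2.2.2.2 r hr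
  · exact sf_spec h ck23b.1 r hr
  · exact sf_spec h ck23b.2.1 r hr
  · exact sf_spec h ck23b.2.2.1 r hr
  · exact sf_spec h ck23b.2.2.2 r hr
  · exact sf_spec h ck23c.1 r hr
  · exact sf_spec h ck23c.2.1 r hr
  · exact sf_spec h ck23c.2.2.1 r hr
  · exact sf_spec h ck23c.2.2.2 r hr
  · exact sf_spec h ck23d.1 r hr

/-- the records for `W`, `L` -/
def rwl_23 : List (ℕ × ℕ × ℕ × ℕ × ℕ × List (ℕ × ℕ)) :=
  recs 23 25165824 0 l23d_2 ++
    (recs 23 25165824 16777216 l23d_3 ++
    (recs 23 25165824 16777216 l23d_4 ++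
    (recs 23 25165824 33554432 l23e_1 ++
    (recs 23 25165824 33554432 l23e_2 ++
    (recs 23 16777216 50331648 l23e_3 ++
    (recs 23 16777216 50331648 l23e_4))))))

theorem rwl_23_ok {W L : ℕ → Prop} (h : TOk W L TL.WT TL.LT) :
    ∀ r ∈ rwl_23, FactH W L 23 r := by
  intro r hr
  unfold rwl_23 at hr
  simp only [List.mem_append] at hr
  rcases hr with hr | hr | hr | hr | hr | hr | hr
  · exact sf_spec h ck23d.2.1 r hr
  · exact sf_spec h ck23d.2.2.1 r hr
  · exact sf_spec h ck23d.2.2.2 r hr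
  · exact sf_spec h ck23e.1 r hr
  · exact sf_spec h ck23e.2.1 r hr
  · exact sf_spec h ck23e.2.2.1 r hr
  · exact sf_spec h ck23e.2.2.2.1 r hr

/-- the records for `L`, `W` -/
def rlw_23 : List (ℕ × ℕ × ℕ × ℕ × ℕ × List (ℕ × ℕ)) :=
  recs 23 25165824 0 l23e_5 ++
    (recs 23 25165824 16777216 l23f_1 ++
    (recs 23 25165824 16777216 l23f_2 ++
    (recs 23 25165824 33554432 l23f_3 ++
    (recs 23 25165824 33554432 l23f_4 ++
    (recs 23 16777216 50331648 l23g_1 ++
    (recs 23 16777216 50331648 l23g_2))))))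

theorem rlw_23_ok {W L : ℕ → Prop} (h : TOk W L TL.WT TL.LT) :
    ∀ r ∈ rlw_23, FactH L W 23 r := by
  intro r hr
  unfold rlw_23 at hr
  simp only [List.mem_append] at hr
  rcases hr with hr | hr | hr | hr | hr | hr | hr
  · exact sf_spec h ck23e.2.2.2.2 r hr
  · exact sf_spec h ck23f.1 r hr
  · exact sf_spec h ck23f.2.1 r hr
  · exact sf_spec h ck23f.2.2.1 r hr
  · exact sf_spec h ck23f.2.2.2 r hr
  · exact sf_spec h ck23g.1 r hr
  · exact sf_spec h ck23g.2.1 r hr

theorem grpOk_23 {W L : ℕ → Prop} (h : GRules W L) :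
    GrpOk W L 67108864 t2_23 t1_23 8388607 wa_23 cw_23 := by
  have hT := tok_of_rules h
  refine ⟨⟨?_, ?_, ?_⟩, ⟨?_, ?_, ?_⟩, ?_, ?_⟩
  · exact covs_spec (H := 16384) (t := ww2_23) (rww_23_ok hT) (by decide +kernel)
  · exact covs_spec (H := 16384) (t := wl2_23) (rwl_23_ok hT) (by decide +kernel)
  · exact covs_spec (H := 16384) (t := lw2_23) (rlw_23_ok hT) (by decide +kernel)
  · exact covs_spec (H := 1024) (t := ww1_23) (rww_23_ok hT) (by decide +kernel)
  · exact covs_spec (H := 1024) (t := wl1_23) (rwl_23_ok hT) (by decide +kernel)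
  · exact covs_spec (H := 1024) (t := lw1_23) (rlw_23_ok hT) (by decide +kernel)
  · exact covs_spec (rww_23_ok hT) (by decide +kernel)
  · have e : cw_23 = n23g.map (fun e => (e.1, e.1 + 2 ^ 21, e.2.2.2)) := by decide +kernel
    rw [e]
    exact cfs_spec hT ck23g.2.2

end Pool.Agent.AddSq.Co
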