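import Pool.Agent.AddSq.CorDefs

/-!
# Kernel functions for the correlations: the facts

`sf`: for the segment `[y0, y0 + len)` of one set and for pieces `[p, p + 2 ^ k)` of one set the
digits `t0, …, t0 + len - 1` of the product are at most `τ`.
-/

namespace Pool.Agent.AddSq.Co

open Pool.Agent.AddSq.Fa

/-- the table of the wins (`true`) or of the losses (`false`) -/
noncomputable def tb (wt lt : Nat) (s : Bool) : Nat := @Bool.rec (fun _ => Nat) lt wt s

/-- losses of the block `k ≤ KM` -/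
noncomputable def lblk (wt lt KM : Nat) : Nat → Nat :=
  frc (fun k => lf (cut lt (Nat.add (Nat.mul 3 KM) 16))
    (cut wt (Nat.add (Nat.mul 4 KM) (Nat.add (Nat.div KM 64) 32)))
    (cut lt (Nat.add (Nat.mul 6 KM) 32))
    (cut wt (Nat.add (Nat.mul 8 KM) (Nat.add (Nat.div KM 64) 32)))
    (Nat.land (cut wt (Nat.succ (Nat.mul 2 KM))) (msk (Nat.succ (Nat.mul 2 k))))
    k 0 (Nat.succ (Nat.mul 2 k)))

/-- blocks `k ≤ KM` of the wins (`true`) or of the losses (`false`) -/
noncomputable def fb (wt lt : Nat) (s : Bool) (KM : Nat) : Nat → Nat :=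
  @Bool.rec (fun _ => Nat → Nat) (lblk wt lt KM) (wblk wt lt KM) s

/-- the set on `[y0, y0 + len)`, from the blocks `b0, …, b0 + cnt - 1` -/
noncomputable def bs (wt lt : Nat) (s : Bool) (b0 cnt y0 len : Nat) : Nat :=
  @Bool.rec (fun _ => Nat)
    (@Bool.rec (fun _ => Nat) (segB (fb wt lt s (Nat.add b0 cnt)) b0 cnt y0 len)
      (segM (tb wt lt s) (fb wt lt s (Nat.add 2200 cnt)) cnt y0 len) (Nat.ble y0 4840000))
    (segT (tb wt lt s) y0 len) (Nat.beq cnt 0)

/-- the side conditions of `bs` -/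
noncomputable def bok (b0 cnt y0 len : Nat) : Bool :=
  @Bool.rec (fun _ => Bool)
    (@Bool.rec (fun _ => Bool)
      (Bool.and (Bool.and (Nat.ble (Nat.mul b0 b0) y0) (Nat.ble 1 b0))
        (Bool.and (Nat.ble (Nat.add y0 len) (Nat.mul (Nat.add b0 cnt) (Nat.add b0 cnt)))
          (Nat.ble (Nat.add b0 cnt) 300000)))
      (Nat.ble (Nat.add y0 len) (Nat.mul (Nat.add 2200 cnt) (Nat.add 2200 cnt)))
      (Nat.ble y0 4840000))
    (Nat.ble (Nat.add y0 len) 4840000) (Nat.beq cnt 0)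

/-- the reversed piece `[p, p + 2 ^ k)` -/
noncomputable def xr (wt lt : Nat) (s : Bool) (k b0 cnt p : Nat) : Nat :=
  rev k (bs wt lt s b0 cnt p (Nat.shiftLeft 1 k))

/-- the number `P` from the digit `t0` on; only `T` digits, if `T ≠ T0` -/
noncomputable def dgs (P T0 t0 T : Nat) : Nat :=
  @Bool.rec (fun _ => Nat)
    (Nat.shiftRight (Nat.land P (msk (Nat.mul 17 (Nat.add t0 T)))) (Nat.mul 17 t0))
    (Nat.shiftRight P (Nat.mul 17 t0)) (Nat.beq T T0)

/-- the sum of `δ (1 + 2 ^ 17 + … + 2 ^ (17 (T - 1)))` for the `(T, δ)` of the list -/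
noncomputable def exn : List (Nat × Nat) → Nat :=
  @List.rec (Nat × Nat) (fun _ => Nat) 0 (fun e _ ih => Nat.add (Nat.mul e.2 (rep 1 17 e.1)) ih)

/-- `C - exn l` -/
noncomputable def sbl (C : Nat) (l : List (Nat × Nat)) : Nat :=
  @List.rec (Nat × Nat) (fun _ => Nat) C (fun _ _ _ => Nat.sub C (exn l)) l

/-- the sum of the `δ` of the list -/
noncomputable def sdl : List (Nat × Nat) → Nat :=
  @List.rec (Nat × Nat) (fun _ => Nat) 0 (fun e _ ih => Nat.add e.2 ih)

/-- the digit `t0 + j`, `j < T`, of `P` is at most `τ` plus the sum of the `δ` with `j < T'`,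
`(T', δ)` in the list `l`, if all the digits are at most `122880` -/
noncomputable def chk (P T0 t0 T τ : Nat) (l : List (Nat × Nat)) : Bool :=
  Bool.and (Nat.ble (Nat.add τ (sdl l)) 8191)
    (Nat.beq (Nat.land (Nat.add (dgs P T0 t0 T)
      (sbl (Nat.mul (Nat.sub 8191 τ) (rep 1 17 T)) l)) (Nat.mul 122880 (rep 1 17 T))) 0)

/-- the lengths of the list are at most `T` -/
noncomputable def lel (T : Nat) : List (Nat × Nat) → Bool :=
  @List.rec (Nat × Nat) (fun _ => Bool) true (fun e _ ih => Bool.and (Nat.ble e.1 T) ih)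

/-- the entry `(t0, T, τ, l)` of the piece `[p, p + 2 ^ k)`; the segment starts at `y0` -/
noncomputable def chks (P T0 k y0 p : Nat) (e : Nat × Nat × Nat × List (Nat × Nat)) : Bool :=
  Bool.and (Bool.and (Nat.ble (Nat.shiftLeft 1 k) (Nat.succ e.1))
      (Bool.and (lel e.2.1 e.2.2.2)
        (Nat.ble (Nat.add p (Nat.shiftLeft 1 k)) (Nat.succ (Nat.add e.1 y0)))))
    (chk P T0 e.1 e.2.1 e.2.2.1 e.2.2.2)

/-- the part of the segment from `u` on -/
noncomputable def cutl (Ys u : Nat) : Nat :=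
  @Bool.rec (fun _ => Nat) (Nat.shiftRight Ys (Nat.mul 17 u)) Ys (Nat.beq u 0)

/-- the pieces `(p, b0, cnt, u, t0, T, τ, l)`; `c = true`: the segment has few elements -/
noncomputable def pcs (wt lt : Nat) (s c : Bool) (k len y0 Ys : Nat) :
    List (Nat × Nat × Nat × Nat × Nat × Nat × Nat × List (Nat × Nat)) → Bool :=
  @List.rec (Nat × Nat × Nat × Nat × Nat × Nat × Nat × List (Nat × Nat)) (fun _ => Bool) true (fun e _ ih =>
    Bool.and (Bool.and (Bool.and (Bool.and (bok e.2.1 e.2.2.1 e.1 (Nat.shiftLeft 1 k))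
        (Nat.ble e.2.2.1 16384)) (Nat.ble e.2.2.2.1 len))
      (Bool.or c (Nat.ble (pcn (Nat.shiftLeft 1 (Nat.sub k 5))
        (xr wt lt s k e.2.1 e.2.2.1 e.1)) 122880)))
      (Bool.and (chks (Nat.mul (spr 17 (Nat.sub k 12) (xr wt lt s k e.2.1 e.2.2.1 e.1))
        (cutl Ys e.2.2.2.1)) len k (Nat.add y0 e.2.2.2.1) e.1 e.2.2.2.2) ih))

/-- the fact for the segment `[y0, y0 + len)` of the set `sB` and pieces of the set `sA` -/
noncomputable def sf (wt lt : Nat) (sA sB c : Bool) (k d b0 cnt y0 len : Nat)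
    (l : List (Nat × Nat × Nat × Nat × Nat × Nat × Nat × List (Nat × Nat))) : Bool :=
  Bool.and (Bool.and (Bool.and (bok b0 cnt y0 len) (Nat.ble cnt 16384))
      (Bool.and (Bool.and (Nat.ble len (Nat.shiftLeft 4096 d)) (Nat.ble d 16))
        (Bool.and (Nat.ble 12 k) (Nat.ble k 27))))
    (Bool.and (Bool.or (Bool.not c) (Nat.ble (pcn (Nat.shiftLeft 128 d)
        (bs wt lt sB b0 cnt y0 len)) 122880))
      (pcs wt lt sA c k len y0 (spr 17 d (bs wt lt sB b0 cnt y0 len)) l))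

/-- number of elements of the piece `[p, p + 2 ^ k)` of the wins -/
noncomputable def cf (wt lt : Nat) (k p b0 cnt c : Nat) : Bool :=
  Bool.and (Bool.and (Bool.and (bok b0 cnt p (Nat.shiftLeft 1 k)) (Nat.ble cnt 16384))
      (Bool.and (Nat.ble 5 k) (Nat.ble k 27)))
    (Nat.ble (pcn (Nat.shiftLeft 1 (Nat.sub k 5)) (bs wt lt true b0 cnt p (Nat.shiftLeft 1 k))) c)

/-- numbers of elements of pieces `(p, b0, cnt, c)` -/
noncomputable def cfs (wt lt : Nat) (k : Nat) : List (Nat × Nat × Nat × Nat) → Bool :=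
  @List.rec (Nat × Nat × Nat × Nat) (fun _ => Bool) true (fun e _ ih =>
    Bool.and (cf wt lt k e.1 e.2.1 e.2.2.1 e.2.2.2) ih)

end Pool.Agent.AddSq.Co
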