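import Pool.Agent.AddSq.Gen

/-!
# Correlations of the two sets: the interface

The kernel computations deliver facts `CorrLe A B Y h0 l`; the block lemma (`CorrBlock`) and
the summation (`CorrSum`) use them.
-/

namespace Pool.Agent.AddSq

open Finset

open Classical in
/-- `#{a ∈ [p, q) : A a, B (a + h), a + h < Y}` -/
noncomputable def corrY (A B : ℕ → Prop) (Y p q h : ℕ) : ℕ :=
  ((Ico p q).filter (fun a => A a ∧ B (a + h) ∧ a + h < Y)).card

/-- for every piece `(p, q, τ)` of the list and every shift `h ≥ h0` the number of pairs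
`(a, a + h)`, `a ∈ [p, q)`, `a + h < Y`, is at most `τ` -/
def CorrLe (A B : ℕ → Prop) (Y h0 : ℕ) (l : List (ℕ × ℕ × ℕ)) : Prop :=
  ∀ x ∈ l, ∀ h, h0 ≤ h → corrY A B Y x.1 x.2.1 h ≤ x.2.2

end Pool.Agent.AddSq
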