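import Pool.Agent.AddSq.GenWindow
import Pool.Agent.AddSq.CorrIface

/-!
# The block lemma of the correlation part

For a block `k` put `m = √(2k²)`, `Q = 2k² - m²`, `P = 2m + 1 - Q`.  In the block the numbers
`r₁`, `r₂` of `k² + a` are `a + Q`, `a - P`, `a + (4k-1-Q)`, `a - Q`, `a + P` on intervals of
`a`; so the number of possible losses of the block is a sum of few correlations.
-/

namespace Pool.Agent.AddSq.Cor

open Finset

/-- `m = ⌊√2 k⌋` -/
def mm (k : ℕ) : ℕ := Nat.sqrt (2 * (k * k))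

/-- `Q = 2 k² - m²` -/
def qq (k : ℕ) : ℕ := 2 * (k * k) - mm k * mm k

/-- `P = 2 m + 1 - Q = (m + 1)² - 2 k²` -/
def pp (k : ℕ) : ℕ := 2 * mm k + 1 - qq k

theorem qq_add (k : ℕ) : mm k * mm k + qq k = 2 * (k * k) := by
  have := Nat.sqrt_le (2 * (k * k))
  unfold qq mm
  omega

theorem qq_le (k : ℕ) : qq k ≤ 2 * mm k := by
  have := Nat.sqrt_le_add (2 * (k * k))
  unfold qq mm
  omega

theorem pp_add (k : ℕ) : pp k + qq k = 2 * mm k + 1 := by
  have := qq_le k
  unfold pp
  omega

theorem one_le_pp (k : ℕ) : 1 ≤ pp k := by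
  have := qq_le k
  unfold pp
  omega

theorem mm_mono {a b : ℕ} (h : a ≤ b) : mm a ≤ mm b :=
  Nat.sqrt_le_sqrt (Nat.mul_le_mul le_rfl (Nat.mul_le_mul h h))

theorem le_mm (k : ℕ) : k ≤ mm k := by
  unfold mm
  rw [Nat.le_sqrt]
  omega

/-- `2 m ≤ 3 k` -/
theorem mm_le (k : ℕ) : 2 * mm k ≤ 3 * k := by
  by_contra hc
  have h1 := Nat.sqrt_le (2 * (k * k))
  have h2 : (3 * k + 1) * (3 * k + 1) ≤ (2 * mm k) * (2 * mm k) :=
    Nat.mul_le_mul (by omega) (by omega)
  unfold mm at h2
  nlinarith

/-- the block of `up n` -/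
theorem rem_up_lo {k a : ℕ} (ha : a ≤ 2 * k) (h : a < pp k) :
    rem (up (k * k + a)) = a + qq k := by
  have h1 := qq_add k
  have h2 := pp_add k
  rw [up_block ha]
  have e : 2 * (k * k) + a = mm k * mm k + (a + qq k) := by omega
  rw [e, rem_block (by omega)]

theorem rem_up_hi {k a : ℕ} (ha : a ≤ 2 * k) (h : pp k ≤ a) :
    rem (up (k * k + a)) = a - pp k := by
  have h1 := qq_add k
  have h2 := pp_add k
  have h3 := le_mm k
  rw [up_block ha]
  have e : 2 * (k * k) + a = (mm k + 1) * (mm k + 1) + (a - pp k) := by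
    have : (mm k + 1) * (mm k + 1) = mm k * mm k + (2 * mm k + 1) := by ring
    omega
  rw [e, rem_block (by omega)]

/-- (A) -/
theorem r2_A {k a : ℕ} (ha : a ≤ 2 * k) (h : a < pp k) (hq : a < qq k) :
    r2 k a = a + (4 * k - 1 - qq k) := by
  have h1 := rem_up_lo ha h
  have h2 := rem_block ha
  have h3 := qq_le k
  have h4 := mm_le k
  have h5 : Nat.sqrt (k * k + a) = k := sqrt_block ha
  have h6 := (case_odd (n := k * k + a) (by rw [h1, h2]; omega)).2
  rw [h1, h2, h5] at h6
  unfold r2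
  omega

/-- (B) -/
theorem r2_B {k a : ℕ} (ha : a ≤ 2 * k) (h : a < pp k) (hq : qq k ≤ a) :
    r2 k a = a - qq k := by
  have h1 := rem_up_lo ha h
  have h2 := rem_block ha
  have h6 := (case_even (n := k * k + a) (by rw [h1, h2]; omega)).2
  rw [h1, h2] at h6
  unfold r2
  omega

/-- (C) -/
theorem r2_C {k a : ℕ} (ha : a ≤ 2 * k) (h : pp k ≤ a) : r2 k a = a + pp k := by
  have h1 := rem_up_hi ha h
  have h2 := rem_block ha
  have h6 := (case_even (n := k * k + a) (by rw [h1, h2]; omega)).2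
  rw [h1, h2] at h6
  unfold r2
  omega

/-! ### the possible losses of a block -/

open Classical in
/-- the possible losses of the block `k` -/
noncomputable def blk (W L : ℕ → Prop) (k : ℕ) : Finset ℕ :=
  (Icc 0 (2 * k)).filter (fun a => W a ∧ (L (rem (up (k * k + a))) ∨ W (r2 k a)))

open Classical in
/-- pairs of a range: `a ∈ [u, v)`, `A a`, `B (a + h)`, `a + h < Y` -/
noncomputable def rng (A B : ℕ → Prop) (Y u v h : ℕ) : Finset ℕ :=
  (Ico u v).filter (fun a => A a ∧ B (a + h) ∧ a + h < Y)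

theorem corrY_eq (A B : ℕ → Prop) (Y p q h : ℕ) : corrY A B Y p q h = (rng A B Y p q h).card :=
  rfl

/-- **the block lemma** -/
theorem blk_card_le (W L : ℕ → Prop) {k Y : ℕ} (hY : 4 * k < Y) :
    (blk W L k).card ≤
      (rng W W Y 0 (min (qq k) (pp k)) (4 * k - 1 - qq k)).card +
      (rng W W Y 0 (min (pp k - qq k) (2 * k + 1 - qq k)) (qq k)).card +
      (rng W W Y (pp k) (2 * k + 1) (pp k)).card +
      (rng W L Y 0 (min (pp k) (2 * k + 1)) (qq k)).card +
      (rng L W Y 0 (2 * k + 1 - pp k) (pp k)).card := by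
  classical
  have hsub : blk W L k ⊆
      (((rng W W Y 0 (min (qq k) (pp k)) (4 * k - 1 - qq k)) ∪
      ((rng W W Y 0 (min (pp k - qq k) (2 * k + 1 - qq k)) (qq k)).image (fun b => b + qq k))) ∪
      ((rng W W Y (pp k) (2 * k + 1) (pp k)))) ∪
      (((rng W L Y 0 (min (pp k) (2 * k + 1)) (qq k))) ∪
      ((rng L W Y 0 (2 * k + 1 - pp k) (pp k)).image (fun b => b + pp k))) := by
    intro a ha
    unfold blk at ha
    rw [mem_filter, mem_Icc] at ha
    obtain ⟨⟨-, h2k⟩, hW, h⟩ := ha
    have hm := mm_le k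
    have hq := qq_le k
    have hp := pp_add k
    rcases Nat.lt_or_ge a (pp k) with hlo | hhi
    · rcases h with h | h
      · rw [rem_up_lo h2k hlo] at h
        refine mem_union_right _ (mem_union_left _ ?_)
        unfold rng
        rw [mem_filter, mem_Ico]
        refine ⟨⟨Nat.zero_le _, by omega⟩, hW, h, by omega⟩
      · rcases Nat.lt_or_ge a (qq k) with hA | hB
        · rw [r2_A h2k hlo hA] at h
          refine mem_union_left _ (mem_union_left _ (mem_union_left _ ?_))
          unfold rng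
          rw [mem_filter, mem_Ico]
          refine ⟨⟨Nat.zero_le _, by omega⟩, hW, h, by omega⟩
        · rw [r2_B h2k hlo hB] at h
          refine mem_union_left _ (mem_union_left _ (mem_union_right _ ?_))
          rw [mem_image]
          refine ⟨a - qq k, ?_, by omega⟩
          unfold rng
          rw [mem_filter, mem_Ico]
          have e : a - qq k + qq k = a := by omega
          refine ⟨⟨Nat.zero_le _, by omega⟩, h, by rw [e]; exact hW, by omega⟩
    · rcases h with h | h
      · rw [rem_up_hi h2k hhi] at h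
        refine mem_union_right _ (mem_union_right _ ?_)
        rw [mem_image]
        refine ⟨a - pp k, ?_, by omega⟩
        unfold rng
        rw [mem_filter, mem_Ico]
        have e : a - pp k + pp k = a := by omega
        refine ⟨⟨Nat.zero_le _, by omega⟩, h, by rw [e]; exact hW, by omega⟩
      · have h4 := r2_le h2k
        rw [r2_C h2k hhi] at h h4
        refine mem_union_left _ (mem_union_right _ ?_)
        unfold rng
        rw [mem_filter, mem_Ico]
        refine ⟨⟨hhi, by omega⟩, hW, h, by omega⟩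
  refine (card_le_card hsub).trans ?_
  refine (card_union_le _ _).trans ?_
  have e1 := card_union_le ((rng W W Y 0 (min (qq k) (pp k)) (4 * k - 1 - qq k)) ∪
      ((rng W W Y 0 (min (pp k - qq k) (2 * k + 1 - qq k)) (qq k)).image (fun b => b + qq k)))
      ((rng W W Y (pp k) (2 * k + 1) (pp k)))
  have e2 := card_union_le (rng W W Y 0 (min (qq k) (pp k)) (4 * k - 1 - qq k))
      ((rng W W Y 0 (min (pp k - qq k) (2 * k + 1 - qq k)) (qq k)).image (fun b => b + qq k))
  have e3 := card_union_le ((rng W L Y 0 (min (pp k) (2 * k + 1)) (qq k)))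
      ((rng L W Y 0 (2 * k + 1 - pp k) (pp k)).image (fun b => b + pp k))
  have e4 : ((rng W W Y 0 (min (pp k - qq k) (2 * k + 1 - qq k)) (qq k)).image
      (fun b => b + qq k)).card ≤ _ := card_image_le
  have e5 : ((rng L W Y 0 (2 * k + 1 - pp k) (pp k)).image (fun b => b + pp k)).card ≤ _ :=
    card_image_le
  omega

/-- the trivial bound -/
theorem blk_card_le_triv (W L : ℕ → Prop) (k : ℕ) : (blk W L k).card ≤ gcount W (2 * k) := by
  classical
  refine card_le_card ?_
  intro a ha
  unfold blk at ha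
  rw [mem_filter] at ha ⊢
  exact ⟨ha.1, ha.2.1⟩

/-- `L` below `z²`: the blocks `k ∈ [K, z)` -/
theorem gcount_blocks {W L : ℕ → Prop} (h : GRules W L) {K z : ℕ} (hK : 1 ≤ K) (hz : K ≤ z) :
    gcount L (z * z - 1) ≤ gcount L (K * K - 1) + ∑ k ∈ Ico K z, (blk W L k).card := by
  classical
  have hKK : 1 ≤ K * K := Nat.mul_pos hK hK
  have hsub : (Icc 0 (z * z - 1)).filter L ⊆
      ((Icc 0 (K * K - 1)).filter L) ∪
        ((Ico K z).biUnion (fun k => (blk W L k).image (fun a => k * k + a))) := by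
    intro n hn
    rw [mem_filter, mem_Icc] at hn
    obtain ⟨⟨-, h2⟩, hl⟩ := hn
    rw [mem_union]
    rcases Nat.lt_or_ge n (K * K) with h1 | h1
    · left
      rw [mem_filter, mem_Icc]
      exact ⟨⟨Nat.zero_le _, by omega⟩, hl⟩
    · right
      have hzz : K * K ≤ z * z := Nat.mul_le_mul hz hz
      have hn1 : 1 ≤ n := by omega
      have hs1 : K ≤ Nat.sqrt n := Nat.le_sqrt.mpr h1
      have hs2 : Nat.sqrt n < z := Nat.sqrt_lt.mpr (by omega)
      have e := sq_add_rem n
      have hr := rem_le_two_sqrt n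
      rw [mem_biUnion]
      refine ⟨Nat.sqrt n, mem_Ico.mpr ⟨hs1, hs2⟩, ?_⟩
      rw [mem_image]
      refine ⟨rem n, ?_, e⟩
      unfold blk
      rw [mem_filter, mem_Icc]
      refine ⟨⟨Nat.zero_le _, hr⟩, ?_⟩
      obtain ⟨h3, h4⟩ := h.l n hn1 hl
      refine ⟨h3, ?_⟩
      unfold r2
      rw [e]
      rcases h4 with h4 | ⟨h4, -⟩
      · exact Or.inl h4
      · exact Or.inr h4
  refine (card_le_card hsub).trans ?_
  refine (card_union_le _ _).trans ?_
  refine Nat.add_le_add_left ?_ _
  refine card_biUnion_le.trans ?_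
  exact sum_le_sum (fun k _ => card_image_le)

end Pool.Agent.AddSq.Cor
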