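import Pool.Agent.AddSq.CorrTiers

/-!
# The windows of the blocks `25165824 ≤ k < 33554432`
-/

namespace Pool.Agent.AddSq.Cor

/-- the windows -/
def ws_24b : List Win := [
  Win.mk 25728936 36386210 64 1137070 16 4548277 1535 24571 50689 84228 983825
    [(25259676, 779485481839), (25353528, 784260892283), (25447380, 789036302727), (25541232, 793811713171), (25635084, 798587123615)] 803360566409,
  Win.mk 26304648 37200389 64 1162513 16 4650049 1570 25120 50689 82513 983825
    [(25824888, 808242379549), (25920840, 813124027663), (26016792, 818005675777), (26112744, 822887323891), (26208696, 827768972005)] 832648652469,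
  Win.mk 26893243 38032788 64 1188525 16 4754099 1605 25682 50888 82697 983825
    [(26402747, 837658839409), (26500846, 842668860955), (26598945, 847678882501), (26697044, 852688904047), (26795143, 857698925593)] 862707030377,
  Win.mk 27495008 38883813 64 1215120 16 4860477 1641 26257 52963 85870 1046628
    [(26993537, 868037922403), (27093831, 873368642689), (27194125, 878699362975), (27294419, 884030083261), (27394713, 889360803547)] 894689483540,
  Win.mk 28110238 39753879 64 1242309 16 4969235 1677 26845 52963 88106 1046628
    [(27597546, 900139501802), (27700084, 905589343852), (27802623, 911039238865), (27905161, 916489080915), (28007699, 921938922965)] 927386724722,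
  Win.mk 28739234 40643414 64 1270107 16 5080427 1715 27445 53131 86790 1046628
    [(28215070, 932975688698), (28319903, 938564532225), (28424736, 944153375752), (28529568, 949742166148), (28634401, 955331009675)] 960917759946,
  Win.mk 29382305 41552854 64 1298527 16 5194107 1753 28059 54982 89956 1107459
    [(28846412, 966830634958), (28953591, 972743385040), (29060769, 978656080140), (29167948, 984568830222), (29275126, 990481525322)] 996392060486,
  Win.mk 30039765 42482643 64 1327583 16 5310331 1792 28687 55186 91708 1107459
    [(29491881, 1002459353086), (29601458, 1008526517456), (29711035, 1014593681826), (29820611, 1020660791010), (29930188, 1026727955380)] 1032792904832,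
  Win.mk 30711937 43433237 64 1357289 16 5429155 1833 29329 55186 91708 1107459
    [(30151793, 1038995513504), (30263822, 1045197993946), (30375851, 1051400474388), (30487879, 1057602899644), (30599908, 1063805380086)] 1070005645610,
  Win.mk 31399149 44405102 64 1387660 16 5550638 1874 29986 55186 90395 1107459
    [(30826472, 1076346442772), (30941007, 1082687059144), (31055543, 1089027730702), (31170078, 1095368347074), (31284613, 1101708963446)] 1108047420086,
  Win.mk 32101738 45398713 64 1418710 16 5674840 1916 30657 57126 93553 1167067
    [(31516247, 1114757697542), (31633345, 1121467787892), (31750443, 1128177878242), (31867541, 1134887968592), (31984639, 1141598058942)] 1148305872284,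
  Win.mk 32820049 46414558 64 1450455 16 5801820 1958 31343 57126 93553 1167067
    [(32221456, 1155165819860), (32341175, 1162025637456), (32460893, 1168885397926), (32580612, 1175745215522), (32700330, 1182604975992)] 1189462459454,
  Win.mk 33554432 47453132 64 1482911 16 5931642 2002 32044 57409 92589 1167067
    [(32942446, 1196509966399), (33064843, 1203557288166), (33187240, 1210604609933), (33309637, 1217651931700), (33432034, 1224699253467)] 1231744298509]

theorem run_24b : run t2_24 t1_24 16777215 wa_24 cw_24 134217728 25165824 35589849 774709902939 ws_24b = true := by
  decide +kernel

end Pool.Agent.AddSq.Cor
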