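import Pool.Agent.AddSq.CorrWin19
import Pool.Agent.AddSq.CorrWin20
import Pool.Agent.AddSq.CorrWin21
import Pool.Agent.AddSq.CorrWin22
import Pool.Agent.AddSq.CorrWin23
import Pool.Agent.AddSq.CorrWin24a
import Pool.Agent.AddSq.CorrList

/-!
# The bounds of the correlation part: `gcount L (K² - 1) ≤ v` for all pairs `(K, v)` of `corrListM`
-/

namespace Pool.Agent.AddSq.Cor

theorem corrListM_eq : corrListM = outp ws_19 ++ (outp ws_20 ++ (outp ws_21 ++ (outp ws_22 ++ (outp ws_23 ++ (outp ws_24a))))) := by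
  decide +kernel

theorem corr_dataM {W L : ℕ → Prop} (h : GRules W L)
    (h19 : GrpOk W L 4194304 t2_19 t1_19 524287 wa_19 cw_19)
    (h20 : GrpOk W L 8388608 t2_20 t1_20 1048575 wa_20 cw_20)
    (h21 : GrpOk W L 16777216 t2_21 t1_21 2097151 wa_21 cw_21)
    (h22 : GrpOk W L 33554432 t2_22 t1_22 4194303 wa_22 cw_22)
    (h23 : GrpOk W L 67108864 t2_23 t1_23 8388607 wa_23 cw_23)
    (h24a : GrpOk W L 100663296 t2_24a t1_24a 16777215 wa_24a cw_24a)
    (hv : gcount L (589824 * 589824 - 1) ≤ 60986524) :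
    ∀ p ∈ corrListM, 1 ≤ p.1 ∧ gcount L (p.1 * p.1 - 1) ≤ p.2 := by
  have a19 := run_spec h h19.h2 h19.h1 h19.hA h19.hc ws_19 589824 _ _ hv run_19
  have b19 : gcount L (1048576 * 1048576 - 1) ≤ 2874197584 := (a19 (1048576, 2874197584) (by decide +kernel)).2
  have a20 := run_spec h h20.h2 h20.h1 h20.hA h20.hc ws_20 1048576 _ _ b19 run_20
  have b20 : gcount L (2097152 * 2097152 - 1) ≤ 12179447219 := (a20 (2097152, 12179447219) (by decide +kernel)).2
  have a21 := run_spec h h21.h2 h21.h1 h21.hA h21.hc ws_21 2097152 _ _ b20 run_21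
  have b21 : gcount L (4194304 * 4194304 - 1) ≤ 40845155616 := (a21 (4194304, 40845155616) (by decide +kernel)).2
  have a22 := run_spec h h22.h2 h22.h1 h22.hA h22.hc ws_22 4194304 _ _ b21 run_22
  have b22 : gcount L (8388608 * 8388608 - 1) ≤ 128782432764 := (a22 (8388608, 128782432764) (by decide +kernel)).2
  have a23 := run_spec h h23.h2 h23.h1 h23.hA h23.hc ws_23 8388608 _ _ b22 run_23
  have b23 : gcount L (16777216 * 16777216 - 1) ≤ 398205332076 := (a23 (16777216, 398205332076) (by decide +kernel)).2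
  have a24a := run_spec h h24a.h2 h24a.h1 h24a.hA h24a.hc ws_24a 16777216 _ _ b23 run_24a
  intro p hp
  rw [corrListM_eq] at hp
  simp only [List.mem_append] at hp
  rcases hp with hp | hp | hp | hp | hp | hp
  · exact a19 p hp
  · exact a20 p hp
  · exact a21 p hp
  · exact a22 p hp
  · exact a23 p hp
  · exact a24a p hp

end Pool.Agent.AddSq.Cor
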