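import Pool.Agent.AddSq.CorrBlock

/-!
# Summation of the correlation bounds over the blocks

From thresholds for the correlations of pieces to bounds for `gcount L (z² - 1)`.
-/

namespace Pool.Agent.AddSq.Cor

open Finset

/-! ### sums of thresholds -/

/-- the sum of the thresholds of the pieces which meet `[u, v)` -/
def meet : List (ℕ × ℕ × ℕ) → ℕ → ℕ → ℕ
  | [], _, _ => 0
  | x :: l, u, v => cond (Nat.ble (u + 1) x.2.1 && Nat.ble (x.1 + 1) v) x.2.2 0 + meet l u v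

/-- the end of the part of `[s, ∞)` covered by consecutive pieces -/
def cend : ℕ → List (ℕ × ℕ × ℕ) → ℕ
  | s, [] => s
  | s, x :: l => cond (Nat.ble x.1 s && Nat.ble s x.2.1) (cend x.2.1 l) s

theorem le_cend : ∀ (l : List (ℕ × ℕ × ℕ)) (s : ℕ), s ≤ cend s l
  | [], s => le_rfl
  | x :: l, s => by
    unfold cend
    rcases hb : (Nat.ble x.1 s && Nat.ble s x.2.1) with _ | _
    · exact le_rfl
    · rw [Bool.and_eq_true, Nat.ble_eq, Nat.ble_eq] at hb
      exact hb.2.trans (le_cend l x.2.1)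

theorem cover_of_cend : ∀ (l : List (ℕ × ℕ × ℕ)) (s a : ℕ), s ≤ a → a < cend s l →
    ∃ x ∈ l, x.1 ≤ a ∧ a < x.2.1
  | [], s, a, h1, h2 => absurd h2 (by unfold cend; omega)
  | x :: l, s, a, h1, h2 => by
    unfold cend at h2
    rcases hb : (Nat.ble x.1 s && Nat.ble s x.2.1) with _ | _
    · rw [hb] at h2
      simp only [cond_false] at h2
      omega
    · rw [hb] at h2
      simp only [cond_true] at h2
      rw [Bool.and_eq_true, Nat.ble_eq, Nat.ble_eq] at hb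
      rcases Nat.lt_or_ge a x.2.1 with h3 | h3
      · exact ⟨x, List.mem_cons_self, hb.1.trans h1, h3⟩
      · obtain ⟨y, hy, h4⟩ := cover_of_cend l x.2.1 a h3 h2
        exact ⟨y, List.mem_cons_of_mem _ hy, h4⟩

open Classical in
theorem card_le_meet (T : ℕ → Prop) : ∀ (l : List (ℕ × ℕ × ℕ)) (u v : ℕ),
    (∀ x ∈ l, ((Ico x.1 x.2.1).filter T).card ≤ x.2.2) →
    ((Ico u v).filter (fun a => (∃ x ∈ l, x.1 ≤ a ∧ a < x.2.1) ∧ T a)).card ≤ meet l u v
  | [], u, v, _ => by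
    simp [meet]
  | x :: l, u, v, h => by
    have ih := card_le_meet T l u v (fun y hy => h y (List.mem_cons_of_mem _ hy))
    have hx := h x List.mem_cons_self
    unfold meet
    have hsub : (Ico u v).filter (fun a => (∃ y ∈ x :: l, y.1 ≤ a ∧ a < y.2.1) ∧ T a) ⊆
        ((Ico u v).filter (fun a => (x.1 ≤ a ∧ a < x.2.1) ∧ T a)) ∪
        ((Ico u v).filter (fun a => (∃ y ∈ l, y.1 ≤ a ∧ a < y.2.1) ∧ T a)) := by
      intro a ha
      rw [mem_filter] at ha
      rw [mem_union, mem_filter, mem_filter]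
      obtain ⟨h1, ⟨y, hy, h2⟩, h3⟩ := ha
      rcases List.mem_cons.mp hy with rfl | hy
      · exact Or.inl ⟨h1, h2, h3⟩
      · exact Or.inr ⟨h1, ⟨y, hy, h2⟩, h3⟩
    refine (card_le_card hsub).trans ((card_union_le _ _).trans (Nat.add_le_add ?_ ih))
    rcases hb : (Nat.ble (u + 1) x.2.1 && Nat.ble (x.1 + 1) v) with _ | _
    · simp only [cond_false, Nat.le_zero_eq, card_eq_zero]
      rw [filter_eq_empty_iff]
      intro a ha h2
      rw [mem_Ico] at ha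
      have : (Nat.ble (u + 1) x.2.1 && Nat.ble (x.1 + 1) v) = true := by
        rw [Bool.and_eq_true, Nat.ble_eq, Nat.ble_eq]
        omega
      rw [this] at hb
      exact absurd hb (by simp)
    · simp only [cond_true]
      refine le_trans (card_le_card ?_) hx
      intro a ha
      rw [mem_filter] at ha ⊢
      exact ⟨mem_Ico.mpr ha.2.1, ha.2.2⟩

/-- pieces covering `[0, v)`: the number of pairs in `[u, v)` -/
theorem rng_card_le {A B : ℕ → Prop} {Y h0 : ℕ} {l : List (ℕ × ℕ × ℕ)}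
    (hl : CorrLe A B Y h0 l) {u v h : ℕ} (hh : h0 ≤ h) (hv : v ≤ cend 0 l) :
    (rng A B Y u v h).card ≤ meet l u v := by
  classical
  obtain ⟨T, hT⟩ : ∃ T : ℕ → Prop, ∀ a, T a ↔ (A a ∧ B (a + h) ∧ a + h < Y) :=
    ⟨fun a => A a ∧ B (a + h) ∧ a + h < Y, fun _ => Iff.rfl⟩
  have h1 := card_le_meet T l u v (fun x hx => by
    have h2 := hl x hx h hh
    unfold corrY at h2
    refine (card_le_card ?_).trans h2
    intro a ha
    rw [mem_filter] at ha ⊢
    exact ⟨ha.1, (hT a).mp ha.2⟩)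
  refine le_trans (card_le_card ?_) h1
  intro a ha
  unfold rng at ha
  rw [mem_filter] at ha ⊢
  have h3 := (mem_Ico.mp ha.1).2
  exact ⟨ha.1, cover_of_cend l 0 a (Nat.zero_le _) (by omega), (hT a).mpr ha.2⟩

theorem meet_mono (l : List (ℕ × ℕ × ℕ)) {u u' v v' : ℕ} (hu : u' ≤ u) (hv : v ≤ v') :
    meet l u v ≤ meet l u' v' := by
  induction l with
  | nil => exact le_rfl
  | cons x l ih =>
    unfold meet
    refine Nat.add_le_add ?_ ih
    rcases hb : (Nat.ble (u + 1) x.2.1 && Nat.ble (x.1 + 1) v) with _ | _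
    · exact Nat.zero_le _
    · have : (Nat.ble (u' + 1) x.2.1 && Nat.ble (x.1 + 1) v') = true := by
        rw [Bool.and_eq_true, Nat.ble_eq, Nat.ble_eq] at hb ⊢
        omega
      rw [this]

/-! ### a tier: thresholds for the shifts `≥ h` -/

/-- thresholds for the pairs `(W, W)`, `(W, L)`, `(L, W)` -/
structure Tier where
  /-- the shifts `≥ h` -/
  h : ℕ
  /-- lower element in `W`, upper element in `W` -/
  ww : List (ℕ × ℕ × ℕ)
  /-- lower element in `W`, upper element in `L` -/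
  wl : List (ℕ × ℕ × ℕ)
  /-- lower element in `L`, upper element in `W` -/
  lw : List (ℕ × ℕ × ℕ)

/-- the facts delivered by the kernel computation -/
structure TierOk (W L : ℕ → Prop) (Y : ℕ) (t : Tier) : Prop where
  ww : CorrLe W W Y t.h t.ww
  wl : CorrLe W L Y t.h t.wl
  lw : CorrLe L W Y t.h t.lw

/-- the lists of the tier cover `[0, Z)` -/
def Tier.cov (t : Tier) (Z : ℕ) : Bool :=
  Nat.ble Z (cend 0 t.ww) && Nat.ble Z (cend 0 t.wl) && Nat.ble Z (cend 0 t.lw)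

/-- bound for `P ∈ [P₀, P₁]`, `k < K₁`, `m ∈ [M₀, M₁]`; `wa`: thresholds for the shifts
`4k - 1 - Q ≥ k - 1` of the range (A) -/
def Tier.cell (wa : List (ℕ × ℕ × ℕ)) (t : Tier) (K1 M0 M1 P0 P1 : ℕ) : ℕ :=
  meet wa 0 (min (2 * M1 + 1 - P0) P1) +
  meet t.ww 0 (min (2 * P1 - (2 * M0 + 1))
    (min (2 * K1 - 1 + P1 - (2 * M0 + 1)) (2 * K1 - 1))) +
  meet t.ww P0 (2 * K1 - 1) +
  meet t.wl 0 (min P1 (2 * K1 - 1)) +
  meet t.lw 0 (2 * K1 - 1 - P0)

/-- all cells `[P₀ + i s, P₀ + (i + 1) s]`, `i < n`, have bound `≤ F` -/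
def Tier.cells (wa : List (ℕ × ℕ × ℕ)) (t : Tier) (K1 M0 M1 s F : ℕ) : ℕ → ℕ → Bool
  | 0, _ => true
  | n + 1, P0 => Nat.ble (t.cell wa K1 M0 M1 P0 (P0 + s)) F &&
      t.cells wa K1 M0 M1 s F n (P0 + s)

theorem Tier.cells_spec (wa : List (ℕ × ℕ × ℕ)) (t : Tier) {K1 M0 M1 s F : ℕ} : ∀ (n P0 : ℕ),
    t.cells wa K1 M0 M1 s F n P0 = true → ∀ P, P0 ≤ P → P ≤ P0 + n * s → 1 ≤ n →
    ∃ p, p ≤ P ∧ P ≤ p + s ∧ t.cell wa K1 M0 M1 p (p + s) ≤ F
  | 0, P0, _, P, _, _, hn => absurd hn (by omega)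
  | n + 1, P0, h, P, h1, h2, _ => by
    unfold Tier.cells at h
    rw [Bool.and_eq_true, Nat.ble_eq] at h
    rcases Nat.lt_or_ge (P0 + s) P with h3 | h3
    · have h4 : P ≤ P0 + s + n * s := by
        have : (n + 1) * s = s + n * s := by ring
        omega
      rcases Nat.eq_zero_or_pos n with hn | hn
      · subst hn
        omega
      · exact Tier.cells_spec wa t n (P0 + s) h.2 P (by omega) h4 hn
    · exact ⟨P0, h1, h3, h.1⟩

/-- **a block with both shifts at least `t.h`** -/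
theorem blk_le_cell {W L : ℕ → Prop} {Y : ℕ} {t : Tier} (ht : TierOk W L Y t) {ha : ℕ}
    {wa : List (ℕ × ℕ × ℕ)} (hwa : CorrLe W W Y ha wa) {k K1 M0 M1 : ℕ}
    (hY : 4 * K1 ≤ Y) (hcwa : 2 * K1 - 1 ≤ cend 0 wa) (hak : ha < k) (hk : k < K1) (hM0 : M0 ≤ mm k) (hM1 : mm k ≤ M1)
    (hcov : t.cov (2 * K1 - 1) = true)
    (hq : t.h ≤ qq k) (hp : t.h ≤ pp k) {P0 P1 : ℕ} (h0 : P0 ≤ pp k)
    (h1 : pp k ≤ P1) : (blk W L k).card ≤ t.cell wa K1 M0 M1 P0 P1 := by
  unfold Tier.cov at hcov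
  rw [Bool.and_eq_true, Bool.and_eq_true, Nat.ble_eq, Nat.ble_eq, Nat.ble_eq] at hcov
  obtain ⟨⟨c1, c2⟩, c3⟩ := hcov
  have hm := mm_le k
  have hadd := pp_add k
  have hqq := qq_le k
  refine (blk_card_le W L (k := k) (Y := Y) (by omega)).trans ?_
  unfold Tier.cell
  refine Nat.add_le_add (Nat.add_le_add (Nat.add_le_add (Nat.add_le_add ?_ ?_) ?_) ?_) ?_
  · refine (rng_card_le hwa (by omega) ?_).trans (meet_mono _ le_rfl ?_)
    · omega
    · omega
  · refine (rng_card_le ht.ww hq ?_).trans (meet_mono _ le_rfl ?_)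
    · omega
    · omega
  · refine (rng_card_le ht.ww hp ?_).trans (meet_mono _ h0 ?_)
    · omega
    · omega
  · refine (rng_card_le ht.wl hq ?_).trans (meet_mono _ le_rfl ?_)
    · omega
    · omega
  · refine (rng_card_le ht.lw hp ?_).trans (meet_mono _ le_rfl ?_)
    · omega
    · omega

/-! ### spacing of the exceptional blocks -/

/-- two good approximations of `√2` on the same side are far apart -/
theorem spacing_aux {h D M : ℕ} (hc : h * (5658 * D * M + 1000 * h) ≤ 4000 * (M * M))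
    {d e : ℤ} (hd : 1 ≤ d) (hdD : d ≤ D) (hM : 1 ≤ M)
    (hx : |Real.sqrt 2 * d - e| * (2 * M) < h) : False := by
  have hs : Real.sqrt 2 * Real.sqrt 2 = 2 := Real.mul_self_sqrt (by norm_num)
  have hs0 : 0 ≤ Real.sqrt 2 := Real.sqrt_nonneg 2
  have hs1 : Real.sqrt 2 ≤ 1.4143 := by
    rw [show (1.4143 : ℝ) = Real.sqrt (1.4143 ^ 2) from (Real.sqrt_sq (by norm_num)).symm]
    exact Real.sqrt_le_sqrt (by norm_num)
  -- `2 d² - e² ≠ 0`
  have hne : (2 * d ^ 2 - e ^ 2 : ℤ) ≠ 0 := by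
    intro h0
    have h1 : (e : ℝ) ^ 2 = 2 * (d : ℝ) ^ 2 := by
      have : (e ^ 2 : ℤ) = 2 * d ^ 2 := by omega
      exact_mod_cast this
    have hd0 : (0 : ℝ) < d := by exact_mod_cast (by omega : (0 : ℤ) < d)
    have h2 : Real.sqrt 2 = |(e : ℝ)| / d := by
      rw [eq_div_iff hd0.ne']
      have h3 : (Real.sqrt 2 * d) ^ 2 = |(e : ℝ)| ^ 2 := by
        rw [sq_abs, h1, mul_pow, pow_two (Real.sqrt 2), hs]
      exact (pow_left_inj₀ (mul_nonneg hs0 hd0.le) (abs_nonneg _) (by norm_num)).mp h3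
    have hirr := Nat.Prime.irrational_sqrt Nat.prime_two
    apply hirr
    refine ⟨((|e| : ℤ) : ℚ) / (d : ℚ), ?_⟩
    push_cast
    rw [h2]
  have h1 : (1 : ℝ) ≤ |2 * (d : ℝ) ^ 2 - (e : ℝ) ^ 2| := by
    have : (1 : ℤ) ≤ |2 * d ^ 2 - e ^ 2| := Int.one_le_abs hne
    exact_mod_cast this
  have hM0 : (1 : ℝ) ≤ M := by exact_mod_cast hM
  have hd1 : (1 : ℝ) ≤ d := by exact_mod_cast hd
  have hdD' : (d : ℝ) ≤ D := by exact_mod_cast hdD
  set x := Real.sqrt 2 * d - e with hxdef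
  have hfac : 2 * (d : ℝ) ^ 2 - (e : ℝ) ^ 2 = x * (2 * Real.sqrt 2 * d - x) := by
    rw [hxdef]
    have : (d : ℝ) ^ 2 * (Real.sqrt 2 * Real.sqrt 2) = 2 * (d : ℝ) ^ 2 := by rw [hs]; ring
    nlinarith
  have hx0 : 0 ≤ |x| := abs_nonneg x
  have h2 : |2 * Real.sqrt 2 * d - x| ≤ 2 * Real.sqrt 2 * d + |x| := by
    have := abs_sub (2 * Real.sqrt 2 * (d : ℝ)) x
    rwa [abs_of_nonneg (by positivity : (0 : ℝ) ≤ 2 * Real.sqrt 2 * d)] at this
  have h3 : 1 ≤ |x| * (2 * Real.sqrt 2 * d + |x|) := by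
    calc (1 : ℝ) ≤ |2 * (d : ℝ) ^ 2 - (e : ℝ) ^ 2| := h1
      _ = |x| * |2 * Real.sqrt 2 * d - x| := by rw [hfac, abs_mul]
      _ ≤ _ := mul_le_mul_of_nonneg_left h2 hx0
  have hcR : (h : ℝ) * (5658 * D * M + 1000 * h) ≤ 4000 * (M * M) := by exact_mod_cast hc
  have hh0 : (0 : ℝ) ≤ h := Nat.cast_nonneg _
  have h4 : (2 * (M : ℝ)) ^ 2 ≤ (|x| * (2 * M)) * (2 * M * (2 * Real.sqrt 2 * d) + |x| * (2 * M)) := by
    have : (2 * (M : ℝ)) ^ 2 * 1 ≤ (2 * (M : ℝ)) ^ 2 * (|x| * (2 * Real.sqrt 2 * d + |x|)) :=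
      mul_le_mul_of_nonneg_left h3 (by positivity)
    nlinarith
  set y := |x| * (2 * (M : ℝ)) with hy
  have hy0 : 0 ≤ y := by positivity
  have h5 : 2 * (M : ℝ) * (2 * Real.sqrt 2 * d) ≤ 5.6572 * (D * M) := by
    have e1 : Real.sqrt 2 * (d : ℝ) ≤ 1.4143 * D :=
      mul_le_mul hs1 hdD' (by linarith) (by norm_num)
    have e2 : Real.sqrt 2 * (d : ℝ) * M ≤ 1.4143 * D * M :=
      mul_le_mul_of_nonneg_right e1 (by linarith)
    nlinarith
  have hpos : 0 < 5.6572 * ((D : ℝ) * M) + h := by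
    have : (0 : ℝ) < (D : ℝ) * M := by
      have : (0 : ℝ) < D := by linarith
      positivity
    linarith
  have h6 : (2 * (M : ℝ)) ^ 2 < h * (5.6572 * (D * M) + h) := by
    calc (2 * (M : ℝ)) ^ 2 ≤ y * (2 * M * (2 * Real.sqrt 2 * d) + y) := h4
      _ ≤ y * (5.6572 * (D * M) + h) := by
          apply mul_le_mul_of_nonneg_left _ hy0
          linarith
      _ < h * (5.6572 * (D * M) + h) := mul_lt_mul_of_pos_right hx hpos
  have h7 : (0 : ℝ) ≤ h * (D * M) := by positivity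
  nlinarith

open Classical in
/-- a set with gaps larger than `D` -/
theorem card_le_of_gap {S : Finset ℕ} {K z D : ℕ} (hS : ∀ k ∈ S, K ≤ k ∧ k < z)
    (hg : ∀ k ∈ S, ∀ k' ∈ S, k < k' → D < k' - k) : S.card ≤ (z - K - 1) / (D + 1) + 1 := by
  have : S.card ≤ (range ((z - K - 1) / (D + 1) + 1)).card := by
    apply card_le_card_of_injOn (fun k => (k - K) / (D + 1))
    · intro k hk
      have := hS k hk
      rw [mem_coe, mem_range]
      exact Nat.lt_succ_of_le (Nat.div_le_div_right (by omega))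
    · intro a ha b hb hab
      have key : ∀ a ∈ S, ∀ b ∈ S, (a - K) / (D + 1) = (b - K) / (D + 1) → a < b → False := by
        intro a ha b hb hab hlt
        have h1 := hg a ha b hb hlt
        have h2 := (hS a ha).1
        have h3 : (a - K) / (D + 1) + 1 ≤ (b - K) / (D + 1) := by
          rw [← Nat.add_div_right _ (by omega : 0 < D + 1)]
          exact Nat.div_le_div_right (by omega)
        omega
      rcases lt_trichotomy a b with h | h | h
      · exact (key a ha b hb hab h).elim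
      · exact h
      · exact (key b hb a ha hab.symm h).elim
  rwa [card_range] at this

theorem sqrt_two_mul_mm {k : ℕ} : (mm k : ℝ) ≤ Real.sqrt 2 * k := by
  have h := Nat.sqrt_le (2 * (k * k))
  have h1 : ((mm k : ℕ) : ℝ) ^ 2 ≤ (Real.sqrt 2 * k) ^ 2 := by
    rw [mul_pow, Real.sq_sqrt (by norm_num : (0 : ℝ) ≤ 2)]
    have : (mm k * mm k : ℕ) ≤ 2 * (k * k) := h
    have h2 : ((mm k : ℝ) * mm k) ≤ 2 * (k * k) := by exact_mod_cast this
    nlinarith
  exact (pow_le_pow_iff_left₀ (by positivity) (by positivity) (by norm_num)).mp h1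

theorem sqrt_two_lt_mm {k : ℕ} : Real.sqrt 2 * k ≤ (mm k : ℝ) + 1 := by
  have h := Nat.lt_succ_sqrt (2 * (k * k))
  have h1 : (Real.sqrt 2 * k) ^ 2 ≤ ((mm k : ℝ) + 1) ^ 2 := by
    rw [mul_pow, Real.sq_sqrt (by norm_num : (0 : ℝ) ≤ 2)]
    have : 2 * (k * k) ≤ (mm k + 1) * (mm k + 1) := h.le
    have h2 : (2 * ((k : ℝ) * k)) ≤ (mm k + 1) * (mm k + 1) := by exact_mod_cast this
    nlinarith
  exact (pow_le_pow_iff_left₀ (by positivity) (by positivity) (by norm_num)).mp h1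

theorem gap_qq {h D M : ℕ} (hc : h * (5658 * D * M + 1000 * h) ≤ 4000 * (M * M)) (hM : 1 ≤ M)
    {k k' : ℕ} (hk : M ≤ mm k) (hlt : k < k') (h1 : qq k < h) (h2 : qq k' < h) :
    D < k' - k := by
  by_contra hD
  have hk' : M ≤ mm k' := hk.trans (mm_mono hlt.le)
  have key : ∀ k : ℕ, M ≤ mm k → qq k < h → 0 ≤ Real.sqrt 2 * k - mm k ∧
      (Real.sqrt 2 * k - mm k) * (2 * M) < h := by
    intro k hk h1
    have a1 := sqrt_two_mul_mm (k := k)
    have a2 := qq_add k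
    have a3 : ((mm k : ℝ) * mm k) + qq k = 2 * (k * k) := by exact_mod_cast a2
    have a4 : (qq k : ℝ) < h := by exact_mod_cast h1
    have a5 : (M : ℝ) ≤ mm k := by exact_mod_cast hk
    refine ⟨by linarith, ?_⟩
    have a6 : (Real.sqrt 2 * k - mm k) * (Real.sqrt 2 * k + mm k) = qq k := by
      have : Real.sqrt 2 * Real.sqrt 2 = 2 := Real.mul_self_sqrt (by norm_num)
      have : (k : ℝ) * k * (Real.sqrt 2 * Real.sqrt 2) = 2 * (k * k) := by rw [this]; ring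
      nlinarith
    have a7 : (Real.sqrt 2 * k - mm k) * (2 * M) ≤
        (Real.sqrt 2 * k - mm k) * (Real.sqrt 2 * k + mm k) :=
      mul_le_mul_of_nonneg_left (by linarith) (by linarith)
    linarith
  obtain ⟨b1, b2⟩ := key k hk h1
  obtain ⟨b3, b4⟩ := key k' hk' h2
  apply spacing_aux hc (d := (k' : ℤ) - k) (e := (mm k' : ℤ) - mm k) (by omega)
    (by omega) hM
  have hM0 : (0 : ℝ) ≤ 2 * (M : ℝ) := by positivity
  have e : Real.sqrt 2 * (((k' : ℤ) - (k : ℤ) : ℤ) : ℝ) - (((mm k' : ℤ) - (mm k : ℤ) : ℤ) : ℝ) =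
      (Real.sqrt 2 * k' - mm k') - (Real.sqrt 2 * k - mm k) := by
    push_cast
    ring
  rw [e]
  rcases abs_cases ((Real.sqrt 2 * k' - mm k') - (Real.sqrt 2 * k - mm k)) with ⟨h5, _⟩ | ⟨h5, _⟩
  · rw [h5]; nlinarith
  · rw [h5]; nlinarith

theorem gap_pp {h D M : ℕ} (hc : h * (5658 * D * M + 1000 * h) ≤ 4000 * (M * M)) (hM : 1 ≤ M)
    {k k' : ℕ} (hk : M ≤ mm k) (hlt : k < k') (h1 : pp k < h) (h2 : pp k' < h) :
    D < k' - k := by
  by_contra hD
  have hk' : M ≤ mm k' := hk.trans (mm_mono hlt.le)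
  have key : ∀ k : ℕ, M ≤ mm k → pp k < h → 0 ≤ ((mm k : ℝ) + 1) - Real.sqrt 2 * k ∧
      (((mm k : ℝ) + 1) - Real.sqrt 2 * k) * (2 * M) < h := by
    intro k hk h1
    have a0 := sqrt_two_mul_mm (k := k)
    have a1 := sqrt_two_lt_mm (k := k)
    have a2 := qq_add k
    have a3 : ((mm k : ℝ) * mm k) + qq k = 2 * (k * k) := by exact_mod_cast a2
    have a8 := pp_add k
    have a9 : (pp k : ℝ) + qq k = 2 * mm k + 1 := by exact_mod_cast a8
    have a4 : (pp k : ℝ) < h := by exact_mod_cast h1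
    have a5 : (M : ℝ) ≤ mm k := by exact_mod_cast hk
    refine ⟨by linarith, ?_⟩
    have a6 : (((mm k : ℝ) + 1) - Real.sqrt 2 * k) * (((mm k : ℝ) + 1) + Real.sqrt 2 * k) = pp k := by
      have : Real.sqrt 2 * Real.sqrt 2 = 2 := Real.mul_self_sqrt (by norm_num)
      have : (k : ℝ) * k * (Real.sqrt 2 * Real.sqrt 2) = 2 * (k * k) := by rw [this]; ring
      nlinarith
    have a7 : (((mm k : ℝ) + 1) - Real.sqrt 2 * k) * (2 * M) ≤
        (((mm k : ℝ) + 1) - Real.sqrt 2 * k) * (((mm k : ℝ) + 1) + Real.sqrt 2 * k) :=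
      mul_le_mul_of_nonneg_left (by linarith) (by linarith)
    linarith
  obtain ⟨b1, b2⟩ := key k hk h1
  obtain ⟨b3, b4⟩ := key k' hk' h2
  apply spacing_aux hc (d := (k' : ℤ) - k) (e := (mm k' : ℤ) - mm k) (by omega)
    (by omega) hM
  have hM0 : (0 : ℝ) ≤ 2 * (M : ℝ) := by positivity
  have e : Real.sqrt 2 * (((k' : ℤ) - (k : ℤ) : ℤ) : ℝ) - (((mm k' : ℤ) - (mm k : ℤ) : ℤ) : ℝ) =
      (((mm k : ℝ) + 1) - Real.sqrt 2 * k) - (((mm k' : ℝ) + 1) - Real.sqrt 2 * k') := by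
    push_cast
    ring
  rw [e]
  rcases abs_cases ((((mm k : ℝ) + 1) - Real.sqrt 2 * k) - (((mm k' : ℝ) + 1) - Real.sqrt 2 * k'))
    with ⟨h5, _⟩ | ⟨h5, _⟩
  · rw [h5]; nlinarith
  · rw [h5]; nlinarith

end Pool.Agent.AddSq.Cor
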