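import Pool.Agent.AddSq.Arith

/-!
# Counting functions and the form of the final statement
-/

namespace Pool.Agent.AddSq

open Classical in
/-- number of `n ∈ [1, x]` with `P n` -/
noncomputable def cnt (P : ℕ → Prop) (x : ℕ) : ℕ := ((Finset.Icc 1 x).filter P).card

open Classical in
/-- number of wins in `[1, x]` -/
noncomputable def winCount (x : ℕ) : ℕ := ((Finset.Icc 1 x).filter (fun n => Win n)).card

open Classical in
/-- number of losses in `[1, x]` -/
noncomputable def lossCount (x : ℕ) : ℕ := ((Finset.Icc 1 x).filter (fun n => Loss n)).card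

open Classical in
/-- number of draws in `[1, x]` -/
noncomputable def drawCount (x : ℕ) : ℕ := ((Finset.Icc 1 x).filter (fun n => Draw n)).card

theorem count_add (x : ℕ) : drawCount x + (winCount x + lossCount x) = x := by
  classical
  unfold drawCount winCount lossCount
  have e1 : ((Finset.Icc 1 x).filter (fun n => Win n)).card +
      ((Finset.Icc 1 x).filter (fun n => Loss n)).card =
      ((Finset.Icc 1 x).filter (fun n => Win n ∨ Loss n)).card := by
    rw [← Finset.card_union_of_disjoint]
    · rw [Finset.filter_or]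
    · rw [Finset.disjoint_filter]
      intro n _ hw hl
      exact not_lost_and_win hl.2 hw
  rw [e1]
  have e2 : (Finset.Icc 1 x).filter (fun n => Draw n) =
      (Finset.Icc 1 x).filter (fun n => ¬ (Win n ∨ Loss n)) := by
    apply Finset.filter_congr
    intro n hn
    have := (Finset.mem_Icc.mp hn).1
    unfold Draw
    tauto
  rw [e2, add_comm, Finset.card_filter_add_card_filter_not]
  simp

theorem drawCount_le (x : ℕ) : drawCount x ≤ x := by
  have := count_add x
  omega

theorem winCount_mono {x y : ℕ} (h : x ≤ y) : winCount x ≤ winCount y := by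
  classical
  unfold winCount
  exact Finset.card_le_card (Finset.filter_subset_filter _ (Finset.Icc_subset_Icc le_rfl h))

theorem lossCount_mono {x y : ℕ} (h : x ≤ y) : lossCount x ≤ lossCount y := by
  classical
  unfold lossCount
  exact Finset.card_le_card (Finset.filter_subset_filter _ (Finset.Icc_subset_Icc le_rfl h))

/-- The final step: arbitrarily large `x` with few decided positions give upper density `1`
of the draws. -/
theorem limsup_of_sparse
    (h : ∀ ε : ℝ, 0 < ε → ∀ X : ℕ, ∃ x ≥ X, ((winCount x + lossCount x : ℕ) : ℝ) ≤ ε * x) :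
    Filter.limsup (fun x : ℕ => (drawCount x : ℝ) / x) Filter.atTop = 1 := by
  have hle : ∀ x : ℕ, (drawCount x : ℝ) / x ≤ 1 := by
    intro x
    rcases Nat.eq_zero_or_pos x with h0 | h0
    · subst h0; simp
    · rw [div_le_one (by exact_mod_cast h0)]
      exact_mod_cast drawCount_le x
  have hge : ∀ x : ℕ, 0 ≤ (drawCount x : ℝ) / x := fun x => by positivity
  have hb : Filter.IsBoundedUnder (· ≤ ·) Filter.atTop
      (fun x : ℕ => (drawCount x : ℝ) / x) :=
    Filter.isBoundedUnder_of ⟨1, hle⟩
  have hc : Filter.IsCoboundedUnder (· ≤ ·) Filter.atTop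
      (fun x : ℕ => (drawCount x : ℝ) / x) := by
    apply Filter.IsBoundedUnder.isCoboundedUnder_le
    exact Filter.isBoundedUnder_of ⟨0, hge⟩
  apply le_antisymm
  · exact Filter.limsup_le_of_le hc (Filter.Eventually.of_forall hle)
  · apply le_of_forall_pos_sub_le
    intro ε hε
    apply Filter.le_limsup_of_frequently_le _ hb
    rw [Filter.frequently_atTop]
    intro X
    obtain ⟨x, hx, hx2⟩ := h ε hε (max X 1)
    refine ⟨x, le_trans (le_max_left _ _) hx, ?_⟩
    have hx1 : 1 ≤ x := le_trans (le_max_right _ _) hx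
    have hx0 : (0 : ℝ) < x := by exact_mod_cast hx1
    rw [le_div_iff₀ hx0]
    have e := count_add x
    have e' : (drawCount x : ℝ) + ((winCount x + lossCount x : ℕ) : ℝ) = x := by
      exact_mod_cast e
    linarith

theorem winCount_eq (x : ℕ) : winCount x = cnt Win x := rfl

theorem lossCount_eq (x : ℕ) : lossCount x = cnt Loss x := rfl

theorem cnt_le_add {P R S : ℕ → Prop} {x : ℕ} (h : ∀ n, 1 ≤ n → n ≤ x → P n → R n ∨ S n) :
    cnt P x ≤ cnt R x + cnt S x := by
  classical
  unfold cnt
  refine le_trans (Finset.card_le_card ?_) (Finset.card_union_le _ _)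
  intro n hn
  rw [Finset.mem_filter] at hn
  rw [Finset.mem_union, Finset.mem_filter, Finset.mem_filter]
  have := Finset.mem_Icc.mp hn.1
  rcases h n this.1 this.2 hn.2 with h | h
  · exact Or.inl ⟨hn.1, h⟩
  · exact Or.inr ⟨hn.1, h⟩

theorem cnt_mono {P R : ℕ → Prop} {x : ℕ} (h : ∀ n, 1 ≤ n → n ≤ x → P n → R n) :
    cnt P x ≤ cnt R x := by
  classical
  unfold cnt
  apply Finset.card_le_card
  intro n hn
  rw [Finset.mem_filter] at hn ⊢
  have := Finset.mem_Icc.mp hn.1
  exact ⟨hn.1, h n this.1 this.2 hn.2⟩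

theorem cnt_mono_right {P : ℕ → Prop} {x y : ℕ} (h : x ≤ y) : cnt P x ≤ cnt P y := by
  classical
  unfold cnt
  exact Finset.card_le_card (Finset.filter_subset_filter _ (Finset.Icc_subset_Icc le_rfl h))

theorem cnt_up_le (P : ℕ → Prop) (x : ℕ) : cnt (fun n => P (up n)) x ≤ cnt P (2 * x) := by
  classical
  unfold cnt
  apply Finset.card_le_card_of_injOn up
  · intro n hn
    have hn' := Finset.mem_filter.mp (Finset.mem_coe.mp hn)
    have hn2 := Finset.mem_Icc.mp hn'.1
    refine Finset.mem_coe.mpr (Finset.mem_filter.mpr ⟨Finset.mem_Icc.mpr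
      ⟨up_pos hn2.1, ?_⟩, hn'.2⟩)
    have := up_le_two_mul n
    omega
  · exact up_strictMono.injective.injOn

/-- wins below `x`: `r₀` lost, or `up n` a loss -/
theorem winCount_le (x : ℕ) :
    winCount x ≤ cnt (fun n => Lost (rem n)) x + lossCount (2 * x) := by
  refine (cnt_le_add (P := Win) (R := fun n => Lost (rem n)) (S := fun n => Loss (up n))
    (fun n _ _ h => h.cases)).trans ?_
  exact Nat.add_le_add_left (cnt_up_le Loss x) _

/-- losses below `x`: `r₀` a win, and `r₁` lost or `r₂` a win -/
theorem lossCount_le (x : ℕ) :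
    lossCount x ≤ cnt (fun n => Win (rem n) ∧ Lost (rem (up n))) x +
      cnt (fun n => Win (rem n) ∧ Win (rem (up (up n)))) x := by
  apply cnt_le_add (P := Loss)
  intro n _ _ h
  obtain ⟨h1, h2 | h2⟩ := h.cases
  · exact Or.inl ⟨h1, h2⟩
  · exact Or.inr ⟨h1, h2⟩

end Pool.Agent.AddSq
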