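import Pool.Agent.AddSq.Asm
import Pool.Agent.AddSq.Popcount
import Pool.Agent.AddSq.Final

/-!
# Counting wins and lost positions in intervals of blocks by popcounts
-/

namespace Pool.Agent.AddSq

open Classical in
/-- number of `n ∈ [a, b)` with `P n` -/
noncomputable def cntI (P : ℕ → Prop) (a b : ℕ) : ℕ := ((Finset.Ico a b).filter P).card

theorem cntI_add (P : ℕ → Prop) {a b c : ℕ} (h1 : a ≤ b) (h2 : b ≤ c) :
    cntI P a c = cntI P a b + cntI P b c := by
  classical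
  unfold cntI
  rw [← Finset.card_union_of_disjoint]
  · congr 1
    rw [← Finset.filter_union, Finset.Ico_union_Ico_eq_Ico h1 h2]
  · apply Finset.disjoint_filter_filter
    exact Finset.Ico_disjoint_Ico_consecutive a b c

theorem cntI_self (P : ℕ → Prop) (a : ℕ) : cntI P a a = 0 := by
  classical
  simp [cntI]

theorem cntI_mono (P : ℕ → Prop) {a b c : ℕ} (h : b ≤ c) : cntI P a b ≤ cntI P a c := by
  classical
  unfold cntI
  exact Finset.card_le_card (Finset.filter_subset_filter _ (Finset.Ico_subset_Ico le_rfl h))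

theorem cnt_eq_cntI (P : ℕ → Prop) (x : ℕ) : cnt P x = cntI P 1 (x + 1) := by
  classical
  unfold cnt cntI
  rfl

theorem cntI_le (P : ℕ → Prop) (a b : ℕ) : cntI P a b ≤ b - a := by
  classical
  unfold cntI
  exact (Finset.card_filter_le _ _).trans (by simp)

/-- block count by a popcount -/
theorem cntI_block {P : ℕ → Prop} {k X N : ℕ} (hX : ∀ i ≤ 2 * k, P (k * k + i) → X.testBit i = true)
    (hN : 2 * k + 1 ≤ N) : cntI P (k * k) ((k + 1) * (k + 1)) ≤ Pop.pop N X := by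
  classical
  unfold cntI Pop.pop
  apply Finset.card_le_card_of_injOn (fun n => n - k * k)
  · intro n hn
    obtain ⟨h1, h2⟩ := Finset.mem_filter.mp (Finset.mem_coe.mp hn)
    obtain ⟨h3, h4⟩ := Finset.mem_Ico.mp h1
    have h5 : (k + 1) * (k + 1) = k * k + 2 * k + 1 := by ring
    refine Finset.mem_coe.mpr (Finset.mem_filter.mpr ⟨Finset.mem_range.mpr ?_, ?_⟩)
    · show n - k * k < N
      omega
    · apply hX (n - k * k) (by omega)
      rwa [show k * k + (n - k * k) = n by omega]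
  · intro a ha b hb hab
    have ha' := (Finset.mem_Ico.mp (Finset.mem_filter.mp (Finset.mem_coe.mp ha)).1).1
    have hb' := (Finset.mem_Ico.mp (Finset.mem_filter.mp (Finset.mem_coe.mp hb)).1).1
    have : a - k * k = b - k * k := hab
    omega

/-- tree sum of `f k, …, f (k + 2 ^ e - 1)` -/
noncomputable def csum (f : ℕ → ℕ) (e : ℕ) : ℕ → ℕ :=
  @Nat.rec (fun _ => ℕ → ℕ) (frc f)
    (fun d ih => frc (fun k => Nat.add (ih k) (ih (Nat.add k (Nat.shiftLeft 1 d))))) e

theorem csum_zero (f : ℕ → ℕ) (k : ℕ) : csum f 0 k = f k := frc_eq f k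

theorem csum_succ (f : ℕ → ℕ) (e k : ℕ) : csum f (e + 1) k = csum f e k + csum f e (k + 2 ^ e) := by
  have h : csum f (e + 1) k =
      frc (fun k => Nat.add (csum f e k) (csum f e (Nat.add k (Nat.shiftLeft 1 e)))) k := rfl
  rw [h, frc_eq]
  change csum f e k + csum f e (k + 1 <<< e) = _
  rw [Nat.one_shiftLeft]

/-- the counts of the blocks in a dyadic interval -/
theorem cntI_csum {P : ℕ → Prop} {f : ℕ → ℕ} {e : ℕ} : ∀ {K : ℕ},
    (∀ k, K ≤ k → k < K + 2 ^ e → cntI P (k * k) ((k + 1) * (k + 1)) ≤ f k) →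
    cntI P (K * K) ((K + 2 ^ e) * (K + 2 ^ e)) ≤ csum f e K := by
  induction e with
  | zero =>
    intro K h
    rw [csum_zero]
    exact h K le_rfl (by simp)
  | succ e ih =>
    intro K h
    have h1 : K * K ≤ (K + 2 ^ e) * (K + 2 ^ e) :=
      Nat.mul_le_mul (Nat.le_add_right _ _) (Nat.le_add_right _ _)
    have h3 : K + 2 ^ (e + 1) = K + 2 ^ e + 2 ^ e := by rw [pow_succ]; ring
    have h6 : K + 2 ^ e ≤ K + 2 ^ (e + 1) := by rw [h3]; exact Nat.le_add_right _ _
    have h2 : (K + 2 ^ e) * (K + 2 ^ e) ≤ (K + 2 ^ (e + 1)) * (K + 2 ^ (e + 1)) :=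
      Nat.mul_le_mul h6 h6
    rw [cntI_add P h1 h2, csum_succ]
    apply Nat.add_le_add
    · exact ih (fun k h4 h5 => h k h4 (by omega))
    · have := ih (K := K + 2 ^ e) (fun k h4 h5 => h k (by omega) (by omega))
      rw [h3]
      exact this

/-- Count of a dyadic interval of blocks from one kernel evaluation; `n` is the number of
32-bit words. -/
theorem cntI_of_csum {P : ℕ → Prop} {g : ℕ → ℕ} {e K n c m1 m2 m4 m8 m16 : ℕ}
    (hg : ∀ k, K ≤ k → k < K + 2 ^ e → ∀ i ≤ 2 * k, P (k * k + i) → (g k).testBit i = true)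
    (h1 : m1 = Pop.mask 1 (16 * n)) (h2 : m2 = Pop.mask 2 (8 * n)) (h4 : m4 = Pop.mask 4 (4 * n))
    (h8 : m8 = Pop.mask 8 (2 * n)) (h16 : m16 = Pop.mask 16 n) (hn : n < 134217728)
    (hK : 2 * (K + 2 ^ e) ≤ 32 * n + 1)
    (h : Nat.ble (csum (fun k => Pop.pc m1 m2 m4 m8 m16 (g k)) e K) c = true) :
    cntI P (K * K) ((K + 2 ^ e) * (K + 2 ^ e)) ≤ c := by
  refine le_trans (cntI_csum (f := fun k => Pop.pc m1 m2 m4 m8 m16 (g k)) ?_)
    (Nat.le_of_ble_eq_true h)
  intro k hk1 hk2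
  show _ ≤ Pop.pc m1 m2 m4 m8 m16 (g k)
  rw [h1, h2, h4, h8, h16, Pop.pc_eq n (g k) hn]
  exact cntI_block (hg k hk1 hk2) (by omega)

/-- Gluing of checkpoints. -/
theorem cntI_glue {P : ℕ → Prop} {a K K' c c' C : ℕ} (ha : a ≤ K * K) (hK : K ≤ K')
    (h : cntI P a (K * K) ≤ c) (h' : cntI P (K * K) (K' * K') ≤ c') (hC : c + c' ≤ C) :
    cntI P a (K' * K') ≤ C := by
  rw [cntI_add P ha (Nat.mul_le_mul hK hK)]
  omega

end Pool.Agent.AddSq
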