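import Mathlib

/-!
# The add-or-subtract-square game (MP_006ce8_co): definitions and elementary lemmas

Positions are the natural numbers.  From a position `n ≥ 1` the player to move goes to
`n + s(n)` or to `n - s(n)`, where `s(n)` is the largest perfect square `≤ n`; a player who
moves to `0` wins.
-/

namespace Pool.Agent.AddSq

/-- `sq n` is the largest perfect square not exceeding `n`. -/
def sq (n : ℕ) : ℕ := Nat.sqrt n * Nat.sqrt n

/-- `Move n m`: the player to move at the position `n ≥ 1` may go to `m`. -/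
def Move (n m : ℕ) : Prop := 1 ≤ n ∧ (m = n + sq n ∨ m = n - sq n)

/-- `LostIn t n`: in the position `n`, whatever the player to move does, his opponent reaches
`0` on one of his (the opponent's) own moves within at most `t` rounds (the position `0`
itself is lost for the player to move, because the opponent has just moved to `0`). -/
def LostIn : ℕ → ℕ → Prop
  | 0, n => n = 0
  | t + 1, n => n = 0 ∨ ∀ m, Move n m → ∃ m', Move m m' ∧ LostIn t m'

/-- `WinIn t n`: the player to move at `n` has a move after which his opponent is lost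
within `t` rounds. -/
def WinIn (t n : ℕ) : Prop := ∃ m, Move n m ∧ LostIn t m

/-- The player to move at `n` is lost (or `n = 0`). -/
def Lost (n : ℕ) : Prop := ∃ t, LostIn t n

/-- `n` is a win: the player to move first can force that he reaches `0` on one of his own
moves after finitely many moves. -/
def Win (n : ℕ) : Prop := ∃ t, WinIn t n

/-- `n` is a loss: the opponent of the player to move first can force that he (the opponent)
reaches `0` on one of his own moves after finitely many moves. -/
def Loss (n : ℕ) : Prop := 1 ≤ n ∧ Lost n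

/-- `n` is a draw: a positive integer which is neither a win nor a loss. -/
def Draw (n : ℕ) : Prop := 1 ≤ n ∧ ¬ Win n ∧ ¬ Loss n

/-- the down move -/
def rem (n : ℕ) : ℕ := n - sq n

/-- the up move -/
def up (n : ℕ) : ℕ := n + sq n

theorem sq_le (n : ℕ) : sq n ≤ n := Nat.sqrt_le n

theorem sq_pos {n : ℕ} (h : 1 ≤ n) : 1 ≤ sq n := by
  have : 0 < Nat.sqrt n := Nat.sqrt_pos.mpr h
  exact Nat.mul_pos this this

theorem rem_lt {n : ℕ} (h : 1 ≤ n) : rem n < n := by
  have := sq_pos h
  unfold rem
  omega

theorem up_pos {n : ℕ} (h : 1 ≤ n) : 1 ≤ up n := by unfold up; omega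

theorem lt_up {n : ℕ} (h : 1 ≤ n) : n < up n := by
  have := sq_pos h
  unfold up
  omega

theorem rem_zero : rem 0 = 0 := by simp [rem, sq]

theorem up_zero : up 0 = 0 := by simp [up, sq]

theorem rem_le_two_sqrt (n : ℕ) : rem n ≤ 2 * Nat.sqrt n := by
  have := Nat.sqrt_le_add n
  unfold rem sq
  omega

theorem sq_add_rem (n : ℕ) : Nat.sqrt n * Nat.sqrt n + rem n = n := by
  have := sq_le n
  unfold rem sq at *
  omega

theorem lostIn_zero (t : ℕ) : LostIn t 0 := by
  cases t with
  | zero => rfl
  | succ t => exact Or.inl rfl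

theorem lost_zero : Lost 0 := ⟨0, rfl⟩

theorem not_winIn_zero (t : ℕ) : ¬ WinIn t 0 := by
  rintro ⟨m, ⟨h, _⟩, _⟩
  omega

theorem not_win_zero : ¬ Win 0 := fun ⟨t, h⟩ => not_winIn_zero t h

theorem LostIn.succ {t : ℕ} : ∀ {n : ℕ}, LostIn t n → LostIn (t + 1) n := by
  induction t with
  | zero =>
    intro n h
    exact Or.inl h
  | succ t ih =>
    intro n h
    rcases h with h | h
    · exact Or.inl h
    · right
      intro m hm
      obtain ⟨m', h1, h2⟩ := h m hm
      exact ⟨m', h1, ih h2⟩

theorem LostIn.mono {s t n : ℕ} (hst : s ≤ t) (h : LostIn s n) : LostIn t n := by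
  induction hst with
  | refl => exact h
  | step _ ih => exact ih.succ

theorem WinIn.mono {s t n : ℕ} (hst : s ≤ t) (h : WinIn s n) : WinIn t n := by
  obtain ⟨m, hm, hl⟩ := h
  exact ⟨m, hm, hl.mono hst⟩

theorem winIn_iff {t n : ℕ} : WinIn t n ↔ 1 ≤ n ∧ (LostIn t (rem n) ∨ LostIn t (up n)) := by
  constructor
  · rintro ⟨m, ⟨h1, rfl | rfl⟩, hl⟩
    · exact ⟨h1, Or.inr hl⟩
    · exact ⟨h1, Or.inl hl⟩
  · rintro ⟨h1, h | h⟩
    · exact ⟨rem n, ⟨h1, Or.inr rfl⟩, h⟩
    · exact ⟨up n, ⟨h1, Or.inl rfl⟩, h⟩

theorem lostIn_succ_iff {t n : ℕ} :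
    LostIn (t + 1) n ↔ n = 0 ∨ (WinIn t (rem n) ∧ WinIn t (up n)) := by
  constructor
  · intro h
    rcases h with h | h
    · exact Or.inl h
    · rcases Nat.eq_zero_or_pos n with h0 | h0
      · exact Or.inl h0
      · right
        exact ⟨h _ ⟨h0, Or.inr rfl⟩, h _ ⟨h0, Or.inl rfl⟩⟩
  · rintro (h | ⟨h1, h2⟩)
    · exact Or.inl h
    · right
      rintro m ⟨_, rfl | rfl⟩
      · exact h2
      · exact h1

theorem win_iff {n : ℕ} : Win n ↔ 1 ≤ n ∧ (Lost (rem n) ∨ Lost (up n)) := by
  constructor
  · rintro ⟨t, h⟩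
    obtain ⟨h1, h | h⟩ := winIn_iff.mp h
    · exact ⟨h1, Or.inl ⟨t, h⟩⟩
    · exact ⟨h1, Or.inr ⟨t, h⟩⟩
  · rintro ⟨h1, ⟨t, h⟩ | ⟨t, h⟩⟩
    · exact ⟨t, winIn_iff.mpr ⟨h1, Or.inl h⟩⟩
    · exact ⟨t, winIn_iff.mpr ⟨h1, Or.inr h⟩⟩

theorem lost_iff {n : ℕ} : Lost n ↔ n = 0 ∨ (Win (rem n) ∧ Win (up n)) := by
  constructor
  · rintro ⟨t, h⟩
    cases t with
    | zero => exact Or.inl h
    | succ t =>
      rcases lostIn_succ_iff.mp h with h | ⟨h1, h2⟩
      · exact Or.inl h
      · exact Or.inr ⟨⟨t, h1⟩, ⟨t, h2⟩⟩
  · rintro (rfl | ⟨⟨s, h1⟩, ⟨t, h2⟩⟩)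
    · exact lost_zero
    · exact ⟨max s t + 1, lostIn_succ_iff.mpr (Or.inr
        ⟨h1.mono (le_max_left _ _), h2.mono (le_max_right _ _)⟩)⟩

theorem Win.pos {n : ℕ} (h : Win n) : 1 ≤ n := (win_iff.mp h).1

/-- A position is not both lost and won. -/
theorem not_lostIn_and_winIn : ∀ (t s n : ℕ), LostIn t n → ¬ WinIn s n := by
  intro t
  induction t with
  | zero =>
    intro s n h hw
    obtain ⟨h1, _⟩ := winIn_iff.mp hw
    have : n = 0 := h
    omega
  | succ t ih =>
    intro s n h hw
    obtain ⟨h1, hw⟩ := winIn_iff.mp hw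
    rcases lostIn_succ_iff.mp h with h | ⟨ha, hb⟩
    · omega
    · -- `WinIn t (rem n)`, `WinIn t (up n)`, and one of them is lost in `s`
      have key : ∀ (s t n : ℕ), (∀ s n, LostIn t n → ¬ WinIn s n) → WinIn t n →
          ¬ LostIn s n := by
        intro s t n ih hw hl
        obtain ⟨h1, hw⟩ := winIn_iff.mp hw
        cases s with
        | zero =>
          have : n = 0 := hl
          omega
        | succ s =>
          rcases lostIn_succ_iff.mp hl with h | ⟨hc, hd⟩
          · omega
          · rcases hw with hw | hw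
            · exact ih s _ hw hc
            · exact ih s _ hw hd
      rcases hw with hw | hw
      · exact key s t _ ih ha hw
      · exact key s t _ ih hb hw

theorem not_lost_and_win {n : ℕ} (h : Lost n) : ¬ Win n := by
  rintro ⟨s, hs⟩
  obtain ⟨t, ht⟩ := h
  exact not_lostIn_and_winIn t s n ht hs

/-- A loss: `r₀` is a win, and `r₁` is lost or `r₂` is a win. -/
theorem Loss.cases {n : ℕ} (h : Loss n) :
    Win (rem n) ∧ (Lost (rem (up n)) ∨ Win (rem (up (up n)))) := by
  obtain ⟨h1, h2⟩ := h
  rcases lost_iff.mp h2 with h0 | ⟨ha, hb⟩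
  · omega
  · refine ⟨ha, ?_⟩
    obtain ⟨h3, h4 | h4⟩ := win_iff.mp hb
    · exact Or.inl h4
    · right
      rcases lost_iff.mp h4 with h5 | ⟨h5, _⟩
      · have := up_pos h3
        omega
      · exact h5

/-- A win: `r₀` is lost or `n₁ = up n` is a loss. -/
theorem Win.cases {n : ℕ} (h : Win n) : Lost (rem n) ∨ Loss (up n) := by
  obtain ⟨h1, h2 | h2⟩ := win_iff.mp h
  · exact Or.inl h2
  · exact Or.inr ⟨up_pos h1, h2⟩

/-- The principle behind the certified tables: two predicates `W`, `L` which are closed under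
the rules truncated at `r₃` for all `n < T` contain all wins and all lost positions below
`T`. -/
theorem table_bound (T : ℕ) (W L : ℕ → Prop)
    (hr : ∀ n < T, rem n < T ∧ rem (up n) < T ∧ rem (up (up n)) < T ∧
      rem (up (up (up n))) < T)
    (h0 : L 0)
    (hL : ∀ n, 1 ≤ n → n < T → W (rem n) → (L (rem (up n)) ∨ W (rem (up (up n)))) → L n)
    (hW : ∀ n, 1 ≤ n → n < T → (L (rem n) ∨
      (W (rem (up n)) ∧ (L (rem (up (up n))) ∨ W (rem (up (up (up n))))))) → W n) :
    (∀ n < T, Win n → W n) ∧ (∀ n < T, Lost n → L n) := by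
  have key : ∀ t, (∀ n < T, WinIn t n → W n) ∧ (∀ n < T, LostIn t n → L n) := by
    intro t
    induction t using Nat.strong_induction_on with
    | _ t ih =>
      have hLt : ∀ n < T, LostIn t n → L n := by
        intro n hn h
        rcases Nat.eq_zero_or_pos n with hz | hp
        · subst hz; exact h0
        · cases t with
          | zero =>
            have : n = 0 := h
            omega
          | succ t =>
            rcases lostIn_succ_iff.mp h with h | ⟨ha, hb⟩
            · omega
            · obtain ⟨q0, q1, q2, q3⟩ := hr n hn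
              have w0 := (ih t (by omega)).1 _ q0 ha
              obtain ⟨h3, h4 | h4⟩ := winIn_iff.mp hb
              · exact hL n hp hn w0 (Or.inl ((ih t (by omega)).2 _ q1 h4))
              · cases t with
                | zero =>
                  have h5 : up (up n) = 0 := h4
                  have := up_pos h3
                  omega
                | succ t =>
                  rcases lostIn_succ_iff.mp h4 with h5 | ⟨h5, _⟩
                  · have := up_pos h3
                    omega
                  · exact hL n hp hn w0 (Or.inr ((ih t (by omega)).1 _ q2 h5))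
      refine ⟨?_, hLt⟩
      intro n hn h
      obtain ⟨q0, q1, q2, q3⟩ := hr n hn
      obtain ⟨h1, h2 | h2⟩ := winIn_iff.mp h
      · exact hW n h1 hn (Or.inl (hLt _ q0 h2))
      · have hu := up_pos h1
        cases t with
        | zero =>
          have h5 : up n = 0 := h2
          omega
        | succ t =>
          rcases lostIn_succ_iff.mp h2 with h3 | ⟨h3, h4⟩
          · omega
          · have w1 := (ih t (by omega)).1 _ q1 h3
            obtain ⟨h5, h6 | h6⟩ := winIn_iff.mp h4
            · exact hW n h1 hn (Or.inr ⟨w1, Or.inl ((ih t (by omega)).2 _ q2 h6)⟩)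
            · cases t with
              | zero =>
                have h7 : up (up (up n)) = 0 := h6
                have := up_pos h5
                omega
              | succ t =>
                rcases lostIn_succ_iff.mp h6 with h7 | ⟨h7, _⟩
                · have := up_pos h5
                  omega
                · exact hW n h1 hn (Or.inr ⟨w1, Or.inr ((ih t (by omega)).1 _ q3 h7)⟩)
  refine ⟨fun n hn ⟨t, h⟩ => (key t).1 n hn h, fun n hn ⟨t, h⟩ => (key t).2 n hn h⟩

end Pool.Agent.AddSq
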