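import Pool.Agent.AddSq.FastDefs

/-!
# Kernel facts: losses in the blocks from 2176 to 6911
-/

namespace Pool.Agent.AddSq.Fa

set_option maxRecDepth 100000

def fl001 : List (Nat × Nat × Nat) :=
   [(68, 0, 334), (69, 0, 348), (70, 0, 310), (71, 0, 355), (72, 0, 317), (73, 0, 344),
    (74, 0, 383), (75, 0, 346), (76, 0, 315), (77, 0, 335), (78, 0, 345), (79, 0, 344),
    (80, 0, 372), (81, 0, 328), (82, 0, 293), (83, 0, 364), (84, 0, 378), (85, 0, 372),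
    (86, 0, 402), (87, 0, 395), (88, 0, 352), (89, 0, 397), (90, 0, 383), (91, 0, 398),
    (92, 0, 401), (93, 0, 389), (94, 0, 386), (95, 0, 418), (96, 0, 424), (97, 0, 396),
    (98, 0, 411), (99, 0, 412), (100, 0, 407), (101, 0, 376), (102, 0, 442), (103, 0, 406),
    (104, 0, 395), (105, 0, 414), (106, 0, 436), (107, 0, 398), (108, 0, 383), (109, 0, 407),
    (110, 0, 448), (111, 0, 442), (112, 0, 443), (113, 0, 440), (114, 0, 419), (115, 0, 459),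
    (116, 0, 416), (117, 0, 415), (118, 0, 463), (119, 0, 430), (120, 0, 440), (121, 0, 433),
    (122, 0, 428), (123, 0, 434), (124, 0, 470), (125, 0, 445), (126, 0, 509), (127, 0, 431),
    (128, 0, 457), (129, 0, 451), (130, 0, 433), (131, 0, 438), (132, 0, 468), (133, 0, 437),
    (134, 0, 458), (135, 0, 502), (136, 0, 456), (137, 0, 422), (138, 0, 485), (139, 0, 472),
    (140, 0, 467), (141, 0, 503), (142, 0, 515), (143, 0, 508), (144, 0, 523), (145, 0, 476),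
    (146, 0, 472), (147, 0, 498), (148, 0, 493), (149, 0, 486), (150, 0, 529), (151, 0, 465),
    (152, 0, 464), (153, 0, 542), (154, 0, 506), (155, 0, 512), (156, 0, 465), (157, 0, 505),
    (158, 0, 538), (159, 0, 512), (160, 1, 1018), (162, 1, 1039), (164, 1, 1040),
    (166, 1, 1004), (168, 1, 1017), (170, 1, 1044), (172, 1, 979), (174, 1, 1042),
    (176, 1, 972), (178, 1, 1062), (180, 1, 1047), (182, 1, 986), (184, 1, 1060),
    (186, 1, 1063), (188, 1, 1038), (190, 1, 1043), (192, 1, 1098), (194, 1, 1126),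
    (196, 1, 1116), (198, 1, 1005), (200, 1, 1059), (202, 1, 1068), (204, 1, 1150),
    (206, 1, 1132), (208, 1, 1091), (210, 1, 1104), (212, 1, 1119), (214, 1, 1095)]

theorem ft001 : FT fl001 := by
  refine ⟨?_, ?_, ?_, ?_, ?_, ?_, ?_, ?_, ?_, ?_, ?_, ?_, ?_, ?_, ?_, ?_, ?_, ?_, ?_, ?_, ?_, ?_, ?_, ?_, ?_, ?_, ?_, ?_, ?_, ?_, ?_, ?_, ?_, ?_, ?_, ?_, ?_, ?_, ?_, ?_, ?_, ?_, ?_, ?_, ?_, ?_, ?_, ?_, ?_, ?_, ?_, ?_, ?_, ?_, ?_, ?_, ?_, ?_, ?_, ?_, ?_, ?_, ?_, ?_, ?_, ?_, ?_, ?_, ?_, ?_, ?_, ?_, ?_, ?_, ?_, ?_, ?_, ?_, ?_, ?_, ?_, ?_, ?_, ?_, ?_, ?_, ?_, ?_, ?_, ?_, ?_, ?_, ?_, ?_, ?_, ?_, ?_, ?_, ?_, ?_, ?_, ?_, ?_, ?_, ?_, ?_, ?_, ?_, ?_, ?_, ?_, ?_, ?_, ?_, ?_, ?_, ?_, ?_, ?_, ?_, trivial⟩ <;> decide +kernel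

end Pool.Agent.AddSq.Fa
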