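import Pool.Agent.AddSq.FastDefs

/-!
# Kernel facts: losses in the blocks from 6912 to 18943
-/

namespace Pool.Agent.AddSq.Fa

set_option maxRecDepth 100000

def fl002 : List (Nat × Nat × Nat) :=
   [(216, 1, 1068), (218, 1, 1035), (220, 1, 1210), (222, 1, 1134), (224, 1, 1154),
    (226, 1, 1134), (228, 1, 1158), (230, 1, 1150), (232, 1, 1207), (234, 1, 1157),
    (236, 1, 1249), (238, 1, 1181), (240, 1, 1155), (242, 1, 1189), (244, 1, 1216),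
    (246, 1, 1171), (248, 1, 1247), (250, 1, 1190), (252, 1, 1194), (254, 1, 1212),
    (256, 1, 1255), (258, 1, 1259), (260, 1, 1261), (262, 1, 1201), (264, 1, 1199),
    (266, 1, 1239), (268, 1, 1197), (270, 1, 1176), (272, 1, 1227), (274, 1, 1251),
    (276, 1, 1324), (278, 1, 1234), (280, 1, 1301), (282, 1, 1304), (284, 1, 1270),
    (286, 1, 1292), (288, 1, 1256), (290, 1, 1297), (292, 1, 1288), (294, 1, 1309),
    (296, 1, 1280), (298, 1, 1395), (300, 1, 1297), (302, 1, 1268), (304, 1, 1308),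
    (306, 1, 1360), (308, 1, 1277), (310, 1, 1318), (312, 1, 1331), (314, 1, 1330),
    (316, 1, 1304), (318, 1, 1382), (320, 2, 2638), (324, 2, 2668), (328, 2, 2745),
    (332, 2, 2794), (336, 2, 2760), (340, 2, 2791), (344, 2, 2824), (348, 2, 2825),
    (352, 2, 2805), (356, 2, 2757), (360, 2, 2917), (364, 2, 2863), (368, 2, 2967),
    (372, 2, 2869), (376, 2, 2967), (380, 2, 2967), (384, 2, 2883), (388, 2, 2906),
    (392, 2, 2922), (396, 2, 2893), (400, 2, 2933), (404, 2, 2910), (408, 2, 2928),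
    (412, 2, 2996), (416, 2, 3051), (420, 2, 3002), (424, 2, 3122), (428, 2, 2988),
    (432, 2, 3093), (436, 2, 3057), (440, 2, 2989), (444, 2, 3068), (448, 2, 3166),
    (452, 2, 3122), (456, 2, 3045), (460, 2, 3149), (464, 2, 3203), (468, 2, 3228),
    (472, 2, 3190), (476, 2, 3220), (480, 2, 3114), (484, 2, 3249), (488, 2, 3303),
    (492, 2, 3186), (496, 2, 3233), (500, 2, 3223), (504, 2, 3203), (508, 2, 3251),
    (512, 2, 3309), (516, 2, 3286), (520, 2, 3302), (524, 2, 3241), (528, 2, 3323),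
    (532, 2, 3269), (536, 2, 3365), (540, 2, 3361), (544, 2, 3382), (548, 2, 3383),
    (552, 2, 3410), (556, 2, 3416), (560, 2, 3374), (564, 2, 3420), (568, 2, 3460),
    (572, 2, 3320), (576, 2, 3543), (580, 2, 3478), (584, 2, 3421), (588, 2, 3583)]

theorem ft002 : FT fl002 := by
  refine ⟨?_, ?_, ?_, ?_, ?_, ?_, ?_, ?_, ?_, ?_, ?_, ?_, ?_, ?_, ?_, ?_, ?_, ?_, ?_, ?_, ?_, ?_, ?_, ?_, ?_, ?_, ?_, ?_, ?_, ?_, ?_, ?_, ?_, ?_, ?_, ?_, ?_, ?_, ?_, ?_, ?_, ?_, ?_, ?_, ?_, ?_, ?_, ?_, ?_, ?_, ?_, ?_, ?_, ?_, ?_, ?_, ?_, ?_, ?_, ?_, ?_, ?_, ?_, ?_, ?_, ?_, ?_, ?_, ?_, ?_, ?_, ?_, ?_, ?_, ?_, ?_, ?_, ?_, ?_, ?_, ?_, ?_, ?_, ?_, ?_, ?_, ?_, ?_, ?_, ?_, ?_, ?_, ?_, ?_, ?_, ?_, ?_, ?_, ?_, ?_, ?_, ?_, ?_, ?_, ?_, ?_, ?_, ?_, ?_, ?_, ?_, ?_, ?_, ?_, ?_, ?_, ?_, ?_, ?_, ?_, trivial⟩ <;> decide +kernel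

end Pool.Agent.AddSq.Fa
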