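import Pool.Agent.AddSq.FastDefs

/-!
# Kernel facts: losses in the blocks from 18944 to 48127
-/

namespace Pool.Agent.AddSq.Fa

set_option maxRecDepth 100000

def fl003 : List (Nat × Nat × Nat) :=
   [(592, 2, 3530), (596, 2, 3402), (600, 2, 3475), (604, 2, 3483), (608, 2, 3440),
    (612, 2, 3534), (616, 2, 3632), (620, 2, 3551), (624, 2, 3702), (628, 2, 3638),
    (632, 2, 3563), (636, 2, 3679), (640, 3, 7224), (648, 3, 7368), (656, 3, 7345),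
    (664, 3, 7472), (672, 3, 7427), (680, 3, 7481), (688, 3, 7381), (696, 3, 7545),
    (704, 3, 7607), (712, 3, 7635), (720, 3, 7771), (728, 3, 7635), (736, 3, 7717),
    (744, 3, 7903), (752, 3, 7721), (760, 3, 7737), (768, 3, 7794), (776, 3, 7940),
    (784, 3, 7991), (792, 3, 8019), (800, 3, 8012), (808, 3, 8171), (816, 3, 8285),
    (824, 3, 8233), (832, 3, 8374), (840, 3, 8321), (848, 3, 8396), (856, 3, 8405),
    (864, 3, 8265), (872, 3, 8634), (880, 3, 8457), (888, 3, 8566), (896, 3, 8748),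
    (904, 3, 8474), (912, 3, 8649), (920, 3, 8710), (928, 3, 8693), (936, 3, 8598),
    (944, 3, 8753), (952, 3, 8745), (960, 3, 8786), (968, 3, 8720), (976, 3, 8932),
    (984, 3, 8854), (992, 3, 8952), (1000, 3, 8955), (1008, 3, 8928), (1016, 3, 9130),
    (1024, 3, 8989), (1032, 3, 9127), (1040, 3, 9146), (1048, 3, 9110), (1056, 3, 9240),
    (1064, 3, 9203), (1072, 3, 9205), (1080, 3, 9243), (1088, 3, 9461), (1096, 3, 9559),
    (1104, 3, 9402), (1112, 3, 9426), (1120, 3, 9420), (1128, 3, 9489), (1136, 3, 9446),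
    (1144, 3, 9578), (1152, 3, 9604), (1160, 3, 9530), (1168, 3, 9579), (1176, 3, 9690),
    (1184, 3, 9749), (1192, 3, 9888), (1200, 3, 9718), (1208, 3, 9929), (1216, 3, 9735),
    (1224, 3, 9968), (1232, 3, 9889), (1240, 3, 9871), (1248, 3, 10129), (1256, 3, 10047),
    (1264, 3, 9988), (1272, 3, 9966), (1280, 3, 10023), (1288, 3, 10126), (1296, 3, 10104),
    (1304, 3, 10110), (1312, 3, 10404), (1320, 3, 10297), (1328, 3, 10217), (1336, 3, 10296),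
    (1344, 3, 10470), (1352, 3, 10411), (1360, 3, 10547), (1368, 3, 10541), (1376, 3, 10355),
    (1384, 3, 10654), (1392, 3, 10680), (1400, 3, 10858), (1408, 3, 10829), (1416, 3, 10523),
    (1424, 3, 10691), (1432, 3, 10819), (1440, 3, 10744), (1448, 3, 10976), (1456, 3, 10791),
    (1464, 3, 10888), (1472, 3, 10934), (1480, 3, 10825), (1488, 3, 10916), (1496, 3, 10819)]

theorem ft003 : FT fl003 := by
  refine ⟨?_, ?_, ?_, ?_, ?_, ?_, ?_, ?_, ?_, ?_, ?_, ?_, ?_, ?_, ?_, ?_, ?_, ?_, ?_, ?_, ?_, ?_, ?_, ?_, ?_, ?_, ?_, ?_, ?_, ?_, ?_, ?_, ?_, ?_, ?_, ?_, ?_, ?_, ?_, ?_, ?_, ?_, ?_, ?_, ?_, ?_, ?_, ?_, ?_, ?_, ?_, ?_, ?_, ?_, ?_, ?_, ?_, ?_, ?_, ?_, ?_, ?_, ?_, ?_, ?_, ?_, ?_, ?_, ?_, ?_, ?_, ?_, ?_, ?_, ?_, ?_, ?_, ?_, ?_, ?_, ?_, ?_, ?_, ?_, ?_, ?_, ?_, ?_, ?_, ?_, ?_, ?_, ?_, ?_, ?_, ?_, ?_, ?_, ?_, ?_, ?_, ?_, ?_, ?_, ?_, ?_, ?_, ?_, ?_, ?_, ?_, ?_, ?_, ?_, ?_, ?_, ?_,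 ?_, ?_, ?_, trivial⟩ <;> decide +kernel

end Pool.Agent.AddSq.Fa
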