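import Pool.Agent.AddSq.FastDefs

/-!
# Kernel facts: losses in the blocks from 48128 to 78847
-/

namespace Pool.Agent.AddSq.Fa

set_option maxRecDepth 100000

def fl004 : List (Nat × Nat × Nat) :=
   [(1504, 3, 10891), (1512, 3, 11078), (1520, 3, 11040), (1528, 3, 10939), (1536, 3, 11054),
    (1544, 3, 10945), (1552, 3, 10770), (1560, 3, 11276), (1568, 3, 11069), (1576, 3, 11269),
    (1584, 3, 11213), (1592, 3, 11084), (1600, 3, 11245), (1608, 3, 11475), (1616, 3, 11426),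
    (1624, 3, 11454), (1632, 3, 11348), (1640, 3, 11545), (1648, 3, 11440), (1656, 3, 11627),
    (1664, 3, 11463), (1672, 3, 11313), (1680, 3, 11436), (1688, 3, 11582), (1696, 3, 11687),
    (1704, 3, 11569), (1712, 3, 11620), (1720, 3, 11607), (1728, 3, 11753), (1736, 3, 11834),
    (1744, 3, 11776), (1752, 3, 11900), (1760, 3, 11862), (1768, 3, 11895), (1776, 3, 11777),
    (1784, 3, 11894), (1792, 3, 11966), (1800, 3, 11925), (1808, 3, 11902), (1816, 3, 12356),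
    (1824, 3, 12111), (1832, 3, 11999), (1840, 3, 12203), (1848, 3, 12183), (1856, 3, 12315),
    (1864, 3, 12322), (1872, 3, 12211), (1880, 3, 12188), (1888, 3, 12373), (1896, 3, 12243),
    (1904, 3, 12350), (1912, 3, 12246), (1920, 3, 12438), (1928, 3, 12318), (1936, 3, 12554),
    (1944, 3, 12357), (1952, 3, 12675), (1960, 3, 12662), (1968, 3, 12642), (1976, 3, 12797),
    (1984, 3, 12646), (1992, 3, 12794), (2000, 3, 12753), (2008, 3, 12898), (2016, 3, 12707),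
    (2024, 3, 12676), (2032, 3, 12930), (2040, 3, 12796), (2048, 3, 12896), (2056, 3, 12963),
    (2064, 3, 12900), (2072, 3, 12978), (2080, 3, 13127), (2088, 3, 13191), (2096, 3, 13109),
    (2104, 3, 13162), (2112, 3, 13165), (2120, 3, 13243), (2128, 3, 13357), (2136, 3, 13287),
    (2144, 3, 13182), (2152, 3, 13401), (2160, 3, 13449), (2168, 3, 13265), (2176, 3, 13493),
    (2184, 3, 13409), (2192, 3, 13237), (2200, 3, 13580), (2208, 3, 13269), (2216, 3, 13541),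
    (2224, 3, 13607), (2232, 3, 13598), (2240, 3, 13569), (2248, 3, 13623), (2256, 3, 13667),
    (2264, 3, 13771), (2272, 3, 13766), (2280, 3, 13426), (2288, 3, 13617), (2296, 3, 13794),
    (2304, 3, 13810), (2312, 3, 13839), (2320, 3, 13889), (2328, 3, 13762), (2336, 3, 13929),
    (2344, 3, 13996), (2352, 3, 13867), (2360, 3, 13788), (2368, 3, 13755), (2376, 3, 13901),
    (2384, 3, 14018), (2392, 3, 13819), (2400, 3, 14154), (2408, 3, 13879), (2416, 3, 14124),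
    (2424, 3, 14131), (2432, 3, 14155), (2440, 3, 14206), (2448, 3, 14375), (2456, 3, 14360)]

theorem ft004 : FT fl004 := by
  refine ⟨?_, ?_, ?_, ?_, ?_, ?_, ?_, ?_, ?_, ?_, ?_, ?_, ?_, ?_, ?_, ?_, ?_, ?_, ?_, ?_, ?_, ?_, ?_, ?_, ?_, ?_, ?_, ?_, ?_, ?_, ?_, ?_, ?_, ?_, ?_, ?_, ?_, ?_, ?_, ?_, ?_, ?_, ?_, ?_, ?_, ?_, ?_, ?_, ?_, ?_, ?_, ?_, ?_, ?_, ?_, ?_, ?_, ?_, ?_, ?_, ?_, ?_, ?_, ?_, ?_, ?_, ?_, ?_, ?_, ?_, ?_, ?_, ?_, ?_, ?_, ?_, ?_, ?_, ?_, ?_, ?_, ?_, ?_, ?_, ?_, ?_, ?_, ?_, ?_, ?_, ?_, ?_, ?_, ?_, ?_, ?_, ?_, ?_, ?_, ?_, ?_, ?_, ?_, ?_, ?_, ?_, ?_, ?_, ?_, ?_, ?_, ?_, ?_, ?_, ?_, ?_, ?_, ?_, ?_, ?_, trivial⟩ <;> decide +kernel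

end Pool.Agent.AddSq.Fa
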