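import Pool.Agent.AddSq.FastDefs

/-!
# Kernel facts: losses in the blocks from 78848 to 108287
-/

namespace Pool.Agent.AddSq.Fa

set_option maxRecDepth 100000

def fl005 : List (Nat × Nat × Nat) :=
   [(2464, 3, 14129), (2472, 3, 14229), (2480, 3, 14321), (2488, 3, 14323), (2496, 3, 14244),
    (2504, 3, 14453), (2512, 3, 14141), (2520, 3, 14317), (2528, 3, 14293), (2536, 3, 14550),
    (2544, 3, 14264), (2552, 3, 14215), (2560, 3, 14404), (2568, 3, 14284), (2576, 3, 14413),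
    (2584, 3, 14506), (2592, 3, 14251), (2600, 3, 14559), (2608, 3, 14549), (2616, 3, 14426),
    (2624, 3, 14674), (2632, 3, 14386), (2640, 3, 14324), (2648, 3, 14629), (2656, 3, 14553),
    (2664, 3, 14530), (2672, 3, 14525), (2680, 3, 14551), (2688, 3, 14723), (2696, 3, 14670),
    (2704, 3, 14719), (2712, 3, 14751), (2720, 3, 14588), (2728, 3, 14819), (2736, 3, 14776),
    (2744, 3, 14929), (2752, 3, 14759), (2760, 3, 14944), (2768, 3, 14846), (2776, 3, 14779),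
    (2784, 3, 14759), (2792, 3, 14931), (2800, 3, 14731), (2808, 3, 15038), (2816, 3, 15001),
    (2824, 3, 15103), (2832, 3, 14985), (2840, 3, 15160), (2848, 3, 15189), (2856, 3, 14985),
    (2864, 3, 15316), (2872, 3, 15011), (2880, 3, 15086), (2888, 3, 15092), (2896, 3, 15356),
    (2904, 3, 15467), (2912, 3, 15193), (2920, 3, 15373), (2928, 3, 15171), (2936, 3, 15065),
    (2944, 3, 15238), (2952, 3, 15436), (2960, 3, 15088), (2968, 3, 15361), (2976, 3, 15470),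
    (2984, 3, 15331), (2992, 3, 15264), (3000, 3, 15463), (3008, 3, 15296), (3016, 3, 15486),
    (3024, 3, 15650), (3032, 3, 15342), (3040, 3, 15588), (3048, 3, 15641), (3056, 3, 15521),
    (3064, 3, 15644), (3072, 3, 15502), (3080, 3, 15670), (3088, 3, 15581), (3096, 3, 15785),
    (3104, 3, 15606), (3112, 3, 15560), (3120, 3, 15658), (3128, 3, 15946), (3136, 3, 15938),
    (3144, 3, 15693), (3152, 3, 15780), (3160, 3, 16073), (3168, 3, 15967), (3176, 3, 15934),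
    (3184, 3, 15916), (3192, 3, 16078), (3200, 3, 16188), (3208, 3, 16021), (3216, 3, 15969),
    (3224, 3, 16091), (3232, 3, 16025), (3240, 3, 16204), (3248, 3, 16119), (3256, 3, 16090),
    (3264, 3, 16304), (3272, 3, 16054), (3280, 3, 16094), (3288, 3, 16064), (3296, 3, 16217),
    (3304, 3, 16135), (3312, 3, 16314), (3320, 3, 16322), (3328, 3, 16409), (3336, 3, 16192),
    (3344, 3, 16240), (3352, 3, 16391), (3360, 3, 16331), (3368, 3, 16270), (3376, 3, 16458)]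

theorem ft005 : FT fl005 := by
  refine ⟨?_, ?_, ?_, ?_, ?_, ?_, ?_, ?_, ?_, ?_, ?_, ?_, ?_, ?_, ?_, ?_, ?_, ?_, ?_, ?_, ?_, ?_, ?_, ?_, ?_, ?_, ?_, ?_, ?_, ?_, ?_, ?_, ?_, ?_, ?_, ?_, ?_, ?_, ?_, ?_, ?_, ?_, ?_, ?_, ?_, ?_, ?_, ?_, ?_, ?_, ?_, ?_, ?_, ?_, ?_, ?_, ?_, ?_, ?_, ?_, ?_, ?_, ?_, ?_, ?_, ?_, ?_, ?_, ?_, ?_, ?_, ?_, ?_, ?_, ?_, ?_, ?_, ?_, ?_, ?_, ?_, ?_, ?_, ?_, ?_, ?_, ?_, ?_, ?_, ?_, ?_, ?_, ?_, ?_, ?_, ?_, ?_, ?_, ?_, ?_, ?_, ?_, ?_, ?_, ?_, ?_, ?_, ?_, ?_, ?_, ?_, ?_, ?_, ?_, ?_, trivial⟩ <;> decide +kernel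

end Pool.Agent.AddSq.Fa
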