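import Pool.Agent.AddSq.FastDefs

/-!
# Kernel facts: losses in the blocks from 108288 to 133887
-/

namespace Pool.Agent.AddSq.Fa

set_option maxRecDepth 100000

def fl006 : List (Nat × Nat × Nat) :=
   [(3384, 3, 16520), (3392, 3, 16546), (3400, 3, 16462), (3408, 3, 16687), (3416, 3, 16709),
    (3424, 3, 16604), (3432, 3, 16565), (3440, 3, 16515), (3448, 3, 16682), (3456, 3, 16654),
    (3464, 3, 16723), (3472, 3, 16746), (3480, 3, 16603), (3488, 3, 16497), (3496, 3, 16649),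
    (3504, 3, 16765), (3512, 3, 16633), (3520, 3, 17035), (3528, 3, 16581), (3536, 3, 16951),
    (3544, 3, 16686), (3552, 3, 16744), (3560, 3, 16730), (3568, 3, 16726), (3576, 3, 16729),
    (3584, 3, 17124), (3592, 3, 17062), (3600, 3, 16959), (3608, 3, 17212), (3616, 3, 17326),
    (3624, 3, 17042), (3632, 3, 17141), (3640, 3, 17054), (3648, 3, 17273), (3656, 3, 16910),
    (3664, 3, 17149), (3672, 3, 17055), (3680, 3, 17204), (3688, 3, 16952), (3696, 3, 16969),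
    (3704, 3, 17281), (3712, 3, 16941), (3720, 3, 17249), (3728, 3, 17157), (3736, 3, 17285),
    (3744, 3, 17311), (3752, 3, 17269), (3760, 3, 17417), (3768, 3, 17309), (3776, 3, 17612),
    (3784, 3, 17596), (3792, 3, 17462), (3800, 3, 17443), (3808, 3, 17670), (3816, 3, 17750),
    (3824, 3, 17706), (3832, 3, 17580), (3840, 3, 17289), (3848, 3, 17438), (3856, 3, 17650),
    (3864, 3, 17623), (3872, 3, 17784), (3880, 3, 17744), (3888, 3, 17608), (3896, 3, 17959),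
    (3904, 3, 17994), (3912, 3, 17880), (3920, 3, 17739), (3928, 3, 17762), (3936, 3, 17799),
    (3944, 3, 18051), (3952, 3, 17903), (3960, 3, 17719), (3968, 3, 17953), (3976, 3, 17925),
    (3984, 3, 17940), (3992, 3, 17884), (4000, 3, 18045), (4008, 3, 17748), (4016, 3, 18176),
    (4024, 3, 17897), (4032, 3, 18225), (4040, 3, 18021), (4048, 3, 18109), (4056, 3, 18106),
    (4064, 3, 18118), (4072, 3, 18135), (4080, 3, 18234), (4088, 3, 18051), (4096, 2, 9078),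
    (4100, 2, 9069), (4104, 2, 9075), (4108, 2, 9215), (4112, 2, 9116), (4116, 2, 9082),
    (4120, 2, 9250), (4124, 2, 9199), (4128, 2, 9294), (4132, 2, 9086), (4136, 2, 9130),
    (4140, 2, 9221), (4144, 2, 9195), (4148, 2, 9328), (4152, 2, 9163), (4156, 2, 9253),
    (4160, 2, 9335), (4164, 2, 9321), (4168, 2, 9141), (4172, 2, 9076), (4176, 2, 9144),
    (4180, 2, 9370)]

theorem ft006 : FT fl006 := by
  refine ⟨?_, ?_, ?_, ?_, ?_, ?_, ?_, ?_, ?_, ?_, ?_, ?_, ?_, ?_, ?_, ?_, ?_, ?_, ?_, ?_, ?_, ?_, ?_, ?_, ?_, ?_, ?_, ?_, ?_, ?_, ?_, ?_, ?_, ?_, ?_, ?_, ?_, ?_, ?_, ?_, ?_, ?_, ?_, ?_, ?_, ?_, ?_, ?_, ?_, ?_, ?_, ?_, ?_, ?_, ?_, ?_, ?_, ?_, ?_, ?_, ?_, ?_, ?_, ?_, ?_, ?_, ?_, ?_, ?_, ?_, ?_, ?_, ?_, ?_, ?_, ?_, ?_, ?_, ?_, ?_, ?_, ?_, ?_, ?_, ?_, ?_, ?_, ?_, ?_, ?_, ?_, ?_, ?_, ?_, ?_, ?_, ?_, ?_, ?_, ?_, ?_, ?_, ?_, ?_, ?_, ?_, ?_, ?_, ?_, ?_, ?_, trivial⟩ <;> decide +kernel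

end Pool.Agent.AddSq.Fa
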