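import Pool.Agent.AddSq.FastDefs

/-!
# Kernel facts: losses in the blocks from 133888 to 149247
-/

namespace Pool.Agent.AddSq.Fa

set_option maxRecDepth 100000

def fl007 : List (Nat × Nat × Nat) :=
   [(4184, 2, 9180), (4188, 2, 9199), (4192, 2, 9111), (4196, 2, 9069), (4200, 2, 9233),
    (4204, 2, 9190), (4208, 2, 9256), (4212, 2, 9302), (4216, 2, 9319), (4220, 2, 9342),
    (4224, 2, 9150), (4228, 2, 9383), (4232, 2, 9289), (4236, 2, 9146), (4240, 2, 9230),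
    (4244, 2, 9326), (4248, 2, 9189), (4252, 2, 9405), (4256, 2, 9181), (4260, 2, 9545),
    (4264, 2, 9353), (4268, 2, 9376), (4272, 2, 9320), (4276, 2, 9384), (4280, 2, 9394),
    (4284, 2, 9380), (4288, 2, 9466), (4292, 2, 9255), (4296, 2, 9276), (4300, 2, 9350),
    (4304, 2, 9364), (4308, 2, 9453), (4312, 2, 9322), (4316, 2, 9619), (4320, 2, 9531),
    (4324, 2, 9592), (4328, 2, 9249), (4332, 2, 9362), (4336, 2, 9439), (4340, 2, 9270),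
    (4344, 2, 9413), (4348, 2, 9353), (4352, 2, 9392), (4356, 2, 9340), (4360, 2, 9584),
    (4364, 2, 9531), (4368, 2, 9448), (4372, 2, 9397), (4376, 2, 9377), (4380, 2, 9213),
    (4384, 2, 9533), (4388, 2, 9350), (4392, 2, 9406), (4396, 2, 9317), (4400, 2, 9392),
    (4404, 2, 9611), (4408, 2, 9600), (4412, 2, 9323), (4416, 2, 9492), (4420, 2, 9436),
    (4424, 2, 9659), (4428, 2, 9686), (4432, 2, 9352), (4436, 2, 9576), (4440, 2, 9622),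
    (4444, 2, 9725), (4448, 2, 9530), (4452, 2, 9688), (4456, 2, 9497), (4460, 2, 9574),
    (4464, 2, 9512), (4468, 2, 9737), (4472, 2, 9647), (4476, 2, 9531), (4480, 2, 9524),
    (4484, 2, 9739), (4488, 2, 9602), (4492, 2, 9548), (4496, 2, 9681), (4500, 2, 9795),
    (4504, 2, 9822), (4508, 2, 9546), (4512, 2, 9635), (4516, 2, 9615), (4520, 2, 9700),
    (4524, 2, 9643), (4528, 2, 9661), (4532, 2, 9674), (4536, 2, 9714), (4540, 2, 9404),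
    (4544, 2, 9497), (4548, 2, 9633), (4552, 2, 9651), (4556, 2, 9719), (4560, 2, 9597),
    (4564, 2, 9829), (4568, 2, 9546), (4572, 2, 9669), (4576, 2, 9586), (4580, 2, 9627),
    (4584, 2, 9813), (4588, 2, 9789), (4592, 2, 9623), (4596, 2, 9497), (4600, 2, 9727),
    (4604, 2, 9783), (4608, 2, 9831), (4612, 2, 9806), (4616, 2, 9800), (4620, 2, 9718),
    (4624, 2, 9982), (4628, 2, 9943), (4632, 2, 9879), (4636, 2, 9682), (4640, 2, 9750),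
    (4644, 2, 9589), (4648, 2, 9725), (4652, 2, 9633), (4656, 2, 9595), (4660, 2, 9590)]

theorem ft007 : FT fl007 := by
  refine ⟨?_, ?_, ?_, ?_, ?_, ?_, ?_, ?_, ?_, ?_, ?_, ?_, ?_, ?_, ?_, ?_, ?_, ?_, ?_, ?_, ?_, ?_, ?_, ?_, ?_, ?_, ?_, ?_, ?_, ?_, ?_, ?_, ?_, ?_, ?_, ?_, ?_, ?_, ?_, ?_, ?_, ?_, ?_, ?_, ?_, ?_, ?_, ?_, ?_, ?_, ?_, ?_, ?_, ?_, ?_, ?_, ?_, ?_, ?_, ?_, ?_, ?_, ?_, ?_, ?_, ?_, ?_, ?_, ?_, ?_, ?_, ?_, ?_, ?_, ?_, ?_, ?_, ?_, ?_, ?_, ?_, ?_, ?_, ?_, ?_, ?_, ?_, ?_, ?_, ?_, ?_, ?_, ?_, ?_, ?_, ?_, ?_, ?_, ?_, ?_, ?_, ?_, ?_, ?_, ?_, ?_, ?_, ?_, ?_, ?_, ?_, ?_, ?_, ?_, ?_, ?_, ?_, ?_, ?_, ?_, trivial⟩ <;> decide +kernel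

end Pool.Agent.AddSq.Fa
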