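import Pool.Agent.AddSq.FastDefs

/-!
# Kernel facts: losses in the blocks from 149248 to 164607
-/

namespace Pool.Agent.AddSq.Fa

set_option maxRecDepth 100000

def fl008 : List (Nat × Nat × Nat) :=
   [(4664, 2, 9909), (4668, 2, 9740), (4672, 2, 9762), (4676, 2, 9925), (4680, 2, 9939),
    (4684, 2, 9955), (4688, 2, 9804), (4692, 2, 10001), (4696, 2, 9967), (4700, 2, 9843),
    (4704, 2, 9848), (4708, 2, 10009), (4712, 2, 9913), (4716, 2, 10044), (4720, 2, 9978),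
    (4724, 2, 9984), (4728, 2, 9835), (4732, 2, 9975), (4736, 2, 9809), (4740, 2, 9995),
    (4744, 2, 9678), (4748, 2, 10069), (4752, 2, 9670), (4756, 2, 9853), (4760, 2, 9874),
    (4764, 2, 9945), (4768, 2, 9878), (4772, 2, 9937), (4776, 2, 9978), (4780, 2, 9902),
    (4784, 2, 9971), (4788, 2, 10087), (4792, 2, 10020), (4796, 2, 9931), (4800, 2, 9913),
    (4804, 2, 9863), (4808, 2, 9882), (4812, 2, 9926), (4816, 2, 9776), (4820, 2, 9976),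
    (4824, 2, 9801), (4828, 2, 10030), (4832, 2, 10236), (4836, 2, 9932), (4840, 2, 10020),
    (4844, 2, 9831), (4848, 2, 9938), (4852, 2, 10011), (4856, 2, 9922), (4860, 2, 9974),
    (4864, 2, 10127), (4868, 2, 10026), (4872, 2, 10085), (4876, 2, 10108), (4880, 2, 10057),
    (4884, 2, 9933), (4888, 2, 10190), (4892, 2, 10092), (4896, 2, 10021), (4900, 2, 9998),
    (4904, 2, 10073), (4908, 2, 10246), (4912, 2, 10073), (4916, 2, 10250), (4920, 2, 10218),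
    (4924, 2, 10039), (4928, 2, 10089), (4932, 2, 10207), (4936, 2, 10276), (4940, 2, 10039),
    (4944, 2, 10119), (4948, 2, 9931), (4952, 2, 10142), (4956, 2, 9979), (4960, 2, 10025),
    (4964, 2, 10065), (4968, 2, 10268), (4972, 2, 10357), (4976, 2, 10237), (4980, 2, 10387),
    (4984, 2, 10127), (4988, 2, 10007), (4992, 2, 10158), (4996, 2, 10155), (5000, 2, 9823),
    (5004, 2, 10213), (5008, 2, 10216), (5012, 2, 10307), (5016, 2, 10255), (5020, 2, 10165),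
    (5024, 2, 10210), (5028, 2, 10142), (5032, 2, 10161), (5036, 2, 9935), (5040, 2, 10244),
    (5044, 2, 10010), (5048, 2, 10303), (5052, 2, 10342), (5056, 2, 10005), (5060, 2, 10331),
    (5064, 2, 10184), (5068, 2, 10356), (5072, 2, 10201), (5076, 2, 10268), (5080, 2, 10243),
    (5084, 2, 10266), (5088, 2, 10361), (5092, 2, 10362), (5096, 2, 10444), (5100, 2, 10291),
    (5104, 2, 10239), (5108, 2, 10395), (5112, 2, 10231), (5116, 2, 10382), (5120, 2, 10395),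
    (5124, 2, 10369), (5128, 2, 10288), (5132, 2, 10529), (5136, 2, 10317), (5140, 2, 10368)]

theorem ft008 : FT fl008 := by
  refine ⟨?_, ?_, ?_, ?_, ?_, ?_, ?_, ?_, ?_, ?_, ?_, ?_, ?_, ?_, ?_, ?_, ?_, ?_, ?_, ?_, ?_, ?_, ?_, ?_, ?_, ?_, ?_, ?_, ?_, ?_, ?_, ?_, ?_, ?_, ?_, ?_, ?_, ?_, ?_, ?_, ?_, ?_, ?_, ?_, ?_, ?_, ?_, ?_, ?_, ?_, ?_, ?_, ?_, ?_, ?_, ?_, ?_, ?_, ?_, ?_, ?_, ?_, ?_, ?_, ?_, ?_, ?_, ?_, ?_, ?_, ?_, ?_, ?_, ?_, ?_, ?_, ?_, ?_, ?_, ?_, ?_, ?_, ?_, ?_, ?_, ?_, ?_, ?_, ?_, ?_, ?_, ?_, ?_, ?_, ?_, ?_, ?_, ?_, ?_, ?_, ?_, ?_, ?_, ?_, ?_, ?_, ?_, ?_, ?_, ?_, ?_, ?_, ?_, ?_, ?_, ?_, ?_, ?_, ?_, ?_, trivial⟩ <;> decide +kernel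

end Pool.Agent.AddSq.Fa
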