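import Pool.Agent.AddSq.FastDefs

/-!
# Kernel facts: losses in the blocks from 164608 to 179967
-/

namespace Pool.Agent.AddSq.Fa

set_option maxRecDepth 100000

def fl009 : List (Nat × Nat × Nat) :=
   [(5144, 2, 10276), (5148, 2, 10353), (5152, 2, 10421), (5156, 2, 10323), (5160, 2, 10289),
    (5164, 2, 10403), (5168, 2, 10258), (5172, 2, 10296), (5176, 2, 10311), (5180, 2, 10281),
    (5184, 2, 10336), (5188, 2, 10357), (5192, 2, 10434), (5196, 2, 10211), (5200, 2, 10312),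
    (5204, 2, 10274), (5208, 2, 10256), (5212, 2, 10334), (5216, 2, 10401), (5220, 2, 10293),
    (5224, 2, 10325), (5228, 2, 10502), (5232, 2, 10330), (5236, 2, 10373), (5240, 2, 10488),
    (5244, 2, 10498), (5248, 2, 10448), (5252, 2, 10506), (5256, 2, 10433), (5260, 2, 10672),
    (5264, 2, 10494), (5268, 2, 10554), (5272, 2, 10469), (5276, 2, 10350), (5280, 2, 10470),
    (5284, 2, 10345), (5288, 2, 10316), (5292, 2, 10576), (5296, 2, 10437), (5300, 2, 10253),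
    (5304, 2, 10613), (5308, 2, 10469), (5312, 2, 10564), (5316, 2, 10581), (5320, 2, 10330),
    (5324, 2, 10397), (5328, 2, 10508), (5332, 2, 10543), (5336, 2, 10479), (5340, 2, 10573),
    (5344, 2, 10608), (5348, 2, 10368), (5352, 2, 10484), (5356, 2, 10395), (5360, 2, 10530),
    (5364, 2, 10771), (5368, 2, 10425), (5372, 2, 10374), (5376, 2, 10662), (5380, 2, 10682),
    (5384, 2, 10788), (5388, 2, 10479), (5392, 2, 10501), (5396, 2, 10640), (5400, 2, 10483),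
    (5404, 2, 10639), (5408, 2, 10512), (5412, 2, 10460), (5416, 2, 10680), (5420, 2, 10752),
    (5424, 2, 10621), (5428, 2, 10641), (5432, 2, 10529), (5436, 2, 10594), (5440, 2, 10593),
    (5444, 2, 10670), (5448, 2, 10679), (5452, 2, 10541), (5456, 2, 10526), (5460, 2, 10817),
    (5464, 2, 10943), (5468, 2, 10722), (5472, 2, 10753), (5476, 2, 10718), (5480, 2, 10509),
    (5484, 2, 10618), (5488, 2, 10417), (5492, 2, 10762), (5496, 2, 10730), (5500, 2, 10786),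
    (5504, 2, 10662), (5508, 2, 10696), (5512, 2, 10761), (5516, 2, 10771), (5520, 2, 10569),
    (5524, 2, 10823), (5528, 2, 10957), (5532, 2, 10801), (5536, 2, 10586), (5540, 2, 10937),
    (5544, 2, 10968), (5548, 2, 10963), (5552, 2, 10814), (5556, 2, 10744), (5560, 2, 10822),
    (5564, 2, 10833), (5568, 2, 10806), (5572, 2, 10834), (5576, 2, 10898), (5580, 2, 10629),
    (5584, 2, 10899), (5588, 2, 10819), (5592, 2, 10795), (5596, 2, 10841), (5600, 2, 10876),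
    (5604, 2, 10887), (5608, 2, 10882), (5612, 2, 10805), (5616, 2, 10743), (5620, 2, 10845)]

theorem ft009 : FT fl009 := by
  refine ⟨?_, ?_, ?_, ?_, ?_, ?_, ?_, ?_, ?_, ?_, ?_, ?_, ?_, ?_, ?_, ?_, ?_, ?_, ?_, ?_, ?_, ?_, ?_, ?_, ?_, ?_, ?_, ?_, ?_, ?_, ?_, ?_, ?_, ?_, ?_, ?_, ?_, ?_, ?_, ?_, ?_, ?_, ?_, ?_, ?_, ?_, ?_, ?_, ?_, ?_, ?_, ?_, ?_, ?_, ?_, ?_, ?_, ?_, ?_, ?_, ?_, ?_, ?_, ?_, ?_, ?_, ?_, ?_, ?_, ?_, ?_, ?_, ?_, ?_, ?_, ?_, ?_, ?_, ?_, ?_, ?_, ?_, ?_, ?_, ?_, ?_, ?_, ?_, ?_, ?_, ?_, ?_, ?_, ?_, ?_, ?_, ?_, ?_, ?_, ?_, ?_, ?_, ?_, ?_, ?_, ?_, ?_, ?_, ?_, ?_, ?_, ?_, ?_, ?_, ?_, ?_, ?_, ?_, ?_, ?_, trivial⟩ <;> decide +kernel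

end Pool.Agent.AddSq.Fa
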