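import Pool.Agent.AddSq.FastDefs

/-!
# Kernel facts: losses in the blocks from 179968 to 195327
-/

namespace Pool.Agent.AddSq.Fa

set_option maxRecDepth 100000

def fl010 : List (Nat × Nat × Nat) :=
   [(5624, 2, 10759), (5628, 2, 10896), (5632, 2, 10883), (5636, 2, 10893), (5640, 2, 10941),
    (5644, 2, 10861), (5648, 2, 11115), (5652, 2, 10896), (5656, 2, 11039), (5660, 2, 10950),
    (5664, 2, 10876), (5668, 2, 10963), (5672, 2, 11088), (5676, 2, 10878), (5680, 2, 11176),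
    (5684, 2, 10789), (5688, 2, 11049), (5692, 2, 10919), (5696, 2, 10950), (5700, 2, 10922),
    (5704, 2, 10979), (5708, 2, 10972), (5712, 2, 11099), (5716, 2, 11127), (5720, 2, 11014),
    (5724, 2, 10962), (5728, 2, 10961), (5732, 2, 10848), (5736, 2, 10969), (5740, 2, 11139),
    (5744, 2, 10948), (5748, 2, 11061), (5752, 2, 11057), (5756, 2, 10869), (5760, 2, 11086),
    (5764, 2, 11042), (5768, 2, 11123), (5772, 2, 10849), (5776, 2, 11058), (5780, 2, 10878),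
    (5784, 2, 10971), (5788, 2, 10890), (5792, 2, 10975), (5796, 2, 11000), (5800, 2, 11002),
    (5804, 2, 10675), (5808, 2, 10948), (5812, 2, 11210), (5816, 2, 11108), (5820, 2, 11122),
    (5824, 2, 11183), (5828, 2, 11087), (5832, 2, 11088), (5836, 2, 11048), (5840, 2, 11156),
    (5844, 2, 11303), (5848, 2, 10984), (5852, 2, 11421), (5856, 2, 10982), (5860, 2, 11174),
    (5864, 2, 11019), (5868, 2, 11114), (5872, 2, 11298), (5876, 2, 10958), (5880, 2, 11147),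
    (5884, 2, 11056), (5888, 2, 10933), (5892, 2, 11325), (5896, 2, 11106), (5900, 2, 11141),
    (5904, 2, 11207), (5908, 2, 11101), (5912, 2, 11105), (5916, 2, 11171), (5920, 2, 11119),
    (5924, 2, 11134), (5928, 2, 11052), (5932, 2, 11298), (5936, 2, 11223), (5940, 2, 11018),
    (5944, 2, 11271), (5948, 2, 11315), (5952, 2, 11238), (5956, 2, 11109), (5960, 2, 11122),
    (5964, 2, 11264), (5968, 2, 11041), (5972, 2, 10930), (5976, 2, 11073), (5980, 2, 11171),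
    (5984, 2, 11113), (5988, 2, 11278), (5992, 2, 11200), (5996, 2, 11182), (6000, 2, 11429),
    (6004, 2, 11222), (6008, 2, 11057), (6012, 2, 11253), (6016, 2, 11438), (6020, 2, 11333),
    (6024, 2, 11012), (6028, 2, 11245), (6032, 2, 11250), (6036, 2, 11059), (6040, 2, 11258),
    (6044, 2, 11360), (6048, 2, 11297), (6052, 2, 11340), (6056, 2, 11488), (6060, 2, 11303),
    (6064, 2, 11333), (6068, 2, 11409), (6072, 2, 11053), (6076, 2, 11322), (6080, 2, 11413),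
    (6084, 2, 11219), (6088, 2, 11164), (6092, 2, 11511), (6096, 2, 11340), (6100, 2, 11127)]

theorem ft010 : FT fl010 := by
  refine ⟨?_, ?_, ?_, ?_, ?_, ?_, ?_, ?_, ?_, ?_, ?_, ?_, ?_, ?_, ?_, ?_, ?_, ?_, ?_, ?_, ?_, ?_, ?_, ?_, ?_, ?_, ?_, ?_, ?_, ?_, ?_, ?_, ?_, ?_, ?_, ?_, ?_, ?_, ?_, ?_, ?_, ?_, ?_, ?_, ?_, ?_, ?_, ?_, ?_, ?_, ?_, ?_, ?_, ?_, ?_, ?_, ?_, ?_, ?_, ?_, ?_, ?_, ?_, ?_, ?_, ?_, ?_, ?_, ?_, ?_, ?_, ?_, ?_, ?_, ?_, ?_, ?_, ?_, ?_, ?_, ?_, ?_, ?_, ?_, ?_, ?_, ?_, ?_, ?_, ?_, ?_, ?_, ?_, ?_, ?_, ?_, ?_, ?_, ?_, ?_, ?_, ?_, ?_, ?_, ?_, ?_, ?_, ?_, ?_, ?_, ?_, ?_, ?_, ?_, ?_, ?_, ?_, ?_, ?_, ?_, trivial⟩ <;> decide +kernel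

end Pool.Agent.AddSq.Fa
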