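import Pool.Agent.AddSq.FastDefs

/-!
# Kernel facts: losses in the blocks from 195328 to 210687
-/

namespace Pool.Agent.AddSq.Fa

set_option maxRecDepth 100000

def fl011 : List (Nat × Nat × Nat) :=
   [(6104, 2, 11233), (6108, 2, 11251), (6112, 2, 11306), (6116, 2, 11248), (6120, 2, 11270),
    (6124, 2, 11434), (6128, 2, 11250), (6132, 2, 11590), (6136, 2, 11262), (6140, 2, 11371),
    (6144, 2, 11399), (6148, 2, 11554), (6152, 2, 11407), (6156, 2, 11366), (6160, 2, 11205),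
    (6164, 2, 11269), (6168, 2, 11349), (6172, 2, 11415), (6176, 2, 11453), (6180, 2, 11388),
    (6184, 2, 11404), (6188, 2, 11306), (6192, 2, 11258), (6196, 2, 11431), (6200, 2, 11458),
    (6204, 2, 11313), (6208, 2, 11489), (6212, 2, 11475), (6216, 2, 11428), (6220, 2, 11641),
    (6224, 2, 11311), (6228, 2, 11238), (6232, 2, 11722), (6236, 2, 11476), (6240, 2, 11495),
    (6244, 2, 11411), (6248, 2, 11324), (6252, 2, 11567), (6256, 2, 11475), (6260, 2, 11485),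
    (6264, 2, 11542), (6268, 2, 11586), (6272, 2, 11485), (6276, 2, 11539), (6280, 2, 11365),
    (6284, 2, 11555), (6288, 2, 11608), (6292, 2, 11452), (6296, 2, 11440), (6300, 2, 11504),
    (6304, 2, 11710), (6308, 2, 11563), (6312, 2, 11567), (6316, 2, 11544), (6320, 2, 11566),
    (6324, 2, 11716), (6328, 2, 11595), (6332, 2, 11743), (6336, 2, 11534), (6340, 2, 11737),
    (6344, 2, 11569), (6348, 2, 11643), (6352, 2, 11719), (6356, 2, 11539), (6360, 2, 11589),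
    (6364, 2, 11598), (6368, 2, 11490), (6372, 2, 11658), (6376, 2, 11505), (6380, 2, 11661),
    (6384, 2, 11785), (6388, 2, 11654), (6392, 2, 11588), (6396, 2, 11487), (6400, 2, 11703),
    (6404, 2, 11635), (6408, 2, 11472), (6412, 2, 11721), (6416, 2, 11560), (6420, 2, 11737),
    (6424, 2, 11494), (6428, 2, 11544), (6432, 2, 11859), (6436, 2, 11700), (6440, 2, 11571),
    (6444, 2, 11699), (6448, 2, 11611), (6452, 2, 11652), (6456, 2, 11878), (6460, 2, 11566),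
    (6464, 2, 11773), (6468, 2, 11689), (6472, 2, 11640), (6476, 2, 11889), (6480, 2, 11546),
    (6484, 2, 11827), (6488, 2, 11711), (6492, 2, 11600), (6496, 2, 11958), (6500, 2, 11770),
    (6504, 2, 11862), (6508, 2, 11667), (6512, 2, 11781), (6516, 2, 11637), (6520, 2, 11716),
    (6524, 2, 11505), (6528, 2, 11809), (6532, 2, 11751), (6536, 2, 11782), (6540, 2, 11718),
    (6544, 2, 11677), (6548, 2, 11857), (6552, 2, 11672), (6556, 2, 11687), (6560, 2, 11710),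
    (6564, 2, 11819), (6568, 2, 11555), (6572, 2, 11522), (6576, 2, 11703), (6580, 2, 11622)]

theorem ft011 : FT fl011 := by
  refine ⟨?_, ?_, ?_, ?_, ?_, ?_, ?_, ?_, ?_, ?_, ?_, ?_, ?_, ?_, ?_, ?_, ?_, ?_, ?_, ?_, ?_, ?_, ?_, ?_, ?_, ?_, ?_, ?_, ?_, ?_, ?_, ?_, ?_, ?_, ?_, ?_, ?_, ?_, ?_, ?_, ?_, ?_, ?_, ?_, ?_, ?_, ?_, ?_, ?_, ?_, ?_, ?_, ?_, ?_, ?_, ?_, ?_, ?_, ?_, ?_, ?_, ?_, ?_, ?_, ?_, ?_, ?_, ?_, ?_, ?_, ?_, ?_, ?_, ?_, ?_, ?_, ?_, ?_, ?_, ?_, ?_, ?_, ?_, ?_, ?_, ?_, ?_, ?_, ?_, ?_, ?_, ?_, ?_, ?_, ?_, ?_, ?_, ?_, ?_, ?_, ?_, ?_, ?_, ?_, ?_, ?_, ?_, ?_, ?_, ?_, ?_, ?_, ?_, ?_, ?_, ?_, ?_, ?_, ?_, ?_, trivial⟩ <;> decide +kernel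

end Pool.Agent.AddSq.Fa
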