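import Pool.Agent.AddSq.FastDefs

/-!
# Kernel facts: losses in the blocks from 210688 to 226047
-/

namespace Pool.Agent.AddSq.Fa

set_option maxRecDepth 100000

def fl012 : List (Nat × Nat × Nat) :=
   [(6584, 2, 12112), (6588, 2, 11669), (6592, 2, 11851), (6596, 2, 11520), (6600, 2, 11605),
    (6604, 2, 11792), (6608, 2, 11796), (6612, 2, 11725), (6616, 2, 12027), (6620, 2, 11723),
    (6624, 2, 11631), (6628, 2, 11832), (6632, 2, 11795), (6636, 2, 11754), (6640, 2, 11881),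
    (6644, 2, 11624), (6648, 2, 11879), (6652, 2, 11704), (6656, 2, 11885), (6660, 2, 11750),
    (6664, 2, 11879), (6668, 2, 11747), (6672, 2, 11762), (6676, 2, 11705), (6680, 2, 11817),
    (6684, 2, 11720), (6688, 2, 11744), (6692, 2, 11675), (6696, 2, 11677), (6700, 2, 11885),
    (6704, 2, 11643), (6708, 2, 11669), (6712, 2, 11709), (6716, 2, 11814), (6720, 2, 11603),
    (6724, 2, 11858), (6728, 2, 11690), (6732, 2, 11919), (6736, 2, 11967), (6740, 2, 11787),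
    (6744, 2, 11667), (6748, 2, 11539), (6752, 2, 11798), (6756, 2, 11996), (6760, 2, 11712),
    (6764, 2, 11844), (6768, 2, 11815), (6772, 2, 11798), (6776, 2, 11664), (6780, 2, 11690),
    (6784, 2, 11947), (6788, 2, 11816), (6792, 2, 11855), (6796, 2, 11792), (6800, 2, 11996),
    (6804, 2, 11794), (6808, 2, 11900), (6812, 2, 11954), (6816, 2, 11910), (6820, 2, 11987),
    (6824, 2, 11814), (6828, 2, 11886), (6832, 2, 11909), (6836, 2, 11903), (6840, 2, 12047),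
    (6844, 2, 11865), (6848, 2, 11903), (6852, 2, 11876), (6856, 2, 12038), (6860, 2, 11768),
    (6864, 2, 12102), (6868, 2, 12035), (6872, 2, 11815), (6876, 2, 12031), (6880, 2, 11924),
    (6884, 2, 12014), (6888, 2, 11972), (6892, 2, 12098), (6896, 2, 12115), (6900, 2, 11989),
    (6904, 2, 11959), (6908, 2, 11966), (6912, 2, 12071), (6916, 2, 11872), (6920, 2, 12020),
    (6924, 2, 12037), (6928, 2, 12125), (6932, 2, 11999), (6936, 2, 12047), (6940, 2, 12033),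
    (6944, 2, 11977), (6948, 2, 12081), (6952, 2, 12119), (6956, 2, 12016), (6960, 2, 12389),
    (6964, 2, 11783), (6968, 2, 11987), (6972, 2, 12338), (6976, 2, 11990), (6980, 2, 12150),
    (6984, 2, 11956), (6988, 2, 12144), (6992, 2, 12125), (6996, 2, 11988), (7000, 2, 11775),
    (7004, 2, 12111), (7008, 2, 11961), (7012, 2, 12130), (7016, 2, 12019), (7020, 2, 12168),
    (7024, 2, 12263), (7028, 2, 11817), (7032, 2, 12328), (7036, 2, 12096), (7040, 2, 11907),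
    (7044, 2, 12146), (7048, 2, 11942), (7052, 2, 12164), (7056, 2, 12121), (7060, 2, 12154)]

theorem ft012 : FT fl012 := by
  refine ⟨?_, ?_, ?_, ?_, ?_, ?_, ?_, ?_, ?_, ?_, ?_, ?_, ?_, ?_, ?_, ?_, ?_, ?_, ?_, ?_, ?_, ?_, ?_, ?_, ?_, ?_, ?_, ?_, ?_, ?_, ?_, ?_, ?_, ?_, ?_, ?_, ?_, ?_, ?_, ?_, ?_, ?_, ?_, ?_, ?_, ?_, ?_, ?_, ?_, ?_, ?_, ?_, ?_, ?_, ?_, ?_, ?_, ?_, ?_, ?_, ?_, ?_, ?_, ?_, ?_, ?_, ?_, ?_, ?_, ?_, ?_, ?_, ?_, ?_, ?_, ?_, ?_, ?_, ?_, ?_, ?_, ?_, ?_, ?_, ?_, ?_, ?_, ?_, ?_, ?_, ?_, ?_, ?_, ?_, ?_, ?_, ?_, ?_, ?_, ?_, ?_, ?_, ?_, ?_, ?_, ?_, ?_, ?_, ?_, ?_, ?_, ?_, ?_, ?_, ?_, ?_, ?_, ?_, ?_, ?_, trivial⟩ <;> decide +kernel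

end Pool.Agent.AddSq.Fa
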