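import Pool.Agent.AddSq.FastDefs

/-!
# Kernel facts: losses in the blocks from 226048 to 241407
-/

namespace Pool.Agent.AddSq.Fa

set_option maxRecDepth 100000

def fl013 : List (Nat × Nat × Nat) :=
   [(7064, 2, 12271), (7068, 2, 12112), (7072, 2, 12204), (7076, 2, 12120), (7080, 2, 12187),
    (7084, 2, 12228), (7088, 2, 12180), (7092, 2, 11989), (7096, 2, 12148), (7100, 2, 12211),
    (7104, 2, 12267), (7108, 2, 12184), (7112, 2, 12096), (7116, 2, 12210), (7120, 2, 11877),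
    (7124, 2, 12160), (7128, 2, 12094), (7132, 2, 12130), (7136, 2, 12209), (7140, 2, 12167),
    (7144, 2, 12390), (7148, 2, 12086), (7152, 2, 12232), (7156, 2, 12093), (7160, 2, 12351),
    (7164, 2, 12318), (7168, 2, 11942), (7172, 2, 12005), (7176, 2, 12294), (7180, 2, 12275),
    (7184, 2, 12109), (7188, 2, 12072), (7192, 2, 11962), (7196, 2, 12157), (7200, 2, 12273),
    (7204, 2, 12432), (7208, 2, 12122), (7212, 2, 12045), (7216, 2, 12322), (7220, 2, 12221),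
    (7224, 2, 12255), (7228, 2, 12172), (7232, 2, 12224), (7236, 2, 12200), (7240, 2, 12169),
    (7244, 2, 12256), (7248, 2, 12295), (7252, 2, 12368), (7256, 2, 12161), (7260, 2, 12465),
    (7264, 2, 12164), (7268, 2, 12096), (7272, 2, 12267), (7276, 2, 12349), (7280, 2, 12588),
    (7284, 2, 12306), (7288, 2, 12329), (7292, 2, 12346), (7296, 2, 12306), (7300, 2, 12507),
    (7304, 2, 12187), (7308, 2, 12323), (7312, 2, 12368), (7316, 2, 12271), (7320, 2, 12357),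
    (7324, 2, 12335), (7328, 2, 12462), (7332, 2, 12129), (7336, 2, 12438), (7340, 2, 12380),
    (7344, 2, 12433), (7348, 2, 12250), (7352, 2, 12249), (7356, 2, 12538), (7360, 2, 12581),
    (7364, 2, 12369), (7368, 2, 12445), (7372, 2, 12431), (7376, 2, 12160), (7380, 2, 12465),
    (7384, 2, 12319), (7388, 2, 12334), (7392, 2, 12273), (7396, 2, 12095), (7400, 2, 12258),
    (7404, 2, 12606), (7408, 2, 12380), (7412, 2, 12499), (7416, 2, 12174), (7420, 2, 12272),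
    (7424, 2, 12453), (7428, 2, 12493), (7432, 2, 12456), (7436, 2, 12217), (7440, 2, 12613),
    (7444, 2, 12393), (7448, 2, 12508), (7452, 2, 12409), (7456, 2, 12370), (7460, 2, 12519),
    (7464, 2, 12550), (7468, 2, 12258), (7472, 2, 12607), (7476, 2, 12309), (7480, 2, 12323),
    (7484, 2, 12556), (7488, 2, 12322), (7492, 2, 12542), (7496, 2, 12673), (7500, 2, 12570),
    (7504, 2, 12512), (7508, 2, 12267), (7512, 2, 12474), (7516, 2, 12506), (7520, 2, 12480),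
    (7524, 2, 12435), (7528, 2, 12507), (7532, 2, 12505), (7536, 2, 12458), (7540, 2, 12323)]

theorem ft013 : FT fl013 := by
  refine ⟨?_, ?_, ?_, ?_, ?_, ?_, ?_, ?_, ?_, ?_, ?_, ?_, ?_, ?_, ?_, ?_, ?_, ?_, ?_, ?_, ?_, ?_, ?_, ?_, ?_, ?_, ?_, ?_, ?_, ?_, ?_, ?_, ?_, ?_, ?_, ?_, ?_, ?_, ?_, ?_, ?_, ?_, ?_, ?_, ?_, ?_, ?_, ?_, ?_, ?_, ?_, ?_, ?_, ?_, ?_, ?_, ?_, ?_, ?_, ?_, ?_, ?_, ?_, ?_, ?_, ?_, ?_, ?_, ?_, ?_, ?_, ?_, ?_, ?_, ?_, ?_, ?_, ?_, ?_, ?_, ?_, ?_, ?_, ?_, ?_, ?_, ?_, ?_, ?_, ?_, ?_, ?_, ?_, ?_, ?_, ?_, ?_, ?_, ?_, ?_, ?_, ?_, ?_, ?_, ?_, ?_, ?_, ?_, ?_, ?_, ?_, ?_, ?_, ?_, ?_, ?_, ?_, ?_, ?_, ?_, trivial⟩ <;> decide +kernel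

end Pool.Agent.AddSq.Fa
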