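import Pool.Agent.AddSq.FastDefs

/-!
# Kernel facts: losses in the blocks from 256768 to 271871
-/

namespace Pool.Agent.AddSq.Fa

set_option maxRecDepth 100000

def fl015 : List (Nat × Nat × Nat) :=
   [(8024, 2, 12941), (8028, 2, 12879), (8032, 2, 13011), (8036, 2, 12792), (8040, 2, 12942),
    (8044, 2, 13048), (8048, 2, 12705), (8052, 2, 12791), (8056, 2, 12996), (8060, 2, 13026),
    (8064, 2, 12887), (8068, 2, 12926), (8072, 2, 12821), (8076, 2, 12884), (8080, 2, 12989),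
    (8084, 2, 12939), (8088, 2, 12911), (8092, 2, 12701), (8096, 2, 13016), (8100, 2, 12821),
    (8104, 2, 13101), (8108, 2, 12915), (8112, 2, 13191), (8116, 2, 13034), (8120, 2, 12798),
    (8124, 2, 13067), (8128, 2, 12917), (8132, 2, 12919), (8136, 2, 12955), (8140, 2, 12859),
    (8144, 2, 13124), (8148, 2, 12900), (8152, 2, 13152), (8156, 2, 13037), (8160, 2, 13088),
    (8164, 2, 13094), (8168, 2, 13045), (8172, 2, 13036), (8176, 2, 13111), (8180, 2, 12728),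
    (8184, 2, 13139), (8188, 2, 12981), (8192, 2, 13009), (8196, 2, 13102), (8200, 2, 13110),
    (8204, 2, 13010), (8208, 2, 12926), (8212, 2, 13076), (8216, 2, 13097), (8220, 2, 13018),
    (8224, 2, 12953), (8228, 2, 13037), (8232, 2, 13296), (8236, 2, 13219), (8240, 2, 12975),
    (8244, 2, 12856), (8248, 2, 13161), (8252, 2, 13009), (8256, 2, 13109), (8260, 2, 13012),
    (8264, 2, 13042), (8268, 2, 13171), (8272, 2, 13354), (8276, 2, 13020), (8280, 2, 13075),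
    (8284, 2, 13206), (8288, 2, 13032), (8292, 2, 13245), (8296, 2, 13056), (8300, 2, 13204),
    (8304, 2, 12958), (8308, 2, 13531), (8312, 2, 13255), (8316, 2, 13152), (8320, 2, 13233),
    (8324, 2, 13073), (8328, 2, 13356), (8332, 2, 13074), (8336, 2, 13094), (8340, 2, 13291),
    (8344, 2, 13331), (8348, 2, 13302), (8352, 2, 13229), (8356, 2, 13166), (8360, 2, 13124),
    (8364, 2, 13460), (8368, 2, 13003), (8372, 2, 13300), (8376, 2, 13377), (8380, 2, 13302),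
    (8384, 2, 13301), (8388, 2, 13353), (8392, 2, 13223), (8396, 2, 13283), (8400, 2, 13082),
    (8404, 2, 13291), (8408, 2, 13379), (8412, 2, 13288), (8416, 2, 13224), (8420, 2, 13215),
    (8424, 2, 13295), (8428, 2, 13179), (8432, 2, 13399), (8436, 2, 13233), (8440, 2, 13395),
    (8444, 2, 13315), (8448, 2, 13263), (8452, 2, 13587), (8456, 2, 13216), (8460, 2, 13499),
    (8464, 2, 13222), (8468, 2, 13340), (8472, 2, 13318), (8476, 2, 13436), (8480, 2, 13536),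
    (8484, 2, 13635), (8488, 2, 13211), (8492, 2, 13245)]

theorem ft015 : FT fl015 := by
  refine ⟨?_, ?_, ?_, ?_, ?_, ?_, ?_, ?_, ?_, ?_, ?_, ?_, ?_, ?_, ?_, ?_, ?_, ?_, ?_, ?_, ?_, ?_, ?_, ?_, ?_, ?_, ?_, ?_, ?_, ?_, ?_, ?_, ?_, ?_, ?_, ?_, ?_, ?_, ?_, ?_, ?_, ?_, ?_, ?_, ?_, ?_, ?_, ?_, ?_, ?_, ?_, ?_, ?_, ?_, ?_, ?_, ?_, ?_, ?_, ?_, ?_, ?_, ?_, ?_, ?_, ?_, ?_, ?_, ?_, ?_, ?_, ?_, ?_, ?_, ?_, ?_, ?_, ?_, ?_, ?_, ?_, ?_, ?_, ?_, ?_, ?_, ?_, ?_, ?_, ?_, ?_, ?_, ?_, ?_, ?_, ?_, ?_, ?_, ?_, ?_, ?_, ?_, ?_, ?_, ?_, ?_, ?_, ?_, ?_, ?_, ?_, ?_, ?_, ?_, ?_, ?_, ?_, ?_, trivial⟩ <;> decide +kernel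

end Pool.Agent.AddSq.Fa
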