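import Pool.Agent.AddSq.FastDefs

/-!
# Kernel facts: losses in the blocks from 271872 to 286463
-/

namespace Pool.Agent.AddSq.Fa

set_option maxRecDepth 100000

def fl016 : List (Nat × Nat × Nat) :=
   [(8496, 2, 13410), (8500, 2, 13443), (8504, 2, 13366), (8508, 2, 13256), (8512, 2, 13280),
    (8516, 2, 13216), (8520, 2, 13317), (8524, 2, 13562), (8528, 2, 13499), (8532, 2, 13352),
    (8536, 2, 13261), (8540, 2, 13420), (8544, 2, 13460), (8548, 2, 13406), (8552, 2, 13304),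
    (8556, 2, 13290), (8560, 2, 13406), (8564, 2, 13311), (8568, 2, 13567), (8572, 2, 13310),
    (8576, 2, 13400), (8580, 2, 13305), (8584, 2, 13565), (8588, 2, 13283), (8592, 2, 13615),
    (8596, 2, 13207), (8600, 2, 13427), (8604, 2, 13479), (8608, 2, 13435), (8612, 2, 13256),
    (8616, 2, 13411), (8620, 2, 13560), (8624, 2, 13570), (8628, 2, 13662), (8632, 2, 13203),
    (8636, 2, 13453), (8640, 2, 13375), (8644, 2, 13545), (8648, 2, 13448), (8652, 2, 13037),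
    (8656, 2, 13529), (8660, 2, 13317), (8664, 2, 13320), (8668, 2, 13440), (8672, 2, 13493),
    (8676, 2, 13661), (8680, 2, 13455), (8684, 2, 13529), (8688, 2, 13533), (8692, 2, 13683),
    (8696, 2, 13395), (8700, 2, 13422), (8704, 2, 13454), (8708, 2, 13304), (8712, 2, 13470),
    (8716, 2, 13508), (8720, 2, 13451), (8724, 2, 13215), (8728, 2, 13487), (8732, 2, 13547),
    (8736, 2, 13596), (8740, 2, 13508), (8744, 2, 13401), (8748, 2, 13339), (8752, 2, 13314),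
    (8756, 2, 13456), (8760, 2, 13585), (8764, 2, 13520), (8768, 2, 13506), (8772, 2, 13677),
    (8776, 2, 13662), (8780, 2, 13742), (8784, 2, 13448), (8788, 2, 13582), (8792, 2, 13573),
    (8796, 2, 13766), (8800, 2, 13613), (8804, 2, 13477), (8808, 2, 13549), (8812, 2, 13364),
    (8816, 2, 13429), (8820, 2, 13572), (8824, 2, 13564), (8828, 2, 13711), (8832, 2, 13676),
    (8836, 2, 13461), (8840, 2, 13724), (8844, 2, 13548), (8848, 2, 13678), (8852, 2, 13684),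
    (8856, 2, 13612), (8860, 2, 13800), (8864, 2, 13470), (8868, 2, 13577), (8872, 2, 13637),
    (8876, 2, 13700), (8880, 2, 13856), (8884, 2, 13813), (8888, 2, 13585), (8892, 2, 13770),
    (8896, 2, 13613), (8900, 2, 13721), (8904, 2, 13589), (8908, 2, 13697), (8912, 2, 13530),
    (8916, 2, 13907), (8920, 2, 13929), (8924, 2, 13523), (8928, 2, 13704), (8932, 2, 13717),
    (8936, 2, 13437), (8940, 2, 13551), (8944, 2, 13970), (8948, 2, 13817)]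

theorem ft016 : FT fl016 := by
  refine ⟨?_, ?_, ?_, ?_, ?_, ?_, ?_, ?_, ?_, ?_, ?_, ?_, ?_, ?_, ?_, ?_, ?_, ?_, ?_, ?_, ?_, ?_, ?_, ?_, ?_, ?_, ?_, ?_, ?_, ?_, ?_, ?_, ?_, ?_, ?_, ?_, ?_, ?_, ?_, ?_, ?_, ?_, ?_, ?_, ?_, ?_, ?_, ?_, ?_, ?_, ?_, ?_, ?_, ?_, ?_, ?_, ?_, ?_, ?_, ?_, ?_, ?_, ?_, ?_, ?_, ?_, ?_, ?_, ?_, ?_, ?_, ?_, ?_, ?_, ?_, ?_, ?_, ?_, ?_, ?_, ?_, ?_, ?_, ?_, ?_, ?_, ?_, ?_, ?_, ?_, ?_, ?_, ?_, ?_, ?_, ?_, ?_, ?_, ?_, ?_, ?_, ?_, ?_, ?_, ?_, ?_, ?_, ?_, ?_, ?_, ?_, ?_, ?_, ?_, trivial⟩ <;> decide +kernel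

end Pool.Agent.AddSq.Fa
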