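import Pool.Agent.AddSq.FastDefs

/-!
# Kernel facts: losses in the blocks from 286464 to 300543
-/

namespace Pool.Agent.AddSq.Fa

set_option maxRecDepth 100000

def fl017 : List (Nat × Nat × Nat) :=
   [(8952, 2, 13743), (8956, 2, 13671), (8960, 2, 13642), (8964, 2, 13629), (8968, 2, 13890),
    (8972, 2, 13876), (8976, 2, 13764), (8980, 2, 13810), (8984, 2, 13803), (8988, 2, 13901),
    (8992, 2, 13872), (8996, 2, 13725), (9000, 2, 13884), (9004, 2, 13619), (9008, 2, 13985),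
    (9012, 2, 13854), (9016, 2, 13626), (9020, 2, 13868), (9024, 2, 13757), (9028, 2, 13658),
    (9032, 2, 13722), (9036, 2, 13900), (9040, 2, 13853), (9044, 2, 13545), (9048, 2, 13775),
    (9052, 2, 13709), (9056, 2, 13711), (9060, 2, 13872), (9064, 2, 13913), (9068, 2, 13813),
    (9072, 2, 13956), (9076, 2, 13777), (9080, 2, 13785), (9084, 2, 13761), (9088, 2, 14049),
    (9092, 2, 13781), (9096, 2, 13901), (9100, 2, 13952), (9104, 2, 13940), (9108, 2, 13983),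
    (9112, 2, 13868), (9116, 2, 13890), (9120, 2, 13740), (9124, 2, 13693), (9128, 2, 13759),
    (9132, 2, 13713), (9136, 2, 13855), (9140, 2, 14005), (9144, 2, 13869), (9148, 2, 13884),
    (9152, 2, 13994), (9156, 2, 13703), (9160, 2, 13844), (9164, 2, 14008), (9168, 2, 13876),
    (9172, 2, 13977), (9176, 2, 14179), (9180, 2, 14112), (9184, 2, 13995), (9188, 2, 13862),
    (9192, 2, 13990), (9196, 2, 13833), (9200, 2, 13850), (9204, 2, 14112), (9208, 2, 14066),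
    (9212, 2, 13944), (9216, 2, 14049), (9220, 2, 14307), (9224, 2, 14070), (9228, 2, 13972),
    (9232, 2, 13797), (9236, 2, 13959), (9240, 2, 13947), (9244, 2, 14329), (9248, 2, 13993),
    (9252, 2, 14005), (9256, 2, 14114), (9260, 2, 14257), (9264, 2, 13962), (9268, 2, 14061),
    (9272, 2, 13935), (9276, 2, 14193), (9280, 2, 14016), (9284, 2, 14119), (9288, 2, 14034),
    (9292, 2, 14011), (9296, 2, 13768), (9300, 2, 14137), (9304, 2, 14289), (9308, 2, 13929),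
    (9312, 2, 14056), (9316, 2, 14199), (9320, 2, 14084), (9324, 2, 14235), (9328, 2, 14131),
    (9332, 2, 13980), (9336, 2, 14015), (9340, 2, 13964), (9344, 2, 14328), (9348, 2, 14170),
    (9352, 2, 14122), (9356, 2, 14040), (9360, 2, 14087), (9364, 2, 14258), (9368, 2, 13854),
    (9372, 2, 14264), (9376, 2, 13952), (9380, 2, 14420), (9384, 2, 14180), (9388, 2, 13998)]

theorem ft017 : FT fl017 := by
  refine ⟨?_, ?_, ?_, ?_, ?_, ?_, ?_, ?_, ?_, ?_, ?_, ?_, ?_, ?_, ?_, ?_, ?_, ?_, ?_, ?_, ?_, ?_, ?_, ?_, ?_, ?_, ?_, ?_, ?_, ?_, ?_, ?_, ?_, ?_, ?_, ?_, ?_, ?_, ?_, ?_, ?_, ?_, ?_, ?_, ?_, ?_, ?_, ?_, ?_, ?_, ?_, ?_, ?_, ?_, ?_, ?_, ?_, ?_, ?_, ?_, ?_, ?_, ?_, ?_, ?_, ?_, ?_, ?_, ?_, ?_, ?_, ?_, ?_, ?_, ?_, ?_, ?_, ?_, ?_, ?_, ?_, ?_, ?_, ?_, ?_, ?_, ?_, ?_, ?_, ?_, ?_, ?_, ?_, ?_, ?_, ?_, ?_, ?_, ?_, ?_, ?_, ?_, ?_, ?_, ?_, ?_, ?_, ?_, ?_, ?_, trivial⟩ <;> decide +kernel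

end Pool.Agent.AddSq.Fa
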