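import Pool.Agent.AddSq.FastDefs

/-!
# Kernel facts: losses in the blocks from 300544 to 314239
-/

namespace Pool.Agent.AddSq.Fa

set_option maxRecDepth 100000

def fl018 : List (Nat × Nat × Nat) :=
   [(9392, 2, 14098), (9396, 2, 14199), (9400, 2, 14214), (9404, 2, 14241), (9408, 2, 14288),
    (9412, 2, 13948), (9416, 2, 14221), (9420, 2, 14336), (9424, 2, 14275), (9428, 2, 14133),
    (9432, 2, 14373), (9436, 2, 14131), (9440, 2, 14261), (9444, 2, 14184), (9448, 2, 14268),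
    (9452, 2, 14191), (9456, 2, 14114), (9460, 2, 14255), (9464, 2, 14155), (9468, 2, 14195),
    (9472, 2, 14151), (9476, 2, 14223), (9480, 2, 14189), (9484, 2, 14384), (9488, 2, 14070),
    (9492, 2, 14143), (9496, 2, 14305), (9500, 2, 14100), (9504, 2, 14380), (9508, 2, 14069),
    (9512, 2, 14103), (9516, 2, 14215), (9520, 2, 14214), (9524, 2, 14268), (9528, 2, 14464),
    (9532, 2, 14409), (9536, 2, 14063), (9540, 2, 14251), (9544, 2, 14228), (9548, 2, 14229),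
    (9552, 2, 14318), (9556, 2, 14273), (9560, 2, 14194), (9564, 2, 14255), (9568, 2, 14286),
    (9572, 2, 14487), (9576, 2, 14332), (9580, 2, 14277), (9584, 2, 14447), (9588, 2, 14426),
    (9592, 2, 14314), (9596, 2, 14259), (9600, 2, 14500), (9604, 2, 14287), (9608, 2, 14014),
    (9612, 2, 14463), (9616, 2, 14255), (9620, 2, 14257), (9624, 2, 14173), (9628, 2, 14376),
    (9632, 2, 14297), (9636, 2, 14528), (9640, 2, 14250), (9644, 2, 14111), (9648, 2, 14406),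
    (9652, 2, 14386), (9656, 2, 14316), (9660, 2, 14158), (9664, 2, 14712), (9668, 2, 14234),
    (9672, 2, 14442), (9676, 2, 14339), (9680, 2, 14102), (9684, 2, 14249), (9688, 2, 14340),
    (9692, 2, 14393), (9696, 2, 14350), (9700, 2, 14342), (9704, 2, 14393), (9708, 2, 14530),
    (9712, 2, 14228), (9716, 2, 14567), (9720, 2, 14395), (9724, 2, 14193), (9728, 2, 14395),
    (9732, 2, 14347), (9736, 2, 14646), (9740, 2, 14360), (9744, 2, 14230), (9748, 2, 14496),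
    (9752, 2, 14383), (9756, 2, 14313), (9760, 2, 14437), (9764, 2, 14256), (9768, 2, 14380),
    (9772, 2, 14302), (9776, 2, 14419), (9780, 2, 14488), (9784, 2, 14252), (9788, 2, 14371),
    (9792, 2, 14308), (9796, 2, 14411), (9800, 2, 14223), (9804, 2, 14219), (9808, 2, 14721),
    (9812, 2, 14352), (9816, 2, 14435)]

theorem ft018 : FT fl018 := by
  refine ⟨?_, ?_, ?_, ?_, ?_, ?_, ?_, ?_, ?_, ?_, ?_, ?_, ?_, ?_, ?_, ?_, ?_, ?_, ?_, ?_, ?_, ?_, ?_, ?_, ?_, ?_, ?_, ?_, ?_, ?_, ?_, ?_, ?_, ?_, ?_, ?_, ?_, ?_, ?_, ?_, ?_, ?_, ?_, ?_, ?_, ?_, ?_, ?_, ?_, ?_, ?_, ?_, ?_, ?_, ?_, ?_, ?_, ?_, ?_, ?_, ?_, ?_, ?_, ?_, ?_, ?_, ?_, ?_, ?_, ?_, ?_, ?_, ?_, ?_, ?_, ?_, ?_, ?_, ?_, ?_, ?_, ?_, ?_, ?_, ?_, ?_, ?_, ?_, ?_, ?_, ?_, ?_, ?_, ?_, ?_, ?_, ?_, ?_, ?_, ?_, ?_, ?_, ?_, ?_, ?_, ?_, ?_, trivial⟩ <;> decide +kernel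

end Pool.Agent.AddSq.Fa
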