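import Pool.Agent.AddSq.FastDefs

/-!
# Kernel facts: losses in the blocks from 314240 to 327551
-/

namespace Pool.Agent.AddSq.Fa

set_option maxRecDepth 100000

def fl019 : List (Nat × Nat × Nat) :=
   [(9820, 2, 14554), (9824, 2, 14724), (9828, 2, 14609), (9832, 2, 14392), (9836, 2, 14414),
    (9840, 2, 14734), (9844, 2, 14400), (9848, 2, 14681), (9852, 2, 14493), (9856, 2, 14642),
    (9860, 2, 14394), (9864, 2, 14323), (9868, 2, 14407), (9872, 2, 14465), (9876, 2, 14423),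
    (9880, 2, 14466), (9884, 2, 14106), (9888, 2, 14673), (9892, 2, 14619), (9896, 2, 14678),
    (9900, 2, 14402), (9904, 2, 14385), (9908, 2, 14441), (9912, 2, 14445), (9916, 2, 14520),
    (9920, 2, 14601), (9924, 2, 14422), (9928, 2, 14725), (9932, 2, 14428), (9936, 2, 14538),
    (9940, 2, 14649), (9944, 2, 14670), (9948, 2, 14586), (9952, 2, 14499), (9956, 2, 14521),
    (9960, 2, 14608), (9964, 2, 14421), (9968, 2, 14518), (9972, 2, 14718), (9976, 2, 14520),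
    (9980, 2, 14729), (9984, 2, 14322), (9988, 2, 14593), (9992, 2, 14785), (9996, 2, 14580),
    (10000, 2, 14752), (10004, 2, 14536), (10008, 2, 14534), (10012, 2, 14799),
    (10016, 2, 14604), (10020, 2, 14584), (10024, 2, 14538), (10028, 2, 14595),
    (10032, 2, 14750), (10036, 2, 14456), (10040, 2, 14539), (10044, 2, 14850),
    (10048, 2, 14340), (10052, 2, 14794), (10056, 2, 14731), (10060, 2, 14781),
    (10064, 2, 14565), (10068, 2, 14648), (10072, 2, 14895), (10076, 2, 14638),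
    (10080, 2, 14686), (10084, 2, 14387), (10088, 2, 14876), (10092, 2, 14627),
    (10096, 2, 14668), (10100, 2, 14885), (10104, 2, 14658), (10108, 2, 14551),
    (10112, 2, 14842), (10116, 2, 14509), (10120, 2, 14458), (10124, 2, 14689),
    (10128, 2, 14643), (10132, 2, 14819), (10136, 2, 14889), (10140, 2, 14754),
    (10144, 2, 14623), (10148, 2, 14812), (10152, 2, 14450), (10156, 2, 14513),
    (10160, 2, 14676), (10164, 2, 14672), (10168, 2, 14645), (10172, 2, 14770),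
    (10176, 2, 14703), (10180, 2, 14840), (10184, 2, 14855), (10188, 2, 14667),
    (10192, 2, 14608), (10196, 2, 14906), (10200, 2, 14701), (10204, 2, 14742),
    (10208, 2, 14624), (10212, 2, 14900), (10216, 2, 14767), (10220, 2, 14719),
    (10224, 2, 14969), (10228, 2, 14826), (10232, 2, 14863)]

theorem ft019 : FT fl019 := by
  refine ⟨?_, ?_, ?_, ?_, ?_, ?_, ?_, ?_, ?_, ?_, ?_, ?_, ?_, ?_, ?_, ?_, ?_, ?_, ?_, ?_, ?_, ?_, ?_, ?_, ?_, ?_, ?_, ?_, ?_, ?_, ?_, ?_, ?_, ?_, ?_, ?_, ?_, ?_, ?_, ?_, ?_, ?_, ?_, ?_, ?_, ?_, ?_, ?_, ?_, ?_, ?_, ?_, ?_, ?_, ?_, ?_, ?_, ?_, ?_, ?_, ?_, ?_, ?_, ?_, ?_, ?_, ?_, ?_, ?_, ?_, ?_, ?_, ?_, ?_, ?_, ?_, ?_, ?_, ?_, ?_, ?_, ?_, ?_, ?_, ?_, ?_, ?_, ?_, ?_, ?_, ?_, ?_, ?_, ?_, ?_, ?_, ?_, ?_, ?_, ?_, ?_, ?_, ?_, ?_, trivial⟩ <;> decide +kernel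

end Pool.Agent.AddSq.Fa
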