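import Pool.Agent.AddSq.FastDefs

/-!
# Kernel facts: losses in the blocks from 327552 to 340479
-/

namespace Pool.Agent.AddSq.Fa

set_option maxRecDepth 100000

def fl020 : List (Nat × Nat × Nat) :=
   [(10236, 2, 14948), (10240, 2, 14626), (10244, 2, 14754), (10248, 2, 14730),
    (10252, 2, 14687), (10256, 2, 14711), (10260, 2, 14725), (10264, 2, 14789),
    (10268, 2, 14744), (10272, 2, 14842), (10276, 2, 14950), (10280, 2, 14767),
    (10284, 2, 15005), (10288, 2, 14898), (10292, 2, 14747), (10296, 2, 14897),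
    (10300, 2, 14914), (10304, 2, 14753), (10308, 2, 14766), (10312, 2, 14696),
    (10316, 2, 14699), (10320, 2, 14904), (10324, 2, 14829), (10328, 2, 14732),
    (10332, 2, 14679), (10336, 2, 14753), (10340, 2, 14582), (10344, 2, 14765),
    (10348, 2, 14617), (10352, 2, 14896), (10356, 2, 14918), (10360, 2, 15027),
    (10364, 2, 14961), (10368, 2, 14852), (10372, 2, 14959), (10376, 2, 14940),
    (10380, 2, 14741), (10384, 2, 14775), (10388, 2, 15021), (10392, 2, 15147),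
    (10396, 2, 14929), (10400, 2, 15042), (10404, 2, 15014), (10408, 2, 14992),
    (10412, 2, 14959), (10416, 2, 15065), (10420, 2, 15015), (10424, 2, 14897),
    (10428, 2, 14802), (10432, 2, 14802), (10436, 2, 14927), (10440, 2, 14707),
    (10444, 2, 14923), (10448, 2, 14885), (10452, 2, 15254), (10456, 2, 14599),
    (10460, 2, 14884), (10464, 2, 14851), (10468, 2, 14925), (10472, 2, 14863),
    (10476, 2, 14802), (10480, 2, 14808), (10484, 2, 14936), (10488, 2, 14904),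
    (10492, 2, 15023), (10496, 2, 14898), (10500, 2, 14973), (10504, 2, 15038),
    (10508, 2, 15042), (10512, 2, 15057), (10516, 2, 15207), (10520, 2, 14761),
    (10524, 2, 15128), (10528, 2, 14940), (10532, 2, 15187), (10536, 2, 14713),
    (10540, 2, 15150), (10544, 2, 15105), (10548, 2, 14915), (10552, 2, 15138),
    (10556, 2, 15019), (10560, 2, 14948), (10564, 2, 15105), (10568, 2, 15015),
    (10572, 2, 15274), (10576, 2, 14947), (10580, 2, 15057), (10584, 2, 14980),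
    (10588, 2, 14874), (10592, 2, 15099), (10596, 2, 15168), (10600, 2, 15117),
    (10604, 2, 15267), (10608, 2, 14836), (10612, 2, 15076), (10616, 2, 15050),
    (10620, 2, 15134), (10624, 2, 15117), (10628, 2, 15023), (10632, 2, 14815),
    (10636, 2, 15038)]

theorem ft020 : FT fl020 := by
  refine ⟨?_, ?_, ?_, ?_, ?_, ?_, ?_, ?_, ?_, ?_, ?_, ?_, ?_, ?_, ?_, ?_, ?_, ?_, ?_, ?_, ?_, ?_, ?_, ?_, ?_, ?_, ?_, ?_, ?_, ?_, ?_, ?_, ?_, ?_, ?_, ?_, ?_, ?_, ?_, ?_, ?_, ?_, ?_, ?_, ?_, ?_, ?_, ?_, ?_, ?_, ?_, ?_, ?_, ?_, ?_, ?_, ?_, ?_, ?_, ?_, ?_, ?_, ?_, ?_, ?_, ?_, ?_, ?_, ?_, ?_, ?_, ?_, ?_, ?_, ?_, ?_, ?_, ?_, ?_, ?_, ?_, ?_, ?_, ?_, ?_, ?_, ?_, ?_, ?_, ?_, ?_, ?_, ?_, ?_, ?_, ?_, ?_, ?_, ?_, ?_, ?_, trivial⟩ <;> decide +kernel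

end Pool.Agent.AddSq.Fa
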