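import Pool.Agent.AddSq.FastDefs

/-!
# Kernel facts: losses in the blocks from 340480 to 353023
-/

namespace Pool.Agent.AddSq.Fa

set_option maxRecDepth 100000

def fl021 : List (Nat × Nat × Nat) :=
   [(10640, 2, 15247), (10644, 2, 15060), (10648, 2, 15279), (10652, 2, 15034),
    (10656, 2, 15123), (10660, 2, 14934), (10664, 2, 15219), (10668, 2, 14950),
    (10672, 2, 15003), (10676, 2, 15222), (10680, 2, 15252), (10684, 2, 15023),
    (10688, 2, 15134), (10692, 2, 15052), (10696, 2, 15151), (10700, 2, 15023),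
    (10704, 2, 15281), (10708, 2, 15038), (10712, 2, 15297), (10716, 2, 15065),
    (10720, 2, 15268), (10724, 2, 15156), (10728, 2, 15194), (10732, 2, 15015),
    (10736, 2, 15400), (10740, 2, 15127), (10744, 2, 15129), (10748, 2, 15036),
    (10752, 2, 15220), (10756, 2, 15192), (10760, 2, 15014), (10764, 2, 14997),
    (10768, 2, 15323), (10772, 2, 15096), (10776, 2, 14999), (10780, 2, 15319),
    (10784, 2, 14942), (10788, 2, 15141), (10792, 2, 14929), (10796, 2, 15393),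
    (10800, 2, 15217), (10804, 2, 15199), (10808, 2, 15164), (10812, 2, 15016),
    (10816, 2, 15300), (10820, 2, 15190), (10824, 2, 15321), (10828, 2, 15276),
    (10832, 2, 15299), (10836, 2, 15021), (10840, 2, 15310), (10844, 2, 15321),
    (10848, 2, 15213), (10852, 2, 15326), (10856, 2, 15076), (10860, 2, 15299),
    (10864, 2, 15358), (10868, 2, 15316), (10872, 2, 15342), (10876, 2, 15413),
    (10880, 2, 15145), (10884, 2, 15213), (10888, 2, 15165), (10892, 2, 15284),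
    (10896, 2, 15232), (10900, 2, 15474), (10904, 2, 15290), (10908, 2, 15231),
    (10912, 2, 15207), (10916, 2, 15148), (10920, 2, 15289), (10924, 2, 15338),
    (10928, 2, 15481), (10932, 2, 15230), (10936, 2, 15325), (10940, 2, 15355),
    (10944, 2, 15369), (10948, 2, 15418), (10952, 2, 15302), (10956, 2, 15296),
    (10960, 2, 15278), (10964, 2, 15253), (10968, 2, 15309), (10972, 2, 15310),
    (10976, 2, 15177), (10980, 2, 15607), (10984, 2, 15312), (10988, 2, 15362),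
    (10992, 2, 15428), (10996, 2, 15284), (11000, 2, 15460), (11004, 2, 15527),
    (11008, 2, 15298), (11012, 2, 15407), (11016, 2, 15120), (11020, 2, 15426),
    (11024, 2, 15262), (11028, 2, 15295)]

theorem ft021 : FT fl021 := by
  refine ⟨?_, ?_, ?_, ?_, ?_, ?_, ?_, ?_, ?_, ?_, ?_, ?_, ?_, ?_, ?_, ?_, ?_, ?_, ?_, ?_, ?_, ?_, ?_, ?_, ?_, ?_, ?_, ?_, ?_, ?_, ?_, ?_, ?_, ?_, ?_, ?_, ?_, ?_, ?_, ?_, ?_, ?_, ?_, ?_, ?_, ?_, ?_, ?_, ?_, ?_, ?_, ?_, ?_, ?_, ?_, ?_, ?_, ?_, ?_, ?_, ?_, ?_, ?_, ?_, ?_, ?_, ?_, ?_, ?_, ?_, ?_, ?_, ?_, ?_, ?_, ?_, ?_, ?_, ?_, ?_, ?_, ?_, ?_, ?_, ?_, ?_, ?_, ?_, ?_, ?_, ?_, ?_, ?_, ?_, ?_, ?_, ?_, ?_, trivial⟩ <;> decide +kernel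

end Pool.Agent.AddSq.Fa
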