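import Pool.Agent.AddSq.FastDefs

/-!
# Kernel facts: losses in the blocks from 353024 to 365311
-/

namespace Pool.Agent.AddSq.Fa

set_option maxRecDepth 100000

def fl022 : List (Nat × Nat × Nat) :=
   [(11032, 2, 15380), (11036, 2, 15245), (11040, 2, 15482), (11044, 2, 15362),
    (11048, 2, 15573), (11052, 2, 15510), (11056, 2, 15286), (11060, 2, 15296),
    (11064, 2, 15585), (11068, 2, 15444), (11072, 2, 15559), (11076, 2, 15259),
    (11080, 2, 15497), (11084, 2, 15354), (11088, 2, 15347), (11092, 2, 15494),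
    (11096, 2, 15399), (11100, 2, 15539), (11104, 2, 15510), (11108, 2, 15520),
    (11112, 2, 15467), (11116, 2, 15460), (11120, 2, 15590), (11124, 2, 15473),
    (11128, 2, 15665), (11132, 2, 15399), (11136, 2, 15635), (11140, 2, 15375),
    (11144, 2, 15438), (11148, 2, 15423), (11152, 2, 15503), (11156, 2, 15287),
    (11160, 2, 15593), (11164, 2, 15397), (11168, 2, 15627), (11172, 2, 15708),
    (11176, 2, 15639), (11180, 2, 15416), (11184, 2, 15728), (11188, 2, 15326),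
    (11192, 2, 15562), (11196, 2, 15705), (11200, 2, 15306), (11204, 2, 15538),
    (11208, 2, 15349), (11212, 2, 15770), (11216, 2, 15481), (11220, 2, 15429),
    (11224, 2, 15786), (11228, 2, 15317), (11232, 2, 15693), (11236, 2, 15467),
    (11240, 2, 15522), (11244, 2, 15354), (11248, 2, 15489), (11252, 2, 15358),
    (11256, 2, 15653), (11260, 2, 15742), (11264, 2, 15423), (11268, 2, 15572),
    (11272, 2, 15526), (11276, 2, 15801), (11280, 2, 15496), (11284, 2, 15618),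
    (11288, 2, 15176), (11292, 2, 15602), (11296, 2, 15758), (11300, 2, 15620),
    (11304, 2, 15513), (11308, 2, 15739), (11312, 2, 15395), (11316, 2, 15642),
    (11320, 2, 15389), (11324, 2, 15284), (11328, 2, 15571), (11332, 2, 15341),
    (11336, 2, 15698), (11340, 2, 15512), (11344, 2, 15668), (11348, 2, 15755),
    (11352, 2, 15441), (11356, 2, 15464), (11360, 2, 15724), (11364, 2, 15820),
    (11368, 2, 15583), (11372, 2, 15766), (11376, 2, 15705), (11380, 2, 15620),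
    (11384, 2, 15523), (11388, 2, 15697), (11392, 2, 15807), (11396, 2, 15695),
    (11400, 2, 15757), (11404, 2, 15641), (11408, 2, 15678), (11412, 2, 15694)]

theorem ft022 : FT fl022 := by
  refine ⟨?_, ?_, ?_, ?_, ?_, ?_, ?_, ?_, ?_, ?_, ?_, ?_, ?_, ?_, ?_, ?_, ?_, ?_, ?_, ?_, ?_, ?_, ?_, ?_, ?_, ?_, ?_, ?_, ?_, ?_, ?_, ?_, ?_, ?_, ?_, ?_, ?_, ?_, ?_, ?_, ?_, ?_, ?_, ?_, ?_, ?_, ?_, ?_, ?_, ?_, ?_, ?_, ?_, ?_, ?_, ?_, ?_, ?_, ?_, ?_, ?_, ?_, ?_, ?_, ?_, ?_, ?_, ?_, ?_, ?_, ?_, ?_, ?_, ?_, ?_, ?_, ?_, ?_, ?_, ?_, ?_, ?_, ?_, ?_, ?_, ?_, ?_, ?_, ?_, ?_, ?_, ?_, ?_, ?_, ?_, ?_, trivial⟩ <;> decide +kernel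

end Pool.Agent.AddSq.Fa
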