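import Pool.Agent.AddSq.FastDefs

/-!
# Kernel facts: losses in the blocks from 365312 to 377343
-/

namespace Pool.Agent.AddSq.Fa

set_option maxRecDepth 100000

def fl023 : List (Nat × Nat × Nat) :=
   [(11416, 2, 15635), (11420, 2, 16020), (11424, 2, 15741), (11428, 2, 15840),
    (11432, 2, 15892), (11436, 2, 15568), (11440, 2, 15440), (11444, 2, 15793),
    (11448, 2, 15623), (11452, 2, 15740), (11456, 2, 15776), (11460, 2, 15764),
    (11464, 2, 15792), (11468, 2, 15820), (11472, 2, 15580), (11476, 2, 15405),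
    (11480, 2, 15908), (11484, 2, 15623), (11488, 2, 15921), (11492, 2, 15688),
    (11496, 2, 15551), (11500, 2, 15784), (11504, 2, 15959), (11508, 2, 15826),
    (11512, 2, 15737), (11516, 2, 15713), (11520, 2, 15727), (11524, 2, 15854),
    (11528, 2, 16109), (11532, 2, 15764), (11536, 2, 15631), (11540, 2, 15651),
    (11544, 2, 15716), (11548, 2, 15738), (11552, 2, 15757), (11556, 2, 15858),
    (11560, 2, 15733), (11564, 2, 15952), (11568, 2, 15854), (11572, 2, 15943),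
    (11576, 2, 15702), (11580, 2, 15723), (11584, 2, 15917), (11588, 2, 15598),
    (11592, 2, 15997), (11596, 2, 15760), (11600, 2, 15688), (11604, 2, 15742),
    (11608, 2, 15751), (11612, 2, 15571), (11616, 2, 15704), (11620, 2, 15766),
    (11624, 2, 15960), (11628, 2, 15576), (11632, 2, 16014), (11636, 2, 15920),
    (11640, 2, 15766), (11644, 2, 15714), (11648, 2, 15898), (11652, 2, 15635),
    (11656, 2, 15926), (11660, 2, 16039), (11664, 2, 16130), (11668, 2, 15882),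
    (11672, 2, 15897), (11676, 2, 15925), (11680, 2, 15953), (11684, 2, 15880),
    (11688, 2, 15706), (11692, 2, 16276), (11696, 2, 15912), (11700, 2, 15852),
    (11704, 2, 15965), (11708, 2, 15894), (11712, 2, 15918), (11716, 2, 15800),
    (11720, 2, 15839), (11724, 2, 16081), (11728, 2, 15948), (11732, 2, 15978),
    (11736, 2, 16015), (11740, 2, 15872), (11744, 2, 16129), (11748, 2, 15970),
    (11752, 2, 15951), (11756, 2, 15823), (11760, 2, 15546), (11764, 2, 15887),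
    (11768, 2, 16061), (11772, 2, 16152), (11776, 2, 16041), (11780, 2, 15709),
    (11784, 2, 15853), (11788, 2, 15918)]

theorem ft023 : FT fl023 := by
  refine ⟨?_, ?_, ?_, ?_, ?_, ?_, ?_, ?_, ?_, ?_, ?_, ?_, ?_, ?_, ?_, ?_, ?_, ?_, ?_, ?_, ?_, ?_, ?_, ?_, ?_, ?_, ?_, ?_, ?_, ?_, ?_, ?_, ?_, ?_, ?_, ?_, ?_, ?_, ?_, ?_, ?_, ?_, ?_, ?_, ?_, ?_, ?_, ?_, ?_, ?_, ?_, ?_, ?_, ?_, ?_, ?_, ?_, ?_, ?_, ?_, ?_, ?_, ?_, ?_, ?_, ?_, ?_, ?_, ?_, ?_, ?_, ?_, ?_, ?_, ?_, ?_, ?_, ?_, ?_, ?_, ?_, ?_, ?_, ?_, ?_, ?_, ?_, ?_, ?_, ?_, ?_, ?_, ?_, ?_, trivial⟩ <;> decide +kernel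

end Pool.Agent.AddSq.Fa
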