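import Pool.Agent.AddSq.FastDefs

/-!
# Kernel facts: losses in the blocks from 377344 to 389119
-/

namespace Pool.Agent.AddSq.Fa

set_option maxRecDepth 100000

def fl024 : List (Nat × Nat × Nat) :=
   [(11792, 2, 15793), (11796, 2, 15790), (11800, 2, 15738), (11804, 2, 16139),
    (11808, 2, 16122), (11812, 2, 16030), (11816, 2, 16027), (11820, 2, 15660),
    (11824, 2, 16073), (11828, 2, 16024), (11832, 2, 16022), (11836, 2, 15837),
    (11840, 2, 16106), (11844, 2, 16206), (11848, 2, 15973), (11852, 2, 16071),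
    (11856, 2, 15940), (11860, 2, 16277), (11864, 2, 15843), (11868, 2, 15985),
    (11872, 2, 16233), (11876, 2, 16137), (11880, 2, 16038), (11884, 2, 15899),
    (11888, 2, 15924), (11892, 2, 15740), (11896, 2, 16073), (11900, 2, 15927),
    (11904, 2, 15992), (11908, 2, 16135), (11912, 2, 16228), (11916, 2, 16010),
    (11920, 2, 16219), (11924, 2, 15856), (11928, 2, 16123), (11932, 2, 15884),
    (11936, 2, 15899), (11940, 2, 15989), (11944, 2, 16207), (11948, 2, 16114),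
    (11952, 2, 15984), (11956, 2, 15977), (11960, 2, 16062), (11964, 2, 15990),
    (11968, 2, 16227), (11972, 2, 15952), (11976, 2, 16146), (11980, 2, 16225),
    (11984, 2, 15975), (11988, 2, 16100), (11992, 2, 16196), (11996, 2, 16195),
    (12000, 2, 16008), (12004, 2, 16365), (12008, 2, 16225), (12012, 2, 16169),
    (12016, 2, 16123), (12020, 2, 16157), (12024, 2, 15826), (12028, 2, 16080),
    (12032, 2, 16113), (12036, 2, 16253), (12040, 2, 16153), (12044, 2, 16040),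
    (12048, 2, 16050), (12052, 2, 16274), (12056, 2, 16106), (12060, 2, 16180),
    (12064, 2, 16030), (12068, 2, 16305), (12072, 2, 16177), (12076, 2, 16112),
    (12080, 2, 16324), (12084, 2, 16412), (12088, 2, 16146), (12092, 2, 16359),
    (12096, 2, 16056), (12100, 2, 16092), (12104, 2, 16209), (12108, 2, 16033),
    (12112, 2, 16350), (12116, 2, 16089), (12120, 2, 16242), (12124, 2, 16245),
    (12128, 2, 16108), (12132, 2, 16401), (12136, 2, 16091), (12140, 2, 16263),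
    (12144, 2, 16131), (12148, 2, 16117), (12152, 2, 16046), (12156, 2, 16357)]

theorem ft024 : FT fl024 := by
  refine ⟨?_, ?_, ?_, ?_, ?_, ?_, ?_, ?_, ?_, ?_, ?_, ?_, ?_, ?_, ?_, ?_, ?_, ?_, ?_, ?_, ?_, ?_, ?_, ?_, ?_, ?_, ?_, ?_, ?_, ?_, ?_, ?_, ?_, ?_, ?_, ?_, ?_, ?_, ?_, ?_, ?_, ?_, ?_, ?_, ?_, ?_, ?_, ?_, ?_, ?_, ?_, ?_, ?_, ?_, ?_, ?_, ?_, ?_, ?_, ?_, ?_, ?_, ?_, ?_, ?_, ?_, ?_, ?_, ?_, ?_, ?_, ?_, ?_, ?_, ?_, ?_, ?_, ?_, ?_, ?_, ?_, ?_, ?_, ?_, ?_, ?_, ?_, ?_, ?_, ?_, ?_, ?_, trivial⟩ <;> decide +kernel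

end Pool.Agent.AddSq.Fa
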