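import Pool.Agent.AddSq.FastDefs

/-!
# Kernel facts: losses in the blocks from 389120 to 400639
-/

namespace Pool.Agent.AddSq.Fa

set_option maxRecDepth 100000

def fl025 : List (Nat × Nat × Nat) :=
   [(12160, 2, 16267), (12164, 2, 16207), (12168, 2, 16278), (12172, 2, 16105),
    (12176, 2, 16308), (12180, 2, 16093), (12184, 2, 16237), (12188, 2, 16410),
    (12192, 2, 16041), (12196, 2, 16394), (12200, 2, 16240), (12204, 2, 16426),
    (12208, 2, 16246), (12212, 2, 16287), (12216, 2, 16449), (12220, 2, 16415),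
    (12224, 2, 16306), (12228, 2, 16485), (12232, 2, 16308), (12236, 2, 16108),
    (12240, 2, 16343), (12244, 2, 16394), (12248, 2, 16319), (12252, 2, 16257),
    (12256, 2, 16322), (12260, 2, 16205), (12264, 2, 16399), (12268, 2, 16343),
    (12272, 2, 16402), (12276, 2, 16325), (12280, 2, 16367), (12284, 2, 16398),
    (12288, 2, 16455), (12292, 2, 16315), (12296, 2, 16243), (12300, 2, 16298),
    (12304, 2, 16250), (12308, 2, 16410), (12312, 2, 16437), (12316, 2, 16308),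
    (12320, 2, 16184), (12324, 2, 16058), (12328, 2, 16342), (12332, 2, 16560),
    (12336, 2, 16491), (12340, 2, 16282), (12344, 2, 16668), (12348, 2, 16253),
    (12352, 2, 16327), (12356, 2, 16585), (12360, 2, 16545), (12364, 2, 16372),
    (12368, 2, 16541), (12372, 2, 16249), (12376, 2, 16391), (12380, 2, 16454),
    (12384, 2, 16482), (12388, 2, 16328), (12392, 2, 16522), (12396, 2, 16322),
    (12400, 2, 16385), (12404, 2, 16116), (12408, 2, 16403), (12412, 2, 16245),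
    (12416, 2, 16437), (12420, 2, 16365), (12424, 2, 16497), (12428, 2, 16463),
    (12432, 2, 16405), (12436, 2, 16530), (12440, 2, 16552), (12444, 2, 16341),
    (12448, 2, 16487), (12452, 2, 16293), (12456, 2, 16533), (12460, 2, 16484),
    (12464, 2, 16456), (12468, 2, 16547), (12472, 2, 16479), (12476, 2, 16554),
    (12480, 2, 16330), (12484, 2, 16383), (12488, 2, 16442), (12492, 2, 16355),
    (12496, 2, 16222), (12500, 2, 16355), (12504, 2, 16537), (12508, 2, 16525),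
    (12512, 2, 16570), (12516, 2, 16569)]

theorem ft025 : FT fl025 := by
  refine ⟨?_, ?_, ?_, ?_, ?_, ?_, ?_, ?_, ?_, ?_, ?_, ?_, ?_, ?_, ?_, ?_, ?_, ?_, ?_, ?_, ?_, ?_, ?_, ?_, ?_, ?_, ?_, ?_, ?_, ?_, ?_, ?_, ?_, ?_, ?_, ?_, ?_, ?_, ?_, ?_, ?_, ?_, ?_, ?_, ?_, ?_, ?_, ?_, ?_, ?_, ?_, ?_, ?_, ?_, ?_, ?_, ?_, ?_, ?_, ?_, ?_, ?_, ?_, ?_, ?_, ?_, ?_, ?_, ?_, ?_, ?_, ?_, ?_, ?_, ?_, ?_, ?_, ?_, ?_, ?_, ?_, ?_, ?_, ?_, ?_, ?_, ?_, ?_, ?_, ?_, trivial⟩ <;> decide +kernel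

end Pool.Agent.AddSq.Fa
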