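import Pool.Agent.AddSq.FastDefs

/-!
# Kernel facts: losses in the blocks from 400640 to 411903
-/

namespace Pool.Agent.AddSq.Fa

set_option maxRecDepth 100000

def fl026 : List (Nat × Nat × Nat) :=
   [(12520, 2, 16614), (12524, 2, 16562), (12528, 2, 16583), (12532, 2, 16518),
    (12536, 2, 16430), (12540, 2, 16529), (12544, 2, 16746), (12548, 2, 16481),
    (12552, 2, 16585), (12556, 2, 16329), (12560, 2, 16606), (12564, 2, 16558),
    (12568, 2, 16528), (12572, 2, 16615), (12576, 2, 16439), (12580, 2, 16293),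
    (12584, 2, 16482), (12588, 2, 16542), (12592, 2, 16432), (12596, 2, 16162),
    (12600, 2, 16296), (12604, 2, 16395), (12608, 2, 16320), (12612, 2, 16441),
    (12616, 2, 16561), (12620, 2, 17423), (12624, 2, 16677), (12628, 2, 16223),
    (12632, 2, 16622), (12636, 2, 16537), (12640, 2, 16414), (12644, 2, 16619),
    (12648, 2, 16341), (12652, 2, 16617), (12656, 2, 16514), (12660, 2, 16639),
    (12664, 2, 16750), (12668, 2, 16452), (12672, 2, 16423), (12676, 2, 16582),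
    (12680, 2, 16668), (12684, 2, 16526), (12688, 2, 16519), (12692, 2, 16536),
    (12696, 2, 16867), (12700, 2, 16574), (12704, 2, 16760), (12708, 2, 16449),
    (12712, 2, 16599), (12716, 2, 16450), (12720, 2, 16645), (12724, 2, 16604),
    (12728, 2, 16543), (12732, 2, 16476), (12736, 2, 16553), (12740, 2, 16609),
    (12744, 2, 16780), (12748, 2, 16540), (12752, 2, 16807), (12756, 2, 16435),
    (12760, 2, 16821), (12764, 2, 16838), (12768, 2, 16602), (12772, 2, 16445),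
    (12776, 2, 16618), (12780, 2, 16527), (12784, 2, 16855), (12788, 2, 16567),
    (12792, 2, 16654), (12796, 2, 16723), (12800, 2, 16576), (12804, 2, 16629),
    (12808, 2, 16745), (12812, 2, 16638), (12816, 2, 16652), (12820, 2, 16430),
    (12824, 2, 16935), (12828, 2, 16689), (12832, 2, 16662), (12836, 2, 16683),
    (12840, 2, 16709), (12844, 2, 16980), (12848, 2, 16868), (12852, 2, 16729),
    (12856, 2, 16667), (12860, 2, 16815), (12864, 2, 16776), (12868, 2, 16582)]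

theorem ft026 : FT fl026 := by
  refine ⟨?_, ?_, ?_, ?_, ?_, ?_, ?_, ?_, ?_, ?_, ?_, ?_, ?_, ?_, ?_, ?_, ?_, ?_, ?_, ?_, ?_, ?_, ?_, ?_, ?_, ?_, ?_, ?_, ?_, ?_, ?_, ?_, ?_, ?_, ?_, ?_, ?_, ?_, ?_, ?_, ?_, ?_, ?_, ?_, ?_, ?_, ?_, ?_, ?_, ?_, ?_, ?_, ?_, ?_, ?_, ?_, ?_, ?_, ?_, ?_, ?_, ?_, ?_, ?_, ?_, ?_, ?_, ?_, ?_, ?_, ?_, ?_, ?_, ?_, ?_, ?_, ?_, ?_, ?_, ?_, ?_, ?_, ?_, ?_, ?_, ?_, ?_, ?_, trivial⟩ <;> decide +kernel

end Pool.Agent.AddSq.Fa
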