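import Pool.Agent.AddSq.FastDefs

/-!
# Kernel facts: losses in the blocks from 411904 to 422911
-/

namespace Pool.Agent.AddSq.Fa

set_option maxRecDepth 100000

def fl027 : List (Nat × Nat × Nat) :=
   [(12872, 2, 16457), (12876, 2, 16896), (12880, 2, 16949), (12884, 2, 16820),
    (12888, 2, 16887), (12892, 2, 16893), (12896, 2, 16749), (12900, 2, 16719),
    (12904, 2, 16751), (12908, 2, 16781), (12912, 2, 16598), (12916, 2, 16889),
    (12920, 2, 16409), (12924, 2, 16685), (12928, 2, 16666), (12932, 2, 16744),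
    (12936, 2, 16588), (12940, 2, 16861), (12944, 2, 16607), (12948, 2, 16853),
    (12952, 2, 16598), (12956, 2, 16706), (12960, 2, 16859), (12964, 2, 16641),
    (12968, 2, 17010), (12972, 2, 16722), (12976, 2, 16737), (12980, 2, 16820),
    (12984, 2, 16767), (12988, 2, 16616), (12992, 2, 16787), (12996, 2, 16966),
    (13000, 2, 16540), (13004, 2, 16727), (13008, 2, 16708), (13012, 2, 16651),
    (13016, 2, 17081), (13020, 2, 17009), (13024, 2, 16857), (13028, 2, 16862),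
    (13032, 2, 16798), (13036, 2, 16908), (13040, 2, 16814), (13044, 2, 16890),
    (13048, 2, 17015), (13052, 2, 16571), (13056, 2, 16816), (13060, 2, 16899),
    (13064, 2, 16686), (13068, 2, 17100), (13072, 2, 16793), (13076, 2, 16907),
    (13080, 2, 16966), (13084, 2, 17084), (13088, 2, 17023), (13092, 2, 16731),
    (13096, 2, 16748), (13100, 2, 17048), (13104, 2, 16773), (13108, 2, 16733),
    (13112, 2, 16749), (13116, 2, 16920), (13120, 2, 17001), (13124, 2, 16682),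
    (13128, 2, 16985), (13132, 2, 16641), (13136, 2, 16804), (13140, 2, 16738),
    (13144, 2, 17088), (13148, 2, 16687), (13152, 2, 17246), (13156, 2, 16867),
    (13160, 2, 16981), (13164, 2, 16926), (13168, 2, 17155), (13172, 2, 17143),
    (13176, 2, 17001), (13180, 2, 16516), (13184, 2, 17037), (13188, 2, 16699),
    (13192, 2, 16881), (13196, 2, 16909), (13200, 2, 17091), (13204, 2, 17098),
    (13208, 2, 16836), (13212, 2, 16820)]

theorem ft027 : FT fl027 := by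
  refine ⟨?_, ?_, ?_, ?_, ?_, ?_, ?_, ?_, ?_, ?_, ?_, ?_, ?_, ?_, ?_, ?_, ?_, ?_, ?_, ?_, ?_, ?_, ?_, ?_, ?_, ?_, ?_, ?_, ?_, ?_, ?_, ?_, ?_, ?_, ?_, ?_, ?_, ?_, ?_, ?_, ?_, ?_, ?_, ?_, ?_, ?_, ?_, ?_, ?_, ?_, ?_, ?_, ?_, ?_, ?_, ?_, ?_, ?_, ?_, ?_, ?_, ?_, ?_, ?_, ?_, ?_, ?_, ?_, ?_, ?_, ?_, ?_, ?_, ?_, ?_, ?_, ?_, ?_, ?_, ?_, ?_, ?_, ?_, ?_, ?_, ?_, trivial⟩ <;> decide +kernel

end Pool.Agent.AddSq.Fa
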