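import Pool.Agent.AddSq.FastDefs

/-!
# Kernel facts: losses in the blocks from 422912 to 433791
-/

namespace Pool.Agent.AddSq.Fa

set_option maxRecDepth 100000

def fl028 : List (Nat × Nat × Nat) :=
   [(13216, 2, 16931), (13220, 2, 16882), (13224, 2, 17097), (13228, 2, 16941),
    (13232, 2, 16566), (13236, 2, 16943), (13240, 2, 17014), (13244, 2, 17113),
    (13248, 2, 17132), (13252, 2, 17100), (13256, 2, 16870), (13260, 2, 16805),
    (13264, 2, 16837), (13268, 2, 16791), (13272, 2, 16810), (13276, 2, 16785),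
    (13280, 2, 17016), (13284, 2, 16961), (13288, 2, 16875), (13292, 2, 17135),
    (13296, 2, 16983), (13300, 2, 17026), (13304, 2, 17096), (13308, 2, 16935),
    (13312, 2, 17034), (13316, 2, 17021), (13320, 2, 17127), (13324, 2, 17023),
    (13328, 2, 16970), (13332, 2, 17002), (13336, 2, 16918), (13340, 2, 16910),
    (13344, 2, 17082), (13348, 2, 16948), (13352, 2, 16907), (13356, 2, 17245),
    (13360, 2, 16906), (13364, 2, 17186), (13368, 2, 16993), (13372, 2, 16645),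
    (13376, 2, 17274), (13380, 2, 16765), (13384, 2, 16885), (13388, 2, 17086),
    (13392, 2, 17008), (13396, 2, 17371), (13400, 2, 17086), (13404, 2, 17247),
    (13408, 2, 17114), (13412, 2, 17427), (13416, 2, 17101), (13420, 2, 17065),
    (13424, 2, 16960), (13428, 2, 17339), (13432, 2, 16936), (13436, 2, 17356),
    (13440, 2, 16979), (13444, 2, 17444), (13448, 2, 17002), (13452, 2, 17032),
    (13456, 2, 16998), (13460, 2, 17084), (13464, 2, 17110), (13468, 2, 17080),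
    (13472, 2, 17038), (13476, 2, 16946), (13480, 2, 16995), (13484, 2, 17272),
    (13488, 2, 16838), (13492, 2, 17262), (13496, 2, 17030), (13500, 2, 17328),
    (13504, 2, 17046), (13508, 2, 17115), (13512, 2, 17379), (13516, 2, 17140),
    (13520, 2, 16973), (13524, 2, 17145), (13528, 2, 17156), (13532, 2, 17182),
    (13536, 2, 17183), (13540, 2, 17184), (13544, 2, 17284), (13548, 2, 17194),
    (13552, 2, 17179)]

theorem ft028 : FT fl028 := by
  refine ⟨?_, ?_, ?_, ?_, ?_, ?_, ?_, ?_, ?_, ?_, ?_, ?_, ?_, ?_, ?_, ?_, ?_, ?_, ?_, ?_, ?_, ?_, ?_, ?_, ?_, ?_, ?_, ?_, ?_, ?_, ?_, ?_, ?_, ?_, ?_, ?_, ?_, ?_, ?_, ?_, ?_, ?_, ?_, ?_, ?_, ?_, ?_, ?_, ?_, ?_, ?_, ?_, ?_, ?_, ?_, ?_, ?_, ?_, ?_, ?_, ?_, ?_, ?_, ?_, ?_, ?_, ?_, ?_, ?_, ?_, ?_, ?_, ?_, ?_, ?_, ?_, ?_, ?_, ?_, ?_, ?_, ?_, ?_, ?_, ?_, trivial⟩ <;> decide +kernel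

end Pool.Agent.AddSq.Fa
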