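import Pool.Agent.AddSq.FastDefs

/-!
# Kernel facts: losses in the blocks from 433792 to 444415
-/

namespace Pool.Agent.AddSq.Fa

set_option maxRecDepth 100000

def fl029 : List (Nat × Nat × Nat) :=
   [(13556, 2, 17202), (13560, 2, 17239), (13564, 2, 17130), (13568, 2, 17037),
    (13572, 2, 17404), (13576, 2, 17055), (13580, 2, 17212), (13584, 2, 17375),
    (13588, 2, 16920), (13592, 2, 17235), (13596, 2, 17257), (13600, 2, 17266),
    (13604, 2, 17275), (13608, 2, 17026), (13612, 2, 17113), (13616, 2, 16881),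
    (13620, 2, 17265), (13624, 2, 17255), (13628, 2, 17187), (13632, 2, 17381),
    (13636, 2, 17085), (13640, 2, 17227), (13644, 2, 17110), (13648, 2, 17378),
    (13652, 2, 17378), (13656, 2, 17414), (13660, 2, 17311), (13664, 2, 17445),
    (13668, 2, 16875), (13672, 2, 17187), (13676, 2, 17222), (13680, 2, 17068),
    (13684, 2, 17374), (13688, 2, 17285), (13692, 2, 17419), (13696, 2, 17477),
    (13700, 2, 17119), (13704, 2, 17206), (13708, 2, 17181), (13712, 2, 17252),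
    (13716, 2, 17153), (13720, 2, 17543), (13724, 2, 17155), (13728, 2, 17194),
    (13732, 2, 17414), (13736, 2, 17465), (13740, 2, 17334), (13744, 2, 17235),
    (13748, 2, 17303), (13752, 2, 17258), (13756, 2, 17231), (13760, 2, 17341),
    (13764, 2, 17718), (13768, 2, 17364), (13772, 2, 17499), (13776, 2, 17320),
    (13780, 2, 17106), (13784, 2, 17613), (13788, 2, 17469), (13792, 2, 17307),
    (13796, 2, 17365), (13800, 2, 17175), (13804, 2, 17338), (13808, 2, 17272),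
    (13812, 2, 17256), (13816, 2, 17119), (13820, 2, 17537), (13824, 2, 17020),
    (13828, 2, 17421), (13832, 2, 17407), (13836, 2, 17423), (13840, 2, 17378),
    (13844, 2, 17413), (13848, 2, 17395), (13852, 2, 17416), (13856, 2, 17537),
    (13860, 2, 17439), (13864, 2, 17117), (13868, 2, 17448), (13872, 2, 17368),
    (13876, 2, 17647), (13880, 2, 17339), (13884, 2, 17361)]

theorem ft029 : FT fl029 := by
  refine ⟨?_, ?_, ?_, ?_, ?_, ?_, ?_, ?_, ?_, ?_, ?_, ?_, ?_, ?_, ?_, ?_, ?_, ?_, ?_, ?_, ?_, ?_, ?_, ?_, ?_, ?_, ?_, ?_, ?_, ?_, ?_, ?_, ?_, ?_, ?_, ?_, ?_, ?_, ?_, ?_, ?_, ?_, ?_, ?_, ?_, ?_, ?_, ?_, ?_, ?_, ?_, ?_, ?_, ?_, ?_, ?_, ?_, ?_, ?_, ?_, ?_, ?_, ?_, ?_, ?_, ?_, ?_, ?_, ?_, ?_, ?_, ?_, ?_, ?_, ?_, ?_, ?_, ?_, ?_, ?_, ?_, ?_, ?_, trivial⟩ <;> decide +kernel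

end Pool.Agent.AddSq.Fa
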