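import Pool.Agent.AddSq.FastDefs

/-!
# Kernel facts: losses in the blocks from 454912 to 465151
-/

namespace Pool.Agent.AddSq.Fa

set_option maxRecDepth 100000

def fl031 : List (Nat × Nat × Nat) :=
   [(14216, 2, 17424), (14220, 2, 17964), (14224, 2, 17568), (14228, 2, 17612),
    (14232, 2, 17482), (14236, 2, 17579), (14240, 2, 17796), (14244, 2, 17561),
    (14248, 2, 17786), (14252, 2, 17866), (14256, 2, 17773), (14260, 2, 17567),
    (14264, 2, 17696), (14268, 2, 17915), (14272, 2, 17832), (14276, 2, 17652),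
    (14280, 2, 17631), (14284, 2, 17700), (14288, 2, 17620), (14292, 2, 17657),
    (14296, 2, 17644), (14300, 2, 17587), (14304, 2, 17871), (14308, 2, 17683),
    (14312, 2, 17705), (14316, 2, 17887), (14320, 2, 17643), (14324, 2, 17867),
    (14328, 2, 17580), (14332, 2, 17610), (14336, 2, 17463), (14340, 2, 17822),
    (14344, 2, 17660), (14348, 2, 17676), (14352, 2, 17567), (14356, 2, 17819),
    (14360, 2, 17643), (14364, 2, 17935), (14368, 2, 17828), (14372, 2, 17804),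
    (14376, 2, 17834), (14380, 2, 17571), (14384, 2, 17730), (14388, 2, 17701),
    (14392, 2, 17935), (14396, 2, 17793), (14400, 2, 17722), (14404, 2, 17799),
    (14408, 2, 17683), (14412, 2, 17789), (14416, 2, 17666), (14420, 2, 17416),
    (14424, 2, 17785), (14428, 2, 17589), (14432, 2, 17700), (14436, 2, 17801),
    (14440, 2, 18010), (14444, 2, 17740), (14448, 2, 17669), (14452, 2, 17810),
    (14456, 2, 17915), (14460, 2, 17773), (14464, 2, 17571), (14468, 2, 17576),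
    (14472, 2, 17897), (14476, 2, 17693), (14480, 2, 17921), (14484, 2, 17542),
    (14488, 2, 17768), (14492, 2, 17865), (14496, 2, 17945), (14500, 2, 17958),
    (14504, 2, 18085), (14508, 2, 18162), (14512, 2, 17665), (14516, 2, 17801),
    (14520, 2, 18114), (14524, 2, 17571), (14528, 2, 18168), (14532, 2, 18050)]

theorem ft031 : FT fl031 := by
  refine ⟨?_, ?_, ?_, ?_, ?_, ?_, ?_, ?_, ?_, ?_, ?_, ?_, ?_, ?_, ?_, ?_, ?_, ?_, ?_, ?_, ?_, ?_, ?_, ?_, ?_, ?_, ?_, ?_, ?_, ?_, ?_, ?_, ?_, ?_, ?_, ?_, ?_, ?_, ?_, ?_, ?_, ?_, ?_, ?_, ?_, ?_, ?_, ?_, ?_, ?_, ?_, ?_, ?_, ?_, ?_, ?_, ?_, ?_, ?_, ?_, ?_, ?_, ?_, ?_, ?_, ?_, ?_, ?_, ?_, ?_, ?_, ?_, ?_, ?_, ?_, ?_, ?_, ?_, ?_, ?_, trivial⟩ <;> decide +kernel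

end Pool.Agent.AddSq.Fa
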