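import Pool.Agent.AddSq.FastDefs

/-!
# Kernel facts: losses in the blocks from 465152 to 475263
-/

namespace Pool.Agent.AddSq.Fa

set_option maxRecDepth 100000

def fl032 : List (Nat × Nat × Nat) :=
   [(14536, 2, 17905), (14540, 2, 17867), (14544, 2, 17825), (14548, 2, 17645),
    (14552, 2, 17701), (14556, 2, 18258), (14560, 2, 18005), (14564, 2, 17782),
    (14568, 2, 17807), (14572, 2, 17636), (14576, 2, 17991), (14580, 2, 17980),
    (14584, 2, 17806), (14588, 2, 17796), (14592, 2, 17528), (14596, 2, 17645),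
    (14600, 2, 17978), (14604, 2, 17725), (14608, 2, 17799), (14612, 2, 17870),
    (14616, 2, 17927), (14620, 2, 18276), (14624, 2, 18046), (14628, 2, 17936),
    (14632, 2, 18138), (14636, 2, 17901), (14640, 2, 17977), (14644, 2, 17822),
    (14648, 2, 17879), (14652, 2, 17858), (14656, 2, 17798), (14660, 2, 18021),
    (14664, 2, 17650), (14668, 2, 17793), (14672, 2, 17752), (14676, 2, 17953),
    (14680, 2, 18144), (14684, 2, 18161), (14688, 2, 17764), (14692, 2, 18034),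
    (14696, 2, 17501), (14700, 2, 18049), (14704, 2, 17976), (14708, 2, 17876),
    (14712, 2, 18159), (14716, 2, 17938), (14720, 2, 17733), (14724, 2, 18034),
    (14728, 2, 17967), (14732, 2, 18236), (14736, 2, 18030), (14740, 2, 17885),
    (14744, 2, 17812), (14748, 2, 17855), (14752, 2, 18087), (14756, 2, 17771),
    (14760, 2, 18045), (14764, 2, 17747), (14768, 2, 17911), (14772, 2, 18003),
    (14776, 2, 18089), (14780, 2, 17829), (14784, 2, 17959), (14788, 2, 18062),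
    (14792, 2, 17852), (14796, 2, 17883), (14800, 2, 17899), (14804, 2, 18073),
    (14808, 2, 17922), (14812, 2, 17917), (14816, 2, 18091), (14820, 2, 17994),
    (14824, 2, 18026), (14828, 2, 18001), (14832, 2, 18137), (14836, 2, 18205),
    (14840, 2, 18083), (14844, 2, 17902), (14848, 2, 18244)]

theorem ft032 : FT fl032 := by
  refine ⟨?_, ?_, ?_, ?_, ?_, ?_, ?_, ?_, ?_, ?_, ?_, ?_, ?_, ?_, ?_, ?_, ?_, ?_, ?_, ?_, ?_, ?_, ?_, ?_, ?_, ?_, ?_, ?_, ?_, ?_, ?_, ?_, ?_, ?_, ?_, ?_, ?_, ?_, ?_, ?_, ?_, ?_, ?_, ?_, ?_, ?_, ?_, ?_, ?_, ?_, ?_, ?_, ?_, ?_, ?_, ?_, ?_, ?_, ?_, ?_, ?_, ?_, ?_, ?_, ?_, ?_, ?_, ?_, ?_, ?_, ?_, ?_, ?_, ?_, ?_, ?_, ?_, ?_, ?_, trivial⟩ <;> decide +kernel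

end Pool.Agent.AddSq.Fa
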