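import Pool.Agent.AddSq.FastDefs

/-!
# Kernel facts: losses in the blocks from 475264 to 485247
-/

namespace Pool.Agent.AddSq.Fa

set_option maxRecDepth 100000

def fl033 : List (Nat × Nat × Nat) :=
   [(14852, 2, 18126), (14856, 2, 18214), (14860, 2, 18033), (14864, 2, 18086),
    (14868, 2, 17813), (14872, 2, 18152), (14876, 2, 18109), (14880, 2, 18003),
    (14884, 2, 18049), (14888, 2, 18064), (14892, 2, 17878), (14896, 2, 18088),
    (14900, 2, 18131), (14904, 2, 18125), (14908, 2, 18172), (14912, 2, 17865),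
    (14916, 2, 17981), (14920, 2, 18178), (14924, 2, 18122), (14928, 2, 18124),
    (14932, 2, 17864), (14936, 2, 18105), (14940, 2, 18183), (14944, 2, 18095),
    (14948, 2, 18413), (14952, 2, 18016), (14956, 2, 18335), (14960, 2, 18108),
    (14964, 2, 18122), (14968, 2, 18109), (14972, 2, 17986), (14976, 2, 18248),
    (14980, 2, 18270), (14984, 2, 17964), (14988, 2, 18510), (14992, 2, 17917),
    (14996, 2, 18049), (15000, 2, 17877), (15004, 2, 18122), (15008, 2, 18114),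
    (15012, 2, 18082), (15016, 2, 18145), (15020, 2, 17998), (15024, 2, 18204),
    (15028, 2, 18077), (15032, 2, 18013), (15036, 2, 18248), (15040, 2, 18048),
    (15044, 2, 17829), (15048, 2, 17992), (15052, 2, 17873), (15056, 2, 18172),
    (15060, 2, 17955), (15064, 2, 17991), (15068, 2, 18543), (15072, 2, 18180),
    (15076, 2, 18257), (15080, 2, 18414), (15084, 2, 18140), (15088, 2, 18273),
    (15092, 2, 18228), (15096, 2, 18053), (15100, 2, 18251), (15104, 2, 18139),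
    (15108, 2, 18473), (15112, 2, 18028), (15116, 2, 18082), (15120, 2, 18175),
    (15124, 2, 18122), (15128, 2, 18061), (15132, 2, 18103), (15136, 2, 18060),
    (15140, 2, 18113), (15144, 2, 18245), (15148, 2, 18187), (15152, 2, 17986),
    (15156, 2, 18140), (15160, 2, 18157)]

theorem ft033 : FT fl033 := by
  refine ⟨?_, ?_, ?_, ?_, ?_, ?_, ?_, ?_, ?_, ?_, ?_, ?_, ?_, ?_, ?_, ?_, ?_, ?_, ?_, ?_, ?_, ?_, ?_, ?_, ?_, ?_, ?_, ?_, ?_, ?_, ?_, ?_, ?_, ?_, ?_, ?_, ?_, ?_, ?_, ?_, ?_, ?_, ?_, ?_, ?_, ?_, ?_, ?_, ?_, ?_, ?_, ?_, ?_, ?_, ?_, ?_, ?_, ?_, ?_, ?_, ?_, ?_, ?_, ?_, ?_, ?_, ?_, ?_, ?_, ?_, ?_, ?_, ?_, ?_, ?_, ?_, ?_, ?_, trivial⟩ <;> decide +kernel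

end Pool.Agent.AddSq.Fa
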