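import Pool.Agent.AddSq.FastDefs

/-!
# Kernel facts: losses in the blocks from 485248 to 494975
-/

namespace Pool.Agent.AddSq.Fa

set_option maxRecDepth 100000

def fl034 : List (Nat × Nat × Nat) :=
   [(15164, 2, 18196), (15168, 2, 18436), (15172, 2, 18239), (15176, 2, 18361),
    (15180, 2, 18486), (15184, 2, 18300), (15188, 2, 18281), (15192, 2, 18234),
    (15196, 2, 18135), (15200, 2, 18372), (15204, 2, 18425), (15208, 2, 18248),
    (15212, 2, 18122), (15216, 2, 18465), (15220, 2, 17993), (15224, 2, 18361),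
    (15228, 2, 18406), (15232, 2, 18321), (15236, 2, 18462), (15240, 2, 18251),
    (15244, 2, 18505), (15248, 2, 18407), (15252, 2, 18376), (15256, 2, 18271),
    (15260, 2, 18245), (15264, 2, 18297), (15268, 2, 18220), (15272, 2, 18377),
    (15276, 2, 18234), (15280, 2, 18426), (15284, 2, 18344), (15288, 2, 18183),
    (15292, 2, 18370), (15296, 2, 18481), (15300, 2, 18034), (15304, 2, 18375),
    (15308, 2, 18304), (15312, 2, 18482), (15316, 2, 18060), (15320, 2, 18793),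
    (15324, 2, 18545), (15328, 2, 18204), (15332, 2, 18339), (15336, 2, 18263),
    (15340, 2, 18266), (15344, 2, 18533), (15348, 2, 18205), (15352, 2, 18386),
    (15356, 2, 18306), (15360, 2, 18304), (15364, 2, 18373), (15368, 2, 18358),
    (15372, 2, 18288), (15376, 2, 18747), (15380, 2, 18220), (15384, 2, 18264),
    (15388, 2, 18301), (15392, 2, 18326), (15396, 2, 18423), (15400, 2, 18263),
    (15404, 2, 18348), (15408, 2, 18266), (15412, 2, 18451), (15416, 2, 18294),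
    (15420, 2, 18451), (15424, 2, 18379), (15428, 2, 18320), (15432, 2, 18386),
    (15436, 2, 18479), (15440, 2, 18288), (15444, 2, 18443), (15448, 2, 18265),
    (15452, 2, 18514), (15456, 2, 18604), (15460, 2, 18481), (15464, 2, 18433)]

theorem ft034 : FT fl034 := by
  refine ⟨?_, ?_, ?_, ?_, ?_, ?_, ?_, ?_, ?_, ?_, ?_, ?_, ?_, ?_, ?_, ?_, ?_, ?_, ?_, ?_, ?_, ?_, ?_, ?_, ?_, ?_, ?_, ?_, ?_, ?_, ?_, ?_, ?_, ?_, ?_, ?_, ?_, ?_, ?_, ?_, ?_, ?_, ?_, ?_, ?_, ?_, ?_, ?_, ?_, ?_, ?_, ?_, ?_, ?_, ?_, ?_, ?_, ?_, ?_, ?_, ?_, ?_, ?_, ?_, ?_, ?_, ?_, ?_, ?_, ?_, ?_, ?_, ?_, ?_, ?_, ?_, trivial⟩ <;> decide +kernel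

end Pool.Agent.AddSq.Fa
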