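import Pool.Agent.AddSq.FastDefs

/-!
# Kernel facts: losses in the blocks from 494976 to 504575
-/

namespace Pool.Agent.AddSq.Fa

set_option maxRecDepth 100000

def fl035 : List (Nat × Nat × Nat) :=
   [(15468, 2, 18405), (15472, 2, 18613), (15476, 2, 18696), (15480, 2, 18423),
    (15484, 2, 18538), (15488, 2, 18460), (15492, 2, 18509), (15496, 2, 18441),
    (15500, 2, 18584), (15504, 2, 18441), (15508, 2, 18545), (15512, 2, 18562),
    (15516, 2, 18555), (15520, 2, 18487), (15524, 2, 18561), (15528, 2, 18613),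
    (15532, 2, 18396), (15536, 2, 18303), (15540, 2, 18540), (15544, 2, 18456),
    (15548, 2, 18494), (15552, 2, 18281), (15556, 2, 18252), (15560, 2, 18320),
    (15564, 2, 18509), (15568, 2, 18336), (15572, 2, 18512), (15576, 2, 18487),
    (15580, 2, 18358), (15584, 2, 18684), (15588, 2, 18547), (15592, 2, 18815),
    (15596, 2, 18624), (15600, 2, 18512), (15604, 2, 18615), (15608, 2, 18521),
    (15612, 2, 18451), (15616, 2, 18483), (15620, 2, 18594), (15624, 2, 18531),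
    (15628, 2, 18391), (15632, 2, 18667), (15636, 2, 18258), (15640, 2, 18763),
    (15644, 2, 18498), (15648, 2, 18698), (15652, 2, 18705), (15656, 2, 18415),
    (15660, 2, 18506), (15664, 2, 18665), (15668, 2, 18730), (15672, 2, 18700),
    (15676, 2, 18512), (15680, 2, 18568), (15684, 2, 18638), (15688, 2, 18397),
    (15692, 2, 18423), (15696, 2, 18589), (15700, 2, 18729), (15704, 2, 18587),
    (15708, 2, 18785), (15712, 2, 18596), (15716, 2, 18414), (15720, 2, 18536),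
    (15724, 2, 18572), (15728, 2, 18327), (15732, 2, 18725), (15736, 2, 18750),
    (15740, 2, 18481), (15744, 2, 18773), (15748, 2, 18604), (15752, 2, 18389),
    (15756, 2, 18659), (15760, 2, 18515), (15764, 2, 18529)]

theorem ft035 : FT fl035 := by
  refine ⟨?_, ?_, ?_, ?_, ?_, ?_, ?_, ?_, ?_, ?_, ?_, ?_, ?_, ?_, ?_, ?_, ?_, ?_, ?_, ?_, ?_, ?_, ?_, ?_, ?_, ?_, ?_, ?_, ?_, ?_, ?_, ?_, ?_, ?_, ?_, ?_, ?_, ?_, ?_, ?_, ?_, ?_, ?_, ?_, ?_, ?_, ?_, ?_, ?_, ?_, ?_, ?_, ?_, ?_, ?_, ?_, ?_, ?_, ?_, ?_, ?_, ?_, ?_, ?_, ?_, ?_, ?_, ?_, ?_, ?_, ?_, ?_, ?_, ?_, ?_, trivial⟩ <;> decide +kernel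

end Pool.Agent.AddSq.Fa
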