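import Pool.Agent.AddSq.FastDefs

/-!
# Kernel facts: losses in the blocks from 504576 to 514047
-/

namespace Pool.Agent.AddSq.Fa

set_option maxRecDepth 100000

def fl036 : List (Nat × Nat × Nat) :=
   [(15768, 2, 18729), (15772, 2, 18581), (15776, 2, 18504), (15780, 2, 18638),
    (15784, 2, 18512), (15788, 2, 18515), (15792, 2, 18890), (15796, 2, 18650),
    (15800, 2, 18621), (15804, 2, 18717), (15808, 2, 18513), (15812, 2, 18712),
    (15816, 2, 18633), (15820, 2, 18888), (15824, 2, 18479), (15828, 2, 18648),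
    (15832, 2, 18274), (15836, 2, 18710), (15840, 2, 18553), (15844, 2, 18825),
    (15848, 2, 18768), (15852, 2, 18600), (15856, 2, 18754), (15860, 2, 18565),
    (15864, 2, 18727), (15868, 2, 18866), (15872, 2, 18759), (15876, 2, 18523),
    (15880, 2, 18697), (15884, 2, 19071), (15888, 2, 18826), (15892, 2, 18758),
    (15896, 2, 18755), (15900, 2, 18679), (15904, 2, 18638), (15908, 2, 18650),
    (15912, 2, 18761), (15916, 2, 18863), (15920, 2, 18496), (15924, 2, 18832),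
    (15928, 2, 18919), (15932, 2, 18847), (15936, 2, 18654), (15940, 2, 18752),
    (15944, 2, 18705), (15948, 2, 18699), (15952, 2, 18532), (15956, 2, 18678),
    (15960, 2, 18667), (15964, 2, 18764), (15968, 2, 18978), (15972, 2, 18775),
    (15976, 2, 18878), (15980, 2, 18510), (15984, 2, 18871), (15988, 2, 18737),
    (15992, 2, 18731), (15996, 2, 18819), (16000, 2, 18912), (16004, 2, 18469),
    (16008, 2, 18841), (16012, 2, 18617), (16016, 2, 18855), (16020, 2, 18917),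
    (16024, 2, 18997), (16028, 2, 18876), (16032, 2, 18690), (16036, 2, 19057),
    (16040, 2, 19018), (16044, 2, 18712), (16048, 2, 18925), (16052, 2, 18859),
    (16056, 2, 18792), (16060, 2, 18979)]

theorem ft036 : FT fl036 := by
  refine ⟨?_, ?_, ?_, ?_, ?_, ?_, ?_, ?_, ?_, ?_, ?_, ?_, ?_, ?_, ?_, ?_, ?_, ?_, ?_, ?_, ?_, ?_, ?_, ?_, ?_, ?_, ?_, ?_, ?_, ?_, ?_, ?_, ?_, ?_, ?_, ?_, ?_, ?_, ?_, ?_, ?_, ?_, ?_, ?_, ?_, ?_, ?_, ?_, ?_, ?_, ?_, ?_, ?_, ?_, ?_, ?_, ?_, ?_, ?_, ?_, ?_, ?_, ?_, ?_, ?_, ?_, ?_, ?_, ?_, ?_, ?_, ?_, ?_, ?_, trivial⟩ <;> decide +kernel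

end Pool.Agent.AddSq.Fa
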