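import Pool.Agent.AddSq.FastDefs

/-!
# Kernel facts: losses in the blocks from 514048 to 523391
-/

namespace Pool.Agent.AddSq.Fa

set_option maxRecDepth 100000

def fl037 : List (Nat × Nat × Nat) :=
   [(16064, 2, 18656), (16068, 2, 18697), (16072, 2, 18954), (16076, 2, 18792),
    (16080, 2, 18843), (16084, 2, 18996), (16088, 2, 18936), (16092, 2, 18749),
    (16096, 2, 18660), (16100, 2, 18918), (16104, 2, 18876), (16108, 2, 18682),
    (16112, 2, 18967), (16116, 2, 18849), (16120, 2, 19012), (16124, 2, 18653),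
    (16128, 2, 18957), (16132, 2, 18807), (16136, 2, 18963), (16140, 2, 18881),
    (16144, 2, 18757), (16148, 2, 18760), (16152, 2, 18810), (16156, 2, 18904),
    (16160, 2, 19101), (16164, 2, 18746), (16168, 2, 18678), (16172, 2, 18707),
    (16176, 2, 18874), (16180, 2, 18964), (16184, 2, 18994), (16188, 2, 18924),
    (16192, 2, 19086), (16196, 2, 18635), (16200, 2, 18896), (16204, 2, 18782),
    (16208, 2, 19138), (16212, 2, 18993), (16216, 2, 18650), (16220, 2, 18932),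
    (16224, 2, 18847), (16228, 2, 19021), (16232, 2, 19034), (16236, 2, 18626),
    (16240, 2, 18947), (16244, 2, 18819), (16248, 2, 18841), (16252, 2, 19199),
    (16256, 2, 18864), (16260, 2, 19033), (16264, 2, 19025), (16268, 2, 18899),
    (16272, 2, 19160), (16276, 2, 18797), (16280, 2, 18932), (16284, 2, 19145),
    (16288, 2, 18760), (16292, 2, 19026), (16296, 2, 19014), (16300, 2, 18759),
    (16304, 2, 19189), (16308, 2, 18784), (16312, 2, 18707), (16316, 2, 18782),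
    (16320, 2, 18794), (16324, 2, 19006), (16328, 2, 19035), (16332, 2, 18914),
    (16336, 2, 18750), (16340, 2, 18918), (16344, 2, 18599), (16348, 2, 18769),
    (16352, 2, 19029)]

theorem ft037 : FT fl037 := by
  refine ⟨?_, ?_, ?_, ?_, ?_, ?_, ?_, ?_, ?_, ?_, ?_, ?_, ?_, ?_, ?_, ?_, ?_, ?_, ?_, ?_, ?_, ?_, ?_, ?_, ?_, ?_, ?_, ?_, ?_, ?_, ?_, ?_, ?_, ?_, ?_, ?_, ?_, ?_, ?_, ?_, ?_, ?_, ?_, ?_, ?_, ?_, ?_, ?_, ?_, ?_, ?_, ?_, ?_, ?_, ?_, ?_, ?_, ?_, ?_, ?_, ?_, ?_, ?_, ?_, ?_, ?_, ?_, ?_, ?_, ?_, ?_, ?_, ?_, trivial⟩ <;> decide +kernel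

end Pool.Agent.AddSq.Fa
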