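import Pool.Agent.AddSq.FastDefs

/-!
# Kernel facts: losses in the blocks from 523392 to 532607
-/

namespace Pool.Agent.AddSq.Fa

set_option maxRecDepth 100000

def fl038 : List (Nat × Nat × Nat) :=
   [(16356, 2, 18904), (16360, 2, 18838), (16364, 2, 19161), (16368, 2, 18814),
    (16372, 2, 19012), (16376, 2, 18758), (16380, 2, 19163), (16384, 2, 18994),
    (16388, 2, 19026), (16392, 2, 18908), (16396, 2, 19020), (16400, 2, 18882),
    (16404, 2, 19227), (16408, 2, 18609), (16412, 2, 19173), (16416, 2, 19295),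
    (16420, 2, 18852), (16424, 2, 18960), (16428, 2, 18785), (16432, 2, 19370),
    (16436, 2, 18753), (16440, 2, 19073), (16444, 2, 19177), (16448, 2, 18764),
    (16452, 2, 18998), (16456, 2, 19156), (16460, 2, 18837), (16464, 2, 19085),
    (16468, 2, 19256), (16472, 2, 18995), (16476, 2, 18775), (16480, 2, 18926),
    (16484, 2, 19012), (16488, 2, 18947), (16492, 2, 19195), (16496, 2, 19108),
    (16500, 2, 19269), (16504, 2, 18968), (16508, 2, 19063), (16512, 2, 18873),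
    (16516, 2, 19038), (16520, 2, 19346), (16524, 2, 19008), (16528, 2, 19340),
    (16532, 2, 19204), (16536, 2, 19378), (16540, 2, 19001), (16544, 2, 19055),
    (16548, 2, 19125), (16552, 2, 19096), (16556, 2, 19005), (16560, 2, 19310),
    (16564, 2, 19538), (16568, 2, 19025), (16572, 2, 19170), (16576, 2, 19026),
    (16580, 2, 19254), (16584, 2, 19295), (16588, 2, 19170), (16592, 2, 19091),
    (16596, 2, 19375), (16600, 2, 19195), (16604, 2, 19469), (16608, 2, 19156),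
    (16612, 2, 19059), (16616, 2, 19111), (16620, 2, 19228), (16624, 2, 19324),
    (16628, 2, 19165), (16632, 2, 19218), (16636, 2, 18970), (16640, 2, 19282)]

theorem ft038 : FT fl038 := by
  refine ⟨?_, ?_, ?_, ?_, ?_, ?_, ?_, ?_, ?_, ?_, ?_, ?_, ?_, ?_, ?_, ?_, ?_, ?_, ?_, ?_, ?_, ?_, ?_, ?_, ?_, ?_, ?_, ?_, ?_, ?_, ?_, ?_, ?_, ?_, ?_, ?_, ?_, ?_, ?_, ?_, ?_, ?_, ?_, ?_, ?_, ?_, ?_, ?_, ?_, ?_, ?_, ?_, ?_, ?_, ?_, ?_, ?_, ?_, ?_, ?_, ?_, ?_, ?_, ?_, ?_, ?_, ?_, ?_, ?_, ?_, ?_, ?_, trivial⟩ <;> decide +kernel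

end Pool.Agent.AddSq.Fa
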