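import Pool.Agent.AddSq.FastDefs

/-!
# Kernel facts: losses in the blocks from 532608 to 541695
-/

namespace Pool.Agent.AddSq.Fa

set_option maxRecDepth 100000

def fl039 : List (Nat × Nat × Nat) :=
   [(16644, 2, 19299), (16648, 2, 19025), (16652, 2, 19472), (16656, 2, 19083),
    (16660, 2, 19445), (16664, 2, 18904), (16668, 2, 19160), (16672, 2, 19156),
    (16676, 2, 19125), (16680, 2, 18960), (16684, 2, 19477), (16688, 2, 19259),
    (16692, 2, 19020), (16696, 2, 18982), (16700, 2, 19258), (16704, 2, 19351),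
    (16708, 2, 18798), (16712, 2, 19284), (16716, 2, 19013), (16720, 2, 19177),
    (16724, 2, 19726), (16728, 2, 19211), (16732, 2, 19514), (16736, 2, 19006),
    (16740, 2, 19448), (16744, 2, 19249), (16748, 2, 19333), (16752, 2, 19047),
    (16756, 2, 19300), (16760, 2, 19184), (16764, 2, 19581), (16768, 2, 19182),
    (16772, 2, 19521), (16776, 2, 19176), (16780, 2, 19200), (16784, 2, 19358),
    (16788, 2, 19328), (16792, 2, 19355), (16796, 2, 19377), (16800, 2, 19314),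
    (16804, 2, 19421), (16808, 2, 19297), (16812, 2, 19200), (16816, 2, 19300),
    (16820, 2, 19113), (16824, 2, 19037), (16828, 2, 19296), (16832, 2, 19163),
    (16836, 2, 19400), (16840, 2, 19369), (16844, 2, 19362), (16848, 2, 19216),
    (16852, 2, 19312), (16856, 2, 19243), (16860, 2, 19139), (16864, 2, 19473),
    (16868, 2, 19097), (16872, 2, 19388), (16876, 2, 19408), (16880, 2, 19235),
    (16884, 2, 19465), (16888, 2, 19321), (16892, 2, 19377), (16896, 2, 19346),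
    (16900, 2, 19317), (16904, 2, 19434), (16908, 2, 19059), (16912, 2, 19052),
    (16916, 2, 19349), (16920, 2, 19519), (16924, 2, 19261)]

theorem ft039 : FT fl039 := by
  refine ⟨?_, ?_, ?_, ?_, ?_, ?_, ?_, ?_, ?_, ?_, ?_, ?_, ?_, ?_, ?_, ?_, ?_, ?_, ?_, ?_, ?_, ?_, ?_, ?_, ?_, ?_, ?_, ?_, ?_, ?_, ?_, ?_, ?_, ?_, ?_, ?_, ?_, ?_, ?_, ?_, ?_, ?_, ?_, ?_, ?_, ?_, ?_, ?_, ?_, ?_, ?_, ?_, ?_, ?_, ?_, ?_, ?_, ?_, ?_, ?_, ?_, ?_, ?_, ?_, ?_, ?_, ?_, ?_, ?_, ?_, ?_, trivial⟩ <;> decide +kernel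

end Pool.Agent.AddSq.Fa
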