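import Pool.Agent.AddSq.FastDefs

/-!
# Kernel facts: losses in the blocks from 541696 to 550655
-/

namespace Pool.Agent.AddSq.Fa

set_option maxRecDepth 100000

def fl040 : List (Nat × Nat × Nat) :=
   [(16928, 2, 19523), (16932, 2, 19244), (16936, 2, 19388), (16940, 2, 19274),
    (16944, 2, 19338), (16948, 2, 19270), (16952, 2, 19646), (16956, 2, 19513),
    (16960, 2, 19260), (16964, 2, 19660), (16968, 2, 19471), (16972, 2, 19409),
    (16976, 2, 19635), (16980, 2, 19072), (16984, 2, 19322), (16988, 2, 19710),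
    (16992, 2, 19268), (16996, 2, 19517), (17000, 2, 19282), (17004, 2, 19673),
    (17008, 2, 19230), (17012, 2, 19177), (17016, 2, 19499), (17020, 2, 19450),
    (17024, 2, 19474), (17028, 2, 19279), (17032, 2, 19148), (17036, 2, 19438),
    (17040, 2, 19422), (17044, 2, 19457), (17048, 2, 19616), (17052, 2, 19573),
    (17056, 2, 19378), (17060, 2, 19328), (17064, 2, 19291), (17068, 2, 19333),
    (17072, 2, 19194), (17076, 2, 19512), (17080, 2, 19556), (17084, 2, 19164),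
    (17088, 2, 19503), (17092, 2, 19537), (17096, 2, 19389), (17100, 2, 19547),
    (17104, 2, 19300), (17108, 2, 19455), (17112, 2, 19387), (17116, 2, 19360),
    (17120, 2, 19471), (17124, 2, 19393), (17128, 2, 19634), (17132, 2, 19414),
    (17136, 2, 19299), (17140, 2, 19780), (17144, 2, 19220), (17148, 2, 19554),
    (17152, 2, 19335), (17156, 2, 19583), (17160, 2, 19473), (17164, 2, 19586),
    (17168, 2, 19610), (17172, 2, 19628), (17176, 2, 19396), (17180, 2, 19712),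
    (17184, 2, 19413), (17188, 2, 19545), (17192, 2, 19552), (17196, 2, 19728),
    (17200, 2, 19305), (17204, 2, 19439)]

theorem ft040 : FT fl040 := by
  refine ⟨?_, ?_, ?_, ?_, ?_, ?_, ?_, ?_, ?_, ?_, ?_, ?_, ?_, ?_, ?_, ?_, ?_, ?_, ?_, ?_, ?_, ?_, ?_, ?_, ?_, ?_, ?_, ?_, ?_, ?_, ?_, ?_, ?_, ?_, ?_, ?_, ?_, ?_, ?_, ?_, ?_, ?_, ?_, ?_, ?_, ?_, ?_, ?_, ?_, ?_, ?_, ?_, ?_, ?_, ?_, ?_, ?_, ?_, ?_, ?_, ?_, ?_, ?_, ?_, ?_, ?_, ?_, ?_, ?_, ?_, trivial⟩ <;> decide +kernel

end Pool.Agent.AddSq.Fa
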