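import Pool.Agent.AddSq.FastDefs

/-!
# Kernel facts: losses in the blocks from 550656 to 559615
-/

namespace Pool.Agent.AddSq.Fa

set_option maxRecDepth 100000

def fl041 : List (Nat × Nat × Nat) :=
   [(17208, 2, 19471), (17212, 2, 19571), (17216, 2, 19240), (17220, 2, 19392),
    (17224, 2, 19322), (17228, 2, 19382), (17232, 2, 19345), (17236, 2, 19324),
    (17240, 2, 19552), (17244, 2, 19492), (17248, 2, 19410), (17252, 2, 19388),
    (17256, 2, 19154), (17260, 2, 19502), (17264, 2, 19578), (17268, 2, 19252),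
    (17272, 2, 19702), (17276, 2, 19650), (17280, 2, 19548), (17284, 2, 19596),
    (17288, 2, 19433), (17292, 2, 19734), (17296, 2, 19541), (17300, 2, 19757),
    (17304, 2, 19477), (17308, 2, 19659), (17312, 2, 19681), (17316, 2, 19289),
    (17320, 2, 19737), (17324, 2, 19731), (17328, 2, 19405), (17332, 2, 19692),
    (17336, 2, 19548), (17340, 2, 19437), (17344, 2, 19584), (17348, 2, 19651),
    (17352, 2, 19713), (17356, 2, 19520), (17360, 2, 19585), (17364, 2, 19684),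
    (17368, 2, 19603), (17372, 2, 19554), (17376, 2, 19934), (17380, 2, 19758),
    (17384, 2, 19389), (17388, 2, 19631), (17392, 2, 19483), (17396, 2, 19261),
    (17400, 2, 19521), (17404, 2, 19486), (17408, 2, 19612), (17412, 2, 19791),
    (17416, 2, 19317), (17420, 2, 19715), (17424, 2, 19594), (17428, 2, 19806),
    (17432, 2, 19569), (17436, 2, 19831), (17440, 2, 19980), (17444, 2, 19731),
    (17448, 2, 19407), (17452, 2, 19528), (17456, 2, 19725), (17460, 2, 19681),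
    (17464, 2, 19449), (17468, 2, 19669), (17472, 2, 19498), (17476, 2, 19858),
    (17480, 2, 19549), (17484, 2, 19486)]

theorem ft041 : FT fl041 := by
  refine ⟨?_, ?_, ?_, ?_, ?_, ?_, ?_, ?_, ?_, ?_, ?_, ?_, ?_, ?_, ?_, ?_, ?_, ?_, ?_, ?_, ?_, ?_, ?_, ?_, ?_, ?_, ?_, ?_, ?_, ?_, ?_, ?_, ?_, ?_, ?_, ?_, ?_, ?_, ?_, ?_, ?_, ?_, ?_, ?_, ?_, ?_, ?_, ?_, ?_, ?_, ?_, ?_, ?_, ?_, ?_, ?_, ?_, ?_, ?_, ?_, ?_, ?_, ?_, ?_, ?_, ?_, ?_, ?_, ?_, ?_, trivial⟩ <;> decide +kernel

end Pool.Agent.AddSq.Fa
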