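import Pool.Agent.AddSq.FastDefs

/-!
# Kernel facts: losses in the blocks from 559616 to 568447
-/

namespace Pool.Agent.AddSq.Fa

set_option maxRecDepth 100000

def fl042 : List (Nat × Nat × Nat) :=
   [(17488, 2, 19697), (17492, 2, 19485), (17496, 2, 19872), (17500, 2, 19615),
    (17504, 2, 19827), (17508, 2, 19543), (17512, 2, 20053), (17516, 2, 19686),
    (17520, 2, 19594), (17524, 2, 19567), (17528, 2, 19923), (17532, 2, 19722),
    (17536, 2, 19662), (17540, 2, 19598), (17544, 2, 19796), (17548, 2, 19404),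
    (17552, 2, 19494), (17556, 2, 19628), (17560, 2, 19447), (17564, 2, 19673),
    (17568, 2, 19666), (17572, 2, 19675), (17576, 2, 19888), (17580, 2, 19855),
    (17584, 2, 19515), (17588, 2, 19494), (17592, 2, 19890), (17596, 2, 19958),
    (17600, 2, 19906), (17604, 2, 19750), (17608, 2, 19764), (17612, 2, 19849),
    (17616, 2, 19865), (17620, 2, 19714), (17624, 2, 19726), (17628, 2, 19669),
    (17632, 2, 20141), (17636, 2, 19632), (17640, 2, 19796), (17644, 2, 19615),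
    (17648, 2, 19696), (17652, 2, 19534), (17656, 2, 19439), (17660, 2, 19624),
    (17664, 2, 19639), (17668, 2, 19890), (17672, 2, 19952), (17676, 2, 19673),
    (17680, 2, 19971), (17684, 2, 19814), (17688, 2, 19729), (17692, 2, 19541),
    (17696, 2, 19848), (17700, 2, 19689), (17704, 2, 19612), (17708, 2, 20004),
    (17712, 2, 19883), (17716, 2, 19679), (17720, 2, 19900), (17724, 2, 19772),
    (17728, 2, 19645), (17732, 2, 19768), (17736, 2, 19554), (17740, 2, 19876),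
    (17744, 2, 20100), (17748, 2, 19729), (17752, 2, 19895), (17756, 2, 19698),
    (17760, 2, 20015)]

theorem ft042 : FT fl042 := by
  refine ⟨?_, ?_, ?_, ?_, ?_, ?_, ?_, ?_, ?_, ?_, ?_, ?_, ?_, ?_, ?_, ?_, ?_, ?_, ?_, ?_, ?_, ?_, ?_, ?_, ?_, ?_, ?_, ?_, ?_, ?_, ?_, ?_, ?_, ?_, ?_, ?_, ?_, ?_, ?_, ?_, ?_, ?_, ?_, ?_, ?_, ?_, ?_, ?_, ?_, ?_, ?_, ?_, ?_, ?_, ?_, ?_, ?_, ?_, ?_, ?_, ?_, ?_, ?_, ?_, ?_, ?_, ?_, ?_, ?_, trivial⟩ <;> decide +kernel

end Pool.Agent.AddSq.Fa
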