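import Pool.Agent.AddSq.FastDefs

/-!
# Kernel facts: losses in the blocks from 568448 to 577151
-/

namespace Pool.Agent.AddSq.Fa

set_option maxRecDepth 100000

def fl043 : List (Nat × Nat × Nat) :=
   [(17764, 2, 19816), (17768, 2, 20127), (17772, 2, 19608), (17776, 2, 20075),
    (17780, 2, 19978), (17784, 2, 19749), (17788, 2, 19554), (17792, 2, 19778),
    (17796, 2, 19793), (17800, 2, 19813), (17804, 2, 19915), (17808, 2, 19597),
    (17812, 2, 19937), (17816, 2, 20410), (17820, 2, 19911), (17824, 2, 19872),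
    (17828, 2, 19885), (17832, 2, 20093), (17836, 2, 20124), (17840, 2, 19821),
    (17844, 2, 19859), (17848, 2, 19879), (17852, 2, 19764), (17856, 2, 19848),
    (17860, 2, 19683), (17864, 2, 20182), (17868, 2, 19684), (17872, 2, 20004),
    (17876, 2, 19685), (17880, 2, 20023), (17884, 2, 20037), (17888, 2, 19930),
    (17892, 2, 19778), (17896, 2, 20168), (17900, 2, 19748), (17904, 2, 19977),
    (17908, 2, 20076), (17912, 2, 19698), (17916, 2, 19957), (17920, 2, 19897),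
    (17924, 2, 20062), (17928, 2, 19801), (17932, 2, 19935), (17936, 2, 19950),
    (17940, 2, 20033), (17944, 2, 19876), (17948, 2, 19822), (17952, 2, 19944),
    (17956, 2, 19676), (17960, 2, 19985), (17964, 2, 20203), (17968, 2, 19917),
    (17972, 2, 19951), (17976, 2, 19957), (17980, 2, 19859), (17984, 2, 19833),
    (17988, 2, 20040), (17992, 2, 19967), (17996, 2, 20077), (18000, 2, 19800),
    (18004, 2, 20050), (18008, 2, 20289), (18012, 2, 19712), (18016, 2, 19932),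
    (18020, 2, 20001), (18024, 2, 20064), (18028, 2, 19858), (18032, 2, 19745)]

theorem ft043 : FT fl043 := by
  refine ⟨?_, ?_, ?_, ?_, ?_, ?_, ?_, ?_, ?_, ?_, ?_, ?_, ?_, ?_, ?_, ?_, ?_, ?_, ?_, ?_, ?_, ?_, ?_, ?_, ?_, ?_, ?_, ?_, ?_, ?_, ?_, ?_, ?_, ?_, ?_, ?_, ?_, ?_, ?_, ?_, ?_, ?_, ?_, ?_, ?_, ?_, ?_, ?_, ?_, ?_, ?_, ?_, ?_, ?_, ?_, ?_, ?_, ?_, ?_, ?_, ?_, ?_, ?_, ?_, ?_, ?_, ?_, ?_, trivial⟩ <;> decide +kernel

end Pool.Agent.AddSq.Fa
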