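import Pool.Agent.AddSq.FastDefs

/-!
# Kernel facts: losses in the blocks from 577152 to 585727
-/

namespace Pool.Agent.AddSq.Fa

set_option maxRecDepth 100000

def fl044 : List (Nat × Nat × Nat) :=
   [(18036, 2, 19741), (18040, 2, 20014), (18044, 2, 19890), (18048, 2, 20260),
    (18052, 2, 20001), (18056, 2, 20125), (18060, 2, 20338), (18064, 2, 19843),
    (18068, 2, 20199), (18072, 2, 20480), (18076, 2, 20039), (18080, 2, 19973),
    (18084, 2, 19872), (18088, 2, 20413), (18092, 2, 20054), (18096, 2, 20252),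
    (18100, 2, 19894), (18104, 2, 20076), (18108, 2, 20089), (18112, 2, 19880),
    (18116, 2, 20085), (18120, 2, 20282), (18124, 2, 19991), (18128, 2, 20286),
    (18132, 2, 20182), (18136, 2, 20058), (18140, 2, 20240), (18144, 2, 20000),
    (18148, 2, 20400), (18152, 2, 19943), (18156, 2, 20309), (18160, 2, 20396),
    (18164, 2, 19907), (18168, 2, 20103), (18172, 2, 19810), (18176, 2, 20020),
    (18180, 2, 20119), (18184, 2, 20037), (18188, 2, 20156), (18192, 2, 19957),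
    (18196, 2, 20096), (18200, 2, 20119), (18204, 2, 20043), (18208, 2, 19943),
    (18212, 2, 19781), (18216, 2, 20326), (18220, 2, 20391), (18224, 2, 20300),
    (18228, 2, 20284), (18232, 2, 20167), (18236, 2, 20028), (18240, 2, 20370),
    (18244, 2, 20368), (18248, 2, 20362), (18252, 2, 20242), (18256, 2, 20131),
    (18260, 2, 20321), (18264, 2, 20103), (18268, 2, 20234), (18272, 2, 20253),
    (18276, 2, 20086), (18280, 2, 20486), (18284, 2, 20271), (18288, 2, 20065),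
    (18292, 2, 19960), (18296, 2, 20284), (18300, 2, 20409)]

theorem ft044 : FT fl044 := by
  refine ⟨?_, ?_, ?_, ?_, ?_, ?_, ?_, ?_, ?_, ?_, ?_, ?_, ?_, ?_, ?_, ?_, ?_, ?_, ?_, ?_, ?_, ?_, ?_, ?_, ?_, ?_, ?_, ?_, ?_, ?_, ?_, ?_, ?_, ?_, ?_, ?_, ?_, ?_, ?_, ?_, ?_, ?_, ?_, ?_, ?_, ?_, ?_, ?_, ?_, ?_, ?_, ?_, ?_, ?_, ?_, ?_, ?_, ?_, ?_, ?_, ?_, ?_, ?_, ?_, ?_, ?_, ?_, trivial⟩ <;> decide +kernel

end Pool.Agent.AddSq.Fa
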