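import Pool.Agent.AddSq.FastDefs

/-!
# Kernel facts: losses in the blocks from 585728 to 589823
-/

namespace Pool.Agent.AddSq.Fa

set_option maxRecDepth 100000

def fl045 : List (Nat × Nat × Nat) :=
   [(18304, 2, 19970), (18308, 2, 20227), (18312, 2, 20142), (18316, 2, 20532),
    (18320, 2, 20162), (18324, 2, 20500), (18328, 2, 20127), (18332, 2, 20186),
    (18336, 2, 20286), (18340, 2, 19953), (18344, 2, 20302), (18348, 2, 20271),
    (18352, 2, 20309), (18356, 2, 20179), (18360, 2, 20069), (18364, 2, 20054),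
    (18368, 2, 20388), (18372, 2, 20163), (18376, 2, 19954), (18380, 2, 20406),
    (18384, 2, 20246), (18388, 2, 20512), (18392, 2, 19787), (18396, 2, 20149),
    (18400, 2, 20207), (18404, 2, 20179), (18408, 2, 19994), (18412, 2, 20143),
    (18416, 2, 20187), (18420, 2, 20513), (18424, 2, 20367), (18428, 2, 20355)]

theorem ft045 : FT fl045 := by
  refine ⟨?_, ?_, ?_, ?_, ?_, ?_, ?_, ?_, ?_, ?_, ?_, ?_, ?_, ?_, ?_, ?_, ?_, ?_, ?_, ?_, ?_, ?_, ?_, ?_, ?_, ?_, ?_, ?_, ?_, ?_, ?_, ?_, trivial⟩ <;> decide +kernel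

end Pool.Agent.AddSq.Fa
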