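import Pool.Agent.AddSq.FastList
import Pool.Agent.AddSq.FKDat
import Pool.Agent.AddSq.FK001
import Pool.Agent.AddSq.FK002
import Pool.Agent.AddSq.FK003
import Pool.Agent.AddSq.FK004
import Pool.Agent.AddSq.FK005
import Pool.Agent.AddSq.FK006
import Pool.Agent.AddSq.FK007
import Pool.Agent.AddSq.FK008
import Pool.Agent.AddSq.FK009
import Pool.Agent.AddSq.FK010
import Pool.Agent.AddSq.FK011
import Pool.Agent.AddSq.FK012
import Pool.Agent.AddSq.FK013
import Pool.Agent.AddSq.FK014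
import Pool.Agent.AddSq.FK015
import Pool.Agent.AddSq.FK016
import Pool.Agent.AddSq.FK017
import Pool.Agent.AddSq.FK018
import Pool.Agent.AddSq.FK019
import Pool.Agent.AddSq.FK020
import Pool.Agent.AddSq.FK021
import Pool.Agent.AddSq.FK022
import Pool.Agent.AddSq.FK023
import Pool.Agent.AddSq.FK024
import Pool.Agent.AddSq.FK025
import Pool.Agent.AddSq.FK026
import Pool.Agent.AddSq.FK027
import Pool.Agent.AddSq.FK028
import Pool.Agent.AddSq.FK029
import Pool.Agent.AddSq.FK030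
import Pool.Agent.AddSq.FK031
import Pool.Agent.AddSq.FK032
import Pool.Agent.AddSq.FK033
import Pool.Agent.AddSq.FK034
import Pool.Agent.AddSq.FK035
import Pool.Agent.AddSq.FK036
import Pool.Agent.AddSq.FK037
import Pool.Agent.AddSq.FK038
import Pool.Agent.AddSq.FK039
import Pool.Agent.AddSq.FK040
import Pool.Agent.AddSq.FK041
import Pool.Agent.AddSq.FK042
import Pool.Agent.AddSq.FK043
import Pool.Agent.AddSq.FK044
import Pool.Agent.AddSq.FK045

/-!
# The kernel data: bounds for the number of lost positions up to `589824² - 1`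
-/

namespace Pool.Agent.AddSq.Fa

set_option maxRecDepth 100000

/-- all facts -/
def flAll : List (ℕ × ℕ × ℕ) :=
  fl001 ++ (fl002 ++ (fl003 ++ (fl004 ++ (fl005 ++ (fl006 ++ (fl007 ++ (fl008 ++ (fl009 ++ (fl010 ++ (fl011 ++ (fl012 ++ (fl013 ++ (fl014 ++ (fl015 ++ (fl016 ++ (fl017 ++ (fl018 ++ (fl019 ++ (fl020 ++ (fl021 ++ (fl022 ++ (fl023 ++ (fl024 ++ (fl025 ++ (fl026 ++ (fl027 ++ (fl028 ++ (fl029 ++ (fl030 ++ (fl031 ++ (fl032 ++ (fl033 ++ (fl034 ++ (fl035 ++ (fl036 ++ (fl037 ++ (fl038 ++ (fl039 ++ (fl040 ++ (fl041 ++ (fl042 ++ (fl043 ++ (fl044 ++ (fl045))))))))))))))))))))))))))))))))))))))))))))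

theorem ft_all : FT flAll :=
  FT_append ft001 (FT_append ft002 (FT_append ft003 (FT_append ft004 (FT_append ft005 (FT_append ft006 (FT_append ft007 (FT_append ft008 (FT_append ft009 (FT_append ft010 (FT_append ft011 (FT_append ft012 (FT_append ft013 (FT_append ft014 (FT_append ft015 (FT_append ft016 (FT_append ft017 (FT_append ft018 (FT_append ft019 (FT_append ft020 (FT_append ft021 (FT_append ft022 (FT_append ft023 (FT_append ft024 (FT_append ft025 (FT_append ft026 (FT_append ft027 (FT_append ft028 (FT_append ft029 (FT_append ft030 (FT_append ft031 (FT_append ft032 (FT_append ft033 (FT_append ft034 (FT_append ft035 (FT_append ft036 (FT_append ft037 (FT_append ft038 (FT_append ft039 (FT_append ft040 (FT_append ft041 (FT_append ft042 (FT_append ft043 (FT_append ft044 (ft045))))))))))))))))))))))))))))))))))))))))))))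

theorem walk_all : walk flAll 68 12261 kdM = true := by decide +kernel

theorem chkT_all : chkT 3600 kdT 0 0 = true := by decide +kernel

theorem kdT_le : ∀ p ∈ kdT, 1 ≤ p.1 ∧ p.1 ≤ 2200 := by decide +kernel

theorem mem_kdT : (2176, 12261) ∈ kdT := by decide +kernel

/-- The bounds `(R, v)`: at most `v` lost positions below `R²`. -/
theorem kernel_data {W L : ℕ → Prop} (h : GRules W L) :
    ∀ p ∈ kd, 1 ≤ p.1 ∧ gcount L (p.1 * p.1 - 1) ≤ p.2 := by
  have hT : Tab TL.WT TL.LT W L (2200 * 2200) :=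
    ⟨fun n hn hw => TL.tab_valid.1 n hn ((h.small n hn).1 hw),
      fun n hn hl => TL.tab_valid.2 n hn ((h.small n hn).2 hl)⟩
  have hR : ∀ n, 1 ≤ n → L n → W (rem n) ∧ Tail4 W L n := fun n hn hl => h.l n hn hl
  have h1 : ∀ p ∈ kdT, 1 ≤ p.1 ∧ cntI L 0 (p.1 * p.1) ≤ p.2 :=
    chkT_spec hT.2 (n := 3600) (by norm_num) kdT 0 0 kdT_le (by rw [Nat.mul_zero, cntI_self])
      chkT_all
  have h2 : ∀ p ∈ kdM, 1 ≤ p.1 ∧ cntI L 0 (p.1 * p.1) ≤ p.2 :=
    walk_spec hR hT flAll 68 12261 kdM (by norm_num) ft_all (h1 _ mem_kdT).2 walk_all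
  intro p hp
  have h3 : 1 ≤ p.1 ∧ cntI L 0 (p.1 * p.1) ≤ p.2 := by
    rcases List.mem_append.mp hp with hp | hp
    · exact h1 p hp
    · exact h2 p hp
  refine ⟨h3.1, ?_⟩
  have h4 : 1 * 1 ≤ p.1 * p.1 := Nat.mul_le_mul h3.1 h3.1
  rw [← cntI_zero_eq L (x := p.1 * p.1 - 1) (y := p.1 * p.1) (by omega)]
  exact h3.2

end Pool.Agent.AddSq.Fa
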