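import Pool.Agent.AddSq.Bridge

/-!
# Interfaces of the blocks of MP_006ce8_co (blueprint of helper13)

Only definitions; every block proves statements written with these definitions.
Constants: shift `D = 110`, windows `[K, K + H)` with `3 H ≤ 2 K`, `K ≥ K₀ = 5 000 000`.
-/

namespace Pool.Agent.AddSq

open Finset

/-- number of lost positions in `[0, x]` (the position `0` is lost) -/
noncomputable def cL (x : ℕ) : ℕ := (lostSet x).card

/-- number of wins in `[0, x]` -/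
noncomputable def cW (x : ℕ) : ℕ := (winSet x).card

/-- `r₂` of the position `k² + a` -/
def r2 (k a : ℕ) : ℕ := rem (up (up (k * k + a)))

/-- incidences of lag two -/
def pairs2 (A B : Finset ℕ) (K H : ℕ) : Finset (ℕ × ℕ) :=
  (A ×ˢ Finset.Ico K (K + H)).filter (fun p => p.1 ≤ 2 * p.2 ∧ r2 p.2 p.1 ∈ B)

/-- the inequality of lag one (`D = 110`), weighted form: every `a` is counted with its own
number of blocks `k` (`a ≤ 2 k`) -/
def LagBound1 (K₀ S : ℕ) : Prop := ∀ (K H : ℕ) (A B : Finset ℕ), K₀ ≤ K → 3 * H ≤ 2 * K →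
  ((110 : ℝ) * (pairs1 A B K H).card) ^ 2 ≤
    (110 * (A.card : ℝ) + ∑ k ∈ Finset.Ico K (K + H), ((A.filter (fun a => a ≤ 2 * k)).card : ℝ)) *
      (110 * (pairs1 A B K H).card + S * (B.card : ℝ) ^ 2)

/-- the inequality of lag two (`D = 110`), weighted form (`r₂ ≤ 4 k`) -/
def LagBound2 (K₀ S : ℕ) : Prop := ∀ (K H : ℕ) (A B : Finset ℕ), K₀ ≤ K → 3 * H ≤ 2 * K →
  ((110 : ℝ) * (pairs2 A B K H).card) ^ 2 ≤
    (110 * (B.card : ℝ) + ∑ k ∈ Finset.Ico K (K + H), ((B.filter (fun c => c ≤ 4 * k)).card : ℝ)) *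
      (110 * (pairs2 A B K H).card + S * (A.card : ℝ) ^ 2)

/-- `Valid M X u b` (used with `32 M ≤ X`): densities `≤ u` (wins), `≤ b` (lost) on `[M, X]`,
with the square-root shape below `M`. -/
def Valid (M X : ℕ) (u b : ℝ) : Prop := ∀ x : ℕ, 1 ≤ x → x ≤ X →
  (cW x : ℝ) ≤ u * max (x : ℝ) (Real.sqrt ((x : ℝ) * M)) ∧
  (cL x : ℝ) ≤ b * max (x : ℝ) (Real.sqrt ((x : ℝ) * M))

/-! ### The finite certificate -/

/-- `⌊√2 d⌋` for an integer `d` -/
def fl (d : ℤ) : ℤ :=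
  if 0 ≤ d then (Nat.sqrt (2 * d.natAbs ^ 2) : ℤ) else -((Nat.sqrt (2 * d.natAbs ^ 2) : ℤ) + 1)

/-- `t(d) = √2 d - ⌊√2 d⌋`, in `(0, 1)` for `d ≠ 0` -/
noncomputable def tt (d : ℤ) : ℝ := Real.sqrt 2 * d - fl d

/-- `⌊10⁹ t(d)⌋` for `d ≠ 0` -/
def tl (d : ℤ) : ℕ :=
  (if 0 ≤ d then (Nat.sqrt (2 * 10 ^ 18 * d.natAbs ^ 2) : ℤ) - 10 ^ 9 * fl d
    else -((Nat.sqrt (2 * 10 ^ 18 * d.natAbs ^ 2) : ℤ) + 1) - 10 ^ 9 * fl d).toNat

def gg (d : ℤ) : ℕ := Int.gcd (2 * d) (fl d)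

/-- bound for the number of solutions on a line, lag one -/
def mult1 (d : ℤ) : ℕ := 1 + 101 * gg d * 10 ^ 9 / (200 * tl d)

/-- lag two, equal types -/
def mult2s (d : ℤ) : ℕ :=
  if 500100000 < tl d then 0
  else 2 + (100 * (102 * gg d * (10 ^ 9 - 2 * tl d) * 1000) + 2 * (141421 * tl d)) /
    (100 * (141421 * tl d))

/-- lag two, types `(-1, 0)` -/
def mult2c (d : ℤ) : ℕ :=
  if tl d < 207000000 ∨ 707500000 < tl d then 0
  else 1 + (100 * (101 * gg d * (2 * (tl d + 1) - 414210000) * 1000) +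
    2 * (141421 * (tl d + 1))) / (100 * (141421 * (tl d + 1)))

/-- the residue class of `u = Q(κ + d, m + fl d) - Q(κ, m)` -/
def cls (d u : ℤ) : Bool :=
  if fl d % 2 = 1 then u % 2 = 1 else if d % 2 = 1 then u % 4 = 2 else u % 4 = 0

/-- `d` may be active together with `i`, `t(i)` being the smallest active value -/
def near (i d : ℤ) : Bool := tl i ≤ tl d && 3 * tl d ≤ 5 * tl i + 3000000

def W1 (d : ℤ) : ℕ := (110 - d.natAbs) * mult1 d
def W2s (d : ℤ) : ℕ := (110 - d.natAbs) * mult2s d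
def W2c (d : ℤ) : ℕ := (110 - (d - 1).natAbs) * mult2c d

/-- the range of `d` (`d ≠ 0`, `|d| ≤ 110`) -/
noncomputable def Dset : Finset ℤ := (Finset.Icc (-110 : ℤ) 110).erase 0

/-- certificate, lag one -/
def Cert1 (S : ℕ) : Prop := ∀ r : ℤ, ∀ i ∈ Dset,
  ∑ d ∈ Dset, (if cls d r && near i d then W1 d else 0) ≤ S

/-- certificate, lag two -/
def Cert2 (S : ℕ) : Prop := ∀ r : ℤ, ∀ i ∈ Dset,
  ∑ d ∈ Dset, ((if cls d r && near i d then W2s d else 0) +
    (if cls d (r - 1) && near i d then W2c d else 0)) ≤ S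

end Pool.Agent.AddSq
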