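import Pool.Agent.AddSq.LOneAsm
import Pool.Agent.AddSq.Lag1w
import Pool.Agent.AddSq.Iface

/-!
# Lag one: the final inequality

The certificate for `D = 110`, windows `3 H ≤ 2 K`, `K ≥ 5 000 000`.
-/

namespace Pool.Agent.AddSq.L1

open Finset

/-- sums over `0 < |d| < D` -/
theorem sum_sym (D : ℕ) (F : ℤ → ℕ) :
    ∑ d ∈ (Ioo (-(D : ℤ)) D).erase 0, F d =
      ∑ i ∈ range (D - 1), (F ((i + 1 : ℕ) : ℤ) + F (-((i + 1 : ℕ) : ℤ))) := by
  have h1 : (Ioo (-(D : ℤ)) D).erase 0 =
      ((range (D - 1)).image (fun i : ℕ => ((i + 1 : ℕ) : ℤ))) ∪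
      ((range (D - 1)).image (fun i : ℕ => -((i + 1 : ℕ) : ℤ))) := by
    ext d
    rw [mem_erase, mem_Ioo, mem_union, mem_image, mem_image]
    constructor
    · rintro ⟨h0, h1, h2⟩
      rcases lt_or_gt_of_ne h0 with h | h
      · right
        refine ⟨d.natAbs - 1, ?_, ?_⟩
        · rw [Finset.mem_range]; omega
        · push_cast
          omega
      · left
        refine ⟨d.natAbs - 1, ?_, ?_⟩
        · rw [Finset.mem_range]; omega
        · push_cast
          omega
    · rintro (⟨i, hi, rfl⟩ | ⟨i, hi, rfl⟩)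
      · rw [Finset.mem_range] at hi
        refine ⟨by omega, by omega, by omega⟩
      · rw [Finset.mem_range] at hi
        refine ⟨by omega, by omega, by omega⟩
  rw [h1, Finset.sum_union, Finset.sum_image, Finset.sum_image, ← Finset.sum_add_distrib]
  · intro a _ b _ hab
    simp only at hab
    omega
  · intro a _ b _ hab
    simp only at hab
    omega
  · rw [Finset.disjoint_left]
    intro d h2 h3
    rw [mem_image] at h2 h3
    obtain ⟨i, _, hi⟩ := h2
    obtain ⟨j, _, hj⟩ := h3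
    omega

open Classical in
/-- the sum of the certificate for a fixed difference `h` -/
noncomputable def hsum (K H D μ : ℕ) (h : ℤ) (d : ℤ) : ℕ :=
  (D - d.natAbs) * ∑ e ∈ E1 d, (if Comp K H D d e h then J1 μ d e + 1 else 0)

theorem J1_neg (μ : ℕ) (d e : ℤ) : J1 μ (-d) (-e) = J1 μ d e := by
  unfold J1
  rw [Int.natAbs_neg, Int.natAbs_neg]

theorem mem_E1_neg {d e : ℤ} (hd : d ≠ 0) (he : e ∈ E1 d) : -e ∈ E1 (-d) := by
  unfold E1 at he ⊢
  rw [Int.natAbs_neg]
  split_ifs at he ⊢ with h1 h2 h2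
  · omega
  · rw [mem_insert, mem_singleton] at he ⊢
    omega
  · rw [mem_insert, mem_singleton] at he ⊢
    omega
  · omega

theorem hsum_neg {K H D μ : ℕ} {h d : ℤ} (hd : d ≠ 0) :
    hsum K H D μ (-h) (-d) = hsum K H D μ h d := by
  classical
  unfold hsum
  rw [Int.natAbs_neg]
  congr 1
  refine Finset.sum_bij' (fun e _ => -e) (fun e _ => -e) ?_ ?_ ?_ ?_ ?_
  · intro e he
    have := mem_E1_neg (d := -d) (by omega) he
    rwa [neg_neg] at this
  · intro e he
    exact mem_E1_neg hd he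
  · intro e _; simp
  · intro e _; simp
  · intro e _
    have e1 : J1 μ (-d) e = J1 μ d (-e) := by
      have := J1_neg μ d (-e)
      rw [neg_neg] at this
      exact this
    by_cases hc : Comp K H D (-d) e (-h)
    · have h2 := hc.neg
      rw [neg_neg, neg_neg] at h2
      rw [if_pos hc, if_pos h2, e1]
    · have h2 : ¬ Comp K H D d (-e) h := by
        intro h3
        have h4 := h3.neg
        rw [neg_neg] at h4
        exact hc h4
      rw [if_neg hc, if_neg h2]

/-- `h ≥ 0` -/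
theorem hM_nonneg {D p q sl μ M K₀ K H tm : ℕ} (hcert : certFrom D p q sl μ M (D - 1) = true)
    (hgood : goodFrom D μ K₀ tm (D - 1) = true) (htm : D < tm) (hD : 1 ≤ D) (hK1 : 1 ≤ K)
    (h1 : 4 * D * 1000000000000 ≤ K * (tm - D))
    (h3 : (p + q) * D * K + 6 * q * D * 1000000000000 ≤ sl * K)
    (hKH : q * (K + H) ≤ p * K) (h : ℤ) (hh : 0 ≤ h) :
    ∑ d ∈ (Ioo (-(D : ℤ)) D).erase 0, hsum K H D μ h d ≤ M := by
  classical
  rw [sum_sym]
  set cP : ℕ → Prop := fun δ => Comp K H D δ (EP δ) h with hcP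
  set cN : ℕ → Prop := fun δ => Comp K H D (-(δ : ℤ)) (-(EN δ : ℤ)) h with hcN
  have htmr : (D : ℝ) < tm := by exact_mod_cast htm
  have fact : ∀ δ, 1 ≤ δ → δ ≤ D - 1 →
      (tm : ℝ) - D ≤ 1000000000000 * (Real.sqrt 2 * δ - EP δ) ∧
      (tm : ℝ) - D ≤ 1000000000000 * (EN δ - Real.sqrt 2 * δ) := by
    intro δ a1 a2
    obtain ⟨g1, g2, _, _⟩ := good_spec hgood a1 a2
    have g1r : (tm : ℝ) ≤ TP δ := by exact_mod_cast g1
    have g2r : (tm : ℝ) ≤ TN δ := by exact_mod_cast g2
    have b1 := (valP a2).1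
    have b2 := (valN a2).1
    exact ⟨by linarith, by linarith⟩
  have key := window (D := D) (p := p) (q := q) (sl := sl) (μ := μ) (M := M) hcert cP cN (clh h)
    ?_ ?_ ?_ ?_ ?_ ?_
  · refine le_trans (Finset.sum_le_sum ?_) key
    intro i hi
    rw [Finset.mem_range] at hi
    obtain ⟨f1, f2⟩ := fact (i + 1) (by omega) (by omega)
    have hne : EN (i + 1) ≠ EP (i + 1) := by unfold EN; omega
    apply Nat.add_le_add
    · -- `d = i + 1`
      unfold hsum E1
      rw [Int.natAbs_natCast, if_pos (by omega : (0 : ℤ) < ((i + 1 : ℕ) : ℤ))]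
      rw [Finset.sum_pair (by intro hc; exact hne (by exact_mod_cast hc.symm))]
      have hno : ¬ Comp K H D ((i + 1 : ℕ) : ℤ) (EN (i + 1) : ℤ) h := by
        apply not_comp_neg hD h1 htm hh
        · push_cast at f2 ⊢
          linarith
        · push_cast at f2 ⊢
          exact f2
      rw [if_neg hno, Nat.add_zero]
      by_cases hc : cP (i + 1)
      · rw [if_pos hc, if_pos hc]
        unfold WW J1
        rw [Int.natAbs_natCast, Int.natAbs_natCast, if_pos rfl]
      · rw [if_neg hc, if_neg hc, Nat.mul_zero]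
    · -- `d = -(i + 1)`
      unfold hsum E1
      rw [Int.natAbs_neg, Int.natAbs_natCast,
        if_neg (by omega : ¬ (0 : ℤ) < -((i + 1 : ℕ) : ℤ))]
      rw [Finset.sum_pair (by intro hc; exact hne (by omega))]
      have hno : ¬ Comp K H D (-((i + 1 : ℕ) : ℤ)) (-(EP (i + 1) : ℤ)) h := by
        apply not_comp_neg hD h1 htm hh
        · push_cast at f1 ⊢
          linarith
        · push_cast at f1 ⊢
          linarith
      rw [if_neg hno, Nat.zero_add]
      by_cases hc : cN (i + 1)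
      · rw [if_pos hc, if_pos hc]
        unfold WW J1
        rw [Int.natAbs_neg, Int.natAbs_natCast, Int.natAbs_neg, Int.natAbs_natCast, if_neg hne]
      · rw [if_neg hc, if_neg hc, Nat.mul_zero]
  · -- classes
    intro δ _ _ hc
    have := cl_eq hc.2
    rw [Int.natAbs_natCast, Int.natAbs_natCast] at this
    exact this
  · intro δ _ _ hc
    have := cl_eq hc.2
    rw [Int.natAbs_neg, Int.natAbs_natCast, Int.natAbs_neg, Int.natAbs_natCast] at this
    exact this
  all_goals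
    intro δ δ' a1 a2 a1' a2' hc hc'
    obtain ⟨f1, f2⟩ := fact δ a1 a2
    obtain ⟨f1', f2'⟩ := fact δ' a1' a2'
    obtain ⟨⟨k, hk1, hk2, hk3⟩, _⟩ := hc
    obtain ⟨⟨k', hk1', hk2', hk3'⟩, _⟩ := hc'
    have vP := valP a2
    have vN := valN a2
    have vP' := valP a2'
    have vN' := valN a2'
    push_cast at hk3 hk3'
  · exact ratio (t := Real.sqrt 2 * δ - EP δ) (t' := Real.sqrt 2 * δ' - EP δ') hK1 hk1 hk2' hk1'
      (by linarith) (by linarith) hk3 hk3' vP.1 vP'.2 h3 hKH
  · have e' : Real.sqrt 2 * (-(δ' : ℝ)) - -(EN δ' : ℝ) = EN δ' - Real.sqrt 2 * δ' := by ring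
    rw [e'] at hk3'
    exact ratio (t := Real.sqrt 2 * δ - EP δ) (t' := EN δ' - Real.sqrt 2 * δ') hK1 hk1 hk2' hk1'
      (by linarith) (by linarith) hk3 hk3' vP.1 vN'.2 h3 hKH
  · have e : Real.sqrt 2 * (-(δ : ℝ)) - -(EN δ : ℝ) = EN δ - Real.sqrt 2 * δ := by ring
    rw [e] at hk3
    exact ratio (t := EN δ - Real.sqrt 2 * δ) (t' := Real.sqrt 2 * δ' - EP δ') hK1 hk1 hk2' hk1'
      (by linarith) (by linarith) hk3 hk3' vN.1 vP'.2 h3 hKH
  · have e : Real.sqrt 2 * (-(δ : ℝ)) - -(EN δ : ℝ) = EN δ - Real.sqrt 2 * δ := by ring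
    have e' : Real.sqrt 2 * (-(δ' : ℝ)) - -(EN δ' : ℝ) = EN δ' - Real.sqrt 2 * δ' := by ring
    rw [e] at hk3
    rw [e'] at hk3'
    exact ratio (t := EN δ - Real.sqrt 2 * δ) (t' := EN δ' - Real.sqrt 2 * δ') hK1 hk1 hk2' hk1'
      (by linarith) (by linarith) hk3 hk3' vN.1 vN'.2 h3 hKH

/-- all `h` -/
theorem hM_all {D p q sl μ M K₀ K H tm : ℕ} (hcert : certFrom D p q sl μ M (D - 1) = true)
    (hgood : goodFrom D μ K₀ tm (D - 1) = true) (htm : D < tm) (hD : 1 ≤ D) (hK1 : 1 ≤ K)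
    (h1 : 4 * D * 1000000000000 ≤ K * (tm - D))
    (h3 : (p + q) * D * K + 6 * q * D * 1000000000000 ≤ sl * K)
    (hKH : q * (K + H) ≤ p * K) (h : ℤ) :
    ∑ d ∈ (Ioo (-(D : ℤ)) D).erase 0, hsum K H D μ h d ≤ M := by
  rcases le_total 0 h with hh | hh
  · exact hM_nonneg hcert hgood htm hD hK1 h1 h3 hKH h hh
  · have h4 := hM_nonneg hcert hgood htm hD hK1 h1 h3 hKH (-h) (by omega)
    refine le_trans (le_of_eq ?_) h4
    refine Finset.sum_bij' (fun d _ => -d) (fun d _ => -d) ?_ ?_ ?_ ?_ ?_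
    · intro d hd
      rw [mem_erase, mem_Ioo] at hd ⊢
      omega
    · intro d hd
      rw [mem_erase, mem_Ioo] at hd ⊢
      omega
    · intro d _; simp
    · intro d _; simp
    · intro d hd
      rw [mem_erase] at hd
      exact (hsum_neg hd.1).symm

/-- **Lag one with a certificate, weighted form.** -/
theorem lag1_cert {D p q sl μ M K₀ K H tm : ℕ} (hcert : certFrom D p q sl μ M (D - 1) = true)
    (hgood : goodFrom D μ K₀ tm (D - 1) = true) (htm : D < tm) (hD : 1 ≤ D)
    (hK0 : 1 ≤ K₀) (hKK : K₀ ≤ K) (hμ : 1000000000000 ≤ 2 * μ)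
    (hK2 : 2 * D ^ 2 ≤ K)
    (h1 : 4 * D * 1000000000000 ≤ K * (tm - D))
    (h3 : (p + q) * D * K + 6 * q * D * 1000000000000 ≤ sl * K)
    (hKH : q * (K + H) ≤ p * K) (A B : Finset ℕ) :
    ((D : ℝ) * (pairs1 A B K H).card) ^ 2 ≤
      ((D : ℝ) * A.card + (∑ k ∈ Finset.Ico K (K + H), (A.filter (fun a => a ≤ 2 * k)).card : ℕ)) *
        (D * (pairs1 A B K H).card + M * (B.card : ℝ) ^ 2) := by
  classical
  apply lag1_w A B (hK0.trans hKK) E1 (J1 μ) (Comp K H D)
  · intro d hd hd2 k m m' a b b' k1 k2 k3 k4 s s'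
    exact hE1 hgood htm hK2 d hd hd2 k m m' a b b' k1 k2 k3 k4 s s'
  · intro d hd hd2 e he
    exact hJ1 hgood htm h1 hK0 hKK hμ d hd hd2 e he
  · intro h
    have := hM_all hcert hgood htm hD (hK0.trans hKK) h1 h3 hKH h
    refine le_trans (le_of_eq ?_) this
    apply Finset.sum_congr rfl
    intro d _
    unfold hsum
    congr 1

set_option maxRecDepth 10000 in
theorem cert110 : certFrom 110 5 3 400000000 505000000000 5172 109 = true := by decide +kernel

set_option maxRecDepth 10000 in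
theorem good110 : goodFrom 110 505000000000 5000000 5050000000 109 = true := by decide +kernel

end Pool.Agent.AddSq.L1

namespace Pool.Agent.AddSq

/-- **The inequality of lag one.** -/
theorem lagBound1 : LagBound1 5000000 5172 := by
  intro K H A B hK hH
  have := L1.lag1_cert (D := 110) (p := 5) (q := 3) (K := K) (H := H) (tm := 5050000000)
    (K₀ := 5000000) L1.cert110 L1.good110 (by norm_num) (by norm_num) (by norm_num) hK (by norm_num)
    (by omega) (by omega) (by omega) (by omega) A B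
  push_cast at this
  exact this

end Pool.Agent.AddSq
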