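import Pool.Agent.AddSq.LagTwo
import Pool.Agent.AddSq.Lag2Num
import Pool.Agent.AddSq.ActiveCert

/-!
# Lag two: the counting inequality for wins at `r₀` and `r₂`
-/

namespace Pool.Agent.AddSq

/-- **Counting inequality of lag two**, `D = 110`, `3 H ≤ 2 K`, `K ≥ 5 000 000`. -/
theorem lagBound2 : LagBound2 5000000 5720 := lagBound2_of active_cert2 num_same num_cross

end Pool.Agent.AddSq
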