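import Pool.Agent.AddSq.RecFin
import Pool.Agent.AddSq.FKDat

/-!
# The start of the flat recursion

From the list `Fa.kd` of upper bounds for the numbers of lost positions and the inequalities
`SysW` the computation `run` gives the bounds `0.0055` and `0.0018` at the scale
`M = 2 * 10 ^ 37` on the interval `[1, 32 Y]`, `Y = 8 * 10 ^ 38`.
-/

namespace Pool.Agent.AddSq

open Rec

/-- The computation is accepted. -/
theorem run_ok : run 5172 5720 5000000 (finE 55 18 (2 * 10 ^ 37) (32 * (8 * 10 ^ 38)))
    [(63, 99207, 1156), (63, 99207, 1500)] Fa.kd = true := by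
  decide +kernel

/-- The start of the flat recursion. -/
theorem start {cW cL : ℕ → ℕ} (hs : SysW 5172 5720 5000000 cW cL) (hd : DV cL Fa.kd) :
    ValidF cW cL (2 * 10 ^ 37) (32 * (8 * 10 ^ 38)) 0.0055 0.0018 :=
  validF_of_run hs hd run_ok

end Pool.Agent.AddSq
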