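import Pool.Agent.AddSq.FinalExp
import Pool.Agent.AddSq.RecStart
import Pool.Agent.AddSq.FKData
import Pool.Agent.AddSq.LagOne
import Pool.Agent.AddSq.LagTwoFin

/-!
# MP_006ce8_co: the value of the add-or-subtract-square game is generically computable
-/

namespace Pool.Agent.AddSq.DrawDensitySparse

open Finset Pool.Agent.AddSq

/-- There is an algorithm `g` (a recursive, not everywhere defined function) which never gives a
wrong value (`0` draw, `1` win, `2` loss), halts on every win and on every loss, and halts on a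
primitive recursive set `D` of draws of upper density one; along the intervals
`[M ^ 2 ^ j, 32 Y ^ 2 ^ j]`, `M = 2 * 10 ^ 37`, `Y = 8 * 10 ^ 38`, all but
`C x exp (- (log x) ^ (1/7))` of the positive integers up to `x` lie in `D`. -/
theorem result :
    ∃ g : ℕ →. ℕ, Partrec g ∧ (∀ n, WinsP n → g n = Part.some 1) ∧
      (∀ n, LosesP n → g n = Part.some 2) ∧
      (∀ n, DrawsP n → g n = Part.some 0 ∨ g n = Part.none) ∧
      ∃ D : ℕ → Bool, Primrec D ∧ (∀ n, 1 ≤ n → D n = true → DrawsP n ∧ g n = Part.some 0) ∧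
        Filter.limsup (fun x : ℕ =>
          (((Icc 1 x).filter (fun n => D n = true)).card : ℝ) / x) Filter.atTop = 1 ∧
        ∃ C : ℝ, ∀ j x : ℕ, (2 * 10 ^ 37) ^ 2 ^ j ≤ x → x ≤ 32 * (8 * 10 ^ 38) ^ 2 ^ j →
          (((Icc 1 x).filter (fun n => D n = false)).card : ℝ) ≤
            C * x * Real.exp (-(Real.log x) ^ (1 / 7 : ℝ)) := by
  have hsys : SysW 5172 5720 5000000 (gcount Wp) (gcount Lp) :=
    sysW_of_rules grules_wl (by norm_num) lagBound1 lagBound2
  have hv : ValidF (gcount Wp) (gcount Lp) (2 * 10 ^ 37) (32 * (8 * 10 ^ 38)) 0.0055 0.0018 :=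
    start hsys (Fa.kernel_data grules_wl)
  exact final_sparse_exp (by norm_num) contr_old (stepThm_old hsys).toT (by norm_num)
    (by norm_num) (by norm_num) (by norm_num) hv

end Pool.Agent.AddSq.DrawDensitySparse
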