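import Pool.Agent.AddSq.Closure
import Pool.Agent.AddSq.Arith

/-!
# Evaluation of the truncated rules on whole segments of a block, by big natural numbers

`E WT LT j true p r len` has bit `x` set for every `x < len` such that `p² + r + x` satisfies the
truncated win rule of depth `j` for the tables `WT`, `LT` (sets of natural numbers given by their
bits); `E WT LT j false p r len` is the same for the truncated loss rule.
-/

namespace Pool.Agent.AddSq.Ev

/-- `⌊√2 · 2⁶⁴⌋` -/
def c64 : ℕ := 26087635650665564424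

/-- `⌊√2 p⌋` for `p < 2 ^ 31` -/
def mm (p : ℕ) : ℕ := Nat.shiftRight (Nat.mul p c64) 64

/-- the segment `[u, u + len)` of the set `X` -/
def seg (X u len : ℕ) : ℕ := Nat.land (Nat.shiftRight X u) (Nat.sub (Nat.shiftLeft 1 len) 1)

/-- the segment after an up move; `m = mm p`, `a = 2p² - m²`, `t = (m+1)² - 2p²` -/
noncomputable def UPF1 (F : ℕ → ℕ → ℕ → ℕ) (m a t r len : ℕ) : ℕ :=
  @Bool.rec (fun _ => ℕ)
    (@Bool.rec (fun _ => ℕ)
      (Nat.lor (F m (Nat.add r a) (Nat.sub t r))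
        (Nat.shiftLeft (F (Nat.succ m) 0 (Nat.sub len (Nat.sub t r))) (Nat.sub t r)))
      (F (Nat.succ m) (Nat.sub r t) len) (Nat.ble t r))
    (F m (Nat.add r a) len) (Nat.ble (Nat.add r len) t)

noncomputable def UPF (F : ℕ → ℕ → ℕ → ℕ) (p r len : ℕ) : ℕ :=
  UPF1 F (mm p) (Nat.sub (Nat.mul 2 (Nat.mul p p)) (Nat.mul (mm p) (mm p)))
    (Nat.sub (Nat.mul (Nat.succ (mm p)) (Nat.succ (mm p))) (Nat.mul 2 (Nat.mul p p))) r len

noncomputable def stepE (WT LT : ℕ) (IH : Bool → ℕ → ℕ → ℕ → ℕ) (b : Bool) (p r len : ℕ) : ℕ :=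
  @Bool.rec (fun _ => ℕ)
    (Nat.land (seg WT r len) (UPF (IH true) p r len))
    (Nat.lor (seg LT r len) (UPF (IH false) p r len)) b

noncomputable def E (WT LT : ℕ) (j : ℕ) : Bool → ℕ → ℕ → ℕ → ℕ :=
  @Nat.rec (fun _ => Bool → ℕ → ℕ → ℕ → ℕ)
    (fun _ _ _ len => Nat.sub (Nat.shiftLeft 1 len) 1)
    (fun _ IH => stepE WT LT IH) j

theorem testBit_ones (len x : ℕ) (h : x < len) :
    (Nat.sub (Nat.shiftLeft 1 len) 1).testBit x = true := by
  have : Nat.sub (Nat.shiftLeft 1 len) 1 = 2 ^ len - 1 := by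
    show 1 <<< len - 1 = _
    rw [Nat.one_shiftLeft]
  rw [this, Nat.testBit_two_pow_sub_one]
  simpa using h

theorem testBit_seg (X u len x : ℕ) (h : x < len) (hx : X.testBit (u + x) = true) :
    (seg X u len).testBit x = true := by
  show ((X >>> u) &&& _).testBit x = true
  rw [Nat.testBit_and, Nat.testBit_shiftRight, hx, testBit_ones len x h]
  rfl

theorem testBit_seg_iff (X u len x : ℕ) :
    (seg X u len).testBit x = true ↔ (x < len ∧ X.testBit (u + x) = true) := by
  have : Nat.sub (Nat.shiftLeft 1 len) 1 = 2 ^ len - 1 := by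
    show 1 <<< len - 1 = _
    rw [Nat.one_shiftLeft]
  show ((X >>> u) &&& _).testBit x = true ↔ _
  rw [this, Nat.testBit_and, Nat.testBit_shiftRight, Nat.testBit_two_pow_sub_one]
  simp [and_comm]

theorem two_mul_sq_ne (x y : ℕ) (hy : 0 < y) : x * x ≠ 2 * (y * y) := by
  intro h
  have h1 : (x : ℤ) * x = 2 * (y * y) := by exact_mod_cast h
  have h2 : ¬ IsSquare (2 : ℕ) := by
    rintro ⟨r, hr⟩
    have : r < 2 := by nlinarith
    interval_cases r <;> omega
  have h3 : Irrational (Real.sqrt 2) := irrational_sqrt_two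
  apply h3
  refine ⟨(x : ℚ) / y, ?_⟩
  have hy' : (y : ℝ) ≠ 0 := by positivity
  have h4 : ((x : ℝ) / y) ^ 2 = 2 := by
    have : (x : ℝ) * x = 2 * (y * y) := by exact_mod_cast h
    field_simp
    nlinarith
  have h5 : Real.sqrt 2 = (x : ℝ) / y := by
    rw [← h4, Real.sqrt_sq (by positivity)]
  rw [h5]; push_cast; rfl

theorem mm_spec (p : ℕ) (hp : 0 < p) (hp2 : p < 2 ^ 31) :
    mm p * mm p ≤ 2 * (p * p) ∧ 2 * (p * p) < (mm p + 1) * (mm p + 1) := by
  have e : mm p = p * c64 / 2 ^ 64 := by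
    show (p * c64) >>> 64 = _
    rw [Nat.shiftRight_eq_div_pow]
  have hc1 : c64 * c64 ≤ 2 * 2 ^ 128 := by norm_num [c64]
  have hc2 : 2 * 2 ^ 128 ≤ c64 * c64 + 3 * 2 ^ 64 := by norm_num [c64]
  set m := mm p with hm
  have h1 : m * 2 ^ 64 ≤ p * c64 := by rw [e]; exact Nat.div_mul_le_self _ _
  have h2 : p * c64 < (m + 1) * 2 ^ 64 := by
    rw [e]
    have := Nat.lt_succ_self (p * c64 / 2 ^ 64)
    have h := Nat.lt_div_mul_add (a := p * c64) (b := 2 ^ 64) (by norm_num)
    calc p * c64 < p * c64 / 2 ^ 64 * 2 ^ 64 + 2 ^ 64 := h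
      _ = (p * c64 / 2 ^ 64 + 1) * 2 ^ 64 := by ring
  constructor
  · have h3 : (m * 2 ^ 64) * (m * 2 ^ 64) ≤ (p * c64) * (p * c64) := Nat.mul_le_mul h1 h1
    have h4 : (p * c64) * (p * c64) ≤ (2 * (p * p)) * 2 ^ 128 := by
      calc (p * c64) * (p * c64) = (p * p) * (c64 * c64) := by ring
        _ ≤ (p * p) * (2 * 2 ^ 128) := Nat.mul_le_mul_left _ hc1
        _ = _ := by ring
    have h5 : (m * m) * 2 ^ 128 ≤ (2 * (p * p)) * 2 ^ 128 := by
      calc (m * m) * 2 ^ 128 = (m * 2 ^ 64) * (m * 2 ^ 64) := by ring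
        _ ≤ _ := h3.trans h4
    exact Nat.le_of_mul_le_mul_right h5 (by norm_num)
  · by_contra hc
    have hc : (m + 1) * (m + 1) ≤ 2 * (p * p) := by omega
    have hne := two_mul_sq_ne (m + 1) p hp
    have hc' : (m + 1) * (m + 1) + 1 ≤ 2 * (p * p) := by omega
    have h3 : (p * c64) * (p * c64) ≤ ((m + 1) * 2 ^ 64) * ((m + 1) * 2 ^ 64) :=
      Nat.mul_le_mul h2.le h2.le
    have h4 : (2 * (p * p)) * 2 ^ 128 ≤ (p * c64) * (p * c64) + 3 * (p * p) * 2 ^ 64 := by
      calc (2 * (p * p)) * 2 ^ 128 = (p * p) * (2 * 2 ^ 128) := by ring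
        _ ≤ (p * p) * (c64 * c64 + 3 * 2 ^ 64) := Nat.mul_le_mul_left _ hc2
        _ = _ := by ring
    have h5 : 3 * (p * p) < 2 ^ 64 := by
      have : p * p < 2 ^ 31 * 2 ^ 31 := Nat.mul_lt_mul'' hp2 hp2
      calc 3 * (p * p) < 3 * (2 ^ 31 * 2 ^ 31) := by omega
        _ < 2 ^ 64 := by norm_num
    have h6 : ((m + 1) * (m + 1) + 1) * 2 ^ 128 ≤ (m + 1) * (m + 1) * 2 ^ 128 + 3 * (p * p) * 2 ^ 64 := by
      calc ((m + 1) * (m + 1) + 1) * 2 ^ 128 ≤ (2 * (p * p)) * 2 ^ 128 := Nat.mul_le_mul_right _ hc'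
        _ ≤ (p * c64) * (p * c64) + 3 * (p * p) * 2 ^ 64 := h4
        _ ≤ ((m + 1) * 2 ^ 64) * ((m + 1) * 2 ^ 64) + 3 * (p * p) * 2 ^ 64 :=
            Nat.add_le_add_right h3 _
        _ = _ := by ring
    have h7 : 2 ^ 128 ≤ 3 * (p * p) * 2 ^ 64 := by nlinarith
    have h8 : 3 * (p * p) * 2 ^ 64 < 2 ^ 64 * 2 ^ 64 := Nat.mul_lt_mul_of_pos_right h5 (by norm_num)
    have : (2 : ℕ) ^ 64 * 2 ^ 64 = 2 ^ 128 := by norm_num
    omega

theorem le_mm (p : ℕ) (hp : 0 < p) (hp2 : p < 2 ^ 31) : p ≤ mm p := by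
  obtain ⟨_, h2⟩ := mm_spec p hp hp2
  by_contra hc
  have : mm p + 1 ≤ p := by omega
  have := Nat.mul_le_mul this this
  omega

theorem mm_le (p : ℕ) (hp : 0 < p) (hp2 : p < 2 ^ 31) : mm p + 1 ≤ 2 * p := by
  obtain ⟨h1, _⟩ := mm_spec p hp hp2
  by_contra hc
  have : 2 * p ≤ mm p := by omega
  have := Nat.mul_le_mul this this
  nlinarith

theorem UPF_spec (F : ℕ → ℕ → ℕ → ℕ) (P : ℕ → Prop) (B : ℕ)
    (hF : ∀ p r len, 0 < p → p ≤ B → r + len ≤ 2 * p + 1 → ∀ x < len, P (p * p + r + x) →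
      (F p r len).testBit x = true)
    (p r len : ℕ) (hp : 0 < p) (hpB : 2 * p ≤ B) (hp2 : p < 2 ^ 31) (hr : r + len ≤ 2 * p + 1)
    (x : ℕ) (hx : x < len) (h : P (up (p * p + r + x))) :
    (UPF F p r len).testBit x = true := by
  obtain ⟨m1, m2⟩ := mm_spec p hp hp2
  have m3 := le_mm p hp hp2
  have m4 := mm_le p hp hp2
  have hup : up (p * p + r + x) = 2 * (p * p) + (r + x) := by
    rw [add_assoc]; exact up_block (by omega)
  rw [hup] at h
  show (UPF1 F (mm p) (2 * (p * p) - mm p * mm p) ((mm p + 1) * (mm p + 1) - 2 * (p * p)) r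
    len).testBit x = true
  generalize hm : mm p = m at *
  obtain ⟨a, ha⟩ : ∃ a, 2 * (p * p) = m * m + a := ⟨2 * (p * p) - m * m, by omega⟩
  obtain ⟨t, ht⟩ : ∃ t, (m + 1) * (m + 1) = 2 * (p * p) + t :=
    ⟨(m + 1) * (m + 1) - 2 * (p * p), by omega⟩
  have e1 : 2 * (p * p) - m * m = a := by omega
  have e2 : (m + 1) * (m + 1) - 2 * (p * p) = t := by omega
  have hat : a + t = 2 * m + 1 := by nlinarith
  rw [e1, e2]
  unfold UPF1
  by_cases c1 : r + len ≤ t
  · have : Nat.ble (Nat.add r len) t = true := by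
      show Nat.ble (r + len) t = true
      exact Nat.ble_eq.mpr c1
    rw [this]
    show (F m (r + a) len).testBit x = true
    apply hF m (r + a) len (by omega) (by omega) (by omega) x hx
    have : m * m + (r + a) + x = 2 * (p * p) + (r + x) := by omega
    rwa [this]
  · have : Nat.ble (Nat.add r len) t = false := by
      show Nat.ble (r + len) t = false
      rw [Bool.eq_false_iff]; intro hc; exact c1 (Nat.ble_eq.mp hc)
    rw [this]
    by_cases c2 : t ≤ r
    · have : Nat.ble t r = true := Nat.ble_eq.mpr c2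
      rw [this]
      show (F (m + 1) (r - t) len).testBit x = true
      apply hF (m + 1) (r - t) len (by omega) (by omega) (by omega) x hx
      have : (m + 1) * (m + 1) + (r - t) + x = 2 * (p * p) + (r + x) := by omega
      rwa [this]
    · have : Nat.ble t r = false := by
        rw [Bool.eq_false_iff]; intro hc; exact c2 (Nat.ble_eq.mp hc)
      rw [this]
      show (F m (r + a) (t - r) ||| (F (m + 1) 0 (len - (t - r)) <<< (t - r))).testBit x = true
      rw [Nat.testBit_or, Nat.testBit_shiftLeft]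
      by_cases c3 : x < t - r
      · have := hF m (r + a) (t - r) (by omega) (by omega) (by omega) x c3 (by
          have : m * m + (r + a) + x = 2 * (p * p) + (r + x) := by omega
          rwa [this])
        rw [this]; rfl
      · have := hF (m + 1) 0 (len - (t - r)) (by omega) (by omega) (by omega) (x - (t - r))
          (by omega) (by
          have : (m + 1) * (m + 1) + 0 + (x - (t - r)) = 2 * (p * p) + (r + x) := by omega
          rwa [this])
        rw [this]
        have c4 : t - r ≤ x := by omega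
        simp [c4]

/-- The set of natural numbers given by the bits of `X`. -/
def bitset (X n : ℕ) : Prop := X.testBit n = true

theorem E_spec (WT LT : ℕ) (j : ℕ) : ∀ (p r len : ℕ), 0 < p → 2 ^ j * p < 2 ^ 32 →
    r + len ≤ 2 * p + 1 → ∀ x < len,
    (WR (bitset WT) (bitset LT) j (p * p + r + x) → (E WT LT j true p r len).testBit x = true) ∧
    (LR (bitset WT) (bitset LT) j (p * p + r + x) → (E WT LT j false p r len).testBit x = true) := by
  induction j with
  | zero =>
    intro p r len _ _ _ x hx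
    exact ⟨fun _ => testBit_ones len x hx, fun _ => testBit_ones len x hx⟩
  | succ j ih =>
    intro p r len hp hpj hr x hx
    have hp2 : p < 2 ^ 31 := by
      have h1 : 2 ^ (j + 1) * p = 2 ^ j * (2 * p) := by ring
      have h2 : 1 ≤ 2 ^ j := Nat.one_le_two_pow
      have h3 : 1 * (2 * p) ≤ 2 ^ j * (2 * p) := Nat.mul_le_mul_right _ h2
      have : (2 : ℕ) ^ 32 = 2 * 2 ^ 31 := by norm_num
      omega
    have hrem : rem (p * p + r + x) = r + x := by
      rw [add_assoc]; exact rem_block (by omega)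
    have hstep : ∀ b, E WT LT (j + 1) b p r len = stepE WT LT (E WT LT j) b p r len :=
      fun _ => rfl
    have hB : ∀ q, q ≤ 2 * p → 2 ^ j * q < 2 ^ 32 := by
      intro q hq
      calc 2 ^ j * q ≤ 2 ^ j * (2 * p) := Nat.mul_le_mul_left _ hq
        _ = 2 ^ (j + 1) * p := by ring
        _ < _ := hpj
    constructor
    · intro h
      rw [hstep]
      show ((seg LT r len) ||| (UPF (E WT LT j false) p r len)).testBit x = true
      rw [Nat.testBit_or]
      rcases (WR_succ _ _ _ _).mp h with h | h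
      · rw [hrem] at h
        rw [testBit_seg LT r len x hx h]; rfl
      · have := UPF_spec (E WT LT j false) (LR (bitset WT) (bitset LT) j) (2 * p)
          (fun q r' len' hq hqB hr' y hy hP => (ih q r' len' hq (hB q hqB) hr' y hy).2 hP)
          p r len hp le_rfl hp2 hr x hx h
        rw [this, Bool.or_true]
    · intro h
      rw [hstep]
      show ((seg WT r len) &&& (UPF (E WT LT j true) p r len)).testBit x = true
      rw [Nat.testBit_and]
      obtain ⟨h1, h2⟩ := (LR_succ _ _ _ _).mp h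
      rw [hrem] at h1
      have := UPF_spec (E WT LT j true) (WR (bitset WT) (bitset LT) j) (2 * p)
          (fun q r' len' hq hqB hr' y hy hP => (ih q r' len' hq (hB q hqB) hr' y hy).1 hP)
          p r len hp le_rfl hp2 hr x hx h2
      rw [this, testBit_seg WT r len x hx h1]; rfl

/-- All `f k`, `k₀ ≤ k < k₀ + 2 ^ d`, are true. -/
noncomputable def allb (f : ℕ → Bool) (d : ℕ) : ℕ → Bool :=
  @Nat.rec (fun _ => ℕ → Bool)
    (fun k => @Nat.rec (fun _ => Bool) (f 0) (fun k _ => f (Nat.succ k)) k)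
    (fun d ih k => @Bool.rec (fun _ => Bool) false (ih (Nat.add k (Nat.shiftLeft 1 d))) (ih k)) d

theorem allb_spec (f : ℕ → Bool) (d : ℕ) : ∀ k0, allb f d k0 = true → ∀ k, k0 ≤ k →
    k < k0 + 2 ^ d → f k = true := by
  induction d with
  | zero =>
    intro k0 h k h1 h2
    have : k = k0 := by omega
    subst this
    cases k with
    | zero => exact h
    | succ k => exact h
  | succ d ih =>
    intro k0 h k h1 h2
    have hh : @Bool.rec (fun _ => Bool) false (allb f d (Nat.add k0 (Nat.shiftLeft 1 d)))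
      (allb f d k0) = true := h
    have e : Nat.add k0 (Nat.shiftLeft 1 d) = k0 + 2 ^ d := by
      show k0 + 1 <<< d = _
      rw [Nat.one_shiftLeft]
    rw [e] at hh
    cases h3 : allb f d k0 with
    | false => rw [h3] at hh; exact absurd hh (by simp)
    | true =>
      rw [h3] at hh
      have h4 : allb f d (k0 + 2 ^ d) = true := hh
      by_cases c : k < k0 + 2 ^ d
      · exact ih k0 h3 k h1 c
      · exact ih (k0 + 2 ^ d) h4 k (by omega) (by rw [pow_succ] at h2; omega)

/-- The block `k` of the tables is closed under the truncated rules. -/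
noncomputable def chk (WT LT J k : ℕ) : Bool :=
  @Bool.rec (fun _ => Bool) false
    (Nat.beq (Nat.lor (E WT LT J false k 0 (Nat.succ (Nat.mul 2 k)))
      (seg LT (Nat.mul k k) (Nat.succ (Nat.mul 2 k)))) (seg LT (Nat.mul k k) (Nat.succ (Nat.mul 2 k))))
    (Nat.beq (Nat.lor (E WT LT (Nat.succ J) true k 0 (Nat.succ (Nat.mul 2 k)))
      (seg WT (Nat.mul k k) (Nat.succ (Nat.mul 2 k)))) (seg WT (Nat.mul k k) (Nat.succ (Nat.mul 2 k))))

theorem testBit_of_lor_eq {a b : ℕ} (h : a ||| b = b) (x : ℕ) (hx : a.testBit x = true) :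
    b.testBit x = true := by
  rw [← h, Nat.testBit_or, hx]; rfl

theorem chk_spec (WT LT J k : ℕ) (hk : 0 < k) (hJ : 2 ^ (J + 1) * k < 2 ^ 32)
    (h : chk WT LT J k = true) (n : ℕ) (hn : Nat.sqrt n = k) :
    (LR (bitset WT) (bitset LT) J n → bitset LT n) ∧
    (WR (bitset WT) (bitset LT) (J + 1) n → bitset WT n) := by
  have h' : @Bool.rec (fun _ => Bool) false
    (Nat.beq (E WT LT J false k 0 (2 * k + 1) ||| seg LT (k * k) (2 * k + 1))
      (seg LT (k * k) (2 * k + 1)))
    (Nat.beq (E WT LT (J + 1) true k 0 (2 * k + 1) ||| seg WT (k * k) (2 * k + 1))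
      (seg WT (k * k) (2 * k + 1))) = true := h
  have hn2 := sq_add_rem n
  have hn3 := rem_le_two_sqrt n
  rw [hn] at hn2 hn3
  have hJ0 : 2 ^ J * k < 2 ^ 32 := by
    calc 2 ^ J * k ≤ 2 ^ (J + 1) * k := Nat.mul_le_mul_right _ (Nat.pow_le_pow_right (by norm_num) (by omega))
      _ < _ := hJ
  cases h1 : Nat.beq (E WT LT (J + 1) true k 0 (2 * k + 1) ||| seg WT (k * k) (2 * k + 1))
      (seg WT (k * k) (2 * k + 1)) with
  | false => rw [h1] at h'; exact absurd h' (by simp)
  | true =>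
    rw [h1] at h'
    have h2 : Nat.beq (E WT LT J false k 0 (2 * k + 1) ||| seg LT (k * k) (2 * k + 1))
      (seg LT (k * k) (2 * k + 1)) = true := h'
    have h3 := Nat.eq_of_beq_eq_true h1
    have h4 := Nat.eq_of_beq_eq_true h2
    constructor
    · intro hr
      have e : k * k + 0 + rem n = n := by omega
      have := (E_spec WT LT J k 0 (2 * k + 1) hk hJ0 (by omega) (rem n) (by omega)).2
        (by rw [e]; exact hr)
      have := testBit_of_lor_eq h4 _ this
      have := ((testBit_seg_iff LT (k * k) (2 * k + 1) (rem n)).mp this).2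
      rw [hn2] at this
      exact this
    · intro hr
      have e : k * k + 0 + rem n = n := by omega
      have := (E_spec WT LT (J + 1) k 0 (2 * k + 1) hk hJ (by omega) (rem n) (by omega)).1
        (by rw [e]; exact hr)
      have := testBit_of_lor_eq h3 _ this
      have := ((testBit_seg_iff WT (k * k) (2 * k + 1) (rem n)).mp this).2
      rw [hn2] at this
      exact this

theorem iterate_up_le (i n : ℕ) : up^[i] n ≤ 2 ^ i * n := by
  induction i generalizing n with
  | zero => simp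
  | succ i ih =>
    rw [Function.iterate_succ_apply]
    calc up^[i] (up n) ≤ 2 ^ i * up n := ih _
      _ ≤ 2 ^ i * (2 * n) := Nat.mul_le_mul_left _ (up_le_two_mul n)
      _ = 2 ^ (i + 1) * n := by ring

/-- Soundness of a checked table. -/
theorem table_sound (WT LT J K : ℕ) (hK : 2 ^ (J + 3) < K) (hKJ : 2 ^ (J + 1) * K < 2 ^ 32)
    (h0 : LT.testBit 0 = true) (hchk : ∀ k, 0 < k → k < K → chk WT LT J k = true) :
    (∀ n < K * K, Win n → WT.testBit n = true) ∧ (∀ n < K * K, Lost n → LT.testBit n = true) := by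
  have hs : ∀ n, 1 ≤ n → n < K * K → 0 < Nat.sqrt n ∧ Nat.sqrt n < K := fun n h1 h2 =>
    ⟨Nat.sqrt_pos.mpr h1, Nat.sqrt_lt.mpr h2⟩
  have hKpos : 0 < K := lt_of_le_of_lt (Nat.zero_le _) hK
  have hJk : ∀ k < K, 2 ^ (J + 1) * k < 2 ^ 32 := fun k hk =>
    lt_of_le_of_lt (Nat.mul_le_mul_left _ hk.le) hKJ
  apply closure_bound (K * K) J (bitset WT) (bitset LT)
  · intro n hn i hi
    have h1 := rem_le_two_sqrt (up^[i] n)
    have h2 := iterate_up_le i n
    have h3 : up^[i] n < 2 ^ (J + 1) * (K * K) := by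
      have h5 : (2 : ℕ) ^ i ≤ 2 ^ J := Nat.pow_le_pow_right (by norm_num) (by omega)
      calc up^[i] n ≤ 2 ^ i * n := h2
        _ ≤ 2 ^ J * (K * K) := Nat.mul_le_mul h5 hn.le
        _ < 2 ^ (J + 1) * (K * K) := by
            have : 0 < K * K := Nat.mul_pos hKpos hKpos
            exact Nat.mul_lt_mul_of_pos_right (Nat.pow_lt_pow_right (by norm_num) (by omega)) this
    -- `√(up^i n) ≤ 2^(J+1) K`, crude
    have h4 : Nat.sqrt (up^[i] n) < 2 ^ (J + 1) * K := by
      rw [Nat.sqrt_lt]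
      calc up^[i] n < 2 ^ (J + 1) * (K * K) := h3
        _ ≤ 2 ^ (J + 1) * (2 ^ (J + 1) * (K * K)) := by
            exact Nat.le_mul_of_pos_left _ (by positivity)
        _ = _ := by ring
    calc rem (up^[i] n) ≤ 2 * Nat.sqrt (up^[i] n) := h1
      _ ≤ 2 * (2 ^ (J + 1) * K) := by omega
      _ = 2 ^ (J + 2) * K := by ring
      _ < K * K := by
          apply Nat.mul_lt_mul_of_pos_right _ hKpos
          calc 2 ^ (J + 2) ≤ 2 ^ (J + 3) := Nat.pow_le_pow_right (by norm_num) (by omega)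
            _ < K := hK
  · exact h0
  · intro n h1 h2 h3
    obtain ⟨h4, h5⟩ := hs n h1 h2
    exact (chk_spec WT LT J _ h4 (hJk _ h5) (hchk _ h4 h5) n rfl).1 h3
  · intro n h1 h2 h3
    obtain ⟨h4, h5⟩ := hs n h1 h2
    exact (chk_spec WT LT J _ h4 (hJk _ h5) (hchk _ h4 h5) n rfl).2 h3

end Pool.Agent.AddSq.Ev
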