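import Pool.Agent.AddSq.FastDefs

/-!
# Kernel facts: losses in the blocks from 241408 to 256767
-/

namespace Pool.Agent.AddSq.Fa

set_option maxRecDepth 100000

def fl014 : List (Nat × Nat × Nat) :=
   [(7544, 2, 12738), (7548, 2, 12359), (7552, 2, 12405), (7556, 2, 12396), (7560, 2, 12516),
    (7564, 2, 12394), (7568, 2, 12470), (7572, 2, 12899), (7576, 2, 12547), (7580, 2, 12634),
    (7584, 2, 12690), (7588, 2, 12656), (7592, 2, 12368), (7596, 2, 12547), (7600, 2, 12440),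
    (7604, 2, 12668), (7608, 2, 12486), (7612, 2, 12468), (7616, 2, 12564), (7620, 2, 12377),
    (7624, 2, 12579), (7628, 2, 12707), (7632, 2, 12709), (7636, 2, 12820), (7640, 2, 12464),
    (7644, 2, 12404), (7648, 2, 12543), (7652, 2, 12751), (7656, 2, 12803), (7660, 2, 12719),
    (7664, 2, 12487), (7668, 2, 12586), (7672, 2, 12327), (7676, 2, 12559), (7680, 2, 12451),
    (7684, 2, 12546), (7688, 2, 12654), (7692, 2, 12673), (7696, 2, 12533), (7700, 2, 12538),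
    (7704, 2, 12593), (7708, 2, 12911), (7712, 2, 12620), (7716, 2, 12530), (7720, 2, 12481),
    (7724, 2, 12720), (7728, 2, 12727), (7732, 2, 12496), (7736, 2, 12832), (7740, 2, 12528),
    (7744, 2, 12732), (7748, 2, 12574), (7752, 2, 12640), (7756, 2, 12662), (7760, 2, 12690),
    (7764, 2, 12743), (7768, 2, 12501), (7772, 2, 12402), (7776, 2, 12608), (7780, 2, 12362),
    (7784, 2, 12674), (7788, 2, 12718), (7792, 2, 12655), (7796, 2, 12757), (7800, 2, 12654),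
    (7804, 2, 12620), (7808, 2, 12816), (7812, 2, 12536), (7816, 2, 12863), (7820, 2, 12618),
    (7824, 2, 12695), (7828, 2, 12746), (7832, 2, 12730), (7836, 2, 12563), (7840, 2, 12862),
    (7844, 2, 12771), (7848, 2, 12601), (7852, 2, 12794), (7856, 2, 12774), (7860, 2, 12689),
    (7864, 2, 12909), (7868, 2, 12887), (7872, 2, 12796), (7876, 2, 12703), (7880, 2, 12927),
    (7884, 2, 12555), (7888, 2, 13076), (7892, 2, 12715), (7896, 2, 12683), (7900, 2, 12827),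
    (7904, 2, 12749), (7908, 2, 12974), (7912, 2, 12893), (7916, 2, 12741), (7920, 2, 12764),
    (7924, 2, 12609), (7928, 2, 12897), (7932, 2, 12859), (7936, 2, 12822), (7940, 2, 12631),
    (7944, 2, 12843), (7948, 2, 13032), (7952, 2, 12805), (7956, 2, 12824), (7960, 2, 12713),
    (7964, 2, 12966), (7968, 2, 12934), (7972, 2, 12864), (7976, 2, 12772), (7980, 2, 12788),
    (7984, 2, 12914), (7988, 2, 12891), (7992, 2, 13119), (7996, 2, 12840), (8000, 2, 12795),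
    (8004, 2, 12950), (8008, 2, 12996), (8012, 2, 12746), (8016, 2, 12750), (8020, 2, 12812)]

theorem ft014 : FT fl014 := by
  refine ⟨?_, ?_, ?_, ?_, ?_, ?_, ?_, ?_, ?_, ?_, ?_, ?_, ?_, ?_, ?_, ?_, ?_, ?_, ?_, ?_, ?_, ?_, ?_, ?_, ?_, ?_, ?_, ?_, ?_, ?_, ?_, ?_, ?_, ?_, ?_, ?_, ?_, ?_, ?_, ?_, ?_, ?_, ?_, ?_, ?_, ?_, ?_, ?_, ?_, ?_, ?_, ?_, ?_, ?_, ?_, ?_, ?_, ?_, ?_, ?_, ?_, ?_, ?_, ?_, ?_, ?_, ?_, ?_, ?_, ?_, ?_, ?_, ?_, ?_, ?_, ?_, ?_, ?_, ?_, ?_, ?_, ?_, ?_, ?_, ?_, ?_, ?_, ?_, ?_, ?_, ?_, ?_, ?_, ?_, ?_, ?_, ?_, ?_, ?_, ?_, ?_, ?_, ?_, ?_, ?_, ?_, ?_, ?_, ?_, ?_, ?_, ?_, ?_, ?_, ?_, ?_, ?_, ?_, ?_, ?_, trivial⟩ <;> decide +kernel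

end Pool.Agent.AddSq.Fa
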