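import Pool.Agent.AddSq.FastDefs

/-!
# Kernel facts: losses in the blocks from 444416 to 454911
-/

namespace Pool.Agent.AddSq.Fa

set_option maxRecDepth 100000

def fl030 : List (Nat × Nat × Nat) :=
   [(13888, 2, 17265), (13892, 2, 17429), (13896, 2, 17612), (13900, 2, 17380),
    (13904, 2, 17386), (13908, 2, 17466), (13912, 2, 17345), (13916, 2, 17313),
    (13920, 2, 17145), (13924, 2, 17375), (13928, 2, 17211), (13932, 2, 17187),
    (13936, 2, 17655), (13940, 2, 17401), (13944, 2, 17440), (13948, 2, 17428),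
    (13952, 2, 17317), (13956, 2, 17463), (13960, 2, 17362), (13964, 2, 17125),
    (13968, 2, 17880), (13972, 2, 17056), (13976, 2, 17530), (13980, 2, 17362),
    (13984, 2, 17322), (13988, 2, 17660), (13992, 2, 17632), (13996, 2, 17137),
    (14000, 2, 17700), (14004, 2, 17268), (14008, 2, 17513), (14012, 2, 17340),
    (14016, 2, 17627), (14020, 2, 17714), (14024, 2, 17309), (14028, 2, 17505),
    (14032, 2, 17579), (14036, 2, 17539), (14040, 2, 17372), (14044, 2, 17453),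
    (14048, 2, 17313), (14052, 2, 17587), (14056, 2, 17476), (14060, 2, 17438),
    (14064, 2, 17544), (14068, 2, 17583), (14072, 2, 17626), (14076, 2, 17415),
    (14080, 2, 17695), (14084, 2, 17279), (14088, 2, 17705), (14092, 2, 17443),
    (14096, 2, 17548), (14100, 2, 17520), (14104, 2, 17553), (14108, 2, 17568),
    (14112, 2, 17900), (14116, 2, 17670), (14120, 2, 17373), (14124, 2, 17447),
    (14128, 2, 17287), (14132, 2, 17581), (14136, 2, 17577), (14140, 2, 17843),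
    (14144, 2, 17674), (14148, 2, 17608), (14152, 2, 17667), (14156, 2, 17390),
    (14160, 2, 17655), (14164, 2, 17655), (14168, 2, 17511), (14172, 2, 17825),
    (14176, 2, 17546), (14180, 2, 17827), (14184, 2, 17445), (14188, 2, 17561),
    (14192, 2, 17715), (14196, 2, 17672), (14200, 2, 17657), (14204, 2, 17847),
    (14208, 2, 17467), (14212, 2, 17532)]

theorem ft030 : FT fl030 := by
  refine ⟨?_, ?_, ?_, ?_, ?_, ?_, ?_, ?_, ?_, ?_, ?_, ?_, ?_, ?_, ?_, ?_, ?_, ?_, ?_, ?_, ?_, ?_, ?_, ?_, ?_, ?_, ?_, ?_, ?_, ?_, ?_, ?_, ?_, ?_, ?_, ?_, ?_, ?_, ?_, ?_, ?_, ?_, ?_, ?_, ?_, ?_, ?_, ?_, ?_, ?_, ?_, ?_, ?_, ?_, ?_, ?_, ?_, ?_, ?_, ?_, ?_, ?_, ?_, ?_, ?_, ?_, ?_, ?_, ?_, ?_, ?_, ?_, ?_, ?_, ?_, ?_, ?_, ?_, ?_, ?_, ?_, ?_, trivial⟩ <;> decide +kernel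

end Pool.Agent.AddSq.Fa
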