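import Pool.Agent.AddSq.FastLeaf

/-!
# Counting the bits of many sparse blocks

The blocks are united in a tree; `oA` is the union, `oB` the union of the collisions
(`x ||| y` against `x &&& y`), `oN` the number of collisions of collisions.
-/

namespace Pool.Agent.AddSq

theorem pop_or_and (n x y : ℕ) :
    Pop.pop n (x ||| y) + Pop.pop n (x &&& y) = Pop.pop n x + Pop.pop n y := by
  classical
  unfold Pop.pop
  have e1 : (Finset.range n).filter (fun i => (x ||| y).testBit i = true) =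
      (Finset.range n).filter (fun i => x.testBit i = true) ∪
        (Finset.range n).filter (fun i => y.testBit i = true) := by
    ext i
    simp only [Finset.mem_filter, Finset.mem_union, Nat.testBit_or, Bool.or_eq_true]
    tauto
  have e2 : (Finset.range n).filter (fun i => (x &&& y).testBit i = true) =
      (Finset.range n).filter (fun i => x.testBit i = true) ∩
        (Finset.range n).filter (fun i => y.testBit i = true) := by
    ext i
    simp only [Finset.mem_filter, Finset.mem_inter, Nat.testBit_and, Bool.and_eq_true]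
    tauto
  rw [e1, e2]
  exact Finset.card_union_add_card_inter _ _

theorem pop_zero (n : ℕ) : Pop.pop n 0 = 0 := by
  unfold Pop.pop
  simp

noncomputable def stepA (d : ℕ) (ih : ℕ → ℕ) : ℕ → ℕ :=
  frc (fun k => Nat.lor (ih k) (ih (Nat.add k (Nat.shiftLeft 1 d))))

/-- union of the blocks `k, …, k + 2 ^ e - 1` -/
noncomputable def oA (g : ℕ → ℕ) (e : ℕ) : ℕ → ℕ :=
  @Nat.rec (fun _ => ℕ → ℕ) (frc g) stepA e

noncomputable def stepB (g : ℕ → ℕ) (d : ℕ) (ih : ℕ → ℕ) : ℕ → ℕ :=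
  frc (fun k => Nat.lor (Nat.lor (ih k) (ih (Nat.add k (Nat.shiftLeft 1 d))))
    (Nat.land ((@Nat.rec (fun _ => ℕ → ℕ) (frc g) stepA d) k)
      ((@Nat.rec (fun _ => ℕ → ℕ) (frc g) stepA d) (Nat.add k (Nat.shiftLeft 1 d)))))

/-- union of the collisions -/
noncomputable def oB (g : ℕ → ℕ) (e : ℕ) : ℕ → ℕ :=
  @Nat.rec (fun _ => ℕ → ℕ) (fun _ => 0) (stepB g) e

/-- `h x`, except for `x = 0` -/
noncomputable def pz (h : ℕ → ℕ) (x : ℕ) : ℕ :=
  @Bool.rec (fun _ => ℕ) (h x) 0 (Nat.beq x 0)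

theorem pz_eq {h : ℕ → ℕ} (h0 : h 0 = 0) (x : ℕ) : pz h x = h x := by
  unfold pz
  cases hb : Nat.beq x 0 with
  | false => rfl
  | true =>
    have : x = 0 := Nat.eq_of_beq_eq_true hb
    rw [this, h0]

noncomputable def stepN (g h : ℕ → ℕ) (d : ℕ) (ih : ℕ → ℕ) : ℕ → ℕ :=
  frc (fun k => Nat.add (Nat.add (ih k) (ih (Nat.add k (Nat.shiftLeft 1 d))))
    (Nat.add
      (pz h (Nat.land ((@Nat.rec (fun _ => ℕ → ℕ) (fun _ => 0) (stepB g) d) k)
        ((@Nat.rec (fun _ => ℕ → ℕ) (fun _ => 0) (stepB g) d)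
          (Nat.add k (Nat.shiftLeft 1 d)))))
      (pz h (Nat.land
        (Nat.lor ((@Nat.rec (fun _ => ℕ → ℕ) (fun _ => 0) (stepB g) d) k)
          ((@Nat.rec (fun _ => ℕ → ℕ) (fun _ => 0) (stepB g) d)
            (Nat.add k (Nat.shiftLeft 1 d))))
        (Nat.land ((@Nat.rec (fun _ => ℕ → ℕ) (frc g) stepA d) k)
          ((@Nat.rec (fun _ => ℕ → ℕ) (frc g) stepA d) (Nat.add k (Nat.shiftLeft 1 d))))))))

/-- number of collisions of collisions -/
noncomputable def oN (g h : ℕ → ℕ) (e : ℕ) : ℕ → ℕ :=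
  @Nat.rec (fun _ => ℕ → ℕ) (fun _ => 0) (stepN g h) e

/-- the sum of `h (g j)` for `k ≤ j < k + 2 ^ e` -/
noncomputable def osum (g h : ℕ → ℕ) (e k : ℕ) : ℕ :=
  Nat.add (Nat.add (h (oA g e k)) (h (oB g e k))) (oN g h e k)

theorem oA_zero (g : ℕ → ℕ) (k : ℕ) : oA g 0 k = g k := frc_eq g k

theorem oA_succ (g : ℕ → ℕ) (e k : ℕ) : oA g (e + 1) k = oA g e k ||| oA g e (k + 2 ^ e) := by
  have h : oA g (e + 1) k =
      frc (fun k => Nat.lor (oA g e k) (oA g e (Nat.add k (Nat.shiftLeft 1 e)))) k := rfl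
  rw [h, frc_eq]
  change oA g e k ||| oA g e (k + 1 <<< e) = _
  rw [Nat.one_shiftLeft]

theorem oB_succ (g : ℕ → ℕ) (e k : ℕ) : oB g (e + 1) k =
    (oB g e k ||| oB g e (k + 2 ^ e)) ||| (oA g e k &&& oA g e (k + 2 ^ e)) := by
  have h : oB g (e + 1) k = frc (fun k => Nat.lor (Nat.lor (oB g e k)
      (oB g e (Nat.add k (Nat.shiftLeft 1 e)))) (Nat.land (oA g e k)
        (oA g e (Nat.add k (Nat.shiftLeft 1 e))))) k := rfl
  rw [h, frc_eq]
  change (oB g e k ||| oB g e (k + 1 <<< e)) ||| (oA g e k &&& oA g e (k + 1 <<< e)) = _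
  rw [Nat.one_shiftLeft]

theorem oN_succ (g h : ℕ → ℕ) (h0 : h 0 = 0) (e k : ℕ) : oN g h (e + 1) k =
    oN g h e k + oN g h e (k + 2 ^ e) + (h (oB g e k &&& oB g e (k + 2 ^ e)) +
      h ((oB g e k ||| oB g e (k + 2 ^ e)) &&& (oA g e k &&& oA g e (k + 2 ^ e)))) := by
  have hh : oN g h (e + 1) k = frc (fun k => Nat.add (Nat.add (oN g h e k)
      (oN g h e (Nat.add k (Nat.shiftLeft 1 e))))
      (Nat.add (pz h (Nat.land (oB g e k) (oB g e (Nat.add k (Nat.shiftLeft 1 e)))))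
        (pz h (Nat.land (Nat.lor (oB g e k) (oB g e (Nat.add k (Nat.shiftLeft 1 e))))
          (Nat.land (oA g e k) (oA g e (Nat.add k (Nat.shiftLeft 1 e)))))))) k := rfl
  rw [hh, frc_eq, pz_eq h0, pz_eq h0]
  change oN g h e k + oN g h e (k + 1 <<< e) + (h (oB g e k &&& oB g e (k + 1 <<< e)) +
      h ((oB g e k ||| oB g e (k + 1 <<< e)) &&& (oA g e k &&& oA g e (k + 1 <<< e)))) = _
  rw [Nat.one_shiftLeft]

theorem osum_eq {g h : ℕ → ℕ} (n : ℕ) (hh : ∀ x, h x = Pop.pop n x) (e : ℕ) :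
    ∀ k, csum (fun j => Pop.pop n (g j)) e k = osum g h e k := by
  have h0 : h 0 = 0 := by rw [hh, pop_zero]
  have key : ∀ e k, csum (fun j => Pop.pop n (g j)) e k =
      Pop.pop n (oA g e k) + Pop.pop n (oB g e k) + oN g h e k := by
    intro e
    induction e with
    | zero =>
      intro k
      rw [csum_zero, oA_zero]
      change _ = Pop.pop n (g k) + Pop.pop n 0 + 0
      rw [pop_zero]
      rfl
    | succ e ih =>
      intro k
      rw [csum_succ, ih, ih, oA_succ, oB_succ, oN_succ g h h0, hh, hh]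
      have a1 := pop_or_and n (oA g e k) (oA g e (k + 2 ^ e))
      have a2 := pop_or_and n (oB g e k) (oB g e (k + 2 ^ e))
      have a3 := pop_or_and n (oB g e k ||| oB g e (k + 2 ^ e))
        (oA g e k &&& oA g e (k + 2 ^ e))
      omega
  intro k
  rw [key]
  change _ = h (oA g e k) + h (oB g e k) + oN g h e k
  rw [hh, hh]

/-- Count of a dyadic interval of blocks from one kernel evaluation; `n` is the number of
32-bit words. -/
theorem cntI_of_osum {P : ℕ → Prop} {g : ℕ → ℕ} {e K n c m1 m2 m4 m8 m16 : ℕ}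
    (hg : ∀ k, K ≤ k → k < K + 2 ^ e → ∀ i ≤ 2 * k, P (k * k + i) → (g k).testBit i = true)
    (h1 : m1 = Pop.mask 1 (16 * n)) (h2 : m2 = Pop.mask 2 (8 * n)) (h4 : m4 = Pop.mask 4 (4 * n))
    (h8 : m8 = Pop.mask 8 (2 * n)) (h16 : m16 = Pop.mask 16 n) (hn : n < 134217728)
    (hK : 2 * (K + 2 ^ e) ≤ 32 * n + 1)
    (h : Nat.ble (osum g (Pop.pc m1 m2 m4 m8 m16) e K) c = true) :
    cntI P (K * K) ((K + 2 ^ e) * (K + 2 ^ e)) ≤ c := by
  have e1 : ∀ x, Pop.pc m1 m2 m4 m8 m16 x = Pop.pop (32 * n) x := by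
    intro x
    rw [h1, h2, h4, h8, h16, Pop.pc_eq n x hn]
  refine le_trans ?_ (Nat.le_of_ble_eq_true h)
  rw [← osum_eq (32 * n) e1 e K]
  refine cntI_csum (f := fun k => Pop.pop (32 * n) (g k)) ?_
  intro k hk1 hk2
  exact cntI_block (hg k hk1 hk2) (by omega)

end Pool.Agent.AddSq
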