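import Pool.Agent.AddSq.FastSpec
import Pool.Agent.AddSq.OrCount

/-!
# Correctness of the carry-save popcounts
-/

namespace Pool.Agent.AddSq.Fa

open Finset

theorem pop_eq_sum (n x : ℕ) : Pop.pop n x = ∑ i ∈ range n, (x.testBit i).toNat := by
  unfold Pop.pop
  rw [Finset.card_filter]
  apply Finset.sum_congr rfl
  intro i _
  cases x.testBit i <;> rfl

theorem pop_adder (n s a b : ℕ) :
    Pop.pop n (sumf s a b) + 2 * Pop.pop n (carf s a b) =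
      Pop.pop n s + Pop.pop n a + Pop.pop n b := by
  have e1 : ∀ i, (sumf s a b).testBit i = (s.testBit i ^^ (a.testBit i ^^ b.testBit i)) := by
    intro i
    change (s ^^^ (a ^^^ b)).testBit i = _
    rw [Nat.testBit_xor, Nat.testBit_xor]
  have e2 : ∀ i, (carf s a b).testBit i =
      ((a.testBit i && b.testBit i) || (s.testBit i && (a.testBit i ^^ b.testBit i))) := by
    intro i
    change ((a &&& b) ||| (s &&& (a ^^^ b))).testBit i = _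
    rw [Nat.testBit_or, Nat.testBit_and, Nat.testBit_and, Nat.testBit_xor]
  simp only [pop_eq_sum, e1, e2]
  rw [Finset.mul_sum, ← Finset.sum_add_distrib, ← Finset.sum_add_distrib,
    ← Finset.sum_add_distrib]
  apply Finset.sum_congr rfl
  intro i _
  cases s.testBit i <;> cases a.testBit i <;> cases b.testBit i <;> rfl

theorem c1_spec (N : ℕ) (g : ℕ → ℕ) (k s1 : ℕ) : ∃ o1 o2 : ℕ,
    (∀ κ : ℕ → ℕ → ℕ, c1 g k s1 κ = κ o1 o2) ∧
    Pop.pop N o1 + 2 * Pop.pop N o2 =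
      Pop.pop N s1 + ∑ j ∈ range 2, Pop.pop N (g (k + j)) := by
  refine ⟨sumf s1 (g k) (g (k + 1)), carf s1 (g k) (g (k + 1)), fun κ => rfl, ?_⟩
  rw [pop_adder, Finset.sum_range_succ, Finset.sum_range_one]
  ring_nf

theorem sum_split (f : ℕ → ℕ) (k m : ℕ) :
    ∑ j ∈ range (m + m), f (k + j) = ∑ j ∈ range m, f (k + j) + ∑ j ∈ range m, f (k + m + j) := by
  rw [Finset.sum_range_add]
  congr 1
  apply Finset.sum_congr rfl
  intro j _
  rw [Nat.add_assoc]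

theorem c2_spec (N : ℕ) (g : ℕ → ℕ) (k s1 s2 : ℕ) : ∃ o1 o2 o3 : ℕ,
    (∀ κ : ℕ → ℕ → ℕ → ℕ, c2 g k s1 s2 κ = κ o1 o2 o3) ∧
    Pop.pop N o1 + 2 * Pop.pop N o2 + 4 * Pop.pop N o3 =
      Pop.pop N s1 + 2 * Pop.pop N s2 + ∑ j ∈ range 4, Pop.pop N (g (k + j)) := by
  obtain ⟨a1, a, ha, ea⟩ := c1_spec N g k s1
  obtain ⟨b1, b, hb, eb⟩ := c1_spec N g (k + 2) a1
  refine ⟨b1, sumf s2 a b, carf s2 a b, fun κ => ?_, ?_⟩
  · unfold c2
    rw [ha]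
    exact hb _
  · have := pop_adder N s2 a b
    have hs := sum_split (fun x => Pop.pop N (g x)) k 2
    rw [show (2 + 2 : ℕ) = 4 from rfl] at hs
    omega

theorem c3_spec (N : ℕ) (g : ℕ → ℕ) (k s1 s2 s4 : ℕ) : ∃ o1 o2 o3 o4 : ℕ,
    (∀ κ : ℕ → ℕ → ℕ → ℕ → ℕ, c3 g k s1 s2 s4 κ = κ o1 o2 o3 o4) ∧
    Pop.pop N o1 + 2 * Pop.pop N o2 + 4 * Pop.pop N o3 + 8 * Pop.pop N o4 =
      Pop.pop N s1 + 2 * Pop.pop N s2 + 4 * Pop.pop N s4 +
        ∑ j ∈ range 8, Pop.pop N (g (k + j)) := by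
  obtain ⟨a1, a2, a, ha, ea⟩ := c2_spec N g k s1 s2
  obtain ⟨b1, b2, b, hb, eb⟩ := c2_spec N g (k + 4) a1 a2
  refine ⟨b1, b2, sumf s4 a b, carf s4 a b, fun κ => ?_, ?_⟩
  · unfold c3
    rw [ha]
    exact hb _
  · have := pop_adder N s4 a b
    have hs := sum_split (fun x => Pop.pop N (g x)) k 4
    rw [show (4 + 4 : ℕ) = 8 from rfl] at hs
    omega

theorem c4_spec (N : ℕ) (g : ℕ → ℕ) (k s1 s2 s4 s8 : ℕ) : ∃ o1 o2 o3 o4 o5 : ℕ,
    (∀ κ : ℕ → ℕ → ℕ → ℕ → ℕ → ℕ, c4 g k s1 s2 s4 s8 κ = κ o1 o2 o3 o4 o5) ∧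
    Pop.pop N o1 + 2 * Pop.pop N o2 + 4 * Pop.pop N o3 + 8 * Pop.pop N o4 +
        16 * Pop.pop N o5 =
      Pop.pop N s1 + 2 * Pop.pop N s2 + 4 * Pop.pop N s4 + 8 * Pop.pop N s8 +
        ∑ j ∈ range 16, Pop.pop N (g (k + j)) := by
  obtain ⟨a1, a2, a3, a, ha, ea⟩ := c3_spec N g k s1 s2 s4
  obtain ⟨b1, b2, b3, b, hb, eb⟩ := c3_spec N g (k + 8) a1 a2 a3
  refine ⟨b1, b2, b3, sumf s8 a b, carf s8 a b, fun κ => ?_, ?_⟩
  · unfold c4
    rw [ha]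
    exact hb _
  · have := pop_adder N s8 a b
    have hs := sum_split (fun x => Pop.pop N (g x)) k 8
    rw [show (8 + 8 : ℕ) = 16 from rfl] at hs
    omega

theorem c5_spec (N : ℕ) (g : ℕ → ℕ) (k s1 s2 s4 s8 s16 : ℕ) : ∃ o1 o2 o3 o4 o5 o6 : ℕ,
    (∀ κ : ℕ → ℕ → ℕ → ℕ → ℕ → ℕ → ℕ, c5 g k s1 s2 s4 s8 s16 κ = κ o1 o2 o3 o4 o5 o6) ∧
    Pop.pop N o1 + 2 * Pop.pop N o2 + 4 * Pop.pop N o3 + 8 * Pop.pop N o4 +
        16 * Pop.pop N o5 + 32 * Pop.pop N o6 =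
      Pop.pop N s1 + 2 * Pop.pop N s2 + 4 * Pop.pop N s4 + 8 * Pop.pop N s8 +
        16 * Pop.pop N s16 + ∑ j ∈ range 32, Pop.pop N (g (k + j)) := by
  obtain ⟨a1, a2, a3, a4, a, ha, ea⟩ := c4_spec N g k s1 s2 s4 s8
  obtain ⟨b1, b2, b3, b4, b, hb, eb⟩ := c4_spec N g (k + 16) a1 a2 a3 a4
  refine ⟨b1, b2, b3, b4, sumf s16 a b, carf s16 a b, fun κ => ?_, ?_⟩
  · unfold c5
    rw [ha]
    exact hb _
  · have := pop_adder N s16 a b
    have hs := sum_split (fun x => Pop.pop N (g x)) k 16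
    rw [show (16 + 16 : ℕ) = 32 from rfl] at hs
    omega

theorem mask_eq (s n : ℕ) : mask s n = Pop.mask s n := by
  unfold mask Pop.mask
  change ((1 <<< (2 * s * n)) - 1) / ((1 <<< (2 * s)) - 1) * ((1 <<< s) - 1) = _
  rw [Nat.one_shiftLeft, Nat.one_shiftLeft, Nat.one_shiftLeft]

theorem pcn_eq {n : ℕ} (hn : n < 134217728) (x : ℕ) : pcn n x = Pop.pop (32 * n) x := by
  rw [← Pop.pc_eq n x hn]
  rw [← mask_eq, ← mask_eq, ← mask_eq, ← mask_eq, ← mask_eq]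
  rfl

theorem pcz_eq {n : ℕ} (hn : n < 134217728) (x : ℕ) : pcz n x = Pop.pop (32 * n) x := by
  unfold pcz
  cases hb : Nat.beq x 0 with
  | false => exact pcn_eq hn x
  | true =>
    have : x = 0 := Nat.eq_of_beq_eq_true hb
    rw [this, pop_zero]

theorem gr_eq {n : ℕ} (hn : n < 134217728) (g : ℕ → ℕ) (t : ℕ) :
    gr g n t = ∑ j ∈ range 32, Pop.pop (32 * n) (g (32 * t + j)) := by
  unfold gr
  rw [frc_eq]
  obtain ⟨o1, o2, o3, o4, o5, o6, h, e⟩ := c5_spec (32 * n) g (32 * t) 0 0 0 0 0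
  change c5 g (32 * t) 0 0 0 0 0 _ = _
  rw [h, pcz_eq hn, pcz_eq hn, pcz_eq hn, pcz_eq hn, pcz_eq hn, pcz_eq hn]
  rw [pop_zero] at e
  change Pop.pop (32 * n) o1 + 2 * (Pop.pop (32 * n) o2 + 2 * (Pop.pop (32 * n) o3 +
    2 * (Pop.pop (32 * n) o4 + 2 * (Pop.pop (32 * n) o5 + 2 * Pop.pop (32 * n) o6)))) = _
  omega

theorem cntI_blocks {P : ℕ → Prop} {g : ℕ → ℕ} {N K m : ℕ}
    (hg : ∀ k, K ≤ k → k < K + m → ∀ i ≤ 2 * k, P (k * k + i) → (g k).testBit i = true)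
    (hN : 2 * (K + m) ≤ N + 1) :
    cntI P (K * K) ((K + m) * (K + m)) ≤ ∑ j ∈ range m, Pop.pop N (g (K + j)) := by
  induction m with
  | zero => rw [Nat.add_zero, cntI_self]; exact Nat.zero_le _
  | succ m ih =>
    have h1 : K * K ≤ (K + m) * (K + m) := Nat.mul_le_mul (by omega) (by omega)
    have h2 : (K + m) * (K + m) ≤ (K + (m + 1)) * (K + (m + 1)) :=
      Nat.mul_le_mul (by omega) (by omega)
    rw [cntI_add P h1 h2, Finset.sum_range_succ]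
    apply Nat.add_le_add (ih (fun k h3 h4 => hg k h3 (by omega)) (by omega))
    exact cntI_block (hg (K + m) (by omega) (by omega)) (by omega)

theorem csum_zero (f : ℕ → ℕ) (k : ℕ) : csum f 0 k = f k := frc_eq f k

theorem csum_succ (f : ℕ → ℕ) (e k : ℕ) :
    csum f (e + 1) k = csum f e k + csum f e (k + 2 ^ e) := by
  have h : csum f (e + 1) k =
      frc (fun k => Nat.add (csum f e k) (csum f e (Nat.add k (Nat.shiftLeft 1 e)))) k := rfl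
  rw [h, frc_eq]
  change csum f e k + csum f e (k + 1 <<< e) = _
  rw [Nat.one_shiftLeft]

theorem cntI_csum {P : ℕ → Prop} {f b : ℕ → ℕ} (hb : Monotone b) {e : ℕ} : ∀ {T : ℕ},
    (∀ t, T ≤ t → t < T + 2 ^ e → cntI P (b t) (b (t + 1)) ≤ f t) →
    cntI P (b T) (b (T + 2 ^ e)) ≤ csum f e T := by
  induction e with
  | zero =>
    intro T h
    rw [csum_zero]
    exact h T le_rfl (by simp)
  | succ e ih =>
    intro T h
    have h3 : T + 2 ^ (e + 1) = T + 2 ^ e + 2 ^ e := by rw [pow_succ]; ring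
    rw [h3, cntI_add P (hb (Nat.le_add_right T (2 ^ e))) (hb (Nat.le_add_right _ _)), csum_succ]
    apply Nat.add_le_add
    · exact ih (fun k h4 h5 => h k h4 (by omega))
    · exact ih (T := T + 2 ^ e) (fun k h4 h5 => h k (by omega) (by omega))

/-- The meaning of the kernel facts. -/
theorem cs_spec {W L : ℕ → Prop} (hR : ∀ n, 1 ≤ n → L n → W (rem n) ∧ Tail4 W L n) (hT : Tab TL.WT TL.LT W L (2200 * 2200))
    {KM n e T c : ℕ} (hKM : 8 * KM + KM / 64 + 32 ≤ 4840000) (hT0 : 1 ≤ T)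
    (hT1 : 32 * (T + 2 ^ e) ≤ KM + 1) (hn1 : 2 * KM + 1 ≤ 32 * n) (hn2 : n < 134217728)
    (h : Nat.ble (cs KM n e T) c = true) :
    cntI L ((32 * T) * (32 * T)) ((32 * (T + 2 ^ e)) * (32 * (T + 2 ^ e))) ≤ c := by
  refine le_trans ?_ (Nat.le_of_ble_eq_true h)
  unfold cs
  have hb : Monotone (fun t : ℕ => (32 * t) * (32 * t)) := by
    intro a b hab
    exact Nat.mul_le_mul (by omega) (by omega)
  refine cntI_csum (P := L) (b := fun t => (32 * t) * (32 * t)) hb ?_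
  intro t h1 h2
  rw [gr_eq hn2]
  have h3 : 32 * (t + 1) = 32 * t + 32 := by ring
  show cntI L ((32 * t) * (32 * t)) ((32 * (t + 1)) * (32 * (t + 1))) ≤ _
  rw [h3]
  refine cntI_blocks ?_ (by omega)
  intro k hk1 hk2
  exact blk_spec hR hT (R := 2200 * 2200) (by omega) (by omega) (by omega) (by omega)

end Pool.Agent.AddSq.Fa
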