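import Pool.Agent.AddSq.TabLit

/-!
# Fast evaluation of the loss counts (kernel functions)

Only core definitions; the correctness is proved in `FastSpec.lean`.
-/

namespace Pool.Agent.AddSq.Fa

/-- the number with the bits `0, …, b - 1` -/
noncomputable def msk (b : Nat) : Nat := Nat.sub (Nat.shiftLeft 1 b) 1

/-- the bits below `b` -/
noncomputable def cut (X b : Nat) : Nat := Nat.land X (msk b)

/-- evaluates the (small) argument first -/
noncomputable def frc (g : Nat → Nat) (k : Nat) : Nat :=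
  @Nat.rec (fun _ => Nat) (g 0) (fun j _ => g (Nat.succ j)) k

/-- intersection with the shifted table -/
noncomputable def sh (T : Nat) (A _p u _len : Nat) : Nat := Nat.land A (Nat.shiftRight T u)

noncomputable def fo (f g : Nat → Nat → Nat → Nat → Nat) (A p u len : Nat) : Nat :=
  Nat.lor (f A p u len) (g A p u len)

noncomputable def fa (f g : Nat → Nat → Nat → Nat → Nat) (A p u len : Nat) : Nat :=
  g (f A p u len) p u len

noncomputable def nz3 (f : Nat → Nat → Nat → Nat → Nat) (A m len v t : Nat) : Nat :=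
  Nat.lor (f (Nat.land A (msk t)) m v t)
    (Nat.shiftLeft (f (Nat.shiftRight A t) (Nat.succ m) 0 (Nat.sub len t)) t)

noncomputable def nz2 (f : Nat → Nat → Nat → Nat → Nat) (A m len v b : Nat) : Nat :=
  @Bool.rec (fun _ => Nat) (nz3 f A m len v (Nat.sub b v))
    (f A (Nat.succ m) (Nat.sub v b) len) (Nat.ble b v)

noncomputable def nz1 (f : Nat → Nat → Nat → Nat → Nat) (A m len v b : Nat) : Nat :=
  @Bool.rec (fun _ => Nat) (nz2 f A m len v b) (f A m v len) (Nat.ble (Nat.add v len) b)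

/-- the up move from the residues `[u, u + len)` of the block `p`, restricted to the set `A` -/
noncomputable def nz (f : Nat → Nat → Nat → Nat → Nat) (A p u len : Nat) : Nat :=
  (fun m => nz1 f A m len (Nat.sub (Nat.add (Nat.mul 2 (Nat.mul p p)) u) (Nat.mul m m))
      (Nat.succ (Nat.mul 2 m)))
    (Nat.shiftRight (Nat.mul p 26087635650665564424) 64)

/-- losses of a block: `W₀ ∧ (L₁ ∨ (W₂ ∧ (L₃ ∨ W₄)))`, the first argument of the result
is `W₀` -/
noncomputable def lf (l1 w2 l3 w4 : Nat) : Nat → Nat → Nat → Nat → Nat :=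
  nz (fo (sh l1) (nz (fa (sh w2) (nz (fo (sh l3) (nz (sh w4)))))))

/-- the candidates for lost positions in the block `k ≤ KM`, from the tables `wt`, `lt` -/
noncomputable def blk (wt lt KM : Nat) : Nat → Nat :=
  frc (fun k => lf (cut lt (Nat.add (Nat.mul 3 KM) 16))
    (cut wt (Nat.add (Nat.mul 4 KM) (Nat.add (Nat.div KM 64) 32)))
    (cut lt (Nat.add (Nat.mul 6 KM) 32))
    (cut wt (Nat.add (Nat.mul 8 KM) (Nat.add (Nat.div KM 64) 32)))
    (cut wt (Nat.succ (Nat.mul 2 KM))) k 0 (Nat.succ (Nat.mul 2 k)))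

/-! ### Counting: carry-save adders -/

noncomputable def sumf (s a b : Nat) : Nat := Nat.xor s (Nat.xor a b)

noncomputable def carf (s a b : Nat) : Nat := Nat.lor (Nat.land a b) (Nat.land s (Nat.xor a b))

noncomputable def c1 (g : Nat → Nat) (k s1 : Nat) (κ : Nat → Nat → Nat) : Nat :=
  (fun a b => κ (sumf s1 a b) (carf s1 a b)) (g k) (g (Nat.add k 1))

noncomputable def c2 (g : Nat → Nat) (k s1 s2 : Nat) (κ : Nat → Nat → Nat → Nat) : Nat :=
  c1 g k s1 (fun s1 a => c1 g (Nat.add k 2) s1 (fun s1 b => κ s1 (sumf s2 a b) (carf s2 a b)))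

noncomputable def c3 (g : Nat → Nat) (k s1 s2 s4 : Nat) (κ : Nat → Nat → Nat → Nat → Nat) : Nat :=
  c2 g k s1 s2 (fun s1 s2 a => c2 g (Nat.add k 4) s1 s2
    (fun s1 s2 b => κ s1 s2 (sumf s4 a b) (carf s4 a b)))

noncomputable def c4 (g : Nat → Nat) (k s1 s2 s4 s8 : Nat)
    (κ : Nat → Nat → Nat → Nat → Nat → Nat) : Nat :=
  c3 g k s1 s2 s4 (fun s1 s2 s4 a => c3 g (Nat.add k 8) s1 s2 s4
    (fun s1 s2 s4 b => κ s1 s2 s4 (sumf s8 a b) (carf s8 a b)))

noncomputable def c5 (g : Nat → Nat) (k s1 s2 s4 s8 s16 : Nat)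
    (κ : Nat → Nat → Nat → Nat → Nat → Nat → Nat) : Nat :=
  c4 g k s1 s2 s4 s8 (fun s1 s2 s4 s8 a => c4 g (Nat.add k 16) s1 s2 s4 s8
    (fun s1 s2 s4 s8 b => κ s1 s2 s4 s8 (sumf s16 a b) (carf s16 a b)))

/-- one fold of the popcount -/
noncomputable def fold (s m x : Nat) : Nat := Nat.add (Nat.land x m) (Nat.land (Nat.shiftRight x s) m)

/-- the mask with the low `s` bits of the first `n` fields of length `2 s` -/
noncomputable def mask (s n : Nat) : Nat :=
  Nat.mul (Nat.div (Nat.sub (Nat.shiftLeft 1 (Nat.mul (Nat.mul 2 s) n)) 1)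
    (Nat.sub (Nat.shiftLeft 1 (Nat.mul 2 s)) 1)) (Nat.sub (Nat.shiftLeft 1 s) 1)

/-- popcount of the first `32 n` bits -/
noncomputable def pcn (n x : Nat) : Nat :=
  Nat.mod (fold 16 (mask 16 n) (fold 8 (mask 8 (Nat.mul 2 n)) (fold 4 (mask 4 (Nat.mul 4 n))
    (fold 2 (mask 2 (Nat.mul 8 n)) (fold 1 (mask 1 (Nat.mul 16 n)) x))))) 4294967295

/-- popcount, with a test for zero -/
noncomputable def pcz (n x : Nat) : Nat :=
  @Bool.rec (fun _ => Nat) (pcn n x) 0 (Nat.beq x 0)

/-- sum of the popcounts of the `32` blocks `32 t, …, 32 t + 31` -/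
noncomputable def gr (g : Nat → Nat) (n : Nat) : Nat → Nat :=
  frc (fun t => c5 g (Nat.mul 32 t) 0 0 0 0 0 (fun s1 s2 s4 s8 s16 c =>
    Nat.add (pcz n s1) (Nat.mul 2 (Nat.add (pcz n s2) (Nat.mul 2 (Nat.add (pcz n s4)
      (Nat.mul 2 (Nat.add (pcz n s8) (Nat.mul 2 (Nat.add (pcz n s16)
        (Nat.mul 2 (pcz n c))))))))))))

/-- `f k + … + f (k + 2 ^ e - 1)` -/
noncomputable def csum (f : Nat → Nat) (e : Nat) : Nat → Nat :=
  @Nat.rec (fun _ => Nat → Nat) (frc f)
    (fun d ih => frc (fun k => Nat.add (ih k) (ih (Nat.add k (Nat.shiftLeft 1 d))))) e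

/-- bound for the number of lost positions in the blocks `32 T, …, 32 (T + 2 ^ e) - 1`; `KM` is
a bound for these blocks, `n` the number of 32-bit words of a block -/
noncomputable def cs (KM n e T : Nat) : Nat := csum (gr (blk TL.WT TL.LT KM) n) e T

/-- the fact: at most `c` candidates in the blocks `32 T, …, 32 (T + 2 ^ e) - 1` -/
noncomputable def ok (T e c : Nat) : Bool :=
  @Nat.rec (fun _ => Bool) false
    (fun s _ => Nat.ble (cs (Nat.add 31 (Nat.mul 32 s)) (Nat.mul 2 (Nat.succ s)) e T) c)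
    (Nat.add T (Nat.shiftLeft 1 e))

/-- all facts of a list of triples `(T, e, c)` -/
def FT : List (Nat × Nat × Nat) → Prop
  | [] => True
  | f :: l => ok f.1 f.2.1 f.2.2 = true ∧ FT l

/-- number of lost positions of the table in `[a², b²)` -/
noncomputable def ct (n a b : Nat) : Nat :=
  pcn n (Nat.land (Nat.shiftRight TL.LT (Nat.mul a a)) (msk (Nat.sub (Nat.mul b b) (Nat.mul a a))))

/-- the prefix counts `(R, v)` of the table, `n` the number of 32-bit words -/
noncomputable def chkT (n : Nat) (l : List (Nat × Nat)) : Nat → Nat → Bool :=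
  @List.rec (Nat × Nat) (fun _ => Nat → Nat → Bool) (fun _ _ => true)
    (fun p _ ih a v => Bool.and (Bool.and (Nat.ble a p.1)
      (Nat.ble (Nat.mul p.1 p.1) (Nat.add (Nat.mul a a) (Nat.mul 32 n))))
      (Bool.and (Nat.ble (Nat.add v (ct n a p.1)) p.2) (ih p.1 p.2))) l

end Pool.Agent.AddSq.Fa
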