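import Pool.Agent.AddSq.Count

/-!
# The lost positions of one block, truncated at `r₄`, from cut tables
-/

namespace Pool.Agent.AddSq

/-- the bits of `X` below `R` -/
def cut (X R : ℕ) : ℕ := Nat.land X (Nat.sub (Nat.shiftLeft 1 R) 1)

theorem cut_testBit {X R n : ℕ} (h : n < R) : (cut X R).testBit n = X.testBit n := by
  unfold cut
  change (X &&& _).testBit n = _
  rw [Nat.testBit_and, testBit_mask h, Bool.and_true]

theorem cut_sup {X R R' : ℕ} {T : ℕ → Prop} (h : ∀ n < R', T n → X.testBit n = true)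
    (hR : R ≤ R') : ∀ n < R, T n → (cut X R).testBit n = true := by
  intro n hn hT
  rw [cut_testBit hn]
  exact h n (by omega) hT

/-- a bound for `mm p + 1`, `p ≤ B` -/
def nxt (B : ℕ) : ℕ := 141422 * B / 100000 + 2

theorem mm_lt_nxt {p B : ℕ} (h : p ≤ B) : mm p + 1 ≤ nxt B := by
  have h1 := mm_le p
  have h2 : 100000 * mm p ≤ 141422 * p := by
    by_contra hc
    push Not at hc
    have h3 : (141422 * p) * (141422 * p) < (100000 * mm p) * (100000 * mm p) :=
      Nat.mul_lt_mul'' hc hc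
    have h4 : (100000 * mm p) * (100000 * mm p) ≤ 10000000000 * (2 * (p * p)) := by
      calc (100000 * mm p) * (100000 * mm p) = 10000000000 * (mm p * mm p) := by ring
        _ ≤ _ := Nat.mul_le_mul le_rfl h1
    have h5 : (141422 * p) * (141422 * p) = 20000182084 * (p * p) := by ring
    rw [h5] at h3
    generalize p * p = y at *
    omega
  unfold nxt
  omega

theorem sup_nx' {f : ℕ → ℕ → ℕ → ℕ} {P : ℕ → Prop} {B : ℕ} (hf : Sup f P (nxt B))
    (hB2 : B < 2 ^ 31) : Sup (nx f) (fun n => P (up n)) B := by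
  intro p u len i h1 h2 h3 h4 h5
  have hp : p < 2 ^ 31 := by omega
  have ha := am_eq p
  have ht := tm_eq h1 hp
  have hm := le_mm p h1 hp
  have hm2 := mm_lt_nxt h2
  rw [up_block (by omega)] at h5
  have hsq : (mm p + 1) * (mm p + 1) = mm p * mm p + 2 * mm p + 1 := by ring
  have hA : u + i < tm p → P (mm p * mm p + (u + am p + i)) := by
    intro _
    have e : 2 * (p * p) + (u + i) = mm p * mm p + (u + am p + i) := by omega
    rwa [e] at h5
  have hC : tm p ≤ u + i → P ((mm p + 1) * (mm p + 1) + (u + i - tm p)) := by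
    intro _
    have e : 2 * (p * p) + (u + i) = (mm p + 1) * (mm p + 1) + (u + i - tm p) := by omega
    rwa [e] at h5
  unfold nx
  cases hb : Nat.ble (Nat.add u len) (tm p) with
  | true =>
    have hle : u + len ≤ tm p := Nat.le_of_ble_eq_true hb
    change (f (mm p) (u + am p) len).testBit i = true
    exact hf (mm p) (u + am p) len i (by omega) (by omega) (by omega) h4 (hA (by omega))
  | false =>
    have hlt : ¬ (u + len ≤ tm p) := fun hh => by
      have := Nat.ble_eq_true_of_le hh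
      rw [show u + len = Nat.add u len from rfl, hb] at this
      exact absurd this (by decide)
    cases hb2 : Nat.ble (tm p) u with
    | true =>
      have hle : tm p ≤ u := Nat.le_of_ble_eq_true hb2
      change (f (mm p + 1) (u - tm p) len).testBit i = true
      refine hf (mm p + 1) (u - tm p) len i (by omega) (by omega) (by omega) h4 ?_
      have := hC (by omega)
      rwa [show u + i - tm p = u - tm p + i by omega] at this
    | false =>
      have hlt2 : ¬ (tm p ≤ u) := fun hh => by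
        have := Nat.ble_eq_true_of_le hh
        rw [hb2] at this
        exact absurd this (by decide)
      change (f (mm p) (u + am p) (tm p - u) |||
        (f (mm p + 1) 0 (len - (tm p - u)) <<< (tm p - u))).testBit i = true
      rw [Nat.testBit_or, Bool.or_eq_true]
      by_cases hi : u + i < tm p
      · left
        exact hf (mm p) (u + am p) (tm p - u) i (by omega) (by omega) (by omega) (by omega)
          (hA hi)
      · right
        rw [Nat.testBit_shiftLeft, Bool.and_eq_true]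
        refine ⟨by simp; omega, ?_⟩
        refine hf (mm p + 1) 0 (len - (tm p - u)) (i - (tm p - u)) (by omega) (by omega)
          (by omega) (by omega) ?_
        have := hC (by omega)
        rwa [show u + i - tm p = 0 + (i - (tm p - u)) by omega] at this

/-- the lost positions of a block, rule truncated at `r₄` -/
noncomputable def leafL (w0 l1 w2 l3 w4 : ℕ) : ℕ → ℕ → ℕ → ℕ :=
  fa (seg w0) (nx (fo (seg l1) (nx (fa (seg w2) (nx (fo (seg l3) (nx (seg w4))))))))

theorem le_nxt (B : ℕ) : B ≤ nxt B := by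
  unfold nxt
  omega

theorem sup_leafL {w0 l1 w2 l3 w4 R0 R1 R2 R3 R4 B : ℕ}
    (h0 : ∀ n < R0, Win n → w0.testBit n = true)
    (h1 : ∀ n < R1, Lost n → l1.testBit n = true)
    (h2 : ∀ n < R2, Win n → w2.testBit n = true)
    (h3 : ∀ n < R3, Lost n → l3.testBit n = true)
    (h4 : ∀ n < R4, Win n → w4.testBit n = true)
    (b0 : 2 * B + 1 ≤ R0) (b1 : 2 * nxt B + 1 ≤ R1) (b2 : 2 * nxt (nxt B) + 1 ≤ R2)
    (b3 : 2 * nxt (nxt (nxt B)) + 1 ≤ R3) (b4 : 2 * nxt (nxt (nxt (nxt B))) + 1 ≤ R4)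
    (hB : nxt (nxt (nxt B)) < 2 ^ 31) : Sup (leafL w0 l1 w2 l3 w4) Lost B := by
  have e1 := le_nxt B
  have e2 := le_nxt (nxt B)
  have e3 := le_nxt (nxt (nxt B))
  have s4 : Sup (seg w4) Lost (nxt (nxt (nxt (nxt B)))) :=
    (sup_seg (T := Win) h4 b4).mono' (fun n hn h => (rules_win_lost.lost n hn h).1)
  have s3 : Sup (fo (seg l3) (nx (seg w4))) Win (nxt (nxt (nxt B))) :=
    (sup_fo (sup_seg (T := Lost) h3 b3) (sup_nx' s4 hB)).mono'
      (fun n hn h => rules_win_lost.win n hn h)
  have s2 : Sup (fa (seg w2) (nx (fo (seg l3) (nx (seg w4))))) Lost (nxt (nxt B)) :=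
    (sup_fa (sup_seg (T := Win) h2 b2) (sup_nx' s3 (by omega))).mono'
      (fun n hn h => rules_win_lost.lost n hn h)
  have s1 : Sup (fo (seg l1) (nx (fa (seg w2) (nx (fo (seg l3) (nx (seg w4))))))) Win
      (nxt B) :=
    (sup_fo (sup_seg (T := Lost) h1 b1) (sup_nx' s2 (by omega))).mono'
      (fun n hn h => rules_win_lost.win n hn h)
  exact (sup_fa (sup_seg (T := Win) h0 b0) (sup_nx' s1 (by omega))).mono'
    (fun n hn h => rules_win_lost.lost n hn h)

/-- the whole block of lost positions -/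
noncomputable def lostBlock (w0 l1 w2 l3 w4 k : ℕ) : ℕ := whole (leafL w0 l1 w2 l3 w4) k

/-- bounds for the cuts -/
def fits (B R0 R1 R2 R3 R4 R : ℕ) : Bool :=
  Nat.ble (2 * B + 1) R0 && Nat.ble (2 * nxt B + 1) R1 && Nat.ble (2 * nxt (nxt B) + 1) R2 &&
  Nat.ble (2 * nxt (nxt (nxt B)) + 1) R3 && Nat.ble (2 * nxt (nxt (nxt (nxt B))) + 1) R4 &&
  Nat.ble R0 R && Nat.ble R1 R && Nat.ble R2 R && Nat.ble R3 R && Nat.ble R4 R &&
  Nat.ble (nxt (nxt (nxt B))) 2000000000

theorem lostBlock_spec {w l R : ℕ} (hT : Tab w l Win Lost R) {R0 R1 R2 R3 R4 B : ℕ}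
    (hf : fits B R0 R1 R2 R3 R4 R = true) {k : ℕ} (hk0 : 1 ≤ k) (hk : k ≤ B) :
    ∀ i ≤ 2 * k, Lost (k * k + i) →
      (lostBlock (cut w R0) (cut l R1) (cut w R2) (cut l R3) (cut w R4) k).testBit i = true := by
  unfold fits at hf
  simp only [Bool.and_eq_true, Nat.ble_eq] at hf
  obtain ⟨⟨⟨⟨⟨⟨⟨⟨⟨⟨b0, b1⟩, b2⟩, b3⟩, b4⟩, r0⟩, r1⟩, r2⟩, r3⟩, r4⟩, hB⟩ := hf
  intro i hi h
  exact (sup_leafL (cut_sup hT.1 r0) (cut_sup hT.2 r1) (cut_sup hT.1 r2) (cut_sup hT.2 r3)
    (cut_sup hT.1 r4) b0 b1 b2 b3 b4 (by omega)).whole hk0 hk hi h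

end Pool.Agent.AddSq
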