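import Pool.Agent.AddSq.TabCut

/-!
# Closure check of the literal tables, part 7
-/

namespace Pool.Agent.AddSq.TL

set_option maxRecDepth 100000

theorem chk_1537 : Ev.allb (Ev.chk2 WT LT WS LS 7) 8 1537 = true := by decide +kernel

end Pool.Agent.AddSq.TL
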