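import Pool.Agent.AddSq.TabCut

/-!
# Closure check of the literal tables, part 9
-/

namespace Pool.Agent.AddSq.TL

set_option maxRecDepth 100000

theorem chk_2049 : Ev.allb (Ev.chk2 WT LT WS LS 7) 7 2049 = true := by decide +kernel

theorem chk_2177 : Ev.allb (Ev.chk2 WT LT WS LS 7) 4 2177 = true := by decide +kernel

theorem chk_2193 : Ev.allb (Ev.chk2 WT LT WS LS 7) 2 2193 = true := by decide +kernel

theorem chk_2197 : Ev.allb (Ev.chk2 WT LT WS LS 7) 1 2197 = true := by decide +kernel

theorem chk_2199 : Ev.allb (Ev.chk2 WT LT WS LS 7) 0 2199 = true := by decide +kernel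

end Pool.Agent.AddSq.TL
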