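import Pool.Agent.AddSq.TabChk1
import Pool.Agent.AddSq.TabChk2
import Pool.Agent.AddSq.TabChk3
import Pool.Agent.AddSq.TabChk4
import Pool.Agent.AddSq.TabChk5
import Pool.Agent.AddSq.TabChk6
import Pool.Agent.AddSq.TabChk7
import Pool.Agent.AddSq.TabChk8
import Pool.Agent.AddSq.TabChk9

/-!
# The literal tables contain all wins and all lost positions below `2200²`
-/

namespace Pool.Agent.AddSq.TL

theorem chk_all (k : ℕ) (h0 : 0 < k) (hk : k < 2200) : Ev.chk2 WT LT WS LS 7 k = true := by
  rcases Nat.lt_or_ge k 257 with h | h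
  · exact Ev.allb_spec _ 8 1 chk_1 k (by omega) (by norm_num; omega)
  rcases Nat.lt_or_ge k 513 with h | h
  · exact Ev.allb_spec _ 8 257 chk_257 k (by omega) (by norm_num; omega)
  rcases Nat.lt_or_ge k 769 with h | h
  · exact Ev.allb_spec _ 8 513 chk_513 k (by omega) (by norm_num; omega)
  rcases Nat.lt_or_ge k 1025 with h | h
  · exact Ev.allb_spec _ 8 769 chk_769 k (by omega) (by norm_num; omega)
  rcases Nat.lt_or_ge k 1281 with h | h
  · exact Ev.allb_spec _ 8 1025 chk_1025 k (by omega) (by norm_num; omega)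
  rcases Nat.lt_or_ge k 1537 with h | h
  · exact Ev.allb_spec _ 8 1281 chk_1281 k (by omega) (by norm_num; omega)
  rcases Nat.lt_or_ge k 1793 with h | h
  · exact Ev.allb_spec _ 8 1537 chk_1537 k (by omega) (by norm_num; omega)
  rcases Nat.lt_or_ge k 2049 with h | h
  · exact Ev.allb_spec _ 8 1793 chk_1793 k (by omega) (by norm_num; omega)
  rcases Nat.lt_or_ge k 2177 with h | h
  · exact Ev.allb_spec _ 7 2049 chk_2049 k (by omega) (by norm_num; omega)
  rcases Nat.lt_or_ge k 2193 with h | h
  · exact Ev.allb_spec _ 4 2177 chk_2177 k (by omega) (by norm_num; omega)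
  rcases Nat.lt_or_ge k 2197 with h | h
  · exact Ev.allb_spec _ 2 2193 chk_2193 k (by omega) (by norm_num; omega)
  rcases Nat.lt_or_ge k 2199 with h | h
  · exact Ev.allb_spec _ 1 2197 chk_2197 k (by omega) (by norm_num; omega)
  exact Ev.allb_spec _ 0 2199 chk_2199 k (by omega) (by norm_num; omega)

theorem zero_mem : LT.testBit 0 = true := by decide +kernel

/-- The literal tables contain all wins and all lost positions below `4840000 = 2200²`. -/
theorem tab_valid : Tab WT LT Win Lost (2200 * 2200) := by
  have h := Ev.valid_of_chk2 WT LT 7 4 2200 70400 (by norm_num) (by norm_num) (by norm_num)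
    (by norm_num) (by norm_num) zero_mem chk_all
  exact h

end Pool.Agent.AddSq.TL
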