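import Pool.Agent.AddSq.FastDefs
import Pool.Agent.AddSq.FastLeaf
import Pool.Agent.AddSq.TabValid

/-!
# Correctness of the fast evaluation of the loss counts

Everything is stated for arbitrary predicates `W`, `L` which satisfy the rule truncated at `r₄`
and are contained in the given tables.
-/

namespace Pool.Agent.AddSq.Fa

open Finset

theorem frc_eq (g : ℕ → ℕ) (k : ℕ) : frc g k = g k := by
  cases k <;> rfl

theorem msk_testBit {b i : ℕ} (h : i < b) : (msk b).testBit i = true := testBit_mask h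

theorem cut_testBit {X b i : ℕ} (h : i < b) : (cut X b).testBit i = X.testBit i := by
  unfold cut
  change (X &&& _).testBit i = _
  rw [Nat.testBit_and, msk_testBit h, Bool.and_true]

/-- The specification of the functions: `f A p u len` contains the `i ∈ A` with
`P (p² + (u + i))`. -/
def SupA (f : ℕ → ℕ → ℕ → ℕ → ℕ) (P : ℕ → Prop) (B : ℕ) : Prop :=
  ∀ A p u len i, 1 ≤ p → p ≤ B → u + len ≤ 2 * p + 1 → i < len → A.testBit i = true →
    P (p * p + (u + i)) → (f A p u len).testBit i = true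

theorem SupA.mono {f : ℕ → ℕ → ℕ → ℕ → ℕ} {P Q : ℕ → Prop} {B : ℕ} (h : SupA f P B)
    (hQ : ∀ n, 1 ≤ n → Q n → P n) : SupA f Q B := by
  intro A p u len i h1 h2 h3 h4 hA h5
  refine h A p u len i h1 h2 h3 h4 hA (hQ _ ?_ h5)
  have : 1 * 1 ≤ p * p := Nat.mul_le_mul h1 h1
  omega

theorem supA_sh {X B R : ℕ} {T : ℕ → Prop} (hX : ∀ n < R, T n → X.testBit n = true)
    (hB : 2 * B + 1 ≤ R) : SupA (sh X) (fun n => T (rem n)) B := by
  intro A p u len i h1 h2 h3 h4 hA h5
  change (A &&& X >>> u).testBit i = true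
  rw [Nat.testBit_and, Nat.testBit_shiftRight, hA, Bool.true_and]
  rw [rem_block (by omega)] at h5
  exact hX _ (by omega) h5

theorem supA_fo {f g : ℕ → ℕ → ℕ → ℕ → ℕ} {P Q : ℕ → Prop} {B : ℕ} (hf : SupA f P B)
    (hg : SupA g Q B) : SupA (fo f g) (fun n => P n ∨ Q n) B := by
  intro A p u len i h1 h2 h3 h4 hA h5
  change (f A p u len ||| g A p u len).testBit i = true
  rw [Nat.testBit_or, Bool.or_eq_true]
  rcases h5 with h5 | h5
  · exact Or.inl (hf A p u len i h1 h2 h3 h4 hA h5)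
  · exact Or.inr (hg A p u len i h1 h2 h3 h4 hA h5)

theorem supA_fa {f g : ℕ → ℕ → ℕ → ℕ → ℕ} {P Q : ℕ → Prop} {B : ℕ} (hf : SupA f P B)
    (hg : SupA g Q B) : SupA (fa f g) (fun n => P n ∧ Q n) B := by
  intro A p u len i h1 h2 h3 h4 hA h5
  exact hg _ p u len i h1 h2 h3 h4 (hf A p u len i h1 h2 h3 h4 hA h5.1) h5.2

theorem nz_eq (f : ℕ → ℕ → ℕ → ℕ → ℕ) (A p u len : ℕ) :
    nz f A p u len = nz1 f A (mm p) len (2 * (p * p) + u - mm p * mm p) (2 * mm p + 1) := rfl

theorem nz1_true {f : ℕ → ℕ → ℕ → ℕ → ℕ} {A m len v b : ℕ} (h : v + len ≤ b) :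
    nz1 f A m len v b = f A m v len := by
  have hb : Nat.ble (Nat.add v len) b = true := Nat.ble_eq_true_of_le h
  unfold nz1
  rw [hb]

theorem nz1_false {f : ℕ → ℕ → ℕ → ℕ → ℕ} {A m len v b : ℕ} (h : ¬ v + len ≤ b) :
    nz1 f A m len v b = nz2 f A m len v b := by
  have hb : Nat.ble (Nat.add v len) b = false := by
    cases hb : Nat.ble (Nat.add v len) b with
    | true => exact absurd (Nat.le_of_ble_eq_true hb) h
    | false => rfl
  unfold nz1
  rw [hb]

theorem nz2_true {f : ℕ → ℕ → ℕ → ℕ → ℕ} {A m len v b : ℕ} (h : b ≤ v) :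
    nz2 f A m len v b = f A (m + 1) (v - b) len := by
  have hb : Nat.ble b v = true := Nat.ble_eq_true_of_le h
  unfold nz2
  rw [hb]
  rfl

theorem nz2_false {f : ℕ → ℕ → ℕ → ℕ → ℕ} {A m len v b : ℕ} (h : ¬ b ≤ v) :
    nz2 f A m len v b = f (A &&& msk (b - v)) m v (b - v) |||
      (f (A >>> (b - v)) (m + 1) 0 (len - (b - v))) <<< (b - v) := by
  have hb : Nat.ble b v = false := by
    cases hb : Nat.ble b v with
    | true => exact absurd (Nat.le_of_ble_eq_true hb) h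
    | false => rfl
  unfold nz2
  rw [hb]
  rfl
theorem supA_nz {f : ℕ → ℕ → ℕ → ℕ → ℕ} {P : ℕ → Prop} {B B' : ℕ} (hf : SupA f P B')
    (hB' : nxt B ≤ B') (hB2 : B < 2 ^ 31) : SupA (nz f) (fun n => P (up n)) B := by
  intro A p u len i h1 h2 h3 h4 hA h5
  have hp : p < 2 ^ 31 := by omega
  have hm := le_mm p h1 hp
  have hm2 := mm_lt_nxt h2
  have ha := mm_le p
  have ht := lt_mm h1 hp
  rw [up_block (by omega)] at h5
  rw [nz_eq]
  generalize mm p = m at *
  have hsq : (m + 1) * (m + 1) = m * m + 2 * m + 1 := by ring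
  obtain ⟨v, hv⟩ : ∃ v, 2 * (p * p) + u - m * m = v := ⟨_, rfl⟩
  have hv2 : 2 * (p * p) + u = m * m + v := by omega
  rw [hv]
  have hA' : P (m * m + (v + i)) := by
    have e : 2 * (p * p) + (u + i) = m * m + (v + i) := by omega
    rwa [e] at h5
  have hvu : v ≤ 2 * m + u := by omega
  have hm3 : m + 1 ≤ B' := by omega
  have hm1 : 1 ≤ m := by omega
  have hlen : u + len ≤ 2 * m + 1 := by omega
  clear hv h5 hm2 ha ht hv2 hp hB2 hB' hm h1 h2 h3
  by_cases hc : v + len ≤ 2 * m + 1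
  · rw [nz1_true hc]
    exact hf A m v len i hm1 (by omega) hc h4 hA hA'
  rw [nz1_false hc]
  by_cases hc2 : 2 * m + 1 ≤ v
  · rw [nz2_true hc2]
    refine hf A (m + 1) (v - (2 * m + 1)) len i (by omega) hm3 (by omega) h4 hA ?_
    have e : m * m + (v + i) = (m + 1) * (m + 1) + (v - (2 * m + 1) + i) := by omega
    rwa [e] at hA'
  rw [nz2_false hc2]
  obtain ⟨t, ht⟩ : ∃ t, 2 * m + 1 - v = t := ⟨_, rfl⟩
  rw [ht]
  have hvt : v + t = 2 * m + 1 := by omega
  have htl : t < len := by omega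
  clear hc hc2 ht
  rw [Nat.testBit_or, Bool.or_eq_true]
  by_cases hi : i < t
  · left
    refine hf _ m v t i hm1 (by omega) (by omega) hi ?_ hA'
    rw [Nat.testBit_and, hA, msk_testBit hi]
    rfl
  · right
    rw [Nat.testBit_shiftLeft, Bool.and_eq_true]
    refine ⟨by rw [decide_eq_true_eq]; omega, ?_⟩
    refine hf _ (m + 1) 0 (len - t) (i - t) (by omega) hm3 (by omega) (by omega) ?_ ?_
    · rw [Nat.testBit_shiftRight]
      rw [show t + (i - t) = i by omega]
      exact hA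
    · have e : m * m + (v + i) = (m + 1) * (m + 1) + (0 + (i - t)) := by omega
      rwa [e] at hA'

/-- the rule for a lost position, truncated at `r₄`, without the condition on `r₀` -/
def Tail4 (W L : ℕ → Prop) (n : ℕ) : Prop :=
  L (rem (up n)) ∨ (W (rem (up (up n))) ∧
    (L (rem (up (up (up n)))) ∨ W (rem (up (up (up (up n)))))))

theorem supA_lf {W L : ℕ → Prop} {l1 w2 l3 w4 R1 R2 R3 R4 B : ℕ}
    (h1 : ∀ n < R1, L n → l1.testBit n = true)
    (h2 : ∀ n < R2, W n → w2.testBit n = true)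
    (h3 : ∀ n < R3, L n → l3.testBit n = true)
    (h4 : ∀ n < R4, W n → w4.testBit n = true)
    (b1 : 2 * nxt B + 1 ≤ R1) (b2 : 2 * nxt (nxt B) + 1 ≤ R2)
    (b3 : 2 * nxt (nxt (nxt B)) + 1 ≤ R3) (b4 : 2 * nxt (nxt (nxt (nxt B))) + 1 ≤ R4)
    (hB : nxt (nxt (nxt B)) < 2 ^ 31) : SupA (lf l1 w2 l3 w4) (Tail4 W L) B := by
  have e1 := le_nxt B
  have e2 := le_nxt (nxt B)
  have e3 := le_nxt (nxt (nxt B))
  have s4 := supA_sh (T := W) h4 b4
  have s3 := supA_fo (supA_sh (T := L) h3 b3) (supA_nz s4 le_rfl hB)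
  have s2 := supA_fa (supA_sh (T := W) h2 b2) (supA_nz s3 le_rfl (by omega))
  have s1 := supA_fo (supA_sh (T := L) h1 b1) (supA_nz s2 le_rfl (by omega))
  exact supA_nz s1 le_rfl (by omega)

theorem cut_sup {X b R : ℕ} {T : ℕ → Prop} (h : ∀ n < R, T n → X.testBit n = true)
    (hR : b ≤ R) : ∀ n < b, T n → (cut X b).testBit n = true := by
  intro n hn hT
  rw [cut_testBit hn]
  exact h n (by omega) hT

theorem blk_spec {W L : ℕ → Prop} (hR : ∀ n, 1 ≤ n → L n → W (rem n) ∧ Tail4 W L n)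
    {wt lt R : ℕ} (hT : Tab wt lt W L R)
    {KM k : ℕ} (hKM : 8 * KM + KM / 64 + 32 ≤ R) (hKM2 : KM ≤ 100000000) (hk0 : 1 ≤ k)
    (hk : k ≤ KM) :
    ∀ i ≤ 2 * k, L (k * k + i) → (blk wt lt KM k).testBit i = true := by
  intro i hi h
  have hn : 1 ≤ k * k + i := by
    have : 1 * 1 ≤ k * k := Nat.mul_le_mul hk0 hk0
    omega
  obtain ⟨h0, h1⟩ := hR _ hn h
  rw [rem_block (by omega)] at h0
  unfold blk
  rw [frc_eq]
  have hw : (cut wt (2 * KM + 1)).testBit i = true := by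
    rw [cut_testBit (by omega)]
    exact hT.1 i (by omega) h0
  have a1 := cut_sup (b := 3 * KM + 16) hT.2 (by omega)
  have a2 := cut_sup (b := 4 * KM + (KM / 64 + 32)) hT.1 (by omega)
  have a3 := cut_sup (b := 6 * KM + 32) hT.2 (by omega)
  have a4 := cut_sup (b := 8 * KM + (KM / 64 + 32)) hT.1 (by omega)
  have key := supA_lf (B := KM) a1 a2 a3 a4 (by unfold nxt; omega) (by unfold nxt; omega)
    (by unfold nxt; omega) (by unfold nxt; omega) (by unfold nxt; omega)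
    (cut wt (2 * KM + 1)) k 0 (2 * k + 1) i hk0 hk (by omega) (by omega) hw
    (by rw [Nat.zero_add]; exact h1)
  exact key

end Pool.Agent.AddSq.Fa
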