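import Pool.Agent.AddSq.WSys

/-!
# The system of window inequalities for narrow windows (`3 (z - K) ≤ K`)
-/

namespace Pool.Agent.AddSq

open Finset

/-- the normal form of the window inequalities, general constants, narrow windows -/
structure SysN (δ : ℕ) (ρ₁ σ₁ ρ₂ σ₂ : ℝ) (K0 : ℕ) (cW cL : ℕ → ℕ) : Prop where
  monoW : Monotone cW
  monoL : Monotone cL
  leW : ∀ x, cW x ≤ x
  leL : ∀ x, cL x ≤ x + 1
  win : ∀ x, cW x ≤ (∑ k ∈ Finset.Icc 1 (Nat.sqrt x), cL (2 * k)) + cL (2 * x)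
  loss : ∀ K z R, K0 ≤ K → K ≤ z → 3 * (z - K) ≤ K → 8 * ((z - 1) * z) ≤ R * R →
    ∃ N1 N2 : ℕ, cL (z * z - 1) ≤ cL (K * K - 1) + N1 + N2 ∧
      (N1 : ℝ) ^ 2 ≤ (δ * (cW (2 * (z - 1)) : ℝ) + ∑ k ∈ Ico K z, (cW (2 * k) : ℝ)) *
        (ρ₁ * N1 + σ₁ * (cL R : ℝ) ^ 2) ∧
      (N2 : ℝ) ^ 2 ≤ (δ * (cW (4 * (z - 1)) : ℝ) + ∑ k ∈ Ico K z, (cW (4 * k) : ℝ)) *
        (ρ₂ * N2 + σ₂ * (cW (2 * (z - 1)) : ℝ) ^ 2)

theorem SysR.toN {δ : ℕ} {ρ₁ σ₁ ρ₂ σ₂ : ℝ} {K0 : ℕ} {cW cL : ℕ → ℕ}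
    (h : SysR δ ρ₁ σ₁ ρ₂ σ₂ K0 cW cL) : SysN δ ρ₁ σ₁ ρ₂ σ₂ K0 cW cL where
  monoW := h.monoW
  monoL := h.monoL
  leW := h.leW
  leL := h.leL
  win := h.win
  loss := fun K z R hK hKz hH hR => h.loss K z R hK hKz (by omega) hR

/-- lag one with weighted shifts, narrow windows -/
def NBound1 (K₀ D C R S : ℕ) : Prop := ∀ (K H : ℕ) (A B : Finset ℕ), K₀ ≤ K → 3 * H ≤ K →
  ((C : ℝ) * (pairs1 A B K H).card) ^ 2 ≤
    (D * (A.card : ℝ) + ∑ k ∈ Finset.Ico K (K + H), ((A.filter (fun a => a ≤ 2 * k)).card : ℝ)) *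
      (R * (pairs1 A B K H).card + S * (B.card : ℝ) ^ 2)

/-- lag two with weighted shifts, narrow windows -/
def NBound2 (K₀ D C R S : ℕ) : Prop := ∀ (K H : ℕ) (A B : Finset ℕ), K₀ ≤ K → 3 * H ≤ K →
  ((C : ℝ) * (pairs2 A B K H).card) ^ 2 ≤
    (D * (B.card : ℝ) + ∑ k ∈ Finset.Ico K (K + H), ((B.filter (fun c => c ≤ 4 * k)).card : ℝ)) *
      (R * (pairs2 A B K H).card + S * (A.card : ℝ) ^ 2)

/-- **The normal form for arbitrary sets with the rules, weighted shifts, narrow windows.** -/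
theorem sysN_of_nBound {W L : ℕ → Prop} (h : GRules W L) {K₀ D C₁ R₁ S₁ C₂ R₂ S₂ : ℕ}
    (hK₀ : 1 ≤ K₀) (hC₁ : 1 ≤ C₁) (hC₂ : 1 ≤ C₂)
    (b₁ : NBound1 K₀ D C₁ R₁ S₁) (b₂ : NBound2 K₀ D C₂ R₂ S₂) :
    SysN D (R₁ / (C₁ : ℝ) ^ 2) (S₁ / (C₁ : ℝ) ^ 2) (R₂ / (C₂ : ℝ) ^ 2) (S₂ / (C₂ : ℝ) ^ 2) K₀
      (gcount W) (gcount L) where
  monoW := GW.gcount_mono W
  monoL := GW.gcount_mono L
  leW := GW.gcount_le_of_pos h.wpos
  leL := GW.gcount_le L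
  win := GW.gwin h
  loss := by
    intro K z R hK hKz hH hR
    have e : K + (z - K) = z := by omega
    refine ⟨(pairs1 (GW.gset W (2 * (z - 1))) (GW.gset L R) K (z - K)).card,
      (pairs2 (GW.gset W (2 * (z - 1))) (GW.gset W (4 * (z - 1))) K (z - K)).card, ?_, ?_, ?_⟩
    · have q1 := GW.gloss_window h (K := K) (by omega) (z - K)
      have q2 := GW.gwin1_card_le (W := W) (L := L) (K := K) (H := z - K) (R := R)
        (by rw [e]; exact hR)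
      have q3 := GW.gwin2_card_le W K (z - K)
      rw [e] at q1 q2 q3
      omega
    · have h1 := b₁ K (z - K) (GW.gset W (2 * (z - 1))) (GW.gset L R) hK hH
      rw [e, GW.sum_gset_filter 2 K z] at h1
      have h2 := wlag_div hC₁ h1
      refine h2.trans (le_of_eq ?_)
      push_cast
      rfl
    · have h1 := b₂ K (z - K) (GW.gset W (2 * (z - 1))) (GW.gset W (4 * (z - 1))) hK hH
      rw [e, GW.sum_gset_filter 4 K z] at h1
      have h2 := wlag_div hC₂ h1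
      refine h2.trans (le_of_eq ?_)
      push_cast
      rfl

end Pool.Agent.AddSq
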