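import Pool.Agent.AddSq.GridA
import Pool.Agent.AddSq.SysN

/-!
# From real to natural constants
-/

namespace Pool.Agent.AddSq.GA

open Finset

theorem lag_nat {q r s N A t : ℕ} {ρ σ : ℝ} (hq : 0 < q) (hr : ρ ≤ (r : ℝ) / q)
    (hs : σ ≤ (s : ℝ) / q) (h : (N : ℝ) ^ 2 ≤ (A : ℝ) * (ρ * N + σ * (t : ℝ) ^ 2)) :
    q * N ^ 2 ≤ A * (r * N + s * t ^ 2) := by
  have hq' : (0 : ℝ) < q := by exact_mod_cast hq
  have h1 : ρ * N + σ * (t : ℝ) ^ 2 ≤ (r : ℝ) / q * N + (s : ℝ) / q * (t : ℝ) ^ 2 :=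
    add_le_add (mul_le_mul_of_nonneg_right hr (Nat.cast_nonneg _))
      (mul_le_mul_of_nonneg_right hs (by positivity))
  have h2 : (N : ℝ) ^ 2 ≤ (A : ℝ) * ((r : ℝ) / q * N + (s : ℝ) / q * (t : ℝ) ^ 2) :=
    h.trans (mul_le_mul_of_nonneg_left h1 (Nat.cast_nonneg _))
  have h3 := mul_le_mul_of_nonneg_left h2 hq'.le
  have e : (q : ℝ) * ((A : ℝ) * ((r : ℝ) / q * N + (s : ℝ) / q * (t : ℝ) ^ 2)) =
      (A : ℝ) * (r * N + s * (t : ℝ) ^ 2) := by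
    field_simp
  rw [e] at h3
  exact_mod_cast h3

/-- rounding the constants of `SysR` up to rational numbers -/
theorem sysQ_of_sysR {P : Par} {cW cL : ℕ → ℕ} {ρ₁ σ₁ ρ₂ σ₂ : ℝ}
    (hs : SysR P.D ρ₁ σ₁ ρ₂ σ₂ P.K0 cW cL) (hw : P.w ≤ 2) (q1 : 0 < P.q1) (q2 : 0 < P.q2)
    (h1 : ρ₁ ≤ (P.r1 : ℝ) / P.q1) (h2 : σ₁ ≤ (P.s1 : ℝ) / P.q1)
    (h3 : ρ₂ ≤ (P.r2 : ℝ) / P.q2) (h4 : σ₂ ≤ (P.s2 : ℝ) / P.q2) : SysQ P cW cL where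
  monoW := hs.monoW
  monoL := hs.monoL
  leW := hs.leW
  leL := hs.leL
  win := hs.win
  loss := by
    intro K z R hK hKz hH hR
    obtain ⟨N1, N2, e1, e2, e3⟩ := hs.loss K z R hK hKz
      (hH.trans (Nat.mul_le_mul_right _ hw)) hR
    refine ⟨N1, N2, e1, lag_nat q1 h1 h2 (e2.trans (le_of_eq ?_)),
      lag_nat q2 h3 h4 (e3.trans (le_of_eq ?_))⟩
    · push_cast
      rfl
    · push_cast
      rfl

/-- the same for the narrow windows -/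
theorem sysQ_of_sysN {P : Par} {cW cL : ℕ → ℕ} {ρ₁ σ₁ ρ₂ σ₂ : ℝ}
    (hs : SysN P.D ρ₁ σ₁ ρ₂ σ₂ P.K0 cW cL) (hw : P.w ≤ 1) (q1 : 0 < P.q1) (q2 : 0 < P.q2)
    (h1 : ρ₁ ≤ (P.r1 : ℝ) / P.q1) (h2 : σ₁ ≤ (P.s1 : ℝ) / P.q1)
    (h3 : ρ₂ ≤ (P.r2 : ℝ) / P.q2) (h4 : σ₂ ≤ (P.s2 : ℝ) / P.q2) : SysQ P cW cL where
  monoW := hs.monoW
  monoL := hs.monoL
  leW := hs.leW
  leL := hs.leL
  win := hs.win
  loss := by
    intro K z R hK hKz hH hR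
    obtain ⟨N1, N2, e1, e2, e3⟩ := hs.loss K z R hK hKz
      (hH.trans ((Nat.mul_le_mul_right _ hw).trans (by omega))) hR
    refine ⟨N1, N2, e1, lag_nat q1 h1 h2 (e2.trans (le_of_eq ?_)),
      lag_nat q2 h3 h4 (e3.trans (le_of_eq ?_))⟩
    · push_cast
      rfl
    · push_cast
      rfl

end Pool.Agent.AddSq.GA
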