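import Pool.Agent.AddSq.WLOne
import Pool.Agent.AddSq.SysN

/-!
# Lag one with weighted shifts: `D = 170`, windows `3 H ≤ K`, `K ≥ 8000000`
-/

namespace Pool.Agent.AddSq.L1N

open Finset L1 L1W

/-- the weights as digits in base 256 -/
def CT : ℕ := 7274330594999237136662792964080863734463876279687576232700345633120728225969018663226666504516212497504080259439944246401678870349825143108295243472553153192382490336588637594059847613184690793676221949510595067082238696958102668089065078290099230251034724265318540074089988888294977629726125984833596749526317441097626135305122820406554149743480825943447532640760958092025789133779290021759825251234244788551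

/-- their autocorrelation as digits in base `2 ^ 24` -/
def RT : ℕ := 4990596778544633424517205783977329070400483812254784361906227079823067719892646941875066359025873667663412027962592299370538724780767986682420181786402923431494420053155635098273717354681598866663878281386423055876248140218461296812225895545590479265258614911871612885696277132074984069137807396350895889440091214017763517714186292830959791177235695067851237815839040527746274810166658261677877644686649666335343290424528634690482891244942765868588688507616760632959965611730693583078615151209175823004305484144779024390096283616802158502442851963377436140333123337410860647175676331529049738934572663415297806611805473693719670959775776721251986733108326827837728587372861023396734989284068894334738751233440664004443767559569574205120396624645221059866467157956033005149118302009126191533397112969306836243380344209236192218554040136273956988015952120914441895630977763154286059480579887941375474965109264784096362042415159169207411415224670914939420053933518314973383226200633635846507846849385010294662114428509612302345788844803887447166588787859742124656348397651126884136157298386977594118976191903893827175288287089005151735164742506613685785583984898366360614225034767610361467314471930089886232523760822267335042955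

def wt1 (i : ℕ) : ℕ := dg 256 CT i

def wf1 (δ : ℕ) : ℕ := dg 16777216 RT δ

set_option maxRecDepth 10000 in
theorem chk_wf1 : chkR wt1 wf1 170 170 = true := by decide +kernel

theorem sum_wt1 : csum wt1 170 = 3901 := by decide +kernel

theorem wf1_zero : wf1 0 = 157579 := by decide +kernel

set_option maxRecDepth 10000 in
theorem cert170 : certFrom wf1 170 4 3 383000000 512600000000 3083842 169 = true := by decide +kernel

set_option maxRecDepth 10000 in
theorem good170 : goodFrom 170 512600000000 8000000 2092041037 169 = true := by decide +kernel

end Pool.Agent.AddSq.L1N

namespace Pool.Agent.AddSq

/-- **The inequality of lag one with weighted shifts.** -/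
theorem nBound1 : NBound1 8000000 170 3901 157579 3083842 := by
  intro K H A B hK hH
  have hwt : ∀ δ, 1 ≤ δ → δ < 170 → wR L1N.wt1 170 δ = L1N.wf1 δ := fun δ _ h =>
    L1W.chkR_spec L1N.chk_wf1 h
  have h0 : wR L1N.wt1 170 0 = 157579 := (L1W.chkR_spec L1N.chk_wf1 (by norm_num)).trans L1N.wf1_zero
  have hC : wSum L1N.wt1 170 = 3901 := (L1W.csum_eq _ _).symm.trans L1N.sum_wt1
  have := L1W.lag1_cert (wf := L1N.wf1) (D := 170) (p := 4) (q := 3) (K := K) (H := H)
    (tm := 2092041037) (K₀ := 8000000) L1N.cert170 L1N.good170 (by norm_num) (by norm_num)
    (by norm_num) hK (by norm_num) (by omega) (by omega) (by omega) (by omega) L1N.wt1 hwt A B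
  rw [h0, hC] at this
  push_cast at this ⊢
  exact this

end Pool.Agent.AddSq
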