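import Pool.Agent.AddSq.X3Num
import Pool.Agent.AddSq.X3Tab
import Pool.Agent.AddSq.NLagOne

/-!
# Lag two with weighted shifts, narrow windows: `D = 170`, `3 H ≤ K`, `K ≥ 8 000 000`,
and the system of window inequalities
-/

namespace Pool.Agent.AddSq

open Finset

/-- **The inequality of lag two with weighted shifts, narrow windows.** -/
theorem nBound2 : NBound2 8000000 170 2270 92808 917424 := by
  intro K H A B hK hH
  have hwt : ∀ δ, δ < 170 → wR X3.wt2 170 δ = X3.wf2 δ := fun δ h =>
    L1W.chkR_spec X3.chk_wf2 h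
  have h0 : wR X3.wt2 170 0 = 92808 := (hwt 0 (by norm_num)).trans X3.wf2_zero
  have hC : wSum X3.wt2 170 = 2270 := (L1W.csum_eq _ _).symm.trans X3.sum_wt2
  have := X3.wBound2_of X3.active_c X3.same_b X3.cross_b X3.wt2 hwt K H A B hK hH
  rw [h0, hC] at this
  push_cast at this ⊢
  exact this

/-- **The system with the certified weights, narrow windows** `3 (z - K) ≤ K`, from
`8·10⁶` on. -/
theorem sysN_narrow {W L : ℕ → Prop} (h : GRules W L) :
    SysN 170 (157579 / 3901 ^ 2) (3083842 / 3901 ^ 2) (92808 / 2270 ^ 2) (917424 / 2270 ^ 2)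
      8000000 (gcount W) (gcount L) := by
  have := sysN_of_nBound h (by norm_num) (by norm_num) (by norm_num) nBound1 nBound2
  push_cast at this
  exact this

end Pool.Agent.AddSq
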