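import Pool.Agent.AddSq.FinalExp
import Pool.Agent.AddSq.FKData
import Pool.Agent.AddSq.LagOne
import Pool.Agent.AddSq.LagTwoFin
import Pool.Agent.AddSq.NLagTwo
import Pool.Agent.AddSq.CorrOutX
import Pool.Agent.AddSq.GridFinX

/-!
# The natural density theorem from the kernel facts of the correlation groups 19, 20, 21, 22
-/

namespace Pool.Agent.AddSq

open Finset Cor

theorem kd_last : (589824, 60986524) ∈ Fa.kd := by decide +kernel

theorem final_of_groups
    (h19 : GrpOk Wp Lp 4194304 t2_19 t1_19 524287 wa_19 cw_19)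
    (h20 : GrpOk Wp Lp 8388608 t2_20 t1_20 1048575 wa_20 cw_20)
    (h21 : GrpOk Wp Lp 16777216 t2_21 t1_21 2097151 wa_21 cw_21)
    (h22 : GrpOk Wp Lp 33554432 t2_22 t1_22 4194303 wa_22 cw_22) :
    ∃ g : ℕ →. ℕ, Partrec g ∧ (∀ n, WinsP n → g n = Part.some 1) ∧
      (∀ n, LosesP n → g n = Part.some 2) ∧
      (∀ n, DrawsP n → g n = Part.some 0 ∨ g n = Part.none) ∧
      ∃ D : ℕ → Bool, Primrec D ∧ (∀ n, 1 ≤ n → D n = true → DrawsP n ∧ g n = Part.some 0) ∧
        Filter.Tendsto (fun x : ℕ =>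
          (((Icc 1 x).filter (fun n => D n = true)).card : ℝ) / x) Filter.atTop (nhds 1) ∧
        ∃ C : ℝ, ∀ x : ℕ, 1 ≤ x →
          (((Icc 1 x).filter (fun n => D n = false)).card : ℝ) ≤
            C * x * Real.exp (-(Real.log x) ^ (1 / 7 : ℝ)) := by
  have hsys : SysW 5172 5720 5000000 (gcount Wp) (gcount Lp) :=
    sysW_of_rules grules_wl (by norm_num) lagBound1 lagBound2
  have hk := Fa.kernel_data grules_wl
  have hv : gcount Lp (589824 * 589824 - 1) ≤ 60986524 := (hk _ kd_last).2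
  have hc := Cor.corr_dataX grules_wl h19 h20 h21 h22 hv
  have hs : ValidF (gcount Wp) (gcount Lp) (2 ^ 8193) (32 * 2 ^ 16387) 0.0055 0.0018 :=
    start_denseX (sysN_narrow grules_wl) hk hc
  have h1 : (1000000000000 : ℝ) ≤ ((2 ^ 8193 : ℕ) : ℝ) := by
    have h2 : (2 : ℝ) ^ 40 ≤ 2 ^ 8193 := pow_le_pow_right₀ (by norm_num) (by norm_num)
    have h3 : (1000000000000 : ℝ) ≤ 2 ^ 40 := by norm_num
    push_cast
    exact h3.trans h2
  refine final_dense_exp (T := 10 ^ 9) (by norm_num) contr_old (stepThm_old hsys).toT ?_ ?_ ?_ ?_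
    hs
  · rw [← pow_mul]
    exact Nat.pow_le_pow_right (by norm_num) (by norm_num)
  · calc 2 = 2 ^ 1 := (pow_one 2).symm
      _ ≤ 2 ^ 8193 := Nat.pow_le_pow_right (by norm_num) (by norm_num)
  · generalize ((2 ^ 8193 : ℕ) : ℝ) = m at h1 ⊢
    linarith
  · generalize ((2 ^ 8193 : ℕ) : ℝ) = m at h1 ⊢
    linarith

end Pool.Agent.AddSq
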