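import Pool.Agent.AddSq.Limit2

/-!
# Final assembly with the rate `C x / (log x) ^ 2` (block E of MP_006ce8_co)

`final_sparse`: along the intervals `[M ^ 2 ^ j, 32 Y ^ 2 ^ j]`.
`final_dense`: for all `x`, if `M ^ 2 ≤ Y`.
-/

namespace Pool.Agent.AddSq

open Finset

/-- Reciprocals of a set with counting function `≤ C x / (log x) ^ 2` are summable. -/
theorem summable_inv_of_rate {P : ℕ → Prop} [DecidablePred P] {C : ℝ} (hC : 0 ≤ C)
    (h : ∀ x : ℕ, 2 ≤ x → (x : ℝ) - cnt P x ≤ C * x / Real.log x ^ 2) :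
    Summable (fun n : ℕ => if P n then (0 : ℝ) else 1 / n) := by
  set f : ℕ → ℝ := fun n => if P n then (0 : ℝ) else 1 / n with hf
  have hf0 : ∀ n, 0 ≤ f n := by
    intro n
    simp only [hf]
    split_ifs
    · exact le_rfl
    · positivity
  have hlog2 : 0 < Real.log 2 := Real.log_pos (by norm_num)
  -- one dyadic block
  have hblock : ∀ k : ℕ, ∑ n ∈ Ico (2 ^ k) (2 ^ (k + 1)), f n ≤
      (2 * C / Real.log 2 ^ 2) * (1 / ((k + 1 : ℕ) : ℝ) ^ 2) := by
    intro k
    have h2k : (0 : ℝ) < 2 ^ k := by positivity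
    have h1 : ∑ n ∈ Ico (2 ^ k) (2 ^ (k + 1)), f n ≤
        ∑ n ∈ Ico (2 ^ k) (2 ^ (k + 1)), (if P n then (0 : ℝ) else 1 / 2 ^ k) := by
      apply sum_le_sum
      intro n hn
      simp only [hf]
      split_ifs
      · exact le_rfl
      · have h3 : ((2 : ℝ) ^ k) ≤ n := by
          have := (mem_Ico.1 hn).1
          exact_mod_cast this
        exact one_div_le_one_div_of_le h2k h3
    have h2 : ∑ n ∈ Ico (2 ^ k) (2 ^ (k + 1)), (if P n then (0 : ℝ) else 1 / 2 ^ k) =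
        (((Ico (2 ^ k) (2 ^ (k + 1))).filter (fun n => ¬ P n)).card : ℝ) * (1 / 2 ^ k) := by
      rw [← sum_filter_add_sum_filter_not _ P]
      have e1 : ∑ n ∈ (Ico (2 ^ k) (2 ^ (k + 1))).filter P,
          (if P n then (0 : ℝ) else 1 / 2 ^ k) = 0 := by
        apply sum_eq_zero
        intro n hn
        rw [if_pos (mem_filter.1 hn).2]
      have e2 : ∑ n ∈ (Ico (2 ^ k) (2 ^ (k + 1))).filter (fun n => ¬ P n),
          (if P n then (0 : ℝ) else 1 / 2 ^ k) =
          ∑ n ∈ (Ico (2 ^ k) (2 ^ (k + 1))).filter (fun n => ¬ P n), (1 / 2 ^ k : ℝ) := by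
        apply sum_congr rfl
        intro n hn
        rw [if_neg (mem_filter.1 hn).2]
      rw [e1, e2, sum_const, nsmul_eq_mul, zero_add]
    have h3 : (((Ico (2 ^ k) (2 ^ (k + 1))).filter (fun n => ¬ P n)).card : ℝ) ≤
        ((2 ^ (k + 1) : ℕ) : ℝ) - cnt P (2 ^ (k + 1)) := by
      have e1 : cnt P (2 ^ (k + 1)) + ((Icc 1 (2 ^ (k + 1))).filter (fun n => ¬ P n)).card =
          2 ^ (k + 1) := by
        have : cnt P (2 ^ (k + 1)) = ((Icc 1 (2 ^ (k + 1))).filter P).card := by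
          unfold cnt
          congr
        rw [this, card_filter_add_card_filter_not]
        simp
      have e2 : ((Ico (2 ^ k) (2 ^ (k + 1))).filter (fun n => ¬ P n)).card ≤
          ((Icc 1 (2 ^ (k + 1))).filter (fun n => ¬ P n)).card := by
        apply card_le_card
        intro n hn
        obtain ⟨g1, g2⟩ := mem_filter.1 hn
        have g3 := mem_Ico.1 g1
        have g4 : 1 ≤ 2 ^ k := Nat.one_le_two_pow
        exact mem_filter.2 ⟨mem_Icc.2 ⟨g4.trans g3.1, g3.2.le⟩, g2⟩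
      have e3 : (cnt P (2 ^ (k + 1)) : ℝ) +
          ((Icc 1 (2 ^ (k + 1))).filter (fun n => ¬ P n)).card = ((2 ^ (k + 1) : ℕ) : ℝ) := by
        exact_mod_cast e1
      have e4 : (((Ico (2 ^ k) (2 ^ (k + 1))).filter (fun n => ¬ P n)).card : ℝ) ≤
          ((Icc 1 (2 ^ (k + 1))).filter (fun n => ¬ P n)).card := by exact_mod_cast e2
      linarith
    have h4 := h (2 ^ (k + 1)) (by
      calc 2 = 2 ^ 1 := (pow_one 2).symm
        _ ≤ 2 ^ (k + 1) := Nat.pow_le_pow_right (by norm_num) (by omega))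
    have h5 : Real.log ((2 ^ (k + 1) : ℕ) : ℝ) = ((k + 1 : ℕ) : ℝ) * Real.log 2 := by
      push_cast
      rw [Real.log_pow]
      push_cast
      ring
    rw [h5] at h4
    have hk1 : (0 : ℝ) < ((k + 1 : ℕ) : ℝ) := by positivity
    calc ∑ n ∈ Ico (2 ^ k) (2 ^ (k + 1)), f n
        ≤ (((Ico (2 ^ k) (2 ^ (k + 1))).filter (fun n => ¬ P n)).card : ℝ) * (1 / 2 ^ k) :=
          h1.trans_eq h2
      _ ≤ (C * ((2 ^ (k + 1) : ℕ) : ℝ) / (((k + 1 : ℕ) : ℝ) * Real.log 2) ^ 2) * (1 / 2 ^ k) :=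
          mul_le_mul_of_nonneg_right (h3.trans h4) (by positivity)
      _ = (2 * C / Real.log 2 ^ 2) * (1 / ((k + 1 : ℕ) : ℝ) ^ 2) := by
          push_cast
          rw [pow_succ]
          field_simp
  have hsum : Summable (fun k : ℕ => (2 * C / Real.log 2 ^ 2) * (1 / ((k + 1 : ℕ) : ℝ) ^ 2)) := by
    apply Summable.mul_left
    exact (summable_nat_add_iff 1).2 (Real.summable_one_div_nat_pow.2 (by norm_num : 1 < 2))
  have hdy : ∀ K : ℕ, ∑ n ∈ range (2 ^ K), f n ≤
      ∑ k ∈ range K, (2 * C / Real.log 2 ^ 2) * (1 / ((k + 1 : ℕ) : ℝ) ^ 2) := by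
    intro K
    induction K with
    | zero =>
      simp [hf]
    | succ K ih =>
      have e1 : ∑ n ∈ range (2 ^ (K + 1)), f n =
          ∑ n ∈ range (2 ^ K), f n + ∑ n ∈ Ico (2 ^ K) (2 ^ (K + 1)), f n :=
        (sum_range_add_sum_Ico f (Nat.pow_le_pow_right (by norm_num) (by omega))).symm
      rw [e1, sum_range_succ]
      exact add_le_add ih (hblock K)
  have hfin : ∀ N : ℕ, ∑ n ∈ range N, f n ≤
      ∑' k : ℕ, (2 * C / Real.log 2 ^ 2) * (1 / ((k + 1 : ℕ) : ℝ) ^ 2) := by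
    intro N
    have e1 : ∑ n ∈ range N, f n ≤ ∑ n ∈ range (2 ^ N), f n :=
      sum_le_sum_of_subset_of_nonneg (range_subset_range.2 Nat.lt_two_pow_self.le)
        (fun n _ _ => hf0 n)
    refine e1.trans ((hdy N).trans ?_)
    apply hsum.sum_le_tsum
    intro k _
    positivity
  exact summable_of_sum_range_le hf0 hfin

/-- Natural density one from the rate. -/
theorem tendsto_of_rate {P : ℕ → Prop} {C : ℝ}
    (h : ∀ x : ℕ, 2 ≤ x → (x : ℝ) - cnt P x ≤ C * x / Real.log x ^ 2) :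
    Filter.Tendsto (fun x : ℕ => (cnt P x : ℝ) / x) Filter.atTop (nhds 1) := by
  have hlog : Filter.Tendsto (fun x : ℕ => Real.log (x : ℝ)) Filter.atTop Filter.atTop :=
    Real.tendsto_log_atTop.comp tendsto_natCast_atTop_atTop
  have h1 : Filter.Tendsto (fun x : ℕ => 1 - C / Real.log (x : ℝ) ^ 2) Filter.atTop
      (nhds (1 - 0)) := by
    apply Filter.Tendsto.const_sub
    apply Filter.Tendsto.const_div_atTop
    exact (Filter.tendsto_pow_atTop (by norm_num : (2 : ℕ) ≠ 0)).comp hlog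
  rw [sub_zero] at h1
  refine tendsto_of_tendsto_of_tendsto_of_le_of_le' h1 tendsto_const_nhds ?_ ?_
  · filter_upwards [Filter.eventually_ge_atTop 2] with x hx
    have hx0 : (0 : ℝ) < x := by exact_mod_cast (by omega : 0 < x)
    have h2 := h x hx
    rw [le_div_iff₀ hx0, sub_mul]
    have h3 : C / Real.log (x : ℝ) ^ 2 * x = C * x / Real.log (x : ℝ) ^ 2 := by ring
    rw [h3]
    linarith
  · filter_upwards [Filter.eventually_ge_atTop 1] with x hx
    have hx0 : (0 : ℝ) < x := by exact_mod_cast (by omega : 0 < x)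
    rw [div_le_one hx0]
    exact_mod_cast cnt_le P x

/-- The levels of the final theorem, with the fast decay. -/
theorem isDraw_levels (h1 : LagBound1 5000000 5172) (h2 : LagBound2 5000000 5720) {M Y : ℕ}
    (hMY : M ≤ Y) (hM : 10 ^ 12 ≤ M)
    (hv : ValidF (gcount Wp) (gcount Lp) M (32 * Y) 0.0055 0.0018) (j x : ℕ)
    (hx1 : M ^ 2 ^ (160 + j) ≤ x) (hx2 : x ≤ 32 * Y ^ 2 ^ (160 + j)) :
    (x : ℝ) - cnt (fun n => isDraw n = true) x ≤ 0.00000464 * (1 / 4) ^ j * x := by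
  have hsys : SysW 5172 5720 5000000 (gcount Wp) (gcount Lp) :=
    sysW_of_rules grules_wl (by norm_num) h1 h2
  have hM' : (10 : ℝ) ^ 12 ≤ M := by exact_mod_cast hM
  have hM2 : ((10 : ℝ) ^ 12) ^ 2 ≤ (M : ℝ) ^ 2 := pow_le_pow_left₀ (by norm_num) hM' 2
  have h3 := two_phase contr_old contr_fast (stepThm_old hsys) hMY
    (by
      have : (10 : ℝ) ^ 9 ≤ (0.000378 + 0.001174) * 10 ^ 12 := by norm_num
      exact this.trans (mul_le_mul_of_nonneg_left hM' (by norm_num)))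
    (by
      have : (1 : ℝ) ≤ 0.95 * 10 ^ 12 := by norm_num
      exact this.trans (mul_le_mul_of_nonneg_left hM' (by norm_num))) hv
    (j0 := 160) (by norm_num) (by norm_num) (by norm_num)
    (by
      have : (10 : ℝ) ^ 9 ≤ (0.0000000476 + 0.0000000964) * (10 ^ 12) ^ 2 := by norm_num
      exact this.trans (mul_le_mul_of_nonneg_left hM2 (by norm_num)))
    (by
      have : (1 : ℝ) ≤ 1 / 4 * 10 ^ 12 := by norm_num
      exact this.trans (mul_le_mul_of_nonneg_left hM' (by norm_num))) j x hx1 hx2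
  have h4 : (x : ℝ) ≤ cnt (fun n => isDraw n = true) x +
      ((gcount Wp x + gcount Lp x : ℕ) : ℝ) := by
    exact_mod_cast le_cnt_add (fun n _ h => not_isDraw h) x
  have he : (0.000004 : ℝ) + 0.00000064 = 0.00000464 := by norm_num
  rw [he] at h3
  linarith

/-- The algorithm, in the literal terms of the game. -/
theorem algo_literal :
    Partrec algo ∧ (∀ n, WinsP n → algo n = Part.some 1) ∧
      (∀ n, LosesP n → algo n = Part.some 2) ∧
      (∀ n, DrawsP n → algo n = Part.some 0 ∨ algo n = Part.none) ∧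
      Primrec isDraw ∧
      (∀ n, 1 ≤ n → isDraw n = true → DrawsP n ∧ algo n = Part.some 0) := by
  obtain ⟨s1, s2, s3, s4, s5⟩ := algo_spec
  exact ⟨s1, fun n h => s2 n (winsP_iff.1 h), fun n h => s3 n (losesP_iff.1 h),
    fun n h => s4 n (drawsP_iff.1 h), isDraw_primrec,
    fun n hn h => ⟨drawsP_iff.2 (isDraw_sound hn h), s5 n h⟩⟩

/-- **Assembly**, sparse form. -/
theorem final_sparse (h1 : LagBound1 5000000 5172) (h2 : LagBound2 5000000 5720) {M Y : ℕ}
    (hMY : M < Y) (hM : 10 ^ 12 ≤ M)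
    (hv : ValidF (gcount Wp) (gcount Lp) M (32 * Y) 0.0055 0.0018) :
    ∃ g : ℕ →. ℕ, Partrec g ∧ (∀ n, WinsP n → g n = Part.some 1) ∧
      (∀ n, LosesP n → g n = Part.some 2) ∧
      (∀ n, DrawsP n → g n = Part.some 0 ∨ g n = Part.none) ∧
      ∃ D : ℕ → Bool, Primrec D ∧ (∀ n, 1 ≤ n → D n = true → DrawsP n ∧ g n = Part.some 0) ∧
        Filter.limsup (fun x : ℕ =>
          (((Icc 1 x).filter (fun n => D n = true)).card : ℝ) / x) Filter.atTop = 1 ∧
        ∃ C : ℝ, ∀ j x : ℕ, 2 ≤ x → M ^ 2 ^ j ≤ x → x ≤ 32 * Y ^ 2 ^ j →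
          (((Icc 1 x).filter (fun n => D n = false)).card : ℝ) ≤
            C * x / Real.log x ^ 2 := by
  obtain ⟨s1, s2, s3, s4, s5, s6⟩ := algo_literal
  have hsys : SysW 5172 5720 5000000 (gcount Wp) (gcount Lp) :=
    sysW_of_rules grules_wl (by norm_num) h1 h2
  have hM' : (10 : ℝ) ^ 12 ≤ M := by exact_mod_cast hM
  have d2 := (dense_of_step contr_old (P := fun n => isDraw n = true) (W := Wp) (L := Lp)
    (fun n _ h => not_isDraw h) (stepThm_old hsys) hMY.le
    (by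
      have : (10 : ℝ) ^ 9 ≤ (0.000378 + 0.001174) * 10 ^ 12 := by norm_num
      exact this.trans (mul_le_mul_of_nonneg_left hM' (by norm_num)))
    (by
      have : (1 : ℝ) ≤ 0.95 * 10 ^ 12 := by norm_num
      exact this.trans (mul_le_mul_of_nonneg_left hM' (by norm_num))) hv).2
  refine ⟨algo, s1, s2, s3, s4, isDraw, s5, s6, ?_, 4 ^ 160 * Real.log (32 * Y) ^ 2, ?_⟩
  · simp only [card_true_eq]
    exact d2
  · intro j x hx h3 h4
    rw [card_false_eq]
    exact log_rate (by norm_num) (by omega)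
      (isDraw_levels h1 h2 hMY.le hM hv) j x h3 h4 hx

/-- **Assembly**, natural density form: the intervals overlap. -/
theorem final_dense (h1 : LagBound1 5000000 5172) (h2 : LagBound2 5000000 5720) {M Y : ℕ}
    (hMY : M ^ 2 ≤ Y) (hM : 10 ^ 12 ≤ M)
    (hv : ValidF (gcount Wp) (gcount Lp) M (32 * Y) 0.0055 0.0018) :
    ∃ g : ℕ →. ℕ, Partrec g ∧ (∀ n, WinsP n → g n = Part.some 1) ∧
      (∀ n, LosesP n → g n = Part.some 2) ∧
      (∀ n, DrawsP n → g n = Part.some 0 ∨ g n = Part.none) ∧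
      ∃ D : ℕ → Bool, Primrec D ∧ (∀ n, 1 ≤ n → D n = true → DrawsP n ∧ g n = Part.some 0) ∧
        Filter.Tendsto (fun x : ℕ =>
          (((Icc 1 x).filter (fun n => D n = true)).card : ℝ) / x) Filter.atTop (nhds 1) ∧
        (∃ C : ℝ, ∀ x : ℕ, 2 ≤ x →
          (((Icc 1 x).filter (fun n => D n = false)).card : ℝ) ≤ C * x / Real.log x ^ 2) ∧
        Summable (fun n : ℕ => if D n = true then (0 : ℝ) else 1 / n) := by
  obtain ⟨s1, s2, s3, s4, s5, s6⟩ := algo_literal
  have hMM : M ≤ Y := by nlinarith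
  have hr : ∀ x : ℕ, 2 ≤ x → (x : ℝ) - cnt (fun n => isDraw n = true) x ≤
      (4 ^ 160 * Real.log (32 * Y) ^ 2) * x / Real.log x ^ 2 :=
    fun x hx => rate_all (by norm_num) (by omega) hMY
      (isDraw_levels h1 h2 hMM hM hv) x hx
  refine ⟨algo, s1, s2, s3, s4, isDraw, s5, s6, ?_, ⟨4 ^ 160 * Real.log (32 * Y) ^ 2, ?_⟩, ?_⟩
  · simp only [card_true_eq]
    exact tendsto_of_rate hr
  · intro x hx
    rw [card_false_eq]
    exact hr x hx
  · exact summable_inv_of_rate (by positivity) hr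

end Pool.Agent.AddSq
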