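import Pool.Agent.AddSq.RateLog
import Pool.Agent.AddSq.Limit3

/-!
# Final assembly with the rate `C x exp (- (log x) ^ (1/7))`

`final_sparse_exp`: along the intervals `[M ^ 2 ^ j, 32 Y ^ 2 ^ j]`.
`final_dense_exp`: for all `x`, if `M ^ 2 ≤ Y`.
-/

namespace Pool.Agent.AddSq

open Finset

/-- The statement of the step theorem with the threshold `T` for `(p + q) M`. -/
def StepThmT (T c₁ c₂ c₃ c₄ : ℝ) (cW cL : ℕ → ℕ) : Prop :=
  ∀ (M X : ℕ) (u b p q : ℝ), 32 * M ≤ X → ValidF cW cL M X u b → 0 < u → 0 < b → 0 < p → 0 < q →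
    c₁ * u * p + c₂ * u * b ^ 2 ≤ p ^ 2 → c₃ * u * q + c₄ * u ^ 3 ≤ q ^ 2 → p + q ≤ 0.01 →
    T ≤ (p + q) * (M : ℝ) →
    ValidF cW cL (M ^ 2) (X ^ 2 / 32) (1.09 * b + 2.1 * (p + q)) (1.1 * (p + q))

theorem StepThm.toT {c₁ c₂ c₃ c₄ : ℝ} {cW cL : ℕ → ℕ} (h : StepThm c₁ c₂ c₃ c₄ cW cL) :
    StepThmT (10 ^ 9) c₁ c₂ c₃ c₄ cW cL := h

theorem stepThmT_of_sysR {δ K0 : ℕ} {ρ₁ σ₁ ρ₂ σ₂ : ℝ} {cW cL : ℕ → ℕ}
    (hsys : SysR δ ρ₁ σ₁ ρ₂ σ₂ K0 cW cL) (hr1 : 0 ≤ ρ₁) (hs1 : 0 ≤ σ₁) (hr2 : 0 ≤ ρ₂)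
    (hs2 : 0 ≤ σ₂) {T : ℝ} (hT1 : 10 ^ 9 ≤ T) (hT2 : 200 * (K0 : ℝ) ≤ T)
    (hT3 : 10000000 * (δ : ℝ) ≤ T) :
    StepThmT T (1.2505 * ρ₁) (15.64 * σ₁) (2.501 * ρ₂) (15.64 * σ₂) cW cL :=
  fun _ _ _ _ _ _ h1 h2 h3 h4 h5 h6 h7 h8 h9 h10 =>
    StepR.step_R hsys hr1 hs1 hr2 hs2 h1 h2 h3 h4 h5 h6 h7 h8 h9 (hT1.trans h10)
      (hT2.trans h10) (hT3.trans h10)

/-- The levels of the first phase. -/
theorem levelsT {T c₁ c₂ c₃ c₄ u b p q lam : ℝ} (hT : 0 ≤ T)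
    (hc : Contr c₁ c₂ c₃ c₄ u b p q lam)
    {cW cL : ℕ → ℕ} (hstep : StepThmT T c₁ c₂ c₃ c₄ cW cL) {M Y : ℕ} (hMY : M ≤ Y)
    (hM1 : 1 ≤ M) (hM : T ≤ (p + q) * (M : ℝ)) (hM2 : 1 ≤ lam * (M : ℝ))
    (hv : ValidF cW cL M (32 * Y) u b) (j : ℕ) :
    ValidF cW cL (M ^ 2 ^ j) (32 * Y ^ 2 ^ j) (u * lam ^ j) (b * lam ^ j) ∧
      T ≤ (p + q) * lam ^ j * ((M ^ 2 ^ j : ℕ) : ℝ) := by
  have hl := hc.hl0
  have hpq : 0 < p + q := add_pos hc.hp hc.hq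
  have hMpos : (1 : ℝ) ≤ (M : ℝ) := by exact_mod_cast hM1
  induction j with
  | zero =>
    refine ⟨by simpa using hv, by simpa using hM⟩
  | succ j ih =>
    obtain ⟨h1, h2⟩ := ih
    set s : ℝ := lam ^ j with hs
    have hs0 : 0 < s := pow_pos hl j
    have hs1 : s ≤ 1 := pow_le_one₀ hl.le hc.hl1.le
    have hs2 : 0 ≤ s ^ 2 := sq_nonneg s
    have hs3 : s ^ 3 ≤ s ^ 2 := by
      have : s ^ 3 = s ^ 2 * s := by ring
      rw [this]
      exact mul_le_of_le_one_right hs2 hs1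
    have h3 := hstep (M ^ 2 ^ j) (32 * Y ^ 2 ^ j) (u * s) (b * s) (p * s) (q * s)
      (by exact Nat.mul_le_mul_left 32 (Nat.pow_le_pow_left hMY _)) h1
      (mul_pos hc.hu hs0) (mul_pos hc.hb hs0) (mul_pos hc.hp hs0) (mul_pos hc.hq hs0)
      (by
        have e1 : c₁ * (u * s) * (p * s) + c₂ * (u * s) * (b * s) ^ 2 =
            c₁ * u * p * s ^ 2 + c₂ * u * b ^ 2 * s ^ 3 := by ring
        have e2 : (p * s) ^ 2 = p ^ 2 * s ^ 2 := by ring
        rw [e1, e2]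
        have h5 : c₂ * u * b ^ 2 * s ^ 3 ≤ c₂ * u * b ^ 2 * s ^ 2 :=
          mul_le_mul_of_nonneg_left hs3
            (mul_nonneg (mul_nonneg hc.hc2 hc.hu.le) (sq_nonneg b))
        have h6 := mul_le_mul_of_nonneg_right hc.hp2 hs2
        nlinarith)
      (by
        have e1 : c₃ * (u * s) * (q * s) + c₄ * (u * s) ^ 3 =
            c₃ * u * q * s ^ 2 + c₄ * u ^ 3 * s ^ 3 := by ring
        have e2 : (q * s) ^ 2 = q ^ 2 * s ^ 2 := by ring
        rw [e1, e2]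
        have h5 : c₄ * u ^ 3 * s ^ 3 ≤ c₄ * u ^ 3 * s ^ 2 :=
          mul_le_mul_of_nonneg_left hs3 (mul_nonneg hc.hc4 (pow_nonneg hc.hu.le 3))
        have h6 := mul_le_mul_of_nonneg_right hc.hq2 hs2
        nlinarith)
      (by
        have : p * s + q * s = (p + q) * s := by ring
        rw [this]
        exact (mul_le_of_le_one_right hpq.le hs1).trans hc.hP)
      (by
        have : p * s + q * s = (p + q) * s := by ring
        rw [this]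
        exact h2)
    have hMM : M ^ 2 ^ (j + 1) = (M ^ 2 ^ j) ^ 2 := by rw [pow_succ, pow_mul]
    have hYY : 32 * Y ^ 2 ^ (j + 1) = (32 * Y ^ 2 ^ j) ^ 2 / 32 := by
      rw [pow_succ, pow_mul]
      have : (32 * Y ^ 2 ^ j) ^ 2 = 32 * (32 * (Y ^ 2 ^ j) ^ 2) := by ring
      rw [this, Nat.mul_div_cancel_left _ (by norm_num)]
    constructor
    · rw [hMM, hYY]
      apply h3.mono _ _ le_rfl
      · have e1 : 1.09 * (b * s) + 2.1 * (p * s + q * s) = (1.09 * b + 2.1 * (p + q)) * s := by ring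
        have e2 : u * lam ^ (j + 1) = (lam * u) * s := by rw [pow_succ]; ring
        rw [e1, e2]
        exact mul_le_mul_of_nonneg_right hc.hu' hs0.le
      · have e1 : 1.1 * (p * s + q * s) = (1.1 * (p + q)) * s := by ring
        have e2 : b * lam ^ (j + 1) = (lam * b) * s := by rw [pow_succ]; ring
        rw [e1, e2]
        exact mul_le_mul_of_nonneg_right hc.hb' hs0.le
    · rw [hMM]
      push_cast
      push_cast at h2
      have hbig : (M : ℝ) ≤ (M : ℝ) ^ 2 ^ j := by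
        calc (M : ℝ) = (M : ℝ) ^ 1 := (pow_one _).symm
          _ ≤ (M : ℝ) ^ 2 ^ j := pow_le_pow_right₀ hMpos Nat.one_le_two_pow
      have h5 : 1 ≤ lam * (M : ℝ) ^ 2 ^ j :=
        hM2.trans (mul_le_mul_of_nonneg_left hbig hl.le)
      have e1 : (p + q) * lam ^ (j + 1) * ((M : ℝ) ^ 2 ^ j) ^ 2 =
          ((p + q) * s * (M : ℝ) ^ 2 ^ j) * (lam * (M : ℝ) ^ 2 ^ j) := by rw [pow_succ]; ring
      rw [e1]
      have h6 : (0 : ℝ) ≤ (p + q) * s * (M : ℝ) ^ 2 ^ j := by positivity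
      calc T ≤ (p + q) * s * (M : ℝ) ^ 2 ^ j := h2
        _ = (p + q) * s * (M : ℝ) ^ 2 ^ j * 1 := (mul_one _).symm
        _ ≤ _ := mul_le_mul_of_nonneg_left h5 h6

/-- The rate for the certified draws. -/
theorem isDraw_rate {T c₁ c₂ c₃ c₄ u b p q lam : ℝ} (hT : 0 ≤ T)
    (hc : Contr c₁ c₂ c₃ c₄ u b p q lam)
    (hstep : StepThmT T c₁ c₂ c₃ c₄ (gcount Wp) (gcount Lp)) {M Y : ℕ} (hMY : M ≤ Y)
    (hM1 : 2 ≤ M) (hM : T ≤ (p + q) * (M : ℝ)) (hM2 : 1 ≤ lam * (M : ℝ))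
    (hv : ValidF (gcount Wp) (gcount Lp) M (32 * Y) u b) :
    ∃ C : ℝ, 0 ≤ C ∧ ∀ k x : ℕ, 1 ≤ x → M ^ 2 ^ k ≤ x → x ≤ 32 * Y ^ 2 ^ k →
      (x : ℝ) - cnt (fun n => isDraw n = true) x ≤
        C * x * Real.exp (-(Real.log x) ^ (1 / 7 : ℝ)) := by
  obtain ⟨k0, hk0⟩ := rate_of_levels (sysAll_of_rules grules_wl) hM1 hMY hc.hl0 hc.hl1
    (fun j => (levelsT hT hc hstep hMY (by omega) hM hM2 hv j).1) one_le_gR gR_sq
  refine log_rate_exp (by omega) (k0 := k0) ?_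
  intro j x hx1 hx2
  have h3 := hk0 j x hx1 hx2
  have h4 : (x : ℝ) ≤ cnt (fun n => isDraw n = true) x +
      ((gcount Wp x + gcount Lp x : ℕ) : ℝ) := by
    exact_mod_cast le_cnt_add (fun n _ h => not_isDraw h) x
  linarith

/-- **Assembly**, sparse form. -/
theorem final_sparse_exp {T c₁ c₂ c₃ c₄ u b p q lam : ℝ} (hT : 0 ≤ T)
    (hc : Contr c₁ c₂ c₃ c₄ u b p q lam)
    (hstep : StepThmT T c₁ c₂ c₃ c₄ (gcount Wp) (gcount Lp)) {M Y : ℕ} (hMY : M ≤ Y)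
    (hM1 : 2 ≤ M) (hM : T ≤ (p + q) * (M : ℝ)) (hM2 : 1 ≤ lam * (M : ℝ))
    (hv : ValidF (gcount Wp) (gcount Lp) M (32 * Y) u b) :
    ∃ g : ℕ →. ℕ, Partrec g ∧ (∀ n, WinsP n → g n = Part.some 1) ∧
      (∀ n, LosesP n → g n = Part.some 2) ∧
      (∀ n, DrawsP n → g n = Part.some 0 ∨ g n = Part.none) ∧
      ∃ D : ℕ → Bool, Primrec D ∧ (∀ n, 1 ≤ n → D n = true → DrawsP n ∧ g n = Part.some 0) ∧
        Filter.limsup (fun x : ℕ =>
          (((Icc 1 x).filter (fun n => D n = true)).card : ℝ) / x) Filter.atTop = 1 ∧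
        ∃ C : ℝ, ∀ j x : ℕ, M ^ 2 ^ j ≤ x → x ≤ 32 * Y ^ 2 ^ j →
          (((Icc 1 x).filter (fun n => D n = false)).card : ℝ) ≤
            C * x * Real.exp (-(Real.log x) ^ (1 / 7 : ℝ)) := by
  obtain ⟨s1, s2, s3, s4, s5, s6⟩ := algo_literal
  obtain ⟨C, hC0, hC⟩ := isDraw_rate hT hc hstep hMY hM1 hM hM2 hv
  have hpow : ∀ j : ℕ, 1 ≤ M ^ 2 ^ j := fun j => Nat.one_le_pow _ _ (by omega)
  refine ⟨algo, s1, s2, s3, s4, isDraw, s5, s6, ?_, C, ?_⟩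
  · simp only [card_true_eq]
    refine limsup_cnt ?_
    intro ε hε X
    -- choose a level with `C 14! / (log x)² ≤ ε`
    obtain ⟨j0, hj0⟩ := exists_nat_gt (C * (Nat.factorial 14 : ℝ) / (Real.log 2 ^ 2 * ε))
    have hMbig : ∀ j : ℕ, 2 ^ 2 ^ j ≤ M ^ 2 ^ j := fun j => Nat.pow_le_pow_left hM1 _
    set j := max (j0 + 1) X with hj
    refine ⟨M ^ 2 ^ j, ?_, ?_⟩
    · have h2 : X < 2 ^ X := Nat.lt_two_pow_self
      have h3 : 2 ^ X ≤ 2 ^ j := Nat.pow_le_pow_right (by norm_num) (le_max_right _ _)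
      have h4 : 2 ^ j < 2 ^ 2 ^ j := Nat.lt_two_pow_self
      have h5 := hMbig j
      show X ≤ M ^ 2 ^ j
      omega
    · have h1 := hC j (M ^ 2 ^ j) (hpow j) le_rfl
        ((Nat.pow_le_pow_left hMY _).trans (Nat.le_mul_of_pos_left _ (by norm_num)))
      refine h1.trans ?_
      set x : ℕ := M ^ 2 ^ j with hx
      have hlog2 : 0 < Real.log 2 := Real.log_pos (by norm_num)
      have hlx : 2 ^ j * Real.log 2 ≤ Real.log x := by
        have h2 : ((2 ^ 2 ^ j : ℕ) : ℝ) ≤ x := by exact_mod_cast hMbig j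
        push_cast at h2
        calc 2 ^ j * Real.log 2 = Real.log (2 ^ 2 ^ j) := by
              rw [Real.log_pow]
              push_cast
              ring
          _ ≤ Real.log x := Real.log_le_log (by positivity) h2
      have hlx0 : 0 < Real.log x := lt_of_lt_of_le (by positivity) hlx
      have h2 := exp_le_inv_sq hlx0
      have hf : (0 : ℝ) < (Nat.factorial 14 : ℝ) := by positivity
      have hjj : (j0 : ℝ) ≤ (2 ^ j) ^ 2 := by
        have h3 : j0 ≤ (2 ^ j) ^ 2 := by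
          have h4 : j0 ≤ j := le_trans (Nat.le_succ j0) (le_max_left _ _)
          have h5 : j < 2 ^ j := Nat.lt_two_pow_self
          nlinarith
        exact_mod_cast h3
      have h3 : C * Real.exp (-(Real.log x) ^ (1 / 7 : ℝ)) ≤ ε := by
        refine (mul_le_mul_of_nonneg_left h2 hC0).trans ?_
        rw [← mul_div_assoc, div_le_iff₀ (by positivity)]
        rw [div_lt_iff₀ (by positivity)] at hj0
        have h6 : (2 ^ j * Real.log 2) ^ 2 ≤ Real.log x ^ 2 :=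
          pow_le_pow_left₀ (by positivity) hlx 2
        have h7 : (j0 : ℝ) * (Real.log 2 ^ 2 * ε) ≤ (2 ^ j) ^ 2 * (Real.log 2 ^ 2 * ε) :=
          mul_le_mul_of_nonneg_right hjj (by positivity)
        have h8 := mul_le_mul_of_nonneg_left h6 hε.le
        nlinarith
      have h9 := mul_le_mul_of_nonneg_right h3 (Nat.cast_nonneg (α := ℝ) x)
      linarith
  · intro j x h3 h4
    rw [card_false_eq]
    exact hC j x ((hpow j).trans h3) h3 h4

/-- **Assembly**, natural density form: the intervals overlap. -/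
theorem final_dense_exp {T c₁ c₂ c₃ c₄ u b p q lam : ℝ} (hT : 0 ≤ T)
    (hc : Contr c₁ c₂ c₃ c₄ u b p q lam)
    (hstep : StepThmT T c₁ c₂ c₃ c₄ (gcount Wp) (gcount Lp)) {M Y : ℕ} (hMY : M ^ 2 ≤ Y)
    (hM1 : 2 ≤ M) (hM : T ≤ (p + q) * (M : ℝ)) (hM2 : 1 ≤ lam * (M : ℝ))
    (hv : ValidF (gcount Wp) (gcount Lp) M (32 * Y) u b) :
    ∃ g : ℕ →. ℕ, Partrec g ∧ (∀ n, WinsP n → g n = Part.some 1) ∧
      (∀ n, LosesP n → g n = Part.some 2) ∧
      (∀ n, DrawsP n → g n = Part.some 0 ∨ g n = Part.none) ∧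
      ∃ D : ℕ → Bool, Primrec D ∧ (∀ n, 1 ≤ n → D n = true → DrawsP n ∧ g n = Part.some 0) ∧
        Filter.Tendsto (fun x : ℕ =>
          (((Icc 1 x).filter (fun n => D n = true)).card : ℝ) / x) Filter.atTop (nhds 1) ∧
        ∃ C : ℝ, ∀ x : ℕ, 1 ≤ x →
          (((Icc 1 x).filter (fun n => D n = false)).card : ℝ) ≤
            C * x * Real.exp (-(Real.log x) ^ (1 / 7 : ℝ)) := by
  obtain ⟨s1, s2, s3, s4, s5, s6⟩ := algo_literal
  have hMM : M ≤ Y := by nlinarith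
  obtain ⟨C, hC0, hC⟩ := isDraw_rate hT hc hstep hMM hM1 hM hM2 hv
  obtain ⟨C', hC'⟩ := rate_all_exp hM1 hMY hC0 hC
  refine ⟨algo, s1, s2, s3, s4, isDraw, s5, s6, ?_, C', ?_⟩
  · simp only [card_true_eq]
    refine tendsto_of_rate (C := |C'| * (Nat.factorial 14 : ℝ)) ?_
    intro x hx
    have hx0 : (2 : ℝ) ≤ x := by exact_mod_cast hx
    have hlx : 0 < Real.log x := Real.log_pos (by linarith)
    have h1 := hC' x (by omega)
    have h2 := exp_le_inv_sq hlx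
    have hE0 := Real.exp_pos (-(Real.log x) ^ (1 / 7 : ℝ))
    calc (x : ℝ) - cnt (fun n => isDraw n = true) x
        ≤ C' * x * Real.exp (-(Real.log x) ^ (1 / 7 : ℝ)) := h1
      _ ≤ |C'| * x * Real.exp (-(Real.log x) ^ (1 / 7 : ℝ)) := by
          refine mul_le_mul_of_nonneg_right ?_ hE0.le
          exact mul_le_mul_of_nonneg_right (le_abs_self _) (by linarith)
      _ ≤ |C'| * x * ((Nat.factorial 14 : ℝ) / Real.log x ^ 2) :=
          mul_le_mul_of_nonneg_left h2 (by positivity)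
      _ = |C'| * (Nat.factorial 14 : ℝ) * x / Real.log x ^ 2 := by ring
  · intro x hx
    rw [card_false_eq]
    exact hC' x hx

end Pool.Agent.AddSq
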