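import Pool.Agent.AddSq.Defs

/-!
# The game literally: strategies and plays

The definitions `Win`, `Loss`, `Draw` of `Defs` bound the number of moves.  Here the value of a
position is defined literally, by strategies (functions of the whole history of the play)
without any bound on the length of the play, and the two forms are proved equivalent.  There
is also the usual inductive (unbounded) form `Forced`.
-/

namespace Pool.Agent.AddSq

/-- A strategy: it sees the list of all positions of the play so far, the last one first, and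
says whether to add (`true`) or to subtract (`false`) the largest square. -/
abbrev Strategy := List ℕ → Bool

/-- The position after the move `b` (`true`: add, `false`: subtract) from `n`.  As `sq 0 = 0`
both moves leave the position `0` unchanged: a play that has reached `0` stays there. -/
def go (b : Bool) (n : ℕ) : ℕ := if b then n + sq n else n - sq n

/-- The list of the positions (the last one first) after `i` moves of the play from `n` in
which the first player uses the strategy `σ` and the second player the strategy `τ`. -/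
def history (σ τ : Strategy) (n : ℕ) : ℕ → List ℕ
  | 0 => [n]
  | i + 1 => go ((if i % 2 = 0 then σ else τ) (history σ τ n i))
      ((history σ τ n i).headD 0) :: history σ τ n i

/-- The position after `i` moves. -/
def pos (σ τ : Strategy) (n i : ℕ) : ℕ := (history σ τ n i).headD 0

/-- `n ≥ 1` is a win: the first player has a strategy `σ` such that, whatever the second player
does, one of the moves of the first player (the moves with the numbers `i + 1`, `i` even)
leads from a position `≥ 1` to `0`. -/
def WinsP (n : ℕ) : Prop := 1 ≤ n ∧ ∃ σ : Strategy, ∀ τ : Strategy,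
  ∃ i, i % 2 = 0 ∧ 1 ≤ pos σ τ n i ∧ pos σ τ n (i + 1) = 0

/-- `n ≥ 1` is a loss: the second player has a strategy `τ` such that, whatever the first
player does, one of the moves of the second player (the moves with the numbers `i + 1`, `i`
odd) leads from a position `≥ 1` to `0`. -/
def LosesP (n : ℕ) : Prop := 1 ≤ n ∧ ∃ τ : Strategy, ∀ σ : Strategy,
  ∃ i, i % 2 = 1 ∧ 1 ≤ pos σ τ n i ∧ pos σ τ n (i + 1) = 0

/-- `n ≥ 1` is a draw: it is neither a win nor a loss. -/
def DrawsP (n : ℕ) : Prop := 1 ≤ n ∧ ¬ WinsP n ∧ ¬ LosesP n

/-- The unbounded inductive form: the player to move at `n` is lost (or `n = 0`): whatever he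
does (`m`), his opponent has a reply `f m` after which he is lost again. -/
inductive Forced : ℕ → Prop
  | zero : Forced 0
  | step (n : ℕ) (f : ℕ → ℕ) (h1 : 1 ≤ n) (h2 : ∀ m, Move n m → Move m (f m))
      (h3 : ∀ m, Move n m → Forced (f m)) : Forced n

/-! ### The inductive form -/

theorem LostIn.forced : ∀ (t n : ℕ), LostIn t n → Forced n := by
  intro t
  induction t with
  | zero =>
    intro n h
    have : n = 0 := h
    subst this
    exact Forced.zero
  | succ t ih =>
    intro n h
    rcases h with h | h
    · subst h
      exact Forced.zero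
    · rcases Nat.eq_zero_or_pos n with h0 | h0
      · subst h0
        exact Forced.zero
      · choose! f hf using h
        exact Forced.step n f h0 (fun m hm => (hf m hm).1) (fun m hm => ih _ (hf m hm).2)

theorem Forced.lost {n : ℕ} (h : Forced n) : Lost n := by
  induction h with
  | zero => exact lost_zero
  | step n f h1 h2 h3 ih =>
    refine lost_iff.mpr (Or.inr ⟨?_, ?_⟩)
    · obtain ⟨t, ht⟩ := ih (rem n) ⟨h1, Or.inr rfl⟩
      exact ⟨t, _, h2 _ ⟨h1, Or.inr rfl⟩, ht⟩
    · obtain ⟨t, ht⟩ := ih (up n) ⟨h1, Or.inl rfl⟩
      exact ⟨t, _, h2 _ ⟨h1, Or.inl rfl⟩, ht⟩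

theorem lost_iff_forced {n : ℕ} : Lost n ↔ Forced n :=
  ⟨fun ⟨t, h⟩ => LostIn.forced t n h, Forced.lost⟩

theorem win_iff_forced {n : ℕ} : Win n ↔ 1 ≤ n ∧ ∃ m, Move n m ∧ Forced m := by
  constructor
  · rintro ⟨t, m, hm, hl⟩
    exact ⟨hm.1, m, hm, LostIn.forced t m hl⟩
  · rintro ⟨_, m, hm, hl⟩
    obtain ⟨t, ht⟩ := hl.lost
    exact ⟨t, m, hm, ht⟩

theorem loss_iff_forced {n : ℕ} : Loss n ↔ 1 ≤ n ∧ Forced n := by
  unfold Loss
  rw [lost_iff_forced]

/-! ### Plays -/

theorem go_zero (b : Bool) : go b 0 = 0 := by
  cases b <;> simp [go, sq]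

theorem go_true (n : ℕ) : go true n = up n := rfl

theorem go_false (n : ℕ) : go false n = rem n := rfl

theorem go_cases (b : Bool) (n : ℕ) : go b n = rem n ∨ go b n = up n := by
  cases b
  · exact Or.inl rfl
  · exact Or.inr rfl

variable {σ τ : Strategy} {n : ℕ}

theorem pos_zero : pos σ τ n 0 = n := rfl

theorem history_ne_nil (i : ℕ) : history σ τ n i ≠ [] := by
  cases i <;> simp [history]

theorem pos_succ (i : ℕ) : pos σ τ n (i + 1) =
    go ((if i % 2 = 0 then σ else τ) (history σ τ n i)) (pos σ τ n i) := by
  simp [pos, history]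

theorem pos_succ_cases (i : ℕ) :
    pos σ τ n (i + 1) = rem (pos σ τ n i) ∨ pos σ τ n (i + 1) = up (pos σ τ n i) := by
  rw [pos_succ]
  exact go_cases _ _

theorem pos_succ_zero {i : ℕ} (h : pos σ τ n i = 0) : pos σ τ n (i + 1) = 0 := by
  rw [pos_succ, h, go_zero]

/-- the positional strategy that keeps the opponent from winning: go up if `up n` is not a
win, otherwise down -/
noncomputable def keep : Strategy := fun h => by
  classical
  exact if Win (up (h.headD 0)) then false else true

theorem keep_spec {h : List ℕ} (hl : ¬ Lost (h.headD 0)) : ¬ Win (go (keep h) (h.headD 0)) := by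
  classical
  have h1 : ¬ (Win (rem (h.headD 0)) ∧ Win (up (h.headD 0))) := fun h2 =>
    hl (lost_iff.mpr (Or.inr h2))
  by_cases hw : Win (up (h.headD 0))
  · have hk : keep h = false := by
      unfold keep
      rw [if_pos hw]
    rw [hk, go_false]
    exact fun h2 => h1 ⟨h2, hw⟩
  · have hk : keep h = true := by
      unfold keep
      rw [if_neg hw]
    rw [hk, go_true]
    exact hw

/-- the winning positional strategy: move to a position lost in the least possible number of
rounds -/
noncomputable def best : Strategy := fun h => by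
  classical
  exact if hw : ∃ t, WinIn t (h.headD 0) then
      (if LostIn (Nat.find hw) (up (h.headD 0)) then true else false)
    else false

theorem best_spec {h : List ℕ} {t : ℕ} (hw : WinIn t (h.headD 0)) :
    ∃ r ≤ t, LostIn r (go (best h) (h.headD 0)) := by
  classical
  have hex : ∃ t, WinIn t (h.headD 0) := ⟨t, hw⟩
  refine ⟨Nat.find hex, Nat.find_min' hex hw, ?_⟩
  have hs : WinIn (Nat.find hex) (h.headD 0) := Nat.find_spec hex
  obtain ⟨h1, h2⟩ := winIn_iff.mp hs
  by_cases hu : LostIn (Nat.find hex) (up (h.headD 0))
  · have hk : best h = true := by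
      unfold best
      rw [dif_pos hex, if_pos hu]
    rw [hk, go_true]
    exact hu
  · have hk : best h = false := by
      unfold best
      rw [dif_pos hex, if_neg hu]
    rw [hk, go_false]
    exact h2.resolve_right hu

/-- The general statement for the player who keeps: `e` is the parity of the numbers `i` at
which the other player moves. -/
theorem keep_main (e : ℕ) (he : e < 2)
    (hs : ∀ i, i % 2 ≠ e → (if i % 2 = 0 then σ else τ) = keep)
    (h0 : (0 = e → ¬ Win n) ∧ (0 ≠ e → ¬ Lost n)) :
    ∀ i, (i % 2 = e → ¬ Win (pos σ τ n i)) ∧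
      (i % 2 ≠ e → ¬ Lost (pos σ τ n i) ∨ (1 ≤ i ∧ pos σ τ n (i - 1) = 0)) := by
  intro i
  induction i with
  | zero =>
    refine ⟨fun h => ?_, fun h => Or.inl ?_⟩
    · rw [pos_zero]; exact h0.1 (by omega)
    · rw [pos_zero]; exact h0.2 (by omega)
  | succ i ih =>
    refine ⟨fun h => ?_, fun h => ?_⟩
    · -- the keeper has moved at time `i`
      have hi : i % 2 ≠ e := by omega
      rcases ih.2 hi with h1 | ⟨h1, h2⟩
      · rw [pos_succ, hs i hi]
        exact keep_spec h1
      · have h3 : pos σ τ n i = 0 := by
          have := pos_succ_zero h2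
          rwa [Nat.sub_add_cancel h1] at this
        rw [pos_succ_zero h3]
        exact not_win_zero
    · have hi : i % 2 = e := by omega
      have h1 := ih.1 hi
      by_cases h2 : pos σ τ n i = 0
      · right
        exact ⟨by omega, by simpa using h2⟩
      · left
        have h3 : ¬ (Lost (rem (pos σ τ n i)) ∨ Lost (up (pos σ τ n i))) := fun h4 =>
          h1 (win_iff.mpr ⟨by omega, h4⟩)
        rcases pos_succ_cases (σ := σ) (τ := τ) (n := n) i with h4 | h4
        · rw [h4]; exact fun h5 => h3 (Or.inl h5)
        · rw [h4]; exact fun h5 => h3 (Or.inr h5)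

/-- the general statement for the winner: `e` is the parity of the numbers `i` at which the
winner moves -/
theorem best_main (e : ℕ) (hs : ∀ i, i % 2 = e → (if i % 2 = 0 then σ else τ) = best) :
    ∀ t i, i % 2 = e → WinIn t (pos σ τ n i) →
      ∃ j, j % 2 = e ∧ 1 ≤ pos σ τ n j ∧ pos σ τ n (j + 1) = 0 := by
  intro t
  induction t using Nat.strong_induction_on with
  | _ t ih =>
    intro i hi hw
    obtain ⟨r, hr, hl⟩ := best_spec (h := history σ τ n i) hw
    have h1 : LostIn r (pos σ τ n (i + 1)) := by
      rw [pos_succ, hs i hi]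
      exact hl
    by_cases h2 : pos σ τ n (i + 1) = 0
    · exact ⟨i, hi, (winIn_iff.mp hw).1, h2⟩
    · cases r with
      | zero => exact absurd h1 h2
      | succ r =>
        rcases lostIn_succ_iff.mp h1 with h3 | ⟨h3, h4⟩
        · exact absurd h3 h2
        · refine ih r (by omega) (i + 2) (by omega) ?_
          rcases pos_succ_cases (σ := σ) (τ := τ) (n := n) (i + 1) with h5 | h5
          · rw [show i + 2 = i + 1 + 1 from rfl, h5]; exact h3
          · rw [show i + 2 = i + 1 + 1 from rfl, h5]; exact h4

/-! ### The equivalences -/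

theorem winsP_iff {n : ℕ} : WinsP n ↔ Win n := by
  constructor
  · rintro ⟨h1, σ, h⟩
    by_contra hw
    obtain ⟨i, hi, h2, h3⟩ := h keep
    have key := keep_main (σ := σ) (τ := keep) (n := n) 0 (by omega)
      (fun i hi => by rw [if_neg hi]) ⟨fun _ => hw, fun h => absurd rfl h⟩ (i + 1)
    rcases key.2 (by omega) with h4 | ⟨_, h4⟩
    · rw [h3] at h4
      exact h4 lost_zero
    · have : pos σ keep n i = 0 := by simpa using h4
      omega
  · intro h
    refine ⟨h.pos, best, fun τ => ?_⟩
    obtain ⟨t, ht⟩ := h
    exact best_main (σ := best) (τ := τ) (n := n) 0 (fun i hi => by rw [if_pos hi]) t 0 rfl ht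

theorem losesP_iff {n : ℕ} : LosesP n ↔ Loss n := by
  constructor
  · rintro ⟨h1, τ, h⟩
    refine ⟨h1, ?_⟩
    by_contra hl
    obtain ⟨i, hi, h2, h3⟩ := h keep
    have key := keep_main (σ := keep) (τ := τ) (n := n) 1 (by omega)
      (fun i hi => by rw [if_pos (by omega)])
      ⟨fun h => by omega, fun _ => hl⟩ (i + 1)
    rcases key.2 (by omega) with h4 | ⟨_, h4⟩
    · rw [h3] at h4
      exact h4 lost_zero
    · have : pos keep τ n i = 0 := by simpa using h4
      omega
  · rintro ⟨h1, t, ht⟩
    refine ⟨h1, best, fun σ => ?_⟩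
    cases t with
    | zero =>
      have : n = 0 := ht
      omega
    | succ t =>
      rcases lostIn_succ_iff.mp ht with h2 | ⟨h2, h3⟩
      · omega
      · refine best_main (σ := σ) (τ := best) (n := n) 1
          (fun i hi => by rw [if_neg (by omega)]) t 1 rfl ?_
        rcases pos_succ_cases (σ := σ) (τ := best) (n := n) 0 with h4 | h4
        · rw [show (1 : ℕ) = 0 + 1 from rfl, h4]; exact h2
        · rw [show (1 : ℕ) = 0 + 1 from rfl, h4]; exact h3

theorem drawsP_iff {n : ℕ} : DrawsP n ↔ Draw n := by
  unfold DrawsP Draw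
  rw [winsP_iff, losesP_iff]

end Pool.Agent.AddSq
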