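import Pool.Agent.AddSq.RecGrid

/-!
# The grid for one octave of scales, general constants

`SysQ P` is the normal form with natural constants, `q N² ≤ p (r N + s B²)` for each lag.  The
program `runA` reads a list of bounds `(R, v)`, `cL (R² - 1) ≤ v`, continues it with windows
(whose starting points are kept in a queue) and checks the resulting bounds against a list of
density bounds on the intervals `[2^e, 2^f)`.
-/

namespace Pool.Agent.AddSq.GA

open Rec Finset

/-- the constants of the system -/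
structure Par where
  /-- shift length -/
  D : ℕ
  /-- lag one: `q1 N² ≤ p (r1 N + s1 B²)` -/
  q1 : ℕ
  /-- lag one -/
  r1 : ℕ
  /-- lag one -/
  s1 : ℕ
  /-- lag two: `q2 N² ≤ p (r2 N + s2 A²)` -/
  q2 : ℕ
  /-- lag two -/
  r2 : ℕ
  /-- lag two -/
  s2 : ℕ
  /-- windows start at `K0` or later -/
  K0 : ℕ
  /-- the windows `[K, z)` satisfy `3 (z - K) ≤ w K` -/
  w : ℕ

/-- the normal form of the window inequalities, natural constants -/
structure SysQ (P : Par) (cW cL : ℕ → ℕ) : Prop where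
  monoW : Monotone cW
  monoL : Monotone cL
  leW : ∀ x, cW x ≤ x
  leL : ∀ x, cL x ≤ x + 1
  win : ∀ x, cW x ≤ (∑ k ∈ Finset.Icc 1 (Nat.sqrt x), cL (2 * k)) + cL (2 * x)
  loss : ∀ K z R, P.K0 ≤ K → K ≤ z → 3 * (z - K) ≤ P.w * K → 8 * ((z - 1) * z) ≤ R * R →
    ∃ N1 N2 : ℕ, cL (z * z - 1) ≤ cL (K * K - 1) + N1 + N2 ∧
      P.q1 * N1 ^ 2 ≤ (P.D * cW (2 * (z - 1)) + ∑ k ∈ Ico K z, cW (2 * k)) *
        (P.r1 * N1 + P.s1 * (cL R) ^ 2) ∧
      P.q2 * N2 ^ 2 ≤ (P.D * cW (4 * (z - 1)) + ∑ k ∈ Ico K z, cW (4 * k)) *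
        (P.r2 * N2 + P.s2 * (cW (2 * (z - 1))) ^ 2)

/-! ## The solution of the quadratic inequality -/

/-- an upper bound for the square root of `v`, from the start value `s > 0` -/
def su5 (v s : ℕ) : ℕ :=
  frcN v fun v => frcN s fun s =>
  frcN (newt v s) fun s => frcN (newt v s) fun s => frcN (newt v s) fun s =>
  frcN (newt v s) fun s => newt v s

theorem sqrt_le_su5 (v s : ℕ) (hs : 0 < s) : Nat.sqrt v ≤ su5 v s := by
  rcases Nat.eq_zero_or_pos v with h | h
  · subst h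
    simp
  · unfold su5
    simp only [frcN_eq]
    apply sqrt_le_newt
    iterate 4 apply newt_pos h
    exact hs

/-- the bound for the number of positions in a window; `p` is the weight, `g`, `R` only serve for
the start value of the square root -/
def psi (q r s g R p B : ℕ) : ℕ :=
  frcN p fun p => frcN (Nat.mul p r) fun pr =>
  Nat.div (Nat.add pr (su5
    (Nat.add (Nat.mul pr pr) (Nat.mul 4 (Nat.mul (Nat.mul q s) (Nat.mul p (Nat.mul B B)))))
    (Nat.succ (Nat.add pr (Nat.div (Nat.mul g (Nat.mul B R)) 1000))))) (Nat.mul 2 q)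

theorem le_psi {q r s g R p p' B N : ℕ} (hq : 0 < q) (hp : p' ≤ p)
    (h : q * N ^ 2 ≤ p' * (r * N + s * B ^ 2)) : N ≤ psi q r s g R p B := by
  have e : psi q r s g R p B = (p * r + su5 (p * r * (p * r) + 4 * (q * s * (p * (B * B))))
      (p * r + g * (B * R) / 1000 + 1)) / (2 * q) := by
    unfold psi
    rw [frcN_eq, frcN_eq]
    rfl
  rw [e, Nat.le_div_iff_mul_le (by omega)]
  have h1 : q * N ^ 2 ≤ p * (r * N + s * B ^ 2) := h.trans (Nat.mul_le_mul_right _ hp)
  have h2 := sqrt_le_su5 (p * r * (p * r) + 4 * (q * s * (p * (B * B))))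
    (p * r + g * (B * R) / 1000 + 1) (by omega)
  rcases Nat.lt_or_ge (p * r) (2 * (q * N)) with h3 | h3
  · have h4 : 2 * (q * N) - p * r ≤ Nat.sqrt (p * r * (p * r) +
        4 * (q * s * (p * (B * B)))) := by
      rw [Nat.le_sqrt]
      zify [h3.le]
      have h1' : (q : ℤ) * N ^ 2 ≤ p * (r * N + s * B ^ 2) := by exact_mod_cast h1
      have h5 : (0 : ℤ) ≤ q := Int.natCast_nonneg q
      have h6 := mul_le_mul_of_nonneg_left h1' h5
      nlinarith
    have e2 : N * (2 * q) = 2 * (q * N) := by ring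
    omega
  · have e2 : N * (2 * q) = 2 * (q * N) := by ring
    omega

theorem mono_B2 {B B' r s N p x : ℕ} (hB : B ≤ B') (h : x ≤ p * (r * N + s * B ^ 2)) :
    x ≤ p * (r * N + s * B' ^ 2) := by
  refine h.trans ?_
  gcongr

/-! ## Sums -/

theorem sum_step {cL : ℕ → ℕ} (hm : Monotone cL) {R0 R S0 L : ℕ}
    (h : (∑ k ∈ Icc 1 (R0 - 1), cL (2 * k)) ≤ S0) (hL : cL (2 * R) ≤ L) :
    (∑ k ∈ Icc 1 (R - 1), cL (2 * k)) ≤ S0 + (R - R0) * L := by
  have h4 : Icc 1 (R - 1) ⊆ Icc 1 (R0 - 1) ∪ Ico R0 R := by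
    intro k hk
    rw [mem_union, mem_Icc, mem_Ico]
    rw [mem_Icc] at hk
    omega
  refine (sum_le_sum_of_subset h4).trans ?_
  refine (sum_union_inter (s₁ := Icc 1 (R0 - 1))
    (s₂ := Ico R0 R) (f := fun k => cL (2 * k)) ▸ Nat.le_add_right _ _ :
    _ ≤ ∑ k ∈ Icc 1 (R0 - 1), cL (2 * k) + ∑ k ∈ Ico R0 R, cL (2 * k)).trans ?_
  refine Nat.add_le_add h (sum_Ico_le ?_)
  intro k _ h5
  exact (hm (by omega)).trans hL

theorem wt_step {cW : ℕ → ℕ} (hm : Monotone cW) {l : List HE} {R0 R P2 P4 A C : ℕ}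
    (h : Wt cW l R0 P2 P4) (hA : cW (2 * R) ≤ A) (hC : cW (4 * R) ≤ C) :
    Wt cW l R (P2 + (R - R0) * A) (P4 + (R - R0) * C) := by
  intro s hs
  obtain ⟨w1, w2⟩ := h s hs
  have h4 : Ico s.1 R ⊆ Ico s.1 R0 ∪ Ico R0 R := by
    intro k hk
    rw [mem_union, mem_Ico, mem_Ico]
    rw [mem_Ico] at hk
    omega
  have key : ∀ f : ℕ → ℕ, ∑ k ∈ Ico s.1 R, f k ≤
      ∑ k ∈ Ico s.1 R0, f k + ∑ k ∈ Ico R0 R, f k := by
    intro f
    refine (sum_le_sum_of_subset h4).trans ?_
    exact sum_union_inter (s₁ := Ico s.1 R0)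
      (s₂ := Ico R0 R) (f := f) ▸ Nat.le_add_right _ _
  constructor
  · have k1 := key (fun k => cW (2 * k))
    have k2 : (∑ k ∈ Ico R0 R, cW (2 * k)) ≤ (R - R0) * A :=
      sum_Ico_le (fun k _ h5 => (hm (by omega)).trans hA)
    omega
  · have k1 := key (fun k => cW (4 * k))
    have k2 : (∑ k ∈ Ico R0 R, cW (4 * k)) ≤ (R - R0) * C :=
      sum_Ico_le (fun k _ h5 => (hm (by omega)).trans hC)
    omega

/-! ## Reading the state -/

theorem alN_spec {P : Par} {cW cL : ℕ → ℕ} (hs : SysQ P cW cL) {x : ℕ}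
    {k : List Ent → ℕ → ℕ → Bool} {l : List Ent}
    (hl : VS cW cL l) (h : al x l k = true) :
    ∃ l' a b, VS cW cL l' ∧ cW x ≤ a ∧ cL x ≤ b ∧ k l' a b = true := by
  obtain ⟨l', h1, h2, h3⟩ := adv_spec hl h
  cases l' with
  | nil =>
    exact ⟨[], x, Nat.succ x, h1, hs.leW x, hs.leL x, h3⟩
  | cons t l'' =>
    have h4 := h2 t l'' rfl
    have h5 := h1 t List.mem_cons_self
    exact ⟨t :: l'', t.2.1, t.2.2, h1, (hs.monoW h4).trans h5.1, (hs.monoL h4).trans h5.2, h3⟩

/-! ## The queue of starting points -/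

/-- may the window from the entry `t` to `R` be used? -/
def gcw (w K1 R : ℕ) (t : HE) : Bool :=
  @Bool.rec (fun _ => Bool) false (Nat.ble K1 t.1)
    (Nat.ble (Nat.mul 3 R) (Nat.mul (Nat.add 3 w) t.1))

theorem gcw_true {w K1 R : ℕ} {t : HE} (h : gcw w K1 R t = true) :
    K1 ≤ t.1 ∧ 3 * (R - t.1) ≤ w * t.1 := by
  unfold gcw at h
  cases hb : Nat.ble (Nat.mul 3 R) (Nat.mul (Nat.add 3 w) t.1) with
  | false =>
    rw [hb] at h
    exact absurd h (by simp)
  | true =>
    rw [hb] at h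
    refine ⟨Nat.le_of_ble_eq_true h, ?_⟩
    have h1 : 3 * R ≤ (3 + w) * t.1 := Nat.le_of_ble_eq_true hb
    rw [Nat.add_mul] at h1
    omega

/-- drop the entries which cannot be the start of a window to `R` -/
def advF (w K1 R : ℕ) (k : List HE → Bool) (kn : Bool) (l : List HE) : Bool :=
  @List.rec HE (fun _ => Bool) kn
    (fun t l' ih => @Bool.rec (fun _ => Bool) ih (k (t :: l')) (gcw w K1 R t)) l

/-- all entries of the second list are in the first -/
def Sub (l l' : List HE) : Prop := ∀ t ∈ l', t ∈ l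

theorem advF_spec {w K1 R : ℕ} {k : List HE → Bool} {kn : Bool} : ∀ {l : List HE},
    advF w K1 R k kn l = true → kn = true ∨
      ∃ t l', Sub l (t :: l') ∧ gcw w K1 R t = true ∧ k (t :: l') = true := by
  intro l
  induction l with
  | nil => intro h; exact Or.inl h
  | cons t l ih =>
    intro h
    have h' : @Bool.rec (fun _ => Bool) (advF w K1 R k kn l) (k (t :: l)) (gcw w K1 R t) = true := h
    cases hb : gcw w K1 R t with
    | true =>
      rw [hb] at h'
      exact Or.inr ⟨t, l, fun _ h => h, hb, h'⟩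
    | false =>
      rw [hb] at h'
      rcases ih h' with h1 | ⟨t', l', h1, h2, h3⟩
      · exact Or.inl h1
      · exact Or.inr ⟨t', l', fun s hs => List.mem_cons_of_mem _ (h1 s hs), h2, h3⟩

/-- reverse -/
def revH (k : List HE → Bool) (l : List HE) : List HE → Bool :=
  @List.rec HE (fun _ => List HE → Bool) k (fun t _ ih out => ih (t :: out)) l

theorem revH_spec {k : List HE → Bool} : ∀ {l out : List HE}, revH k l out = true →
    ∃ l', (∀ t ∈ l', t ∈ l ∨ t ∈ out) ∧ k l' = true := by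
  intro l
  induction l with
  | nil => intro out h; exact ⟨out, fun t ht => Or.inr ht, h⟩
  | cons t l ih =>
    intro out h
    obtain ⟨l', h1, h2⟩ := ih (show revH k l (t :: out) = true from h)
    refine ⟨l', ?_, h2⟩
    intro s hs
    rcases h1 s hs with h3 | h3
    · exact Or.inl (List.mem_cons_of_mem _ h3)
    · rcases List.mem_cons.mp h3 with h4 | h4
      · rw [h4]; exact Or.inl List.mem_cons_self
      · exact Or.inr h4

/-- the next state of the queue `(F, B)` -/
def qn (w K1 R : ℕ) (F B : List HE) (k : List HE → List HE → Bool) : Bool :=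
  advF w K1 R (fun F => k F B)
    (revH (fun F' => advF w K1 R (fun F => k F []) (k [] []) F') B []) F

theorem qn_spec {w K1 R : ℕ} {F B : List HE} {k : List HE → List HE → Bool}
    (h : qn w K1 R F B k = true) :
    ∃ F' B', (∀ t ∈ F', t ∈ F ∨ t ∈ B) ∧ (∀ t ∈ B', t ∈ B) ∧
      (∀ t l, F' = t :: l → gcw w K1 R t = true) ∧ k F' B' = true := by
  rcases advF_spec h with h1 | ⟨t, l', h1, h2, h3⟩
  · obtain ⟨F', h2, h3⟩ := revH_spec h1
    rcases advF_spec h3 with h4 | ⟨t, l', h4, h5, h6⟩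
    · exact ⟨[], [], by simp, by simp, by simp, h4⟩
    · refine ⟨t :: l', [], ?_, by simp, ?_, h6⟩
      · intro s hs
        rcases h2 s (h4 s hs) with h7 | h7
        · exact Or.inr h7
        · simp at h7
      · intro s l'' he
        rw [← (List.cons.inj he).1]
        exact h5
  · refine ⟨t :: l', B, fun s hs => Or.inl (h1 s hs), fun _ h => h, ?_, h3⟩
    intro s l'' he
    rw [← (List.cons.inj he).1]
    exact h2

/-! ## The bound for the losses -/

/-- the value of the bound obtained from the window starting at the entry `t` -/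
def gvalN (P : Par) (g1 g2 R A B C P2 P4 : ℕ) (t : HE) : ℕ :=
  mn (Nat.add t.2.1 (Nat.add
      (psi P.q1 P.r1 P.s1 g1 R (Nat.add (Nat.mul P.D A) (Nat.sub P2 t.2.2.2.1)) B)
      (psi P.q2 P.r2 P.s2 g2 R (Nat.add (Nat.mul P.D C) (Nat.sub P4 t.2.2.2.2)) A)))
    (Nat.mul R R)

/-- the bound for `cL (R² - 1)`, the window starts at the head of `F` -/
def getQ (P : Par) (g1 g2 R A B C P2 P4 : ℕ) (F : List HE) (k : ℕ → Bool) : Bool :=
  @List.rec HE (fun _ => Bool) (frc (Nat.mul R R) k)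
    (fun t _ _ => frc (gvalN P g1 g2 R A B C P2 P4 t) k) F

theorem getQ_spec {P : Par} {cW cL : ℕ → ℕ} (hs : SysQ P cW cL) (q1 : 0 < P.q1) (q2 : 0 < P.q2)
    {g1 g2 R x A B C P2 P4 K1 : ℕ} (hK : P.K0 ≤ K1) (hR : 1 ≤ R)
    {F : List HE} {k : ℕ → Bool} (hh : HVS cL F) (hw : Wt cW F R P2 P4)
    (hc : ∀ t l, F = t :: l → gcw P.w K1 R t = true)
    (hA : cW (2 * R) ≤ A)
    (hx : 8 * (R * R) ≤ x * x) (hB : cL x ≤ B) (hC : cW (4 * R) ≤ C)
    (ht : getQ P g1 g2 R A B C P2 P4 F k = true) :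
    ∃ G, cL (R * R - 1) ≤ G ∧ k G = true := by
  have triv : cL (R * R - 1) ≤ Nat.mul R R := by
    refine (hs.leL _).trans ?_
    show R * R - 1 + 1 ≤ R * R
    have : 1 ≤ R * R := Nat.mul_pos hR hR
    omega
  cases F with
  | nil =>
    have h1 : frc (Nat.mul R R) k = true := ht
    rw [frc_eq] at h1
    exact ⟨_, triv, h1⟩
  | cons t l =>
    obtain ⟨h2, h3, _⟩ := hh t List.mem_cons_self
    obtain ⟨w2, w4⟩ := hw t List.mem_cons_self
    have h1 : frc (gvalN P g1 g2 R A B C P2 P4 t) k = true := ht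
    rw [frc_eq] at h1
    obtain ⟨h6, h5⟩ := gcw_true (hc t l rfl)
    refine ⟨_, ?_, h1⟩
    unfold gvalN
    rcases mn_cases (Nat.add t.2.1 (Nat.add
      (psi P.q1 P.r1 P.s1 g1 R (Nat.add (Nat.mul P.D A) (Nat.sub P2 t.2.2.2.1)) B)
      (psi P.q2 P.r2 P.s2 g2 R (Nat.add (Nat.mul P.D C) (Nat.sub P4 t.2.2.2.2)) A)))
      (Nat.mul R R) with h4 | h4
    · rw [h4]
      show cL (R * R - 1) ≤ t.2.1 +
        (psi P.q1 P.r1 P.s1 g1 R (P.D * A + (P2 - t.2.2.2.1)) B +
          psi P.q2 P.r2 P.s2 g2 R (P.D * C + (P4 - t.2.2.2.2)) A)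
      rcases Nat.le_total R t.1 with h7 | h7
      · refine le_trans (hs.monoL ?_) (le_trans h3 (Nat.le_add_right _ _))
        have := Nat.mul_le_mul h7 h7
        omega
      · have hx' : 8 * ((R - 1) * R) ≤ x * x :=
          (Nat.mul_le_mul_left 8 (Nat.mul_le_mul_right R (Nat.sub_le R 1))).trans hx
        obtain ⟨N1, N2, e1, e2, e3⟩ := hs.loss t.1 R x (hK.trans h6) h7 h5 hx'
        have f2 : cW (2 * (R - 1)) ≤ A := (hs.monoW (by omega)).trans hA
        have f4 : cW (4 * (R - 1)) ≤ C := (hs.monoW (by omega)).trans hC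
        have m2 := Nat.mul_le_mul_left P.D f2
        have m4 := Nat.mul_le_mul_left P.D f4
        have f1 := le_psi (g := g1) (R := R) (p := P.D * A + (P2 - t.2.2.2.1)) q1
          (Nat.add_le_add m2 (Nat.le_sub_of_add_le w2))
          (mono_B2 hB e2)
        have f3 := le_psi (g := g2) (R := R) (p := P.D * C + (P4 - t.2.2.2.2)) q2
          (Nat.add_le_add m4 (Nat.le_sub_of_add_le w4))
          (mono_B2 f2 e3)
        omega
    · rw [h4]
      exact triv

/-! ## The loop -/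

/-- `n` grid points, each `q / 10⁶` times the previous one; `h` is the history, `(F, B)` the
queue and `(R0, S0, P2, P4)` the previous point with its sums -/
def loopN (P : Par) (g1 g2 K1 q : ℕ)
    (fin : List HE → List HE → List HE → ℕ → ℕ → ℕ → ℕ → Bool) (n : ℕ) :
    List HE → List HE → List HE → ℕ → ℕ → ℕ → ℕ → List Ent → List Ent → List Ent → Bool :=
  @Nat.rec (fun _ => List HE → List HE → List HE → ℕ → ℕ → ℕ → ℕ →
      List Ent → List Ent → List Ent → Bool)
    (fun h F B R0 S0 P2 P4 _ _ _ => fin h F B R0 S0 P2 P4)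
    (fun _ ih h F B R0 S0 P2 P4 pA pB pC =>
      frc (Nat.succ (Nat.div (Nat.mul R0 q) 1000000)) fun R =>
      frc (Nat.mul 2 R) fun xA => al xA pA fun pA A L =>
      frc (Nat.succ (Nat.div (Nat.mul R 282843) 100000)) fun xB => al xB pB fun pB _ b =>
      frc (Nat.mul 4 R) fun xC => al xC pC fun pC C _ =>
      frc A fun A => frc C fun C => frc b fun b =>
      frc (Nat.sub R R0) fun d => frc (Nat.add S0 (Nat.mul d L)) fun S =>
      frc (Nat.add P2 (Nat.mul d A)) fun P2 => frc (Nat.add P4 (Nat.mul d C)) fun P4 =>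
      qn P.w K1 R F B fun F B =>
      getQ P g1 g2 R A b C P2 P4 F fun G =>
      ih ((R, G, S, P2, P4) :: h) F ((R, G, S, P2, P4) :: B) R S P2 P4 pA pB pC) n

/-- the invariant of the loop -/
def Inv (cW cL : ℕ → ℕ) (h F B : List HE) (R0 S0 P2 P4 : ℕ) : Prop :=
  HVS cL h ∧ HVS cL F ∧ HVS cL B ∧ (∑ k ∈ Icc 1 (R0 - 1), cL (2 * k)) ≤ S0 ∧
    Wt cW F R0 P2 P4 ∧ Wt cW B R0 P2 P4

theorem loopN_spec {P : Par} {cW cL : ℕ → ℕ} (hs : SysQ P cW cL) (q1 : 0 < P.q1)
    (q2 : 0 < P.q2) {g1 g2 K1 q : ℕ} (hK : P.K0 ≤ K1)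
    {fin : List HE → List HE → List HE → ℕ → ℕ → ℕ → ℕ → Bool} :
    ∀ (n : ℕ) (h F B : List HE) (R0 S0 P2 P4 : ℕ) (pA pB pC : List Ent),
    Inv cW cL h F B R0 S0 P2 P4 →
    VS cW cL pA → VS cW cL pB → VS cW cL pC →
    loopN P g1 g2 K1 q fin n h F B R0 S0 P2 P4 pA pB pC = true →
    ∃ h' F' B' R0' S0' P2' P4', Inv cW cL h' F' B' R0' S0' P2' P4' ∧
      fin h' F' B' R0' S0' P2' P4' = true := by
  intro n
  induction n with
  | zero =>
    intro h F B R0 S0 P2 P4 _ _ _ hi _ _ _ ht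
    exact ⟨h, F, B, R0, S0, P2, P4, hi, ht⟩
  | succ n ih =>
    intro h F B R0 S0 P2 P4 pA pB pC hi vA vB vC ht
    obtain ⟨hh, hF, hB, hS, wF, wB⟩ := hi
    have ht' : (frc (Nat.succ (Nat.div (Nat.mul R0 q) 1000000)) fun R =>
      frc (Nat.mul 2 R) fun xA => al xA pA fun pA A L =>
      frc (Nat.succ (Nat.div (Nat.mul R 282843) 100000)) fun xB => al xB pB fun pB _ b =>
      frc (Nat.mul 4 R) fun xC => al xC pC fun pC C _ =>
      frc A fun A => frc C fun C => frc b fun b =>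
      frc (Nat.sub R R0) fun d => frc (Nat.add S0 (Nat.mul d L)) fun S =>
      frc (Nat.add P2 (Nat.mul d A)) fun P2 => frc (Nat.add P4 (Nat.mul d C)) fun P4 =>
      qn P.w K1 R F B fun F B =>
      getQ P g1 g2 R A b C P2 P4 F fun G =>
      loopN P g1 g2 K1 q fin n ((R, G, S, P2, P4) :: h) F ((R, G, S, P2, P4) :: B)
        R S P2 P4 pA pB pC) = true := ht
    rw [frc_eq] at ht'
    set R := Nat.succ (Nat.div (Nat.mul R0 q) 1000000) with hRdef
    have hR1 : 1 ≤ R := Nat.succ_le_succ (Nat.zero_le _)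
    rw [frc_eq] at ht'
    obtain ⟨pA', A, L, a1, a2, a3, ht1⟩ := alN_spec hs vA ht'
    rw [frc_eq] at ht1
    obtain ⟨pB', _, b, b1, _, b3, ht2⟩ := alN_spec hs vB ht1
    rw [frc_eq] at ht2
    obtain ⟨pC', C, _, c1, c2, _, ht3⟩ := alN_spec hs vC ht2
    rw [frc_eq, frc_eq, frc_eq, frc_eq, frc_eq, frc_eq, frc_eq] at ht3
    obtain ⟨F', B', f1, f2, f3, ht4⟩ := qn_spec ht3
    have sumS := sum_step hs.monoL hS a3
    have wF' := wt_step hs.monoW wF a2 c2
    have wB' := wt_step hs.monoW wB a2 c2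
    have hF' : HVS cL F' := by
      intro t ht
      rcases f1 t ht with h1 | h1
      · exact hF t h1
      · exact hB t h1
    have wF'' : Wt cW F' R (P2 + (R - R0) * A) (P4 + (R - R0) * C) := by
      intro t ht
      rcases f1 t ht with h1 | h1
      · exact wF' t h1
      · exact wB' t h1
    obtain ⟨G, g1, ht5⟩ := getQ_spec hs q1 q2 hK hR1 hF' wF'' f3 a2 (sqrt8_le R) b3 c2 ht4
    have new : ∀ l : List HE, HVS cL l → HVS cL ((R, G, S0 + (R - R0) * L,
        P2 + (R - R0) * A, P4 + (R - R0) * C) :: l) := by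
      intro l hl t ht
      rcases List.mem_cons.mp ht with h1 | h1
      · rw [h1]
        exact ⟨hR1, g1, sumS⟩
      · exact hl t h1
    refine ih _ F' _ R _ _ _ pA' pB' pC'
      ⟨new h hh, hF', new B' (fun t ht => hB t (f2 t ht)), sumS, wF'', ?_⟩ a1 b1 c1 ht5
    intro t ht
    rcases List.mem_cons.mp ht with h1 | h1
    · rw [h1]
      simp
    · exact wB' t (f2 t h1)

/-! ## The state from the history -/

/-- drop the entries `(R, ..)` with `R² + 1 < x` -/
def advH (x : ℕ) (k : List HE → Bool) (l : List HE) : Bool :=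
  @List.rec HE (fun _ => Bool) (k [])
    (fun t l' ih => @Bool.rec (fun _ => Bool) ih (k (t :: l'))
      (Nat.ble x (Nat.succ (Nat.mul t.1 t.1)))) l

theorem advH_spec {x : ℕ} {k : List HE → Bool} : ∀ {l : List HE}, advH x k l = true →
    ∃ l', Sub l l' ∧ (∀ t l'', l' = t :: l'' → x ≤ t.1 * t.1 + 1) ∧ k l' = true := by
  intro l
  induction l with
  | nil => intro h; exact ⟨[], fun _ h => h, by simp, h⟩
  | cons t l ih =>
    intro h
    have h' : @Bool.rec (fun _ => Bool) (advH x k l) (k (t :: l))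
      (Nat.ble x (Nat.succ (Nat.mul t.1 t.1))) = true := h
    cases hb : Nat.ble x (Nat.succ (Nat.mul t.1 t.1)) with
    | true =>
      rw [hb] at h'
      refine ⟨t :: l, fun _ h => h, ?_, h'⟩
      intro s l'' he
      rw [← (List.cons.inj he).1]
      exact Nat.le_of_ble_eq_true hb
    | false =>
      rw [hb] at h'
      obtain ⟨l', h1, h2, h3⟩ := ih h'
      exact ⟨l', fun s hs => List.mem_cons_of_mem _ (h1 s hs), h2, h3⟩

/-- the entries from the (ascending) history; `p` is a pointer into the same history -/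
def sweep (k : List Ent → Bool) (l : List HE) : List HE → List Ent → Bool :=
  @List.rec HE (fun _ => List HE → List Ent → Bool) (fun _ out => k out)
    (fun t _ ih p out =>
      frc (Nat.mul t.1 t.1) fun RR => frc (Nat.mul 2 RR) fun R2 =>
      advH R2 (fun p => @List.rec HE (fun _ => Bool) (k out)
        (fun u _ _ => frc (Nat.sub RR 1) fun X => frc (Nat.add t.2.2.1 u.2.1) fun a =>
          frc t.2.1 fun b => ih p ((X, a, b) :: out)) p) p) l

theorem sweep_spec {P : Par} {cW cL : ℕ → ℕ} (hs : SysQ P cW cL) {k : List Ent → Bool} :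
    ∀ (l p : List HE) (out : List Ent), HVS cL l → HVS cL p → VS cW cL out →
    sweep k l p out = true → ∃ S, VS cW cL S ∧ k S = true := by
  intro l
  induction l with
  | nil => intro p out _ _ ho ht; exact ⟨out, ho, ht⟩
  | cons t l ih =>
    intro p out hl hp ho ht
    have ht' : (frc (Nat.mul t.1 t.1) fun RR => frc (Nat.mul 2 RR) fun R2 =>
      advH R2 (fun p => @List.rec HE (fun _ => Bool) (k out)
        (fun u _ _ => frc (Nat.sub RR 1) fun X => frc (Nat.add t.2.2.1 u.2.1) fun a =>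
          frc t.2.1 fun b => sweep k l p ((X, a, b) :: out)) p) p) = true := ht
    rw [frc_eq, frc_eq] at ht'
    obtain ⟨p', h1, h2, h3⟩ := advH_spec ht'
    have hl' : HVS cL l := fun s hs' => hl s (List.mem_cons_of_mem _ hs')
    cases p' with
    | nil => exact ⟨out, ho, h3⟩
    | cons u p'' =>
      have h4 : (frc (Nat.sub (Nat.mul t.1 t.1) 1) fun X => frc (Nat.add t.2.2.1 u.2.1) fun a =>
          frc t.2.1 fun b => sweep k l (u :: p'') ((X, a, b) :: out)) = true := h3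
      rw [frc_eq, frc_eq, frc_eq] at h4
      have hp' : HVS cL (u :: p'') := fun s hs' => hp s (h1 s hs')
      refine ih _ _ hl' hp' ?_ h4
      intro s hs'
      rcases List.mem_cons.mp hs' with h5 | h5
      · rw [h5]
        obtain ⟨p1, p2, p3⟩ := hl t List.mem_cons_self
        obtain ⟨q1, q2, _⟩ := hp' u List.mem_cons_self
        constructor
        · show cW (t.1 * t.1 - 1) ≤ t.2.2.1 + u.2.1
          refine (hs.win _).trans ?_
          rw [sqrt_sq_sub_one p1]
          refine Nat.add_le_add p3 ((hs.monoL ?_).trans q2)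
          have h6 : 2 * (t.1 * t.1) ≤ u.1 * u.1 + 1 := h2 u p'' rfl
          omega
        · exact p2
      · exact ho s h5

/-- the (ascending) state from the (descending) history -/
def mkS (k : List Ent → Bool) (h : List HE) : Bool :=
  revH (fun l => sweep (fun out => rv k out []) l l []) h []

theorem mkS_spec {P : Par} {cW cL : ℕ → ℕ} (hs : SysQ P cW cL) {k : List Ent → Bool}
    {h : List HE} (hh : HVS cL h) (ht : mkS k h = true) : ∃ S, VS cW cL S ∧ k S = true := by
  obtain ⟨l, h1, h2⟩ := revH_spec ht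
  have hl : HVS cL l := by
    intro t ht
    rcases h1 t ht with h3 | h3
    · exact hh t h3
    · simp at h3
  obtain ⟨out, h3, h4⟩ := sweep_spec hs l l [] hl hl (by intro t ht; simp at ht) h2
  exact rv_spec h3 (by intro t ht; simp at ht) h4

/-! ## The data -/

theorem entsN_spec {P : Par} {cW cL : ℕ → ℕ} (hs : SysQ P cW cL)
    {k : List Ent → Bool} : ∀ {d : List (ℕ × ℕ)} {out : List Ent}, DV cL d → VS cW cL out →
    ents k d out = true → ∃ out', VS cW cL out' ∧ k out' = true := by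
  intro d
  induction d with
  | nil => intro out _ ho h; exact ⟨out, ho, h⟩
  | cons p d ih =>
    intro out hd ho h
    have h' : (frc (Nat.sub (Nat.mul p.1 p.1) 1) fun X => ents k d ((X, X, p.2) :: out)) = true :=
      h
    rw [frc_eq] at h'
    refine ih (fun q hq => hd q (List.mem_cons_of_mem _ hq)) ?_ h'
    intro t ht
    rcases List.mem_cons.mp ht with h1 | h1
    · rw [h1]
      exact ⟨hs.leW _, (hd p List.mem_cons_self).2⟩
    · exact ho t h1

/-- the loop over the data -/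
def loopD (fin : List HE → ℕ → ℕ → ℕ → Bool) (d : List (ℕ × ℕ)) :
    List HE → ℕ → ℕ → ℕ → List Ent → Bool :=
  @List.rec (ℕ × ℕ) (fun _ => List HE → ℕ → ℕ → ℕ → List Ent → Bool)
    (fun h R0 G0 S0 _ => fin h R0 G0 S0)
    (fun p _ ih h R0 _ S0 pA =>
      frc (Nat.mul 2 p.1) fun xA => al xA pA fun pA _ L =>
      frc (Nat.sub p.1 R0) fun d => frc (Nat.add S0 (Nat.mul d L)) fun S =>
      ih ((p.1, p.2, S, 0, 0) :: h) p.1 p.2 S pA) d

theorem loopD_spec {P : Par} {cW cL : ℕ → ℕ} (hs : SysQ P cW cL)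
    {fin : List HE → ℕ → ℕ → ℕ → Bool} : ∀ (d : List (ℕ × ℕ)) (h : List HE) (R0 G0 S0 : ℕ)
    (pA : List Ent), DV cL d → HVS cL h → 1 ≤ R0 → cL (R0 * R0 - 1) ≤ G0 →
    (∑ k ∈ Icc 1 (R0 - 1), cL (2 * k)) ≤ S0 →
    VS cW cL pA → loopD fin d h R0 G0 S0 pA = true →
    ∃ h' R0' G0' S0', HVS cL h' ∧ 1 ≤ R0' ∧ cL (R0' * R0' - 1) ≤ G0' ∧
      (∑ k ∈ Icc 1 (R0' - 1), cL (2 * k)) ≤ S0' ∧ fin h' R0' G0' S0' = true := by
  intro d
  induction d with
  | nil => intro h R0 G0 S0 _ _ hh h1 hG hS _ ht; exact ⟨h, R0, G0, S0, hh, h1, hG, hS, ht⟩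
  | cons p d ih =>
    intro h R0 G0 S0 pA hd hh _ _ hS hA ht
    have ht' : (frc (Nat.mul 2 p.1) fun xA => al xA pA fun pA _ L =>
      frc (Nat.sub p.1 R0) fun dd => frc (Nat.add S0 (Nat.mul dd L)) fun S =>
      loopD fin d ((p.1, p.2, S, 0, 0) :: h) p.1 p.2 S pA) = true := ht
    rw [frc_eq] at ht'
    obtain ⟨pA', _, L, a1, _, a3, ht1⟩ := alN_spec hs hA ht'
    rw [frc_eq, frc_eq] at ht1
    have sumS := sum_step hs.monoL hS a3
    obtain ⟨d1, d2⟩ := hd p List.mem_cons_self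
    refine ih _ _ _ _ pA' (fun q hq => hd q (List.mem_cons_of_mem _ hq)) ?_ d1 d2 sumS a1 ht1
    intro t ht
    rcases List.mem_cons.mp ht with h1 | h1
    · rw [h1]
      exact ⟨d1, d2, sumS⟩
    · exact hh t h1

/-! ## Density bounds on intervals -/

/-- `cW x ≤ (u / 10⁷) x` and `cL x ≤ (b / 10⁷) x` for `lo ≤ x < hi` -/
def Seg (cW cL : ℕ → ℕ) (lo hi u b : ℕ) : Prop := ∀ x : ℕ, lo ≤ x → x < hi →
  10000000 * cW x ≤ u * x ∧ 10000000 * cL x ≤ b * x

/-- the check of one entry with predecessor `p` -/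
def okI (lo u b p : ℕ) (t : Ent) : Bool :=
  frc (@Bool.rec (fun _ => ℕ) p lo (Nat.ble p lo)) fun m =>
    @Bool.rec (fun _ => Bool) false (Nat.ble (Nat.mul 10000000 t.2.2) (Nat.mul b m))
      (Nat.ble (Nat.mul 10000000 t.2.1) (Nat.mul u m))

theorem okI_spec {lo u b p : ℕ} {t : Ent} (h : okI lo u b p t = true) {x : ℕ} (h1 : lo ≤ x)
    (h2 : p ≤ x) : 10000000 * t.2.1 ≤ u * x ∧ 10000000 * t.2.2 ≤ b * x := by
  unfold okI at h
  rw [frc_eq] at h
  set m := @Bool.rec (fun _ => ℕ) p lo (Nat.ble p lo) with hm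
  have hmx : m ≤ x := by
    rw [hm]
    cases Nat.ble p lo
    · exact h2
    · exact h1
  cases hb : Nat.ble (Nat.mul 10000000 t.2.1) (Nat.mul u m) with
  | false => rw [hb] at h; exact absurd h (by simp)
  | true =>
    rw [hb] at h
    exact ⟨(Nat.le_of_ble_eq_true hb).trans (Nat.mul_le_mul_left _ hmx),
      (Nat.le_of_ble_eq_true h).trans (Nat.mul_le_mul_left _ hmx)⟩

/-- the check of one interval -/
def walkI (lo hi u b : ℕ) (k : List Ent → ℕ → Bool) (l : List Ent) : ℕ → Bool :=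
  @List.rec Ent (fun _ => ℕ → Bool) (fun _ => false)
    (fun t l' ih p => @Bool.rec (fun _ => Bool)
      (@Bool.rec (fun _ => Bool) false
        (@Bool.rec (fun _ => Bool) (ih t.1) (k (t :: l') p) (Nat.ble hi (Nat.succ t.1)))
        (okI lo u b p t))
      (ih t.1) (Nat.ble (Nat.succ t.1) lo)) l

theorem walkI_spec {cW cL : ℕ → ℕ} (mW : Monotone cW) (mL : Monotone cL) {lo hi u b : ℕ}
    (hlh : lo ≤ hi) {k : List Ent → ℕ → Bool} : ∀ (l : List Ent) (p : ℕ), VS cW cL l →
    p ≤ hi → (∀ x, lo ≤ x → x < p → 10000000 * cW x ≤ u * x ∧ 10000000 * cL x ≤ b * x) →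
    walkI lo hi u b k l p = true →
    (∃ l' p', VS cW cL l' ∧ p' ≤ hi ∧ k l' p' = true) ∧ Seg cW cL lo hi u b := by
  intro l
  induction l with
  | nil => intro p _ _ _ h; exact absurd h (by simp [walkI])
  | cons t l ih =>
    intro p hv hp hx h
    have h' : @Bool.rec (fun _ => Bool)
      (@Bool.rec (fun _ => Bool) false
        (@Bool.rec (fun _ => Bool) (walkI lo hi u b k l t.1) (k (t :: l) p)
          (Nat.ble hi (Nat.succ t.1)))
        (okI lo u b p t))
      (walkI lo hi u b k l t.1) (Nat.ble (Nat.succ t.1) lo) = true := h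
    have hv' : VS cW cL l := fun s hs => hv s (List.mem_cons_of_mem _ hs)
    cases hb : Nat.ble (Nat.succ t.1) lo with
    | true =>
      rw [hb] at h'
      have hb' : t.1 + 1 ≤ lo := Nat.le_of_ble_eq_true hb
      refine ih t.1 hv' (by omega) ?_ h'
      intro x h1 h2
      omega
    | false =>
      rw [hb] at h'
      cases hk : okI lo u b p t with
      | false => rw [hk] at h'; exact absurd h' (by simp)
      | true =>
        rw [hk] at h'
        obtain ⟨v1, v2⟩ := hv t List.mem_cons_self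
        have cov : ∀ x, lo ≤ x → x ≤ t.1 →
            10000000 * cW x ≤ u * x ∧ 10000000 * cL x ≤ b * x := by
          intro x h1 h2
          rcases Nat.lt_or_ge x p with h3 | h3
          · exact hx x h1 h3
          · obtain ⟨o1, o2⟩ := okI_spec hk h1 h3
            exact ⟨(Nat.mul_le_mul_left _ ((mW h2).trans v1)).trans o1,
              (Nat.mul_le_mul_left _ ((mL h2).trans v2)).trans o2⟩
        cases he : Nat.ble hi (Nat.succ t.1) with
        | true =>
          rw [he] at h'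
          have he' : hi ≤ t.1 + 1 := Nat.le_of_ble_eq_true he
          exact ⟨⟨t :: l, p, hv, hp, h'⟩, fun x h1 h2 => cov x h1 (by omega)⟩
        | false =>
          rw [he] at h'
          have he' : ¬ hi ≤ t.1 + 1 := by
            intro hc
            rw [Nat.ble_eq_true_of_le hc] at he
            exact absurd he (by simp)
          exact ih t.1 hv' (by omega) (fun x h1 h2 => cov x h1 h2.le) h'

/-- the check of the intervals `[2^e, 2^f)`, entries `(e, f, u, b)` -/
def chkI (I : List (ℕ × ℕ × ℕ × ℕ)) : List Ent → ℕ → Bool :=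
  @List.rec (ℕ × ℕ × ℕ × ℕ) (fun _ => List Ent → ℕ → Bool) (fun _ _ => true)
    (fun s _ ih l p => frc (Nat.pow 2 s.1) fun lo => frc (Nat.pow 2 s.2.1) fun hi =>
      @Bool.rec (fun _ => Bool) false
        (@Bool.rec (fun _ => Bool) false (walkI lo hi s.2.2.1 s.2.2.2 (fun l p => ih l p) l p)
          (Nat.ble p lo)) (Nat.ble lo hi)) I

theorem chkI_spec {cW cL : ℕ → ℕ} (mW : Monotone cW) (mL : Monotone cL) :
    ∀ (I : List (ℕ × ℕ × ℕ × ℕ)) (l : List Ent) (p : ℕ), VS cW cL l → chkI I l p = true →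
    ∀ s ∈ I, Seg cW cL (2 ^ s.1) (2 ^ s.2.1) s.2.2.1 s.2.2.2 := by
  intro I
  induction I with
  | nil => intro l p _ _ s hs; simp at hs
  | cons s I ih =>
    intro l p hv h
    have h' : (frc (Nat.pow 2 s.1) fun lo => frc (Nat.pow 2 s.2.1) fun hi =>
      @Bool.rec (fun _ => Bool) false
        (@Bool.rec (fun _ => Bool) false
          (walkI lo hi s.2.2.1 s.2.2.2 (fun l p => chkI I l p) l p)
          (Nat.ble p lo)) (Nat.ble lo hi)) = true := h
    rw [frc_eq, frc_eq] at h'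
    cases h1 : Nat.ble (Nat.pow 2 s.1) (Nat.pow 2 s.2.1) with
    | false => rw [h1] at h'; exact absurd h' (by simp)
    | true =>
      rw [h1] at h'
      cases h2 : Nat.ble p (Nat.pow 2 s.1) with
      | false => rw [h2] at h'; exact absurd h' (by simp)
      | true =>
        rw [h2] at h'
        have h1' : 2 ^ s.1 ≤ 2 ^ s.2.1 := Nat.le_of_ble_eq_true h1
        have h2' : p ≤ 2 ^ s.1 := Nat.le_of_ble_eq_true h2
        obtain ⟨⟨l', p', g1, _, g3⟩, g4⟩ := walkI_spec mW mL h1' l p hv (h2'.trans h1')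
          (fun x h3 h4 => absurd h3 (by omega)) h'
        intro t ht
        rcases List.mem_cons.mp ht with h5 | h5
        · rw [h5]; exact g4
        · exact ih l' p' g1 g3 t h5

/-- the check of the sum: the first entry with `lo ≤ R` has `10⁷ S ≤ s lo²` -/
def sumC (lo s : ℕ) (l : List HE) : Bool :=
  @List.rec HE (fun _ => Bool) false
    (fun t _ ih => @Bool.rec (fun _ => Bool) ih
      (Nat.ble (Nat.mul 10000000 t.2.2.1) (Nat.mul s (Nat.mul lo lo))) (Nat.ble lo t.1)) l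

theorem sumC_spec {cL : ℕ → ℕ} {lo s : ℕ} : ∀ {l : List HE}, HVS cL l → sumC lo s l = true →
    10000000 * (∑ k ∈ Icc 1 (lo - 1), cL (2 * k)) ≤ s * (lo * lo) := by
  intro l
  induction l with
  | nil => intro _ h; exact absurd h (by simp [sumC])
  | cons t l ih =>
    intro hh h
    have h' : @Bool.rec (fun _ => Bool) (sumC lo s l)
      (Nat.ble (Nat.mul 10000000 t.2.2.1) (Nat.mul s (Nat.mul lo lo))) (Nat.ble lo t.1) =
      true := h
    cases hb : Nat.ble lo t.1 with
    | false =>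
      rw [hb] at h'
      exact ih (fun u hu => hh u (List.mem_cons_of_mem _ hu)) h'
    | true =>
      rw [hb] at h'
      have h1 : lo ≤ t.1 := Nat.le_of_ble_eq_true hb
      have h2 : 10000000 * t.2.2.1 ≤ s * (lo * lo) := Nat.le_of_ble_eq_true h'
      obtain ⟨_, _, h3⟩ := hh t List.mem_cons_self
      refine (Nat.mul_le_mul_left _ (le_trans ?_ h3)).trans h2
      apply sum_le_sum_of_subset
      intro k hk
      rw [mem_Icc] at hk ⊢
      omega

/-! ## The whole computation -/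

/-- the final stage, applied to the (descending) history -/
def finA (e s : ℕ) (I : List (ℕ × ℕ × ℕ × ℕ)) (h : List HE) : Bool :=
  @Bool.rec (fun _ => Bool) false (mkS (fun S => chkI I S 0) h)
    (revH (fun l => frc (Nat.pow 2 e) fun lo => sumC lo s l) h [])

theorem finA_spec {P : Par} {cW cL : ℕ → ℕ} (hs : SysQ P cW cL) {e s : ℕ}
    {I : List (ℕ × ℕ × ℕ × ℕ)} {h : List HE} (hh : HVS cL h) (ht : finA e s I h = true) :
    10000000 * (∑ k ∈ Icc 1 (2 ^ e - 1), cL (2 * k)) ≤ s * (2 ^ e * 2 ^ e) ∧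
    ∀ s ∈ I, Seg cW cL (2 ^ s.1) (2 ^ s.2.1) s.2.2.1 s.2.2.2 := by
  unfold finA at ht
  cases hb : revH (fun l => frc (Nat.pow 2 e) fun lo => sumC lo s l) h [] with
  | false => rw [hb] at ht; exact absurd ht (by simp)
  | true =>
    rw [hb] at ht
    constructor
    · obtain ⟨l, h1, h2⟩ := revH_spec hb
      rw [frc_eq] at h2
      have hl : HVS cL l := by
        intro t ht
        rcases h1 t ht with h3 | h3
        · exact hh t h3
        · simp at h3
      exact sumC_spec hl h2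
    · obtain ⟨S, h1, h2⟩ := mkS_spec hs hh ht
      exact chkI_spec hs.monoW hs.monoL I S 0 h1 h2

/-- the levels, with the parameters `(q, n)` -/
def levs (P : Par) (g1 g2 K1 : ℕ) (fin : List HE → Bool) (ns : List (ℕ × ℕ)) :
    List HE → List HE → List HE → ℕ → ℕ → ℕ → ℕ → Bool :=
  @List.rec (ℕ × ℕ) (fun _ => List HE → List HE → List HE → ℕ → ℕ → ℕ → ℕ → Bool)
    (fun h _ _ _ _ _ _ => fin h)
    (fun m _ ih h F B R0 S0 P2 P4 =>
      mkS (fun S => loopN P g1 g2 K1 m.1 ih m.2 h F B R0 S0 P2 P4 S S S) h) ns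

theorem levs_spec {P : Par} {cW cL : ℕ → ℕ} (hs : SysQ P cW cL) (q1 : 0 < P.q1)
    (q2 : 0 < P.q2) {g1 g2 K1 : ℕ} (hK : P.K0 ≤ K1) {fin : List HE → Bool} :
    ∀ (ns : List (ℕ × ℕ)) (h F B : List HE) (R0 S0 P2 P4 : ℕ),
    Inv cW cL h F B R0 S0 P2 P4 → levs P g1 g2 K1 fin ns h F B R0 S0 P2 P4 = true →
    ∃ h', HVS cL h' ∧ fin h' = true := by
  intro ns
  induction ns with
  | nil => intro h _ _ _ _ _ _ hi ht; exact ⟨h, hi.1, ht⟩
  | cons m ns ih =>
    intro h F B R0 S0 P2 P4 hi ht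
    have ht' : mkS (fun S => loopN P g1 g2 K1 m.1 (levs P g1 g2 K1 fin ns) m.2 h F B
      R0 S0 P2 P4 S S S) h = true := ht
    obtain ⟨S, v1, v2⟩ := mkS_spec hs hi.1 ht'
    obtain ⟨h', F', B', R0', S0', P2', P4', i1, i2⟩ := loopN_spec hs q1 q2 hK m.2 h F B
      R0 S0 P2 P4 S S S hi v1 v1 v1 v2
    exact ih h' F' B' R0' S0' P2' P4' i1 i2

/-- the whole computation: the data `d` (ascending), the levels `ns` above the last data point,
the final checks -/
def runA (P : Par) (g1 g2 K1 : ℕ) (ns : List (ℕ × ℕ)) (e s : ℕ) (I : List (ℕ × ℕ × ℕ × ℕ))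
    (d : List (ℕ × ℕ)) : Bool :=
  ents (fun a => rv (fun a => loopD (fun h R0 G0 S0 =>
    levs P g1 g2 K1 (finA e s I) ns h [] ((R0, G0, S0, 0, 0) :: []) R0 S0 0 0)
    d [] 1 1 0 a) a []) d []

/-- The grid theorem: correct data and an accepted computation give density bounds. -/
theorem runA_spec {P : Par} {cW cL : ℕ → ℕ} (hs : SysQ P cW cL) (q1 : 0 < P.q1)
    (q2 : 0 < P.q2) {g1 g2 K1 e s : ℕ} {ns : List (ℕ × ℕ)} (hK : P.K0 ≤ K1)
    {I : List (ℕ × ℕ × ℕ × ℕ)} {d : List (ℕ × ℕ)} (hd : DV cL d)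
    (h : runA P g1 g2 K1 ns e s I d = true) :
    10000000 * (∑ k ∈ Icc 1 (2 ^ e - 1), cL (2 * k)) ≤ s * (2 ^ e * 2 ^ e) ∧
    ∀ s ∈ I, Seg cW cL (2 ^ s.1) (2 ^ s.2.1) s.2.2.1 s.2.2.2 := by
  have nilV : VS cW cL [] := by intro t ht; simp at ht
  have nilH : HVS cL [] := by intro t ht; simp at ht
  obtain ⟨a1, h1, h2⟩ := entsN_spec hs hd nilV h
  obtain ⟨a2, h3, h4⟩ := rv_spec h1 nilV h2
  obtain ⟨h', R0, G0, S0, h5, h6, h7, h8, h9⟩ := loopD_spec hs d [] 1 1 0 a2 hd nilH le_rfl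
    ((hs.leL _).trans (by norm_num)) (by simp) h3 h4
  have hB : HVS cL ((R0, G0, S0, 0, 0) :: []) := by
    intro t ht
    rcases List.mem_cons.mp ht with h1 | h1
    · rw [h1]
      exact ⟨h6, h7, h8⟩
    · simp at h1
  have wB : Wt cW ((R0, G0, S0, 0, 0) :: []) R0 0 0 := by
    intro t ht
    rcases List.mem_cons.mp ht with h1 | h1
    · rw [h1]
      simp
    · simp at h1
  obtain ⟨hf, k1, k2⟩ := levs_spec hs q1 q2 hK ns h' [] _ R0 S0 0 0
    ⟨h5, nilH, hB, h8, by intro t ht; simp at ht, wB⟩ h9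
  exact finA_spec hs k1 k2

end Pool.Agent.AddSq.GA
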