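import Pool.Agent.AddSq.GridA

/-!
# Density bounds on intervals: the recursion

From bounds `cW x ≤ u x`, `cL x ≤ b x` (in units `10⁻⁷`) on the intervals `[2^e, 2^f)` of a
list the program `levB` computes such bounds on the intervals `[4^e, 4^f)`.
-/

namespace Pool.Agent.AddSq.GA

open Rec Finset

/-! ## Lemmas -/

theorem quad_le {a b c p X Z : ℕ} (ha : 0 < a) (hp : 0 < p)
    (h1 : a * X ^ 2 ≤ b * Z * X + c * Z ^ 2) (h2 : b * p + c ≤ a * p ^ 2) : X ≤ p * Z := by
  by_contra hc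
  push Not at hc
  have hab : b ≤ a * p := by
    have h3 : b * p ≤ (a * p) * p := by nlinarith
    exact Nat.le_of_mul_le_mul_right h3 hp
  zify at *
  have hd : (0 : ℤ) < (X : ℤ) - p * Z := by linarith
  have h4 : (b : ℤ) * Z ≤ a * (p * Z) := by
    have := mul_le_mul_of_nonneg_right hab (Int.natCast_nonneg Z)
    linarith
  have hX : (0 : ℤ) < X := by
    have : (0 : ℤ) ≤ p * Z := by positivity
    linarith
  have h5 : (0 : ℤ) < a * (X + p * Z) - b * Z := by
    have := mul_pos ha hX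
    linarith
  have h6 := mul_pos hd h5
  have h7 := mul_le_mul_of_nonneg_right h2 (sq_nonneg (Z : ℤ))
  nlinarith

theorem sum_two {K z : ℕ} (h : K ≤ z) : (∑ k ∈ Ico K z, 2 * k) + K * K ≤ z * z := by
  induction z, h using Nat.le_induction with
  | base => simp
  | succ z hz ih =>
    rw [sum_Ico_succ_top hz]
    nlinarith

theorem sum_seg2 {cW : ℕ → ℕ} {U K z : ℕ} (hKz : K ≤ z)
    (h : ∀ k, K ≤ k → k < z → 10000000 * cW (2 * k) ≤ U * (2 * k)) :
    10000000 * (∑ k ∈ Ico K z, cW (2 * k)) + U * (K * K) ≤ U * (z * z) := by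
  have h1 : 10000000 * (∑ k ∈ Ico K z, cW (2 * k)) ≤ U * ∑ k ∈ Ico K z, 2 * k := by
    rw [mul_sum, mul_sum]
    apply sum_le_sum
    intro k hk
    rw [mem_Ico] at hk
    exact h k hk.1 hk.2
  have h2 := Nat.mul_le_mul_left U (sum_two hKz)
  rw [Nat.mul_add] at h2
  omega

theorem sum_seg4 {cW : ℕ → ℕ} {U K z : ℕ} (hKz : K ≤ z)
    (h : ∀ k, K ≤ k → k < z → 10000000 * cW (4 * k) ≤ U * (4 * k)) :
    10000000 * (∑ k ∈ Ico K z, cW (4 * k)) + 2 * U * (K * K) ≤ 2 * U * (z * z) := by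
  have h1 : 10000000 * (∑ k ∈ Ico K z, cW (4 * k)) ≤ 2 * U * ∑ k ∈ Ico K z, 2 * k := by
    rw [mul_sum, mul_sum]
    apply sum_le_sum
    intro k hk
    rw [mem_Ico] at hk
    refine (h k hk.1 hk.2).trans (le_of_eq (by ring))
  have h2 := Nat.mul_le_mul_left (2 * U) (sum_two hKz)
  rw [Nat.mul_add] at h2
  omega

theorem sqrt_eight {z : ℕ} (hz : 1 ≤ z) : ∃ R, 8 * ((z - 1) * z) ≤ R * R ∧ R * R ≤ 8 * (z * z) ∧
    2 * z ≤ R ∧ R ≤ 3 * z := by
  refine ⟨Nat.sqrt (8 * (z * z)), ?_, Nat.sqrt_le _, ?_, ?_⟩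
  · have h1 := Nat.lt_succ_sqrt (8 * (z * z))
    have h2 : Nat.sqrt (8 * (z * z)) ≤ 3 * z := by
      rw [← Nat.sqrt_eq (3 * z)]
      apply Nat.sqrt_le_sqrt
      nlinarith
    set R := Nat.sqrt (8 * (z * z)) with hR
    have h3 : 8 * (z * z) < (R + 1) * (R + 1) := h1
    obtain ⟨y, rfl⟩ : ∃ y, z = y + 1 := ⟨z - 1, by omega⟩
    have e : y + 1 - 1 = y := rfl
    rw [e]
    nlinarith
  · rw [Nat.le_sqrt]
    nlinarith
  · rw [← Nat.sqrt_eq (3 * z)]
    apply Nat.sqrt_le_sqrt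
    nlinarith

/-- one window in an interval with the density bounds `U`, `B` -/
theorem win_step {P : Par} {cW cL : ℕ → ℕ} (hs : SysQ P cW cL) (q1 : 0 < P.q1)
    (q2 : 0 < P.q2) {lo hi U B z K om p t : ℕ} (hseg : Seg cW cL lo hi U B)
    (hK0 : P.K0 ≤ K) (hKz : K ≤ z) (hw : 3 * (z - K) ≤ P.w * K) (hlo : lo ≤ 2 * K)
    (hhi : 4 * z ≤ hi) (hz : 1 ≤ z) (hzl : lo ≤ 2 * (z - 1))
    (hom : 1000000 * (z * z) + 2000000 * P.D * z ≤ om * (z * z) + 1000000 * (K * K))
    (hp : 0 < p) (ht : 0 < t)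
    (h1 : U * om * P.r1 * 10000000 * p + 8 * (U * om * P.s1) * (B * B) ≤
      10000000000000 * P.q1 * p ^ 2)
    (h2 : 2 * (U * om * P.r2) * 10000000 * t + 8 * (U * om * P.s2) * (U * U) ≤
      10000000000000 * P.q2 * t ^ 2) :
    10000000 * cL (z * z - 1) ≤ 10000000 * cL (K * K - 1) + (p + t) * (z * z) := by
  obtain ⟨R, r1, r2, r3, r4⟩ := sqrt_eight hz
  obtain ⟨N1, N2, e1, e2, e3⟩ := hs.loss K z R hK0 hKz hw r1
  have hR := hseg R (by omega) (by omega)
  have hA := hseg (2 * (z - 1)) hzl (by omega)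
  have hC := hseg (4 * (z - 1)) (by omega) (by omega)
  -- weights
  have w1 : 1000000 * (10000000 * (P.D * cW (2 * (z - 1)) + ∑ k ∈ Ico K z, cW (2 * k))) ≤
      U * om * (z * z) := by
    have s1 := sum_seg2 (cW := cW) (U := U) hKz (fun k hk hk' =>
      (hseg (2 * k) (by omega) (by omega)).1)
    have s2 : P.D * (10000000 * cW (2 * (z - 1))) ≤ P.D * (U * (2 * z)) :=
      Nat.mul_le_mul_left _ (hA.1.trans (Nat.mul_le_mul_left _ (by omega)))
    have s3 := Nat.mul_le_mul_left U hom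
    have e5 : U * (1000000 * (z * z) + 2000000 * P.D * z) =
      1000000 * (U * (z * z)) + 1000000 * (P.D * (U * (2 * z))) := by ring
    have e6 : U * (om * (z * z) + 1000000 * (K * K)) =
      U * om * (z * z) + 1000000 * (U * (K * K)) := by ring
    rw [e5, e6] at s3
    have e7 : 1000000 * (10000000 * (P.D * cW (2 * (z - 1)) + ∑ k ∈ Ico K z, cW (2 * k))) =
      1000000 * (P.D * (10000000 * cW (2 * (z - 1)))) +
        1000000 * (10000000 * ∑ k ∈ Ico K z, cW (2 * k)) := by ring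
    rw [e7]
    omega
  have w2 : 1000000 * (10000000 * (P.D * cW (4 * (z - 1)) + ∑ k ∈ Ico K z, cW (4 * k))) ≤
      2 * (U * om) * (z * z) := by
    have s1 := sum_seg4 (cW := cW) (U := U) hKz (fun k hk hk' =>
      (hseg (4 * k) (by omega) (by omega)).1)
    have s2 : P.D * (10000000 * cW (4 * (z - 1))) ≤ P.D * (U * (4 * z)) :=
      Nat.mul_le_mul_left _ (hC.1.trans (Nat.mul_le_mul_left _ (by omega)))
    have s3 := Nat.mul_le_mul_left (2 * U) hom
    have e5 : 2 * U * (1000000 * (z * z) + 2000000 * P.D * z) =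
      1000000 * (2 * U * (z * z)) + 1000000 * (P.D * (U * (4 * z))) := by ring
    have e6 : 2 * U * (om * (z * z) + 1000000 * (K * K)) =
      2 * (U * om) * (z * z) + 1000000 * (2 * U * (K * K)) := by ring
    rw [e5, e6] at s3
    have e7 : 1000000 * (10000000 * (P.D * cW (4 * (z - 1)) + ∑ k ∈ Ico K z, cW (4 * k))) =
      1000000 * (P.D * (10000000 * cW (4 * (z - 1)))) +
        1000000 * (10000000 * ∑ k ∈ Ico K z, cW (4 * k)) := by ring
    rw [e7]
    omega
  have b1 : (10000000 * cL R) ^ 2 ≤ 8 * (B * B) * (z * z) := by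
    calc (10000000 * cL R) ^ 2 ≤ (B * R) ^ 2 := Nat.pow_le_pow_left hR.2 2
      _ = B * B * (R * R) := by ring
      _ ≤ B * B * (8 * (z * z)) := Nat.mul_le_mul_left _ r2
      _ = _ := by ring
  have b2 : (10000000 * cW (2 * (z - 1))) ^ 2 ≤ 4 * (U * U) * (z * z) := by
    have h3 : 10000000 * cW (2 * (z - 1)) ≤ U * (2 * z) :=
      hA.1.trans (Nat.mul_le_mul_left _ (by omega))
    calc (10000000 * cW (2 * (z - 1))) ^ 2 ≤ (U * (2 * z)) ^ 2 := Nat.pow_le_pow_left h3 2
      _ = _ := by ring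
  have n1 : 10000000 * N1 ≤ p * (z * z) := by
    refine quad_le (a := 10000000000000 * P.q1) (b := U * om * P.r1 * 10000000)
      (c := 8 * (U * om * P.s1) * (B * B)) (by positivity) hp ?_ h1
    calc 10000000000000 * P.q1 * (10000000 * N1) ^ 2
        = 1000000 * 10000000 * (10000000 ^ 2 * (P.q1 * N1 ^ 2)) := by ring
      _ ≤ 1000000 * 10000000 * (10000000 ^ 2 *
          ((P.D * cW (2 * (z - 1)) + ∑ k ∈ Ico K z, cW (2 * k)) *
            (P.r1 * N1 + P.s1 * (cL R) ^ 2))) := by gcongr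
      _ = (1000000 * (10000000 * (P.D * cW (2 * (z - 1)) + ∑ k ∈ Ico K z, cW (2 * k)))) *
          (P.r1 * 10000000 * (10000000 * N1) + P.s1 * (10000000 * cL R) ^ 2) := by ring
      _ ≤ (U * om * (z * z)) * (P.r1 * 10000000 * (10000000 * N1) +
          P.s1 * (8 * (B * B) * (z * z))) := by gcongr
      _ = _ := by ring
  have n2 : 10000000 * N2 ≤ t * (z * z) := by
    refine quad_le (a := 10000000000000 * P.q2) (b := 2 * (U * om * P.r2) * 10000000)
      (c := 8 * (U * om * P.s2) * (U * U)) (by positivity) ht ?_ h2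
    calc 10000000000000 * P.q2 * (10000000 * N2) ^ 2
        = 1000000 * 10000000 * (10000000 ^ 2 * (P.q2 * N2 ^ 2)) := by ring
      _ ≤ 1000000 * 10000000 * (10000000 ^ 2 *
          ((P.D * cW (4 * (z - 1)) + ∑ k ∈ Ico K z, cW (4 * k)) *
            (P.r2 * N2 + P.s2 * (cW (2 * (z - 1))) ^ 2))) := by gcongr
      _ = (1000000 * (10000000 * (P.D * cW (4 * (z - 1)) + ∑ k ∈ Ico K z, cW (4 * k)))) *
          (P.r2 * 10000000 * (10000000 * N2) + P.s2 * (10000000 * cW (2 * (z - 1))) ^ 2) := by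
            ring
      _ ≤ (2 * (U * om) * (z * z)) * (P.r2 * 10000000 * (10000000 * N2) +
          P.s2 * (4 * (U * U) * (z * z))) := by gcongr
      _ = _ := by ring
  have e4 := Nat.mul_le_mul_left 10000000 e1
  rw [Nat.add_mul]
  omega

/-- `10⁶ (1 - (3/(3+w))²)`, rounded up -/
def om (w : ℕ) : ℕ := 1000001 - 9000000 / ((3 + w) * (3 + w))

/-- `10⁶ (3/(3+w))²`, rounded up -/
def up (w : ℕ) : ℕ := 9000000 / ((3 + w) * (3 + w)) + 1

theorem window_num {w D z : ℕ} (hw : w = 1 ∨ w = 2) (hz : 2000000 * D ≤ z)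
    (hz' : 2000000 ≤ z) : ∃ K, K < z ∧ z ≤ 2 * K ∧ 3 * (z - K) ≤ w * K ∧
    1000000 * (z * z) + 2000000 * D * z ≤ om w * (z * z) + 1000000 * (K * K) ∧
    1000000 * (K * K) ≤ up w * (z * z) := by
  have h0 : 2000000 * D * z ≤ z * z := Nat.mul_le_mul_right z hz
  have h1 : 2000000 * z ≤ z * z := Nat.mul_le_mul_right z hz'
  rcases hw with rfl | rfl
  · have e1 : om 1 = 437501 := by decide
    have e2 : up 1 = 562501 := by decide
    rw [e1, e2]
    obtain ⟨K, h2, h3⟩ : ∃ K, 3 * z ≤ 4 * K ∧ 4 * K ≤ 3 * z + 3 :=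
      ⟨(3 * z + 3) / 4, by omega, by omega⟩
    have h4 := Nat.mul_le_mul h2 h2
    have h5 := Nat.mul_le_mul h3 h3
    refine ⟨K, by omega, by omega, by omega, ?_, ?_⟩ <;> nlinarith
  · have e1 : om 2 = 640001 := by decide
    have e2 : up 2 = 360001 := by decide
    rw [e1, e2]
    obtain ⟨K, h2, h3⟩ : ∃ K, 3 * z ≤ 5 * K ∧ 5 * K ≤ 3 * z + 4 :=
      ⟨(3 * z + 4) / 5, by omega, by omega⟩
    have h4 := Nat.mul_le_mul h2 h2
    have h5 := Nat.mul_le_mul h3 h3
    refine ⟨K, by omega, by omega, by omega, ?_, ?_⟩ <;> nlinarith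

/-- the bound for the losses on an interval -/
theorem beta_interval {P : Par} {cW cL : ℕ → ℕ} (hs : SysQ P cW cL) (q1 : 0 < P.q1)
    (q2 : 0 < P.q2) (hw : P.w = 1 ∨ P.w = 2) {a b U B p t β0 β : ℕ}
    (ha : 2000000 * (P.D + 1) ≤ a) (hK0 : 2 * P.K0 ≤ a)
    (hseg : Seg cW cL a (4 * b) U B) (hp : 0 < p) (ht : 0 < t)
    (h1 : U * om P.w * P.r1 * 10000000 * p + 8 * (U * om P.w * P.s1) * (B * B) ≤
      10000000000000 * P.q1 * p ^ 2)
    (h2 : 2 * (U * om P.w * P.r2) * 10000000 * t + 8 * (U * om P.w * P.s2) * (U * U) ≤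
      10000000000000 * P.q2 * t ^ 2)
    (h3 : up P.w * β0 + 1000000 * (p + t) ≤ 1000000 * β)
    (h4 : up P.w * β + 1000000 * (p + t) ≤ 1000000 * β)
    (hprev : ∀ z, a ≤ 2 * z → z < a → 10000000 * cL (z * z - 1) ≤ β0 * (z * z)) :
    ∀ z, a ≤ z → z ≤ b → 10000000 * cL (z * z - 1) ≤ β * (z * z) := by
  intro z
  induction z using Nat.strong_induction_on with
  | _ z ih =>
    intro haz hzb
    have e1 : 2000000 * (P.D + 1) = 2000000 * P.D + 2000000 := by ring
    rw [e1] at ha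
    obtain ⟨K, k1, k2, k3, k4, k5⟩ := window_num (D := P.D) (z := z) hw (by omega) (by omega)
    have step := win_step hs q1 q2 hseg (K := K) (z := z) (by omega) k1.le k3 (by omega)
      (by omega) (by omega) (by omega) k4 hp ht h1 h2
    have fin : ∀ γ, 10000000 * cL (K * K - 1) ≤ γ * (K * K) →
        up P.w * γ + 1000000 * (p + t) ≤ 1000000 * β →
        10000000 * cL (z * z - 1) ≤ β * (z * z) := by
      intro γ g1 g2
      have g3 := Nat.mul_le_mul_right (z * z) g2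
      have g4 := Nat.mul_le_mul_left γ k5
      rw [Nat.add_mul] at g3
      have e2 : γ * (up P.w * (z * z)) = up P.w * γ * (z * z) := by ring
      have e3 : γ * (1000000 * (K * K)) = 1000000 * (γ * (K * K)) := by ring
      have e4 : 1000000 * (p + t) * (z * z) = 1000000 * ((p + t) * (z * z)) := by ring
      have e5 : 1000000 * β * (z * z) = 1000000 * (β * (z * z)) := by ring
      rw [e2, e3] at g4
      rw [e4, e5] at g3
      omega
    rcases Nat.lt_or_ge K a with h5 | h5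
    · exact fin β0 (hprev K (by omega) h5) h3
    · exact fin β (ih K k1 h5 (by omega)) h4

/-- the sum over the blocks in an interval -/
theorem sum_interval {cL : ℕ → ℕ} {a b s B : ℕ} (ha : 1 ≤ a)
    (hsum : 10000000 * (∑ k ∈ Icc 1 (a - 1), cL (2 * k)) ≤ s * (a * a))
    (hB : ∀ k, a ≤ k → k < b → 10000000 * cL (2 * k) ≤ B * (2 * k)) :
    ∀ m, a ≤ m → m ≤ b → 10000000 * (∑ k ∈ Icc 1 (m - 1), cL (2 * k)) + B * (a * a) +
      B * m ≤ s * (a * a) + B * (m * m) + B * a := by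
  intro m hm
  induction m, hm using Nat.le_induction with
  | base => intro _; omega
  | succ m hm ih =>
    intro hmb
    have h1 := ih (by omega)
    have h2 := hB m hm (by omega)
    have e1 : Icc 1 (m + 1 - 1) = Icc 1 m := rfl
    have e2 : ∑ k ∈ Icc 1 m, cL (2 * k) = ∑ k ∈ Icc 1 (m - 1), cL (2 * k) + cL (2 * m) := by
      obtain ⟨j, rfl⟩ : ∃ j, m = j + 1 := ⟨m - 1, by omega⟩
      rw [sum_Icc_succ_top (by omega)]
      rfl
    rw [e1, e2]
    have e3 : B * ((m + 1) * (m + 1)) = B * (m * m) + B * (2 * m) + B := by ring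
    have e4 : B * (m + 1) = B * m + B := by ring
    rw [e3, e4]
    omega

theorem sv_num {s B a m M A : ℕ} (h : A + B * (a * a) + B * (m + 1) ≤
    s * (a * a) + B * ((m + 1) * (m + 1)) + B * a) (h1 : s ≤ M) (h2 : B ≤ M) (ham : a ≤ m)
    (h3 : 2 * M ≤ m) : A ≤ (M + 1) * (m * m) := by
  have e1 : B * ((m + 1) * (m + 1)) = B * (m * m) + B * m + B * (m + 1) := by ring
  rw [e1] at h
  have e2 : (M + 1) * (m * m) = M * (m * m) + m * m := by ring
  rw [e2]
  have k1 : B * a ≤ M * m := Nat.mul_le_mul h2 ham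
  have k2 : B * m ≤ M * m := Nat.mul_le_mul_right _ h2
  have k3 : 2 * M * m ≤ m * m := Nat.mul_le_mul_right _ h3
  have e3 : 2 * M * m = 2 * (M * m) := by ring
  rw [e3] at k3
  have k4 : a * a ≤ m * m := Nat.mul_le_mul ham ham
  rcases Nat.le_total s B with h4 | h4
  · have k5 : s * (a * a) ≤ B * (a * a) := Nat.mul_le_mul_right _ h4
    have k6 : B * (m * m) ≤ M * (m * m) := Nat.mul_le_mul_right _ h2
    omega
  · obtain ⟨r, rfl⟩ := Nat.exists_eq_add_of_le h4
    have k5 : r * (a * a) ≤ r * (m * m) := Nat.mul_le_mul_left _ k4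
    have k6 : (B + r) * (m * m) ≤ M * (m * m) := Nat.mul_le_mul_right _ h1
    rw [Nat.add_mul] at h k6
    omega

/-- from the bounds for the losses at squares and for the sums to the next scale -/
theorem emit {P : Par} {cW cL : ℕ → ℕ} (hs : SysQ P cW cL) {a b β β' sv : ℕ}
    (ha : 2 ^ 33 ≤ a) (hβ1 : β ≤ 2 ^ 30) (hβ2 : β' ≤ 2 ^ 30)
    (hβ : ∀ z, a ≤ z → z ≤ b → 10000000 * cL (z * z - 1) ≤ β * (z * z))
    (hβ' : ∀ z, b ≤ z → z ≤ 2 * b → 10000000 * cL (z * z - 1) ≤ β' * (z * z))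
    (hsv : ∀ m, a ≤ m → m < b → 10000000 * (∑ k ∈ Icc 1 m, cL (2 * k)) ≤ sv * (m * m)) :
    Seg cW cL (a * a) (b * b) (sv + 2 * max β β' + 1) (β + 1) := by
  intro x hx1 hx2
  set m := Nat.sqrt x with hm
  have m1 : m * m ≤ x := Nat.sqrt_le x
  have m2 : x < (m + 1) * (m + 1) := Nat.lt_succ_sqrt x
  have m3 : a ≤ m := by
    rw [hm, Nat.le_sqrt]
    exact hx1
  have m4 : m < b := by
    rw [hm, Nat.sqrt_lt]
    exact hx2
  have big : 2 ^ 33 * m ≤ x := (Nat.mul_le_mul_right m (ha.trans m3)).trans m1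
  constructor
  · -- wins
    have h1 := Nat.mul_le_mul_left 10000000 (hs.win x)
    have h2 := hsv m m3 m4
    set n := Nat.sqrt (2 * x) with hn
    have n1 : n * n ≤ 2 * x := Nat.sqrt_le _
    have n2 : 2 * x < (n + 1) * (n + 1) := Nat.lt_succ_sqrt _
    have n3 : m ≤ n := by
      rw [hn, Nat.le_sqrt]
      omega
    have n4 : n + 1 ≤ 2 * b := by
      have : n < 2 * b := by
        rw [hn, Nat.sqrt_lt]
        nlinarith
      omega
    have n5 : n ≤ 2 * m + 1 := by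
      by_contra hc
      push Not at hc
      have : (2 * m + 2) * (2 * m + 2) ≤ n * n := Nat.mul_le_mul hc hc
      nlinarith
    have h3 : 10000000 * cL ((n + 1) * (n + 1) - 1) ≤ max β β' * ((n + 1) * (n + 1)) := by
      rcases Nat.le_total (n + 1) b with h | h
      · exact (hβ (n + 1) (by omega) h).trans (Nat.mul_le_mul_right _ (le_max_left _ _))
      · exact (hβ' (n + 1) h n4).trans (Nat.mul_le_mul_right _ (le_max_right _ _))
    have h4 : cL (2 * x) ≤ cL ((n + 1) * (n + 1) - 1) := hs.monoL (by omega)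
    set γ := max β β' with hγ
    have hγ1 : γ ≤ 2 ^ 30 := max_le hβ1 hβ2
    have h5 : γ * ((n + 1) * (n + 1)) ≤ γ * (2 * x) + x := by
      have e1 : γ * ((n + 1) * (n + 1)) = γ * (n * n) + γ * (2 * n + 1) := by ring
      have e2 := Nat.mul_le_mul_left γ n1
      have e3 : γ * (2 * n + 1) ≤ 2 ^ 30 * (4 * m + 3) :=
        Nat.mul_le_mul hγ1 (by omega)
      rw [e1]
      omega
    have h6 := Nat.mul_le_mul_left sv m1
    rw [Nat.mul_add, ← hm] at h1
    have e : (sv + 2 * γ + 1) * x = sv * x + γ * (2 * x) + x := by ring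
    rw [e]
    omega
  · have h1 := hβ (m + 1) (by omega) (by omega)
    have h2 : cL x ≤ cL ((m + 1) * (m + 1) - 1) := hs.monoL (by omega)
    have h5 : β * ((m + 1) * (m + 1)) ≤ β * x + x := by
      have e1 : β * ((m + 1) * (m + 1)) = β * (m * m) + β * (2 * m + 1) := by ring
      have e2 := Nat.mul_le_mul_left β m1
      have e3 : β * (2 * m + 1) ≤ 2 ^ 30 * (2 * m + 1) := Nat.mul_le_mul_right _ hβ1
      rw [e1]
      omega
    have e : (β + 1) * x = β * x + x := by ring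
    rw [e]
    omega

/-! ## The program -/

/-- a guard -/
def gd (b : Bool) (x : Bool) : Bool := @Bool.rec (fun _ => Bool) false x b

theorem gd_true {b x : Bool} (h : gd b x = true) : b = true ∧ x = true := by
  cases b
  · exact absurd h (by simp [gd])
  · exact ⟨rfl, h⟩

/-- the maximum -/
def mx (a b : ℕ) : ℕ := @Bool.rec (fun _ => ℕ) a b (Nat.ble a b)

theorem mx_eq (a b : ℕ) : mx a b = max a b := by
  unfold mx
  cases h : Nat.ble a b with
  | true =>
    have h1 : a ≤ b := Nat.le_of_ble_eq_true h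
    exact (max_eq_right h1).symm
  | false =>
    have h1 : ¬ a ≤ b := by
      intro hc
      rw [Nat.ble_eq_true_of_le hc] at h
      exact absurd h (by simp)
    have h2 : b ≤ a := by omega
    exact (max_eq_left h2).symm

/-- the root of `a p² = b p + c`, approximately -/
def rt (a b c : ℕ) : ℕ :=
  frcN (@Nat.rec (fun _ => ℕ → ℕ) (fun p => p) (fun _ ih p => frcN (Nat.succ (Nat.div
    (Nat.add (Nat.mul a (Nat.mul p p)) c) (Nat.sub (Nat.mul 2 (Nat.mul a p)) b))) ih) 14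
    1000000) Nat.succ

/-- entries `(e, f, u, b)`: the bounds `u`, `b` on `[2^e, 2^f)` -/
abbrev Iv := ℕ × ℕ × ℕ × ℕ

/-- all intervals of the list are correct -/
def SegL (cW cL : ℕ → ℕ) (L : List Iv) : Prop :=
  ∀ s ∈ L, Seg cW cL (2 ^ s.1) (2 ^ s.2.1) s.2.2.1 s.2.2.2

/-- the sum below `2^T` and the losses just below `4^T` -/
def StF (cL : ℕ → ℕ) (T s β : ℕ) : Prop :=
  10000000 * (∑ k ∈ Icc 1 (2 ^ T - 1), cL (2 * k)) ≤ s * (2 ^ T * 2 ^ T) ∧
    ∀ z, 2 ^ T ≤ 2 * z → z < 2 ^ T → 10000000 * cL (z * z - 1) ≤ β * (z * z)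

/-- the facts about the interval `(E, F, sv, β)` which has been treated last -/
def PdF (cL : ℕ → ℕ) (Tc : ℕ) (pd : List Iv) : Prop :=
  ∀ t ∈ pd, t.2.1 = Tc ∧ 2 ^ 33 ≤ 2 ^ t.1 ∧ t.2.2.2 ≤ 2 ^ 30 ∧
    (∀ z, 2 ^ t.1 ≤ z → z ≤ 2 ^ t.2.1 →
      10000000 * cL (z * z - 1) ≤ t.2.2.2 * (z * z)) ∧
    (∀ m, 2 ^ t.1 ≤ m → m < 2 ^ t.2.1 →
      10000000 * (∑ k ∈ Icc 1 m, cL (2 * k)) ≤ t.2.2.1 * (m * m))

/-- the new interval -/
def newI (pd : List Iv) (β : ℕ) (out : List Iv) (k : List Iv → Bool) : Bool :=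
  @List.rec Iv (fun _ => Bool) (k out)
    (fun t _ _ => frc (Nat.mul 2 t.1) fun E => frc (Nat.mul 2 t.2.1) fun F =>
      frc (Nat.succ (Nat.add t.2.2.1 (Nat.mul 2 (mx t.2.2.2 β)))) fun u =>
      frc (Nat.succ t.2.2.2) fun b => k ((E, F, u, b) :: out)) pd

theorem two_pow_two (n : ℕ) : 2 ^ (2 * n) = 2 ^ n * 2 ^ n := by
  rw [two_mul, pow_add]

theorem newI_spec {P : Par} {cW cL : ℕ → ℕ} (hs : SysQ P cW cL) {Tc β : ℕ} {pd out : List Iv}
    {k : List Iv → Bool} (hpd : PdF cL Tc pd) (hout : SegL cW cL out) (hβ : β ≤ 2 ^ 30)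
    (hβ' : ∀ z, 2 ^ Tc ≤ z → z ≤ 2 * 2 ^ Tc → 10000000 * cL (z * z - 1) ≤ β * (z * z))
    (h : newI pd β out k = true) : ∃ out', SegL cW cL out' ∧ k out' = true := by
  cases pd with
  | nil => exact ⟨out, hout, h⟩
  | cons t l =>
    have h' : (frc (Nat.mul 2 t.1) fun E => frc (Nat.mul 2 t.2.1) fun F =>
      frc (Nat.succ (Nat.add t.2.2.1 (Nat.mul 2 (mx t.2.2.2 β)))) fun u =>
      frc (Nat.succ t.2.2.2) fun b => k ((E, F, u, b) :: out)) = true := h
    rw [frc_eq, frc_eq, frc_eq, frc_eq] at h'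
    refine ⟨_, ?_, h'⟩
    obtain ⟨p1, p2, p3, p4, p5⟩ := hpd t List.mem_cons_self
    intro s hs'
    rcases List.mem_cons.mp hs' with h1 | h1
    · rw [h1]
      have h2 := emit hs (a := 2 ^ t.1) (b := 2 ^ t.2.1) (β' := β) p2 p3 hβ p4
        (by rw [p1]; exact hβ') p5
      show Seg cW cL (2 ^ (2 * t.1)) (2 ^ (2 * t.2.1)) (t.2.2.1 + 2 * mx t.2.2.2 β + 1)
        (t.2.2.2 + 1)
      rw [two_pow_two, two_pow_two, mx_eq]
      exact h2
    · exact hout s h1

/-- the recursion over the intervals -/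
def levB (P : Par) (T : ℕ) (k : List Iv → ℕ → ℕ → Bool) (L : List Iv) :
    ℕ → ℕ → ℕ → List Iv → ℕ → ℕ → List Iv → Bool :=
  @List.rec Iv (fun _ => ℕ → ℕ → ℕ → List Iv → ℕ → ℕ → List Iv → Bool)
    (fun _ _ _ _ rs rb out => k out rs rb)
    (fun c L' ih Tc s βp pd rs rb out =>
      @List.rec Iv (fun _ => Bool) (k out rs rb)
        (fun n _ _ =>
          gd (Nat.beq c.1 Tc) <| gd (Nat.ble (Nat.succ c.1) c.2.1) <|
          gd (Nat.beq n.1 c.2.1) <| gd (Nat.ble (Nat.add c.2.1 2) n.2.1) <|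
          gd (Nat.ble 36 c.1) <|
          frc (mx c.2.2.1 n.2.2.1) fun U => frc (mx c.2.2.2 n.2.2.2) fun B =>
          frc (Nat.mul U (om P.w)) fun V =>
          frc (Nat.mul 10000000000000 P.q1) fun a1 =>
          frc (Nat.mul (Nat.mul V P.r1) 10000000) fun b1 =>
          frc (Nat.mul (Nat.mul 8 (Nat.mul V P.s1)) (Nat.mul B B)) fun c1 =>
          frc (rt a1 b1 c1) fun p => gd (Nat.ble 1 p) <|
          gd (Nat.ble (Nat.add (Nat.mul b1 p) c1) (Nat.mul a1 (Nat.pow p 2))) <|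
          frc (Nat.mul 10000000000000 P.q2) fun a2 =>
          frc (Nat.mul (Nat.mul 2 (Nat.mul V P.r2)) 10000000) fun b2 =>
          frc (Nat.mul (Nat.mul 8 (Nat.mul V P.s2)) (Nat.mul U U)) fun c2 =>
          frc (rt a2 b2 c2) fun t => gd (Nat.ble 1 t) <|
          gd (Nat.ble (Nat.add (Nat.mul b2 t) c2) (Nat.mul a2 (Nat.pow t 2))) <|
          frc (Nat.mul 1000000 (Nat.add p t)) fun pt =>
          frc (mx (Nat.succ (Nat.div (Nat.add (Nat.mul (up P.w) βp) pt) 1000000))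
            (Nat.succ (Nat.div pt (Nat.sub 1000000 (up P.w))))) fun β =>
          gd (Nat.ble (Nat.add (Nat.mul (up P.w) βp) pt) (Nat.mul 1000000 β)) <|
          gd (Nat.ble (Nat.add (Nat.mul (up P.w) β) pt) (Nat.mul 1000000 β)) <|
          gd (Nat.ble β 1073741824) <|
          frc (mx s B) fun m => gd (Nat.ble m 1073741824) <|
          frc (Nat.pow 4 (Nat.sub c.2.1 c.1)) fun d =>
          frc (Nat.succ (Nat.div (Nat.add s (Nat.mul B (Nat.sub d 1))) d)) fun s' =>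
          gd (Nat.ble (Nat.add s (Nat.mul B d)) (Nat.add (Nat.mul s' d) B)) <|
          newI pd β out fun out =>
          @Bool.rec (fun _ => Bool)
            (ih c.2.1 s' β ((c.1, c.2.1, Nat.succ m, β) :: []) rs rb out)
            (ih c.2.1 s' β ((c.1, c.2.1, Nat.succ m, β) :: []) s βp out)
            (Nat.beq c.1 T)) L') L

theorem levB_spec {P : Par} {cW cL : ℕ → ℕ} (hs : SysQ P cW cL) (q1 : 0 < P.q1)
    (q2 : 0 < P.q2) (hw : P.w = 1 ∨ P.w = 2) (hD : 2000000 * (P.D + 1) ≤ 2 ^ 36)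
    (hK0 : 2 * P.K0 ≤ 2 ^ 36) {T : ℕ} {k : List Iv → ℕ → ℕ → Bool} :
    ∀ (L : List Iv) (Tc s βp : ℕ) (pd : List Iv) (rs rb : ℕ) (out : List Iv),
    SegL cW cL L → StF cL Tc s βp → PdF cL Tc pd → StF cL T rs rb → SegL cW cL out →
    levB P T k L Tc s βp pd rs rb out = true →
    ∃ out' rs' rb', SegL cW cL out' ∧ StF cL T rs' rb' ∧ k out' rs' rb' = true := by
  intro L
  induction L with
  | nil => intro _ _ _ _ rs rb out _ _ _ hr ho ht; exact ⟨out, rs, rb, ho, hr, ht⟩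
  | cons c L' ih =>
    intro Tc s βp pd rs rb out hL hst hpd hr ho ht
    cases L' with
    | nil => exact ⟨out, rs, rb, ho, hr, ht⟩
    | cons n L'' =>
      have ht0 : (gd (Nat.beq c.1 Tc) <| gd (Nat.ble (Nat.succ c.1) c.2.1) <|
          gd (Nat.beq n.1 c.2.1) <| gd (Nat.ble (Nat.add c.2.1 2) n.2.1) <|
          gd (Nat.ble 36 c.1) <|
          frc (mx c.2.2.1 n.2.2.1) fun U => frc (mx c.2.2.2 n.2.2.2) fun B =>
          frc (Nat.mul U (om P.w)) fun V =>
          frc (Nat.mul 10000000000000 P.q1) fun a1 =>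
          frc (Nat.mul (Nat.mul V P.r1) 10000000) fun b1 =>
          frc (Nat.mul (Nat.mul 8 (Nat.mul V P.s1)) (Nat.mul B B)) fun c1 =>
          frc (rt a1 b1 c1) fun p => gd (Nat.ble 1 p) <|
          gd (Nat.ble (Nat.add (Nat.mul b1 p) c1) (Nat.mul a1 (Nat.pow p 2))) <|
          frc (Nat.mul 10000000000000 P.q2) fun a2 =>
          frc (Nat.mul (Nat.mul 2 (Nat.mul V P.r2)) 10000000) fun b2 =>
          frc (Nat.mul (Nat.mul 8 (Nat.mul V P.s2)) (Nat.mul U U)) fun c2 =>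
          frc (rt a2 b2 c2) fun t => gd (Nat.ble 1 t) <|
          gd (Nat.ble (Nat.add (Nat.mul b2 t) c2) (Nat.mul a2 (Nat.pow t 2))) <|
          frc (Nat.mul 1000000 (Nat.add p t)) fun pt =>
          frc (mx (Nat.succ (Nat.div (Nat.add (Nat.mul (up P.w) βp) pt) 1000000))
            (Nat.succ (Nat.div pt (Nat.sub 1000000 (up P.w))))) fun β =>
          gd (Nat.ble (Nat.add (Nat.mul (up P.w) βp) pt) (Nat.mul 1000000 β)) <|
          gd (Nat.ble (Nat.add (Nat.mul (up P.w) β) pt) (Nat.mul 1000000 β)) <|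
          gd (Nat.ble β 1073741824) <|
          frc (mx s B) fun m => gd (Nat.ble m 1073741824) <|
          frc (Nat.pow 4 (Nat.sub c.2.1 c.1)) fun d =>
          frc (Nat.succ (Nat.div (Nat.add s (Nat.mul B (Nat.sub d 1))) d)) fun s' =>
          gd (Nat.ble (Nat.add s (Nat.mul B d)) (Nat.add (Nat.mul s' d) B)) <|
          newI pd β out fun out =>
          @Bool.rec (fun _ => Bool)
            (levB P T k (n :: L'') c.2.1 s' β ((c.1, c.2.1, Nat.succ m, β) :: []) rs rb out)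
            (levB P T k (n :: L'') c.2.1 s' β ((c.1, c.2.1, Nat.succ m, β) :: []) s βp out)
            (Nat.beq c.1 T)) = true := ht
      obtain ⟨g1, ht1⟩ := gd_true ht0
      obtain ⟨g2, ht2⟩ := gd_true ht1
      obtain ⟨g3, ht3⟩ := gd_true ht2
      obtain ⟨g4, ht4⟩ := gd_true ht3
      obtain ⟨g5, ht5⟩ := gd_true ht4
      rw [frc_eq, frc_eq, frc_eq, frc_eq, frc_eq, frc_eq, frc_eq] at ht5
      rw [mx_eq, mx_eq] at ht5
      set U := max c.2.2.1 n.2.2.1 with hU
      set B := max c.2.2.2 n.2.2.2 with hB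
      set p := rt (Nat.mul 10000000000000 P.q1) (Nat.mul (Nat.mul (Nat.mul U (om P.w)) P.r1)
        10000000) (Nat.mul (Nat.mul 8 (Nat.mul (Nat.mul U (om P.w)) P.s1)) (Nat.mul B B))
        with hp
      obtain ⟨g6, ht6⟩ := gd_true ht5
      obtain ⟨g7, ht7⟩ := gd_true ht6
      rw [frc_eq, frc_eq, frc_eq, frc_eq] at ht7
      set t := rt (Nat.mul 10000000000000 P.q2) (Nat.mul (Nat.mul 2 (Nat.mul (Nat.mul U
        (om P.w)) P.r2)) 10000000) (Nat.mul (Nat.mul 8 (Nat.mul (Nat.mul U (om P.w)) P.s2))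
        (Nat.mul U U)) with htt
      obtain ⟨g8, ht8⟩ := gd_true ht7
      obtain ⟨g9, ht9⟩ := gd_true ht8
      rw [frc_eq, frc_eq] at ht9
      set β := mx (Nat.succ (Nat.div (Nat.add (Nat.mul (up P.w) βp)
        (Nat.mul 1000000 (Nat.add p t))) 1000000))
        (Nat.succ (Nat.div (Nat.mul 1000000 (Nat.add p t)) (Nat.sub 1000000 (up P.w)))) with hβ
      obtain ⟨g10, ht10⟩ := gd_true ht9
      obtain ⟨g11, ht11⟩ := gd_true ht10
      obtain ⟨g12, ht12⟩ := gd_true ht11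
      rw [frc_eq, mx_eq] at ht12
      obtain ⟨g13, ht13⟩ := gd_true ht12
      rw [frc_eq, frc_eq] at ht13
      set d := Nat.pow 4 (Nat.sub c.2.1 c.1) with hd
      set s' := Nat.succ (Nat.div (Nat.add s (Nat.mul B (Nat.sub d 1))) d) with hs'
      obtain ⟨g14, ht14⟩ := gd_true ht13
      clear_value p t β s'
      have i1 : c.1 = Tc := Nat.eq_of_beq_eq_true g1
      have i2 : c.1 + 1 ≤ c.2.1 := Nat.le_of_ble_eq_true g2
      have i3 : n.1 = c.2.1 := Nat.eq_of_beq_eq_true g3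
      have i4 : c.2.1 + 2 ≤ n.2.1 := Nat.le_of_ble_eq_true g4
      have i5 : 36 ≤ c.1 := Nat.le_of_ble_eq_true g5
      have i12 : β ≤ 2 ^ 30 := Nat.le_of_ble_eq_true g12
      have i13 : max s B ≤ 2 ^ 30 := Nat.le_of_ble_eq_true g13
      have i14 : s + B * d ≤ s' * d + B := Nat.le_of_ble_eq_true g14
      have hc := hL c List.mem_cons_self
      have hn := hL n (List.mem_cons_of_mem _ List.mem_cons_self)
      have p36 : 2 ^ 36 ≤ 2 ^ c.1 := Nat.pow_le_pow_right (by norm_num) i5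
      have pn : 4 * 2 ^ c.2.1 ≤ 2 ^ n.2.1 := by
        calc 4 * 2 ^ c.2.1 = 2 ^ (c.2.1 + 2) := by rw [pow_add]; ring
          _ ≤ 2 ^ n.2.1 := Nat.pow_le_pow_right (by norm_num) i4
      have pab : 2 * 2 ^ c.1 ≤ 2 ^ c.2.1 := by
        calc 2 * 2 ^ c.1 = 2 ^ (c.1 + 1) := by rw [pow_add]; ring
          _ ≤ 2 ^ c.2.1 := Nat.pow_le_pow_right (by norm_num) i2
      have seg : Seg cW cL (2 ^ c.1) (4 * 2 ^ c.2.1) U B := by
        intro x x1 x2
        rcases Nat.lt_or_ge x (2 ^ c.2.1) with h | h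
        · obtain ⟨y1, y2⟩ := hc x x1 h
          exact ⟨y1.trans (Nat.mul_le_mul_right _ (le_max_left _ _)),
            y2.trans (Nat.mul_le_mul_right _ (le_max_left _ _))⟩
        · obtain ⟨y1, y2⟩ := hn x (by rw [i3]; exact h) (by omega)
          exact ⟨y1.trans (Nat.mul_le_mul_right _ (le_max_right _ _)),
            y2.trans (Nat.mul_le_mul_right _ (le_max_right _ _))⟩
      rw [← i1] at hst hpd
      have hbeta := beta_interval hs q1 q2 hw (a := 2 ^ c.1) (b := 2 ^ c.2.1) (U := U)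
        (B := B) (p := p) (t := t) (β0 := βp) (β := β) (hD.trans p36) (hK0.trans p36) seg
        (Nat.le_of_ble_eq_true g6) (Nat.le_of_ble_eq_true g8) (Nat.le_of_ble_eq_true g7)
        (Nat.le_of_ble_eq_true g9) (Nat.le_of_ble_eq_true g10) (Nat.le_of_ble_eq_true g11)
        hst.2
      have hsum := sum_interval (a := 2 ^ c.1) (b := 2 ^ c.2.1) (B := B)
        (Nat.one_le_pow _ _ (by norm_num)) hst.1
        (fun k k1 k2 => (seg (2 * k) (by omega) (by omega)).2)
      have hsv : ∀ m, 2 ^ c.1 ≤ m → m < 2 ^ c.2.1 →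
          10000000 * (∑ k ∈ Icc 1 m, cL (2 * k)) ≤ (max s B + 1) * (m * m) := by
        intro m m1 m2
        have := hsum (m + 1) (by omega) (by omega)
        rw [Nat.add_sub_cancel] at this
        refine sv_num this (le_max_left _ _) (le_max_right _ _) m1 ?_
        have : 2 ^ 36 ≤ m := p36.trans m1
        omega
      have hb2 : 2 ^ c.2.1 * 2 ^ c.2.1 = d * (2 ^ c.1 * 2 ^ c.1) := by
        have e1 : d = 4 ^ (c.2.1 - c.1) := rfl
        rw [e1, ← two_pow_two, ← two_pow_two, show (4 : ℕ) = 2 ^ 2 by norm_num, ← pow_mul,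
          ← pow_add]
        congr 1
        omega
      have hst' : StF cL c.2.1 s' β := by
        constructor
        · have h5 := hsum (2 ^ c.2.1) (by omega) le_rfl
          have h6 := Nat.mul_le_mul_right (2 ^ c.1 * 2 ^ c.1) i14
          rw [Nat.add_mul, Nat.add_mul, Nat.mul_assoc, Nat.mul_assoc, ← hb2] at h6
          have h7 : B * 2 ^ c.1 ≤ B * 2 ^ c.2.1 := Nat.mul_le_mul_left _ (by omega)
          omega
        · intro z z1 z2
          exact hbeta z (by omega) z2.le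
      have hpd' : PdF cL c.2.1 ((c.1, c.2.1, Nat.succ (max s B), β) :: []) := by
        intro u hu
        rcases List.mem_cons.mp hu with h | h
        · rw [h]
          exact ⟨rfl, (Nat.pow_le_pow_right (by norm_num) (by norm_num)).trans p36, i12,
            hbeta, hsv⟩
        · simp at h
      obtain ⟨out', o1, o2⟩ := newI_spec hs hpd ho i12
        (fun z z1 z2 => hbeta z z1 (by omega)) ht14
      have hL'' : SegL cW cL (n :: L'') := fun s hs' => hL s (List.mem_cons_of_mem _ hs')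
      cases hT : Nat.beq c.1 T with
      | true =>
        rw [hT] at o2
        have hT' : c.1 = T := Nat.eq_of_beq_eq_true hT
        rw [hT'] at hst
        exact ih c.2.1 s' β _ s βp out' hL'' hst' hpd' hst o1 o2
      | false =>
        rw [hT] at o2
        exact ih c.2.1 s' β _ rs rb out' hL'' hst' hpd' hr o1 o2

/-- reverse -/
def revI (k : List Iv → Bool) (l : List Iv) : List Iv → Bool :=
  @List.rec Iv (fun _ => List Iv → Bool) k (fun t _ ih out => ih (t :: out)) l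

theorem revI_spec {cW cL : ℕ → ℕ} {k : List Iv → Bool} : ∀ {l out : List Iv},
    SegL cW cL l → SegL cW cL out → revI k l out = true →
    ∃ out', SegL cW cL out' ∧ k out' = true := by
  intro l
  induction l with
  | nil => intro out _ ho h; exact ⟨out, ho, h⟩
  | cons t l ih =>
    intro out hl ho h
    refine ih (fun s hs => hl s (List.mem_cons_of_mem _ hs)) ?_
      (show revI k l (t :: out) = true from h)
    intro s hs
    rcases List.mem_cons.mp hs with h1 | h1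
    · rw [h1]; exact hl t List.mem_cons_self
    · exact ho s h1

/-- `n` levels -/
def lvls (P : Par) (fin : List Iv → Bool) (n : ℕ) : List Iv → ℕ → ℕ → ℕ → Bool :=
  @Nat.rec (fun _ => List Iv → ℕ → ℕ → ℕ → Bool) (fun L _ _ _ => fin L)
    (fun _ ih L Tc s β => frc (Nat.mul 2 Tc) fun T =>
      levB P T (fun out rs rb => revI (fun L' => ih L' T rs rb) out [])
        L Tc s β [] 10000000 10000000 []) n

theorem stF_triv {P : Par} {cW cL : ℕ → ℕ} (hs : SysQ P cW cL) (T : ℕ) :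
    StF cL T 10000000 10000000 := by
  constructor
  · exact Nat.mul_le_mul_left _ (sum_triv hs.leL (2 ^ T))
  · intro z z1 _
    refine Nat.mul_le_mul_left _ ((hs.leL _).trans ?_)
    have h1 : 1 ≤ 2 ^ T := Nat.one_le_pow _ _ (by norm_num)
    have h2 : 1 ≤ z * z := Nat.mul_pos (by omega) (by omega)
    omega

theorem lvls_spec {P : Par} {cW cL : ℕ → ℕ} (hs : SysQ P cW cL) (q1 : 0 < P.q1)
    (q2 : 0 < P.q2) (hw : P.w = 1 ∨ P.w = 2) (hD : 2000000 * (P.D + 1) ≤ 2 ^ 36)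
    (hK0 : 2 * P.K0 ≤ 2 ^ 36) {fin : List Iv → Bool} : ∀ (n : ℕ) (L : List Iv) (Tc s β : ℕ),
    SegL cW cL L → StF cL Tc s β → lvls P fin n L Tc s β = true →
    ∃ L', SegL cW cL L' ∧ fin L' = true := by
  intro n
  induction n with
  | zero => intro L _ _ _ hL _ h; exact ⟨L, hL, h⟩
  | succ n ih =>
    intro L Tc s β hL hst h
    have h' : (frc (Nat.mul 2 Tc) fun T =>
      levB P T (fun out rs rb => revI (fun L' => lvls P fin n L' T rs rb) out [])
        L Tc s β [] 10000000 10000000 []) = true := h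
    rw [frc_eq] at h'
    have nilS : SegL cW cL [] := by intro t ht; simp at ht
    obtain ⟨out, rs, rb, o1, o2, o3⟩ := levB_spec hs q1 q2 hw hD hK0 L Tc s β [] _ _ [] hL hst
      (by intro t ht; simp at ht) (stF_triv hs _) nilS h'
    obtain ⟨L', l1, l2⟩ := revI_spec o1 nilS o3
    exact ih L' _ rs rb l1 o2 l2

/-! ## The final check -/

/-- `c ≤ (u / 10⁷) max(x, √(x M))` -/
theorem real7 {u M x c : ℕ} (h : 10000000 * c ≤ u * x ∨
    100000000000000 * (c * c) ≤ (u * u) * (x * M)) :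
    (c : ℝ) ≤ (u : ℝ) / 10000000 * max (x : ℝ) (Real.sqrt ((x : ℝ) * M)) := by
  rcases h with h | h
  · have h1 : (10000000 : ℝ) * c ≤ u * x := by exact_mod_cast h
    have h2 : (x : ℝ) ≤ max (x : ℝ) (Real.sqrt ((x : ℝ) * M)) := le_max_left _ _
    have h3 : (u : ℝ) * x ≤ u * max (x : ℝ) (Real.sqrt ((x : ℝ) * M)) :=
      mul_le_mul_of_nonneg_left h2 (Nat.cast_nonneg u)
    linarith
  · have h1 : (100000000000000 : ℝ) * (c * c) ≤ (u * u) * (x * M) := by exact_mod_cast h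
    have h2 : Real.sqrt ((x : ℝ) * M) ≤ max (x : ℝ) (Real.sqrt ((x : ℝ) * M)) := le_max_right _ _
    have h3 : (u : ℝ) * Real.sqrt ((x : ℝ) * M) ≤
      u * max (x : ℝ) (Real.sqrt ((x : ℝ) * M)) :=
      mul_le_mul_of_nonneg_left h2 (Nat.cast_nonneg u)
    have h4 : (10000000 : ℝ) * c ≤ u * Real.sqrt ((x : ℝ) * M) := by
      have h5 : (u : ℝ) * Real.sqrt ((x : ℝ) * M) = Real.sqrt ((u * u) * (x * M)) := by
        rw [Real.sqrt_mul (show (0 : ℝ) ≤ (u : ℝ) * u by positivity),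
          Real.sqrt_mul_self (Nat.cast_nonneg u)]
      rw [h5]
      apply Real.le_sqrt_of_sq_le
      nlinarith
    linarith

/-- the bound `v` on an interval ending at `2^f` is good enough -/
def okV (u a v f : ℕ) : Bool :=
  @Bool.rec (fun _ => Bool)
    (Nat.ble (Nat.mul (Nat.mul v v) (Nat.pow 2 f)) (Nat.mul (Nat.mul u u) (Nat.pow 2 a)))
    true (Nat.ble v u)

theorem okV_spec {u a v f x c : ℕ} (h : okV u a v f = true) (hx : x < 2 ^ f)
    (hc : 10000000 * c ≤ v * x) : 10000000 * c ≤ u * x ∨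
    100000000000000 * (c * c) ≤ (u * u) * (x * 2 ^ a) := by
  unfold okV at h
  cases hb : Nat.ble v u with
  | true =>
    exact Or.inl (hc.trans (Nat.mul_le_mul_right _ (Nat.le_of_ble_eq_true hb)))
  | false =>
    rw [hb] at h
    have h1 : v * v * 2 ^ f ≤ u * u * 2 ^ a := Nat.le_of_ble_eq_true h
    refine Or.inr ?_
    calc 100000000000000 * (c * c) = (10000000 * c) * (10000000 * c) := by ring
      _ ≤ (v * x) * (v * x) := Nat.mul_le_mul hc hc
      _ = v * v * x * x := by ring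
      _ ≤ v * v * 2 ^ f * x := by gcongr
      _ ≤ u * u * 2 ^ a * x := Nat.mul_le_mul_right _ h1
      _ = _ := by ring

/-- the two bounds at `x` -/
def Good7 (cW cL : ℕ → ℕ) (u b a x : ℕ) : Prop :=
  (10000000 * cW x ≤ u * x ∨ 100000000000000 * (cW x * cW x) ≤ (u * u) * (x * 2 ^ a)) ∧
  (10000000 * cL x ≤ b * x ∨ 100000000000000 * (cL x * cL x) ≤ (b * b) * (x * 2 ^ a))

/-- the check of all intervals, `T` is the exponent which has been reached -/
def finI (u b a c : ℕ) (L : List Iv) : ℕ → Bool :=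
  @List.rec Iv (fun _ => ℕ → Bool) (fun T => Nat.ble (Nat.succ c) T)
    (fun s _ ih T => gd (Nat.beq s.1 T) <| gd (okV u a s.2.2.1 s.2.1) <|
      gd (okV b a s.2.2.2 s.2.1) (ih s.2.1)) L

theorem finI_spec {cW cL : ℕ → ℕ} {u b a c : ℕ} : ∀ (L : List Iv) (T : ℕ), SegL cW cL L →
    finI u b a c L T = true → ∀ x, 2 ^ T ≤ x → x ≤ 2 ^ c → Good7 cW cL u b a x := by
  intro L
  induction L with
  | nil =>
    intro T _ h x h1 h2
    have h3 : c + 1 ≤ T := Nat.le_of_ble_eq_true h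
    have h4 : 2 ^ c < 2 ^ T := Nat.pow_lt_pow_right (by norm_num) h3
    omega
  | cons s L ih =>
    intro T hL h x h1 h2
    have h' : (gd (Nat.beq s.1 T) <| gd (okV u a s.2.2.1 s.2.1) <|
      gd (okV b a s.2.2.2 s.2.1) (finI u b a c L s.2.1)) = true := h
    obtain ⟨g1, h3⟩ := gd_true h'
    obtain ⟨g2, h4⟩ := gd_true h3
    obtain ⟨g3, h5⟩ := gd_true h4
    have e : s.1 = T := Nat.eq_of_beq_eq_true g1
    rcases Nat.lt_or_ge x (2 ^ s.2.1) with h6 | h6
    · obtain ⟨y1, y2⟩ := hL s List.mem_cons_self x (by rw [e]; exact h1) h6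
      exact ⟨okV_spec g2 h6 y1, okV_spec g3 h6 y2⟩
    · exact ih s.2.1 (fun t ht => hL t (List.mem_cons_of_mem _ ht)) h5 x h6 h2

/-- the final check -/
def finB (u b a c : ℕ) (L : List Iv) : Bool :=
  @List.rec Iv (fun _ => Bool) false (fun s _ _ =>
    gd (Nat.ble (Nat.mul 100000000000000 (Nat.add (Nat.pow 2 s.1) 3))
      (Nat.mul (Nat.mul u u) (Nat.pow 2 a))) <|
    gd (Nat.ble (Nat.mul 100000000000000 (Nat.add (Nat.pow 2 s.1) 3))
      (Nat.mul (Nat.mul b b) (Nat.pow 2 a))) (finI u b a c L s.1)) L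

theorem finB_spec {P : Par} {cW cL : ℕ → ℕ} (hs : SysQ P cW cL) {u b a c : ℕ} {L : List Iv}
    (hL : SegL cW cL L) (h : finB u b a c L = true) :
    ValidF cW cL (2 ^ a) (2 ^ c) ((u : ℝ) / 10000000) ((b : ℝ) / 10000000) := by
  cases L with
  | nil => exact absurd h (by simp [finB])
  | cons s L =>
    have h' : (gd (Nat.ble (Nat.mul 100000000000000 (Nat.add (Nat.pow 2 s.1) 3))
        (Nat.mul (Nat.mul u u) (Nat.pow 2 a))) <|
      gd (Nat.ble (Nat.mul 100000000000000 (Nat.add (Nat.pow 2 s.1) 3))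
        (Nat.mul (Nat.mul b b) (Nat.pow 2 a))) (finI u b a c (s :: L) s.1)) = true := h
    obtain ⟨g1, h1⟩ := gd_true h'
    obtain ⟨g2, h2⟩ := gd_true h1
    have g1' : 100000000000000 * (2 ^ s.1 + 3) ≤ u * u * 2 ^ a := Nat.le_of_ble_eq_true g1
    have g2' : 100000000000000 * (2 ^ s.1 + 3) ≤ b * b * 2 ^ a := Nat.le_of_ble_eq_true g2
    intro x hx hx'
    have good : Good7 cW cL u b a x := by
      rcases Nat.lt_or_ge x (2 ^ s.1) with h3 | h3
      · constructor
        · refine Or.inr ?_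
          have e1 := hs.leW x
          have e2 := Nat.mul_le_mul e1 e1
          have e3 := Nat.mul_le_mul_right x g1'
          have e4 : x * x ≤ 2 ^ s.1 * x := Nat.mul_le_mul_right _ h3.le
          nlinarith
        · refine Or.inr ?_
          have e1 := hs.leL x
          have e2 := Nat.mul_le_mul e1 e1
          have e3 := Nat.mul_le_mul_right x g2'
          have e4 : x * x ≤ 2 ^ s.1 * x := Nat.mul_le_mul_right _ h3.le
          nlinarith
      · exact finI_spec _ _ hL h2 x h3 hx'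
    refine ⟨?_, ?_⟩
    · have := real7 good.1
      push_cast at this ⊢
      exact this
    · have := real7 good.2
      push_cast at this ⊢
      exact this

/-! ## Both parts together -/

/-- The levels after the grid: `I` are the intervals of the grid, beginning at `2^e`; the entry
for `[2^(2e-2), 2^(2e))` gives the losses just below `4^e`. -/
theorem validF_of_levels {P : Par} {cW cL : ℕ → ℕ} (hs : SysQ P cW cL) (q1 : 0 < P.q1)
    (q2 : 0 < P.q2) (hw : P.w = 1 ∨ P.w = 2) (hD : 2000000 * (P.D + 1) ≤ 2 ^ 36)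
    (hK0 : 2 * P.K0 ≤ 2 ^ 36) {I : List Iv} (hI : SegL cW cL I) {e s β n u b a c : ℕ}
    (he : 1 ≤ e) (hs0 : 10000000 * (∑ k ∈ Icc 1 (2 ^ e - 1), cL (2 * k)) ≤ s * (2 ^ e * 2 ^ e))
    {v : ℕ} (hβ : (2 * e - 2, 2 * e, v, β) ∈ I)
    (h : lvls P (finB u b a c) n I e s β = true) :
    ValidF cW cL (2 ^ a) (2 ^ c) ((u : ℝ) / 10000000) ((b : ℝ) / 10000000) := by
  have hst : StF cL e s β := by
    refine ⟨hs0, ?_⟩
    intro z z1 z2
    have h1 := (hI _ hβ (z * z) ?_ ?_).2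
    · exact (Nat.mul_le_mul_left _ (hs.monoL (Nat.sub_le _ _))).trans h1
    · have h2 : 2 ^ e = 2 * 2 ^ (e - 1) := by
        rw [← pow_succ']
        congr 1
        omega
      have h3 : 2 ^ (e - 1) ≤ z := by omega
      show 2 ^ (2 * e - 2) ≤ z * z
      rw [show 2 * e - 2 = 2 * (e - 1) by omega, two_pow_two]
      exact Nat.mul_le_mul h3 h3
    · show z * z < 2 ^ (2 * e)
      rw [two_pow_two]
      exact Nat.mul_lt_mul'' z2 z2
  obtain ⟨L, l1, l2⟩ := lvls_spec hs q1 q2 hw hD hK0 n I e s β hI hst h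
  exact finB_spec hs l1 l2

end Pool.Agent.AddSq.GA
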