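import Pool.Agent.AddSq.GridRunS
import Pool.Agent.AddSq.GridS

/-!
# The start of the flat recursion, all scales, narrow windows, data up to `2 ^ 24`
-/

namespace Pool.Agent.AddSq

/-- The start of the flat recursion on `[M, 32 M²]`, `M = 2 ^ 2049`, from the system with narrow
windows and the bounds for the numbers of lost positions below `2 ^ 48`. -/
theorem start_denseS {cW cL : ℕ → ℕ}
    (hs : SysN 170 (157579 / 3901 ^ 2) (3083842 / 3901 ^ 2) (92808 / 2270 ^ 2)
      (917424 / 2270 ^ 2) 8000000 cW cL)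
    (h1 : ∀ p ∈ Fa.kd, 1 ≤ p.1 ∧ cL (p.1 * p.1 - 1) ≤ p.2)
    (h2 : ∀ p ∈ Cor.corrListS, 1 ≤ p.1 ∧ cL (p.1 * p.1 - 1) ≤ p.2) :
    ValidF cW cL (2 ^ 2049) (32 * 2 ^ 4099) 0.0055 0.0018 := by
  have hq : GA.SysQ GA.parS cW cL :=
    GA.sysQ_of_sysN hs (by decide) (by decide) (by decide) (by norm_num [GA.parS])
      (by norm_num [GA.parS]) (by norm_num [GA.parS]) (by norm_num [GA.parS])
  have h3 := GA.startS hq (by
    intro p hp
    rcases List.mem_append.mp hp with h | h
    · exact h1 p h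
    · exact h2 p h)
  have e1 : (2 : ℕ) ^ 4104 = 32 * 2 ^ 4099 := by
    rw [show 4104 = 5 + 4099 by norm_num, pow_add]
    norm_num
  have e2 : (((55000 : ℕ) : ℝ) / 10000000) = 0.0055 := by norm_num
  have e3 : (((18000 : ℕ) : ℝ) / 10000000) = 0.0018 := by norm_num
  rw [e1, e2, e3] at h3
  exact h3

end Pool.Agent.AddSq
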