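import Pool.Agent.AddSq.GridB
import Pool.Agent.AddSq.FKDat
import Pool.Agent.AddSq.CorrList

/-!
# The grid and the levels: the computations
-/

namespace Pool.Agent.AddSq.GA

set_option maxRecDepth 100000

/-- the constants of the system -/
def parS : Par := ⟨170, 15217801, 157579, 3083842, 5152900, 92808, 917424, 8000000, 1⟩

/-- density bounds (in units `10⁻⁷`) on the intervals `[2^e, 2^f)` -/
def intS : List Iv := [
    (36, 38, 80414, 2613), (38, 40, 96496, 26326), (40, 42, 95573, 28716), (42, 44, 83457, 27884),
    (44, 46, 68681, 23364), (46, 48, 102227, 18414), (48, 50, 114955, 47172),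
    (50, 52, 113225, 48168), (52, 54, 101459, 45627), (54, 56, 86115, 39983),
    (56, 58, 72939, 33797), (58, 60, 61899, 28830), (60, 62, 53022, 24638),
    (62, 64, 45221, 21207), (64, 66, 38690, 18209), (66, 68, 33067, 15591),
    (68, 70, 28235, 13363), (70, 72, 26124, 11400), (72, 74, 37692, 14477),
    (74, 76, 52294, 20486), (76, 78, 66377, 23295), (78, 80, 70613, 23478),
    (80, 82, 70597, 22994), (82, 84, 67945, 21143), (84, 86, 62222, 18731),
    (86, 88, 55700, 16339), (88, 90, 49121, 14176), (90, 92, 53328, 13421),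
    (92, 94, 69680, 22747), (94, 96, 93356, 30133), (96, 98, 107543, 33119),
    (98, 100, 109848, 33327), (100, 102, 109346, 32594), (102, 104, 104630, 30337),
    (104, 106, 96830, 27422), (106, 108, 88414, 24463), (108, 110, 80119, 21715),
    (110, 112, 72445, 19277), (112, 114, 65609, 17127), (114, 116, 59484, 15222),
    (116, 118, 53998, 13580), (118, 120, 49145, 12121), (120, 122, 44830, 10824),
    (122, 124, 40849, 9673), (124, 126, 37239, 8657), (126, 128, 33983, 7740),
    (128, 130, 31017, 6928), (130, 132, 28293, 6195), (132, 134, 25811, 5527),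
    (134, 136, 23566, 4938), (136, 138, 21544, 4415), (138, 140, 19987, 4020),
    (140, 142, 19927, 4150), (142, 144, 22666, 5068), (144, 146, 27516, 6523),
    (146, 148, 34231, 8267), (148, 150, 41858, 10471), (150, 152, 48466, 12722),
    (152, 154, 52957, 14512), (154, 156, 55128, 15611), (156, 158, 55466, 16007),
    (158, 160, 55321, 16021), (160, 162, 54021, 15837), (162, 164, 51764, 15269),
    (164, 166, 48918, 14454), (166, 168, 45772, 13506), (168, 170, 42542, 12504),
    (170, 172, 39363, 11514)]

/-- The grid is accepted. -/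
theorem gridS : runA parS 1061274259 476355873 16777216
    [(1003998, 3644), (1003998, 7288)]
    36 2512 intS (Fa.kd ++ Cor.corrListS) = true := by
  decide +kernel

/-- The levels are accepted. -/
theorem levelsS : lvls parS (finB 55000 18000 2049 4104) 5 intS 36 2512 11400 = true := by
  decide +kernel

theorem memS : (2 * 36 - 2, 2 * 36, 26124, 11400) ∈ intS := by decide +kernel

/-- Density bounds at all large scales up to `2 ^ 4104`. -/
theorem startS {cW cL : ℕ → ℕ} (hs : SysQ parS cW cL)
    (hd : ∀ p ∈ Fa.kd ++ Cor.corrListS, 1 ≤ p.1 ∧ cL (p.1 * p.1 - 1) ≤ p.2) :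
    ValidF cW cL (2 ^ 2049) (2 ^ 4104) (((55000 : ℕ) : ℝ) / 10000000)
      (((18000 : ℕ) : ℝ) / 10000000) := by
  obtain ⟨h1, h2⟩ := runA_spec hs (by decide) (by decide) (by decide) hd gridS
  exact validF_of_levels hs (by decide) (by decide) (by decide) (by decide +kernel)
    (by decide +kernel) h2 (by norm_num) h1 memS levelsS

end Pool.Agent.AddSq.GA
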