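import Pool.Agent.AddSq.GridB
import Pool.Agent.AddSq.FKDat
import Pool.Agent.AddSq.CorrList

/-!
# The grid and the levels: the computations
-/

namespace Pool.Agent.AddSq.GA

set_option maxRecDepth 100000

/-- the constants of the system -/
def parW : Par := ⟨170, 4280761, 75153, 1248088, 4297329, 67213, 1406598, 20000000, 2⟩

/-- density bounds (in units `10⁻⁷`) on the intervals `[2^e, 2^f)` -/
def intW : List Iv := [
    (36, 38, 80414, 2613), (38, 40, 96496, 26326), (40, 42, 95573, 28716), (42, 44, 83457, 27884),
    (44, 46, 68681, 23364), (46, 48, 56581, 18414), (48, 50, 110385, 38083),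
    (50, 52, 111701, 47052), (52, 54, 106068, 46946), (54, 56, 92070, 42979),
    (56, 58, 79034, 37021), (58, 60, 67327, 31635), (60, 62, 57641, 27154),
    (62, 64, 49452, 23399), (64, 66, 42340, 20101), (66, 68, 36161, 17283),
    (68, 70, 30893, 14785), (70, 72, 29276, 12654), (72, 74, 42503, 16606),
    (74, 76, 57018, 23091), (76, 78, 70538, 25591), (78, 80, 74269, 25656),
    (80, 82, 74177, 24904), (82, 84, 70944, 22770), (84, 86, 64786, 20146),
    (86, 88, 57957, 17556), (88, 90, 51055, 15203), (90, 92, 44654, 13133),
    (92, 94, 51123, 12073), (94, 96, 68299, 23515), (96, 98, 94303, 31033),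
    (98, 100, 107357, 34106), (100, 102, 110927, 34523), (102, 104, 110318, 33939),
    (104, 106, 106523, 31594), (106, 108, 99004, 28683), (108, 110, 90708, 25828),
    (110, 112, 82719, 23026), (112, 114, 75179, 20520), (114, 116, 68257, 18315),
    (116, 118, 62072, 16355), (118, 120, 56526, 14626), (120, 122, 51528, 13101),
    (122, 124, 46986, 11715), (124, 126, 42845, 10481), (126, 128, 39135, 9380),
    (128, 130, 35674, 8403), (130, 132, 32550, 7516), (132, 134, 29666, 6710),
    (134, 136, 27066, 6000), (136, 138, 24749, 5374), (138, 140, 22995, 4897),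
    (140, 142, 23718, 5221), (142, 144, 27329, 6627), (144, 146, 33540, 8471),
    (146, 148, 41463, 10573), (148, 150, 49751, 13057), (150, 152, 56583, 15508),
    (152, 154, 61007, 17396), (154, 156, 62904, 18463), (156, 158, 63074, 18764),
    (158, 160, 62678, 18761), (160, 162, 60902, 18422), (162, 164, 58126, 17681),
    (164, 166, 54737, 16677), (166, 168, 51161, 15543), (168, 170, 47465, 14375),
    (170, 172, 43870, 13212), (172, 174, 40412, 12091), (174, 176, 37157, 11026)]

/-- The grid is accepted. -/
theorem gridW : runA parW 358087132 538647834 25165824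
    [(1003998, 3745), (1003998, 7490)]
    36 2522 intW (Fa.kd ++ Cor.corrListM) = true := by
  decide +kernel

/-- The levels are accepted. -/
theorem levelsW : lvls parW (finB 55000 18000 1921 3848) 5 intW 36 2522 12654 = true := by
  decide +kernel

theorem memW : (2 * 36 - 2, 2 * 36, 29276, 12654) ∈ intW := by decide +kernel

/-- Density bounds at all large scales up to `2 ^ 3848`. -/
theorem startW {cW cL : ℕ → ℕ} (hs : SysQ parW cW cL)
    (hd : ∀ p ∈ Fa.kd ++ Cor.corrListM, 1 ≤ p.1 ∧ cL (p.1 * p.1 - 1) ≤ p.2) :
    ValidF cW cL (2 ^ 1921) (2 ^ 3848) (((55000 : ℕ) : ℝ) / 10000000)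
      (((18000 : ℕ) : ℝ) / 10000000) := by
  obtain ⟨h1, h2⟩ := runA_spec hs (by decide) (by decide) (by decide) hd gridW
  exact validF_of_levels hs (by decide) (by decide) (by decide) (by decide +kernel)
    (by decide +kernel) h2 (by norm_num) h1 memW levelsW

end Pool.Agent.AddSq.GA
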