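import Pool.Agent.AddSq.GridB
import Pool.Agent.AddSq.FKDat
import Pool.Agent.AddSq.CorrList

/-!
# The grid and the levels: the computations
-/

namespace Pool.Agent.AddSq.GA

set_option maxRecDepth 100000

/-- the constants of the system -/
def parX : Par := ⟨170, 15217801, 157579, 3083842, 5152900, 92808, 917424, 8000000, 1⟩

/-- density bounds (in units `10⁻⁷`) on the intervals `[2^e, 2^f)` -/
def intX : List Iv := [
    (36, 38, 80414, 2613), (38, 40, 96496, 26326), (40, 42, 95573, 28716), (42, 44, 83457, 27884),
    (44, 46, 121957, 23364), (46, 48, 138632, 57082), (48, 50, 136967, 58516),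
    (50, 52, 122350, 55711), (52, 54, 103661, 48194), (54, 56, 86682, 40521),
    (56, 58, 73021, 33928), (58, 60, 61940, 28874), (60, 62, 52984, 24674),
    (62, 64, 45200, 21197), (64, 66, 38716, 18197), (66, 68, 33047, 15608),
    (68, 70, 28207, 13349), (70, 72, 26130, 11387), (72, 74, 37704, 14487),
    (74, 76, 52241, 20522), (76, 78, 66349, 23314), (78, 80, 70639, 23472),
    (80, 82, 70590, 22976), (82, 84, 67912, 21166), (84, 86, 62230, 18716),
    (86, 88, 69343, 17836), (88, 90, 90781, 29808), (90, 92, 120103, 39422),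
    (92, 94, 137558, 43660), (94, 96, 140367, 43971), (96, 98, 139761, 43119),
    (98, 100, 133392, 40089), (100, 102, 122888, 36169), (102, 104, 111515, 32086),
    (104, 106, 100520, 28293), (106, 108, 90240, 24897), (108, 110, 80982, 21921),
    (110, 112, 72937, 19381), (112, 114, 65840, 17167), (114, 116, 59607, 15246),
    (116, 118, 54070, 13580), (118, 120, 49227, 12122), (120, 122, 44856, 10829),
    (122, 124, 40893, 9673), (124, 126, 37264, 8661), (126, 128, 34019, 7750),
    (128, 130, 31031, 6929), (130, 132, 28306, 6192), (132, 134, 25842, 5525),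
    (134, 136, 23574, 4936), (136, 138, 21557, 4415), (138, 140, 19990, 4022),
    (140, 142, 19935, 4148), (142, 144, 22679, 5065), (144, 146, 27494, 6515),
    (146, 148, 34270, 8277), (148, 150, 41897, 10473), (150, 152, 48495, 12727),
    (152, 154, 52979, 14507), (154, 156, 55149, 15607), (156, 158, 55495, 16008),
    (158, 160, 55341, 16022), (160, 162, 54043, 15844), (162, 164, 51790, 15264)]

/-- The grid is accepted. -/
theorem gridX : runA parX 1061274259 476355873 8388608
    [(1003998, 3470), (1003998, 6940)]
    36 2516 intX (Fa.kd ++ (Cor.corrList_19 ++ (Cor.corrList_20 ++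
      (Cor.corrList_21 ++ Cor.corrList_22)))) = true := by
  decide +kernel

/-- The levels are accepted. -/
theorem levelsX : lvls parX (finB 55000 18000 8193 16392) 7 intX 36 2516 11387 = true := by
  decide +kernel

theorem memX : (2 * 36 - 2, 2 * 36, 26130, 11387) ∈ intX := by decide +kernel

/-- Density bounds at all large scales up to `2 ^ 16392`. -/
theorem startX {cW cL : ℕ → ℕ} (hs : SysQ parX cW cL)
    (hd : ∀ p ∈ Fa.kd ++ (Cor.corrList_19 ++ (Cor.corrList_20 ++
      (Cor.corrList_21 ++ Cor.corrList_22))), 1 ≤ p.1 ∧ cL (p.1 * p.1 - 1) ≤ p.2) :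
    ValidF cW cL (2 ^ 8193) (2 ^ 16392) (((55000 : ℕ) : ℝ) / 10000000)
      (((18000 : ℕ) : ℝ) / 10000000) := by
  obtain ⟨h1, h2⟩ := runA_spec hs (by decide) (by decide) (by decide) hd gridX
  exact validF_of_levels hs (by decide) (by decide) (by decide) (by decide +kernel)
    (by decide +kernel) h2 (by norm_num) h1 memX levelsX

end Pool.Agent.AddSq.GA
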