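import Pool.Agent.AddSq.Eval
import Pool.Agent.AddSq.Popcount

/-!
# Cut tables, growth of a table (tree of shifts), block counts
-/

namespace Pool.Agent.AddSq.Ev

theorem WR_mono (B : ℕ) (W L W' L' : ℕ → Prop) (hW : ∀ n < B, W n → W' n)
    (hL : ∀ n < B, L n → L' n) : ∀ (j m : ℕ), (∀ i < j, rem (up^[i] m) < B) →
      (WR W L j m → WR W' L' j m) ∧ (LR W L j m → LR W' L' j m) := by
  intro j
  induction j with
  | zero => intro m _; exact ⟨fun _ => WR_zero _ _ _, fun _ => LR_zero _ _ _⟩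
  | succ j ih =>
    intro m hr
    have hr0 : rem m < B := by simpa using hr 0 (by omega)
    have hr1 : ∀ i < j, rem (up^[i] (up m)) < B := fun i hi => by
      have := hr (i + 1) (by omega)
      rwa [Function.iterate_succ_apply] at this
    obtain ⟨i1, i2⟩ := ih (up m) hr1
    constructor
    · intro h
      rcases (WR_succ _ _ _ _).mp h with h | h
      · exact (WR_succ _ _ _ _).mpr (Or.inl (hL _ hr0 h))
      · exact (WR_succ _ _ _ _).mpr (Or.inr (i2 h))
    · intro h
      obtain ⟨h1, h2⟩ := (LR_succ _ _ _ _).mp h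
      exact (LR_succ _ _ _ _).mpr ⟨hW _ hr0 h1, i1 h2⟩

/-- All remainders up to depth `2 h` of the numbers below `K²` are below `B`. -/
theorem rem_iter_lt (K B h : ℕ) (_hK : 0 < K) (hB : 2 * (2 ^ h * K) ≤ B) (n : ℕ) (hn : n < K * K)
    (i : ℕ) (hi : i ≤ 2 * h) : rem (up^[i] n) < B := by
  have h1 := rem_le_two_sqrt (up^[i] n)
  have h2 := iterate_up_le i n
  have h3 : Nat.sqrt (up^[i] n) < 2 ^ h * K := by
    rw [Nat.sqrt_lt]
    have h5 : (2 : ℕ) ^ i ≤ 2 ^ (2 * h) := Nat.pow_le_pow_right (by norm_num) hi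
    calc up^[i] n ≤ 2 ^ i * n := h2
      _ ≤ 2 ^ (2 * h) * n := Nat.mul_le_mul_right _ h5
      _ < 2 ^ (2 * h) * (K * K) := Nat.mul_lt_mul_of_pos_left hn (by positivity)
      _ = _ := by rw [two_mul, pow_add]; ring
  omega

/-- Valid tables below `T`. -/
def Valid (T WT LT : ℕ) : Prop :=
  (∀ n < T, Win n → WT.testBit n = true) ∧ (∀ n < T, Lost n → LT.testBit n = true)

theorem Valid.mono {T T' WT LT : ℕ} (h : Valid T WT LT) (hT : T' ≤ T) : Valid T' WT LT :=
  ⟨fun n hn => h.1 n (by omega), fun n hn => h.2 n (by omega)⟩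

/-- Cutting a valid table. -/
theorem Valid.lo {T WT LT : ℕ} (h : Valid T WT LT) (b : ℕ) :
    Valid (min T b) (Nat.land WT (Nat.sub (Nat.shiftLeft 1 b) 1))
      (Nat.land LT (Nat.sub (Nat.shiftLeft 1 b) 1)) := by
  have key : ∀ X n, n < b → (Nat.land X (Nat.sub (Nat.shiftLeft 1 b) 1)).testBit n
      = X.testBit n := by
    intro X n hn
    show (X &&& (1 <<< b - 1)).testBit n = _
    rw [Nat.one_shiftLeft, Nat.testBit_and, Nat.testBit_two_pow_sub_one]
    simp [hn]
  constructor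
  · intro n hn hw
    rw [key _ _ (by omega)]
    exact h.1 n (by omega) hw
  · intro n hn hw
    rw [key _ _ (by omega)]
    exact h.2 n (by omega) hw

/-- The rules of depth `J ≤ 2 h + 1` give supersets of the wins and losses of the blocks
`k < K` when all remainders are below `T`. -/
theorem Valid.block {T WT LT : ℕ} (hv : Valid T WT LT) (h K J : ℕ) (hK : 0 < K)
    (hB : 2 * (2 ^ h * K) ≤ T) (hJ : J ≤ 2 * h + 1) (hKJ : 2 ^ J * K < 2 ^ 32)
    (k : ℕ) (hk : 0 < k) (hkK : k < K) (r : ℕ) (hr : r ≤ 2 * k) :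
    (Win (k * k + r) → (E WT LT J true k 0 (2 * k + 1)).testBit r = true) ∧
    (Lost (k * k + r) → (E WT LT J false k 0 (2 * k + 1)).testBit r = true) := by
  have hn : k * k + r < K * K := by
    have : (k + 1) * (k + 1) ≤ K * K := Nat.mul_le_mul (by omega) (by omega)
    nlinarith
  have hrem : ∀ i < J, rem (up^[i] (k * k + r)) < T := fun i hi =>
    rem_iter_lt K T h hK hB _ hn i (by omega)
  have hru := rule_of_win T (bitset WT) (bitset LT) hv.1 hv.2 J (k * k + r) hrem
  have hJk : 2 ^ J * k < 2 ^ 32 := lt_of_le_of_lt (Nat.mul_le_mul_left _ hkK.le) hKJ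
  have hE := E_spec WT LT J k 0 (2 * k + 1) hk hJk (by omega) r (by omega)
  have e : k * k + 0 + r = k * k + r := by omega
  rw [e] at hE
  have hpos : 1 ≤ k * k + r := by
    have := Nat.mul_pos hk hk
    omega
  exact ⟨fun hw => hE.1 (hru.1 hw), fun hl => hE.2 (hru.2 hpos hl)⟩

/-- Closure check of block `k` of the tables `WT`, `LT`, the remainders being looked up in the
cut tables `WS`, `LS`. -/
noncomputable def chk2 (WT LT WS LS J k : ℕ) : Bool :=
  @Bool.rec (fun _ => Bool) false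
    (Nat.beq (Nat.lor (E WS LS J false k 0 (Nat.succ (Nat.mul 2 k)))
      (seg LT (Nat.mul k k) (Nat.succ (Nat.mul 2 k)))) (seg LT (Nat.mul k k) (Nat.succ (Nat.mul 2 k))))
    (Nat.beq (Nat.lor (E WS LS (Nat.succ J) true k 0 (Nat.succ (Nat.mul 2 k)))
      (seg WT (Nat.mul k k) (Nat.succ (Nat.mul 2 k)))) (seg WT (Nat.mul k k) (Nat.succ (Nat.mul 2 k))))

theorem chk2_spec (WT LT WS LS J k : ℕ) (hk : 0 < k) (hJ : 2 ^ (J + 1) * k < 2 ^ 32)
    (h : chk2 WT LT WS LS J k = true) (n : ℕ) (hn : Nat.sqrt n = k) :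
    (LR (bitset WS) (bitset LS) J n → bitset LT n) ∧
    (WR (bitset WS) (bitset LS) (J + 1) n → bitset WT n) := by
  have h' : @Bool.rec (fun _ => Bool) false
    (Nat.beq (E WS LS J false k 0 (2 * k + 1) ||| seg LT (k * k) (2 * k + 1))
      (seg LT (k * k) (2 * k + 1)))
    (Nat.beq (E WS LS (J + 1) true k 0 (2 * k + 1) ||| seg WT (k * k) (2 * k + 1))
      (seg WT (k * k) (2 * k + 1))) = true := h
  have hn2 := sq_add_rem n
  have hn3 := rem_le_two_sqrt n
  rw [hn] at hn2 hn3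
  have hJ0 : 2 ^ J * k < 2 ^ 32 := by
    calc 2 ^ J * k ≤ 2 ^ (J + 1) * k := Nat.mul_le_mul_right _ (Nat.pow_le_pow_right (by norm_num) (by omega))
      _ < _ := hJ
  cases h1 : Nat.beq (E WS LS (J + 1) true k 0 (2 * k + 1) ||| seg WT (k * k) (2 * k + 1))
      (seg WT (k * k) (2 * k + 1)) with
  | false => rw [h1] at h'; exact absurd h' (by simp)
  | true =>
    rw [h1] at h'
    have h2 : Nat.beq (E WS LS J false k 0 (2 * k + 1) ||| seg LT (k * k) (2 * k + 1))
      (seg LT (k * k) (2 * k + 1)) = true := h'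
    have h3 := Nat.eq_of_beq_eq_true h1
    have h4 := Nat.eq_of_beq_eq_true h2
    constructor
    · intro hr
      have e : k * k + 0 + rem n = n := by omega
      have := (E_spec WS LS J k 0 (2 * k + 1) hk hJ0 (by omega) (rem n) (by omega)).2
        (by rw [e]; exact hr)
      have := testBit_of_lor_eq h4 _ this
      have := ((testBit_seg_iff LT (k * k) (2 * k + 1) (rem n)).mp this).2
      rw [hn2] at this
      exact this
    · intro hr
      have e : k * k + 0 + rem n = n := by omega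
      have := (E_spec WS LS (J + 1) k 0 (2 * k + 1) hk hJ (by omega) (rem n) (by omega)).1
        (by rw [e]; exact hr)
      have := testBit_of_lor_eq h3 _ this
      have := ((testBit_seg_iff WT (k * k) (2 * k + 1) (rem n)).mp this).2
      rw [hn2] at this
      exact this

/-- Soundness of a checked table (sharper side conditions than `table_sound`). -/
theorem valid_of_chk2 (WT LT J h K B : ℕ) (hJ : J ≤ 2 * h) (hKpos : 0 < K)
    (hB : 2 * (2 ^ h * K) ≤ B) (hBK : B ≤ K * K) (hKJ : 2 ^ (J + 1) * K < 2 ^ 32)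
    (h0 : LT.testBit 0 = true)
    (hchk : ∀ k, 0 < k → k < K → chk2 WT LT (Nat.land WT (Nat.sub (Nat.shiftLeft 1 B) 1))
      (Nat.land LT (Nat.sub (Nat.shiftLeft 1 B) 1)) J k = true) :
    Valid (K * K) WT LT := by
  have hs : ∀ n, 1 ≤ n → n < K * K → 0 < Nat.sqrt n ∧ Nat.sqrt n < K := fun n h1 h2 =>
    ⟨Nat.sqrt_pos.mpr h1, Nat.sqrt_lt.mpr h2⟩
  have hJk : ∀ k < K, 2 ^ (J + 1) * k < 2 ^ 32 := fun k hk =>
    lt_of_le_of_lt (Nat.mul_le_mul_left _ hk.le) hKJ
  have hcut : ∀ X n, n < B → bitset X n →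
      bitset (Nat.land X (Nat.sub (Nat.shiftLeft 1 B) 1)) n := by
    intro X n hn hx
    show (X &&& (1 <<< B - 1)).testBit n = true
    rw [Nat.one_shiftLeft, Nat.testBit_and, Nat.testBit_two_pow_sub_one]
    have : X.testBit n = true := hx
    simp [hn, this]
  have hrem : ∀ n < K * K, ∀ i < J + 1, rem (up^[i] n) < B := fun n hn i hi =>
    rem_iter_lt K B h hKpos hB n hn i (by omega)
  apply closure_bound (K * K) J (bitset WT) (bitset LT)
  · intro n hn i hi
    exact lt_of_lt_of_le (hrem n hn i hi) hBK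
  · exact h0
  · intro n h1 h2 h3
    obtain ⟨h4, h5⟩ := hs n h1 h2
    refine (chk2_spec WT LT _ _ J _ h4 (hJk _ h5) (hchk _ h4 h5) n rfl).1 ?_
    exact (WR_mono B _ _ _ _ (hcut WT) (hcut LT) J n (fun i hi => hrem n h2 i (by omega))).2 h3
  · intro n h1 h2 h3
    obtain ⟨h4, h5⟩ := hs n h1 h2
    refine (chk2_spec WT LT _ _ J _ h4 (hJk _ h5) (hchk _ h4 h5) n rfl).2 ?_
    exact (WR_mono B _ _ _ _ (hcut WT) (hcut LT) (J + 1) n (fun i hi => hrem n h2 i (by omega))).1 h3

/-- The union of the `f k`, `k₀ ≤ k < k₀ + 2 ^ d`, shifted to their blocks, relative to `k₀²`. -/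
noncomputable def asm (f : ℕ → ℕ) (d : ℕ) : ℕ → ℕ :=
  @Nat.rec (fun _ => ℕ → ℕ)
    (fun k => @Nat.rec (fun _ => ℕ) (f 0) (fun k _ => f (Nat.succ k)) k)
    (fun d ih k => Nat.lor (ih k) (Nat.shiftLeft (ih (Nat.add k (Nat.shiftLeft 1 d)))
      (Nat.sub (Nat.mul (Nat.add k (Nat.shiftLeft 1 d)) (Nat.add k (Nat.shiftLeft 1 d)))
        (Nat.mul k k)))) d

theorem asm_spec (f : ℕ → ℕ) (d : ℕ) : ∀ k0 k r, k0 ≤ k → k < k0 + 2 ^ d →
    (f k).testBit r = true → (asm f d k0).testBit (k * k - k0 * k0 + r) = true := by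
  induction d with
  | zero =>
    intro k0 k r h1 h2 h
    have : k = k0 := by omega
    subst this
    rw [Nat.sub_self, zero_add]
    cases k with
    | zero => exact h
    | succ k => exact h
  | succ d ih =>
    intro k0 k r h1 h2 h
    have e : Nat.add k0 (Nat.shiftLeft 1 d) = k0 + 2 ^ d := by
      show k0 + 1 <<< d = _
      rw [Nat.one_shiftLeft]
    have hh : asm f (d + 1) k0 = (asm f d k0) ||| ((asm f d (Nat.add k0 (Nat.shiftLeft 1 d))) <<<
      ((Nat.add k0 (Nat.shiftLeft 1 d)) * (Nat.add k0 (Nat.shiftLeft 1 d)) - k0 * k0)) := rfl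
    rw [hh, e, Nat.testBit_or, Nat.testBit_shiftLeft]
    by_cases c : k < k0 + 2 ^ d
    · rw [ih k0 k r h1 c h]; rfl
    · have h3 := ih (k0 + 2 ^ d) k r (by omega) (by rw [pow_succ] at h2; omega) h
      have h4 : k0 * k0 ≤ (k0 + 2 ^ d) * (k0 + 2 ^ d) := Nat.mul_le_mul (by omega) (by omega)
      have h5 : (k0 + 2 ^ d) * (k0 + 2 ^ d) ≤ k * k := Nat.mul_le_mul (by omega) (by omega)
      have h6 : k * k - k0 * k0 + r - ((k0 + 2 ^ d) * (k0 + 2 ^ d) - k0 * k0)
          = k * k - (k0 + 2 ^ d) * (k0 + 2 ^ d) + r := by omega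
      have h7 : (k0 + 2 ^ d) * (k0 + 2 ^ d) - k0 * k0 ≤ k * k - k0 * k0 + r := by omega
      rw [h6, h3]
      simp [h7]

/-- Growth of a valid table: the blocks `K0 ≤ k < K0 + 2 ^ d` are appended. -/
theorem Valid.grow {T WT LT : ℕ} (hv : Valid T WT LT) (h d K0 J : ℕ) (hK0 : 0 < K0)
    (hKT : K0 * K0 ≤ T)
    (hB : 2 * (2 ^ h * (K0 + 2 ^ d)) ≤ T) (hJ : J + 1 ≤ 2 * h + 1)
    (hKJ : 2 ^ (J + 1) * (K0 + 2 ^ d) < 2 ^ 32) :
    Valid ((K0 + 2 ^ d) * (K0 + 2 ^ d))
      (Nat.lor WT (Nat.shiftLeft (asm (fun k => E WT LT (Nat.succ J) true k 0 (Nat.succ (Nat.mul 2 k))) d K0) (Nat.mul K0 K0)))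
      (Nat.lor LT (Nat.shiftLeft (asm (fun k => E WT LT J false k 0 (Nat.succ (Nat.mul 2 k))) d K0) (Nat.mul K0 K0))) := by
  have hK : 0 < K0 + 2 ^ d := lt_of_lt_of_le hK0 (Nat.le_add_right _ _)
  constructor
  · intro n hn hw
    show (WT ||| (_ <<< (K0 * K0))).testBit n = true
    rw [Nat.testBit_or, Nat.testBit_shiftLeft]
    by_cases c : n < K0 * K0
    · rw [hv.1 n (by omega) hw]; rfl
    · have e := sq_add_rem n
      have er := rem_le_two_sqrt n
      set k := Nat.sqrt n with hk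
      have hk1 : K0 ≤ k := by rw [hk, Nat.le_sqrt]; omega
      have hk2 : k < K0 + 2 ^ d := by rw [hk, Nat.sqrt_lt]; omega
      have hb := (hv.block h (K0 + 2 ^ d) (J + 1) hK hB hJ hKJ k (by omega) hk2 (rem n)
        (by omega)).1 (by rw [e]; exact hw)
      have ha := asm_spec (fun k => E WT LT (Nat.succ J) true k 0 (Nat.succ (Nat.mul 2 k))) d K0 k
        (rem n) hk1 hk2 hb
      have h5 : K0 * K0 ≤ k * k := Nat.mul_le_mul hk1 hk1
      have e2 : k * k - K0 * K0 + rem n = n - K0 * K0 := by omega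
      rw [e2] at ha
      rw [ha]
      simp only [Bool.and_true, Bool.or_eq_true, decide_eq_true_eq]
      right; omega
  · intro n hn hw
    show (LT ||| (_ <<< (K0 * K0))).testBit n = true
    rw [Nat.testBit_or, Nat.testBit_shiftLeft]
    by_cases c : n < K0 * K0
    · rw [hv.2 n (by omega) hw]; rfl
    · have e := sq_add_rem n
      have er := rem_le_two_sqrt n
      set k := Nat.sqrt n with hk
      have hk1 : K0 ≤ k := by rw [hk, Nat.le_sqrt]; omega
      have hk2 : k < K0 + 2 ^ d := by rw [hk, Nat.sqrt_lt]; omega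
      have hb := (hv.block h (K0 + 2 ^ d) J hK hB (by omega)
        (lt_of_le_of_lt (Nat.mul_le_mul_right _ (Nat.pow_le_pow_right (by norm_num) (by omega))) hKJ)
        k (by omega) hk2 (rem n) (by omega)).2 (by rw [e]; exact hw)
      have ha := asm_spec (fun k => E WT LT J false k 0 (Nat.succ (Nat.mul 2 k))) d K0 k
        (rem n) hk1 hk2 hb
      have h5 : K0 * K0 ≤ k * k := Nat.mul_le_mul hk1 hk1
      have e2 : k * k - K0 * K0 + rem n = n - K0 * K0 := by omega
      rw [e2] at ha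
      rw [ha]
      simp only [Bool.and_true, Bool.or_eq_true, decide_eq_true_eq]
      right; omega

end Pool.Agent.AddSq.Ev
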