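import Pool.Agent.AddSq.KDef

/-!
# Short tables: the first chunks of the literal tables
-/

namespace Pool.Agent.AddSq.KF

/-- wins below `81920` -/
noncomputable def bw13 : Nat := (Nat.lor (Nat.lor (Nat.lor TL.w0 (Nat.shiftLeft TL.w1 16384)) (Nat.shiftLeft (Nat.lor TL.w2 (Nat.shiftLeft TL.w3 16384)) 32768)) (Nat.shiftLeft TL.w4 65536))

/-- lost positions below `49152` -/
noncomputable def bl13 : Nat := (Nat.lor (Nat.lor TL.l0 (Nat.shiftLeft TL.l1 16384)) (Nat.shiftLeft TL.l2 32768))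

/-- wins below `147456` -/
noncomputable def bw14 : Nat := (Nat.lor (Nat.lor (Nat.lor (Nat.lor TL.w0 (Nat.shiftLeft TL.w1 16384)) (Nat.shiftLeft (Nat.lor TL.w2 (Nat.shiftLeft TL.w3 16384)) 32768)) (Nat.shiftLeft (Nat.lor (Nat.lor TL.w4 (Nat.shiftLeft TL.w5 16384)) (Nat.shiftLeft (Nat.lor TL.w6 (Nat.shiftLeft TL.w7 16384)) 32768)) 65536)) (Nat.shiftLeft TL.w8 131072))

/-- lost positions below `98304` -/
noncomputable def bl14 : Nat := (Nat.lor (Nat.lor (Nat.lor TL.l0 (Nat.shiftLeft TL.l1 16384)) (Nat.shiftLeft (Nat.lor TL.l2 (Nat.shiftLeft TL.l3 16384)) 32768)) (Nat.shiftLeft (Nat.lor TL.l4 (Nat.shiftLeft TL.l5 16384)) 65536))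

/-- wins below `278528` -/
noncomputable def bw15 : Nat := (Nat.lor (Nat.lor (Nat.lor (Nat.lor (Nat.lor TL.w0 (Nat.shiftLeft TL.w1 16384)) (Nat.shiftLeft (Nat.lor TL.w2 (Nat.shiftLeft TL.w3 16384)) 32768)) (Nat.shiftLeft (Nat.lor (Nat.lor TL.w4 (Nat.shiftLeft TL.w5 16384)) (Nat.shiftLeft (Nat.lor TL.w6 (Nat.shiftLeft TL.w7 16384)) 32768)) 65536)) (Nat.shiftLeft (Nat.lor (Nat.lor (Nat.lor TL.w8 (Nat.shiftLeft TL.w9 16384)) (Nat.shiftLeft (Nat.lor TL.w10 (Nat.shiftLeft TL.w11 16384)) 32768)) (Nat.shiftLeft (Nat.lor (Nat.lor TL.w12 (Nat.shiftLeft TL.w13 16384)) (Nat.shiftLeft (Nat.lor TL.w14 (Nat.shiftLeft TL.w15 16384)) 32768)) 65536)) 131072)) (Nat.shiftLeft TL.w16 262144))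

/-- lost positions below `196608` -/
noncomputable def bl15 : Nat := (Nat.lor (Nat.lor (Nat.lor (Nat.lor TL.l0 (Nat.shiftLeft TL.l1 16384)) (Nat.shiftLeft (Nat.lor TL.l2 (Nat.shiftLeft TL.l3 16384)) 32768)) (Nat.shiftLeft (Nat.lor (Nat.lor TL.l4 (Nat.shiftLeft TL.l5 16384)) (Nat.shiftLeft (Nat.lor TL.l6 (Nat.shiftLeft TL.l7 16384)) 32768)) 65536)) (Nat.shiftLeft (Nat.lor (Nat.lor TL.l8 (Nat.shiftLeft TL.l9 16384)) (Nat.shiftLeft (Nat.lor TL.l10 (Nat.shiftLeft TL.l11 16384)) 32768)) 131072))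

/-- wins below `540672` -/
noncomputable def bw16 : Nat := (Nat.lor (Nat.lor (Nat.lor (Nat.lor (Nat.lor (Nat.lor TL.w0 (Nat.shiftLeft TL.w1 16384)) (Nat.shiftLeft (Nat.lor TL.w2 (Nat.shiftLeft TL.w3 16384)) 32768)) (Nat.shiftLeft (Nat.lor (Nat.lor TL.w4 (Nat.shiftLeft TL.w5 16384)) (Nat.shiftLeft (Nat.lor TL.w6 (Nat.shiftLeft TL.w7 16384)) 32768)) 65536)) (Nat.shiftLeft (Nat.lor (Nat.lor (Nat.lor TL.w8 (Nat.shiftLeft TL.w9 16384)) (Nat.shiftLeft (Nat.lor TL.w10 (Nat.shiftLeft TL.w11 16384)) 32768)) (Nat.shiftLeft (Nat.lor (Nat.lor TL.w12 (Nat.shiftLeft TL.w13 16384)) (Nat.shiftLeft (Nat.lor TL.w14 (Nat.shiftLeft TL.w15 16384)) 32768)) 65536)) 131072)) (Nat.shiftLeft (Nat.lor (Nat.lor (Nat.lor (Nat.lor TL.w16 (Nat.shiftLeft TL.w17 16384)) (Nat.shiftLeft (Nat.lor TL.w18 (Nat.shiftLeft TL.w19 16384)) 32768)) (Nat.shiftLeft (Nat.lor (Nat.lor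 TL.w20 (Nat.shiftLeft TL.w21 16384)) (Nat.shiftLeft (Nat.lor TL.w22 (Nat.shiftLeft TL.w23 16384)) 32768)) 65536)) (Nat.shiftLeft (Nat.lor (Nat.lor (Nat.lor TL.w24 (Nat.shiftLeft TL.w25 16384)) (Nat.shiftLeft (Nat.lor TL.w26 (Nat.shiftLeft TL.w27 16384)) 32768)) (Nat.shiftLeft (Nat.lor (Nat.lor TL.w28 (Nat.shiftLeft TL.w29 16384)) (Nat.shiftLeft (Nat.lor TL.w30 (Nat.shiftLeft TL.w31 16384)) 32768)) 65536)) 131072)) 262144)) (Nat.shiftLeft TL.w32 524288))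

/-- lost positions below `376832` -/
noncomputable def bl16 : Nat := (Nat.lor (Nat.lor (Nat.lor (Nat.lor (Nat.lor TL.l0 (Nat.shiftLeft TL.l1 16384)) (Nat.shiftLeft (Nat.lor TL.l2 (Nat.shiftLeft TL.l3 16384)) 32768)) (Nat.shiftLeft (Nat.lor (Nat.lor TL.l4 (Nat.shiftLeft TL.l5 16384)) (Nat.shiftLeft (Nat.lor TL.l6 (Nat.shiftLeft TL.l7 16384)) 32768)) 65536)) (Nat.shiftLeft (Nat.lor (Nat.lor (Nat.lor TL.l8 (Nat.shiftLeft TL.l9 16384)) (Nat.shiftLeft (Nat.lor TL.l10 (Nat.shiftLeft TL.l11 16384)) 32768)) (Nat.shiftLeft (Nat.lor (Nat.lor TL.l12 (Nat.shiftLeft TL.l13 16384)) (Nat.shiftLeft (Nat.lor TL.l14 (Nat.shiftLeft TL.l15 16384)) 32768)) 65536)) 131072)) (Nat.shiftLeft (Nat.lor (Nat.lor (Nat.lor TL.l16 (Nat.shiftLeft TL.l17 16384)) (Nat.shiftLeft (Nat.lor TL.l18 (Nat.shiftLeft TL.l19 16384)) 32768)) (Nat.shiftLeft (Nat.lor (Nat.lor TL.l20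 (Nat.shiftLeft TL.l21 16384)) (Nat.shiftLeft TL.l22 32768)) 65536)) 262144))

/-- wins below `1064960` -/
noncomputable def bw17 : Nat := (Nat.lor (Nat.lor (Nat.lor (Nat.lor (Nat.lor (Nat.lor (Nat.lor TL.w0 (Nat.shiftLeft TL.w1 16384)) (Nat.shiftLeft (Nat.lor TL.w2 (Nat.shiftLeft TL.w3 16384)) 32768)) (Nat.shiftLeft (Nat.lor (Nat.lor TL.w4 (Nat.shiftLeft TL.w5 16384)) (Nat.shiftLeft (Nat.lor TL.w6 (Nat.shiftLeft TL.w7 16384)) 32768)) 65536)) (Nat.shiftLeft (Nat.lor (Nat.lor (Nat.lor TL.w8 (Nat.shiftLeft TL.w9 16384)) (Nat.shiftLeft (Nat.lor TL.w10 (Nat.shiftLeft TL.w11 16384)) 32768)) (Nat.shiftLeft (Nat.lor (Nat.lor TL.w12 (Nat.shiftLeft TL.w13 16384)) (Nat.shiftLeft (Nat.lor TL.w14 (Nat.shiftLeft TL.w15 16384)) 32768)) 65536)) 131072)) (Nat.shiftLeft (Nat.lor (Nat.lor (Nat.lor (Nat.lor TL.w16 (Nat.shiftLeft TL.w17 16384)) (Nat.shiftLeft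 (Nat.lor TL.w18 (Nat.shiftLeft TL.w19 16384)) 32768)) (Nat.shiftLeft (Nat.lor (Nat.lor TL.w20 (Nat.shiftLeft TL.w21 16384)) (Nat.shiftLeft (Nat.lor TL.w22 (Nat.shiftLeft TL.w23 16384)) 32768)) 65536)) (Nat.shiftLeft (Nat.lor (Nat.lor (Nat.lor TL.w24 (Nat.shiftLeft TL.w25 16384)) (Nat.shiftLeft (Nat.lor TL.w26 (Nat.shiftLeft TL.w27 16384)) 32768)) (Nat.shiftLeft (Nat.lor (Nat.lor TL.w28 (Nat.shiftLeft TL.w29 16384)) (Nat.shiftLeft (Nat.lor TL.w30 (Nat.shiftLeft TL.w31 16384)) 32768)) 65536)) 131072)) 262144)) (Nat.shiftLeft (Nat.lor (Nat.lor (Nat.lor (Nat.lor (Nat.lor TL.w32 (Nat.shiftLeft TL.w33 16384)) (Nat.shiftLeft (Nat.lor TL.w34 (Nat.shiftLeft TL.w35 16384)) 32768)) (Nat.shiftLeft (Nat.lor (Nat.lor TL.w36 (Nat.shiftLeft TL.w37 16384)) (Nat.shiftLeft (Nat.lor TL.w38 (Nat.shiftLeft TL.w39 16384)) 32768)) 65536)) (Nat.shiftLeft (Nat.lor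 (Nat.lor (Nat.lor TL.w40 (Nat.shiftLeft TL.w41 16384)) (Nat.shiftLeft (Nat.lor TL.w42 (Nat.shiftLeft TL.w43 16384)) 32768)) (Nat.shiftLeft (Nat.lor (Nat.lor TL.w44 (Nat.shiftLeft TL.w45 16384)) (Nat.shiftLeft (Nat.lor TL.w46 (Nat.shiftLeft TL.w47 16384)) 32768)) 65536)) 131072)) (Nat.shiftLeft (Nat.lor (Nat.lor (Nat.lor (Nat.lor TL.w48 (Nat.shiftLeft TL.w49 16384)) (Nat.shiftLeft (Nat.lor TL.w50 (Nat.shiftLeft TL.w51 16384)) 32768)) (Nat.shiftLeft (Nat.lor (Nat.lor TL.w52 (Nat.shiftLeft TL.w53 16384)) (Nat.shiftLeft (Nat.lor TL.w54 (Nat.shiftLeft TL.w55 16384)) 32768)) 65536)) (Nat.shiftLeft (Nat.lor (Nat.lor (Nat.lor TL.w56 (Nat.shiftLeft TL.w57 16384)) (Nat.shiftLeft (Nat.lor TL.w58 (Nat.shiftLeft TL.w59 16384)) 32768)) (Nat.shiftLeft (Nat.lor (Nat.lor TL.w60 (Nat.shiftLeft TL.w61 16384)) (Nat.shiftLeft (Nat.lor TL.w62 (Nat.shiftLeft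 TL.w63 16384)) 32768)) 65536)) 131072)) 262144)) 524288)) (Nat.shiftLeft TL.w64 1048576))

/-- lost positions below `753664` -/
noncomputable def bl17 : Nat := (Nat.lor (Nat.lor (Nat.lor (Nat.lor (Nat.lor (Nat.lor TL.l0 (Nat.shiftLeft TL.l1 16384)) (Nat.shiftLeft (Nat.lor TL.l2 (Nat.shiftLeft TL.l3 16384)) 32768)) (Nat.shiftLeft (Nat.lor (Nat.lor TL.l4 (Nat.shiftLeft TL.l5 16384)) (Nat.shiftLeft (Nat.lor TL.l6 (Nat.shiftLeft TL.l7 16384)) 32768)) 65536)) (Nat.shiftLeft (Nat.lor (Nat.lor (Nat.lor TL.l8 (Nat.shiftLeft TL.l9 16384)) (Nat.shiftLeft (Nat.lor TL.l10 (Nat.shiftLeft TL.l11 16384)) 32768)) (Nat.shiftLeft (Nat.lor (Nat.lor TL.l12 (Nat.shiftLeft TL.l13 16384)) (Nat.shiftLeft (Nat.lor TL.l14 (Nat.shiftLeft TL.l15 16384)) 32768)) 65536)) 131072)) (Nat.shiftLeft (Nat.lor (Nat.lor (Nat.lor (Nat.lor TL.l16 (Nat.shiftLeft TL.l17 16384))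 (Nat.shiftLeft (Nat.lor TL.l18 (Nat.shiftLeft TL.l19 16384)) 32768)) (Nat.shiftLeft (Nat.lor (Nat.lor TL.l20 (Nat.shiftLeft TL.l21 16384)) (Nat.shiftLeft (Nat.lor TL.l22 (Nat.shiftLeft TL.l23 16384)) 32768)) 65536)) (Nat.shiftLeft (Nat.lor (Nat.lor (Nat.lor TL.l24 (Nat.shiftLeft TL.l25 16384)) (Nat.shiftLeft (Nat.lor TL.l26 (Nat.shiftLeft TL.l27 16384)) 32768)) (Nat.shiftLeft (Nat.lor (Nat.lor TL.l28 (Nat.shiftLeft TL.l29 16384)) (Nat.shiftLeft (Nat.lor TL.l30 (Nat.shiftLeft TL.l31 16384)) 32768)) 65536)) 131072)) 262144)) (Nat.shiftLeft (Nat.lor (Nat.lor (Nat.lor (Nat.lor TL.l32 (Nat.shiftLeft TL.l33 16384)) (Nat.shiftLeft (Nat.lor TL.l34 (Nat.shiftLeft TL.l35 16384)) 32768)) (Nat.shiftLeft (Nat.lor (Nat.lor TL.l36 (Nat.shiftLeft TL.l37 16384)) (Nat.shiftLeft (Nat.lor TL.l38 (Nat.shiftLeft TL.l39 16384)) 32768)) 65536)) (Nat.shiftLeft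 (Nat.lor (Nat.lor (Nat.lor TL.l40 (Nat.shiftLeft TL.l41 16384)) (Nat.shiftLeft (Nat.lor TL.l42 (Nat.shiftLeft TL.l43 16384)) 32768)) (Nat.shiftLeft (Nat.lor TL.l44 (Nat.shiftLeft TL.l45 16384)) 65536)) 131072)) 524288))

/-- wins below `2113536` -/
noncomputable def bw18 : Nat := (Nat.lor (Nat.lor (Nat.lor (Nat.lor (Nat.lor (Nat.lor (Nat.lor (Nat.lor TL.w0 (Nat.shiftLeft TL.w1 16384)) (Nat.shiftLeft (Nat.lor TL.w2 (Nat.shiftLeft TL.w3 16384)) 32768)) (Nat.shiftLeft (Nat.lor (Nat.lor TL.w4 (Nat.shiftLeft TL.w5 16384)) (Nat.shiftLeft (Nat.lor TL.w6 (Nat.shiftLeft TL.w7 16384)) 32768)) 65536)) (Nat.shiftLeft (Nat.lor (Nat.lor (Nat.lor TL.w8 (Nat.shiftLeft TL.w9 16384)) (Nat.shiftLeft (Nat.lor TL.w10 (Nat.shiftLeft TL.w11 16384)) 32768)) (Nat.shiftLeft (Nat.lor (Nat.lor TL.w12 (Nat.shiftLeft TL.w13 16384)) (Nat.shiftLeft (Nat.lor TL.w14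 (Nat.shiftLeft TL.w15 16384)) 32768)) 65536)) 131072)) (Nat.shiftLeft (Nat.lor (Nat.lor (Nat.lor (Nat.lor TL.w16 (Nat.shiftLeft TL.w17 16384)) (Nat.shiftLeft (Nat.lor TL.w18 (Nat.shiftLeft TL.w19 16384)) 32768)) (Nat.shiftLeft (Nat.lor (Nat.lor TL.w20 (Nat.shiftLeft TL.w21 16384)) (Nat.shiftLeft (Nat.lor TL.w22 (Nat.shiftLeft TL.w23 16384)) 32768)) 65536)) (Nat.shiftLeft (Nat.lor (Nat.lor (Nat.lor TL.w24 (Nat.shiftLeft TL.w25 16384)) (Nat.shiftLeft (Nat.lor TL.w26 (Nat.shiftLeft TL.w27 16384)) 32768)) (Nat.shiftLeft (Nat.lor (Nat.lor TL.w28 (Nat.shiftLeft TL.w29 16384)) (Nat.shiftLeft (Nat.lor TL.w30 (Nat.shiftLeft TL.w31 16384)) 32768)) 65536)) 131072)) 262144)) (Nat.shiftLeft (Nat.lor (Nat.lor (Nat.lor (Nat.lor (Nat.lor TL.w32 (Nat.shiftLeft TL.w33 16384)) (Nat.shiftLeft (Nat.lor TL.w34 (Nat.shiftLeft TL.w35 16384)) 32768)) (Nat.shiftLeft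 (Nat.lor (Nat.lor TL.w36 (Nat.shiftLeft TL.w37 16384)) (Nat.shiftLeft (Nat.lor TL.w38 (Nat.shiftLeft TL.w39 16384)) 32768)) 65536)) (Nat.shiftLeft (Nat.lor (Nat.lor (Nat.lor TL.w40 (Nat.shiftLeft TL.w41 16384)) (Nat.shiftLeft (Nat.lor TL.w42 (Nat.shiftLeft TL.w43 16384)) 32768)) (Nat.shiftLeft (Nat.lor (Nat.lor TL.w44 (Nat.shiftLeft TL.w45 16384)) (Nat.shiftLeft (Nat.lor TL.w46 (Nat.shiftLeft TL.w47 16384)) 32768)) 65536)) 131072)) (Nat.shiftLeft (Nat.lor (Nat.lor (Nat.lor (Nat.lor TL.w48 (Nat.shiftLeft TL.w49 16384)) (Nat.shiftLeft (Nat.lor TL.w50 (Nat.shiftLeft TL.w51 16384)) 32768)) (Nat.shiftLeft (Nat.lor (Nat.lor TL.w52 (Nat.shiftLeft TL.w53 16384)) (Nat.shiftLeft (Nat.lor TL.w54 (Nat.shiftLeft TL.w55 16384)) 32768)) 65536)) (Nat.shiftLeft (Nat.lor (Nat.lor (Nat.lor TL.w56 (Nat.shiftLeft TL.w57 16384)) (Nat.shiftLeft (Nat.lor TL.w58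 (Nat.shiftLeft TL.w59 16384)) 32768)) (Nat.shiftLeft (Nat.lor (Nat.lor TL.w60 (Nat.shiftLeft TL.w61 16384)) (Nat.shiftLeft (Nat.lor TL.w62 (Nat.shiftLeft TL.w63 16384)) 32768)) 65536)) 131072)) 262144)) 524288)) (Nat.shiftLeft (Nat.lor (Nat.lor (Nat.lor (Nat.lor (Nat.lor (Nat.lor TL.w64 (Nat.shiftLeft TL.w65 16384)) (Nat.shiftLeft (Nat.lor TL.w66 (Nat.shiftLeft TL.w67 16384)) 32768)) (Nat.shiftLeft (Nat.lor (Nat.lor TL.w68 (Nat.shiftLeft TL.w69 16384)) (Nat.shiftLeft (Nat.lor TL.w70 (Nat.shiftLeft TL.w71 16384)) 32768)) 65536)) (Nat.shiftLeft (Nat.lor (Nat.lor (Nat.lor TL.w72 (Nat.shiftLeft TL.w73 16384)) (Nat.shiftLeft (Nat.lor TL.w74 (Nat.shiftLeft TL.w75 16384)) 32768)) (Nat.shiftLeft (Nat.lor (Nat.lor TL.w76 (Nat.shiftLeft TL.w77 16384)) (Nat.shiftLeft (Nat.lor TL.w78 (Nat.shiftLeft TL.w79 16384)) 32768)) 65536)) 131072)) (Nat.shiftLeft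 (Nat.lor (Nat.lor (Nat.lor (Nat.lor TL.w80 (Nat.shiftLeft TL.w81 16384)) (Nat.shiftLeft (Nat.lor TL.w82 (Nat.shiftLeft TL.w83 16384)) 32768)) (Nat.shiftLeft (Nat.lor (Nat.lor TL.w84 (Nat.shiftLeft TL.w85 16384)) (Nat.shiftLeft (Nat.lor TL.w86 (Nat.shiftLeft TL.w87 16384)) 32768)) 65536)) (Nat.shiftLeft (Nat.lor (Nat.lor (Nat.lor TL.w88 (Nat.shiftLeft TL.w89 16384)) (Nat.shiftLeft (Nat.lor TL.w90 (Nat.shiftLeft TL.w91 16384)) 32768)) (Nat.shiftLeft (Nat.lor (Nat.lor TL.w92 (Nat.shiftLeft TL.w93 16384)) (Nat.shiftLeft (Nat.lor TL.w94 (Nat.shiftLeft TL.w95 16384)) 32768)) 65536)) 131072)) 262144)) (Nat.shiftLeft (Nat.lor (Nat.lor (Nat.lor (Nat.lor (Nat.lor TL.w96 (Nat.shiftLeft TL.w97 16384)) (Nat.shiftLeft (Nat.lor TL.w98 (Nat.shiftLeft TL.w99 16384)) 32768)) (Nat.shiftLeft (Nat.lor (Nat.lor TL.w100 (Nat.shiftLeft TL.w101 16384)) (Nat.shiftLeft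 (Nat.lor TL.w102 (Nat.shiftLeft TL.w103 16384)) 32768)) 65536)) (Nat.shiftLeft (Nat.lor (Nat.lor (Nat.lor TL.w104 (Nat.shiftLeft TL.w105 16384)) (Nat.shiftLeft (Nat.lor TL.w106 (Nat.shiftLeft TL.w107 16384)) 32768)) (Nat.shiftLeft (Nat.lor (Nat.lor TL.w108 (Nat.shiftLeft TL.w109 16384)) (Nat.shiftLeft (Nat.lor TL.w110 (Nat.shiftLeft TL.w111 16384)) 32768)) 65536)) 131072)) (Nat.shiftLeft (Nat.lor (Nat.lor (Nat.lor (Nat.lor TL.w112 (Nat.shiftLeft TL.w113 16384)) (Nat.shiftLeft (Nat.lor TL.w114 (Nat.shiftLeft TL.w115 16384)) 32768)) (Nat.shiftLeft (Nat.lor (Nat.lor TL.w116 (Nat.shiftLeft TL.w117 16384)) (Nat.shiftLeft (Nat.lor TL.w118 (Nat.shiftLeft TL.w119 16384)) 32768)) 65536)) (Nat.shiftLeft (Nat.lor (Nat.lor (Nat.lor TL.w120 (Nat.shiftLeft TL.w121 16384)) (Nat.shiftLeft (Nat.lor TL.w122 (Nat.shiftLeft TL.w123 16384)) 32768)) (Nat.shiftLeft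 (Nat.lor (Nat.lor TL.w124 (Nat.shiftLeft TL.w125 16384)) (Nat.shiftLeft (Nat.lor TL.w126 (Nat.shiftLeft TL.w127 16384)) 32768)) 65536)) 131072)) 262144)) 524288)) 1048576)) (Nat.shiftLeft TL.w128 2097152))

/-- lost positions below `1490944` -/
noncomputable def bl18 : Nat := (Nat.lor (Nat.lor (Nat.lor (Nat.lor (Nat.lor (Nat.lor (Nat.lor TL.l0 (Nat.shiftLeft TL.l1 16384)) (Nat.shiftLeft (Nat.lor TL.l2 (Nat.shiftLeft TL.l3 16384)) 32768)) (Nat.shiftLeft (Nat.lor (Nat.lor TL.l4 (Nat.shiftLeft TL.l5 16384)) (Nat.shiftLeft (Nat.lor TL.l6 (Nat.shiftLeft TL.l7 16384)) 32768)) 65536)) (Nat.shiftLeft (Nat.lor (Nat.lor (Nat.lor TL.l8 (Nat.shiftLeft TL.l9 16384)) (Nat.shiftLeft (Nat.lor TL.l10 (Nat.shiftLeft TL.l11 16384)) 32768)) (Nat.shiftLeft (Nat.lor (Nat.lor TL.l12 (Nat.shiftLeft TL.l13 16384)) (Nat.shiftLeft (Nat.lor TL.l14 (Nat.shiftLeft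 TL.l15 16384)) 32768)) 65536)) 131072)) (Nat.shiftLeft (Nat.lor (Nat.lor (Nat.lor (Nat.lor TL.l16 (Nat.shiftLeft TL.l17 16384)) (Nat.shiftLeft (Nat.lor TL.l18 (Nat.shiftLeft TL.l19 16384)) 32768)) (Nat.shiftLeft (Nat.lor (Nat.lor TL.l20 (Nat.shiftLeft TL.l21 16384)) (Nat.shiftLeft (Nat.lor TL.l22 (Nat.shiftLeft TL.l23 16384)) 32768)) 65536)) (Nat.shiftLeft (Nat.lor (Nat.lor (Nat.lor TL.l24 (Nat.shiftLeft TL.l25 16384)) (Nat.shiftLeft (Nat.lor TL.l26 (Nat.shiftLeft TL.l27 16384)) 32768)) (Nat.shiftLeft (Nat.lor (Nat.lor TL.l28 (Nat.shiftLeft TL.l29 16384)) (Nat.shiftLeft (Nat.lor TL.l30 (Nat.shiftLeft TL.l31 16384)) 32768)) 65536)) 131072)) 262144)) (Nat.shiftLeft (Nat.lor (Nat.lor (Nat.lor (Nat.lor (Nat.lor TL.l32 (Nat.shiftLeft TL.l33 16384)) (Nat.shiftLeft (Nat.lor TL.l34 (Nat.shiftLeft TL.l35 16384)) 32768)) (Nat.shiftLeft (Nat.lor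 (Nat.lor TL.l36 (Nat.shiftLeft TL.l37 16384)) (Nat.shiftLeft (Nat.lor TL.l38 (Nat.shiftLeft TL.l39 16384)) 32768)) 65536)) (Nat.shiftLeft (Nat.lor (Nat.lor (Nat.lor TL.l40 (Nat.shiftLeft TL.l41 16384)) (Nat.shiftLeft (Nat.lor TL.l42 (Nat.shiftLeft TL.l43 16384)) 32768)) (Nat.shiftLeft (Nat.lor (Nat.lor TL.l44 (Nat.shiftLeft TL.l45 16384)) (Nat.shiftLeft (Nat.lor TL.l46 (Nat.shiftLeft TL.l47 16384)) 32768)) 65536)) 131072)) (Nat.shiftLeft (Nat.lor (Nat.lor (Nat.lor (Nat.lor TL.l48 (Nat.shiftLeft TL.l49 16384)) (Nat.shiftLeft (Nat.lor TL.l50 (Nat.shiftLeft TL.l51 16384)) 32768)) (Nat.shiftLeft (Nat.lor (Nat.lor TL.l52 (Nat.shiftLeft TL.l53 16384)) (Nat.shiftLeft (Nat.lor TL.l54 (Nat.shiftLeft TL.l55 16384)) 32768)) 65536)) (Nat.shiftLeft (Nat.lor (Nat.lor (Nat.lor TL.l56 (Nat.shiftLeft TL.l57 16384)) (Nat.shiftLeft (Nat.lor TL.l58 (Nat.shiftLeft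 TL.l59 16384)) 32768)) (Nat.shiftLeft (Nat.lor (Nat.lor TL.l60 (Nat.shiftLeft TL.l61 16384)) (Nat.shiftLeft (Nat.lor TL.l62 (Nat.shiftLeft TL.l63 16384)) 32768)) 65536)) 131072)) 262144)) 524288)) (Nat.shiftLeft (Nat.lor (Nat.lor (Nat.lor (Nat.lor (Nat.lor TL.l64 (Nat.shiftLeft TL.l65 16384)) (Nat.shiftLeft (Nat.lor TL.l66 (Nat.shiftLeft TL.l67 16384)) 32768)) (Nat.shiftLeft (Nat.lor (Nat.lor TL.l68 (Nat.shiftLeft TL.l69 16384)) (Nat.shiftLeft (Nat.lor TL.l70 (Nat.shiftLeft TL.l71 16384)) 32768)) 65536)) (Nat.shiftLeft (Nat.lor (Nat.lor (Nat.lor TL.l72 (Nat.shiftLeft TL.l73 16384)) (Nat.shiftLeft (Nat.lor TL.l74 (Nat.shiftLeft TL.l75 16384)) 32768)) (Nat.shiftLeft (Nat.lor (Nat.lor TL.l76 (Nat.shiftLeft TL.l77 16384)) (Nat.shiftLeft (Nat.lor TL.l78 (Nat.shiftLeft TL.l79 16384)) 32768)) 65536)) 131072)) (Nat.shiftLeft (Nat.lor (Nat.lor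 (Nat.lor (Nat.lor TL.l80 (Nat.shiftLeft TL.l81 16384)) (Nat.shiftLeft (Nat.lor TL.l82 (Nat.shiftLeft TL.l83 16384)) 32768)) (Nat.shiftLeft (Nat.lor (Nat.lor TL.l84 (Nat.shiftLeft TL.l85 16384)) (Nat.shiftLeft (Nat.lor TL.l86 (Nat.shiftLeft TL.l87 16384)) 32768)) 65536)) (Nat.shiftLeft (Nat.lor (Nat.lor TL.l88 (Nat.shiftLeft TL.l89 16384)) (Nat.shiftLeft TL.l90 32768)) 131072)) 262144)) 1048576))

theorem short_tables :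
    isCut bw13 TL.WT 81920 = true ∧ isCut bl13 TL.LT 49152 = true ∧
    isCut bw14 TL.WT 147456 = true ∧ isCut bl14 TL.LT 98304 = true ∧
    isCut bw15 TL.WT 278528 = true ∧ isCut bl15 TL.LT 196608 = true ∧
    isCut bw16 TL.WT 540672 = true ∧ isCut bl16 TL.LT 376832 = true ∧
    isCut bw17 TL.WT 1064960 = true ∧ isCut bl17 TL.LT 753664 = true ∧
    isCut bw18 TL.WT 2113536 = true ∧ isCut bl18 TL.LT 1490944 = true := by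
  refine ⟨?_, ?_, ?_, ?_, ?_, ?_, ?_, ?_, ?_, ?_, ?_, ?_⟩ <;> decide +kernel

theorem cw13 : isCut bw13 TL.WT 81920 = true := short_tables.1

theorem cl13 : isCut bl13 TL.LT 49152 = true := short_tables.2.1

theorem cw14 : isCut bw14 TL.WT 147456 = true := short_tables.2.2.1

theorem cl14 : isCut bl14 TL.LT 98304 = true := short_tables.2.2.2.1

theorem cw15 : isCut bw15 TL.WT 278528 = true := short_tables.2.2.2.2.1

theorem cl15 : isCut bl15 TL.LT 196608 = true := short_tables.2.2.2.2.2.1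

theorem cw16 : isCut bw16 TL.WT 540672 = true := short_tables.2.2.2.2.2.2.1

theorem cl16 : isCut bl16 TL.LT 376832 = true := short_tables.2.2.2.2.2.2.2.1

theorem cw17 : isCut bw17 TL.WT 1064960 = true := short_tables.2.2.2.2.2.2.2.2.1

theorem cl17 : isCut bl17 TL.LT 753664 = true := short_tables.2.2.2.2.2.2.2.2.2.1

theorem cw18 : isCut bw18 TL.WT 2113536 = true := short_tables.2.2.2.2.2.2.2.2.2.2.1

theorem cl18 : isCut bl18 TL.LT 1490944 = true := short_tables.2.2.2.2.2.2.2.2.2.2.2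

end Pool.Agent.AddSq.KF
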