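import Pool.Agent.AddSq.OrCount
import Pool.Agent.AddSq.Gen
import Pool.Agent.AddSq.TabBig
import Pool.Agent.AddSq.TabValid

/-!
# Framework for the kernel data modules

`GRules W L` is enough for the counts of `L`: the leaf contains all `n` of the block which
satisfy the rule truncated at `r₄`.
-/

namespace Pool.Agent.AddSq

theorem sup_leafG {W L : ℕ → Prop} (hG : GRules W L) {w0 l1 w2 l3 w4 R0 R1 R2 R3 R4 B : ℕ}
    (h0 : ∀ n < R0, W n → w0.testBit n = true)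
    (h1 : ∀ n < R1, L n → l1.testBit n = true)
    (h2 : ∀ n < R2, W n → w2.testBit n = true)
    (h3 : ∀ n < R3, L n → l3.testBit n = true)
    (h4 : ∀ n < R4, W n → w4.testBit n = true)
    (b0 : 2 * B + 1 ≤ R0) (b1 : 2 * nxt B + 1 ≤ R1) (b2 : 2 * nxt (nxt B) + 1 ≤ R2)
    (b3 : 2 * nxt (nxt (nxt B)) + 1 ≤ R3) (b4 : 2 * nxt (nxt (nxt (nxt B))) + 1 ≤ R4)
    (hB : nxt (nxt (nxt B)) < 2 ^ 31) : Sup (leafL w0 l1 w2 l3 w4) L B := by
  have e1 := le_nxt B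
  have e2 := le_nxt (nxt B)
  have e3 := le_nxt (nxt (nxt B))
  have s4 : Sup (seg w4) (fun n => W (rem n)) (nxt (nxt (nxt (nxt B)))) :=
    sup_seg (T := W) h4 b4
  have s3 : Sup (fo (seg l3) (nx (seg w4))) (fun n => L (rem n) ∨ W (rem (up n)))
      (nxt (nxt (nxt B))) := sup_fo (sup_seg (T := L) h3 b3) (sup_nx' s4 hB)
  have s2 : Sup (fa (seg w2) (nx (fo (seg l3) (nx (seg w4)))))
      (fun n => W (rem n) ∧ (L (rem (up n)) ∨ W (rem (up (up n))))) (nxt (nxt B)) :=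
    sup_fa (sup_seg (T := W) h2 b2) (sup_nx' s3 (by omega))
  have s1 : Sup (fo (seg l1) (nx (fa (seg w2) (nx (fo (seg l3) (nx (seg w4)))))))
      (fun n => L (rem n) ∨ (W (rem (up n)) ∧ (L (rem (up (up n))) ∨
        W (rem (up (up (up n))))))) (nxt B) :=
    sup_fo (sup_seg (T := L) h1 b1) (sup_nx' s2 (by omega))
  exact (sup_fa (sup_seg (T := W) h0 b0) (sup_nx' s1 (by omega))).mono'
    (fun n hn h => hG.l n hn h)

/-- `S e K` bounds the number of elements of `L` in the blocks `K, …, K + 2 ^ e - 1`, if these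
are between `A` and `B` -/
def KSpec (L : ℕ → Prop) (S : ℕ → ℕ → ℕ) (A B : ℕ) : Prop :=
  ∃ (g h : ℕ → ℕ) (n : ℕ),
    (∀ k, A ≤ k → k ≤ B → ∀ i ≤ 2 * k, L (k * k + i) → (g k).testBit i = true) ∧
    (∀ x, h x = Pop.pop (32 * n) x) ∧ 2 * B + 1 ≤ 32 * n ∧
    ∀ e k, S e k = KF.osum g h e k

/-! ### The Mathlib-free definitions -/

theorem KF_mm : KF.mm = mm := rfl
theorem KF_am : KF.am = am := rfl
theorem KF_tm : KF.tm = tm := rfl
theorem KF_seg : KF.seg = seg := rfl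
theorem KF_fo : KF.fo = fo := rfl
theorem KF_fa : KF.fa = fa := rfl

theorem KF_nx : KF.nx = nx := by
  funext f p u len
  unfold KF.nx nx
  rw [KF_mm, KF_am, KF_tm]

theorem KF_block : KF.block = lostBlock := by
  funext w0 l1 w2 l3 w4 k
  unfold KF.block lostBlock whole leafL
  rw [KF_nx, KF_seg, KF_fo, KF_fa]

theorem KF_cut : KF.cut = cut := rfl
theorem KF_fold : KF.fold = Pop.fold := rfl
theorem KF_pc : KF.pc = Pop.pc := rfl
theorem KF_osum : KF.osum = osum := rfl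

theorem KF_mask (s n : ℕ) : KF.mask s n = Pop.mask s n := by
  change ((1 <<< (2 * s * n) - 1) / (1 <<< (2 * s) - 1)) * (1 <<< s - 1) = _
  rw [Nat.one_shiftLeft, Nat.one_shiftLeft, Nat.one_shiftLeft]
  rfl

theorem isCut_spec {t T R : ℕ} (h : KF.isCut t T R = true) : t = cut T R :=
  Nat.eq_of_beq_eq_true h

/-- the parameters of a module fit -/
def kfits (B R0 R1 R2 R3 R4 RW RL A n : ℕ) : Bool :=
  Nat.ble (2 * B + 1) R0 && Nat.ble (2 * nxt B + 1) R1 &&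
  Nat.ble (2 * nxt (nxt B) + 1) R2 && Nat.ble (2 * nxt (nxt (nxt B)) + 1) R3 &&
  Nat.ble (2 * nxt (nxt (nxt (nxt B))) + 1) R4 && Nat.ble R0 RW && Nat.ble R1 RL &&
  Nat.ble R2 RW && Nat.ble R3 RL && Nat.ble R4 RW &&
  Nat.ble (nxt (nxt (nxt B))) 2000000000 && Nat.ble 1 A && Nat.ble (2 * B + 1) (32 * n) &&
  Nat.ble n 134217727 && Nat.ble RW 4840000 && Nat.ble RL 4840000

theorem KSpec.mk' {W L : ℕ → Prop} (hG : GRules W L) {w l RW RL A B n R0 R1 R2 R3 R4 : ℕ}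
    {S : ℕ → ℕ → ℕ}
    (hw : KF.isCut w TL.WT RW = true) (hl : KF.isCut l TL.LT RL = true)
    (hf : kfits B R0 R1 R2 R3 R4 RW RL A n = true)
    (hS : ∀ e k, S e k = KF.osum
      (KF.block (KF.cut w R0) (KF.cut l R1) (KF.cut w R2) (KF.cut l R3) (KF.cut w R4))
      (KF.pc (KF.mask 1 (Nat.mul 16 n)) (KF.mask 2 (Nat.mul 8 n)) (KF.mask 4 (Nat.mul 4 n))
        (KF.mask 8 (Nat.mul 2 n)) (KF.mask 16 n)) e k) :
    KSpec L S A B := by
  unfold kfits at hf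
  simp only [Bool.and_eq_true, Nat.ble_eq] at hf
  obtain ⟨⟨⟨⟨⟨⟨⟨⟨⟨⟨⟨⟨⟨⟨⟨b0, b1⟩, b2⟩, b3⟩, b4⟩, r0⟩, r1⟩, r2⟩, r3⟩, r4⟩, hB⟩, hA⟩, hn⟩, hn2⟩,
    hW⟩, hL⟩ := hf
  have e1 := isCut_spec hw
  have e2 := isCut_spec hl
  subst e1 e2
  have hw' : ∀ n < RW, W n → (cut TL.WT RW).testBit n = true := by
    intro n hn hh
    rw [cut_testBit hn]
    exact TL.tab_valid.1 n (by omega) ((hG.small n (by omega)).1 hh)
  have hl' : ∀ n < RL, L n → (cut TL.LT RL).testBit n = true := by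
    intro n hn hh
    rw [cut_testBit hn]
    exact TL.tab_valid.2 n (by omega) ((hG.small n (by omega)).2 hh)
  refine ⟨_, _, n, ?_, ?_, hn, hS⟩
  · intro k hk1 hk2 i hi h
    rw [KF_block, KF_cut]
    exact (sup_leafG hG (cut_sup hw' r0) (cut_sup hl' r1) (cut_sup hw' r2) (cut_sup hl' r3)
      (cut_sup hw' r4) b0 b1 b2 b3 b4 (by omega)).whole (by omega) hk2 hi h
  · intro x
    rw [KF_pc, KF_mask, KF_mask, KF_mask, KF_mask, KF_mask]
    exact Pop.pc_eq n x (by omega)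

/-- cumulative count from the block `A` on, with the offset `CA` -/
def Cum (L : ℕ → Prop) (A CA K C : ℕ) : Prop := A ≤ K ∧ cntI L (A * A) (K * K) + CA ≤ C

theorem Cum.start (L : ℕ → Prop) (A CA : ℕ) : Cum L A CA A CA := by
  refine ⟨le_rfl, ?_⟩
  simp [cntI_self]

theorem KSpec.step {L : ℕ → Prop} {S : ℕ → ℕ → ℕ} {A B CA K e c d K' C : ℕ}
    (Sp : KSpec L S A B) (hs : Cum L A CA K c) (hd : Nat.ble (S e K) d = true)
    (hr : (Nat.ble (K + 2 ^ e) (B + 1) && (Nat.beq (K + 2 ^ e) K' && Nat.beq (c + d) C))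
      = true) : Cum L A CA K' C := by
  obtain ⟨g, h, n, hg, hh, hn, hS⟩ := Sp
  rw [Bool.and_eq_true, Bool.and_eq_true] at hr
  have h1 : K + 2 ^ e ≤ B + 1 := Nat.le_of_ble_eq_true hr.1
  have h2 : K + 2 ^ e = K' := Nat.eq_of_beq_eq_true hr.2.1
  have h3 : c + d = C := Nat.eq_of_beq_eq_true hr.2.2
  obtain ⟨hA, hc⟩ := hs
  have hpow : 0 < 2 ^ e := by positivity
  subst h2
  rw [hS, KF_osum] at hd
  have h4 : cntI L (K * K) ((K + 2 ^ e) * (K + 2 ^ e)) ≤ d := by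
    refine le_trans ?_ (Nat.le_of_ble_eq_true hd)
    rw [← osum_eq (32 * n) hh e K]
    refine cntI_csum (f := fun k => Pop.pop (32 * n) (g k)) ?_
    intro k hk1 hk2
    exact cntI_block (hg k (by omega) (by omega)) (by omega)
  refine ⟨by omega, ?_⟩
  rw [cntI_add L (Nat.mul_le_mul hA hA) (Nat.mul_le_mul (Nat.le_add_right K (2 ^ e))
    (Nat.le_add_right K (2 ^ e)))]
  omega

theorem gcount_eq (L : ℕ → Prop) (x : ℕ) : gcount L x = cntI L 0 (x + 1) := by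
  classical
  unfold gcount cntI
  congr 1

/-- entry of a data list -/
def KEnt (L : ℕ → Prop) (p : ℕ × ℕ) : Prop := 1 ≤ p.1 ∧ gcount L (p.1 * p.1 - 1) ≤ p.2

theorem Cum.ent {L : ℕ → Prop} {A CA K C : ℕ} (h : Cum L A CA K C) (hA : KEnt L (A, CA)) :
    KEnt L (K, C) := by
  obtain ⟨h1, h2⟩ := h
  obtain ⟨h3, h4⟩ := hA
  change 1 ≤ A at h3
  change gcount L (A * A - 1) ≤ CA at h4
  have e1 : 1 ≤ A * A := Nat.mul_le_mul h3 h3
  have e2 : 1 ≤ K * K := Nat.mul_le_mul (h3.trans h1) (h3.trans h1)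
  refine ⟨h3.trans h1, ?_⟩
  change gcount L (K * K - 1) ≤ C
  rw [gcount_eq, Nat.sub_add_cancel e2, cntI_add L (Nat.zero_le (A * A)) (Nat.mul_le_mul h1 h1)]
  rw [gcount_eq, Nat.sub_add_cancel e1] at h4
  omega

theorem all_nil {P : ℕ × ℕ → Prop} : ∀ p ∈ ([] : List (ℕ × ℕ)), P p := by
  intro p hp
  exact absurd hp List.not_mem_nil

theorem all_cons {P : ℕ × ℕ → Prop} {a b : ℕ} {l : List (ℕ × ℕ)} (h : P (a, b))
    (t : ∀ p ∈ l, P p) : ∀ p ∈ (a, b) :: l, P p := by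
  intro p hp
  rcases List.mem_cons.mp hp with rfl | hp
  · exact h
  · exact t p hp

theorem all_append {P : ℕ × ℕ → Prop} {l l' : List (ℕ × ℕ)} (h : ∀ p ∈ l, P p)
    (t : ∀ p ∈ l', P p) : ∀ p ∈ l ++ l', P p := by
  intro p hp
  rcases List.mem_append.mp hp with hp | hp
  · exact h p hp
  · exact t p hp

/-- check of one entry against the literal table (`n` words) -/
noncomputable def KF.entOk (n : Nat) (p : Nat × Nat) : Bool :=
  Nat.ble 1 p.1 && (Nat.ble (Nat.mul p.1 p.1) 4840000 &&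
    Nat.ble (KF.pc (KF.mask 1 (Nat.mul 16 n)) (KF.mask 2 (Nat.mul 8 n))
      (KF.mask 4 (Nat.mul 4 n)) (KF.mask 8 (Nat.mul 2 n)) (KF.mask 16 n)
      (KF.cut TL.LT (Nat.mul p.1 p.1))) p.2)

/-- counts from the literal table -/
theorem ent_of_table {W L : ℕ → Prop} (hG : GRules W L) {n : ℕ} (hn : 4840000 ≤ 32 * n)
    (hn2 : n < 134217728) {p : ℕ × ℕ} (h : KF.entOk n p = true) : KEnt L p := by
  classical
  obtain ⟨R, v⟩ := p
  unfold KF.entOk at h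
  rw [Bool.and_eq_true, Bool.and_eq_true] at h
  obtain ⟨h1, h2, h3⟩ := h
  have hR1 : 1 ≤ R := Nat.le_of_ble_eq_true h1
  have hR : R * R ≤ 4840000 := Nat.le_of_ble_eq_true h2
  refine ⟨hR1, ?_⟩
  change gcount L (R * R - 1) ≤ v
  have h3' := Nat.le_of_ble_eq_true h3
  refine le_trans ?_ h3'
  rw [KF_pc, KF_mask, KF_mask, KF_mask, KF_mask, KF_mask]
  have e := Pop.pc_eq n (KF.cut TL.LT (Nat.mul R R)) hn2
  refine le_trans ?_ (le_of_eq e.symm)
  rw [gcount_eq, Nat.sub_add_cancel (Nat.mul_le_mul hR1 hR1)]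
  unfold cntI Pop.pop
  apply Finset.card_le_card
  intro m hm
  obtain ⟨h4, h5⟩ := Finset.mem_filter.mp hm
  have h6 := (Finset.mem_Ico.mp h4).2
  refine Finset.mem_filter.mpr ⟨Finset.mem_range.mpr (by omega), ?_⟩
  have h7 : (KF.cut TL.LT (Nat.mul R R)).testBit m = TL.LT.testBit m := cut_testBit h6
  rw [h7]
  exact TL.tab_valid.2 m (by omega) ((hG.small m (by omega)).2 h5)

end Pool.Agent.AddSq
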