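import Pool.Agent.AddSq.TabBig

/-!
# Kernel data, blocks `2200 ≤ k < 8192`
-/

namespace Pool.Agent.AddSq.KD01

open KF

set_option linter.all false

noncomputable def S (e k : Nat) : Nat :=
  osum (block (cut bw13 16383) (cut bl13 23171) (cut bw13 32771) (cut bl13 46347) (cut bw13 65547))
    (pc (mask 1 (Nat.mul 16 512)) (mask 2 (Nat.mul 8 512)) (mask 4 (Nat.mul 4 512))
      (mask 8 (Nat.mul 2 512)) (mask 16 512)) e k

theorem grp1 :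
    Nat.ble (S 3 2200) 87 = true ∧
    Nat.ble (S 5 2208) 346 = true ∧
    Nat.ble (S 5 2240) 306 = true ∧
    Nat.ble (S 5 2272) 353 = true ∧
    Nat.ble (S 5 2304) 313 = true ∧
    Nat.ble (S 5 2336) 344 = true ∧
    Nat.ble (S 5 2368) 377 = true ∧
    Nat.ble (S 5 2400) 340 = true ∧
    Nat.ble (S 5 2432) 313 = true ∧
    Nat.ble (S 5 2464) 335 = true ∧
    Nat.ble (S 5 2496) 343 = true ∧
    Nat.ble (S 5 2528) 343 = true ∧
    Nat.ble (S 5 2560) 372 = true ∧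
    Nat.ble (S 5 2592) 325 = true ∧
    Nat.ble (S 5 2624) 290 = true ∧
    Nat.ble (S 5 2656) 358 = true ∧
    Nat.ble (S 5 2688) 376 = true ∧
    Nat.ble (S 5 2720) 368 = true ∧
    Nat.ble (S 5 2752) 402 = true ∧
    Nat.ble (S 5 2784) 390 = true ∧
    Nat.ble (S 5 2816) 352 = true ∧
    Nat.ble (S 5 2848) 394 = true ∧
    Nat.ble (S 5 2880) 381 = true ∧
    Nat.ble (S 5 2912) 397 = true ∧
    Nat.ble (S 5 2944) 398 = true ∧
    Nat.ble (S 5 2976) 388 = true ∧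
    Nat.ble (S 5 3008) 385 = true ∧
    Nat.ble (S 5 3040) 416 = true ∧
    Nat.ble (S 5 3072) 422 = true ∧
    Nat.ble (S 5 3104) 392 = true ∧
    Nat.ble (S 5 3136) 410 = true ∧
    Nat.ble (S 5 3168) 410 = true ∧
    Nat.ble (S 5 3200) 406 = true ∧
    Nat.ble (S 5 3232) 373 = true ∧
    Nat.ble (S 5 3264) 440 = true ∧
    Nat.ble (S 5 3296) 405 = true ∧
    Nat.ble (S 5 3328) 394 = true ∧
    Nat.ble (S 5 3360) 413 = true ∧
    Nat.ble (S 5 3392) 436 = true ∧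
    Nat.ble (S 5 3424) 397 = true ∧
    Nat.ble (S 5 3456) 380 = true ∧
    Nat.ble (S 5 3488) 406 = true ∧
    Nat.ble (S 5 3520) 445 = true ∧
    Nat.ble (S 5 3552) 441 = true ∧
    Nat.ble (S 5 3584) 443 = true ∧
    Nat.ble (S 5 3616) 438 = true ∧
    Nat.ble (S 5 3648) 418 = true ∧
    Nat.ble (S 5 3680) 455 = true ∧
    Nat.ble (S 5 3712) 416 = true ∧
    Nat.ble (S 5 3744) 414 = true ∧
    Nat.ble (S 5 3776) 458 = true ∧
    Nat.ble (S 5 3808) 429 = true ∧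
    Nat.ble (S 5 3840) 439 = true ∧
    Nat.ble (S 5 3872) 432 = true ∧
    Nat.ble (S 5 3904) 427 = true ∧
    Nat.ble (S 5 3936) 432 = true ∧
    Nat.ble (S 5 3968) 469 = true ∧
    Nat.ble (S 5 4000) 439 = true ∧
    Nat.ble (S 5 4032) 508 = true ∧
    Nat.ble (S 5 4064) 430 = true ∧
    Nat.ble (S 5 4096) 456 = true ∧
    Nat.ble (S 5 4128) 449 = true ∧
    Nat.ble (S 5 4160) 432 = true ∧
    Nat.ble (S 5 4192) 437 = true := by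
  refine ⟨?_, ?_, ?_, ?_, ?_, ?_, ?_, ?_, ?_, ?_, ?_, ?_, ?_, ?_, ?_, ?_, ?_, ?_, ?_, ?_, ?_, ?_, ?_, ?_, ?_, ?_, ?_, ?_, ?_, ?_, ?_, ?_, ?_, ?_, ?_, ?_, ?_, ?_, ?_, ?_, ?_, ?_, ?_, ?_, ?_, ?_, ?_, ?_, ?_, ?_, ?_, ?_, ?_, ?_, ?_, ?_, ?_, ?_, ?_, ?_, ?_, ?_, ?_, ?_⟩ <;>
    decide +kernel

theorem grp2 :
    Nat.ble (S 5 4224) 467 = true ∧
    Nat.ble (S 5 4256) 435 = true ∧
    Nat.ble (S 5 4288) 457 = true ∧
    Nat.ble (S 5 4320) 502 = true ∧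
    Nat.ble (S 5 4352) 455 = true ∧
    Nat.ble (S 5 4384) 421 = true ∧
    Nat.ble (S 5 4416) 482 = true ∧
    Nat.ble (S 5 4448) 471 = true ∧
    Nat.ble (S 5 4480) 467 = true ∧
    Nat.ble (S 5 4512) 502 = true ∧
    Nat.ble (S 5 4544) 510 = true ∧
    Nat.ble (S 5 4576) 508 = true ∧
    Nat.ble (S 5 4608) 523 = true ∧
    Nat.ble (S 5 4640) 474 = true ∧
    Nat.ble (S 5 4672) 472 = true ∧
    Nat.ble (S 5 4704) 497 = true ∧
    Nat.ble (S 5 4736) 491 = true ∧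
    Nat.ble (S 5 4768) 485 = true ∧
    Nat.ble (S 5 4800) 528 = true ∧
    Nat.ble (S 5 4832) 464 = true ∧
    Nat.ble (S 5 4864) 464 = true ∧
    Nat.ble (S 5 4896) 538 = true ∧
    Nat.ble (S 5 4928) 504 = true ∧
    Nat.ble (S 5 4960) 511 = true ∧
    Nat.ble (S 5 4992) 463 = true ∧
    Nat.ble (S 5 5024) 505 = true ∧
    Nat.ble (S 5 5056) 535 = true ∧
    Nat.ble (S 5 5088) 509 = true ∧
    Nat.ble (S 5 5120) 475 = true ∧
    Nat.ble (S 5 5152) 539 = true ∧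
    Nat.ble (S 5 5184) 492 = true ∧
    Nat.ble (S 5 5216) 543 = true ∧
    Nat.ble (S 5 5248) 523 = true ∧
    Nat.ble (S 5 5280) 512 = true ∧
    Nat.ble (S 5 5312) 526 = true ∧
    Nat.ble (S 5 5344) 471 = true ∧
    Nat.ble (S 5 5376) 494 = true ∧
    Nat.ble (S 5 5408) 517 = true ∧
    Nat.ble (S 5 5440) 513 = true ∧
    Nat.ble (S 5 5472) 525 = true ∧
    Nat.ble (S 5 5504) 494 = true ∧
    Nat.ble (S 5 5536) 479 = true ∧
    Nat.ble (S 5 5568) 502 = true ∧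
    Nat.ble (S 5 5600) 534 = true ∧
    Nat.ble (S 5 5632) 482 = true ∧
    Nat.ble (S 5 5664) 486 = true ∧
    Nat.ble (S 5 5696) 537 = true ∧
    Nat.ble (S 5 5728) 521 = true ∧
    Nat.ble (S 5 5760) 538 = true ∧
    Nat.ble (S 5 5792) 504 = true ∧
    Nat.ble (S 5 5824) 521 = true ∧
    Nat.ble (S 5 5856) 462 = true ∧
    Nat.ble (S 5 5888) 512 = true ∧
    Nat.ble (S 5 5920) 543 = true ∧
    Nat.ble (S 5 5952) 548 = true ∧
    Nat.ble (S 5 5984) 511 = true ∧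
    Nat.ble (S 5 6016) 492 = true ∧
    Nat.ble (S 5 6048) 545 = true ∧
    Nat.ble (S 5 6080) 492 = true ∧
    Nat.ble (S 5 6112) 547 = true ∧
    Nat.ble (S 5 6144) 554 = true ∧
    Nat.ble (S 5 6176) 539 = true ∧
    Nat.ble (S 5 6208) 564 = true ∧
    Nat.ble (S 5 6240) 559 = true := by
  refine ⟨?_, ?_, ?_, ?_, ?_, ?_, ?_, ?_, ?_, ?_, ?_, ?_, ?_, ?_, ?_, ?_, ?_, ?_, ?_, ?_, ?_, ?_, ?_, ?_, ?_, ?_, ?_, ?_, ?_, ?_, ?_, ?_, ?_, ?_, ?_, ?_, ?_, ?_, ?_, ?_, ?_, ?_, ?_, ?_, ?_, ?_, ?_, ?_, ?_, ?_, ?_, ?_, ?_, ?_, ?_, ?_, ?_, ?_, ?_, ?_, ?_, ?_, ?_, ?_⟩ <;>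
    decide +kernel

theorem grp3 :
    Nat.ble (S 5 6272) 567 = true ∧
    Nat.ble (S 5 6304) 546 = true ∧
    Nat.ble (S 5 6336) 489 = true ∧
    Nat.ble (S 5 6368) 512 = true ∧
    Nat.ble (S 5 6400) 543 = true ∧
    Nat.ble (S 5 6432) 506 = true ∧
    Nat.ble (S 5 6464) 522 = true ∧
    Nat.ble (S 5 6496) 543 = true ∧
    Nat.ble (S 5 6528) 564 = true ∧
    Nat.ble (S 5 6560) 582 = true ∧
    Nat.ble (S 5 6592) 549 = true ∧
    Nat.ble (S 5 6624) 579 = true ∧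
    Nat.ble (S 5 6656) 549 = true ∧
    Nat.ble (S 5 6688) 540 = true ∧
    Nat.ble (S 5 6720) 562 = true ∧
    Nat.ble (S 5 6752) 537 = true ∧
    Nat.ble (S 5 6784) 541 = true ∧
    Nat.ble (S 5 6816) 574 = true ∧
    Nat.ble (S 5 6848) 520 = true ∧
    Nat.ble (S 5 6880) 573 = true ∧
    Nat.ble (S 5 6912) 539 = true ∧
    Nat.ble (S 5 6944) 525 = true ∧
    Nat.ble (S 5 6976) 504 = true ∧
    Nat.ble (S 5 7008) 528 = true ∧
    Nat.ble (S 5 7040) 604 = true ∧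
    Nat.ble (S 5 7072) 600 = true ∧
    Nat.ble (S 5 7104) 576 = true ∧
    Nat.ble (S 5 7136) 549 = true ∧
    Nat.ble (S 5 7168) 575 = true ∧
    Nat.ble (S 5 7200) 577 = true ∧
    Nat.ble (S 5 7232) 558 = true ∧
    Nat.ble (S 5 7264) 568 = true ∧
    Nat.ble (S 5 7296) 573 = true ∧
    Nat.ble (S 5 7328) 581 = true ∧
    Nat.ble (S 5 7360) 578 = true ∧
    Nat.ble (S 5 7392) 565 = true ∧
    Nat.ble (S 5 7424) 585 = true ∧
    Nat.ble (S 5 7456) 613 = true ∧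
    Nat.ble (S 5 7488) 591 = true ∧
    Nat.ble (S 5 7520) 563 = true ∧
    Nat.ble (S 5 7552) 597 = true ∧
    Nat.ble (S 5 7584) 642 = true ∧
    Nat.ble (S 5 7616) 596 = true ∧
    Nat.ble (S 5 7648) 582 = true ∧
    Nat.ble (S 5 7680) 588 = true ∧
    Nat.ble (S 5 7712) 564 = true ∧
    Nat.ble (S 5 7744) 622 = true ∧
    Nat.ble (S 5 7776) 563 = true ∧
    Nat.ble (S 5 7808) 610 = true ∧
    Nat.ble (S 5 7840) 602 = true ∧
    Nat.ble (S 5 7872) 547 = true ∧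
    Nat.ble (S 5 7904) 622 = true ∧
    Nat.ble (S 5 7936) 671 = true ∧
    Nat.ble (S 5 7968) 572 = true ∧
    Nat.ble (S 5 8000) 590 = true ∧
    Nat.ble (S 5 8032) 599 = true ∧
    Nat.ble (S 5 8064) 585 = true ∧
    Nat.ble (S 5 8096) 603 = true ∧
    Nat.ble (S 5 8128) 571 = true ∧
    Nat.ble (S 5 8160) 639 = true := by
  refine ⟨?_, ?_, ?_, ?_, ?_, ?_, ?_, ?_, ?_, ?_, ?_, ?_, ?_, ?_, ?_, ?_, ?_, ?_, ?_, ?_, ?_, ?_, ?_, ?_, ?_, ?_, ?_, ?_, ?_, ?_, ?_, ?_, ?_, ?_, ?_, ?_, ?_, ?_, ?_, ?_, ?_, ?_, ?_, ?_, ?_, ?_, ?_, ?_, ?_, ?_, ?_, ?_, ?_, ?_, ?_, ?_, ?_, ?_, ?_, ?_⟩ <;>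
    decide +kernel

theorem S_eq (e k : Nat) : S e k =
    osum (block (cut bw13 16383) (cut bl13 23171) (cut bw13 32771) (cut bl13 46347) (cut bw13 65547))
    (pc (mask 1 (Nat.mul 16 512)) (mask 2 (Nat.mul 8 512)) (mask 4 (Nat.mul 4 512))
      (mask 8 (Nat.mul 2 512)) (mask 16 512)) e k := rfl

attribute [irreducible] S

end Pool.Agent.AddSq.KD01
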