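import Pool.Agent.AddSq.TabBig

/-!
# Kernel data, blocks `8192 ≤ k < 16384`
-/

namespace Pool.Agent.AddSq.KD02

open KF

set_option linter.all false

noncomputable def S (e k : Nat) : Nat :=
  osum (block (cut bw14 32767) (cut bl14 46343) (cut bw14 65541) (cut bl14 92691) (cut bw14 131089))
    (pc (mask 1 (Nat.mul 16 1024)) (mask 2 (Nat.mul 8 1024)) (mask 4 (Nat.mul 4 1024))
      (mask 8 (Nat.mul 2 1024)) (mask 16 1024)) e k

theorem grp1 :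
    Nat.ble (S 6 8192) 1253 = true ∧
    Nat.ble (S 6 8256) 1256 = true ∧
    Nat.ble (S 6 8320) 1258 = true ∧
    Nat.ble (S 6 8384) 1199 = true ∧
    Nat.ble (S 6 8448) 1197 = true ∧
    Nat.ble (S 6 8512) 1237 = true ∧
    Nat.ble (S 6 8576) 1191 = true ∧
    Nat.ble (S 6 8640) 1170 = true ∧
    Nat.ble (S 6 8704) 1221 = true ∧
    Nat.ble (S 6 8768) 1249 = true ∧
    Nat.ble (S 6 8832) 1319 = true ∧
    Nat.ble (S 6 8896) 1232 = true ∧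
    Nat.ble (S 6 8960) 1299 = true ∧
    Nat.ble (S 6 9024) 1303 = true ∧
    Nat.ble (S 6 9088) 1267 = true ∧
    Nat.ble (S 6 9152) 1289 = true ∧
    Nat.ble (S 6 9216) 1252 = true ∧
    Nat.ble (S 6 9280) 1285 = true ∧
    Nat.ble (S 6 9344) 1287 = true ∧
    Nat.ble (S 6 9408) 1303 = true ∧
    Nat.ble (S 6 9472) 1278 = true ∧
    Nat.ble (S 6 9536) 1392 = true ∧
    Nat.ble (S 6 9600) 1294 = true ∧
    Nat.ble (S 6 9664) 1265 = true ∧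
    Nat.ble (S 6 9728) 1298 = true ∧
    Nat.ble (S 6 9792) 1353 = true ∧
    Nat.ble (S 6 9856) 1275 = true ∧
    Nat.ble (S 6 9920) 1313 = true ∧
    Nat.ble (S 6 9984) 1326 = true ∧
    Nat.ble (S 6 10048) 1325 = true ∧
    Nat.ble (S 6 10112) 1297 = true ∧
    Nat.ble (S 6 10176) 1379 = true ∧
    Nat.ble (S 6 10240) 1313 = true ∧
    Nat.ble (S 6 10304) 1311 = true ∧
    Nat.ble (S 6 10368) 1353 = true ∧
    Nat.ble (S 6 10432) 1310 = true ∧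
    Nat.ble (S 6 10496) 1388 = true ∧
    Nat.ble (S 6 10560) 1352 = true ∧
    Nat.ble (S 6 10624) 1387 = true ∧
    Nat.ble (S 6 10688) 1397 = true ∧
    Nat.ble (S 6 10752) 1388 = true ∧
    Nat.ble (S 6 10816) 1357 = true ∧
    Nat.ble (S 6 10880) 1330 = true ∧
    Nat.ble (S 6 10944) 1450 = true ∧
    Nat.ble (S 6 11008) 1453 = true ∧
    Nat.ble (S 6 11072) 1359 = true ∧
    Nat.ble (S 6 11136) 1403 = true ∧
    Nat.ble (S 6 11200) 1416 = true ∧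
    Nat.ble (S 6 11264) 1454 = true ∧
    Nat.ble (S 6 11328) 1344 = true ∧
    Nat.ble (S 6 11392) 1395 = true ∧
    Nat.ble (S 6 11456) 1349 = true ∧
    Nat.ble (S 6 11520) 1517 = true ∧
    Nat.ble (S 6 11584) 1392 = true ∧
    Nat.ble (S 6 11648) 1443 = true ∧
    Nat.ble (S 6 11712) 1410 = true ∧
    Nat.ble (S 6 11776) 1484 = true ∧
    Nat.ble (S 6 11840) 1471 = true ∧
    Nat.ble (S 6 11904) 1440 = true ∧
    Nat.ble (S 6 11968) 1412 = true ∧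
    Nat.ble (S 6 12032) 1437 = true ∧
    Nat.ble (S 6 12096) 1525 = true ∧
    Nat.ble (S 6 12160) 1452 = true ∧
    Nat.ble (S 6 12224) 1506 = true := by
  refine ⟨?_, ?_, ?_, ?_, ?_, ?_, ?_, ?_, ?_, ?_, ?_, ?_, ?_, ?_, ?_, ?_, ?_, ?_, ?_, ?_, ?_, ?_, ?_, ?_, ?_, ?_, ?_, ?_, ?_, ?_, ?_, ?_, ?_, ?_, ?_, ?_, ?_, ?_, ?_, ?_, ?_, ?_, ?_, ?_, ?_, ?_, ?_, ?_, ?_, ?_, ?_, ?_, ?_, ?_, ?_, ?_, ?_, ?_, ?_, ?_, ?_, ?_, ?_, ?_⟩ <;>
    decide +kernel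

theorem grp2 :
    Nat.ble (S 6 12288) 1376 = true ∧
    Nat.ble (S 6 12352) 1494 = true ∧
    Nat.ble (S 6 12416) 1467 = true ∧
    Nat.ble (S 6 12480) 1428 = true ∧
    Nat.ble (S 6 12544) 1434 = true ∧
    Nat.ble (S 6 12608) 1474 = true ∧
    Nat.ble (S 6 12672) 1412 = true ∧
    Nat.ble (S 6 12736) 1476 = true ∧
    Nat.ble (S 6 12800) 1446 = true ∧
    Nat.ble (S 6 12864) 1476 = true ∧
    Nat.ble (S 6 12928) 1482 = true ∧
    Nat.ble (S 6 12992) 1419 = true ∧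
    Nat.ble (S 6 13056) 1481 = true ∧
    Nat.ble (S 6 13120) 1437 = true ∧
    Nat.ble (S 6 13184) 1480 = true ∧
    Nat.ble (S 6 13248) 1509 = true ∧
    Nat.ble (S 6 13312) 1549 = true ∧
    Nat.ble (S 6 13376) 1499 = true ∧
    Nat.ble (S 6 13440) 1512 = true ∧
    Nat.ble (S 6 13504) 1472 = true ∧
    Nat.ble (S 6 13568) 1515 = true ∧
    Nat.ble (S 6 13632) 1595 = true ∧
    Nat.ble (S 6 13696) 1490 = true ∧
    Nat.ble (S 6 13760) 1492 = true ∧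
    Nat.ble (S 6 13824) 1540 = true ∧
    Nat.ble (S 6 13888) 1546 = true ∧
    Nat.ble (S 6 13952) 1479 = true ∧
    Nat.ble (S 6 14016) 1568 = true ∧
    Nat.ble (S 6 14080) 1488 = true ∧
    Nat.ble (S 6 14144) 1483 = true ∧
    Nat.ble (S 6 14208) 1522 = true ∧
    Nat.ble (S 6 14272) 1533 = true ∧
    Nat.ble (S 6 14336) 1554 = true ∧
    Nat.ble (S 6 14400) 1601 = true ∧
    Nat.ble (S 6 14464) 1528 = true ∧
    Nat.ble (S 6 14528) 1581 = true ∧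
    Nat.ble (S 6 14592) 1545 = true ∧
    Nat.ble (S 6 14656) 1484 = true ∧
    Nat.ble (S 6 14720) 1574 = true ∧
    Nat.ble (S 6 14784) 1568 = true ∧
    Nat.ble (S 6 14848) 1641 = true ∧
    Nat.ble (S 6 14912) 1555 = true ∧
    Nat.ble (S 6 14976) 1618 = true ∧
    Nat.ble (S 6 15040) 1601 = true ∧
    Nat.ble (S 6 15104) 1548 = true ∧
    Nat.ble (S 6 15168) 1625 = true ∧
    Nat.ble (S 6 15232) 1611 = true ∧
    Nat.ble (S 6 15296) 1602 = true ∧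
    Nat.ble (S 6 15360) 1539 = true ∧
    Nat.ble (S 6 15424) 1572 = true ∧
    Nat.ble (S 6 15488) 1681 = true ∧
    Nat.ble (S 6 15552) 1558 = true ∧
    Nat.ble (S 6 15616) 1647 = true ∧
    Nat.ble (S 6 15680) 1638 = true ∧
    Nat.ble (S 6 15744) 1551 = true ∧
    Nat.ble (S 6 15808) 1617 = true ∧
    Nat.ble (S 6 15872) 1584 = true ∧
    Nat.ble (S 6 15936) 1640 = true ∧
    Nat.ble (S 6 16000) 1606 = true ∧
    Nat.ble (S 6 16064) 1610 = true ∧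
    Nat.ble (S 6 16128) 1581 = true ∧
    Nat.ble (S 6 16192) 1609 = true ∧
    Nat.ble (S 6 16256) 1621 = true ∧
    Nat.ble (S 6 16320) 1623 = true := by
  refine ⟨?_, ?_, ?_, ?_, ?_, ?_, ?_, ?_, ?_, ?_, ?_, ?_, ?_, ?_, ?_, ?_, ?_, ?_, ?_, ?_, ?_, ?_, ?_, ?_, ?_, ?_, ?_, ?_, ?_, ?_, ?_, ?_, ?_, ?_, ?_, ?_, ?_, ?_, ?_, ?_, ?_, ?_, ?_, ?_, ?_, ?_, ?_, ?_, ?_, ?_, ?_, ?_, ?_, ?_, ?_, ?_, ?_, ?_, ?_, ?_, ?_, ?_, ?_, ?_⟩ <;>
    decide +kernel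

theorem S_eq (e k : Nat) : S e k =
    osum (block (cut bw14 32767) (cut bl14 46343) (cut bw14 65541) (cut bl14 92691) (cut bw14 131089))
    (pc (mask 1 (Nat.mul 16 1024)) (mask 2 (Nat.mul 8 1024)) (mask 4 (Nat.mul 4 1024))
      (mask 8 (Nat.mul 2 1024)) (mask 16 1024)) e k := rfl

attribute [irreducible] S

end Pool.Agent.AddSq.KD02
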