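import Pool.Agent.AddSq.TabBig

/-!
# Kernel data, blocks `16384 ≤ k < 32768`
-/

namespace Pool.Agent.AddSq.KD03

open KF

set_option linter.all false

noncomputable def S (e k : Nat) : Nat :=
  osum (block (cut bw15 65535) (cut bl15 92683) (cut bw15 131077) (cut bl15 185375) (cut bw15 262163))
    (pc (mask 1 (Nat.mul 16 2048)) (mask 2 (Nat.mul 8 2048)) (mask 4 (Nat.mul 4 2048))
      (mask 8 (Nat.mul 2 2048)) (mask 16 2048)) e k

theorem grp1 :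
    Nat.ble (S 7 16384) 3301 = true ∧
    Nat.ble (S 7 16512) 3276 = true ∧
    Nat.ble (S 7 16640) 3291 = true ∧
    Nat.ble (S 7 16768) 3233 = true ∧
    Nat.ble (S 7 16896) 3312 = true ∧
    Nat.ble (S 7 17024) 3259 = true ∧
    Nat.ble (S 7 17152) 3358 = true ∧
    Nat.ble (S 7 17280) 3352 = true ∧
    Nat.ble (S 7 17408) 3374 = true ∧
    Nat.ble (S 7 17536) 3373 = true ∧
    Nat.ble (S 7 17664) 3400 = true ∧
    Nat.ble (S 7 17792) 3401 = true ∧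
    Nat.ble (S 7 17920) 3371 = true ∧
    Nat.ble (S 7 18048) 3416 = true ∧
    Nat.ble (S 7 18176) 3452 = true ∧
    Nat.ble (S 7 18304) 3318 = true ∧
    Nat.ble (S 7 18432) 3532 = true ∧
    Nat.ble (S 7 18560) 3463 = true ∧
    Nat.ble (S 7 18688) 3417 = true ∧
    Nat.ble (S 7 18816) 3577 = true ∧
    Nat.ble (S 7 18944) 3521 = true ∧
    Nat.ble (S 7 19072) 3400 = true ∧
    Nat.ble (S 7 19200) 3467 = true ∧
    Nat.ble (S 7 19328) 3479 = true ∧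
    Nat.ble (S 7 19456) 3437 = true ∧
    Nat.ble (S 7 19584) 3526 = true ∧
    Nat.ble (S 7 19712) 3623 = true ∧
    Nat.ble (S 7 19840) 3544 = true ∧
    Nat.ble (S 7 19968) 3689 = true ∧
    Nat.ble (S 7 20096) 3624 = true ∧
    Nat.ble (S 7 20224) 3559 = true ∧
    Nat.ble (S 7 20352) 3668 = true ∧
    Nat.ble (S 7 20480) 3647 = true ∧
    Nat.ble (S 7 20608) 3542 = true ∧
    Nat.ble (S 7 20736) 3692 = true ∧
    Nat.ble (S 7 20864) 3643 = true ∧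
    Nat.ble (S 7 20992) 3701 = true ∧
    Nat.ble (S 7 21120) 3611 = true ∧
    Nat.ble (S 7 21248) 3653 = true ∧
    Nat.ble (S 7 21376) 3781 = true ∧
    Nat.ble (S 7 21504) 3774 = true ∧
    Nat.ble (S 7 21632) 3612 = true ∧
    Nat.ble (S 7 21760) 3731 = true ∧
    Nat.ble (S 7 21888) 3731 = true ∧
    Nat.ble (S 7 22016) 3678 = true ∧
    Nat.ble (S 7 22144) 3680 = true ∧
    Nat.ble (S 7 22272) 3747 = true ∧
    Nat.ble (S 7 22400) 3771 = true ∧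
    Nat.ble (S 7 22528) 3826 = true ∧
    Nat.ble (S 7 22656) 3738 = true ∧
    Nat.ble (S 7 22784) 3819 = true ∧
    Nat.ble (S 7 22912) 3781 = true ∧
    Nat.ble (S 7 23040) 3869 = true ∧
    Nat.ble (S 7 23168) 3884 = true ∧
    Nat.ble (S 7 23296) 3751 = true ∧
    Nat.ble (S 7 23424) 3856 = true ∧
    Nat.ble (S 7 23552) 3891 = true ∧
    Nat.ble (S 7 23680) 3806 = true ∧
    Nat.ble (S 7 23808) 3924 = true ∧
    Nat.ble (S 7 23936) 3938 = true ∧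
    Nat.ble (S 7 24064) 3805 = true ∧
    Nat.ble (S 7 24192) 3895 = true ∧
    Nat.ble (S 7 24320) 3909 = true ∧
    Nat.ble (S 7 24448) 3804 = true := by
  refine ⟨?_, ?_, ?_, ?_, ?_, ?_, ?_, ?_, ?_, ?_, ?_, ?_, ?_, ?_, ?_, ?_, ?_, ?_, ?_, ?_, ?_, ?_, ?_, ?_, ?_, ?_, ?_, ?_, ?_, ?_, ?_, ?_, ?_, ?_, ?_, ?_, ?_, ?_, ?_, ?_, ?_, ?_, ?_, ?_, ?_, ?_, ?_, ?_, ?_, ?_, ?_, ?_, ?_, ?_, ?_, ?_, ?_, ?_, ?_, ?_, ?_, ?_, ?_, ?_⟩ <;>
    decide +kernel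

theorem grp2 :
    Nat.ble (S 7 24576) 3933 = true ∧
    Nat.ble (S 7 24704) 3833 = true ∧
    Nat.ble (S 7 24832) 3817 = true ∧
    Nat.ble (S 7 24960) 4103 = true ∧
    Nat.ble (S 7 25088) 3913 = true ∧
    Nat.ble (S 7 25216) 4051 = true ∧
    Nat.ble (S 7 25344) 4019 = true ∧
    Nat.ble (S 7 25472) 3970 = true ∧
    Nat.ble (S 7 25600) 3956 = true ∧
    Nat.ble (S 7 25728) 4022 = true ∧
    Nat.ble (S 7 25856) 4046 = true ∧
    Nat.ble (S 7 25984) 4084 = true ∧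
    Nat.ble (S 7 26112) 4132 = true ∧
    Nat.ble (S 7 26240) 4113 = true ∧
    Nat.ble (S 7 26368) 4146 = true ∧
    Nat.ble (S 7 26496) 4068 = true ∧
    Nat.ble (S 7 26624) 4179 = true ∧
    Nat.ble (S 7 26752) 4166 = true ∧
    Nat.ble (S 7 26880) 4223 = true ∧
    Nat.ble (S 7 27008) 4071 = true ∧
    Nat.ble (S 7 27136) 4106 = true ∧
    Nat.ble (S 7 27264) 4259 = true ∧
    Nat.ble (S 7 27392) 4187 = true ∧
    Nat.ble (S 7 27520) 4190 = true ∧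
    Nat.ble (S 7 27648) 4166 = true ∧
    Nat.ble (S 7 27776) 4077 = true ∧
    Nat.ble (S 7 27904) 4373 = true ∧
    Nat.ble (S 7 28032) 4228 = true ∧
    Nat.ble (S 7 28160) 4199 = true ∧
    Nat.ble (S 7 28288) 4215 = true ∧
    Nat.ble (S 7 28416) 4270 = true ∧
    Nat.ble (S 7 28544) 4253 = true ∧
    Nat.ble (S 7 28672) 4332 = true ∧
    Nat.ble (S 7 28800) 4381 = true ∧
    Nat.ble (S 7 28928) 4265 = true ∧
    Nat.ble (S 7 29056) 4180 = true ∧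
    Nat.ble (S 7 29184) 4261 = true ∧
    Nat.ble (S 7 29312) 4359 = true ∧
    Nat.ble (S 7 29440) 4325 = true ∧
    Nat.ble (S 7 29568) 4353 = true ∧
    Nat.ble (S 7 29696) 4250 = true ∧
    Nat.ble (S 7 29824) 4424 = true ∧
    Nat.ble (S 7 29952) 4340 = true ∧
    Nat.ble (S 7 30080) 4241 = true ∧
    Nat.ble (S 7 30208) 4386 = true ∧
    Nat.ble (S 7 30336) 4343 = true ∧
    Nat.ble (S 7 30464) 4385 = true ∧
    Nat.ble (S 7 30592) 4336 = true ∧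
    Nat.ble (S 7 30720) 4421 = true ∧
    Nat.ble (S 7 30848) 4339 = true ∧
    Nat.ble (S 7 30976) 4313 = true ∧
    Nat.ble (S 7 31104) 4379 = true ∧
    Nat.ble (S 7 31232) 4417 = true ∧
    Nat.ble (S 7 31360) 4493 = true ∧
    Nat.ble (S 7 31488) 4408 = true ∧
    Nat.ble (S 7 31616) 4424 = true ∧
    Nat.ble (S 7 31744) 4511 = true ∧
    Nat.ble (S 7 31872) 4418 = true ∧
    Nat.ble (S 7 32000) 4472 = true ∧
    Nat.ble (S 7 32128) 4462 = true ∧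
    Nat.ble (S 7 32256) 4375 = true ∧
    Nat.ble (S 7 32384) 4538 = true ∧
    Nat.ble (S 7 32512) 4518 = true ∧
    Nat.ble (S 7 32640) 4598 = true := by
  refine ⟨?_, ?_, ?_, ?_, ?_, ?_, ?_, ?_, ?_, ?_, ?_, ?_, ?_, ?_, ?_, ?_, ?_, ?_, ?_, ?_, ?_, ?_, ?_, ?_, ?_, ?_, ?_, ?_, ?_, ?_, ?_, ?_, ?_, ?_, ?_, ?_, ?_, ?_, ?_, ?_, ?_, ?_, ?_, ?_, ?_, ?_, ?_, ?_, ?_, ?_, ?_, ?_, ?_, ?_, ?_, ?_, ?_, ?_, ?_, ?_, ?_, ?_, ?_, ?_⟩ <;>
    decide +kernel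

theorem S_eq (e k : Nat) : S e k =
    osum (block (cut bw15 65535) (cut bl15 92683) (cut bw15 131077) (cut bl15 185375) (cut bw15 262163))
    (pc (mask 1 (Nat.mul 16 2048)) (mask 2 (Nat.mul 8 2048)) (mask 4 (Nat.mul 4 2048))
      (mask 8 (Nat.mul 2 2048)) (mask 16 2048)) e k := rfl

attribute [irreducible] S

end Pool.Agent.AddSq.KD03
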