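import Pool.Agent.AddSq.TabBig

/-!
# Kernel data, blocks `32768 ≤ k < 49152`
-/

namespace Pool.Agent.AddSq.KD04

open KF

set_option linter.all false

noncomputable def S (e k : Nat) : Nat :=
  osum (block (cut bw16 98303) (cut bl16 139025) (cut bw16 196615) (cut bl16 278059) (cut bw16 393239))
    (pc (mask 1 (Nat.mul 16 3072)) (mask 2 (Nat.mul 8 3072)) (mask 4 (Nat.mul 4 3072))
      (mask 8 (Nat.mul 2 3072)) (mask 16 3072)) e k

theorem grp1 :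
    Nat.ble (S 7 32768) 4538 = true ∧
    Nat.ble (S 7 32896) 4432 = true ∧
    Nat.ble (S 7 33024) 4519 = true ∧
    Nat.ble (S 7 33152) 4584 = true ∧
    Nat.ble (S 7 33280) 4571 = true ∧
    Nat.ble (S 7 33408) 4566 = true ∧
    Nat.ble (S 7 33536) 4583 = true ∧
    Nat.ble (S 7 33664) 4502 = true ∧
    Nat.ble (S 7 33792) 4485 = true ∧
    Nat.ble (S 7 33920) 4740 = true ∧
    Nat.ble (S 7 34048) 4578 = true ∧
    Nat.ble (S 7 34176) 4610 = true ∧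
    Nat.ble (S 7 34304) 4625 = true ∧
    Nat.ble (S 7 34432) 4559 = true ∧
    Nat.ble (S 7 34560) 4636 = true ∧
    Nat.ble (S 7 34688) 4587 = true ∧
    Nat.ble (S 7 34816) 4812 = true ∧
    Nat.ble (S 7 34944) 4624 = true ∧
    Nat.ble (S 7 35072) 4696 = true ∧
    Nat.ble (S 7 35200) 4843 = true ∧
    Nat.ble (S 7 35328) 4657 = true ∧
    Nat.ble (S 7 35456) 4722 = true ∧
    Nat.ble (S 7 35584) 4790 = true ∧
    Nat.ble (S 7 35712) 4620 = true ∧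
    Nat.ble (S 7 35840) 4711 = true ∧
    Nat.ble (S 7 35968) 4685 = true ∧
    Nat.ble (S 7 36096) 4750 = true ∧
    Nat.ble (S 7 36224) 4715 = true ∧
    Nat.ble (S 7 36352) 4643 = true ∧
    Nat.ble (S 7 36480) 4770 = true ∧
    Nat.ble (S 7 36608) 4802 = true ∧
    Nat.ble (S 7 36736) 4742 = true ∧
    Nat.ble (S 7 36864) 4854 = true ∧
    Nat.ble (S 7 36992) 4730 = true ∧
    Nat.ble (S 7 37120) 4658 = true ∧
    Nat.ble (S 7 37248) 4836 = true ∧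
    Nat.ble (S 7 37376) 4796 = true ∧
    Nat.ble (S 7 37504) 4747 = true ∧
    Nat.ble (S 7 37632) 4821 = true ∧
    Nat.ble (S 7 37760) 4853 = true ∧
    Nat.ble (S 7 37888) 4823 = true ∧
    Nat.ble (S 7 38016) 4900 = true ∧
    Nat.ble (S 7 38144) 5061 = true ∧
    Nat.ble (S 7 38272) 4798 = true ∧
    Nat.ble (S 7 38400) 4841 = true ∧
    Nat.ble (S 7 38528) 4856 = true ∧
    Nat.ble (S 7 38656) 4948 = true ∧
    Nat.ble (S 7 38784) 4972 = true ∧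
    Nat.ble (S 7 38912) 4942 = true ∧
    Nat.ble (S 7 39040) 4767 = true ∧
    Nat.ble (S 7 39168) 4936 = true ∧
    Nat.ble (S 7 39296) 5009 = true ∧
    Nat.ble (S 7 39424) 4875 = true ∧
    Nat.ble (S 7 39552) 4990 = true ∧
    Nat.ble (S 7 39680) 4883 = true ∧
    Nat.ble (S 7 39808) 4969 = true ∧
    Nat.ble (S 7 39936) 5096 = true ∧
    Nat.ble (S 7 40064) 5013 = true ∧
    Nat.ble (S 7 40192) 4993 = true ∧
    Nat.ble (S 7 40320) 5036 = true ∧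
    Nat.ble (S 7 40448) 5006 = true ∧
    Nat.ble (S 7 40576) 4939 = true ∧
    Nat.ble (S 7 40704) 4972 = true ∧
    Nat.ble (S 7 40832) 4971 = true := by
  refine ⟨?_, ?_, ?_, ?_, ?_, ?_, ?_, ?_, ?_, ?_, ?_, ?_, ?_, ?_, ?_, ?_, ?_, ?_, ?_, ?_, ?_, ?_, ?_, ?_, ?_, ?_, ?_, ?_, ?_, ?_, ?_, ?_, ?_, ?_, ?_, ?_, ?_, ?_, ?_, ?_, ?_, ?_, ?_, ?_, ?_, ?_, ?_, ?_, ?_, ?_, ?_, ?_, ?_, ?_, ?_, ?_, ?_, ?_, ?_, ?_, ?_, ?_, ?_, ?_⟩ <;>
    decide +kernel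

theorem grp2 :
    Nat.ble (S 7 40960) 4974 = true ∧
    Nat.ble (S 7 41088) 5031 = true ∧
    Nat.ble (S 7 41216) 4957 = true ∧
    Nat.ble (S 7 41344) 5132 = true ∧
    Nat.ble (S 7 41472) 5063 = true ∧
    Nat.ble (S 7 41600) 5025 = true ∧
    Nat.ble (S 7 41728) 5091 = true ∧
    Nat.ble (S 7 41856) 5000 = true ∧
    Nat.ble (S 7 41984) 5262 = true ∧
    Nat.ble (S 7 42112) 5128 = true ∧
    Nat.ble (S 7 42240) 5117 = true ∧
    Nat.ble (S 7 42368) 5152 = true ∧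
    Nat.ble (S 7 42496) 4960 = true ∧
    Nat.ble (S 7 42624) 5215 = true ∧
    Nat.ble (S 7 42752) 5105 = true ∧
    Nat.ble (S 7 42880) 5150 = true ∧
    Nat.ble (S 7 43008) 5202 = true ∧
    Nat.ble (S 7 43136) 5233 = true ∧
    Nat.ble (S 7 43264) 5185 = true ∧
    Nat.ble (S 7 43392) 5201 = true ∧
    Nat.ble (S 7 43520) 5158 = true ∧
    Nat.ble (S 7 43648) 5375 = true ∧
    Nat.ble (S 7 43776) 5262 = true ∧
    Nat.ble (S 7 43904) 5261 = true ∧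
    Nat.ble (S 7 44032) 5173 = true ∧
    Nat.ble (S 7 44160) 5158 = true ∧
    Nat.ble (S 7 44288) 5445 = true ∧
    Nat.ble (S 7 44416) 5180 = true ∧
    Nat.ble (S 7 44544) 5298 = true ∧
    Nat.ble (S 7 44672) 5347 = true ∧
    Nat.ble (S 7 44800) 5350 = true ∧
    Nat.ble (S 7 44928) 5487 = true ∧
    Nat.ble (S 7 45056) 5397 = true ∧
    Nat.ble (S 7 45184) 5394 = true ∧
    Nat.ble (S 7 45312) 5164 = true ∧
    Nat.ble (S 7 45440) 5344 = true ∧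
    Nat.ble (S 7 45568) 5316 = true ∧
    Nat.ble (S 7 45696) 5355 = true ∧
    Nat.ble (S 7 45824) 5312 = true ∧
    Nat.ble (S 7 45952) 5498 = true ∧
    Nat.ble (S 7 46080) 5396 = true ∧
    Nat.ble (S 7 46208) 5315 = true ∧
    Nat.ble (S 7 46336) 5531 = true ∧
    Nat.ble (S 7 46464) 5407 = true ∧
    Nat.ble (S 7 46592) 5427 = true ∧
    Nat.ble (S 7 46720) 5343 = true ∧
    Nat.ble (S 7 46848) 5454 = true ∧
    Nat.ble (S 7 46976) 5416 = true ∧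
    Nat.ble (S 7 47104) 5415 = true ∧
    Nat.ble (S 7 47232) 5494 = true ∧
    Nat.ble (S 7 47360) 5346 = true ∧
    Nat.ble (S 7 47488) 5451 = true ∧
    Nat.ble (S 7 47616) 5516 = true ∧
    Nat.ble (S 7 47744) 5371 = true ∧
    Nat.ble (S 7 47872) 5432 = true ∧
    Nat.ble (S 7 48000) 5363 = true ∧
    Nat.ble (S 7 48128) 5462 = true ∧
    Nat.ble (S 7 48256) 5409 = true ∧
    Nat.ble (S 7 48384) 5567 = true ∧
    Nat.ble (S 7 48512) 5495 = true ∧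
    Nat.ble (S 7 48640) 5449 = true ∧
    Nat.ble (S 7 48768) 5564 = true ∧
    Nat.ble (S 7 48896) 5468 = true ∧
    Nat.ble (S 7 49024) 5439 = true := by
  refine ⟨?_, ?_, ?_, ?_, ?_, ?_, ?_, ?_, ?_, ?_, ?_, ?_, ?_, ?_, ?_, ?_, ?_, ?_, ?_, ?_, ?_, ?_, ?_, ?_, ?_, ?_, ?_, ?_, ?_, ?_, ?_, ?_, ?_, ?_, ?_, ?_, ?_, ?_, ?_, ?_, ?_, ?_, ?_, ?_, ?_, ?_, ?_, ?_, ?_, ?_, ?_, ?_, ?_, ?_, ?_, ?_, ?_, ?_, ?_, ?_, ?_, ?_, ?_, ?_⟩ <;>
    decide +kernel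

theorem S_eq (e k : Nat) : S e k =
    osum (block (cut bw16 98303) (cut bl16 139025) (cut bw16 196615) (cut bl16 278059) (cut bw16 393239))
    (pc (mask 1 (Nat.mul 16 3072)) (mask 2 (Nat.mul 8 3072)) (mask 4 (Nat.mul 4 3072))
      (mask 8 (Nat.mul 2 3072)) (mask 16 3072)) e k := rfl

attribute [irreducible] S

end Pool.Agent.AddSq.KD04
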