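import Pool.Agent.AddSq.TabBig

/-!
# Kernel data, blocks `49152 ≤ k < 65536`
-/

namespace Pool.Agent.AddSq.KD05

open KF

set_option linter.all false

noncomputable def S (e k : Nat) : Nat :=
  osum (block (cut bw16 131071) (cut bl16 185365) (cut bw16 262149) (cut bl16 370739) (cut bw16 524309))
    (pc (mask 1 (Nat.mul 16 4096)) (mask 2 (Nat.mul 8 4096)) (mask 4 (Nat.mul 4 4096))
      (mask 8 (Nat.mul 2 4096)) (mask 16 4096)) e k

theorem grp1 :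
    Nat.ble (S 7 49152) 5419 = true ∧
    Nat.ble (S 7 49280) 5604 = true ∧
    Nat.ble (S 7 49408) 5458 = true ∧
    Nat.ble (S 7 49536) 5451 = true ∧
    Nat.ble (S 7 49664) 5417 = true ∧
    Nat.ble (S 7 49792) 5337 = true ∧
    Nat.ble (S 7 49920) 5684 = true ∧
    Nat.ble (S 7 50048) 5580 = true ∧
    Nat.ble (S 7 50176) 5533 = true ∧
    Nat.ble (S 7 50304) 5518 = true ∧
    Nat.ble (S 7 50432) 5608 = true ∧
    Nat.ble (S 7 50560) 5632 = true ∧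
    Nat.ble (S 7 50688) 5557 = true ∧
    Nat.ble (S 7 50816) 5618 = true ∧
    Nat.ble (S 7 50944) 5562 = true ∧
    Nat.ble (S 7 51072) 5500 = true ∧
    Nat.ble (S 7 51200) 5614 = true ∧
    Nat.ble (S 7 51328) 5612 = true ∧
    Nat.ble (S 7 51456) 5642 = true ∧
    Nat.ble (S 7 51584) 5807 = true ∧
    Nat.ble (S 7 51712) 5813 = true ∧
    Nat.ble (S 7 51840) 5584 = true ∧
    Nat.ble (S 7 51968) 5725 = true ∧
    Nat.ble (S 7 52096) 5692 = true ∧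
    Nat.ble (S 7 52224) 5720 = true ∧
    Nat.ble (S 7 52352) 5613 = true ∧
    Nat.ble (S 7 52480) 5731 = true ∧
    Nat.ble (S 7 52608) 5800 = true ∧
    Nat.ble (S 7 52736) 5661 = true ∧
    Nat.ble (S 7 52864) 5768 = true ∧
    Nat.ble (S 7 52992) 5817 = true ∧
    Nat.ble (S 7 53120) 5783 = true ∧
    Nat.ble (S 7 53248) 5804 = true ∧
    Nat.ble (S 7 53376) 5631 = true ∧
    Nat.ble (S 7 53504) 5693 = true ∧
    Nat.ble (S 7 53632) 5600 = true ∧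
    Nat.ble (S 7 53760) 5740 = true ∧
    Nat.ble (S 7 53888) 5664 = true ∧
    Nat.ble (S 7 54016) 5738 = true ∧
    Nat.ble (S 7 54144) 5805 = true ∧
    Nat.ble (S 7 54272) 5776 = true ∧
    Nat.ble (S 7 54400) 5884 = true ∧
    Nat.ble (S 7 54528) 5743 = true ∧
    Nat.ble (S 7 54656) 5814 = true ∧
    Nat.ble (S 7 54784) 5883 = true ∧
    Nat.ble (S 7 54912) 5719 = true ∧
    Nat.ble (S 7 55040) 5825 = true ∧
    Nat.ble (S 7 55168) 5767 = true ∧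
    Nat.ble (S 7 55296) 5806 = true ∧
    Nat.ble (S 7 55424) 5910 = true ∧
    Nat.ble (S 7 55552) 5910 = true ∧
    Nat.ble (S 7 55680) 5896 = true ∧
    Nat.ble (S 7 55808) 6011 = true ∧
    Nat.ble (S 7 55936) 5754 = true ∧
    Nat.ble (S 7 56064) 5953 = true ∧
    Nat.ble (S 7 56192) 5924 = true ∧
    Nat.ble (S 7 56320) 5904 = true ∧
    Nat.ble (S 7 56448) 5927 = true ∧
    Nat.ble (S 7 56576) 5892 = true ∧
    Nat.ble (S 7 56704) 5979 = true ∧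
    Nat.ble (S 7 56832) 5801 = true ∧
    Nat.ble (S 7 56960) 5959 = true ∧
    Nat.ble (S 7 57088) 5959 = true ∧
    Nat.ble (S 7 57216) 5923 = true := by
  refine ⟨?_, ?_, ?_, ?_, ?_, ?_, ?_, ?_, ?_, ?_, ?_, ?_, ?_, ?_, ?_, ?_, ?_, ?_, ?_, ?_, ?_, ?_, ?_, ?_, ?_, ?_, ?_, ?_, ?_, ?_, ?_, ?_, ?_, ?_, ?_, ?_, ?_, ?_, ?_, ?_, ?_, ?_, ?_, ?_, ?_, ?_, ?_, ?_, ?_, ?_, ?_, ?_, ?_, ?_, ?_, ?_, ?_, ?_, ?_, ?_, ?_, ?_, ?_, ?_⟩ <;>
    decide +kernel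

theorem grp2 :
    Nat.ble (S 7 57344) 6001 = true ∧
    Nat.ble (S 7 57472) 5946 = true ∧
    Nat.ble (S 7 57600) 5981 = true ∧
    Nat.ble (S 7 57728) 5919 = true ∧
    Nat.ble (S 7 57856) 5981 = true ∧
    Nat.ble (S 7 57984) 5904 = true ∧
    Nat.ble (S 7 58112) 6101 = true ∧
    Nat.ble (S 7 58240) 6234 = true ∧
    Nat.ble (S 7 58368) 5993 = true ∧
    Nat.ble (S 7 58496) 6087 = true ∧
    Nat.ble (S 7 58624) 5998 = true ∧
    Nat.ble (S 7 58752) 5983 = true ∧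
    Nat.ble (S 7 58880) 5990 = true ∧
    Nat.ble (S 7 59008) 6197 = true ∧
    Nat.ble (S 7 59136) 6072 = true ∧
    Nat.ble (S 7 59264) 6088 = true ∧
    Nat.ble (S 7 59392) 6029 = true ∧
    Nat.ble (S 7 59520) 6268 = true ∧
    Nat.ble (S 7 59648) 6181 = true ∧
    Nat.ble (S 7 59776) 6119 = true ∧
    Nat.ble (S 7 59904) 6134 = true ∧
    Nat.ble (S 7 60032) 6068 = true ∧
    Nat.ble (S 7 60160) 6050 = true ∧
    Nat.ble (S 7 60288) 6113 = true ∧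
    Nat.ble (S 7 60416) 6140 = true ∧
    Nat.ble (S 7 60544) 6214 = true ∧
    Nat.ble (S 7 60672) 6089 = true ∧
    Nat.ble (S 7 60800) 6118 = true ∧
    Nat.ble (S 7 60928) 6195 = true ∧
    Nat.ble (S 7 61056) 6133 = true ∧
    Nat.ble (S 7 61184) 6108 = true ∧
    Nat.ble (S 7 61312) 6122 = true ∧
    Nat.ble (S 7 61440) 6122 = true ∧
    Nat.ble (S 7 61568) 6297 = true ∧
    Nat.ble (S 7 61696) 6093 = true ∧
    Nat.ble (S 7 61824) 6208 = true ∧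
    Nat.ble (S 7 61952) 6218 = true ∧
    Nat.ble (S 7 62080) 6318 = true ∧
    Nat.ble (S 7 62208) 6136 = true ∧
    Nat.ble (S 7 62336) 6204 = true ∧
    Nat.ble (S 7 62464) 6312 = true ∧
    Nat.ble (S 7 62592) 6347 = true ∧
    Nat.ble (S 7 62720) 6369 = true ∧
    Nat.ble (S 7 62848) 6274 = true ∧
    Nat.ble (S 7 62976) 6343 = true ∧
    Nat.ble (S 7 63104) 6286 = true ∧
    Nat.ble (S 7 63232) 6419 = true ∧
    Nat.ble (S 7 63360) 6357 = true ∧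
    Nat.ble (S 7 63488) 6269 = true ∧
    Nat.ble (S 7 63616) 6355 = true ∧
    Nat.ble (S 7 63744) 6351 = true ∧
    Nat.ble (S 7 63872) 6422 = true ∧
    Nat.ble (S 7 64000) 6433 = true ∧
    Nat.ble (S 7 64128) 6296 = true ∧
    Nat.ble (S 7 64256) 6404 = true ∧
    Nat.ble (S 7 64384) 6462 = true ∧
    Nat.ble (S 7 64512) 6310 = true ∧
    Nat.ble (S 7 64640) 6374 = true ∧
    Nat.ble (S 7 64768) 6492 = true ∧
    Nat.ble (S 7 64896) 6170 = true ∧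
    Nat.ble (S 7 65024) 6448 = true ∧
    Nat.ble (S 7 65152) 6464 = true ∧
    Nat.ble (S 7 65280) 6534 = true ∧
    Nat.ble (S 7 65408) 6245 = true := by
  refine ⟨?_, ?_, ?_, ?_, ?_, ?_, ?_, ?_, ?_, ?_, ?_, ?_, ?_, ?_, ?_, ?_, ?_, ?_, ?_, ?_, ?_, ?_, ?_, ?_, ?_, ?_, ?_, ?_, ?_, ?_, ?_, ?_, ?_, ?_, ?_, ?_, ?_, ?_, ?_, ?_, ?_, ?_, ?_, ?_, ?_, ?_, ?_, ?_, ?_, ?_, ?_, ?_, ?_, ?_, ?_, ?_, ?_, ?_, ?_, ?_, ?_, ?_, ?_, ?_⟩ <;>
    decide +kernel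

theorem S_eq (e k : Nat) : S e k =
    osum (block (cut bw16 131071) (cut bl16 185365) (cut bw16 262149) (cut bl16 370739) (cut bw16 524309))
    (pc (mask 1 (Nat.mul 16 4096)) (mask 2 (Nat.mul 8 4096)) (mask 4 (Nat.mul 4 4096))
      (mask 8 (Nat.mul 2 4096)) (mask 16 4096)) e k := rfl

attribute [irreducible] S

end Pool.Agent.AddSq.KD05
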