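import Pool.Agent.AddSq.TabBig

/-!
# Kernel data, blocks `65536 ≤ k < 81920`
-/

namespace Pool.Agent.AddSq.KD06

open KF

set_option linter.all false

noncomputable def S (e k : Nat) : Nat :=
  osum (block (cut bw17 163839) (cut bl17 231707) (cut bw17 327687) (cut bl17 463425) (cut bw17 655387))
    (pc (mask 1 (Nat.mul 16 5120)) (mask 2 (Nat.mul 8 5120)) (mask 4 (Nat.mul 4 5120))
      (mask 8 (Nat.mul 2 5120)) (mask 16 5120)) e k

theorem grp1 :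
    Nat.ble (S 7 65536) 6413 = true ∧
    Nat.ble (S 7 65664) 6467 = true ∧
    Nat.ble (S 7 65792) 6399 = true ∧
    Nat.ble (S 7 65920) 6541 = true ∧
    Nat.ble (S 7 66048) 6467 = true ∧
    Nat.ble (S 7 66176) 6406 = true ∧
    Nat.ble (S 7 66304) 6481 = true ∧
    Nat.ble (S 7 66432) 6483 = true ∧
    Nat.ble (S 7 66560) 6562 = true ∧
    Nat.ble (S 7 66688) 6546 = true ∧
    Nat.ble (S 7 66816) 6555 = true ∧
    Nat.ble (S 7 66944) 6604 = true ∧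
    Nat.ble (S 7 67072) 6503 = true ∧
    Nat.ble (S 7 67200) 6591 = true ∧
    Nat.ble (S 7 67328) 6544 = true ∧
    Nat.ble (S 7 67456) 6604 = true ∧
    Nat.ble (S 7 67584) 6504 = true ∧
    Nat.ble (S 7 67712) 6646 = true ∧
    Nat.ble (S 7 67840) 6702 = true ∧
    Nat.ble (S 7 67968) 6516 = true ∧
    Nat.ble (S 7 68096) 6707 = true ∧
    Nat.ble (S 7 68224) 6629 = true ∧
    Nat.ble (S 7 68352) 6697 = true ∧
    Nat.ble (S 7 68480) 6575 = true ∧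
    Nat.ble (S 7 68608) 6592 = true ∧
    Nat.ble (S 7 68736) 6566 = true ∧
    Nat.ble (S 7 68864) 6715 = true ∧
    Nat.ble (S 7 68992) 6668 = true ∧
    Nat.ble (S 7 69120) 6475 = true ∧
    Nat.ble (S 7 69248) 6951 = true ∧
    Nat.ble (S 7 69376) 6535 = true ∧
    Nat.ble (S 7 69504) 6710 = true ∧
    Nat.ble (S 7 69632) 6666 = true ∧
    Nat.ble (S 7 69760) 6804 = true ∧
    Nat.ble (S 7 69888) 6694 = true ∧
    Nat.ble (S 7 70016) 6705 = true ∧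
    Nat.ble (S 7 70144) 6541 = true ∧
    Nat.ble (S 7 70272) 6676 = true ∧
    Nat.ble (S 7 70400) 6755 = true ∧
    Nat.ble (S 7 70528) 6807 = true ∧
    Nat.ble (S 7 70656) 6528 = true ∧
    Nat.ble (S 7 70784) 6722 = true ∧
    Nat.ble (S 7 70912) 6791 = true ∧
    Nat.ble (S 7 71040) 6720 = true ∧
    Nat.ble (S 7 71168) 6862 = true ∧
    Nat.ble (S 7 71296) 6729 = true ∧
    Nat.ble (S 7 71424) 6854 = true ∧
    Nat.ble (S 7 71552) 6735 = true ∧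
    Nat.ble (S 7 71680) 6760 = true ∧
    Nat.ble (S 7 71808) 6783 = true ∧
    Nat.ble (S 7 71936) 6860 = true ∧
    Nat.ble (S 7 72064) 6749 = true ∧
    Nat.ble (S 7 72192) 6913 = true ∧
    Nat.ble (S 7 72320) 6737 = true ∧
    Nat.ble (S 7 72448) 6925 = true ∧
    Nat.ble (S 7 72576) 6815 = true ∧
    Nat.ble (S 7 72704) 6832 = true ∧
    Nat.ble (S 7 72832) 6921 = true ∧
    Nat.ble (S 7 72960) 6680 = true ∧
    Nat.ble (S 7 73088) 6731 = true ∧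
    Nat.ble (S 7 73216) 6720 = true ∧
    Nat.ble (S 7 73344) 6879 = true ∧
    Nat.ble (S 7 73472) 6795 = true ∧
    Nat.ble (S 7 73600) 6978 = true := by
  refine ⟨?_, ?_, ?_, ?_, ?_, ?_, ?_, ?_, ?_, ?_, ?_, ?_, ?_, ?_, ?_, ?_, ?_, ?_, ?_, ?_, ?_, ?_, ?_, ?_, ?_, ?_, ?_, ?_, ?_, ?_, ?_, ?_, ?_, ?_, ?_, ?_, ?_, ?_, ?_, ?_, ?_, ?_, ?_, ?_, ?_, ?_, ?_, ?_, ?_, ?_, ?_, ?_, ?_, ?_, ?_, ?_, ?_, ?_, ?_, ?_, ?_, ?_, ?_, ?_⟩ <;>
    decide +kernel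

theorem grp2 :
    Nat.ble (S 7 73728) 6930 = true ∧
    Nat.ble (S 7 73856) 6864 = true ∧
    Nat.ble (S 7 73984) 6874 = true ∧
    Nat.ble (S 7 74112) 6940 = true ∧
    Nat.ble (S 7 74240) 6952 = true ∧
    Nat.ble (S 7 74368) 6928 = true ∧
    Nat.ble (S 7 74496) 6929 = true ∧
    Nat.ble (S 7 74624) 6816 = true ∧
    Nat.ble (S 7 74752) 6802 = true ∧
    Nat.ble (S 7 74880) 7111 = true ∧
    Nat.ble (S 7 75008) 7009 = true ∧
    Nat.ble (S 7 75136) 6971 = true ∧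
    Nat.ble (S 7 75264) 6858 = true ∧
    Nat.ble (S 7 75392) 6996 = true ∧
    Nat.ble (S 7 75520) 6868 = true ∧
    Nat.ble (S 7 75648) 6895 = true ∧
    Nat.ble (S 7 75776) 6920 = true ∧
    Nat.ble (S 7 75904) 6818 = true ∧
    Nat.ble (S 7 76032) 7011 = true ∧
    Nat.ble (S 7 76160) 6873 = true ∧
    Nat.ble (S 7 76288) 7019 = true ∧
    Nat.ble (S 7 76416) 6968 = true ∧
    Nat.ble (S 7 76544) 6923 = true ∧
    Nat.ble (S 7 76672) 6882 = true ∧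
    Nat.ble (S 7 76800) 7097 = true ∧
    Nat.ble (S 7 76928) 7048 = true ∧
    Nat.ble (S 7 77056) 6907 = true ∧
    Nat.ble (S 7 77184) 6941 = true ∧
    Nat.ble (S 7 77312) 7116 = true ∧
    Nat.ble (S 7 77440) 6993 = true ∧
    Nat.ble (S 7 77568) 7052 = true ∧
    Nat.ble (S 7 77696) 7057 = true ∧
    Nat.ble (S 7 77824) 7071 = true ∧
    Nat.ble (S 7 77952) 7073 = true ∧
    Nat.ble (S 7 78080) 7154 = true ∧
    Nat.ble (S 7 78208) 7038 = true ∧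
    Nat.ble (S 7 78336) 7220 = true ∧
    Nat.ble (S 7 78464) 7136 = true ∧
    Nat.ble (S 7 78592) 7311 = true ∧
    Nat.ble (S 7 78720) 7032 = true ∧
    Nat.ble (S 7 78848) 7171 = true ∧
    Nat.ble (S 7 78976) 6938 = true ∧
    Nat.ble (S 7 79104) 7124 = true ∧
    Nat.ble (S 7 79232) 7085 = true ∧
    Nat.ble (S 7 79360) 7143 = true ∧
    Nat.ble (S 7 79488) 7154 = true ∧
    Nat.ble (S 7 79616) 7165 = true ∧
    Nat.ble (S 7 79744) 7139 = true ∧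
    Nat.ble (S 7 79872) 7143 = true ∧
    Nat.ble (S 7 80000) 7077 = true ∧
    Nat.ble (S 7 80128) 7183 = true ∧
    Nat.ble (S 7 80256) 7260 = true ∧
    Nat.ble (S 7 80384) 6974 = true ∧
    Nat.ble (S 7 80512) 7150 = true ∧
    Nat.ble (S 7 80640) 7062 = true ∧
    Nat.ble (S 7 80768) 7237 = true ∧
    Nat.ble (S 7 80896) 7121 = true ∧
    Nat.ble (S 7 81024) 7152 = true ∧
    Nat.ble (S 7 81152) 7306 = true ∧
    Nat.ble (S 7 81280) 7232 = true ∧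
    Nat.ble (S 7 81408) 7111 = true ∧
    Nat.ble (S 7 81536) 7136 = true ∧
    Nat.ble (S 7 81664) 7080 = true ∧
    Nat.ble (S 7 81792) 7121 = true := by
  refine ⟨?_, ?_, ?_, ?_, ?_, ?_, ?_, ?_, ?_, ?_, ?_, ?_, ?_, ?_, ?_, ?_, ?_, ?_, ?_, ?_, ?_, ?_, ?_, ?_, ?_, ?_, ?_, ?_, ?_, ?_, ?_, ?_, ?_, ?_, ?_, ?_, ?_, ?_, ?_, ?_, ?_, ?_, ?_, ?_, ?_, ?_, ?_, ?_, ?_, ?_, ?_, ?_, ?_, ?_, ?_, ?_, ?_, ?_, ?_, ?_, ?_, ?_, ?_, ?_⟩ <;>
    decide +kernel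

theorem S_eq (e k : Nat) : S e k =
    osum (block (cut bw17 163839) (cut bl17 231707) (cut bw17 327687) (cut bl17 463425) (cut bw17 655387))
    (pc (mask 1 (Nat.mul 16 5120)) (mask 2 (Nat.mul 8 5120)) (mask 4 (Nat.mul 4 5120))
      (mask 8 (Nat.mul 2 5120)) (mask 16 5120)) e k := rfl

attribute [irreducible] S

end Pool.Agent.AddSq.KD06
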