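import Pool.Agent.AddSq.TabBig

/-!
# Kernel data, blocks `81920 ≤ k < 98304`
-/

namespace Pool.Agent.AddSq.KD07

open KF

set_option linter.all false

noncomputable def S (e k : Nat) : Nat :=
  osum (block (cut bw17 196607) (cut bl17 278049) (cut bw17 393225) (cut bl17 556109) (cut bw17 786463))
    (pc (mask 1 (Nat.mul 16 6144)) (mask 2 (Nat.mul 8 6144)) (mask 4 (Nat.mul 4 6144))
      (mask 8 (Nat.mul 2 6144)) (mask 16 6144)) e k

theorem grp1 :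
    Nat.ble (S 7 81920) 7230 = true ∧
    Nat.ble (S 7 82048) 7150 = true ∧
    Nat.ble (S 7 82176) 7082 = true ∧
    Nat.ble (S 7 82304) 7183 = true ∧
    Nat.ble (S 7 82432) 7206 = true ∧
    Nat.ble (S 7 82560) 7198 = true ∧
    Nat.ble (S 7 82688) 7158 = true ∧
    Nat.ble (S 7 82816) 7339 = true ∧
    Nat.ble (S 7 82944) 7097 = true ∧
    Nat.ble (S 7 83072) 7142 = true ∧
    Nat.ble (S 7 83200) 7413 = true ∧
    Nat.ble (S 7 83328) 7135 = true ∧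
    Nat.ble (S 7 83456) 7247 = true ∧
    Nat.ble (S 7 83584) 7276 = true ∧
    Nat.ble (S 7 83712) 7159 = true ∧
    Nat.ble (S 7 83840) 7251 = true ∧
    Nat.ble (S 7 83968) 7346 = true ∧
    Nat.ble (S 7 84096) 7307 = true ∧
    Nat.ble (S 7 84224) 7179 = true ∧
    Nat.ble (S 7 84352) 7189 = true ∧
    Nat.ble (S 7 84480) 7162 = true ∧
    Nat.ble (S 7 84608) 7146 = true ∧
    Nat.ble (S 7 84736) 7334 = true ∧
    Nat.ble (S 7 84864) 7279 = true ∧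
    Nat.ble (S 7 84992) 7284 = true ∧
    Nat.ble (S 7 85120) 7260 = true ∧
    Nat.ble (S 7 85248) 7185 = true ∧
    Nat.ble (S 7 85376) 7324 = true ∧
    Nat.ble (S 7 85504) 7166 = true ∧
    Nat.ble (S 7 85632) 7333 = true ∧
    Nat.ble (S 7 85760) 7374 = true ∧
    Nat.ble (S 7 85888) 7158 = true ∧
    Nat.ble (S 7 86016) 7441 = true ∧
    Nat.ble (S 7 86144) 7271 = true ∧
    Nat.ble (S 7 86272) 7281 = true ∧
    Nat.ble (S 7 86400) 7381 = true ∧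
    Nat.ble (S 7 86528) 7344 = true ∧
    Nat.ble (S 7 86656) 7360 = true ∧
    Nat.ble (S 7 86784) 7346 = true ∧
    Nat.ble (S 7 86912) 7383 = true ∧
    Nat.ble (S 7 87040) 7237 = true ∧
    Nat.ble (S 7 87168) 7335 = true ∧
    Nat.ble (S 7 87296) 7327 = true ∧
    Nat.ble (S 7 87424) 7477 = true ∧
    Nat.ble (S 7 87552) 7366 = true ∧
    Nat.ble (S 7 87680) 7389 = true ∧
    Nat.ble (S 7 87808) 7437 = true ∧
    Nat.ble (S 7 87936) 7480 = true ∧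
    Nat.ble (S 7 88064) 7299 = true ∧
    Nat.ble (S 7 88192) 7436 = true ∧
    Nat.ble (S 7 88320) 7467 = true ∧
    Nat.ble (S 7 88448) 7465 = true ∧
    Nat.ble (S 7 88576) 7435 = true ∧
    Nat.ble (S 7 88704) 7397 = true ∧
    Nat.ble (S 7 88832) 7522 = true ∧
    Nat.ble (S 7 88960) 7239 = true ∧
    Nat.ble (S 7 89088) 7400 = true ∧
    Nat.ble (S 7 89216) 7341 = true ∧
    Nat.ble (S 7 89344) 7631 = true ∧
    Nat.ble (S 7 89472) 7273 = true ∧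
    Nat.ble (S 7 89600) 7412 = true ∧
    Nat.ble (S 7 89728) 7309 = true ∧
    Nat.ble (S 7 89856) 7376 = true ∧
    Nat.ble (S 7 89984) 7648 = true := by
  refine ⟨?_, ?_, ?_, ?_, ?_, ?_, ?_, ?_, ?_, ?_, ?_, ?_, ?_, ?_, ?_, ?_, ?_, ?_, ?_, ?_, ?_, ?_, ?_, ?_, ?_, ?_, ?_, ?_, ?_, ?_, ?_, ?_, ?_, ?_, ?_, ?_, ?_, ?_, ?_, ?_, ?_, ?_, ?_, ?_, ?_, ?_, ?_, ?_, ?_, ?_, ?_, ?_, ?_, ?_, ?_, ?_, ?_, ?_, ?_, ?_, ?_, ?_, ?_, ?_⟩ <;>
    decide +kernel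

theorem grp2 :
    Nat.ble (S 7 90112) 7469 = true ∧
    Nat.ble (S 7 90240) 7511 = true ∧
    Nat.ble (S 7 90368) 7573 = true ∧
    Nat.ble (S 7 90496) 7517 = true ∧
    Nat.ble (S 7 90624) 7501 = true ∧
    Nat.ble (S 7 90752) 7468 = true ∧
    Nat.ble (S 7 90880) 7607 = true ∧
    Nat.ble (S 7 91008) 7536 = true ∧
    Nat.ble (S 7 91136) 7605 = true ∧
    Nat.ble (S 7 91264) 7566 = true ∧
    Nat.ble (S 7 91392) 7543 = true ∧
    Nat.ble (S 7 91520) 7411 = true ∧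
    Nat.ble (S 7 91648) 7646 = true ∧
    Nat.ble (S 7 91776) 7660 = true ∧
    Nat.ble (S 7 91904) 7549 = true ∧
    Nat.ble (S 7 92032) 7431 = true ∧
    Nat.ble (S 7 92160) 7570 = true ∧
    Nat.ble (S 7 92288) 7503 = true ∧
    Nat.ble (S 7 92416) 7578 = true ∧
    Nat.ble (S 7 92544) 7503 = true ∧
    Nat.ble (S 7 92672) 7761 = true ∧
    Nat.ble (S 7 92800) 7569 = true ∧
    Nat.ble (S 7 92928) 7792 = true ∧
    Nat.ble (S 7 93056) 7655 = true ∧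
    Nat.ble (S 7 93184) 7612 = true ∧
    Nat.ble (S 7 93312) 7552 = true ∧
    Nat.ble (S 7 93440) 7639 = true ∧
    Nat.ble (S 7 93568) 7724 = true ∧
    Nat.ble (S 7 93696) 7551 = true ∧
    Nat.ble (S 7 93824) 7608 = true ∧
    Nat.ble (S 7 93952) 7372 = true ∧
    Nat.ble (S 7 94080) 7675 = true ∧
    Nat.ble (S 7 94208) 7667 = true ∧
    Nat.ble (S 7 94336) 7557 = true ∧
    Nat.ble (S 7 94464) 7791 = true ∧
    Nat.ble (S 7 94592) 7631 = true ∧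
    Nat.ble (S 7 94720) 7609 = true ∧
    Nat.ble (S 7 94848) 7466 = true ∧
    Nat.ble (S 7 94976) 7691 = true ∧
    Nat.ble (S 7 95104) 7656 = true ∧
    Nat.ble (S 7 95232) 7680 = true ∧
    Nat.ble (S 7 95360) 7778 = true ∧
    Nat.ble (S 7 95488) 7627 = true ∧
    Nat.ble (S 7 95616) 7689 = true ∧
    Nat.ble (S 7 95744) 7602 = true ∧
    Nat.ble (S 7 95872) 7644 = true ∧
    Nat.ble (S 7 96000) 7602 = true ∧
    Nat.ble (S 7 96128) 7846 = true ∧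
    Nat.ble (S 7 96256) 7577 = true ∧
    Nat.ble (S 7 96384) 7697 = true ∧
    Nat.ble (S 7 96512) 7683 = true ∧
    Nat.ble (S 7 96640) 7788 = true ∧
    Nat.ble (S 7 96768) 7814 = true ∧
    Nat.ble (S 7 96896) 7820 = true ∧
    Nat.ble (S 7 97024) 7606 = true ∧
    Nat.ble (S 7 97152) 7716 = true ∧
    Nat.ble (S 7 97280) 7722 = true ∧
    Nat.ble (S 7 97408) 7846 = true ∧
    Nat.ble (S 7 97536) 7873 = true ∧
    Nat.ble (S 7 97664) 7748 = true ∧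
    Nat.ble (S 7 97792) 7750 = true ∧
    Nat.ble (S 7 97920) 7761 = true ∧
    Nat.ble (S 7 98048) 7879 = true ∧
    Nat.ble (S 7 98176) 7749 = true := by
  refine ⟨?_, ?_, ?_, ?_, ?_, ?_, ?_, ?_, ?_, ?_, ?_, ?_, ?_, ?_, ?_, ?_, ?_, ?_, ?_, ?_, ?_, ?_, ?_, ?_, ?_, ?_, ?_, ?_, ?_, ?_, ?_, ?_, ?_, ?_, ?_, ?_, ?_, ?_, ?_, ?_, ?_, ?_, ?_, ?_, ?_, ?_, ?_, ?_, ?_, ?_, ?_, ?_, ?_, ?_, ?_, ?_, ?_, ?_, ?_, ?_, ?_, ?_, ?_, ?_⟩ <;>
    decide +kernel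

theorem S_eq (e k : Nat) : S e k =
    osum (block (cut bw17 196607) (cut bl17 278049) (cut bw17 393225) (cut bl17 556109) (cut bw17 786463))
    (pc (mask 1 (Nat.mul 16 6144)) (mask 2 (Nat.mul 8 6144)) (mask 4 (Nat.mul 4 6144))
      (mask 8 (Nat.mul 2 6144)) (mask 16 6144)) e k := rfl

attribute [irreducible] S

end Pool.Agent.AddSq.KD07
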