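import Pool.Agent.AddSq.TabBig

/-!
# Kernel data, blocks `98304 ≤ k < 114688`
-/

namespace Pool.Agent.AddSq.KD08

open KF

set_option linter.all false

noncomputable def S (e k : Nat) : Nat :=
  osum (block (cut bw17 229375) (cut bl17 324389) (cut bw17 458759) (cut bl17 648789) (cut bw17 917533))
    (pc (mask 1 (Nat.mul 16 7168)) (mask 2 (Nat.mul 8 7168)) (mask 4 (Nat.mul 4 7168))
      (mask 8 (Nat.mul 2 7168)) (mask 16 7168)) e k

theorem grp1 :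
    Nat.ble (S 7 98304) 7749 = true ∧
    Nat.ble (S 7 98432) 7737 = true ∧
    Nat.ble (S 7 98560) 7678 = true ∧
    Nat.ble (S 7 98688) 7980 = true ∧
    Nat.ble (S 7 98816) 7826 = true ∧
    Nat.ble (S 7 98944) 7727 = true ∧
    Nat.ble (S 7 99072) 7865 = true ∧
    Nat.ble (S 7 99200) 7909 = true ∧
    Nat.ble (S 7 99328) 7723 = true ∧
    Nat.ble (S 7 99456) 7858 = true ∧
    Nat.ble (S 7 99584) 7846 = true ∧
    Nat.ble (S 7 99712) 7695 = true ∧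
    Nat.ble (S 7 99840) 7816 = true ∧
    Nat.ble (S 7 99968) 7823 = true ∧
    Nat.ble (S 7 100096) 8038 = true ∧
    Nat.ble (S 7 100224) 7894 = true ∧
    Nat.ble (S 7 100352) 7856 = true ∧
    Nat.ble (S 7 100480) 8066 = true ∧
    Nat.ble (S 7 100608) 7842 = true ∧
    Nat.ble (S 7 100736) 7822 = true ∧
    Nat.ble (S 7 100864) 7924 = true ∧
    Nat.ble (S 7 100992) 7838 = true ∧
    Nat.ble (S 7 101120) 8092 = true ∧
    Nat.ble (S 7 101248) 7961 = true ∧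
    Nat.ble (S 7 101376) 7965 = true ∧
    Nat.ble (S 7 101504) 7987 = true ∧
    Nat.ble (S 7 101632) 7929 = true ∧
    Nat.ble (S 7 101760) 7991 = true ∧
    Nat.ble (S 7 101888) 7944 = true ∧
    Nat.ble (S 7 102016) 7947 = true ∧
    Nat.ble (S 7 102144) 8096 = true ∧
    Nat.ble (S 7 102272) 7971 = true ∧
    Nat.ble (S 7 102400) 8104 = true ∧
    Nat.ble (S 7 102528) 8062 = true ∧
    Nat.ble (S 7 102656) 7902 = true ∧
    Nat.ble (S 7 102784) 8095 = true ∧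
    Nat.ble (S 7 102912) 8039 = true ∧
    Nat.ble (S 7 103040) 7900 = true ∧
    Nat.ble (S 7 103168) 8064 = true ∧
    Nat.ble (S 7 103296) 8018 = true ∧
    Nat.ble (S 7 103424) 8056 = true ∧
    Nat.ble (S 7 103552) 7960 = true ∧
    Nat.ble (S 7 103680) 8153 = true ∧
    Nat.ble (S 7 103808) 8041 = true ∧
    Nat.ble (S 7 103936) 8048 = true ∧
    Nat.ble (S 7 104064) 8046 = true ∧
    Nat.ble (S 7 104192) 8056 = true ∧
    Nat.ble (S 7 104320) 8016 = true ∧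
    Nat.ble (S 7 104448) 8044 = true ∧
    Nat.ble (S 7 104576) 8249 = true ∧
    Nat.ble (S 7 104704) 8165 = true ∧
    Nat.ble (S 7 104832) 7865 = true ∧
    Nat.ble (S 7 104960) 7960 = true ∧
    Nat.ble (S 7 105088) 8113 = true ∧
    Nat.ble (S 7 105216) 7993 = true ∧
    Nat.ble (S 7 105344) 8043 = true ∧
    Nat.ble (S 7 105472) 8123 = true ∧
    Nat.ble (S 7 105600) 8083 = true ∧
    Nat.ble (S 7 105728) 8093 = true ∧
    Nat.ble (S 7 105856) 8027 = true ∧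
    Nat.ble (S 7 105984) 8221 = true ∧
    Nat.ble (S 7 106112) 8079 = true ∧
    Nat.ble (S 7 106240) 8194 = true ∧
    Nat.ble (S 7 106368) 8109 = true := by
  refine ⟨?_, ?_, ?_, ?_, ?_, ?_, ?_, ?_, ?_, ?_, ?_, ?_, ?_, ?_, ?_, ?_, ?_, ?_, ?_, ?_, ?_, ?_, ?_, ?_, ?_, ?_, ?_, ?_, ?_, ?_, ?_, ?_, ?_, ?_, ?_, ?_, ?_, ?_, ?_, ?_, ?_, ?_, ?_, ?_, ?_, ?_, ?_, ?_, ?_, ?_, ?_, ?_, ?_, ?_, ?_, ?_, ?_, ?_, ?_, ?_, ?_, ?_, ?_, ?_⟩ <;>
    decide +kernel

theorem grp2 :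
    Nat.ble (S 7 106496) 7998 = true ∧
    Nat.ble (S 7 106624) 8391 = true ∧
    Nat.ble (S 7 106752) 8026 = true ∧
    Nat.ble (S 7 106880) 8151 = true ∧
    Nat.ble (S 7 107008) 8080 = true ∧
    Nat.ble (S 7 107136) 8145 = true ∧
    Nat.ble (S 7 107264) 8167 = true ∧
    Nat.ble (S 7 107392) 8200 = true ∧
    Nat.ble (S 7 107520) 8137 = true ∧
    Nat.ble (S 7 107648) 8175 = true ∧
    Nat.ble (S 7 107776) 8116 = true ∧
    Nat.ble (S 7 107904) 8147 = true ∧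
    Nat.ble (S 7 108032) 8315 = true ∧
    Nat.ble (S 7 108160) 8128 = true ∧
    Nat.ble (S 7 108288) 8361 = true ∧
    Nat.ble (S 7 108416) 8144 = true ∧
    Nat.ble (S 7 108544) 8302 = true ∧
    Nat.ble (S 7 108672) 8227 = true ∧
    Nat.ble (S 7 108800) 8122 = true ∧
    Nat.ble (S 7 108928) 8327 = true ∧
    Nat.ble (S 7 109056) 8373 = true ∧
    Nat.ble (S 7 109184) 8298 = true ∧
    Nat.ble (S 7 109312) 8280 = true ∧
    Nat.ble (S 7 109440) 8411 = true ∧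
    Nat.ble (S 7 109568) 8293 = true ∧
    Nat.ble (S 7 109696) 8293 = true ∧
    Nat.ble (S 7 109824) 8279 = true ∧
    Nat.ble (S 7 109952) 8264 = true ∧
    Nat.ble (S 7 110080) 8261 = true ∧
    Nat.ble (S 7 110208) 8243 = true ∧
    Nat.ble (S 7 110336) 8279 = true ∧
    Nat.ble (S 7 110464) 8378 = true ∧
    Nat.ble (S 7 110592) 8309 = true ∧
    Nat.ble (S 7 110720) 8340 = true ∧
    Nat.ble (S 7 110848) 8405 = true ∧
    Nat.ble (S 7 110976) 8287 = true ∧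
    Nat.ble (S 7 111104) 8334 = true ∧
    Nat.ble (S 7 111232) 8400 = true ∧
    Nat.ble (S 7 111360) 8199 = true ∧
    Nat.ble (S 7 111488) 8389 = true ∧
    Nat.ble (S 7 111616) 8245 = true ∧
    Nat.ble (S 7 111744) 8243 = true ∧
    Nat.ble (S 7 111872) 8362 = true ∧
    Nat.ble (S 7 112000) 8279 = true ∧
    Nat.ble (S 7 112128) 8400 = true ∧
    Nat.ble (S 7 112256) 8351 = true ∧
    Nat.ble (S 7 112384) 8272 = true ∧
    Nat.ble (S 7 112512) 8341 = true ∧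
    Nat.ble (S 7 112640) 8399 = true ∧
    Nat.ble (S 7 112768) 8616 = true ∧
    Nat.ble (S 7 112896) 8326 = true ∧
    Nat.ble (S 7 113024) 8240 = true ∧
    Nat.ble (S 7 113152) 8536 = true ∧
    Nat.ble (S 7 113280) 8388 = true ∧
    Nat.ble (S 7 113408) 8494 = true ∧
    Nat.ble (S 7 113536) 8179 = true ∧
    Nat.ble (S 7 113664) 8342 = true ∧
    Nat.ble (S 7 113792) 8388 = true ∧
    Nat.ble (S 7 113920) 8327 = true ∧
    Nat.ble (S 7 114048) 8390 = true ∧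
    Nat.ble (S 7 114176) 8237 = true ∧
    Nat.ble (S 7 114304) 8472 = true ∧
    Nat.ble (S 7 114432) 8322 = true ∧
    Nat.ble (S 7 114560) 8387 = true := by
  refine ⟨?_, ?_, ?_, ?_, ?_, ?_, ?_, ?_, ?_, ?_, ?_, ?_, ?_, ?_, ?_, ?_, ?_, ?_, ?_, ?_, ?_, ?_, ?_, ?_, ?_, ?_, ?_, ?_, ?_, ?_, ?_, ?_, ?_, ?_, ?_, ?_, ?_, ?_, ?_, ?_, ?_, ?_, ?_, ?_, ?_, ?_, ?_, ?_, ?_, ?_, ?_, ?_, ?_, ?_, ?_, ?_, ?_, ?_, ?_, ?_, ?_, ?_, ?_, ?_⟩ <;>
    decide +kernel

theorem S_eq (e k : Nat) : S e k =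
    osum (block (cut bw17 229375) (cut bl17 324389) (cut bw17 458759) (cut bl17 648789) (cut bw17 917533))
    (pc (mask 1 (Nat.mul 16 7168)) (mask 2 (Nat.mul 8 7168)) (mask 4 (Nat.mul 4 7168))
      (mask 8 (Nat.mul 2 7168)) (mask 16 7168)) e k := rfl

attribute [irreducible] S

end Pool.Agent.AddSq.KD08
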