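import Pool.Agent.AddSq.TabBig

/-!
# Kernel data, blocks `114688 ≤ k < 131072`
-/

namespace Pool.Agent.AddSq.KD09

open KF

set_option linter.all false

noncomputable def S (e k : Nat) : Nat :=
  osum (block (cut bw17 262143) (cut bl17 370731) (cut bw17 524297) (cut bl17 741473) (cut bw17 1048609))
    (pc (mask 1 (Nat.mul 16 8192)) (mask 2 (Nat.mul 8 8192)) (mask 4 (Nat.mul 4 8192))
      (mask 8 (Nat.mul 2 8192)) (mask 16 8192)) e k

theorem grp1 :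
    Nat.ble (S 7 114688) 8390 = true ∧
    Nat.ble (S 7 114816) 8709 = true ∧
    Nat.ble (S 7 114944) 8484 = true ∧
    Nat.ble (S 7 115072) 8567 = true ∧
    Nat.ble (S 7 115200) 8461 = true ∧
    Nat.ble (S 7 115328) 8486 = true ∧
    Nat.ble (S 7 115456) 8735 = true ∧
    Nat.ble (S 7 115584) 8451 = true ∧
    Nat.ble (S 7 115712) 8707 = true ∧
    Nat.ble (S 7 115840) 8602 = true ∧
    Nat.ble (S 7 115968) 8493 = true ∧
    Nat.ble (S 7 116096) 8532 = true ∧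
    Nat.ble (S 7 116224) 8696 = true ∧
    Nat.ble (S 7 116352) 8433 = true ∧
    Nat.ble (S 7 116480) 8604 = true ∧
    Nat.ble (S 7 116608) 8420 = true ∧
    Nat.ble (S 7 116736) 8613 = true ∧
    Nat.ble (S 7 116864) 8643 = true ∧
    Nat.ble (S 7 116992) 8438 = true ∧
    Nat.ble (S 7 117120) 8459 = true ∧
    Nat.ble (S 7 117248) 8459 = true ∧
    Nat.ble (S 7 117376) 8676 = true ∧
    Nat.ble (S 7 117504) 8542 = true ∧
    Nat.ble (S 7 117632) 8487 = true ∧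
    Nat.ble (S 7 117760) 8654 = true ∧
    Nat.ble (S 7 117888) 8536 = true ∧
    Nat.ble (S 7 118016) 8378 = true ∧
    Nat.ble (S 7 118144) 8557 = true ∧
    Nat.ble (S 7 118272) 8434 = true ∧
    Nat.ble (S 7 118400) 8520 = true ∧
    Nat.ble (S 7 118528) 8591 = true ∧
    Nat.ble (S 7 118656) 8672 = true ∧
    Nat.ble (S 7 118784) 8454 = true ∧
    Nat.ble (S 7 118912) 8468 = true ∧
    Nat.ble (S 7 119040) 8724 = true ∧
    Nat.ble (S 7 119168) 8504 = true ∧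
    Nat.ble (S 7 119296) 8701 = true ∧
    Nat.ble (S 7 119424) 8445 = true ∧
    Nat.ble (S 7 119552) 8570 = true ∧
    Nat.ble (S 7 119680) 8701 = true ∧
    Nat.ble (S 7 119808) 8577 = true ∧
    Nat.ble (S 7 119936) 8710 = true ∧
    Nat.ble (S 7 120064) 8562 = true ∧
    Nat.ble (S 7 120192) 8701 = true ∧
    Nat.ble (S 7 120320) 8670 = true ∧
    Nat.ble (S 7 120448) 8721 = true ∧
    Nat.ble (S 7 120576) 8648 = true ∧
    Nat.ble (S 7 120704) 8646 = true ∧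
    Nat.ble (S 7 120832) 8720 = true ∧
    Nat.ble (S 7 120960) 8856 = true ∧
    Nat.ble (S 7 121088) 8730 = true ∧
    Nat.ble (S 7 121216) 8850 = true ∧
    Nat.ble (S 7 121344) 8741 = true ∧
    Nat.ble (S 7 121472) 8703 = true ∧
    Nat.ble (S 7 121600) 8669 = true ∧
    Nat.ble (S 7 121728) 8761 = true ∧
    Nat.ble (S 7 121856) 8779 = true ∧
    Nat.ble (S 7 121984) 8860 = true ∧
    Nat.ble (S 7 122112) 8677 = true ∧
    Nat.ble (S 7 122240) 9056 = true ∧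
    Nat.ble (S 7 122368) 8811 = true ∧
    Nat.ble (S 7 122496) 8867 = true ∧
    Nat.ble (S 7 122624) 8776 = true ∧
    Nat.ble (S 7 122752) 8791 = true := by
  refine ⟨?_, ?_, ?_, ?_, ?_, ?_, ?_, ?_, ?_, ?_, ?_, ?_, ?_, ?_, ?_, ?_, ?_, ?_, ?_, ?_, ?_, ?_, ?_, ?_, ?_, ?_, ?_, ?_, ?_, ?_, ?_, ?_, ?_, ?_, ?_, ?_, ?_, ?_, ?_, ?_, ?_, ?_, ?_, ?_, ?_, ?_, ?_, ?_, ?_, ?_, ?_, ?_, ?_, ?_, ?_, ?_, ?_, ?_, ?_, ?_, ?_, ?_, ?_, ?_⟩ <;>
    decide +kernel

theorem grp2 :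
    Nat.ble (S 7 122880) 8608 = true ∧
    Nat.ble (S 7 123008) 8664 = true ∧
    Nat.ble (S 7 123136) 8587 = true ∧
    Nat.ble (S 7 123264) 8845 = true ∧
    Nat.ble (S 7 123392) 8753 = true ∧
    Nat.ble (S 7 123520) 8882 = true ∧
    Nat.ble (S 7 123648) 8692 = true ∧
    Nat.ble (S 7 123776) 8923 = true ∧
    Nat.ble (S 7 123904) 8940 = true ∧
    Nat.ble (S 7 124032) 8831 = true ∧
    Nat.ble (S 7 124160) 8939 = true ∧
    Nat.ble (S 7 124288) 8795 = true ∧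
    Nat.ble (S 7 124416) 8780 = true ∧
    Nat.ble (S 7 124544) 8816 = true ∧
    Nat.ble (S 7 124672) 8971 = true ∧
    Nat.ble (S 7 124800) 8976 = true ∧
    Nat.ble (S 7 124928) 9056 = true ∧
    Nat.ble (S 7 125056) 8923 = true ∧
    Nat.ble (S 7 125184) 8962 = true ∧
    Nat.ble (S 7 125312) 8912 = true ∧
    Nat.ble (S 7 125440) 8903 = true ∧
    Nat.ble (S 7 125568) 8825 = true ∧
    Nat.ble (S 7 125696) 8811 = true ∧
    Nat.ble (S 7 125824) 8933 = true ∧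
    Nat.ble (S 7 125952) 8743 = true ∧
    Nat.ble (S 7 126080) 9030 = true ∧
    Nat.ble (S 7 126208) 9019 = true ∧
    Nat.ble (S 7 126336) 9012 = true ∧
    Nat.ble (S 7 126464) 8920 = true ∧
    Nat.ble (S 7 126592) 8969 = true ∧
    Nat.ble (S 7 126720) 8889 = true ∧
    Nat.ble (S 7 126848) 8815 = true ∧
    Nat.ble (S 7 126976) 8901 = true ∧
    Nat.ble (S 7 127104) 9042 = true ∧
    Nat.ble (S 7 127232) 8950 = true ∧
    Nat.ble (S 7 127360) 8968 = true ∧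
    Nat.ble (S 7 127488) 9019 = true ∧
    Nat.ble (S 7 127616) 8904 = true ∧
    Nat.ble (S 7 127744) 8782 = true ∧
    Nat.ble (S 7 127872) 9088 = true ∧
    Nat.ble (S 7 128000) 9001 = true ∧
    Nat.ble (S 7 128128) 9033 = true ∧
    Nat.ble (S 7 128256) 8813 = true ∧
    Nat.ble (S 7 128384) 8925 = true ∧
    Nat.ble (S 7 128512) 9015 = true ∧
    Nat.ble (S 7 128640) 9142 = true ∧
    Nat.ble (S 7 128768) 8898 = true ∧
    Nat.ble (S 7 128896) 8983 = true ∧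
    Nat.ble (S 7 129024) 9118 = true ∧
    Nat.ble (S 7 129152) 9094 = true ∧
    Nat.ble (S 7 129280) 8899 = true ∧
    Nat.ble (S 7 129408) 9106 = true ∧
    Nat.ble (S 7 129536) 9005 = true ∧
    Nat.ble (S 7 129664) 9092 = true ∧
    Nat.ble (S 7 129792) 9070 = true ∧
    Nat.ble (S 7 129920) 9020 = true ∧
    Nat.ble (S 7 130048) 8958 = true ∧
    Nat.ble (S 7 130176) 9143 = true ∧
    Nat.ble (S 7 130304) 9066 = true ∧
    Nat.ble (S 7 130432) 9060 = true ∧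
    Nat.ble (S 7 130560) 9092 = true ∧
    Nat.ble (S 7 130688) 9127 = true ∧
    Nat.ble (S 7 130816) 9036 = true ∧
    Nat.ble (S 7 130944) 9001 = true := by
  refine ⟨?_, ?_, ?_, ?_, ?_, ?_, ?_, ?_, ?_, ?_, ?_, ?_, ?_, ?_, ?_, ?_, ?_, ?_, ?_, ?_, ?_, ?_, ?_, ?_, ?_, ?_, ?_, ?_, ?_, ?_, ?_, ?_, ?_, ?_, ?_, ?_, ?_, ?_, ?_, ?_, ?_, ?_, ?_, ?_, ?_, ?_, ?_, ?_, ?_, ?_, ?_, ?_, ?_, ?_, ?_, ?_, ?_, ?_, ?_, ?_, ?_, ?_, ?_, ?_⟩ <;>
    decide +kernel

theorem S_eq (e k : Nat) : S e k =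
    osum (block (cut bw17 262143) (cut bl17 370731) (cut bw17 524297) (cut bl17 741473) (cut bw17 1048609))
    (pc (mask 1 (Nat.mul 16 8192)) (mask 2 (Nat.mul 8 8192)) (mask 4 (Nat.mul 4 8192))
      (mask 8 (Nat.mul 2 8192)) (mask 16 8192)) e k := rfl

attribute [irreducible] S

end Pool.Agent.AddSq.KD09
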