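import Pool.Agent.AddSq.TabBig

/-!
# Kernel data, blocks `131072 ≤ k < 139264`
-/

namespace Pool.Agent.AddSq.KD10

open KF

set_option linter.all false

noncomputable def S (e k : Nat) : Nat :=
  osum (block (cut bw18 278527) (cut bl18 393901) (cut bw18 557065) (cut bl18 787815) (cut bw18 1114147))
    (pc (mask 1 (Nat.mul 16 8704)) (mask 2 (Nat.mul 8 8704)) (mask 4 (Nat.mul 4 8704))
      (mask 8 (Nat.mul 2 8704)) (mask 16 8704)) e k

theorem grp1 :
    Nat.ble (S 7 131072) 9076 = true ∧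
    Nat.ble (S 7 131200) 9064 = true ∧
    Nat.ble (S 7 131328) 9073 = true ∧
    Nat.ble (S 7 131456) 9211 = true ∧
    Nat.ble (S 7 131584) 9113 = true ∧
    Nat.ble (S 7 131712) 9078 = true ∧
    Nat.ble (S 7 131840) 9248 = true ∧
    Nat.ble (S 7 131968) 9198 = true ∧
    Nat.ble (S 7 132096) 9289 = true ∧
    Nat.ble (S 7 132224) 9082 = true ∧
    Nat.ble (S 7 132352) 9130 = true ∧
    Nat.ble (S 7 132480) 9218 = true ∧
    Nat.ble (S 7 132608) 9188 = true ∧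
    Nat.ble (S 7 132736) 9323 = true ∧
    Nat.ble (S 7 132864) 9161 = true ∧
    Nat.ble (S 7 132992) 9248 = true ∧
    Nat.ble (S 7 133120) 9331 = true ∧
    Nat.ble (S 7 133248) 9320 = true ∧
    Nat.ble (S 7 133376) 9139 = true ∧
    Nat.ble (S 7 133504) 9071 = true ∧
    Nat.ble (S 7 133632) 9138 = true ∧
    Nat.ble (S 7 133760) 9368 = true ∧
    Nat.ble (S 7 133888) 9179 = true ∧
    Nat.ble (S 7 134016) 9192 = true ∧
    Nat.ble (S 7 134144) 9106 = true ∧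
    Nat.ble (S 7 134272) 9063 = true ∧
    Nat.ble (S 7 134400) 9232 = true ∧
    Nat.ble (S 7 134528) 9185 = true ∧
    Nat.ble (S 7 134656) 9250 = true ∧
    Nat.ble (S 7 134784) 9298 = true ∧
    Nat.ble (S 7 134912) 9318 = true ∧
    Nat.ble (S 7 135040) 9337 = true ∧
    Nat.ble (S 7 135168) 9145 = true ∧
    Nat.ble (S 7 135296) 9380 = true ∧
    Nat.ble (S 7 135424) 9284 = true ∧
    Nat.ble (S 7 135552) 9142 = true ∧
    Nat.ble (S 7 135680) 9225 = true ∧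
    Nat.ble (S 7 135808) 9322 = true ∧
    Nat.ble (S 7 135936) 9186 = true ∧
    Nat.ble (S 7 136064) 9401 = true ∧
    Nat.ble (S 7 136192) 9176 = true ∧
    Nat.ble (S 7 136320) 9542 = true ∧
    Nat.ble (S 7 136448) 9349 = true ∧
    Nat.ble (S 7 136576) 9371 = true ∧
    Nat.ble (S 7 136704) 9313 = true ∧
    Nat.ble (S 7 136832) 9384 = true ∧
    Nat.ble (S 7 136960) 9387 = true ∧
    Nat.ble (S 7 137088) 9377 = true ∧
    Nat.ble (S 7 137216) 9462 = true ∧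
    Nat.ble (S 7 137344) 9252 = true ∧
    Nat.ble (S 7 137472) 9272 = true ∧
    Nat.ble (S 7 137600) 9347 = true ∧
    Nat.ble (S 7 137728) 9362 = true ∧
    Nat.ble (S 7 137856) 9453 = true ∧
    Nat.ble (S 7 137984) 9322 = true ∧
    Nat.ble (S 7 138112) 9616 = true ∧
    Nat.ble (S 7 138240) 9527 = true ∧
    Nat.ble (S 7 138368) 9586 = true ∧
    Nat.ble (S 7 138496) 9243 = true ∧
    Nat.ble (S 7 138624) 9360 = true ∧
    Nat.ble (S 7 138752) 9434 = true ∧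
    Nat.ble (S 7 138880) 9265 = true ∧
    Nat.ble (S 7 139008) 9408 = true ∧
    Nat.ble (S 7 139136) 9350 = true := by
  refine ⟨?_, ?_, ?_, ?_, ?_, ?_, ?_, ?_, ?_, ?_, ?_, ?_, ?_, ?_, ?_, ?_, ?_, ?_, ?_, ?_, ?_, ?_, ?_, ?_, ?_, ?_, ?_, ?_, ?_, ?_, ?_, ?_, ?_, ?_, ?_, ?_, ?_, ?_, ?_, ?_, ?_, ?_, ?_, ?_, ?_, ?_, ?_, ?_, ?_, ?_, ?_, ?_, ?_, ?_, ?_, ?_, ?_, ?_, ?_, ?_, ?_, ?_, ?_, ?_⟩ <;>
    decide +kernel

theorem S_eq (e k : Nat) : S e k =
    osum (block (cut bw18 278527) (cut bl18 393901) (cut bw18 557065) (cut bl18 787815) (cut bw18 1114147))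
    (pc (mask 1 (Nat.mul 16 8704)) (mask 2 (Nat.mul 8 8704)) (mask 4 (Nat.mul 4 8704))
      (mask 8 (Nat.mul 2 8704)) (mask 16 8704)) e k := rfl

attribute [irreducible] S

end Pool.Agent.AddSq.KD10
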