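import Pool.Agent.AddSq.TabBig

/-!
# Kernel data, blocks `139264 ≤ k < 147456`
-/

namespace Pool.Agent.AddSq.KD11

open KF

set_option linter.all false

noncomputable def S (e k : Nat) : Nat :=
  osum (block (cut bw18 294911) (cut bl18 417071) (cut bw18 589833) (cut bl18 834157) (cut bw18 1179685))
    (pc (mask 1 (Nat.mul 16 9216)) (mask 2 (Nat.mul 8 9216)) (mask 4 (Nat.mul 4 9216))
      (mask 8 (Nat.mul 2 9216)) (mask 16 9216)) e k

theorem grp1 :
    Nat.ble (S 7 139264) 9390 = true ∧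
    Nat.ble (S 7 139392) 9333 = true ∧
    Nat.ble (S 7 139520) 9581 = true ∧
    Nat.ble (S 7 139648) 9530 = true ∧
    Nat.ble (S 7 139776) 9445 = true ∧
    Nat.ble (S 7 139904) 9393 = true ∧
    Nat.ble (S 7 140032) 9372 = true ∧
    Nat.ble (S 7 140160) 9206 = true ∧
    Nat.ble (S 7 140288) 9530 = true ∧
    Nat.ble (S 7 140416) 9344 = true ∧
    Nat.ble (S 7 140544) 9404 = true ∧
    Nat.ble (S 7 140672) 9311 = true ∧
    Nat.ble (S 7 140800) 9390 = true ∧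
    Nat.ble (S 7 140928) 9598 = true ∧
    Nat.ble (S 7 141056) 9597 = true ∧
    Nat.ble (S 7 141184) 9318 = true ∧
    Nat.ble (S 7 141312) 9488 = true ∧
    Nat.ble (S 7 141440) 9429 = true ∧
    Nat.ble (S 7 141568) 9657 = true ∧
    Nat.ble (S 7 141696) 9683 = true ∧
    Nat.ble (S 7 141824) 9352 = true ∧
    Nat.ble (S 7 141952) 9572 = true ∧
    Nat.ble (S 7 142080) 9620 = true ∧
    Nat.ble (S 7 142208) 9719 = true ∧
    Nat.ble (S 7 142336) 9527 = true ∧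
    Nat.ble (S 7 142464) 9679 = true ∧
    Nat.ble (S 7 142592) 9493 = true ∧
    Nat.ble (S 7 142720) 9572 = true ∧
    Nat.ble (S 7 142848) 9511 = true ∧
    Nat.ble (S 7 142976) 9734 = true ∧
    Nat.ble (S 7 143104) 9641 = true ∧
    Nat.ble (S 7 143232) 9526 = true ∧
    Nat.ble (S 7 143360) 9522 = true ∧
    Nat.ble (S 7 143488) 9734 = true ∧
    Nat.ble (S 7 143616) 9593 = true ∧
    Nat.ble (S 7 143744) 9545 = true ∧
    Nat.ble (S 7 143872) 9679 = true ∧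
    Nat.ble (S 7 144000) 9792 = true ∧
    Nat.ble (S 7 144128) 9821 = true ∧
    Nat.ble (S 7 144256) 9545 = true ∧
    Nat.ble (S 7 144384) 9631 = true ∧
    Nat.ble (S 7 144512) 9613 = true ∧
    Nat.ble (S 7 144640) 9696 = true ∧
    Nat.ble (S 7 144768) 9641 = true ∧
    Nat.ble (S 7 144896) 9657 = true ∧
    Nat.ble (S 7 145024) 9672 = true ∧
    Nat.ble (S 7 145152) 9706 = true ∧
    Nat.ble (S 7 145280) 9398 = true ∧
    Nat.ble (S 7 145408) 9493 = true ∧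
    Nat.ble (S 7 145536) 9629 = true ∧
    Nat.ble (S 7 145664) 9646 = true ∧
    Nat.ble (S 7 145792) 9716 = true ∧
    Nat.ble (S 7 145920) 9595 = true ∧
    Nat.ble (S 7 146048) 9828 = true ∧
    Nat.ble (S 7 146176) 9541 = true ∧
    Nat.ble (S 7 146304) 9665 = true ∧
    Nat.ble (S 7 146432) 9585 = true ∧
    Nat.ble (S 7 146560) 9624 = true ∧
    Nat.ble (S 7 146688) 9810 = true ∧
    Nat.ble (S 7 146816) 9781 = true ∧
    Nat.ble (S 7 146944) 9623 = true ∧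
    Nat.ble (S 7 147072) 9494 = true ∧
    Nat.ble (S 7 147200) 9725 = true ∧
    Nat.ble (S 7 147328) 9780 = true := by
  refine ⟨?_, ?_, ?_, ?_, ?_, ?_, ?_, ?_, ?_, ?_, ?_, ?_, ?_, ?_, ?_, ?_, ?_, ?_, ?_, ?_, ?_, ?_, ?_, ?_, ?_, ?_, ?_, ?_, ?_, ?_, ?_, ?_, ?_, ?_, ?_, ?_, ?_, ?_, ?_, ?_, ?_, ?_, ?_, ?_, ?_, ?_, ?_, ?_, ?_, ?_, ?_, ?_, ?_, ?_, ?_, ?_, ?_, ?_, ?_, ?_, ?_, ?_, ?_, ?_⟩ <;>
    decide +kernel

theorem S_eq (e k : Nat) : S e k =
    osum (block (cut bw18 294911) (cut bl18 417071) (cut bw18 589833) (cut bl18 834157) (cut bw18 1179685))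
    (pc (mask 1 (Nat.mul 16 9216)) (mask 2 (Nat.mul 8 9216)) (mask 4 (Nat.mul 4 9216))
      (mask 8 (Nat.mul 2 9216)) (mask 16 9216)) e k := rfl

attribute [irreducible] S

end Pool.Agent.AddSq.KD11
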