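import Pool.Agent.AddSq.TabBig

/-!
# Kernel data, blocks `147456 ≤ k < 155648`
-/

namespace Pool.Agent.AddSq.KD12

open KF

set_option linter.all false

noncomputable def S (e k : Nat) : Nat :=
  osum (block (cut bw18 311295) (cut bl18 440243) (cut bw18 622603) (cut bl18 880501) (cut bw18 1245225))
    (pc (mask 1 (Nat.mul 16 9728)) (mask 2 (Nat.mul 8 9728)) (mask 4 (Nat.mul 4 9728))
      (mask 8 (Nat.mul 2 9728)) (mask 16 9728)) e k

theorem grp1 :
    Nat.ble (S 7 147456) 9827 = true ∧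
    Nat.ble (S 7 147584) 9804 = true ∧
    Nat.ble (S 7 147712) 9799 = true ∧
    Nat.ble (S 7 147840) 9713 = true ∧
    Nat.ble (S 7 147968) 9981 = true ∧
    Nat.ble (S 7 148096) 9940 = true ∧
    Nat.ble (S 7 148224) 9876 = true ∧
    Nat.ble (S 7 148352) 9678 = true ∧
    Nat.ble (S 7 148480) 9747 = true ∧
    Nat.ble (S 7 148608) 9589 = true ∧
    Nat.ble (S 7 148736) 9725 = true ∧
    Nat.ble (S 7 148864) 9627 = true ∧
    Nat.ble (S 7 148992) 9592 = true ∧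
    Nat.ble (S 7 149120) 9589 = true ∧
    Nat.ble (S 7 149248) 9908 = true ∧
    Nat.ble (S 7 149376) 9738 = true ∧
    Nat.ble (S 7 149504) 9755 = true ∧
    Nat.ble (S 7 149632) 9923 = true ∧
    Nat.ble (S 7 149760) 9934 = true ∧
    Nat.ble (S 7 149888) 9954 = true ∧
    Nat.ble (S 7 150016) 9801 = true ∧
    Nat.ble (S 7 150144) 9998 = true ∧
    Nat.ble (S 7 150272) 9965 = true ∧
    Nat.ble (S 7 150400) 9840 = true ∧
    Nat.ble (S 7 150528) 9840 = true ∧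
    Nat.ble (S 7 150656) 10003 = true ∧
    Nat.ble (S 7 150784) 9908 = true ∧
    Nat.ble (S 7 150912) 10036 = true ∧
    Nat.ble (S 7 151040) 9975 = true ∧
    Nat.ble (S 7 151168) 9979 = true ∧
    Nat.ble (S 7 151296) 9832 = true ∧
    Nat.ble (S 7 151424) 9974 = true ∧
    Nat.ble (S 7 151552) 9808 = true ∧
    Nat.ble (S 7 151680) 9992 = true ∧
    Nat.ble (S 7 151808) 9674 = true ∧
    Nat.ble (S 7 151936) 10063 = true ∧
    Nat.ble (S 7 152064) 9668 = true ∧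
    Nat.ble (S 7 152192) 9849 = true ∧
    Nat.ble (S 7 152320) 9867 = true ∧
    Nat.ble (S 7 152448) 9942 = true ∧
    Nat.ble (S 7 152576) 9873 = true ∧
    Nat.ble (S 7 152704) 9930 = true ∧
    Nat.ble (S 7 152832) 9970 = true ∧
    Nat.ble (S 7 152960) 9900 = true ∧
    Nat.ble (S 7 153088) 9968 = true ∧
    Nat.ble (S 7 153216) 10084 = true ∧
    Nat.ble (S 7 153344) 10018 = true ∧
    Nat.ble (S 7 153472) 9926 = true ∧
    Nat.ble (S 7 153600) 9913 = true ∧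
    Nat.ble (S 7 153728) 9863 = true ∧
    Nat.ble (S 7 153856) 9881 = true ∧
    Nat.ble (S 7 153984) 9922 = true ∧
    Nat.ble (S 7 154112) 9774 = true ∧
    Nat.ble (S 7 154240) 9975 = true ∧
    Nat.ble (S 7 154368) 9794 = true ∧
    Nat.ble (S 7 154496) 10028 = true ∧
    Nat.ble (S 7 154624) 10233 = true ∧
    Nat.ble (S 7 154752) 9924 = true ∧
    Nat.ble (S 7 154880) 10020 = true ∧
    Nat.ble (S 7 155008) 9827 = true ∧
    Nat.ble (S 7 155136) 9934 = true ∧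
    Nat.ble (S 7 155264) 10009 = true ∧
    Nat.ble (S 7 155392) 9919 = true ∧
    Nat.ble (S 7 155520) 9972 = true := by
  refine ⟨?_, ?_, ?_, ?_, ?_, ?_, ?_, ?_, ?_, ?_, ?_, ?_, ?_, ?_, ?_, ?_, ?_, ?_, ?_, ?_, ?_, ?_, ?_, ?_, ?_, ?_, ?_, ?_, ?_, ?_, ?_, ?_, ?_, ?_, ?_, ?_, ?_, ?_, ?_, ?_, ?_, ?_, ?_, ?_, ?_, ?_, ?_, ?_, ?_, ?_, ?_, ?_, ?_, ?_, ?_, ?_, ?_, ?_, ?_, ?_, ?_, ?_, ?_, ?_⟩ <;>
    decide +kernel

theorem S_eq (e k : Nat) : S e k =
    osum (block (cut bw18 311295) (cut bl18 440243) (cut bw18 622603) (cut bl18 880501) (cut bw18 1245225))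
    (pc (mask 1 (Nat.mul 16 9728)) (mask 2 (Nat.mul 8 9728)) (mask 4 (Nat.mul 4 9728))
      (mask 8 (Nat.mul 2 9728)) (mask 16 9728)) e k := rfl

attribute [irreducible] S

end Pool.Agent.AddSq.KD12
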