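import Pool.Agent.AddSq.TabBig

/-!
# Kernel data, blocks `155648 ≤ k < 163840`
-/

namespace Pool.Agent.AddSq.KD13

open KF

set_option linter.all false

noncomputable def S (e k : Nat) : Nat :=
  osum (block (cut bw18 327679) (cut bl18 463413) (cut bw18 655371) (cut bl18 926841) (cut bw18 1310759))
    (pc (mask 1 (Nat.mul 16 10240)) (mask 2 (Nat.mul 8 10240)) (mask 4 (Nat.mul 4 10240))
      (mask 8 (Nat.mul 2 10240)) (mask 16 10240)) e k

theorem grp1 :
    Nat.ble (S 7 155648) 10122 = true ∧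
    Nat.ble (S 7 155776) 10024 = true ∧
    Nat.ble (S 7 155904) 10083 = true ∧
    Nat.ble (S 7 156032) 10101 = true ∧
    Nat.ble (S 7 156160) 10048 = true ∧
    Nat.ble (S 7 156288) 9933 = true ∧
    Nat.ble (S 7 156416) 10185 = true ∧
    Nat.ble (S 7 156544) 10087 = true ∧
    Nat.ble (S 7 156672) 10020 = true ∧
    Nat.ble (S 7 156800) 9997 = true ∧
    Nat.ble (S 7 156928) 10072 = true ∧
    Nat.ble (S 7 157056) 10245 = true ∧
    Nat.ble (S 7 157184) 10070 = true ∧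
    Nat.ble (S 7 157312) 10248 = true ∧
    Nat.ble (S 7 157440) 10211 = true ∧
    Nat.ble (S 7 157568) 10030 = true ∧
    Nat.ble (S 7 157696) 10087 = true ∧
    Nat.ble (S 7 157824) 10201 = true ∧
    Nat.ble (S 7 157952) 10273 = true ∧
    Nat.ble (S 7 158080) 10037 = true ∧
    Nat.ble (S 7 158208) 10118 = true ∧
    Nat.ble (S 7 158336) 9926 = true ∧
    Nat.ble (S 7 158464) 10138 = true ∧
    Nat.ble (S 7 158592) 9976 = true ∧
    Nat.ble (S 7 158720) 10023 = true ∧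
    Nat.ble (S 7 158848) 10055 = true ∧
    Nat.ble (S 7 158976) 10263 = true ∧
    Nat.ble (S 7 159104) 10354 = true ∧
    Nat.ble (S 7 159232) 10233 = true ∧
    Nat.ble (S 7 159360) 10384 = true ∧
    Nat.ble (S 7 159488) 10127 = true ∧
    Nat.ble (S 7 159616) 10003 = true ∧
    Nat.ble (S 7 159744) 10156 = true ∧
    Nat.ble (S 7 159872) 10154 = true ∧
    Nat.ble (S 7 160000) 9822 = true ∧
    Nat.ble (S 7 160128) 10211 = true ∧
    Nat.ble (S 7 160256) 10213 = true ∧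
    Nat.ble (S 7 160384) 10301 = true ∧
    Nat.ble (S 7 160512) 10253 = true ∧
    Nat.ble (S 7 160640) 10157 = true ∧
    Nat.ble (S 7 160768) 10208 = true ∧
    Nat.ble (S 7 160896) 10137 = true ∧
    Nat.ble (S 7 161024) 10161 = true ∧
    Nat.ble (S 7 161152) 9929 = true ∧
    Nat.ble (S 7 161280) 10238 = true ∧
    Nat.ble (S 7 161408) 10006 = true ∧
    Nat.ble (S 7 161536) 10301 = true ∧
    Nat.ble (S 7 161664) 10335 = true ∧
    Nat.ble (S 7 161792) 10003 = true ∧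
    Nat.ble (S 7 161920) 10327 = true ∧
    Nat.ble (S 7 162048) 10179 = true ∧
    Nat.ble (S 7 162176) 10355 = true ∧
    Nat.ble (S 7 162304) 10201 = true ∧
    Nat.ble (S 7 162432) 10264 = true ∧
    Nat.ble (S 7 162560) 10238 = true ∧
    Nat.ble (S 7 162688) 10265 = true ∧
    Nat.ble (S 7 162816) 10354 = true ∧
    Nat.ble (S 7 162944) 10358 = true ∧
    Nat.ble (S 7 163072) 10442 = true ∧
    Nat.ble (S 7 163200) 10288 = true ∧
    Nat.ble (S 7 163328) 10236 = true ∧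
    Nat.ble (S 7 163456) 10390 = true ∧
    Nat.ble (S 7 163584) 10221 = true ∧
    Nat.ble (S 7 163712) 10378 = true := by
  refine ⟨?_, ?_, ?_, ?_, ?_, ?_, ?_, ?_, ?_, ?_, ?_, ?_, ?_, ?_, ?_, ?_, ?_, ?_, ?_, ?_, ?_, ?_, ?_, ?_, ?_, ?_, ?_, ?_, ?_, ?_, ?_, ?_, ?_, ?_, ?_, ?_, ?_, ?_, ?_, ?_, ?_, ?_, ?_, ?_, ?_, ?_, ?_, ?_, ?_, ?_, ?_, ?_, ?_, ?_, ?_, ?_, ?_, ?_, ?_, ?_, ?_, ?_, ?_, ?_⟩ <;>
    decide +kernel

theorem S_eq (e k : Nat) : S e k =
    osum (block (cut bw18 327679) (cut bl18 463413) (cut bw18 655371) (cut bl18 926841) (cut bw18 1310759))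
    (pc (mask 1 (Nat.mul 16 10240)) (mask 2 (Nat.mul 8 10240)) (mask 4 (Nat.mul 4 10240))
      (mask 8 (Nat.mul 2 10240)) (mask 16 10240)) e k := rfl

attribute [irreducible] S

end Pool.Agent.AddSq.KD13
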