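import Pool.Agent.AddSq.TabBig

/-!
# Kernel data, blocks `163840 ≤ k < 172032`
-/

namespace Pool.Agent.AddSq.KD14

open KF

set_option linter.all false

noncomputable def S (e k : Nat) : Nat :=
  osum (block (cut bw18 344063) (cut bl18 486583) (cut bw18 688137) (cut bl18 973179) (cut bw18 1376291))
    (pc (mask 1 (Nat.mul 16 10752)) (mask 2 (Nat.mul 8 10752)) (mask 4 (Nat.mul 4 10752))
      (mask 8 (Nat.mul 2 10752)) (mask 16 10752)) e k

theorem grp1 :
    Nat.ble (S 7 163840) 10393 = true ∧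
    Nat.ble (S 7 163968) 10363 = true ∧
    Nat.ble (S 7 164096) 10281 = true ∧
    Nat.ble (S 7 164224) 10528 = true ∧
    Nat.ble (S 7 164352) 10312 = true ∧
    Nat.ble (S 7 164480) 10365 = true ∧
    Nat.ble (S 7 164608) 10275 = true ∧
    Nat.ble (S 7 164736) 10350 = true ∧
    Nat.ble (S 7 164864) 10419 = true ∧
    Nat.ble (S 7 164992) 10321 = true ∧
    Nat.ble (S 7 165120) 10284 = true ∧
    Nat.ble (S 7 165248) 10402 = true ∧
    Nat.ble (S 7 165376) 10257 = true ∧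
    Nat.ble (S 7 165504) 10293 = true ∧
    Nat.ble (S 7 165632) 10309 = true ∧
    Nat.ble (S 7 165760) 10276 = true ∧
    Nat.ble (S 7 165888) 10332 = true ∧
    Nat.ble (S 7 166016) 10356 = true ∧
    Nat.ble (S 7 166144) 10429 = true ∧
    Nat.ble (S 7 166272) 10207 = true ∧
    Nat.ble (S 7 166400) 10295 = true ∧
    Nat.ble (S 7 166528) 10270 = true ∧
    Nat.ble (S 7 166656) 10250 = true ∧
    Nat.ble (S 7 166784) 10333 = true ∧
    Nat.ble (S 7 166912) 10399 = true ∧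
    Nat.ble (S 7 167040) 10289 = true ∧
    Nat.ble (S 7 167168) 10325 = true ∧
    Nat.ble (S 7 167296) 10501 = true ∧
    Nat.ble (S 7 167424) 10328 = true ∧
    Nat.ble (S 7 167552) 10368 = true ∧
    Nat.ble (S 7 167680) 10481 = true ∧
    Nat.ble (S 7 167808) 10493 = true ∧
    Nat.ble (S 7 167936) 10447 = true ∧
    Nat.ble (S 7 168064) 10505 = true ∧
    Nat.ble (S 7 168192) 10431 = true ∧
    Nat.ble (S 7 168320) 10668 = true ∧
    Nat.ble (S 7 168448) 10491 = true ∧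
    Nat.ble (S 7 168576) 10547 = true ∧
    Nat.ble (S 7 168704) 10464 = true ∧
    Nat.ble (S 7 168832) 10347 = true ∧
    Nat.ble (S 7 168960) 10466 = true ∧
    Nat.ble (S 7 169088) 10344 = true ∧
    Nat.ble (S 7 169216) 10315 = true ∧
    Nat.ble (S 7 169344) 10567 = true ∧
    Nat.ble (S 7 169472) 10434 = true ∧
    Nat.ble (S 7 169600) 10253 = true ∧
    Nat.ble (S 7 169728) 10609 = true ∧
    Nat.ble (S 7 169856) 10467 = true ∧
    Nat.ble (S 7 169984) 10563 = true ∧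
    Nat.ble (S 7 170112) 10574 = true ∧
    Nat.ble (S 7 170240) 10328 = true ∧
    Nat.ble (S 7 170368) 10394 = true ∧
    Nat.ble (S 7 170496) 10501 = true ∧
    Nat.ble (S 7 170624) 10536 = true ∧
    Nat.ble (S 7 170752) 10477 = true ∧
    Nat.ble (S 7 170880) 10567 = true ∧
    Nat.ble (S 7 171008) 10600 = true ∧
    Nat.ble (S 7 171136) 10365 = true ∧
    Nat.ble (S 7 171264) 10481 = true ∧
    Nat.ble (S 7 171392) 10392 = true ∧
    Nat.ble (S 7 171520) 10528 = true ∧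
    Nat.ble (S 7 171648) 10768 = true ∧
    Nat.ble (S 7 171776) 10422 = true ∧
    Nat.ble (S 7 171904) 10371 = true := by
  refine ⟨?_, ?_, ?_, ?_, ?_, ?_, ?_, ?_, ?_, ?_, ?_, ?_, ?_, ?_, ?_, ?_, ?_, ?_, ?_, ?_, ?_, ?_, ?_, ?_, ?_, ?_, ?_, ?_, ?_, ?_, ?_, ?_, ?_, ?_, ?_, ?_, ?_, ?_, ?_, ?_, ?_, ?_, ?_, ?_, ?_, ?_, ?_, ?_, ?_, ?_, ?_, ?_, ?_, ?_, ?_, ?_, ?_, ?_, ?_, ?_, ?_, ?_, ?_, ?_⟩ <;>
    decide +kernel

theorem S_eq (e k : Nat) : S e k =
    osum (block (cut bw18 344063) (cut bl18 486583) (cut bw18 688137) (cut bl18 973179) (cut bw18 1376291))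
    (pc (mask 1 (Nat.mul 16 10752)) (mask 2 (Nat.mul 8 10752)) (mask 4 (Nat.mul 4 10752))
      (mask 8 (Nat.mul 2 10752)) (mask 16 10752)) e k := rfl

attribute [irreducible] S

end Pool.Agent.AddSq.KD14
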