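import Pool.Agent.AddSq.TabBig

/-!
# Kernel data, blocks `172032 ≤ k < 180224`
-/

namespace Pool.Agent.AddSq.KD15

open KF

set_option linter.all false

noncomputable def S (e k : Nat) : Nat :=
  osum (block (cut bw18 360447) (cut bl18 509753) (cut bw18 720905) (cut bl18 1019521) (cut bw18 1441829))
    (pc (mask 1 (Nat.mul 16 11264)) (mask 2 (Nat.mul 8 11264)) (mask 4 (Nat.mul 4 11264))
      (mask 8 (Nat.mul 2 11264)) (mask 16 11264)) e k

theorem grp1 :
    Nat.ble (S 7 172032) 10658 = true ∧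
    Nat.ble (S 7 172160) 10678 = true ∧
    Nat.ble (S 7 172288) 10786 = true ∧
    Nat.ble (S 7 172416) 10477 = true ∧
    Nat.ble (S 7 172544) 10500 = true ∧
    Nat.ble (S 7 172672) 10637 = true ∧
    Nat.ble (S 7 172800) 10479 = true ∧
    Nat.ble (S 7 172928) 10638 = true ∧
    Nat.ble (S 7 173056) 10511 = true ∧
    Nat.ble (S 7 173184) 10459 = true ∧
    Nat.ble (S 7 173312) 10677 = true ∧
    Nat.ble (S 7 173440) 10747 = true ∧
    Nat.ble (S 7 173568) 10620 = true ∧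
    Nat.ble (S 7 173696) 10639 = true ∧
    Nat.ble (S 7 173824) 10525 = true ∧
    Nat.ble (S 7 173952) 10589 = true ∧
    Nat.ble (S 7 174080) 10589 = true ∧
    Nat.ble (S 7 174208) 10666 = true ∧
    Nat.ble (S 7 174336) 10679 = true ∧
    Nat.ble (S 7 174464) 10535 = true ∧
    Nat.ble (S 7 174592) 10520 = true ∧
    Nat.ble (S 7 174720) 10814 = true ∧
    Nat.ble (S 7 174848) 10938 = true ∧
    Nat.ble (S 7 174976) 10721 = true ∧
    Nat.ble (S 7 175104) 10753 = true ∧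
    Nat.ble (S 7 175232) 10714 = true ∧
    Nat.ble (S 7 175360) 10509 = true ∧
    Nat.ble (S 7 175488) 10618 = true ∧
    Nat.ble (S 7 175616) 10412 = true ∧
    Nat.ble (S 7 175744) 10757 = true ∧
    Nat.ble (S 7 175872) 10728 = true ∧
    Nat.ble (S 7 176000) 10784 = true ∧
    Nat.ble (S 7 176128) 10660 = true ∧
    Nat.ble (S 7 176256) 10695 = true ∧
    Nat.ble (S 7 176384) 10753 = true ∧
    Nat.ble (S 7 176512) 10770 = true ∧
    Nat.ble (S 7 176640) 10565 = true ∧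
    Nat.ble (S 7 176768) 10819 = true ∧
    Nat.ble (S 7 176896) 10954 = true ∧
    Nat.ble (S 7 177024) 10797 = true ∧
    Nat.ble (S 7 177152) 10586 = true ∧
    Nat.ble (S 7 177280) 10935 = true ∧
    Nat.ble (S 7 177408) 10962 = true ∧
    Nat.ble (S 7 177536) 10960 = true ∧
    Nat.ble (S 7 177664) 10812 = true ∧
    Nat.ble (S 7 177792) 10741 = true ∧
    Nat.ble (S 7 177920) 10819 = true ∧
    Nat.ble (S 7 178048) 10831 = true ∧
    Nat.ble (S 7 178176) 10799 = true ∧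
    Nat.ble (S 7 178304) 10827 = true ∧
    Nat.ble (S 7 178432) 10893 = true ∧
    Nat.ble (S 7 178560) 10622 = true ∧
    Nat.ble (S 7 178688) 10895 = true ∧
    Nat.ble (S 7 178816) 10816 = true ∧
    Nat.ble (S 7 178944) 10794 = true ∧
    Nat.ble (S 7 179072) 10839 = true ∧
    Nat.ble (S 7 179200) 10875 = true ∧
    Nat.ble (S 7 179328) 10883 = true ∧
    Nat.ble (S 7 179456) 10880 = true ∧
    Nat.ble (S 7 179584) 10803 = true ∧
    Nat.ble (S 7 179712) 10741 = true ∧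
    Nat.ble (S 7 179840) 10844 = true ∧
    Nat.ble (S 7 179968) 10752 = true ∧
    Nat.ble (S 7 180096) 10893 = true := by
  refine ⟨?_, ?_, ?_, ?_, ?_, ?_, ?_, ?_, ?_, ?_, ?_, ?_, ?_, ?_, ?_, ?_, ?_, ?_, ?_, ?_, ?_, ?_, ?_, ?_, ?_, ?_, ?_, ?_, ?_, ?_, ?_, ?_, ?_, ?_, ?_, ?_, ?_, ?_, ?_, ?_, ?_, ?_, ?_, ?_, ?_, ?_, ?_, ?_, ?_, ?_, ?_, ?_, ?_, ?_, ?_, ?_, ?_, ?_, ?_, ?_, ?_, ?_, ?_, ?_⟩ <;>
    decide +kernel

theorem S_eq (e k : Nat) : S e k =
    osum (block (cut bw18 360447) (cut bl18 509753) (cut bw18 720905) (cut bl18 1019521) (cut bw18 1441829))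
    (pc (mask 1 (Nat.mul 16 11264)) (mask 2 (Nat.mul 8 11264)) (mask 4 (Nat.mul 4 11264))
      (mask 8 (Nat.mul 2 11264)) (mask 16 11264)) e k := rfl

attribute [irreducible] S

end Pool.Agent.AddSq.KD15
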