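import Pool.Agent.AddSq.TabBig

/-!
# Kernel data, blocks `180224 ≤ k < 188416`
-/

namespace Pool.Agent.AddSq.KD16

open KF

set_option linter.all false

noncomputable def S (e k : Nat) : Nat :=
  osum (block (cut bw18 376831) (cut bl18 532925) (cut bw18 753675) (cut bl18 1065865) (cut bw18 1507371))
    (pc (mask 1 (Nat.mul 16 11776)) (mask 2 (Nat.mul 8 11776)) (mask 4 (Nat.mul 4 11776))
      (mask 8 (Nat.mul 2 11776)) (mask 16 11776)) e k

theorem grp1 :
    Nat.ble (S 7 180224) 10881 = true ∧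
    Nat.ble (S 7 180352) 10888 = true ∧
    Nat.ble (S 7 180480) 10938 = true ∧
    Nat.ble (S 7 180608) 10859 = true ∧
    Nat.ble (S 7 180736) 11114 = true ∧
    Nat.ble (S 7 180864) 10893 = true ∧
    Nat.ble (S 7 180992) 11031 = true ∧
    Nat.ble (S 7 181120) 10950 = true ∧
    Nat.ble (S 7 181248) 10874 = true ∧
    Nat.ble (S 7 181376) 10958 = true ∧
    Nat.ble (S 7 181504) 11085 = true ∧
    Nat.ble (S 7 181632) 10876 = true ∧
    Nat.ble (S 7 181760) 11168 = true ∧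
    Nat.ble (S 7 181888) 10786 = true ∧
    Nat.ble (S 7 182016) 11049 = true ∧
    Nat.ble (S 7 182144) 10914 = true ∧
    Nat.ble (S 7 182272) 10949 = true ∧
    Nat.ble (S 7 182400) 10916 = true ∧
    Nat.ble (S 7 182528) 10977 = true ∧
    Nat.ble (S 7 182656) 10970 = true ∧
    Nat.ble (S 7 182784) 11095 = true ∧
    Nat.ble (S 7 182912) 11123 = true ∧
    Nat.ble (S 7 183040) 11012 = true ∧
    Nat.ble (S 7 183168) 10956 = true ∧
    Nat.ble (S 7 183296) 10957 = true ∧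
    Nat.ble (S 7 183424) 10845 = true ∧
    Nat.ble (S 7 183552) 10963 = true ∧
    Nat.ble (S 7 183680) 11138 = true ∧
    Nat.ble (S 7 183808) 10945 = true ∧
    Nat.ble (S 7 183936) 11057 = true ∧
    Nat.ble (S 7 184064) 11056 = true ∧
    Nat.ble (S 7 184192) 10862 = true ∧
    Nat.ble (S 7 184320) 11081 = true ∧
    Nat.ble (S 7 184448) 11038 = true ∧
    Nat.ble (S 7 184576) 11119 = true ∧
    Nat.ble (S 7 184704) 10848 = true ∧
    Nat.ble (S 7 184832) 11055 = true ∧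
    Nat.ble (S 7 184960) 10876 = true ∧
    Nat.ble (S 7 185088) 10971 = true ∧
    Nat.ble (S 7 185216) 10885 = true ∧
    Nat.ble (S 7 185344) 10970 = true ∧
    Nat.ble (S 7 185472) 10997 = true ∧
    Nat.ble (S 7 185600) 11001 = true ∧
    Nat.ble (S 7 185728) 10672 = true ∧
    Nat.ble (S 7 185856) 10948 = true ∧
    Nat.ble (S 7 185984) 11208 = true ∧
    Nat.ble (S 7 186112) 11106 = true ∧
    Nat.ble (S 7 186240) 11119 = true ∧
    Nat.ble (S 7 186368) 11182 = true ∧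
    Nat.ble (S 7 186496) 11085 = true ∧
    Nat.ble (S 7 186624) 11075 = true ∧
    Nat.ble (S 7 186752) 11047 = true ∧
    Nat.ble (S 7 186880) 11152 = true ∧
    Nat.ble (S 7 187008) 11300 = true ∧
    Nat.ble (S 7 187136) 10983 = true ∧
    Nat.ble (S 7 187264) 11414 = true ∧
    Nat.ble (S 7 187392) 10981 = true ∧
    Nat.ble (S 7 187520) 11173 = true ∧
    Nat.ble (S 7 187648) 11015 = true ∧
    Nat.ble (S 7 187776) 11109 = true ∧
    Nat.ble (S 7 187904) 11295 = true ∧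
    Nat.ble (S 7 188032) 10956 = true ∧
    Nat.ble (S 7 188160) 11146 = true ∧
    Nat.ble (S 7 188288) 11053 = true := by
  refine ⟨?_, ?_, ?_, ?_, ?_, ?_, ?_, ?_, ?_, ?_, ?_, ?_, ?_, ?_, ?_, ?_, ?_, ?_, ?_, ?_, ?_, ?_, ?_, ?_, ?_, ?_, ?_, ?_, ?_, ?_, ?_, ?_, ?_, ?_, ?_, ?_, ?_, ?_, ?_, ?_, ?_, ?_, ?_, ?_, ?_, ?_, ?_, ?_, ?_, ?_, ?_, ?_, ?_, ?_, ?_, ?_, ?_, ?_, ?_, ?_, ?_, ?_, ?_, ?_⟩ <;>
    decide +kernel

theorem S_eq (e k : Nat) : S e k =
    osum (block (cut bw18 376831) (cut bl18 532925) (cut bw18 753675) (cut bl18 1065865) (cut bw18 1507371))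
    (pc (mask 1 (Nat.mul 16 11776)) (mask 2 (Nat.mul 8 11776)) (mask 4 (Nat.mul 4 11776))
      (mask 8 (Nat.mul 2 11776)) (mask 16 11776)) e k := rfl

attribute [irreducible] S

end Pool.Agent.AddSq.KD16
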