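import Pool.Agent.AddSq.TabBig

/-!
# Kernel data, blocks `188416 ≤ k < 196608`
-/

namespace Pool.Agent.AddSq.KD17

open KF

set_option linter.all false

noncomputable def S (e k : Nat) : Nat :=
  osum (block (cut bw18 393215) (cut bl18 556095) (cut bw18 786443) (cut bl18 1112207) (cut bw18 1572907))
    (pc (mask 1 (Nat.mul 16 12288)) (mask 2 (Nat.mul 8 12288)) (mask 4 (Nat.mul 4 12288))
      (mask 8 (Nat.mul 2 12288)) (mask 16 12288)) e k

theorem grp1 :
    Nat.ble (S 7 188416) 10930 = true ∧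
    Nat.ble (S 7 188544) 11325 = true ∧
    Nat.ble (S 7 188672) 11100 = true ∧
    Nat.ble (S 7 188800) 11138 = true ∧
    Nat.ble (S 7 188928) 11204 = true ∧
    Nat.ble (S 7 189056) 11098 = true ∧
    Nat.ble (S 7 189184) 11105 = true ∧
    Nat.ble (S 7 189312) 11170 = true ∧
    Nat.ble (S 7 189440) 11116 = true ∧
    Nat.ble (S 7 189568) 11130 = true ∧
    Nat.ble (S 7 189696) 11048 = true ∧
    Nat.ble (S 7 189824) 11294 = true ∧
    Nat.ble (S 7 189952) 11221 = true ∧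
    Nat.ble (S 7 190080) 11013 = true ∧
    Nat.ble (S 7 190208) 11268 = true ∧
    Nat.ble (S 7 190336) 11307 = true ∧
    Nat.ble (S 7 190464) 11236 = true ∧
    Nat.ble (S 7 190592) 11108 = true ∧
    Nat.ble (S 7 190720) 11120 = true ∧
    Nat.ble (S 7 190848) 11259 = true ∧
    Nat.ble (S 7 190976) 11039 = true ∧
    Nat.ble (S 7 191104) 10927 = true ∧
    Nat.ble (S 7 191232) 11072 = true ∧
    Nat.ble (S 7 191360) 11169 = true ∧
    Nat.ble (S 7 191488) 11108 = true ∧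
    Nat.ble (S 7 191616) 11278 = true ∧
    Nat.ble (S 7 191744) 11200 = true ∧
    Nat.ble (S 7 191872) 11179 = true ∧
    Nat.ble (S 7 192000) 11425 = true ∧
    Nat.ble (S 7 192128) 11220 = true ∧
    Nat.ble (S 7 192256) 11055 = true ∧
    Nat.ble (S 7 192384) 11250 = true ∧
    Nat.ble (S 7 192512) 11437 = true ∧
    Nat.ble (S 7 192640) 11333 = true ∧
    Nat.ble (S 7 192768) 11006 = true ∧
    Nat.ble (S 7 192896) 11244 = true ∧
    Nat.ble (S 7 193024) 11246 = true ∧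
    Nat.ble (S 7 193152) 11056 = true ∧
    Nat.ble (S 7 193280) 11257 = true ∧
    Nat.ble (S 7 193408) 11359 = true ∧
    Nat.ble (S 7 193536) 11296 = true ∧
    Nat.ble (S 7 193664) 11338 = true ∧
    Nat.ble (S 7 193792) 11485 = true ∧
    Nat.ble (S 7 193920) 11298 = true ∧
    Nat.ble (S 7 194048) 11328 = true ∧
    Nat.ble (S 7 194176) 11406 = true ∧
    Nat.ble (S 7 194304) 11052 = true ∧
    Nat.ble (S 7 194432) 11320 = true ∧
    Nat.ble (S 7 194560) 11413 = true ∧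
    Nat.ble (S 7 194688) 11217 = true ∧
    Nat.ble (S 7 194816) 11162 = true ∧
    Nat.ble (S 7 194944) 11509 = true ∧
    Nat.ble (S 7 195072) 11335 = true ∧
    Nat.ble (S 7 195200) 11123 = true ∧
    Nat.ble (S 7 195328) 11227 = true ∧
    Nat.ble (S 7 195456) 11251 = true ∧
    Nat.ble (S 7 195584) 11303 = true ∧
    Nat.ble (S 7 195712) 11246 = true ∧
    Nat.ble (S 7 195840) 11265 = true ∧
    Nat.ble (S 7 195968) 11431 = true ∧
    Nat.ble (S 7 196096) 11249 = true ∧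
    Nat.ble (S 7 196224) 11590 = true ∧
    Nat.ble (S 7 196352) 11261 = true ∧
    Nat.ble (S 7 196480) 11367 = true := by
  refine ⟨?_, ?_, ?_, ?_, ?_, ?_, ?_, ?_, ?_, ?_, ?_, ?_, ?_, ?_, ?_, ?_, ?_, ?_, ?_, ?_, ?_, ?_, ?_, ?_, ?_, ?_, ?_, ?_, ?_, ?_, ?_, ?_, ?_, ?_, ?_, ?_, ?_, ?_, ?_, ?_, ?_, ?_, ?_, ?_, ?_, ?_, ?_, ?_, ?_, ?_, ?_, ?_, ?_, ?_, ?_, ?_, ?_, ?_, ?_, ?_, ?_, ?_, ?_, ?_⟩ <;>
    decide +kernel

theorem S_eq (e k : Nat) : S e k =
    osum (block (cut bw18 393215) (cut bl18 556095) (cut bw18 786443) (cut bl18 1112207) (cut bw18 1572907))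
    (pc (mask 1 (Nat.mul 16 12288)) (mask 2 (Nat.mul 8 12288)) (mask 4 (Nat.mul 4 12288))
      (mask 8 (Nat.mul 2 12288)) (mask 16 12288)) e k := rfl

attribute [irreducible] S

end Pool.Agent.AddSq.KD17
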