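import Pool.Agent.AddSq.TabBig

/-!
# Kernel data, blocks `196608 ≤ k < 204800`
-/

namespace Pool.Agent.AddSq.KD18

open KF

set_option linter.all false

noncomputable def S (e k : Nat) : Nat :=
  osum (block (cut bw18 409599) (cut bl18 579265) (cut bw18 819211) (cut bl18 1158547) (cut bw18 1638443))
    (pc (mask 1 (Nat.mul 16 12800)) (mask 2 (Nat.mul 8 12800)) (mask 4 (Nat.mul 4 12800))
      (mask 8 (Nat.mul 2 12800)) (mask 16 12800)) e k

theorem grp1 :
    Nat.ble (S 7 196608) 11392 = true ∧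
    Nat.ble (S 7 196736) 11554 = true ∧
    Nat.ble (S 7 196864) 11403 = true ∧
    Nat.ble (S 7 196992) 11363 = true ∧
    Nat.ble (S 7 197120) 11202 = true ∧
    Nat.ble (S 7 197248) 11265 = true ∧
    Nat.ble (S 7 197376) 11345 = true ∧
    Nat.ble (S 7 197504) 11413 = true ∧
    Nat.ble (S 7 197632) 11451 = true ∧
    Nat.ble (S 7 197760) 11382 = true ∧
    Nat.ble (S 7 197888) 11403 = true ∧
    Nat.ble (S 7 198016) 11305 = true ∧
    Nat.ble (S 7 198144) 11254 = true ∧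
    Nat.ble (S 7 198272) 11431 = true ∧
    Nat.ble (S 7 198400) 11453 = true ∧
    Nat.ble (S 7 198528) 11308 = true ∧
    Nat.ble (S 7 198656) 11485 = true ∧
    Nat.ble (S 7 198784) 11474 = true ∧
    Nat.ble (S 7 198912) 11426 = true ∧
    Nat.ble (S 7 199040) 11630 = true ∧
    Nat.ble (S 7 199168) 11307 = true ∧
    Nat.ble (S 7 199296) 11234 = true ∧
    Nat.ble (S 7 199424) 11715 = true ∧
    Nat.ble (S 7 199552) 11474 = true ∧
    Nat.ble (S 7 199680) 11489 = true ∧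
    Nat.ble (S 7 199808) 11411 = true ∧
    Nat.ble (S 7 199936) 11321 = true ∧
    Nat.ble (S 7 200064) 11562 = true ∧
    Nat.ble (S 7 200192) 11472 = true ∧
    Nat.ble (S 7 200320) 11478 = true ∧
    Nat.ble (S 7 200448) 11541 = true ∧
    Nat.ble (S 7 200576) 11581 = true ∧
    Nat.ble (S 7 200704) 11480 = true ∧
    Nat.ble (S 7 200832) 11539 = true ∧
    Nat.ble (S 7 200960) 11360 = true ∧
    Nat.ble (S 7 201088) 11551 = true ∧
    Nat.ble (S 7 201216) 11607 = true ∧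
    Nat.ble (S 7 201344) 11449 = true ∧
    Nat.ble (S 7 201472) 11436 = true ∧
    Nat.ble (S 7 201600) 11498 = true ∧
    Nat.ble (S 7 201728) 11708 = true ∧
    Nat.ble (S 7 201856) 11557 = true ∧
    Nat.ble (S 7 201984) 11559 = true ∧
    Nat.ble (S 7 202112) 11541 = true ∧
    Nat.ble (S 7 202240) 11558 = true ∧
    Nat.ble (S 7 202368) 11715 = true ∧
    Nat.ble (S 7 202496) 11593 = true ∧
    Nat.ble (S 7 202624) 11736 = true ∧
    Nat.ble (S 7 202752) 11533 = true ∧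
    Nat.ble (S 7 202880) 11733 = true ∧
    Nat.ble (S 7 203008) 11567 = true ∧
    Nat.ble (S 7 203136) 11643 = true ∧
    Nat.ble (S 7 203264) 11713 = true ∧
    Nat.ble (S 7 203392) 11539 = true ∧
    Nat.ble (S 7 203520) 11584 = true ∧
    Nat.ble (S 7 203648) 11594 = true ∧
    Nat.ble (S 7 203776) 11487 = true ∧
    Nat.ble (S 7 203904) 11654 = true ∧
    Nat.ble (S 7 204032) 11505 = true ∧
    Nat.ble (S 7 204160) 11656 = true ∧
    Nat.ble (S 7 204288) 11783 = true ∧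
    Nat.ble (S 7 204416) 11652 = true ∧
    Nat.ble (S 7 204544) 11585 = true ∧
    Nat.ble (S 7 204672) 11486 = true := by
  refine ⟨?_, ?_, ?_, ?_, ?_, ?_, ?_, ?_, ?_, ?_, ?_, ?_, ?_, ?_, ?_, ?_, ?_, ?_, ?_, ?_, ?_, ?_, ?_, ?_, ?_, ?_, ?_, ?_, ?_, ?_, ?_, ?_, ?_, ?_, ?_, ?_, ?_, ?_, ?_, ?_, ?_, ?_, ?_, ?_, ?_, ?_, ?_, ?_, ?_, ?_, ?_, ?_, ?_, ?_, ?_, ?_, ?_, ?_, ?_, ?_, ?_, ?_, ?_, ?_⟩ <;>
    decide +kernel

theorem S_eq (e k : Nat) : S e k =
    osum (block (cut bw18 409599) (cut bl18 579265) (cut bw18 819211) (cut bl18 1158547) (cut bw18 1638443))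
    (pc (mask 1 (Nat.mul 16 12800)) (mask 2 (Nat.mul 8 12800)) (mask 4 (Nat.mul 4 12800))
      (mask 8 (Nat.mul 2 12800)) (mask 16 12800)) e k := rfl

attribute [irreducible] S

end Pool.Agent.AddSq.KD18
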