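import Pool.Agent.AddSq.TabBig

/-!
# Kernel data, blocks `204800 ≤ k < 212992`
-/

namespace Pool.Agent.AddSq.KD19

open KF

set_option linter.all false

noncomputable def S (e k : Nat) : Nat :=
  osum (block (cut bw18 425983) (cut bl18 602437) (cut bw18 851981) (cut bl18 1204891) (cut bw18 1703983))
    (pc (mask 1 (Nat.mul 16 13312)) (mask 2 (Nat.mul 8 13312)) (mask 4 (Nat.mul 4 13312))
      (mask 8 (Nat.mul 2 13312)) (mask 16 13312)) e k

theorem grp1 :
    Nat.ble (S 7 204800) 11700 = true ∧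
    Nat.ble (S 7 204928) 11635 = true ∧
    Nat.ble (S 7 205056) 11471 = true ∧
    Nat.ble (S 7 205184) 11718 = true ∧
    Nat.ble (S 7 205312) 11558 = true ∧
    Nat.ble (S 7 205440) 11730 = true ∧
    Nat.ble (S 7 205568) 11492 = true ∧
    Nat.ble (S 7 205696) 11544 = true ∧
    Nat.ble (S 7 205824) 11855 = true ∧
    Nat.ble (S 7 205952) 11700 = true ∧
    Nat.ble (S 7 206080) 11570 = true ∧
    Nat.ble (S 7 206208) 11696 = true ∧
    Nat.ble (S 7 206336) 11609 = true ∧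
    Nat.ble (S 7 206464) 11649 = true ∧
    Nat.ble (S 7 206592) 11878 = true ∧
    Nat.ble (S 7 206720) 11563 = true ∧
    Nat.ble (S 7 206848) 11773 = true ∧
    Nat.ble (S 7 206976) 11687 = true ∧
    Nat.ble (S 7 207104) 11636 = true ∧
    Nat.ble (S 7 207232) 11889 = true ∧
    Nat.ble (S 7 207360) 11539 = true ∧
    Nat.ble (S 7 207488) 11824 = true ∧
    Nat.ble (S 7 207616) 11710 = true ∧
    Nat.ble (S 7 207744) 11597 = true ∧
    Nat.ble (S 7 207872) 11956 = true ∧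
    Nat.ble (S 7 208000) 11768 = true ∧
    Nat.ble (S 7 208128) 11859 = true ∧
    Nat.ble (S 7 208256) 11664 = true ∧
    Nat.ble (S 7 208384) 11777 = true ∧
    Nat.ble (S 7 208512) 11637 = true ∧
    Nat.ble (S 7 208640) 11708 = true ∧
    Nat.ble (S 7 208768) 11503 = true ∧
    Nat.ble (S 7 208896) 11808 = true ∧
    Nat.ble (S 7 209024) 11743 = true ∧
    Nat.ble (S 7 209152) 11778 = true ∧
    Nat.ble (S 7 209280) 11711 = true ∧
    Nat.ble (S 7 209408) 11677 = true ∧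
    Nat.ble (S 7 209536) 11853 = true ∧
    Nat.ble (S 7 209664) 11666 = true ∧
    Nat.ble (S 7 209792) 11681 = true ∧
    Nat.ble (S 7 209920) 11706 = true ∧
    Nat.ble (S 7 210048) 11817 = true ∧
    Nat.ble (S 7 210176) 11551 = true ∧
    Nat.ble (S 7 210304) 11516 = true ∧
    Nat.ble (S 7 210432) 11700 = true ∧
    Nat.ble (S 7 210560) 11612 = true ∧
    Nat.ble (S 7 210688) 12111 = true ∧
    Nat.ble (S 7 210816) 11664 = true ∧
    Nat.ble (S 7 210944) 11851 = true ∧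
    Nat.ble (S 7 211072) 11520 = true ∧
    Nat.ble (S 7 211200) 11600 = true ∧
    Nat.ble (S 7 211328) 11789 = true ∧
    Nat.ble (S 7 211456) 11790 = true ∧
    Nat.ble (S 7 211584) 11724 = true ∧
    Nat.ble (S 7 211712) 12026 = true ∧
    Nat.ble (S 7 211840) 11720 = true ∧
    Nat.ble (S 7 211968) 11631 = true ∧
    Nat.ble (S 7 212096) 11829 = true ∧
    Nat.ble (S 7 212224) 11791 = true ∧
    Nat.ble (S 7 212352) 11752 = true ∧
    Nat.ble (S 7 212480) 11878 = true ∧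
    Nat.ble (S 7 212608) 11620 = true ∧
    Nat.ble (S 7 212736) 11873 = true ∧
    Nat.ble (S 7 212864) 11702 = true := by
  refine ⟨?_, ?_, ?_, ?_, ?_, ?_, ?_, ?_, ?_, ?_, ?_, ?_, ?_, ?_, ?_, ?_, ?_, ?_, ?_, ?_, ?_, ?_, ?_, ?_, ?_, ?_, ?_, ?_, ?_, ?_, ?_, ?_, ?_, ?_, ?_, ?_, ?_, ?_, ?_, ?_, ?_, ?_, ?_, ?_, ?_, ?_, ?_, ?_, ?_, ?_, ?_, ?_, ?_, ?_, ?_, ?_, ?_, ?_, ?_, ?_, ?_, ?_, ?_, ?_⟩ <;>
    decide +kernel

theorem S_eq (e k : Nat) : S e k =
    osum (block (cut bw18 425983) (cut bl18 602437) (cut bw18 851981) (cut bl18 1204891) (cut bw18 1703983))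
    (pc (mask 1 (Nat.mul 16 13312)) (mask 2 (Nat.mul 8 13312)) (mask 4 (Nat.mul 4 13312))
      (mask 8 (Nat.mul 2 13312)) (mask 16 13312)) e k := rfl

attribute [irreducible] S

end Pool.Agent.AddSq.KD19
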