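import Pool.Agent.AddSq.TabBig

/-!
# Kernel data, blocks `212992 ≤ k < 221184`
-/

namespace Pool.Agent.AddSq.KD20

open KF

set_option linter.all false

noncomputable def S (e k : Nat) : Nat :=
  osum (block (cut bw18 442367) (cut bl18 625607) (cut bw18 884749) (cut bl18 1251233) (cut bw18 1769521))
    (pc (mask 1 (Nat.mul 16 13824)) (mask 2 (Nat.mul 8 13824)) (mask 4 (Nat.mul 4 13824))
      (mask 8 (Nat.mul 2 13824)) (mask 16 13824)) e k

theorem grp1 :
    Nat.ble (S 7 212992) 11884 = true ∧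
    Nat.ble (S 7 213120) 11746 = true ∧
    Nat.ble (S 7 213248) 11877 = true ∧
    Nat.ble (S 7 213376) 11744 = true ∧
    Nat.ble (S 7 213504) 11761 = true ∧
    Nat.ble (S 7 213632) 11704 = true ∧
    Nat.ble (S 7 213760) 11815 = true ∧
    Nat.ble (S 7 213888) 11719 = true ∧
    Nat.ble (S 7 214016) 11740 = true ∧
    Nat.ble (S 7 214144) 11674 = true ∧
    Nat.ble (S 7 214272) 11676 = true ∧
    Nat.ble (S 7 214400) 11884 = true ∧
    Nat.ble (S 7 214528) 11639 = true ∧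
    Nat.ble (S 7 214656) 11665 = true ∧
    Nat.ble (S 7 214784) 11709 = true ∧
    Nat.ble (S 7 214912) 11809 = true ∧
    Nat.ble (S 7 215040) 11602 = true ∧
    Nat.ble (S 7 215168) 11853 = true ∧
    Nat.ble (S 7 215296) 11688 = true ∧
    Nat.ble (S 7 215424) 11919 = true ∧
    Nat.ble (S 7 215552) 11964 = true ∧
    Nat.ble (S 7 215680) 11785 = true ∧
    Nat.ble (S 7 215808) 11663 = true ∧
    Nat.ble (S 7 215936) 11536 = true ∧
    Nat.ble (S 7 216064) 11795 = true ∧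
    Nat.ble (S 7 216192) 11991 = true ∧
    Nat.ble (S 7 216320) 11712 = true ∧
    Nat.ble (S 7 216448) 11840 = true ∧
    Nat.ble (S 7 216576) 11813 = true ∧
    Nat.ble (S 7 216704) 11796 = true ∧
    Nat.ble (S 7 216832) 11657 = true ∧
    Nat.ble (S 7 216960) 11687 = true ∧
    Nat.ble (S 7 217088) 11933 = true ∧
    Nat.ble (S 7 217216) 11809 = true ∧
    Nat.ble (S 7 217344) 11854 = true ∧
    Nat.ble (S 7 217472) 11790 = true ∧
    Nat.ble (S 7 217600) 11995 = true ∧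
    Nat.ble (S 7 217728) 11790 = true ∧
    Nat.ble (S 7 217856) 11898 = true ∧
    Nat.ble (S 7 217984) 11953 = true ∧
    Nat.ble (S 7 218112) 11908 = true ∧
    Nat.ble (S 7 218240) 11987 = true ∧
    Nat.ble (S 7 218368) 11809 = true ∧
    Nat.ble (S 7 218496) 11884 = true ∧
    Nat.ble (S 7 218624) 11902 = true ∧
    Nat.ble (S 7 218752) 11901 = true ∧
    Nat.ble (S 7 218880) 12046 = true ∧
    Nat.ble (S 7 219008) 11860 = true ∧
    Nat.ble (S 7 219136) 11901 = true ∧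
    Nat.ble (S 7 219264) 11872 = true ∧
    Nat.ble (S 7 219392) 12033 = true ∧
    Nat.ble (S 7 219520) 11763 = true ∧
    Nat.ble (S 7 219648) 12100 = true ∧
    Nat.ble (S 7 219776) 12031 = true ∧
    Nat.ble (S 7 219904) 11814 = true ∧
    Nat.ble (S 7 220032) 12029 = true ∧
    Nat.ble (S 7 220160) 11923 = true ∧
    Nat.ble (S 7 220288) 12010 = true ∧
    Nat.ble (S 7 220416) 11964 = true ∧
    Nat.ble (S 7 220544) 12094 = true ∧
    Nat.ble (S 7 220672) 12114 = true ∧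
    Nat.ble (S 7 220800) 11987 = true ∧
    Nat.ble (S 7 220928) 11956 = true ∧
    Nat.ble (S 7 221056) 11959 = true := by
  refine ⟨?_, ?_, ?_, ?_, ?_, ?_, ?_, ?_, ?_, ?_, ?_, ?_, ?_, ?_, ?_, ?_, ?_, ?_, ?_, ?_, ?_, ?_, ?_, ?_, ?_, ?_, ?_, ?_, ?_, ?_, ?_, ?_, ?_, ?_, ?_, ?_, ?_, ?_, ?_, ?_, ?_, ?_, ?_, ?_, ?_, ?_, ?_, ?_, ?_, ?_, ?_, ?_, ?_, ?_, ?_, ?_, ?_, ?_, ?_, ?_, ?_, ?_, ?_, ?_⟩ <;>
    decide +kernel

theorem S_eq (e k : Nat) : S e k =
    osum (block (cut bw18 442367) (cut bl18 625607) (cut bw18 884749) (cut bl18 1251233) (cut bw18 1769521))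
    (pc (mask 1 (Nat.mul 16 13824)) (mask 2 (Nat.mul 8 13824)) (mask 4 (Nat.mul 4 13824))
      (mask 8 (Nat.mul 2 13824)) (mask 16 13824)) e k := rfl

attribute [irreducible] S

end Pool.Agent.AddSq.KD20
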