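import Pool.Agent.AddSq.TabBig

/-!
# Kernel data, blocks `221184 ≤ k < 229376`
-/

namespace Pool.Agent.AddSq.KD21

open KF

set_option linter.all false

noncomputable def S (e k : Nat) : Nat :=
  osum (block (cut bw18 458751) (cut bl18 648777) (cut bw18 917515) (cut bl18 1297571) (cut bw18 1835053))
    (pc (mask 1 (Nat.mul 16 14336)) (mask 2 (Nat.mul 8 14336)) (mask 4 (Nat.mul 4 14336))
      (mask 8 (Nat.mul 2 14336)) (mask 16 14336)) e k

theorem grp1 :
    Nat.ble (S 7 221184) 12070 = true ∧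
    Nat.ble (S 7 221312) 11867 = true ∧
    Nat.ble (S 7 221440) 12017 = true ∧
    Nat.ble (S 7 221568) 12037 = true ∧
    Nat.ble (S 7 221696) 12120 = true ∧
    Nat.ble (S 7 221824) 11995 = true ∧
    Nat.ble (S 7 221952) 12046 = true ∧
    Nat.ble (S 7 222080) 12031 = true ∧
    Nat.ble (S 7 222208) 11975 = true ∧
    Nat.ble (S 7 222336) 12078 = true ∧
    Nat.ble (S 7 222464) 12117 = true ∧
    Nat.ble (S 7 222592) 12016 = true ∧
    Nat.ble (S 7 222720) 12385 = true ∧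
    Nat.ble (S 7 222848) 11779 = true ∧
    Nat.ble (S 7 222976) 11984 = true ∧
    Nat.ble (S 7 223104) 12337 = true ∧
    Nat.ble (S 7 223232) 11988 = true ∧
    Nat.ble (S 7 223360) 12150 = true ∧
    Nat.ble (S 7 223488) 11951 = true ∧
    Nat.ble (S 7 223616) 12143 = true ∧
    Nat.ble (S 7 223744) 12116 = true ∧
    Nat.ble (S 7 223872) 11986 = true ∧
    Nat.ble (S 7 224000) 11772 = true ∧
    Nat.ble (S 7 224128) 12109 = true ∧
    Nat.ble (S 7 224256) 11960 = true ∧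
    Nat.ble (S 7 224384) 12126 = true ∧
    Nat.ble (S 7 224512) 12017 = true ∧
    Nat.ble (S 7 224640) 12165 = true ∧
    Nat.ble (S 7 224768) 12261 = true ∧
    Nat.ble (S 7 224896) 11815 = true ∧
    Nat.ble (S 7 225024) 12326 = true ∧
    Nat.ble (S 7 225152) 12093 = true ∧
    Nat.ble (S 7 225280) 11905 = true ∧
    Nat.ble (S 7 225408) 12145 = true ∧
    Nat.ble (S 7 225536) 11939 = true ∧
    Nat.ble (S 7 225664) 12163 = true ∧
    Nat.ble (S 7 225792) 12117 = true ∧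
    Nat.ble (S 7 225920) 12152 = true ∧
    Nat.ble (S 7 226048) 12269 = true ∧
    Nat.ble (S 7 226176) 12108 = true ∧
    Nat.ble (S 7 226304) 12203 = true ∧
    Nat.ble (S 7 226432) 12117 = true ∧
    Nat.ble (S 7 226560) 12185 = true ∧
    Nat.ble (S 7 226688) 12226 = true ∧
    Nat.ble (S 7 226816) 12178 = true ∧
    Nat.ble (S 7 226944) 11987 = true ∧
    Nat.ble (S 7 227072) 12142 = true ∧
    Nat.ble (S 7 227200) 12211 = true ∧
    Nat.ble (S 7 227328) 12263 = true ∧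
    Nat.ble (S 7 227456) 12182 = true ∧
    Nat.ble (S 7 227584) 12096 = true ∧
    Nat.ble (S 7 227712) 12203 = true ∧
    Nat.ble (S 7 227840) 11875 = true ∧
    Nat.ble (S 7 227968) 12159 = true ∧
    Nat.ble (S 7 228096) 12090 = true ∧
    Nat.ble (S 7 228224) 12127 = true ∧
    Nat.ble (S 7 228352) 12206 = true ∧
    Nat.ble (S 7 228480) 12165 = true ∧
    Nat.ble (S 7 228608) 12387 = true ∧
    Nat.ble (S 7 228736) 12086 = true ∧
    Nat.ble (S 7 228864) 12222 = true ∧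
    Nat.ble (S 7 228992) 12093 = true ∧
    Nat.ble (S 7 229120) 12345 = true ∧
    Nat.ble (S 7 229248) 12314 = true := by
  refine ⟨?_, ?_, ?_, ?_, ?_, ?_, ?_, ?_, ?_, ?_, ?_, ?_, ?_, ?_, ?_, ?_, ?_, ?_, ?_, ?_, ?_, ?_, ?_, ?_, ?_, ?_, ?_, ?_, ?_, ?_, ?_, ?_, ?_, ?_, ?_, ?_, ?_, ?_, ?_, ?_, ?_, ?_, ?_, ?_, ?_, ?_, ?_, ?_, ?_, ?_, ?_, ?_, ?_, ?_, ?_, ?_, ?_, ?_, ?_, ?_, ?_, ?_, ?_, ?_⟩ <;>
    decide +kernel

theorem S_eq (e k : Nat) : S e k =
    osum (block (cut bw18 458751) (cut bl18 648777) (cut bw18 917515) (cut bl18 1297571) (cut bw18 1835053))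
    (pc (mask 1 (Nat.mul 16 14336)) (mask 2 (Nat.mul 8 14336)) (mask 4 (Nat.mul 4 14336))
      (mask 8 (Nat.mul 2 14336)) (mask 16 14336)) e k := rfl

attribute [irreducible] S

end Pool.Agent.AddSq.KD21
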