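import Pool.Agent.AddSq.TabBig

/-!
# Kernel data, blocks `229376 ≤ k < 237568`
-/

namespace Pool.Agent.AddSq.KD22

open KF

set_option linter.all false

noncomputable def S (e k : Nat) : Nat :=
  osum (block (cut bw18 475135) (cut bl18 671949) (cut bw18 950287) (cut bl18 1343917) (cut bw18 1900597))
    (pc (mask 1 (Nat.mul 16 14848)) (mask 2 (Nat.mul 8 14848)) (mask 4 (Nat.mul 4 14848))
      (mask 8 (Nat.mul 2 14848)) (mask 16 14848)) e k

theorem grp1 :
    Nat.ble (S 7 229376) 11940 = true ∧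
    Nat.ble (S 7 229504) 11999 = true ∧
    Nat.ble (S 7 229632) 12293 = true ∧
    Nat.ble (S 7 229760) 12267 = true ∧
    Nat.ble (S 7 229888) 12108 = true ∧
    Nat.ble (S 7 230016) 12068 = true ∧
    Nat.ble (S 7 230144) 11960 = true ∧
    Nat.ble (S 7 230272) 12156 = true ∧
    Nat.ble (S 7 230400) 12270 = true ∧
    Nat.ble (S 7 230528) 12430 = true ∧
    Nat.ble (S 7 230656) 12120 = true ∧
    Nat.ble (S 7 230784) 12044 = true ∧
    Nat.ble (S 7 230912) 12317 = true ∧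
    Nat.ble (S 7 231040) 12221 = true ∧
    Nat.ble (S 7 231168) 12254 = true ∧
    Nat.ble (S 7 231296) 12170 = true ∧
    Nat.ble (S 7 231424) 12222 = true ∧
    Nat.ble (S 7 231552) 12194 = true ∧
    Nat.ble (S 7 231680) 12167 = true ∧
    Nat.ble (S 7 231808) 12248 = true ∧
    Nat.ble (S 7 231936) 12293 = true ∧
    Nat.ble (S 7 232064) 12367 = true ∧
    Nat.ble (S 7 232192) 12157 = true ∧
    Nat.ble (S 7 232320) 12464 = true ∧
    Nat.ble (S 7 232448) 12162 = true ∧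
    Nat.ble (S 7 232576) 12091 = true ∧
    Nat.ble (S 7 232704) 12267 = true ∧
    Nat.ble (S 7 232832) 12349 = true ∧
    Nat.ble (S 7 232960) 12585 = true ∧
    Nat.ble (S 7 233088) 12303 = true ∧
    Nat.ble (S 7 233216) 12325 = true ∧
    Nat.ble (S 7 233344) 12344 = true ∧
    Nat.ble (S 7 233472) 12303 = true ∧
    Nat.ble (S 7 233600) 12502 = true ∧
    Nat.ble (S 7 233728) 12183 = true ∧
    Nat.ble (S 7 233856) 12322 = true ∧
    Nat.ble (S 7 233984) 12364 = true ∧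
    Nat.ble (S 7 234112) 12270 = true ∧
    Nat.ble (S 7 234240) 12355 = true ∧
    Nat.ble (S 7 234368) 12333 = true ∧
    Nat.ble (S 7 234496) 12460 = true ∧
    Nat.ble (S 7 234624) 12126 = true ∧
    Nat.ble (S 7 234752) 12437 = true ∧
    Nat.ble (S 7 234880) 12379 = true ∧
    Nat.ble (S 7 235008) 12430 = true ∧
    Nat.ble (S 7 235136) 12249 = true ∧
    Nat.ble (S 7 235264) 12244 = true ∧
    Nat.ble (S 7 235392) 12535 = true ∧
    Nat.ble (S 7 235520) 12580 = true ∧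
    Nat.ble (S 7 235648) 12365 = true ∧
    Nat.ble (S 7 235776) 12445 = true ∧
    Nat.ble (S 7 235904) 12429 = true ∧
    Nat.ble (S 7 236032) 12158 = true ∧
    Nat.ble (S 7 236160) 12462 = true ∧
    Nat.ble (S 7 236288) 12317 = true ∧
    Nat.ble (S 7 236416) 12330 = true ∧
    Nat.ble (S 7 236544) 12270 = true ∧
    Nat.ble (S 7 236672) 12092 = true ∧
    Nat.ble (S 7 236800) 12255 = true ∧
    Nat.ble (S 7 236928) 12601 = true ∧
    Nat.ble (S 7 237056) 12378 = true ∧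
    Nat.ble (S 7 237184) 12498 = true ∧
    Nat.ble (S 7 237312) 12168 = true ∧
    Nat.ble (S 7 237440) 12265 = true := by
  refine ⟨?_, ?_, ?_, ?_, ?_, ?_, ?_, ?_, ?_, ?_, ?_, ?_, ?_, ?_, ?_, ?_, ?_, ?_, ?_, ?_, ?_, ?_, ?_, ?_, ?_, ?_, ?_, ?_, ?_, ?_, ?_, ?_, ?_, ?_, ?_, ?_, ?_, ?_, ?_, ?_, ?_, ?_, ?_, ?_, ?_, ?_, ?_, ?_, ?_, ?_, ?_, ?_, ?_, ?_, ?_, ?_, ?_, ?_, ?_, ?_, ?_, ?_, ?_, ?_⟩ <;>
    decide +kernel

theorem S_eq (e k : Nat) : S e k =
    osum (block (cut bw18 475135) (cut bl18 671949) (cut bw18 950287) (cut bl18 1343917) (cut bw18 1900597))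
    (pc (mask 1 (Nat.mul 16 14848)) (mask 2 (Nat.mul 8 14848)) (mask 4 (Nat.mul 4 14848))
      (mask 8 (Nat.mul 2 14848)) (mask 16 14848)) e k := rfl

attribute [irreducible] S

end Pool.Agent.AddSq.KD22
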