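import Pool.Agent.AddSq.TabBig

/-!
# Kernel data, blocks `237568 ≤ k < 245760`
-/

namespace Pool.Agent.AddSq.KD23

open KF

set_option linter.all false

noncomputable def S (e k : Nat) : Nat :=
  osum (block (cut bw18 491519) (cut bl18 695119) (cut bw18 983053) (cut bl18 1390255) (cut bw18 1966129))
    (pc (mask 1 (Nat.mul 16 15360)) (mask 2 (Nat.mul 8 15360)) (mask 4 (Nat.mul 4 15360))
      (mask 8 (Nat.mul 2 15360)) (mask 16 15360)) e k

theorem grp1 :
    Nat.ble (S 7 237568) 12446 = true ∧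
    Nat.ble (S 7 237696) 12491 = true ∧
    Nat.ble (S 7 237824) 12454 = true ∧
    Nat.ble (S 7 237952) 12215 = true ∧
    Nat.ble (S 7 238080) 12611 = true ∧
    Nat.ble (S 7 238208) 12392 = true ∧
    Nat.ble (S 7 238336) 12507 = true ∧
    Nat.ble (S 7 238464) 12406 = true ∧
    Nat.ble (S 7 238592) 12368 = true ∧
    Nat.ble (S 7 238720) 12515 = true ∧
    Nat.ble (S 7 238848) 12547 = true ∧
    Nat.ble (S 7 238976) 12254 = true ∧
    Nat.ble (S 7 239104) 12600 = true ∧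
    Nat.ble (S 7 239232) 12309 = true ∧
    Nat.ble (S 7 239360) 12317 = true ∧
    Nat.ble (S 7 239488) 12556 = true ∧
    Nat.ble (S 7 239616) 12317 = true ∧
    Nat.ble (S 7 239744) 12539 = true ∧
    Nat.ble (S 7 239872) 12672 = true ∧
    Nat.ble (S 7 240000) 12565 = true ∧
    Nat.ble (S 7 240128) 12507 = true ∧
    Nat.ble (S 7 240256) 12261 = true ∧
    Nat.ble (S 7 240384) 12471 = true ∧
    Nat.ble (S 7 240512) 12501 = true ∧
    Nat.ble (S 7 240640) 12479 = true ∧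
    Nat.ble (S 7 240768) 12429 = true ∧
    Nat.ble (S 7 240896) 12506 = true ∧
    Nat.ble (S 7 241024) 12504 = true ∧
    Nat.ble (S 7 241152) 12455 = true ∧
    Nat.ble (S 7 241280) 12323 = true ∧
    Nat.ble (S 7 241408) 12734 = true ∧
    Nat.ble (S 7 241536) 12355 = true ∧
    Nat.ble (S 7 241664) 12402 = true ∧
    Nat.ble (S 7 241792) 12394 = true ∧
    Nat.ble (S 7 241920) 12512 = true ∧
    Nat.ble (S 7 242048) 12392 = true ∧
    Nat.ble (S 7 242176) 12462 = true ∧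
    Nat.ble (S 7 242304) 12892 = true ∧
    Nat.ble (S 7 242432) 12546 = true ∧
    Nat.ble (S 7 242560) 12633 = true ∧
    Nat.ble (S 7 242688) 12688 = true ∧
    Nat.ble (S 7 242816) 12649 = true ∧
    Nat.ble (S 7 242944) 12365 = true ∧
    Nat.ble (S 7 243072) 12544 = true ∧
    Nat.ble (S 7 243200) 12438 = true ∧
    Nat.ble (S 7 243328) 12663 = true ∧
    Nat.ble (S 7 243456) 12485 = true ∧
    Nat.ble (S 7 243584) 12462 = true ∧
    Nat.ble (S 7 243712) 12559 = true ∧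
    Nat.ble (S 7 243840) 12375 = true ∧
    Nat.ble (S 7 243968) 12577 = true ∧
    Nat.ble (S 7 244096) 12706 = true ∧
    Nat.ble (S 7 244224) 12702 = true ∧
    Nat.ble (S 7 244352) 12818 = true ∧
    Nat.ble (S 7 244480) 12459 = true ∧
    Nat.ble (S 7 244608) 12403 = true ∧
    Nat.ble (S 7 244736) 12541 = true ∧
    Nat.ble (S 7 244864) 12749 = true ∧
    Nat.ble (S 7 244992) 12797 = true ∧
    Nat.ble (S 7 245120) 12716 = true ∧
    Nat.ble (S 7 245248) 12483 = true ∧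
    Nat.ble (S 7 245376) 12581 = true ∧
    Nat.ble (S 7 245504) 12326 = true ∧
    Nat.ble (S 7 245632) 12550 = true := by
  refine ⟨?_, ?_, ?_, ?_, ?_, ?_, ?_, ?_, ?_, ?_, ?_, ?_, ?_, ?_, ?_, ?_, ?_, ?_, ?_, ?_, ?_, ?_, ?_, ?_, ?_, ?_, ?_, ?_, ?_, ?_, ?_, ?_, ?_, ?_, ?_, ?_, ?_, ?_, ?_, ?_, ?_, ?_, ?_, ?_, ?_, ?_, ?_, ?_, ?_, ?_, ?_, ?_, ?_, ?_, ?_, ?_, ?_, ?_, ?_, ?_, ?_, ?_, ?_, ?_⟩ <;>
    decide +kernel

theorem S_eq (e k : Nat) : S e k =
    osum (block (cut bw18 491519) (cut bl18 695119) (cut bw18 983053) (cut bl18 1390255) (cut bw18 1966129))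
    (pc (mask 1 (Nat.mul 16 15360)) (mask 2 (Nat.mul 8 15360)) (mask 4 (Nat.mul 4 15360))
      (mask 8 (Nat.mul 2 15360)) (mask 16 15360)) e k := rfl

attribute [irreducible] S

end Pool.Agent.AddSq.KD23
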