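import Pool.Agent.AddSq.TabBig

/-!
# Kernel data, blocks `245760 ≤ k < 253952`
-/

namespace Pool.Agent.AddSq.KD24

open KF

set_option linter.all false

noncomputable def S (e k : Nat) : Nat :=
  osum (block (cut bw18 507903) (cut bl18 718289) (cut bw18 1015821) (cut bl18 1436597) (cut bw18 2031667))
    (pc (mask 1 (Nat.mul 16 15872)) (mask 2 (Nat.mul 8 15872)) (mask 4 (Nat.mul 4 15872))
      (mask 8 (Nat.mul 2 15872)) (mask 16 15872)) e k

theorem grp1 :
    Nat.ble (S 7 245760) 12451 = true ∧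
    Nat.ble (S 7 245888) 12544 = true ∧
    Nat.ble (S 7 246016) 12653 = true ∧
    Nat.ble (S 7 246144) 12673 = true ∧
    Nat.ble (S 7 246272) 12531 = true ∧
    Nat.ble (S 7 246400) 12534 = true ∧
    Nat.ble (S 7 246528) 12592 = true ∧
    Nat.ble (S 7 246656) 12911 = true ∧
    Nat.ble (S 7 246784) 12616 = true ∧
    Nat.ble (S 7 246912) 12529 = true ∧
    Nat.ble (S 7 247040) 12476 = true ∧
    Nat.ble (S 7 247168) 12719 = true ∧
    Nat.ble (S 7 247296) 12725 = true ∧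
    Nat.ble (S 7 247424) 12495 = true ∧
    Nat.ble (S 7 247552) 12831 = true ∧
    Nat.ble (S 7 247680) 12526 = true ∧
    Nat.ble (S 7 247808) 12728 = true ∧
    Nat.ble (S 7 247936) 12572 = true ∧
    Nat.ble (S 7 248064) 12639 = true ∧
    Nat.ble (S 7 248192) 12661 = true ∧
    Nat.ble (S 7 248320) 12687 = true ∧
    Nat.ble (S 7 248448) 12740 = true ∧
    Nat.ble (S 7 248576) 12501 = true ∧
    Nat.ble (S 7 248704) 12397 = true ∧
    Nat.ble (S 7 248832) 12607 = true ∧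
    Nat.ble (S 7 248960) 12362 = true ∧
    Nat.ble (S 7 249088) 12673 = true ∧
    Nat.ble (S 7 249216) 12713 = true ∧
    Nat.ble (S 7 249344) 12652 = true ∧
    Nat.ble (S 7 249472) 12756 = true ∧
    Nat.ble (S 7 249600) 12651 = true ∧
    Nat.ble (S 7 249728) 12616 = true ∧
    Nat.ble (S 7 249856) 12808 = true ∧
    Nat.ble (S 7 249984) 12535 = true ∧
    Nat.ble (S 7 250112) 12856 = true ∧
    Nat.ble (S 7 250240) 12614 = true ∧
    Nat.ble (S 7 250368) 12691 = true ∧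
    Nat.ble (S 7 250496) 12744 = true ∧
    Nat.ble (S 7 250624) 12729 = true ∧
    Nat.ble (S 7 250752) 12560 = true ∧
    Nat.ble (S 7 250880) 12861 = true ∧
    Nat.ble (S 7 251008) 12767 = true ∧
    Nat.ble (S 7 251136) 12600 = true ∧
    Nat.ble (S 7 251264) 12790 = true ∧
    Nat.ble (S 7 251392) 12771 = true ∧
    Nat.ble (S 7 251520) 12684 = true ∧
    Nat.ble (S 7 251648) 12906 = true ∧
    Nat.ble (S 7 251776) 12885 = true ∧
    Nat.ble (S 7 251904) 12794 = true ∧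
    Nat.ble (S 7 252032) 12698 = true ∧
    Nat.ble (S 7 252160) 12926 = true ∧
    Nat.ble (S 7 252288) 12553 = true ∧
    Nat.ble (S 7 252416) 13072 = true ∧
    Nat.ble (S 7 252544) 12713 = true ∧
    Nat.ble (S 7 252672) 12675 = true ∧
    Nat.ble (S 7 252800) 12826 = true ∧
    Nat.ble (S 7 252928) 12746 = true ∧
    Nat.ble (S 7 253056) 12970 = true ∧
    Nat.ble (S 7 253184) 12891 = true ∧
    Nat.ble (S 7 253312) 12739 = true ∧
    Nat.ble (S 7 253440) 12756 = true ∧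
    Nat.ble (S 7 253568) 12606 = true ∧
    Nat.ble (S 7 253696) 12897 = true ∧
    Nat.ble (S 7 253824) 12855 = true := by
  refine ⟨?_, ?_, ?_, ?_, ?_, ?_, ?_, ?_, ?_, ?_, ?_, ?_, ?_, ?_, ?_, ?_, ?_, ?_, ?_, ?_, ?_, ?_, ?_, ?_, ?_, ?_, ?_, ?_, ?_, ?_, ?_, ?_, ?_, ?_, ?_, ?_, ?_, ?_, ?_, ?_, ?_, ?_, ?_, ?_, ?_, ?_, ?_, ?_, ?_, ?_, ?_, ?_, ?_, ?_, ?_, ?_, ?_, ?_, ?_, ?_, ?_, ?_, ?_, ?_⟩ <;>
    decide +kernel

theorem S_eq (e k : Nat) : S e k =
    osum (block (cut bw18 507903) (cut bl18 718289) (cut bw18 1015821) (cut bl18 1436597) (cut bw18 2031667))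
    (pc (mask 1 (Nat.mul 16 15872)) (mask 2 (Nat.mul 8 15872)) (mask 4 (Nat.mul 4 15872))
      (mask 8 (Nat.mul 2 15872)) (mask 16 15872)) e k := rfl

attribute [irreducible] S

end Pool.Agent.AddSq.KD24
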