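import Pool.Agent.AddSq.TabBig

/-!
# Kernel data, blocks `253952 ≤ k < 262144`
-/

namespace Pool.Agent.AddSq.KD25

open KF

set_option linter.all false

noncomputable def S (e k : Nat) : Nat :=
  osum (block (cut bw18 524287) (cut bl18 741459) (cut bw18 1048589) (cut bl18 1482939) (cut bw18 2097205))
    (pc (mask 1 (Nat.mul 16 16384)) (mask 2 (Nat.mul 8 16384)) (mask 4 (Nat.mul 4 16384))
      (mask 8 (Nat.mul 2 16384)) (mask 16 16384)) e k

theorem grp1 :
    Nat.ble (S 7 253952) 12818 = true ∧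
    Nat.ble (S 7 254080) 12625 = true ∧
    Nat.ble (S 7 254208) 12839 = true ∧
    Nat.ble (S 7 254336) 13027 = true ∧
    Nat.ble (S 7 254464) 12801 = true ∧
    Nat.ble (S 7 254592) 12824 = true ∧
    Nat.ble (S 7 254720) 12711 = true ∧
    Nat.ble (S 7 254848) 12960 = true ∧
    Nat.ble (S 7 254976) 12933 = true ∧
    Nat.ble (S 7 255104) 12857 = true ∧
    Nat.ble (S 7 255232) 12769 = true ∧
    Nat.ble (S 7 255360) 12788 = true ∧
    Nat.ble (S 7 255488) 12910 = true ∧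
    Nat.ble (S 7 255616) 12886 = true ∧
    Nat.ble (S 7 255744) 13118 = true ∧
    Nat.ble (S 7 255872) 12839 = true ∧
    Nat.ble (S 7 256000) 12795 = true ∧
    Nat.ble (S 7 256128) 12949 = true ∧
    Nat.ble (S 7 256256) 12990 = true ∧
    Nat.ble (S 7 256384) 12744 = true ∧
    Nat.ble (S 7 256512) 12748 = true ∧
    Nat.ble (S 7 256640) 12810 = true ∧
    Nat.ble (S 7 256768) 12939 = true ∧
    Nat.ble (S 7 256896) 12878 = true ∧
    Nat.ble (S 7 257024) 13007 = true ∧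
    Nat.ble (S 7 257152) 12790 = true ∧
    Nat.ble (S 7 257280) 12939 = true ∧
    Nat.ble (S 7 257408) 13042 = true ∧
    Nat.ble (S 7 257536) 12703 = true ∧
    Nat.ble (S 7 257664) 12787 = true ∧
    Nat.ble (S 7 257792) 12994 = true ∧
    Nat.ble (S 7 257920) 13023 = true ∧
    Nat.ble (S 7 258048) 12885 = true ∧
    Nat.ble (S 7 258176) 12926 = true ∧
    Nat.ble (S 7 258304) 12821 = true ∧
    Nat.ble (S 7 258432) 12883 = true ∧
    Nat.ble (S 7 258560) 12986 = true ∧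
    Nat.ble (S 7 258688) 12937 = true ∧
    Nat.ble (S 7 258816) 12911 = true ∧
    Nat.ble (S 7 258944) 12699 = true ∧
    Nat.ble (S 7 259072) 13012 = true ∧
    Nat.ble (S 7 259200) 12817 = true ∧
    Nat.ble (S 7 259328) 13096 = true ∧
    Nat.ble (S 7 259456) 12913 = true ∧
    Nat.ble (S 7 259584) 13188 = true ∧
    Nat.ble (S 7 259712) 13034 = true ∧
    Nat.ble (S 7 259840) 12794 = true ∧
    Nat.ble (S 7 259968) 13067 = true ∧
    Nat.ble (S 7 260096) 12912 = true ∧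
    Nat.ble (S 7 260224) 12917 = true ∧
    Nat.ble (S 7 260352) 12953 = true ∧
    Nat.ble (S 7 260480) 12858 = true ∧
    Nat.ble (S 7 260608) 13114 = true ∧
    Nat.ble (S 7 260736) 12899 = true ∧
    Nat.ble (S 7 260864) 13149 = true ∧
    Nat.ble (S 7 260992) 13033 = true ∧
    Nat.ble (S 7 261120) 13087 = true ∧
    Nat.ble (S 7 261248) 13093 = true ∧
    Nat.ble (S 7 261376) 13043 = true ∧
    Nat.ble (S 7 261504) 13030 = true ∧
    Nat.ble (S 7 261632) 13107 = true ∧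
    Nat.ble (S 7 261760) 12725 = true ∧
    Nat.ble (S 7 261888) 13139 = true ∧
    Nat.ble (S 7 262016) 12977 = true := by
  refine ⟨?_, ?_, ?_, ?_, ?_, ?_, ?_, ?_, ?_, ?_, ?_, ?_, ?_, ?_, ?_, ?_, ?_, ?_, ?_, ?_, ?_, ?_, ?_, ?_, ?_, ?_, ?_, ?_, ?_, ?_, ?_, ?_, ?_, ?_, ?_, ?_, ?_, ?_, ?_, ?_, ?_, ?_, ?_, ?_, ?_, ?_, ?_, ?_, ?_, ?_, ?_, ?_, ?_, ?_, ?_, ?_, ?_, ?_, ?_, ?_, ?_, ?_, ?_, ?_⟩ <;>
    decide +kernel

theorem S_eq (e k : Nat) : S e k =
    osum (block (cut bw18 524287) (cut bl18 741459) (cut bw18 1048589) (cut bl18 1482939) (cut bw18 2097205))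
    (pc (mask 1 (Nat.mul 16 16384)) (mask 2 (Nat.mul 8 16384)) (mask 4 (Nat.mul 4 16384))
      (mask 8 (Nat.mul 2 16384)) (mask 16 16384)) e k := rfl

attribute [irreducible] S

end Pool.Agent.AddSq.KD25
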