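import Pool.Agent.AddSq.KBase
import Pool.Agent.AddSq.KList
import Pool.Agent.AddSq.KD06
import Pool.Agent.AddSq.KD07
import Pool.Agent.AddSq.KD08
import Pool.Agent.AddSq.KD09

/-!
# Kernel data: cumulative counts, part 2
-/

namespace Pool.Agent.AddSq.KD06

set_option linter.all false

theorem kfit : kfits 81919 163839 231707 327687 463425 655387 1064960 753664 65536 5120 = true := by decide +kernel

theorem spec {W L : ℕ → Prop} (hG : GRules W L) : KSpec L S 65536 81919 :=
  KSpec.mk' hG KF.cw17 KF.cl17 kfit S_eq

theorem data {W L : ℕ → Prop} (hG : GRules W L) :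
    ∀ p ∈ KL06, Cum L 65536 2198467 p.1 p.2 := by
  have s := spec hG
  have c0 := Cum.start L 65536 2198467
  obtain ⟨h1, h2, h3, h4, h5, h6, h7, h8, h9, h10, h11, h12, h13, h14, h15, h16, h17, h18, h19, h20, h21, h22, h23, h24, h25, h26, h27, h28, h29, h30, h31, h32, h33, h34, h35, h36, h37, h38, h39, h40, h41, h42, h43, h44, h45, h46, h47, h48, h49, h50, h51, h52, h53, h54, h55, h56, h57, h58, h59, h60, h61, h62, h63, h64⟩ := grp1
  have c1 : Cum L 65536 2198467 65664 2204880 := s.step c0 h1 rfl
  have c2 : Cum L 65536 2198467 65792 2211347 := s.step c1 h2 rfl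
  have c3 : Cum L 65536 2198467 65920 2217746 := s.step c2 h3 rfl
  have c4 : Cum L 65536 2198467 66048 2224287 := s.step c3 h4 rfl
  have c5 : Cum L 65536 2198467 66176 2230754 := s.step c4 h5 rfl
  have c6 : Cum L 65536 2198467 66304 2237160 := s.step c5 h6 rfl
  have c7 : Cum L 65536 2198467 66432 2243641 := s.step c6 h7 rfl
  have c8 : Cum L 65536 2198467 66560 2250124 := s.step c7 h8 rfl
  have c9 : Cum L 65536 2198467 66688 2256686 := s.step c8 h9 rfl
  have c10 : Cum L 65536 2198467 66816 2263232 := s.step c9 h10 rfl
  have c11 : Cum L 65536 2198467 66944 2269787 := s.step c10 h11 rfl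
  have c12 : Cum L 65536 2198467 67072 2276391 := s.step c11 h12 rfl
  have c13 : Cum L 65536 2198467 67200 2282894 := s.step c12 h13 rfl
  have c14 : Cum L 65536 2198467 67328 2289485 := s.step c13 h14 rfl
  have c15 : Cum L 65536 2198467 67456 2296029 := s.step c14 h15 rfl
  have c16 : Cum L 65536 2198467 67584 2302633 := s.step c15 h16 rfl
  have c17 : Cum L 65536 2198467 67712 2309137 := s.step c16 h17 rfl
  have c18 : Cum L 65536 2198467 67840 2315783 := s.step c17 h18 rfl
  have c19 : Cum L 65536 2198467 67968 2322485 := s.step c18 h19 rfl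
  have c20 : Cum L 65536 2198467 68096 2329001 := s.step c19 h20 rfl
  have c21 : Cum L 65536 2198467 68224 2335708 := s.step c20 h21 rfl
  have c22 : Cum L 65536 2198467 68352 2342337 := s.step c21 h22 rfl
  have c23 : Cum L 65536 2198467 68480 2349034 := s.step c22 h23 rfl
  have c24 : Cum L 65536 2198467 68608 2355609 := s.step c23 h24 rfl
  have c25 : Cum L 65536 2198467 68736 2362201 := s.step c24 h25 rfl
  have c26 : Cum L 65536 2198467 68864 2368767 := s.step c25 h26 rfl
  have c27 : Cum L 65536 2198467 68992 2375482 := s.step c26 h27 rfl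
  have c28 : Cum L 65536 2198467 69120 2382150 := s.step c27 h28 rfl
  have c29 : Cum L 65536 2198467 69248 2388625 := s.step c28 h29 rfl
  have c30 : Cum L 65536 2198467 69376 2395576 := s.step c29 h30 rfl
  have c31 : Cum L 65536 2198467 69504 2402111 := s.step c30 h31 rfl
  have c32 : Cum L 65536 2198467 69632 2408821 := s.step c31 h32 rfl
  have c33 : Cum L 65536 2198467 69760 2415487 := s.step c32 h33 rfl
  have c34 : Cum L 65536 2198467 69888 2422291 := s.step c33 h34 rfl
  have c35 : Cum L 65536 2198467 70016 2428985 := s.step c34 h35 rfl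
  have c36 : Cum L 65536 2198467 70144 2435690 := s.step c35 h36 rfl
  have c37 : Cum L 65536 2198467 70272 2442231 := s.step c36 h37 rfl
  have c38 : Cum L 65536 2198467 70400 2448907 := s.step c37 h38 rfl
  have c39 : Cum L 65536 2198467 70528 2455662 := s.step c38 h39 rfl
  have c40 : Cum L 65536 2198467 70656 2462469 := s.step c39 h40 rfl
  have c41 : Cum L 65536 2198467 70784 2468997 := s.step c40 h41 rfl
  have c42 : Cum L 65536 2198467 70912 2475719 := s.step c41 h42 rfl
  have c43 : Cum L 65536 2198467 71040 2482510 := s.step c42 h43 rfl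
  have c44 : Cum L 65536 2198467 71168 2489230 := s.step c43 h44 rfl
  have c45 : Cum L 65536 2198467 71296 2496092 := s.step c44 h45 rfl
  have c46 : Cum L 65536 2198467 71424 2502821 := s.step c45 h46 rfl
  have c47 : Cum L 65536 2198467 71552 2509675 := s.step c46 h47 rfl
  have c48 : Cum L 65536 2198467 71680 2516410 := s.step c47 h48 rfl
  have c49 : Cum L 65536 2198467 71808 2523170 := s.step c48 h49 rfl
  have c50 : Cum L 65536 2198467 71936 2529953 := s.step c49 h50 rfl
  have c51 : Cum L 65536 2198467 72064 2536813 := s.step c50 h51 rfl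
  have c52 : Cum L 65536 2198467 72192 2543562 := s.step c51 h52 rfl
  have c53 : Cum L 65536 2198467 72320 2550475 := s.step c52 h53 rfl
  have c54 : Cum L 65536 2198467 72448 2557212 := s.step c53 h54 rfl
  have c55 : Cum L 65536 2198467 72576 2564137 := s.step c54 h55 rfl
  have c56 : Cum L 65536 2198467 72704 2570952 := s.step c55 h56 rfl
  have c57 : Cum L 65536 2198467 72832 2577784 := s.step c56 h57 rfl
  have c58 : Cum L 65536 2198467 72960 2584705 := s.step c57 h58 rfl
  have c59 : Cum L 65536 2198467 73088 2591385 := s.step c58 h59 rfl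
  have c60 : Cum L 65536 2198467 73216 2598116 := s.step c59 h60 rfl
  have c61 : Cum L 65536 2198467 73344 2604836 := s.step c60 h61 rfl
  have c62 : Cum L 65536 2198467 73472 2611715 := s.step c61 h62 rfl
  have c63 : Cum L 65536 2198467 73600 2618510 := s.step c62 h63 rfl
  have c64 : Cum L 65536 2198467 73728 2625488 := s.step c63 h64 rfl
  obtain ⟨h65, h66, h67, h68, h69, h70, h71, h72, h73, h74, h75, h76, h77, h78, h79, h80, h81, h82, h83, h84, h85, h86, h87, h88, h89, h90, h91, h92, h93, h94, h95, h96, h97, h98, h99, h100, h101, h102, h103, h104, h105, h106, h107, h108, h109, h110, h111, h112, h113, h114, h115, h116, h117, h118, h119, h120, h121, h122, h123, h124, h125, h126, h127, h128⟩ := grp2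
  have c65 : Cum L 65536 2198467 73856 2632418 := s.step c64 h65 rfl
  have c66 : Cum L 65536 2198467 73984 2639282 := s.step c65 h66 rfl
  have c67 : Cum L 65536 2198467 74112 2646156 := s.step c66 h67 rfl
  have c68 : Cum L 65536 2198467 74240 2653096 := s.step c67 h68 rfl
  have c69 : Cum L 65536 2198467 74368 2660048 := s.step c68 h69 rfl
  have c70 : Cum L 65536 2198467 74496 2666976 := s.step c69 h70 rfl
  have c71 : Cum L 65536 2198467 74624 2673905 := s.step c70 h71 rfl
  have c72 : Cum L 65536 2198467 74752 2680721 := s.step c71 h72 rfl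
  have c73 : Cum L 65536 2198467 74880 2687523 := s.step c72 h73 rfl
  have c74 : Cum L 65536 2198467 75008 2694634 := s.step c73 h74 rfl
  have c75 : Cum L 65536 2198467 75136 2701643 := s.step c74 h75 rfl
  have c76 : Cum L 65536 2198467 75264 2708614 := s.step c75 h76 rfl
  have c77 : Cum L 65536 2198467 75392 2715472 := s.step c76 h77 rfl
  have c78 : Cum L 65536 2198467 75520 2722468 := s.step c77 h78 rfl
  have c79 : Cum L 65536 2198467 75648 2729336 := s.step c78 h79 rfl
  have c80 : Cum L 65536 2198467 75776 2736231 := s.step c79 h80 rfl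
  have c81 : Cum L 65536 2198467 75904 2743151 := s.step c80 h81 rfl
  have c82 : Cum L 65536 2198467 76032 2749969 := s.step c81 h82 rfl
  have c83 : Cum L 65536 2198467 76160 2756980 := s.step c82 h83 rfl
  have c84 : Cum L 65536 2198467 76288 2763853 := s.step c83 h84 rfl
  have c85 : Cum L 65536 2198467 76416 2770872 := s.step c84 h85 rfl
  have c86 : Cum L 65536 2198467 76544 2777840 := s.step c85 h86 rfl
  have c87 : Cum L 65536 2198467 76672 2784763 := s.step c86 h87 rfl
  have c88 : Cum L 65536 2198467 76800 2791645 := s.step c87 h88 rfl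
  have c89 : Cum L 65536 2198467 76928 2798742 := s.step c88 h89 rfl
  have c90 : Cum L 65536 2198467 77056 2805790 := s.step c89 h90 rfl
  have c91 : Cum L 65536 2198467 77184 2812697 := s.step c90 h91 rfl
  have c92 : Cum L 65536 2198467 77312 2819638 := s.step c91 h92 rfl
  have c93 : Cum L 65536 2198467 77440 2826754 := s.step c92 h93 rfl
  have c94 : Cum L 65536 2198467 77568 2833747 := s.step c93 h94 rfl
  have c95 : Cum L 65536 2198467 77696 2840799 := s.step c94 h95 rfl
  have c96 : Cum L 65536 2198467 77824 2847856 := s.step c95 h96 rfl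
  have c97 : Cum L 65536 2198467 77952 2854927 := s.step c96 h97 rfl
  have c98 : Cum L 65536 2198467 78080 2862000 := s.step c97 h98 rfl
  have c99 : Cum L 65536 2198467 78208 2869154 := s.step c98 h99 rfl
  have c100 : Cum L 65536 2198467 78336 2876192 := s.step c99 h100 rfl
  have c101 : Cum L 65536 2198467 78464 2883412 := s.step c100 h101 rfl
  have c102 : Cum L 65536 2198467 78592 2890548 := s.step c101 h102 rfl
  have c103 : Cum L 65536 2198467 78720 2897859 := s.step c102 h103 rfl
  have c104 : Cum L 65536 2198467 78848 2904891 := s.step c103 h104 rfl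
  have c105 : Cum L 65536 2198467 78976 2912062 := s.step c104 h105 rfl
  have c106 : Cum L 65536 2198467 79104 2919000 := s.step c105 h106 rfl
  have c107 : Cum L 65536 2198467 79232 2926124 := s.step c106 h107 rfl
  have c108 : Cum L 65536 2198467 79360 2933209 := s.step c107 h108 rfl
  have c109 : Cum L 65536 2198467 79488 2940352 := s.step c108 h109 rfl
  have c110 : Cum L 65536 2198467 79616 2947506 := s.step c109 h110 rfl
  have c111 : Cum L 65536 2198467 79744 2954671 := s.step c110 h111 rfl
  have c112 : Cum L 65536 2198467 79872 2961810 := s.step c111 h112 rfl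
  have c113 : Cum L 65536 2198467 80000 2968953 := s.step c112 h113 rfl
  have c114 : Cum L 65536 2198467 80128 2976030 := s.step c113 h114 rfl
  have c115 : Cum L 65536 2198467 80256 2983213 := s.step c114 h115 rfl
  have c116 : Cum L 65536 2198467 80384 2990473 := s.step c115 h116 rfl
  have c117 : Cum L 65536 2198467 80512 2997447 := s.step c116 h117 rfl
  have c118 : Cum L 65536 2198467 80640 3004597 := s.step c117 h118 rfl
  have c119 : Cum L 65536 2198467 80768 3011659 := s.step c118 h119 rfl
  have c120 : Cum L 65536 2198467 80896 3018896 := s.step c119 h120 rfl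
  have c121 : Cum L 65536 2198467 81024 3026017 := s.step c120 h121 rfl
  have c122 : Cum L 65536 2198467 81152 3033169 := s.step c121 h122 rfl
  have c123 : Cum L 65536 2198467 81280 3040475 := s.step c122 h123 rfl
  have c124 : Cum L 65536 2198467 81408 3047707 := s.step c123 h124 rfl
  have c125 : Cum L 65536 2198467 81536 3054818 := s.step c124 h125 rfl
  have c126 : Cum L 65536 2198467 81664 3061954 := s.step c125 h126 rfl
  have c127 : Cum L 65536 2198467 81792 3069034 := s.step c126 h127 rfl
  have c128 : Cum L 65536 2198467 81920 3076155 := s.step c127 h128 rfl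
  exact all_cons c5 (all_cons c10 (all_cons c15 (all_cons c20 (all_cons c25 (all_cons c30 (all_cons c35 (all_cons c40 (all_cons c45 (all_cons c50 (all_cons c55 (all_cons c60 (all_cons c65 (all_cons c70 (all_cons c75 (all_cons c80 (all_cons c85 (all_cons c90 (all_cons c96 (all_cons c102 (all_cons c108 (all_cons c114 (all_cons c120 (all_cons c126 (all_cons c128 all_nil))))))))))))))))))))))))

end Pool.Agent.AddSq.KD06

namespace Pool.Agent.AddSq.KD07

set_option linter.all false

theorem kfit : kfits 98303 196607 278049 393225 556109 786463 1064960 753664 81920 6144 = true := by decide +kernel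

theorem spec {W L : ℕ → Prop} (hG : GRules W L) : KSpec L S 81920 98303 :=
  KSpec.mk' hG KF.cw17 KF.cl17 kfit S_eq

theorem data {W L : ℕ → Prop} (hG : GRules W L) :
    ∀ p ∈ KL07, Cum L 81920 3076155 p.1 p.2 := by
  have s := spec hG
  have c0 := Cum.start L 81920 3076155
  obtain ⟨h1, h2, h3, h4, h5, h6, h7, h8, h9, h10, h11, h12, h13, h14, h15, h16, h17, h18, h19, h20, h21, h22, h23, h24, h25, h26, h27, h28, h29, h30, h31, h32, h33, h34, h35, h36, h37, h38, h39, h40, h41, h42, h43, h44, h45, h46, h47, h48, h49, h50, h51, h52, h53, h54, h55, h56, h57, h58, h59, h60, h61, h62, h63, h64⟩ := grp1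
  have c1 : Cum L 81920 3076155 82048 3083385 := s.step c0 h1 rfl
  have c2 : Cum L 81920 3076155 82176 3090535 := s.step c1 h2 rfl
  have c3 : Cum L 81920 3076155 82304 3097617 := s.step c2 h3 rfl
  have c4 : Cum L 81920 3076155 82432 3104800 := s.step c3 h4 rfl
  have c5 : Cum L 81920 3076155 82560 3112006 := s.step c4 h5 rfl
  have c6 : Cum L 81920 3076155 82688 3119204 := s.step c5 h6 rfl
  have c7 : Cum L 81920 3076155 82816 3126362 := s.step c6 h7 rfl
  have c8 : Cum L 81920 3076155 82944 3133701 := s.step c7 h8 rfl
  have c9 : Cum L 81920 3076155 83072 3140798 := s.step c8 h9 rfl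
  have c10 : Cum L 81920 3076155 83200 3147940 := s.step c9 h10 rfl
  have c11 : Cum L 81920 3076155 83328 3155353 := s.step c10 h11 rfl
  have c12 : Cum L 81920 3076155 83456 3162488 := s.step c11 h12 rfl
  have c13 : Cum L 81920 3076155 83584 3169735 := s.step c12 h13 rfl
  have c14 : Cum L 81920 3076155 83712 3177011 := s.step c13 h14 rfl
  have c15 : Cum L 81920 3076155 83840 3184170 := s.step c14 h15 rfl
  have c16 : Cum L 81920 3076155 83968 3191421 := s.step c15 h16 rfl
  have c17 : Cum L 81920 3076155 84096 3198767 := s.step c16 h17 rfl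
  have c18 : Cum L 81920 3076155 84224 3206074 := s.step c17 h18 rfl
  have c19 : Cum L 81920 3076155 84352 3213253 := s.step c18 h19 rfl
  have c20 : Cum L 81920 3076155 84480 3220442 := s.step c19 h20 rfl
  have c21 : Cum L 81920 3076155 84608 3227604 := s.step c20 h21 rfl
  have c22 : Cum L 81920 3076155 84736 3234750 := s.step c21 h22 rfl
  have c23 : Cum L 81920 3076155 84864 3242084 := s.step c22 h23 rfl
  have c24 : Cum L 81920 3076155 84992 3249363 := s.step c23 h24 rfl
  have c25 : Cum L 81920 3076155 85120 3256647 := s.step c24 h25 rfl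
  have c26 : Cum L 81920 3076155 85248 3263907 := s.step c25 h26 rfl
  have c27 : Cum L 81920 3076155 85376 3271092 := s.step c26 h27 rfl
  have c28 : Cum L 81920 3076155 85504 3278416 := s.step c27 h28 rfl
  have c29 : Cum L 81920 3076155 85632 3285582 := s.step c28 h29 rfl
  have c30 : Cum L 81920 3076155 85760 3292915 := s.step c29 h30 rfl
  have c31 : Cum L 81920 3076155 85888 3300289 := s.step c30 h31 rfl
  have c32 : Cum L 81920 3076155 86016 3307447 := s.step c31 h32 rfl
  have c33 : Cum L 81920 3076155 86144 3314888 := s.step c32 h33 rfl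
  have c34 : Cum L 81920 3076155 86272 3322159 := s.step c33 h34 rfl
  have c35 : Cum L 81920 3076155 86400 3329440 := s.step c34 h35 rfl
  have c36 : Cum L 81920 3076155 86528 3336821 := s.step c35 h36 rfl
  have c37 : Cum L 81920 3076155 86656 3344165 := s.step c36 h37 rfl
  have c38 : Cum L 81920 3076155 86784 3351525 := s.step c37 h38 rfl
  have c39 : Cum L 81920 3076155 86912 3358871 := s.step c38 h39 rfl
  have c40 : Cum L 81920 3076155 87040 3366254 := s.step c39 h40 rfl
  have c41 : Cum L 81920 3076155 87168 3373491 := s.step c40 h41 rfl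
  have c42 : Cum L 81920 3076155 87296 3380826 := s.step c41 h42 rfl
  have c43 : Cum L 81920 3076155 87424 3388153 := s.step c42 h43 rfl
  have c44 : Cum L 81920 3076155 87552 3395630 := s.step c43 h44 rfl
  have c45 : Cum L 81920 3076155 87680 3402996 := s.step c44 h45 rfl
  have c46 : Cum L 81920 3076155 87808 3410385 := s.step c45 h46 rfl
  have c47 : Cum L 81920 3076155 87936 3417822 := s.step c46 h47 rfl
  have c48 : Cum L 81920 3076155 88064 3425302 := s.step c47 h48 rfl
  have c49 : Cum L 81920 3076155 88192 3432601 := s.step c48 h49 rfl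
  have c50 : Cum L 81920 3076155 88320 3440037 := s.step c49 h50 rfl
  have c51 : Cum L 81920 3076155 88448 3447504 := s.step c50 h51 rfl
  have c52 : Cum L 81920 3076155 88576 3454969 := s.step c51 h52 rfl
  have c53 : Cum L 81920 3076155 88704 3462404 := s.step c52 h53 rfl
  have c54 : Cum L 81920 3076155 88832 3469801 := s.step c53 h54 rfl
  have c55 : Cum L 81920 3076155 88960 3477323 := s.step c54 h55 rfl
  have c56 : Cum L 81920 3076155 89088 3484562 := s.step c55 h56 rfl
  have c57 : Cum L 81920 3076155 89216 3491962 := s.step c56 h57 rfl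
  have c58 : Cum L 81920 3076155 89344 3499303 := s.step c57 h58 rfl
  have c59 : Cum L 81920 3076155 89472 3506934 := s.step c58 h59 rfl
  have c60 : Cum L 81920 3076155 89600 3514207 := s.step c59 h60 rfl
  have c61 : Cum L 81920 3076155 89728 3521619 := s.step c60 h61 rfl
  have c62 : Cum L 81920 3076155 89856 3528928 := s.step c61 h62 rfl
  have c63 : Cum L 81920 3076155 89984 3536304 := s.step c62 h63 rfl
  have c64 : Cum L 81920 3076155 90112 3543952 := s.step c63 h64 rfl
  obtain ⟨h65, h66, h67, h68, h69, h70, h71, h72, h73, h74, h75, h76, h77, h78, h79, h80, h81, h82, h83, h84, h85, h86, h87, h88, h89, h90, h91, h92, h93, h94, h95, h96, h97, h98, h99, h100, h101, h102, h103, h104, h105, h106, h107, h108, h109, h110, h111, h112, h113, h114, h115, h116, h117, h118, h119, h120, h121, h122, h123, h124, h125, h126, h127, h128⟩ := grp2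
  have c65 : Cum L 81920 3076155 90240 3551421 := s.step c64 h65 rfl
  have c66 : Cum L 81920 3076155 90368 3558932 := s.step c65 h66 rfl
  have c67 : Cum L 81920 3076155 90496 3566505 := s.step c66 h67 rfl
  have c68 : Cum L 81920 3076155 90624 3574022 := s.step c67 h68 rfl
  have c69 : Cum L 81920 3076155 90752 3581523 := s.step c68 h69 rfl
  have c70 : Cum L 81920 3076155 90880 3588991 := s.step c69 h70 rfl
  have c71 : Cum L 81920 3076155 91008 3596598 := s.step c70 h71 rfl
  have c72 : Cum L 81920 3076155 91136 3604134 := s.step c71 h72 rfl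
  have c73 : Cum L 81920 3076155 91264 3611739 := s.step c72 h73 rfl
  have c74 : Cum L 81920 3076155 91392 3619305 := s.step c73 h74 rfl
  have c75 : Cum L 81920 3076155 91520 3626848 := s.step c74 h75 rfl
  have c76 : Cum L 81920 3076155 91648 3634259 := s.step c75 h76 rfl
  have c77 : Cum L 81920 3076155 91776 3641905 := s.step c76 h77 rfl
  have c78 : Cum L 81920 3076155 91904 3649565 := s.step c77 h78 rfl
  have c79 : Cum L 81920 3076155 92032 3657114 := s.step c78 h79 rfl
  have c80 : Cum L 81920 3076155 92160 3664545 := s.step c79 h80 rfl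
  have c81 : Cum L 81920 3076155 92288 3672115 := s.step c80 h81 rfl
  have c82 : Cum L 81920 3076155 92416 3679618 := s.step c81 h82 rfl
  have c83 : Cum L 81920 3076155 92544 3687196 := s.step c82 h83 rfl
  have c84 : Cum L 81920 3076155 92672 3694699 := s.step c83 h84 rfl
  have c85 : Cum L 81920 3076155 92800 3702460 := s.step c84 h85 rfl
  have c86 : Cum L 81920 3076155 92928 3710029 := s.step c85 h86 rfl
  have c87 : Cum L 81920 3076155 93056 3717821 := s.step c86 h87 rfl
  have c88 : Cum L 81920 3076155 93184 3725476 := s.step c87 h88 rfl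
  have c89 : Cum L 81920 3076155 93312 3733088 := s.step c88 h89 rfl
  have c90 : Cum L 81920 3076155 93440 3740640 := s.step c89 h90 rfl
  have c91 : Cum L 81920 3076155 93568 3748279 := s.step c90 h91 rfl
  have c92 : Cum L 81920 3076155 93696 3756003 := s.step c91 h92 rfl
  have c93 : Cum L 81920 3076155 93824 3763554 := s.step c92 h93 rfl
  have c94 : Cum L 81920 3076155 93952 3771162 := s.step c93 h94 rfl
  have c95 : Cum L 81920 3076155 94080 3778534 := s.step c94 h95 rfl
  have c96 : Cum L 81920 3076155 94208 3786209 := s.step c95 h96 rfl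
  have c97 : Cum L 81920 3076155 94336 3793876 := s.step c96 h97 rfl
  have c98 : Cum L 81920 3076155 94464 3801433 := s.step c97 h98 rfl
  have c99 : Cum L 81920 3076155 94592 3809224 := s.step c98 h99 rfl
  have c100 : Cum L 81920 3076155 94720 3816855 := s.step c99 h100 rfl
  have c101 : Cum L 81920 3076155 94848 3824464 := s.step c100 h101 rfl
  have c102 : Cum L 81920 3076155 94976 3831930 := s.step c101 h102 rfl
  have c103 : Cum L 81920 3076155 95104 3839621 := s.step c102 h103 rfl
  have c104 : Cum L 81920 3076155 95232 3847277 := s.step c103 h104 rfl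
  have c105 : Cum L 81920 3076155 95360 3854957 := s.step c104 h105 rfl
  have c106 : Cum L 81920 3076155 95488 3862735 := s.step c105 h106 rfl
  have c107 : Cum L 81920 3076155 95616 3870362 := s.step c106 h107 rfl
  have c108 : Cum L 81920 3076155 95744 3878051 := s.step c107 h108 rfl
  have c109 : Cum L 81920 3076155 95872 3885653 := s.step c108 h109 rfl
  have c110 : Cum L 81920 3076155 96000 3893297 := s.step c109 h110 rfl
  have c111 : Cum L 81920 3076155 96128 3900899 := s.step c110 h111 rfl
  have c112 : Cum L 81920 3076155 96256 3908745 := s.step c111 h112 rfl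
  have c113 : Cum L 81920 3076155 96384 3916322 := s.step c112 h113 rfl
  have c114 : Cum L 81920 3076155 96512 3924019 := s.step c113 h114 rfl
  have c115 : Cum L 81920 3076155 96640 3931702 := s.step c114 h115 rfl
  have c116 : Cum L 81920 3076155 96768 3939490 := s.step c115 h116 rfl
  have c117 : Cum L 81920 3076155 96896 3947304 := s.step c116 h117 rfl
  have c118 : Cum L 81920 3076155 97024 3955124 := s.step c117 h118 rfl
  have c119 : Cum L 81920 3076155 97152 3962730 := s.step c118 h119 rfl
  have c120 : Cum L 81920 3076155 97280 3970446 := s.step c119 h120 rfl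
  have c121 : Cum L 81920 3076155 97408 3978168 := s.step c120 h121 rfl
  have c122 : Cum L 81920 3076155 97536 3986014 := s.step c121 h122 rfl
  have c123 : Cum L 81920 3076155 97664 3993887 := s.step c122 h123 rfl
  have c124 : Cum L 81920 3076155 97792 4001635 := s.step c123 h124 rfl
  have c125 : Cum L 81920 3076155 97920 4009385 := s.step c124 h125 rfl
  have c126 : Cum L 81920 3076155 98048 4017146 := s.step c125 h126 rfl
  have c127 : Cum L 81920 3076155 98176 4025025 := s.step c126 h127 rfl
  have c128 : Cum L 81920 3076155 98304 4032774 := s.step c127 h128 rfl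
  exact all_cons c6 (all_cons c12 (all_cons c18 (all_cons c24 (all_cons c30 (all_cons c36 (all_cons c42 (all_cons c48 (all_cons c54 (all_cons c60 (all_cons c67 (all_cons c74 (all_cons c81 (all_cons c88 (all_cons c95 (all_cons c102 (all_cons c109 (all_cons c116 (all_cons c123 (all_cons c128 all_nil)))))))))))))))))))

end Pool.Agent.AddSq.KD07

namespace Pool.Agent.AddSq.KD08

set_option linter.all false

theorem kfit : kfits 114687 229375 324389 458759 648789 917533 1064960 753664 98304 7168 = true := by decide +kernel

theorem spec {W L : ℕ → Prop} (hG : GRules W L) : KSpec L S 98304 114687 :=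
  KSpec.mk' hG KF.cw17 KF.cl17 kfit S_eq

theorem data {W L : ℕ → Prop} (hG : GRules W L) :
    ∀ p ∈ KL08, Cum L 98304 4032774 p.1 p.2 := by
  have s := spec hG
  have c0 := Cum.start L 98304 4032774
  obtain ⟨h1, h2, h3, h4, h5, h6, h7, h8, h9, h10, h11, h12, h13, h14, h15, h16, h17, h18, h19, h20, h21, h22, h23, h24, h25, h26, h27, h28, h29, h30, h31, h32, h33, h34, h35, h36, h37, h38, h39, h40, h41, h42, h43, h44, h45, h46, h47, h48, h49, h50, h51, h52, h53, h54, h55, h56, h57, h58, h59, h60, h61, h62, h63, h64⟩ := grp1
  have c1 : Cum L 98304 4032774 98432 4040523 := s.step c0 h1 rfl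
  have c2 : Cum L 98304 4032774 98560 4048260 := s.step c1 h2 rfl
  have c3 : Cum L 98304 4032774 98688 4055938 := s.step c2 h3 rfl
  have c4 : Cum L 98304 4032774 98816 4063918 := s.step c3 h4 rfl
  have c5 : Cum L 98304 4032774 98944 4071744 := s.step c4 h5 rfl
  have c6 : Cum L 98304 4032774 99072 4079471 := s.step c5 h6 rfl
  have c7 : Cum L 98304 4032774 99200 4087336 := s.step c6 h7 rfl
  have c8 : Cum L 98304 4032774 99328 4095245 := s.step c7 h8 rfl
  have c9 : Cum L 98304 4032774 99456 4102968 := s.step c8 h9 rfl
  have c10 : Cum L 98304 4032774 99584 4110826 := s.step c9 h10 rfl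
  have c11 : Cum L 98304 4032774 99712 4118672 := s.step c10 h11 rfl
  have c12 : Cum L 98304 4032774 99840 4126367 := s.step c11 h12 rfl
  have c13 : Cum L 98304 4032774 99968 4134183 := s.step c12 h13 rfl
  have c14 : Cum L 98304 4032774 100096 4142006 := s.step c13 h14 rfl
  have c15 : Cum L 98304 4032774 100224 4150044 := s.step c14 h15 rfl
  have c16 : Cum L 98304 4032774 100352 4157938 := s.step c15 h16 rfl
  have c17 : Cum L 98304 4032774 100480 4165794 := s.step c16 h17 rfl
  have c18 : Cum L 98304 4032774 100608 4173860 := s.step c17 h18 rfl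
  have c19 : Cum L 98304 4032774 100736 4181702 := s.step c18 h19 rfl
  have c20 : Cum L 98304 4032774 100864 4189524 := s.step c19 h20 rfl
  have c21 : Cum L 98304 4032774 100992 4197448 := s.step c20 h21 rfl
  have c22 : Cum L 98304 4032774 101120 4205286 := s.step c21 h22 rfl
  have c23 : Cum L 98304 4032774 101248 4213378 := s.step c22 h23 rfl
  have c24 : Cum L 98304 4032774 101376 4221339 := s.step c23 h24 rfl
  have c25 : Cum L 98304 4032774 101504 4229304 := s.step c24 h25 rfl
  have c26 : Cum L 98304 4032774 101632 4237291 := s.step c25 h26 rfl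
  have c27 : Cum L 98304 4032774 101760 4245220 := s.step c26 h27 rfl
  have c28 : Cum L 98304 4032774 101888 4253211 := s.step c27 h28 rfl
  have c29 : Cum L 98304 4032774 102016 4261155 := s.step c28 h29 rfl
  have c30 : Cum L 98304 4032774 102144 4269102 := s.step c29 h30 rfl
  have c31 : Cum L 98304 4032774 102272 4277198 := s.step c30 h31 rfl
  have c32 : Cum L 98304 4032774 102400 4285169 := s.step c31 h32 rfl
  have c33 : Cum L 98304 4032774 102528 4293273 := s.step c32 h33 rfl
  have c34 : Cum L 98304 4032774 102656 4301335 := s.step c33 h34 rfl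
  have c35 : Cum L 98304 4032774 102784 4309237 := s.step c34 h35 rfl
  have c36 : Cum L 98304 4032774 102912 4317332 := s.step c35 h36 rfl
  have c37 : Cum L 98304 4032774 103040 4325371 := s.step c36 h37 rfl
  have c38 : Cum L 98304 4032774 103168 4333271 := s.step c37 h38 rfl
  have c39 : Cum L 98304 4032774 103296 4341335 := s.step c38 h39 rfl
  have c40 : Cum L 98304 4032774 103424 4349353 := s.step c39 h40 rfl
  have c41 : Cum L 98304 4032774 103552 4357409 := s.step c40 h41 rfl
  have c42 : Cum L 98304 4032774 103680 4365369 := s.step c41 h42 rfl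
  have c43 : Cum L 98304 4032774 103808 4373522 := s.step c42 h43 rfl
  have c44 : Cum L 98304 4032774 103936 4381563 := s.step c43 h44 rfl
  have c45 : Cum L 98304 4032774 104064 4389611 := s.step c44 h45 rfl
  have c46 : Cum L 98304 4032774 104192 4397657 := s.step c45 h46 rfl
  have c47 : Cum L 98304 4032774 104320 4405713 := s.step c46 h47 rfl
  have c48 : Cum L 98304 4032774 104448 4413729 := s.step c47 h48 rfl
  have c49 : Cum L 98304 4032774 104576 4421773 := s.step c48 h49 rfl
  have c50 : Cum L 98304 4032774 104704 4430022 := s.step c49 h50 rfl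
  have c51 : Cum L 98304 4032774 104832 4438187 := s.step c50 h51 rfl
  have c52 : Cum L 98304 4032774 104960 4446052 := s.step c51 h52 rfl
  have c53 : Cum L 98304 4032774 105088 4454012 := s.step c52 h53 rfl
  have c54 : Cum L 98304 4032774 105216 4462125 := s.step c53 h54 rfl
  have c55 : Cum L 98304 4032774 105344 4470118 := s.step c54 h55 rfl
  have c56 : Cum L 98304 4032774 105472 4478161 := s.step c55 h56 rfl
  have c57 : Cum L 98304 4032774 105600 4486284 := s.step c56 h57 rfl
  have c58 : Cum L 98304 4032774 105728 4494367 := s.step c57 h58 rfl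
  have c59 : Cum L 98304 4032774 105856 4502460 := s.step c58 h59 rfl
  have c60 : Cum L 98304 4032774 105984 4510487 := s.step c59 h60 rfl
  have c61 : Cum L 98304 4032774 106112 4518708 := s.step c60 h61 rfl
  have c62 : Cum L 98304 4032774 106240 4526787 := s.step c61 h62 rfl
  have c63 : Cum L 98304 4032774 106368 4534981 := s.step c62 h63 rfl
  have c64 : Cum L 98304 4032774 106496 4543090 := s.step c63 h64 rfl
  obtain ⟨h65, h66, h67, h68, h69, h70, h71, h72, h73, h74, h75, h76, h77, h78, h79, h80, h81, h82, h83, h84, h85, h86, h87, h88, h89, h90, h91, h92, h93, h94, h95, h96, h97, h98, h99, h100, h101, h102, h103, h104, h105, h106, h107, h108, h109, h110, h111, h112, h113, h114, h115, h116, h117, h118, h119, h120, h121, h122, h123, h124, h125, h126, h127, h128⟩ := grp2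
  have c65 : Cum L 98304 4032774 106624 4551088 := s.step c64 h65 rfl
  have c66 : Cum L 98304 4032774 106752 4559479 := s.step c65 h66 rfl
  have c67 : Cum L 98304 4032774 106880 4567505 := s.step c66 h67 rfl
  have c68 : Cum L 98304 4032774 107008 4575656 := s.step c67 h68 rfl
  have c69 : Cum L 98304 4032774 107136 4583736 := s.step c68 h69 rfl
  have c70 : Cum L 98304 4032774 107264 4591881 := s.step c69 h70 rfl
  have c71 : Cum L 98304 4032774 107392 4600048 := s.step c70 h71 rfl
  have c72 : Cum L 98304 4032774 107520 4608248 := s.step c71 h72 rfl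
  have c73 : Cum L 98304 4032774 107648 4616385 := s.step c72 h73 rfl
  have c74 : Cum L 98304 4032774 107776 4624560 := s.step c73 h74 rfl
  have c75 : Cum L 98304 4032774 107904 4632676 := s.step c74 h75 rfl
  have c76 : Cum L 98304 4032774 108032 4640823 := s.step c75 h76 rfl
  have c77 : Cum L 98304 4032774 108160 4649138 := s.step c76 h77 rfl
  have c78 : Cum L 98304 4032774 108288 4657266 := s.step c77 h78 rfl
  have c79 : Cum L 98304 4032774 108416 4665627 := s.step c78 h79 rfl
  have c80 : Cum L 98304 4032774 108544 4673771 := s.step c79 h80 rfl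
  have c81 : Cum L 98304 4032774 108672 4682073 := s.step c80 h81 rfl
  have c82 : Cum L 98304 4032774 108800 4690300 := s.step c81 h82 rfl
  have c83 : Cum L 98304 4032774 108928 4698422 := s.step c82 h83 rfl
  have c84 : Cum L 98304 4032774 109056 4706749 := s.step c83 h84 rfl
  have c85 : Cum L 98304 4032774 109184 4715122 := s.step c84 h85 rfl
  have c86 : Cum L 98304 4032774 109312 4723420 := s.step c85 h86 rfl
  have c87 : Cum L 98304 4032774 109440 4731700 := s.step c86 h87 rfl
  have c88 : Cum L 98304 4032774 109568 4740111 := s.step c87 h88 rfl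
  have c89 : Cum L 98304 4032774 109696 4748404 := s.step c88 h89 rfl
  have c90 : Cum L 98304 4032774 109824 4756697 := s.step c89 h90 rfl
  have c91 : Cum L 98304 4032774 109952 4764976 := s.step c90 h91 rfl
  have c92 : Cum L 98304 4032774 110080 4773240 := s.step c91 h92 rfl
  have c93 : Cum L 98304 4032774 110208 4781501 := s.step c92 h93 rfl
  have c94 : Cum L 98304 4032774 110336 4789744 := s.step c93 h94 rfl
  have c95 : Cum L 98304 4032774 110464 4798023 := s.step c94 h95 rfl
  have c96 : Cum L 98304 4032774 110592 4806401 := s.step c95 h96 rfl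
  have c97 : Cum L 98304 4032774 110720 4814710 := s.step c96 h97 rfl
  have c98 : Cum L 98304 4032774 110848 4823050 := s.step c97 h98 rfl
  have c99 : Cum L 98304 4032774 110976 4831455 := s.step c98 h99 rfl
  have c100 : Cum L 98304 4032774 111104 4839742 := s.step c99 h100 rfl
  have c101 : Cum L 98304 4032774 111232 4848076 := s.step c100 h101 rfl
  have c102 : Cum L 98304 4032774 111360 4856476 := s.step c101 h102 rfl
  have c103 : Cum L 98304 4032774 111488 4864675 := s.step c102 h103 rfl
  have c104 : Cum L 98304 4032774 111616 4873064 := s.step c103 h104 rfl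
  have c105 : Cum L 98304 4032774 111744 4881309 := s.step c104 h105 rfl
  have c106 : Cum L 98304 4032774 111872 4889552 := s.step c105 h106 rfl
  have c107 : Cum L 98304 4032774 112000 4897914 := s.step c106 h107 rfl
  have c108 : Cum L 98304 4032774 112128 4906193 := s.step c107 h108 rfl
  have c109 : Cum L 98304 4032774 112256 4914593 := s.step c108 h109 rfl
  have c110 : Cum L 98304 4032774 112384 4922944 := s.step c109 h110 rfl
  have c111 : Cum L 98304 4032774 112512 4931216 := s.step c110 h111 rfl
  have c112 : Cum L 98304 4032774 112640 4939557 := s.step c111 h112 rfl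
  have c113 : Cum L 98304 4032774 112768 4947956 := s.step c112 h113 rfl
  have c114 : Cum L 98304 4032774 112896 4956572 := s.step c113 h114 rfl
  have c115 : Cum L 98304 4032774 113024 4964898 := s.step c114 h115 rfl
  have c116 : Cum L 98304 4032774 113152 4973138 := s.step c115 h116 rfl
  have c117 : Cum L 98304 4032774 113280 4981674 := s.step c116 h117 rfl
  have c118 : Cum L 98304 4032774 113408 4990062 := s.step c117 h118 rfl
  have c119 : Cum L 98304 4032774 113536 4998556 := s.step c118 h119 rfl
  have c120 : Cum L 98304 4032774 113664 5006735 := s.step c119 h120 rfl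
  have c121 : Cum L 98304 4032774 113792 5015077 := s.step c120 h121 rfl
  have c122 : Cum L 98304 4032774 113920 5023465 := s.step c121 h122 rfl
  have c123 : Cum L 98304 4032774 114048 5031792 := s.step c122 h123 rfl
  have c124 : Cum L 98304 4032774 114176 5040182 := s.step c123 h124 rfl
  have c125 : Cum L 98304 4032774 114304 5048419 := s.step c124 h125 rfl
  have c126 : Cum L 98304 4032774 114432 5056891 := s.step c125 h126 rfl
  have c127 : Cum L 98304 4032774 114560 5065213 := s.step c126 h127 rfl
  have c128 : Cum L 98304 4032774 114688 5073600 := s.step c127 h128 rfl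
  exact all_cons c7 (all_cons c14 (all_cons c21 (all_cons c28 (all_cons c35 (all_cons c43 (all_cons c51 (all_cons c59 (all_cons c67 (all_cons c75 (all_cons c83 (all_cons c91 (all_cons c99 (all_cons c107 (all_cons c115 (all_cons c123 (all_cons c128 all_nil))))))))))))))))

end Pool.Agent.AddSq.KD08

namespace Pool.Agent.AddSq.KD09

set_option linter.all false

theorem kfit : kfits 131071 262143 370731 524297 741473 1048609 1064960 753664 114688 8192 = true := by decide +kernel

theorem spec {W L : ℕ → Prop} (hG : GRules W L) : KSpec L S 114688 131071 :=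
  KSpec.mk' hG KF.cw17 KF.cl17 kfit S_eq

theorem data {W L : ℕ → Prop} (hG : GRules W L) :
    ∀ p ∈ KL09, Cum L 114688 5073600 p.1 p.2 := by
  have s := spec hG
  have c0 := Cum.start L 114688 5073600
  obtain ⟨h1, h2, h3, h4, h5, h6, h7, h8, h9, h10, h11, h12, h13, h14, h15, h16, h17, h18, h19, h20, h21, h22, h23, h24, h25, h26, h27, h28, h29, h30, h31, h32, h33, h34, h35, h36, h37, h38, h39, h40, h41, h42, h43, h44, h45, h46, h47, h48, h49, h50, h51, h52, h53, h54, h55, h56, h57, h58, h59, h60, h61, h62, h63, h64⟩ := grp1
  have c1 : Cum L 114688 5073600 114816 5081990 := s.step c0 h1 rfl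
  have c2 : Cum L 114688 5073600 114944 5090699 := s.step c1 h2 rfl
  have c3 : Cum L 114688 5073600 115072 5099183 := s.step c2 h3 rfl
  have c4 : Cum L 114688 5073600 115200 5107750 := s.step c3 h4 rfl
  have c5 : Cum L 114688 5073600 115328 5116211 := s.step c4 h5 rfl
  have c6 : Cum L 114688 5073600 115456 5124697 := s.step c5 h6 rfl
  have c7 : Cum L 114688 5073600 115584 5133432 := s.step c6 h7 rfl
  have c8 : Cum L 114688 5073600 115712 5141883 := s.step c7 h8 rfl
  have c9 : Cum L 114688 5073600 115840 5150590 := s.step c8 h9 rfl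
  have c10 : Cum L 114688 5073600 115968 5159192 := s.step c9 h10 rfl
  have c11 : Cum L 114688 5073600 116096 5167685 := s.step c10 h11 rfl
  have c12 : Cum L 114688 5073600 116224 5176217 := s.step c11 h12 rfl
  have c13 : Cum L 114688 5073600 116352 5184913 := s.step c12 h13 rfl
  have c14 : Cum L 114688 5073600 116480 5193346 := s.step c13 h14 rfl
  have c15 : Cum L 114688 5073600 116608 5201950 := s.step c14 h15 rfl
  have c16 : Cum L 114688 5073600 116736 5210370 := s.step c15 h16 rfl
  have c17 : Cum L 114688 5073600 116864 5218983 := s.step c16 h17 rfl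
  have c18 : Cum L 114688 5073600 116992 5227626 := s.step c17 h18 rfl
  have c19 : Cum L 114688 5073600 117120 5236064 := s.step c18 h19 rfl
  have c20 : Cum L 114688 5073600 117248 5244523 := s.step c19 h20 rfl
  have c21 : Cum L 114688 5073600 117376 5252982 := s.step c20 h21 rfl
  have c22 : Cum L 114688 5073600 117504 5261658 := s.step c21 h22 rfl
  have c23 : Cum L 114688 5073600 117632 5270200 := s.step c22 h23 rfl
  have c24 : Cum L 114688 5073600 117760 5278687 := s.step c23 h24 rfl
  have c25 : Cum L 114688 5073600 117888 5287341 := s.step c24 h25 rfl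
  have c26 : Cum L 114688 5073600 118016 5295877 := s.step c25 h26 rfl
  have c27 : Cum L 114688 5073600 118144 5304255 := s.step c26 h27 rfl
  have c28 : Cum L 114688 5073600 118272 5312812 := s.step c27 h28 rfl
  have c29 : Cum L 114688 5073600 118400 5321246 := s.step c28 h29 rfl
  have c30 : Cum L 114688 5073600 118528 5329766 := s.step c29 h30 rfl
  have c31 : Cum L 114688 5073600 118656 5338357 := s.step c30 h31 rfl
  have c32 : Cum L 114688 5073600 118784 5347029 := s.step c31 h32 rfl
  have c33 : Cum L 114688 5073600 118912 5355483 := s.step c32 h33 rfl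
  have c34 : Cum L 114688 5073600 119040 5363951 := s.step c33 h34 rfl
  have c35 : Cum L 114688 5073600 119168 5372675 := s.step c34 h35 rfl
  have c36 : Cum L 114688 5073600 119296 5381179 := s.step c35 h36 rfl
  have c37 : Cum L 114688 5073600 119424 5389880 := s.step c36 h37 rfl
  have c38 : Cum L 114688 5073600 119552 5398325 := s.step c37 h38 rfl
  have c39 : Cum L 114688 5073600 119680 5406895 := s.step c38 h39 rfl
  have c40 : Cum L 114688 5073600 119808 5415596 := s.step c39 h40 rfl
  have c41 : Cum L 114688 5073600 119936 5424173 := s.step c40 h41 rfl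
  have c42 : Cum L 114688 5073600 120064 5432883 := s.step c41 h42 rfl
  have c43 : Cum L 114688 5073600 120192 5441445 := s.step c42 h43 rfl
  have c44 : Cum L 114688 5073600 120320 5450146 := s.step c43 h44 rfl
  have c45 : Cum L 114688 5073600 120448 5458816 := s.step c44 h45 rfl
  have c46 : Cum L 114688 5073600 120576 5467537 := s.step c45 h46 rfl
  have c47 : Cum L 114688 5073600 120704 5476185 := s.step c46 h47 rfl
  have c48 : Cum L 114688 5073600 120832 5484831 := s.step c47 h48 rfl
  have c49 : Cum L 114688 5073600 120960 5493551 := s.step c48 h49 rfl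
  have c50 : Cum L 114688 5073600 121088 5502407 := s.step c49 h50 rfl
  have c51 : Cum L 114688 5073600 121216 5511137 := s.step c50 h51 rfl
  have c52 : Cum L 114688 5073600 121344 5519987 := s.step c51 h52 rfl
  have c53 : Cum L 114688 5073600 121472 5528728 := s.step c52 h53 rfl
  have c54 : Cum L 114688 5073600 121600 5537431 := s.step c53 h54 rfl
  have c55 : Cum L 114688 5073600 121728 5546100 := s.step c54 h55 rfl
  have c56 : Cum L 114688 5073600 121856 5554861 := s.step c55 h56 rfl
  have c57 : Cum L 114688 5073600 121984 5563640 := s.step c56 h57 rfl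
  have c58 : Cum L 114688 5073600 122112 5572500 := s.step c57 h58 rfl
  have c59 : Cum L 114688 5073600 122240 5581177 := s.step c58 h59 rfl
  have c60 : Cum L 114688 5073600 122368 5590233 := s.step c59 h60 rfl
  have c61 : Cum L 114688 5073600 122496 5599044 := s.step c60 h61 rfl
  have c62 : Cum L 114688 5073600 122624 5607911 := s.step c61 h62 rfl
  have c63 : Cum L 114688 5073600 122752 5616687 := s.step c62 h63 rfl
  have c64 : Cum L 114688 5073600 122880 5625478 := s.step c63 h64 rfl
  obtain ⟨h65, h66, h67, h68, h69, h70, h71, h72, h73, h74, h75, h76, h77, h78, h79, h80, h81, h82, h83, h84, h85, h86, h87, h88, h89, h90, h91, h92, h93, h94, h95, h96, h97, h98, h99, h100, h101, h102, h103, h104, h105, h106, h107, h108, h109, h110, h111, h112, h113, h114, h115, h116, h117, h118, h119, h120, h121, h122, h123, h124, h125, h126, h127, h128⟩ := grp2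
  have c65 : Cum L 114688 5073600 123008 5634086 := s.step c64 h65 rfl
  have c66 : Cum L 114688 5073600 123136 5642750 := s.step c65 h66 rfl
  have c67 : Cum L 114688 5073600 123264 5651337 := s.step c66 h67 rfl
  have c68 : Cum L 114688 5073600 123392 5660182 := s.step c67 h68 rfl
  have c69 : Cum L 114688 5073600 123520 5668935 := s.step c68 h69 rfl
  have c70 : Cum L 114688 5073600 123648 5677817 := s.step c69 h70 rfl
  have c71 : Cum L 114688 5073600 123776 5686509 := s.step c70 h71 rfl
  have c72 : Cum L 114688 5073600 123904 5695432 := s.step c71 h72 rfl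
  have c73 : Cum L 114688 5073600 124032 5704372 := s.step c72 h73 rfl
  have c74 : Cum L 114688 5073600 124160 5713203 := s.step c73 h74 rfl
  have c75 : Cum L 114688 5073600 124288 5722142 := s.step c74 h75 rfl
  have c76 : Cum L 114688 5073600 124416 5730937 := s.step c75 h76 rfl
  have c77 : Cum L 114688 5073600 124544 5739717 := s.step c76 h77 rfl
  have c78 : Cum L 114688 5073600 124672 5748533 := s.step c77 h78 rfl
  have c79 : Cum L 114688 5073600 124800 5757504 := s.step c78 h79 rfl
  have c80 : Cum L 114688 5073600 124928 5766480 := s.step c79 h80 rfl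
  have c81 : Cum L 114688 5073600 125056 5775536 := s.step c80 h81 rfl
  have c82 : Cum L 114688 5073600 125184 5784459 := s.step c81 h82 rfl
  have c83 : Cum L 114688 5073600 125312 5793421 := s.step c82 h83 rfl
  have c84 : Cum L 114688 5073600 125440 5802333 := s.step c83 h84 rfl
  have c85 : Cum L 114688 5073600 125568 5811236 := s.step c84 h85 rfl
  have c86 : Cum L 114688 5073600 125696 5820061 := s.step c85 h86 rfl
  have c87 : Cum L 114688 5073600 125824 5828872 := s.step c86 h87 rfl
  have c88 : Cum L 114688 5073600 125952 5837805 := s.step c87 h88 rfl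
  have c89 : Cum L 114688 5073600 126080 5846548 := s.step c88 h89 rfl
  have c90 : Cum L 114688 5073600 126208 5855578 := s.step c89 h90 rfl
  have c91 : Cum L 114688 5073600 126336 5864597 := s.step c90 h91 rfl
  have c92 : Cum L 114688 5073600 126464 5873609 := s.step c91 h92 rfl
  have c93 : Cum L 114688 5073600 126592 5882529 := s.step c92 h93 rfl
  have c94 : Cum L 114688 5073600 126720 5891498 := s.step c93 h94 rfl
  have c95 : Cum L 114688 5073600 126848 5900387 := s.step c94 h95 rfl
  have c96 : Cum L 114688 5073600 126976 5909202 := s.step c95 h96 rfl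
  have c97 : Cum L 114688 5073600 127104 5918103 := s.step c96 h97 rfl
  have c98 : Cum L 114688 5073600 127232 5927145 := s.step c97 h98 rfl
  have c99 : Cum L 114688 5073600 127360 5936095 := s.step c98 h99 rfl
  have c100 : Cum L 114688 5073600 127488 5945063 := s.step c99 h100 rfl
  have c101 : Cum L 114688 5073600 127616 5954082 := s.step c100 h101 rfl
  have c102 : Cum L 114688 5073600 127744 5962986 := s.step c101 h102 rfl
  have c103 : Cum L 114688 5073600 127872 5971768 := s.step c102 h103 rfl
  have c104 : Cum L 114688 5073600 128000 5980856 := s.step c103 h104 rfl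
  have c105 : Cum L 114688 5073600 128128 5989857 := s.step c104 h105 rfl
  have c106 : Cum L 114688 5073600 128256 5998890 := s.step c105 h106 rfl
  have c107 : Cum L 114688 5073600 128384 6007703 := s.step c106 h107 rfl
  have c108 : Cum L 114688 5073600 128512 6016628 := s.step c107 h108 rfl
  have c109 : Cum L 114688 5073600 128640 6025643 := s.step c108 h109 rfl
  have c110 : Cum L 114688 5073600 128768 6034785 := s.step c109 h110 rfl
  have c111 : Cum L 114688 5073600 128896 6043683 := s.step c110 h111 rfl
  have c112 : Cum L 114688 5073600 129024 6052666 := s.step c111 h112 rfl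
  have c113 : Cum L 114688 5073600 129152 6061784 := s.step c112 h113 rfl
  have c114 : Cum L 114688 5073600 129280 6070878 := s.step c113 h114 rfl
  have c115 : Cum L 114688 5073600 129408 6079777 := s.step c114 h115 rfl
  have c116 : Cum L 114688 5073600 129536 6088883 := s.step c115 h116 rfl
  have c117 : Cum L 114688 5073600 129664 6097888 := s.step c116 h117 rfl
  have c118 : Cum L 114688 5073600 129792 6106980 := s.step c117 h118 rfl
  have c119 : Cum L 114688 5073600 129920 6116050 := s.step c118 h119 rfl
  have c120 : Cum L 114688 5073600 130048 6125070 := s.step c119 h120 rfl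
  have c121 : Cum L 114688 5073600 130176 6134028 := s.step c120 h121 rfl
  have c122 : Cum L 114688 5073600 130304 6143171 := s.step c121 h122 rfl
  have c123 : Cum L 114688 5073600 130432 6152237 := s.step c122 h123 rfl
  have c124 : Cum L 114688 5073600 130560 6161297 := s.step c123 h124 rfl
  have c125 : Cum L 114688 5073600 130688 6170389 := s.step c124 h125 rfl
  have c126 : Cum L 114688 5073600 130816 6179516 := s.step c125 h126 rfl
  have c127 : Cum L 114688 5073600 130944 6188552 := s.step c126 h127 rfl
  have c128 : Cum L 114688 5073600 131072 6197553 := s.step c127 h128 rfl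
  exact all_cons c8 (all_cons c17 (all_cons c26 (all_cons c35 (all_cons c44 (all_cons c53 (all_cons c62 (all_cons c71 (all_cons c80 (all_cons c89 (all_cons c98 (all_cons c107 (all_cons c117 (all_cons c127 (all_cons c128 all_nil))))))))))))))

end Pool.Agent.AddSq.KD09
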