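import Pool.Agent.AddSq.KBase
import Pool.Agent.AddSq.KList
import Pool.Agent.AddSq.KD10
import Pool.Agent.AddSq.KD11
import Pool.Agent.AddSq.KD12
import Pool.Agent.AddSq.KD13
import Pool.Agent.AddSq.KD14
import Pool.Agent.AddSq.KD15

/-!
# Kernel data: cumulative counts, part 3
-/

namespace Pool.Agent.AddSq.KD10

set_option linter.all false

theorem kfit : kfits 139263 278527 393901 557065 787815 1114147 2113536 1490944 131072 8704 = true := by decide +kernel

theorem spec {W L : ℕ → Prop} (hG : GRules W L) : KSpec L S 131072 139263 :=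
  KSpec.mk' hG KF.cw18 KF.cl18 kfit S_eq

theorem data {W L : ℕ → Prop} (hG : GRules W L) :
    ∀ p ∈ KL10, Cum L 131072 6197553 p.1 p.2 := by
  have s := spec hG
  have c0 := Cum.start L 131072 6197553
  obtain ⟨h1, h2, h3, h4, h5, h6, h7, h8, h9, h10, h11, h12, h13, h14, h15, h16, h17, h18, h19, h20, h21, h22, h23, h24, h25, h26, h27, h28, h29, h30, h31, h32, h33, h34, h35, h36, h37, h38, h39, h40, h41, h42, h43, h44, h45, h46, h47, h48, h49, h50, h51, h52, h53, h54, h55, h56, h57, h58, h59, h60, h61, h62, h63, h64⟩ := grp1
  have c1 : Cum L 131072 6197553 131200 6206629 := s.step c0 h1 rfl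
  have c2 : Cum L 131072 6197553 131328 6215693 := s.step c1 h2 rfl
  have c3 : Cum L 131072 6197553 131456 6224766 := s.step c2 h3 rfl
  have c4 : Cum L 131072 6197553 131584 6233977 := s.step c3 h4 rfl
  have c5 : Cum L 131072 6197553 131712 6243090 := s.step c4 h5 rfl
  have c6 : Cum L 131072 6197553 131840 6252168 := s.step c5 h6 rfl
  have c7 : Cum L 131072 6197553 131968 6261416 := s.step c6 h7 rfl
  have c8 : Cum L 131072 6197553 132096 6270614 := s.step c7 h8 rfl
  have c9 : Cum L 131072 6197553 132224 6279903 := s.step c8 h9 rfl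
  have c10 : Cum L 131072 6197553 132352 6288985 := s.step c9 h10 rfl
  have c11 : Cum L 131072 6197553 132480 6298115 := s.step c10 h11 rfl
  have c12 : Cum L 131072 6197553 132608 6307333 := s.step c11 h12 rfl
  have c13 : Cum L 131072 6197553 132736 6316521 := s.step c12 h13 rfl
  have c14 : Cum L 131072 6197553 132864 6325844 := s.step c13 h14 rfl
  have c15 : Cum L 131072 6197553 132992 6335005 := s.step c14 h15 rfl
  have c16 : Cum L 131072 6197553 133120 6344253 := s.step c15 h16 rfl
  have c17 : Cum L 131072 6197553 133248 6353584 := s.step c16 h17 rfl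
  have c18 : Cum L 131072 6197553 133376 6362904 := s.step c17 h18 rfl
  have c19 : Cum L 131072 6197553 133504 6372043 := s.step c18 h19 rfl
  have c20 : Cum L 131072 6197553 133632 6381114 := s.step c19 h20 rfl
  have c21 : Cum L 131072 6197553 133760 6390252 := s.step c20 h21 rfl
  have c22 : Cum L 131072 6197553 133888 6399620 := s.step c21 h22 rfl
  have c23 : Cum L 131072 6197553 134016 6408799 := s.step c22 h23 rfl
  have c24 : Cum L 131072 6197553 134144 6417991 := s.step c23 h24 rfl
  have c25 : Cum L 131072 6197553 134272 6427097 := s.step c24 h25 rfl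
  have c26 : Cum L 131072 6197553 134400 6436160 := s.step c25 h26 rfl
  have c27 : Cum L 131072 6197553 134528 6445392 := s.step c26 h27 rfl
  have c28 : Cum L 131072 6197553 134656 6454577 := s.step c27 h28 rfl
  have c29 : Cum L 131072 6197553 134784 6463827 := s.step c28 h29 rfl
  have c30 : Cum L 131072 6197553 134912 6473125 := s.step c29 h30 rfl
  have c31 : Cum L 131072 6197553 135040 6482443 := s.step c30 h31 rfl
  have c32 : Cum L 131072 6197553 135168 6491780 := s.step c31 h32 rfl
  have c33 : Cum L 131072 6197553 135296 6500925 := s.step c32 h33 rfl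
  have c34 : Cum L 131072 6197553 135424 6510305 := s.step c33 h34 rfl
  have c35 : Cum L 131072 6197553 135552 6519589 := s.step c34 h35 rfl
  have c36 : Cum L 131072 6197553 135680 6528731 := s.step c35 h36 rfl
  have c37 : Cum L 131072 6197553 135808 6537956 := s.step c36 h37 rfl
  have c38 : Cum L 131072 6197553 135936 6547278 := s.step c37 h38 rfl
  have c39 : Cum L 131072 6197553 136064 6556464 := s.step c38 h39 rfl
  have c40 : Cum L 131072 6197553 136192 6565865 := s.step c39 h40 rfl
  have c41 : Cum L 131072 6197553 136320 6575041 := s.step c40 h41 rfl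
  have c42 : Cum L 131072 6197553 136448 6584583 := s.step c41 h42 rfl
  have c43 : Cum L 131072 6197553 136576 6593932 := s.step c42 h43 rfl
  have c44 : Cum L 131072 6197553 136704 6603303 := s.step c43 h44 rfl
  have c45 : Cum L 131072 6197553 136832 6612616 := s.step c44 h45 rfl
  have c46 : Cum L 131072 6197553 136960 6622000 := s.step c45 h46 rfl
  have c47 : Cum L 131072 6197553 137088 6631387 := s.step c46 h47 rfl
  have c48 : Cum L 131072 6197553 137216 6640764 := s.step c47 h48 rfl
  have c49 : Cum L 131072 6197553 137344 6650226 := s.step c48 h49 rfl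
  have c50 : Cum L 131072 6197553 137472 6659478 := s.step c49 h50 rfl
  have c51 : Cum L 131072 6197553 137600 6668750 := s.step c50 h51 rfl
  have c52 : Cum L 131072 6197553 137728 6678097 := s.step c51 h52 rfl
  have c53 : Cum L 131072 6197553 137856 6687459 := s.step c52 h53 rfl
  have c54 : Cum L 131072 6197553 137984 6696912 := s.step c53 h54 rfl
  have c55 : Cum L 131072 6197553 138112 6706234 := s.step c54 h55 rfl
  have c56 : Cum L 131072 6197553 138240 6715850 := s.step c55 h56 rfl
  have c57 : Cum L 131072 6197553 138368 6725377 := s.step c56 h57 rfl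
  have c58 : Cum L 131072 6197553 138496 6734963 := s.step c57 h58 rfl
  have c59 : Cum L 131072 6197553 138624 6744206 := s.step c58 h59 rfl
  have c60 : Cum L 131072 6197553 138752 6753566 := s.step c59 h60 rfl
  have c61 : Cum L 131072 6197553 138880 6763000 := s.step c60 h61 rfl
  have c62 : Cum L 131072 6197553 139008 6772265 := s.step c61 h62 rfl
  have c63 : Cum L 131072 6197553 139136 6781673 := s.step c62 h63 rfl
  have c64 : Cum L 131072 6197553 139264 6791023 := s.step c63 h64 rfl
  exact all_cons c10 (all_cons c20 (all_cons c30 (all_cons c40 (all_cons c50 (all_cons c60 (all_cons c64 all_nil))))))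

end Pool.Agent.AddSq.KD10

namespace Pool.Agent.AddSq.KD11

set_option linter.all false

theorem kfit : kfits 147455 294911 417071 589833 834157 1179685 2113536 1490944 139264 9216 = true := by decide +kernel

theorem spec {W L : ℕ → Prop} (hG : GRules W L) : KSpec L S 139264 147455 :=
  KSpec.mk' hG KF.cw18 KF.cl18 kfit S_eq

theorem data {W L : ℕ → Prop} (hG : GRules W L) :
    ∀ p ∈ KL11, Cum L 139264 6791023 p.1 p.2 := by
  have s := spec hG
  have c0 := Cum.start L 139264 6791023
  obtain ⟨h1, h2, h3, h4, h5, h6, h7, h8, h9, h10, h11, h12, h13, h14, h15, h16, h17, h18, h19, h20, h21, h22, h23, h24, h25, h26, h27, h28, h29, h30, h31, h32, h33, h34, h35, h36, h37, h38, h39, h40, h41, h42, h43, h44, h45, h46, h47, h48, h49, h50, h51, h52, h53, h54, h55, h56, h57, h58, h59, h60, h61, h62, h63, h64⟩ := grp1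
  have c1 : Cum L 139264 6791023 139392 6800413 := s.step c0 h1 rfl
  have c2 : Cum L 139264 6791023 139520 6809746 := s.step c1 h2 rfl
  have c3 : Cum L 139264 6791023 139648 6819327 := s.step c2 h3 rfl
  have c4 : Cum L 139264 6791023 139776 6828857 := s.step c3 h4 rfl
  have c5 : Cum L 139264 6791023 139904 6838302 := s.step c4 h5 rfl
  have c6 : Cum L 139264 6791023 140032 6847695 := s.step c5 h6 rfl
  have c7 : Cum L 139264 6791023 140160 6857067 := s.step c6 h7 rfl
  have c8 : Cum L 139264 6791023 140288 6866273 := s.step c7 h8 rfl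
  have c9 : Cum L 139264 6791023 140416 6875803 := s.step c8 h9 rfl
  have c10 : Cum L 139264 6791023 140544 6885147 := s.step c9 h10 rfl
  have c11 : Cum L 139264 6791023 140672 6894551 := s.step c10 h11 rfl
  have c12 : Cum L 139264 6791023 140800 6903862 := s.step c11 h12 rfl
  have c13 : Cum L 139264 6791023 140928 6913252 := s.step c12 h13 rfl
  have c14 : Cum L 139264 6791023 141056 6922850 := s.step c13 h14 rfl
  have c15 : Cum L 139264 6791023 141184 6932447 := s.step c14 h15 rfl
  have c16 : Cum L 139264 6791023 141312 6941765 := s.step c15 h16 rfl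
  have c17 : Cum L 139264 6791023 141440 6951253 := s.step c16 h17 rfl
  have c18 : Cum L 139264 6791023 141568 6960682 := s.step c17 h18 rfl
  have c19 : Cum L 139264 6791023 141696 6970339 := s.step c18 h19 rfl
  have c20 : Cum L 139264 6791023 141824 6980022 := s.step c19 h20 rfl
  have c21 : Cum L 139264 6791023 141952 6989374 := s.step c20 h21 rfl
  have c22 : Cum L 139264 6791023 142080 6998946 := s.step c21 h22 rfl
  have c23 : Cum L 139264 6791023 142208 7008566 := s.step c22 h23 rfl
  have c24 : Cum L 139264 6791023 142336 7018285 := s.step c23 h24 rfl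
  have c25 : Cum L 139264 6791023 142464 7027812 := s.step c24 h25 rfl
  have c26 : Cum L 139264 6791023 142592 7037491 := s.step c25 h26 rfl
  have c27 : Cum L 139264 6791023 142720 7046984 := s.step c26 h27 rfl
  have c28 : Cum L 139264 6791023 142848 7056556 := s.step c27 h28 rfl
  have c29 : Cum L 139264 6791023 142976 7066067 := s.step c28 h29 rfl
  have c30 : Cum L 139264 6791023 143104 7075801 := s.step c29 h30 rfl
  have c31 : Cum L 139264 6791023 143232 7085442 := s.step c30 h31 rfl
  have c32 : Cum L 139264 6791023 143360 7094968 := s.step c31 h32 rfl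
  have c33 : Cum L 139264 6791023 143488 7104490 := s.step c32 h33 rfl
  have c34 : Cum L 139264 6791023 143616 7114224 := s.step c33 h34 rfl
  have c35 : Cum L 139264 6791023 143744 7123817 := s.step c34 h35 rfl
  have c36 : Cum L 139264 6791023 143872 7133362 := s.step c35 h36 rfl
  have c37 : Cum L 139264 6791023 144000 7143041 := s.step c36 h37 rfl
  have c38 : Cum L 139264 6791023 144128 7152833 := s.step c37 h38 rfl
  have c39 : Cum L 139264 6791023 144256 7162654 := s.step c38 h39 rfl
  have c40 : Cum L 139264 6791023 144384 7172199 := s.step c39 h40 rfl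
  have c41 : Cum L 139264 6791023 144512 7181830 := s.step c40 h41 rfl
  have c42 : Cum L 139264 6791023 144640 7191443 := s.step c41 h42 rfl
  have c43 : Cum L 139264 6791023 144768 7201139 := s.step c42 h43 rfl
  have c44 : Cum L 139264 6791023 144896 7210780 := s.step c43 h44 rfl
  have c45 : Cum L 139264 6791023 145024 7220437 := s.step c44 h45 rfl
  have c46 : Cum L 139264 6791023 145152 7230109 := s.step c45 h46 rfl
  have c47 : Cum L 139264 6791023 145280 7239815 := s.step c46 h47 rfl
  have c48 : Cum L 139264 6791023 145408 7249213 := s.step c47 h48 rfl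
  have c49 : Cum L 139264 6791023 145536 7258706 := s.step c48 h49 rfl
  have c50 : Cum L 139264 6791023 145664 7268335 := s.step c49 h50 rfl
  have c51 : Cum L 139264 6791023 145792 7277981 := s.step c50 h51 rfl
  have c52 : Cum L 139264 6791023 145920 7287697 := s.step c51 h52 rfl
  have c53 : Cum L 139264 6791023 146048 7297292 := s.step c52 h53 rfl
  have c54 : Cum L 139264 6791023 146176 7307120 := s.step c53 h54 rfl
  have c55 : Cum L 139264 6791023 146304 7316661 := s.step c54 h55 rfl
  have c56 : Cum L 139264 6791023 146432 7326326 := s.step c55 h56 rfl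
  have c57 : Cum L 139264 6791023 146560 7335911 := s.step c56 h57 rfl
  have c58 : Cum L 139264 6791023 146688 7345535 := s.step c57 h58 rfl
  have c59 : Cum L 139264 6791023 146816 7355345 := s.step c58 h59 rfl
  have c60 : Cum L 139264 6791023 146944 7365126 := s.step c59 h60 rfl
  have c61 : Cum L 139264 6791023 147072 7374749 := s.step c60 h61 rfl
  have c62 : Cum L 139264 6791023 147200 7384243 := s.step c61 h62 rfl
  have c63 : Cum L 139264 6791023 147328 7393968 := s.step c62 h63 rfl
  have c64 : Cum L 139264 6791023 147456 7403748 := s.step c63 h64 rfl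
  exact all_cons c10 (all_cons c20 (all_cons c31 (all_cons c42 (all_cons c53 (all_cons c64 all_nil)))))

end Pool.Agent.AddSq.KD11

namespace Pool.Agent.AddSq.KD12

set_option linter.all false

theorem kfit : kfits 155647 311295 440243 622603 880501 1245225 2113536 1490944 147456 9728 = true := by decide +kernel

theorem spec {W L : ℕ → Prop} (hG : GRules W L) : KSpec L S 147456 155647 :=
  KSpec.mk' hG KF.cw18 KF.cl18 kfit S_eq

theorem data {W L : ℕ → Prop} (hG : GRules W L) :
    ∀ p ∈ KL12, Cum L 147456 7403748 p.1 p.2 := by
  have s := spec hG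
  have c0 := Cum.start L 147456 7403748
  obtain ⟨h1, h2, h3, h4, h5, h6, h7, h8, h9, h10, h11, h12, h13, h14, h15, h16, h17, h18, h19, h20, h21, h22, h23, h24, h25, h26, h27, h28, h29, h30, h31, h32, h33, h34, h35, h36, h37, h38, h39, h40, h41, h42, h43, h44, h45, h46, h47, h48, h49, h50, h51, h52, h53, h54, h55, h56, h57, h58, h59, h60, h61, h62, h63, h64⟩ := grp1
  have c1 : Cum L 147456 7403748 147584 7413575 := s.step c0 h1 rfl
  have c2 : Cum L 147456 7403748 147712 7423379 := s.step c1 h2 rfl
  have c3 : Cum L 147456 7403748 147840 7433178 := s.step c2 h3 rfl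
  have c4 : Cum L 147456 7403748 147968 7442891 := s.step c3 h4 rfl
  have c5 : Cum L 147456 7403748 148096 7452872 := s.step c4 h5 rfl
  have c6 : Cum L 147456 7403748 148224 7462812 := s.step c5 h6 rfl
  have c7 : Cum L 147456 7403748 148352 7472688 := s.step c6 h7 rfl
  have c8 : Cum L 147456 7403748 148480 7482366 := s.step c7 h8 rfl
  have c9 : Cum L 147456 7403748 148608 7492113 := s.step c8 h9 rfl
  have c10 : Cum L 147456 7403748 148736 7501702 := s.step c9 h10 rfl
  have c11 : Cum L 147456 7403748 148864 7511427 := s.step c10 h11 rfl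
  have c12 : Cum L 147456 7403748 148992 7521054 := s.step c11 h12 rfl
  have c13 : Cum L 147456 7403748 149120 7530646 := s.step c12 h13 rfl
  have c14 : Cum L 147456 7403748 149248 7540235 := s.step c13 h14 rfl
  have c15 : Cum L 147456 7403748 149376 7550143 := s.step c14 h15 rfl
  have c16 : Cum L 147456 7403748 149504 7559881 := s.step c15 h16 rfl
  have c17 : Cum L 147456 7403748 149632 7569636 := s.step c16 h17 rfl
  have c18 : Cum L 147456 7403748 149760 7579559 := s.step c17 h18 rfl
  have c19 : Cum L 147456 7403748 149888 7589493 := s.step c18 h19 rfl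
  have c20 : Cum L 147456 7403748 150016 7599447 := s.step c19 h20 rfl
  have c21 : Cum L 147456 7403748 150144 7609248 := s.step c20 h21 rfl
  have c22 : Cum L 147456 7403748 150272 7619246 := s.step c21 h22 rfl
  have c23 : Cum L 147456 7403748 150400 7629211 := s.step c22 h23 rfl
  have c24 : Cum L 147456 7403748 150528 7639051 := s.step c23 h24 rfl
  have c25 : Cum L 147456 7403748 150656 7648891 := s.step c24 h25 rfl
  have c26 : Cum L 147456 7403748 150784 7658894 := s.step c25 h26 rfl
  have c27 : Cum L 147456 7403748 150912 7668802 := s.step c26 h27 rfl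
  have c28 : Cum L 147456 7403748 151040 7678838 := s.step c27 h28 rfl
  have c29 : Cum L 147456 7403748 151168 7688813 := s.step c28 h29 rfl
  have c30 : Cum L 147456 7403748 151296 7698792 := s.step c29 h30 rfl
  have c31 : Cum L 147456 7403748 151424 7708624 := s.step c30 h31 rfl
  have c32 : Cum L 147456 7403748 151552 7718598 := s.step c31 h32 rfl
  have c33 : Cum L 147456 7403748 151680 7728406 := s.step c32 h33 rfl
  have c34 : Cum L 147456 7403748 151808 7738398 := s.step c33 h34 rfl
  have c35 : Cum L 147456 7403748 151936 7748072 := s.step c34 h35 rfl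
  have c36 : Cum L 147456 7403748 152064 7758135 := s.step c35 h36 rfl
  have c37 : Cum L 147456 7403748 152192 7767803 := s.step c36 h37 rfl
  have c38 : Cum L 147456 7403748 152320 7777652 := s.step c37 h38 rfl
  have c39 : Cum L 147456 7403748 152448 7787519 := s.step c38 h39 rfl
  have c40 : Cum L 147456 7403748 152576 7797461 := s.step c39 h40 rfl
  have c41 : Cum L 147456 7403748 152704 7807334 := s.step c40 h41 rfl
  have c42 : Cum L 147456 7403748 152832 7817264 := s.step c41 h42 rfl
  have c43 : Cum L 147456 7403748 152960 7827234 := s.step c42 h43 rfl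
  have c44 : Cum L 147456 7403748 153088 7837134 := s.step c43 h44 rfl
  have c45 : Cum L 147456 7403748 153216 7847102 := s.step c44 h45 rfl
  have c46 : Cum L 147456 7403748 153344 7857186 := s.step c45 h46 rfl
  have c47 : Cum L 147456 7403748 153472 7867204 := s.step c46 h47 rfl
  have c48 : Cum L 147456 7403748 153600 7877130 := s.step c47 h48 rfl
  have c49 : Cum L 147456 7403748 153728 7887043 := s.step c48 h49 rfl
  have c50 : Cum L 147456 7403748 153856 7896906 := s.step c49 h50 rfl
  have c51 : Cum L 147456 7403748 153984 7906787 := s.step c50 h51 rfl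
  have c52 : Cum L 147456 7403748 154112 7916709 := s.step c51 h52 rfl
  have c53 : Cum L 147456 7403748 154240 7926483 := s.step c52 h53 rfl
  have c54 : Cum L 147456 7403748 154368 7936458 := s.step c53 h54 rfl
  have c55 : Cum L 147456 7403748 154496 7946252 := s.step c54 h55 rfl
  have c56 : Cum L 147456 7403748 154624 7956280 := s.step c55 h56 rfl
  have c57 : Cum L 147456 7403748 154752 7966513 := s.step c56 h57 rfl
  have c58 : Cum L 147456 7403748 154880 7976437 := s.step c57 h58 rfl
  have c59 : Cum L 147456 7403748 155008 7986457 := s.step c58 h59 rfl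
  have c60 : Cum L 147456 7403748 155136 7996284 := s.step c59 h60 rfl
  have c61 : Cum L 147456 7403748 155264 8006218 := s.step c60 h61 rfl
  have c62 : Cum L 147456 7403748 155392 8016227 := s.step c61 h62 rfl
  have c63 : Cum L 147456 7403748 155520 8026146 := s.step c62 h63 rfl
  have c64 : Cum L 147456 7403748 155648 8036118 := s.step c63 h64 rfl
  exact all_cons c11 (all_cons c22 (all_cons c33 (all_cons c44 (all_cons c55 (all_cons c64 all_nil)))))

end Pool.Agent.AddSq.KD12

namespace Pool.Agent.AddSq.KD13

set_option linter.all false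

theorem kfit : kfits 163839 327679 463413 655371 926841 1310759 2113536 1490944 155648 10240 = true := by decide +kernel

theorem spec {W L : ℕ → Prop} (hG : GRules W L) : KSpec L S 155648 163839 :=
  KSpec.mk' hG KF.cw18 KF.cl18 kfit S_eq

theorem data {W L : ℕ → Prop} (hG : GRules W L) :
    ∀ p ∈ KL13, Cum L 155648 8036118 p.1 p.2 := by
  have s := spec hG
  have c0 := Cum.start L 155648 8036118
  obtain ⟨h1, h2, h3, h4, h5, h6, h7, h8, h9, h10, h11, h12, h13, h14, h15, h16, h17, h18, h19, h20, h21, h22, h23, h24, h25, h26, h27, h28, h29, h30, h31, h32, h33, h34, h35, h36, h37, h38, h39, h40, h41, h42, h43, h44, h45, h46, h47, h48, h49, h50, h51, h52, h53, h54, h55, h56, h57, h58, h59, h60, h61, h62, h63, h64⟩ := grp1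
  have c1 : Cum L 155648 8036118 155776 8046240 := s.step c0 h1 rfl
  have c2 : Cum L 155648 8036118 155904 8056264 := s.step c1 h2 rfl
  have c3 : Cum L 155648 8036118 156032 8066347 := s.step c2 h3 rfl
  have c4 : Cum L 155648 8036118 156160 8076448 := s.step c3 h4 rfl
  have c5 : Cum L 155648 8036118 156288 8086496 := s.step c4 h5 rfl
  have c6 : Cum L 155648 8036118 156416 8096429 := s.step c5 h6 rfl
  have c7 : Cum L 155648 8036118 156544 8106614 := s.step c6 h7 rfl
  have c8 : Cum L 155648 8036118 156672 8116701 := s.step c7 h8 rfl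
  have c9 : Cum L 155648 8036118 156800 8126721 := s.step c8 h9 rfl
  have c10 : Cum L 155648 8036118 156928 8136718 := s.step c9 h10 rfl
  have c11 : Cum L 155648 8036118 157056 8146790 := s.step c10 h11 rfl
  have c12 : Cum L 155648 8036118 157184 8157035 := s.step c11 h12 rfl
  have c13 : Cum L 155648 8036118 157312 8167105 := s.step c12 h13 rfl
  have c14 : Cum L 155648 8036118 157440 8177353 := s.step c13 h14 rfl
  have c15 : Cum L 155648 8036118 157568 8187564 := s.step c14 h15 rfl
  have c16 : Cum L 155648 8036118 157696 8197594 := s.step c15 h16 rfl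
  have c17 : Cum L 155648 8036118 157824 8207681 := s.step c16 h17 rfl
  have c18 : Cum L 155648 8036118 157952 8217882 := s.step c17 h18 rfl
  have c19 : Cum L 155648 8036118 158080 8228155 := s.step c18 h19 rfl
  have c20 : Cum L 155648 8036118 158208 8238192 := s.step c19 h20 rfl
  have c21 : Cum L 155648 8036118 158336 8248310 := s.step c20 h21 rfl
  have c22 : Cum L 155648 8036118 158464 8258236 := s.step c21 h22 rfl
  have c23 : Cum L 155648 8036118 158592 8268374 := s.step c22 h23 rfl
  have c24 : Cum L 155648 8036118 158720 8278350 := s.step c23 h24 rfl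
  have c25 : Cum L 155648 8036118 158848 8288373 := s.step c24 h25 rfl
  have c26 : Cum L 155648 8036118 158976 8298428 := s.step c25 h26 rfl
  have c27 : Cum L 155648 8036118 159104 8308691 := s.step c26 h27 rfl
  have c28 : Cum L 155648 8036118 159232 8319045 := s.step c27 h28 rfl
  have c29 : Cum L 155648 8036118 159360 8329278 := s.step c28 h29 rfl
  have c30 : Cum L 155648 8036118 159488 8339662 := s.step c29 h30 rfl
  have c31 : Cum L 155648 8036118 159616 8349789 := s.step c30 h31 rfl
  have c32 : Cum L 155648 8036118 159744 8359792 := s.step c31 h32 rfl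
  have c33 : Cum L 155648 8036118 159872 8369948 := s.step c32 h33 rfl
  have c34 : Cum L 155648 8036118 160000 8380102 := s.step c33 h34 rfl
  have c35 : Cum L 155648 8036118 160128 8389924 := s.step c34 h35 rfl
  have c36 : Cum L 155648 8036118 160256 8400135 := s.step c35 h36 rfl
  have c37 : Cum L 155648 8036118 160384 8410348 := s.step c36 h37 rfl
  have c38 : Cum L 155648 8036118 160512 8420649 := s.step c37 h38 rfl
  have c39 : Cum L 155648 8036118 160640 8430902 := s.step c38 h39 rfl
  have c40 : Cum L 155648 8036118 160768 8441059 := s.step c39 h40 rfl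
  have c41 : Cum L 155648 8036118 160896 8451267 := s.step c40 h41 rfl
  have c42 : Cum L 155648 8036118 161024 8461404 := s.step c41 h42 rfl
  have c43 : Cum L 155648 8036118 161152 8471565 := s.step c42 h43 rfl
  have c44 : Cum L 155648 8036118 161280 8481494 := s.step c43 h44 rfl
  have c45 : Cum L 155648 8036118 161408 8491732 := s.step c44 h45 rfl
  have c46 : Cum L 155648 8036118 161536 8501738 := s.step c45 h46 rfl
  have c47 : Cum L 155648 8036118 161664 8512039 := s.step c46 h47 rfl
  have c48 : Cum L 155648 8036118 161792 8522374 := s.step c47 h48 rfl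
  have c49 : Cum L 155648 8036118 161920 8532377 := s.step c48 h49 rfl
  have c50 : Cum L 155648 8036118 162048 8542704 := s.step c49 h50 rfl
  have c51 : Cum L 155648 8036118 162176 8552883 := s.step c50 h51 rfl
  have c52 : Cum L 155648 8036118 162304 8563238 := s.step c51 h52 rfl
  have c53 : Cum L 155648 8036118 162432 8573439 := s.step c52 h53 rfl
  have c54 : Cum L 155648 8036118 162560 8583703 := s.step c53 h54 rfl
  have c55 : Cum L 155648 8036118 162688 8593941 := s.step c54 h55 rfl
  have c56 : Cum L 155648 8036118 162816 8604206 := s.step c55 h56 rfl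
  have c57 : Cum L 155648 8036118 162944 8614560 := s.step c56 h57 rfl
  have c58 : Cum L 155648 8036118 163072 8624918 := s.step c57 h58 rfl
  have c59 : Cum L 155648 8036118 163200 8635360 := s.step c58 h59 rfl
  have c60 : Cum L 155648 8036118 163328 8645648 := s.step c59 h60 rfl
  have c61 : Cum L 155648 8036118 163456 8655884 := s.step c60 h61 rfl
  have c62 : Cum L 155648 8036118 163584 8666274 := s.step c61 h62 rfl
  have c63 : Cum L 155648 8036118 163712 8676495 := s.step c62 h63 rfl
  have c64 : Cum L 155648 8036118 163840 8686873 := s.step c63 h64 rfl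
  exact all_cons c12 (all_cons c24 (all_cons c36 (all_cons c48 (all_cons c60 (all_cons c64 all_nil)))))

end Pool.Agent.AddSq.KD13

namespace Pool.Agent.AddSq.KD14

set_option linter.all false

theorem kfit : kfits 172031 344063 486583 688137 973179 1376291 2113536 1490944 163840 10752 = true := by decide +kernel

theorem spec {W L : ℕ → Prop} (hG : GRules W L) : KSpec L S 163840 172031 :=
  KSpec.mk' hG KF.cw18 KF.cl18 kfit S_eq

theorem data {W L : ℕ → Prop} (hG : GRules W L) :
    ∀ p ∈ KL14, Cum L 163840 8686873 p.1 p.2 := by
  have s := spec hG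
  have c0 := Cum.start L 163840 8686873
  obtain ⟨h1, h2, h3, h4, h5, h6, h7, h8, h9, h10, h11, h12, h13, h14, h15, h16, h17, h18, h19, h20, h21, h22, h23, h24, h25, h26, h27, h28, h29, h30, h31, h32, h33, h34, h35, h36, h37, h38, h39, h40, h41, h42, h43, h44, h45, h46, h47, h48, h49, h50, h51, h52, h53, h54, h55, h56, h57, h58, h59, h60, h61, h62, h63, h64⟩ := grp1
  have c1 : Cum L 163840 8686873 163968 8697266 := s.step c0 h1 rfl
  have c2 : Cum L 163840 8686873 164096 8707629 := s.step c1 h2 rfl
  have c3 : Cum L 163840 8686873 164224 8717910 := s.step c2 h3 rfl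
  have c4 : Cum L 163840 8686873 164352 8728438 := s.step c3 h4 rfl
  have c5 : Cum L 163840 8686873 164480 8738750 := s.step c4 h5 rfl
  have c6 : Cum L 163840 8686873 164608 8749115 := s.step c5 h6 rfl
  have c7 : Cum L 163840 8686873 164736 8759390 := s.step c6 h7 rfl
  have c8 : Cum L 163840 8686873 164864 8769740 := s.step c7 h8 rfl
  have c9 : Cum L 163840 8686873 164992 8780159 := s.step c8 h9 rfl
  have c10 : Cum L 163840 8686873 165120 8790480 := s.step c9 h10 rfl
  have c11 : Cum L 163840 8686873 165248 8800764 := s.step c10 h11 rfl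
  have c12 : Cum L 163840 8686873 165376 8811166 := s.step c11 h12 rfl
  have c13 : Cum L 163840 8686873 165504 8821423 := s.step c12 h13 rfl
  have c14 : Cum L 163840 8686873 165632 8831716 := s.step c13 h14 rfl
  have c15 : Cum L 163840 8686873 165760 8842025 := s.step c14 h15 rfl
  have c16 : Cum L 163840 8686873 165888 8852301 := s.step c15 h16 rfl
  have c17 : Cum L 163840 8686873 166016 8862633 := s.step c16 h17 rfl
  have c18 : Cum L 163840 8686873 166144 8872989 := s.step c17 h18 rfl
  have c19 : Cum L 163840 8686873 166272 8883418 := s.step c18 h19 rfl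
  have c20 : Cum L 163840 8686873 166400 8893625 := s.step c19 h20 rfl
  have c21 : Cum L 163840 8686873 166528 8903920 := s.step c20 h21 rfl
  have c22 : Cum L 163840 8686873 166656 8914190 := s.step c21 h22 rfl
  have c23 : Cum L 163840 8686873 166784 8924440 := s.step c22 h23 rfl
  have c24 : Cum L 163840 8686873 166912 8934773 := s.step c23 h24 rfl
  have c25 : Cum L 163840 8686873 167040 8945172 := s.step c24 h25 rfl
  have c26 : Cum L 163840 8686873 167168 8955461 := s.step c25 h26 rfl
  have c27 : Cum L 163840 8686873 167296 8965786 := s.step c26 h27 rfl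
  have c28 : Cum L 163840 8686873 167424 8976287 := s.step c27 h28 rfl
  have c29 : Cum L 163840 8686873 167552 8986615 := s.step c28 h29 rfl
  have c30 : Cum L 163840 8686873 167680 8996983 := s.step c29 h30 rfl
  have c31 : Cum L 163840 8686873 167808 9007464 := s.step c30 h31 rfl
  have c32 : Cum L 163840 8686873 167936 9017957 := s.step c31 h32 rfl
  have c33 : Cum L 163840 8686873 168064 9028404 := s.step c32 h33 rfl
  have c34 : Cum L 163840 8686873 168192 9038909 := s.step c33 h34 rfl
  have c35 : Cum L 163840 8686873 168320 9049340 := s.step c34 h35 rfl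
  have c36 : Cum L 163840 8686873 168448 9060008 := s.step c35 h36 rfl
  have c37 : Cum L 163840 8686873 168576 9070499 := s.step c36 h37 rfl
  have c38 : Cum L 163840 8686873 168704 9081046 := s.step c37 h38 rfl
  have c39 : Cum L 163840 8686873 168832 9091510 := s.step c38 h39 rfl
  have c40 : Cum L 163840 8686873 168960 9101857 := s.step c39 h40 rfl
  have c41 : Cum L 163840 8686873 169088 9112323 := s.step c40 h41 rfl
  have c42 : Cum L 163840 8686873 169216 9122667 := s.step c41 h42 rfl
  have c43 : Cum L 163840 8686873 169344 9132982 := s.step c42 h43 rfl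
  have c44 : Cum L 163840 8686873 169472 9143549 := s.step c43 h44 rfl
  have c45 : Cum L 163840 8686873 169600 9153983 := s.step c44 h45 rfl
  have c46 : Cum L 163840 8686873 169728 9164236 := s.step c45 h46 rfl
  have c47 : Cum L 163840 8686873 169856 9174845 := s.step c46 h47 rfl
  have c48 : Cum L 163840 8686873 169984 9185312 := s.step c47 h48 rfl
  have c49 : Cum L 163840 8686873 170112 9195875 := s.step c48 h49 rfl
  have c50 : Cum L 163840 8686873 170240 9206449 := s.step c49 h50 rfl
  have c51 : Cum L 163840 8686873 170368 9216777 := s.step c50 h51 rfl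
  have c52 : Cum L 163840 8686873 170496 9227171 := s.step c51 h52 rfl
  have c53 : Cum L 163840 8686873 170624 9237672 := s.step c52 h53 rfl
  have c54 : Cum L 163840 8686873 170752 9248208 := s.step c53 h54 rfl
  have c55 : Cum L 163840 8686873 170880 9258685 := s.step c54 h55 rfl
  have c56 : Cum L 163840 8686873 171008 9269252 := s.step c55 h56 rfl
  have c57 : Cum L 163840 8686873 171136 9279852 := s.step c56 h57 rfl
  have c58 : Cum L 163840 8686873 171264 9290217 := s.step c57 h58 rfl
  have c59 : Cum L 163840 8686873 171392 9300698 := s.step c58 h59 rfl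
  have c60 : Cum L 163840 8686873 171520 9311090 := s.step c59 h60 rfl
  have c61 : Cum L 163840 8686873 171648 9321618 := s.step c60 h61 rfl
  have c62 : Cum L 163840 8686873 171776 9332386 := s.step c61 h62 rfl
  have c63 : Cum L 163840 8686873 171904 9342808 := s.step c62 h63 rfl
  have c64 : Cum L 163840 8686873 172032 9353179 := s.step c63 h64 rfl
  exact all_cons c12 (all_cons c24 (all_cons c37 (all_cons c50 (all_cons c63 (all_cons c64 all_nil)))))

end Pool.Agent.AddSq.KD14

namespace Pool.Agent.AddSq.KD15

set_option linter.all false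

theorem kfit : kfits 180223 360447 509753 720905 1019521 1441829 2113536 1490944 172032 11264 = true := by decide +kernel

theorem spec {W L : ℕ → Prop} (hG : GRules W L) : KSpec L S 172032 180223 :=
  KSpec.mk' hG KF.cw18 KF.cl18 kfit S_eq

theorem data {W L : ℕ → Prop} (hG : GRules W L) :
    ∀ p ∈ KL15, Cum L 172032 9353179 p.1 p.2 := by
  have s := spec hG
  have c0 := Cum.start L 172032 9353179
  obtain ⟨h1, h2, h3, h4, h5, h6, h7, h8, h9, h10, h11, h12, h13, h14, h15, h16, h17, h18, h19, h20, h21, h22, h23, h24, h25, h26, h27, h28, h29, h30, h31, h32, h33, h34, h35, h36, h37, h38, h39, h40, h41, h42, h43, h44, h45, h46, h47, h48, h49, h50, h51, h52, h53, h54, h55, h56, h57, h58, h59, h60, h61, h62, h63, h64⟩ := grp1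
  have c1 : Cum L 172032 9353179 172160 9363837 := s.step c0 h1 rfl
  have c2 : Cum L 172032 9353179 172288 9374515 := s.step c1 h2 rfl
  have c3 : Cum L 172032 9353179 172416 9385301 := s.step c2 h3 rfl
  have c4 : Cum L 172032 9353179 172544 9395778 := s.step c3 h4 rfl
  have c5 : Cum L 172032 9353179 172672 9406278 := s.step c4 h5 rfl
  have c6 : Cum L 172032 9353179 172800 9416915 := s.step c5 h6 rfl
  have c7 : Cum L 172032 9353179 172928 9427394 := s.step c6 h7 rfl
  have c8 : Cum L 172032 9353179 173056 9438032 := s.step c7 h8 rfl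
  have c9 : Cum L 172032 9353179 173184 9448543 := s.step c8 h9 rfl
  have c10 : Cum L 172032 9353179 173312 9459002 := s.step c9 h10 rfl
  have c11 : Cum L 172032 9353179 173440 9469679 := s.step c10 h11 rfl
  have c12 : Cum L 172032 9353179 173568 9480426 := s.step c11 h12 rfl
  have c13 : Cum L 172032 9353179 173696 9491046 := s.step c12 h13 rfl
  have c14 : Cum L 172032 9353179 173824 9501685 := s.step c13 h14 rfl
  have c15 : Cum L 172032 9353179 173952 9512210 := s.step c14 h15 rfl
  have c16 : Cum L 172032 9353179 174080 9522799 := s.step c15 h16 rfl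
  have c17 : Cum L 172032 9353179 174208 9533388 := s.step c16 h17 rfl
  have c18 : Cum L 172032 9353179 174336 9544054 := s.step c17 h18 rfl
  have c19 : Cum L 172032 9353179 174464 9554733 := s.step c18 h19 rfl
  have c20 : Cum L 172032 9353179 174592 9565268 := s.step c19 h20 rfl
  have c21 : Cum L 172032 9353179 174720 9575788 := s.step c20 h21 rfl
  have c22 : Cum L 172032 9353179 174848 9586602 := s.step c21 h22 rfl
  have c23 : Cum L 172032 9353179 174976 9597540 := s.step c22 h23 rfl
  have c24 : Cum L 172032 9353179 175104 9608261 := s.step c23 h24 rfl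
  have c25 : Cum L 172032 9353179 175232 9619014 := s.step c24 h25 rfl
  have c26 : Cum L 172032 9353179 175360 9629728 := s.step c25 h26 rfl
  have c27 : Cum L 172032 9353179 175488 9640237 := s.step c26 h27 rfl
  have c28 : Cum L 172032 9353179 175616 9650855 := s.step c27 h28 rfl
  have c29 : Cum L 172032 9353179 175744 9661267 := s.step c28 h29 rfl
  have c30 : Cum L 172032 9353179 175872 9672024 := s.step c29 h30 rfl
  have c31 : Cum L 172032 9353179 176000 9682752 := s.step c30 h31 rfl
  have c32 : Cum L 172032 9353179 176128 9693536 := s.step c31 h32 rfl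
  have c33 : Cum L 172032 9353179 176256 9704196 := s.step c32 h33 rfl
  have c34 : Cum L 172032 9353179 176384 9714891 := s.step c33 h34 rfl
  have c35 : Cum L 172032 9353179 176512 9725644 := s.step c34 h35 rfl
  have c36 : Cum L 172032 9353179 176640 9736414 := s.step c35 h36 rfl
  have c37 : Cum L 172032 9353179 176768 9746979 := s.step c36 h37 rfl
  have c38 : Cum L 172032 9353179 176896 9757798 := s.step c37 h38 rfl
  have c39 : Cum L 172032 9353179 177024 9768752 := s.step c38 h39 rfl
  have c40 : Cum L 172032 9353179 177152 9779549 := s.step c39 h40 rfl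
  have c41 : Cum L 172032 9353179 177280 9790135 := s.step c40 h41 rfl
  have c42 : Cum L 172032 9353179 177408 9801070 := s.step c41 h42 rfl
  have c43 : Cum L 172032 9353179 177536 9812032 := s.step c42 h43 rfl
  have c44 : Cum L 172032 9353179 177664 9822992 := s.step c43 h44 rfl
  have c45 : Cum L 172032 9353179 177792 9833804 := s.step c44 h45 rfl
  have c46 : Cum L 172032 9353179 177920 9844545 := s.step c45 h46 rfl
  have c47 : Cum L 172032 9353179 178048 9855364 := s.step c46 h47 rfl
  have c48 : Cum L 172032 9353179 178176 9866195 := s.step c47 h48 rfl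
  have c49 : Cum L 172032 9353179 178304 9876994 := s.step c48 h49 rfl
  have c50 : Cum L 172032 9353179 178432 9887821 := s.step c49 h50 rfl
  have c51 : Cum L 172032 9353179 178560 9898714 := s.step c50 h51 rfl
  have c52 : Cum L 172032 9353179 178688 9909336 := s.step c51 h52 rfl
  have c53 : Cum L 172032 9353179 178816 9920231 := s.step c52 h53 rfl
  have c54 : Cum L 172032 9353179 178944 9931047 := s.step c53 h54 rfl
  have c55 : Cum L 172032 9353179 179072 9941841 := s.step c54 h55 rfl
  have c56 : Cum L 172032 9353179 179200 9952680 := s.step c55 h56 rfl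
  have c57 : Cum L 172032 9353179 179328 9963555 := s.step c56 h57 rfl
  have c58 : Cum L 172032 9353179 179456 9974438 := s.step c57 h58 rfl
  have c59 : Cum L 172032 9353179 179584 9985318 := s.step c58 h59 rfl
  have c60 : Cum L 172032 9353179 179712 9996121 := s.step c59 h60 rfl
  have c61 : Cum L 172032 9353179 179840 10006862 := s.step c60 h61 rfl
  have c62 : Cum L 172032 9353179 179968 10017706 := s.step c61 h62 rfl
  have c63 : Cum L 172032 9353179 180096 10028458 := s.step c62 h63 rfl
  have c64 : Cum L 172032 9353179 180224 10039351 := s.step c63 h64 rfl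
  exact all_cons c13 (all_cons c26 (all_cons c39 (all_cons c52 (all_cons c64 all_nil))))

end Pool.Agent.AddSq.KD15
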