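import Pool.Agent.AddSq.KBase
import Pool.Agent.AddSq.KList
import Pool.Agent.AddSq.KD16
import Pool.Agent.AddSq.KD17
import Pool.Agent.AddSq.KD18
import Pool.Agent.AddSq.KD19
import Pool.Agent.AddSq.KD20

/-!
# Kernel data: cumulative counts, part 4
-/

namespace Pool.Agent.AddSq.KD16

set_option linter.all false

theorem kfit : kfits 188415 376831 532925 753675 1065865 1507371 2113536 1490944 180224 11776 = true := by decide +kernel

theorem spec {W L : ℕ → Prop} (hG : GRules W L) : KSpec L S 180224 188415 :=
  KSpec.mk' hG KF.cw18 KF.cl18 kfit S_eq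

theorem data {W L : ℕ → Prop} (hG : GRules W L) :
    ∀ p ∈ KL16, Cum L 180224 10039351 p.1 p.2 := by
  have s := spec hG
  have c0 := Cum.start L 180224 10039351
  obtain ⟨h1, h2, h3, h4, h5, h6, h7, h8, h9, h10, h11, h12, h13, h14, h15, h16, h17, h18, h19, h20, h21, h22, h23, h24, h25, h26, h27, h28, h29, h30, h31, h32, h33, h34, h35, h36, h37, h38, h39, h40, h41, h42, h43, h44, h45, h46, h47, h48, h49, h50, h51, h52, h53, h54, h55, h56, h57, h58, h59, h60, h61, h62, h63, h64⟩ := grp1
  have c1 : Cum L 180224 10039351 180352 10050232 := s.step c0 h1 rfl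
  have c2 : Cum L 180224 10039351 180480 10061120 := s.step c1 h2 rfl
  have c3 : Cum L 180224 10039351 180608 10072058 := s.step c2 h3 rfl
  have c4 : Cum L 180224 10039351 180736 10082917 := s.step c3 h4 rfl
  have c5 : Cum L 180224 10039351 180864 10094031 := s.step c4 h5 rfl
  have c6 : Cum L 180224 10039351 180992 10104924 := s.step c5 h6 rfl
  have c7 : Cum L 180224 10039351 181120 10115955 := s.step c6 h7 rfl
  have c8 : Cum L 180224 10039351 181248 10126905 := s.step c7 h8 rfl
  have c9 : Cum L 180224 10039351 181376 10137779 := s.step c8 h9 rfl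
  have c10 : Cum L 180224 10039351 181504 10148737 := s.step c9 h10 rfl
  have c11 : Cum L 180224 10039351 181632 10159822 := s.step c10 h11 rfl
  have c12 : Cum L 180224 10039351 181760 10170698 := s.step c11 h12 rfl
  have c13 : Cum L 180224 10039351 181888 10181866 := s.step c12 h13 rfl
  have c14 : Cum L 180224 10039351 182016 10192652 := s.step c13 h14 rfl
  have c15 : Cum L 180224 10039351 182144 10203701 := s.step c14 h15 rfl
  have c16 : Cum L 180224 10039351 182272 10214615 := s.step c15 h16 rfl
  have c17 : Cum L 180224 10039351 182400 10225564 := s.step c16 h17 rfl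
  have c18 : Cum L 180224 10039351 182528 10236480 := s.step c17 h18 rfl
  have c19 : Cum L 180224 10039351 182656 10247457 := s.step c18 h19 rfl
  have c20 : Cum L 180224 10039351 182784 10258427 := s.step c19 h20 rfl
  have c21 : Cum L 180224 10039351 182912 10269522 := s.step c20 h21 rfl
  have c22 : Cum L 180224 10039351 183040 10280645 := s.step c21 h22 rfl
  have c23 : Cum L 180224 10039351 183168 10291657 := s.step c22 h23 rfl
  have c24 : Cum L 180224 10039351 183296 10302613 := s.step c23 h24 rfl
  have c25 : Cum L 180224 10039351 183424 10313570 := s.step c24 h25 rfl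
  have c26 : Cum L 180224 10039351 183552 10324415 := s.step c25 h26 rfl
  have c27 : Cum L 180224 10039351 183680 10335378 := s.step c26 h27 rfl
  have c28 : Cum L 180224 10039351 183808 10346516 := s.step c27 h28 rfl
  have c29 : Cum L 180224 10039351 183936 10357461 := s.step c28 h29 rfl
  have c30 : Cum L 180224 10039351 184064 10368518 := s.step c29 h30 rfl
  have c31 : Cum L 180224 10039351 184192 10379574 := s.step c30 h31 rfl
  have c32 : Cum L 180224 10039351 184320 10390436 := s.step c31 h32 rfl
  have c33 : Cum L 180224 10039351 184448 10401517 := s.step c32 h33 rfl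
  have c34 : Cum L 180224 10039351 184576 10412555 := s.step c33 h34 rfl
  have c35 : Cum L 180224 10039351 184704 10423674 := s.step c34 h35 rfl
  have c36 : Cum L 180224 10039351 184832 10434522 := s.step c35 h36 rfl
  have c37 : Cum L 180224 10039351 184960 10445577 := s.step c36 h37 rfl
  have c38 : Cum L 180224 10039351 185088 10456453 := s.step c37 h38 rfl
  have c39 : Cum L 180224 10039351 185216 10467424 := s.step c38 h39 rfl
  have c40 : Cum L 180224 10039351 185344 10478309 := s.step c39 h40 rfl
  have c41 : Cum L 180224 10039351 185472 10489279 := s.step c40 h41 rfl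
  have c42 : Cum L 180224 10039351 185600 10500276 := s.step c41 h42 rfl
  have c43 : Cum L 180224 10039351 185728 10511277 := s.step c42 h43 rfl
  have c44 : Cum L 180224 10039351 185856 10521949 := s.step c43 h44 rfl
  have c45 : Cum L 180224 10039351 185984 10532897 := s.step c44 h45 rfl
  have c46 : Cum L 180224 10039351 186112 10544105 := s.step c45 h46 rfl
  have c47 : Cum L 180224 10039351 186240 10555211 := s.step c46 h47 rfl
  have c48 : Cum L 180224 10039351 186368 10566330 := s.step c47 h48 rfl
  have c49 : Cum L 180224 10039351 186496 10577512 := s.step c48 h49 rfl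
  have c50 : Cum L 180224 10039351 186624 10588597 := s.step c49 h50 rfl
  have c51 : Cum L 180224 10039351 186752 10599672 := s.step c50 h51 rfl
  have c52 : Cum L 180224 10039351 186880 10610719 := s.step c51 h52 rfl
  have c53 : Cum L 180224 10039351 187008 10621871 := s.step c52 h53 rfl
  have c54 : Cum L 180224 10039351 187136 10633171 := s.step c53 h54 rfl
  have c55 : Cum L 180224 10039351 187264 10644154 := s.step c54 h55 rfl
  have c56 : Cum L 180224 10039351 187392 10655568 := s.step c55 h56 rfl
  have c57 : Cum L 180224 10039351 187520 10666549 := s.step c56 h57 rfl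
  have c58 : Cum L 180224 10039351 187648 10677722 := s.step c57 h58 rfl
  have c59 : Cum L 180224 10039351 187776 10688737 := s.step c58 h59 rfl
  have c60 : Cum L 180224 10039351 187904 10699846 := s.step c59 h60 rfl
  have c61 : Cum L 180224 10039351 188032 10711141 := s.step c60 h61 rfl
  have c62 : Cum L 180224 10039351 188160 10722097 := s.step c61 h62 rfl
  have c63 : Cum L 180224 10039351 188288 10733243 := s.step c62 h63 rfl
  have c64 : Cum L 180224 10039351 188416 10744296 := s.step c63 h64 rfl
  exact all_cons c14 (all_cons c28 (all_cons c42 (all_cons c56 (all_cons c64 all_nil))))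

end Pool.Agent.AddSq.KD16

namespace Pool.Agent.AddSq.KD17

set_option linter.all false

theorem kfit : kfits 196607 393215 556095 786443 1112207 1572907 2113536 1490944 188416 12288 = true := by decide +kernel

theorem spec {W L : ℕ → Prop} (hG : GRules W L) : KSpec L S 188416 196607 :=
  KSpec.mk' hG KF.cw18 KF.cl18 kfit S_eq

theorem data {W L : ℕ → Prop} (hG : GRules W L) :
    ∀ p ∈ KL17, Cum L 188416 10744296 p.1 p.2 := by
  have s := spec hG
  have c0 := Cum.start L 188416 10744296
  obtain ⟨h1, h2, h3, h4, h5, h6, h7, h8, h9, h10, h11, h12, h13, h14, h15, h16, h17, h18, h19, h20, h21, h22, h23, h24, h25, h26, h27, h28, h29, h30, h31, h32, h33, h34, h35, h36, h37, h38, h39, h40, h41, h42, h43, h44, h45, h46, h47, h48, h49, h50, h51, h52, h53, h54, h55, h56, h57, h58, h59, h60, h61, h62, h63, h64⟩ := grp1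
  have c1 : Cum L 188416 10744296 188544 10755226 := s.step c0 h1 rfl
  have c2 : Cum L 188416 10744296 188672 10766551 := s.step c1 h2 rfl
  have c3 : Cum L 188416 10744296 188800 10777651 := s.step c2 h3 rfl
  have c4 : Cum L 188416 10744296 188928 10788789 := s.step c3 h4 rfl
  have c5 : Cum L 188416 10744296 189056 10799993 := s.step c4 h5 rfl
  have c6 : Cum L 188416 10744296 189184 10811091 := s.step c5 h6 rfl
  have c7 : Cum L 188416 10744296 189312 10822196 := s.step c6 h7 rfl
  have c8 : Cum L 188416 10744296 189440 10833366 := s.step c7 h8 rfl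
  have c9 : Cum L 188416 10744296 189568 10844482 := s.step c8 h9 rfl
  have c10 : Cum L 188416 10744296 189696 10855612 := s.step c9 h10 rfl
  have c11 : Cum L 188416 10744296 189824 10866660 := s.step c10 h11 rfl
  have c12 : Cum L 188416 10744296 189952 10877954 := s.step c11 h12 rfl
  have c13 : Cum L 188416 10744296 190080 10889175 := s.step c12 h13 rfl
  have c14 : Cum L 188416 10744296 190208 10900188 := s.step c13 h14 rfl
  have c15 : Cum L 188416 10744296 190336 10911456 := s.step c14 h15 rfl
  have c16 : Cum L 188416 10744296 190464 10922763 := s.step c15 h16 rfl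
  have c17 : Cum L 188416 10744296 190592 10933999 := s.step c16 h17 rfl
  have c18 : Cum L 188416 10744296 190720 10945107 := s.step c17 h18 rfl
  have c19 : Cum L 188416 10744296 190848 10956227 := s.step c18 h19 rfl
  have c20 : Cum L 188416 10744296 190976 10967486 := s.step c19 h20 rfl
  have c21 : Cum L 188416 10744296 191104 10978525 := s.step c20 h21 rfl
  have c22 : Cum L 188416 10744296 191232 10989452 := s.step c21 h22 rfl
  have c23 : Cum L 188416 10744296 191360 11000524 := s.step c22 h23 rfl
  have c24 : Cum L 188416 10744296 191488 11011693 := s.step c23 h24 rfl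
  have c25 : Cum L 188416 10744296 191616 11022801 := s.step c24 h25 rfl
  have c26 : Cum L 188416 10744296 191744 11034079 := s.step c25 h26 rfl
  have c27 : Cum L 188416 10744296 191872 11045279 := s.step c26 h27 rfl
  have c28 : Cum L 188416 10744296 192000 11056458 := s.step c27 h28 rfl
  have c29 : Cum L 188416 10744296 192128 11067883 := s.step c28 h29 rfl
  have c30 : Cum L 188416 10744296 192256 11079103 := s.step c29 h30 rfl
  have c31 : Cum L 188416 10744296 192384 11090158 := s.step c30 h31 rfl
  have c32 : Cum L 188416 10744296 192512 11101408 := s.step c31 h32 rfl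
  have c33 : Cum L 188416 10744296 192640 11112845 := s.step c32 h33 rfl
  have c34 : Cum L 188416 10744296 192768 11124178 := s.step c33 h34 rfl
  have c35 : Cum L 188416 10744296 192896 11135184 := s.step c34 h35 rfl
  have c36 : Cum L 188416 10744296 193024 11146428 := s.step c35 h36 rfl
  have c37 : Cum L 188416 10744296 193152 11157674 := s.step c36 h37 rfl
  have c38 : Cum L 188416 10744296 193280 11168730 := s.step c37 h38 rfl
  have c39 : Cum L 188416 10744296 193408 11179987 := s.step c38 h39 rfl
  have c40 : Cum L 188416 10744296 193536 11191346 := s.step c39 h40 rfl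
  have c41 : Cum L 188416 10744296 193664 11202642 := s.step c40 h41 rfl
  have c42 : Cum L 188416 10744296 193792 11213980 := s.step c41 h42 rfl
  have c43 : Cum L 188416 10744296 193920 11225465 := s.step c42 h43 rfl
  have c44 : Cum L 188416 10744296 194048 11236763 := s.step c43 h44 rfl
  have c45 : Cum L 188416 10744296 194176 11248091 := s.step c44 h45 rfl
  have c46 : Cum L 188416 10744296 194304 11259497 := s.step c45 h46 rfl
  have c47 : Cum L 188416 10744296 194432 11270549 := s.step c46 h47 rfl
  have c48 : Cum L 188416 10744296 194560 11281869 := s.step c47 h48 rfl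
  have c49 : Cum L 188416 10744296 194688 11293282 := s.step c48 h49 rfl
  have c50 : Cum L 188416 10744296 194816 11304499 := s.step c49 h50 rfl
  have c51 : Cum L 188416 10744296 194944 11315661 := s.step c50 h51 rfl
  have c52 : Cum L 188416 10744296 195072 11327170 := s.step c51 h52 rfl
  have c53 : Cum L 188416 10744296 195200 11338505 := s.step c52 h53 rfl
  have c54 : Cum L 188416 10744296 195328 11349628 := s.step c53 h54 rfl
  have c55 : Cum L 188416 10744296 195456 11360855 := s.step c54 h55 rfl
  have c56 : Cum L 188416 10744296 195584 11372106 := s.step c55 h56 rfl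
  have c57 : Cum L 188416 10744296 195712 11383409 := s.step c56 h57 rfl
  have c58 : Cum L 188416 10744296 195840 11394655 := s.step c57 h58 rfl
  have c59 : Cum L 188416 10744296 195968 11405920 := s.step c58 h59 rfl
  have c60 : Cum L 188416 10744296 196096 11417351 := s.step c59 h60 rfl
  have c61 : Cum L 188416 10744296 196224 11428600 := s.step c60 h61 rfl
  have c62 : Cum L 188416 10744296 196352 11440190 := s.step c61 h62 rfl
  have c63 : Cum L 188416 10744296 196480 11451451 := s.step c62 h63 rfl
  have c64 : Cum L 188416 10744296 196608 11462818 := s.step c63 h64 rfl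
  exact all_cons c14 (all_cons c28 (all_cons c43 (all_cons c58 (all_cons c64 all_nil))))

end Pool.Agent.AddSq.KD17

namespace Pool.Agent.AddSq.KD18

set_option linter.all false

theorem kfit : kfits 204799 409599 579265 819211 1158547 1638443 2113536 1490944 196608 12800 = true := by decide +kernel

theorem spec {W L : ℕ → Prop} (hG : GRules W L) : KSpec L S 196608 204799 :=
  KSpec.mk' hG KF.cw18 KF.cl18 kfit S_eq

theorem data {W L : ℕ → Prop} (hG : GRules W L) :
    ∀ p ∈ KL18, Cum L 196608 11462818 p.1 p.2 := by
  have s := spec hG
  have c0 := Cum.start L 196608 11462818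
  obtain ⟨h1, h2, h3, h4, h5, h6, h7, h8, h9, h10, h11, h12, h13, h14, h15, h16, h17, h18, h19, h20, h21, h22, h23, h24, h25, h26, h27, h28, h29, h30, h31, h32, h33, h34, h35, h36, h37, h38, h39, h40, h41, h42, h43, h44, h45, h46, h47, h48, h49, h50, h51, h52, h53, h54, h55, h56, h57, h58, h59, h60, h61, h62, h63, h64⟩ := grp1
  have c1 : Cum L 196608 11462818 196736 11474210 := s.step c0 h1 rfl
  have c2 : Cum L 196608 11462818 196864 11485764 := s.step c1 h2 rfl
  have c3 : Cum L 196608 11462818 196992 11497167 := s.step c2 h3 rfl
  have c4 : Cum L 196608 11462818 197120 11508530 := s.step c3 h4 rfl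
  have c5 : Cum L 196608 11462818 197248 11519732 := s.step c4 h5 rfl
  have c6 : Cum L 196608 11462818 197376 11530997 := s.step c5 h6 rfl
  have c7 : Cum L 196608 11462818 197504 11542342 := s.step c6 h7 rfl
  have c8 : Cum L 196608 11462818 197632 11553755 := s.step c7 h8 rfl
  have c9 : Cum L 196608 11462818 197760 11565206 := s.step c8 h9 rfl
  have c10 : Cum L 196608 11462818 197888 11576588 := s.step c9 h10 rfl
  have c11 : Cum L 196608 11462818 198016 11587991 := s.step c10 h11 rfl
  have c12 : Cum L 196608 11462818 198144 11599296 := s.step c11 h12 rfl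
  have c13 : Cum L 196608 11462818 198272 11610550 := s.step c12 h13 rfl
  have c14 : Cum L 196608 11462818 198400 11621981 := s.step c13 h14 rfl
  have c15 : Cum L 196608 11462818 198528 11633434 := s.step c14 h15 rfl
  have c16 : Cum L 196608 11462818 198656 11644742 := s.step c15 h16 rfl
  have c17 : Cum L 196608 11462818 198784 11656227 := s.step c16 h17 rfl
  have c18 : Cum L 196608 11462818 198912 11667701 := s.step c17 h18 rfl
  have c19 : Cum L 196608 11462818 199040 11679127 := s.step c18 h19 rfl
  have c20 : Cum L 196608 11462818 199168 11690757 := s.step c19 h20 rfl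
  have c21 : Cum L 196608 11462818 199296 11702064 := s.step c20 h21 rfl
  have c22 : Cum L 196608 11462818 199424 11713298 := s.step c21 h22 rfl
  have c23 : Cum L 196608 11462818 199552 11725013 := s.step c22 h23 rfl
  have c24 : Cum L 196608 11462818 199680 11736487 := s.step c23 h24 rfl
  have c25 : Cum L 196608 11462818 199808 11747976 := s.step c24 h25 rfl
  have c26 : Cum L 196608 11462818 199936 11759387 := s.step c25 h26 rfl
  have c27 : Cum L 196608 11462818 200064 11770708 := s.step c26 h27 rfl
  have c28 : Cum L 196608 11462818 200192 11782270 := s.step c27 h28 rfl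
  have c29 : Cum L 196608 11462818 200320 11793742 := s.step c28 h29 rfl
  have c30 : Cum L 196608 11462818 200448 11805220 := s.step c29 h30 rfl
  have c31 : Cum L 196608 11462818 200576 11816761 := s.step c30 h31 rfl
  have c32 : Cum L 196608 11462818 200704 11828342 := s.step c31 h32 rfl
  have c33 : Cum L 196608 11462818 200832 11839822 := s.step c32 h33 rfl
  have c34 : Cum L 196608 11462818 200960 11851361 := s.step c33 h34 rfl
  have c35 : Cum L 196608 11462818 201088 11862721 := s.step c34 h35 rfl
  have c36 : Cum L 196608 11462818 201216 11874272 := s.step c35 h36 rfl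
  have c37 : Cum L 196608 11462818 201344 11885879 := s.step c36 h37 rfl
  have c38 : Cum L 196608 11462818 201472 11897328 := s.step c37 h38 rfl
  have c39 : Cum L 196608 11462818 201600 11908764 := s.step c38 h39 rfl
  have c40 : Cum L 196608 11462818 201728 11920262 := s.step c39 h40 rfl
  have c41 : Cum L 196608 11462818 201856 11931970 := s.step c40 h41 rfl
  have c42 : Cum L 196608 11462818 201984 11943527 := s.step c41 h42 rfl
  have c43 : Cum L 196608 11462818 202112 11955086 := s.step c42 h43 rfl
  have c44 : Cum L 196608 11462818 202240 11966627 := s.step c43 h44 rfl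
  have c45 : Cum L 196608 11462818 202368 11978185 := s.step c44 h45 rfl
  have c46 : Cum L 196608 11462818 202496 11989900 := s.step c45 h46 rfl
  have c47 : Cum L 196608 11462818 202624 12001493 := s.step c46 h47 rfl
  have c48 : Cum L 196608 11462818 202752 12013229 := s.step c47 h48 rfl
  have c49 : Cum L 196608 11462818 202880 12024762 := s.step c48 h49 rfl
  have c50 : Cum L 196608 11462818 203008 12036495 := s.step c49 h50 rfl
  have c51 : Cum L 196608 11462818 203136 12048062 := s.step c50 h51 rfl
  have c52 : Cum L 196608 11462818 203264 12059705 := s.step c51 h52 rfl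
  have c53 : Cum L 196608 11462818 203392 12071418 := s.step c52 h53 rfl
  have c54 : Cum L 196608 11462818 203520 12082957 := s.step c53 h54 rfl
  have c55 : Cum L 196608 11462818 203648 12094541 := s.step c54 h55 rfl
  have c56 : Cum L 196608 11462818 203776 12106135 := s.step c55 h56 rfl
  have c57 : Cum L 196608 11462818 203904 12117622 := s.step c56 h57 rfl
  have c58 : Cum L 196608 11462818 204032 12129276 := s.step c57 h58 rfl
  have c59 : Cum L 196608 11462818 204160 12140781 := s.step c58 h59 rfl
  have c60 : Cum L 196608 11462818 204288 12152437 := s.step c59 h60 rfl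
  have c61 : Cum L 196608 11462818 204416 12164220 := s.step c60 h61 rfl
  have c62 : Cum L 196608 11462818 204544 12175872 := s.step c61 h62 rfl
  have c63 : Cum L 196608 11462818 204672 12187457 := s.step c62 h63 rfl
  have c64 : Cum L 196608 11462818 204800 12198943 := s.step c63 h64 rfl
  exact all_cons c15 (all_cons c30 (all_cons c45 (all_cons c60 (all_cons c64 all_nil))))

end Pool.Agent.AddSq.KD18

namespace Pool.Agent.AddSq.KD19

set_option linter.all false

theorem kfit : kfits 212991 425983 602437 851981 1204891 1703983 2113536 1490944 204800 13312 = true := by decide +kernel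

theorem spec {W L : ℕ → Prop} (hG : GRules W L) : KSpec L S 204800 212991 :=
  KSpec.mk' hG KF.cw18 KF.cl18 kfit S_eq

theorem data {W L : ℕ → Prop} (hG : GRules W L) :
    ∀ p ∈ KL19, Cum L 204800 12198943 p.1 p.2 := by
  have s := spec hG
  have c0 := Cum.start L 204800 12198943
  obtain ⟨h1, h2, h3, h4, h5, h6, h7, h8, h9, h10, h11, h12, h13, h14, h15, h16, h17, h18, h19, h20, h21, h22, h23, h24, h25, h26, h27, h28, h29, h30, h31, h32, h33, h34, h35, h36, h37, h38, h39, h40, h41, h42, h43, h44, h45, h46, h47, h48, h49, h50, h51, h52, h53, h54, h55, h56, h57, h58, h59, h60, h61, h62, h63, h64⟩ := grp1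
  have c1 : Cum L 204800 12198943 204928 12210643 := s.step c0 h1 rfl
  have c2 : Cum L 204800 12198943 205056 12222278 := s.step c1 h2 rfl
  have c3 : Cum L 204800 12198943 205184 12233749 := s.step c2 h3 rfl
  have c4 : Cum L 204800 12198943 205312 12245467 := s.step c3 h4 rfl
  have c5 : Cum L 204800 12198943 205440 12257025 := s.step c4 h5 rfl
  have c6 : Cum L 204800 12198943 205568 12268755 := s.step c5 h6 rfl
  have c7 : Cum L 204800 12198943 205696 12280247 := s.step c6 h7 rfl
  have c8 : Cum L 204800 12198943 205824 12291791 := s.step c7 h8 rfl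
  have c9 : Cum L 204800 12198943 205952 12303646 := s.step c8 h9 rfl
  have c10 : Cum L 204800 12198943 206080 12315346 := s.step c9 h10 rfl
  have c11 : Cum L 204800 12198943 206208 12326916 := s.step c10 h11 rfl
  have c12 : Cum L 204800 12198943 206336 12338612 := s.step c11 h12 rfl
  have c13 : Cum L 204800 12198943 206464 12350221 := s.step c12 h13 rfl
  have c14 : Cum L 204800 12198943 206592 12361870 := s.step c13 h14 rfl
  have c15 : Cum L 204800 12198943 206720 12373748 := s.step c14 h15 rfl
  have c16 : Cum L 204800 12198943 206848 12385311 := s.step c15 h16 rfl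
  have c17 : Cum L 204800 12198943 206976 12397084 := s.step c16 h17 rfl
  have c18 : Cum L 204800 12198943 207104 12408771 := s.step c17 h18 rfl
  have c19 : Cum L 204800 12198943 207232 12420407 := s.step c18 h19 rfl
  have c20 : Cum L 204800 12198943 207360 12432296 := s.step c19 h20 rfl
  have c21 : Cum L 204800 12198943 207488 12443835 := s.step c20 h21 rfl
  have c22 : Cum L 204800 12198943 207616 12455659 := s.step c21 h22 rfl
  have c23 : Cum L 204800 12198943 207744 12467369 := s.step c22 h23 rfl
  have c24 : Cum L 204800 12198943 207872 12478966 := s.step c23 h24 rfl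
  have c25 : Cum L 204800 12198943 208000 12490922 := s.step c24 h25 rfl
  have c26 : Cum L 204800 12198943 208128 12502690 := s.step c25 h26 rfl
  have c27 : Cum L 204800 12198943 208256 12514549 := s.step c26 h27 rfl
  have c28 : Cum L 204800 12198943 208384 12526213 := s.step c27 h28 rfl
  have c29 : Cum L 204800 12198943 208512 12537990 := s.step c28 h29 rfl
  have c30 : Cum L 204800 12198943 208640 12549627 := s.step c29 h30 rfl
  have c31 : Cum L 204800 12198943 208768 12561335 := s.step c30 h31 rfl
  have c32 : Cum L 204800 12198943 208896 12572838 := s.step c31 h32 rfl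
  have c33 : Cum L 204800 12198943 209024 12584646 := s.step c32 h33 rfl
  have c34 : Cum L 204800 12198943 209152 12596389 := s.step c33 h34 rfl
  have c35 : Cum L 204800 12198943 209280 12608167 := s.step c34 h35 rfl
  have c36 : Cum L 204800 12198943 209408 12619878 := s.step c35 h36 rfl
  have c37 : Cum L 204800 12198943 209536 12631555 := s.step c36 h37 rfl
  have c38 : Cum L 204800 12198943 209664 12643408 := s.step c37 h38 rfl
  have c39 : Cum L 204800 12198943 209792 12655074 := s.step c38 h39 rfl
  have c40 : Cum L 204800 12198943 209920 12666755 := s.step c39 h40 rfl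
  have c41 : Cum L 204800 12198943 210048 12678461 := s.step c40 h41 rfl
  have c42 : Cum L 204800 12198943 210176 12690278 := s.step c41 h42 rfl
  have c43 : Cum L 204800 12198943 210304 12701829 := s.step c42 h43 rfl
  have c44 : Cum L 204800 12198943 210432 12713345 := s.step c43 h44 rfl
  have c45 : Cum L 204800 12198943 210560 12725045 := s.step c44 h45 rfl
  have c46 : Cum L 204800 12198943 210688 12736657 := s.step c45 h46 rfl
  have c47 : Cum L 204800 12198943 210816 12748768 := s.step c46 h47 rfl
  have c48 : Cum L 204800 12198943 210944 12760432 := s.step c47 h48 rfl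
  have c49 : Cum L 204800 12198943 211072 12772283 := s.step c48 h49 rfl
  have c50 : Cum L 204800 12198943 211200 12783803 := s.step c49 h50 rfl
  have c51 : Cum L 204800 12198943 211328 12795403 := s.step c50 h51 rfl
  have c52 : Cum L 204800 12198943 211456 12807192 := s.step c51 h52 rfl
  have c53 : Cum L 204800 12198943 211584 12818982 := s.step c52 h53 rfl
  have c54 : Cum L 204800 12198943 211712 12830706 := s.step c53 h54 rfl
  have c55 : Cum L 204800 12198943 211840 12842732 := s.step c54 h55 rfl
  have c56 : Cum L 204800 12198943 211968 12854452 := s.step c55 h56 rfl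
  have c57 : Cum L 204800 12198943 212096 12866083 := s.step c56 h57 rfl
  have c58 : Cum L 204800 12198943 212224 12877912 := s.step c57 h58 rfl
  have c59 : Cum L 204800 12198943 212352 12889703 := s.step c58 h59 rfl
  have c60 : Cum L 204800 12198943 212480 12901455 := s.step c59 h60 rfl
  have c61 : Cum L 204800 12198943 212608 12913333 := s.step c60 h61 rfl
  have c62 : Cum L 204800 12198943 212736 12924953 := s.step c61 h62 rfl
  have c63 : Cum L 204800 12198943 212864 12936826 := s.step c62 h63 rfl
  have c64 : Cum L 204800 12198943 212992 12948528 := s.step c63 h64 rfl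
  exact all_cons c16 (all_cons c32 (all_cons c48 (all_cons c64 all_nil)))

end Pool.Agent.AddSq.KD19

namespace Pool.Agent.AddSq.KD20

set_option linter.all false

theorem kfit : kfits 221183 442367 625607 884749 1251233 1769521 2113536 1490944 212992 13824 = true := by decide +kernel

theorem spec {W L : ℕ → Prop} (hG : GRules W L) : KSpec L S 212992 221183 :=
  KSpec.mk' hG KF.cw18 KF.cl18 kfit S_eq

theorem data {W L : ℕ → Prop} (hG : GRules W L) :
    ∀ p ∈ KL20, Cum L 212992 12948528 p.1 p.2 := by
  have s := spec hG
  have c0 := Cum.start L 212992 12948528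
  obtain ⟨h1, h2, h3, h4, h5, h6, h7, h8, h9, h10, h11, h12, h13, h14, h15, h16, h17, h18, h19, h20, h21, h22, h23, h24, h25, h26, h27, h28, h29, h30, h31, h32, h33, h34, h35, h36, h37, h38, h39, h40, h41, h42, h43, h44, h45, h46, h47, h48, h49, h50, h51, h52, h53, h54, h55, h56, h57, h58, h59, h60, h61, h62, h63, h64⟩ := grp1
  have c1 : Cum L 212992 12948528 213120 12960412 := s.step c0 h1 rfl
  have c2 : Cum L 212992 12948528 213248 12972158 := s.step c1 h2 rfl
  have c3 : Cum L 212992 12948528 213376 12984035 := s.step c2 h3 rfl
  have c4 : Cum L 212992 12948528 213504 12995779 := s.step c3 h4 rfl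
  have c5 : Cum L 212992 12948528 213632 13007540 := s.step c4 h5 rfl
  have c6 : Cum L 212992 12948528 213760 13019244 := s.step c5 h6 rfl
  have c7 : Cum L 212992 12948528 213888 13031059 := s.step c6 h7 rfl
  have c8 : Cum L 212992 12948528 214016 13042778 := s.step c7 h8 rfl
  have c9 : Cum L 212992 12948528 214144 13054518 := s.step c8 h9 rfl
  have c10 : Cum L 212992 12948528 214272 13066192 := s.step c9 h10 rfl
  have c11 : Cum L 212992 12948528 214400 13077868 := s.step c10 h11 rfl
  have c12 : Cum L 212992 12948528 214528 13089752 := s.step c11 h12 rfl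
  have c13 : Cum L 212992 12948528 214656 13101391 := s.step c12 h13 rfl
  have c14 : Cum L 212992 12948528 214784 13113056 := s.step c13 h14 rfl
  have c15 : Cum L 212992 12948528 214912 13124765 := s.step c14 h15 rfl
  have c16 : Cum L 212992 12948528 215040 13136574 := s.step c15 h16 rfl
  have c17 : Cum L 212992 12948528 215168 13148176 := s.step c16 h17 rfl
  have c18 : Cum L 212992 12948528 215296 13160029 := s.step c17 h18 rfl
  have c19 : Cum L 212992 12948528 215424 13171717 := s.step c18 h19 rfl
  have c20 : Cum L 212992 12948528 215552 13183636 := s.step c19 h20 rfl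
  have c21 : Cum L 212992 12948528 215680 13195600 := s.step c20 h21 rfl
  have c22 : Cum L 212992 12948528 215808 13207385 := s.step c21 h22 rfl
  have c23 : Cum L 212992 12948528 215936 13219048 := s.step c22 h23 rfl
  have c24 : Cum L 212992 12948528 216064 13230584 := s.step c23 h24 rfl
  have c25 : Cum L 212992 12948528 216192 13242379 := s.step c24 h25 rfl
  have c26 : Cum L 212992 12948528 216320 13254370 := s.step c25 h26 rfl
  have c27 : Cum L 212992 12948528 216448 13266082 := s.step c26 h27 rfl
  have c28 : Cum L 212992 12948528 216576 13277922 := s.step c27 h28 rfl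
  have c29 : Cum L 212992 12948528 216704 13289735 := s.step c28 h29 rfl
  have c30 : Cum L 212992 12948528 216832 13301531 := s.step c29 h30 rfl
  have c31 : Cum L 212992 12948528 216960 13313188 := s.step c30 h31 rfl
  have c32 : Cum L 212992 12948528 217088 13324875 := s.step c31 h32 rfl
  have c33 : Cum L 212992 12948528 217216 13336808 := s.step c32 h33 rfl
  have c34 : Cum L 212992 12948528 217344 13348617 := s.step c33 h34 rfl
  have c35 : Cum L 212992 12948528 217472 13360471 := s.step c34 h35 rfl
  have c36 : Cum L 212992 12948528 217600 13372261 := s.step c35 h36 rfl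
  have c37 : Cum L 212992 12948528 217728 13384256 := s.step c36 h37 rfl
  have c38 : Cum L 212992 12948528 217856 13396046 := s.step c37 h38 rfl
  have c39 : Cum L 212992 12948528 217984 13407944 := s.step c38 h39 rfl
  have c40 : Cum L 212992 12948528 218112 13419897 := s.step c39 h40 rfl
  have c41 : Cum L 212992 12948528 218240 13431805 := s.step c40 h41 rfl
  have c42 : Cum L 212992 12948528 218368 13443792 := s.step c41 h42 rfl
  have c43 : Cum L 212992 12948528 218496 13455601 := s.step c42 h43 rfl
  have c44 : Cum L 212992 12948528 218624 13467485 := s.step c43 h44 rfl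
  have c45 : Cum L 212992 12948528 218752 13479387 := s.step c44 h45 rfl
  have c46 : Cum L 212992 12948528 218880 13491288 := s.step c45 h46 rfl
  have c47 : Cum L 212992 12948528 219008 13503334 := s.step c46 h47 rfl
  have c48 : Cum L 212992 12948528 219136 13515194 := s.step c47 h48 rfl
  have c49 : Cum L 212992 12948528 219264 13527095 := s.step c48 h49 rfl
  have c50 : Cum L 212992 12948528 219392 13538967 := s.step c49 h50 rfl
  have c51 : Cum L 212992 12948528 219520 13551000 := s.step c50 h51 rfl
  have c52 : Cum L 212992 12948528 219648 13562763 := s.step c51 h52 rfl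
  have c53 : Cum L 212992 12948528 219776 13574863 := s.step c52 h53 rfl
  have c54 : Cum L 212992 12948528 219904 13586894 := s.step c53 h54 rfl
  have c55 : Cum L 212992 12948528 220032 13598708 := s.step c54 h55 rfl
  have c56 : Cum L 212992 12948528 220160 13610737 := s.step c55 h56 rfl
  have c57 : Cum L 212992 12948528 220288 13622660 := s.step c56 h57 rfl
  have c58 : Cum L 212992 12948528 220416 13634670 := s.step c57 h58 rfl
  have c59 : Cum L 212992 12948528 220544 13646634 := s.step c58 h59 rfl
  have c60 : Cum L 212992 12948528 220672 13658728 := s.step c59 h60 rfl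
  have c61 : Cum L 212992 12948528 220800 13670842 := s.step c60 h61 rfl
  have c62 : Cum L 212992 12948528 220928 13682829 := s.step c61 h62 rfl
  have c63 : Cum L 212992 12948528 221056 13694785 := s.step c62 h63 rfl
  have c64 : Cum L 212992 12948528 221184 13706744 := s.step c63 h64 rfl
  exact all_cons c16 (all_cons c32 (all_cons c48 (all_cons c64 all_nil)))

end Pool.Agent.AddSq.KD20
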