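import Pool.Agent.AddSq.KBase
import Pool.Agent.AddSq.KList
import Pool.Agent.AddSq.KD21
import Pool.Agent.AddSq.KD22
import Pool.Agent.AddSq.KD23
import Pool.Agent.AddSq.KD24
import Pool.Agent.AddSq.KD25

/-!
# Kernel data: cumulative counts, part 5
-/

namespace Pool.Agent.AddSq.KD21

set_option linter.all false

theorem kfit : kfits 229375 458751 648777 917515 1297571 1835053 2113536 1490944 221184 14336 = true := by decide +kernel

theorem spec {W L : ℕ → Prop} (hG : GRules W L) : KSpec L S 221184 229375 :=
  KSpec.mk' hG KF.cw18 KF.cl18 kfit S_eq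

theorem data {W L : ℕ → Prop} (hG : GRules W L) :
    ∀ p ∈ KL21, Cum L 221184 13706744 p.1 p.2 := by
  have s := spec hG
  have c0 := Cum.start L 221184 13706744
  obtain ⟨h1, h2, h3, h4, h5, h6, h7, h8, h9, h10, h11, h12, h13, h14, h15, h16, h17, h18, h19, h20, h21, h22, h23, h24, h25, h26, h27, h28, h29, h30, h31, h32, h33, h34, h35, h36, h37, h38, h39, h40, h41, h42, h43, h44, h45, h46, h47, h48, h49, h50, h51, h52, h53, h54, h55, h56, h57, h58, h59, h60, h61, h62, h63, h64⟩ := grp1
  have c1 : Cum L 221184 13706744 221312 13718814 := s.step c0 h1 rfl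
  have c2 : Cum L 221184 13706744 221440 13730681 := s.step c1 h2 rfl
  have c3 : Cum L 221184 13706744 221568 13742698 := s.step c2 h3 rfl
  have c4 : Cum L 221184 13706744 221696 13754735 := s.step c3 h4 rfl
  have c5 : Cum L 221184 13706744 221824 13766855 := s.step c4 h5 rfl
  have c6 : Cum L 221184 13706744 221952 13778850 := s.step c5 h6 rfl
  have c7 : Cum L 221184 13706744 222080 13790896 := s.step c6 h7 rfl
  have c8 : Cum L 221184 13706744 222208 13802927 := s.step c7 h8 rfl
  have c9 : Cum L 221184 13706744 222336 13814902 := s.step c8 h9 rfl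
  have c10 : Cum L 221184 13706744 222464 13826980 := s.step c9 h10 rfl
  have c11 : Cum L 221184 13706744 222592 13839097 := s.step c10 h11 rfl
  have c12 : Cum L 221184 13706744 222720 13851113 := s.step c11 h12 rfl
  have c13 : Cum L 221184 13706744 222848 13863498 := s.step c12 h13 rfl
  have c14 : Cum L 221184 13706744 222976 13875277 := s.step c13 h14 rfl
  have c15 : Cum L 221184 13706744 223104 13887261 := s.step c14 h15 rfl
  have c16 : Cum L 221184 13706744 223232 13899598 := s.step c15 h16 rfl
  have c17 : Cum L 221184 13706744 223360 13911586 := s.step c16 h17 rfl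
  have c18 : Cum L 221184 13706744 223488 13923736 := s.step c17 h18 rfl
  have c19 : Cum L 221184 13706744 223616 13935687 := s.step c18 h19 rfl
  have c20 : Cum L 221184 13706744 223744 13947830 := s.step c19 h20 rfl
  have c21 : Cum L 221184 13706744 223872 13959946 := s.step c20 h21 rfl
  have c22 : Cum L 221184 13706744 224000 13971932 := s.step c21 h22 rfl
  have c23 : Cum L 221184 13706744 224128 13983704 := s.step c22 h23 rfl
  have c24 : Cum L 221184 13706744 224256 13995813 := s.step c23 h24 rfl
  have c25 : Cum L 221184 13706744 224384 14007773 := s.step c24 h25 rfl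
  have c26 : Cum L 221184 13706744 224512 14019899 := s.step c25 h26 rfl
  have c27 : Cum L 221184 13706744 224640 14031916 := s.step c26 h27 rfl
  have c28 : Cum L 221184 13706744 224768 14044081 := s.step c27 h28 rfl
  have c29 : Cum L 221184 13706744 224896 14056342 := s.step c28 h29 rfl
  have c30 : Cum L 221184 13706744 225024 14068157 := s.step c29 h30 rfl
  have c31 : Cum L 221184 13706744 225152 14080483 := s.step c30 h31 rfl
  have c32 : Cum L 221184 13706744 225280 14092576 := s.step c31 h32 rfl
  have c33 : Cum L 221184 13706744 225408 14104481 := s.step c32 h33 rfl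
  have c34 : Cum L 221184 13706744 225536 14116626 := s.step c33 h34 rfl
  have c35 : Cum L 221184 13706744 225664 14128565 := s.step c34 h35 rfl
  have c36 : Cum L 221184 13706744 225792 14140728 := s.step c35 h36 rfl
  have c37 : Cum L 221184 13706744 225920 14152845 := s.step c36 h37 rfl
  have c38 : Cum L 221184 13706744 226048 14164997 := s.step c37 h38 rfl
  have c39 : Cum L 221184 13706744 226176 14177266 := s.step c38 h39 rfl
  have c40 : Cum L 221184 13706744 226304 14189374 := s.step c39 h40 rfl
  have c41 : Cum L 221184 13706744 226432 14201577 := s.step c40 h41 rfl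
  have c42 : Cum L 221184 13706744 226560 14213694 := s.step c41 h42 rfl
  have c43 : Cum L 221184 13706744 226688 14225879 := s.step c42 h43 rfl
  have c44 : Cum L 221184 13706744 226816 14238105 := s.step c43 h44 rfl
  have c45 : Cum L 221184 13706744 226944 14250283 := s.step c44 h45 rfl
  have c46 : Cum L 221184 13706744 227072 14262270 := s.step c45 h46 rfl
  have c47 : Cum L 221184 13706744 227200 14274412 := s.step c46 h47 rfl
  have c48 : Cum L 221184 13706744 227328 14286623 := s.step c47 h48 rfl
  have c49 : Cum L 221184 13706744 227456 14298886 := s.step c48 h49 rfl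
  have c50 : Cum L 221184 13706744 227584 14311068 := s.step c49 h50 rfl
  have c51 : Cum L 221184 13706744 227712 14323164 := s.step c50 h51 rfl
  have c52 : Cum L 221184 13706744 227840 14335367 := s.step c51 h52 rfl
  have c53 : Cum L 221184 13706744 227968 14347242 := s.step c52 h53 rfl
  have c54 : Cum L 221184 13706744 228096 14359401 := s.step c53 h54 rfl
  have c55 : Cum L 221184 13706744 228224 14371491 := s.step c54 h55 rfl
  have c56 : Cum L 221184 13706744 228352 14383618 := s.step c55 h56 rfl
  have c57 : Cum L 221184 13706744 228480 14395824 := s.step c56 h57 rfl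
  have c58 : Cum L 221184 13706744 228608 14407989 := s.step c57 h58 rfl
  have c59 : Cum L 221184 13706744 228736 14420376 := s.step c58 h59 rfl
  have c60 : Cum L 221184 13706744 228864 14432462 := s.step c59 h60 rfl
  have c61 : Cum L 221184 13706744 228992 14444684 := s.step c60 h61 rfl
  have c62 : Cum L 221184 13706744 229120 14456777 := s.step c61 h62 rfl
  have c63 : Cum L 221184 13706744 229248 14469122 := s.step c62 h63 rfl
  have c64 : Cum L 221184 13706744 229376 14481436 := s.step c63 h64 rfl
  exact all_cons c17 (all_cons c34 (all_cons c51 (all_cons c64 all_nil)))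

end Pool.Agent.AddSq.KD21

namespace Pool.Agent.AddSq.KD22

set_option linter.all false

theorem kfit : kfits 237567 475135 671949 950287 1343917 1900597 2113536 1490944 229376 14848 = true := by decide +kernel

theorem spec {W L : ℕ → Prop} (hG : GRules W L) : KSpec L S 229376 237567 :=
  KSpec.mk' hG KF.cw18 KF.cl18 kfit S_eq

theorem data {W L : ℕ → Prop} (hG : GRules W L) :
    ∀ p ∈ KL22, Cum L 229376 14481436 p.1 p.2 := by
  have s := spec hG
  have c0 := Cum.start L 229376 14481436
  obtain ⟨h1, h2, h3, h4, h5, h6, h7, h8, h9, h10, h11, h12, h13, h14, h15, h16, h17, h18, h19, h20, h21, h22, h23, h24, h25, h26, h27, h28, h29, h30, h31, h32, h33, h34, h35, h36, h37, h38, h39, h40, h41, h42, h43, h44, h45, h46, h47, h48, h49, h50, h51, h52, h53, h54, h55, h56, h57, h58, h59, h60, h61, h62, h63, h64⟩ := grp1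
  have c1 : Cum L 229376 14481436 229504 14493376 := s.step c0 h1 rfl
  have c2 : Cum L 229376 14481436 229632 14505375 := s.step c1 h2 rfl
  have c3 : Cum L 229376 14481436 229760 14517668 := s.step c2 h3 rfl
  have c4 : Cum L 229376 14481436 229888 14529935 := s.step c3 h4 rfl
  have c5 : Cum L 229376 14481436 230016 14542043 := s.step c4 h5 rfl
  have c6 : Cum L 229376 14481436 230144 14554111 := s.step c5 h6 rfl
  have c7 : Cum L 229376 14481436 230272 14566071 := s.step c6 h7 rfl
  have c8 : Cum L 229376 14481436 230400 14578227 := s.step c7 h8 rfl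
  have c9 : Cum L 229376 14481436 230528 14590497 := s.step c8 h9 rfl
  have c10 : Cum L 229376 14481436 230656 14602927 := s.step c9 h10 rfl
  have c11 : Cum L 229376 14481436 230784 14615047 := s.step c10 h11 rfl
  have c12 : Cum L 229376 14481436 230912 14627091 := s.step c11 h12 rfl
  have c13 : Cum L 229376 14481436 231040 14639408 := s.step c12 h13 rfl
  have c14 : Cum L 229376 14481436 231168 14651629 := s.step c13 h14 rfl
  have c15 : Cum L 229376 14481436 231296 14663883 := s.step c14 h15 rfl
  have c16 : Cum L 229376 14481436 231424 14676053 := s.step c15 h16 rfl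
  have c17 : Cum L 229376 14481436 231552 14688275 := s.step c16 h17 rfl
  have c18 : Cum L 229376 14481436 231680 14700469 := s.step c17 h18 rfl
  have c19 : Cum L 229376 14481436 231808 14712636 := s.step c18 h19 rfl
  have c20 : Cum L 229376 14481436 231936 14724884 := s.step c19 h20 rfl
  have c21 : Cum L 229376 14481436 232064 14737177 := s.step c20 h21 rfl
  have c22 : Cum L 229376 14481436 232192 14749544 := s.step c21 h22 rfl
  have c23 : Cum L 229376 14481436 232320 14761701 := s.step c22 h23 rfl
  have c24 : Cum L 229376 14481436 232448 14774165 := s.step c23 h24 rfl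
  have c25 : Cum L 229376 14481436 232576 14786327 := s.step c24 h25 rfl
  have c26 : Cum L 229376 14481436 232704 14798418 := s.step c25 h26 rfl
  have c27 : Cum L 229376 14481436 232832 14810685 := s.step c26 h27 rfl
  have c28 : Cum L 229376 14481436 232960 14823034 := s.step c27 h28 rfl
  have c29 : Cum L 229376 14481436 233088 14835619 := s.step c28 h29 rfl
  have c30 : Cum L 229376 14481436 233216 14847922 := s.step c29 h30 rfl
  have c31 : Cum L 229376 14481436 233344 14860247 := s.step c30 h31 rfl
  have c32 : Cum L 229376 14481436 233472 14872591 := s.step c31 h32 rfl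
  have c33 : Cum L 229376 14481436 233600 14884894 := s.step c32 h33 rfl
  have c34 : Cum L 229376 14481436 233728 14897396 := s.step c33 h34 rfl
  have c35 : Cum L 229376 14481436 233856 14909579 := s.step c34 h35 rfl
  have c36 : Cum L 229376 14481436 233984 14921901 := s.step c35 h36 rfl
  have c37 : Cum L 229376 14481436 234112 14934265 := s.step c36 h37 rfl
  have c38 : Cum L 229376 14481436 234240 14946535 := s.step c37 h38 rfl
  have c39 : Cum L 229376 14481436 234368 14958890 := s.step c38 h39 rfl
  have c40 : Cum L 229376 14481436 234496 14971223 := s.step c39 h40 rfl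
  have c41 : Cum L 229376 14481436 234624 14983683 := s.step c40 h41 rfl
  have c42 : Cum L 229376 14481436 234752 14995809 := s.step c41 h42 rfl
  have c43 : Cum L 229376 14481436 234880 15008246 := s.step c42 h43 rfl
  have c44 : Cum L 229376 14481436 235008 15020625 := s.step c43 h44 rfl
  have c45 : Cum L 229376 14481436 235136 15033055 := s.step c44 h45 rfl
  have c46 : Cum L 229376 14481436 235264 15045304 := s.step c45 h46 rfl
  have c47 : Cum L 229376 14481436 235392 15057548 := s.step c46 h47 rfl
  have c48 : Cum L 229376 14481436 235520 15070083 := s.step c47 h48 rfl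
  have c49 : Cum L 229376 14481436 235648 15082663 := s.step c48 h49 rfl
  have c50 : Cum L 229376 14481436 235776 15095028 := s.step c49 h50 rfl
  have c51 : Cum L 229376 14481436 235904 15107473 := s.step c50 h51 rfl
  have c52 : Cum L 229376 14481436 236032 15119902 := s.step c51 h52 rfl
  have c53 : Cum L 229376 14481436 236160 15132060 := s.step c52 h53 rfl
  have c54 : Cum L 229376 14481436 236288 15144522 := s.step c53 h54 rfl
  have c55 : Cum L 229376 14481436 236416 15156839 := s.step c54 h55 rfl
  have c56 : Cum L 229376 14481436 236544 15169169 := s.step c55 h56 rfl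
  have c57 : Cum L 229376 14481436 236672 15181439 := s.step c56 h57 rfl
  have c58 : Cum L 229376 14481436 236800 15193531 := s.step c57 h58 rfl
  have c59 : Cum L 229376 14481436 236928 15205786 := s.step c58 h59 rfl
  have c60 : Cum L 229376 14481436 237056 15218387 := s.step c59 h60 rfl
  have c61 : Cum L 229376 14481436 237184 15230765 := s.step c60 h61 rfl
  have c62 : Cum L 229376 14481436 237312 15243263 := s.step c61 h62 rfl
  have c63 : Cum L 229376 14481436 237440 15255431 := s.step c62 h63 rfl
  have c64 : Cum L 229376 14481436 237568 15267696 := s.step c63 h64 rfl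
  exact all_cons c17 (all_cons c35 (all_cons c53 (all_cons c64 all_nil)))

end Pool.Agent.AddSq.KD22

namespace Pool.Agent.AddSq.KD23

set_option linter.all false

theorem kfit : kfits 245759 491519 695119 983053 1390255 1966129 2113536 1490944 237568 15360 = true := by decide +kernel

theorem spec {W L : ℕ → Prop} (hG : GRules W L) : KSpec L S 237568 245759 :=
  KSpec.mk' hG KF.cw18 KF.cl18 kfit S_eq

theorem data {W L : ℕ → Prop} (hG : GRules W L) :
    ∀ p ∈ KL23, Cum L 237568 15267696 p.1 p.2 := by
  have s := spec hG
  have c0 := Cum.start L 237568 15267696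
  obtain ⟨h1, h2, h3, h4, h5, h6, h7, h8, h9, h10, h11, h12, h13, h14, h15, h16, h17, h18, h19, h20, h21, h22, h23, h24, h25, h26, h27, h28, h29, h30, h31, h32, h33, h34, h35, h36, h37, h38, h39, h40, h41, h42, h43, h44, h45, h46, h47, h48, h49, h50, h51, h52, h53, h54, h55, h56, h57, h58, h59, h60, h61, h62, h63, h64⟩ := grp1
  have c1 : Cum L 237568 15267696 237696 15280142 := s.step c0 h1 rfl
  have c2 : Cum L 237568 15267696 237824 15292633 := s.step c1 h2 rfl
  have c3 : Cum L 237568 15267696 237952 15305087 := s.step c2 h3 rfl
  have c4 : Cum L 237568 15267696 238080 15317302 := s.step c3 h4 rfl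
  have c5 : Cum L 237568 15267696 238208 15329913 := s.step c4 h5 rfl
  have c6 : Cum L 237568 15267696 238336 15342305 := s.step c5 h6 rfl
  have c7 : Cum L 237568 15267696 238464 15354812 := s.step c6 h7 rfl
  have c8 : Cum L 237568 15267696 238592 15367218 := s.step c7 h8 rfl
  have c9 : Cum L 237568 15267696 238720 15379586 := s.step c8 h9 rfl
  have c10 : Cum L 237568 15267696 238848 15392101 := s.step c9 h10 rfl
  have c11 : Cum L 237568 15267696 238976 15404648 := s.step c10 h11 rfl
  have c12 : Cum L 237568 15267696 239104 15416902 := s.step c11 h12 rfl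
  have c13 : Cum L 237568 15267696 239232 15429502 := s.step c12 h13 rfl
  have c14 : Cum L 237568 15267696 239360 15441811 := s.step c13 h14 rfl
  have c15 : Cum L 237568 15267696 239488 15454128 := s.step c14 h15 rfl
  have c16 : Cum L 237568 15267696 239616 15466684 := s.step c15 h16 rfl
  have c17 : Cum L 237568 15267696 239744 15479001 := s.step c16 h17 rfl
  have c18 : Cum L 237568 15267696 239872 15491540 := s.step c17 h18 rfl
  have c19 : Cum L 237568 15267696 240000 15504212 := s.step c18 h19 rfl
  have c20 : Cum L 237568 15267696 240128 15516777 := s.step c19 h20 rfl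
  have c21 : Cum L 237568 15267696 240256 15529284 := s.step c20 h21 rfl
  have c22 : Cum L 237568 15267696 240384 15541545 := s.step c21 h22 rfl
  have c23 : Cum L 237568 15267696 240512 15554016 := s.step c22 h23 rfl
  have c24 : Cum L 237568 15267696 240640 15566517 := s.step c23 h24 rfl
  have c25 : Cum L 237568 15267696 240768 15578996 := s.step c24 h25 rfl
  have c26 : Cum L 237568 15267696 240896 15591425 := s.step c25 h26 rfl
  have c27 : Cum L 237568 15267696 241024 15603931 := s.step c26 h27 rfl
  have c28 : Cum L 237568 15267696 241152 15616435 := s.step c27 h28 rfl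
  have c29 : Cum L 237568 15267696 241280 15628890 := s.step c28 h29 rfl
  have c30 : Cum L 237568 15267696 241408 15641213 := s.step c29 h30 rfl
  have c31 : Cum L 237568 15267696 241536 15653947 := s.step c30 h31 rfl
  have c32 : Cum L 237568 15267696 241664 15666302 := s.step c31 h32 rfl
  have c33 : Cum L 237568 15267696 241792 15678704 := s.step c32 h33 rfl
  have c34 : Cum L 237568 15267696 241920 15691098 := s.step c33 h34 rfl
  have c35 : Cum L 237568 15267696 242048 15703610 := s.step c34 h35 rfl
  have c36 : Cum L 237568 15267696 242176 15716002 := s.step c35 h36 rfl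
  have c37 : Cum L 237568 15267696 242304 15728464 := s.step c36 h37 rfl
  have c38 : Cum L 237568 15267696 242432 15741356 := s.step c37 h38 rfl
  have c39 : Cum L 237568 15267696 242560 15753902 := s.step c38 h39 rfl
  have c40 : Cum L 237568 15267696 242688 15766535 := s.step c39 h40 rfl
  have c41 : Cum L 237568 15267696 242816 15779223 := s.step c40 h41 rfl
  have c42 : Cum L 237568 15267696 242944 15791872 := s.step c41 h42 rfl
  have c43 : Cum L 237568 15267696 243072 15804237 := s.step c42 h43 rfl
  have c44 : Cum L 237568 15267696 243200 15816781 := s.step c43 h44 rfl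
  have c45 : Cum L 237568 15267696 243328 15829219 := s.step c44 h45 rfl
  have c46 : Cum L 237568 15267696 243456 15841882 := s.step c45 h46 rfl
  have c47 : Cum L 237568 15267696 243584 15854367 := s.step c46 h47 rfl
  have c48 : Cum L 237568 15267696 243712 15866829 := s.step c47 h48 rfl
  have c49 : Cum L 237568 15267696 243840 15879388 := s.step c48 h49 rfl
  have c50 : Cum L 237568 15267696 243968 15891763 := s.step c49 h50 rfl
  have c51 : Cum L 237568 15267696 244096 15904340 := s.step c50 h51 rfl
  have c52 : Cum L 237568 15267696 244224 15917046 := s.step c51 h52 rfl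
  have c53 : Cum L 237568 15267696 244352 15929748 := s.step c52 h53 rfl
  have c54 : Cum L 237568 15267696 244480 15942566 := s.step c53 h54 rfl
  have c55 : Cum L 237568 15267696 244608 15955025 := s.step c54 h55 rfl
  have c56 : Cum L 237568 15267696 244736 15967428 := s.step c55 h56 rfl
  have c57 : Cum L 237568 15267696 244864 15979969 := s.step c56 h57 rfl
  have c58 : Cum L 237568 15267696 244992 15992718 := s.step c57 h58 rfl
  have c59 : Cum L 237568 15267696 245120 16005515 := s.step c58 h59 rfl
  have c60 : Cum L 237568 15267696 245248 16018231 := s.step c59 h60 rfl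
  have c61 : Cum L 237568 15267696 245376 16030714 := s.step c60 h61 rfl
  have c62 : Cum L 237568 15267696 245504 16043295 := s.step c61 h62 rfl
  have c63 : Cum L 237568 15267696 245632 16055621 := s.step c62 h63 rfl
  have c64 : Cum L 237568 15267696 245760 16068171 := s.step c63 h64 rfl
  exact all_cons c18 (all_cons c36 (all_cons c54 (all_cons c64 all_nil)))

end Pool.Agent.AddSq.KD23

namespace Pool.Agent.AddSq.KD24

set_option linter.all false

theorem kfit : kfits 253951 507903 718289 1015821 1436597 2031667 2113536 1490944 245760 15872 = true := by decide +kernel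

theorem spec {W L : ℕ → Prop} (hG : GRules W L) : KSpec L S 245760 253951 :=
  KSpec.mk' hG KF.cw18 KF.cl18 kfit S_eq

theorem data {W L : ℕ → Prop} (hG : GRules W L) :
    ∀ p ∈ KL24, Cum L 245760 16068171 p.1 p.2 := by
  have s := spec hG
  have c0 := Cum.start L 245760 16068171
  obtain ⟨h1, h2, h3, h4, h5, h6, h7, h8, h9, h10, h11, h12, h13, h14, h15, h16, h17, h18, h19, h20, h21, h22, h23, h24, h25, h26, h27, h28, h29, h30, h31, h32, h33, h34, h35, h36, h37, h38, h39, h40, h41, h42, h43, h44, h45, h46, h47, h48, h49, h50, h51, h52, h53, h54, h55, h56, h57, h58, h59, h60, h61, h62, h63, h64⟩ := grp1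
  have c1 : Cum L 245760 16068171 245888 16080622 := s.step c0 h1 rfl
  have c2 : Cum L 245760 16068171 246016 16093166 := s.step c1 h2 rfl
  have c3 : Cum L 245760 16068171 246144 16105819 := s.step c2 h3 rfl
  have c4 : Cum L 245760 16068171 246272 16118492 := s.step c3 h4 rfl
  have c5 : Cum L 245760 16068171 246400 16131023 := s.step c4 h5 rfl
  have c6 : Cum L 245760 16068171 246528 16143557 := s.step c5 h6 rfl
  have c7 : Cum L 245760 16068171 246656 16156149 := s.step c6 h7 rfl
  have c8 : Cum L 245760 16068171 246784 16169060 := s.step c7 h8 rfl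
  have c9 : Cum L 245760 16068171 246912 16181676 := s.step c8 h9 rfl
  have c10 : Cum L 245760 16068171 247040 16194205 := s.step c9 h10 rfl
  have c11 : Cum L 245760 16068171 247168 16206681 := s.step c10 h11 rfl
  have c12 : Cum L 245760 16068171 247296 16219400 := s.step c11 h12 rfl
  have c13 : Cum L 245760 16068171 247424 16232125 := s.step c12 h13 rfl
  have c14 : Cum L 245760 16068171 247552 16244620 := s.step c13 h14 rfl
  have c15 : Cum L 245760 16068171 247680 16257451 := s.step c14 h15 rfl
  have c16 : Cum L 245760 16068171 247808 16269977 := s.step c15 h16 rfl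
  have c17 : Cum L 245760 16068171 247936 16282705 := s.step c16 h17 rfl
  have c18 : Cum L 245760 16068171 248064 16295277 := s.step c17 h18 rfl
  have c19 : Cum L 245760 16068171 248192 16307916 := s.step c18 h19 rfl
  have c20 : Cum L 245760 16068171 248320 16320577 := s.step c19 h20 rfl
  have c21 : Cum L 245760 16068171 248448 16333264 := s.step c20 h21 rfl
  have c22 : Cum L 245760 16068171 248576 16346004 := s.step c21 h22 rfl
  have c23 : Cum L 245760 16068171 248704 16358505 := s.step c22 h23 rfl
  have c24 : Cum L 245760 16068171 248832 16370902 := s.step c23 h24 rfl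
  have c25 : Cum L 245760 16068171 248960 16383509 := s.step c24 h25 rfl
  have c26 : Cum L 245760 16068171 249088 16395871 := s.step c25 h26 rfl
  have c27 : Cum L 245760 16068171 249216 16408544 := s.step c26 h27 rfl
  have c28 : Cum L 245760 16068171 249344 16421257 := s.step c27 h28 rfl
  have c29 : Cum L 245760 16068171 249472 16433909 := s.step c28 h29 rfl
  have c30 : Cum L 245760 16068171 249600 16446665 := s.step c29 h30 rfl
  have c31 : Cum L 245760 16068171 249728 16459316 := s.step c30 h31 rfl
  have c32 : Cum L 245760 16068171 249856 16471932 := s.step c31 h32 rfl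
  have c33 : Cum L 245760 16068171 249984 16484740 := s.step c32 h33 rfl
  have c34 : Cum L 245760 16068171 250112 16497275 := s.step c33 h34 rfl
  have c35 : Cum L 245760 16068171 250240 16510131 := s.step c34 h35 rfl
  have c36 : Cum L 245760 16068171 250368 16522745 := s.step c35 h36 rfl
  have c37 : Cum L 245760 16068171 250496 16535436 := s.step c36 h37 rfl
  have c38 : Cum L 245760 16068171 250624 16548180 := s.step c37 h38 rfl
  have c39 : Cum L 245760 16068171 250752 16560909 := s.step c38 h39 rfl
  have c40 : Cum L 245760 16068171 250880 16573469 := s.step c39 h40 rfl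
  have c41 : Cum L 245760 16068171 251008 16586330 := s.step c40 h41 rfl
  have c42 : Cum L 245760 16068171 251136 16599097 := s.step c41 h42 rfl
  have c43 : Cum L 245760 16068171 251264 16611697 := s.step c42 h43 rfl
  have c44 : Cum L 245760 16068171 251392 16624487 := s.step c43 h44 rfl
  have c45 : Cum L 245760 16068171 251520 16637258 := s.step c44 h45 rfl
  have c46 : Cum L 245760 16068171 251648 16649942 := s.step c45 h46 rfl
  have c47 : Cum L 245760 16068171 251776 16662848 := s.step c46 h47 rfl
  have c48 : Cum L 245760 16068171 251904 16675733 := s.step c47 h48 rfl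
  have c49 : Cum L 245760 16068171 252032 16688527 := s.step c48 h49 rfl
  have c50 : Cum L 245760 16068171 252160 16701225 := s.step c49 h50 rfl
  have c51 : Cum L 245760 16068171 252288 16714151 := s.step c50 h51 rfl
  have c52 : Cum L 245760 16068171 252416 16726704 := s.step c51 h52 rfl
  have c53 : Cum L 245760 16068171 252544 16739776 := s.step c52 h53 rfl
  have c54 : Cum L 245760 16068171 252672 16752489 := s.step c53 h54 rfl
  have c55 : Cum L 245760 16068171 252800 16765164 := s.step c54 h55 rfl
  have c56 : Cum L 245760 16068171 252928 16777990 := s.step c55 h56 rfl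
  have c57 : Cum L 245760 16068171 253056 16790736 := s.step c56 h57 rfl
  have c58 : Cum L 245760 16068171 253184 16803706 := s.step c57 h58 rfl
  have c59 : Cum L 245760 16068171 253312 16816597 := s.step c58 h59 rfl
  have c60 : Cum L 245760 16068171 253440 16829336 := s.step c59 h60 rfl
  have c61 : Cum L 245760 16068171 253568 16842092 := s.step c60 h61 rfl
  have c62 : Cum L 245760 16068171 253696 16854698 := s.step c61 h62 rfl
  have c63 : Cum L 245760 16068171 253824 16867595 := s.step c62 h63 rfl
  have c64 : Cum L 245760 16068171 253952 16880450 := s.step c63 h64 rfl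
  exact all_cons c19 (all_cons c38 (all_cons c57 (all_cons c64 all_nil)))

end Pool.Agent.AddSq.KD24

namespace Pool.Agent.AddSq.KD25

set_option linter.all false

theorem kfit : kfits 262143 524287 741459 1048589 1482939 2097205 2113536 1490944 253952 16384 = true := by decide +kernel

theorem spec {W L : ℕ → Prop} (hG : GRules W L) : KSpec L S 253952 262143 :=
  KSpec.mk' hG KF.cw18 KF.cl18 kfit S_eq

theorem data {W L : ℕ → Prop} (hG : GRules W L) :
    ∀ p ∈ KL25, Cum L 253952 16880450 p.1 p.2 := by
  have s := spec hG
  have c0 := Cum.start L 253952 16880450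
  obtain ⟨h1, h2, h3, h4, h5, h6, h7, h8, h9, h10, h11, h12, h13, h14, h15, h16, h17, h18, h19, h20, h21, h22, h23, h24, h25, h26, h27, h28, h29, h30, h31, h32, h33, h34, h35, h36, h37, h38, h39, h40, h41, h42, h43, h44, h45, h46, h47, h48, h49, h50, h51, h52, h53, h54, h55, h56, h57, h58, h59, h60, h61, h62, h63, h64⟩ := grp1
  have c1 : Cum L 253952 16880450 254080 16893268 := s.step c0 h1 rfl
  have c2 : Cum L 253952 16880450 254208 16905893 := s.step c1 h2 rfl
  have c3 : Cum L 253952 16880450 254336 16918732 := s.step c2 h3 rfl
  have c4 : Cum L 253952 16880450 254464 16931759 := s.step c3 h4 rfl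
  have c5 : Cum L 253952 16880450 254592 16944560 := s.step c4 h5 rfl
  have c6 : Cum L 253952 16880450 254720 16957384 := s.step c5 h6 rfl
  have c7 : Cum L 253952 16880450 254848 16970095 := s.step c6 h7 rfl
  have c8 : Cum L 253952 16880450 254976 16983055 := s.step c7 h8 rfl
  have c9 : Cum L 253952 16880450 255104 16995988 := s.step c8 h9 rfl
  have c10 : Cum L 253952 16880450 255232 17008845 := s.step c9 h10 rfl
  have c11 : Cum L 253952 16880450 255360 17021614 := s.step c10 h11 rfl
  have c12 : Cum L 253952 16880450 255488 17034402 := s.step c11 h12 rfl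
  have c13 : Cum L 253952 16880450 255616 17047312 := s.step c12 h13 rfl
  have c14 : Cum L 253952 16880450 255744 17060198 := s.step c13 h14 rfl
  have c15 : Cum L 253952 16880450 255872 17073316 := s.step c14 h15 rfl
  have c16 : Cum L 253952 16880450 256000 17086155 := s.step c15 h16 rfl
  have c17 : Cum L 253952 16880450 256128 17098950 := s.step c16 h17 rfl
  have c18 : Cum L 253952 16880450 256256 17111899 := s.step c17 h18 rfl
  have c19 : Cum L 253952 16880450 256384 17124889 := s.step c18 h19 rfl
  have c20 : Cum L 253952 16880450 256512 17137633 := s.step c19 h20 rfl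
  have c21 : Cum L 253952 16880450 256640 17150381 := s.step c20 h21 rfl
  have c22 : Cum L 253952 16880450 256768 17163191 := s.step c21 h22 rfl
  have c23 : Cum L 253952 16880450 256896 17176130 := s.step c22 h23 rfl
  have c24 : Cum L 253952 16880450 257024 17189008 := s.step c23 h24 rfl
  have c25 : Cum L 253952 16880450 257152 17202015 := s.step c24 h25 rfl
  have c26 : Cum L 253952 16880450 257280 17214805 := s.step c25 h26 rfl
  have c27 : Cum L 253952 16880450 257408 17227744 := s.step c26 h27 rfl
  have c28 : Cum L 253952 16880450 257536 17240786 := s.step c27 h28 rfl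
  have c29 : Cum L 253952 16880450 257664 17253489 := s.step c28 h29 rfl
  have c30 : Cum L 253952 16880450 257792 17266276 := s.step c29 h30 rfl
  have c31 : Cum L 253952 16880450 257920 17279270 := s.step c30 h31 rfl
  have c32 : Cum L 253952 16880450 258048 17292293 := s.step c31 h32 rfl
  have c33 : Cum L 253952 16880450 258176 17305178 := s.step c32 h33 rfl
  have c34 : Cum L 253952 16880450 258304 17318104 := s.step c33 h34 rfl
  have c35 : Cum L 253952 16880450 258432 17330925 := s.step c34 h35 rfl
  have c36 : Cum L 253952 16880450 258560 17343808 := s.step c35 h36 rfl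
  have c37 : Cum L 253952 16880450 258688 17356794 := s.step c36 h37 rfl
  have c38 : Cum L 253952 16880450 258816 17369731 := s.step c37 h38 rfl
  have c39 : Cum L 253952 16880450 258944 17382642 := s.step c38 h39 rfl
  have c40 : Cum L 253952 16880450 259072 17395341 := s.step c39 h40 rfl
  have c41 : Cum L 253952 16880450 259200 17408353 := s.step c40 h41 rfl
  have c42 : Cum L 253952 16880450 259328 17421170 := s.step c41 h42 rfl
  have c43 : Cum L 253952 16880450 259456 17434266 := s.step c42 h43 rfl
  have c44 : Cum L 253952 16880450 259584 17447179 := s.step c43 h44 rfl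
  have c45 : Cum L 253952 16880450 259712 17460367 := s.step c44 h45 rfl
  have c46 : Cum L 253952 16880450 259840 17473401 := s.step c45 h46 rfl
  have c47 : Cum L 253952 16880450 259968 17486195 := s.step c46 h47 rfl
  have c48 : Cum L 253952 16880450 260096 17499262 := s.step c47 h48 rfl
  have c49 : Cum L 253952 16880450 260224 17512174 := s.step c48 h49 rfl
  have c50 : Cum L 253952 16880450 260352 17525091 := s.step c49 h50 rfl
  have c51 : Cum L 253952 16880450 260480 17538044 := s.step c50 h51 rfl
  have c52 : Cum L 253952 16880450 260608 17550902 := s.step c51 h52 rfl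
  have c53 : Cum L 253952 16880450 260736 17564016 := s.step c52 h53 rfl
  have c54 : Cum L 253952 16880450 260864 17576915 := s.step c53 h54 rfl
  have c55 : Cum L 253952 16880450 260992 17590064 := s.step c54 h55 rfl
  have c56 : Cum L 253952 16880450 261120 17603097 := s.step c55 h56 rfl
  have c57 : Cum L 253952 16880450 261248 17616184 := s.step c56 h57 rfl
  have c58 : Cum L 253952 16880450 261376 17629277 := s.step c57 h58 rfl
  have c59 : Cum L 253952 16880450 261504 17642320 := s.step c58 h59 rfl
  have c60 : Cum L 253952 16880450 261632 17655350 := s.step c59 h60 rfl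
  have c61 : Cum L 253952 16880450 261760 17668457 := s.step c60 h61 rfl
  have c62 : Cum L 253952 16880450 261888 17681182 := s.step c61 h62 rfl
  have c63 : Cum L 253952 16880450 262016 17694321 := s.step c62 h63 rfl
  have c64 : Cum L 253952 16880450 262144 17707298 := s.step c63 h64 rfl
  exact all_cons c19 (all_cons c39 (all_cons c59 (all_cons c64 all_nil)))

end Pool.Agent.AddSq.KD25
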