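import Pool.Agent.AddSq.KW1
import Pool.Agent.AddSq.KW2
import Pool.Agent.AddSq.KW3
import Pool.Agent.AddSq.KW4
import Pool.Agent.AddSq.KW5

/-!
# Kernel data: the counts of the lost positions

`kernel_data`: for all `(R, v)` in the list `L0`, the set `L` has at most `v` elements in
`[0, R² - 1]`, for every pair `W`, `L` with `GRules W L`.
-/

namespace Pool.Agent.AddSq

theorem table_ok :
    List.all LT0_0 (KF.entOk 151250) = true ∧
    List.all LT0_1 (KF.entOk 151250) = true ∧
    List.all LT0_2 (KF.entOk 151250) = true ∧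
    List.all LT0_3 (KF.entOk 151250) = true ∧
    List.all LT0_4 (KF.entOk 151250) = true ∧
    List.all LT0_5 (KF.entOk 151250) = true ∧
    List.all LT0_6 (KF.entOk 151250) = true ∧
    List.all LT0_7 (KF.entOk 151250) = true := by
  refine ⟨?_, ?_, ?_, ?_, ?_, ?_, ?_, ?_⟩ <;> decide +kernel

theorem table_ent {W L : ℕ → Prop} (hG : GRules W L) {l : List (ℕ × ℕ)}
    (h : List.all l (KF.entOk 151250) = true) : ∀ p ∈ l, KEnt L p := by
  intro p hp
  exact ent_of_table hG (by norm_num) (by norm_num) (List.all_eq_true.mp h p hp)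

theorem mod_ent {L : ℕ → Prop} {A CA : ℕ} {D : List (ℕ × ℕ)}
    (h : ∀ p ∈ D, Cum L A CA p.1 p.2) (hA : KEnt L (A, CA)) : ∀ p ∈ D, KEnt L p :=
  fun p hp => (h p hp).ent hA

/-- **Kernel data.** -/
theorem kernel_ent {W L : ℕ → Prop} (hG : GRules W L) : ∀ p ∈ L0, KEnt L p := by
  obtain ⟨t0, t1, t2, t3, t4, t5, t6, t7⟩ := table_ok
  have a0 : ∀ p ∈ LT0_0, KEnt L p := table_ent hG t0
  have a1 : ∀ p ∈ LT0_1, KEnt L p := table_ent hG t1
  have a2 : ∀ p ∈ LT0_2, KEnt L p := table_ent hG t2
  have a3 : ∀ p ∈ LT0_3, KEnt L p := table_ent hG t3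
  have a4 : ∀ p ∈ LT0_4, KEnt L p := table_ent hG t4
  have a5 : ∀ p ∈ LT0_5, KEnt L p := table_ent hG t5
  have a6 : ∀ p ∈ LT0_6, KEnt L p := table_ent hG t6
  have a7 : ∀ p ∈ LT0_7, KEnt L p := table_ent hG t7
  have e1 : KEnt L (2200, 12451) := a7 _ (by decide)
  have b1 : ∀ p ∈ KL01, KEnt L p := mod_ent (KD01.data hG) e1
  have e2 : KEnt L (8192, 104085) := b1 _ (by decide)
  have b2 : ∀ p ∈ KL02, KEnt L p := mod_ent (KD02.data hG) e2
  have e3 : KEnt L (16384, 288432) := b2 _ (by decide)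
  have b3 : ∀ p ∈ KL03, KEnt L p := mod_ent (KD03.data hG) e3
  have e4 : KEnt L (32768, 790550) := b3 _ (by decide)
  have b4 : ∀ p ∈ KL04, KEnt L p := mod_ent (KD04.data hG) e4
  have e5 : KEnt L (49152, 1435125) := b4 _ (by decide)
  have b5 : ∀ p ∈ KL05, KEnt L p := mod_ent (KD05.data hG) e5
  have e6 : KEnt L (65536, 2198467) := b5 _ (by decide)
  have b6 : ∀ p ∈ KL06, KEnt L p := mod_ent (KD06.data hG) e6
  have e7 : KEnt L (81920, 3076155) := b6 _ (by decide)
  have b7 : ∀ p ∈ KL07, KEnt L p := mod_ent (KD07.data hG) e7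
  have e8 : KEnt L (98304, 4032774) := b7 _ (by decide)
  have b8 : ∀ p ∈ KL08, KEnt L p := mod_ent (KD08.data hG) e8
  have e9 : KEnt L (114688, 5073600) := b8 _ (by decide)
  have b9 : ∀ p ∈ KL09, KEnt L p := mod_ent (KD09.data hG) e9
  have e10 : KEnt L (131072, 6197553) := b9 _ (by decide)
  have b10 : ∀ p ∈ KL10, KEnt L p := mod_ent (KD10.data hG) e10
  have e11 : KEnt L (139264, 6791023) := b10 _ (by decide)
  have b11 : ∀ p ∈ KL11, KEnt L p := mod_ent (KD11.data hG) e11
  have e12 : KEnt L (147456, 7403748) := b11 _ (by decide)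
  have b12 : ∀ p ∈ KL12, KEnt L p := mod_ent (KD12.data hG) e12
  have e13 : KEnt L (155648, 8036118) := b12 _ (by decide)
  have b13 : ∀ p ∈ KL13, KEnt L p := mod_ent (KD13.data hG) e13
  have e14 : KEnt L (163840, 8686873) := b13 _ (by decide)
  have b14 : ∀ p ∈ KL14, KEnt L p := mod_ent (KD14.data hG) e14
  have e15 : KEnt L (172032, 9353179) := b14 _ (by decide)
  have b15 : ∀ p ∈ KL15, KEnt L p := mod_ent (KD15.data hG) e15
  have e16 : KEnt L (180224, 10039351) := b15 _ (by decide)
  have b16 : ∀ p ∈ KL16, KEnt L p := mod_ent (KD16.data hG) e16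
  have e17 : KEnt L (188416, 10744296) := b16 _ (by decide)
  have b17 : ∀ p ∈ KL17, KEnt L p := mod_ent (KD17.data hG) e17
  have e18 : KEnt L (196608, 11462818) := b17 _ (by decide)
  have b18 : ∀ p ∈ KL18, KEnt L p := mod_ent (KD18.data hG) e18
  have e19 : KEnt L (204800, 12198943) := b18 _ (by decide)
  have b19 : ∀ p ∈ KL19, KEnt L p := mod_ent (KD19.data hG) e19
  have e20 : KEnt L (212992, 12948528) := b19 _ (by decide)
  have b20 : ∀ p ∈ KL20, KEnt L p := mod_ent (KD20.data hG) e20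
  have e21 : KEnt L (221184, 13706744) := b20 _ (by decide)
  have b21 : ∀ p ∈ KL21, KEnt L p := mod_ent (KD21.data hG) e21
  have e22 : KEnt L (229376, 14481436) := b21 _ (by decide)
  have b22 : ∀ p ∈ KL22, KEnt L p := mod_ent (KD22.data hG) e22
  have e23 : KEnt L (237568, 15267696) := b22 _ (by decide)
  have b23 : ∀ p ∈ KL23, KEnt L p := mod_ent (KD23.data hG) e23
  have e24 : KEnt L (245760, 16068171) := b23 _ (by decide)
  have b24 : ∀ p ∈ KL24, KEnt L p := mod_ent (KD24.data hG) e24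
  have e25 : KEnt L (253952, 16880450) := b24 _ (by decide)
  have b25 : ∀ p ∈ KL25, KEnt L p := mod_ent (KD25.data hG) e25
  exact all_append (all_append (all_append (all_append (all_append (all_append (all_append (all_append (all_append (all_append (all_append (all_append (all_append (all_append (all_append (all_append (all_append (all_append (all_append (all_append (all_append (all_append (all_append (all_append (all_append (all_append (all_append (all_append (all_append (all_append (all_append (all_append a0 a1) a2) a3) a4) a5) a6) a7) b1) b2) b3) b4) b5) b6) b7) b8) b9) b10) b11) b12) b13) b14) b15) b16) b17) b18) b19) b20) b21) b22) b23) b24) b25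

/-- The number of elements of `L` in `[0, R² - 1]` is at most `v` for all `(R, v) ∈ L0`. -/
theorem kernel_data {W L : ℕ → Prop} (hG : GRules W L) :
    ∀ p ∈ L0, 1 ≤ p.1 ∧ gcount L (p.1 * p.1 - 1) ≤ p.2 :=
  kernel_ent hG

end Pool.Agent.AddSq
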