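import Pool.Agent.AddSq.TabLit

/-!
# Definitions for the kernel data modules (without Mathlib)

The same functions as in `Block`, `FastLeaf`, `Popcount`, `OrCount`; the equality is proved in
`KBase`.
-/

namespace Pool.Agent.AddSq.KF

def mm (p : Nat) : Nat := Nat.shiftRight (Nat.mul p 26087635650665564424) 64

def sqr (p : Nat) : Nat := Nat.mul p p

def am (p : Nat) : Nat := Nat.sub (Nat.mul 2 (Nat.mul p p)) (sqr (mm p))

def tm (p : Nat) : Nat := Nat.sub (sqr (Nat.succ (mm p))) (Nat.mul 2 (Nat.mul p p))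

def seg (X _p u len : Nat) : Nat :=
  Nat.land (Nat.shiftRight X u) (Nat.sub (Nat.shiftLeft 1 len) 1)

def fo (f g : Nat → Nat → Nat → Nat) (p u len : Nat) : Nat := Nat.lor (f p u len) (g p u len)

def fa (f g : Nat → Nat → Nat → Nat) (p u len : Nat) : Nat := Nat.land (f p u len) (g p u len)

noncomputable def nx (f : Nat → Nat → Nat → Nat) (p u len : Nat) : Nat :=
  @Bool.rec (fun _ => Nat)
    (@Bool.rec (fun _ => Nat)
      (Nat.lor (f (mm p) (Nat.add u (am p)) (Nat.sub (tm p) u))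
        (Nat.shiftLeft (f (Nat.succ (mm p)) 0 (Nat.sub len (Nat.sub (tm p) u)))
          (Nat.sub (tm p) u)))
      (f (Nat.succ (mm p)) (Nat.sub u (tm p)) len) (Nat.ble (tm p) u))
    (f (mm p) (Nat.add u (am p)) len) (Nat.ble (Nat.add u len) (tm p))

/-- the lost positions of the block `k`, rule truncated at `r₄` -/
noncomputable def block (w0 l1 w2 l3 w4 k : Nat) : Nat :=
  fa (seg w0) (nx (fo (seg l1) (nx (fa (seg w2) (nx (fo (seg l3) (nx (seg w4))))))))
    k 0 (Nat.succ (Nat.mul 2 k))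

/-- the bits of `X` below `R` -/
def cut (X R : Nat) : Nat := Nat.land X (Nat.sub (Nat.shiftLeft 1 R) 1)

def mask (s n : Nat) : Nat :=
  Nat.mul (Nat.div (Nat.sub (Nat.shiftLeft 1 (Nat.mul (Nat.mul 2 s) n)) 1)
    (Nat.sub (Nat.shiftLeft 1 (Nat.mul 2 s)) 1)) (Nat.sub (Nat.shiftLeft 1 s) 1)

def fold (s m x : Nat) : Nat := Nat.add (Nat.land x m) (Nat.land (Nat.shiftRight x s) m)

/-- popcount -/
def pc (m1 m2 m4 m8 m16 x : Nat) : Nat :=
  Nat.mod (fold 16 m16 (fold 8 m8 (fold 4 m4 (fold 2 m2 (fold 1 m1 x))))) 4294967295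

noncomputable def frc (g : Nat → Nat) (k : Nat) : Nat :=
  @Nat.rec (fun _ => Nat) (g 0) (fun j _ => g (Nat.succ j)) k

noncomputable def stepA (d : Nat) (ih : Nat → Nat) : Nat → Nat :=
  frc (fun k => Nat.lor (ih k) (ih (Nat.add k (Nat.shiftLeft 1 d))))

noncomputable def oA (g : Nat → Nat) (e : Nat) : Nat → Nat :=
  @Nat.rec (fun _ => Nat → Nat) (frc g) stepA e

noncomputable def stepB (g : Nat → Nat) (d : Nat) (ih : Nat → Nat) : Nat → Nat :=
  frc (fun k => Nat.lor (Nat.lor (ih k) (ih (Nat.add k (Nat.shiftLeft 1 d))))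
    (Nat.land ((@Nat.rec (fun _ => Nat → Nat) (frc g) stepA d) k)
      ((@Nat.rec (fun _ => Nat → Nat) (frc g) stepA d) (Nat.add k (Nat.shiftLeft 1 d)))))

noncomputable def oB (g : Nat → Nat) (e : Nat) : Nat → Nat :=
  @Nat.rec (fun _ => Nat → Nat) (fun _ => 0) (stepB g) e

noncomputable def pz (h : Nat → Nat) (x : Nat) : Nat :=
  @Bool.rec (fun _ => Nat) (h x) 0 (Nat.beq x 0)

noncomputable def stepN (g h : Nat → Nat) (d : Nat) (ih : Nat → Nat) : Nat → Nat :=
  frc (fun k => Nat.add (Nat.add (ih k) (ih (Nat.add k (Nat.shiftLeft 1 d))))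
    (Nat.add
      (pz h (Nat.land ((@Nat.rec (fun _ => Nat → Nat) (fun _ => 0) (stepB g) d) k)
        ((@Nat.rec (fun _ => Nat → Nat) (fun _ => 0) (stepB g) d)
          (Nat.add k (Nat.shiftLeft 1 d)))))
      (pz h (Nat.land
        (Nat.lor ((@Nat.rec (fun _ => Nat → Nat) (fun _ => 0) (stepB g) d) k)
          ((@Nat.rec (fun _ => Nat → Nat) (fun _ => 0) (stepB g) d)
            (Nat.add k (Nat.shiftLeft 1 d))))
        (Nat.land ((@Nat.rec (fun _ => Nat → Nat) (frc g) stepA d) k)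
          ((@Nat.rec (fun _ => Nat → Nat) (frc g) stepA d) (Nat.add k (Nat.shiftLeft 1 d))))))))

noncomputable def oN (g h : Nat → Nat) (e : Nat) : Nat → Nat :=
  @Nat.rec (fun _ => Nat → Nat) (fun _ => 0) (stepN g h) e

/-- the sum of `h (g j)` for `k ≤ j < k + 2 ^ e` -/
noncomputable def osum (g h : Nat → Nat) (e k : Nat) : Nat :=
  Nat.add (Nat.add (h (oA g e k)) (h (oB g e k))) (oN g h e k)

/-- a table `t` from a list of chunks is the cut of the table `T` -/
def isCut (t T R : Nat) : Bool := Nat.beq t (cut T R)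

end Pool.Agent.AddSq.KF
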