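import Pool.Agent.AddSq.KBase
import Pool.Agent.AddSq.KList
import Pool.Agent.AddSq.KD01
import Pool.Agent.AddSq.KD02
import Pool.Agent.AddSq.KD03
import Pool.Agent.AddSq.KD04
import Pool.Agent.AddSq.KD05

/-!
# Kernel data: cumulative counts, part 1
-/

namespace Pool.Agent.AddSq.KD01

set_option linter.all false

theorem kfit : kfits 8191 16383 23171 32771 46347 65547 81920 49152 2200 512 = true := by decide +kernel

theorem spec {W L : ℕ → Prop} (hG : GRules W L) : KSpec L S 2200 8191 :=
  KSpec.mk' hG KF.cw13 KF.cl13 kfit S_eq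

theorem data {W L : ℕ → Prop} (hG : GRules W L) :
    ∀ p ∈ KL01, Cum L 2200 12451 p.1 p.2 := by
  have s := spec hG
  have c0 := Cum.start L 2200 12451
  obtain ⟨h1, h2, h3, h4, h5, h6, h7, h8, h9, h10, h11, h12, h13, h14, h15, h16, h17, h18, h19, h20, h21, h22, h23, h24, h25, h26, h27, h28, h29, h30, h31, h32, h33, h34, h35, h36, h37, h38, h39, h40, h41, h42, h43, h44, h45, h46, h47, h48, h49, h50, h51, h52, h53, h54, h55, h56, h57, h58, h59, h60, h61, h62, h63, h64⟩ := grp1
  have c1 : Cum L 2200 12451 2208 12538 := s.step c0 h1 rfl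
  have c2 : Cum L 2200 12451 2240 12884 := s.step c1 h2 rfl
  have c3 : Cum L 2200 12451 2272 13190 := s.step c2 h3 rfl
  have c4 : Cum L 2200 12451 2304 13543 := s.step c3 h4 rfl
  have c5 : Cum L 2200 12451 2336 13856 := s.step c4 h5 rfl
  have c6 : Cum L 2200 12451 2368 14200 := s.step c5 h6 rfl
  have c7 : Cum L 2200 12451 2400 14577 := s.step c6 h7 rfl
  have c8 : Cum L 2200 12451 2432 14917 := s.step c7 h8 rfl
  have c9 : Cum L 2200 12451 2464 15230 := s.step c8 h9 rfl
  have c10 : Cum L 2200 12451 2496 15565 := s.step c9 h10 rfl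
  have c11 : Cum L 2200 12451 2528 15908 := s.step c10 h11 rfl
  have c12 : Cum L 2200 12451 2560 16251 := s.step c11 h12 rfl
  have c13 : Cum L 2200 12451 2592 16623 := s.step c12 h13 rfl
  have c14 : Cum L 2200 12451 2624 16948 := s.step c13 h14 rfl
  have c15 : Cum L 2200 12451 2656 17238 := s.step c14 h15 rfl
  have c16 : Cum L 2200 12451 2688 17596 := s.step c15 h16 rfl
  have c17 : Cum L 2200 12451 2720 17972 := s.step c16 h17 rfl
  have c18 : Cum L 2200 12451 2752 18340 := s.step c17 h18 rfl
  have c19 : Cum L 2200 12451 2784 18742 := s.step c18 h19 rfl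
  have c20 : Cum L 2200 12451 2816 19132 := s.step c19 h20 rfl
  have c21 : Cum L 2200 12451 2848 19484 := s.step c20 h21 rfl
  have c22 : Cum L 2200 12451 2880 19878 := s.step c21 h22 rfl
  have c23 : Cum L 2200 12451 2912 20259 := s.step c22 h23 rfl
  have c24 : Cum L 2200 12451 2944 20656 := s.step c23 h24 rfl
  have c25 : Cum L 2200 12451 2976 21054 := s.step c24 h25 rfl
  have c26 : Cum L 2200 12451 3008 21442 := s.step c25 h26 rfl
  have c27 : Cum L 2200 12451 3040 21827 := s.step c26 h27 rfl
  have c28 : Cum L 2200 12451 3072 22243 := s.step c27 h28 rfl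
  have c29 : Cum L 2200 12451 3104 22665 := s.step c28 h29 rfl
  have c30 : Cum L 2200 12451 3136 23057 := s.step c29 h30 rfl
  have c31 : Cum L 2200 12451 3168 23467 := s.step c30 h31 rfl
  have c32 : Cum L 2200 12451 3200 23877 := s.step c31 h32 rfl
  have c33 : Cum L 2200 12451 3232 24283 := s.step c32 h33 rfl
  have c34 : Cum L 2200 12451 3264 24656 := s.step c33 h34 rfl
  have c35 : Cum L 2200 12451 3296 25096 := s.step c34 h35 rfl
  have c36 : Cum L 2200 12451 3328 25501 := s.step c35 h36 rfl
  have c37 : Cum L 2200 12451 3360 25895 := s.step c36 h37 rfl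
  have c38 : Cum L 2200 12451 3392 26308 := s.step c37 h38 rfl
  have c39 : Cum L 2200 12451 3424 26744 := s.step c38 h39 rfl
  have c40 : Cum L 2200 12451 3456 27141 := s.step c39 h40 rfl
  have c41 : Cum L 2200 12451 3488 27521 := s.step c40 h41 rfl
  have c42 : Cum L 2200 12451 3520 27927 := s.step c41 h42 rfl
  have c43 : Cum L 2200 12451 3552 28372 := s.step c42 h43 rfl
  have c44 : Cum L 2200 12451 3584 28813 := s.step c43 h44 rfl
  have c45 : Cum L 2200 12451 3616 29256 := s.step c44 h45 rfl
  have c46 : Cum L 2200 12451 3648 29694 := s.step c45 h46 rfl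
  have c47 : Cum L 2200 12451 3680 30112 := s.step c46 h47 rfl
  have c48 : Cum L 2200 12451 3712 30567 := s.step c47 h48 rfl
  have c49 : Cum L 2200 12451 3744 30983 := s.step c48 h49 rfl
  have c50 : Cum L 2200 12451 3776 31397 := s.step c49 h50 rfl
  have c51 : Cum L 2200 12451 3808 31855 := s.step c50 h51 rfl
  have c52 : Cum L 2200 12451 3840 32284 := s.step c51 h52 rfl
  have c53 : Cum L 2200 12451 3872 32723 := s.step c52 h53 rfl
  have c54 : Cum L 2200 12451 3904 33155 := s.step c53 h54 rfl
  have c55 : Cum L 2200 12451 3936 33582 := s.step c54 h55 rfl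
  have c56 : Cum L 2200 12451 3968 34014 := s.step c55 h56 rfl
  have c57 : Cum L 2200 12451 4000 34483 := s.step c56 h57 rfl
  have c58 : Cum L 2200 12451 4032 34922 := s.step c57 h58 rfl
  have c59 : Cum L 2200 12451 4064 35430 := s.step c58 h59 rfl
  have c60 : Cum L 2200 12451 4096 35860 := s.step c59 h60 rfl
  have c61 : Cum L 2200 12451 4128 36316 := s.step c60 h61 rfl
  have c62 : Cum L 2200 12451 4160 36765 := s.step c61 h62 rfl
  have c63 : Cum L 2200 12451 4192 37197 := s.step c62 h63 rfl
  have c64 : Cum L 2200 12451 4224 37634 := s.step c63 h64 rfl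
  obtain ⟨h65, h66, h67, h68, h69, h70, h71, h72, h73, h74, h75, h76, h77, h78, h79, h80, h81, h82, h83, h84, h85, h86, h87, h88, h89, h90, h91, h92, h93, h94, h95, h96, h97, h98, h99, h100, h101, h102, h103, h104, h105, h106, h107, h108, h109, h110, h111, h112, h113, h114, h115, h116, h117, h118, h119, h120, h121, h122, h123, h124, h125, h126, h127, h128⟩ := grp2
  have c65 : Cum L 2200 12451 4256 38101 := s.step c64 h65 rfl
  have c66 : Cum L 2200 12451 4288 38536 := s.step c65 h66 rfl
  have c67 : Cum L 2200 12451 4320 38993 := s.step c66 h67 rfl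
  have c68 : Cum L 2200 12451 4352 39495 := s.step c67 h68 rfl
  have c69 : Cum L 2200 12451 4384 39950 := s.step c68 h69 rfl
  have c70 : Cum L 2200 12451 4416 40371 := s.step c69 h70 rfl
  have c71 : Cum L 2200 12451 4448 40853 := s.step c70 h71 rfl
  have c72 : Cum L 2200 12451 4480 41324 := s.step c71 h72 rfl
  have c73 : Cum L 2200 12451 4512 41791 := s.step c72 h73 rfl
  have c74 : Cum L 2200 12451 4544 42293 := s.step c73 h74 rfl
  have c75 : Cum L 2200 12451 4576 42803 := s.step c74 h75 rfl
  have c76 : Cum L 2200 12451 4608 43311 := s.step c75 h76 rfl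
  have c77 : Cum L 2200 12451 4640 43834 := s.step c76 h77 rfl
  have c78 : Cum L 2200 12451 4672 44308 := s.step c77 h78 rfl
  have c79 : Cum L 2200 12451 4704 44780 := s.step c78 h79 rfl
  have c80 : Cum L 2200 12451 4736 45277 := s.step c79 h80 rfl
  have c81 : Cum L 2200 12451 4768 45768 := s.step c80 h81 rfl
  have c82 : Cum L 2200 12451 4800 46253 := s.step c81 h82 rfl
  have c83 : Cum L 2200 12451 4832 46781 := s.step c82 h83 rfl
  have c84 : Cum L 2200 12451 4864 47245 := s.step c83 h84 rfl
  have c85 : Cum L 2200 12451 4896 47709 := s.step c84 h85 rfl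
  have c86 : Cum L 2200 12451 4928 48247 := s.step c85 h86 rfl
  have c87 : Cum L 2200 12451 4960 48751 := s.step c86 h87 rfl
  have c88 : Cum L 2200 12451 4992 49262 := s.step c87 h88 rfl
  have c89 : Cum L 2200 12451 5024 49725 := s.step c88 h89 rfl
  have c90 : Cum L 2200 12451 5056 50230 := s.step c89 h90 rfl
  have c91 : Cum L 2200 12451 5088 50765 := s.step c90 h91 rfl
  have c92 : Cum L 2200 12451 5120 51274 := s.step c91 h92 rfl
  have c93 : Cum L 2200 12451 5152 51749 := s.step c92 h93 rfl
  have c94 : Cum L 2200 12451 5184 52288 := s.step c93 h94 rfl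
  have c95 : Cum L 2200 12451 5216 52780 := s.step c94 h95 rfl
  have c96 : Cum L 2200 12451 5248 53323 := s.step c95 h96 rfl
  have c97 : Cum L 2200 12451 5280 53846 := s.step c96 h97 rfl
  have c98 : Cum L 2200 12451 5312 54358 := s.step c97 h98 rfl
  have c99 : Cum L 2200 12451 5344 54884 := s.step c98 h99 rfl
  have c100 : Cum L 2200 12451 5376 55355 := s.step c99 h100 rfl
  have c101 : Cum L 2200 12451 5408 55849 := s.step c100 h101 rfl
  have c102 : Cum L 2200 12451 5440 56366 := s.step c101 h102 rfl
  have c103 : Cum L 2200 12451 5472 56879 := s.step c102 h103 rfl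
  have c104 : Cum L 2200 12451 5504 57404 := s.step c103 h104 rfl
  have c105 : Cum L 2200 12451 5536 57898 := s.step c104 h105 rfl
  have c106 : Cum L 2200 12451 5568 58377 := s.step c105 h106 rfl
  have c107 : Cum L 2200 12451 5600 58879 := s.step c106 h107 rfl
  have c108 : Cum L 2200 12451 5632 59413 := s.step c107 h108 rfl
  have c109 : Cum L 2200 12451 5664 59895 := s.step c108 h109 rfl
  have c110 : Cum L 2200 12451 5696 60381 := s.step c109 h110 rfl
  have c111 : Cum L 2200 12451 5728 60918 := s.step c110 h111 rfl
  have c112 : Cum L 2200 12451 5760 61439 := s.step c111 h112 rfl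
  have c113 : Cum L 2200 12451 5792 61977 := s.step c112 h113 rfl
  have c114 : Cum L 2200 12451 5824 62481 := s.step c113 h114 rfl
  have c115 : Cum L 2200 12451 5856 63002 := s.step c114 h115 rfl
  have c116 : Cum L 2200 12451 5888 63464 := s.step c115 h116 rfl
  have c117 : Cum L 2200 12451 5920 63976 := s.step c116 h117 rfl
  have c118 : Cum L 2200 12451 5952 64519 := s.step c117 h118 rfl
  have c119 : Cum L 2200 12451 5984 65067 := s.step c118 h119 rfl
  have c120 : Cum L 2200 12451 6016 65578 := s.step c119 h120 rfl
  have c121 : Cum L 2200 12451 6048 66070 := s.step c120 h121 rfl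
  have c122 : Cum L 2200 12451 6080 66615 := s.step c121 h122 rfl
  have c123 : Cum L 2200 12451 6112 67107 := s.step c122 h123 rfl
  have c124 : Cum L 2200 12451 6144 67654 := s.step c123 h124 rfl
  have c125 : Cum L 2200 12451 6176 68208 := s.step c124 h125 rfl
  have c126 : Cum L 2200 12451 6208 68747 := s.step c125 h126 rfl
  have c127 : Cum L 2200 12451 6240 69311 := s.step c126 h127 rfl
  have c128 : Cum L 2200 12451 6272 69870 := s.step c127 h128 rfl
  obtain ⟨h129, h130, h131, h132, h133, h134, h135, h136, h137, h138, h139, h140, h141, h142, h143, h144, h145, h146, h147, h148, h149, h150, h151, h152, h153, h154, h155, h156, h157, h158, h159, h160, h161, h162, h163, h164, h165, h166, h167, h168, h169, h170, h171, h172, h173, h174, h175, h176, h177, h178, h179, h180, h181, h182, h183, h184, h185, h186, h187, h188⟩ := grp3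
  have c129 : Cum L 2200 12451 6304 70437 := s.step c128 h129 rfl
  have c130 : Cum L 2200 12451 6336 70983 := s.step c129 h130 rfl
  have c131 : Cum L 2200 12451 6368 71472 := s.step c130 h131 rfl
  have c132 : Cum L 2200 12451 6400 71984 := s.step c131 h132 rfl
  have c133 : Cum L 2200 12451 6432 72527 := s.step c132 h133 rfl
  have c134 : Cum L 2200 12451 6464 73033 := s.step c133 h134 rfl
  have c135 : Cum L 2200 12451 6496 73555 := s.step c134 h135 rfl
  have c136 : Cum L 2200 12451 6528 74098 := s.step c135 h136 rfl
  have c137 : Cum L 2200 12451 6560 74662 := s.step c136 h137 rfl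
  have c138 : Cum L 2200 12451 6592 75244 := s.step c137 h138 rfl
  have c139 : Cum L 2200 12451 6624 75793 := s.step c138 h139 rfl
  have c140 : Cum L 2200 12451 6656 76372 := s.step c139 h140 rfl
  have c141 : Cum L 2200 12451 6688 76921 := s.step c140 h141 rfl
  have c142 : Cum L 2200 12451 6720 77461 := s.step c141 h142 rfl
  have c143 : Cum L 2200 12451 6752 78023 := s.step c142 h143 rfl
  have c144 : Cum L 2200 12451 6784 78560 := s.step c143 h144 rfl
  have c145 : Cum L 2200 12451 6816 79101 := s.step c144 h145 rfl
  have c146 : Cum L 2200 12451 6848 79675 := s.step c145 h146 rfl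
  have c147 : Cum L 2200 12451 6880 80195 := s.step c146 h147 rfl
  have c148 : Cum L 2200 12451 6912 80768 := s.step c147 h148 rfl
  have c149 : Cum L 2200 12451 6944 81307 := s.step c148 h149 rfl
  have c150 : Cum L 2200 12451 6976 81832 := s.step c149 h150 rfl
  have c151 : Cum L 2200 12451 7008 82336 := s.step c150 h151 rfl
  have c152 : Cum L 2200 12451 7040 82864 := s.step c151 h152 rfl
  have c153 : Cum L 2200 12451 7072 83468 := s.step c152 h153 rfl
  have c154 : Cum L 2200 12451 7104 84068 := s.step c153 h154 rfl
  have c155 : Cum L 2200 12451 7136 84644 := s.step c154 h155 rfl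
  have c156 : Cum L 2200 12451 7168 85193 := s.step c155 h156 rfl
  have c157 : Cum L 2200 12451 7200 85768 := s.step c156 h157 rfl
  have c158 : Cum L 2200 12451 7232 86345 := s.step c157 h158 rfl
  have c159 : Cum L 2200 12451 7264 86903 := s.step c158 h159 rfl
  have c160 : Cum L 2200 12451 7296 87471 := s.step c159 h160 rfl
  have c161 : Cum L 2200 12451 7328 88044 := s.step c160 h161 rfl
  have c162 : Cum L 2200 12451 7360 88625 := s.step c161 h162 rfl
  have c163 : Cum L 2200 12451 7392 89203 := s.step c162 h163 rfl
  have c164 : Cum L 2200 12451 7424 89768 := s.step c163 h164 rfl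
  have c165 : Cum L 2200 12451 7456 90353 := s.step c164 h165 rfl
  have c166 : Cum L 2200 12451 7488 90966 := s.step c165 h166 rfl
  have c167 : Cum L 2200 12451 7520 91557 := s.step c166 h167 rfl
  have c168 : Cum L 2200 12451 7552 92120 := s.step c167 h168 rfl
  have c169 : Cum L 2200 12451 7584 92717 := s.step c168 h169 rfl
  have c170 : Cum L 2200 12451 7616 93359 := s.step c169 h170 rfl
  have c171 : Cum L 2200 12451 7648 93955 := s.step c170 h171 rfl
  have c172 : Cum L 2200 12451 7680 94537 := s.step c171 h172 rfl
  have c173 : Cum L 2200 12451 7712 95125 := s.step c172 h173 rfl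
  have c174 : Cum L 2200 12451 7744 95689 := s.step c173 h174 rfl
  have c175 : Cum L 2200 12451 7776 96311 := s.step c174 h175 rfl
  have c176 : Cum L 2200 12451 7808 96874 := s.step c175 h176 rfl
  have c177 : Cum L 2200 12451 7840 97484 := s.step c176 h177 rfl
  have c178 : Cum L 2200 12451 7872 98086 := s.step c177 h178 rfl
  have c179 : Cum L 2200 12451 7904 98633 := s.step c178 h179 rfl
  have c180 : Cum L 2200 12451 7936 99255 := s.step c179 h180 rfl
  have c181 : Cum L 2200 12451 7968 99926 := s.step c180 h181 rfl
  have c182 : Cum L 2200 12451 8000 100498 := s.step c181 h182 rfl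
  have c183 : Cum L 2200 12451 8032 101088 := s.step c182 h183 rfl
  have c184 : Cum L 2200 12451 8064 101687 := s.step c183 h184 rfl
  have c185 : Cum L 2200 12451 8096 102272 := s.step c184 h185 rfl
  have c186 : Cum L 2200 12451 8128 102875 := s.step c185 h186 rfl
  have c187 : Cum L 2200 12451 8160 103446 := s.step c186 h187 rfl
  have c188 : Cum L 2200 12451 8192 104085 := s.step c187 h188 rfl
  exact all_cons c1 (all_cons c2 (all_cons c3 (all_cons c4 (all_cons c5 (all_cons c6 (all_cons c7 (all_cons c8 (all_cons c9 (all_cons c10 (all_cons c11 (all_cons c12 (all_cons c13 (all_cons c14 (all_cons c15 (all_cons c16 (all_cons c17 (all_cons c18 (all_cons c19 (all_cons c20 (all_cons c21 (all_cons c22 (all_cons c23 (all_cons c24 (all_cons c25 (all_cons c26 (all_cons c27 (all_cons c28 (all_cons c29 (all_cons c30 (all_cons c31 (all_cons c32 (all_cons c33 (all_cons c34 (all_cons c35 (all_cons c36 (all_cons c37 (all_cons c38 (all_cons c39 (all_cons c40 (all_cons c41 (all_cons c42 (all_cons c43 (all_cons c44 (all_cons c45 (all_cons c46 (all_cons c47 (all_cons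 c48 (all_cons c49 (all_cons c50 (all_cons c51 (all_cons c52 (all_cons c53 (all_cons c54 (all_cons c55 (all_cons c56 (all_cons c57 (all_cons c58 (all_cons c59 (all_cons c60 (all_cons c61 (all_cons c62 (all_cons c63 (all_cons c64 (all_cons c65 (all_cons c66 (all_cons c67 (all_cons c68 (all_cons c69 (all_cons c70 (all_cons c71 (all_cons c72 (all_cons c73 (all_cons c74 (all_cons c75 (all_cons c76 (all_cons c77 (all_cons c78 (all_cons c79 (all_cons c80 (all_cons c81 (all_cons c82 (all_cons c83 (all_cons c84 (all_cons c85 (all_cons c86 (all_cons c87 (all_cons c88 (all_cons c89 (all_cons c90 (all_cons c91 (all_cons c92 (all_cons c93 (all_cons c94 (all_cons c95 (all_cons c96 (all_cons c97 (all_cons c98 (all_cons c99 (all_cons c100 (all_cons c101 (all_cons c102 (all_cons c103 (all_cons c104 (all_cons c105 (all_cons c106 (all_cons c107 (all_cons c108 (all_cons c109 (all_cons c110 (all_cons c111 (all_cons c112 (all_cons c113 (all_cons c114 (all_cons c115 (all_cons c116 (all_cons c117 (all_cons c118 (all_cons c119 (all_cons c120 (all_cons c121 (all_cons c122 (all_cons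 c123 (all_cons c124 (all_cons c125 (all_cons c126 (all_cons c127 (all_cons c128 (all_cons c129 (all_cons c130 (all_cons c131 (all_cons c132 (all_cons c134 (all_cons c136 (all_cons c138 (all_cons c140 (all_cons c142 (all_cons c144 (all_cons c146 (all_cons c148 (all_cons c150 (all_cons c152 (all_cons c154 (all_cons c156 (all_cons c158 (all_cons c160 (all_cons c162 (all_cons c164 (all_cons c166 (all_cons c168 (all_cons c170 (all_cons c172 (all_cons c174 (all_cons c176 (all_cons c178 (all_cons c180 (all_cons c182 (all_cons c184 (all_cons c186 (all_cons c188 all_nil)))))))))))))))))))))))))))))))))))))))))))))))))))))))))))))))))))))))))))))))))))))))))))))))))))))))))))))))))))))))))))))))))))))))))))))))))))))))))))))))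

end Pool.Agent.AddSq.KD01

namespace Pool.Agent.AddSq.KD02

set_option linter.all false

theorem kfit : kfits 16383 32767 46343 65541 92691 131089 147456 98304 8192 1024 = true := by decide +kernel

theorem spec {W L : ℕ → Prop} (hG : GRules W L) : KSpec L S 8192 16383 :=
  KSpec.mk' hG KF.cw14 KF.cl14 kfit S_eq

theorem data {W L : ℕ → Prop} (hG : GRules W L) :
    ∀ p ∈ KL02, Cum L 8192 104085 p.1 p.2 := by
  have s := spec hG
  have c0 := Cum.start L 8192 104085
  obtain ⟨h1, h2, h3, h4, h5, h6, h7, h8, h9, h10, h11, h12, h13, h14, h15, h16, h17, h18, h19, h20, h21, h22, h23, h24, h25, h26, h27, h28, h29, h30, h31, h32, h33, h34, h35, h36, h37, h38, h39, h40, h41, h42, h43, h44, h45, h46, h47, h48, h49, h50, h51, h52, h53, h54, h55, h56, h57, h58, h59, h60, h61, h62, h63, h64⟩ := grp1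
  have c1 : Cum L 8192 104085 8256 105338 := s.step c0 h1 rfl
  have c2 : Cum L 8192 104085 8320 106594 := s.step c1 h2 rfl
  have c3 : Cum L 8192 104085 8384 107852 := s.step c2 h3 rfl
  have c4 : Cum L 8192 104085 8448 109051 := s.step c3 h4 rfl
  have c5 : Cum L 8192 104085 8512 110248 := s.step c4 h5 rfl
  have c6 : Cum L 8192 104085 8576 111485 := s.step c5 h6 rfl
  have c7 : Cum L 8192 104085 8640 112676 := s.step c6 h7 rfl
  have c8 : Cum L 8192 104085 8704 113846 := s.step c7 h8 rfl
  have c9 : Cum L 8192 104085 8768 115067 := s.step c8 h9 rfl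
  have c10 : Cum L 8192 104085 8832 116316 := s.step c9 h10 rfl
  have c11 : Cum L 8192 104085 8896 117635 := s.step c10 h11 rfl
  have c12 : Cum L 8192 104085 8960 118867 := s.step c11 h12 rfl
  have c13 : Cum L 8192 104085 9024 120166 := s.step c12 h13 rfl
  have c14 : Cum L 8192 104085 9088 121469 := s.step c13 h14 rfl
  have c15 : Cum L 8192 104085 9152 122736 := s.step c14 h15 rfl
  have c16 : Cum L 8192 104085 9216 124025 := s.step c15 h16 rfl
  have c17 : Cum L 8192 104085 9280 125277 := s.step c16 h17 rfl
  have c18 : Cum L 8192 104085 9344 126562 := s.step c17 h18 rfl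
  have c19 : Cum L 8192 104085 9408 127849 := s.step c18 h19 rfl
  have c20 : Cum L 8192 104085 9472 129152 := s.step c19 h20 rfl
  have c21 : Cum L 8192 104085 9536 130430 := s.step c20 h21 rfl
  have c22 : Cum L 8192 104085 9600 131822 := s.step c21 h22 rfl
  have c23 : Cum L 8192 104085 9664 133116 := s.step c22 h23 rfl
  have c24 : Cum L 8192 104085 9728 134381 := s.step c23 h24 rfl
  have c25 : Cum L 8192 104085 9792 135679 := s.step c24 h25 rfl
  have c26 : Cum L 8192 104085 9856 137032 := s.step c25 h26 rfl
  have c27 : Cum L 8192 104085 9920 138307 := s.step c26 h27 rfl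
  have c28 : Cum L 8192 104085 9984 139620 := s.step c27 h28 rfl
  have c29 : Cum L 8192 104085 10048 140946 := s.step c28 h29 rfl
  have c30 : Cum L 8192 104085 10112 142271 := s.step c29 h30 rfl
  have c31 : Cum L 8192 104085 10176 143568 := s.step c30 h31 rfl
  have c32 : Cum L 8192 104085 10240 144947 := s.step c31 h32 rfl
  have c33 : Cum L 8192 104085 10304 146260 := s.step c32 h33 rfl
  have c34 : Cum L 8192 104085 10368 147571 := s.step c33 h34 rfl
  have c35 : Cum L 8192 104085 10432 148924 := s.step c34 h35 rfl
  have c36 : Cum L 8192 104085 10496 150234 := s.step c35 h36 rfl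
  have c37 : Cum L 8192 104085 10560 151622 := s.step c36 h37 rfl
  have c38 : Cum L 8192 104085 10624 152974 := s.step c37 h38 rfl
  have c39 : Cum L 8192 104085 10688 154361 := s.step c38 h39 rfl
  have c40 : Cum L 8192 104085 10752 155758 := s.step c39 h40 rfl
  have c41 : Cum L 8192 104085 10816 157146 := s.step c40 h41 rfl
  have c42 : Cum L 8192 104085 10880 158503 := s.step c41 h42 rfl
  have c43 : Cum L 8192 104085 10944 159833 := s.step c42 h43 rfl
  have c44 : Cum L 8192 104085 11008 161283 := s.step c43 h44 rfl
  have c45 : Cum L 8192 104085 11072 162736 := s.step c44 h45 rfl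
  have c46 : Cum L 8192 104085 11136 164095 := s.step c45 h46 rfl
  have c47 : Cum L 8192 104085 11200 165498 := s.step c46 h47 rfl
  have c48 : Cum L 8192 104085 11264 166914 := s.step c47 h48 rfl
  have c49 : Cum L 8192 104085 11328 168368 := s.step c48 h49 rfl
  have c50 : Cum L 8192 104085 11392 169712 := s.step c49 h50 rfl
  have c51 : Cum L 8192 104085 11456 171107 := s.step c50 h51 rfl
  have c52 : Cum L 8192 104085 11520 172456 := s.step c51 h52 rfl
  have c53 : Cum L 8192 104085 11584 173973 := s.step c52 h53 rfl
  have c54 : Cum L 8192 104085 11648 175365 := s.step c53 h54 rfl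
  have c55 : Cum L 8192 104085 11712 176808 := s.step c54 h55 rfl
  have c56 : Cum L 8192 104085 11776 178218 := s.step c55 h56 rfl
  have c57 : Cum L 8192 104085 11840 179702 := s.step c56 h57 rfl
  have c58 : Cum L 8192 104085 11904 181173 := s.step c57 h58 rfl
  have c59 : Cum L 8192 104085 11968 182613 := s.step c58 h59 rfl
  have c60 : Cum L 8192 104085 12032 184025 := s.step c59 h60 rfl
  have c61 : Cum L 8192 104085 12096 185462 := s.step c60 h61 rfl
  have c62 : Cum L 8192 104085 12160 186987 := s.step c61 h62 rfl
  have c63 : Cum L 8192 104085 12224 188439 := s.step c62 h63 rfl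
  have c64 : Cum L 8192 104085 12288 189945 := s.step c63 h64 rfl
  obtain ⟨h65, h66, h67, h68, h69, h70, h71, h72, h73, h74, h75, h76, h77, h78, h79, h80, h81, h82, h83, h84, h85, h86, h87, h88, h89, h90, h91, h92, h93, h94, h95, h96, h97, h98, h99, h100, h101, h102, h103, h104, h105, h106, h107, h108, h109, h110, h111, h112, h113, h114, h115, h116, h117, h118, h119, h120, h121, h122, h123, h124, h125, h126, h127, h128⟩ := grp2
  have c65 : Cum L 8192 104085 12352 191321 := s.step c64 h65 rfl
  have c66 : Cum L 8192 104085 12416 192815 := s.step c65 h66 rfl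
  have c67 : Cum L 8192 104085 12480 194282 := s.step c66 h67 rfl
  have c68 : Cum L 8192 104085 12544 195710 := s.step c67 h68 rfl
  have c69 : Cum L 8192 104085 12608 197144 := s.step c68 h69 rfl
  have c70 : Cum L 8192 104085 12672 198618 := s.step c69 h70 rfl
  have c71 : Cum L 8192 104085 12736 200030 := s.step c70 h71 rfl
  have c72 : Cum L 8192 104085 12800 201506 := s.step c71 h72 rfl
  have c73 : Cum L 8192 104085 12864 202952 := s.step c72 h73 rfl
  have c74 : Cum L 8192 104085 12928 204428 := s.step c73 h74 rfl
  have c75 : Cum L 8192 104085 12992 205910 := s.step c74 h75 rfl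
  have c76 : Cum L 8192 104085 13056 207329 := s.step c75 h76 rfl
  have c77 : Cum L 8192 104085 13120 208810 := s.step c76 h77 rfl
  have c78 : Cum L 8192 104085 13184 210247 := s.step c77 h78 rfl
  have c79 : Cum L 8192 104085 13248 211727 := s.step c78 h79 rfl
  have c80 : Cum L 8192 104085 13312 213236 := s.step c79 h80 rfl
  have c81 : Cum L 8192 104085 13376 214785 := s.step c80 h81 rfl
  have c82 : Cum L 8192 104085 13440 216284 := s.step c81 h82 rfl
  have c83 : Cum L 8192 104085 13504 217796 := s.step c82 h83 rfl
  have c84 : Cum L 8192 104085 13568 219268 := s.step c83 h84 rfl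
  have c85 : Cum L 8192 104085 13632 220783 := s.step c84 h85 rfl
  have c86 : Cum L 8192 104085 13696 222378 := s.step c85 h86 rfl
  have c87 : Cum L 8192 104085 13760 223868 := s.step c86 h87 rfl
  have c88 : Cum L 8192 104085 13824 225360 := s.step c87 h88 rfl
  have c89 : Cum L 8192 104085 13888 226900 := s.step c88 h89 rfl
  have c90 : Cum L 8192 104085 13952 228446 := s.step c89 h90 rfl
  have c91 : Cum L 8192 104085 14016 229925 := s.step c90 h91 rfl
  have c92 : Cum L 8192 104085 14080 231493 := s.step c91 h92 rfl
  have c93 : Cum L 8192 104085 14144 232981 := s.step c92 h93 rfl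
  have c94 : Cum L 8192 104085 14208 234464 := s.step c93 h94 rfl
  have c95 : Cum L 8192 104085 14272 235986 := s.step c94 h95 rfl
  have c96 : Cum L 8192 104085 14336 237519 := s.step c95 h96 rfl
  have c97 : Cum L 8192 104085 14400 239073 := s.step c96 h97 rfl
  have c98 : Cum L 8192 104085 14464 240674 := s.step c97 h98 rfl
  have c99 : Cum L 8192 104085 14528 242202 := s.step c98 h99 rfl
  have c100 : Cum L 8192 104085 14592 243783 := s.step c99 h100 rfl
  have c101 : Cum L 8192 104085 14656 245328 := s.step c100 h101 rfl
  have c102 : Cum L 8192 104085 14720 246812 := s.step c101 h102 rfl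
  have c103 : Cum L 8192 104085 14784 248386 := s.step c102 h103 rfl
  have c104 : Cum L 8192 104085 14848 249954 := s.step c103 h104 rfl
  have c105 : Cum L 8192 104085 14912 251595 := s.step c104 h105 rfl
  have c106 : Cum L 8192 104085 14976 253150 := s.step c105 h106 rfl
  have c107 : Cum L 8192 104085 15040 254768 := s.step c106 h107 rfl
  have c108 : Cum L 8192 104085 15104 256369 := s.step c107 h108 rfl
  have c109 : Cum L 8192 104085 15168 257917 := s.step c108 h109 rfl
  have c110 : Cum L 8192 104085 15232 259542 := s.step c109 h110 rfl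
  have c111 : Cum L 8192 104085 15296 261153 := s.step c110 h111 rfl
  have c112 : Cum L 8192 104085 15360 262755 := s.step c111 h112 rfl
  have c113 : Cum L 8192 104085 15424 264294 := s.step c112 h113 rfl
  have c114 : Cum L 8192 104085 15488 265866 := s.step c113 h114 rfl
  have c115 : Cum L 8192 104085 15552 267547 := s.step c114 h115 rfl
  have c116 : Cum L 8192 104085 15616 269105 := s.step c115 h116 rfl
  have c117 : Cum L 8192 104085 15680 270752 := s.step c116 h117 rfl
  have c118 : Cum L 8192 104085 15744 272390 := s.step c117 h118 rfl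
  have c119 : Cum L 8192 104085 15808 273941 := s.step c118 h119 rfl
  have c120 : Cum L 8192 104085 15872 275558 := s.step c119 h120 rfl
  have c121 : Cum L 8192 104085 15936 277142 := s.step c120 h121 rfl
  have c122 : Cum L 8192 104085 16000 278782 := s.step c121 h122 rfl
  have c123 : Cum L 8192 104085 16064 280388 := s.step c122 h123 rfl
  have c124 : Cum L 8192 104085 16128 281998 := s.step c123 h124 rfl
  have c125 : Cum L 8192 104085 16192 283579 := s.step c124 h125 rfl
  have c126 : Cum L 8192 104085 16256 285188 := s.step c125 h126 rfl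
  have c127 : Cum L 8192 104085 16320 286809 := s.step c126 h127 rfl
  have c128 : Cum L 8192 104085 16384 288432 := s.step c127 h128 rfl
  exact all_cons c1 (all_cons c2 (all_cons c3 (all_cons c4 (all_cons c5 (all_cons c6 (all_cons c7 (all_cons c8 (all_cons c9 (all_cons c10 (all_cons c11 (all_cons c12 (all_cons c13 (all_cons c14 (all_cons c15 (all_cons c16 (all_cons c17 (all_cons c18 (all_cons c19 (all_cons c20 (all_cons c21 (all_cons c22 (all_cons c23 (all_cons c24 (all_cons c25 (all_cons c26 (all_cons c27 (all_cons c28 (all_cons c29 (all_cons c30 (all_cons c31 (all_cons c32 (all_cons c33 (all_cons c34 (all_cons c35 (all_cons c36 (all_cons c37 (all_cons c38 (all_cons c39 (all_cons c40 (all_cons c41 (all_cons c42 (all_cons c43 (all_cons c44 (all_cons c45 (all_cons c46 (all_cons c47 (all_cons c48 (all_cons c49 (all_cons c50 (all_cons c51 (all_cons c52 (all_cons c53 (all_cons c54 (all_cons c55 (all_cons c56 (all_cons c57 (all_cons c58 (all_cons c59 (all_cons c60 (all_cons c61 (all_cons c62 (all_cons c63 (all_cons c64 (all_cons c65 (all_cons c66 (all_cons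 c67 (all_cons c68 (all_cons c69 (all_cons c70 (all_cons c71 (all_cons c72 (all_cons c74 (all_cons c76 (all_cons c78 (all_cons c80 (all_cons c82 (all_cons c84 (all_cons c86 (all_cons c88 (all_cons c90 (all_cons c92 (all_cons c94 (all_cons c96 (all_cons c98 (all_cons c100 (all_cons c102 (all_cons c104 (all_cons c106 (all_cons c108 (all_cons c110 (all_cons c112 (all_cons c114 (all_cons c116 (all_cons c118 (all_cons c120 (all_cons c122 (all_cons c124 (all_cons c126 (all_cons c128 all_nil)))))))))))))))))))))))))))))))))))))))))))))))))))))))))))))))))))))))))))))))))))))))))))))))))))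

end Pool.Agent.AddSq.KD02

namespace Pool.Agent.AddSq.KD03

set_option linter.all false

theorem kfit : kfits 32767 65535 92683 131077 185375 262163 278528 196608 16384 2048 = true := by decide +kernel

theorem spec {W L : ℕ → Prop} (hG : GRules W L) : KSpec L S 16384 32767 :=
  KSpec.mk' hG KF.cw15 KF.cl15 kfit S_eq

theorem data {W L : ℕ → Prop} (hG : GRules W L) :
    ∀ p ∈ KL03, Cum L 16384 288432 p.1 p.2 := by
  have s := spec hG
  have c0 := Cum.start L 16384 288432
  obtain ⟨h1, h2, h3, h4, h5, h6, h7, h8, h9, h10, h11, h12, h13, h14, h15, h16, h17, h18, h19, h20, h21, h22, h23, h24, h25, h26, h27, h28, h29, h30, h31, h32, h33, h34, h35, h36, h37, h38, h39, h40, h41, h42, h43, h44, h45, h46, h47, h48, h49, h50, h51, h52, h53, h54, h55, h56, h57, h58, h59, h60, h61, h62, h63, h64⟩ := grp1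
  have c1 : Cum L 16384 288432 16512 291733 := s.step c0 h1 rfl
  have c2 : Cum L 16384 288432 16640 295009 := s.step c1 h2 rfl
  have c3 : Cum L 16384 288432 16768 298300 := s.step c2 h3 rfl
  have c4 : Cum L 16384 288432 16896 301533 := s.step c3 h4 rfl
  have c5 : Cum L 16384 288432 17024 304845 := s.step c4 h5 rfl
  have c6 : Cum L 16384 288432 17152 308104 := s.step c5 h6 rfl
  have c7 : Cum L 16384 288432 17280 311462 := s.step c6 h7 rfl
  have c8 : Cum L 16384 288432 17408 314814 := s.step c7 h8 rfl
  have c9 : Cum L 16384 288432 17536 318188 := s.step c8 h9 rfl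
  have c10 : Cum L 16384 288432 17664 321561 := s.step c9 h10 rfl
  have c11 : Cum L 16384 288432 17792 324961 := s.step c10 h11 rfl
  have c12 : Cum L 16384 288432 17920 328362 := s.step c11 h12 rfl
  have c13 : Cum L 16384 288432 18048 331733 := s.step c12 h13 rfl
  have c14 : Cum L 16384 288432 18176 335149 := s.step c13 h14 rfl
  have c15 : Cum L 16384 288432 18304 338601 := s.step c14 h15 rfl
  have c16 : Cum L 16384 288432 18432 341919 := s.step c15 h16 rfl
  have c17 : Cum L 16384 288432 18560 345451 := s.step c16 h17 rfl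
  have c18 : Cum L 16384 288432 18688 348914 := s.step c17 h18 rfl
  have c19 : Cum L 16384 288432 18816 352331 := s.step c18 h19 rfl
  have c20 : Cum L 16384 288432 18944 355908 := s.step c19 h20 rfl
  have c21 : Cum L 16384 288432 19072 359429 := s.step c20 h21 rfl
  have c22 : Cum L 16384 288432 19200 362829 := s.step c21 h22 rfl
  have c23 : Cum L 16384 288432 19328 366296 := s.step c22 h23 rfl
  have c24 : Cum L 16384 288432 19456 369775 := s.step c23 h24 rfl
  have c25 : Cum L 16384 288432 19584 373212 := s.step c24 h25 rfl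
  have c26 : Cum L 16384 288432 19712 376738 := s.step c25 h26 rfl
  have c27 : Cum L 16384 288432 19840 380361 := s.step c26 h27 rfl
  have c28 : Cum L 16384 288432 19968 383905 := s.step c27 h28 rfl
  have c29 : Cum L 16384 288432 20096 387594 := s.step c28 h29 rfl
  have c30 : Cum L 16384 288432 20224 391218 := s.step c29 h30 rfl
  have c31 : Cum L 16384 288432 20352 394777 := s.step c30 h31 rfl
  have c32 : Cum L 16384 288432 20480 398445 := s.step c31 h32 rfl
  have c33 : Cum L 16384 288432 20608 402092 := s.step c32 h33 rfl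
  have c34 : Cum L 16384 288432 20736 405634 := s.step c33 h34 rfl
  have c35 : Cum L 16384 288432 20864 409326 := s.step c34 h35 rfl
  have c36 : Cum L 16384 288432 20992 412969 := s.step c35 h36 rfl
  have c37 : Cum L 16384 288432 21120 416670 := s.step c36 h37 rfl
  have c38 : Cum L 16384 288432 21248 420281 := s.step c37 h38 rfl
  have c39 : Cum L 16384 288432 21376 423934 := s.step c38 h39 rfl
  have c40 : Cum L 16384 288432 21504 427715 := s.step c39 h40 rfl
  have c41 : Cum L 16384 288432 21632 431489 := s.step c40 h41 rfl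
  have c42 : Cum L 16384 288432 21760 435101 := s.step c41 h42 rfl
  have c43 : Cum L 16384 288432 21888 438832 := s.step c42 h43 rfl
  have c44 : Cum L 16384 288432 22016 442563 := s.step c43 h44 rfl
  have c45 : Cum L 16384 288432 22144 446241 := s.step c44 h45 rfl
  have c46 : Cum L 16384 288432 22272 449921 := s.step c45 h46 rfl
  have c47 : Cum L 16384 288432 22400 453668 := s.step c46 h47 rfl
  have c48 : Cum L 16384 288432 22528 457439 := s.step c47 h48 rfl
  have c49 : Cum L 16384 288432 22656 461265 := s.step c48 h49 rfl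
  have c50 : Cum L 16384 288432 22784 465003 := s.step c49 h50 rfl
  have c51 : Cum L 16384 288432 22912 468822 := s.step c50 h51 rfl
  have c52 : Cum L 16384 288432 23040 472603 := s.step c51 h52 rfl
  have c53 : Cum L 16384 288432 23168 476472 := s.step c52 h53 rfl
  have c54 : Cum L 16384 288432 23296 480356 := s.step c53 h54 rfl
  have c55 : Cum L 16384 288432 23424 484107 := s.step c54 h55 rfl
  have c56 : Cum L 16384 288432 23552 487963 := s.step c55 h56 rfl
  have c57 : Cum L 16384 288432 23680 491854 := s.step c56 h57 rfl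
  have c58 : Cum L 16384 288432 23808 495660 := s.step c57 h58 rfl
  have c59 : Cum L 16384 288432 23936 499584 := s.step c58 h59 rfl
  have c60 : Cum L 16384 288432 24064 503522 := s.step c59 h60 rfl
  have c61 : Cum L 16384 288432 24192 507327 := s.step c60 h61 rfl
  have c62 : Cum L 16384 288432 24320 511222 := s.step c61 h62 rfl
  have c63 : Cum L 16384 288432 24448 515131 := s.step c62 h63 rfl
  have c64 : Cum L 16384 288432 24576 518935 := s.step c63 h64 rfl
  obtain ⟨h65, h66, h67, h68, h69, h70, h71, h72, h73, h74, h75, h76, h77, h78, h79, h80, h81, h82, h83, h84, h85, h86, h87, h88, h89, h90, h91, h92, h93, h94, h95, h96, h97, h98, h99, h100, h101, h102, h103, h104, h105, h106, h107, h108, h109, h110, h111, h112, h113, h114, h115, h116, h117, h118, h119, h120, h121, h122, h123, h124, h125, h126, h127, h128⟩ := grp2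
  have c65 : Cum L 16384 288432 24704 522868 := s.step c64 h65 rfl
  have c66 : Cum L 16384 288432 24832 526701 := s.step c65 h66 rfl
  have c67 : Cum L 16384 288432 24960 530518 := s.step c66 h67 rfl
  have c68 : Cum L 16384 288432 25088 534621 := s.step c67 h68 rfl
  have c69 : Cum L 16384 288432 25216 538534 := s.step c68 h69 rfl
  have c70 : Cum L 16384 288432 25344 542585 := s.step c69 h70 rfl
  have c71 : Cum L 16384 288432 25472 546604 := s.step c70 h71 rfl
  have c72 : Cum L 16384 288432 25600 550574 := s.step c71 h72 rfl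
  have c73 : Cum L 16384 288432 25728 554530 := s.step c72 h73 rfl
  have c74 : Cum L 16384 288432 25856 558552 := s.step c73 h74 rfl
  have c75 : Cum L 16384 288432 25984 562598 := s.step c74 h75 rfl
  have c76 : Cum L 16384 288432 26112 566682 := s.step c75 h76 rfl
  have c77 : Cum L 16384 288432 26240 570814 := s.step c76 h77 rfl
  have c78 : Cum L 16384 288432 26368 574927 := s.step c77 h78 rfl
  have c79 : Cum L 16384 288432 26496 579073 := s.step c78 h79 rfl
  have c80 : Cum L 16384 288432 26624 583141 := s.step c79 h80 rfl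
  have c81 : Cum L 16384 288432 26752 587320 := s.step c80 h81 rfl
  have c82 : Cum L 16384 288432 26880 591486 := s.step c81 h82 rfl
  have c83 : Cum L 16384 288432 27008 595709 := s.step c82 h83 rfl
  have c84 : Cum L 16384 288432 27136 599780 := s.step c83 h84 rfl
  have c85 : Cum L 16384 288432 27264 603886 := s.step c84 h85 rfl
  have c86 : Cum L 16384 288432 27392 608145 := s.step c85 h86 rfl
  have c87 : Cum L 16384 288432 27520 612332 := s.step c86 h87 rfl
  have c88 : Cum L 16384 288432 27648 616522 := s.step c87 h88 rfl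
  have c89 : Cum L 16384 288432 27776 620688 := s.step c88 h89 rfl
  have c90 : Cum L 16384 288432 27904 624765 := s.step c89 h90 rfl
  have c91 : Cum L 16384 288432 28032 629138 := s.step c90 h91 rfl
  have c92 : Cum L 16384 288432 28160 633366 := s.step c91 h92 rfl
  have c93 : Cum L 16384 288432 28288 637565 := s.step c92 h93 rfl
  have c94 : Cum L 16384 288432 28416 641780 := s.step c93 h94 rfl
  have c95 : Cum L 16384 288432 28544 646050 := s.step c94 h95 rfl
  have c96 : Cum L 16384 288432 28672 650303 := s.step c95 h96 rfl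
  have c97 : Cum L 16384 288432 28800 654635 := s.step c96 h97 rfl
  have c98 : Cum L 16384 288432 28928 659016 := s.step c97 h98 rfl
  have c99 : Cum L 16384 288432 29056 663281 := s.step c98 h99 rfl
  have c100 : Cum L 16384 288432 29184 667461 := s.step c99 h100 rfl
  have c101 : Cum L 16384 288432 29312 671722 := s.step c100 h101 rfl
  have c102 : Cum L 16384 288432 29440 676081 := s.step c101 h102 rfl
  have c103 : Cum L 16384 288432 29568 680406 := s.step c102 h103 rfl
  have c104 : Cum L 16384 288432 29696 684759 := s.step c103 h104 rfl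
  have c105 : Cum L 16384 288432 29824 689009 := s.step c104 h105 rfl
  have c106 : Cum L 16384 288432 29952 693433 := s.step c105 h106 rfl
  have c107 : Cum L 16384 288432 30080 697773 := s.step c106 h107 rfl
  have c108 : Cum L 16384 288432 30208 702014 := s.step c107 h108 rfl
  have c109 : Cum L 16384 288432 30336 706400 := s.step c108 h109 rfl
  have c110 : Cum L 16384 288432 30464 710743 := s.step c109 h110 rfl
  have c111 : Cum L 16384 288432 30592 715128 := s.step c110 h111 rfl
  have c112 : Cum L 16384 288432 30720 719464 := s.step c111 h112 rfl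
  have c113 : Cum L 16384 288432 30848 723885 := s.step c112 h113 rfl
  have c114 : Cum L 16384 288432 30976 728224 := s.step c113 h114 rfl
  have c115 : Cum L 16384 288432 31104 732537 := s.step c114 h115 rfl
  have c116 : Cum L 16384 288432 31232 736916 := s.step c115 h116 rfl
  have c117 : Cum L 16384 288432 31360 741333 := s.step c116 h117 rfl
  have c118 : Cum L 16384 288432 31488 745826 := s.step c117 h118 rfl
  have c119 : Cum L 16384 288432 31616 750234 := s.step c118 h119 rfl
  have c120 : Cum L 16384 288432 31744 754658 := s.step c119 h120 rfl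
  have c121 : Cum L 16384 288432 31872 759169 := s.step c120 h121 rfl
  have c122 : Cum L 16384 288432 32000 763587 := s.step c121 h122 rfl
  have c123 : Cum L 16384 288432 32128 768059 := s.step c122 h123 rfl
  have c124 : Cum L 16384 288432 32256 772521 := s.step c123 h124 rfl
  have c125 : Cum L 16384 288432 32384 776896 := s.step c124 h125 rfl
  have c126 : Cum L 16384 288432 32512 781434 := s.step c125 h126 rfl
  have c127 : Cum L 16384 288432 32640 785952 := s.step c126 h127 rfl
  have c128 : Cum L 16384 288432 32768 790550 := s.step c127 h128 rfl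
  exact all_cons c1 (all_cons c2 (all_cons c3 (all_cons c4 (all_cons c5 (all_cons c6 (all_cons c7 (all_cons c8 (all_cons c9 (all_cons c10 (all_cons c11 (all_cons c12 (all_cons c13 (all_cons c14 (all_cons c15 (all_cons c16 (all_cons c17 (all_cons c18 (all_cons c19 (all_cons c20 (all_cons c21 (all_cons c22 (all_cons c23 (all_cons c24 (all_cons c25 (all_cons c26 (all_cons c27 (all_cons c28 (all_cons c29 (all_cons c30 (all_cons c31 (all_cons c32 (all_cons c33 (all_cons c34 (all_cons c35 (all_cons c36 (all_cons c37 (all_cons c38 (all_cons c39 (all_cons c40 (all_cons c41 (all_cons c42 (all_cons c43 (all_cons c44 (all_cons c45 (all_cons c46 (all_cons c47 (all_cons c48 (all_cons c49 (all_cons c50 (all_cons c51 (all_cons c52 (all_cons c53 (all_cons c54 (all_cons c55 (all_cons c56 (all_cons c57 (all_cons c58 (all_cons c59 (all_cons c60 (all_cons c61 (all_cons c62 (all_cons c63 (all_cons c64 (all_cons c65 (all_cons c66 (all_cons c67 (all_cons c68 (all_cons c69 (all_cons c70 (all_cons c71 (all_cons c72 (all_cons c74 (all_cons c76 (all_cons c78 (all_cons c80 (all_cons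 c82 (all_cons c84 (all_cons c86 (all_cons c88 (all_cons c90 (all_cons c92 (all_cons c94 (all_cons c96 (all_cons c98 (all_cons c100 (all_cons c102 (all_cons c104 (all_cons c106 (all_cons c108 (all_cons c110 (all_cons c112 (all_cons c114 (all_cons c116 (all_cons c118 (all_cons c120 (all_cons c122 (all_cons c124 (all_cons c126 (all_cons c128 all_nil)))))))))))))))))))))))))))))))))))))))))))))))))))))))))))))))))))))))))))))))))))))))))))))))))))

end Pool.Agent.AddSq.KD03

namespace Pool.Agent.AddSq.KD04

set_option linter.all false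

theorem kfit : kfits 49151 98303 139025 196615 278059 393239 540672 376832 32768 3072 = true := by decide +kernel

theorem spec {W L : ℕ → Prop} (hG : GRules W L) : KSpec L S 32768 49151 :=
  KSpec.mk' hG KF.cw16 KF.cl16 kfit S_eq

theorem data {W L : ℕ → Prop} (hG : GRules W L) :
    ∀ p ∈ KL04, Cum L 32768 790550 p.1 p.2 := by
  have s := spec hG
  have c0 := Cum.start L 32768 790550
  obtain ⟨h1, h2, h3, h4, h5, h6, h7, h8, h9, h10, h11, h12, h13, h14, h15, h16, h17, h18, h19, h20, h21, h22, h23, h24, h25, h26, h27, h28, h29, h30, h31, h32, h33, h34, h35, h36, h37, h38, h39, h40, h41, h42, h43, h44, h45, h46, h47, h48, h49, h50, h51, h52, h53, h54, h55, h56, h57, h58, h59, h60, h61, h62, h63, h64⟩ := grp1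
  have c1 : Cum L 32768 790550 32896 795088 := s.step c0 h1 rfl
  have c2 : Cum L 32768 790550 33024 799520 := s.step c1 h2 rfl
  have c3 : Cum L 32768 790550 33152 804039 := s.step c2 h3 rfl
  have c4 : Cum L 32768 790550 33280 808623 := s.step c3 h4 rfl
  have c5 : Cum L 32768 790550 33408 813194 := s.step c4 h5 rfl
  have c6 : Cum L 32768 790550 33536 817760 := s.step c5 h6 rfl
  have c7 : Cum L 32768 790550 33664 822343 := s.step c6 h7 rfl
  have c8 : Cum L 32768 790550 33792 826845 := s.step c7 h8 rfl
  have c9 : Cum L 32768 790550 33920 831330 := s.step c8 h9 rfl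
  have c10 : Cum L 32768 790550 34048 836070 := s.step c9 h10 rfl
  have c11 : Cum L 32768 790550 34176 840648 := s.step c10 h11 rfl
  have c12 : Cum L 32768 790550 34304 845258 := s.step c11 h12 rfl
  have c13 : Cum L 32768 790550 34432 849883 := s.step c12 h13 rfl
  have c14 : Cum L 32768 790550 34560 854442 := s.step c13 h14 rfl
  have c15 : Cum L 32768 790550 34688 859078 := s.step c14 h15 rfl
  have c16 : Cum L 32768 790550 34816 863665 := s.step c15 h16 rfl
  have c17 : Cum L 32768 790550 34944 868477 := s.step c16 h17 rfl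
  have c18 : Cum L 32768 790550 35072 873101 := s.step c17 h18 rfl
  have c19 : Cum L 32768 790550 35200 877797 := s.step c18 h19 rfl
  have c20 : Cum L 32768 790550 35328 882640 := s.step c19 h20 rfl
  have c21 : Cum L 32768 790550 35456 887297 := s.step c20 h21 rfl
  have c22 : Cum L 32768 790550 35584 892019 := s.step c21 h22 rfl
  have c23 : Cum L 32768 790550 35712 896809 := s.step c22 h23 rfl
  have c24 : Cum L 32768 790550 35840 901429 := s.step c23 h24 rfl
  have c25 : Cum L 32768 790550 35968 906140 := s.step c24 h25 rfl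
  have c26 : Cum L 32768 790550 36096 910825 := s.step c25 h26 rfl
  have c27 : Cum L 32768 790550 36224 915575 := s.step c26 h27 rfl
  have c28 : Cum L 32768 790550 36352 920290 := s.step c27 h28 rfl
  have c29 : Cum L 32768 790550 36480 924933 := s.step c28 h29 rfl
  have c30 : Cum L 32768 790550 36608 929703 := s.step c29 h30 rfl
  have c31 : Cum L 32768 790550 36736 934505 := s.step c30 h31 rfl
  have c32 : Cum L 32768 790550 36864 939247 := s.step c31 h32 rfl
  have c33 : Cum L 32768 790550 36992 944101 := s.step c32 h33 rfl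
  have c34 : Cum L 32768 790550 37120 948831 := s.step c33 h34 rfl
  have c35 : Cum L 32768 790550 37248 953489 := s.step c34 h35 rfl
  have c36 : Cum L 32768 790550 37376 958325 := s.step c35 h36 rfl
  have c37 : Cum L 32768 790550 37504 963121 := s.step c36 h37 rfl
  have c38 : Cum L 32768 790550 37632 967868 := s.step c37 h38 rfl
  have c39 : Cum L 32768 790550 37760 972689 := s.step c38 h39 rfl
  have c40 : Cum L 32768 790550 37888 977542 := s.step c39 h40 rfl
  have c41 : Cum L 32768 790550 38016 982365 := s.step c40 h41 rfl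
  have c42 : Cum L 32768 790550 38144 987265 := s.step c41 h42 rfl
  have c43 : Cum L 32768 790550 38272 992326 := s.step c42 h43 rfl
  have c44 : Cum L 32768 790550 38400 997124 := s.step c43 h44 rfl
  have c45 : Cum L 32768 790550 38528 1001965 := s.step c44 h45 rfl
  have c46 : Cum L 32768 790550 38656 1006821 := s.step c45 h46 rfl
  have c47 : Cum L 32768 790550 38784 1011769 := s.step c46 h47 rfl
  have c48 : Cum L 32768 790550 38912 1016741 := s.step c47 h48 rfl
  have c49 : Cum L 32768 790550 39040 1021683 := s.step c48 h49 rfl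
  have c50 : Cum L 32768 790550 39168 1026450 := s.step c49 h50 rfl
  have c51 : Cum L 32768 790550 39296 1031386 := s.step c50 h51 rfl
  have c52 : Cum L 32768 790550 39424 1036395 := s.step c51 h52 rfl
  have c53 : Cum L 32768 790550 39552 1041270 := s.step c52 h53 rfl
  have c54 : Cum L 32768 790550 39680 1046260 := s.step c53 h54 rfl
  have c55 : Cum L 32768 790550 39808 1051143 := s.step c54 h55 rfl
  have c56 : Cum L 32768 790550 39936 1056112 := s.step c55 h56 rfl
  have c57 : Cum L 32768 790550 40064 1061208 := s.step c56 h57 rfl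
  have c58 : Cum L 32768 790550 40192 1066221 := s.step c57 h58 rfl
  have c59 : Cum L 32768 790550 40320 1071214 := s.step c58 h59 rfl
  have c60 : Cum L 32768 790550 40448 1076250 := s.step c59 h60 rfl
  have c61 : Cum L 32768 790550 40576 1081256 := s.step c60 h61 rfl
  have c62 : Cum L 32768 790550 40704 1086195 := s.step c61 h62 rfl
  have c63 : Cum L 32768 790550 40832 1091167 := s.step c62 h63 rfl
  have c64 : Cum L 32768 790550 40960 1096138 := s.step c63 h64 rfl
  obtain ⟨h65, h66, h67, h68, h69, h70, h71, h72, h73, h74, h75, h76, h77, h78, h79, h80, h81, h82, h83, h84, h85, h86, h87, h88, h89, h90, h91, h92, h93, h94, h95, h96, h97, h98, h99, h100, h101, h102, h103, h104, h105, h106, h107, h108, h109, h110, h111, h112, h113, h114, h115, h116, h117, h118, h119, h120, h121, h122, h123, h124, h125, h126, h127, h128⟩ := grp2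
  have c65 : Cum L 32768 790550 41088 1101112 := s.step c64 h65 rfl
  have c66 : Cum L 32768 790550 41216 1106143 := s.step c65 h66 rfl
  have c67 : Cum L 32768 790550 41344 1111100 := s.step c66 h67 rfl
  have c68 : Cum L 32768 790550 41472 1116232 := s.step c67 h68 rfl
  have c69 : Cum L 32768 790550 41600 1121295 := s.step c68 h69 rfl
  have c70 : Cum L 32768 790550 41728 1126320 := s.step c69 h70 rfl
  have c71 : Cum L 32768 790550 41856 1131411 := s.step c70 h71 rfl
  have c72 : Cum L 32768 790550 41984 1136411 := s.step c71 h72 rfl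
  have c73 : Cum L 32768 790550 42112 1141673 := s.step c72 h73 rfl
  have c74 : Cum L 32768 790550 42240 1146801 := s.step c73 h74 rfl
  have c75 : Cum L 32768 790550 42368 1151918 := s.step c74 h75 rfl
  have c76 : Cum L 32768 790550 42496 1157070 := s.step c75 h76 rfl
  have c77 : Cum L 32768 790550 42624 1162030 := s.step c76 h77 rfl
  have c78 : Cum L 32768 790550 42752 1167245 := s.step c77 h78 rfl
  have c79 : Cum L 32768 790550 42880 1172350 := s.step c78 h79 rfl
  have c80 : Cum L 32768 790550 43008 1177500 := s.step c79 h80 rfl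
  have c81 : Cum L 32768 790550 43136 1182702 := s.step c80 h81 rfl
  have c82 : Cum L 32768 790550 43264 1187935 := s.step c81 h82 rfl
  have c83 : Cum L 32768 790550 43392 1193120 := s.step c82 h83 rfl
  have c84 : Cum L 32768 790550 43520 1198321 := s.step c83 h84 rfl
  have c85 : Cum L 32768 790550 43648 1203479 := s.step c84 h85 rfl
  have c86 : Cum L 32768 790550 43776 1208854 := s.step c85 h86 rfl
  have c87 : Cum L 32768 790550 43904 1214116 := s.step c86 h87 rfl
  have c88 : Cum L 32768 790550 44032 1219377 := s.step c87 h88 rfl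
  have c89 : Cum L 32768 790550 44160 1224550 := s.step c88 h89 rfl
  have c90 : Cum L 32768 790550 44288 1229708 := s.step c89 h90 rfl
  have c91 : Cum L 32768 790550 44416 1235153 := s.step c90 h91 rfl
  have c92 : Cum L 32768 790550 44544 1240333 := s.step c91 h92 rfl
  have c93 : Cum L 32768 790550 44672 1245631 := s.step c92 h93 rfl
  have c94 : Cum L 32768 790550 44800 1250978 := s.step c93 h94 rfl
  have c95 : Cum L 32768 790550 44928 1256328 := s.step c94 h95 rfl
  have c96 : Cum L 32768 790550 45056 1261815 := s.step c95 h96 rfl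
  have c97 : Cum L 32768 790550 45184 1267212 := s.step c96 h97 rfl
  have c98 : Cum L 32768 790550 45312 1272606 := s.step c97 h98 rfl
  have c99 : Cum L 32768 790550 45440 1277770 := s.step c98 h99 rfl
  have c100 : Cum L 32768 790550 45568 1283114 := s.step c99 h100 rfl
  have c101 : Cum L 32768 790550 45696 1288430 := s.step c100 h101 rfl
  have c102 : Cum L 32768 790550 45824 1293785 := s.step c101 h102 rfl
  have c103 : Cum L 32768 790550 45952 1299097 := s.step c102 h103 rfl
  have c104 : Cum L 32768 790550 46080 1304595 := s.step c103 h104 rfl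
  have c105 : Cum L 32768 790550 46208 1309991 := s.step c104 h105 rfl
  have c106 : Cum L 32768 790550 46336 1315306 := s.step c105 h106 rfl
  have c107 : Cum L 32768 790550 46464 1320837 := s.step c106 h107 rfl
  have c108 : Cum L 32768 790550 46592 1326244 := s.step c107 h108 rfl
  have c109 : Cum L 32768 790550 46720 1331671 := s.step c108 h109 rfl
  have c110 : Cum L 32768 790550 46848 1337014 := s.step c109 h110 rfl
  have c111 : Cum L 32768 790550 46976 1342468 := s.step c110 h111 rfl
  have c112 : Cum L 32768 790550 47104 1347884 := s.step c111 h112 rfl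
  have c113 : Cum L 32768 790550 47232 1353299 := s.step c112 h113 rfl
  have c114 : Cum L 32768 790550 47360 1358793 := s.step c113 h114 rfl
  have c115 : Cum L 32768 790550 47488 1364139 := s.step c114 h115 rfl
  have c116 : Cum L 32768 790550 47616 1369590 := s.step c115 h116 rfl
  have c117 : Cum L 32768 790550 47744 1375106 := s.step c116 h117 rfl
  have c118 : Cum L 32768 790550 47872 1380477 := s.step c117 h118 rfl
  have c119 : Cum L 32768 790550 48000 1385909 := s.step c118 h119 rfl
  have c120 : Cum L 32768 790550 48128 1391272 := s.step c119 h120 rfl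
  have c121 : Cum L 32768 790550 48256 1396734 := s.step c120 h121 rfl
  have c122 : Cum L 32768 790550 48384 1402143 := s.step c121 h122 rfl
  have c123 : Cum L 32768 790550 48512 1407710 := s.step c122 h123 rfl
  have c124 : Cum L 32768 790550 48640 1413205 := s.step c123 h124 rfl
  have c125 : Cum L 32768 790550 48768 1418654 := s.step c124 h125 rfl
  have c126 : Cum L 32768 790550 48896 1424218 := s.step c125 h126 rfl
  have c127 : Cum L 32768 790550 49024 1429686 := s.step c126 h127 rfl
  have c128 : Cum L 32768 790550 49152 1435125 := s.step c127 h128 rfl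
  exact all_cons c2 (all_cons c4 (all_cons c6 (all_cons c8 (all_cons c10 (all_cons c12 (all_cons c14 (all_cons c16 (all_cons c18 (all_cons c20 (all_cons c22 (all_cons c24 (all_cons c26 (all_cons c28 (all_cons c30 (all_cons c32 (all_cons c34 (all_cons c36 (all_cons c38 (all_cons c40 (all_cons c42 (all_cons c44 (all_cons c47 (all_cons c50 (all_cons c53 (all_cons c56 (all_cons c59 (all_cons c62 (all_cons c65 (all_cons c68 (all_cons c71 (all_cons c74 (all_cons c77 (all_cons c80 (all_cons c83 (all_cons c86 (all_cons c89 (all_cons c92 (all_cons c95 (all_cons c98 (all_cons c101 (all_cons c104 (all_cons c107 (all_cons c110 (all_cons c113 (all_cons c116 (all_cons c119 (all_cons c122 (all_cons c125 (all_cons c128 all_nil)))))))))))))))))))))))))))))))))))))))))))))))))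

end Pool.Agent.AddSq.KD04

namespace Pool.Agent.AddSq.KD05

set_option linter.all false

theorem kfit : kfits 65535 131071 185365 262149 370739 524309 540672 376832 49152 4096 = true := by decide +kernel

theorem spec {W L : ℕ → Prop} (hG : GRules W L) : KSpec L S 49152 65535 :=
  KSpec.mk' hG KF.cw16 KF.cl16 kfit S_eq

theorem data {W L : ℕ → Prop} (hG : GRules W L) :
    ∀ p ∈ KL05, Cum L 49152 1435125 p.1 p.2 := by
  have s := spec hG
  have c0 := Cum.start L 49152 1435125
  obtain ⟨h1, h2, h3, h4, h5, h6, h7, h8, h9, h10, h11, h12, h13, h14, h15, h16, h17, h18, h19, h20, h21, h22, h23, h24, h25, h26, h27, h28, h29, h30, h31, h32, h33, h34, h35, h36, h37, h38, h39, h40, h41, h42, h43, h44, h45, h46, h47, h48, h49, h50, h51, h52, h53, h54, h55, h56, h57, h58, h59, h60, h61, h62, h63, h64⟩ := grp1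
  have c1 : Cum L 49152 1435125 49280 1440544 := s.step c0 h1 rfl
  have c2 : Cum L 49152 1435125 49408 1446148 := s.step c1 h2 rfl
  have c3 : Cum L 49152 1435125 49536 1451606 := s.step c2 h3 rfl
  have c4 : Cum L 49152 1435125 49664 1457057 := s.step c3 h4 rfl
  have c5 : Cum L 49152 1435125 49792 1462474 := s.step c4 h5 rfl
  have c6 : Cum L 49152 1435125 49920 1467811 := s.step c5 h6 rfl
  have c7 : Cum L 49152 1435125 50048 1473495 := s.step c6 h7 rfl
  have c8 : Cum L 49152 1435125 50176 1479075 := s.step c7 h8 rfl
  have c9 : Cum L 49152 1435125 50304 1484608 := s.step c8 h9 rfl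
  have c10 : Cum L 49152 1435125 50432 1490126 := s.step c9 h10 rfl
  have c11 : Cum L 49152 1435125 50560 1495734 := s.step c10 h11 rfl
  have c12 : Cum L 49152 1435125 50688 1501366 := s.step c11 h12 rfl
  have c13 : Cum L 49152 1435125 50816 1506923 := s.step c12 h13 rfl
  have c14 : Cum L 49152 1435125 50944 1512541 := s.step c13 h14 rfl
  have c15 : Cum L 49152 1435125 51072 1518103 := s.step c14 h15 rfl
  have c16 : Cum L 49152 1435125 51200 1523603 := s.step c15 h16 rfl
  have c17 : Cum L 49152 1435125 51328 1529217 := s.step c16 h17 rfl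
  have c18 : Cum L 49152 1435125 51456 1534829 := s.step c17 h18 rfl
  have c19 : Cum L 49152 1435125 51584 1540471 := s.step c18 h19 rfl
  have c20 : Cum L 49152 1435125 51712 1546278 := s.step c19 h20 rfl
  have c21 : Cum L 49152 1435125 51840 1552091 := s.step c20 h21 rfl
  have c22 : Cum L 49152 1435125 51968 1557675 := s.step c21 h22 rfl
  have c23 : Cum L 49152 1435125 52096 1563400 := s.step c22 h23 rfl
  have c24 : Cum L 49152 1435125 52224 1569092 := s.step c23 h24 rfl
  have c25 : Cum L 49152 1435125 52352 1574812 := s.step c24 h25 rfl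
  have c26 : Cum L 49152 1435125 52480 1580425 := s.step c25 h26 rfl
  have c27 : Cum L 49152 1435125 52608 1586156 := s.step c26 h27 rfl
  have c28 : Cum L 49152 1435125 52736 1591956 := s.step c27 h28 rfl
  have c29 : Cum L 49152 1435125 52864 1597617 := s.step c28 h29 rfl
  have c30 : Cum L 49152 1435125 52992 1603385 := s.step c29 h30 rfl
  have c31 : Cum L 49152 1435125 53120 1609202 := s.step c30 h31 rfl
  have c32 : Cum L 49152 1435125 53248 1614985 := s.step c31 h32 rfl
  have c33 : Cum L 49152 1435125 53376 1620789 := s.step c32 h33 rfl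
  have c34 : Cum L 49152 1435125 53504 1626420 := s.step c33 h34 rfl
  have c35 : Cum L 49152 1435125 53632 1632113 := s.step c34 h35 rfl
  have c36 : Cum L 49152 1435125 53760 1637713 := s.step c35 h36 rfl
  have c37 : Cum L 49152 1435125 53888 1643453 := s.step c36 h37 rfl
  have c38 : Cum L 49152 1435125 54016 1649117 := s.step c37 h38 rfl
  have c39 : Cum L 49152 1435125 54144 1654855 := s.step c38 h39 rfl
  have c40 : Cum L 49152 1435125 54272 1660660 := s.step c39 h40 rfl
  have c41 : Cum L 49152 1435125 54400 1666436 := s.step c40 h41 rfl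
  have c42 : Cum L 49152 1435125 54528 1672320 := s.step c41 h42 rfl
  have c43 : Cum L 49152 1435125 54656 1678063 := s.step c42 h43 rfl
  have c44 : Cum L 49152 1435125 54784 1683877 := s.step c43 h44 rfl
  have c45 : Cum L 49152 1435125 54912 1689760 := s.step c44 h45 rfl
  have c46 : Cum L 49152 1435125 55040 1695479 := s.step c45 h46 rfl
  have c47 : Cum L 49152 1435125 55168 1701304 := s.step c46 h47 rfl
  have c48 : Cum L 49152 1435125 55296 1707071 := s.step c47 h48 rfl
  have c49 : Cum L 49152 1435125 55424 1712877 := s.step c48 h49 rfl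
  have c50 : Cum L 49152 1435125 55552 1718787 := s.step c49 h50 rfl
  have c51 : Cum L 49152 1435125 55680 1724697 := s.step c50 h51 rfl
  have c52 : Cum L 49152 1435125 55808 1730593 := s.step c51 h52 rfl
  have c53 : Cum L 49152 1435125 55936 1736604 := s.step c52 h53 rfl
  have c54 : Cum L 49152 1435125 56064 1742358 := s.step c53 h54 rfl
  have c55 : Cum L 49152 1435125 56192 1748311 := s.step c54 h55 rfl
  have c56 : Cum L 49152 1435125 56320 1754235 := s.step c55 h56 rfl
  have c57 : Cum L 49152 1435125 56448 1760139 := s.step c56 h57 rfl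
  have c58 : Cum L 49152 1435125 56576 1766066 := s.step c57 h58 rfl
  have c59 : Cum L 49152 1435125 56704 1771958 := s.step c58 h59 rfl
  have c60 : Cum L 49152 1435125 56832 1777937 := s.step c59 h60 rfl
  have c61 : Cum L 49152 1435125 56960 1783738 := s.step c60 h61 rfl
  have c62 : Cum L 49152 1435125 57088 1789697 := s.step c61 h62 rfl
  have c63 : Cum L 49152 1435125 57216 1795656 := s.step c62 h63 rfl
  have c64 : Cum L 49152 1435125 57344 1801579 := s.step c63 h64 rfl
  obtain ⟨h65, h66, h67, h68, h69, h70, h71, h72, h73, h74, h75, h76, h77, h78, h79, h80, h81, h82, h83, h84, h85, h86, h87, h88, h89, h90, h91, h92, h93, h94, h95, h96, h97, h98, h99, h100, h101, h102, h103, h104, h105, h106, h107, h108, h109, h110, h111, h112, h113, h114, h115, h116, h117, h118, h119, h120, h121, h122, h123, h124, h125, h126, h127, h128⟩ := grp2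
  have c65 : Cum L 49152 1435125 57472 1807580 := s.step c64 h65 rfl
  have c66 : Cum L 49152 1435125 57600 1813526 := s.step c65 h66 rfl
  have c67 : Cum L 49152 1435125 57728 1819507 := s.step c66 h67 rfl
  have c68 : Cum L 49152 1435125 57856 1825426 := s.step c67 h68 rfl
  have c69 : Cum L 49152 1435125 57984 1831407 := s.step c68 h69 rfl
  have c70 : Cum L 49152 1435125 58112 1837311 := s.step c69 h70 rfl
  have c71 : Cum L 49152 1435125 58240 1843412 := s.step c70 h71 rfl
  have c72 : Cum L 49152 1435125 58368 1849646 := s.step c71 h72 rfl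
  have c73 : Cum L 49152 1435125 58496 1855639 := s.step c72 h73 rfl
  have c74 : Cum L 49152 1435125 58624 1861726 := s.step c73 h74 rfl
  have c75 : Cum L 49152 1435125 58752 1867724 := s.step c74 h75 rfl
  have c76 : Cum L 49152 1435125 58880 1873707 := s.step c75 h76 rfl
  have c77 : Cum L 49152 1435125 59008 1879697 := s.step c76 h77 rfl
  have c78 : Cum L 49152 1435125 59136 1885894 := s.step c77 h78 rfl
  have c79 : Cum L 49152 1435125 59264 1891966 := s.step c78 h79 rfl
  have c80 : Cum L 49152 1435125 59392 1898054 := s.step c79 h80 rfl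
  have c81 : Cum L 49152 1435125 59520 1904083 := s.step c80 h81 rfl
  have c82 : Cum L 49152 1435125 59648 1910351 := s.step c81 h82 rfl
  have c83 : Cum L 49152 1435125 59776 1916532 := s.step c82 h83 rfl
  have c84 : Cum L 49152 1435125 59904 1922651 := s.step c83 h84 rfl
  have c85 : Cum L 49152 1435125 60032 1928785 := s.step c84 h85 rfl
  have c86 : Cum L 49152 1435125 60160 1934853 := s.step c85 h86 rfl
  have c87 : Cum L 49152 1435125 60288 1940903 := s.step c86 h87 rfl
  have c88 : Cum L 49152 1435125 60416 1947016 := s.step c87 h88 rfl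
  have c89 : Cum L 49152 1435125 60544 1953156 := s.step c88 h89 rfl
  have c90 : Cum L 49152 1435125 60672 1959370 := s.step c89 h90 rfl
  have c91 : Cum L 49152 1435125 60800 1965459 := s.step c90 h91 rfl
  have c92 : Cum L 49152 1435125 60928 1971577 := s.step c91 h92 rfl
  have c93 : Cum L 49152 1435125 61056 1977772 := s.step c92 h93 rfl
  have c94 : Cum L 49152 1435125 61184 1983905 := s.step c93 h94 rfl
  have c95 : Cum L 49152 1435125 61312 1990013 := s.step c94 h95 rfl
  have c96 : Cum L 49152 1435125 61440 1996135 := s.step c95 h96 rfl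
  have c97 : Cum L 49152 1435125 61568 2002257 := s.step c96 h97 rfl
  have c98 : Cum L 49152 1435125 61696 2008554 := s.step c97 h98 rfl
  have c99 : Cum L 49152 1435125 61824 2014647 := s.step c98 h99 rfl
  have c100 : Cum L 49152 1435125 61952 2020855 := s.step c99 h100 rfl
  have c101 : Cum L 49152 1435125 62080 2027073 := s.step c100 h101 rfl
  have c102 : Cum L 49152 1435125 62208 2033391 := s.step c101 h102 rfl
  have c103 : Cum L 49152 1435125 62336 2039527 := s.step c102 h103 rfl
  have c104 : Cum L 49152 1435125 62464 2045731 := s.step c103 h104 rfl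
  have c105 : Cum L 49152 1435125 62592 2052043 := s.step c104 h105 rfl
  have c106 : Cum L 49152 1435125 62720 2058390 := s.step c105 h106 rfl
  have c107 : Cum L 49152 1435125 62848 2064759 := s.step c106 h107 rfl
  have c108 : Cum L 49152 1435125 62976 2071033 := s.step c107 h108 rfl
  have c109 : Cum L 49152 1435125 63104 2077376 := s.step c108 h109 rfl
  have c110 : Cum L 49152 1435125 63232 2083662 := s.step c109 h110 rfl
  have c111 : Cum L 49152 1435125 63360 2090081 := s.step c110 h111 rfl
  have c112 : Cum L 49152 1435125 63488 2096438 := s.step c111 h112 rfl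
  have c113 : Cum L 49152 1435125 63616 2102707 := s.step c112 h113 rfl
  have c114 : Cum L 49152 1435125 63744 2109062 := s.step c113 h114 rfl
  have c115 : Cum L 49152 1435125 63872 2115413 := s.step c114 h115 rfl
  have c116 : Cum L 49152 1435125 64000 2121835 := s.step c115 h116 rfl
  have c117 : Cum L 49152 1435125 64128 2128268 := s.step c116 h117 rfl
  have c118 : Cum L 49152 1435125 64256 2134564 := s.step c117 h118 rfl
  have c119 : Cum L 49152 1435125 64384 2140968 := s.step c118 h119 rfl
  have c120 : Cum L 49152 1435125 64512 2147430 := s.step c119 h120 rfl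
  have c121 : Cum L 49152 1435125 64640 2153740 := s.step c120 h121 rfl
  have c122 : Cum L 49152 1435125 64768 2160114 := s.step c121 h122 rfl
  have c123 : Cum L 49152 1435125 64896 2166606 := s.step c122 h123 rfl
  have c124 : Cum L 49152 1435125 65024 2172776 := s.step c123 h124 rfl
  have c125 : Cum L 49152 1435125 65152 2179224 := s.step c124 h125 rfl
  have c126 : Cum L 49152 1435125 65280 2185688 := s.step c125 h126 rfl
  have c127 : Cum L 49152 1435125 65408 2192222 := s.step c126 h127 rfl
  have c128 : Cum L 49152 1435125 65536 2198467 := s.step c127 h128 rfl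
  exact all_cons c3 (all_cons c6 (all_cons c9 (all_cons c12 (all_cons c15 (all_cons c18 (all_cons c22 (all_cons c26 (all_cons c30 (all_cons c34 (all_cons c38 (all_cons c42 (all_cons c46 (all_cons c50 (all_cons c54 (all_cons c58 (all_cons c62 (all_cons c66 (all_cons c70 (all_cons c74 (all_cons c78 (all_cons c82 (all_cons c86 (all_cons c90 (all_cons c94 (all_cons c98 (all_cons c102 (all_cons c106 (all_cons c110 (all_cons c114 (all_cons c118 (all_cons c123 (all_cons c128 all_nil))))))))))))))))))))))))))))))))

end Pool.Agent.AddSq.KD05
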