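import Pool.Agent.AddSq.LOneRange

/-!
# The certificate for lag one: assembly
-/

namespace Pool.Agent.AddSq.L1

open Finset

/-- the two possible values of `e` -/
def E1 (d : ℤ) : Finset ℤ :=
  if 0 < d then {(EP d.natAbs : ℤ), (EN d.natAbs : ℤ)}
  else {-(EP d.natAbs : ℤ), -(EN d.natAbs : ℤ)}

/-- multiplicity minus one -/
def J1 (μ : ℕ) (d e : ℤ) : ℕ :=
  JJ μ d.natAbs e.natAbs (if e.natAbs = EP d.natAbs then TP d.natAbs else TN d.natAbs)

/-- compatibility of the displacement `(d, e)` with the difference `h` -/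
def Comp (K H D : ℕ) (d e h : ℤ) : Prop :=
  (∃ k : ℤ, (K : ℤ) ≤ k ∧ k < K + H ∧
    |(h : ℝ) - 2 * Real.sqrt 2 * k * (Real.sqrt 2 * d - e)| ≤ 6 * D) ∧
  (∃ k m : ℤ, h = 2 * (2 * d * k - e * m) + 2 * d ^ 2 - e ^ 2)

theorem Comp.neg {K H D : ℕ} {d e h : ℤ} (hc : Comp K H D d e h) :
    Comp K H D (-d) (-e) (-h) := by
  obtain ⟨⟨k, h1, h2, h3⟩, ⟨k', m, h4⟩⟩ := hc
  refine ⟨⟨k, h1, h2, ?_⟩, ⟨k' + d, m + e, ?_⟩⟩
  · have e1 : ((-h : ℤ) : ℝ) - 2 * Real.sqrt 2 * k * (Real.sqrt 2 * ((-d : ℤ) : ℝ) - ((-e : ℤ) : ℝ))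
        = -((h : ℝ) - 2 * Real.sqrt 2 * k * (Real.sqrt 2 * d - e)) := by push_cast; ring
    rw [e1, abs_neg]
    exact h3
  · rw [h4]; ring

/-- class of `h` -/
def clh (h : ℤ) : ℕ := if h % 2 = 1 then 0 else if h % 4 = 2 then 1 else 2

theorem cl_eq {d e h : ℤ} (hc : ∃ k m : ℤ, h = 2 * (2 * d * k - e * m) + 2 * d ^ 2 - e ^ 2) :
    cl d.natAbs e.natAbs = clh h := by
  obtain ⟨k, m, hh⟩ := hc
  unfold cl clh
  rcases Int.even_or_odd e with he | he
  · -- `e` even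
    obtain ⟨f, hf⟩ := he
    have e1 : e.natAbs % 2 = 0 := by omega
    have e2 : (e.natAbs % 2 == 1) = false := by rw [e1]; rfl
    rw [e2, cond_false]
    rcases Int.even_or_odd d with hd | hd
    · obtain ⟨c, hc⟩ := hd
      have e3 : (d.natAbs + 1) % 2 = 1 := by omega
      have e4 : h = 4 * (2 * c * k - f * m + 2 * c ^ 2 - f ^ 2) := by
        rw [hh, hf, hc]; ring
      rw [e3, if_neg (by omega), if_neg (by omega)]
    · obtain ⟨c, hc⟩ := hd
      have e3 : (d.natAbs + 1) % 2 = 0 := by omega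
      have e4 : h = 4 * (2 * c * k + k - f * m + 2 * c ^ 2 + 2 * c - f ^ 2) + 2 := by
        rw [hh, hf, hc]; ring
      rw [e3, if_neg (by omega), if_pos (by omega)]
  · -- `e` odd
    obtain ⟨f, hf⟩ := he
    have e1 : e.natAbs % 2 = 1 := by omega
    have e2 : (e.natAbs % 2 == 1) = true := by rw [e1]; rfl
    rw [e2, cond_true]
    have e4 : h = 2 * (2 * d * k - e * m + d ^ 2 - 2 * f ^ 2 - 2 * f - 1) + 1 := by
      rw [hh, hf]; ring
    rw [if_pos (by omega)]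

/-- comparison of two compatible displacements -/
theorem ratio {K H D p q sl T T' : ℕ} {h t t' : ℝ} {k k' : ℤ} (hK : 1 ≤ K)
    (hk : (K : ℤ) ≤ k) (hk' : k' < K + H)
    (hKk' : (K : ℤ) ≤ k') (ht0 : 0 ≤ t) (ht0' : 0 ≤ t')
    (c1 : |h - 2 * Real.sqrt 2 * k * t| ≤ 6 * D) (c2 : |h - 2 * Real.sqrt 2 * k' * t'| ≤ 6 * D)
    (hT : (T : ℝ) - D ≤ 1000000000000 * t) (hT' : 1000000000000 * t' ≤ (T' : ℝ) + D)
    (h3 : (p + q) * D * K + 6 * q * D * 1000000000000 ≤ sl * K)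
    (hKH : q * (K + H) ≤ p * K) : q * T ≤ p * T' + sl := by
  have hs := one_le_sqrt2
  set s := Real.sqrt 2 with hs'
  have hKr : (1 : ℝ) ≤ K := by exact_mod_cast hK
  have a1 : (K : ℝ) ≤ k := by exact_mod_cast hk
  have a2 : (k' : ℝ) ≤ K + H := by exact_mod_cast hk'.le
  have a3 : (K : ℝ) ≤ k' := by exact_mod_cast hKk'
  have b1 := (abs_le.mp c1).1
  have b2 := (abs_le.mp c2).2
  have hD0 : (0 : ℝ) ≤ D := by positivity
  -- `2 s k t ≤ 2 s k' t' + 12 D`
  have d1 : 2 * s * k * t ≤ 2 * s * k' * t' + 12 * D := by linarith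
  have d2 : s * (K * t) ≤ s * ((K + H) * t' + 6 * D) := by
    have p1 : s * (K * t) ≤ s * k * t := by
      have : (K : ℝ) * t ≤ k * t := mul_le_mul_of_nonneg_right a1 ht0
      calc s * (K * t) ≤ s * (k * t) := mul_le_mul_of_nonneg_left this (by linarith)
        _ = s * k * t := by ring
    have p2 : s * k' * t' ≤ s * ((K + H) * t') := by
      have : (k' : ℝ) * t' ≤ (K + H) * t' := mul_le_mul_of_nonneg_right a2 ht0'
      calc s * k' * t' = s * (k' * t') := by ring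
        _ ≤ s * ((K + H) * t') := mul_le_mul_of_nonneg_left this (by linarith)
    have p3 : (6 : ℝ) * D ≤ s * (6 * D) := by nlinarith
    nlinarith
  have d3 : (K : ℝ) * t ≤ (K + H) * t' + 6 * D := le_of_mul_le_mul_left d2 (by linarith)
  have hKH0 : (0 : ℝ) ≤ (K : ℝ) + H := by positivity
  have d4 : (K : ℝ) * (T - D) ≤ (K + H) * (T' + D) + 6 * D * 1000000000000 := by
    have p1 : (K : ℝ) * (T - D) ≤ K * (1000000000000 * t) :=
      mul_le_mul_of_nonneg_left hT (by linarith)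
    have p2 : ((K : ℝ) + H) * (1000000000000 * t') ≤ (K + H) * (T' + D) :=
      mul_le_mul_of_nonneg_left hT' hKH0
    nlinarith
  have h3' : ((p : ℝ) + q) * D * K + 6 * q * D * 1000000000000 ≤ sl * K := by exact_mod_cast h3
  have hKH' : (q : ℝ) * (K + H) ≤ p * K := by exact_mod_cast hKH
  have hq0 : (0 : ℝ) ≤ q := by positivity
  have d5 : (q : ℝ) * ((K + H) * (T' + D)) ≤ p * K * (T' + D) := by
    have : (0 : ℝ) ≤ (T' : ℝ) + D := by positivity
    calc (q : ℝ) * ((K + H) * (T' + D)) = (q * (K + H)) * (T' + D) := by ring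
      _ ≤ p * K * (T' + D) := mul_le_mul_of_nonneg_right hKH' this
  have d6 : (q : ℝ) * (K * (T - D)) ≤ q * ((K + H) * (T' + D) + 6 * D * 1000000000000) :=
    mul_le_mul_of_nonneg_left d4 hq0
  have d7 : ((q : ℝ) * T) * K ≤ (p * T' + sl) * K := by nlinarith
  have d8 : (q : ℝ) * T ≤ p * T' + sl := le_of_mul_le_mul_right d7 (by linarith)
  exact_mod_cast d8

/-- the value of `t` for the type `P` -/
theorem valP {D δ : ℕ} (hδ : δ ≤ D - 1) :
    (TP δ : ℝ) - D ≤ 1000000000000 * (Real.sqrt 2 * δ - EP δ) ∧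
    1000000000000 * (Real.sqrt 2 * δ - EP δ) ≤ (TP δ : ℝ) + D := by
  have h1 := tp_le δ
  have h2 := le_tp δ
  have h3 : (δ : ℝ) ≤ D := by exact_mod_cast (by omega : δ ≤ D)
  constructor <;> linarith [(Nat.cast_nonneg δ : (0 : ℝ) ≤ δ)]

theorem valN {D δ : ℕ} (hδ : δ ≤ D - 1) :
    (TN δ : ℝ) - D ≤ 1000000000000 * (EN δ - Real.sqrt 2 * δ) ∧
    1000000000000 * (EN δ - Real.sqrt 2 * δ) ≤ (TN δ : ℝ) + D := by
  have h1 := tn_le δ
  have h2 := tn_ge δ
  have h3 : (δ : ℝ) ≤ D := by exact_mod_cast (by omega : δ ≤ D)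
  constructor <;> linarith [(Nat.cast_nonneg δ : (0 : ℝ) ≤ δ)]

/-- a compatible displacement with `h ≥ 0` has `t > 0` -/
theorem not_comp_neg {K H D tm : ℕ} {d e h : ℤ} (hD : 1 ≤ D)
    (h1 : 4 * D * 1000000000000 ≤ K * (tm - D)) (htm : D < tm) (hh : 0 ≤ h)
    (ht : Real.sqrt 2 * d - e < 0)
    (ht2 : (tm : ℝ) - D ≤ 1000000000000 * (e - Real.sqrt 2 * d)) : ¬ Comp K H D d e h := by
  rintro ⟨⟨k, hk1, hk2, hk3⟩, _⟩
  have hs := one_le_sqrt2
  set s := Real.sqrt 2 with hs'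
  have hhr : (0 : ℝ) ≤ h := by exact_mod_cast hh
  have hk : (K : ℝ) ≤ k := by exact_mod_cast hk1
  have hK0 : (0 : ℝ) ≤ K := by positivity
  have b := (abs_le.mp hk3).2
  have h1' : (4 : ℝ) * D * 1000000000000 ≤ K * (tm - D) := by
    have : (4 * D * 1000000000000 : ℝ) ≤ K * ((tm - D : ℕ) : ℝ) := by exact_mod_cast h1
    rw [Nat.cast_sub htm.le] at this
    exact this
  have hDr : (1 : ℝ) ≤ D := by exact_mod_cast hD
  set u : ℝ := e - s * d with hu
  have hu0 : 0 < u := by linarith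
  have e1 : s * d - e = -u := by rw [hu]; ring
  rw [e1] at b
  -- `2 s k u ≤ 6 D`
  have c1 : 2 * s * k * u ≤ 6 * D := by linarith
  have c2 : (K : ℝ) * u ≤ s * k * u := by
    have p1 : (K : ℝ) * u ≤ k * u := mul_le_mul_of_nonneg_right hk hu0.le
    have p2 : (0 : ℝ) ≤ k * u := mul_nonneg (by linarith) hu0.le
    nlinarith
  have c3 : (K : ℝ) * (tm - D) ≤ K * (1000000000000 * u) :=
    mul_le_mul_of_nonneg_left ht2 hK0
  nlinarith

theorem natAbs_two_mul (d : ℤ) : (2 * d).natAbs = 2 * d.natAbs := by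
  rw [Int.natAbs_mul]
  rfl

/-- `|t| ≥ (T - D)/10^12`, `T ≥ tm`, `e ≠ 0` -/
theorem e1_facts {D μ K₀ tm : ℕ} (hgood : goodFrom D μ K₀ tm (D - 1) = true) (htm : D < tm)
    {d e : ℤ} (hd : d ≠ 0) (hd2 : |d| < D) (he : e ∈ E1 d) :
    e ≠ 0 ∧ ∃ T : ℕ, tm ≤ T ∧
      (if e.natAbs = EP d.natAbs then TP d.natAbs else TN d.natAbs) = T ∧
      (T : ℝ) - D ≤ 1000000000000 * |Real.sqrt 2 * d - e| ∧
      okT D μ K₀ d.natAbs e.natAbs T = true := by
  have hδ1 : 1 ≤ d.natAbs := by omega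
  have hδ2 : d.natAbs ≤ D - 1 := by
    have : ((d.natAbs : ℕ) : ℤ) = |d| := (Int.abs_eq_natAbs d).symm
    omega
  have hdabs : |(d : ℝ)| = (d.natAbs : ℝ) := by
    rw [Nat.cast_natAbs]; push_cast; rfl
  unfold E1 at he
  generalize hδ : d.natAbs = δ at *
  obtain ⟨g1, g2, g3, g4⟩ := good_spec hgood hδ1 hδ2
  have hP := valP hδ2
  have hN := valN hδ2
  have hEP1 : 1 ≤ EP δ := by
    unfold EP S2
    rw [Nat.le_div_iff_mul_le (by norm_num)]
    omega
  have htmr : (D : ℝ) < tm := by exact_mod_cast htm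
  have g1r : (tm : ℝ) ≤ TP δ := by exact_mod_cast g1
  have g2r : (tm : ℝ) ≤ TN δ := by exact_mod_cast g2
  have pP : 0 < Real.sqrt 2 * δ - EP δ := by nlinarith
  have pN : 0 < (EN δ : ℝ) - Real.sqrt 2 * δ := by nlinarith
  have hne : EN δ ≠ EP δ := by unfold EN; omega
  have hEN1 : 1 ≤ EN δ := by unfold EN; omega
  split_ifs at he with hpos
  · have hdr : (d : ℝ) = δ := by rw [← hdabs, abs_of_pos]; exact_mod_cast hpos
    rw [mem_insert, mem_singleton] at he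
    rcases he with he | he
    · refine ⟨by rw [he]; omega, TP δ, g1, ?_, ?_, ?_⟩
      · rw [he, Int.natAbs_natCast, if_pos rfl]
      · rw [he, hdr, Int.cast_natCast, abs_of_pos pP]
        exact hP.1
      · rw [he, Int.natAbs_natCast]
        exact g3
    · refine ⟨by rw [he]; omega, TN δ, g2, ?_, ?_, ?_⟩
      · rw [he, Int.natAbs_natCast, if_neg hne]
      · rw [he, hdr, Int.cast_natCast, abs_sub_comm, abs_of_pos pN]
        exact hN.1
      · rw [he, Int.natAbs_natCast]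
        exact g4
  · have hneg : d < 0 := by omega
    have hdr : (d : ℝ) = -δ := by
      rw [← hdabs, abs_of_neg (by exact_mod_cast hneg)]; ring
    rw [mem_insert, mem_singleton] at he
    rcases he with he | he
    · refine ⟨by rw [he]; omega, TP δ, g1, ?_, ?_, ?_⟩
      · rw [he, Int.natAbs_neg, Int.natAbs_natCast, if_pos rfl]
      · rw [he, hdr, Int.cast_neg, Int.cast_natCast]
        have : Real.sqrt 2 * (-(δ : ℝ)) - -(EP δ : ℝ) = -(Real.sqrt 2 * δ - EP δ) := by ring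
        rw [this, abs_neg, abs_of_pos pP]
        exact hP.1
      · rw [he, Int.natAbs_neg, Int.natAbs_natCast]
        exact g3
    · refine ⟨by rw [he]; omega, TN δ, g2, ?_, ?_, ?_⟩
      · rw [he, Int.natAbs_neg, Int.natAbs_natCast, if_neg hne]
      · rw [he, hdr, Int.cast_neg, Int.cast_natCast]
        have : Real.sqrt 2 * (-(δ : ℝ)) - -(EN δ : ℝ) = (EN δ : ℝ) - Real.sqrt 2 * δ := by ring
        rw [this, abs_of_pos pN]
        exact hN.1
      · rw [he, Int.natAbs_neg, Int.natAbs_natCast]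
        exact g4

/-- the real inequality behind `hJ1` -/
theorem real_hJ {c K K₀ D T μ g J t x : ℝ} (hc : 0 < c) (hK₀ : 0 < K₀) (hK : K₀ ≤ K)
    (hμ : 0 < μ) (hJ : 0 ≤ J) (hx : 0 ≤ x)
    (h1 : T - D ≤ c * t) (h2 : μ * (2 * K₀ * D + x * c) ≤ (2 * μ - c) * K₀ * T)
    (h3 : g * μ < T * (J + 1)) : g * K < (J + 1) * (2 * t * K - x) := by
  have hKpos : 0 < K := lt_of_lt_of_le hK₀ hK
  -- the inequality `h2` for `K`
  have a1 : K * (μ * (2 * K₀ * D + x * c)) ≤ K * ((2 * μ - c) * K₀ * T) :=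
    mul_le_mul_of_nonneg_left h2 hKpos.le
  have a2 : μ * (x * c) * K₀ ≤ μ * (x * c) * K :=
    mul_le_mul_of_nonneg_left hK (by positivity)
  have a3 : K₀ * (μ * (2 * K * D + x * c)) ≤ K₀ * ((2 * μ - c) * K * T) := by
    have e1 : K * (μ * (2 * K₀ * D + x * c)) = K₀ * (μ * (2 * K * D)) + μ * (x * c) * K := by
      ring
    have e2 : K₀ * (μ * (2 * K * D + x * c)) = K₀ * (μ * (2 * K * D)) + μ * (x * c) * K₀ := by
      ring
    have e3 : K * ((2 * μ - c) * K₀ * T) = K₀ * ((2 * μ - c) * K * T) := by ring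
    rw [e1, e3] at a1
    rw [e2]
    linarith
  have a4 : μ * (2 * K * D + x * c) ≤ (2 * μ - c) * K * T := le_of_mul_le_mul_left a3 hK₀
  have b1 : 2 * K * (T - D) ≤ 2 * K * (c * t) :=
    mul_le_mul_of_nonneg_left h1 (by linarith)
  have b2 : μ * (2 * K * (T - D)) ≤ μ * (2 * K * (c * t)) := mul_le_mul_of_nonneg_left b1 hμ.le
  have b3 : c * (K * T) ≤ c * (μ * (2 * t * K - x)) := by
    have e1 : c * (μ * (2 * t * K - x)) = μ * (2 * K * (c * t)) - μ * (x * c) := by ring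
    have e2 : μ * (2 * K * (T - D)) = 2 * μ * K * T - μ * (2 * K * D) := by ring
    have e3 : (2 * μ - c) * K * T = 2 * μ * K * T - c * (K * T) := by ring
    have e4 : μ * (2 * K * D + x * c) = μ * (2 * K * D) + μ * (x * c) := by ring
    rw [e1]
    rw [e2] at b2
    rw [e3, e4] at a4
    linarith
  have b4 : K * T ≤ μ * (2 * t * K - x) := le_of_mul_le_mul_left b3 hc
  have b5 : (J + 1) * (K * T) ≤ (J + 1) * (μ * (2 * t * K - x)) :=
    mul_le_mul_of_nonneg_left b4 (by linarith)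
  have b6 : (g * μ) * K < (T * (J + 1)) * K := mul_lt_mul_of_pos_right h3 hKpos
  have b7 : μ * (g * K) < μ * ((J + 1) * (2 * t * K - x)) := by
    have e1 : μ * (g * K) = (g * μ) * K := by ring
    have e2 : μ * ((J + 1) * (2 * t * K - x)) = (J + 1) * (μ * (2 * t * K - x)) := by ring
    have e3 : (J + 1) * (K * T) = (T * (J + 1)) * K := by ring
    rw [e1, e2]
    rw [e3] at b5
    linarith
  exact lt_of_mul_lt_mul_left b7 hμ.le

/-- `hJ` of `lag1` -/
theorem hJ1 {D tm μ K₀ K : ℕ} (hgood : goodFrom D μ K₀ tm (D - 1) = true) (htm : D < tm)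
    (h1 : 4 * D * 1000000000000 ≤ K * (tm - D)) (hK0 : 1 ≤ K₀) (hKK : K₀ ≤ K)
    (hμ : 1000000000000 ≤ 2 * μ)
    (d : ℤ) (hd : d ≠ 0) (hd2 : |d| < D) (e : ℤ) (he : e ∈ E1 d) :
    e ≠ 0 ∧ 4 * |(d : ℝ)| ≤ |Real.sqrt 2 * d - e| * K ∧
      ((Int.gcd (2 * d) e : ℕ) : ℝ) * K <
        (J1 μ d e + 1) * (2 * |Real.sqrt 2 * d - e| * K - 2 * |(e : ℝ)| - 2 * |(d : ℝ)|) := by
  obtain ⟨he0, T, hT1, hT2, hT3, hT4⟩ := e1_facts hgood htm hd hd2 he
  have hdD : |(d : ℝ)| ≤ (D : ℝ) := by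
    have : |d| ≤ (D : ℤ) := by omega
    exact_mod_cast this
  have h1' : (4 : ℝ) * D * 1000000000000 ≤ K * (tm - D) := by
    have : (4 * D * 1000000000000 : ℝ) ≤ K * ((tm - D : ℕ) : ℝ) := by exact_mod_cast h1
    rw [Nat.cast_sub htm.le] at this
    exact this
  have hTr : (tm : ℝ) ≤ T := by exact_mod_cast hT1
  have hgcd : Int.gcd (2 * d) e = Nat.gcd (2 * d.natAbs) e.natAbs := by
    unfold Int.gcd
    rw [natAbs_two_mul]
  have hJ : J1 μ d e = (Nat.gcd (2 * d.natAbs) e.natAbs * μ) / T := by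
    unfold J1 JJ
    rw [hT2]
  have hT0 : 0 < T := by omega
  have j1 : Nat.gcd (2 * d.natAbs) e.natAbs * μ <
      T * ((Nat.gcd (2 * d.natAbs) e.natAbs * μ) / T + 1) := Nat.lt_mul_div_succ _ hT0
  rw [← hJ, ← hgcd] at j1
  have j1r : ((Int.gcd (2 * d) e : ℕ) : ℝ) * μ < T * ((J1 μ d e : ℕ) + 1) := by
    exact_mod_cast j1
  have ok : μ * (2 * K₀ * D + 2 * (e.natAbs + d.natAbs) * 1000000000000) ≤
      (2 * μ - 1000000000000) * K₀ * T := Nat.le_of_ble_eq_true hT4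
  have hdabs : |(d : ℝ)| = (d.natAbs : ℝ) := by
    rw [Nat.cast_natAbs]; push_cast; rfl
  have heabs : |(e : ℝ)| = (e.natAbs : ℝ) := by
    rw [Nat.cast_natAbs]; push_cast; rfl
  have okr : (μ : ℝ) * (2 * K₀ * D + (2 * |(e : ℝ)| + 2 * |(d : ℝ)|) * 1000000000000) ≤
      (2 * μ - 1000000000000) * K₀ * T := by
    have : (μ * (2 * K₀ * D + 2 * (e.natAbs + d.natAbs) * 1000000000000) : ℝ) ≤
        ((2 * μ - 1000000000000 : ℕ) : ℝ) * K₀ * T := by exact_mod_cast ok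
    rw [Nat.cast_sub hμ] at this
    push_cast at this
    rw [hdabs, heabs]
    have e1 : (2 * (e.natAbs : ℝ) + 2 * (d.natAbs : ℝ)) = 2 * ((e.natAbs : ℝ) + d.natAbs) := by
      ring
    rw [e1]
    exact this
  have hμr : (1000000000000 : ℝ) ≤ 2 * μ := by exact_mod_cast hμ
  have hKr : (0 : ℝ) < K₀ := by exact_mod_cast hK0
  have hKKr : (K₀ : ℝ) ≤ K := by exact_mod_cast hKK
  clear ok h1 hμ hT4
  refine ⟨he0, ?_, ?_⟩
  · have p1 : (K : ℝ) * (tm - D) ≤ K * (1000000000000 * |Real.sqrt 2 * d - e|) :=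
      mul_le_mul_of_nonneg_left (by linarith) (by linarith)
    linarith
  · have key := real_hJ (c := 1000000000000) (t := |Real.sqrt 2 * d - e|)
      (x := 2 * |(e : ℝ)| + 2 * |(d : ℝ)|) (J := (J1 μ d e : ℕ)) (by norm_num) hKr hKKr
      (by linarith) (by positivity) (by positivity) hT3 okr j1r
    have e1 : 2 * |Real.sqrt 2 * (d : ℝ) - e| * K - 2 * |(e : ℝ)| - 2 * |(d : ℝ)| =
        2 * |Real.sqrt 2 * (d : ℝ) - e| * K - (2 * |(e : ℝ)| + 2 * |(d : ℝ)|) := by ring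
    rw [e1]
    exact key

/-- `hE` of `lag1` -/
theorem hE1 {D μ K₀ tm K H : ℕ} (hgood : goodFrom D μ K₀ tm (D - 1) = true) (htm : D < tm)
    (hK2 : 2 * D ^ 2 ≤ K) (d : ℤ) (hd : d ≠ 0) (hd2 : |d| < D) (k m m' a b b' : ℤ)
    (k1 : (K : ℤ) ≤ k) (k2 : k < K + H) (k3 : (K : ℤ) ≤ k + d) (_k4 : k + d < K + H)
    (s : Sol k m a b) (s' : Sol (k + d) m' a b') :
    m' - m ∈ E1 d ∧ Comp K H D d (m' - m) (b' - b) := by
  have hdd : 2 * d ^ 2 ≤ (K : ℤ) := by
    have p1 : d ^ 2 ≤ (D : ℤ) ^ 2 := sq_le_sq' (by linarith [(abs_lt.mp hd2).1])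
      (by linarith [(abs_lt.mp hd2).2])
    have p2 : 2 * (D : ℤ) ^ 2 ≤ K := by exact_mod_cast hK2
    linarith
  have ht := range_real s s' hd (hdd.trans k1) (hdd.trans k3)
  have hh := range_h s s' ht
  have hdD : |(d : ℝ)| ≤ (D : ℝ) - 1 := by
    have : |d| ≤ (D : ℤ) - 1 := by omega
    exact_mod_cast this
  refine ⟨?_, ⟨k, k1, k2, ?_⟩, ⟨k, m, ?_⟩⟩
  · unfold E1
    have hdabs : |(d : ℝ)| = (d.natAbs : ℝ) := by
      rw [Nat.cast_natAbs]; push_cast; rfl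
    have hδ1 : 1 ≤ d.natAbs := by omega
    have hδ2 : d.natAbs ≤ D - 1 := by
      have : ((d.natAbs : ℕ) : ℤ) = |d| := (Int.abs_eq_natAbs d).symm
      omega
    generalize hδ : d.natAbs = δ at *
    obtain ⟨g1, g2, _, _⟩ := good_spec hgood hδ1 hδ2
    have hP := valP hδ2
    have hN := valN hδ2
    have htmr : (D : ℝ) < tm := by exact_mod_cast htm
    have g1r : (tm : ℝ) ≤ TP δ := by exact_mod_cast g1
    have g2r : (tm : ℝ) ≤ TN δ := by exact_mod_cast g2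
    have pP : 0 < Real.sqrt 2 * δ - EP δ := by nlinarith
    have pN : 0 < (EN δ : ℝ) - Real.sqrt 2 * δ := by nlinarith
    obtain ⟨l1, l2⟩ := abs_lt.mp ht
    split_ifs with hpos
    · have hdr : (d : ℝ) = δ := by rw [← hdabs, abs_of_pos]; exact_mod_cast hpos
      rw [hdr] at l1 l2
      have q1 : ((EP δ : ℤ) : ℝ) - 1 < ((m' - m : ℤ) : ℝ) := by
        push_cast; linarith
      have q2 : ((m' - m : ℤ) : ℝ) < ((EN δ : ℤ) : ℝ) + 1 := by
        push_cast; linarith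
      have q1' : (EP δ : ℤ) - 1 < m' - m := by exact_mod_cast q1
      have q2' : m' - m < (EN δ : ℤ) + 1 := by exact_mod_cast q2
      have q3 : (EN δ : ℤ) = EP δ + 1 := by unfold EN; push_cast; rfl
      rw [mem_insert, mem_singleton]
      omega
    · have hneg : d < 0 := by omega
      have hdr : (d : ℝ) = -δ := by
        rw [← hdabs, abs_of_neg (by exact_mod_cast hneg)]; ring
      rw [hdr] at l1 l2
      have q1 : ((EP δ : ℤ) : ℝ) - 1 < -((m' - m : ℤ) : ℝ) := by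
        push_cast; linarith
      have q2 : -((m' - m : ℤ) : ℝ) < ((EN δ : ℤ) : ℝ) + 1 := by
        push_cast; linarith
      have q1' : (EP δ : ℤ) - 1 < -(m' - m) := by exact_mod_cast q1
      have q2' : -(m' - m) < (EN δ : ℤ) + 1 := by exact_mod_cast q2
      have q3 : (EN δ : ℤ) = EP δ + 1 := by unfold EN; push_cast; rfl
      rw [mem_insert, mem_singleton]
      omega
  · linarith
  · exact s.line s' rfl

end Pool.Agent.AddSq.L1
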