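import Pool.Agent.AddSq.Lag1

/-!
# The certificate for the counting lemma

Range of the displacement `(d, e)`, the congruence class and the finite check.
-/

namespace Pool.Agent.AddSq.L1

open Finset

/-! ## Integer data -/

/-- `⌊√2 · 10^12⌋` -/
def S2 : ℕ := 1414213562373

/-- `⌊√2 δ⌋` -/
def EP (δ : ℕ) : ℕ := (S2 * δ) / 1000000000000

/-- `10^12 (√2 δ - EP δ)` -/
def TP (δ : ℕ) : ℕ := (S2 * δ) % 1000000000000

/-- `⌈√2 δ⌉` -/
def EN (δ : ℕ) : ℕ := EP δ + 1

/-- `10^12 (EN δ - √2 δ)` -/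
def TN (δ : ℕ) : ℕ := 1000000000000 - TP δ

/-- the class of a displacement -/
def cl (δ e : ℕ) : ℕ := bif e % 2 == 1 then 0 else 1 + (δ + 1) % 2

/-- the multiplicity minus one -/
def JJ (μ δ e T : ℕ) : ℕ := (Nat.gcd (2 * δ) e * μ) / T

/-- the weight of a displacement -/
def WW (D μ δ e T : ℕ) : ℕ := (D - δ) * (JJ μ δ e T + 1)

/-- contribution of a displacement to the window below `x` -/
def ctr (D p q sl μ x c δ e T : ℕ) : ℕ :=
  bif (cl δ e == c) && (Nat.ble T x && Nat.ble (q * x) (p * T + sl)) then WW D μ δ e T else 0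

/-- the sum over the window below `x` -/
def acc (D p q sl μ x c : ℕ) : ℕ → ℕ
  | 0 => 0
  | δ + 1 => acc D p q sl μ x c δ + (ctr D p q sl μ x c (δ + 1) (EP (δ + 1)) (TP (δ + 1)) +
      ctr D p q sl μ x c (δ + 1) (EN (δ + 1)) (TN (δ + 1)))

/-- the check of all windows -/
def certFrom (D p q sl μ M : ℕ) : ℕ → Bool
  | 0 => true
  | δ + 1 => certFrom D p q sl μ M δ &&
      (Nat.ble (acc D p q sl μ (TP (δ + 1)) (cl (δ + 1) (EP (δ + 1))) (D - 1)) M &&
       Nat.ble (acc D p q sl μ (TN (δ + 1)) (cl (δ + 1) (EN (δ + 1))) (D - 1)) M)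

/-- the multiplicity bound holds from `K₀` on -/
def okT (D μ K₀ δ e T : ℕ) : Bool :=
  Nat.ble (μ * (2 * K₀ * D + 2 * (e + δ) * 1000000000000)) ((2 * μ - 1000000000000) * K₀ * T)

/-- lower bound for all `T`, and the multiplicity bounds -/
def goodFrom (D μ K₀ tm : ℕ) : ℕ → Bool
  | 0 => true
  | δ + 1 => goodFrom D μ K₀ tm δ && (Nat.ble tm (TP (δ + 1)) && (Nat.ble tm (TN (δ + 1)) &&
      (okT D μ K₀ (δ + 1) (EP (δ + 1)) (TP (δ + 1)) &&
        okT D μ K₀ (δ + 1) (EN (δ + 1)) (TN (δ + 1)))))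

/-! ## Real approximations -/

theorem s2_le : (S2 : ℝ) ≤ Real.sqrt 2 * 1000000000000 := by
  have h : (S2 : ℝ) / 1000000000000 ≤ Real.sqrt 2 := by
    apply Real.le_sqrt_of_sq_le
    unfold S2
    norm_num
  rw [div_le_iff₀ (by norm_num)] at h
  exact h

theorem s2_lt : Real.sqrt 2 * 1000000000000 < (S2 : ℝ) + 1 := by
  have h : Real.sqrt 2 < ((S2 : ℝ) + 1) / 1000000000000 := by
    rw [Real.sqrt_lt' (by unfold S2; norm_num)]
    unfold S2
    norm_num
  rw [lt_div_iff₀ (by norm_num)] at h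
  exact h

theorem TP_lt (δ : ℕ) : TP δ < 1000000000000 := Nat.mod_lt _ (by norm_num)

theorem ep_tp (δ : ℕ) : (1000000000000 : ℝ) * EP δ + TP δ = S2 * δ := by
  have : 1000000000000 * EP δ + TP δ = S2 * δ := Nat.div_add_mod _ _
  exact_mod_cast this

theorem tp_le (δ : ℕ) : (TP δ : ℝ) ≤ 1000000000000 * (Real.sqrt 2 * δ - EP δ) := by
  have h1 := ep_tp δ
  have h2 : (S2 : ℝ) * δ ≤ Real.sqrt 2 * 1000000000000 * δ :=
    mul_le_mul_of_nonneg_right s2_le (by positivity)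
  nlinarith

theorem le_tp (δ : ℕ) : 1000000000000 * (Real.sqrt 2 * δ - EP δ) ≤ (TP δ : ℝ) + δ := by
  have h1 := ep_tp δ
  have h2 : Real.sqrt 2 * 1000000000000 * δ ≤ ((S2 : ℝ) + 1) * δ :=
    mul_le_mul_of_nonneg_right s2_lt.le (by positivity)
  nlinarith

theorem tn_cast (δ : ℕ) : (TN δ : ℝ) = 1000000000000 - TP δ := by
  unfold TN
  rw [Nat.cast_sub (TP_lt δ).le]
  norm_num

theorem en_cast (δ : ℕ) : (EN δ : ℝ) = EP δ + 1 := by unfold EN; push_cast; rfl

theorem tn_ge (δ : ℕ) : (TN δ : ℝ) - δ ≤ 1000000000000 * (EN δ - Real.sqrt 2 * δ) := by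
  have := le_tp δ
  rw [tn_cast, en_cast]
  linarith

theorem tn_le (δ : ℕ) : 1000000000000 * (EN δ - Real.sqrt 2 * δ) ≤ (TN δ : ℝ) := by
  have := tp_le δ
  rw [tn_cast, en_cast]
  linarith

theorem good_spec {D μ K₀ tm n : ℕ} (h : goodFrom D μ K₀ tm n = true) {δ : ℕ} (h1 : 1 ≤ δ)
    (h2 : δ ≤ n) :
    tm ≤ TP δ ∧ tm ≤ TN δ ∧ okT D μ K₀ δ (EP δ) (TP δ) = true ∧
      okT D μ K₀ δ (EN δ) (TN δ) = true := by
  induction n with
  | zero => omega
  | succ n ih =>
    rw [goodFrom, Bool.and_eq_true, Bool.and_eq_true, Bool.and_eq_true, Bool.and_eq_true] at h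
    obtain ⟨ha, hb, hc, hd, he⟩ := h
    rcases Nat.lt_or_ge n δ with h3 | h3
    · have : δ = n + 1 := by omega
      subst this
      exact ⟨Nat.le_of_ble_eq_true hb, Nat.le_of_ble_eq_true hc, hd, he⟩
    · exact ih ha h3

theorem cert_spec {D p q sl μ M n : ℕ} (h : certFrom D p q sl μ M n = true) {δ : ℕ}
    (h1 : 1 ≤ δ) (h2 : δ ≤ n) :
    acc D p q sl μ (TP δ) (cl δ (EP δ)) (D - 1) ≤ M ∧
    acc D p q sl μ (TN δ) (cl δ (EN δ)) (D - 1) ≤ M := by
  induction n with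
  | zero => omega
  | succ n ih =>
    rw [certFrom, Bool.and_eq_true, Bool.and_eq_true] at h
    obtain ⟨ha, hb, hc⟩ := h
    rcases Nat.lt_or_ge n δ with h3 | h3
    · have : δ = n + 1 := by omega
      subst this
      exact ⟨Nat.le_of_ble_eq_true hb, Nat.le_of_ble_eq_true hc⟩
    · exact ih ha h3

theorem acc_eq (D p q sl μ x c n : ℕ) :
    acc D p q sl μ x c n = ∑ i ∈ range n,
      (ctr D p q sl μ x c (i + 1) (EP (i + 1)) (TP (i + 1)) +
        ctr D p q sl μ x c (i + 1) (EN (i + 1)) (TN (i + 1))) := by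
  induction n with
  | zero => rfl
  | succ n ih => rw [acc, ih, Finset.sum_range_succ]

/-- The value of `ctr` when the conditions hold. -/
theorem ctr_of {D p q sl μ x c δ e T : ℕ} (h1 : cl δ e = c) (h2 : T ≤ x)
    (h3 : q * x ≤ p * T + sl) : ctr D p q sl μ x c δ e T = WW D μ δ e T := by
  unfold ctr
  have e1 : (cl δ e == c) = true := by simp [h1]
  have e2 : Nat.ble T x = true := Nat.ble_eq_true_of_le h2
  have e3 : Nat.ble (q * x) (p * T + sl) = true := Nat.ble_eq_true_of_le h3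
  rw [e1, e2, e3]
  rfl

/-- **The abstract window lemma.** `uP`, `uN` are values (weights or zero) which vanish unless
the displacement is compatible; any two compatible displacements have the same class and
comparable `T`. -/
theorem window {D p q sl μ M : ℕ} (hcert : certFrom D p q sl μ M (D - 1) = true)
    (cP cN : ℕ → Prop) [DecidablePred cP] [DecidablePred cN] (c : ℕ)
    (hcP : ∀ δ, 1 ≤ δ → δ ≤ D - 1 → cP δ → cl δ (EP δ) = c)
    (hcN : ∀ δ, 1 ≤ δ → δ ≤ D - 1 → cN δ → cl δ (EN δ) = c)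
    (hPP : ∀ δ δ', 1 ≤ δ → δ ≤ D - 1 → 1 ≤ δ' → δ' ≤ D - 1 → cP δ → cP δ' →
      q * TP δ ≤ p * TP δ' + sl)
    (hPN : ∀ δ δ', 1 ≤ δ → δ ≤ D - 1 → 1 ≤ δ' → δ' ≤ D - 1 → cP δ → cN δ' →
      q * TP δ ≤ p * TN δ' + sl)
    (hNP : ∀ δ δ', 1 ≤ δ → δ ≤ D - 1 → 1 ≤ δ' → δ' ≤ D - 1 → cN δ → cP δ' →
      q * TN δ ≤ p * TP δ' + sl)
    (hNN : ∀ δ δ', 1 ≤ δ → δ ≤ D - 1 → 1 ≤ δ' → δ' ≤ D - 1 → cN δ → cN δ' →
      q * TN δ ≤ p * TN δ' + sl) :
    ∑ i ∈ range (D - 1),
      ((if cP (i + 1) then WW D μ (i + 1) (EP (i + 1)) (TP (i + 1)) else 0) +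
       (if cN (i + 1) then WW D μ (i + 1) (EN (i + 1)) (TN (i + 1)) else 0)) ≤ M := by
  classical
  set S := ∑ i ∈ range (D - 1),
      ((if cP (i + 1) then WW D μ (i + 1) (EP (i + 1)) (TP (i + 1)) else 0) +
       (if cN (i + 1) then WW D μ (i + 1) (EN (i + 1)) (TN (i + 1)) else 0)) with hS
  -- the maximal `T` among the compatible displacements
  set FP := (range (D - 1)).filter (fun i => cP (i + 1)) with hFP
  set FN := (range (D - 1)).filter (fun i => cN (i + 1)) with hFN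
  -- it suffices to find `x` with all conditions
  have main : ∀ x, (∀ i ∈ FP, TP (i + 1) ≤ x ∧ q * x ≤ p * TP (i + 1) + sl) →
      (∀ i ∈ FN, TN (i + 1) ≤ x ∧ q * x ≤ p * TN (i + 1) + sl) →
      acc D p q sl μ x c (D - 1) ≤ M → S ≤ M := by
    intro x h1 h2 h3
    refine le_trans ?_ h3
    rw [acc_eq, hS]
    apply Finset.sum_le_sum
    intro i hi
    have hi' := Finset.mem_range.mp hi
    apply Nat.add_le_add
    · split_ifs with h
      · have h4 := h1 i (by rw [hFP, mem_filter]; exact ⟨hi, h⟩)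
        rw [ctr_of (hcP _ (by omega) (by omega) h) h4.1 h4.2]
      · exact Nat.zero_le _
    · split_ifs with h
      · have h4 := h2 i (by rw [hFN, mem_filter]; exact ⟨hi, h⟩)
        rw [ctr_of (hcN _ (by omega) (by omega) h) h4.1 h4.2]
      · exact Nat.zero_le _
  have memP : ∀ i ∈ FP, i + 1 ≤ D - 1 ∧ cP (i + 1) := by
    intro i hi
    rw [hFP, mem_filter, Finset.mem_range] at hi
    exact ⟨by omega, hi.2⟩
  have memN : ∀ i ∈ FN, i + 1 ≤ D - 1 ∧ cN (i + 1) := by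
    intro i hi
    rw [hFN, mem_filter, Finset.mem_range] at hi
    exact ⟨by omega, hi.2⟩
  -- candidates
  have caseP : ∀ i₀ ∈ FP, (∀ i ∈ FP, TP (i + 1) ≤ TP (i₀ + 1)) →
      (∀ i ∈ FN, TN (i + 1) ≤ TP (i₀ + 1)) → S ≤ M := by
    intro i₀ h₀ h1 h2
    obtain ⟨a1, a2⟩ := memP i₀ h₀
    apply main (TP (i₀ + 1))
    · intro i hi
      obtain ⟨b1, b2⟩ := memP i hi
      exact ⟨h1 i hi, hPP _ _ (by omega) a1 (by omega) b1 a2 b2⟩
    · intro i hi
      obtain ⟨b1, b2⟩ := memN i hi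
      exact ⟨h2 i hi, hPN _ _ (by omega) a1 (by omega) b1 a2 b2⟩
    · have := (cert_spec hcert (δ := i₀ + 1) (by omega) a1).1
      rw [hcP _ (by omega) a1 a2] at this
      exact this
  have caseN : ∀ i₀ ∈ FN, (∀ i ∈ FP, TP (i + 1) ≤ TN (i₀ + 1)) →
      (∀ i ∈ FN, TN (i + 1) ≤ TN (i₀ + 1)) → S ≤ M := by
    intro i₀ h₀ h1 h2
    obtain ⟨a1, a2⟩ := memN i₀ h₀
    apply main (TN (i₀ + 1))
    · intro i hi
      obtain ⟨b1, b2⟩ := memP i hi
      exact ⟨h1 i hi, hNP _ _ (by omega) a1 (by omega) b1 a2 b2⟩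
    · intro i hi
      obtain ⟨b1, b2⟩ := memN i hi
      exact ⟨h2 i hi, hNN _ _ (by omega) a1 (by omega) b1 a2 b2⟩
    · have := (cert_spec hcert (δ := i₀ + 1) (by omega) a1).2
      rw [hcN _ (by omega) a1 a2] at this
      exact this
  rcases FP.eq_empty_or_nonempty with hP | hP
  · rcases FN.eq_empty_or_nonempty with hN | hN
    · -- nothing is compatible
      apply le_of_eq_of_le _ (Nat.zero_le M)
      rw [hS]
      apply Finset.sum_eq_zero
      intro i hi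
      have c1 : ¬ cP (i + 1) := by
        intro h
        have : i ∈ FP := by rw [hFP, mem_filter]; exact ⟨hi, h⟩
        rw [hP] at this
        exact absurd this (Finset.notMem_empty _)
      have c2 : ¬ cN (i + 1) := by
        intro h
        have : i ∈ FN := by rw [hFN, mem_filter]; exact ⟨hi, h⟩
        rw [hN] at this
        exact absurd this (Finset.notMem_empty _)
      rw [if_neg c1, if_neg c2, Nat.add_zero]
    · obtain ⟨j, hj, hj2⟩ := FN.exists_max_image (fun i => TN (i + 1)) hN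
      apply caseN j hj
      · intro i hi
        rw [hP] at hi
        exact absurd hi (Finset.notMem_empty _)
      · exact hj2
  · obtain ⟨i₀, hi₀, hi2⟩ := FP.exists_max_image (fun i => TP (i + 1)) hP
    rcases FN.eq_empty_or_nonempty with hN | hN
    · apply caseP i₀ hi₀ hi2
      intro i hi
      rw [hN] at hi
      exact absurd hi (Finset.notMem_empty _)
    · obtain ⟨j, hj, hj2⟩ := FN.exists_max_image (fun i => TN (i + 1)) hN
      rcases Nat.le_total (TP (i₀ + 1)) (TN (j + 1)) with h | h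
      · exact caseN j hj (fun i hi => (hi2 i hi).trans h) hj2
      · exact caseP i₀ hi₀ hi2 (fun i hi => (hj2 i hi).trans h)

end Pool.Agent.AddSq.L1
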