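import Pool.Agent.AddSq.LOneCert

/-!
# The certificate for lag one: range, class, multiplicity
-/

namespace Pool.Agent.AddSq.L1

open Finset

theorem sqrt2_mul : Real.sqrt 2 * Real.sqrt 2 = 2 := Real.mul_self_sqrt (by norm_num)

theorem one_le_sqrt2 : 1 ≤ Real.sqrt 2 := by
  rw [show (1 : ℝ) = Real.sqrt 1 by simp]
  exact Real.sqrt_le_sqrt (by norm_num)

theorem sqrt2_lt : Real.sqrt 2 < 1.42 := by
  rw [Real.sqrt_lt' (by norm_num)]
  norm_num

/-- `√2 d` is not an integer for `d ≠ 0` -/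
theorem sq_ne {d x : ℤ} (hd : d ≠ 0) : x ^ 2 ≠ 2 * d ^ 2 := by
  intro h
  have hirr := irrational_sqrt_two
  have h1 : (x : ℝ) ^ 2 = 2 * (d : ℝ) ^ 2 := by exact_mod_cast h
  have hd' : (d : ℝ) ≠ 0 := by exact_mod_cast hd
  have h2 : Real.sqrt 2 = |(x : ℝ) / d| := by
    rw [← Real.sqrt_sq_eq_abs]
    congr 1
    rw [div_pow, h1]
    field_simp
  apply hirr
  refine ⟨|(x : ℚ) / d|, ?_⟩
  rw [h2]
  push_cast
  rfl

/-- Range of `t = √2 d - e` for `d > 0`. -/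
theorem range_pos {k m a b m' b' d : ℤ} (h : Sol k m a b) (h' : Sol (k + d) m' a b')
    (hd : 0 < d) (hk : 2 * d ^ 2 ≤ k) :
    2 * d ^ 2 < (m' - m + 1) ^ 2 ∧ 0 < m' - m + 1 ∧
      ((m' - m - 1) ^ 2 < 2 * d ^ 2 ∨ m' - m - 1 ≤ 0) := by
  have h1 := h.b_eq
  have h2 := h'.b_eq
  have h3 := h.b_nonneg
  have h4 := h.b_le
  have h5 := h'.b_nonneg
  have h6 := h'.b_le
  have h7 := h.a_nonneg
  have h8 := h.a_le
  have h9 := h.m_nonneg
  have h10 := h'.m_nonneg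
  unfold Q at h1 h2
  obtain ⟨e, he⟩ : ∃ e, m' = m + e := ⟨m' - m, by ring⟩
  subst he
  have e1 : m + e - m = e := by ring
  rw [e1]
  have kpos : 0 < k := by nlinarith
  -- `m² ≤ 2k² + a < (m+1)²`, `(m+e)² ≤ 2(k+d)² + a < (m+e+1)²`
  have i1 : m ^ 2 ≤ 2 * k ^ 2 + a := by linarith
  have i2 : 2 * k ^ 2 + a < (m + 1) ^ 2 := by nlinarith
  have i3 : (m + e) ^ 2 ≤ 2 * (k + d) ^ 2 + a := by linarith
  have i4 : 2 * (k + d) ^ 2 + a < (m + e + 1) ^ 2 := by nlinarith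
  have epos : 0 < e + 1 := by
    by_contra hc
    push Not at hc
    have : m + e + 1 ≤ m := by linarith
    have h0 : 0 ≤ m + e + 1 := by linarith
    have : (m + e + 1) ^ 2 ≤ m ^ 2 := by nlinarith
    nlinarith
  refine ⟨?_, epos, ?_⟩
  · by_contra hc
    push Not at hc
    have hne := sq_ne (x := e + 1) hd.ne'
    have hlt : (e + 1) ^ 2 ≤ 2 * d ^ 2 - 1 := by
      rcases lt_or_eq_of_le hc with h | h
      · linarith
      · exact absurd h hne
    have j1 : 2 * k * d < m * (e + 1) := by nlinarith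
    have j2 : (2 * k * d) ^ 2 < (m * (e + 1)) ^ 2 :=
      pow_lt_pow_left₀ j1 (by positivity) (by norm_num)
    have j3 : (m * (e + 1)) ^ 2 ≤ (2 * k ^ 2 + 2 * k) * (2 * d ^ 2 - 1) := by
      have p1 : (m * (e + 1)) ^ 2 = m ^ 2 * (e + 1) ^ 2 := by ring
      rw [p1]
      have p2 : m ^ 2 ≤ 2 * k ^ 2 + 2 * k := by linarith
      exact mul_le_mul p2 hlt (by positivity) (by positivity)
    have j4 : (2 * k ^ 2 + 2 * k) * (2 * d ^ 2 - 1) =
        (2 * k * d) ^ 2 + 2 * k * (2 * d ^ 2 - k - 1) := by ring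
    have j5 : 2 * k * (2 * d ^ 2 - k - 1) ≤ 0 := by
      apply mul_nonpos_of_nonneg_of_nonpos
      · linarith
      · linarith
    linarith
  · by_contra hc
    push Not at hc
    obtain ⟨hc1, hc2⟩ := hc
    -- `(m + 1)(e - 1) < 2 k d`
    have j1 : (m + 1) * (e - 1) < 2 * k * d := by nlinarith
    have j2 : 0 ≤ (m + 1) * (e - 1) := mul_nonneg (by linarith) (by linarith)
    have j3 : ((m + 1) * (e - 1)) ^ 2 < (2 * k * d) ^ 2 :=
      pow_lt_pow_left₀ j1 j2 (by norm_num)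
    have j4 : (2 * k * d) ^ 2 = 2 * k ^ 2 * (2 * d ^ 2) := by ring
    have j5 : 2 * k ^ 2 * (2 * d ^ 2) ≤ (m + 1) ^ 2 * (e - 1) ^ 2 := by
      apply mul_le_mul _ hc1 (by positivity) (by positivity)
      linarith
    have j6 : ((m + 1) * (e - 1)) ^ 2 = (m + 1) ^ 2 * (e - 1) ^ 2 := by ring
    linarith

/-- Range of `t`, real form, `d > 0`. -/
theorem range_pos_real {k m a b m' b' d : ℤ} (h : Sol k m a b) (h' : Sol (k + d) m' a b')
    (hd : 0 < d) (hk : 2 * d ^ 2 ≤ k) :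
    |Real.sqrt 2 * d - ((m' : ℝ) - m)| < 1 := by
  obtain ⟨h1, h2, h3⟩ := range_pos h h' hd hk
  have hs : (Real.sqrt 2 * d) ^ 2 = 2 * (d : ℝ) ^ 2 := by
    rw [mul_pow, pow_two (Real.sqrt 2), sqrt2_mul]
  have hdr : (0 : ℝ) < d := by exact_mod_cast hd
  have hsd : 0 < Real.sqrt 2 * d := mul_pos (by linarith [one_le_sqrt2]) hdr
  rw [abs_lt]
  constructor
  · rcases h3 with h3 | h3
    · have h4 : ((m' : ℝ) - m - 1) ^ 2 < (Real.sqrt 2 * d) ^ 2 := by
        rw [hs]; exact_mod_cast h3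
      have := lt_of_pow_lt_pow_left₀ 2 hsd.le h4
      linarith
    · have h4 : (m' : ℝ) - m - 1 ≤ 0 := by exact_mod_cast h3
      linarith
  · have h4 : (Real.sqrt 2 * d) ^ 2 < ((m' : ℝ) - m + 1) ^ 2 := by
      rw [hs]; exact_mod_cast h1
    have h5 : (0 : ℝ) ≤ (m' : ℝ) - m + 1 := by exact_mod_cast h2.le
    have := lt_of_pow_lt_pow_left₀ 2 h5 h4
    linarith

/-- Range of `t`, real form. -/
theorem range_real {k m a b m' b' d : ℤ} (h : Sol k m a b) (h' : Sol (k + d) m' a b')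
    (hd : d ≠ 0) (hk : 2 * d ^ 2 ≤ k) (hk' : 2 * d ^ 2 ≤ k + d) :
    |Real.sqrt 2 * d - ((m' : ℝ) - m)| < 1 := by
  rcases lt_or_gt_of_ne hd with hneg | hpos
  · have h1 : Sol (k + d + -d) m a b := by
      have : k + d + -d = k := by ring
      rw [this]; exact h
    have h2 := range_pos_real h' h1 (by linarith) (by rw [neg_sq]; exact hk')
    have e : Real.sqrt 2 * ((-d : ℤ) : ℝ) - ((m : ℝ) - m') =
        -(Real.sqrt 2 * d - ((m' : ℝ) - m)) := by push_cast; ring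
    rw [e, abs_neg] at h2
    exact h2
  · exact range_pos_real h h' hpos hk

/-- `b' - b = 2 √2 k t + O(D)` -/
theorem range_h {k m a b m' b' d : ℤ} (h : Sol k m a b) (h' : Sol (k + d) m' a b')
    (ht : |Real.sqrt 2 * d - ((m' : ℝ) - m)| < 1) :
    |((b' - b : ℤ) : ℝ) - 2 * Real.sqrt 2 * k * (Real.sqrt 2 * d - ((m' - m : ℤ) : ℝ))| ≤
      6 * |(d : ℝ)| + 3 := by
  have h1 := h.line h' rfl
  have h2 : ((b' - b : ℤ) : ℝ) = 2 * (2 * d * k - ((m' : ℝ) - m) * m) + 2 * (d : ℝ) ^ 2 -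
      ((m' : ℝ) - m) ^ 2 := by
    rw [h1]; push_cast; ring
  have hs := h.strip
  rw [h2]
  push_cast
  set e : ℝ := (m' : ℝ) - m with he
  set t : ℝ := Real.sqrt 2 * d - e with ht'
  set y : ℝ := (m : ℝ) - Real.sqrt 2 * k with hy
  have e1 : 2 * (2 * (d : ℝ) * k - e * m) + 2 * (d : ℝ) ^ 2 - e ^ 2 -
      2 * Real.sqrt 2 * k * t = t * (Real.sqrt 2 * d + e) - 2 * y * e := by
    rw [ht', hy]
    have := sqrt2_mul
    linear_combination (-2 * (d : ℝ) * k - (d : ℝ) ^ 2) * this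
  rw [e1]
  have hd0 := abs_nonneg (d : ℝ)
  have hsd : |Real.sqrt 2 * (d : ℝ)| ≤ 1.42 * |(d : ℝ)| := by
    rw [abs_mul, abs_of_nonneg (by linarith [one_le_sqrt2])]
    exact mul_le_mul_of_nonneg_right sqrt2_lt.le hd0
  have he1 : |e| ≤ 1.42 * |(d : ℝ)| + 1 := by
    have : e = Real.sqrt 2 * d - t := by rw [ht']; ring
    rw [this]
    refine (abs_sub _ _).trans ?_
    linarith
  have p1 : |t * (Real.sqrt 2 * d + e)| ≤ 1 * (1.42 * |(d : ℝ)| + (1.42 * |(d : ℝ)| + 1)) := by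
    rw [abs_mul]
    exact mul_le_mul ht.le ((abs_add_le _ _).trans (add_le_add hsd he1)) (abs_nonneg _)
      (by norm_num)
  have p2 : |2 * y * e| ≤ 2 * (1.42 * |(d : ℝ)| + 1) := by
    rw [abs_mul, abs_mul, abs_of_pos (by norm_num : (0 : ℝ) < 2)]
    have : 2 * |y| ≤ 2 := by linarith
    exact mul_le_mul this he1 (abs_nonneg _) (by norm_num)
  have := abs_sub (t * (Real.sqrt 2 * d + e)) (2 * y * e)
  linarith

end Pool.Agent.AddSq.L1
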