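import Pool.Agent.AddSq.Lag2Line

/-!
# Counting lemma for lag 2, the two counts

`same_count`: both members of the pair on the same branch (both `p = 2k` or both `p = 2k - 1`);
`cross_count`: the first on the even, the second on the odd branch.
-/

namespace Pool.Agent.AddSq

/-- `2 d k - e m` in the strip -/
theorem lin_est {d e k m : ℤ} (hs : |(m : ℝ) - Real.sqrt 2 * k| < 1) :
    |((2 * d * k - e * m : ℤ) : ℝ) - Real.sqrt 2 * (Real.sqrt 2 * d - e) * k| ≤ |(e : ℝ)| := by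
  have h2 : Real.sqrt 2 * Real.sqrt 2 = 2 := Real.mul_self_sqrt (by norm_num)
  have h3 : ((2 * d * k - e * m : ℤ) : ℝ) - Real.sqrt 2 * (Real.sqrt 2 * d - e) * k =
      -((e : ℝ) * (m - Real.sqrt 2 * k)) := by
    push_cast
    linear_combination (-(d : ℝ) * k) * h2
  rw [h3, abs_neg, abs_mul]
  calc |(e : ℝ)| * |(m : ℝ) - Real.sqrt 2 * k| ≤ |(e : ℝ)| * 1 :=
        mul_le_mul_of_nonneg_left hs.le (abs_nonneg _)
    _ = |(e : ℝ)| := mul_one _

theorem floor_le_of_lt {x : ℝ} {J : ℕ} (h : x < J + 1) : ⌊x⌋₊ ≤ J := by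
  have h1 : ⌊x⌋₊ < J + 1 := by
    rw [Nat.floor_lt' (by omega)]
    exact_mod_cast h
  omega

/-- **Same branch.** -/
theorem same_count {d e a a' : ℤ} {J : ℕ} {K : ℝ} (he : e ≠ 0) (hK0 : 0 ≤ K)
    (hpos : 0 < 2 * |Real.sqrt 2 * d - e| * K -
      (2 * Real.sqrt 2 * (|(e : ℝ)| + |(d : ℝ)|) + 2 * |(d : ℝ)|))
    (hJ : ((Int.gcd (2 * d) e : ℕ) : ℝ) * (2 * Real.sqrt 2 * (1 - 2 * |Real.sqrt 2 * d - e|) * K +
        (2 + 8 * |(e : ℝ)| + 12 * |(d : ℝ)| + 2 * |2 * (d : ℝ) ^ 2 - (e : ℝ) ^ 2|)) <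
      (J + 1) * (2 * (2 * |Real.sqrt 2 * d - e| * K -
        (2 * Real.sqrt 2 * (|(e : ℝ)| + |(d : ℝ)|) + 2 * |(d : ℝ)|))))
    (TE TO : Finset ℤ)
    (hTE : ∀ k ∈ TE, K ≤ k ∧ ∃ m m' b : ℤ,
      SolE k m a b ∧ SolE (k + d) m' a' b ∧ m' - m = e)
    (hTO : ∀ k ∈ TO, K ≤ k ∧ ∃ m m' b : ℤ,
      SolO k m a b ∧ SolO (k + d) m' a' b ∧ m' - m = e) :
    TE.card + TO.card ≤ J + 2 := by
  classical
  rcases (TE ∪ TO).eq_empty_or_nonempty with h0 | hne
  · rw [Finset.union_eq_empty] at h0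
    rw [h0.1, h0.2]
    simp
  set t := |Real.sqrt 2 * d - e| with ht
  set g : ℝ := ((Int.gcd (2 * d) e : ℕ) : ℝ) with hg
  set s := Real.sqrt 2 with hs
  have hs2 : s * s = 2 := Real.mul_self_sqrt (by norm_num)
  have hs0 : 0 ≤ s := Real.sqrt_nonneg _
  have hs1 : 1 ≤ s := by nlinarith
  have ht0 : 0 ≤ t := abs_nonneg _
  have hg0 : 0 ≤ g := by rw [hg]; positivity
  have hd0 : 0 ≤ |(d : ℝ)| := abs_nonneg _
  have he0 : 0 ≤ |(e : ℝ)| := abs_nonneg _
  set q : ℝ := 2 * (d : ℝ) ^ 2 - (e : ℝ) ^ 2 with hq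
  have hq0 : 0 ≤ |q| := abs_nonneg _
  set h : ℝ := (a' : ℝ) - a with hh
  -- the maximum
  obtain ⟨X, hX, hmax⟩ := (TE ∪ TO).exists_max_image id hne
  have hmax' : ∀ k ∈ TE ∪ TO, (k : ℝ) ≤ X := fun k hk => by
    have := hmax k hk
    simp only [id] at this
    exact_mod_cast this
  -- unified data
  have data : ∀ k ∈ TE ∪ TO, K ≤ (k : ℝ) ∧ 0 ≤ (a : ℝ) ∧ 0 ≤ (a' : ℝ) ∧
      ∃ m : ℤ, |(m : ℝ) - s * k| < 1 ∧
      |2 * ((2 * d * k - e * m : ℤ) : ℝ) - (h - q) - 2 * d| ≤ 2 * |(d : ℝ)| := by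
    intro k hk
    rcases Finset.mem_union.mp hk with hk | hk
    · obtain ⟨k1, m, m', b, s1, s2, s3⟩ := hTE k hk
      refine ⟨k1, by exact_mod_cast s1.sol.a_nonneg, by exact_mod_cast s2.sol.a_nonneg, m,
        s1.sol.strip, ?_⟩
      have h4 : h = 2 * ((2 * d * k - e * m : ℤ) : ℝ) + q := by
        have := s1.line s2 s3
        rw [hh, hq]
        have h5 : ((a' - a : ℤ) : ℝ) =
            ((2 * (2 * d * k - e * m) + 2 * d ^ 2 - e ^ 2 : ℤ) : ℝ) := by rw [this]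
        push_cast at h5 ⊢
        linarith
      have h6 : 2 * ((2 * d * k - e * m : ℤ) : ℝ) - (h - q) - 2 * d = -(2 * d) := by
        rw [h4]; ring
      rw [h6, abs_neg, abs_mul]
      norm_num
    · obtain ⟨k1, m, m', b, s1, s2, s3⟩ := hTO k hk
      refine ⟨k1, by exact_mod_cast s1.sol.a_nonneg, by exact_mod_cast s2.sol.a_nonneg, m,
        s1.sol.strip, ?_⟩
      have h4 : h = 2 * ((2 * d * k - e * m : ℤ) : ℝ) - 4 * d + q := by
        have := s1.line s2 s3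
        rw [hh, hq]
        have h5 : ((a' - a : ℤ) : ℝ) =
            ((2 * (2 * d * (k - 1) - e * m) + 2 * d ^ 2 - e ^ 2 : ℤ) : ℝ) := by rw [this]
        push_cast at h5 ⊢
        linarith
      have h6 : 2 * ((2 * d * k - e * m : ℤ) : ℝ) - (h - q) - 2 * d = 2 * d := by
        rw [h4]; ring
      rw [h6, abs_mul]
      norm_num
  obtain ⟨hKX, ha0, ha0', mX, sX, cX⟩ := data X hX
  have hX0 : (0 : ℝ) ≤ X := by linarith
  -- lower bound for `|h|`
  have hlow : 2 * s * X * t - 2 * |(e : ℝ)| - 4 * |(d : ℝ)| - |q| ≤ |h| := by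
    have p1 := lin_est (d := d) (e := e) sX
    rw [← hs] at p1
    have p2 : |s * (s * d - e) * X| = s * t * X := by
      rw [abs_mul, abs_mul, abs_of_nonneg hs0, abs_of_nonneg hX0, ht]
    have p3 : s * t * X ≤ |((2 * d * X - e * mX : ℤ) : ℝ)| + |(e : ℝ)| := by
      rw [← p2]
      have := abs_sub_abs_le_abs_sub (s * (s * d - e) * X) ((2 * d * X - e * mX : ℤ) : ℝ)
      rw [abs_sub_comm] at this
      linarith
    have p4 : 2 * |((2 * d * X - e * mX : ℤ) : ℝ)| ≤ |h| + |q| + 4 * |(d : ℝ)| := by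
      have e1 : 2 * ((2 * d * X - e * mX : ℤ) : ℝ) =
        (2 * ((2 * d * X - e * mX : ℤ) : ℝ) - (h - q) - 2 * d) + (h - q) + 2 * d := by ring
      have e2 : 2 * |((2 * d * X - e * mX : ℤ) : ℝ)| = |2 * ((2 * d * X - e * mX : ℤ) : ℝ)| := by
        rw [abs_mul]; norm_num
      rw [e2, e1]
      refine (abs_add_le _ _).trans ?_
      have e3 := abs_add_le (2 * ((2 * d * X - e * mX : ℤ) : ℝ) - (h - q) - 2 * d) (h - q)
      have e4 := abs_sub h q
      have e5 : |(2 : ℝ) * d| = 2 * |(d : ℝ)| := by rw [abs_mul]; norm_num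
      linarith
    linarith
  -- spread
  have hspread : ∀ k ∈ TE ∪ TO, t * ((X : ℝ) - k) ≤ s * (|(e : ℝ)| + |(d : ℝ)|) := by
    intro k hk
    obtain ⟨_, _, _, m, sk, ck⟩ := data k hk
    have hXk : 0 ≤ (X : ℝ) - k := by linarith [hmax' k hk]
    have p1 : s * (s * d - e) * ((X : ℝ) - k) =
        (((2 * d * X - e * mX : ℤ) : ℝ) - ((2 * d * k - e * m : ℤ) : ℝ)) +
          (e * ((mX : ℝ) - s * X) - e * (m - s * k)) := by
      push_cast
      linear_combination ((d : ℝ) * (X - k)) * hs2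
    have p2 : |s * (s * d - e) * ((X : ℝ) - k)| = s * t * (X - k) := by
      rw [abs_mul, abs_mul, abs_of_nonneg hs0, abs_of_nonneg hXk, ht]
    have p3 : |((2 * d * X - e * mX : ℤ) : ℝ) - ((2 * d * k - e * m : ℤ) : ℝ)| ≤
        2 * |(d : ℝ)| := by
      rw [abs_le] at cX ck ⊢
      constructor <;> linarith
    have p4 : |(e : ℝ) * ((mX : ℝ) - s * X) - e * (m - s * k)| ≤ 2 * |(e : ℝ)| := by
      refine (abs_sub _ _).trans ?_
      rw [abs_mul, abs_mul]
      have e1 : |(e : ℝ)| * |(mX : ℝ) - s * X| ≤ |(e : ℝ)| * 1 :=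
        mul_le_mul_of_nonneg_left sX.le he0
      have e2 : |(e : ℝ)| * |(m : ℝ) - s * k| ≤ |(e : ℝ)| * 1 :=
        mul_le_mul_of_nonneg_left sk.le he0
      linarith
    have p5 : s * t * (X - k) ≤ 2 * |(d : ℝ)| + 2 * |(e : ℝ)| := by
      rw [← p2, p1]
      refine (abs_add_le _ _).trans ?_
      linarith
    -- multiply by `s / 2`
    have p6 : t * ((X : ℝ) - k) * 2 = s * (s * t * (X - k)) := by
      linear_combination (-(t * ((X : ℝ) - k))) * hs2
    have p7 : s * (s * t * (X - k)) ≤ s * (2 * |(d : ℝ)| + 2 * |(e : ℝ)|) :=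
      mul_le_mul_of_nonneg_left p5 hs0
    linarith
  -- positivity of `t` and the lower end `Y`
  have hse : 0 ≤ s * (|(e : ℝ)| + |(d : ℝ)|) := by positivity
  have htX : t * K ≤ t * X := mul_le_mul_of_nonneg_left hKX ht0
  have ht1 : 0 < t := by
    rcases eq_or_lt_of_le ht0 with h1 | h1
    · rw [← h1] at hpos
      linarith
    · exact h1
  set Y : ℝ := X - s * (|(e : ℝ)| + |(d : ℝ)|) / t with hY
  have hYt : t * Y = t * X - s * (|(e : ℝ)| + |(d : ℝ)|) := by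
    rw [hY, mul_sub, mul_div_cancel₀ _ ht1.ne']
  have hYk : ∀ k ∈ TE ∪ TO, Y ≤ (k : ℝ) := by
    intro k hk
    have h1 := hspread k hk
    have h2 : t * Y ≤ t * k := by rw [hYt]; linarith
    exact le_of_mul_le_mul_left h2 ht1
  set S : ℝ := 2 * t * Y - 2 * |(d : ℝ)| with hS
  have hSX : S = 2 * t * X - (2 * s * (|(e : ℝ)| + |(d : ℝ)|) + 2 * |(d : ℝ)|) := by
    rw [hS]
    linear_combination 2 * hYt
  have hS0 : 0 < S := by rw [hSX]; linarith
  have hY0 : 0 ≤ Y := by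
    by_contra hc
    push Not at hc
    have : t * Y ≤ 0 := mul_nonpos_of_nonneg_of_nonpos ht0 hc.le
    rw [hS] at hS0
    linarith
  -- the inequality at `X`
  set L : ℝ := 2 * s * (1 - 2 * t) * X +
    (2 + 8 * |(e : ℝ)| + 12 * |(d : ℝ)| + 2 * |q|) with hL
  have hJX : g * L < (J + 1) * (2 * S) := by
    have h1 := slope_ext (α := g * (2 * s * (1 - 2 * t))) (β := 4 * t)
      (C₁ := g * (2 + 8 * |(e : ℝ)| + 12 * |(d : ℝ)| + 2 * |q|))
      (C₂ := 2 * (2 * s * (|(e : ℝ)| + |(d : ℝ)|) + 2 * |(d : ℝ)|)) (J := (J : ℝ) + 1)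
      hK0 hKX (by positivity) (by positivity) (by positivity) (by linarith)
    rw [hL, hSX]
    linarith
  -- arcs
  set M : ℝ := s * X + 1 with hM
  have hmM : ∀ k ∈ TE ∪ TO, ∀ m : ℤ, |(m : ℝ) - s * k| < 1 → (m : ℝ) ≤ M := by
    intro k hk m hm
    have h1 := (abs_lt.mp hm).2
    have h2 : s * k ≤ s * X := mul_le_mul_of_nonneg_left (hmax' k hk) hs0
    rw [hM]
    linarith
  set LE : ℝ := min (2 * (a : ℝ)) (2 * M - max 0 (2 * h - 2 * e)) - max 0 (-2 * h) with hLE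
  set LO : ℝ := 2 * M - max 0 (2 * h + 4 * d - 2 * e) - 2 * a with hLO
  have harcE : TE.Nonempty → 0 ≤ LE ∧ TE.card ≤ ⌊g * LE / (2 * S)⌋₊ + 1 := by
    intro hne'
    obtain ⟨k₀, hk₀⟩ := hne'
    have hrange : ∀ k ∈ TE, ∃ m : ℤ, |(m : ℝ) - s * k| < 1 ∧
        2 * ((2 * d * k - e * m : ℤ) : ℝ) = h - q ∧
        max 0 (-2 * h) - a ≤ (Q k m : ℝ) ∧
        (Q k m : ℝ) ≤ min (2 * (a : ℝ)) (2 * M - max 0 (2 * h - 2 * e)) - a := by
      intro k hk
      obtain ⟨k1, m, m', b, s1, s2, s3⟩ := hTE k hk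
      refine ⟨m, s1.sol.strip, ?_, ?_, ?_⟩
      · have := s1.line s2 s3
        have h5 : ((a' - a : ℤ) : ℝ) =
            ((2 * (2 * d * k - e * m) + 2 * d ^ 2 - e ^ 2 : ℤ) : ℝ) := by rw [this]
        rw [hh, hq]
        push_cast at h5 ⊢
        linarith
      · have e1 : (Q k m : ℝ) = 2 * a - b - a := by
          have := s1.sol.b_eq
          have h5 : ((2 * a - b : ℤ) : ℝ) = ((a + Q k m : ℤ) : ℝ) := by rw [this]
          push_cast at h5
          linarith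
        have e2 : (0 : ℝ) ≤ 2 * a - b := by exact_mod_cast s1.sol.b_nonneg
        have e3 : (0 : ℝ) ≤ 2 * a' - b := by exact_mod_cast s2.sol.b_nonneg
        have e4 : max 0 (-2 * h) ≤ 2 * (a : ℝ) - b := by
          apply max_le e2
          rw [hh]
          linarith
        rw [e1]
        linarith
      · have e1 : (Q k m : ℝ) = 2 * a - b - a := by
          have := s1.sol.b_eq
          have h5 : ((2 * a - b : ℤ) : ℝ) = ((a + Q k m : ℤ) : ℝ) := by rw [this]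
          push_cast at h5
          linarith
        have e2 : (2 : ℝ) * a - b ≤ 2 * m := by exact_mod_cast s1.sol.b_le
        have e3 : (2 : ℝ) * a' - b ≤ 2 * m' := by exact_mod_cast s2.sol.b_le
        have e5 : (m' : ℝ) - m = e := by exact_mod_cast s3
        have e6 : (0 : ℝ) ≤ b := by exact_mod_cast s1.nonneg
        have e7 := hmM k (Finset.mem_union_left _ hk) m s1.sol.strip
        have e8 : max 0 (2 * h - 2 * e) ≤ 2 * M - (2 * a - b) := by
          apply max_le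
          · linarith
          · rw [hh]
            linarith
        have e4 : 2 * (a : ℝ) - b ≤ min (2 * (a : ℝ)) (2 * M - max 0 (2 * h - 2 * e)) := by
          apply le_min
          · linarith
          · linarith
        rw [e1]
        linarith
    obtain ⟨m₀, t1, t2, t3, t4⟩ := hrange k₀ hk₀
    refine ⟨by rw [hLE]; linarith, ?_⟩
    have h1 := arc_count (d := d) (e := e) (c := 2 * d * k₀ - e * m₀) he (Y := Y)
      (lo := max 0 (-2 * h) - a)
      (hi := min (2 * (a : ℝ)) (2 * M - max 0 (2 * h - 2 * e)) - a) hY0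
      (by rw [← hs, ← ht]; exact hS0) TE (by
        intro k hk
        refine ⟨hYk k (Finset.mem_union_left _ hk), ?_⟩
        obtain ⟨m, r1, r2, r3, r4⟩ := hrange k hk
        refine ⟨m, r1, ?_, r3, r4⟩
        have : ((2 * d * k - e * m : ℤ) : ℝ) = ((2 * d * k₀ - e * m₀ : ℤ) : ℝ) := by linarith
        exact_mod_cast this)
    rw [← hs, ← ht, ← hg, ← hS] at h1
    have h2 : min (2 * (a : ℝ)) (2 * M - max 0 (2 * h - 2 * e)) - a - (max 0 (-2 * h) - a) =
        LE := by rw [hLE]; ring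
    rw [h2] at h1
    exact h1
  have harcO : TO.Nonempty → 0 ≤ LO ∧ TO.card ≤ ⌊g * LO / (2 * S)⌋₊ + 1 := by
    intro hne'
    obtain ⟨k₀, hk₀⟩ := hne'
    have hrange : ∀ k ∈ TO, ∃ m : ℤ, |(m : ℝ) - s * k| < 1 ∧
        2 * ((2 * d * k - e * m : ℤ) : ℝ) = h - q + 4 * d ∧
        2 * (a : ℝ) - a ≤ (Q k m : ℝ) ∧
        (Q k m : ℝ) ≤ 2 * M - max 0 (2 * h + 4 * d - 2 * e) - a := by
      intro k hk
      obtain ⟨k1, m, m', b, s1, s2, s3⟩ := hTO k hk
      have e1 : (Q k m : ℝ) = 4 * k - 1 + 2 * a - b - a := by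
        have := s1.sol.b_eq
        have h5 : ((4 * k - 1 + 2 * a - b : ℤ) : ℝ) = ((a + Q k m : ℤ) : ℝ) := by rw [this]
        push_cast at h5
        linarith
      refine ⟨m, s1.sol.strip, ?_, ?_, ?_⟩
      · have := s1.line s2 s3
        have h5 : ((a' - a : ℤ) : ℝ) =
            ((2 * (2 * d * (k - 1) - e * m) + 2 * d ^ 2 - e ^ 2 : ℤ) : ℝ) := by rw [this]
        rw [hh, hq]
        push_cast at h5 ⊢
        linarith
      · have e2 : (b : ℝ) < 4 * k - 1 := by exact_mod_cast s1.lt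
        rw [e1]
        linarith
      · have e2 : 4 * (k : ℝ) - 1 + 2 * a - b ≤ 2 * m := by exact_mod_cast s1.sol.b_le
        have e3 : 4 * ((k : ℝ) + d) - 1 + 2 * a' - b ≤ 2 * m' := by exact_mod_cast s2.sol.b_le
        have e5 : (m' : ℝ) - m = e := by exact_mod_cast s3
        have e7 := hmM k (Finset.mem_union_right _ hk) m s1.sol.strip
        have e8 : max 0 (2 * h + 4 * d - 2 * e) ≤ 2 * M - (4 * k - 1 + 2 * a - b) := by
          apply max_le
          · linarith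
          · rw [hh]
            linarith
        rw [e1]
        linarith
    obtain ⟨m₀, t1, t2, t3, t4⟩ := hrange k₀ hk₀
    refine ⟨by rw [hLO]; linarith, ?_⟩
    have h1 := arc_count (d := d) (e := e) (c := 2 * d * k₀ - e * m₀) he (Y := Y)
      (lo := 2 * (a : ℝ) - a)
      (hi := 2 * M - max 0 (2 * h + 4 * d - 2 * e) - a) hY0
      (by rw [← hs, ← ht]; exact hS0) TO (by
        intro k hk
        refine ⟨hYk k (Finset.mem_union_right _ hk), ?_⟩
        obtain ⟨m, r1, r2, r3, r4⟩ := hrange k hk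
        refine ⟨m, r1, ?_, r3, r4⟩
        have : ((2 * d * k - e * m : ℤ) : ℝ) = ((2 * d * k₀ - e * m₀ : ℤ) : ℝ) := by linarith
        exact_mod_cast this)
    rw [← hs, ← ht, ← hg, ← hS] at h1
    have h2 : 2 * M - max 0 (2 * h + 4 * d - 2 * e) - a - (2 * (a : ℝ) - a) =
        LO := by rw [hLO]; ring
    rw [h2] at h1
    exact h1
  -- the three length bounds
  have hhe : |h| ≤ max 0 (2 * h - 2 * e) / 2 + max 0 (-2 * h) / 2 + |(e : ℝ)| := by
    rcases abs_cases h with ⟨h1, h2⟩ | ⟨h1, h2⟩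
    · have p1 := le_max_right 0 (2 * h - 2 * (e : ℝ))
      have p2 := le_max_left 0 (-2 * h)
      have p3 := neg_abs_le (e : ℝ)
      have p4 := le_abs_self (e : ℝ)
      rw [h1]
      linarith
    · have p1 := le_max_left 0 (2 * h - 2 * (e : ℝ))
      have p2 := le_max_right 0 (-2 * h)
      rw [h1]
      linarith
  have hhd : |h| ≤ max 0 (2 * h + 4 * d - 2 * e) / 2 + max 0 (-2 * h) / 2 +
      2 * |(d : ℝ)| + |(e : ℝ)| := by
    rcases abs_cases h with ⟨h1, h2⟩ | ⟨h1, h2⟩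
    · have p1 := le_max_right 0 (2 * h + 4 * (d : ℝ) - 2 * (e : ℝ))
      have p2 := le_max_left 0 (-2 * h)
      have p3 := neg_abs_le (d : ℝ)
      have p4 := le_abs_self (e : ℝ)
      rw [h1]
      linarith
    · have p1 := le_max_left 0 (2 * h + 4 * (d : ℝ) - 2 * (e : ℝ))
      have p2 := le_max_right 0 (-2 * h)
      rw [h1]
      linarith
  have hmaxa : max 0 (-2 * h) ≤ 2 * (a : ℝ) := by
    apply max_le
    · linarith
    · rw [hh]; linarith
  have hLEL : LE ≤ L := by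
    have h1 := min_le_right (2 * (a : ℝ)) (2 * M - max 0 (2 * h - 2 * e))
    rw [hLE, hL]
    nlinarith
  have hLOL : LO ≤ L := by
    rw [hLO, hL]
    nlinarith
  have hsumL : LE + LO ≤ L := by
    have h1 := min_le_left (2 * (a : ℝ)) (2 * M - max 0 (2 * h - 2 * e))
    rw [hLE, hLO, hL]
    nlinarith
  have hfl : ∀ x : ℝ, x ≤ L → g * x / (2 * S) < J + 1 := by
    intro x hx
    rw [div_lt_iff₀ (by linarith)]
    exact (mul_le_mul_of_nonneg_left hx hg0).trans_lt hJX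
  rcases TE.eq_empty_or_nonempty with hE | hE
  · rcases TO.eq_empty_or_nonempty with hO | hO
    · rw [hE, hO]; simp
    · have h1 := (harcO hO).2
      have h2 := floor_le_of_lt (hfl LO hLOL)
      rw [hE, Finset.card_empty]
      omega
  · rcases TO.eq_empty_or_nonempty with hO | hO
    · have h1 := (harcE hE).2
      have h2 := floor_le_of_lt (hfl LE hLEL)
      rw [hO, Finset.card_empty]
      omega
    · obtain ⟨hE0, hE1⟩ := harcE hE
      obtain ⟨hO0, hO1⟩ := harcO hO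
      have f1 : (⌊g * LE / (2 * S)⌋₊ : ℝ) ≤ g * LE / (2 * S) := Nat.floor_le (by positivity)
      have f2 : (⌊g * LO / (2 * S)⌋₊ : ℝ) ≤ g * LO / (2 * S) := Nat.floor_le (by positivity)
      have f3 : g * LE / (2 * S) + g * LO / (2 * S) < J + 1 := by
        have := hfl (LE + LO) hsumL
        rw [mul_add, add_div] at this
        exact this
      have f4 : ((⌊g * LE / (2 * S)⌋₊ + ⌊g * LO / (2 * S)⌋₊ : ℕ) : ℝ) < ((J + 1 : ℕ) : ℝ) := by
        push_cast
        linarith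
      have f5 : ⌊g * LE / (2 * S)⌋₊ + ⌊g * LO / (2 * S)⌋₊ < J + 1 := by exact_mod_cast f4
      omega

/-- **Even branch, then odd branch.** -/
theorem cross_count {d e a a' : ℤ} {J : ℕ} {K : ℝ} (he : e ≠ 0) (hK0 : 0 ≤ K)
    (hpos : 0 < 2 * |Real.sqrt 2 * (d - 1 : ℤ) - e| * K - 2 * |((d - 1 : ℤ) : ℝ)|)
    (hJ : ((Int.gcd (2 * (d - 1)) e : ℕ) : ℝ) *
        ((4 * Real.sqrt 2 * |Real.sqrt 2 * (d - 1 : ℤ) - e| - 4 + 2 * Real.sqrt 2) * K +
        (5 + 6 * |(e : ℝ)| + 4 * |(d : ℝ)| +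
          2 * |2 * ((d - 1 : ℤ) : ℝ) ^ 2 - (e : ℝ) ^ 2|)) <
      (J + 1) * (2 * (2 * |Real.sqrt 2 * (d - 1 : ℤ) - e| * K - 2 * |((d - 1 : ℤ) : ℝ)|)))
    (T : Finset ℤ)
    (hT : ∀ k ∈ T, K ≤ k ∧ ∃ m m' b : ℤ,
      SolE k m a b ∧ SolO (k + d) m' a' b ∧ m' - m = e) :
    T.card ≤ J + 1 := by
  classical
  rcases T.eq_empty_or_nonempty with h0 | hne
  · rw [h0]; simp
  set δ : ℤ := d - 1 with hδ
  set t := |Real.sqrt 2 * δ - e| with ht
  set g : ℝ := ((Int.gcd (2 * δ) e : ℕ) : ℝ) with hg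
  set s := Real.sqrt 2 with hs
  have hs2 : s * s = 2 := Real.mul_self_sqrt (by norm_num)
  have hs0 : 0 ≤ s := Real.sqrt_nonneg _
  have hs1 : 1 ≤ s := by nlinarith
  have hs3 : s ≤ 2 := by nlinarith
  have ht0 : 0 ≤ t := abs_nonneg _
  have hg0 : 0 ≤ g := by rw [hg]; positivity
  have hd0 : 0 ≤ |(d : ℝ)| := abs_nonneg _
  have hδ0 : 0 ≤ |(δ : ℝ)| := abs_nonneg _
  have he0 : 0 ≤ |(e : ℝ)| := abs_nonneg _
  set q : ℝ := 2 * (δ : ℝ) ^ 2 - (e : ℝ) ^ 2 with hq
  have hq0 : 0 ≤ |q| := abs_nonneg _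
  set h : ℝ := (a' : ℝ) - a with hh
  -- the minimum
  obtain ⟨X, hX, hmin⟩ := T.exists_min_image id hne
  have hmin' : ∀ k ∈ T, (X : ℝ) ≤ k := fun k hk => by
    have := hmin k hk
    simp only [id] at this
    exact_mod_cast this
  -- line relation
  have hline : ∀ k m m' b : ℤ, SolE k m a b → SolO (k + d) m' a' b → m' - m = e →
      2 * ((2 * δ * k - e * m : ℤ) : ℝ) = h + 1 - q := by
    intro k m m' b s1 s2 s3
    have := s1.line_cross s2 s3
    have h5 : ((a' - a + 1 : ℤ) : ℝ) =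
        ((2 * (2 * (d - 1) * k - e * m) + 2 * (d - 1) ^ 2 - e ^ 2 : ℤ) : ℝ) := by rw [this]
    rw [hh, hq, hδ]
    push_cast at h5 ⊢
    linarith
  obtain ⟨hKX, mX, mX', bX, sX, sX', qX⟩ := hT X hX
  have hX0 : (0 : ℝ) ≤ X := by linarith
  -- upper bound for `|h + 1|`
  have hup : |h + 1| ≤ 2 * (s * t * X + |(e : ℝ)|) + |q| := by
    have p1 := lin_est (d := δ) (e := e) sX.sol.strip
    rw [← hs] at p1
    have p2 : |s * (s * δ - e) * X| = s * t * X := by
      rw [abs_mul, abs_mul, abs_of_nonneg hs0, abs_of_nonneg hX0, ht]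
    have p3 : |((2 * δ * X - e * mX : ℤ) : ℝ)| ≤ s * t * X + |(e : ℝ)| := by
      rw [← p2]
      have := abs_sub_abs_le_abs_sub ((2 * δ * X - e * mX : ℤ) : ℝ) (s * (s * δ - e) * X)
      linarith
    have p4 : h + 1 = 2 * ((2 * δ * X - e * mX : ℤ) : ℝ) + q := by
      rw [hline X mX mX' bX sX sX' qX]; ring
    rw [p4]
    refine (abs_add_le _ _).trans ?_
    rw [abs_mul]
    norm_num
    push_cast at p3
    linarith
  have hhn : -2 * h ≤ 2 * |h + 1| + 2 := by
    have := neg_abs_le (h + 1)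
    linarith
  set S : ℝ := 2 * t * X - 2 * |(δ : ℝ)| with hS
  have htX : t * K ≤ t * X := mul_le_mul_of_nonneg_left hKX ht0
  have hS0 : 0 < S := by rw [hS]; linarith
  set L : ℝ := (4 * s * t - 4 + 2 * s) * X +
    (5 + 6 * |(e : ℝ)| + 4 * |(d : ℝ)| + 2 * |q|) with hL
  have hJX : g * L < (J + 1) * (2 * S) := by
    have h1 := slope_ext (α := g * (4 * s * t - 4 + 2 * s)) (β := 4 * t)
      (C₁ := g * (5 + 6 * |(e : ℝ)| + 4 * |(d : ℝ)| + 2 * |q|))
      (C₂ := 4 * |(δ : ℝ)|) (J := (J : ℝ) + 1)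
      hK0 hKX (by positivity) (by positivity) (by positivity) (by linarith)
    rw [hL, hS]
    linarith
  have h1 := arc_count (d := δ) (e := e) (c := 2 * δ * X - e * mX) he (Y := X)
    (lo := -(a : ℝ)) (hi := L - a) hX0
    (by rw [← hs, ← ht]; exact hS0) T (by
      intro k hk
      refine ⟨hmin' k hk, ?_⟩
      obtain ⟨hKk, m, m', b, s1, s2, s3⟩ := hT k hk
      have e1 : (Q k m : ℝ) = 2 * a - b - a := by
        have := s1.sol.b_eq
        have h5 : ((2 * a - b : ℤ) : ℝ) = ((a + Q k m : ℤ) : ℝ) := by rw [this]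
        push_cast at h5
        linarith
      refine ⟨m, s1.sol.strip, ?_, ?_, ?_⟩
      · have p1 := hline X mX mX' bX sX sX' qX
        have p2 := hline k m m' b s1 s2 s3
        have : ((2 * δ * k - e * m : ℤ) : ℝ) = ((2 * δ * X - e * mX : ℤ) : ℝ) := by linarith
        exact_mod_cast this
      · have e2 : (0 : ℝ) ≤ 2 * a - b := by exact_mod_cast s1.sol.b_nonneg
        rw [e1]
        linarith
      · have e3 : 4 * ((k : ℝ) + d) - 1 + 2 * a' - b ≤ 2 * m' := by exact_mod_cast s2.sol.b_le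
        have e5 : (m' : ℝ) - m = e := by exact_mod_cast s3
        have e6 := (abs_lt.mp s1.sol.strip).2
        rw [← hs] at e6
        have e7 := hmin' k hk
        have e8 : (2 * s - 4) * (k : ℝ) ≤ (2 * s - 4) * X :=
          mul_le_mul_of_nonpos_left e7 (by linarith)
        have e9 := neg_abs_le (d : ℝ)
        have e10 := le_abs_self (e : ℝ)
        rw [e1, hL]
        nlinarith)
  rw [← hs, ← ht, ← hg, ← hS] at h1
  have h2 : g * (L - a - -(a : ℝ)) / (2 * S) < J + 1 := by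
    have : L - a - -(a : ℝ) = L := by ring
    rw [this, div_lt_iff₀ (by linarith)]
    exact hJX
  have h3 := floor_le_of_lt h2
  omega

end Pool.Agent.AddSq
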