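import Pool.Agent.AddSq.Iface
import Pool.Agent.AddSq.Lag2Count

/-!
# Counting lemma, lag two

`N = #{(k, a) : K ≤ k < K + H, a ∈ A, a ≤ 2k, r₂(k, a) ∈ B}` satisfies
`D² N² ≤ |B| (H + D) (D N + M |A|²)` for every certificate `M`.
-/

namespace Pool.Agent.AddSq

open Finset

theorem sol_r2 {k a : ℕ} (h : a ≤ 2 * k) :
    SolE k (m1 k a) a (r2 k a) ∨ SolO k (m1 k a) a (r2 k a) := by
  have s := sol_r1 h
  have e1 : Nat.sqrt (k * k + a) = k := sqrt_block h
  have e2 : rem (k * k + a) = a := rem_block h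
  rcases Nat.lt_or_ge (2 * rem (k * k + a)) (rem (up (k * k + a))) with hc | hc
  · right
    have h2 := (case_odd hc).2
    rw [e1, e2] at h2
    have h3 : (r1 k a : ℤ) = 4 * k - 1 + 2 * a - r2 k a := by
      unfold r1 r2
      linarith
    rw [h3] at s
    refine ⟨s, by positivity, ?_⟩
    have h4 : (2 * a : ℤ) < r1 k a := by
      rw [e2] at hc
      unfold r1
      exact_mod_cast hc
    linarith
  · left
    have h2 := (case_even hc).2
    rw [e2] at h2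
    have h3 : (r1 k a : ℤ) = 2 * a - r2 k a := by
      unfold r1 r2
      linarith
    rw [h3] at s
    exact ⟨s, by positivity⟩

theorem r2_le_four {k a : ℕ} (ha : a ≤ 2 * k) : r2 k a ≤ 4 * k := by
  rcases sol_r2 ha with h | h
  · have h1 := h.sol.b_nonneg
    have h2 := h.sol.a_le
    omega
  · have h1 := h.lt
    omega

/-- numerical conditions for a pair of shifts `(d, e)` on the same branch, with the bound
`J + 2` -/
structure SameOK (K : ℝ) (d e : ℤ) (J : ℕ) : Prop where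
  ne : e ≠ 0
  pos : 0 < 2 * |Real.sqrt 2 * d - e| * K -
    (2 * Real.sqrt 2 * (|(e : ℝ)| + |(d : ℝ)|) + 2 * |(d : ℝ)|)
  lt : ((Int.gcd (2 * d) e : ℕ) : ℝ) * (2 * Real.sqrt 2 * (1 - 2 * |Real.sqrt 2 * d - e|) * K +
      (2 + 8 * |(e : ℝ)| + 12 * |(d : ℝ)| + 2 * |2 * (d : ℝ) ^ 2 - (e : ℝ) ^ 2|)) <
    (J + 1) * (2 * (2 * |Real.sqrt 2 * d - e| * K -
      (2 * Real.sqrt 2 * (|(e : ℝ)| + |(d : ℝ)|) + 2 * |(d : ℝ)|)))

/-- numerical conditions for a pair of shifts `(d, e)` from the even to the odd branch, with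
the bound `J + 1` -/
structure CrossOK (K : ℝ) (d e : ℤ) (J : ℕ) : Prop where
  ne : e ≠ 0
  pos : 0 < 2 * |Real.sqrt 2 * (d - 1 : ℤ) - e| * K - 2 * |((d - 1 : ℤ) : ℝ)|
  lt : ((Int.gcd (2 * (d - 1)) e : ℕ) : ℝ) *
      ((4 * Real.sqrt 2 * |Real.sqrt 2 * (d - 1 : ℤ) - e| - 4 + 2 * Real.sqrt 2) * K +
      (5 + 6 * |(e : ℝ)| + 4 * |(d : ℝ)| +
        2 * |2 * ((d - 1 : ℤ) : ℝ) ^ 2 - (e : ℝ) ^ 2|)) <
    (J + 1) * (2 * (2 * |Real.sqrt 2 * (d - 1 : ℤ) - e| * K - 2 * |((d - 1 : ℤ) : ℝ)|))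

theorem SameOK.mono {K K' : ℝ} {d e : ℤ} {J : ℕ} (h : SameOK K d e J) (hK : 0 ≤ K)
    (hKK : K ≤ K') : SameOK K' d e J := by
  have ht : 0 ≤ |Real.sqrt 2 * (d : ℝ) - e| := abs_nonneg _
  refine ⟨h.ne, ?_, ?_⟩
  · have h1 := h.pos
    have h2 := mul_le_mul_of_nonneg_left hKK ht
    linarith
  · have h1 := slope_ext
      (α := ((Int.gcd (2 * d) e : ℕ) : ℝ) * (2 * Real.sqrt 2 * (1 - 2 * |Real.sqrt 2 * d - e|)))
      (β := 4 * |Real.sqrt 2 * (d : ℝ) - e|)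
      (C₁ := ((Int.gcd (2 * d) e : ℕ) : ℝ) *
        (2 + 8 * |(e : ℝ)| + 12 * |(d : ℝ)| + 2 * |2 * (d : ℝ) ^ 2 - (e : ℝ) ^ 2|))
      (C₂ := 2 * (2 * Real.sqrt 2 * (|(e : ℝ)| + |(d : ℝ)|) + 2 * |(d : ℝ)|))
      (J := (J : ℝ) + 1) hK hKK (by positivity) (by positivity) (by positivity)
      (by linarith [h.lt])
    linarith

theorem CrossOK.mono {K K' : ℝ} {d e : ℤ} {J : ℕ} (h : CrossOK K d e J) (hK : 0 ≤ K)
    (hKK : K ≤ K') : CrossOK K' d e J := by
  have ht : 0 ≤ |Real.sqrt 2 * ((d - 1 : ℤ) : ℝ) - e| := abs_nonneg _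
  refine ⟨h.ne, ?_, ?_⟩
  · have h1 := h.pos
    have h2 := mul_le_mul_of_nonneg_left hKK ht
    linarith
  · have h1 := slope_ext
      (α := ((Int.gcd (2 * (d - 1)) e : ℕ) : ℝ) *
        (4 * Real.sqrt 2 * |Real.sqrt 2 * (d - 1 : ℤ) - e| - 4 + 2 * Real.sqrt 2))
      (β := 4 * |Real.sqrt 2 * ((d - 1 : ℤ) : ℝ) - e|)
      (C₁ := ((Int.gcd (2 * (d - 1)) e : ℕ) : ℝ) *
        (5 + 6 * |(e : ℝ)| + 4 * |(d : ℝ)| +
        2 * |2 * ((d - 1 : ℤ) : ℝ) ^ 2 - (e : ℝ) ^ 2|))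
      (C₂ := 4 * |((d - 1 : ℤ) : ℝ)|)
      (J := (J : ℝ) + 1) hK hKK (by positivity) (by positivity) (by positivity)
      (by linarith [h.lt])
    linarith

/-- the `k`'s of the pairs `(k, a), (k + d, a')` with the same `r₂ ∈ B` -/
noncomputable def T2 (B : Finset ℕ) (K H : ℕ) (a a' : ℕ) (d : ℤ) : Finset ℤ :=
  (Ico (K : ℤ) (K + H)).filter (fun k => (K : ℤ) ≤ k + d ∧ k + d < K + H ∧ (a : ℤ) ≤ 2 * k ∧
    (a' : ℤ) ≤ 2 * (k + d) ∧ r2 k.toNat a ∈ B ∧ r2 (k + d).toNat a' = r2 k.toNat a)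

theorem T2_facts {B : Finset ℕ} {K H : ℕ} {a a' : ℕ} {d k : ℤ} (hk : k ∈ T2 B K H a a' d) :
    (K : ℤ) ≤ k ∧ k < K + H ∧ (K : ℤ) ≤ k + d ∧ k + d < K + H ∧
    ∃ m m' b : ℤ, (SolE k m a b ∨ SolO k m a b) ∧
      (SolE (k + d) m' a' b ∨ SolO (k + d) m' a' b) := by
  unfold T2 at hk
  rw [mem_filter, mem_Ico] at hk
  obtain ⟨⟨h1, h2⟩, h3, h4, h5, h6, h7, h8⟩ := hk
  refine ⟨h1, h2, h3, h4, m1 k.toNat a, m1 (k + d).toNat a', r2 k.toNat a, ?_, ?_⟩
  · have e1 : (k.toNat : ℤ) = k := Int.toNat_of_nonneg (by omega)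
    have e2 : a ≤ 2 * k.toNat := by
      have : (a : ℤ) ≤ 2 * (k.toNat : ℤ) := by rw [e1]; exact h5
      exact_mod_cast this
    have := sol_r2 e2
    rw [e1] at this
    exact this
  · have e1 : ((k + d).toNat : ℤ) = k + d := Int.toNat_of_nonneg (by omega)
    have e2 : a' ≤ 2 * (k + d).toNat := by
      have : (a' : ℤ) ≤ 2 * ((k + d).toNat : ℤ) := by rw [e1]; exact h6
      exact_mod_cast this
    have := sol_r2 e2
    rw [e1, h8] at this
    exact this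

/-- covering a finite set by fibers -/
theorem fiber_bound {T E : Finset ℤ} {n : ℤ → ℕ} (F : ℤ → Finset ℤ)
    (hF : ∀ k ∈ T, ∃ e ∈ E, k ∈ F e) (hn : ∀ e ∈ E, (F e).card ≤ n e) :
    T.card ≤ ∑ e ∈ E, n e := by
  classical
  have h1 : T ⊆ E.biUnion F := by
    intro k hk
    rw [mem_biUnion]
    exact hF k hk
  exact (Finset.card_le_card h1).trans (Finset.card_biUnion_le.trans (Finset.sum_le_sum hn))

/-- same branch, all `e` -/
theorem same_fiber {d : ℤ} {K H : ℕ} {a a' : ℤ} {E : Finset ℤ} {J : ℤ → ℕ}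
    {comp : ℤ → ℤ → Prop} [∀ e h, Decidable (comp e h)]
    (hEE : ∀ k m m' b : ℤ, K ≤ k → k < K + H → K ≤ k + d → k + d < K + H →
      SolE k m a b → SolE (k + d) m' a' b → m' - m ∈ E ∧ comp (m' - m) (a' - a))
    (hOO : ∀ k m m' b : ℤ, K ≤ k → k < K + H → K ≤ k + d → k + d < K + H →
      SolO k m a b → SolO (k + d) m' a' b → m' - m ∈ E ∧ comp (m' - m) (a' - a))
    (hJ : ∀ e ∈ E, SameOK K d e (J e)) (T : Finset ℤ)
    (hT : ∀ k ∈ T, (K : ℤ) ≤ k ∧ k < K + H ∧ (K : ℤ) ≤ k + d ∧ k + d < K + H ∧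
      ∃ m m' b : ℤ, (SolE k m a b ∧ SolE (k + d) m' a' b) ∨
        (SolO k m a b ∧ SolO (k + d) m' a' b)) :
    T.card ≤ ∑ e ∈ E, if comp e (a' - a) then J e + 2 else 0 := by
  classical
  set FE : ℤ → Finset ℤ := fun e => T.filter (fun k => ∃ m m' b : ℤ,
    SolE k m a b ∧ SolE (k + d) m' a' b ∧ m' - m = e) with hFE
  set FO : ℤ → Finset ℤ := fun e => T.filter (fun k => ∃ m m' b : ℤ,
    SolO k m a b ∧ SolO (k + d) m' a' b ∧ m' - m = e) with hFO
  apply fiber_bound (fun e => FE e ∪ FO e)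
  · intro k hk
    obtain ⟨h1, h2, h3, h4, m, m', b, h5 | h5⟩ := hT k hk
    · refine ⟨m' - m, (hEE k m m' b h1 h2 h3 h4 h5.1 h5.2).1, ?_⟩
      rw [mem_union]
      left
      rw [hFE, mem_filter]
      exact ⟨hk, m, m', b, h5.1, h5.2, rfl⟩
    · refine ⟨m' - m, (hOO k m m' b h1 h2 h3 h4 h5.1 h5.2).1, ?_⟩
      rw [mem_union]
      right
      rw [hFO, mem_filter]
      exact ⟨hk, m, m', b, h5.1, h5.2, rfl⟩
  · intro e he
    rcases (FE e ∪ FO e).eq_empty_or_nonempty with h0 | hne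
    · rw [h0]; simp
    have hcomp : comp e (a' - a) := by
      obtain ⟨k, hk⟩ := hne
      rw [mem_union] at hk
      rcases hk with hk | hk
      · rw [hFE, mem_filter] at hk
        obtain ⟨hkT, m, m', b, s1, s2, s3⟩ := hk
        obtain ⟨h1, h2, h3, h4, _⟩ := hT k hkT
        have := (hEE k m m' b h1 h2 h3 h4 s1 s2).2
        rw [s3] at this
        exact this
      · rw [hFO, mem_filter] at hk
        obtain ⟨hkT, m, m', b, s1, s2, s3⟩ := hk
        obtain ⟨h1, h2, h3, h4, _⟩ := hT k hkT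
        have := (hOO k m m' b h1 h2 h3 h4 s1 s2).2
        rw [s3] at this
        exact this
    rw [if_pos hcomp]
    refine (Finset.card_union_le _ _).trans ?_
    obtain ⟨j1, j2, j3⟩ := hJ e he
    apply same_count (d := d) (e := e) (a := a) (a' := a') j1 (by positivity : (0 : ℝ) ≤ K) j2 j3
    · intro k hk
      rw [hFE, mem_filter] at hk
      exact ⟨by exact_mod_cast (hT k hk.1).1, hk.2⟩
    · intro k hk
      rw [hFO, mem_filter] at hk
      exact ⟨by exact_mod_cast (hT k hk.1).1, hk.2⟩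

/-- even to odd branch, all `e` -/
theorem cross_fiber {d : ℤ} {K H : ℕ} {a a' : ℤ} {E : Finset ℤ} {J : ℤ → ℕ}
    {comp : ℤ → ℤ → Prop} [∀ e h, Decidable (comp e h)]
    (hEO : ∀ k m m' b : ℤ, K ≤ k → k < K + H → K ≤ k + d → k + d < K + H →
      SolE k m a b → SolO (k + d) m' a' b → m' - m ∈ E ∧ comp (m' - m) (a' - a))
    (hJ : ∀ e ∈ E, CrossOK K d e (J e)) (T : Finset ℤ)
    (hT : ∀ k ∈ T, (K : ℤ) ≤ k ∧ k < K + H ∧ (K : ℤ) ≤ k + d ∧ k + d < K + H ∧
      ∃ m m' b : ℤ, SolE k m a b ∧ SolO (k + d) m' a' b) :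
    T.card ≤ ∑ e ∈ E, if comp e (a' - a) then J e + 1 else 0 := by
  classical
  set FE : ℤ → Finset ℤ := fun e => T.filter (fun k => ∃ m m' b : ℤ,
    SolE k m a b ∧ SolO (k + d) m' a' b ∧ m' - m = e) with hFE
  apply fiber_bound FE
  · intro k hk
    obtain ⟨h1, h2, h3, h4, m, m', b, h5⟩ := hT k hk
    refine ⟨m' - m, (hEO k m m' b h1 h2 h3 h4 h5.1 h5.2).1, ?_⟩
    rw [hFE, mem_filter]
    exact ⟨hk, m, m', b, h5.1, h5.2, rfl⟩
  · intro e he
    rcases (FE e).eq_empty_or_nonempty with h0 | hne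
    · rw [h0]; simp
    have hcomp : comp e (a' - a) := by
      obtain ⟨k, hk⟩ := hne
      rw [hFE, mem_filter] at hk
      obtain ⟨hkT, m, m', b, s1, s2, s3⟩ := hk
      obtain ⟨h1, h2, h3, h4, _⟩ := hT k hkT
      have := (hEO k m m' b h1 h2 h3 h4 s1 s2).2
      rw [s3] at this
      exact this
    rw [if_pos hcomp]
    obtain ⟨j1, j2, j3⟩ := hJ e he
    apply cross_count (d := d) (e := e) (a := a) (a' := a') j1 (by positivity : (0 : ℝ) ≤ K) j2 j3
    intro k hk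
    rw [hFE, mem_filter] at hk
    exact ⟨by exact_mod_cast (hT k hk.1).1, hk.2⟩

/-- at `d = 0` the same branch forces `a = a'` -/
theorem same_zero {k m m' a a' b : ℤ}
    (h : (SolE k m a b ∧ SolE k m' a' b) ∨ (SolO k m a b ∧ SolO k m' a' b)) : a = a' := by
  have key : ∀ {r r' : ℤ}, Sol k m a r → Sol k m' a' r' → a' - a = m ^ 2 - m' ^ 2 → a = a' := by
    intro r r' s s' h1
    have e1 := s.b_eq
    have e2 := s'.b_eq
    have e3 := s.b_nonneg
    have e4 := s'.b_nonneg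
    have e5 := s.b_le
    have e6 := s'.b_le
    have e7 := s.m_nonneg
    have e8 := s'.m_nonneg
    unfold Q at e1 e2
    have hm : m = m' := by
      rcases lt_trichotomy m m' with hlt | heq | hgt
      · exfalso
        nlinarith
      · exact heq
      · exfalso
        nlinarith
    rw [hm] at h1
    linarith
  rcases h with ⟨s, s'⟩ | ⟨s, s'⟩
  · apply key s.sol s'.sol
    have e1 := s.sol.b_eq
    have e2 := s'.sol.b_eq
    unfold Q at e1 e2
    linarith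
  · apply key s.sol s'.sol
    have e1 := s.sol.b_eq
    have e2 := s'.sol.b_eq
    unfold Q at e1 e2
    linarith

/-- the pairs at distance `d` which are not on the same branch -/
theorem cross_part {B : Finset ℕ} {K H D : ℕ} (Ec : ℤ → Finset ℤ) (Jc : ℤ → ℤ → ℕ)
    (compc : ℤ → ℤ → ℤ → Prop) [∀ d e h, Decidable (compc d e h)]
    (hEO : ∀ d : ℤ, |d| < D → ∀ k m m' a a' b : ℤ, K ≤ k → k < K + H → K ≤ k + d →
      k + d < K + H → SolE k m a b → SolO (k + d) m' a' b →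
      m' - m ∈ Ec d ∧ compc d (m' - m) (a' - a))
    (hJc : ∀ d : ℤ, |d| < D → ∀ e ∈ Ec d, CrossOK K d e (Jc d e))
    {d : ℤ} (hd : |d| < D) (a a' : ℕ) (T : Finset ℤ) (hT : T ⊆ T2 B K H a a' d)
    (hT2 : ∀ k ∈ T, ¬ ∃ m m' b : ℤ, (SolE k m a b ∧ SolE (k + d) m' a' b) ∨
        (SolO k m a b ∧ SolO (k + d) m' a' b)) :
    T.card ≤ (∑ e ∈ Ec d, if compc d e ((a' : ℤ) - a) then Jc d e + 1 else 0) +
      ∑ e ∈ Ec (-d), if compc (-d) e (-((a' : ℤ) - a)) then Jc (-d) e + 1 else 0 := by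
  classical
  set T₁ := T.filter (fun k => ∃ m m' b : ℤ, SolE k m a b ∧ SolO (k + d) m' a' b) with hT₁
  set T₂ := T.filter (fun k => ∃ m m' b : ℤ, SolO k m a b ∧ SolE (k + d) m' a' b) with hT₂
  have hcov : T ⊆ T₁ ∪ T₂ := by
    intro k hk
    obtain ⟨_, _, _, _, m, m', b, h5, h6⟩ := T2_facts (hT hk)
    have h7 := hT2 k hk
    rw [mem_union, hT₁, hT₂, mem_filter, mem_filter]
    rcases h5 with h5 | h5
    · rcases h6 with h6 | h6
      · exact absurd ⟨m, m', b, Or.inl ⟨h5, h6⟩⟩ h7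
      · exact Or.inl ⟨hk, m, m', b, h5, h6⟩
    · rcases h6 with h6 | h6
      · exact Or.inr ⟨hk, m, m', b, h5, h6⟩
      · exact absurd ⟨m, m', b, Or.inr ⟨h5, h6⟩⟩ h7
  refine (Finset.card_le_card hcov).trans ((Finset.card_union_le _ _).trans ?_)
  apply Nat.add_le_add
  · apply cross_fiber (d := d) (K := K) (H := H) (a := a) (a' := a') (comp := compc d)
      (fun k m m' b => hEO d hd k m m' a a' b) (hJc d hd)
    intro k hk
    rw [hT₁, mem_filter] at hk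
    obtain ⟨h1, h2, h3, h4, _⟩ := T2_facts (hT hk.1)
    exact ⟨h1, h2, h3, h4, hk.2⟩
  · -- shift by `d`
    have hd' : |(-d)| < D := by rw [abs_neg]; exact hd
    have hinj : Set.InjOn (fun k : ℤ => k + d) (T₂ : Set ℤ) := by
      intro x _ y _ hxy
      simp only at hxy
      omega
    rw [← Finset.card_image_of_injOn hinj]
    have e1 : -((a' : ℤ) - a) = (a : ℤ) - a' := by ring
    rw [e1]
    apply cross_fiber (d := -d) (K := K) (H := H) (a := (a' : ℤ)) (a' := (a : ℤ))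
      (comp := compc (-d))
      (fun k m m' b => hEO (-d) hd' k m m' a' a b) (hJc (-d) hd')
    intro k hk
    rw [mem_image] at hk
    obtain ⟨k₀, hk₀, rfl⟩ := hk
    rw [hT₂, mem_filter] at hk₀
    obtain ⟨h1, h2, h3, h4, _⟩ := T2_facts (hT hk₀.1)
    obtain ⟨m, m', b, s1, s2⟩ := hk₀.2
    have e2 : k₀ + d + -d = k₀ := by ring
    rw [e2]
    exact ⟨h3, h4, h1, h2, m', m, b, s2, s1⟩

/-- the double sum of the second moment -/
theorem moment2 (A B : Finset ℕ) {K H D M : ℕ}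
    (Es : ℤ → Finset ℤ) (Js : ℤ → ℤ → ℕ)
    (comps : ℤ → ℤ → ℤ → Prop) [∀ d e h, Decidable (comps d e h)]
    (Ec : ℤ → Finset ℤ) (Jc : ℤ → ℤ → ℕ)
    (compc : ℤ → ℤ → ℤ → Prop) [∀ d e h, Decidable (compc d e h)]
    (hEE : ∀ d : ℤ, d ≠ 0 → |d| < D → ∀ k m m' a a' b : ℤ, K ≤ k → k < K + H → K ≤ k + d →
      k + d < K + H → SolE k m a b → SolE (k + d) m' a' b →
      m' - m ∈ Es d ∧ comps d (m' - m) (a' - a))
    (hOO : ∀ d : ℤ, d ≠ 0 → |d| < D → ∀ k m m' a a' b : ℤ, K ≤ k → k < K + H → K ≤ k + d →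
      k + d < K + H → SolO k m a b → SolO (k + d) m' a' b →
      m' - m ∈ Es d ∧ comps d (m' - m) (a' - a))
    (hEO : ∀ d : ℤ, |d| < D → ∀ k m m' a a' b : ℤ, K ≤ k → k < K + H → K ≤ k + d →
      k + d < K + H → SolE k m a b → SolO (k + d) m' a' b →
      m' - m ∈ Ec d ∧ compc d (m' - m) (a' - a))
    (hJs : ∀ d : ℤ, d ≠ 0 → |d| < D → ∀ e ∈ Es d, SameOK K d e (Js d e))
    (hJc : ∀ d : ℤ, |d| < D → ∀ e ∈ Ec d, CrossOK K d e (Jc d e))
    (hM : ∀ h : ℤ,
      (∑ d ∈ (Ioo (-(D : ℤ)) D).erase 0,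
        (D - d.natAbs) * ∑ e ∈ Es d, (if comps d e h then Js d e + 2 else 0)) +
      ∑ d ∈ Ioo (-(D : ℤ)) D, (D - d.natAbs) *
        ∑ e ∈ Ec d, ((if compc d e h then Jc d e + 1 else 0) +
          (if compc d e (-h) then Jc d e + 1 else 0)) ≤ M) :
    ∑ d ∈ Ioo (-(D : ℤ)) D, (D - d.natAbs) * ∑ a ∈ A, ∑ a' ∈ A, (T2 B K H a a' d).card ≤
      D * ∑ a ∈ A, (T2 B K H a a 0).card + M * A.card ^ 2 := by
  classical
  set c : ℤ → ℤ → ℕ := fun d h => ∑ e ∈ Ec d, if compc d e h then Jc d e + 1 else 0 with hc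
  set s : ℤ → ℤ → ℕ := fun d h => ∑ e ∈ Es d, if comps d e h then Js d e + 2 else 0 with hs
  -- single bound
  have hb : ∀ d ∈ Ioo (-(D : ℤ)) D, ∀ a a' : ℕ, (T2 B K H a a' d).card ≤
      (if d = 0 then (if a = a' then (T2 B K H a a 0).card else 0) else s d ((a' : ℤ) - a)) +
        (c d ((a' : ℤ) - a) + c (-d) (-((a' : ℤ) - a))) := by
    intro d hd a a'
    rw [mem_Ioo] at hd
    have habs : |d| < D := abs_lt.mpr hd
    set P : ℤ → Prop := fun k => ∃ m m' b : ℤ, (SolE k m a b ∧ SolE (k + d) m' a' b) ∨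
        (SolO k m a b ∧ SolO (k + d) m' a' b) with hP
    have hsplit := Finset.card_filter_add_card_filter_not (s := T2 B K H a a' d) P
    have hcross : ((T2 B K H a a' d).filter (fun k => ¬ P k)).card ≤
        c d ((a' : ℤ) - a) + c (-d) (-((a' : ℤ) - a)) := by
      apply cross_part (B := B) (K := K) (H := H) (D := D) Ec Jc compc hEO hJc habs a a' _
        (Finset.filter_subset _ _)
      intro k hk
      rw [mem_filter] at hk
      exact hk.2
    have hsame : ((T2 B K H a a' d).filter P).card ≤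
        (if d = 0 then (if a = a' then (T2 B K H a a 0).card else 0)
          else s d ((a' : ℤ) - a)) := by
      by_cases hd0 : d = 0
      · rw [if_pos hd0]
        by_cases haa : a = a'
        · rw [if_pos haa, ← haa, hd0]
          exact Finset.card_le_card (Finset.filter_subset _ _)
        · rw [if_neg haa]
          rw [Nat.le_zero, Finset.card_eq_zero, Finset.filter_eq_empty_iff]
          intro k _ hk
          obtain ⟨m, m', b, h1⟩ := hk
          rw [hd0, add_zero] at h1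
          exact haa (by exact_mod_cast same_zero h1)
      · rw [if_neg hd0]
        apply same_fiber (d := d) (K := K) (H := H) (a := a) (a' := a') (comp := comps d)
          (fun k m m' b => hEE d hd0 habs k m m' a a' b)
          (fun k m m' b => hOO d hd0 habs k m m' a a' b) (hJs d hd0 habs)
        intro k hk
        rw [mem_filter] at hk
        obtain ⟨h1, h2, h3, h4, _⟩ := T2_facts hk.1
        exact ⟨h1, h2, h3, h4, hk.2⟩
    omega
  -- sum of the weights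
  set w : ℤ → ℕ := fun d => D - d.natAbs with hw
  have hwneg : ∀ d, w (-d) = w d := by intro d; rw [hw]; simp
  have hrefl : ∀ h : ℤ, ∑ d ∈ Ioo (-(D : ℤ)) D, w d * c (-d) (-h) =
      ∑ d ∈ Ioo (-(D : ℤ)) D, w d * c d (-h) := by
    intro h
    refine Finset.sum_bij' (fun d _ => -d) (fun d _ => -d) ?_ ?_ ?_ ?_ ?_
    · intro d hd
      rw [mem_Ioo] at hd ⊢
      omega
    · intro d hd
      rw [mem_Ioo] at hd ⊢
      omega
    · intro d _; simp
    · intro d _; simp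
    · intro d _
      rw [hwneg]
  have hMh : ∀ h : ℤ, (∑ d ∈ (Ioo (-(D : ℤ)) D).erase 0, w d * s d h) +
      ∑ d ∈ Ioo (-(D : ℤ)) D, w d * (c d h + c (-d) (-h)) ≤ M := by
    intro h
    have h1 := hM h
    have h2 : ∑ d ∈ Ioo (-(D : ℤ)) D, w d * (c d h + c (-d) (-h)) =
        ∑ d ∈ Ioo (-(D : ℤ)) D, (D - d.natAbs) *
        ∑ e ∈ Ec d, ((if compc d e h then Jc d e + 1 else 0) +
          (if compc d e (-h) then Jc d e + 1 else 0)) := by
      have h3 : ∀ d, w d * (c d h + c (-d) (-h)) = w d * c d h + w d * c (-d) (-h) :=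
        fun d => Nat.mul_add _ _ _
      rw [Finset.sum_congr rfl (fun d _ => h3 d), Finset.sum_add_distrib, hrefl h,
        ← Finset.sum_add_distrib]
      apply Finset.sum_congr rfl
      intro d _
      rw [← Nat.mul_add, hc, hw]
      simp only
      rw [← Finset.sum_add_distrib]
    rw [h2]
    exact h1
  -- main estimate
  have h1 : ∀ d ∈ Ioo (-(D : ℤ)) D, w d * ∑ a ∈ A, ∑ a' ∈ A, (T2 B K H a a' d).card ≤
      (∑ a ∈ A, ∑ a' ∈ A, w d * (if d = 0 then (if a = a' then (T2 B K H a a 0).card else 0)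
        else s d ((a' : ℤ) - a))) +
      ∑ a ∈ A, ∑ a' ∈ A, w d * (c d ((a' : ℤ) - a) + c (-d) (-((a' : ℤ) - a))) := by
    intro d hd
    rw [← Finset.sum_add_distrib, Finset.mul_sum]
    apply Finset.sum_le_sum
    intro a _
    rw [← Finset.sum_add_distrib, Finset.mul_sum]
    apply Finset.sum_le_sum
    intro a' _
    rw [← Nat.mul_add]
    exact Nat.mul_le_mul_left _ (hb d hd a a')
  refine (Finset.sum_le_sum h1).trans ?_
  rw [Finset.sum_add_distrib]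
  rcases Nat.eq_zero_or_pos D with hD0 | hD
  · subst hD0
    simp
  have hmem : (0 : ℤ) ∈ Ioo (-(D : ℤ)) D := by rw [mem_Ioo]; omega
  rw [← Finset.add_sum_erase _ _ hmem]
  have hzero : ∑ a ∈ A, ∑ a' ∈ A, w 0 * (if (0 : ℤ) = 0 then
      (if a = a' then (T2 B K H a a 0).card else 0) else s 0 ((a' : ℤ) - a)) =
      D * ∑ a ∈ A, (T2 B K H a a 0).card := by
    rw [Finset.mul_sum]
    apply Finset.sum_congr rfl
    intro a ha
    have h2 : ∀ a' ∈ A, w 0 * (if (0 : ℤ) = 0 then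
      (if a = a' then (T2 B K H a a 0).card else 0) else s 0 ((a' : ℤ) - a)) =
      if a = a' then D * (T2 B K H a a 0).card else 0 := by
      intro a' _
      rw [if_pos rfl, hw]
      split_ifs <;> simp
    rw [Finset.sum_congr rfl h2, Finset.sum_ite_eq, if_pos ha]
  rw [hzero, add_assoc]
  apply Nat.add_le_add le_rfl
  -- the rest
  have h2 : ∑ d ∈ (Ioo (-(D : ℤ)) D).erase 0, ∑ a ∈ A, ∑ a' ∈ A, w d *
      (if d = 0 then (if a = a' then (T2 B K H a a 0).card else 0)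
        else s d ((a' : ℤ) - a)) =
      ∑ a ∈ A, ∑ a' ∈ A, ∑ d ∈ (Ioo (-(D : ℤ)) D).erase 0, w d * s d ((a' : ℤ) - a) := by
    rw [Finset.sum_comm]
    apply Finset.sum_congr rfl
    intro a _
    rw [Finset.sum_comm]
    apply Finset.sum_congr rfl
    intro a' _
    apply Finset.sum_congr rfl
    intro d hd
    rw [mem_erase] at hd
    rw [if_neg hd.1]
  have h3 : ∑ d ∈ Ioo (-(D : ℤ)) D, ∑ a ∈ A, ∑ a' ∈ A, w d *
      (c d ((a' : ℤ) - a) + c (-d) (-((a' : ℤ) - a))) =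
      ∑ a ∈ A, ∑ a' ∈ A, ∑ d ∈ Ioo (-(D : ℤ)) D, w d *
      (c d ((a' : ℤ) - a) + c (-d) (-((a' : ℤ) - a))) := by
    rw [Finset.sum_comm]
    apply Finset.sum_congr rfl
    intro a _
    rw [Finset.sum_comm]
  rw [h2, h3, ← Finset.sum_add_distrib]
  have h4 : ∀ a ∈ A, (∑ a' ∈ A, ∑ d ∈ (Ioo (-(D : ℤ)) D).erase 0, w d * s d ((a' : ℤ) - a)) +
      ∑ a' ∈ A, ∑ d ∈ Ioo (-(D : ℤ)) D, w d *
      (c d ((a' : ℤ) - a) + c (-d) (-((a' : ℤ) - a))) ≤ M * A.card := by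
    intro a _
    rw [← Finset.sum_add_distrib]
    have h5 : ∀ a' ∈ A, (∑ d ∈ (Ioo (-(D : ℤ)) D).erase 0, w d * s d ((a' : ℤ) - a)) +
        ∑ d ∈ Ioo (-(D : ℤ)) D, w d *
        (c d ((a' : ℤ) - a) + c (-d) (-((a' : ℤ) - a))) ≤ M := fun a' _ => hMh _
    refine (Finset.sum_le_sum h5).trans ?_
    rw [Finset.sum_const, smul_eq_mul, mul_comm]
  refine (Finset.sum_le_sum h4).trans ?_
  rw [Finset.sum_const, smul_eq_mul]
  apply le_of_eq
  ring

/-- the family `g_b(k) = #{a ∈ A : a ≤ 2k, r₂(k, a) = b}` and its second moment -/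
theorem lag2_data (A B : Finset ℕ) {K H D M : ℕ}
    (Es : ℤ → Finset ℤ) (Js : ℤ → ℤ → ℕ)
    (comps : ℤ → ℤ → ℤ → Prop) [∀ d e h, Decidable (comps d e h)]
    (Ec : ℤ → Finset ℤ) (Jc : ℤ → ℤ → ℕ)
    (compc : ℤ → ℤ → ℤ → Prop) [∀ d e h, Decidable (compc d e h)]
    (hEE : ∀ d : ℤ, d ≠ 0 → |d| < D → ∀ k m m' a a' b : ℤ, K ≤ k → k < K + H → K ≤ k + d →
      k + d < K + H → SolE k m a b → SolE (k + d) m' a' b →
      m' - m ∈ Es d ∧ comps d (m' - m) (a' - a))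
    (hOO : ∀ d : ℤ, d ≠ 0 → |d| < D → ∀ k m m' a a' b : ℤ, K ≤ k → k < K + H → K ≤ k + d →
      k + d < K + H → SolO k m a b → SolO (k + d) m' a' b →
      m' - m ∈ Es d ∧ comps d (m' - m) (a' - a))
    (hEO : ∀ d : ℤ, |d| < D → ∀ k m m' a a' b : ℤ, K ≤ k → k < K + H → K ≤ k + d →
      k + d < K + H → SolE k m a b → SolO (k + d) m' a' b →
      m' - m ∈ Ec d ∧ compc d (m' - m) (a' - a))
    (hJs : ∀ d : ℤ, d ≠ 0 → |d| < D → ∀ e ∈ Es d, SameOK K d e (Js d e))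
    (hJc : ∀ d : ℤ, |d| < D → ∀ e ∈ Ec d, CrossOK K d e (Jc d e))
    (hM : ∀ h : ℤ,
      (∑ d ∈ (Ioo (-(D : ℤ)) D).erase 0,
        (D - d.natAbs) * ∑ e ∈ Es d, (if comps d e h then Js d e + 2 else 0)) +
      ∑ d ∈ Ioo (-(D : ℤ)) D, (D - d.natAbs) *
        ∑ e ∈ Ec d, ((if compc d e h then Jc d e + 1 else 0) +
          (if compc d e (-h) then Jc d e + 1 else 0)) ≤ M) :
    ∃ g : ℕ → ℤ → ℝ,
      (∀ b ∈ B, ∀ k, g b k ≠ 0 → (K : ℤ) ≤ k ∧ k < (K : ℤ) + H ∧ (b : ℤ) ≤ 4 * k) ∧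
      ∑ b ∈ B, ∑ k ∈ Ico (K : ℤ) (K + H), g b k = (pairs2 A B K H).card ∧
      ∑ d ∈ Ioo (-(D : ℤ)) D, ((D : ℝ) - |(d : ℝ)|) *
        ∑ b ∈ B, ∑ k ∈ Ico (K : ℤ) (K + H), g b k * g b (k + d) ≤
      D * (pairs2 A B K H).card + M * (A.card : ℝ) ^ 2 := by
  classical
  set N := (pairs2 A B K H).card with hN
  set cond : ℕ → ℕ → ℤ → Prop := fun b a k =>
    (K : ℤ) ≤ k ∧ k < K + H ∧ (a : ℤ) ≤ 2 * k ∧ r2 k.toNat a = b with hcond
  set χ : ℕ → ℕ → ℤ → ℝ := fun b a k => if cond b a k then 1 else 0 with hχ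
  set g : ℕ → ℤ → ℝ := fun b k => ∑ a ∈ A, χ b a k with hg
  have hsupp : ∀ b ∈ B, ∀ k, g b k ≠ 0 →
      (K : ℤ) ≤ k ∧ k < (K : ℤ) + H ∧ (b : ℤ) ≤ 4 * k := by
    intro b _ k hk
    by_contra hc
    apply hk
    rw [hg]
    simp only
    apply Finset.sum_eq_zero
    intro a _
    rw [hχ]
    simp only
    rw [if_neg]
    rintro ⟨h1, h2, h3, h4⟩
    apply hc
    refine ⟨h1, h2, ?_⟩
    have e1 : (k.toNat : ℤ) = k := Int.toNat_of_nonneg (by omega)
    have h5 : a ≤ 2 * k.toNat := by omega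
    have h6 := r2_le_four h5
    rw [h4] at h6
    omega
  -- products
  have hprod : ∀ d : ℤ, ∑ b ∈ B, ∑ k ∈ Ico (K : ℤ) (K + H), g b k * g b (k + d) =
      ((∑ a ∈ A, ∑ a' ∈ A, (T2 B K H a a' d).card : ℕ) : ℝ) := by
    intro d
    have e1 : ∑ b ∈ B, ∑ k ∈ Ico (K : ℤ) (K + H), g b k * g b (k + d) =
        ∑ b ∈ B, ∑ k ∈ Ico (K : ℤ) (K + H), ∑ a ∈ A, ∑ a' ∈ A, χ b a k * χ b a' (k + d) := by
      apply Finset.sum_congr rfl
      intro b _
      apply Finset.sum_congr rfl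
      intro k _
      rw [hg]
      simp only
      rw [Finset.sum_mul_sum]
    have e2 : ∑ b ∈ B, ∑ k ∈ Ico (K : ℤ) (K + H), ∑ a ∈ A, ∑ a' ∈ A,
        χ b a k * χ b a' (k + d) =
        ∑ a ∈ A, ∑ a' ∈ A, ∑ k ∈ Ico (K : ℤ) (K + H), ∑ b ∈ B, χ b a k * χ b a' (k + d) := by
      calc ∑ b ∈ B, ∑ k ∈ Ico (K : ℤ) (K + H), ∑ a ∈ A, ∑ a' ∈ A, χ b a k * χ b a' (k + d)
          = ∑ b ∈ B, ∑ a ∈ A, ∑ k ∈ Ico (K : ℤ) (K + H), ∑ a' ∈ A, χ b a k * χ b a' (k + d) := by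
            apply Finset.sum_congr rfl
            intro b _
            rw [Finset.sum_comm]
        _ = ∑ a ∈ A, ∑ b ∈ B, ∑ k ∈ Ico (K : ℤ) (K + H), ∑ a' ∈ A,
            χ b a k * χ b a' (k + d) := by rw [Finset.sum_comm]
        _ = ∑ a ∈ A, ∑ b ∈ B, ∑ a' ∈ A, ∑ k ∈ Ico (K : ℤ) (K + H),
            χ b a k * χ b a' (k + d) := by
            apply Finset.sum_congr rfl
            intro a _
            apply Finset.sum_congr rfl
            intro b _
            rw [Finset.sum_comm]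
        _ = ∑ a ∈ A, ∑ a' ∈ A, ∑ b ∈ B, ∑ k ∈ Ico (K : ℤ) (K + H),
            χ b a k * χ b a' (k + d) := by
            apply Finset.sum_congr rfl
            intro a _
            rw [Finset.sum_comm]
        _ = _ := by
            apply Finset.sum_congr rfl
            intro a _
            apply Finset.sum_congr rfl
            intro a' _
            rw [Finset.sum_comm]
    rw [e1, e2]
    push_cast
    apply Finset.sum_congr rfl
    intro a _
    apply Finset.sum_congr rfl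
    intro a' _
    unfold T2
    rw [Finset.card_filter]
    push_cast
    apply Finset.sum_congr rfl
    intro k hk
    rw [mem_Ico] at hk
    by_cases h0 : (K : ℤ) ≤ k + d ∧ k + d < K + H ∧ (a : ℤ) ≤ 2 * k ∧
      (a' : ℤ) ≤ 2 * (k + d) ∧ r2 k.toNat a ∈ B ∧ r2 (k + d).toNat a' = r2 k.toNat a
    · rw [if_pos h0]
      obtain ⟨h1, h2, h3, h4, h5, h6⟩ := h0
      rw [Finset.sum_eq_single (r2 k.toNat a)]
      · rw [hχ]
        simp only
        rw [if_pos, if_pos]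
        · norm_num
        · exact ⟨h1, h2, h4, h6⟩
        · exact ⟨hk.1, hk.2, h3, rfl⟩
      · intro b _ hb
        rw [hχ]
        simp only
        rw [if_neg (fun h => hb h.2.2.2.symm)]
        norm_num
      · intro h
        exact absurd h5 h
    · rw [if_neg h0]
      apply Finset.sum_eq_zero
      intro b hb
      by_cases c1 : cond b a k
      · by_cases c2 : cond b a' (k + d)
        · exfalso
          obtain ⟨_, _, p3, p4⟩ := c1
          obtain ⟨q1, q2, q3, q4⟩ := c2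
          exact h0 ⟨q1, q2, p3, q3, by rw [p4]; exact hb, by rw [p4, q4]⟩
        · rw [hχ]
          simp only
          rw [if_neg c2]
          norm_num
      · rw [hχ]
        simp only
        rw [if_neg c1]
        norm_num
  -- the diagonal
  have hdiag : ∑ a ∈ A, (T2 B K H a a 0).card = N := by
    rw [hN, pairs2, Finset.card_filter, Finset.sum_product]
    apply Finset.sum_congr rfl
    intro a _
    unfold T2
    rw [Finset.card_filter]
    symm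
    refine Finset.sum_bij' (fun (k : ℕ) _ => (k : ℤ)) (fun (k : ℤ) _ => k.toNat)
      ?_ ?_ ?_ ?_ ?_
    · intro k hk
      rw [mem_Ico] at hk ⊢
      exact ⟨by exact_mod_cast hk.1, by exact_mod_cast hk.2⟩
    · intro k hk
      rw [mem_Ico] at hk ⊢
      omega
    · intro k _
      simp
    · intro k hk
      rw [mem_Ico] at hk
      exact Int.toNat_of_nonneg (by omega)
    · intro k hk
      rw [mem_Ico] at hk
      simp only [add_zero, Int.toNat_natCast, and_true]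
      have e : (a ≤ 2 * k ∧ r2 k a ∈ B) ↔ ((K : ℤ) ≤ (k : ℤ) ∧ (k : ℤ) < K + H ∧
          (a : ℤ) ≤ 2 * k ∧ (a : ℤ) ≤ 2 * k ∧ r2 k a ∈ B) := by
        constructor
        · rintro ⟨q1, q2⟩
          exact ⟨by exact_mod_cast hk.1, by exact_mod_cast hk.2, by exact_mod_cast q1,
            by exact_mod_cast q1, q2⟩
        · rintro ⟨_, _, q1, _, q2⟩
          exact ⟨by exact_mod_cast q1, q2⟩
      by_cases hc : a ≤ 2 * k ∧ r2 k a ∈ B
      · rw [if_pos hc, if_pos (e.mp hc)]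
      · rw [if_neg hc, if_neg (fun h => hc (e.mpr h))]
  have hsum : ∑ b ∈ B, ∑ k ∈ Ico (K : ℤ) (K + H), g b k = N := by
    rw [← hdiag]
    have e1 : ∑ b ∈ B, ∑ k ∈ Ico (K : ℤ) (K + H), g b k =
        ∑ a ∈ A, ∑ k ∈ Ico (K : ℤ) (K + H), ∑ b ∈ B, χ b a k := by
      calc ∑ b ∈ B, ∑ k ∈ Ico (K : ℤ) (K + H), g b k
          = ∑ b ∈ B, ∑ a ∈ A, ∑ k ∈ Ico (K : ℤ) (K + H), χ b a k := by
            apply Finset.sum_congr rfl
            intro b _
            rw [Finset.sum_comm]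
        _ = ∑ a ∈ A, ∑ b ∈ B, ∑ k ∈ Ico (K : ℤ) (K + H), χ b a k := by rw [Finset.sum_comm]
        _ = _ := by
            apply Finset.sum_congr rfl
            intro a _
            rw [Finset.sum_comm]
    rw [e1]
    push_cast
    apply Finset.sum_congr rfl
    intro a _
    unfold T2
    rw [Finset.card_filter]
    push_cast
    apply Finset.sum_congr rfl
    intro k hk
    rw [mem_Ico] at hk
    simp only [add_zero]
    by_cases h0 : (a : ℤ) ≤ 2 * k ∧ r2 k.toNat a ∈ B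
    · rw [if_pos ⟨hk.1, hk.2, h0.1, h0.1, h0.2, trivial⟩]
      rw [Finset.sum_eq_single (r2 k.toNat a)]
      · rw [hχ]
        simp only
        rw [if_pos]
        exact ⟨hk.1, hk.2, h0.1, rfl⟩
      · intro b _ hb
        rw [hχ]
        simp only
        rw [if_neg (fun h => hb h.2.2.2.symm)]
      · intro h
        exact absurd h0.2 h
    · rw [if_neg (fun h => h0 ⟨h.2.2.1, h.2.2.2.2.1⟩)]
      apply Finset.sum_eq_zero
      intro b hb
      rw [hχ]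
      simp only
      rw [if_neg]
      rintro ⟨_, _, p3, p4⟩
      exact h0 ⟨p3, by rw [p4]; exact hb⟩
  refine ⟨g, hsupp, hsum, ?_⟩
  have hmain := moment2 A B Es Js comps Ec Jc compc hEE hOO hEO hJs hJc hM
  rw [hdiag] at hmain
  calc ∑ d ∈ Ioo (-(D : ℤ)) D, ((D : ℝ) - |(d : ℝ)|) *
        ∑ b ∈ B, ∑ k ∈ Ico (K : ℤ) (K + H), g b k * g b (k + d)
      = ((∑ d ∈ Ioo (-(D : ℤ)) D, (D - d.natAbs) *
          ∑ a ∈ A, ∑ a' ∈ A, (T2 B K H a a' d).card : ℕ) : ℝ) := by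
        rw [Nat.cast_sum]
        apply Finset.sum_congr rfl
        intro d hd
        rw [mem_Ioo] at hd
        have hw : (D : ℝ) - |(d : ℝ)| = ((D - d.natAbs : ℕ) : ℝ) := by
          have h1 : d.natAbs ≤ D := by omega
          rw [Nat.cast_sub h1, Nat.cast_natAbs]
          push_cast
          ring
        rw [hprod d, hw, Nat.cast_mul]
    _ ≤ ((D * N + M * A.card ^ 2 : ℕ) : ℝ) := by exact_mod_cast hmain
    _ = (D : ℝ) * N + M * (A.card : ℝ) ^ 2 := by push_cast; ring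

/-- **Counting lemma, lag two.** -/
theorem lag2 (A B : Finset ℕ) {K H D M : ℕ}
    (Es : ℤ → Finset ℤ) (Js : ℤ → ℤ → ℕ)
    (comps : ℤ → ℤ → ℤ → Prop) [∀ d e h, Decidable (comps d e h)]
    (Ec : ℤ → Finset ℤ) (Jc : ℤ → ℤ → ℕ)
    (compc : ℤ → ℤ → ℤ → Prop) [∀ d e h, Decidable (compc d e h)]
    (hEE : ∀ d : ℤ, d ≠ 0 → |d| < D → ∀ k m m' a a' b : ℤ, K ≤ k → k < K + H → K ≤ k + d →
      k + d < K + H → SolE k m a b → SolE (k + d) m' a' b →
      m' - m ∈ Es d ∧ comps d (m' - m) (a' - a))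
    (hOO : ∀ d : ℤ, d ≠ 0 → |d| < D → ∀ k m m' a a' b : ℤ, K ≤ k → k < K + H → K ≤ k + d →
      k + d < K + H → SolO k m a b → SolO (k + d) m' a' b →
      m' - m ∈ Es d ∧ comps d (m' - m) (a' - a))
    (hEO : ∀ d : ℤ, |d| < D → ∀ k m m' a a' b : ℤ, K ≤ k → k < K + H → K ≤ k + d →
      k + d < K + H → SolE k m a b → SolO (k + d) m' a' b →
      m' - m ∈ Ec d ∧ compc d (m' - m) (a' - a))
    (hJs : ∀ d : ℤ, d ≠ 0 → |d| < D → ∀ e ∈ Es d, SameOK K d e (Js d e))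
    (hJc : ∀ d : ℤ, |d| < D → ∀ e ∈ Ec d, CrossOK K d e (Jc d e))
    (hM : ∀ h : ℤ,
      (∑ d ∈ (Ioo (-(D : ℤ)) D).erase 0,
        (D - d.natAbs) * ∑ e ∈ Es d, (if comps d e h then Js d e + 2 else 0)) +
      ∑ d ∈ Ioo (-(D : ℤ)) D, (D - d.natAbs) *
        ∑ e ∈ Ec d, ((if compc d e h then Jc d e + 1 else 0) +
          (if compc d e (-h) then Jc d e + 1 else 0)) ≤ M) :
    ((D : ℝ) * (pairs2 A B K H).card) ^ 2 ≤
      (B.card : ℝ) * (((H : ℝ) + D) * (D * (pairs2 A B K H).card + M * (A.card : ℝ) ^ 2)) := by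
  obtain ⟨g, h1, h2, h3⟩ :=
    lag2_data A B Es Js comps Ec Jc compc hEE hOO hEO hJs hJc hM
  have key := vdc_family B (K := (K : ℤ)) (H := H) (D := D)
    (fun b hb k hk => ⟨(h1 b hb k hk).1, (h1 b hb k hk).2.1⟩)
  rw [h2] at key
  exact key.trans (mul_le_mul_of_nonneg_left (mul_le_mul_of_nonneg_left h3 (by positivity))
    (by positivity))

end Pool.Agent.AddSq
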