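import Pool.Agent.AddSq.Lag2Range

/-!
# Lag two: the certificate hypothesis `hM` and the numerical hypotheses in the form of `lag2`
-/

namespace Pool.Agent.AddSq

open Finset

theorem SameOK.neg {K : ℝ} {d e : ℤ} {J : ℕ} (h : SameOK K d e J) :
    SameOK K (-d) (-e) J := by
  have e1 : |Real.sqrt 2 * ((-d : ℤ) : ℝ) - ((-e : ℤ) : ℝ)| = |Real.sqrt 2 * d - e| := by
    rw [← abs_neg]
    congr 1
    push_cast
    ring
  have e2 : Int.gcd (2 * -d) (-e) = Int.gcd (2 * d) e := by
    rw [mul_neg, Int.neg_gcd, Int.gcd_neg]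
  have e3 : |((-d : ℤ) : ℝ)| = |(d : ℝ)| := by push_cast; exact abs_neg _
  have e4 : |((-e : ℤ) : ℝ)| = |(e : ℝ)| := by push_cast; exact abs_neg _
  have e5 : |2 * ((-d : ℤ) : ℝ) ^ 2 - ((-e : ℤ) : ℝ) ^ 2| = |2 * (d : ℝ) ^ 2 - (e : ℝ) ^ 2| := by
    push_cast
    congr 1
    ring
  refine ⟨neg_ne_zero.mpr h.ne, ?_, ?_⟩
  · rw [e1, e3, e4]
    exact h.pos
  · rw [e1, e2, e3, e4, e5]
    exact h.lt

theorem two_le_mult2s {d : ℤ} (h : tl d ≤ 500100000) : 2 ≤ mult2s d := by
  unfold mult2s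
  rw [if_neg (by omega)]
  exact Nat.le_add_right _ _

theorem one_le_mult2c {d : ℤ} (h1 : 207000000 ≤ tl d) (h2 : tl d ≤ 707500000) :
    1 ≤ mult2c d := by
  unfold mult2c
  rw [if_neg (by omega)]
  exact Nat.le_add_right _ _

theorem hJs2 (hnum : NumSame) {K : ℕ} (hK : 5000000 ≤ K) {d : ℤ} (hd0 : d ≠ 0)
    (hd : |d| < ((110 : ℕ) : ℤ)) : ∀ e ∈ Es2 d, SameOK K d e (Js2 d e) := by
  intro e he
  have hKr : (5000000 : ℝ) ≤ K := by exact_mod_cast hK
  have hdi := abs_lt.mp hd
  push_cast at hdi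
  have hdD : d ∈ Dset := mem_Dset.mpr ⟨hd0, by omega, by omega⟩
  unfold Es2 at he
  rw [mem_union] at he
  rcases he with he | he
  · by_cases ht : tl d ≤ 500100000
    · rw [if_pos ht, mem_singleton] at he
      subst he
      unfold Js2
      rw [if_pos rfl]
      exact (hnum d hdD ht).mono (by norm_num) hKr
    · rw [if_neg ht] at he
      simp at he
  · by_cases ht : tl (-d) ≤ 500100000
    · rw [if_pos ht, mem_singleton] at he
      subst he
      unfold Js2
      rw [if_neg (by omega)]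
      have h1 := (hnum (-d) (neg_mem_Dset hdD) ht).neg
      rw [neg_neg, fl_neg' hd0] at h1
      have e1 : -(-fl d - 1) = fl d + 1 := by ring
      rw [e1] at h1
      exact h1.mono (by norm_num) hKr
    · rw [if_neg ht] at he
      simp at he

theorem hJc2 (hnum : NumCross) {K : ℕ} (hK : 5000000 ≤ K) {d : ℤ}
    (hd : |d| < ((110 : ℕ) : ℤ)) : ∀ e ∈ Ec2 d, CrossOK K d e (Jc2 d e) := by
  intro e he
  have hKr : (5000000 : ℝ) ≤ K := by exact_mod_cast hK
  have hdi := abs_lt.mp hd
  push_cast at hdi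
  unfold Ec2 at he
  by_cases ht : d ≠ 1 ∧ 207000000 ≤ tl (1 - d) ∧ tl (1 - d) ≤ 707500000
  · rw [if_pos ht, mem_singleton] at he
    obtain ⟨h1, h2, h3⟩ := ht
    have hD : 1 - d ∈ Dset := mem_Dset.mpr ⟨by omega, by omega, by omega⟩
    have h4 := (hnum (1 - d) hD h2 h3).mono (by norm_num) hKr
    have e1 : 1 - (1 - d) = d := by ring
    rw [e1] at h4
    rw [he]
    exact h4
  · rw [if_neg ht] at he
    simp at he

open Classical in
/-- `h > 0`, same branch -/
theorem same_sum_pos {K : ℕ} {d h : ℤ} (hh : 0 < h) :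
    ∑ e ∈ Es2 d, (if comps2 K d e h then Js2 d e + 2 else 0) ≤
      if cls d h = true ∧ NearH K h (tt d) then mult2s d else 0 := by
  have h1 : ∀ e ∈ Es2 d, (if comps2 K d e h then Js2 d e + 2 else 0) =
      if e = fl d then (if comps2 K d (fl d) h then Js2 d (fl d) + 2 else 0) else 0 := by
    intro e _
    by_cases he : e = fl d
    · rw [if_pos he, he]
    · rw [if_neg he, if_neg]
      rintro (⟨h2, _⟩ | ⟨_, h3, _⟩)
      · exact he h2
      · omega
  rw [Finset.sum_congr rfl h1, Finset.sum_ite_eq']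
  by_cases hmem : fl d ∈ Es2 d
  · rw [if_pos hmem]
    have htl : tl d ≤ 500100000 := by
      unfold Es2 at hmem
      rw [mem_union] at hmem
      rcases hmem with hm | hm
      · by_contra hc
        rw [if_neg hc] at hm
        simp at hm
      · by_cases ht : tl (-d) ≤ 500100000
        · rw [if_pos ht, mem_singleton] at hm
          omega
        · rw [if_neg ht] at hm
          simp at hm
    by_cases hc : comps2 K d (fl d) h
    · rw [if_pos hc]
      rcases hc with ⟨_, _, q3, q4⟩ | ⟨q1, _⟩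
      · rw [if_pos ⟨q3, q4⟩]
        unfold Js2
        rw [if_pos rfl]
        have := two_le_mult2s htl
        omega
      · omega
    · rw [if_neg hc]
      exact Nat.zero_le _
  · rw [if_neg hmem]
    exact Nat.zero_le _

open Classical in
/-- `h < 0`, same branch -/
theorem same_sum_neg {K : ℕ} {d h : ℤ} (hh : h < 0) :
    ∑ e ∈ Es2 d, (if comps2 K d e h then Js2 d e + 2 else 0) ≤
      if cls (-d) (-h) = true ∧ NearH K (-h) (tt (-d)) then mult2s (-d) else 0 := by
  have h1 : ∀ e ∈ Es2 d, (if comps2 K d e h then Js2 d e + 2 else 0) =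
      if e = fl d + 1 then (if comps2 K d (fl d + 1) h then Js2 d (fl d + 1) + 2 else 0)
        else 0 := by
    intro e _
    by_cases he : e = fl d + 1
    · rw [if_pos he, he]
    · rw [if_neg he, if_neg]
      rintro (⟨_, h3, _⟩ | ⟨h2, _⟩)
      · omega
      · exact he h2
  rw [Finset.sum_congr rfl h1, Finset.sum_ite_eq']
  by_cases hmem : fl d + 1 ∈ Es2 d
  · rw [if_pos hmem]
    have htl : tl (-d) ≤ 500100000 := by
      unfold Es2 at hmem
      rw [mem_union] at hmem
      rcases hmem with hm | hm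
      · by_cases ht : tl d ≤ 500100000
        · rw [if_pos ht, mem_singleton] at hm
          omega
        · rw [if_neg ht] at hm
          simp at hm
      · by_contra hc
        rw [if_neg hc] at hm
        simp at hm
    by_cases hc : comps2 K d (fl d + 1) h
    · rw [if_pos hc]
      rcases hc with ⟨q1, _⟩ | ⟨_, _, q3, q4⟩
      · omega
      · rw [if_pos ⟨q3, q4⟩]
        unfold Js2
        rw [if_neg (by omega)]
        have := two_le_mult2s htl
        omega
    · rw [if_neg hc]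
      exact Nat.zero_le _
  · rw [if_neg hmem]
    exact Nat.zero_le _

open Classical in
/-- different branches -/
theorem cross_sum {K : ℕ} {d h : ℤ} :
    ∑ e ∈ Ec2 d, (if compc2 K d e (-h) then Jc2 d e + 1 else 0) ≤
      if d ≠ 1 ∧ cls (1 - d) (h - 1) = true ∧ NearH K h (tt (1 - d)) then mult2c (1 - d)
        else 0 := by
  unfold Ec2
  by_cases ht : d ≠ 1 ∧ 207000000 ≤ tl (1 - d) ∧ tl (1 - d) ≤ 707500000
  · rw [if_pos ht, Finset.sum_singleton]
    by_cases hc : compc2 K d (-fl (1 - d)) (-h)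
    · rw [if_pos hc]
      obtain ⟨_, q2, q3⟩ := hc
      rw [neg_neg] at q2 q3
      rw [if_pos ⟨ht.1, q2, q3⟩]
      unfold Jc2
      have := one_le_mult2c ht.2.1 ht.2.2
      omega
    · rw [if_neg hc]
      exact Nat.zero_le _
  · rw [if_neg ht, Finset.sum_empty]
    exact Nat.zero_le _

open Classical in
/-- the total for `h > 0` -/
theorem total_le {S : ℕ} (hact : ActiveCert2 S) {K : ℕ} (hK : 5000000 ≤ K) {h : ℤ}
    (hh : 0 < h) :
    (∑ d ∈ (Ioo (-((110 : ℕ) : ℤ)) ((110 : ℕ) : ℤ)).erase 0, (110 - d.natAbs) *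
        (if cls d h = true ∧ NearH K h (tt d) then mult2s d else 0)) +
      ∑ d ∈ Ioo (-((110 : ℕ) : ℤ)) ((110 : ℕ) : ℤ), (110 - d.natAbs) *
        (if d ≠ 1 ∧ cls (1 - d) (h - 1) = true ∧ NearH K h (tt (1 - d)) then mult2c (1 - d)
        else 0) ≤ S := by
  set T₁ := ((Ioo (-((110 : ℕ) : ℤ)) ((110 : ℕ) : ℤ)).erase 0).filter
    (fun d => cls d h = true ∧ NearH K h (tt d)) with hT₁
  set U := (Ioo (-((110 : ℕ) : ℤ)) ((110 : ℕ) : ℤ)).filter
    (fun d => d ≠ 1 ∧ cls (1 - d) (h - 1) = true ∧ NearH K h (tt (1 - d))) with hU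
  have e1 : (∑ d ∈ (Ioo (-((110 : ℕ) : ℤ)) ((110 : ℕ) : ℤ)).erase 0, (110 - d.natAbs) *
        (if cls d h = true ∧ NearH K h (tt d) then mult2s d else 0)) = ∑ d ∈ T₁, W2s d := by
    rw [hT₁, Finset.sum_filter]
    apply Finset.sum_congr rfl
    intro d _
    rw [mul_ite, mul_zero]
    rfl
  have e2 : ∑ d ∈ Ioo (-((110 : ℕ) : ℤ)) ((110 : ℕ) : ℤ), (110 - d.natAbs) *
        (if d ≠ 1 ∧ cls (1 - d) (h - 1) = true ∧ NearH K h (tt (1 - d)) then mult2c (1 - d)
        else 0) = ∑ d ∈ U.image (fun d => 1 - d), W2c d := by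
    rw [Finset.sum_image (by intro x _ y _ hxy; simp only at hxy; omega), hU, Finset.sum_filter]
    apply Finset.sum_congr rfl
    intro d _
    rw [mul_ite, mul_zero]
    unfold W2c
    have : (1 - d - 1).natAbs = d.natAbs := by omega
    rw [this]
  rw [e1, e2]
  apply hact K hK h hh
  · intro d hd
    rw [hT₁, mem_filter, mem_erase, mem_Ioo] at hd
    rw [mem_Dset]
    obtain ⟨⟨q1, q2, q3⟩, _⟩ := hd
    push_cast at q2 q3
    omega
  · intro d hd
    rw [mem_image] at hd
    obtain ⟨d₀, hd₀, rfl⟩ := hd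
    rw [hU, mem_filter, mem_Ioo] at hd₀
    obtain ⟨⟨q1, q2⟩, q3, _⟩ := hd₀
    push_cast at q1 q2
    rw [mem_Dset]
    omega
  · intro d hd
    rw [hT₁, mem_filter] at hd
    exact hd.2
  · intro d hd
    rw [mem_image] at hd
    obtain ⟨d₀, hd₀, rfl⟩ := hd
    rw [hU, mem_filter] at hd₀
    exact hd₀.2.2

open Classical in
/-- the certificate hypothesis of `lag2` -/
theorem hM2 {S : ℕ} (hact : ActiveCert2 S) {K : ℕ} (hK : 5000000 ≤ K) (h : ℤ) :
    (∑ d ∈ (Ioo (-((110 : ℕ) : ℤ)) ((110 : ℕ) : ℤ)).erase 0, (110 - d.natAbs) *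
        ∑ e ∈ Es2 d, (if comps2 K d e h then Js2 d e + 2 else 0)) +
      ∑ d ∈ Ioo (-((110 : ℕ) : ℤ)) ((110 : ℕ) : ℤ), (110 - d.natAbs) *
        ∑ e ∈ Ec2 d, ((if compc2 K d e h then Jc2 d e + 1 else 0) +
          (if compc2 K d e (-h) then Jc2 d e + 1 else 0)) ≤ S := by
  rcases lt_trichotomy h 0 with hh | hh | hh
  · -- `h < 0`
    have hh' : 0 < -h := by omega
    refine le_trans ?_ (total_le hact hK hh')
    apply Nat.add_le_add
    · -- reflection
      have h1 : ∑ d ∈ (Ioo (-((110 : ℕ) : ℤ)) ((110 : ℕ) : ℤ)).erase 0, (110 - d.natAbs) *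
          (if cls d (-h) = true ∧ NearH K (-h) (tt d) then mult2s d else 0) =
          ∑ d ∈ (Ioo (-((110 : ℕ) : ℤ)) ((110 : ℕ) : ℤ)).erase 0, (110 - d.natAbs) *
          (if cls (-d) (-h) = true ∧ NearH K (-h) (tt (-d)) then mult2s (-d) else 0) := by
        refine Finset.sum_bij' (fun d _ => -d) (fun d _ => -d) ?_ ?_ ?_ ?_ ?_
        · intro d hd
          rw [mem_erase, mem_Ioo] at hd ⊢
          omega
        · intro d hd
          rw [mem_erase, mem_Ioo] at hd ⊢
          omega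
        · intro d _; simp
        · intro d _; simp
        · intro d _
          rw [Int.natAbs_neg, neg_neg]
      rw [h1]
      apply Finset.sum_le_sum
      intro d _
      exact Nat.mul_le_mul_left _ (same_sum_neg hh)
    · apply Finset.sum_le_sum
      intro d _
      apply Nat.mul_le_mul_left
      refine le_trans (le_of_eq ?_) (cross_sum (K := K) (d := d) (h := -h))
      apply Finset.sum_congr rfl
      intro e _
      rw [neg_neg]
      have h2 : ¬ compc2 K d e (-h) := by
        rintro ⟨q1, _⟩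
        omega
      rw [if_neg h2, add_zero]
  · -- `h = 0`
    subst hh
    have h1 : ∀ d e, ¬ comps2 K d e 0 := by
      rintro d e (⟨_, q, _⟩ | ⟨_, q, _⟩) <;> omega
    have h2 : ∀ d e, ¬ compc2 K d e 0 := by
      rintro d e ⟨q, _⟩
      omega
    have h3 : ∀ d e, ¬ compc2 K d e (-0) := by
      rintro d e ⟨q, _⟩
      omega
    simp [h1, h2]
  · -- `h > 0`
    refine le_trans ?_ (total_le hact hK hh)
    apply Nat.add_le_add
    · apply Finset.sum_le_sum
      intro d _
      exact Nat.mul_le_mul_left _ (same_sum_pos hh)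
    · apply Finset.sum_le_sum
      intro d _
      apply Nat.mul_le_mul_left
      refine le_trans (le_of_eq ?_) (cross_sum (K := K) (d := d) (h := h))
      apply Finset.sum_congr rfl
      intro e _
      have h2 : ¬ compc2 K d e h := by
        rintro ⟨q1, _⟩
        omega
      rw [if_neg h2, zero_add]

end Pool.Agent.AddSq
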