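import Pool.Agent.AddSq.LineCount

/-!
# Counting lemma for lag 2, line part

`n = k² + a`, `up n = m² + r₁`, `up (up n) = p² + b`; `p = 2k` iff `r₁ ≤ 2a` and then
`r₁ = 2a - b`; otherwise `p = 2k - 1` and `r₁ = 4k - 1 + 2a - b`.
We fix `a, a'` and count the pairs `(k, a), (k + d, a')` with the same `b`.
-/

namespace Pool.Agent.AddSq

/-- steps along a line `2 d k - e m = const` -/
theorem line_step {d e k₁ k₂ m₁ m₂ : ℤ} (he : e ≠ 0)
    (hl : 2 * d * (k₂ - k₁) = e * (m₂ - m₁)) :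
    ∃ j : ℤ, (Int.gcd (2 * d) e : ℤ) * (k₂ - k₁) = e * j ∧
      (Int.gcd (2 * d) e : ℤ) * (m₂ - m₁) = 2 * d * j := by
  set g := Int.gcd (2 * d) e with hgdef
  have hg : 0 < g := Int.gcd_pos_of_ne_zero_right _ he
  obtain ⟨f, hf⟩ : ((g : ℕ) : ℤ) ∣ 2 * d := Int.gcd_dvd_left _ _
  obtain ⟨e', he'⟩ : ((g : ℕ) : ℤ) ∣ e := Int.gcd_dvd_right _ _
  have he'0 : e' ≠ 0 := by
    rintro rfl
    simp at he'
    exact he he'
  have hcop : IsCoprime e' f := by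
    have h1 : Int.gcd f e' = 1 := by
      have h2 : Int.gcd (g * f) (g * e') = g * Int.gcd f e' := by
        rw [Int.gcd_mul_left]
        simp
      rw [← hf, ← he'] at h2
      have h3 : g * Int.gcd f e' = g * 1 := by rw [← h2, mul_one]
      exact Nat.eq_of_mul_eq_mul_left hg h3
    exact (Int.isCoprime_iff_gcd_eq_one.mpr h1).symm
  have hg' : (g : ℤ) ≠ 0 := by exact_mod_cast hg.ne'
  have hl2 : f * (k₂ - k₁) = e' * (m₂ - m₁) := by
    have h3 : (g : ℤ) * (f * (k₂ - k₁)) = g * (e' * (m₂ - m₁)) := by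
      calc (g : ℤ) * (f * (k₂ - k₁)) = (g * f) * (k₂ - k₁) := by ring
        _ = 2 * d * (k₂ - k₁) := by rw [← hf]
        _ = e * (m₂ - m₁) := hl
        _ = (g * e') * (m₂ - m₁) := by rw [← he']
        _ = g * (e' * (m₂ - m₁)) := by ring
    exact mul_left_cancel₀ hg' h3
  have hdvd : e' ∣ k₂ - k₁ := by
    apply hcop.dvd_of_dvd_mul_left
    exact ⟨m₂ - m₁, hl2⟩
  obtain ⟨j, hj⟩ := hdvd
  have hm : m₂ - m₁ = f * j := by
    have : e' * (m₂ - m₁) = e' * (f * j) := by rw [← hl2, hj]; ring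
    exact mul_left_cancel₀ he'0 this
  refine ⟨j, ?_, ?_⟩
  · rw [hj]
    calc (g : ℤ) * (e' * j) = (g * e') * j := by ring
      _ = e * j := by rw [← he']
  · rw [hm]
    calc (g : ℤ) * (f * j) = (g * f) * j := by ring
      _ = 2 * d * j := by rw [← hf]

/-- the change of `Q` along a line -/
theorem Q_step {d e k₁ k₂ m₁ m₂ j : ℤ} {g : ℕ}
    (h1 : (g : ℤ) * (k₂ - k₁) = e * j) (h2 : (g : ℤ) * (m₂ - m₁) = 2 * d * j) :
    (g : ℤ) * (Q k₂ m₂ - Q k₁ m₁) = 2 * j * (e * (k₁ + k₂) - d * (m₁ + m₂)) := by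
  unfold Q
  linear_combination (2 * (k₁ + k₂)) * h1 - (m₁ + m₂) * h2

/-- lower bound for the change of `Q` along a line inside the strip `|m - √2 k| < 1` -/
theorem Q_step_ge {d e k₁ k₂ m₁ m₂ j : ℤ} {g : ℕ}
    (h1 : (g : ℤ) * (k₂ - k₁) = e * j) (h2 : (g : ℤ) * (m₂ - m₁) = 2 * d * j)
    (y1 : |(m₁ : ℝ) - Real.sqrt 2 * k₁| < 1) (y2 : |(m₂ : ℝ) - Real.sqrt 2 * k₂| < 1)
    (hk : (0 : ℝ) ≤ (k₁ : ℝ) + k₂) :
    2 * |(j : ℝ)| * (|Real.sqrt 2 * d - e| * (k₁ + k₂) - 2 * |(d : ℝ)|) ≤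
      g * |(Q k₂ m₂ : ℝ) - Q k₁ m₁| := by
  have h3 := Q_step h1 h2
  have h4 : (g : ℝ) * ((Q k₂ m₂ : ℝ) - Q k₁ m₁) =
      2 * j * (e * (k₁ + k₂) - d * (m₁ + m₂)) := by exact_mod_cast h3
  have h5 : (e : ℝ) * (k₁ + k₂) - d * (m₁ + m₂) =
      -((Real.sqrt 2 * d - e) * (k₁ + k₂)) -
        d * (((m₁ : ℝ) - Real.sqrt 2 * k₁) + (m₂ - Real.sqrt 2 * k₂)) := by ring
  set t := |Real.sqrt 2 * d - e| with ht
  have h6 : t * (k₁ + k₂) - 2 * |(d : ℝ)| ≤ |(e : ℝ) * (k₁ + k₂) - d * (m₁ + m₂)| := by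
    rw [h5]
    have q1 : |(Real.sqrt 2 * d - e) * ((k₁ : ℝ) + k₂)| = t * (k₁ + k₂) := by
      rw [abs_mul, abs_of_nonneg hk]
    have q2 : |(d : ℝ) * (((m₁ : ℝ) - Real.sqrt 2 * k₁) + (m₂ - Real.sqrt 2 * k₂))| ≤
        |(d : ℝ)| * 2 := by
      rw [abs_mul]
      apply mul_le_mul_of_nonneg_left _ (abs_nonneg _)
      exact (abs_add_le _ _).trans (by linarith)
    have q3 := abs_sub_abs_le_abs_sub (-((Real.sqrt 2 * d - e) * ((k₁ : ℝ) + k₂)))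
      (d * (((m₁ : ℝ) - Real.sqrt 2 * k₁) + (m₂ - Real.sqrt 2 * k₂)))
    rw [abs_neg, q1] at q3
    linarith
  have h7 : (g : ℝ) * |(Q k₂ m₂ : ℝ) - Q k₁ m₁| =
      2 * |(j : ℝ)| * |(e : ℝ) * (k₁ + k₂) - d * (m₁ + m₂)| := by
    have : |(g : ℝ) * ((Q k₂ m₂ : ℝ) - Q k₁ m₁)| =
        |2 * (j : ℝ) * (e * (k₁ + k₂) - d * (m₁ + m₂))| := by rw [h4]
    rw [abs_mul, abs_mul, abs_mul, abs_of_nonneg (by positivity : (0 : ℝ) ≤ (g : ℝ)),
      abs_of_pos (by norm_num : (0 : ℝ) < 2)] at this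
    exact this
  rw [h7]
  exact mul_le_mul_of_nonneg_left h6 (by positivity)

/-- A set of integers all of whose differences are `(e / g) j` with `|j| ≤ R` has at most
`⌊R⌋ + 1` elements. -/
theorem ap_count {e : ℤ} {g : ℕ} (hg : 0 < g) (T : Finset ℤ) {R : ℝ}
    (hT : ∀ k₁ ∈ T, ∀ k₂ ∈ T, k₁ < k₂ → ∃ j : ℤ, (g : ℤ) * (k₂ - k₁) = e * j ∧ |(j : ℝ)| ≤ R) :
    T.card ≤ ⌊R⌋₊ + 1 := by
  classical
  rcases T.eq_empty_or_nonempty with h0 | hne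
  · subst h0; simp
  obtain ⟨k₀, hk₀, hmin⟩ := T.exists_min_image id hne
  have hg' : (g : ℤ) ≠ 0 := by exact_mod_cast hg.ne'
  have hgp : (0 : ℤ) < g := by exact_mod_cast hg
  have form : ∀ k ∈ T, ∃ j : ℤ, (g : ℤ) * (k - k₀) = e * j ∧ j.natAbs ≤ ⌊R⌋₊ ∧ k₀ ≤ k := by
    intro k hk
    have hle : k₀ ≤ k := hmin k hk
    rcases eq_or_lt_of_le hle with h | h
    · exact ⟨0, by rw [h]; ring, by simp, hle⟩
    · obtain ⟨j, hj, hjR⟩ := hT k₀ hk₀ k hk h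
      refine ⟨j, hj, ?_, hle⟩
      apply Nat.le_floor
      rw [Nat.cast_natAbs]
      push_cast
      exact hjR
  choose! J hJ1 hJ2 hJ3 using form
  have hle : T.card ≤ (Finset.range (⌊R⌋₊ + 1)).card := by
    apply Finset.card_le_card_of_injOn (fun k => (J k).natAbs)
    · intro k hk
      rw [Finset.coe_range, Set.mem_Iio]
      have := hJ2 k hk
      simp only
      omega
    · intro k₁ h₁ k₂ h₂ heq
      simp only at heq
      have a1 := hJ1 k₁ h₁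
      have a2 := hJ1 k₂ h₂
      have p1 : 0 ≤ (g : ℤ) * (k₁ - k₀) :=
        mul_nonneg hgp.le (by have := hJ3 k₁ h₁; omega)
      have p2 : 0 ≤ (g : ℤ) * (k₂ - k₀) :=
        mul_nonneg hgp.le (by have := hJ3 k₂ h₂; omega)
      rcases Int.natAbs_eq_natAbs_iff.mp heq with h | h
      · rw [h] at a1
        have : (g : ℤ) * (k₁ - k₀) = g * (k₂ - k₀) := by rw [a1, a2]
        have := mul_left_cancel₀ hg' this
        omega
      · rw [h] at a1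
        have e1 : (g : ℤ) * (k₁ - k₀) = -((g : ℤ) * (k₂ - k₀)) := by rw [a1, a2]; ring
        have z1 : (g : ℤ) * (k₁ - k₀) = 0 := by omega
        have z2 : (g : ℤ) * (k₂ - k₀) = 0 := by omega
        have w1 := (mul_eq_zero.mp z1).resolve_left hg'
        have w2 := (mul_eq_zero.mp z2).resolve_left hg'
        omega
  simpa using hle

/-- The count on an arc `lo ≤ Q(k, m) ≤ hi` of the line `2 d k - e m = c` inside the strip. -/
theorem arc_count {d e c : ℤ} (he : e ≠ 0) {Y lo hi : ℝ} (hY : 0 ≤ Y)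
    (hs : 0 < 2 * |Real.sqrt 2 * d - e| * Y - 2 * |(d : ℝ)|) (T : Finset ℤ)
    (hT : ∀ k ∈ T, Y ≤ k ∧ ∃ m : ℤ, |(m : ℝ) - Real.sqrt 2 * k| < 1 ∧ 2 * d * k - e * m = c ∧
      lo ≤ (Q k m : ℝ) ∧ (Q k m : ℝ) ≤ hi) :
    T.card ≤ ⌊((Int.gcd (2 * d) e : ℕ) : ℝ) * (hi - lo) /
      (2 * (2 * |Real.sqrt 2 * d - e| * Y - 2 * |(d : ℝ)|))⌋₊ + 1 := by
  apply ap_count (e := e) (g := Int.gcd (2 * d) e) (Int.gcd_pos_of_ne_zero_right _ he)
  intro k₁ h₁ k₂ h₂ _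
  obtain ⟨y₁, m₁, s₁, l₁, u₁, v₁⟩ := hT k₁ h₁
  obtain ⟨y₂, m₂, s₂, l₂, u₂, v₂⟩ := hT k₂ h₂
  have hl : 2 * d * (k₂ - k₁) = e * (m₂ - m₁) := by linear_combination l₂ - l₁
  obtain ⟨j, j1, j2⟩ := line_step he hl
  refine ⟨j, j1, ?_⟩
  have key := Q_step_ge j1 j2 s₁ s₂ (by linarith)
  rw [le_div_iff₀ (by linarith)]
  set t := |Real.sqrt 2 * d - e| with ht
  have ht0 : 0 ≤ t := abs_nonneg _
  have hj0 : 0 ≤ |(j : ℝ)| := abs_nonneg _
  have a1 : |(Q k₂ m₂ : ℝ) - Q k₁ m₁| ≤ hi - lo := by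
    rw [abs_le]
    constructor <;> linarith
  have a2 : 2 * |(j : ℝ)| * (2 * t * Y - 2 * |(d : ℝ)|) ≤
      2 * |(j : ℝ)| * (t * (k₁ + k₂) - 2 * |(d : ℝ)|) := by
    apply mul_le_mul_of_nonneg_left _ (by positivity)
    have : t * (2 * Y) ≤ t * ((k₁ : ℝ) + k₂) := mul_le_mul_of_nonneg_left (by linarith) ht0
    linarith
  have a3 : ((Int.gcd (2 * d) e : ℕ) : ℝ) * |(Q k₂ m₂ : ℝ) - Q k₁ m₁| ≤
      ((Int.gcd (2 * d) e : ℕ) : ℝ) * (hi - lo) := mul_le_mul_of_nonneg_left a1 (by positivity)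
  linarith

/-- even branch: `p = 2k`, `r₁ = 2a - b ≤ 2a` -/
structure SolE (k m a b : ℤ) : Prop where
  sol : Sol k m a (2 * a - b)
  nonneg : 0 ≤ b

/-- odd branch: `p = 2k - 1`, `r₁ = 4k - 1 + 2a - b > 2a` -/
structure SolO (k m a b : ℤ) : Prop where
  sol : Sol k m a (4 * k - 1 + 2 * a - b)
  nonneg : 0 ≤ b
  lt : b < 4 * k - 1

/-- line relation, both even -/
theorem SolE.line {k m a b m' a' d e : ℤ} (h : SolE k m a b) (h' : SolE (k + d) m' a' b)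
    (he : m' - m = e) : a' - a = 2 * (2 * d * k - e * m) + 2 * d ^ 2 - e ^ 2 := by
  have h1 := h.sol.b_eq
  have h2 := h'.sol.b_eq
  unfold Q at h1 h2
  have h3 : m' = m + e := by omega
  subst h3
  linear_combination h2 - h1

/-- line relation, both odd -/
theorem SolO.line {k m a b m' a' d e : ℤ} (h : SolO k m a b) (h' : SolO (k + d) m' a' b)
    (he : m' - m = e) : a' - a = 2 * (2 * d * (k - 1) - e * m) + 2 * d ^ 2 - e ^ 2 := by
  have h1 := h.sol.b_eq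
  have h2 := h'.sol.b_eq
  unfold Q at h1 h2
  have h3 : m' = m + e := by omega
  subst h3
  linear_combination h2 - h1

/-- line relation, even then odd -/
theorem SolE.line_cross {k m a b m' a' d e : ℤ} (h : SolE k m a b) (h' : SolO (k + d) m' a' b)
    (he : m' - m = e) :
    a' - a + 1 = 2 * (2 * (d - 1) * k - e * m) + 2 * (d - 1) ^ 2 - e ^ 2 := by
  have h1 := h.sol.b_eq
  have h2 := h'.sol.b_eq
  unfold Q at h1 h2
  have h3 : m' = m + e := by omega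
  subst h3
  linear_combination h2 - h1

/-- extension of a linear inequality from `K` to `X ≥ K` -/
theorem slope_ext {α β C₁ C₂ K X J : ℝ} (hK : 0 ≤ K) (hX : K ≤ X) (hC₁ : 0 ≤ C₁)
    (hC₂ : 0 ≤ C₂) (hJ0 : 0 ≤ J) (hJ : α * K + C₁ < J * (β * K - C₂)) :
    α * X + C₁ < J * (β * X - C₂) := by
  have h1 : α ≤ J * β := by
    by_contra hc
    push Not at hc
    have h2 : J * β * K ≤ α * K := mul_le_mul_of_nonneg_right hc.le hK
    have h3 : 0 ≤ J * C₂ := mul_nonneg hJ0 hC₂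
    nlinarith
  have h2 : α * (X - K) ≤ J * β * (X - K) := mul_le_mul_of_nonneg_right h1 (by linarith)
  nlinarith

end Pool.Agent.AddSq
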