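import Pool.Agent.AddSq.WLag2

/-!
# Lag two: refined count of the pairs on the same branch

A point of the even branch and a point of the odd branch lie on the same line after the shift
`k ↦ k - 1`; their difference is `i (e, 2 d) / g` with `c < ± i ≤ c + J`, hence there are at
most `J + 1` points in all.
-/

namespace Pool.Agent.AddSq

open Finset

namespace LR

/-- data of a point -/
structure Pt (d e : ℤ) (a h : ℝ) (k m : ℤ) : Prop where
  strip : |(m : ℝ) - Real.sqrt 2 * k| < 1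
  slope : |h - 2 * Real.sqrt 2 * (Real.sqrt 2 * d - e) * k| ≤
    2 * |(e : ℝ)| + |2 * (d : ℝ) ^ 2 - (e : ℝ) ^ 2| + 4 * |(d : ℝ)|
  low : max 0 (-2 * h) - a ≤ (Q k m : ℝ)
  up : (Q k m : ℝ) ≤ 2 * m - a - max 0 (2 * h) + 4 * |(d : ℝ)| + 2 * |(e : ℝ)|

/-- the error constant -/
noncomputable def E (d e : ℤ) : ℝ :=
  2 + 6 * |(e : ℝ)| + 12 * |(d : ℝ)| + 2 * |2 * (d : ℝ) ^ 2 - (e : ℝ) ^ 2|

theorem E_nonneg (d e : ℤ) : 0 ≤ E d e := by
  unfold E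
  positivity

theorem ptE {k m m' a a' b d e : ℤ} (s1 : SolE k m a b) (s2 : SolE (k + d) m' a' b)
    (s3 : m' - m = e) : Pt d e a ((a' : ℝ) - a) k m ∧ (Q k m : ℝ) ≤ a ∧
      a' - a = 2 * (2 * d * k - e * m) + 2 * d ^ 2 - e ^ 2 := by
  have hl := s1.line s2 s3
  have e1 : (Q k m : ℝ) = 2 * a - b - a := by
    have := s1.sol.b_eq
    have h5 : ((2 * a - b : ℤ) : ℝ) = ((a + Q k m : ℤ) : ℝ) := by rw [this]
    push_cast at h5
    linarith
  have e0 : (0 : ℝ) ≤ b := by exact_mod_cast s1.nonneg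
  have h5 : ((a' - a : ℤ) : ℝ) =
      ((2 * (2 * d * k - e * m) + 2 * d ^ 2 - e ^ 2 : ℤ) : ℝ) := by rw [hl]
  refine ⟨⟨s1.sol.strip, ?_, ?_, ?_⟩, by linarith, hl⟩
  · have p1 := lin_est (d := d) (e := e) s1.sol.strip
    push_cast at h5 p1
    have e6 : (a' : ℝ) - a - 2 * Real.sqrt 2 * (Real.sqrt 2 * d - e) * k =
        2 * ((2 * d * k - e * m) - Real.sqrt 2 * (Real.sqrt 2 * d - e) * k) +
          (2 * (d : ℝ) ^ 2 - (e : ℝ) ^ 2) := by linarith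
    rw [e6]
    refine (abs_add_le _ _).trans ?_
    rw [abs_mul, abs_of_pos (by norm_num : (0 : ℝ) < 2)]
    have := abs_nonneg (d : ℝ)
    linarith
  · have e2 : (0 : ℝ) ≤ 2 * a - b := by exact_mod_cast s1.sol.b_nonneg
    have e3 : (0 : ℝ) ≤ 2 * a' - b := by exact_mod_cast s2.sol.b_nonneg
    have e4 : max 0 (-2 * ((a' : ℝ) - a)) ≤ 2 * (a : ℝ) - b := max_le e2 (by linarith)
    rw [e1]
    linarith
  · have e2 : (2 : ℝ) * a - b ≤ 2 * m := by exact_mod_cast s1.sol.b_le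
    have e3 : (2 : ℝ) * a' - b ≤ 2 * m' := by exact_mod_cast s2.sol.b_le
    have e5 : (m' : ℝ) - m = e := by exact_mod_cast s3
    have e6 := abs_nonneg (d : ℝ)
    have e7 := abs_nonneg (e : ℝ)
    have e8 := le_abs_self (e : ℝ)
    have e4 : max 0 (2 * ((a' : ℝ) - a)) ≤ 2 * m - (2 * a - b) + 2 * |(e : ℝ)| := by
      apply max_le
      · linarith
      · linarith
    rw [e1]
    linarith

theorem ptO {k m m' a a' b d e : ℤ} (s1 : SolO k m a b) (s2 : SolO (k + d) m' a' b)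
    (s3 : m' - m = e) : Pt d e a ((a' : ℝ) - a) k m ∧ (a : ℝ) < (Q k m : ℝ) ∧
      a' - a = 2 * (2 * d * (k - 1) - e * m) + 2 * d ^ 2 - e ^ 2 := by
  have hl := s1.line s2 s3
  have e1 : (Q k m : ℝ) = 4 * k - 1 + 2 * a - b - a := by
    have := s1.sol.b_eq
    have h5 : ((4 * k - 1 + 2 * a - b : ℤ) : ℝ) = ((a + Q k m : ℤ) : ℝ) := by rw [this]
    push_cast at h5
    linarith
  have e0 : (b : ℝ) < 4 * k - 1 := by exact_mod_cast s1.lt
  have h5 : ((a' - a : ℤ) : ℝ) =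
      ((2 * (2 * d * (k - 1) - e * m) + 2 * d ^ 2 - e ^ 2 : ℤ) : ℝ) := by rw [hl]
  have ha : (0 : ℝ) ≤ a := by exact_mod_cast s1.sol.a_nonneg
  have ha' : (0 : ℝ) ≤ a' := by exact_mod_cast s2.sol.a_nonneg
  refine ⟨⟨s1.sol.strip, ?_, ?_, ?_⟩, by linarith, hl⟩
  · have p1 := lin_est (d := d) (e := e) s1.sol.strip
    push_cast at h5 p1
    have e6 : (a' : ℝ) - a - 2 * Real.sqrt 2 * (Real.sqrt 2 * d - e) * k =
        2 * ((2 * d * k - e * m) - Real.sqrt 2 * (Real.sqrt 2 * d - e) * k) +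
          (2 * (d : ℝ) ^ 2 - (e : ℝ) ^ 2) + -4 * d := by linarith
    rw [e6]
    refine (abs_add_three _ _ _).trans ?_
    rw [abs_mul, abs_mul, abs_of_pos (by norm_num : (0 : ℝ) < 2)]
    have : |(-4 : ℝ)| = 4 := by norm_num
    rw [this]
    linarith
  · have e4 : max 0 (-2 * ((a' : ℝ) - a)) ≤ 2 * (a : ℝ) := max_le (by linarith) (by linarith)
    rw [e1]
    linarith
  · have e2 : 4 * (k : ℝ) - 1 + 2 * a - b ≤ 2 * m := by exact_mod_cast s1.sol.b_le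
    have e3 : 4 * ((k : ℝ) + d) - 1 + 2 * a' - b ≤ 2 * m' := by exact_mod_cast s2.sol.b_le
    have e5 : (m' : ℝ) - m = e := by exact_mod_cast s3
    have e6 := neg_abs_le (d : ℝ)
    have e7 := abs_nonneg (e : ℝ)
    have e8 := le_abs_self (e : ℝ)
    have e9 := abs_nonneg (d : ℝ)
    have e4 : max 0 (2 * ((a' : ℝ) - a)) ≤ 2 * m - (4 * k - 1 + 2 * a - b) + 2 * |(e : ℝ)| +
        4 * |(d : ℝ)| := by
      apply max_le
      · linarith
      · linarith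
    rw [e1]
    linarith

/-- upper bound for the difference of two values of `Q` -/
theorem Pt.diff {d e : ℤ} {a h : ℝ} {k₁ m₁ k₂ m₂ : ℤ} (p1 : Pt d e a h k₁ m₁)
    (p2 : Pt d e a h k₂ m₂) (hS : (0 : ℝ) ≤ k₁ + k₂) :
    (Q k₂ m₂ : ℝ) - Q k₁ m₁ ≤ Real.sqrt 2 * (1 - 2 * |Real.sqrt 2 * d - e|) * (k₁ + k₂) +
      |(m₂ : ℝ) - m₁| + E d e := by
  have h1 := p1.low
  have h2 := p2.up
  have h3 : 2 * |h| ≤ max 0 (2 * h) + max 0 (-2 * h) := by
    rcases abs_cases h with ⟨h4, _⟩ | ⟨h4, _⟩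
    · have := le_max_right 0 (2 * h)
      have := le_max_left 0 (-2 * h)
      rw [h4]
      linarith
    · have := le_max_left 0 (2 * h)
      have := le_max_right 0 (-2 * h)
      rw [h4]
      linarith
  set s := Real.sqrt 2 with hs
  have hs0 : 0 ≤ s := Real.sqrt_nonneg _
  set t := |s * d - e| with ht
  have h4 : 2 * s * t * (k₁ + k₂) ≤
      2 * |h| + 2 * (2 * |(e : ℝ)| + |2 * (d : ℝ) ^ 2 - (e : ℝ) ^ 2| + 4 * |(d : ℝ)|) := by
    have q0 : |2 * s * (s * d - e) * ((k₁ : ℝ) + k₂)| = 2 * s * t * (k₁ + k₂) := by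
      rw [abs_mul, abs_mul, abs_mul, abs_of_nonneg hS, abs_of_nonneg hs0,
        abs_of_pos (by norm_num : (0 : ℝ) < 2)]
    rw [← q0]
    have q1 : 2 * s * (s * d - e) * ((k₁ : ℝ) + k₂) =
        2 * h - ((h - 2 * s * (s * d - e) * k₁) + (h - 2 * s * (s * d - e) * k₂)) := by ring
    rw [q1]
    refine (abs_sub _ _).trans ?_
    have q2 := abs_add_le (h - 2 * s * (s * d - e) * k₁) (h - 2 * s * (s * d - e) * k₂)
    have q3 := p1.slope
    have q4 := p2.slope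
    have q5 : |2 * h| = 2 * |h| := by rw [abs_mul]; norm_num
    rw [q5]
    linarith
  have h5 : 2 * (m₂ : ℝ) ≤ s * (k₁ + k₂) + 2 + |(m₂ : ℝ) - m₁| := by
    have q1 := (abs_lt.mp p1.strip).2
    have q2 := (abs_lt.mp p2.strip).2
    have q3 := le_abs_self ((m₂ : ℝ) - m₁)
    linarith
  unfold E
  linarith

/-- the exact change of `Q` between two points of the (shifted) line -/
theorem step_est {d e k₁ m₁ k₂ m₂ j δ : ℤ} {g : ℕ}
    (h1 : (g : ℤ) * (k₂ - k₁ - δ) = e * j) (h2 : (g : ℤ) * (m₂ - m₁) = 2 * d * j)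
    (y1 : |(m₁ : ℝ) - Real.sqrt 2 * k₁| < 1) (y2 : |(m₂ : ℝ) - Real.sqrt 2 * k₂| < 1) :
    |(g : ℝ) * ((Q k₂ m₂ : ℝ) - Q k₁ m₁) - (2 * g * δ * ((k₁ : ℝ) + k₂) -
      2 * j * (Real.sqrt 2 * d - e) * ((k₁ : ℝ) + k₂))| ≤ 4 * |(d : ℝ)| * |(j : ℝ)| := by
  have e1 : (g : ℝ) * ((k₂ : ℝ) - k₁ - δ) = e * j := by exact_mod_cast h1
  have e2 : (g : ℝ) * ((m₂ : ℝ) - m₁) = 2 * d * j := by exact_mod_cast h2
  have e3 : (g : ℝ) * ((Q k₂ m₂ : ℝ) - Q k₁ m₁) - (2 * g * δ * ((k₁ : ℝ) + k₂) -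
      2 * j * (Real.sqrt 2 * d - e) * ((k₁ : ℝ) + k₂)) =
      -(2 * d * j * (((m₁ : ℝ) - Real.sqrt 2 * k₁) + (m₂ - Real.sqrt 2 * k₂))) := by
    unfold Q
    push_cast
    linear_combination (2 * ((k₁ : ℝ) + k₂)) * e1 - ((m₁ : ℝ) + m₂) * e2
  rw [e3, abs_neg, abs_mul, abs_mul, abs_mul, abs_of_pos (by norm_num : (0 : ℝ) < 2)]
  have e4 : |((m₁ : ℝ) - Real.sqrt 2 * k₁) + (m₂ - Real.sqrt 2 * k₂)| ≤ 2 :=
    (abs_add_le _ _).trans (by linarith)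
  have e5 := mul_le_mul_of_nonneg_left e4
    (by positivity : (0 : ℝ) ≤ 2 * |(d : ℝ)| * |(j : ℝ)|)
  linarith

/-- two points of the same type: `|j| ≤ J` -/
theorem same_type {d e : ℤ} {a h K : ℝ} {J : ℕ} {g : ℕ} {k₁ m₁ k₂ m₂ j : ℤ}
    (p1 : Pt d e a h k₁ m₁) (p2 : Pt d e a h k₂ m₂) (hk1 : K ≤ k₁) (hk2 : K ≤ k₂)
    (hK0 : 0 ≤ K)
    (hC : (g : ℝ) * (2 * Real.sqrt 2 * (1 - 2 * |Real.sqrt 2 * d - e|) * K + E d e) <
      (J + 1) * (4 * |Real.sqrt 2 * d - e| * K - 6 * |(d : ℝ)|))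
    (h1 : (g : ℤ) * (k₂ - k₁) = e * j) (h2 : (g : ℤ) * (m₂ - m₁) = 2 * d * j) :
    j.natAbs ≤ J := by
  by_contra hc
  push Not at hc
  set s := Real.sqrt 2 with hs
  set t := |s * d - e| with ht
  have ht0 : 0 ≤ t := abs_nonneg _
  have hs0 : 0 ≤ s := Real.sqrt_nonneg _
  have hg0 : (0 : ℝ) ≤ g := by positivity
  have hE := E_nonneg d e
  have hd0 : 0 ≤ |(d : ℝ)| := abs_nonneg _
  set S : ℝ := (k₁ : ℝ) + k₂ with hS
  have hS2 : 2 * K ≤ S := by rw [hS]; linarith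
  have hS0 : 0 ≤ S := by linarith
  have hj : (J : ℝ) + 1 ≤ |(j : ℝ)| := by
    rw [← Int.cast_abs, Int.abs_eq_natAbs]
    exact_mod_cast hc
  -- the exact change
  have q1 := step_est (δ := 0) (by simpa using h1) h2 p1.strip p2.strip
  rw [← hs, ← hS] at q1
  have q2 : |2 * (j : ℝ) * (s * d - e) * S| = 2 * |(j : ℝ)| * t * S := by
    rw [abs_mul, abs_mul, abs_mul, abs_of_nonneg hS0, abs_of_pos (by norm_num : (0 : ℝ) < 2)]
  have q3 : 2 * |(j : ℝ)| * t * S - 4 * |(d : ℝ)| * |(j : ℝ)| ≤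
      |(g : ℝ) * ((Q k₂ m₂ : ℝ) - Q k₁ m₁)| := by
    rw [← q2]
    have q4 := abs_sub_abs_le_abs_sub (2 * (j : ℝ) * (s * d - e) * S)
      (-((g : ℝ) * ((Q k₂ m₂ : ℝ) - Q k₁ m₁)))
    rw [abs_neg] at q4
    have q5 : 2 * (j : ℝ) * (s * d - e) * S - -((g : ℝ) * ((Q k₂ m₂ : ℝ) - Q k₁ m₁)) =
        (g : ℝ) * ((Q k₂ m₂ : ℝ) - Q k₁ m₁) - (2 * g * ((0 : ℤ) : ℝ) * S -
          2 * j * (s * d - e) * S) := by push_cast; ring
    rw [q5] at q4
    linarith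
  -- the upper bound
  have q6 : (g : ℝ) * |(m₂ : ℝ) - m₁| = 2 * |(d : ℝ)| * |(j : ℝ)| := by
    have e2 : (g : ℝ) * ((m₂ : ℝ) - m₁) = 2 * d * j := by exact_mod_cast h2
    rw [← abs_of_nonneg hg0, ← abs_mul, e2, abs_mul, abs_mul,
      abs_of_pos (by norm_num : (0 : ℝ) < 2)]
  have q7 : |(Q k₂ m₂ : ℝ) - Q k₁ m₁| ≤ s * (1 - 2 * t) * S + |(m₂ : ℝ) - m₁| + E d e := by
    rw [abs_le]
    constructor
    · have := p2.diff p1 (by rw [hS] at hS0; linarith)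
      rw [← hs, ← ht, add_comm (k₂ : ℝ) k₁, ← hS, abs_sub_comm] at this
      linarith
    · have := p1.diff p2 (by rw [hS] at hS0; linarith)
      rw [← hs, ← ht, ← hS] at this
      linarith
  have q8 : |(g : ℝ) * ((Q k₂ m₂ : ℝ) - Q k₁ m₁)| ≤
      g * (s * (1 - 2 * t) * S + E d e) + 2 * |(d : ℝ)| * |(j : ℝ)| := by
    rw [abs_mul, abs_of_nonneg hg0, ← q6]
    have := mul_le_mul_of_nonneg_left q7 hg0
    linarith
  have q9 : |(j : ℝ)| * (2 * t * S - 6 * |(d : ℝ)|) ≤ g * (s * (1 - 2 * t) * S + E d e) := by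
    linarith
  have q10 := slope_ext (α := g * (2 * s * (1 - 2 * t))) (β := 4 * t) (C₁ := g * E d e)
    (C₂ := 6 * |(d : ℝ)|) (J := (J : ℝ) + 1) hK0 (X := S / 2) (by linarith) (by positivity)
    (by positivity) (by positivity) (by linarith)
  have q11 : 0 ≤ 2 * t * S - 6 * |(d : ℝ)| := by
    by_contra hcc
    push Not at hcc
    have r1 : 4 * t * K - 6 * |(d : ℝ)| ≤ 2 * t * S - 6 * |(d : ℝ)| := by
      have := mul_le_mul_of_nonneg_left hS2 ht0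
      linarith
    have r2 : ((J : ℝ) + 1) * (4 * t * K - 6 * |(d : ℝ)|) < 0 :=
      mul_neg_of_pos_of_neg (by positivity) (by linarith)
    have r3 : (g : ℝ) * (2 * s * (1 - 2 * t) * K + E d e) < 0 := by linarith
    have r4 : 2 * s * (1 - 2 * t) * K + E d e < 0 := by
      by_contra h
      push Not at h
      have := mul_nonneg hg0 h
      linarith
    -- then the bound of `Q` is negative
    have r5 : s * (1 - 2 * t) * S + E d e < 0 := by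
      have r6 : s * (1 - 2 * t) < 0 := by
        by_contra h
        push Not at h
        have := mul_nonneg h hK0
        linarith
      have r7 := mul_le_mul_of_nonpos_left hS2 r6.le
      linarith
    have r8 := abs_nonneg ((Q k₂ m₂ : ℝ) - Q k₁ m₁)
    -- `|m₂ - m₁|` and the left side
    have r9 : 2 * t * S < 6 * |(d : ℝ)| := by linarith
    have r10 : (1 : ℝ) < 2 * t := by
      by_contra h
      push Not at h
      have := mul_nonneg (mul_nonneg hs0 (by linarith : (0 : ℝ) ≤ 1 - 2 * t)) hS0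
      linarith
    have hs1 : 1 ≤ s := by
      rw [hs, show (1 : ℝ) = Real.sqrt 1 by simp]
      exact Real.sqrt_le_sqrt (by norm_num)
    have r11 : s * (2 * t - 1) * S ≤ s * (2 * t * S) := by
      have := mul_nonneg hs0 hS0
      nlinarith
    have hs2 : s ≤ 1.5 := by
      rw [hs, Real.sqrt_le_left (by norm_num)]
      norm_num
    have r12 : s * (2 * t * S) ≤ 1.5 * (2 * t * S) := mul_le_mul_of_nonneg_right hs2
      (by positivity)
    have r13 : 12 * |(d : ℝ)| ≤ E d e := by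
      unfold E
      have := abs_nonneg (e : ℝ)
      have := abs_nonneg (2 * (d : ℝ) ^ 2 - (e : ℝ) ^ 2)
      linarith
    linarith
  have q12 := mul_le_mul_of_nonneg_right hj q11
  linarith

/-- a point of the even and a point of the odd branch: `c < j ≤ c + J` -/
theorem cross_type {d e : ℤ} {a h K τ : ℝ} {J c : ℕ} {g : ℕ} {k₁ m₁ k₂ m₂ j i : ℤ}
    (p1 : Pt d e a h k₁ m₁) (p2 : Pt d e a h k₂ m₂) (hk1 : K ≤ k₁) (hk2 : K ≤ k₂)
    (hlt : (Q k₁ m₁ : ℝ) < Q k₂ m₂)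
    (hK0 : 0 < K) (hg : 0 < g)
    (h3 : 3 * |(d : ℝ)| ≤ 2 * |Real.sqrt 2 * d - e| * K)
    (hA : (g : ℝ) * K ≤ (c + J + 1) * (|Real.sqrt 2 * d - e| * K - |(d : ℝ)|))
    (hB : (g : ℝ) * (2 * Real.sqrt 2 * (1 - 2 * |Real.sqrt 2 * d - e|) * K + E d e) +
      c * (4 * |Real.sqrt 2 * d - e| * K + 6 * |(d : ℝ)|) < 4 * g * K)
    (h1 : (g : ℤ) * (k₂ - k₁ - 1) = e * j) (h2 : (g : ℤ) * (m₂ - m₁) = 2 * d * j)
    (hτ : τ = Real.sqrt 2 * d - e) (hi : (i : ℝ) * |τ| = j * τ) (hij : |(i : ℝ)| = |(j : ℝ)|) :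
    (c : ℤ) + 1 ≤ i ∧ i ≤ c + J := by
  set s := Real.sqrt 2 with hs
  rw [← hτ] at h3 hA hB
  set t := |τ| with ht
  have ht0 : 0 ≤ t := abs_nonneg _
  have hs0 : 0 ≤ s := Real.sqrt_nonneg _
  have hg0 : (0 : ℝ) < g := by exact_mod_cast hg
  have hE := E_nonneg d e
  have hd0 : 0 ≤ |(d : ℝ)| := abs_nonneg _
  set S : ℝ := (k₁ : ℝ) + k₂ with hS
  have hS2 : 2 * K ≤ S := by rw [hS]; linarith
  have hS0 : 0 < S := by linarith
  have q1 := step_est (δ := 1) h1 h2 p1.strip p2.strip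
  rw [← hs, ← hS, ← hτ, ← hij] at q1
  have q0 : 2 * (j : ℝ) * τ * S = 2 * i * t * S := by
    rw [mul_assoc 2 (j : ℝ) τ, ← hi]; ring
  rw [q0] at q1
  push_cast at q1
  rw [mul_one, abs_le] at q1
  obtain ⟨q2, q3⟩ := q1
  have q6 : (g : ℝ) * |(m₂ : ℝ) - m₁| = 2 * |(d : ℝ)| * |(i : ℝ)| := by
    have e2 : (g : ℝ) * ((m₂ : ℝ) - m₁) = 2 * d * j := by exact_mod_cast h2
    rw [hij, ← abs_of_nonneg hg0.le, ← abs_mul, e2, abs_mul, abs_mul,
      abs_of_pos (by norm_num : (0 : ℝ) < 2)]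
  have q7 : (Q k₂ m₂ : ℝ) - Q k₁ m₁ ≤ s * (1 - 2 * t) * S + |(m₂ : ℝ) - m₁| + E d e := by
    have := p1.diff p2 (by rw [hS] at hS0; linarith)
    rw [← hs, ← hτ, ← ht, ← hS] at this
    linarith
  have q8 : (g : ℝ) * ((Q k₂ m₂ : ℝ) - Q k₁ m₁) ≤
      g * (s * (1 - 2 * t) * S + E d e) + 2 * |(d : ℝ)| * |(i : ℝ)| := by
    rw [← q6]
    have := mul_le_mul_of_nonneg_left q7 hg0.le
    linarith
  have q9 : 0 < (g : ℝ) * ((Q k₂ m₂ : ℝ) - Q k₁ m₁) := mul_pos hg0 (by linarith)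
  constructor
  · -- lower bound
    by_contra hc
    push Not at hc
    have hc' : i ≤ c := by omega
    have hcr : (i : ℝ) ≤ c := by exact_mod_cast hc'
    -- `2 g S ≤ i (2 t S + 6 d)` or so
    have r1 : 2 * g * S ≤ 2 * i * t * S + 6 * |(d : ℝ)| * |(i : ℝ)| +
        g * (s * (1 - 2 * t) * S + E d e) := by linarith
    have r2 : 2 * i * t * S + 6 * |(d : ℝ)| * |(i : ℝ)| ≤ c * (2 * t * S + 6 * |(d : ℝ)|) := by
      rcases abs_cases (i : ℝ) with ⟨h4, h5⟩ | ⟨h4, h5⟩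
      · rw [h4]
        have : (i : ℝ) * (2 * t * S + 6 * |(d : ℝ)|) ≤ c * (2 * t * S + 6 * |(d : ℝ)|) :=
          mul_le_mul_of_nonneg_right hcr (by positivity)
        linarith
      · rw [h4]
        have r3 : 0 ≤ 2 * t * S - 6 * |(d : ℝ)| := by
          have := mul_le_mul_of_nonneg_left hS2 ht0
          linarith
        have r4 : (i : ℝ) * (2 * t * S - 6 * |(d : ℝ)|) ≤ 0 :=
          mul_nonpos_of_nonpos_of_nonneg h5.le r3
        have r5 : 0 ≤ (c : ℝ) * (2 * t * S + 6 * |(d : ℝ)|) := by positivity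
        linarith
    -- extension of `hB` from `2 K` to `S`
    have r6 : (g : ℝ) * (s * (1 - 2 * t) * S + E d e) + c * (2 * t * S + 6 * |(d : ℝ)|) <
        2 * g * S := by
      have r7 : 0 ≤ (2 * g - c * (2 * t) - g * (s * (1 - 2 * t))) * (2 * K) := by
        have : 0 ≤ (g : ℝ) * E d e + c * (6 * |(d : ℝ)|) := by positivity
        linarith
      have r8 : 0 ≤ 2 * g - c * (2 * t) - g * (s * (1 - 2 * t)) := by
        by_contra h
        push Not at h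
        have := mul_neg_of_neg_of_pos h (by linarith : (0 : ℝ) < 2 * K)
        linarith
      have r9 := mul_le_mul_of_nonneg_left hS2 r8
      linarith
    linarith
  · -- upper bound
    by_contra hc
    push Not at hc
    have hc' : (c : ℤ) + J + 1 ≤ i := by omega
    have hcr : (c : ℝ) + J + 1 ≤ i := by exact_mod_cast hc'
    have hi0 : (0 : ℝ) < i := by
      have : (0 : ℝ) < (c : ℝ) + J + 1 := by positivity
      linarith
    rw [abs_of_pos hi0] at q3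
    -- `i (S t - 2 d) < g S`
    have r1 : (i : ℝ) * (t * S - 2 * |(d : ℝ)|) < g * S := by linarith
    have r2 : 0 ≤ t * S - 2 * |(d : ℝ)| := by
      have := mul_le_mul_of_nonneg_left hS2 ht0
      linarith
    have r3 := mul_le_mul_of_nonneg_right hcr r2
    -- `(c + J + 1) (t S - 2 d) ≥ g S`
    have r4 : (g : ℝ) * S ≤ (c + J + 1) * (t * S - 2 * |(d : ℝ)|) := by
      set n : ℝ := (c : ℝ) + J + 1 with hn
      have hn0 : 0 ≤ n := by positivity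
      have r5 : 0 ≤ (n * t - g) * K := by
        have := mul_nonneg hn0 hd0
        linarith
      have r6 : 0 ≤ n * t - g := by
        by_contra h
        push Not at h
        have := mul_neg_of_neg_of_pos h hK0
        linarith
      have r7 := mul_le_mul_of_nonneg_left hS2 r6
      linarith
    linarith

/-- a finite set of integers of diameter `≤ J` -/
theorem card_diam {J : ℕ} (T : Finset ℤ) (h : ∀ x ∈ T, ∀ y ∈ T, y - x ≤ J) :
    T.card ≤ J + 1 := by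
  rcases T.eq_empty_or_nonempty with h0 | hne
  · subst h0; simp
  obtain ⟨x, hx, hmin⟩ := T.exists_min_image id hne
  have hsub : T ⊆ Finset.Icc x (x + J) := by
    intro y hy
    rw [mem_Icc]
    have h1 := hmin y hy
    have h2 := h x hx y hy
    simp only [id] at h1
    omega
  refine (Finset.card_le_card hsub).trans ?_
  rw [Int.card_Icc]
  omega

/-- **Same branch, refined count.** -/
theorem same_count_ref {d e a a' : ℤ} {J c : ℕ} {K : ℝ} (he : e ≠ 0) (hK0 : 0 < K)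
    (h3 : 3 * |(d : ℝ)| ≤ 2 * |Real.sqrt 2 * d - e| * K)
    (hA : ((Int.gcd (2 * d) e : ℕ) : ℝ) * K ≤
      (c + J + 1) * (|Real.sqrt 2 * d - e| * K - |(d : ℝ)|))
    (hB : ((Int.gcd (2 * d) e : ℕ) : ℝ) *
        (2 * Real.sqrt 2 * (1 - 2 * |Real.sqrt 2 * d - e|) * K + E d e) +
      c * (4 * |Real.sqrt 2 * d - e| * K + 6 * |(d : ℝ)|) <
        4 * ((Int.gcd (2 * d) e : ℕ) : ℝ) * K)
    (hC : ((Int.gcd (2 * d) e : ℕ) : ℝ) *
        (2 * Real.sqrt 2 * (1 - 2 * |Real.sqrt 2 * d - e|) * K + E d e) <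
      (J + 1) * (4 * |Real.sqrt 2 * d - e| * K - 6 * |(d : ℝ)|))
    (TE TO : Finset ℤ)
    (hTE : ∀ k ∈ TE, K ≤ k ∧ ∃ m m' b : ℤ,
      SolE k m a b ∧ SolE (k + d) m' a' b ∧ m' - m = e)
    (hTO : ∀ k ∈ TO, K ≤ k ∧ ∃ m m' b : ℤ,
      SolO k m a b ∧ SolO (k + d) m' a' b ∧ m' - m = e) :
    TE.card + TO.card ≤ J + 1 := by
  classical
  set g := Int.gcd (2 * d) e with hgdef
  have hg : 0 < g := Int.gcd_pos_of_ne_zero_right _ he
  have hg' : (g : ℤ) ≠ 0 := by exact_mod_cast hg.ne'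
  set h : ℝ := (a' : ℝ) - a with hh
  -- data
  have dE : ∀ k ∈ TE, ∃ m : ℤ, Pt d e a h k m ∧ (Q k m : ℝ) ≤ a ∧
      a' - a = 2 * (2 * d * k - e * m) + 2 * d ^ 2 - e ^ 2 := by
    intro k hk
    obtain ⟨_, m, m', b, s1, s2, s3⟩ := hTE k hk
    exact ⟨m, ptE s1 s2 s3⟩
  have dO : ∀ k ∈ TO, ∃ m : ℤ, Pt d e a h k m ∧ (a : ℝ) < (Q k m : ℝ) ∧
      a' - a = 2 * (2 * d * (k - 1) - e * m) + 2 * d ^ 2 - e ^ 2 := by
    intro k hk
    obtain ⟨_, m, m', b, s1, s2, s3⟩ := hTO k hk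
    exact ⟨m, ptO s1 s2 s3⟩
  -- a reference point
  by_cases hne : ∃ x₀ m₀ : ℤ, a' - a = 2 * (2 * d * x₀ - e * m₀) + 2 * d ^ 2 - e ^ 2
  swap
  · have h0 : TE = ∅ := by
      rw [Finset.eq_empty_iff_forall_notMem]
      intro k hk
      obtain ⟨m, _, _, h6⟩ := dE k hk
      exact hne ⟨k, m, h6⟩
    have h1 : TO = ∅ := by
      rw [Finset.eq_empty_iff_forall_notMem]
      intro k hk
      obtain ⟨m, _, _, h6⟩ := dO k hk
      exact hne ⟨k - 1, m, h6⟩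
    rw [h0, h1]
    simp
  obtain ⟨x₀, m₀, h₀⟩ := hne
  have iE : ∀ k ∈ TE, ∃ m j : ℤ, (Pt d e a h k m ∧ (Q k m : ℝ) ≤ a) ∧
      (g : ℤ) * (k - x₀) = e * j ∧ (g : ℤ) * (m - m₀) = 2 * d * j := by
    intro k hk
    obtain ⟨m, h4, h5, h6⟩ := dE k hk
    obtain ⟨j, j1, j2⟩ := line_step (d := d) (e := e) (k₁ := x₀) (k₂ := k) (m₁ := m₀) (m₂ := m)
      he (by linarith)
    exact ⟨m, j, ⟨h4, h5⟩, j1, j2⟩
  have iO : ∀ k ∈ TO, ∃ m j : ℤ, (Pt d e a h k m ∧ (a : ℝ) < (Q k m : ℝ)) ∧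
      (g : ℤ) * (k - 1 - x₀) = e * j ∧ (g : ℤ) * (m - m₀) = 2 * d * j := by
    intro k hk
    obtain ⟨m, h4, h5, h6⟩ := dO k hk
    obtain ⟨j, j1, j2⟩ := line_step (d := d) (e := e) (k₁ := x₀) (k₂ := k - 1) (m₁ := m₀)
      (m₂ := m) he (by linarith)
    exact ⟨m, j, ⟨h4, h5⟩, j1, j2⟩
  choose! mE jE pE uE vE using iE
  choose! mO jO pO uO vO using iO
  -- the sign
  set τ : ℝ := Real.sqrt 2 * d - e with hτ
  obtain ⟨sg, hsg, hsg2⟩ : ∃ sg : ℤ, (sg = 1 ∨ sg = -1) ∧ |τ| = sg * τ := by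
    rcases le_or_gt 0 τ with h5 | h5
    · exact ⟨1, Or.inl rfl, by rw [abs_of_nonneg h5]; norm_num⟩
    · exact ⟨-1, Or.inr rfl, by rw [abs_of_neg h5]; norm_num⟩
  have hsq : sg * sg = 1 := by rcases hsg with h5 | h5 <;> rw [h5] <;> norm_num
  have hsabs : |((sg : ℤ) : ℝ)| = 1 := by
    rcases hsg with h5 | h5 <;> rw [h5] <;> norm_num
  -- pairs
  have c1 : ∀ k₁ ∈ TE, ∀ k₂ ∈ TE, (jE k₂ - jE k₁).natAbs ≤ J := by
    intro k₁ hk₁ k₂ hk₂
    apply same_type (pE k₁ hk₁).1 (pE k₂ hk₂).1 (hTE k₁ hk₁).1 (hTE k₂ hk₂).1 hK0.le hC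
    · linear_combination uE k₂ hk₂ - uE k₁ hk₁
    · linear_combination vE k₂ hk₂ - vE k₁ hk₁
  have c2 : ∀ k₁ ∈ TO, ∀ k₂ ∈ TO, (jO k₂ - jO k₁).natAbs ≤ J := by
    intro k₁ hk₁ k₂ hk₂
    apply same_type (pO k₁ hk₁).1 (pO k₂ hk₂).1 (hTO k₁ hk₁).1 (hTO k₂ hk₂).1 hK0.le hC
    · linear_combination uO k₂ hk₂ - uO k₁ hk₁
    · linear_combination vO k₂ hk₂ - vO k₁ hk₁
  have c3 : ∀ k₁ ∈ TE, ∀ k₂ ∈ TO, (c : ℤ) + 1 ≤ sg * (jO k₂ - jE k₁) ∧
      sg * (jO k₂ - jE k₁) ≤ c + J := by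
    intro k₁ hk₁ k₂ hk₂
    apply cross_type (τ := τ) (j := jO k₂ - jE k₁) (pE k₁ hk₁).1 (pO k₂ hk₂).1 (hTE k₁ hk₁).1
      (hTO k₂ hk₂).1 ((pE k₁ hk₁).2.trans_lt (pO k₂ hk₂).2) hK0 hg h3 hA hB
    · linear_combination uO k₂ hk₂ - uE k₁ hk₁
    · linear_combination vO k₂ hk₂ - vE k₁ hk₁
    · exact hτ
    · rw [hsg2]
      have : ((sg * (jO k₂ - jE k₁) : ℤ) : ℝ) * (sg * τ) =
          ((sg * sg : ℤ) : ℝ) * (((jO k₂ - jE k₁ : ℤ) : ℝ) * τ) := by push_cast; ring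
      rw [this, hsq]
      simp
    · push_cast
      rw [abs_mul, hsabs, one_mul]
  -- the two images
  have inE : Set.InjOn (fun k => sg * jE k) (TE : Set ℤ) := by
    intro k₁ hk₁ k₂ hk₂ heq
    simp only at heq
    have h5 : jE k₁ = jE k₂ := by
      have : sg * (sg * jE k₁) = sg * (sg * jE k₂) := by rw [heq]
      rw [← mul_assoc, ← mul_assoc, hsq, one_mul, one_mul] at this
      exact this
    have h6 : (g : ℤ) * (k₁ - x₀) = g * (k₂ - x₀) := by rw [uE k₁ hk₁, uE k₂ hk₂, h5]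
    have := mul_left_cancel₀ hg' h6
    omega
  have inO : Set.InjOn (fun k => sg * jO k - c) (TO : Set ℤ) := by
    intro k₁ hk₁ k₂ hk₂ heq
    simp only at heq
    have h5 : jO k₁ = jO k₂ := by
      have : sg * (sg * jO k₁) = sg * (sg * jO k₂) := by
        rw [show sg * jO k₁ = sg * jO k₂ by omega]
      rw [← mul_assoc, ← mul_assoc, hsq, one_mul, one_mul] at this
      exact this
    have h6 : (g : ℤ) * (k₁ - 1 - x₀) = g * (k₂ - 1 - x₀) := by rw [uO k₁ hk₁, uO k₂ hk₂, h5]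
    have := mul_left_cancel₀ hg' h6
    omega
  have hdisj : Disjoint (TE.image (fun k => sg * jE k)) (TO.image (fun k => sg * jO k - c)) := by
    rw [Finset.disjoint_left]
    intro x hx hx'
    rw [mem_image] at hx hx'
    obtain ⟨k₁, hk₁, h5⟩ := hx
    obtain ⟨k₂, hk₂, h6⟩ := hx'
    have h7 := (c3 k₁ hk₁ k₂ hk₂).1
    have h8 : sg * (jO k₂ - jE k₁) = sg * jO k₂ - sg * jE k₁ := by ring
    omega
  rw [← Finset.card_image_of_injOn inE, ← Finset.card_image_of_injOn inO,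
    ← Finset.card_union_of_disjoint hdisj]
  apply card_diam
  intro x hx y hy
  rw [mem_union, mem_image, mem_image] at hx hy
  rcases hx with ⟨k₁, hk₁, h5⟩ | ⟨k₁, hk₁, h5⟩ <;> rcases hy with ⟨k₂, hk₂, h6⟩ | ⟨k₂, hk₂, h6⟩
  · have h7 := c1 k₁ hk₁ k₂ hk₂
    rcases hsg with h8 | h8 <;> rw [h8] at h5 h6 <;> omega
  · have h7 := (c3 k₁ hk₁ k₂ hk₂).2
    have h8 : sg * (jO k₂ - jE k₁) = sg * jO k₂ - sg * jE k₁ := by ring
    omega
  · have h7 := (c3 k₂ hk₂ k₁ hk₁).1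
    have h8 : sg * (jO k₁ - jE k₂) = sg * jO k₁ - sg * jE k₂ := by ring
    omega
  · have h7 := c2 k₁ hk₁ k₂ hk₂
    rcases hsg with h8 | h8 <;> rw [h8] at h5 h6 <;> omega

end LR

/-- numerical conditions of the refined count, bound `J + 1` -/
structure RefOK (K : ℝ) (d e : ℤ) (J c : ℕ) : Prop where
  ne : e ≠ 0
  pos : 0 < K
  sep : 3 * |(d : ℝ)| ≤ 2 * |Real.sqrt 2 * d - e| * K
  up : ((Int.gcd (2 * d) e : ℕ) : ℝ) * K ≤
    (c + J + 1) * (|Real.sqrt 2 * d - e| * K - |(d : ℝ)|)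
  low : ((Int.gcd (2 * d) e : ℕ) : ℝ) *
      (2 * Real.sqrt 2 * (1 - 2 * |Real.sqrt 2 * d - e|) * K + LR.E d e) +
    c * (4 * |Real.sqrt 2 * d - e| * K + 6 * |(d : ℝ)|) <
      4 * ((Int.gcd (2 * d) e : ℕ) : ℝ) * K
  arc : ((Int.gcd (2 * d) e : ℕ) : ℝ) *
      (2 * Real.sqrt 2 * (1 - 2 * |Real.sqrt 2 * d - e|) * K + LR.E d e) <
    (J + 1) * (4 * |Real.sqrt 2 * d - e| * K - 6 * |(d : ℝ)|)

theorem RefOK.bd {K : ℕ} {d e : ℤ} {J c : ℕ} {K₀ : ℝ} (h : RefOK K₀ d e J c) (hK : K₀ ≤ K) :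
    SameBd K d e (J + 1) := by
  intro a a' TE TO hTE hTO
  exact LR.same_count_ref h.ne h.pos h.sep h.up h.low h.arc TE TO
    (fun k hk => ⟨hK.trans (by exact_mod_cast (hTE k hk).1), (hTE k hk).2.2⟩)
    (fun k hk => ⟨hK.trans (by exact_mod_cast (hTO k hk).1), (hTO k hk).2.2⟩)

end Pool.Agent.AddSq
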