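import Pool.Agent.AddSq.Lag2

/-!
# Counting lemma, lag two, weighted form

Every value `b` of `r₂` is counted with its own number of blocks (`b ≤ 4 k`).
-/

namespace Pool.Agent.AddSq

open Finset

/-- The van der Corput inequality for a family `g b`, `b ∈ B`, in which `g b` is supported in
`{k ∈ [K, K + H) : s b ≤ k}`: weighted form. -/
theorem vdc_family_from {ι : Type*} (B : Finset ι) {g : ι → ℤ → ℝ} (s : ι → ℤ) {K : ℤ}
    {H D : ℕ} (hg : ∀ b ∈ B, ∀ k, g b k ≠ 0 → K ≤ k ∧ k < K + H ∧ s b ≤ k) :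
    ((D : ℝ) * ∑ b ∈ B, ∑ k ∈ Ico K (K + H), g b k) ^ 2 ≤
      ((D : ℝ) * B.card + ∑ k ∈ Ico K (K + H), ((B.filter (fun b => s b ≤ k)).card : ℝ)) *
        ∑ d ∈ Ioo (-(D : ℤ)) D,
          ((D : ℝ) - |(d : ℝ)|) * ∑ b ∈ B, ∑ k ∈ Ico K (K + H), g b k * g b (k + d) := by
  classical
  -- left end and length of the window of `b`
  set a : ι → ℤ := fun b => max K (min (s b) (K + H)) with ha
  set l : ι → ℕ := fun b => (K + H - a b).toNat with hl
  have haK : ∀ b, K ≤ a b := fun b => le_max_left _ _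
  have haH : ∀ b, a b ≤ K + H := fun b => by
    rw [ha]
    simp only
    omega
  have hal : ∀ b, a b + l b = K + H := fun b => by
    have h1 := haH b
    rw [hl]
    simp only
    omega
  have hsupp : ∀ b ∈ B, ∀ k, g b k ≠ 0 → a b ≤ k ∧ k < a b + l b := by
    intro b hb k hk
    obtain ⟨h1, h2, h3⟩ := hg b hb k hk
    rw [hal b]
    refine ⟨?_, h2⟩
    rw [ha]
    simp only
    omega
  have hsum : ∀ (F : ℤ → ℝ) (b : ι), (∀ k, F k ≠ 0 → a b ≤ k ∧ k < a b + l b) →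
      ∑ k ∈ Ico K (K + H), F k = ∑ k ∈ Ico (a b) (a b + l b), F k := by
    intro F b hF
    exact sum_Ico_of_support (haK b) (by rw [hal b]) hF
  -- each `b`
  have h1 : ∀ b ∈ B, ((D : ℝ) * ∑ k ∈ Ico K (K + H), g b k) ^ 2 ≤
      ((l b : ℝ) + D) * ∑ d ∈ Ioo (-(D : ℤ)) D,
        ((D : ℝ) - |(d : ℝ)|) * ∑ k ∈ Ico K (K + H), g b k * g b (k + d) := by
    intro b hb
    have h := vdc (D := D) (hsupp b hb)
    rw [hsum (g b) b (hsupp b hb)]
    refine h.trans (le_of_eq ?_)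
    congr 1
    apply Finset.sum_congr rfl
    intro d _
    congr 1
    rw [hsum (fun k => g b k * g b (k + d)) b]
    intro k hk
    apply hsupp b hb
    intro h0
    apply hk
    rw [h0, zero_mul]
  have hnn : ∀ b ∈ B, 0 ≤ (∑ d ∈ Ioo (-(D : ℤ)) D,
      ((D : ℝ) - |(d : ℝ)|) * ∑ k ∈ Ico K (K + H), g b k * g b (k + d)) := by
    intro b hb
    rcases Nat.eq_zero_or_pos D with h0 | hD
    · subst h0
      simp
    · have h := (sq_nonneg _).trans (h1 b hb)
      have hp : (0 : ℝ) < (l b : ℝ) + D := by positivity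
      by_contra hc
      push Not at hc
      have := mul_neg_of_pos_of_neg hp hc
      linarith
  have h2 : (∑ b ∈ B, (D : ℝ) * ∑ k ∈ Ico K (K + H), g b k) ^ 2 ≤
      (∑ b ∈ B, ((l b : ℝ) + D)) * ∑ b ∈ B, ∑ d ∈ Ioo (-(D : ℤ)) D,
        ((D : ℝ) - |(d : ℝ)|) * ∑ k ∈ Ico K (K + H), g b k * g b (k + d) :=
    Finset.sum_sq_le_sum_mul_sum_of_sq_le_mul B (fun b _ => by positivity) hnn h1
  -- the weights
  have h3 : ∑ b ∈ B, ((l b : ℝ) + D) =
      (D : ℝ) * B.card + ∑ k ∈ Ico K (K + H), ((B.filter (fun b => s b ≤ k)).card : ℝ) := by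
    rw [Finset.sum_add_distrib, Finset.sum_const, nsmul_eq_mul, add_comm, mul_comm]
    congr 1
    have e1 : ∀ k, ((B.filter (fun b => s b ≤ k)).card : ℝ) =
        ∑ b ∈ B, if s b ≤ k then (1 : ℝ) else 0 := by
      intro k
      rw [Finset.card_filter]
      push_cast
      rfl
    rw [Finset.sum_congr rfl (fun k _ => e1 k), Finset.sum_comm]
    apply Finset.sum_congr rfl
    intro b _
    have e2 : ∑ k ∈ Ico K (K + H), (if s b ≤ k then (1 : ℝ) else 0) =
        (((Ico K (K + H)).filter (fun k => s b ≤ k)).card : ℝ) := by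
      rw [Finset.card_filter]
      push_cast
      rfl
    rw [e2]
    have e3 : (Ico K (K + H)).filter (fun k => s b ≤ k) = Ico (a b) (K + H) := by
      ext k
      rw [mem_filter, mem_Ico, mem_Ico, ha]
      simp only
      omega
    rw [e3, Int.card_Ico]
  rw [Finset.mul_sum, ← h3]
  refine h2.trans (le_of_eq ?_)
  congr 1
  rw [Finset.sum_comm]
  apply Finset.sum_congr rfl
  intro d _
  rw [← Finset.mul_sum]

/-- **Counting lemma, lag two, weighted form** (same hypotheses as `lag2`). -/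
theorem lag2w (A B : Finset ℕ) {K H D M : ℕ}
    (Es : ℤ → Finset ℤ) (Js : ℤ → ℤ → ℕ)
    (comps : ℤ → ℤ → ℤ → Prop) [∀ d e h, Decidable (comps d e h)]
    (Ec : ℤ → Finset ℤ) (Jc : ℤ → ℤ → ℕ)
    (compc : ℤ → ℤ → ℤ → Prop) [∀ d e h, Decidable (compc d e h)]
    (hEE : ∀ d : ℤ, d ≠ 0 → |d| < D → ∀ k m m' a a' b : ℤ, K ≤ k → k < K + H → K ≤ k + d →
      k + d < K + H → SolE k m a b → SolE (k + d) m' a' b →
      m' - m ∈ Es d ∧ comps d (m' - m) (a' - a))
    (hOO : ∀ d : ℤ, d ≠ 0 → |d| < D → ∀ k m m' a a' b : ℤ, K ≤ k → k < K + H → K ≤ k + d →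
      k + d < K + H → SolO k m a b → SolO (k + d) m' a' b →
      m' - m ∈ Es d ∧ comps d (m' - m) (a' - a))
    (hEO : ∀ d : ℤ, |d| < D → ∀ k m m' a a' b : ℤ, K ≤ k → k < K + H → K ≤ k + d →
      k + d < K + H → SolE k m a b → SolO (k + d) m' a' b →
      m' - m ∈ Ec d ∧ compc d (m' - m) (a' - a))
    (hJs : ∀ d : ℤ, d ≠ 0 → |d| < D → ∀ e ∈ Es d, SameOK K d e (Js d e))
    (hJc : ∀ d : ℤ, |d| < D → ∀ e ∈ Ec d, CrossOK K d e (Jc d e))
    (hM : ∀ h : ℤ,
      (∑ d ∈ (Ioo (-(D : ℤ)) D).erase 0,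
        (D - d.natAbs) * ∑ e ∈ Es d, (if comps d e h then Js d e + 2 else 0)) +
      ∑ d ∈ Ioo (-(D : ℤ)) D, (D - d.natAbs) *
        ∑ e ∈ Ec d, ((if compc d e h then Jc d e + 1 else 0) +
          (if compc d e (-h) then Jc d e + 1 else 0)) ≤ M) :
    ((D : ℝ) * (pairs2 A B K H).card) ^ 2 ≤
      ((D : ℝ) * B.card + ∑ k ∈ Ico K (K + H), ((B.filter (fun c => c ≤ 4 * k)).card : ℝ)) *
        (D * (pairs2 A B K H).card + M * (A.card : ℝ) ^ 2) := by
  obtain ⟨g, h1, h2, h3⟩ :=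
    lag2_data A B Es Js comps Ec Jc compc hEE hOO hEO hJs hJc hM
  have key := vdc_family_from B (g := g) (fun b => ((b : ℤ) + 3) / 4) (K := (K : ℤ)) (H := H)
    (D := D) (fun b hb k hk => by
      obtain ⟨q1, q2, q3⟩ := h1 b hb k hk
      exact ⟨q1, q2, by omega⟩)
  rw [h2] at key
  have h4 : ∑ k ∈ Ico (K : ℤ) (K + H), ((B.filter (fun b : ℕ => ((b : ℤ) + 3) / 4 ≤ k)).card : ℝ)
      = ∑ k ∈ Ico K (K + H), ((B.filter (fun c => c ≤ 4 * k)).card : ℝ) := by
    symm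
    refine Finset.sum_bij' (fun (k : ℕ) _ => (k : ℤ)) (fun (k : ℤ) _ => k.toNat)
      ?_ ?_ ?_ ?_ ?_
    · intro k hk
      rw [mem_Ico] at hk ⊢
      omega
    · intro k hk
      rw [mem_Ico] at hk ⊢
      omega
    · intro k _
      simp
    · intro k hk
      rw [mem_Ico] at hk
      exact Int.toNat_of_nonneg (by omega)
    · intro k _
      congr 2
      ext c
      rw [mem_filter, mem_filter]
      constructor
      · rintro ⟨q1, q2⟩
        exact ⟨q1, by omega⟩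
      · rintro ⟨q1, q2⟩
        exact ⟨q1, by omega⟩
  rw [h4] at key
  refine key.trans (mul_le_mul_of_nonneg_left h3 ?_)
  positivity

end Pool.Agent.AddSq
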