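import Pool.Agent.AddSq.Lag1w
import Pool.Agent.AddSq.Lag2w
import Pool.Agent.AddSq.LOneRange
import Pool.Agent.AddSq.Iface

/-!
# The counting lemmas of lag one and lag two for an arbitrary shift length `D`

Polynomial constants, uniform in `D`: `K₀ = 1000 D²`, `S = 4000 D⁴`.
-/

namespace Pool.Agent.AddSq

open Finset

/-- lag one, shift length `D` -/
def LagB1 (D K₀ S : ℕ) : Prop := ∀ (K H : ℕ) (A B : Finset ℕ), K₀ ≤ K →
  ((D : ℝ) * (pairs1 A B K H).card) ^ 2 ≤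
    (D * (A.card : ℝ) + ∑ k ∈ Finset.Ico K (K + H), ((A.filter (fun a => a ≤ 2 * k)).card : ℝ)) *
      (D * (pairs1 A B K H).card + S * (B.card : ℝ) ^ 2)

/-- lag two, shift length `D` -/
def LagB2 (D K₀ S : ℕ) : Prop := ∀ (K H : ℕ) (A B : Finset ℕ), K₀ ≤ K →
  ((D : ℝ) * (pairs2 A B K H).card) ^ 2 ≤
    (D * (B.card : ℝ) + ∑ k ∈ Finset.Ico K (K + H), ((B.filter (fun c => c ≤ 4 * k)).card : ℝ)) *
      (D * (pairs2 A B K H).card + S * (A.card : ℝ) ^ 2)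

namespace LD

/-- the admissible values of `e = m' - m` -/
noncomputable def Ed (d : ℤ) : Finset ℤ :=
  (Icc (⌊Real.sqrt 2 * d⌋ - 1) (⌊Real.sqrt 2 * d⌋ + 2)).filter (fun e => e ≠ 0)

theorem mem_Ed {d e : ℤ} (h0 : e ≠ 0) (h : |Real.sqrt 2 * d - e| < 2) : e ∈ Ed d := by
  rw [abs_lt] at h
  have h1 := Int.floor_le (Real.sqrt 2 * (d : ℝ))
  have h2 := Int.lt_floor_add_one (Real.sqrt 2 * (d : ℝ))
  unfold Ed
  rw [mem_filter, mem_Icc]
  refine ⟨⟨?_, ?_⟩, h0⟩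
  · have h3 : ((⌊Real.sqrt 2 * (d : ℝ)⌋ : ℤ) : ℝ) < e + 2 := by linarith
    have h4 : ⌊Real.sqrt 2 * (d : ℝ)⌋ < e + 2 := by exact_mod_cast h3
    omega
  · have h3 : (e : ℝ) < ((⌊Real.sqrt 2 * (d : ℝ)⌋ : ℤ) : ℝ) + 3 := by linarith
    have h4 : e < ⌊Real.sqrt 2 * (d : ℝ)⌋ + 3 := by exact_mod_cast h3
    omega

theorem card_Ed (d : ℤ) : (Ed d).card ≤ 4 := by
  unfold Ed
  refine (card_filter_le _ _).trans ?_
  rw [Int.card_Icc]
  omega

theorem Ed_ne {d e : ℤ} (h : e ∈ Ed d) : e ≠ 0 := (mem_filter.mp h).2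

theorem Ed_abs {d e : ℤ} (h : e ∈ Ed d) : |Real.sqrt 2 * d - e| ≤ 2 := by
  unfold Ed at h
  rw [mem_filter, mem_Icc] at h
  obtain ⟨⟨h1, h2⟩, _⟩ := h
  have h3 := Int.floor_le (Real.sqrt 2 * (d : ℝ))
  have h4 := Int.lt_floor_add_one (Real.sqrt 2 * (d : ℝ))
  have h5 : ((⌊Real.sqrt 2 * (d : ℝ)⌋ : ℤ) : ℝ) - 1 ≤ e := by exact_mod_cast h1
  have h6 : (e : ℝ) ≤ ((⌊Real.sqrt 2 * (d : ℝ)⌋ : ℤ) : ℝ) + 2 := by exact_mod_cast h2
  rw [abs_le]
  constructor <;> linarith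

theorem abs_sqrt2_mul (d : ℝ) : |Real.sqrt 2 * d| ≤ 1.42 * |d| := by
  rw [abs_mul, abs_of_nonneg (Real.sqrt_nonneg 2)]
  exact mul_le_mul_of_nonneg_right L1.sqrt2_lt.le (abs_nonneg _)

theorem Ed_le {d e : ℤ} (h : e ∈ Ed d) : |(e : ℝ)| ≤ 1.42 * |(d : ℝ)| + 2 := by
  have h1 := Ed_abs h
  have h2 := abs_sqrt2_mul (d : ℝ)
  have h3 : (e : ℝ) = Real.sqrt 2 * d - (Real.sqrt 2 * d - e) := by ring
  calc |(e : ℝ)| = |Real.sqrt 2 * d - (Real.sqrt 2 * d - e)| := by rw [← h3]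
    _ ≤ |Real.sqrt 2 * d| + |Real.sqrt 2 * d - e| := abs_sub _ _
    _ ≤ _ := by linarith

/-- lower bound for the slope -/
theorem slope_low {d e : ℤ} {B : ℝ} (hde : d ≠ 0 ∨ e ≠ 0)
    (hB : |Real.sqrt 2 * (d : ℝ)| + |(e : ℝ)| ≤ B) : 1 ≤ |Real.sqrt 2 * d - e| * B := by
  have hne : 2 * d ^ 2 - e ^ 2 ≠ 0 := by
    intro h
    rcases eq_or_ne d 0 with h0 | h0
    · subst h0
      rcases hde with h1 | h1
      · exact h1 rfl
      · have : e ^ 2 = 0 := by linarith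
        exact h1 (pow_eq_zero_iff (by norm_num) |>.mp this)
    · exact L1.sq_ne h0 (x := e) (by linarith)
  have h1 : (1 : ℝ) ≤ |2 * (d : ℝ) ^ 2 - (e : ℝ) ^ 2| := by
    have : 1 ≤ |2 * d ^ 2 - e ^ 2| := Int.one_le_abs hne
    exact_mod_cast this
  have h2 : 2 * (d : ℝ) ^ 2 - (e : ℝ) ^ 2 = (Real.sqrt 2 * d - e) * (Real.sqrt 2 * d + e) := by
    have := L1.sqrt2_mul
    linear_combination (-(d : ℝ) ^ 2) * this
  rw [h2, abs_mul] at h1
  refine h1.trans (mul_le_mul_of_nonneg_left ?_ (abs_nonneg _))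
  exact (abs_add_le _ _).trans hB

/-- `|2 d² - e²| ≤ |√2 d - e| (|√2 d| + |e|)` -/
theorem quad_le (d e : ℝ) :
    |2 * d ^ 2 - e ^ 2| ≤ |Real.sqrt 2 * d - e| * (|Real.sqrt 2 * d| + |e|) := by
  have h2 : 2 * d ^ 2 - e ^ 2 = (Real.sqrt 2 * d - e) * (Real.sqrt 2 * d + e) := by
    have := L1.sqrt2_mul
    linear_combination (-d ^ 2) * this
  rw [h2, abs_mul]
  exact mul_le_mul_of_nonneg_left (abs_add_le _ _) (abs_nonneg _)

theorem gcd_le {x e : ℤ} (h : e ≠ 0) : ((Int.gcd x e : ℕ) : ℝ) ≤ |(e : ℝ)| := by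
  have h1 : Int.gcd x e ∣ e.natAbs := Int.gcd_dvd_natAbs_right x e
  have h2 : Int.gcd x e ≤ e.natAbs := Nat.le_of_dvd (Int.natAbs_pos.mpr h) h1
  have h3 : ((Int.gcd x e : ℕ) : ℝ) ≤ (e.natAbs : ℝ) := by exact_mod_cast h2
  rwa [Nat.cast_natAbs, Int.cast_abs] at h3

/-! ### lag one -/

theorem abs_lt_D {d : ℤ} {D : ℕ} (h : |d| < D) : |(d : ℝ)| ≤ (D : ℝ) - 1 := by
  have h1 : |d| + 1 ≤ D := by omega
  have h2 : |(d : ℝ)| + 1 ≤ (D : ℝ) := by exact_mod_cast h1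
  linarith

/-- from the slope bound `1 ≤ t (5 D)` and `K ≥ 1000 D²`: `t K ≥ 200 D` -/
theorem tK_ge {t D K : ℝ} (hD : 1 ≤ D) (ht : 1 ≤ t * (5 * D)) (hK : 1000 * D ^ 2 ≤ K) :
    200 * D ≤ t * K := by
  have ht0 : 0 ≤ t := by
    by_contra hc
    push Not at hc
    nlinarith
  have h1 : t * (1000 * D ^ 2) ≤ t * K := mul_le_mul_of_nonneg_left hK ht0
  nlinarith

theorem lag1_num {D K : ℕ} (hD : 1 ≤ D) (hK : 1000 * D ^ 2 ≤ K) {d : ℤ} (hd0 : d ≠ 0)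
    (hd : |d| < D) {e : ℤ} (he : e ∈ Ed d) : e ≠ 0 ∧
      4 * |(d : ℝ)| ≤ |Real.sqrt 2 * d - e| * K ∧
      ((Int.gcd (2 * d) e : ℕ) : ℝ) * K <
        (((20 * D ^ 2 : ℕ) : ℝ) + 1) *
          (2 * |Real.sqrt 2 * d - e| * K - 2 * |(e : ℝ)| - 2 * |(d : ℝ)|) := by
  have h0 := Ed_ne he
  have hDr : (1 : ℝ) ≤ D := by exact_mod_cast hD
  have hKr : 1000 * (D : ℝ) ^ 2 ≤ K := by exact_mod_cast hK
  have hdr := abs_lt_D hd
  have her := Ed_le he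
  have hs := abs_sqrt2_mul (d : ℝ)
  have hd1 := abs_nonneg (d : ℝ)
  have he1 := abs_nonneg (e : ℝ)
  have hslope := slope_low (B := 5 * (D : ℝ)) (Or.inl hd0 : d ≠ 0 ∨ e ≠ 0) (by linarith)
  have hg := gcd_le (x := 2 * d) h0
  set t := |Real.sqrt 2 * (d : ℝ) - e| with ht
  have htK := tK_ge hDr hslope hKr
  have hK0 : (0 : ℝ) < K := by nlinarith
  refine ⟨h0, by linarith, ?_⟩
  set g : ℝ := ((Int.gcd (2 * d) e : ℕ) : ℝ) with hgdef
  have h1 : g * K ≤ 4 * D * K := mul_le_mul_of_nonneg_right (by linarith) hK0.le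
  have h2 : t * K ≤ 2 * t * K - 2 * |(e : ℝ)| - 2 * |(d : ℝ)| := by
    have : 2 * t * K = t * K + t * K := by ring
    linarith
  have h3 : (4 * (D : ℝ) * K) < (((20 * D ^ 2 : ℕ) : ℝ) + 1) * (t * K) := by
    push_cast
    have h4 : (4 * (D : ℝ)) < (20 * (D : ℝ) ^ 2 + 1) * t := by nlinarith
    calc 4 * (D : ℝ) * K < ((20 * (D : ℝ) ^ 2 + 1) * t) * K := mul_lt_mul_of_pos_right h4 hK0
      _ = _ := by ring
  have h5 : (((20 * D ^ 2 : ℕ) : ℝ) + 1) * (t * K) ≤ (((20 * D ^ 2 : ℕ) : ℝ) + 1) *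
      (2 * t * K - 2 * |(e : ℝ)| - 2 * |(d : ℝ)|) :=
    mul_le_mul_of_nonneg_left h2 (by positivity)
  linarith

theorem card_D (D : ℕ) : (Ioo (-(D : ℤ)) D).card ≤ 2 * D := by
  rw [Int.card_Ioo]
  omega

/-- a sum over `d`, `e` of a constant -/
theorem sum_const_le {D n : ℕ} (T : Finset ℤ) (hT : T.card ≤ 2 * D) (F : ℤ → ℤ → ℕ)
    (hF : ∀ d ∈ T, ∀ e ∈ Ed d, F d e ≤ n) :
    ∑ d ∈ T, (D - d.natAbs) * ∑ e ∈ Ed d, F d e ≤ 8 * D ^ 2 * n := by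
  have h1 : ∀ d ∈ T, (D - d.natAbs) * ∑ e ∈ Ed d, F d e ≤ D * (4 * n) := by
    intro d hd
    apply Nat.mul_le_mul (Nat.sub_le _ _)
    calc ∑ e ∈ Ed d, F d e ≤ ∑ _e ∈ Ed d, n := sum_le_sum (hF d hd)
      _ = (Ed d).card * n := by rw [sum_const, smul_eq_mul]
      _ ≤ 4 * n := Nat.mul_le_mul_right n (card_Ed d)
  calc ∑ d ∈ T, (D - d.natAbs) * ∑ e ∈ Ed d, F d e ≤ ∑ _d ∈ T, D * (4 * n) := sum_le_sum h1
    _ = T.card * (D * (4 * n)) := by rw [sum_const, smul_eq_mul]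
    _ ≤ (2 * D) * (D * (4 * n)) := Nat.mul_le_mul_right _ hT
    _ = 8 * D ^ 2 * n := by ring

end LD

open LD in
theorem lagB1 {D : ℕ} (hD : 1 ≤ D) : LagB1 D (1000 * D ^ 2) (4000 * D ^ 4) := by
  classical
  intro K H A B hK
  have hD2 : 1 ≤ D ^ 2 := Nat.one_le_pow _ _ hD
  have hK1 : 1 ≤ K := by omega
  have h := lag1_w (H := H) (D := D) (M := 4000 * D ^ 4) A B hK1 Ed (fun _ _ => 20 * D ^ 2)
    (fun _ _ _ => True)
    (by
      intro d hd0 hd k m m' a b b' h1 h2 h3 h4 s s'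
      refine ⟨?_, trivial⟩
      have hdD : 2 * d ^ 2 ≤ K := by
        have q1 : d ^ 2 ≤ (D : ℤ) ^ 2 := by
          rw [← sq_abs d]
          exact pow_le_pow_left₀ (abs_nonneg d) hd.le 2
        have q2 : 1000 * (D : ℤ) ^ 2 ≤ K := by exact_mod_cast hK
        nlinarith
      have hr := L1.range_real s s' hd0 (by linarith) (by linarith)
      apply mem_Ed
      · intro h0
        have e1 : ((m' : ℝ) - m) = 0 := by
          have : ((m' - m : ℤ) : ℝ) = 0 := by rw [h0]; simp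
          push_cast at this
          exact this
        rw [e1, sub_zero, abs_mul, abs_of_nonneg (Real.sqrt_nonneg 2)] at hr
        have h5 : (1 : ℝ) ≤ |(d : ℝ)| := by exact_mod_cast Int.one_le_abs hd0
        have h6 := L1.one_le_sqrt2
        nlinarith
      · push_cast
        linarith)
    (by
      intro d hd0 hd e he
      exact lag1_num hD hK hd0 hd he)
    (by
      intro h
      refine (sum_const_le _ ((card_erase_le).trans (card_D D)) _ (n := 20 * D ^ 2 + 1)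
        (fun d _ e _ => by simp)).trans ?_
      nlinarith)
  refine h.trans (le_of_eq ?_)
  push_cast
  rfl

/-! ### lag two -/

namespace LD

/-- two points of the strip -/
theorem strip_diff {k m k' m' d : ℤ} (h : |(m : ℝ) - Real.sqrt 2 * k| < 1)
    (h' : |(m' : ℝ) - Real.sqrt 2 * k'| < 1) (hk : k' = k + d) :
    |Real.sqrt 2 * d - ((m' - m : ℤ) : ℝ)| < 2 := by
  subst hk
  push_cast at h' ⊢
  rw [abs_lt] at h h' ⊢
  constructor <;> nlinarith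

theorem same_num {D K : ℕ} (hD : 1 ≤ D) (hK : 1000 * D ^ 2 ≤ K) {d : ℤ} (hd0 : d ≠ 0)
    (hd : |d| < D) {e : ℤ} (he : e ∈ Ed d) : SameOK K d e (40 * D ^ 2) := by
  have h0 := Ed_ne he
  have hDr : (1 : ℝ) ≤ D := by exact_mod_cast hD
  have hKr : 1000 * (D : ℝ) ^ 2 ≤ K := by exact_mod_cast hK
  have hdr := abs_lt_D hd
  have her := Ed_le he
  have hs := abs_sqrt2_mul (d : ℝ)
  have hd1 := abs_nonneg (d : ℝ)
  have he1 := abs_nonneg (e : ℝ)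
  have hslope := slope_low (B := 5 * (D : ℝ)) (Or.inl hd0 : d ≠ 0 ∨ e ≠ 0) (by linarith)
  have hg := gcd_le (x := 2 * d) h0
  have hq := quad_le (d : ℝ) (e : ℝ)
  have ht2 := Ed_abs he
  have hw1 := L1.one_le_sqrt2
  have hw2 := L1.sqrt2_lt
  set w := Real.sqrt 2 with hw
  set t := |w * (d : ℝ) - e| with ht
  have ht0 : 0 ≤ t := abs_nonneg _
  have htK := tK_ge hDr hslope hKr
  have hK0 : (0 : ℝ) < K := by nlinarith
  have hDK : 66 * (D : ℝ) ≤ K := by nlinarith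
  -- the constant
  have hc : 2 * w * (|(e : ℝ)| + |(d : ℝ)|) + 2 * |(d : ℝ)| ≤ 17 * (D : ℝ) := by
    have h1 : w * (|(e : ℝ)| + |(d : ℝ)|) ≤ 1.42 * (|(e : ℝ)| + |(d : ℝ)|) :=
      mul_le_mul_of_nonneg_right hw2.le (by linarith)
    linarith
  have hq2 : |2 * (d : ℝ) ^ 2 - (e : ℝ) ^ 2| ≤ 10 * (D : ℝ) := by
    refine hq.trans ?_
    have h1 : |w * (d : ℝ)| + |(e : ℝ)| ≤ 5 * (D : ℝ) := by linarith
    calc t * (|w * (d : ℝ)| + |(e : ℝ)|) ≤ 2 * (5 * D) :=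
          mul_le_mul ht2 h1 (by positivity) (by norm_num)
      _ = 10 * D := by ring
  set c := 2 * w * (|(e : ℝ)| + |(d : ℝ)|) + 2 * |(d : ℝ)| with hcdef
  have hpos : t * K ≤ 2 * t * K - c := by
    have : 2 * t * K = t * K + t * K := by ring
    linarith
  refine ⟨h0, by linarith, ?_⟩
  set g : ℝ := ((Int.gcd (2 * d) e : ℕ) : ℝ) with hgdef
  have hg0 : 0 ≤ g := Nat.cast_nonneg _
  have hC : 2 + 8 * |(e : ℝ)| + 12 * |(d : ℝ)| + 2 * |2 * (d : ℝ) ^ 2 - (e : ℝ) ^ 2| ≤ K := by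
    linarith
  have h1 : 2 * w * (1 - 2 * t) * K + (2 + 8 * |(e : ℝ)| + 12 * |(d : ℝ)| +
      2 * |2 * (d : ℝ) ^ 2 - (e : ℝ) ^ 2|) ≤ 4 * K := by
    have h2 : 2 * w * (1 - 2 * t) * K ≤ 2.84 * K := by
      apply mul_le_mul_of_nonneg_right _ hK0.le
      have : 0 ≤ w * t := by positivity
      nlinarith
    linarith
  have h2 : g * (2 * w * (1 - 2 * t) * K + (2 + 8 * |(e : ℝ)| + 12 * |(d : ℝ)| +
      2 * |2 * (d : ℝ) ^ 2 - (e : ℝ) ^ 2|)) ≤ (4 * D) * (4 * K) := by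
    refine (mul_le_mul_of_nonneg_left h1 hg0).trans ?_
    exact mul_le_mul_of_nonneg_right (by linarith) (by linarith)
  have h3 : (4 * (D : ℝ)) * (4 * K) < (((40 * D ^ 2 : ℕ) : ℝ) + 1) * (2 * (t * K)) := by
    push_cast
    have h4 : (16 * (D : ℝ)) < (40 * (D : ℝ) ^ 2 + 1) * (2 * t) := by nlinarith
    calc (4 * (D : ℝ)) * (4 * K) = 16 * D * K := by ring
      _ < ((40 * (D : ℝ) ^ 2 + 1) * (2 * t)) * K := mul_lt_mul_of_pos_right h4 hK0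
      _ = _ := by ring
  have h5 : (((40 * D ^ 2 : ℕ) : ℝ) + 1) * (2 * (t * K)) ≤ (((40 * D ^ 2 : ℕ) : ℝ) + 1) *
      (2 * (2 * t * K - c)) :=
    mul_le_mul_of_nonneg_left (by linarith) (by positivity)
  linarith

theorem cross_num {D K : ℕ} (hD : 1 ≤ D) (hK : 1000 * D ^ 2 ≤ K) {d : ℤ}
    (hd : |d| < D) {e : ℤ} (he : e ∈ Ed d) : CrossOK K d e (210 * D ^ 2) := by
  have h0 := Ed_ne he
  have hDr : (1 : ℝ) ≤ D := by exact_mod_cast hD
  have hKr : 1000 * (D : ℝ) ^ 2 ≤ K := by exact_mod_cast hK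
  have hdr := abs_lt_D hd
  have her := Ed_le he
  have hd1 := abs_nonneg (d : ℝ)
  have he1 := abs_nonneg (e : ℝ)
  have hδ : |((d - 1 : ℤ) : ℝ)| ≤ D := by
    push_cast
    have := abs_sub (d : ℝ) 1
    rw [abs_one] at this
    linarith
  have hs := abs_sqrt2_mul ((d - 1 : ℤ) : ℝ)
  have hslope := slope_low (d := d - 1) (B := 5 * (D : ℝ)) (Or.inr h0 : d - 1 ≠ 0 ∨ e ≠ 0)
    (by linarith)
  have hg := gcd_le (x := 2 * (d - 1)) h0
  have hq := quad_le ((d - 1 : ℤ) : ℝ) (e : ℝ)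
  have ht2 := Ed_abs he
  have hw1 := L1.one_le_sqrt2
  have hw2 := L1.sqrt2_lt
  have ht3 : |Real.sqrt 2 * ((d - 1 : ℤ) : ℝ) - e| ≤ 3.42 := by
    have h1 : Real.sqrt 2 * ((d - 1 : ℤ) : ℝ) - e = (Real.sqrt 2 * d - e) - Real.sqrt 2 := by
      push_cast
      ring
    rw [h1]
    refine (abs_sub _ _).trans ?_
    rw [abs_of_nonneg (Real.sqrt_nonneg 2)]
    linarith
  set δ : ℝ := ((d - 1 : ℤ) : ℝ) with hδdef
  set w := Real.sqrt 2 with hw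
  set t := |w * δ - e| with ht
  have ht0 : 0 ≤ t := abs_nonneg _
  have hδ0 : 0 ≤ |δ| := abs_nonneg _
  have htK := tK_ge hDr hslope hKr
  have hK0 : (0 : ℝ) < K := by nlinarith
  have hDK : 66 * (D : ℝ) ≤ K := by nlinarith
  have hq2 : |2 * δ ^ 2 - (e : ℝ) ^ 2| ≤ 12 * (D : ℝ) := by
    refine hq.trans ?_
    have h1 : |w * δ| + |(e : ℝ)| ≤ 3.42 * (D : ℝ) := by linarith
    calc t * (|w * δ| + |(e : ℝ)|) ≤ 3.42 * (3.42 * D) :=
          mul_le_mul ht3 h1 (by positivity) (by norm_num)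
      _ ≤ 12 * D := by nlinarith
  have hpos : t * K ≤ 2 * t * K - 2 * |δ| := by
    have : 2 * t * K = t * K + t * K := by ring
    linarith
  refine ⟨h0, by linarith, ?_⟩
  set g : ℝ := ((Int.gcd (2 * (d - 1)) e : ℕ) : ℝ) with hgdef
  have hg0 : 0 ≤ g := Nat.cast_nonneg _
  have hC : 5 + 6 * |(e : ℝ)| + 4 * |(d : ℝ)| + 2 * |2 * δ ^ 2 - (e : ℝ) ^ 2| ≤ K := by
    linarith
  have h1 : (4 * w * t - 4 + 2 * w) * K + (5 + 6 * |(e : ℝ)| + 4 * |(d : ℝ)| +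
      2 * |2 * δ ^ 2 - (e : ℝ) ^ 2|) ≤ 20.5 * K := by
    have h2 : (4 * w * t - 4 + 2 * w) * K ≤ 19.5 * K := by
      apply mul_le_mul_of_nonneg_right _ hK0.le
      have h3 : w * t ≤ 1.42 * 3.42 := mul_le_mul hw2.le ht3 ht0 (by norm_num)
      nlinarith
    linarith
  have h2 : g * ((4 * w * t - 4 + 2 * w) * K + (5 + 6 * |(e : ℝ)| + 4 * |(d : ℝ)| +
      2 * |2 * δ ^ 2 - (e : ℝ) ^ 2|)) ≤ (4 * D) * (20.5 * K) := by
    refine (mul_le_mul_of_nonneg_left h1 hg0).trans ?_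
    exact mul_le_mul_of_nonneg_right (by linarith) (by linarith)
  have h3 : (4 * (D : ℝ)) * (20.5 * K) < (((210 * D ^ 2 : ℕ) : ℝ) + 1) * (2 * (t * K)) := by
    push_cast
    have h4 : (82 * (D : ℝ)) < (210 * (D : ℝ) ^ 2 + 1) * (2 * t) := by nlinarith
    calc (4 * (D : ℝ)) * (20.5 * K) = 82 * D * K := by ring
      _ < ((210 * (D : ℝ) ^ 2 + 1) * (2 * t)) * K := mul_lt_mul_of_pos_right h4 hK0
      _ = _ := by ring
  have h5 : (((210 * D ^ 2 : ℕ) : ℝ) + 1) * (2 * (t * K)) ≤ (((210 * D ^ 2 : ℕ) : ℝ) + 1) *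
      (2 * (2 * t * K - 2 * |δ|)) :=
    mul_le_mul_of_nonneg_left (by linarith) (by positivity)
  linarith

/-- `e ≠ 0`, both even -/
theorem ne_EE {D K : ℕ} (hD : 1 ≤ D) (hK : 1000 * D ^ 2 ≤ K) {d : ℤ} (hd0 : d ≠ 0)
    (hd : |d| < D) {k m m' a a' b : ℤ} (h1 : K ≤ k) (s : SolE k m a b)
    (s' : SolE (k + d) m' a' b) : m' - m ≠ 0 := by
  intro h0
  have hl := s.line s' h0
  have a1 := s.sol.a_nonneg
  have a2 := s.sol.a_le
  have a3 := s'.sol.a_nonneg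
  have a4 := s'.sol.a_le
  have hdD := abs_lt.mp hd
  have hDK : 1000 * (D : ℤ) ^ 2 ≤ K := by exact_mod_cast hK
  have hD' : (1 : ℤ) ≤ D := by exact_mod_cast hD
  have hkD : 1000 * (D : ℤ) ≤ k := by nlinarith
  rcases lt_or_gt_of_ne hd0 with hn | hp
  · nlinarith
  · nlinarith

/-- `e ≠ 0`, both odd -/
theorem ne_OO {D K : ℕ} (hD : 1 ≤ D) (hK : 1000 * D ^ 2 ≤ K) {d : ℤ} (hd0 : d ≠ 0)
    (hd : |d| < D) {k m m' a a' b : ℤ} (h1 : K ≤ k) (s : SolO k m a b)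
    (s' : SolO (k + d) m' a' b) : m' - m ≠ 0 := by
  intro h0
  have hl := s.line s' h0
  have a1 := s.sol.a_nonneg
  have a2 := s.sol.a_le
  have a3 := s'.sol.a_nonneg
  have a4 := s'.sol.a_le
  have hdD := abs_lt.mp hd
  have hDK : 1000 * (D : ℤ) ^ 2 ≤ K := by exact_mod_cast hK
  have hD' : (1 : ℤ) ≤ D := by exact_mod_cast hD
  have hkD : 1000 * (D : ℤ) ≤ k := by nlinarith
  rcases lt_or_gt_of_ne hd0 with hn | hp
  · nlinarith
  · nlinarith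

/-- `e ≠ 0`, even then odd -/
theorem ne_EO {D K : ℕ} (hD : 1 ≤ D) (hK : 1000 * D ^ 2 ≤ K) {d : ℤ}
    (hd : |d| < D) {k m m' a a' b : ℤ} (h1 : K ≤ k) (s : SolE k m a b)
    (s' : SolO (k + d) m' a' b) : m' - m ≠ 0 := by
  intro h0
  have hl := s.line_cross s' h0
  have a1 := s.sol.a_nonneg
  have a2 := s.sol.a_le
  have a3 := s'.sol.a_nonneg
  have a4 := s'.sol.a_le
  have hdD := abs_lt.mp hd
  have hDK : 1000 * (D : ℤ) ^ 2 ≤ K := by exact_mod_cast hK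
  have hD' : (1 : ℤ) ≤ D := by exact_mod_cast hD
  have hkD : 1000 * (D : ℤ) ≤ k := by nlinarith
  rcases lt_trichotomy d 1 with hn | he | hp
  · nlinarith
  · subst he
    have e1 : a' = a - 1 := by linarith
    have e2 : m' = m := by linarith
    subst e1 e2
    have b1 := s.sol.b_nonneg
    have b2 := s.sol.b_eq
    have b3 := s'.sol.b_le
    have b4 := s.sol.m_nonneg
    unfold Q at b2
    nlinarith
  · nlinarith

end LD

open LD in
theorem lagB2 {D : ℕ} (hD : 1 ≤ D) : LagB2 D (1000 * D ^ 2) (4000 * D ^ 4) := by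
  classical
  intro K H A B hK
  have hD2 : 1 ≤ D ^ 2 := Nat.one_le_pow _ _ hD
  have h := lag2w (K := K) (H := H) (D := D) (M := 4000 * D ^ 4) A B Ed (fun _ _ => 40 * D ^ 2)
    (fun _ _ _ => True) Ed (fun _ _ => 210 * D ^ 2) (fun _ _ _ => True)
    (by
      intro d hd0 hd k m m' a a' b h1 h2 h3 h4 s s'
      exact ⟨mem_Ed (ne_EE hD hK hd0 hd h1 s s') (strip_diff s.sol.strip s'.sol.strip rfl),
        trivial⟩)
    (by
      intro d hd0 hd k m m' a a' b h1 h2 h3 h4 s s'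
      exact ⟨mem_Ed (ne_OO hD hK hd0 hd h1 s s') (strip_diff s.sol.strip s'.sol.strip rfl),
        trivial⟩)
    (by
      intro d hd k m m' a a' b h1 h2 h3 h4 s s'
      exact ⟨mem_Ed (ne_EO hD hK hd h1 s s') (strip_diff s.sol.strip s'.sol.strip rfl),
        trivial⟩)
    (fun d hd0 hd e he => same_num hD hK hd0 hd he)
    (fun d hd e he => cross_num hD hK hd he)
    (by
      intro h
      have q1 := sum_const_le (D := D) ((Ioo (-(D : ℤ)) D).erase 0)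
        ((card_erase_le).trans (card_D D))
        (fun _ _ => if True then 40 * D ^ 2 + 2 else 0) (n := 40 * D ^ 2 + 2)
        (fun d _ e _ => by simp)
      have q2 := sum_const_le (D := D) (Ioo (-(D : ℤ)) D) (card_D D)
        (fun _ _ => (if True then 210 * D ^ 2 + 1 else 0) + (if True then 210 * D ^ 2 + 1 else 0))
        (n := 420 * D ^ 2 + 2) (fun d _ e _ => by simp; omega)
      refine (Nat.add_le_add q1 q2).trans ?_
      nlinarith)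
  exact h

end Pool.Agent.AddSq
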