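import Pool.Agent.AddSq.Lag2Inst
import Pool.Agent.AddSq.Lag2w

/-!
# Lag two: `LagBound2 5000000 S` from the finite certificates
-/

namespace Pool.Agent.AddSq

open Finset

theorem lagBound2_of {S : ℕ} (hact : ActiveCert2 S) (hs : NumSame) (hc : NumCross) :
    LagBound2 5000000 S := by
  classical
  intro K H A B hK hH
  exact lag2w A B (D := 110) (M := S) Es2 Js2 (comps2 K) Ec2 Jc2 (compc2 K)
    (fun d hd0 hd k m m' a a' b h1 h2 _ _ s s' => range_EE hK hH hd0 hd h1 h2 s s')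
    (fun d hd0 hd k m m' a a' b h1 h2 _ _ s s' => range_OO hK hH hd0 hd h1 h2 s s')
    (fun d hd k m m' a a' b h1 h2 _ _ s s' => range_EO hK hH hd h1 h2 s s')
    (fun d hd0 hd => hJs2 hs hK hd0 hd) (fun d hd => hJc2 hc hK hd) (fun h => hM2 hact hK h)

end Pool.Agent.AddSq
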