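import Pool.Agent.AddSq.Block

/-!
# Leaves: supersets of the wins and of the lost positions of one block

`LL w l d` contains the lost positions of a block, `WW w l d` the wins, if `w` contains all
wins and `l` all lost positions below a bound `R`.  The closure lemma `closure_win_lost`
starts the induction from a literal table.
-/

namespace Pool.Agent.AddSq

theorem Sup.mono' {f : ℕ → ℕ → ℕ → ℕ} {P Q : ℕ → Prop} {B : ℕ} (h : Sup f P B)
    (hQ : ∀ n, 1 ≤ n → Q n → P n) : Sup f Q B := by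
  intro p u len i h1 h2 h3 h4 h5
  refine h p u len i h1 h2 h3 h4 (hQ _ ?_ h5)
  have : 1 * 1 ≤ p * p := Nat.mul_le_mul h1 h1
  omega

theorem Sup.anti {f : ℕ → ℕ → ℕ → ℕ} {P : ℕ → Prop} {B B' : ℕ} (h : Sup f P B)
    (hB : B' ≤ B) : Sup f P B' :=
  fun p u len i h1 h2 h3 h4 h5 => h p u len i h1 (h2.trans hB) h3 h4 h5

/-- lost positions, depth `r₀, …, r_{2d}` -/
noncomputable def LL (w l : ℕ) (d : ℕ) : ℕ → ℕ → ℕ → ℕ :=
  @Nat.rec (fun _ => ℕ → ℕ → ℕ → ℕ) (seg w)
    (fun _ f => fa (seg w) (nx (fo (seg l) (nx f)))) d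

/-- wins, depth `r₀, …, r_{2d+1}` -/
noncomputable def WW (w l : ℕ) (d : ℕ) : ℕ → ℕ → ℕ → ℕ :=
  fo (seg l) (nx (LL w l d))

theorem LL_zero (w l : ℕ) : LL w l 0 = seg w := rfl

theorem LL_succ (w l d : ℕ) : LL w l (d + 1) = fa (seg w) (nx (WW w l d)) := rfl

/-- bound for the last block -/
def last (B : ℕ) : ℕ → ℕ
  | 0 => B
  | e + 1 => last ((3 * B + 3) / 2) e

theorem le_last (e : ℕ) : ∀ B, B ≤ last B e := by
  induction e with
  | zero => intro B; exact le_rfl
  | succ e ih =>
    intro B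
    have := ih ((3 * B + 3) / 2)
    change _ ≤ last ((3 * B + 3) / 2) e
    omega

/-- The tables `w`, `l` contain the predicates `W`, `L` below `R`. -/
def Tab (w l : ℕ) (W L : ℕ → Prop) (R : ℕ) : Prop :=
  (∀ n < R, W n → w.testBit n = true) ∧ (∀ n < R, L n → l.testBit n = true)

/-- the rules used -/
structure Rules (W L : ℕ → Prop) : Prop where
  win : ∀ n, 1 ≤ n → W n → L (rem n) ∨ L (up n)
  lost : ∀ n, 1 ≤ n → L n → W (rem n) ∧ W (up n)

theorem sup_LL_WW {w l R : ℕ} {W L : ℕ → Prop} (hT : Tab w l W L R) (hR : Rules W L) (d : ℕ) :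
    (∀ B L', (∀ n, 1 ≤ n → L' n → W (rem n) ∧ W (up n)) → 2 * last B (2 * d) + 1 ≤ R →
      last B (2 * d) ≤ 2 ^ 31 → Sup (LL w l d) L' B) ∧
    (∀ B, 2 * last B (2 * d + 1) + 1 ≤ R → last B (2 * d + 1) ≤ 2 ^ 31 →
      Sup (WW w l d) W B) := by
  have stepW : ∀ d, (∀ B, 2 * last B (2 * d) + 1 ≤ R → last B (2 * d) ≤ 2 ^ 31 →
      Sup (LL w l d) L B) → (∀ B, 2 * last B (2 * d + 1) + 1 ≤ R →
      last B (2 * d + 1) ≤ 2 ^ 31 → Sup (WW w l d) W B) := by
    intro d h B h1 h2
    have hl := le_last (2 * d + 1) B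
    have e : last B (2 * d + 1) = last ((3 * B + 3) / 2) (2 * d) := rfl
    have hl2 := le_last (2 * d) ((3 * B + 3) / 2)
    rw [e] at h1 h2 hl
    refine Sup.mono' (sup_fo (sup_seg (T := L) hT.2 (by omega))
      (sup_nx (h _ h1 h2) (by omega) (by omega))) ?_
    intro n hn hw
    exact hR.win n hn hw
  induction d with
  | zero =>
    have h0 : ∀ B L', (∀ n, 1 ≤ n → L' n → W (rem n) ∧ W (up n)) →
        2 * last B (2 * 0) + 1 ≤ R → last B (2 * 0) ≤ 2 ^ 31 → Sup (LL w l 0) L' B := by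
      intro B L' hL' h1 h2
      rw [LL_zero]
      have e : last B (2 * 0) = B := rfl
      rw [e] at h1 h2
      exact Sup.mono' (sup_seg (T := W) hT.1 h1) (fun n hn hl => (hL' n hn hl).1)
    exact ⟨h0, stepW 0 (fun B h1 h2 => h0 B L hR.lost h1 h2)⟩
  | succ d ih =>
    have h0 : ∀ B L', (∀ n, 1 ≤ n → L' n → W (rem n) ∧ W (up n)) →
        2 * last B (2 * (d + 1)) + 1 ≤ R → last B (2 * (d + 1)) ≤ 2 ^ 31 →
        Sup (LL w l (d + 1)) L' B := by
      intro B L' hL' h1 h2
      rw [LL_succ]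
      have e : last B (2 * (d + 1)) = last ((3 * B + 3) / 2) (2 * d + 1) := rfl
      rw [e] at h1 h2
      have hl := le_last (2 * d + 1) ((3 * B + 3) / 2)
      refine Sup.mono' (sup_fa (sup_seg (T := W) hT.1 (by omega))
        (sup_nx (ih.2 _ h1 h2) (by omega) (by omega))) ?_
      intro n hn hl
      exact hL' n hn hl
    exact ⟨h0, stepW (d + 1) (fun B h1 h2 => h0 B L hR.lost h1 h2)⟩

theorem rules_win_lost : Rules Win Lost where
  win n _ h := (win_iff.mp h).2
  lost n hn h := by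
    rcases lost_iff.mp h with h0 | h0
    · omega
    · exact h0

theorem rules_graded (t : ℕ) :
    Rules (fun n => ∃ s < t, WinIn s n) (fun n => ∃ s < t, LostIn s n) where
  win n hn h := by
    obtain ⟨s, hs, hw⟩ := h
    rcases (winIn_iff.mp hw).2 with h1 | h1
    · exact Or.inl ⟨s, hs, h1⟩
    · exact Or.inr ⟨s, hs, h1⟩
  lost n hn h := by
    obtain ⟨s, hs, hl⟩ := h
    cases s with
    | zero =>
      have : n = 0 := hl
      omega
    | succ s =>
      rcases lostIn_succ_iff.mp hl with h0 | ⟨h0, h1⟩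
      · omega
      · exact ⟨⟨s, by omega, h0⟩, ⟨s, by omega, h1⟩⟩

/-- Closed tables contain all wins and all lost positions. -/
theorem closure_win_lost {w l K d : ℕ} (hK : 2 * last K (2 * d + 1) + 1 ≤ K * K)
    (hK2 : last K (2 * d + 1) ≤ 2 ^ 31) (h0 : l.testBit 0 = true)
    (hL : ∀ p, 1 ≤ p → p < K → ∀ i ≤ 2 * p,
      (LL w l d p 0 (2 * p + 1)).testBit i = true → l.testBit (p * p + i) = true)
    (hW : ∀ p, 1 ≤ p → p < K → ∀ i ≤ 2 * p,
      (WW w l d p 0 (2 * p + 1)).testBit i = true → w.testBit (p * p + i) = true) :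
    Tab w l Win Lost (K * K) := by
  have hlast := le_last (2 * d + 1) K
  have elast : last K (2 * d + 1) = last ((3 * K + 3) / 2) (2 * d) := rfl
  have hlast2 := le_last (2 * d) ((3 * K + 3) / 2)
  have blk : ∀ n, 1 ≤ n → n < K * K → ∃ p i, 1 ≤ p ∧ p < K ∧ i ≤ 2 * p ∧ n = p * p + i := by
    intro n h1 h2
    refine ⟨Nat.sqrt n, n - Nat.sqrt n * Nat.sqrt n, Nat.sqrt_pos.mpr h1, ?_, ?_, ?_⟩
    · exact Nat.sqrt_lt.mpr h2
    · have := Nat.sqrt_le_add n
      omega
    · have := Nat.sqrt_le n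
      omega
  have key : ∀ t, (∀ n < K * K, WinIn t n → w.testBit n = true) ∧
      (∀ n < K * K, LostIn t n → l.testBit n = true) := by
    intro t
    induction t using Nat.strong_induction_on with
    | _ t ih =>
      have hT : Tab w l (fun n => ∃ s < t, WinIn s n) (fun n => ∃ s < t, LostIn s n)
          (K * K) := by
        refine ⟨?_, ?_⟩
        · rintro n hn ⟨s, hs, h⟩
          exact (ih s hs).1 n hn h
        · rintro n hn ⟨s, hs, h⟩
          exact (ih s hs).2 n hn h
      have hR := rules_graded t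
      have hl' : ∀ n, 1 ≤ n → LostIn t n →
          (∃ s < t, WinIn s (rem n)) ∧ (∃ s < t, WinIn s (up n)) := by
        intro n hn h
        cases t with
        | zero =>
          have : n = 0 := h
          omega
        | succ t =>
          rcases lostIn_succ_iff.mp h with h0 | ⟨h0, h1⟩
          · omega
          · exact ⟨⟨t, by omega, h0⟩, ⟨t, by omega, h1⟩⟩
      have hs := (sup_LL_WW hT hR d).1
      have hlostAll : ∀ n < K * K, LostIn t n → l.testBit n = true := by
        intro n hn h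
        rcases Nat.eq_zero_or_pos n with h1 | h1
        · subst h1; exact h0
        · obtain ⟨p, i, hp1, hp2, hi, rfl⟩ := blk n h1 hn
          apply hL p hp1 hp2 i hi
          have hsup : Sup (LL w l d) (LostIn t) ((3 * K + 3) / 2) :=
            hs _ _ hl' (by omega) (by omega)
          exact hsup p 0 (2 * p + 1) i hp1 (by omega) (by omega) (by omega)
            (by simpa using h)
      refine ⟨?_, hlostAll⟩
      intro n hn h
      have h1 := (winIn_iff.mp h).1
      obtain ⟨p, i, hp1, hp2, hi, rfl⟩ := blk n h1 hn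
      apply hW p hp1 hp2 i hi
      have hsup : Sup (WW w l d) (WinIn t) K := by
        refine Sup.mono' (sup_fo (sup_seg (T := LostIn t) hlostAll (by omega))
          (sup_nx (hs ((3 * K + 3) / 2) (LostIn t) hl' (by omega) (by omega))
            (by omega) (by omega))) ?_
        intro n _ hw
        exact (winIn_iff.mp hw).2
      exact hsup p 0 (2 * p + 1) i hp1 (by omega) (by omega) (by omega) (by simpa using h)
  exact ⟨fun n hn ⟨t, h⟩ => (key t).1 n hn h, fun n hn ⟨t, h⟩ => (key t).2 n hn h⟩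

end Pool.Agent.AddSq
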