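import Pool.Agent.AddSq.Assemble
import Pool.Agent.AddSq.Forced

/-!
# The rate `C x / (log x) ^ 2` (block E of MP_006ce8_co)

Once the densities are tiny, one step (from `[M, X]` to `[M ^ 2, X ^ 2 / 32]`) contracts them by
the factor `1 / 4`.
-/

namespace Pool.Agent.AddSq

open Finset

theorem Contr.mono {c₁ c₂ c₃ c₄ c₁' c₂' c₃' c₄' u b p q lam : ℝ}
    (h : Contr c₁ c₂ c₃ c₄ u b p q lam) (h1 : 0 ≤ c₁') (h2 : 0 ≤ c₂') (h3 : 0 ≤ c₃')
    (h4 : 0 ≤ c₄') (g1 : c₁' ≤ c₁) (g2 : c₂' ≤ c₂) (g3 : c₃' ≤ c₃) (g4 : c₄' ≤ c₄) :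
    Contr c₁' c₂' c₃' c₄' u b p q lam where
  hc1 := h1
  hc2 := h2
  hc3 := h3
  hc4 := h4
  hu := h.hu
  hb := h.hb
  hp := h.hp
  hq := h.hq
  hl0 := h.hl0
  hl1 := h.hl1
  hp2 := by
    refine le_trans (add_le_add ?_ ?_) h.hp2
    · exact mul_le_mul_of_nonneg_right (mul_le_mul_of_nonneg_right g1 h.hu.le) h.hp.le
    · exact mul_le_mul_of_nonneg_right (mul_le_mul_of_nonneg_right g2 h.hu.le) (sq_nonneg b)
  hq2 := by
    refine le_trans (add_le_add ?_ ?_) h.hq2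
    · exact mul_le_mul_of_nonneg_right (mul_le_mul_of_nonneg_right g3 h.hu.le) h.hq.le
    · exact mul_le_mul_of_nonneg_right g4 (pow_nonneg h.hu.le 3)
  hP := h.hP
  hu' := h.hu'
  hb' := h.hb'

/-- For tiny densities the contraction factor is `1 / 4`. -/
theorem contr_fast :
    Contr 0.01137 6.69 0.02274 7.40 0.000004 0.00000064 0.0000000476 0.0000000964 (1 / 4) := by
  constructor <;> norm_num

/-- Two phases: from level `j0` on the faster contraction is used. -/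
theorem two_phase {c₁ c₂ c₃ c₄ u b p q lam u' b' p' q' lam' : ℝ}
    (hc : Contr c₁ c₂ c₃ c₄ u b p q lam) (hc' : Contr c₁ c₂ c₃ c₄ u' b' p' q' lam')
    {cW cL : ℕ → ℕ} (hstep : StepThm c₁ c₂ c₃ c₄ cW cL) {M Y : ℕ} (hMY : M ≤ Y)
    (hM : 10 ^ 9 ≤ (p + q) * (M : ℝ)) (hM2 : 1 ≤ lam * (M : ℝ))
    (hv : ValidF cW cL M (32 * Y) u b) {j0 : ℕ} (hj0 : 1 ≤ j0)
    (hu : u * lam ^ j0 ≤ u') (hb : b * lam ^ j0 ≤ b')
    (hM3 : 10 ^ 9 ≤ (p' + q') * (M : ℝ) ^ 2) (hM4 : 1 ≤ lam' * (M : ℝ)) (j x : ℕ)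
    (hx1 : M ^ 2 ^ (j0 + j) ≤ x) (hx2 : x ≤ 32 * Y ^ 2 ^ (j0 + j)) :
    ((cW x + cL x : ℕ) : ℝ) ≤ (u' + b') * lam' ^ j * x := by
  have hM1 : (1 : ℝ) ≤ M := by
    rcases Nat.eq_zero_or_pos M with h0 | h0
    · subst h0
      norm_num at hM4
    · exact_mod_cast h0
  have h2 : 2 ≤ 2 ^ j0 := by
    calc 2 = 2 ^ 1 := (pow_one 2).symm
      _ ≤ 2 ^ j0 := Nat.pow_le_pow_right (by norm_num) hj0
  have hbig : (M : ℝ) ^ 2 ≤ ((M ^ 2 ^ j0 : ℕ) : ℝ) := by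
    push_cast
    exact pow_le_pow_right₀ hM1 h2
  have hbig2 : (M : ℝ) ≤ ((M ^ 2 ^ j0 : ℕ) : ℝ) := by
    refine le_trans ?_ hbig
    nlinarith
  have hv' := (levels hc hstep hMY hM hM2 hv j0).1.mono hu hb (le_refl (32 * Y ^ 2 ^ j0))
  have hpq : 0 ≤ p' + q' := (add_pos hc'.hp hc'.hq).le
  refine few_on_intervals hc' hstep (Nat.pow_le_pow_left hMY (2 ^ j0))
    (hM3.trans (mul_le_mul_of_nonneg_left hbig hpq))
    (hM4.trans (mul_le_mul_of_nonneg_left hbig2 hc'.hl0.le)) hv' j x ?_ ?_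
  · rw [← pow_mul, ← pow_add]
    exact hx1
  · rw [← pow_mul, ← pow_add]
    exact hx2

/-- Conversion of the geometric decay along the levels to the decay `(log x) ^ (- 2)`. -/
theorem log_rate {P : ℕ → Prop} {M Y j0 : ℕ} {w : ℝ} (hw : w ≤ 1) (hY : 1 ≤ Y)
    (h : ∀ j x : ℕ, M ^ 2 ^ (j0 + j) ≤ x → x ≤ 32 * Y ^ 2 ^ (j0 + j) →
      (x : ℝ) - cnt P x ≤ w * (1 / 4) ^ j * x)
    (k x : ℕ) (hx1 : M ^ 2 ^ k ≤ x) (hx2 : x ≤ 32 * Y ^ 2 ^ k) (hx : 2 ≤ x) :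
    (x : ℝ) - cnt P x ≤ 4 ^ j0 * Real.log (32 * Y) ^ 2 * x / Real.log x ^ 2 := by
  have hx0 : (2 : ℝ) ≤ x := by exact_mod_cast hx
  have hlx : 0 < Real.log x := Real.log_pos (by linarith)
  have hY1 : (1 : ℝ) ≤ Y := by exact_mod_cast hY
  have hL0 : 0 < Real.log (32 * Y) := Real.log_pos (by linarith)
  have hl1 : Real.log x ≤ 2 ^ k * Real.log (32 * Y) := by
    have h1 : (x : ℝ) ≤ (32 * Y) ^ 2 ^ k := by
      have h2 : (x : ℝ) ≤ 32 * (Y : ℝ) ^ 2 ^ k := by exact_mod_cast hx2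
      refine h2.trans ?_
      rw [mul_pow]
      refine mul_le_mul_of_nonneg_right ?_ (by positivity)
      calc (32 : ℝ) = 32 ^ 1 := (pow_one _).symm
        _ ≤ 32 ^ 2 ^ k := pow_le_pow_right₀ (by norm_num) Nat.one_le_two_pow
    calc Real.log x ≤ Real.log ((32 * Y) ^ 2 ^ k) := Real.log_le_log (by linarith) h1
      _ = 2 ^ k * Real.log (32 * Y) := by
        rw [Real.log_pow]
        push_cast
        ring
  have hl2 : Real.log x ^ 2 ≤ 4 ^ k * Real.log (32 * Y) ^ 2 := by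
    have h1 := pow_le_pow_left₀ hlx.le hl1 2
    refine h1.trans (le_of_eq ?_)
    have h4 : (4 : ℝ) ^ k = (2 ^ k) ^ 2 := by
      rw [← pow_mul, mul_comm k 2, pow_mul]
      norm_num
    rw [h4]
    ring
  rw [le_div_iff₀ (pow_pos hlx 2)]
  have hc0 : (0 : ℝ) ≤ (x : ℝ) - cnt P x := by
    have : (cnt P x : ℝ) ≤ x := by exact_mod_cast cnt_le P x
    linarith
  have hL2 : 0 ≤ Real.log (32 * Y) ^ 2 := sq_nonneg _
  rcases lt_or_ge k j0 with hk | hk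
  · have h1 : (x : ℝ) - cnt P x ≤ x := by
      have : (0 : ℝ) ≤ cnt P x := Nat.cast_nonneg _
      linarith
    have h2 : (4 : ℝ) ^ k ≤ 4 ^ j0 := pow_le_pow_right₀ (by norm_num) hk.le
    calc ((x : ℝ) - cnt P x) * Real.log x ^ 2 ≤ x * Real.log x ^ 2 :=
          mul_le_mul_of_nonneg_right h1 (sq_nonneg _)
      _ ≤ x * (4 ^ k * Real.log (32 * Y) ^ 2) :=
          mul_le_mul_of_nonneg_left hl2 (by linarith)
      _ ≤ x * (4 ^ j0 * Real.log (32 * Y) ^ 2) :=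
          mul_le_mul_of_nonneg_left (mul_le_mul_of_nonneg_right h2 hL2) (by linarith)
      _ = 4 ^ j0 * Real.log (32 * Y) ^ 2 * x := by ring
  · obtain ⟨j, rfl⟩ := Nat.exists_eq_add_of_le hk
    have h1 := h j x hx1 hx2
    have h2 : (x : ℝ) - cnt P x ≤ (1 / 4) ^ j * x := by
      refine h1.trans (mul_le_mul_of_nonneg_right ?_ (by linarith))
      exact mul_le_of_le_one_left (by positivity) hw
    have h3 : (1 / 4 : ℝ) ^ j * 4 ^ (j0 + j) = 4 ^ j0 := by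
      rw [pow_add, mul_comm (4 ^ j0 : ℝ), ← mul_assoc, ← mul_pow]
      norm_num
    calc ((x : ℝ) - cnt P x) * Real.log x ^ 2 ≤ ((1 / 4) ^ j * x) * Real.log x ^ 2 :=
          mul_le_mul_of_nonneg_right h2 (sq_nonneg _)
      _ ≤ ((1 / 4) ^ j * x) * (4 ^ (j0 + j) * Real.log (32 * Y) ^ 2) :=
          mul_le_mul_of_nonneg_left hl2 (by positivity)
      _ = ((1 / 4 : ℝ) ^ j * 4 ^ (j0 + j)) * Real.log (32 * Y) ^ 2 * x := by ring
      _ = 4 ^ j0 * Real.log (32 * Y) ^ 2 * x := by rw [h3]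

/-- If the intervals overlap, all large `x` are covered. -/
theorem rate_all {P : ℕ → Prop} {M Y j0 : ℕ} {w : ℝ} (hw : w ≤ 1) (hM : 2 ≤ M)
    (hMY : M ^ 2 ≤ Y)
    (h : ∀ j x : ℕ, M ^ 2 ^ (j0 + j) ≤ x → x ≤ 32 * Y ^ 2 ^ (j0 + j) →
      (x : ℝ) - cnt P x ≤ w * (1 / 4) ^ j * x) (x : ℕ) (hx : 2 ≤ x) :
    (x : ℝ) - cnt P x ≤ 4 ^ j0 * Real.log (32 * Y) ^ 2 * x / Real.log x ^ 2 := by
  have hY : 1 ≤ Y := le_trans (Nat.one_le_pow _ _ (by omega)) hMY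
  rcases lt_or_ge x M with hxM | hxM
  · -- small `x`
    have hx0 : (2 : ℝ) ≤ x := by exact_mod_cast hx
    have hlx : 0 < Real.log x := Real.log_pos (by linarith)
    rw [le_div_iff₀ (pow_pos hlx 2)]
    have h1 : (x : ℝ) - cnt P x ≤ x := by
      have : (0 : ℝ) ≤ cnt P x := Nat.cast_nonneg _
      linarith
    have h2 : Real.log x ≤ Real.log (32 * Y) := by
      apply Real.log_le_log (by linarith)
      have : x ≤ 32 * Y := by nlinarith
      exact_mod_cast this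
    have h3 : Real.log x ^ 2 ≤ Real.log (32 * Y) ^ 2 := pow_le_pow_left₀ hlx.le h2 2
    have h4 : (1 : ℝ) ≤ 4 ^ j0 := one_le_pow₀ (by norm_num)
    calc ((x : ℝ) - cnt P x) * Real.log x ^ 2 ≤ x * Real.log x ^ 2 :=
          mul_le_mul_of_nonneg_right h1 (sq_nonneg _)
      _ ≤ x * Real.log (32 * Y) ^ 2 := mul_le_mul_of_nonneg_left h3 (by linarith)
      _ = 1 * (Real.log (32 * Y) ^ 2 * x) := by ring
      _ ≤ 4 ^ j0 * (Real.log (32 * Y) ^ 2 * x) :=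
          mul_le_mul_of_nonneg_right h4 (mul_nonneg (sq_nonneg _) (by linarith))
      _ = 4 ^ j0 * Real.log (32 * Y) ^ 2 * x := by ring
  · -- `x` lies in some interval
    have hex : ∃ k, x < M ^ 2 ^ (k + 1) := by
      refine ⟨x, ?_⟩
      calc x < 2 ^ x := Nat.lt_two_pow_self
        _ ≤ 2 ^ 2 ^ (x + 1) := Nat.pow_le_pow_right (by norm_num)
            ((Nat.lt_two_pow_self (n := x)).le.trans (Nat.pow_le_pow_right (by norm_num)
              (Nat.le_succ x)))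
        _ ≤ M ^ 2 ^ (x + 1) := Nat.pow_le_pow_left hM _
    classical
    have hk := Nat.find_spec hex
    set k := Nat.find hex with hkdef
    have hk1 : M ^ 2 ^ k ≤ x := by
      rcases Nat.eq_zero_or_pos k with h0 | h0
      · rw [h0]
        simpa using hxM
      · by_contra hcon
        push Not at hcon
        have h3 : ¬ (x < M ^ 2 ^ ((k - 1) + 1)) := Nat.find_min hex (by omega)
        rw [Nat.sub_add_cancel h0] at h3
        exact h3 hcon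
    have hk2 : x ≤ 32 * Y ^ 2 ^ k := by
      have h1 : M ^ 2 ^ (k + 1) = (M ^ 2) ^ 2 ^ k := by rw [pow_succ, mul_comm, pow_mul]
      have h2 : (M ^ 2) ^ 2 ^ k ≤ Y ^ 2 ^ k := Nat.pow_le_pow_left hMY _
      rw [h1] at hk
      omega
    exact log_rate hw hY h k x hk1 hk2 hx

end Pool.Agent.AddSq
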