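import Pool.Agent.AddSq.RecGrid

/-!
# The recursion for the densities: the final check of a state

If the check `finE u b M X` accepts a correct state, then for all `1 ≤ x ≤ X` the wins up to `x`
number at most `(u/10000) max(x, √(x M))` and the lost positions at most
`(b/10000) max(x, √(x M))`.
-/

namespace Pool.Agent.AddSq.Rec

/-- `a ≤ (u / 10000) max(x, √(x M))` -/
def okB (u M x a : ℕ) : Bool :=
  @Bool.rec (fun _ => Bool)
    (Nat.ble (Nat.mul 100000000 (Nat.mul a a)) (Nat.mul (Nat.mul u u) (Nat.mul x M)))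
    true (Nat.ble (Nat.mul 10000 a) (Nat.mul u x))

theorem okB_spec {u M x a : ℕ} (h : okB u M x a = true) :
    10000 * a ≤ u * x ∨ 100000000 * (a * a) ≤ (u * u) * (x * M) := by
  unfold okB at h
  cases hb : Nat.ble (Nat.mul 10000 a) (Nat.mul u x) with
  | true => exact Or.inl (Nat.le_of_ble_eq_true hb)
  | false =>
    rw [hb] at h
    exact Or.inr (Nat.le_of_ble_eq_true h)

theorem real_of_ok {u M x a : ℕ}
    (h : 10000 * a ≤ u * x ∨ 100000000 * (a * a) ≤ (u * u) * (x * M)) :
    (a : ℝ) ≤ (u : ℝ) / 10000 * max (x : ℝ) (Real.sqrt ((x : ℝ) * M)) := by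
  rcases h with h | h
  · have h1 : (10000 : ℝ) * a ≤ u * x := by exact_mod_cast h
    have h2 : (x : ℝ) ≤ max (x : ℝ) (Real.sqrt ((x : ℝ) * M)) := le_max_left _ _
    have h3 : (u : ℝ) * x ≤ u * max (x : ℝ) (Real.sqrt ((x : ℝ) * M)) :=
      mul_le_mul_of_nonneg_left h2 (Nat.cast_nonneg u)
    linarith
  · have h1 : (100000000 : ℝ) * (a * a) ≤ (u * u) * (x * M) := by exact_mod_cast h
    have h2 : Real.sqrt ((x : ℝ) * M) ≤ max (x : ℝ) (Real.sqrt ((x : ℝ) * M)) := le_max_right _ _
    have h3 : (u : ℝ) * Real.sqrt ((x : ℝ) * M) ≤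
      u * max (x : ℝ) (Real.sqrt ((x : ℝ) * M)) :=
      mul_le_mul_of_nonneg_left h2 (Nat.cast_nonneg u)
    have h4 : (10000 : ℝ) * a ≤ u * Real.sqrt ((x : ℝ) * M) := by
      have h5 : (u : ℝ) * Real.sqrt ((x : ℝ) * M) = Real.sqrt ((u * u) * (x * M)) := by
        rw [Real.sqrt_mul (show (0 : ℝ) ≤ (u : ℝ) * u by positivity),
          Real.sqrt_mul_self (Nat.cast_nonneg u)]
      rw [h5]
      apply Real.le_sqrt_of_sq_le
      nlinarith
    linarith

/-- the two bounds at `x` -/
def Good (cW cL : ℕ → ℕ) (u b M x : ℕ) : Prop :=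
  (cW x : ℝ) ≤ (u : ℝ) / 10000 * max (x : ℝ) (Real.sqrt ((x : ℝ) * M)) ∧
  (cL x : ℝ) ≤ (b : ℝ) / 10000 * max (x : ℝ) (Real.sqrt ((x : ℝ) * M))

theorem max_mono {x y M : ℕ} (h : x ≤ y) : max (x : ℝ) (Real.sqrt ((x : ℝ) * M)) ≤
    max (y : ℝ) (Real.sqrt ((y : ℝ) * M)) := by
  have h1 : (x : ℝ) ≤ y := by exact_mod_cast h
  refine max_le_max h1 (Real.sqrt_le_sqrt ?_)
  exact mul_le_mul_of_nonneg_right h1 (Nat.cast_nonneg M)

/-- condition for two neighbouring entries -/
def okE (u b M p : ℕ) (t : Ent) : Bool :=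
  @Bool.rec (fun _ => Bool) false
    (@Bool.rec (fun _ => Bool) false (okB b M p t.2.2) (okB u M p t.2.1)) (Nat.ble p t.1)

theorem okE_spec {u b M p : ℕ} {t : Ent} (h : okE u b M p t = true) :
    p ≤ t.1 ∧ okB u M p t.2.1 = true ∧ okB b M p t.2.2 = true := by
  unfold okE at h
  cases h1 : Nat.ble p t.1 with
  | false => rw [h1] at h; exact absurd h (by simp)
  | true =>
    rw [h1] at h
    cases h2 : okB u M p t.2.1 with
    | false => rw [h2] at h; exact absurd h (by simp)
    | true =>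
      rw [h2] at h
      exact ⟨Nat.le_of_ble_eq_true h1, rfl, h⟩

/-- check of all neighbouring entries -/
def chkP (u b M : ℕ) (l : List Ent) : ℕ → Bool :=
  @List.rec Ent (fun _ => ℕ → Bool) (fun _ => true)
    (fun t _ ih p => @Bool.rec (fun _ => Bool) false (ih t.1) (okE u b M p t)) l

theorem chkP_spec {cW cL : ℕ → ℕ} (mW : Monotone cW) (mL : Monotone cL) {u b M : ℕ} :
    ∀ (l : List Ent) (p : ℕ), VS cW cL l → Good cW cL u b M p → chkP u b M l p = true →
    ∀ x, p ≤ x → x ≤ lastX l p → Good cW cL u b M x := by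
  intro l
  induction l with
  | nil =>
    intro p _ hg _ x h1 h2
    have h3 : x ≤ p := h2
    have : x = p := le_antisymm h3 h1
    rw [this]
    exact hg
  | cons t l ih =>
    intro p hv hg hc x h1 h2
    have hc' : @Bool.rec (fun _ => Bool) false (chkP u b M l t.1) (okE u b M p t) = true := hc
    cases hb : okE u b M p t with
    | false => rw [hb] at hc'; exact absurd hc' (by simp)
    | true =>
      rw [hb] at hc'
      obtain ⟨e1, e2, e3⟩ := okE_spec hb
      obtain ⟨v1, v2⟩ := hv t List.mem_cons_self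
      have key : ∀ x, p ≤ x → x ≤ t.1 → Good cW cL u b M x := by
        intro x h1 h3
        have f1 : (cW x : ℝ) ≤ t.2.1 := by exact_mod_cast (mW h3).trans v1
        have f2 : (cL x : ℝ) ≤ t.2.2 := by exact_mod_cast (mL h3).trans v2
        have g1 := real_of_ok (okB_spec e2)
        have g2 := real_of_ok (okB_spec e3)
        have g3 := max_mono (M := M) h1
        refine ⟨f1.trans (g1.trans ?_), f2.trans (g2.trans ?_)⟩
        · exact mul_le_mul_of_nonneg_left g3 (by positivity)
        · exact mul_le_mul_of_nonneg_left g3 (by positivity)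
      rcases Nat.le_total x t.1 with h3 | h3
      · exact key x h1 h3
      · exact ih t.1 (fun s hs => hv s (List.mem_cons_of_mem _ hs)) (key t.1 e1 le_rfl)
          hc' x h3 h2

/-- the final check with the scale `M` for the interval `[1, X]` -/
def finE (u b M X : ℕ) (S : List Ent) : Bool :=
  frc M fun M =>
    @List.rec Ent (fun _ => Bool) false (fun t l _ =>
      @Bool.rec (fun _ => Bool) false
        (@Bool.rec (fun _ => Bool) false
          (@Bool.rec (fun _ => Bool) false
            (@Bool.rec (fun _ => Bool) false (chkP u b M l t.1)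
              (Nat.ble (Nat.mul 100000000 (Nat.add t.1 3)) (Nat.mul (Nat.mul b b) M)))
            (Nat.ble (Nat.mul 100000000 t.1) (Nat.mul (Nat.mul u u) M)))
          (Nat.ble 1 t.1))
        (Nat.ble X (lastX l t.1))) S

theorem rec_and {a b : Bool} (h : @Bool.rec (fun _ => Bool) false a b = true) :
    b = true ∧ a = true := by
  cases b
  · exact absurd h (by simp)
  · exact ⟨rfl, h⟩

theorem finE_spec {S1 S2 K0 : ℕ} {cW cL : ℕ → ℕ} (hs : SysW S1 S2 K0 cW cL) {u b M X : ℕ}
    {S : List Ent} (hv : VS cW cL S) (h : finE u b M X S = true) :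
    ∀ x : ℕ, 1 ≤ x → x ≤ X → Good cW cL u b M x := by
  unfold finE at h
  rw [frc_eq] at h
  cases S with
  | nil => exact absurd h (by simp)
  | cons t l =>
    have h' := h
    obtain ⟨a1, h1⟩ := rec_and h'
    obtain ⟨a2, h2⟩ := rec_and h1
    obtain ⟨a3, h3⟩ := rec_and h2
    obtain ⟨a4, h4⟩ := rec_and h3
    have b1 : X ≤ lastX l t.1 := Nat.le_of_ble_eq_true a1
    have b2 : 1 ≤ t.1 := Nat.le_of_ble_eq_true a2
    have b3 : 100000000 * t.1 ≤ (u * u) * M := Nat.le_of_ble_eq_true a3
    have b4 : 100000000 * (t.1 + 3) ≤ (b * b) * M := Nat.le_of_ble_eq_true a4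
    have low : ∀ x, 1 ≤ x → x ≤ t.1 → Good cW cL u b M x := by
      intro x h5 h6
      constructor
      · have f1 : (cW x : ℝ) ≤ (x : ℕ) := by exact_mod_cast hs.leW x
        refine f1.trans (real_of_ok (Or.inr ?_))
        have : 100000000 * x ≤ u * u * M := by omega
        calc 100000000 * (x * x) = (100000000 * x) * x := by ring
          _ ≤ (u * u * M) * x := Nat.mul_le_mul_right _ this
          _ = _ := by ring
      · have f1 : (cL x : ℝ) ≤ ((x + 1 : ℕ) : ℝ) := by exact_mod_cast hs.leL x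
        refine f1.trans (real_of_ok (Or.inr ?_))
        have e1 : 100000000 * (x + 3) ≤ b * b * M := by omega
        have e2 : (x + 1) * (x + 1) ≤ (x + 3) * x := by nlinarith
        calc 100000000 * ((x + 1) * (x + 1)) ≤ 100000000 * ((x + 3) * x) :=
              Nat.mul_le_mul_left _ e2
          _ = (100000000 * (x + 3)) * x := by ring
          _ ≤ (b * b * M) * x := Nat.mul_le_mul_right _ e1
          _ = _ := by ring
    intro x h5 h6
    rcases Nat.le_total x t.1 with h7 | h7
    · exact low x h5 h7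
    · exact chkP_spec hs.monoW hs.monoL l t.1 (fun s hs' => hv s (List.mem_cons_of_mem _ hs'))
        (low t.1 b2 le_rfl) h4 x h7 (h6.trans b1)

/-- The numeric theorem: correct data and an accepted computation give the flat bounds. -/
theorem good_of_run {S1 S2 K0 : ℕ} {cW cL : ℕ → ℕ} (hs : SysW S1 S2 K0 cW cL)
    {u b M X : ℕ} {ns : List (ℕ × ℕ × ℕ)} {d : List (ℕ × ℕ)} (hd : DV cL d)
    (h : run S1 S2 K0 (finE u b M X) ns d = true) :
    ∀ x : ℕ, 1 ≤ x → x ≤ X → Good cW cL u b M x := by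
  obtain ⟨S, h1, h2⟩ := run_spec hs hd h
  exact finE_spec hs h1 h2

/-- the same in the form of `ValidF` -/
theorem validF_of_run {S1 S2 K0 : ℕ} {cW cL : ℕ → ℕ} (hs : SysW S1 S2 K0 cW cL)
    {M X : ℕ} {ns : List (ℕ × ℕ × ℕ)} {d : List (ℕ × ℕ)} (hd : DV cL d)
    (h : run S1 S2 K0 (finE 55 18 M X) ns d = true) :
    ValidF cW cL M X 0.0055 0.0018 := by
  intro x hx hx'
  have e1 : ((55 : ℕ) : ℝ) / 10000 = 0.0055 := by norm_num
  have e2 : ((18 : ℕ) : ℝ) / 10000 = 0.0018 := by norm_num
  have h := good_of_run hs hd h x hx hx'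
  unfold Good at h
  rw [e1, e2] at h
  exact h

end Pool.Agent.AddSq.Rec
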