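import Pool.Agent.AddSq.PhaseBMath
import Pool.Agent.AddSq.RecFin

/-!
# The recursion for densities on intervals `[2 ^ e, 2 ^ e')`: the program

A queue of entries `lo, hi, u, b`: on `[2^lo, 2^hi)` the wins have density at most `u/Q` and the
losses at most `b/Q`.  One step takes the first interval `[2^e, 2^e1)` of the queue and appends
the interval `[2^(2ep), 2^(2e))`, where `ep` is the exponent before `e`.  `runB` makes `n` steps,
`finB` is the final check.  Main theorem: `validF_of_run`.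
-/

set_option autoImplicit false

namespace Pool.Agent.AddSq.PB

open Finset Rec

/-- entries `lo, hi, u, b` -/
abbrev E4 := ℕ × ℕ × ℕ × ℕ

/-- correct entries -/
def VE (Q : ℕ) (cW cL : ℕ → ℕ) (l : List E4) : Prop :=
  ∀ t ∈ l, SegD Q cW cL t.1 t.2.1 t.2.2.1 t.2.2.2

/-- maximum -/
def mx (a b : ℕ) : ℕ := @Bool.rec (fun _ => ℕ) a b (Nat.ble a b)

theorem mx_cases (a b : ℕ) : (mx a b = a ∧ b ≤ a) ∨ (mx a b = b ∧ a ≤ b) := by
  unfold mx
  cases hb : Nat.ble a b with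
  | true => exact Or.inr ⟨rfl, Nat.le_of_ble_eq_true hb⟩
  | false =>
    refine Or.inl ⟨rfl, ?_⟩
    by_contra hc
    have := Nat.ble_eq_true_of_le (show a ≤ b by omega)
    rw [hb] at this
    exact absurd this (by simp)

theorem le_mx_left (a b : ℕ) : a ≤ mx a b := by
  rcases mx_cases a b with h | h <;> omega

theorem le_mx_right (a b : ℕ) : b ≤ mx a b := by
  rcases mx_cases a b with h | h <;> omega

/-- check and continue -/
def chk (c k : Bool) : Bool := @Bool.rec (fun _ => Bool) false k c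

theorem chk_spec {c k : Bool} (h : chk c k = true) : c = true ∧ k = true := rec_and h

theorem chk_le {a b : ℕ} {k : Bool} (h : chk (Nat.ble a b) k = true) : a ≤ b ∧ k = true :=
  ⟨Nat.le_of_ble_eq_true (chk_spec h).1, (chk_spec h).2⟩

/-- a number near the positive root of `D P² = A P + C` -/
def root (D A C : ℕ) : ℕ :=
  frcN (Nat.add (Nat.mul A A) (Nat.mul 4 (Nat.mul D C))) fun v =>
  frcN (su v (Nat.pow 2 (Nat.succ (Nat.div (Nat.log2 v) 2)))) fun w =>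
  Nat.succ (Nat.div (Nat.add A w) (Nat.mul 2 D))

/-- append `t` -/
def snoc (t : E4) (L : List E4) : (List E4 → Bool) → Bool :=
  @List.rec E4 (fun _ => (List E4 → Bool) → Bool) (fun k => k [t])
    (fun a _ ih k => ih (fun l => k (a :: l))) L

theorem snoc_eq (t : E4) : ∀ (L : List E4) (k : List E4 → Bool), snoc t L k = k (L ++ [t]) := by
  intro L
  induction L with
  | nil => intro k; rfl
  | cons a L ih =>
    intro k
    have e : snoc t (a :: L) k = snoc t L (fun l => k (a :: l)) := rfl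
    rw [e, ih]
    rfl

/-- the type of the continuations -/
abbrev Cont := ℕ → ℕ → ℕ → ℕ → ℕ → ℕ → List E4 → List E4 → Bool

/-- the last part of a step: append the new interval (if there is one) -/
def push (k : Cont) (e _s _β ep mp bp e1 s1 β1 m1 b1 : ℕ) (H L : List E4) : Bool :=
  @Bool.rec (fun _ => Bool)
    (frc (Nat.mul 2 ep) fun lo => frc (Nat.mul 2 e) fun hi =>
      frc (Nat.add mp (Nat.mul 2 (mx bp b1))) fun u =>
      snoc (lo, hi, u, bp) L fun L' => k e1 s1 β1 e m1 b1 H L')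
    (k e1 s1 β1 e m1 b1 H L)
    (Nat.ble e ep)

/-- the middle part of a step: the numbers of the new interval -/
def mid (p : Par) (k : Cont) (e s β ep mp bp e1 U B : ℕ) (H L : List E4) : Bool :=
  frc (root (Nat.mul 10000 (Nat.mul p.q1 p.Q)) (Nat.mul (Nat.mul (Nat.succ p.g) U)
    (Nat.mul p.r1 p.Q)) (Nat.mul (Nat.mul (Nat.succ p.g) U) (Nat.mul p.t1 (Nat.mul 8
    (Nat.mul B B))))) fun P =>
  frc (root (Nat.mul 10000 (Nat.mul p.q2 p.Q)) (Nat.mul (Nat.mul (Nat.mul 2 (Nat.succ p.g)) U)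
    (Nat.mul p.r2 p.Q)) (Nat.mul (Nat.mul (Nat.mul 2 (Nat.succ p.g)) U) (Nat.mul p.t2 (Nat.mul 4
    (Nat.mul U U))))) fun T =>
  chk (Nat.ble 1 P) <| chk (Nat.ble 1 T) <|
  chk (Nat.ble (Nat.mul (Nat.mul (Nat.add p.g 1) U) (Nat.add (Nat.mul (Nat.mul p.r1 p.Q) P)
    (Nat.mul p.t1 (Nat.mul 8 (Nat.mul B B)))))
    (Nat.mul (Nat.mul (Nat.mul 10000 p.q1) p.Q) (Nat.mul P P))) <|
  chk (Nat.ble (Nat.mul (Nat.mul (Nat.mul 2 (Nat.add p.g 1)) U)
    (Nat.add (Nat.mul (Nat.mul p.r2 p.Q) T) (Nat.mul p.t2 (Nat.mul 4 (Nat.mul U U)))))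
    (Nat.mul (Nat.mul (Nat.mul 10000 p.q2) p.Q) (Nat.mul T T))) <|
  frc (Nat.mul 10000 (Nat.add P T)) fun PT =>
  frc (Nat.add (Nat.mul (Nat.sub 10001 p.g) β) PT) fun v =>
  frc (Nat.succ (mx (Nat.div v 10000) (Nat.div PT (Nat.sub p.g 1)))) fun β1 =>
  chk (Nat.ble v (Nat.mul 10000 β1)) <|
  chk (Nat.ble (Nat.add PT β1) (Nat.mul p.g β1)) <|
  chk (Nat.ble β1 p.Q) <|
  frc (Nat.pow 4 (Nat.sub e1 e)) fun m4 =>
  frc (Nat.add s (Nat.mul B (Nat.sub m4 1))) fun v2 =>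
  frc (Nat.succ (Nat.div v2 m4)) fun s1 =>
  chk (Nat.ble v2 (Nat.mul s1 m4)) <|
  frc (mx s B) fun m =>
  chk (Nat.ble m p.Q) <|
  frc (Nat.succ m) fun m1 => frc (Nat.succ β1) fun b1 =>
  push k e s β ep mp bp e1 s1 β1 m1 b1 H L

/-- one step -/
def body (p : Par) (k : Cont) (e s β ep mp bp : ℕ) (H : List E4) (t t' : E4) (L : List E4) :
    Bool :=
  frc t.2.1 fun e1 =>
  chk (Nat.ble t.1 e) <| chk (Nat.ble (Nat.add e 2) e1) <| chk (Nat.ble t'.1 e1) <|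
  chk (Nat.ble (Nat.add e1 2) t'.2.1) <|
  frc (mx t.2.2.1 t'.2.2.1) fun U => frc (mx t.2.2.2 t'.2.2.2) fun B =>
  mid p k e s β ep mp bp e1 U B (t :: H) L

/-- one step of the queue -/
def stepB (p : Par) (k : Cont) : Cont := fun e s β ep mp bp H L =>
  @List.rec E4 (fun _ => Bool) false
    (fun t L1 _ => @List.rec E4 (fun _ => Bool) false
      (fun t' _ _ => body p k e s β ep mp bp H t t' L1) L1) L

/-- `n` steps -/
def runB (p : Par) (fin : ℕ → List E4 → List E4 → Bool) (n : ℕ) : Cont :=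
  @Nat.rec (fun _ => Cont) (fun e _ _ _ _ _ H L => fin e H L) (fun _ ih => stepB p ih) n

/-! ### correctness of a step -/

theorem segD_union {Q : ℕ} {cW cL : ℕ → ℕ} {e e1 f : ℕ} {t t' : E4}
    (h : SegD Q cW cL t.1 t.2.1 t.2.2.1 t.2.2.2) (h' : SegD Q cW cL t'.1 t'.2.1 t'.2.2.1 t'.2.2.2)
    (h1 : t.1 ≤ e) (h2 : t.2.1 = e1) (h3 : t'.1 ≤ e1) (h4 : t'.2.1 = f) :
    SegD Q cW cL e f (mx t.2.2.1 t'.2.2.1) (mx t.2.2.2 t'.2.2.2) := by
  intro x x1 x2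
  subst h2 h4
  rcases Nat.lt_or_ge x (2 ^ t.2.1) with hx | hx
  · obtain ⟨a, b⟩ := h x ((Nat.pow_le_pow_right (by norm_num) h1).trans x1) hx
    exact ⟨a.trans (Nat.mul_le_mul_right _ (le_mx_left _ _)),
      b.trans (Nat.mul_le_mul_right _ (le_mx_left _ _))⟩
  · obtain ⟨a, b⟩ := h' x ((Nat.pow_le_pow_right (by norm_num) h3).trans hx) x2
    exact ⟨a.trans (Nat.mul_le_mul_right _ (le_mx_right _ _)),
      b.trans (Nat.mul_le_mul_right _ (le_mx_right _ _))⟩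

/-- the invariant -/
structure Inv (Q : ℕ) (cW cL : ℕ → ℕ) (e s β ep mp bp : ℕ) (H L : List E4) : Prop where
  st : St Q cL e s β ep mp bp
  vH : VE Q cW cL H
  vL : VE Q cW cL L

/-- the fixed hypotheses -/
structure Hyp (p : Par) (δ K0 : ℕ) (cW cL : ℕ → ℕ) (e0 : ℕ) : Prop where
  sys : WinP p δ K0 cW cL
  hQ : 0 < p.Q
  hq1 : 0 < p.q1
  hq2 : 0 < p.q2
  hg : p.g ≤ 10000
  hK : K0 ≤ 2 ^ e0
  hδ : 20000 * δ ≤ 2 ^ e0
  hQe : 4 * p.Q ≤ 2 ^ e0

theorem push_spec {p : Par} {δ K0 : ℕ} {cW cL : ℕ → ℕ} {e0 : ℕ} (h : Hyp p δ K0 cW cL e0)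
    {k : Cont} {e s β ep mp bp e1 s1 β1 m1 b1 : ℕ} {H L : List E4}
    (h0 : St p.Q cL e s β ep mp bp) (h1 : St p.Q cL e1 s1 β1 e m1 b1) (he : e + 1 ≤ e1)
    (vH : VE p.Q cW cL H) (vL : VE p.Q cW cL L)
    (ht : push k e s β ep mp bp e1 s1 β1 m1 b1 H L = true) :
    ∃ L', Inv p.Q cW cL e1 s1 β1 e m1 b1 H L' ∧ k e1 s1 β1 e m1 b1 H L' = true := by
  unfold push at ht
  cases hb : Nat.ble e ep with
  | true =>
    rw [hb] at ht
    exact ⟨L, ⟨h1, vH, vL⟩, ht⟩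
  | false =>
    rw [hb] at ht
    have ht' : (frc (Nat.mul 2 ep) fun lo => frc (Nat.mul 2 e) fun hi =>
      frc (Nat.add mp (Nat.mul 2 (mx bp b1))) fun u =>
      snoc (lo, hi, u, bp) L fun L' => k e1 s1 β1 e m1 b1 H L') = true := ht
    rw [frc_eq, frc_eq, frc_eq, snoc_eq] at ht'
    refine ⟨_, ⟨h1, vH, ?_⟩, ht'⟩
    intro t ht
    rw [List.mem_append] at ht
    rcases ht with ht | ht
    · exact vL t ht
    · rw [List.mem_singleton] at ht
      rw [ht]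
      exact seg_new h.sys h0 h1 he (le_mx_left _ _) (le_mx_right _ _)

theorem mid_spec {p : Par} {δ K0 : ℕ} {cW cL : ℕ → ℕ} {e0 : ℕ} (h : Hyp p δ K0 cW cL e0)
    {k : Cont} {e s β ep mp bp e1 f U B : ℕ} {H L : List E4} (he0 : e0 ≤ e)
    (h0 : St p.Q cL e s β ep mp bp) (he1 : e + 2 ≤ e1) (hf : e1 + 2 ≤ f)
    (hs : SegD p.Q cW cL e f U B)
    (vH : VE p.Q cW cL H) (vL : VE p.Q cW cL L)
    (ht : mid p k e s β ep mp bp e1 U B H L = true) :
    ∃ s1 β1 m1 b1 L', Inv p.Q cW cL e1 s1 β1 e m1 b1 H L' ∧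
      k e1 s1 β1 e m1 b1 H L' = true := by
  have hpow : 2 ^ e0 ≤ 2 ^ e := Nat.pow_le_pow_right (by norm_num) he0
  unfold mid at ht
  rw [frc_eq, frc_eq] at ht
  obtain ⟨a1, ht⟩ := chk_le ht
  obtain ⟨a2, ht⟩ := chk_le ht
  obtain ⟨a3, ht⟩ := chk_le ht
  obtain ⟨a4, ht⟩ := chk_le ht
  rw [frc_eq, frc_eq, frc_eq] at ht
  obtain ⟨a5, ht⟩ := chk_le ht
  obtain ⟨a6, ht⟩ := chk_le ht
  obtain ⟨a7, ht⟩ := chk_le ht
  rw [frc_eq, frc_eq, frc_eq] at ht
  obtain ⟨a8, ht⟩ := chk_le ht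
  rw [frc_eq] at ht
  obtain ⟨a9, ht⟩ := chk_le ht
  rw [frc_eq, frc_eq] at ht
  have hK := h.hK
  have hδ := h.hδ
  have hQe := h.hQe
  have key := st_step h.sys h.hQ h.hq1 h.hq2 h.hg h0 hs ⟨a1, a2, a3, a4⟩ (hK.trans hpow)
    (hδ.trans hpow) he1 hf a5 a6 a8 (by omega) (m := mx s B) (by omega) (le_mx_left _ _)
    (le_mx_right _ _)
  obtain ⟨L', q1, q2⟩ := push_spec h h0 key (by omega) vH vL ht
  exact ⟨_, _, _, _, L', q1, q2⟩

theorem stepB_spec {p : Par} {δ K0 : ℕ} {cW cL : ℕ → ℕ} {e0 : ℕ} (h : Hyp p δ K0 cW cL e0)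
    {k : Cont} {e s β ep mp bp : ℕ} {H L : List E4} (he0 : e0 ≤ e)
    (hi : Inv p.Q cW cL e s β ep mp bp H L) (ht : stepB p k e s β ep mp bp H L = true) :
    ∃ e1 s1 β1 m1 b1 H' L', e ≤ e1 ∧ Inv p.Q cW cL e1 s1 β1 e m1 b1 H' L' ∧
      k e1 s1 β1 e m1 b1 H' L' = true := by
  obtain ⟨h0, vH, vL⟩ := hi
  cases L with
  | nil => exact absurd ht (by simp [stepB])
  | cons t L1 =>
    cases L1 with
    | nil => exact absurd ht (by simp [stepB])
    | cons t' L2 =>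
      have ht' : body p k e s β ep mp bp H t t' (t' :: L2) = true := ht
      unfold body at ht'
      rw [frc_eq] at ht'
      obtain ⟨a1, ht'⟩ := chk_le ht'
      obtain ⟨a2, ht'⟩ := chk_le ht'
      obtain ⟨a3, ht'⟩ := chk_le ht'
      obtain ⟨a4, ht'⟩ := chk_le ht'
      rw [frc_eq, frc_eq] at ht'
      have vt := vL t List.mem_cons_self
      have vt' := vL t' (List.mem_cons_of_mem _ List.mem_cons_self)
      have hs := segD_union (e := e) (e1 := t.2.1) (f := t'.2.1) vt vt' a1 rfl a3 rfl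
      obtain ⟨s1, β1, m1, b1, L', q1, q2⟩ := mid_spec h he0 h0 a2 a4 hs (H := t :: H)
        (L := t' :: L2) (by
          intro q hq
          rcases List.mem_cons.mp hq with h1 | h1
          · rw [h1]; exact vt
          · exact vH q h1)
        (fun q hq => vL q (List.mem_cons_of_mem _ hq)) ht'
      have a2' : e + 2 ≤ t.2.1 := a2
      exact ⟨t.2.1, s1, β1, m1, b1, _, L', by omega, q1, q2⟩

theorem runB_spec {p : Par} {δ K0 : ℕ} {cW cL : ℕ → ℕ} {e0 : ℕ} (h : Hyp p δ K0 cW cL e0)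
    {fin : ℕ → List E4 → List E4 → Bool} : ∀ (n : ℕ) {e s β ep mp bp : ℕ} {H L : List E4},
    e0 ≤ e → Inv p.Q cW cL e s β ep mp bp H L → runB p fin n e s β ep mp bp H L = true →
    ∃ e' H' L', VE p.Q cW cL H' ∧ VE p.Q cW cL L' ∧ fin e' H' L' = true := by
  intro n
  induction n with
  | zero =>
    intro e s β ep mp bp H L _ hi ht
    exact ⟨e, H, L, hi.vH, hi.vL, ht⟩
  | succ n ih =>
    intro e s β ep mp bp H L he hi ht
    have ht' : stepB p (runB p fin n) e s β ep mp bp H L = true := ht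
    obtain ⟨e1, s1, β1, m1, b1, H', L', q1, q2, q3⟩ := stepB_spec h he hi ht'
    exact ih (he.trans q1) q2 q3

/-! ### the final check -/

/-- the entry is good for the scale `2^a` and the bounds `uf`, `bf` (`UF`, `BF` the squares) -/
def goodE (a UF BF : ℕ) (t : E4) : Bool :=
  frc (Nat.pow 2 (Nat.sub a t.2.1)) fun m =>
  chk (Nat.ble (Nat.mul t.2.2.1 t.2.2.1) (Nat.mul UF m))
    (Nat.ble (Nat.mul t.2.2.2 t.2.2.2) (Nat.mul BF m))

/-- the queue -/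
def chkL (a UF BF c : ℕ) (L : List E4) : ℕ → Bool :=
  @List.rec E4 (fun _ => ℕ → Bool) (fun q => Nat.ble (Nat.succ c) q)
    (fun t _ ih q => chk (Nat.ble t.1 q) (chk (goodE a UF BF t) (ih t.2.1))) L

/-- the history -/
def chkH (Q a UF BF : ℕ) (H : List E4) : ℕ → Bool :=
  @List.rec E4 (fun _ => ℕ → Bool)
    (fun q => chk (Nat.ble (Nat.mul (Nat.mul Q Q) (Nat.pow 2 q)) (Nat.mul UF (Nat.pow 2 a)))
      (Nat.ble (Nat.mul 4 (Nat.mul (Nat.mul Q Q) (Nat.pow 2 q))) (Nat.mul BF (Nat.pow 2 a))))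
    (fun t _ ih q => chk (Nat.ble q t.2.1) (chk (goodE a UF BF t) (ih t.1))) H

/-- the final check -/
def finB (Q a c uf bf : ℕ) (e : ℕ) (H L : List E4) : Bool :=
  frc (Nat.mul uf uf) fun UF => frc (Nat.mul bf bf) fun BF =>
  chk (chkL a UF BF c L e) (chkH Q a UF BF H e)

/-- one bound -/
def G1 (Q a uf x v : ℕ) : Prop :=
  Q * v ≤ uf * x ∨ (Q * v) * (Q * v) ≤ (uf * uf) * (x * 2 ^ a)

theorem g1_real {Q a uf x v : ℕ} (hQ : 0 < Q) (h : G1 Q a uf x v) :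
    (v : ℝ) ≤ (uf : ℝ) / Q * max (x : ℝ) (Real.sqrt ((x : ℝ) * ((2 ^ a : ℕ) : ℝ))) := by
  have hQr : (0 : ℝ) < Q := by exact_mod_cast hQ
  rw [div_mul_eq_mul_div, le_div_iff₀ hQr]
  rcases h with h | h
  · have h1 : (Q : ℝ) * v ≤ uf * x := by exact_mod_cast h
    have h3 : (uf : ℝ) * x ≤ uf * max (x : ℝ) (Real.sqrt ((x : ℝ) * ((2 ^ a : ℕ) : ℝ))) :=
      mul_le_mul_of_nonneg_left (le_max_left _ _) (Nat.cast_nonneg uf)
    linarith
  · have h1 : ((Q : ℝ) * v) * (Q * v) ≤ (uf * uf) * (x * ((2 ^ a : ℕ) : ℝ)) := by exact_mod_cast h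
    have h3 : (uf : ℝ) * Real.sqrt ((x : ℝ) * ((2 ^ a : ℕ) : ℝ)) ≤
      uf * max (x : ℝ) (Real.sqrt ((x : ℝ) * ((2 ^ a : ℕ) : ℝ))) :=
      mul_le_mul_of_nonneg_left (le_max_right _ _) (Nat.cast_nonneg uf)
    have h4 : (Q : ℝ) * v ≤ uf * Real.sqrt ((x : ℝ) * ((2 ^ a : ℕ) : ℝ)) := by
      have h5 : (uf : ℝ) * Real.sqrt ((x : ℝ) * ((2 ^ a : ℕ) : ℝ)) =
          Real.sqrt ((uf * uf) * (x * ((2 ^ a : ℕ) : ℝ))) := by
        rw [Real.sqrt_mul (show (0 : ℝ) ≤ (uf : ℝ) * uf by positivity),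
          Real.sqrt_mul_self (Nat.cast_nonneg uf)]
      rw [h5]
      apply Real.le_sqrt_of_sq_le
      nlinarith
    linarith

theorem g1_of {Q a uf x v u hi : ℕ} (hx : x < 2 ^ hi) (h : Q * v ≤ u * x)
    (hu : u * u ≤ (uf * uf) * 2 ^ (a - hi)) : G1 Q a uf x v := by
  rcases Nat.le_total hi a with hc | hc
  · right
    have h1 := Nat.mul_le_mul h h
    have h2 : 2 ^ a = 2 ^ (a - hi) * 2 ^ hi := by
      rw [← pow_add]
      congr 1
      omega
    calc Q * v * (Q * v) ≤ u * x * (u * x) := h1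
      _ = (u * u) * (x * x) := by ring
      _ ≤ ((uf * uf) * 2 ^ (a - hi)) * (x * x) := Nat.mul_le_mul_right _ hu
      _ ≤ ((uf * uf) * 2 ^ (a - hi)) * (x * 2 ^ hi) :=
          Nat.mul_le_mul_left _ (Nat.mul_le_mul_left _ hx.le)
      _ = (uf * uf) * (x * (2 ^ (a - hi) * 2 ^ hi)) := by ring
      _ = _ := by rw [← h2]
  · left
    have h1 : a - hi = 0 := by omega
    rw [h1, pow_zero, mul_one] at hu
    have h2 : u ≤ uf := by
      by_contra hcon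
      push Not at hcon
      have := Nat.mul_lt_mul'' hcon hcon
      omega
    exact h.trans (Nat.mul_le_mul_right _ h2)

/-- both bounds -/
def Gd (Q : ℕ) (cW cL : ℕ → ℕ) (a uf bf x : ℕ) : Prop :=
  G1 Q a uf x (cW x) ∧ G1 Q a bf x (cL x)

theorem goodE_spec {Q : ℕ} {cW cL : ℕ → ℕ} {a uf bf : ℕ} {t : E4}
    (hv : SegD Q cW cL t.1 t.2.1 t.2.2.1 t.2.2.2) (h : goodE a (uf * uf) (bf * bf) t = true) :
    ∀ x, 2 ^ t.1 ≤ x → x < 2 ^ t.2.1 → Gd Q cW cL a uf bf x := by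
  unfold goodE at h
  rw [frc_eq] at h
  obtain ⟨h1, h2⟩ := chk_le h
  have h2 := Nat.le_of_ble_eq_true h2
  intro x x1 x2
  obtain ⟨v1, v2⟩ := hv x x1 x2
  exact ⟨g1_of x2 v1 h1, g1_of x2 v2 h2⟩

theorem chkL_spec {Q : ℕ} {cW cL : ℕ → ℕ} {a uf bf c : ℕ} : ∀ (L : List E4) (q : ℕ),
    VE Q cW cL L → chkL a (uf * uf) (bf * bf) c L q = true →
    ∀ x, 2 ^ q ≤ x → x ≤ 2 ^ c → Gd Q cW cL a uf bf x := by
  intro L
  induction L with
  | nil =>
    intro q _ h x x1 x2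
    exfalso
    have h1 : c + 1 ≤ q := Nat.le_of_ble_eq_true h
    have h2 : 2 ^ (c + 1) ≤ 2 ^ q := Nat.pow_le_pow_right (by norm_num) h1
    rw [pow_succ] at h2
    have := @Nat.one_le_two_pow c
    omega
  | cons t L ih =>
    intro q hv h x x1 x2
    have h' : chk (Nat.ble t.1 q) (chk (goodE a (uf * uf) (bf * bf) t)
      (chkL a (uf * uf) (bf * bf) c L t.2.1)) = true := h
    obtain ⟨h1, h'⟩ := chk_le h'
    obtain ⟨h2, h3⟩ := chk_spec h'
    rcases Nat.lt_or_ge x (2 ^ t.2.1) with hx | hx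
    · exact goodE_spec (hv t List.mem_cons_self) h2 x
        ((Nat.pow_le_pow_right (by norm_num) h1).trans x1) hx
    · exact ih t.2.1 (fun s hs => hv s (List.mem_cons_of_mem _ hs)) h3 x hx x2

theorem chkH_spec {Q : ℕ} {cW cL : ℕ → ℕ} (leW : ∀ x, cW x ≤ x) (leL : ∀ x, cL x ≤ x + 1)
    {a uf bf : ℕ} : ∀ (H : List E4) (q : ℕ),
    VE Q cW cL H → chkH Q a (uf * uf) (bf * bf) H q = true →
    ∀ x, 1 ≤ x → x < 2 ^ q → Gd Q cW cL a uf bf x := by
  intro H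
  induction H with
  | nil =>
    intro q _ h x x1 x2
    have h' : chk (Nat.ble (Nat.mul (Nat.mul Q Q) (Nat.pow 2 q)) (Nat.mul (uf * uf) (Nat.pow 2 a)))
      (Nat.ble (Nat.mul 4 (Nat.mul (Nat.mul Q Q) (Nat.pow 2 q)))
        (Nat.mul (bf * bf) (Nat.pow 2 a))) = true := h
    obtain ⟨h1, h2⟩ := chk_le h'
    have h1 : Q * Q * 2 ^ q ≤ uf * uf * 2 ^ a := h1
    have h2 : 4 * (Q * Q * 2 ^ q) ≤ bf * bf * 2 ^ a := Nat.le_of_ble_eq_true h2
    constructor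
    · right
      have e1 := Nat.mul_le_mul (leW x) (leW x)
      calc Q * cW x * (Q * cW x) = Q * Q * (cW x * cW x) := by ring
        _ ≤ Q * Q * (x * x) := Nat.mul_le_mul_left _ e1
        _ = (Q * Q * x) * x := by ring
        _ ≤ (Q * Q * 2 ^ q) * x := Nat.mul_le_mul_right _ (Nat.mul_le_mul_left _ x2.le)
        _ ≤ (uf * uf * 2 ^ a) * x := Nat.mul_le_mul_right _ h1
        _ = _ := by ring
    · right
      have e0 : cL x ≤ 2 * x := (leL x).trans (by omega)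
      have e1 := Nat.mul_le_mul e0 e0
      calc Q * cL x * (Q * cL x) = Q * Q * (cL x * cL x) := by ring
        _ ≤ Q * Q * (2 * x * (2 * x)) := Nat.mul_le_mul_left _ e1
        _ = 4 * (Q * Q * x) * x := by ring
        _ ≤ 4 * (Q * Q * 2 ^ q) * x := Nat.mul_le_mul_right _
            (Nat.mul_le_mul_left _ (Nat.mul_le_mul_left _ x2.le))
        _ ≤ (bf * bf * 2 ^ a) * x := Nat.mul_le_mul_right _ h2
        _ = _ := by ring
  | cons t H ih =>
    intro q hv h x x1 x2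
    have h' : chk (Nat.ble q t.2.1) (chk (goodE a (uf * uf) (bf * bf) t)
      (chkH Q a (uf * uf) (bf * bf) H t.1)) = true := h
    obtain ⟨h1, h'⟩ := chk_le h'
    obtain ⟨h2, h3⟩ := chk_spec h'
    rcases Nat.lt_or_ge x (2 ^ t.1) with hx | hx
    · exact ih t.1 (fun s hs => hv s (List.mem_cons_of_mem _ hs)) h3 x x1 hx
    · exact goodE_spec (hv t List.mem_cons_self) h2 x hx
        (x2.trans_le (Nat.pow_le_pow_right (by norm_num) h1))

/-- **Phase B**: correct data at the start and an accepted computation give the flat bounds at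
the scale `M = 2^a` on `[1, 2^c]`. -/
theorem validF_of_run {p : Par} {δ K0 : ℕ} {cW cL : ℕ → ℕ} {e : ℕ} (h : Hyp p δ K0 cW cL e)
    (he : 1 ≤ e) {s β n a c uf bf : ℕ} {L : List E4}
    (hsum : p.Q * ∑ k ∈ Icc 1 (2 ^ e - 1), cL (2 * k) ≤ s * 4 ^ e)
    (hbet : ∀ K, 2 ^ (e - 1) ≤ K → K ≤ 2 ^ e → p.Q * cL (K * K - 1) ≤ β * (K * K))
    (hL : VE p.Q cW cL L)
    (hrun : runB p (finB p.Q a c uf bf) n e s β e 0 0 [] L = true) :
    ValidF cW cL (2 ^ a) (2 ^ c) ((uf : ℝ) / p.Q) ((bf : ℝ) / p.Q) := by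
  have hst : St p.Q cL e s β e 0 0 :=
    ⟨he, hsum, hbet, fun x h1 h2 => absurd h2 (by omega), fun x h1 h2 => absurd h2 (by omega)⟩
  obtain ⟨e', H', L', v1, v2, hf⟩ := runB_spec h n le_rfl
    (⟨hst, by intro t ht; simp at ht, hL⟩ : Inv p.Q cW cL e s β e 0 0 [] L) hrun
  unfold finB at hf
  rw [frc_eq, frc_eq] at hf
  obtain ⟨h1, h2⟩ := chk_spec hf
  have h1' : chkL a (uf * uf) (bf * bf) c L' e' = true := h1
  have h2' : chkH p.Q a (uf * uf) (bf * bf) H' e' = true := h2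
  intro x x1 x2
  have hG : Gd p.Q cW cL a uf bf x := by
    rcases Nat.lt_or_ge x (2 ^ e') with hx | hx
    · exact chkH_spec h.sys.leW h.sys.leL H' e' v1 h2' x x1 hx
    · exact chkL_spec L' e' v2 h1' x hx x2
  exact ⟨g1_real h.hQ hG.1, g1_real h.hQ hG.2⟩

end Pool.Agent.AddSq.PB
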