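import Pool.Agent.AddSq.StepR

/-!
# The recursion for densities on intervals `[2 ^ e, 2 ^ e')`: the mathematics

`WinR g δ ρ₁ σ₁ ρ₂ σ₂ K0 cW cL`: the system with ONE window `[K, z)` per `z`, where
`K² ≈ (1 - g/10000) z²`.  For `SysR` (windows `K ≈ 3z/5`) one has `g = 6400`.

All densities are in units `1/Q`: `Q * cW x ≤ u * x`.
-/

set_option autoImplicit false

namespace Pool.Agent.AddSq.PB

open Finset

/-- the system with one window for each `z` -/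
structure WinR (g δ : ℕ) (ρ₁ σ₁ ρ₂ σ₂ : ℝ) (K0 : ℕ) (cW cL : ℕ → ℕ) : Prop where
  monoW : Monotone cW
  monoL : Monotone cL
  leW : ∀ x, cW x ≤ x
  leL : ∀ x, cL x ≤ x + 1
  win : ∀ x, cW x ≤ (∑ k ∈ Finset.Icc 1 (Nat.sqrt x), cL (2 * k)) + cL (2 * x)
  loss : ∀ z, K0 ≤ z → ∃ K N1 N2 : ℕ, K < z ∧ z < 2 * K ∧
    10000 * (z * z) ≤ 10000 * (K * K) + g * (z * z) ∧
    10000 * (K * K) + g * (z * z) ≤ 10001 * (z * z) ∧
    cL (z * z - 1) ≤ cL (K * K - 1) + N1 + N2 ∧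
      (N1 : ℝ) ^ 2 ≤ (δ * (cW (2 * (z - 1)) : ℝ) + ∑ k ∈ Ico K z, (cW (2 * k) : ℝ)) *
        (ρ₁ * N1 + σ₁ * (cL (Nat.sqrt (8 * (z * z))) : ℝ) ^ 2) ∧
      (N2 : ℝ) ^ 2 ≤ (δ * (cW (4 * (z - 1)) : ℝ) + ∑ k ∈ Ico K z, (cW (4 * k) : ℝ)) *
        (ρ₂ * N2 + σ₂ * (cW (2 * (z - 1)) : ℝ) ^ 2)

theorem winR_of_sysR {δ : ℕ} {ρ₁ σ₁ ρ₂ σ₂ : ℝ} {K0 : ℕ} {cW cL : ℕ → ℕ}
    (h : SysR δ ρ₁ σ₁ ρ₂ σ₂ K0 cW cL) {K1 : ℕ} (h1 : 2 * K0 ≤ K1) (h2 : 100000 ≤ K1) :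
    WinR 6400 δ ρ₁ σ₁ ρ₂ σ₂ K1 cW cL where
  monoW := h.monoW
  monoL := h.monoL
  leW := h.leW
  leL := h.leL
  win := h.win
  loss := by
    intro z hz
    have hlow := lowEnd_lt (z := z) (by omega)
    have hge := lowEnd_ge z
    have hle := lowEnd_le z
    obtain ⟨N1, N2, hw, q1, q2⟩ := h.loss (lowEnd z) z (Nat.sqrt (8 * (z * z))) (by omega)
      hlow.le (by omega) (sqrt8 z)
    refine ⟨lowEnd z, N1, N2, hlow, by omega, ?_, ?_, hw, q1, q2⟩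
    · have := Nat.mul_le_mul hge hge
      nlinarith
    · have := Nat.mul_le_mul hle hle
      have h3 : 100000 * z ≤ z * z := Nat.mul_le_mul_right z (by omega)
      nlinarith

/-! ### sums -/

theorem sum_two (a b : ℕ) (h : a ≤ b) : (∑ k ∈ Ico a b, 2 * k) + a * a ≤ b * b := by
  induction b, h using Nat.le_induction with
  | base => simp
  | succ n hn ih =>
    rw [sum_Ico_succ_top hn]
    nlinarith

theorem sum_bound {Q U a b m : ℕ} {c : ℕ → ℕ} (hab : a ≤ b)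
    (h : ∀ k, a ≤ k → k < b → Q * c k ≤ U * (m * k)) :
    2 * (Q * ∑ k ∈ Ico a b, c k) + m * (U * (a * a)) ≤ m * (U * (b * b)) := by
  have h1 : Q * ∑ k ∈ Ico a b, c k ≤ ∑ k ∈ Ico a b, U * (m * k) := by
    rw [mul_sum]
    apply sum_le_sum
    intro k hk
    rw [mem_Ico] at hk
    exact h k hk.1 hk.2
  have h2 : 2 * ∑ k ∈ Ico a b, U * (m * k) = m * (U * ∑ k ∈ Ico a b, 2 * k) := by
    rw [mul_sum, mul_sum, mul_sum]
    apply sum_congr rfl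
    intro k _
    ring
  have h3 := sum_two a b hab
  have h4 : m * (U * ((∑ k ∈ Ico a b, 2 * k) + a * a)) ≤ m * (U * (b * b)) :=
    Nat.mul_le_mul_left _ (Nat.mul_le_mul_left _ h3)
  calc 2 * (Q * ∑ k ∈ Ico a b, c k) + m * (U * (a * a))
      ≤ 2 * (∑ k ∈ Ico a b, U * (m * k)) + m * (U * (a * a)) := by omega
    _ = m * (U * ((∑ k ∈ Ico a b, 2 * k) + a * a)) := by rw [h2]; ring
    _ ≤ _ := h4

/-! ### one window -/

/-- the constants, as rational numbers with natural parameters -/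
structure Par where
  /-- units -/
  Q : ℕ
  /-- window ratio -/
  g : ℕ
  /-- numerator of `ρ₁` -/
  r1 : ℕ
  /-- numerator of `σ₁` -/
  t1 : ℕ
  /-- denominator of lag 1 -/
  q1 : ℕ
  /-- numerator of `ρ₂` -/
  r2 : ℕ
  /-- numerator of `σ₂` -/
  t2 : ℕ
  /-- denominator of lag 2 -/
  q2 : ℕ

/-- the system with the constants `p` -/
abbrev WinP (p : Par) (δ K0 : ℕ) (cW cL : ℕ → ℕ) : Prop :=
  WinR p.g δ ((p.r1 : ℝ) / p.q1) ((p.t1 : ℝ) / p.q1) ((p.r2 : ℝ) / p.q2) ((p.t2 : ℝ) / p.q2)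
    K0 cW cL

/-- densities `u`, `b` on `[2^e, 2^f)` -/
def SegD (Q : ℕ) (cW cL : ℕ → ℕ) (e f u b : ℕ) : Prop :=
  ∀ x, 2 ^ e ≤ x → x < 2 ^ f → Q * cW x ≤ u * x ∧ Q * cL x ≤ b * x

theorem lag_num {Q U B z c r t q P N D : ℕ} {A X : ℝ} (hQ : 0 < Q) (hq : 0 < q) (hP : 0 < P)
    (hz : 0 < z) (hD : 0 < D) (_hA0 : 0 ≤ A) (hX0 : 0 ≤ X)
    (h : (N : ℝ) ^ 2 ≤ A * ((r : ℝ) / q * N + (t : ℝ) / q * X))
    (hA : D * Q * A ≤ (c : ℝ) * U * z ^ 2) (hX : (Q : ℝ) ^ 2 * X ≤ B * z ^ 2)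
    (hP' : c * U * (r * Q * P + t * B) ≤ D * q * Q * (P * P)) :
    Q * N ≤ P * (z * z) := by
  have hQr : (0 : ℝ) < Q := by exact_mod_cast hQ
  have hqr : (0 : ℝ) < q := by exact_mod_cast hq
  have hPr : (0 : ℝ) < P := by exact_mod_cast hP
  have hzr : (0 : ℝ) < z := by exact_mod_cast hz
  have hDr : (0 : ℝ) < D := by exact_mod_cast hD
  have hA' : A ≤ (c : ℝ) * U * z ^ 2 / (D * Q) := by
    rw [le_div_iff₀ (by positivity)]
    linarith
  have hX' : X ≤ B * z ^ 2 / (Q : ℝ) ^ 2 := by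
    rw [le_div_iff₀ (by positivity)]
    linarith
  have hAX : A * ((r : ℝ) / q * N + (t : ℝ) / q * X) ≤ ((c : ℝ) * U * z ^ 2 / (D * Q)) *
      ((r : ℝ) / q * N + (t : ℝ) / q * (B * z ^ 2 / (Q : ℝ) ^ 2)) := by
    refine mul_le_mul hA' ?_ (by positivity) (by positivity)
    have : (t : ℝ) / q * X ≤ (t : ℝ) / q * (B * z ^ 2 / (Q : ℝ) ^ 2) :=
      mul_le_mul_of_nonneg_left hX' (by positivity)
    linarith
  have key : (N : ℝ) ≤ P * z ^ 2 / Q := by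
    refine StepR.lag_leR (N := N) (c := (c : ℝ) * U * z ^ 2 / (D * Q)) (ρ := (r : ℝ) / q)
      (s := (t : ℝ) / q * (B * z ^ 2 / (Q : ℝ) ^ 2)) (w := P * z ^ 2 / Q) (by positivity)
      (by positivity) (by positivity) (by positivity) (h.trans hAX) ?_
    have h1 : (c : ℝ) * U * (r * Q * P + t * B) ≤ D * q * Q * (P * P) := by exact_mod_cast hP'
    have h2 : (c : ℝ) * U * z ^ 2 / (D * Q) * ((r : ℝ) / q * (P * z ^ 2 / Q) +
        (t : ℝ) / q * (B * z ^ 2 / (Q : ℝ) ^ 2)) =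
        ((c : ℝ) * U * (r * Q * P + t * B)) * (z ^ 4 / (D * q * Q ^ 3)) := by
      field_simp
    have h3 : (P * (z : ℝ) ^ 2 / Q) ^ 2 = (D * q * Q * (P * P)) * (z ^ 4 / (D * q * Q ^ 3)) := by
      field_simp
    rw [h2, h3]
    exact mul_le_mul_of_nonneg_right h1 (by positivity)
  rw [le_div_iff₀ hQr] at key
  have key' : (Q : ℝ) * N ≤ P * (z * z) := by nlinarith
  exact_mod_cast key'

/-- the numerical conditions for the two lags, in units `1/Q` -/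
structure PT (p : Par) (U B P T : ℕ) : Prop where
  hP : 0 < P
  hT : 0 < T
  cP : (p.g + 1) * U * (p.r1 * p.Q * P + p.t1 * (8 * (B * B))) ≤ 10000 * p.q1 * p.Q * (P * P)
  cT : (2 * (p.g + 1)) * U * (p.r2 * p.Q * T + p.t2 * (4 * (U * U))) ≤
    10000 * p.q2 * p.Q * (T * T)

theorem window {p : Par} {δ K0 : ℕ} {cW cL : ℕ → ℕ} (h : WinP p δ K0 cW cL) (hQ : 0 < p.Q)
    (hq1 : 0 < p.q1) (hq2 : 0 < p.q2) {e f U B P T : ℕ} (hs : SegD p.Q cW cL e f U B)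
    (hPT : PT p U B P T) {z : ℕ} (hz : K0 ≤ z) (hδ : 20000 * δ ≤ z) (hz1 : 1 ≤ z)
    (hez : 2 ^ e ≤ z) (hzf : 4 * z ≤ 2 ^ f) (h2 : 2 ≤ z) :
    ∃ K, K < z ∧ z < 2 * K ∧ 10000 * (K * K) + p.g * (z * z) ≤ 10001 * (z * z) ∧
      p.Q * cL (z * z - 1) ≤ p.Q * cL (K * K - 1) + (P + T) * (z * z) := by
  obtain ⟨K, N1, N2, k1, k2, k3, k4, k5, l1, l2⟩ := h.loss z hz
  refine ⟨K, k1, k2, k4, ?_⟩
  have hzz : 20000 * δ * z ≤ z * z := Nat.mul_le_mul_right z hδ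
  -- the sums
  have s1 : 2 * (p.Q * ∑ k ∈ Ico K z, cW (2 * k)) + 2 * (U * (K * K)) ≤ 2 * (U * (z * z)) := by
    apply sum_bound k1.le
    intro k h3 h4
    exact (hs (2 * k) (by omega) (by omega)).1
  have s2 : 2 * (p.Q * ∑ k ∈ Ico K z, cW (4 * k)) + 4 * (U * (K * K)) ≤ 4 * (U * (z * z)) := by
    apply sum_bound k1.le
    intro k h3 h4
    exact (hs (4 * k) (by omega) (by omega)).1
  have w2 : p.Q * cW (2 * (z - 1)) ≤ U * (2 * z) :=
    ((hs (2 * (z - 1)) (by omega) (by omega)).1).trans (Nat.mul_le_mul_left _ (by omega))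
  have w4 : p.Q * cW (4 * (z - 1)) ≤ U * (4 * z) :=
    ((hs (4 * (z - 1)) (by omega) (by omega)).1).trans (Nat.mul_le_mul_left _ (by omega))
  have R1 : Nat.sqrt (8 * (z * z)) * Nat.sqrt (8 * (z * z)) ≤ 8 * (z * z) := Nat.sqrt_le _
  have R2 : 2 * z ≤ Nat.sqrt (8 * (z * z)) := by
    rw [Nat.le_sqrt]
    nlinarith
  have R3 : Nat.sqrt (8 * (z * z)) < 4 * z := by
    rw [Nat.sqrt_lt]
    nlinarith
  have lB : p.Q * cL (Nat.sqrt (8 * (z * z))) ≤ B * Nat.sqrt (8 * (z * z)) :=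
    (hs _ (by omega) (by omega)).2
  have a1 : 10000 * (p.Q * (δ * cW (2 * (z - 1)) + ∑ k ∈ Ico K z, cW (2 * k))) ≤
      (p.g + 1) * U * (z * z) := by
    have e1 : 10000 * (p.Q * (δ * cW (2 * (z - 1)))) ≤ U * (z * z) := by
      calc 10000 * (p.Q * (δ * cW (2 * (z - 1)))) =
          10000 * δ * (p.Q * cW (2 * (z - 1))) := by ring
        _ ≤ 10000 * δ * (U * (2 * z)) := Nat.mul_le_mul_left _ w2
        _ = U * (20000 * δ * z) := by ring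
        _ ≤ _ := Nat.mul_le_mul_left _ hzz
    have e2 := Nat.mul_le_mul_left U k3
    nlinarith
  have a2 : 10000 * (p.Q * (δ * cW (4 * (z - 1)) + ∑ k ∈ Ico K z, cW (4 * k))) ≤
      (2 * (p.g + 1)) * U * (z * z) := by
    have e1 : 10000 * (p.Q * (δ * cW (4 * (z - 1)))) ≤ 2 * (U * (z * z)) := by
      calc 10000 * (p.Q * (δ * cW (4 * (z - 1)))) =
          10000 * δ * (p.Q * cW (4 * (z - 1))) := by ring
        _ ≤ 10000 * δ * (U * (4 * z)) := Nat.mul_le_mul_left _ w4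
        _ = 2 * (U * (20000 * δ * z)) := by ring
        _ ≤ _ := Nat.mul_le_mul_left _ (Nat.mul_le_mul_left _ hzz)
    have e2 := Nat.mul_le_mul_left U k3
    nlinarith
  have n1 : p.Q * N1 ≤ P * (z * z) := by
    refine lag_num (D := 10000) hQ hq1 hPT.hP (by omega) (by norm_num) ?_ (sq_nonneg _) l1 ?_ ?_
      hPT.cP
    · positivity
    · have : (((10000 * (p.Q * (δ * cW (2 * (z - 1)) + ∑ k ∈ Ico K z, cW (2 * k))) : ℕ)) : ℝ) ≤
        (((p.g + 1) * U * (z * z) : ℕ) : ℝ) := by exact_mod_cast a1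
      push_cast at this ⊢
      nlinarith
    · have e1 := Nat.mul_le_mul lB lB
      have e2 : (p.Q * cL (Nat.sqrt (8 * (z * z)))) * (p.Q * cL (Nat.sqrt (8 * (z * z)))) ≤
          8 * (B * B) * (z * z) := by
        calc _ ≤ B * Nat.sqrt (8 * (z * z)) * (B * Nat.sqrt (8 * (z * z))) := e1
          _ = B * B * (Nat.sqrt (8 * (z * z)) * Nat.sqrt (8 * (z * z))) := by ring
          _ ≤ B * B * (8 * (z * z)) := Nat.mul_le_mul_left _ R1
          _ = _ := by ring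
      have e3 : ((((p.Q * cL (Nat.sqrt (8 * (z * z)))) * (p.Q * cL (Nat.sqrt (8 * (z * z)))) : ℕ))
          : ℝ) ≤ ((8 * (B * B) * (z * z) : ℕ) : ℝ) := by exact_mod_cast e2
      push_cast at e3 ⊢
      nlinarith
  have n2 : p.Q * N2 ≤ T * (z * z) := by
    refine lag_num (D := 10000) hQ hq2 hPT.hT (by omega) (by norm_num) ?_ (sq_nonneg _) l2 ?_ ?_
      hPT.cT
    · positivity
    · have : (((10000 * (p.Q * (δ * cW (4 * (z - 1)) + ∑ k ∈ Ico K z, cW (4 * k))) : ℕ)) : ℝ) ≤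
        (((2 * (p.g + 1)) * U * (z * z) : ℕ) : ℝ) := by exact_mod_cast a2
      push_cast at this ⊢
      nlinarith
    · have e1 := Nat.mul_le_mul w2 w2
      have e3 : ((((p.Q * cW (2 * (z - 1))) * (p.Q * cW (2 * (z - 1))) : ℕ)) : ℝ) ≤
          ((U * (2 * z) * (U * (2 * z)) : ℕ) : ℝ) := by exact_mod_cast e1
      push_cast at e3 ⊢
      nlinarith
  have f := Nat.mul_le_mul_left p.Q k5
  nlinarith

/-- bound for the losses at squares -/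
def Bet (Q : ℕ) (cL : ℕ → ℕ) (β a b : ℕ) : Prop :=
  ∀ K, a ≤ K → K ≤ b → Q * cL (K * K - 1) ≤ β * (K * K)

theorem bet_step {p : Par} {δ K0 : ℕ} {cW cL : ℕ → ℕ} (h : WinP p δ K0 cW cL) (hQ : 0 < p.Q)
    (hq1 : 0 < p.q1) (hq2 : 0 < p.q2) {e e1 f U B P T β β' : ℕ}
    (hs : SegD p.Q cW cL e f U B) (hPT : PT p U B P T) (hK : K0 ≤ 2 ^ e)
    (hδ : 20000 * δ ≤ 2 ^ e) (he : 1 ≤ e) (hf : e1 + 2 ≤ f) (hg : p.g ≤ 10000)
    (hβ : Bet p.Q cL β (2 ^ (e - 1)) (2 ^ e))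
    (c1 : (10001 - p.g) * β + 10000 * (P + T) ≤ 10000 * β')
    (c2 : 10000 * (P + T) + β' ≤ p.g * β') :
    Bet p.Q cL β' (2 ^ e) (2 ^ e1) := by
  intro z
  induction z using Nat.strong_induction_on with
  | _ z ih =>
    intro hz1 hz2
    have he2 : 2 * 2 ^ (e - 1) = 2 ^ e := by
      obtain ⟨m, rfl⟩ : ∃ m, e = m + 1 := ⟨e - 1, by omega⟩
      rw [Nat.add_sub_cancel, pow_succ]
      ring
    have hpos : 1 ≤ 2 ^ (e - 1) := Nat.one_le_two_pow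
    have hfz : 4 * z ≤ 2 ^ f := by
      have h1 : 2 ^ (e1 + 2) ≤ 2 ^ f := Nat.pow_le_pow_right (by norm_num) hf
      rw [pow_add] at h1
      omega
    obtain ⟨K, k1, k2, k3, k4⟩ := window h hQ hq1 hq2 hs hPT (by omega : K0 ≤ z) (by omega)
      (by omega) hz1 hfz (by omega)
    have hgz : 10001 * (z * z) = (10001 - p.g) * (z * z) + p.g * (z * z) := by
      rw [← Nat.add_mul]
      congr 1
      omega
    have k5 : 10000 * (K * K) ≤ (10001 - p.g) * (z * z) := by omega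
    rcases Nat.le_total K (2 ^ e) with hc | hc
    · have h1 := hβ K (by omega) hc
      have h2 : 10000 * (p.Q * cL (z * z - 1)) ≤ 10000 * (β' * (z * z)) := by
        calc 10000 * (p.Q * cL (z * z - 1)) ≤
            10000 * (p.Q * cL (K * K - 1) + (P + T) * (z * z)) := Nat.mul_le_mul_left _ k4
          _ ≤ 10000 * (β * (K * K) + (P + T) * (z * z)) :=
              Nat.mul_le_mul_left _ (Nat.add_le_add_right h1 _)
          _ = β * (10000 * (K * K)) + 10000 * (P + T) * (z * z) := by ring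
          _ ≤ β * ((10001 - p.g) * (z * z)) + 10000 * (P + T) * (z * z) :=
              Nat.add_le_add_right (Nat.mul_le_mul_left _ k5) _
          _ = ((10001 - p.g) * β + 10000 * (P + T)) * (z * z) := by ring
          _ ≤ (10000 * β') * (z * z) := Nat.mul_le_mul_right _ c1
          _ = _ := by ring
      omega
    · have h1 := ih K k1 hc (by omega)
      have h3 : (10001 - p.g) * β' + 10000 * (P + T) ≤ 10000 * β' := by
        have h4 : (10001 - p.g) * β' + p.g * β' = 10001 * β' := by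
          rw [← Nat.add_mul]
          congr 1
          omega
        omega
      have h2 : 10000 * (p.Q * cL (z * z - 1)) ≤ 10000 * (β' * (z * z)) := by
        calc 10000 * (p.Q * cL (z * z - 1)) ≤
            10000 * (p.Q * cL (K * K - 1) + (P + T) * (z * z)) := Nat.mul_le_mul_left _ k4
          _ ≤ 10000 * (β' * (K * K) + (P + T) * (z * z)) :=
              Nat.mul_le_mul_left _ (Nat.add_le_add_right h1 _)
          _ = β' * (10000 * (K * K)) + 10000 * (P + T) * (z * z) := by ring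
          _ ≤ β' * ((10001 - p.g) * (z * z)) + 10000 * (P + T) * (z * z) :=
              Nat.add_le_add_right (Nat.mul_le_mul_left _ k5) _
          _ = ((10001 - p.g) * β' + 10000 * (P + T)) * (z * z) := by ring
          _ ≤ (10000 * β') * (z * z) := Nat.mul_le_mul_right _ h3
          _ = _ := by ring
      omega

/-! ### the sums of the losses -/

theorem sum_split {c : ℕ → ℕ} {a y : ℕ} (ha : 1 ≤ a) (hay : a ≤ y) :
    ∑ k ∈ Icc 1 (y - 1), c k = ∑ k ∈ Icc 1 (a - 1), c k + ∑ k ∈ Ico a y, c k := by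
  have e1 : Icc 1 (y - 1) = Ico 1 y := by
    ext k
    simp only [mem_Icc, mem_Ico]
    omega
  have e2 : Icc 1 (a - 1) = Ico 1 a := by
    ext k
    simp only [mem_Icc, mem_Ico]
    omega
  rw [e1, e2, sum_Ico_consecutive c ha hay]

theorem two_sq (e : ℕ) : 2 ^ e * 2 ^ e = 4 ^ e := by
  rw [← mul_pow]
  norm_num

theorem two_dbl (e : ℕ) : 2 ^ (2 * e) = 4 ^ e := by
  rw [pow_mul]
  norm_num

theorem sum_step {Q : ℕ} {cW cL : ℕ → ℕ} {e f U B s y : ℕ} (hs : SegD Q cW cL e f U B)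
    (hsum : Q * ∑ k ∈ Icc 1 (2 ^ e - 1), cL (2 * k) ≤ s * 4 ^ e)
    (hy : 2 ^ e ≤ y) (hyf : 2 * y ≤ 2 ^ f) :
    Q * ∑ k ∈ Icc 1 (y - 1), cL (2 * k) + B * 4 ^ e ≤ s * 4 ^ e + B * (y * y) := by
  rw [sum_split Nat.one_le_two_pow hy, mul_add]
  have h1 : 2 * (Q * ∑ k ∈ Ico (2 ^ e) y, cL (2 * k)) + 2 * (B * (2 ^ e * 2 ^ e)) ≤
      2 * (B * (y * y)) := by
    apply sum_bound hy
    intro k h3 h4
    exact (hs (2 * k) (by omega) (by omega)).2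
  rw [two_sq] at h1
  omega

/-- the bounds at the squares give bounds everywhere -/
theorem round_up {m x v c : ℕ} (hx1 : m * m ≤ x) (_hx2 : x < (m + 1) * (m + 1)) (hm : 1 ≤ m)
    (hcm : 4 * c ≤ m) (hv : v ≤ c * ((m + 1) * (m + 1))) : v ≤ (c + 1) * x := by
  have h1 : c * ((m + 1) * (m + 1)) ≤ c * (x + (2 * m + 1)) := by
    apply Nat.mul_le_mul_left
    nlinarith
  have h2 : c * (2 * m + 1) ≤ m * m := by nlinarith
  nlinarith

/-- the state: exponent `e`, sum `s`, loss bound `β` before `2^e`, and the data `ep`, `mp`, `bp`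
of the last interval -/
structure St (Q : ℕ) (cL : ℕ → ℕ) (e s β ep mp bp : ℕ) : Prop where
  he : 1 ≤ e
  sum : Q * ∑ k ∈ Icc 1 (2 ^ e - 1), cL (2 * k) ≤ s * 4 ^ e
  bet : Bet Q cL β (2 ^ (e - 1)) (2 ^ e)
  pL : ∀ x, 4 ^ ep ≤ x → x < 4 ^ e → Q * cL x ≤ bp * x
  pS : ∀ x, 4 ^ ep ≤ x → x < 4 ^ e → Q * ∑ k ∈ Icc 1 (Nat.sqrt x), cL (2 * k) ≤ mp * x

theorem st_step {p : Par} {δ K0 : ℕ} {cW cL : ℕ → ℕ} (h : WinP p δ K0 cW cL) (hQ : 0 < p.Q)
    (hq1 : 0 < p.q1) (hq2 : 0 < p.q2) (hg : p.g ≤ 10000) {e e1 f U B P T s β ep mp bp β' s' : ℕ}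
    (hst : St p.Q cL e s β ep mp bp)
    (hs : SegD p.Q cW cL e f U B) (hPT : PT p U B P T) (hK : K0 ≤ 2 ^ e)
    (hδ : 20000 * δ ≤ 2 ^ e) (he1 : e + 2 ≤ e1) (hf : e1 + 2 ≤ f)
    (c1 : (10001 - p.g) * β + 10000 * (P + T) ≤ 10000 * β')
    (c2 : 10000 * (P + T) + β' ≤ p.g * β')
    (c3 : s + B * (4 ^ (e1 - e) - 1) ≤ s' * 4 ^ (e1 - e))
    (c4 : 4 * β' ≤ 2 ^ e) {m : ℕ} (c5 : 4 * m ≤ 2 ^ e) (hsm : s ≤ m) (hBm : B ≤ m) :
    St p.Q cL e1 s' β' e (m + 1) (β' + 1) := by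
  have hb := bet_step h hQ hq1 hq2 hs hPT hK hδ hst.he hf hg hst.bet c1 c2
  have hx : ∀ x, 4 ^ e ≤ x → x < 4 ^ e1 → 2 ^ e ≤ Nat.sqrt x ∧ Nat.sqrt x + 1 ≤ 2 ^ e1 := by
    intro x h1 h2
    constructor
    · rw [Nat.le_sqrt, ← mul_pow]
      exact h1
    · have h3 : Nat.sqrt x < 2 ^ e1 := by
        rw [Nat.sqrt_lt, ← mul_pow]
        exact h2
      exact h3
  have hfe : 2 ^ (e1 + 2) ≤ 2 ^ f := Nat.pow_le_pow_right (by norm_num) hf
  rw [pow_add] at hfe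
  refine ⟨by omega, ?_, ?_, ?_, ?_⟩
  · have hy : 2 ^ e ≤ 2 ^ e1 := Nat.pow_le_pow_right (by norm_num) (by omega)
    have h1 := sum_step hs hst.sum hy (by omega)
    have h2 : 4 ^ e1 = 4 ^ e * 4 ^ (e1 - e) := by
      rw [← pow_add]
      congr 1
      omega
    rw [two_sq] at h1
    have h4 := Nat.mul_le_mul_left (4 ^ e) c3
    have h5 : 1 ≤ 4 ^ (e1 - e) := Nat.one_le_pow _ _ (by norm_num)
    have h6 : 4 ^ e * (s + B * (4 ^ (e1 - e) - 1)) + B * 4 ^ e = s * 4 ^ e + B * 4 ^ e1 := by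
      rw [h2]
      obtain ⟨w, hw⟩ : ∃ w, 4 ^ (e1 - e) = w + 1 := ⟨4 ^ (e1 - e) - 1, by omega⟩
      rw [hw, Nat.add_sub_cancel]
      ring
    have h7 : 4 ^ e * (s' * 4 ^ (e1 - e)) = s' * 4 ^ e1 := by rw [h2]; ring
    omega
  · intro K k1 k2
    refine hb K (le_trans ?_ k1) k2
    exact Nat.pow_le_pow_right (by norm_num) (by omega)
  · intro x h1 h2
    obtain ⟨h3, h4⟩ := hx x h1 h2
    have h5 := hb (Nat.sqrt x + 1) (by omega) h4
    have h6 : Nat.sqrt x * Nat.sqrt x ≤ x := Nat.sqrt_le x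
    have h7 : x < (Nat.sqrt x + 1) * (Nat.sqrt x + 1) := Nat.lt_succ_sqrt x
    refine round_up h6 h7 (by have := @Nat.one_le_two_pow e; omega) (by omega) (le_trans ?_ h5)
    exact Nat.mul_le_mul_left _ (h.monoL (by omega))
  · intro x h1 h2
    obtain ⟨h3, h4⟩ := hx x h1 h2
    have h6 : Nat.sqrt x * Nat.sqrt x ≤ x := Nat.sqrt_le x
    have h7 : x < (Nat.sqrt x + 1) * (Nat.sqrt x + 1) := Nat.lt_succ_sqrt x
    refine round_up h6 h7 (by have := @Nat.one_le_two_pow e; omega) (by omega) ?_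
    have h8 := sum_step hs hst.sum (y := Nat.sqrt x + 1) (by omega) (by omega)
    rw [Nat.add_sub_cancel] at h8
    have h9 : 4 ^ e ≤ (Nat.sqrt x + 1) * (Nat.sqrt x + 1) := by
      have := Nat.mul_le_mul (show 2 ^ e ≤ Nat.sqrt x + 1 by omega)
        (show 2 ^ e ≤ Nat.sqrt x + 1 by omega)
      rwa [← mul_pow] at this
    obtain ⟨d, hd⟩ : ∃ d, (Nat.sqrt x + 1) * (Nat.sqrt x + 1) = 4 ^ e + d :=
      ⟨_, (Nat.add_sub_cancel' h9).symm⟩
    rw [hd] at h8 ⊢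
    have h10 : s * 4 ^ e ≤ m * 4 ^ e := Nat.mul_le_mul_right _ hsm
    have h11 : B * d ≤ m * d := Nat.mul_le_mul_right _ hBm
    nlinarith

/-- the new interval -/
theorem seg_new {Q g δ K0 : ℕ} {ρ₁ σ₁ ρ₂ σ₂ : ℝ} {cW cL : ℕ → ℕ}
    (h : WinR g δ ρ₁ σ₁ ρ₂ σ₂ K0 cW cL) {e s β ep mp bp e1 s1 β1 m1 b1 v : ℕ}
    (h0 : St Q cL e s β ep mp bp) (h1 : St Q cL e1 s1 β1 e m1 b1) (he : e + 1 ≤ e1)
    (hv1 : bp ≤ v) (hv2 : b1 ≤ v) :
    SegD Q cW cL (2 * ep) (2 * e) (mp + 2 * v) bp := by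
  intro x h2 h3
  rw [two_dbl] at h2 h3
  refine ⟨?_, h0.pL x h2 h3⟩
  have h4 : Q * cW x ≤ Q * (∑ k ∈ Icc 1 (Nat.sqrt x), cL (2 * k)) + Q * cL (2 * x) := by
    rw [← mul_add]
    exact Nat.mul_le_mul_left _ (h.win x)
  have h5 := h0.pS x h2 h3
  have h6 : Q * cL (2 * x) ≤ v * (2 * x) := by
    rcases Nat.lt_or_ge (2 * x) (4 ^ e) with h7 | h7
    · exact (h0.pL (2 * x) (by omega) h7).trans (Nat.mul_le_mul_right _ hv1)
    · refine (h1.pL (2 * x) h7 ?_).trans (Nat.mul_le_mul_right _ hv2)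
      have h8 : 4 ^ (e + 1) ≤ 4 ^ e1 := Nat.pow_le_pow_right (by norm_num) he
      rw [pow_succ] at h8
      omega
  nlinarith

end Pool.Agent.AddSq.PB
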