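import Pool.Agent.AddSq.PhaseB
import Pool.Agent.AddSq.SysN
import Pool.Agent.AddSq.GridA

/-!
# Phase B: narrow windows, and the link to the output of the grid computation
-/

set_option autoImplicit false

namespace Pool.Agent.AddSq.PB

open Finset

/-- the lower end of the narrow window, `3 z / 4` rounded up -/
def lowN (z : ℕ) : ℕ := (3 * z + 3) / 4

theorem winR_of_sysN {δ : ℕ} {ρ₁ σ₁ ρ₂ σ₂ : ℝ} {K0 : ℕ} {cW cL : ℕ → ℕ}
    (h : AddSq.SysN δ ρ₁ σ₁ ρ₂ σ₂ K0 cW cL) {K1 : ℕ} (h1 : 2 * K0 ≤ K1) (h2 : 100000 ≤ K1) :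
    WinR 4375 δ ρ₁ σ₁ ρ₂ σ₂ K1 cW cL where
  monoW := h.monoW
  monoL := h.monoL
  leW := h.leW
  leL := h.leL
  win := h.win
  loss := by
    intro z hz
    have hlow : lowN z < z := by unfold lowN; omega
    have hge : 3 * z ≤ 4 * lowN z := by unfold lowN; omega
    have hle : 4 * lowN z ≤ 3 * z + 3 := by unfold lowN; omega
    obtain ⟨N1, N2, hw, q1, q2⟩ := h.loss (lowN z) z (Nat.sqrt (8 * (z * z))) (by omega)
      hlow.le (by omega) (sqrt8 z)
    refine ⟨lowN z, N1, N2, hlow, by omega, ?_, ?_, hw, q1, q2⟩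
    · have := Nat.mul_le_mul hge hge
      nlinarith
    · have := Nat.mul_le_mul hle hle
      have h3 : 100000 * z ≤ z * z := Nat.mul_le_mul_right z (by omega)
      nlinarith

/-- **Phase B after Phase A**: the output of `GA.runA_spec` (units `10⁻⁷`), an accepted
computation of the levels, and the flat bounds at the scale `2^a`.  The last entry of the list is
`2e - 2, 2e, u, β`. -/
theorem validF_of_grid {p : Par} {δ K0 : ℕ} {cW cL : ℕ → ℕ} {e : ℕ} (h : Hyp p δ K0 cW cL e)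
    (hQ : p.Q = 10000000) (he : 1 ≤ e) {s n a c uf bf u β : ℕ} {L : List E4}
    (hsum : 10000000 * (∑ k ∈ Icc 1 (2 ^ e - 1), cL (2 * k)) ≤ s * (2 ^ e * 2 ^ e))
    (hI : ∀ t ∈ L, GA.Seg cW cL (2 ^ t.1) (2 ^ t.2.1) t.2.2.1 t.2.2.2)
    (hlast : (2 * e - 2, 2 * e, u, β) ∈ L)
    (hrun : runB p (finB p.Q a c uf bf) n e s β e 0 0 [] L = true) :
    ValidF cW cL (2 ^ a) (2 ^ c) ((uf : ℝ) / 10000000) ((bf : ℝ) / 10000000) := by
  have hQ' : (10000000 : ℝ) = ((p.Q : ℕ) : ℝ) := by rw [hQ]; norm_num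
  rw [hQ']
  refine validF_of_run h he (s := s) (β := β) ?_ ?_ ?_ hrun
  · rw [hQ, ← two_sq]
    exact hsum
  · intro K k1 k2
    rw [hQ]
    have hv : GA.Seg cW cL (2 ^ (2 * e - 2)) (2 ^ (2 * e)) u β := hI _ hlast
    have e1 : 2 ^ (2 * e - 2) = 2 ^ (e - 1) * 2 ^ (e - 1) := by
      rw [← pow_add]
      congr 1
      omega
    have e2 : 2 ^ (2 * e) = 2 ^ e * 2 ^ e := by
      rw [← pow_add]
      congr 1
      omega
    have k3 := Nat.mul_le_mul k1 k1
    have k4 := Nat.mul_le_mul k2 k2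
    have hpos : 1 ≤ 2 ^ (e - 1) := Nat.one_le_two_pow
    have hKK : 1 ≤ K * K := by nlinarith
    rcases Nat.lt_or_ge (K * K) (2 ^ e * 2 ^ e) with hc | hc
    · have h1 := (hv (K * K) (by rw [e1]; exact k3) (by rw [e2]; exact hc)).2
      exact (Nat.mul_le_mul_left _ (h.sys.monoL (Nat.sub_le _ _))).trans h1
    · have h3 : 2 ^ (2 * e - 2) < 2 ^ (2 * e) := Nat.pow_lt_pow_right (by norm_num) (by omega)
      have h4 : 1 ≤ 2 ^ (2 * e - 2) := Nat.one_le_two_pow
      rw [← e2] at hc k4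
      have h1 := (hv (K * K - 1) (by omega) (by omega)).2
      exact h1.trans (Nat.mul_le_mul_left _ (Nat.sub_le _ _))
  · intro t ht x x1 x2
    rw [hQ]
    exact hI t ht x x1 x2

end Pool.Agent.AddSq.PB
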