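import Pool.Agent.AddSq.StepR
import Pool.Agent.AddSq.Limit

/-!
# The rate `exp (- (log x) ^ (1/7))`

Once the densities are tiny the shift length `D` of the counting lemmas is chosen as a power of
the density: `D ≈ u ^ (- 1/4)`.  One step (from `[M, X]` to `[M ^ 2, X ^ 2 / 32]`) then takes the
density `u` of the wins to `u ^ g` and the density of the lost positions to `u ^ (g ^ 2)` for
every exponent `g` with `g ^ 2 ≤ 1.2312`.
-/

namespace Pool.Agent.AddSq

open Finset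

/-- the system for all shift lengths -/
def SysAll (cW cL : ℕ → ℕ) : Prop := ∀ D : ℕ, 1 ≤ D →
  SysR D (1 / D) (4000 * (D : ℝ) ^ 2) (1 / D) (4000 * (D : ℝ) ^ 2) (1000 * D ^ 2) cW cL

theorem sysAll_of_rules {W L : ℕ → Prop} (h : GRules W L) : SysAll (gcount W) (gcount L) :=
  fun _ hD => sysR_of_rules h hD

theorem two_pow_le_exp {n : ℕ} {x : ℝ} (h : (n : ℝ) ≤ x) : (2 : ℝ) ^ n ≤ Real.exp x := by
  have h1 : (2 : ℝ) ≤ Real.exp 1 := by
    have := Real.add_one_le_exp (1 : ℝ)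
    linarith
  calc (2 : ℝ) ^ n ≤ Real.exp 1 ^ n := pow_le_pow_left₀ (by norm_num) h1 n
    _ = Real.exp n := by rw [← Real.exp_nat_mul, mul_one]
    _ ≤ Real.exp x := Real.exp_le_exp.mpr h

/-- One step of the last phase. -/
theorem rate_step {cW cL : ℕ → ℕ} (hsys : SysAll cW cL) {M X : ℕ} {t g : ℝ} (hg1 : 1 ≤ g)
    (hg : g ^ 2 ≤ 1.2312) (ht : 500 ≤ t) (hMX : 32 * M ≤ X)
    (hM : 14 + 2 * t ≤ Real.log M)
    (hv : ValidF cW cL M X (Real.exp (-t)) (Real.exp (-(g * t)) / 2.2)) :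
    ValidF cW cL (M ^ 2) (X ^ 2 / 32) (Real.exp (-(g * t)))
      (Real.exp (-(g * (g * t))) / 2.2) := by
  have hg2 : g ≤ 1.11 := by nlinarith
  have hM0 : (0 : ℝ) < M := by
    rcases Nat.eq_zero_or_pos M with h0 | h0
    · subst h0
      simp at hM
      linarith
    · exact_mod_cast h0
  set u := Real.exp (-t) with hu
  set s := Real.exp (t / 4) with hs
  set v := Real.exp (-(5 / 4 * t)) with hvv
  set E := Real.exp (-(g * t)) with hE
  have hu0 : 0 < u := Real.exp_pos _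
  have hs0 : 0 < s := Real.exp_pos _
  have hv0 : 0 < v := Real.exp_pos _
  have hE0 : 0 < E := Real.exp_pos _
  have hs1 : 1 ≤ s := by
    rw [hs]
    apply Real.one_le_exp
    linarith
  have hus : u = v * s := by
    rw [hu, hvv, hs, ← Real.exp_add]
    congr 1
    ring
  have hu3 : s ^ 2 * u ^ 3 = v ^ 2 := by
    rw [hu, hvv, hs, ← Real.exp_nat_mul, ← Real.exp_nat_mul, ← Real.exp_nat_mul, ← Real.exp_add]
    congr 1
    push_cast
    ring
  have hEu : E ≤ u := by
    rw [hE, hu]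
    apply Real.exp_le_exp.mpr
    nlinarith
  -- the shift length
  set D : ℕ := ⌈s⌉₊ with hDdef
  have hDs : s ≤ D := Nat.le_ceil s
  have hD2s : (D : ℝ) ≤ 2 * s := by
    have := Nat.ceil_lt_add_one hs0.le
    linarith
  have hD1 : 1 ≤ D := by
    have : (1 : ℝ) ≤ D := hs1.trans hDs
    exact_mod_cast this
  have hD0 : (0 : ℝ) < D := lt_of_lt_of_le hs0 hDs
  have hDsq : (D : ℝ) ^ 2 ≤ 4 * s ^ 2 := by
    have := pow_le_pow_left₀ hD0.le hD2s 2
    nlinarith
  -- the size of `M`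
  have hMexp : Real.exp (14 + 2 * t) ≤ M := by
    rw [← Real.exp_log hM0]
    exact Real.exp_le_exp.mpr hM
  have hvM : Real.exp (14 + 3 / 4 * t) ≤ v * M := by
    have h1 : Real.exp (14 + 3 / 4 * t) = v * Real.exp (14 + 2 * t) := by
      rw [hvv, ← Real.exp_add]
      congr 1
      ring
    rw [h1]
    exact mul_le_mul_of_nonneg_left hMexp hv0.le
  have hb0 : 0 < E / 2.2 := by positivity
  have hbu : E / 2.2 ≤ u := by
    have : E / 2.2 ≤ E := by
      rw [div_le_iff₀ (by norm_num)]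
      linarith
    linarith
  have hDu : 1 / (D : ℝ) * u ≤ v := by
    rw [hus, one_div, inv_mul_le_iff₀ hD0]
    nlinarith
  have hmain : (D : ℝ) ^ 2 * u ^ 3 ≤ 4 * v ^ 2 := by
    calc (D : ℝ) ^ 2 * u ^ 3 ≤ (4 * s ^ 2) * u ^ 3 :=
          mul_le_mul_of_nonneg_right hDsq (by positivity)
      _ = 4 * (s ^ 2 * u ^ 3) := by ring
      _ = 4 * v ^ 2 := by rw [hu3]
  have hmain2 : (D : ℝ) ^ 2 * u * (E / 2.2) ^ 2 ≤ 4 * v ^ 2 := by
    refine le_trans ?_ hmain
    have h1 : (E / 2.2) ^ 2 ≤ u ^ 2 := pow_le_pow_left₀ hb0.le hbu 2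
    have h2 : 0 ≤ (D : ℝ) ^ 2 * u := by positivity
    have h3 := mul_le_mul_of_nonneg_left h1 h2
    nlinarith
  have hDuv : 1 / (D : ℝ) * u * v ≤ v ^ 2 := by
    have := mul_le_mul_of_nonneg_right hDu hv0.le
    nlinarith
  have key := StepR.step_R (hsys D hD1) (by positivity) (by positivity) (by positivity)
    (by positivity) hMX hv hu0 hb0 (p := 510 * v) (q := 510 * v) (by positivity) (by positivity)
    (by nlinarith) (by nlinarith)
    (by
      have h1 : (2 : ℝ) ^ 100 ≤ Real.exp (5 / 4 * t) := by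
        have := two_pow_le_exp (n := 100) (x := 5 / 4 * t) (by push_cast; linarith)
        exact this
      have h2 : v * Real.exp (5 / 4 * t) = 1 := by
        rw [hvv, ← Real.exp_add]
        simp
      have h3 : v * 2 ^ 100 ≤ 1 := by
        rw [← h2]
        exact mul_le_mul_of_nonneg_left h1 hv0.le
      have h4 : (1020000 : ℝ) ≤ 2 ^ 100 := by norm_num
      nlinarith)
    (by
      have h1 : (2 : ℝ) ^ 100 ≤ Real.exp (14 + 3 / 4 * t) :=
        two_pow_le_exp (by push_cast; linarith)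
      have h2 : (10 : ℝ) ^ 9 ≤ 2 ^ 100 := by norm_num
      nlinarith)
    (by
      have h1 : (2 : ℝ) ^ 100 * s ^ 2 ≤ Real.exp (14 + 3 / 4 * t) := by
        have e1 : Real.exp (14 + 3 / 4 * t) = Real.exp (14 + t / 4) * s ^ 2 := by
          rw [hs, ← Real.exp_nat_mul, ← Real.exp_add]
          congr 1
          push_cast
          ring
        rw [e1]
        exact mul_le_mul_of_nonneg_right (two_pow_le_exp (by push_cast; linarith))
          (by positivity)
      have h2 : (800000 : ℝ) ≤ 2 ^ 100 := by norm_num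
      push_cast
      have h3 : 0 ≤ s ^ 2 := by positivity
      have h4 : (800000 : ℝ) * s ^ 2 ≤ 2 ^ 100 * s ^ 2 := mul_le_mul_of_nonneg_right h2 h3
      nlinarith)
    (by
      have h1 : (2 : ℝ) ^ 100 * s ≤ Real.exp (14 + 3 / 4 * t) := by
        have e1 : Real.exp (14 + 3 / 4 * t) = Real.exp (14 + t / 2) * s := by
          rw [hs, ← Real.exp_add]
          congr 1
          ring
        rw [e1]
        exact mul_le_mul_of_nonneg_right (two_pow_le_exp (by push_cast; linarith)) hs0.le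
      have h2 : (20000000 : ℝ) ≤ 2 ^ 100 := by norm_num
      have h4 : (20000000 : ℝ) * s ≤ 2 ^ 100 * s := mul_le_mul_of_nonneg_right h2 hs0.le
      nlinarith)
  -- the new densities
  have hp1 : 5000 * v ≤ E := by
    have h1 : (2 : ℝ) ^ 50 ≤ Real.exp ((5 / 4 - g) * t) := by
      apply two_pow_le_exp
      push_cast
      nlinarith
    have h2 : E = v * Real.exp ((5 / 4 - g) * t) := by
      rw [hE, hvv, ← Real.exp_add]
      congr 1
      ring
    have h3 : (5000 : ℝ) ≤ 2 ^ 50 := by norm_num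
    rw [h2]
    nlinarith
  have hp2 : 2500 * v ≤ Real.exp (-(g * (g * t))) := by
    have h1 : (2500 : ℝ) ≤ Real.exp ((5 / 4 - g ^ 2) * t) := by
      have e1 : (2.7 : ℝ) ^ 9 ≤ Real.exp 9 := by
        have h0 : (2.7 : ℝ) ≤ Real.exp 1 := by
          have := Real.exp_one_gt_d9
          linarith
        calc (2.7 : ℝ) ^ 9 ≤ Real.exp 1 ^ 9 := pow_le_pow_left₀ (by norm_num) h0 9
          _ = Real.exp 9 := by
            rw [← Real.exp_nat_mul]
            norm_num
      have e2 : (9 : ℝ) ≤ (5 / 4 - g ^ 2) * t := by nlinarith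
      have e3 : (2500 : ℝ) ≤ 2.7 ^ 9 := by norm_num
      exact e3.trans (e1.trans (Real.exp_le_exp.mpr e2))
    have h2 : Real.exp (-(g * (g * t))) = v * Real.exp ((5 / 4 - g ^ 2) * t) := by
      rw [hvv, ← Real.exp_add]
      congr 1
      ring
    rw [h2]
    nlinarith
  refine key.mono ?_ ?_ le_rfl
  · have : E / 2.2 = E * (5 / 11) := by ring
    rw [this]
    nlinarith
  · rw [le_div_iff₀ (by norm_num)]
    nlinarith

/-- The levels of the last phase. -/
theorem rate_levels {cW cL : ℕ → ℕ} (hsys : SysAll cW cL) {M Y : ℕ} (hMY : M ≤ Y) {t g : ℝ}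
    (hg1 : 1 ≤ g) (hg : g ^ 2 ≤ 1.2312) (ht : 500 ≤ t) (hM : 14 + 2 * t ≤ Real.log M)
    (hv : ValidF cW cL M (32 * Y) (Real.exp (-t)) (Real.exp (-(g * t)) / 2.2)) (j : ℕ) :
    ValidF cW cL (M ^ 2 ^ j) (32 * Y ^ 2 ^ j) (Real.exp (-(g ^ j * t)))
        (Real.exp (-(g * (g ^ j * t))) / 2.2) ∧
      14 + 2 * (g ^ j * t) ≤ Real.log ((M ^ 2 ^ j : ℕ) : ℝ) ∧ 500 ≤ g ^ j * t := by
  induction j with
  | zero =>
    refine ⟨by simpa using hv, by simpa using hM, by simpa using ht⟩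
  | succ j ih =>
    obtain ⟨h1, h2, h3⟩ := ih
    have hg2 : g ≤ 1.11 := by nlinarith
    have h4 := rate_step hsys hg1 hg h3 (Nat.mul_le_mul_left 32 (Nat.pow_le_pow_left hMY _)) h2 h1
    have hMM : M ^ 2 ^ (j + 1) = (M ^ 2 ^ j) ^ 2 := by rw [pow_succ, pow_mul]
    have hYY : 32 * Y ^ 2 ^ (j + 1) = (32 * Y ^ 2 ^ j) ^ 2 / 32 := by
      rw [pow_succ, pow_mul]
      have : (32 * Y ^ 2 ^ j) ^ 2 = 32 * (32 * (Y ^ 2 ^ j) ^ 2) := by ring
      rw [this, Nat.mul_div_cancel_left _ (by norm_num)]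
    have hgj : g ^ (j + 1) * t = g * (g ^ j * t) := by rw [pow_succ]; ring
    refine ⟨?_, ?_, ?_⟩
    · rw [hMM, hYY, hgj]
      exact h4
    · rw [hMM, hgj]
      push_cast
      push_cast at h2
      rw [Real.log_pow]
      push_cast
      nlinarith
    · rw [hgj]
      nlinarith

/-- Few elements on the intervals. -/
theorem rate_few {cW cL : ℕ → ℕ} (hsys : SysAll cW cL) {M Y : ℕ} (hMY : M ≤ Y) {t g : ℝ}
    (hg1 : 1 ≤ g) (hg : g ^ 2 ≤ 1.2312) (ht : 500 ≤ t) (hM : 14 + 2 * t ≤ Real.log M)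
    (hv : ValidF cW cL M (32 * Y) (Real.exp (-t)) (Real.exp (-(g * t)) / 2.2)) (j x : ℕ)
    (hx1 : M ^ 2 ^ j ≤ x) (hx2 : x ≤ 32 * Y ^ 2 ^ j) :
    ((cW x + cL x : ℕ) : ℝ) ≤ 2 * Real.exp (-(g ^ j * t)) * x := by
  obtain ⟨h1, h2, h3⟩ := rate_levels hsys hMY hg1 hg ht hM hv j
  have hMj : 1 ≤ M ^ 2 ^ j := by
    apply Nat.one_le_pow
    rcases Nat.eq_zero_or_pos M with h0 | h0
    · subst h0
      simp at hM
      linarith
    · exact h0
  obtain ⟨h5, h6⟩ := h1 x (hMj.trans hx1) hx2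
  have hmax : max (x : ℝ) (Real.sqrt ((x : ℝ) * ((M ^ 2 ^ j : ℕ) : ℝ))) = x := by
    apply max_eq_left
    rw [Real.sqrt_le_left (Nat.cast_nonneg x), pow_two]
    exact mul_le_mul_of_nonneg_left (by exact_mod_cast hx1) (Nat.cast_nonneg x)
  rw [hmax] at h5 h6
  have h7 : Real.exp (-(g * (g ^ j * t))) / 2.2 ≤ Real.exp (-(g ^ j * t)) := by
    rw [div_le_iff₀ (by norm_num)]
    have e1 : Real.exp (-(g * (g ^ j * t))) ≤ Real.exp (-(g ^ j * t)) := by
      apply Real.exp_le_exp.mpr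
      nlinarith
    have e2 := Real.exp_pos (-(g ^ j * t))
    linarith
  have h8 := mul_le_mul_of_nonneg_right h7 (Nat.cast_nonneg (α := ℝ) x)
  push_cast
  linarith

end Pool.Agent.AddSq
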