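import Pool.Agent.AddSq.Rate
import Pool.Agent.AddSq.Limit2

/-!
# From the levels to the rate `C x exp (- (log x) ^ (1/7))`
-/

namespace Pool.Agent.AddSq

open Finset

/-- From levels with geometric decay to the last phase. -/
theorem rate_of_levels {cW cL : ℕ → ℕ} (hsys : SysAll cW cL) {M Y : ℕ} (hM : 2 ≤ M)
    (hMY : M ≤ Y) {u b lam : ℝ} (hl0 : 0 < lam) (hl1 : lam < 1)
    (hlev : ∀ j : ℕ, ValidF cW cL (M ^ 2 ^ j) (32 * Y ^ 2 ^ j) (u * lam ^ j) (b * lam ^ j))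
    {g : ℝ} (hg1 : 1 ≤ g) (hg : g ^ 2 ≤ 1.2312) :
    ∃ k0 : ℕ, ∀ j x : ℕ, M ^ 2 ^ (k0 + j) ≤ x → x ≤ 32 * Y ^ 2 ^ (k0 + j) →
      ((cW x + cL x : ℕ) : ℝ) ≤ 2 * Real.exp (-(g ^ j * 500)) * x := by
  have hMr : (2 : ℝ) ≤ M := by exact_mod_cast hM
  have hlog : 0 < Real.log M := Real.log_pos (by linarith)
  set ε := Real.exp (-(g * 500)) / 2.2 with hε
  have hε0 : 0 < ε := by positivity
  have hε1 : ε ≤ Real.exp (-500) := by
    rw [hε, div_le_iff₀ (by norm_num)]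
    have e1 : Real.exp (-(g * 500)) ≤ Real.exp (-500) := by
      apply Real.exp_le_exp.mpr
      nlinarith
    have e2 := Real.exp_pos (-500)
    linarith
  obtain ⟨k1, hk1⟩ := exists_pow_lt_of_lt_one (div_pos hε0 (by positivity : 0 < |u| + |b| + 1)) hl1
  obtain ⟨k2, hk2⟩ := exists_nat_gt (1014 / Real.log M)
  refine ⟨max k1 k2, ?_⟩
  set k0 := max k1 k2 with hk0
  have hpow : lam ^ k0 ≤ ε / (|u| + |b| + 1) :=
    (pow_le_pow_of_le_one hl0.le hl1.le (le_max_left _ _)).trans hk1.le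
  have hp0 : 0 < lam ^ k0 := pow_pos hl0 _
  have hub : (|u| + |b| + 1) * lam ^ k0 ≤ ε := by
    rw [le_div_iff₀ (by positivity)] at hpow
    linarith
  have hu : u * lam ^ k0 ≤ Real.exp (-500) := by
    refine le_trans ?_ hε1
    refine le_trans (mul_le_mul_of_nonneg_right ?_ hp0.le) hub
    have := le_abs_self u
    have := abs_nonneg b
    linarith
  have hb : b * lam ^ k0 ≤ ε := by
    refine le_trans (mul_le_mul_of_nonneg_right ?_ hp0.le) hub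
    have := le_abs_self b
    have := abs_nonneg u
    linarith
  have hv : ValidF cW cL (M ^ 2 ^ k0) (32 * Y ^ 2 ^ k0) (Real.exp (-500)) ε :=
    (hlev k0).mono hu hb le_rfl
  have hlogM : 14 + 2 * (500 : ℝ) ≤ Real.log ((M ^ 2 ^ k0 : ℕ) : ℝ) := by
    push_cast
    rw [Real.log_pow]
    have h1 : (1014 : ℝ) ≤ k2 * Real.log M := by
      rw [div_lt_iff₀ hlog] at hk2
      exact hk2.le
    have h2 : (k2 : ℝ) ≤ ((2 ^ k0 : ℕ) : ℝ) := by
      have h3 : k2 ≤ 2 ^ k0 := (Nat.lt_two_pow_self (n := k2)).le.trans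
        (Nat.pow_le_pow_right (by norm_num) (le_max_right _ _))
      exact_mod_cast h3
    have h4 := mul_le_mul_of_nonneg_right h2 hlog.le
    linarith
  intro j x hx1 hx2
  refine rate_few hsys (Nat.pow_le_pow_left hMY (2 ^ k0)) hg1 hg le_rfl hlogM hv j x ?_ ?_
  · rw [← pow_mul, ← pow_add]
    exact hx1
  · rw [← pow_mul, ← pow_add]
    exact hx2

/-- `y ^ (1/7)` against `c y ^ (3/20)` -/
theorem pow_compare {c : ℝ} (hc : 0 < c) :
    ∃ C : ℝ, ∀ y : ℝ, 0 ≤ y → y ^ (1 / 7 : ℝ) ≤ c * y ^ (3 / 20 : ℝ) + C := by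
  refine ⟨((c ^ (140 : ℝ))⁻¹) ^ (1 / 7 : ℝ), fun y hy => ?_⟩
  have hc140 : 0 < c ^ (140 : ℝ) := Real.rpow_pos_of_pos hc _
  have hC0 : 0 ≤ ((c ^ (140 : ℝ))⁻¹) ^ (1 / 7 : ℝ) := by positivity
  rcases le_total y ((c ^ (140 : ℝ))⁻¹) with h | h
  · have h1 := Real.rpow_le_rpow hy h (by norm_num : (0 : ℝ) ≤ 1 / 7)
    have h2 : 0 ≤ c * y ^ (3 / 20 : ℝ) := by positivity
    linarith
  · have hy0 : 0 < y := lt_of_lt_of_le (inv_pos.mpr hc140) h
    have h1 : (c ^ (140 : ℝ))⁻¹ ^ (1 / 140 : ℝ) ≤ y ^ (1 / 140 : ℝ) :=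
      Real.rpow_le_rpow (inv_pos.mpr hc140).le h (by norm_num)
    have h2 : (c ^ (140 : ℝ))⁻¹ ^ (1 / 140 : ℝ) = c⁻¹ := by
      rw [Real.inv_rpow hc140.le, ← Real.rpow_mul hc.le]
      norm_num
    rw [h2] at h1
    have h3 : 1 ≤ c * y ^ (1 / 140 : ℝ) := by
      have := mul_le_mul_of_nonneg_left h1 hc.le
      rwa [mul_inv_cancel₀ hc.ne'] at this
    have h4 : y ^ (3 / 20 : ℝ) = y ^ (1 / 140 : ℝ) * y ^ (1 / 7 : ℝ) := by
      rw [← Real.rpow_add hy0]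
      norm_num
    have h5 : 0 ≤ y ^ (1 / 7 : ℝ) := by positivity
    have h6 := mul_le_mul_of_nonneg_right h3 h5
    rw [h4]
    linarith

/-- the exponent of the last phase -/
noncomputable def gR : ℝ := (2 : ℝ) ^ (3 / 20 : ℝ)

theorem one_le_gR : 1 ≤ gR := Real.one_le_rpow (by norm_num) (by norm_num)

theorem gR_sq : gR ^ 2 ≤ 1.2312 := by
  have h0 : 0 ≤ gR := by linarith [one_le_gR]
  have h1 : (gR ^ 2) ^ 10 = 8 := by
    rw [← pow_mul]
    unfold gR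
    rw [← Real.rpow_natCast, ← Real.rpow_mul (by norm_num)]
    norm_num
  have h2 : (gR ^ 2) ^ 10 ≤ (1.2312 : ℝ) ^ 10 := by
    rw [h1]
    norm_num
  exact (pow_le_pow_iff_left₀ (by positivity) (by norm_num) (by norm_num)).mp h2

/-- Conversion of the decay along the levels to a function of `x`. -/
theorem log_rate_exp {P : ℕ → Prop} {M Y k0 : ℕ} (hY : 1 ≤ Y)
    (h : ∀ j x : ℕ, M ^ 2 ^ (k0 + j) ≤ x → x ≤ 32 * Y ^ 2 ^ (k0 + j) →
      (x : ℝ) - cnt P x ≤ 2 * Real.exp (-(gR ^ j * 500)) * x) :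
    ∃ C : ℝ, 0 ≤ C ∧ ∀ k x : ℕ, 1 ≤ x → M ^ 2 ^ k ≤ x → x ≤ 32 * Y ^ 2 ^ k →
      (x : ℝ) - cnt P x ≤ C * x * Real.exp (-(Real.log x) ^ (1 / 7 : ℝ)) := by
  have hY1 : (1 : ℝ) ≤ Y := by exact_mod_cast hY
  have hL0 : 0 < Real.log (32 * Y) := Real.log_pos (by linarith)
  set ℓ := 2 ^ k0 * Real.log (32 * Y) with hℓ
  have hℓ0 : 0 < ℓ := by positivity
  have hc : 0 < 500 * ℓ⁻¹ ^ (3 / 20 : ℝ) := by positivity
  obtain ⟨C1, hC1⟩ := pow_compare hc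
  refine ⟨max (Real.exp (ℓ ^ (1 / 7 : ℝ))) (2 * Real.exp C1),
    le_trans (Real.exp_pos _).le (le_max_left _ _), ?_⟩
  intro k x hx hx1 hx2
  have hx0 : (1 : ℝ) ≤ x := by exact_mod_cast hx
  have hlx : 0 ≤ Real.log x := Real.log_nonneg hx0
  have hl1 : Real.log x ≤ 2 ^ k * Real.log (32 * Y) := by
    have h1 : (x : ℝ) ≤ (32 * Y) ^ 2 ^ k := by
      have h2 : (x : ℝ) ≤ 32 * (Y : ℝ) ^ 2 ^ k := by exact_mod_cast hx2
      refine h2.trans ?_
      rw [mul_pow]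
      refine mul_le_mul_of_nonneg_right ?_ (by positivity)
      calc (32 : ℝ) = 32 ^ 1 := (pow_one _).symm
        _ ≤ 32 ^ 2 ^ k := pow_le_pow_right₀ (by norm_num) Nat.one_le_two_pow
    calc Real.log x ≤ Real.log ((32 * Y) ^ 2 ^ k) := Real.log_le_log (by linarith) h1
      _ = 2 ^ k * Real.log (32 * Y) := by
        rw [Real.log_pow]
        push_cast
        ring
  set y := Real.log x with hy
  have hE0 : 0 < Real.exp (-y ^ (1 / 7 : ℝ)) := Real.exp_pos _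
  rcases lt_or_ge k k0 with hk | hk
  · have h1 : (x : ℝ) - cnt P x ≤ x := by
      have : (0 : ℝ) ≤ cnt P x := Nat.cast_nonneg _
      linarith
    have h2 : y ≤ ℓ := by
      refine hl1.trans (mul_le_mul_of_nonneg_right ?_ hL0.le)
      exact pow_le_pow_right₀ (by norm_num) hk.le
    have h3 : y ^ (1 / 7 : ℝ) ≤ ℓ ^ (1 / 7 : ℝ) := Real.rpow_le_rpow hlx h2 (by norm_num)
    have h4 : 1 ≤ Real.exp (ℓ ^ (1 / 7 : ℝ)) * Real.exp (-y ^ (1 / 7 : ℝ)) := by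
      rw [← Real.exp_add]
      apply Real.one_le_exp
      linarith
    have h5 : Real.exp (ℓ ^ (1 / 7 : ℝ)) * Real.exp (-y ^ (1 / 7 : ℝ)) ≤
        max (Real.exp (ℓ ^ (1 / 7 : ℝ))) (2 * Real.exp C1) * Real.exp (-y ^ (1 / 7 : ℝ)) :=
      mul_le_mul_of_nonneg_right (le_max_left _ _) hE0.le
    calc (x : ℝ) - cnt P x ≤ 1 * x := by linarith
      _ ≤ (max (Real.exp (ℓ ^ (1 / 7 : ℝ))) (2 * Real.exp C1) *
          Real.exp (-y ^ (1 / 7 : ℝ))) * x :=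
        mul_le_mul_of_nonneg_right (h4.trans h5) (by linarith)
      _ = _ := by ring
  · obtain ⟨j, rfl⟩ := Nat.exists_eq_add_of_le hk
    have h1 := h j x hx1 hx2
    have h2 : y * ℓ⁻¹ ≤ 2 ^ j := by
      rw [← div_eq_mul_inv, div_le_iff₀ hℓ0, hℓ]
      refine hl1.trans (le_of_eq ?_)
      rw [pow_add]
      ring
    have h3 : y ^ (3 / 20 : ℝ) * ℓ⁻¹ ^ (3 / 20 : ℝ) ≤ gR ^ j := by
      rw [← Real.mul_rpow hlx (inv_pos.mpr hℓ0).le]
      have h4 := Real.rpow_le_rpow (mul_nonneg hlx (inv_pos.mpr hℓ0).le) h2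
        (by norm_num : (0 : ℝ) ≤ 3 / 20)
      refine h4.trans (le_of_eq ?_)
      unfold gR
      rw [← Real.rpow_natCast, ← Real.rpow_natCast, ← Real.rpow_mul (by norm_num),
        ← Real.rpow_mul (by norm_num), mul_comm]
    have h5 := hC1 y hlx
    have h6 : -(gR ^ j * 500) ≤ C1 + -y ^ (1 / 7 : ℝ) := by nlinarith
    have h7 : 2 * Real.exp (-(gR ^ j * 500)) ≤
        max (Real.exp (ℓ ^ (1 / 7 : ℝ))) (2 * Real.exp C1) * Real.exp (-y ^ (1 / 7 : ℝ)) := by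
      calc 2 * Real.exp (-(gR ^ j * 500)) ≤ 2 * Real.exp (C1 + -y ^ (1 / 7 : ℝ)) :=
            mul_le_mul_of_nonneg_left (Real.exp_le_exp.mpr h6) (by norm_num)
        _ = (2 * Real.exp C1) * Real.exp (-y ^ (1 / 7 : ℝ)) := by rw [Real.exp_add]; ring
        _ ≤ _ := mul_le_mul_of_nonneg_right (le_max_right _ _) hE0.le
    calc (x : ℝ) - cnt P x ≤ 2 * Real.exp (-(gR ^ j * 500)) * x := h1
      _ ≤ (max (Real.exp (ℓ ^ (1 / 7 : ℝ))) (2 * Real.exp C1) *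
          Real.exp (-y ^ (1 / 7 : ℝ))) * x :=
        mul_le_mul_of_nonneg_right h7 (by linarith)
      _ = _ := by ring

/-- If the intervals overlap, all `x` are covered. -/
theorem rate_all_exp {P : ℕ → Prop} {M Y : ℕ} (hM : 2 ≤ M) (hMY : M ^ 2 ≤ Y) {C : ℝ}
    (hC : 0 ≤ C)
    (h : ∀ k x : ℕ, 1 ≤ x → M ^ 2 ^ k ≤ x → x ≤ 32 * Y ^ 2 ^ k →
      (x : ℝ) - cnt P x ≤ C * x * Real.exp (-(Real.log x) ^ (1 / 7 : ℝ))) :
    ∃ C' : ℝ, ∀ x : ℕ, 1 ≤ x →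
      (x : ℝ) - cnt P x ≤ C' * x * Real.exp (-(Real.log x) ^ (1 / 7 : ℝ)) := by
  refine ⟨C + Real.exp (Real.log M ^ (1 / 7 : ℝ)), fun x hx => ?_⟩
  have hx0 : (1 : ℝ) ≤ x := by exact_mod_cast hx
  have hlx : 0 ≤ Real.log x := Real.log_nonneg hx0
  have hE0 : 0 < Real.exp (-(Real.log x) ^ (1 / 7 : ℝ)) := Real.exp_pos _
  rcases lt_or_ge x M with hxM | hxM
  · have h1 : (x : ℝ) - cnt P x ≤ x := by
      have : (0 : ℝ) ≤ cnt P x := Nat.cast_nonneg _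
      linarith
    have h2 : Real.log x ≤ Real.log M := by
      apply Real.log_le_log (by linarith)
      exact_mod_cast hxM.le
    have h3 := Real.rpow_le_rpow hlx h2 (by norm_num : (0 : ℝ) ≤ 1 / 7)
    have h4 : 1 ≤ Real.exp (Real.log M ^ (1 / 7 : ℝ)) *
        Real.exp (-(Real.log x) ^ (1 / 7 : ℝ)) := by
      rw [← Real.exp_add]
      apply Real.one_le_exp
      linarith
    have h5 : 0 ≤ C * x * Real.exp (-(Real.log x) ^ (1 / 7 : ℝ)) := by positivity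
    have h6 := mul_le_mul_of_nonneg_right h4 (by linarith : (0 : ℝ) ≤ x)
    calc (x : ℝ) - cnt P x ≤ 1 * x := by linarith
      _ ≤ _ := h6
      _ ≤ _ := by nlinarith
  · have hex : ∃ k, x < M ^ 2 ^ (k + 1) := by
      refine ⟨x, ?_⟩
      calc x < 2 ^ x := Nat.lt_two_pow_self
        _ ≤ 2 ^ 2 ^ (x + 1) := Nat.pow_le_pow_right (by norm_num)
            ((Nat.lt_two_pow_self (n := x)).le.trans (Nat.pow_le_pow_right (by norm_num)
              (Nat.le_succ x)))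
        _ ≤ M ^ 2 ^ (x + 1) := Nat.pow_le_pow_left hM _
    classical
    have hk := Nat.find_spec hex
    set k := Nat.find hex with hkdef
    have hk1 : M ^ 2 ^ k ≤ x := by
      rcases Nat.eq_zero_or_pos k with h0 | h0
      · rw [h0]
        simpa using hxM
      · by_contra hcon
        push Not at hcon
        have h3 : ¬ (x < M ^ 2 ^ ((k - 1) + 1)) := Nat.find_min hex (by omega)
        rw [Nat.sub_add_cancel h0] at h3
        exact h3 hcon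
    have hk2 : x ≤ 32 * Y ^ 2 ^ k := by
      have h1 : M ^ 2 ^ (k + 1) = (M ^ 2) ^ 2 ^ k := by rw [pow_succ, mul_comm, pow_mul]
      have h2 : (M ^ 2) ^ 2 ^ k ≤ Y ^ 2 ^ k := Nat.pow_le_pow_left hMY _
      rw [h1] at hk
      omega
    have h1 := h k x hx hk1 hk2
    have h2 : 0 ≤ Real.exp (Real.log M ^ (1 / 7 : ℝ)) * x *
        Real.exp (-(Real.log x) ^ (1 / 7 : ℝ)) := by positivity
    calc (x : ℝ) - cnt P x ≤ C * x * Real.exp (-(Real.log x) ^ (1 / 7 : ℝ)) := h1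
      _ ≤ _ := by nlinarith

/-- `exp (- y ^ (1/7)) ≤ 14! / y ^ 2` -/
theorem exp_le_inv_sq {y : ℝ} (hy : 0 < y) :
    Real.exp (-y ^ (1 / 7 : ℝ)) ≤ (Nat.factorial 14 : ℝ) / y ^ 2 := by
  have hz : 0 ≤ y ^ (1 / 7 : ℝ) := by positivity
  have h1 := Real.pow_div_factorial_le_exp (y ^ (1 / 7 : ℝ)) hz 14
  have h2 : (y ^ (1 / 7 : ℝ)) ^ 14 = y ^ 2 := by
    rw [← Real.rpow_natCast, ← Real.rpow_mul hy.le, ← Real.rpow_natCast]
    norm_num
  rw [h2] at h1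
  have hf : (0 : ℝ) < (Nat.factorial 14 : ℝ) := by positivity
  rw [div_le_iff₀ hf] at h1
  rw [Real.exp_neg, le_div_iff₀ (by positivity), inv_mul_le_iff₀ (Real.exp_pos _)]
  exact h1

end Pool.Agent.AddSq
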