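import Pool.Agent.AddSq.Gen

/-!
# The recursion for the densities, numeric part

`SysW` (file `Gen`) collects the inequalities between the counting functions.
A state is a list of entries `(X, a, b)` with `cW X ≤ a` and `1 + cL X ≤ b`; `level` computes
from a state, by integer arithmetic, a state for the next (squared) scale.  All programs are in
continuation passing style with values in `Bool`.
-/

namespace Pool.Agent.AddSq.Rec

/-! ## Forcing and integer square roots -/

/-- evaluate `n` before calling `f` -/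
def frc (n : ℕ) (f : ℕ → Bool) : Bool :=
  @Nat.rec (fun _ => Bool) (f 0) (fun m _ => f (Nat.succ m)) n

theorem frc_eq (n : ℕ) (f : ℕ → Bool) : frc n f = f n := by cases n <;> rfl

/-- evaluate `n` before calling `f` -/
def frcN (n : ℕ) (f : ℕ → ℕ) : ℕ :=
  @Nat.rec (fun _ => ℕ) (f 0) (fun m _ => f (Nat.succ m)) n

theorem frcN_eq (n : ℕ) (f : ℕ → ℕ) : frcN n f = f n := by cases n <;> rfl

/-- a step of Newton's method -/
def newt (v s : ℕ) : ℕ := Nat.div (Nat.add s (Nat.div v s)) 2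

/-- an upper bound for the square root of `v`, from the start value `s > 0` -/
def su (v s : ℕ) : ℕ :=
  frcN v fun v => frcN s fun s =>
  frcN (newt v s) fun s => frcN (newt v s) fun s => frcN (newt v s) fun s =>
  frcN (newt v s) fun s => frcN (newt v s) fun s => newt v s

theorem sqrt_le_newt {v s : ℕ} (h : 0 < s) : Nat.sqrt v ≤ newt v s := by
  have e : newt v s = (s + v / s) / 2 := rfl
  rw [e, Nat.le_div_iff_mul_le (by norm_num)]
  set r := Nat.sqrt v with hr
  have h1 : r * r ≤ v := Nat.sqrt_le v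
  rcases Nat.lt_or_ge s (2 * r) with h2 | h2
  · have h3 : 2 * r - s ≤ v / s := by
      rw [Nat.le_div_iff_mul_le h]
      refine le_trans ?_ h1
      zify [h2.le]
      nlinarith [sq_nonneg ((r : ℤ) - s)]
    have h4 : 2 * r ≤ s + v / s := by
      have : 2 * r = s + (2 * r - s) := by omega
      rw [this]
      exact Nat.add_le_add_left h3 s
    rw [mul_comm]
    exact h4
  · rw [mul_comm]
    exact h2.trans (Nat.le_add_right _ _)

theorem newt_pos {v s : ℕ} (hv : 0 < v) (h : 0 < s) : 0 < newt v s := by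
  have h1 := sqrt_le_newt (v := v) h
  have h2 : 0 < Nat.sqrt v := Nat.sqrt_pos.mpr hv
  omega

theorem sqrt_le_su (v s : ℕ) (hs : 0 < s) : Nat.sqrt v ≤ su v s := by
  rcases Nat.eq_zero_or_pos v with h | h
  · subst h
    simp
  · unfold su
    simp only [frcN_eq]
    apply sqrt_le_newt
    iterate 5 apply newt_pos h
    exact hs

/-- the bound for the number of positions in a window; `p` is the weight, `R` only serves for
the start value of the square root -/
def phi (S R p B : ℕ) : ℕ :=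
  frcN p fun p =>
  Nat.div (Nat.add p (su (Nat.add (Nat.mul p p) (Nat.mul 4 (Nat.mul p (Nat.mul S (Nat.mul B B)))))
    (Nat.succ (Nat.add p (Nat.mul 10 (Nat.mul B R)))))) 220

theorem le_phi {S R p q B N : ℕ} (hq : q ≤ p)
    (h : (110 * N) ^ 2 ≤ q * (110 * N + S * B ^ 2)) : N ≤ phi S R p B := by
  have e : phi S R p B = (p + su (p * p + 4 * (p * (S * (B * B)))) (p + 10 * (B * R) + 1))
      / 220 := by
    unfold phi
    rw [frcN_eq]
    rfl
  rw [e, Nat.le_div_iff_mul_le (by omega)]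
  have h1 : (110 * N) ^ 2 ≤ p * (110 * N) + p * (S * (B * B)) := by
    refine (h.trans (Nat.mul_le_mul_right _ hq)).trans (le_of_eq ?_)
    ring
  have h2 := sqrt_le_su (p * p + 4 * (p * (S * (B * B)))) (p + 10 * (B * R) + 1) (by omega)
  rcases Nat.lt_or_ge p (2 * (110 * N)) with h3 | h3
  · have h4 : 2 * (110 * N) - p ≤ Nat.sqrt (p * p + 4 * (p * (S * (B * B)))) := by
      rw [Nat.le_sqrt]
      zify [h3.le]
      have h1' : ((110 : ℤ) * N) ^ 2 ≤ p * (110 * N) + p * (S * (B * B)) := by exact_mod_cast h1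
      nlinarith
    have e2 : N * 220 = 2 * (110 * N) := by ring
    omega
  · have e2 : N * 220 = 2 * (110 * N) := by ring
    omega

theorem mono_B {B B' S q y x : ℕ} (hB : B ≤ B') (h : x ≤ q * (y + S * B ^ 2)) :
    x ≤ q * (y + S * B' ^ 2) := by
  refine h.trans ?_
  gcongr

/-! ## States -/

/-- entries `(X, a, b)` -/
abbrev Ent := ℕ × ℕ × ℕ

/-- all entries of the list are correct bounds -/
def VS (cW cL : ℕ → ℕ) (l : List Ent) : Prop := ∀ t ∈ l, cW t.1 ≤ t.2.1 ∧ cL t.1 ≤ t.2.2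

/-- drop the entries with `X < x` at the head -/
def adv (x : ℕ) (k : List Ent → Bool) (l : List Ent) : Bool :=
  @List.rec Ent (fun _ => Bool) (k [])
    (fun t l' ih => @Bool.rec (fun _ => Bool) ih (k (t :: l')) (Nat.ble x t.1)) l

theorem adv_nil (x : ℕ) (k : List Ent → Bool) : adv x k [] = k [] := rfl

theorem adv_cons (x : ℕ) (k : List Ent → Bool) (t : Ent) (l : List Ent) :
    adv x k (t :: l) = @Bool.rec (fun _ => Bool) (adv x k l) (k (t :: l)) (Nat.ble x t.1) := rfl

theorem adv_spec {cW cL : ℕ → ℕ} {x : ℕ} {k : List Ent → Bool} {l : List Ent}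
    (hl : VS cW cL l) (h : adv x k l = true) :
    ∃ l', VS cW cL l' ∧ (∀ t l'', l' = t :: l'' → x ≤ t.1) ∧ k l' = true := by
  induction l with
  | nil => exact ⟨[], hl, by simp, h⟩
  | cons t l ih =>
    rw [adv_cons] at h
    cases hb : Nat.ble x t.1 with
    | true =>
      rw [hb] at h
      refine ⟨t :: l, hl, ?_, h⟩
      intro t' l' he
      have h1 : t = t' := (List.cons.inj he).1
      rw [← h1]
      exact Nat.le_of_ble_eq_true hb
    | false =>
      rw [hb] at h
      exact ih (fun s hs => hl s (List.mem_cons_of_mem _ hs)) h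

/-- read off the bounds at the head, with the trivial bounds for the empty list -/
def look (x : ℕ) (l : List Ent) (k : ℕ → ℕ → Bool) : Bool :=
  @List.rec Ent (fun _ => Bool) (k x (Nat.succ x)) (fun t _ _ => k t.2.1 t.2.2) l

/-- advance and look -/
def al (x : ℕ) (l : List Ent) (k : List Ent → ℕ → ℕ → Bool) : Bool :=
  adv x (fun l' => look x l' (fun a b => k l' a b)) l

theorem al_spec {S1 S2 K0 : ℕ} {cW cL : ℕ → ℕ} (hs : SysW S1 S2 K0 cW cL) {x : ℕ}
    {k : List Ent → ℕ → ℕ → Bool} {l : List Ent}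
    (hl : VS cW cL l) (h : al x l k = true) :
    ∃ l' a b, VS cW cL l' ∧ cW x ≤ a ∧ cL x ≤ b ∧ k l' a b = true := by
  obtain ⟨l', h1, h2, h3⟩ := adv_spec hl h
  cases l' with
  | nil =>
    exact ⟨[], x, Nat.succ x, h1, hs.leW x, hs.leL x, h3⟩
  | cons t l'' =>
    have h4 := h2 t l'' rfl
    have h5 := h1 t List.mem_cons_self
    exact ⟨t :: l'', t.2.1, t.2.2, h1, (hs.monoW h4).trans h5.1, (hs.monoL h4).trans h5.2, h3⟩

/-! ## The loop over the grid -/

/-- entries `(R, G, S, P2, P4)` of the history -/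
abbrev HE := ℕ × ℕ × ℕ × ℕ × ℕ

/-- correct entries: `cL (R² - 1) ≤ G`, `∑_{k < R} cL (2 k) ≤ S` -/
def HVS (cL : ℕ → ℕ) (h : List HE) : Prop :=
  ∀ t ∈ h, 1 ≤ t.1 ∧ cL (t.1 * t.1 - 1) ≤ t.2.1 ∧
    (∑ k ∈ Finset.Icc 1 (t.1 - 1), cL (2 * k)) ≤ t.2.2.1

/-- the weights: `∑_{t.R ≤ k < R} cW (2k) + t.P2 ≤ P2` and the same with `4 k` -/
def Wt (cW : ℕ → ℕ) (h : List HE) (R P2 P4 : ℕ) : Prop :=
  ∀ t ∈ h, (∑ k ∈ Finset.Ico t.1 R, cW (2 * k)) + t.2.2.2.1 ≤ P2 ∧
    (∑ k ∈ Finset.Ico t.1 R, cW (4 * k)) + t.2.2.2.2 ≤ P4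

/-- the weights of the head -/
def HW (cW : ℕ → ℕ) (h : List HE) : Prop :=
  ∀ t l, h = t :: l → Wt cW h t.1 t.2.2.2.1 t.2.2.2.2

theorem sum_triv {cL : ℕ → ℕ} (h : ∀ x, cL x ≤ x + 1) (R : ℕ) :
    (∑ k ∈ Finset.Icc 1 (R - 1), cL (2 * k)) ≤ R * R := by
  have h1 : (∑ k ∈ Finset.Icc 1 (R - 1), cL (2 * k)) ≤ ∑ k ∈ Finset.range R, (2 * k + 1) := by
    refine (Finset.sum_le_sum (fun k _ => h (2 * k))).trans ?_
    apply Finset.sum_le_sum_of_subset
    intro k hk
    rw [Finset.mem_Icc] at hk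
    rw [Finset.mem_range]
    omega
  have h2 : ∀ n : ℕ, ∑ k ∈ Finset.range n, (2 * k + 1) = n * n := by
    intro n
    induction n with
    | zero => rfl
    | succ n ih => rw [Finset.sum_range_succ, ih]; ring
  exact h1.trans (le_of_eq (h2 R))

theorem sum_Ico_le {c : ℕ → ℕ} {a b v m : ℕ} (h : ∀ k, a ≤ k → k < b → c (m * k) ≤ v) :
    (∑ k ∈ Finset.Ico a b, c (m * k)) ≤ (b - a) * v := by
  have h6 : ∀ k ∈ Finset.Ico a b, c (m * k) ≤ v := by
    intro k hk
    rw [Finset.mem_Ico] at hk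
    exact h k hk.1 hk.2
  refine (Finset.sum_le_card_nsmul _ _ _ h6).trans ?_
  rw [Nat.card_Ico, smul_eq_mul]

/-- the sums over the blocks -/
def get3 (R A L C : ℕ) (h : List HE) (k : ℕ → ℕ → ℕ → Bool) : Bool :=
  @List.rec HE (fun _ => Bool) (frc (Nat.mul R R) fun S => k S 0 0)
    (fun t _ _ => frc (Nat.sub R t.1) fun d => frc (Nat.add t.2.2.1 (Nat.mul d L)) fun S =>
      frc (Nat.add t.2.2.2.1 (Nat.mul d A)) fun P2 =>
      frc (Nat.add t.2.2.2.2 (Nat.mul d C)) fun P4 => k S P2 P4) h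

theorem get3_spec {S1 S2 K0 : ℕ} {cW cL : ℕ → ℕ} (hs : SysW S1 S2 K0 cW cL) {R A L C : ℕ}
    {h : List HE} {k : ℕ → ℕ → ℕ → Bool} (hh : HVS cL h) (hw : HW cW h)
    (hA : cW (2 * R) ≤ A) (hL : cL (2 * R) ≤ L) (hC : cW (4 * R) ≤ C)
    (ht : get3 R A L C h k = true) :
    ∃ S P2 P4, (∑ k ∈ Finset.Icc 1 (R - 1), cL (2 * k)) ≤ S ∧ Wt cW h R P2 P4 ∧
      k S P2 P4 = true := by
  cases h with
  | nil =>
    have h1 : (frc (Nat.mul R R) fun S => k S 0 0) = true := ht
    rw [frc_eq] at h1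
    exact ⟨_, _, _, sum_triv hs.leL R, by intro t ht; simp at ht, h1⟩
  | cons t l =>
    have h1 : (frc (Nat.sub R t.1) fun d => frc (Nat.add t.2.2.1 (Nat.mul d L)) fun S =>
      frc (Nat.add t.2.2.2.1 (Nat.mul d A)) fun P2 =>
      frc (Nat.add t.2.2.2.2 (Nat.mul d C)) fun P4 => k S P2 P4) = true := ht
    rw [frc_eq, frc_eq, frc_eq, frc_eq] at h1
    refine ⟨_, _, _, ?_, ?_, h1⟩
    · obtain ⟨h2, _, h3⟩ := hh t List.mem_cons_self
      show _ ≤ t.2.2.1 + (R - t.1) * L
      have h4 : Finset.Icc 1 (R - 1) ⊆ Finset.Icc 1 (t.1 - 1) ∪ Finset.Ico t.1 R := by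
        intro k hk
        rw [Finset.mem_union, Finset.mem_Icc, Finset.mem_Ico]
        rw [Finset.mem_Icc] at hk
        omega
      refine (Finset.sum_le_sum_of_subset h4).trans ?_
      refine (Finset.sum_union_inter (s₁ := Finset.Icc 1 (t.1 - 1))
        (s₂ := Finset.Ico t.1 R) (f := fun k => cL (2 * k)) ▸ Nat.le_add_right _ _ :
        _ ≤ ∑ k ∈ Finset.Icc 1 (t.1 - 1), cL (2 * k) +
          ∑ k ∈ Finset.Ico t.1 R, cL (2 * k)).trans ?_
      refine Nat.add_le_add h3 (sum_Ico_le ?_)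
      intro k _ h5
      exact (hs.monoL (by omega)).trans hL
    · intro s hs'
      obtain ⟨w1, w2⟩ := hw t l rfl s hs'
      have h4 : Finset.Ico s.1 R ⊆ Finset.Ico s.1 t.1 ∪ Finset.Ico t.1 R := by
        intro k hk
        rw [Finset.mem_union, Finset.mem_Ico, Finset.mem_Ico]
        rw [Finset.mem_Ico] at hk
        omega
      have key : ∀ f : ℕ → ℕ, ∑ k ∈ Finset.Ico s.1 R, f k ≤
          ∑ k ∈ Finset.Ico s.1 t.1, f k + ∑ k ∈ Finset.Ico t.1 R, f k := by
        intro f
        refine (Finset.sum_le_sum_of_subset h4).trans ?_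
        exact Finset.sum_union_inter (s₁ := Finset.Ico s.1 t.1)
          (s₂ := Finset.Ico t.1 R) (f := f) ▸ Nat.le_add_right _ _
      constructor
      · show _ ≤ t.2.2.2.1 + (R - t.1) * A
        have k1 := key (fun k => cW (2 * k))
        have k2 : (∑ k ∈ Finset.Ico t.1 R, cW (2 * k)) ≤ (R - t.1) * A :=
          sum_Ico_le (fun k _ h5 => (hs.monoW (by omega)).trans hA)
        omega
      · show _ ≤ t.2.2.2.2 + (R - t.1) * C
        have k1 := key (fun k => cW (4 * k))
        have k2 : (∑ k ∈ Finset.Ico t.1 R, cW (4 * k)) ≤ (R - t.1) * C :=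
          sum_Ico_le (fun k _ h5 => (hs.monoW (by omega)).trans hC)
        omega

/-- `dropN n l` is `l` without its first `n` entries -/
def dropN (n : ℕ) : List HE → List HE :=
  @Nat.rec (fun _ => List HE → List HE) (fun l => l)
    (fun _ ih l => @List.rec HE (fun _ => List HE) [] (fun _ l' _ => ih l') l) n

theorem dropN_mem {n : ℕ} : ∀ {l : List HE} {t : HE}, t ∈ dropN n l → t ∈ l := by
  induction n with
  | zero => intro l t h; exact h
  | succ n ih =>
    intro l t h
    cases l with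
    | nil => exact h
    | cons s l =>
      have h1 : t ∈ dropN n l := h
      exact List.mem_cons_of_mem _ (ih h1)

/-- the minimum, evaluated -/
def mn (a b : ℕ) : ℕ := frcN a fun a => @Bool.rec (fun _ => ℕ) b a (Nat.ble a b)

theorem mn_cases (a b : ℕ) : mn a b = a ∨ mn a b = b := by
  unfold mn
  rw [frcN_eq]
  cases Nat.ble a b
  · exact Or.inr rfl
  · exact Or.inl rfl

/-- may the window from the entry `t` to `R` be used? -/
def gcond (K0 R : ℕ) (t : HE) : Bool :=
  @Bool.rec (fun _ => Bool) false (Nat.ble K0 t.1) (Nat.ble (Nat.mul 3 R) (Nat.mul 5 t.1))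

theorem gcond_true {K0 R : ℕ} {t : HE} (h : gcond K0 R t = true) :
    K0 ≤ t.1 ∧ 3 * R ≤ 5 * t.1 := by
  unfold gcond at h
  cases hb : Nat.ble (Nat.mul 3 R) (Nat.mul 5 t.1) with
  | false =>
    rw [hb] at h
    exact absurd h (by simp)
  | true =>
    rw [hb] at h
    exact ⟨Nat.le_of_ble_eq_true h, Nat.le_of_ble_eq_true hb⟩

/-- the value of the bound `G` obtained from the entry `t` -/
def gval (S1 S2 R A B C P2 P4 : ℕ) (t : HE) : ℕ :=
  mn (Nat.add t.2.1 (Nat.add
      (phi S1 R (Nat.add (Nat.mul 110 A) (Nat.sub P2 t.2.2.2.1)) B)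
      (phi S2 R (Nat.add (Nat.mul 110 C) (Nat.sub P4 t.2.2.2.2)) A)))
    (Nat.mul R R)

/-- the bound `G` for `cL (R² - 1)` -/
def getG (S1 S2 K0 s R A B C P2 P4 : ℕ) (h : List HE) (k : ℕ → Bool) : Bool :=
  @List.rec HE (fun _ => Bool) (frc (Nat.mul R R) k)
    (fun t _ _ => @Bool.rec (fun _ => Bool) (frc (Nat.mul R R) k)
      (frc (gval S1 S2 R A B C P2 P4 t) k) (gcond K0 R t)) (dropN s h)

theorem getG_spec {S1 S2 K0 : ℕ} {cW cL : ℕ → ℕ} (hs : SysW S1 S2 K0 cW cL)
    {s R x A B C P2 P4 : ℕ} (hR : 1 ≤ R)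
    {h : List HE} {k : ℕ → Bool} (hh : HVS cL h) (hw : Wt cW h R P2 P4)
    (hA : cW (2 * R) ≤ A)
    (hx : 8 * (R * R) ≤ x * x) (hB : cL x ≤ B) (hC : cW (4 * R) ≤ C)
    (ht : getG S1 S2 K0 s R A B C P2 P4 h k = true) :
    ∃ G, cL (R * R - 1) ≤ G ∧ k G = true := by
  have triv : cL (R * R - 1) ≤ Nat.mul R R := by
    refine (hs.leL _).trans ?_
    show R * R - 1 + 1 ≤ R * R
    have : 1 ≤ R * R := Nat.mul_pos hR hR
    omega
  unfold getG at ht
  have hm : ∀ t ∈ dropN s h, t ∈ h := fun t ht => dropN_mem ht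
  cases hd : dropN s h with
  | nil =>
    rw [hd] at ht
    have h1 : frc (Nat.mul R R) k = true := ht
    rw [frc_eq] at h1
    exact ⟨_, triv, h1⟩
  | cons t l =>
    rw [hd] at ht hm
    obtain ⟨h2, h3, _⟩ := hh t (hm t List.mem_cons_self)
    obtain ⟨w2, w4⟩ := hw t (hm t List.mem_cons_self)
    have ht' : @Bool.rec (fun _ => Bool) (frc (Nat.mul R R) k)
      (frc (gval S1 S2 R A B C P2 P4 t) k) (gcond K0 R t) = true := ht
    cases hb : gcond K0 R t with
    | false =>
      rw [hb] at ht'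
      have h1 : frc (Nat.mul R R) k = true := ht'
      rw [frc_eq] at h1
      exact ⟨_, triv, h1⟩
    | true =>
      rw [hb] at ht'
      have h1 : frc (gval S1 S2 R A B C P2 P4 t) k = true := ht'
      rw [frc_eq] at h1
      obtain ⟨h6, h5⟩ := gcond_true hb
      refine ⟨_, ?_, h1⟩
      unfold gval
      rcases mn_cases (Nat.add t.2.1 (Nat.add
        (phi S1 R (Nat.add (Nat.mul 110 A) (Nat.sub P2 t.2.2.2.1)) B)
        (phi S2 R (Nat.add (Nat.mul 110 C) (Nat.sub P4 t.2.2.2.2)) A)))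
        (Nat.mul R R) with h4 | h4
      · rw [h4]
        show cL (R * R - 1) ≤ t.2.1 + (phi S1 R (110 * A + (P2 - t.2.2.2.1)) B +
          phi S2 R (110 * C + (P4 - t.2.2.2.2)) A)
        rcases Nat.le_total R t.1 with h7 | h7
        · refine le_trans (hs.monoL ?_) (le_trans h3 (Nat.le_add_right _ _))
          have := Nat.mul_le_mul h7 h7
          omega
        · have hx' : 8 * ((R - 1) * R) ≤ x * x :=
            (Nat.mul_le_mul_left 8 (Nat.mul_le_mul_right R (Nat.sub_le R 1))).trans hx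
          obtain ⟨N1, N2, e1, e2, e3⟩ := hs.loss t.1 R x h6 h7 (by omega) hx'
          have f2 : cW (2 * (R - 1)) ≤ A := (hs.monoW (by omega)).trans hA
          have f4 : cW (4 * (R - 1)) ≤ C := (hs.monoW (by omega)).trans hC
          have f1 := le_phi (R := R) (p := 110 * A + (P2 - t.2.2.2.1)) (by omega)
            (mono_B hB e2)
          have f3 := le_phi (R := R) (p := 110 * C + (P4 - t.2.2.2.2)) (by omega)
            (mono_B f2 e3)
          omega
      · rw [h4]
        exact triv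

/-- the loop over the grid points `rs` (ascending) -/
def loop (S1 S2 K0 s : ℕ) (fin : List HE → Bool) (rs : List ℕ) :
    List HE → List Ent → List Ent → List Ent → Bool :=
  @List.rec ℕ (fun _ => List HE → List Ent → List Ent → List Ent → Bool)
    (fun h _ _ _ => fin h)
    (fun R _ ih h pA pB pC =>
      frc (Nat.mul 2 R) fun xA => al xA pA fun pA A L =>
      frc (Nat.succ (Nat.div (Nat.mul R 282843) 100000)) fun xB => al xB pB fun pB _ B =>
      frc (Nat.mul 4 R) fun xC => al xC pC fun pC C _ =>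
      get3 R A L C h fun S P2 P4 =>
      getG S1 S2 K0 s R A B C P2 P4 h fun G =>
      ih ((R, G, S, P2, P4) :: h) pA pB pC) rs

theorem sqrt8_le (R : ℕ) :
    8 * (R * R) ≤ Nat.succ (Nat.div (Nat.mul R 282843) 100000) *
      Nat.succ (Nat.div (Nat.mul R 282843) 100000) := by
  show 8 * (R * R) ≤ (R * 282843 / 100000 + 1) * (R * 282843 / 100000 + 1)
  have h1 : R * 282843 ≤ (R * 282843 / 100000 + 1) * 100000 := by omega
  set x := R * 282843 / 100000 + 1 with hx
  have h2 := Nat.mul_le_mul h1 h1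
  have h3 : R * 282843 * (R * 282843) = 80000162649 * (R * R) := by ring
  have h4 : x * 100000 * (x * 100000) = 10000000000 * (x * x) := by ring
  rw [h3, h4] at h2
  omega

theorem loop_spec {S1 S2 K0 : ℕ} {cW cL : ℕ → ℕ} (hs : SysW S1 S2 K0 cW cL)
    {s : ℕ} {fin : List HE → Bool} : ∀ (rs : List ℕ) (h : List HE) (pA pB pC : List Ent),
    (∀ R ∈ rs, 1 ≤ R) → HVS cL h → HW cW h → VS cW cL pA → VS cW cL pB → VS cW cL pC →
    loop S1 S2 K0 s fin rs h pA pB pC = true → ∃ h', HVS cL h' ∧ fin h' = true := by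
  intro rs
  induction rs with
  | nil =>
    intro h _ _ _ _ hh _ _ _ _ ht
    exact ⟨h, hh, ht⟩
  | cons R rs ih =>
    intro h pA pB pC hR hh hw hA hB hC ht
    have ht' : (frc (Nat.mul 2 R) fun xA => al xA pA fun pA A L =>
      frc (Nat.succ (Nat.div (Nat.mul R 282843) 100000)) fun xB => al xB pB fun pB _ B =>
      frc (Nat.mul 4 R) fun xC => al xC pC fun pC C _ =>
      get3 R A L C h fun S P2 P4 =>
      getG S1 S2 K0 s R A B C P2 P4 h fun G =>
      loop S1 S2 K0 s fin rs ((R, G, S, P2, P4) :: h) pA pB pC) = true := ht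
    rw [frc_eq] at ht'
    obtain ⟨pA', A, L, a1, a2, a3, ht1⟩ := al_spec hs hA ht'
    rw [frc_eq] at ht1
    obtain ⟨pB', _, B, b1, _, b3, ht2⟩ := al_spec hs hB ht1
    rw [frc_eq] at ht2
    obtain ⟨pC', C, _, c1, c2, _, ht3⟩ := al_spec hs hC ht2
    obtain ⟨S, P2, P4, s1, s2, ht4⟩ := get3_spec hs hh hw a2 a3 c2 ht3
    obtain ⟨G, g1, ht5⟩ := getG_spec hs (hR R List.mem_cons_self) hh s2 a2 (sqrt8_le R) b3
      c2 ht4
    refine ih _ pA' pB' pC' (fun R' hR' => hR R' (List.mem_cons_of_mem _ hR')) ?_ ?_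
      a1 b1 c1 ht5
    · intro t ht
      rcases List.mem_cons.mp ht with h1 | h1
      · rw [h1]
        exact ⟨hR R List.mem_cons_self, g1, s1⟩
      · exact hh t h1
    · intro t l he
      obtain ⟨e1, e2⟩ := List.cons.inj he
      rw [← e1]
      intro t' ht'
      rcases List.mem_cons.mp ht' with h1 | h1
      · rw [h1]
        simp
      · exact s2 t' h1

/-! ## From the history to the next state -/

/-- the first entry `(R', G', _)` of `l` with `2 R² ≤ R'² + 1` -/
def find2 (x : ℕ) (k : ℕ → Bool) (kn : Bool) (l : List HE) : Bool :=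
  @List.rec HE (fun _ => Bool) kn
    (fun t _ ih => @Bool.rec (fun _ => Bool) ih (k t.2.1)
      (Nat.ble x (Nat.succ (Nat.mul t.1 t.1)))) l

theorem find2_spec {x : ℕ} {k : ℕ → Bool} {kn : Bool} : ∀ {l : List HE},
    find2 x k kn l = true → kn = true ∨ ∃ t ∈ l, x ≤ t.1 * t.1 + 1 ∧ k t.2.1 = true := by
  intro l
  induction l with
  | nil => intro h; exact Or.inl h
  | cons t l ih =>
    intro h
    have h' : @Bool.rec (fun _ => Bool) (find2 x k kn l) (k t.2.1)
      (Nat.ble x (Nat.succ (Nat.mul t.1 t.1))) = true := h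
    cases hb : Nat.ble x (Nat.succ (Nat.mul t.1 t.1)) with
    | true =>
      rw [hb] at h'
      exact Or.inr ⟨t, List.mem_cons_self, Nat.le_of_ble_eq_true hb, h'⟩
    | false =>
      rw [hb] at h'
      rcases ih h' with h1 | ⟨t', h1, h2⟩
      · exact Or.inl h1
      · exact Or.inr ⟨t', List.mem_cons_of_mem _ h1, h2⟩

/-- the next state from the history -/
def build (fin : List Ent → Bool) (h : List HE) : List HE → List Ent → Bool :=
  @List.rec HE (fun _ => List HE → List Ent → Bool)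
    (fun _ out => fin out)
    (fun t _ ih acc out =>
      frc (Nat.mul t.1 t.1) fun RR => frc (Nat.mul 2 RR) fun R2 => frc t.2.1 fun b =>
      find2 R2
        (fun G => frc (Nat.sub RR 1) fun X => frc (Nat.add t.2.2.1 G) fun a =>
          ih (t :: acc) ((X, a, b) :: out))
        (ih (t :: acc) out) acc) h

theorem sqrt_sq_sub_one {R : ℕ} (h : 1 ≤ R) : Nat.sqrt (R * R - 1) = R - 1 := by
  obtain ⟨r, rfl⟩ : ∃ r, R = r + 1 := ⟨R - 1, by omega⟩
  have e : (r + 1) * (r + 1) - 1 = r * r + 2 * r := by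
    have : (r + 1) * (r + 1) = r * r + 2 * r + 1 := by ring
    omega
  rw [e, Nat.sqrt_add_eq r (by omega)]
  rfl

theorem build_spec {S1 S2 K0 : ℕ} {cW cL : ℕ → ℕ} (hs : SysW S1 S2 K0 cW cL)
    {fin : List Ent → Bool} : ∀ (h acc : List HE) (out : List Ent), HVS cL h → HVS cL acc →
    VS cW cL out → build fin h acc out = true → ∃ S, VS cW cL S ∧ fin S = true := by
  intro h
  induction h with
  | nil => intro acc out _ _ ho ht; exact ⟨out, ho, ht⟩
  | cons t h ih =>
    intro acc out hh ha ho ht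
    have ht' : (frc (Nat.mul t.1 t.1) fun RR => frc (Nat.mul 2 RR) fun R2 =>
      frc t.2.1 fun b => find2 R2
        (fun G => frc (Nat.sub RR 1) fun X => frc (Nat.add t.2.2.1 G) fun a =>
          build fin h (t :: acc) ((X, a, b) :: out))
        (build fin h (t :: acc) out) acc) = true := ht
    rw [frc_eq, frc_eq, frc_eq] at ht'
    have hh' : HVS cL h := fun s hs' => hh s (List.mem_cons_of_mem _ hs')
    have ht0 := hh t List.mem_cons_self
    have ha' : HVS cL (t :: acc) := by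
      intro s hs'
      rcases List.mem_cons.mp hs' with h1 | h1
      · rw [h1]; exact ht0
      · exact ha s h1
    rcases find2_spec ht' with h1 | ⟨t', h1, h2, h3⟩
    · exact ih _ _ hh' ha' ho h1
    · rw [frc_eq, frc_eq] at h3
      refine ih _ _ hh' ha' ?_ h3
      intro s hs'
      rcases List.mem_cons.mp hs' with h4 | h4
      · rw [h4]
        obtain ⟨p1, p2, p3⟩ := ht0
        obtain ⟨q1, q2, _⟩ := ha t' h1
        constructor
        · show cW (t.1 * t.1 - 1) ≤ t.2.2.1 + t'.2.1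
          refine (hs.win _).trans ?_
          rw [sqrt_sq_sub_one p1]
          refine Nat.add_le_add p3 ((hs.monoL ?_).trans q2)
          have h5 : 2 * (t.1 * t.1) ≤ t'.1 * t'.1 + 1 := h2
          omega
        · exact p2
      · exact ho s h4

/-! ## Levels -/

/-- the geometric grid below `R` -/
def gen (q : ℕ) (k : List ℕ → Bool) (n : ℕ) : ℕ → List ℕ → Bool :=
  @Nat.rec (fun _ => ℕ → List ℕ → Bool) (fun R l => k (R :: l))
    (fun _ ih R l => frc (Nat.succ (Nat.div (Nat.mul R q) 100000)) fun R' => ih R' (R :: l)) n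

theorem gen_spec {q : ℕ} {k : List ℕ → Bool} {n : ℕ} : ∀ {R : ℕ} {l : List ℕ}, 1 ≤ R →
    (∀ r ∈ l, 1 ≤ r) → gen q k n R l = true → ∃ l', (∀ r ∈ l', 1 ≤ r) ∧ k l' = true := by
  induction n with
  | zero =>
    intro R l hR hl h
    refine ⟨R :: l, ?_, h⟩
    intro r hr
    rcases List.mem_cons.mp hr with h1 | h1
    · rw [h1]; exact hR
    · exact hl r h1
  | succ n ih =>
    intro R l hR hl h
    have h' : frc (Nat.succ (Nat.div (Nat.mul R q) 100000))
      (fun R' => gen q k n R' (R :: l)) = true := h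
    rw [frc_eq] at h'
    refine ih (Nat.succ_le_succ (Nat.zero_le _)) ?_ h'
    intro r hr
    rcases List.mem_cons.mp hr with h1 | h1
    · rw [h1]; exact hR
    · exact hl r h1

/-- the last `X` of a state -/
def lastX (l : List Ent) : ℕ → ℕ :=
  @List.rec Ent (fun _ => ℕ → ℕ) (fun m => m) (fun t _ ih _ => ih t.1) l

/-- one level: from the state `S` to the next state -/
def level (S1 S2 K0 s q n : ℕ) (fin : List Ent → Bool) (S : List Ent) : Bool :=
  frc (Nat.succ (Nat.sub (Nat.div (lastX S 0) 4) 1)) fun R =>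
    gen q (fun rs => loop S1 S2 K0 s (fun h => build fin h [] []) rs [] S S S) n R []

theorem level_spec {S1 S2 K0 : ℕ} {cW cL : ℕ → ℕ} (hs : SysW S1 S2 K0 cW cL)
    {s q n : ℕ} {fin : List Ent → Bool} {S : List Ent} (hS : VS cW cL S)
    (h : level S1 S2 K0 s q n fin S = true) : ∃ S', VS cW cL S' ∧ fin S' = true := by
  unfold level at h
  rw [frc_eq] at h
  obtain ⟨rs, h1, h2⟩ := gen_spec (Nat.succ_le_succ (Nat.zero_le _)) (by simp) h
  obtain ⟨h', h3, h4⟩ := loop_spec hs rs [] S S S h1 (by intro t ht; simp at ht)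
    (by intro t l ht; simp at ht) hS hS hS h2
  exact build_spec hs h' [] [] h3 (by intro t ht; simp at ht) (by intro t ht; simp at ht) h4

/-- the levels with the parameters `(s, q, n)` -/
def runL (S1 S2 K0 : ℕ) (fin : List Ent → Bool) (ns : List (ℕ × ℕ × ℕ)) : List Ent → Bool :=
  @List.rec (ℕ × ℕ × ℕ) (fun _ => List Ent → Bool) fin
    (fun n _ ih S => level S1 S2 K0 n.1 n.2.1 n.2.2 ih S) ns

theorem runL_spec {S1 S2 K0 : ℕ} {cW cL : ℕ → ℕ} (hs : SysW S1 S2 K0 cW cL)
    {fin : List Ent → Bool} : ∀ (ns : List (ℕ × ℕ × ℕ)) (S : List Ent),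
    VS cW cL S → runL S1 S2 K0 fin ns S = true →
    ∃ S', VS cW cL S' ∧ fin S' = true := by
  intro ns
  induction ns with
  | nil => intro S hS h; exact ⟨S, hS, h⟩
  | cons n ns ih =>
    intro S hS h
    obtain ⟨S', h1, h2⟩ := level_spec hs hS (show level S1 S2 K0 n.1 n.2.1 n.2.2
      (runL S1 S2 K0 fin ns) S = true from h)
    exact ih S' h1 h2

/-! ## The first state, from the losses only -/

/-- the entries `(R² - 1, R² - 1, v)` of the data `(R, v)` -/
def ents (k : List Ent → Bool) (d : List (ℕ × ℕ)) : List Ent → Bool :=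
  @List.rec (ℕ × ℕ) (fun _ => List Ent → Bool) k
    (fun p _ ih out => frc (Nat.sub (Nat.mul p.1 p.1) 1) fun X => ih ((X, X, p.2) :: out)) d

/-- the data are correct -/
def DV (cL : ℕ → ℕ) (d : List (ℕ × ℕ)) : Prop := ∀ p ∈ d, 1 ≤ p.1 ∧ cL (p.1 * p.1 - 1) ≤ p.2

theorem ents_spec {S1 S2 K0 : ℕ} {cW cL : ℕ → ℕ} (hs : SysW S1 S2 K0 cW cL)
    {k : List Ent → Bool} : ∀ {d : List (ℕ × ℕ)} {out : List Ent}, DV cL d → VS cW cL out →
    ents k d out = true → ∃ out', VS cW cL out' ∧ k out' = true := by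
  intro d
  induction d with
  | nil => intro out _ ho h; exact ⟨out, ho, h⟩
  | cons p d ih =>
    intro out hd ho h
    have h' : (frc (Nat.sub (Nat.mul p.1 p.1) 1) fun X => ents k d ((X, X, p.2) :: out)) = true :=
      h
    rw [frc_eq] at h'
    refine ih (fun q hq => hd q (List.mem_cons_of_mem _ hq)) ?_ h'
    intro t ht
    rcases List.mem_cons.mp ht with h1 | h1
    · rw [h1]
      exact ⟨hs.leW _, (hd p List.mem_cons_self).2⟩
    · exact ho t h1

/-- the sum of the weights `cL (2 k)`, `k < R` -/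
def getW (R b : ℕ) (h : List HE) (k : ℕ → Bool) : Bool :=
  @List.rec HE (fun _ => Bool) (frc (Nat.mul R R) k)
    (fun t _ _ => frc (Nat.add t.2.2.1 (Nat.mul (Nat.sub R t.1) b)) k) h

theorem getW_spec {S1 S2 K0 : ℕ} {cW cL : ℕ → ℕ} (hs : SysW S1 S2 K0 cW cL) {R L : ℕ}
    {h : List HE} {k : ℕ → Bool} (hh : HVS cL h) (hL : cL (2 * R) ≤ L)
    (ht : getW R L h k = true) :
    ∃ S, (∑ k ∈ Finset.Icc 1 (R - 1), cL (2 * k)) ≤ S ∧ k S = true := by
  cases h with
  | nil =>
    have h1 : frc (Nat.mul R R) k = true := ht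
    rw [frc_eq] at h1
    exact ⟨_, sum_triv hs.leL R, h1⟩
  | cons t l =>
    have h1 : frc (Nat.add t.2.2.1 (Nat.mul (Nat.sub R t.1) L)) k = true := ht
    rw [frc_eq] at h1
    refine ⟨_, ?_, h1⟩
    obtain ⟨h2, _, h3⟩ := hh t List.mem_cons_self
    show _ ≤ t.2.2.1 + (R - t.1) * L
    have h4 : Finset.Icc 1 (R - 1) ⊆ Finset.Icc 1 (t.1 - 1) ∪ Finset.Ico t.1 R := by
      intro k hk
      rw [Finset.mem_union, Finset.mem_Icc, Finset.mem_Ico]
      rw [Finset.mem_Icc] at hk
      omega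
    refine (Finset.sum_le_sum_of_subset h4).trans ?_
    refine (Finset.sum_union_inter (s₁ := Finset.Icc 1 (t.1 - 1))
      (s₂ := Finset.Ico t.1 R) (f := fun k => cL (2 * k)) ▸ Nat.le_add_right _ _ :
      _ ≤ ∑ k ∈ Finset.Icc 1 (t.1 - 1), cL (2 * k) +
        ∑ k ∈ Finset.Ico t.1 R, cL (2 * k)).trans ?_
    refine Nat.add_le_add h3 (sum_Ico_le ?_)
    intro k _ h5
    exact (hs.monoL (by omega)).trans hL

/-- the loop over the data -/
def loop0 (fin : List HE → Bool) (d : List (ℕ × ℕ)) : List HE → List Ent → Bool :=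
  @List.rec (ℕ × ℕ) (fun _ => List HE → List Ent → Bool)
    (fun h _ => fin h)
    (fun p _ ih h pA =>
      frc (Nat.mul 2 p.1) fun xA => al xA pA fun pA _ L =>
      getW p.1 L h fun S => ih ((p.1, p.2, S, 0, 0) :: h) pA) d

theorem loop0_spec {S1 S2 K0 : ℕ} {cW cL : ℕ → ℕ} (hs : SysW S1 S2 K0 cW cL)
    {fin : List HE → Bool} : ∀ (d : List (ℕ × ℕ)) (h : List HE) (pA : List Ent), DV cL d →
    HVS cL h → VS cW cL pA → loop0 fin d h pA = true → ∃ h', HVS cL h' ∧ fin h' = true := by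
  intro d
  induction d with
  | nil => intro h _ _ hh _ ht; exact ⟨h, hh, ht⟩
  | cons p d ih =>
    intro h pA hd hh hA ht
    have ht' : (frc (Nat.mul 2 p.1) fun xA => al xA pA fun pA _ L =>
      getW p.1 L h fun S => loop0 fin d ((p.1, p.2, S, 0, 0) :: h) pA) = true := ht
    rw [frc_eq] at ht'
    obtain ⟨pA', _, L, a1, _, a3, ht1⟩ := al_spec hs hA ht'
    obtain ⟨S, s1, ht2⟩ := getW_spec hs hh a3 ht1
    obtain ⟨d1, d2⟩ := hd p List.mem_cons_self
    refine ih _ pA' (fun q hq => hd q (List.mem_cons_of_mem _ hq)) ?_ a1 ht2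
    intro t ht
    rcases List.mem_cons.mp ht with h1 | h1
    · rw [h1]
      exact ⟨d1, d2, s1⟩
    · exact hh t h1

/-- reverse a list -/
def rv (k : List Ent → Bool) (l : List Ent) : List Ent → Bool :=
  @List.rec Ent (fun _ => List Ent → Bool) k (fun t _ ih out => ih (t :: out)) l

theorem rv_spec {cW cL : ℕ → ℕ} {k : List Ent → Bool} : ∀ {l out : List Ent}, VS cW cL l →
    VS cW cL out → rv k l out = true → ∃ out', VS cW cL out' ∧ k out' = true := by
  intro l
  induction l with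
  | nil => intro out _ ho h; exact ⟨out, ho, h⟩
  | cons t l ih =>
    intro out hl ho h
    refine ih (fun s hs => hl s (List.mem_cons_of_mem _ hs)) ?_ (show rv k l (t :: out) = true
      from h)
    intro s hs
    rcases List.mem_cons.mp hs with h1 | h1
    · rw [h1]; exact hl t List.mem_cons_self
    · exact ho s h1

/-- the whole computation: data (ascending), first state, levels -/
def run (S1 S2 K0 : ℕ) (fin : List Ent → Bool) (ns : List (ℕ × ℕ × ℕ)) (d : List (ℕ × ℕ)) :
    Bool :=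
  ents (fun e => rv (fun e => loop0 (fun h => build (runL S1 S2 K0 fin ns) h [] []) d [] e)
    e []) d []

theorem run_spec {S1 S2 K0 : ℕ} {cW cL : ℕ → ℕ} (hs : SysW S1 S2 K0 cW cL)
    {fin : List Ent → Bool} {ns : List (ℕ × ℕ × ℕ)} {d : List (ℕ × ℕ)}
    (hd : DV cL d) (h : run S1 S2 K0 fin ns d = true) :
    ∃ S', VS cW cL S' ∧ fin S' = true := by
  have nilV : VS cW cL [] := by intro t ht; simp at ht
  have nilH : HVS cL [] := by intro t ht; simp at ht
  obtain ⟨e1, h1, h2⟩ := ents_spec hs hd nilV h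
  obtain ⟨e2, h3, h4⟩ := rv_spec h1 nilV h2
  obtain ⟨h', h5, h6⟩ := loop0_spec hs d [] e2 hd nilH h3 h4
  obtain ⟨S, h7, h8⟩ := build_spec hs h' [] [] h5 nilH nilV h6
  exact runL_spec hs ns S h7 h8

end Pool.Agent.AddSq.Rec
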