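import Pool.Agent.AddSq.GenWindow
import Pool.Agent.AddSq.LagD

/-!
# The system with general real constants

`SysR δ ρ₁ σ₁ ρ₂ σ₂ K₀ cW cL`: the normal form of the two counting functions with the lag
inequalities `N² ≤ (δ cW + Σ cW) (ρ N + σ (..)²)`.
-/

namespace Pool.Agent.AddSq

open Finset

/-- the normal form of the window inequalities, general constants -/
structure SysR (δ : ℕ) (ρ₁ σ₁ ρ₂ σ₂ : ℝ) (K0 : ℕ) (cW cL : ℕ → ℕ) : Prop where
  monoW : Monotone cW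
  monoL : Monotone cL
  leW : ∀ x, cW x ≤ x
  leL : ∀ x, cL x ≤ x + 1
  win : ∀ x, cW x ≤ (∑ k ∈ Finset.Icc 1 (Nat.sqrt x), cL (2 * k)) + cL (2 * x)
  loss : ∀ K z R, K0 ≤ K → K ≤ z → 3 * (z - K) ≤ 2 * K → 8 * ((z - 1) * z) ≤ R * R →
    ∃ N1 N2 : ℕ, cL (z * z - 1) ≤ cL (K * K - 1) + N1 + N2 ∧
      (N1 : ℝ) ^ 2 ≤ (δ * (cW (2 * (z - 1)) : ℝ) + ∑ k ∈ Ico K z, (cW (2 * k) : ℝ)) *
        (ρ₁ * N1 + σ₁ * (cL R : ℝ) ^ 2) ∧
      (N2 : ℝ) ^ 2 ≤ (δ * (cW (4 * (z - 1)) : ℝ) + ∑ k ∈ Ico K z, (cW (4 * k) : ℝ)) *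
        (ρ₂ * N2 + σ₂ * (cW (2 * (z - 1)) : ℝ) ^ 2)

/-- division of the lag inequality by `D²` -/
theorem lag_div {D : ℕ} (hD : 1 ≤ D) {N A s t : ℝ} (h : ((D : ℝ) * N) ^ 2 ≤ A * (D * N + s * t)) :
    N ^ 2 ≤ A * (1 / (D : ℝ) * N + s / (D : ℝ) ^ 2 * t) := by
  have hDr : (0 : ℝ) < D := by exact_mod_cast hD
  have e : A * (1 / (D : ℝ) * N + s / (D : ℝ) ^ 2 * t) = (A * (D * N + s * t)) / (D : ℝ) ^ 2 := by
    field_simp
  rw [e, le_div_iff₀ (by positivity)]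
  calc N ^ 2 * (D : ℝ) ^ 2 = ((D : ℝ) * N) ^ 2 := by ring
    _ ≤ _ := h

/-- **The normal form for arbitrary sets with the rules, shift length `D`.** -/
theorem sysR_of_rules {W L : ℕ → Prop} (h : GRules W L) {D : ℕ} (hD : 1 ≤ D) :
    SysR D (1 / D) (4000 * (D : ℝ) ^ 2) (1 / D) (4000 * (D : ℝ) ^ 2) (1000 * D ^ 2)
      (gcount W) (gcount L) where
  monoW := GW.gcount_mono W
  monoL := GW.gcount_mono L
  leW := GW.gcount_le_of_pos h.wpos
  leL := GW.gcount_le L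
  win := GW.gwin h
  loss := by
    intro K z R hK hKz _ hR
    have hDr : (0 : ℝ) < D := by exact_mod_cast hD
    have hD2 : 1 ≤ D ^ 2 := Nat.one_le_pow _ _ hD
    have e : K + (z - K) = z := by omega
    have hs : ((4000 * D ^ 4 : ℕ) : ℝ) / (D : ℝ) ^ 2 = 4000 * (D : ℝ) ^ 2 := by
      push_cast
      field_simp
    refine ⟨(pairs1 (GW.gset W (2 * (z - 1))) (GW.gset L R) K (z - K)).card,
      (pairs2 (GW.gset W (2 * (z - 1))) (GW.gset W (4 * (z - 1))) K (z - K)).card, ?_, ?_, ?_⟩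
    · have q1 := GW.gloss_window h (K := K) (by omega) (z - K)
      have q2 := GW.gwin1_card_le (W := W) (L := L) (K := K) (H := z - K) (R := R)
        (by rw [e]; exact hR)
      have q3 := GW.gwin2_card_le W K (z - K)
      rw [e] at q1 q2 q3
      omega
    · have h1 := lagB1 hD K (z - K) (GW.gset W (2 * (z - 1))) (GW.gset L R) hK
      rw [e, GW.sum_gset_filter 2 K z] at h1
      have h2 := lag_div hD h1
      rw [hs] at h2
      refine h2.trans (le_of_eq ?_)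
      push_cast
      rfl
    · have h1 := lagB2 hD K (z - K) (GW.gset W (2 * (z - 1))) (GW.gset W (4 * (z - 1))) hK
      rw [e, GW.sum_gset_filter 4 K z] at h1
      have h2 := lag_div hD h1
      rw [hs] at h2
      refine h2.trans (le_of_eq ?_)
      push_cast
      rfl

end Pool.Agent.AddSq
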