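import Pool.Agent.AddSq.TabLit
import Pool.Agent.AddSq.Grow
import Pool.Agent.AddSq.Asm

/-!
# Cut tables for the closure check of `TabLit`
-/

namespace Pool.Agent.AddSq.TL

/-- the wins below `70400` -/
noncomputable def WS : ℕ := Nat.land WT (Nat.sub (Nat.shiftLeft 1 70400) 1)

/-- the lost positions below `70400` -/
noncomputable def LS : ℕ := Nat.land LT (Nat.sub (Nat.shiftLeft 1 70400) 1)

end Pool.Agent.AddSq.TL
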