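import Pool.Agent.AddSq.Base

/-!
# Tables below `512²`, `1024²`, `2048²`, `4096²`
-/

namespace Pool.Agent.AddSq

noncomputable def w512 : ℕ := ext w256 (WW w256 l256 4) 256 8
noncomputable def l512 : ℕ := ext l256 (LL w256 l256 4) 256 8

theorem tab512 : Tab w512 l512 Win Lost (512 * 512) :=
  tab_ext tab256 (by norm_num) (by decide +kernel) (by decide +kernel)

noncomputable def w1024 : ℕ := ext w512 (WW w512 l512 4) 512 9
noncomputable def l1024 : ℕ := ext l512 (LL w512 l512 4) 512 9

theorem tab1024 : Tab w1024 l1024 Win Lost (1024 * 1024) :=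
  tab_ext tab512 (by norm_num) (by decide +kernel) (by decide +kernel)

noncomputable def w2048 : ℕ := ext w1024 (WW w1024 l1024 4) 1024 10
noncomputable def l2048 : ℕ := ext l1024 (LL w1024 l1024 4) 1024 10

theorem tab2048 : Tab w2048 l2048 Win Lost (2048 * 2048) :=
  tab_ext tab1024 (by norm_num) (by decide +kernel) (by decide +kernel)

noncomputable def w4096 : ℕ := ext w2048 (WW w2048 l2048 4) 2048 11
noncomputable def l4096 : ℕ := ext l2048 (LL w2048 l2048 4) 2048 11

theorem tab4096 : Tab w4096 l4096 Win Lost (4096 * 4096) :=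
  tab_ext tab2048 (by norm_num) (by decide +kernel) (by decide +kernel)

end Pool.Agent.AddSq
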