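import Mathlib

/-!
# The van der Corput inequality with a bounded shift, for finitely supported functions on `ℤ`
-/

namespace Pool.Agent.AddSq

open Finset

/-- sum of a function supported in `[a, b)` over a larger interval -/
theorem sum_Ico_of_support {g : ℤ → ℝ} {a b a' b' : ℤ} (ha : a' ≤ a) (hb : b ≤ b')
    (hg : ∀ k, g k ≠ 0 → a ≤ k ∧ k < b) :
    ∑ k ∈ Ico a' b', g k = ∑ k ∈ Ico a b, g k := by
  symm
  apply Finset.sum_subset
  · intro k hk
    rw [mem_Ico] at hk ⊢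
    omega
  · intro k _ hk
    by_contra hc
    exact hk (mem_Ico.mpr (hg k hc))

/-- number of pairs `(i, j)` in `[0, D)²` with `j - i = d` -/
theorem sum_pairs (D : ℕ) (F : ℤ → ℝ) :
    ∑ i ∈ Ico (0 : ℤ) D, ∑ j ∈ Ico (0 : ℤ) D, F (j - i) =
      ∑ d ∈ Ioo (-(D : ℤ)) D, ((D : ℝ) - |(d : ℝ)|) * F d := by
  have h1 : ∑ i ∈ Ico (0 : ℤ) D, ∑ j ∈ Ico (0 : ℤ) D, F (j - i) =
      ∑ i ∈ Ico (0 : ℤ) D, ∑ d ∈ Ioo (-(D : ℤ)) D,
        (if 0 ≤ i + d ∧ i + d < D then F d else 0) := by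
    apply Finset.sum_congr rfl
    intro i hi
    rw [mem_Ico] at hi
    rw [← Finset.sum_filter]
    refine Finset.sum_bij' (fun j _ => j - i) (fun d _ => i + d) ?_ ?_ ?_ ?_ ?_
    · intro j hj
      rw [mem_Ico] at hj
      rw [mem_filter, mem_Ioo]
      omega
    · intro d hd
      rw [mem_filter, mem_Ioo] at hd
      rw [mem_Ico]
      omega
    · intro j _
      omega
    · intro d _
      omega
    · intro j _
      rfl
  rw [h1, Finset.sum_comm]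
  apply Finset.sum_congr rfl
  intro d hd
  rw [mem_Ioo] at hd
  rw [← Finset.sum_filter, Finset.sum_const, nsmul_eq_mul]
  congr 1
  have h2 : (Ico (0 : ℤ) D).filter (fun i => 0 ≤ i + d ∧ i + d < D) =
      Ico (max 0 (-d)) (min (D : ℤ) (D - d)) := by
    ext i
    rw [mem_filter, mem_Ico, mem_Ico]
    omega
  rw [h2, Int.card_Ico]
  rcases le_total 0 d with h | h
  · have e1 : max 0 (-d) = 0 := by omega
    have e2 : min (D : ℤ) (D - d) = D - d := by omega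
    rw [e1, e2, abs_of_nonneg (by exact_mod_cast h)]
    have : ((((D : ℤ) - d - 0).toNat : ℤ) : ℝ) = (D : ℝ) - d := by
      rw [Int.toNat_of_nonneg (by omega)]
      push_cast
      ring
    exact_mod_cast this
  · have e1 : max 0 (-d) = -d := by omega
    have e2 : min (D : ℤ) (D - d) = D := by omega
    rw [e1, e2, abs_of_nonpos (by exact_mod_cast h)]
    have : ((((D : ℤ) - -d).toNat : ℤ) : ℝ) = (D : ℝ) - -d := by
      rw [Int.toNat_of_nonneg (by omega)]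
      push_cast
      ring
    exact_mod_cast this

/-- **van der Corput.**  If `g` is supported in `[K, K + H)` and `D ≥ 1` then
`(D Σ g(k))² ≤ (H + D) Σ_{|d| < D} (D - |d|) Σ_k g(k) g(k + d)`. -/
theorem vdc {g : ℤ → ℝ} {K : ℤ} {H D : ℕ}
    (hg : ∀ k, g k ≠ 0 → K ≤ k ∧ k < K + H) :
    ((D : ℝ) * ∑ k ∈ Ico K (K + H), g k) ^ 2 ≤
      ((H : ℝ) + D) * ∑ d ∈ Ioo (-(D : ℤ)) D,
        ((D : ℝ) - |(d : ℝ)|) * ∑ k ∈ Ico K (K + H), g k * g (k + d) := by
  rcases Nat.eq_zero_or_pos D with h0 | hD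
  · subst h0
    simp
  -- the window sums
  set I : Finset ℤ := Ico (K - D) (K + H) with hI
  have hcard : ((I.card : ℕ) : ℝ) = (H : ℝ) + D := by
    rw [hI, Int.card_Ico]
    have : ((((K + H) - (K - D)).toNat : ℤ) : ℝ) = (H : ℝ) + D := by
      rw [Int.toNat_of_nonneg (by omega)]
      push_cast
      ring
    exact_mod_cast this
  have shift : ∀ (F : ℤ → ℝ) (i : ℤ), 0 ≤ i → i < D →
      (∀ k, F k ≠ 0 → K ≤ k ∧ k < K + H) →
      ∑ x ∈ I, F (x + i) = ∑ k ∈ Ico K (K + H), F k := by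
    intro F i h0 h1 hF
    have e : ∑ x ∈ I, F (x + i) = ∑ k ∈ Ico (K - D + i) (K + H + i), F k := by
      refine Finset.sum_bij' (fun x _ => x + i) (fun k _ => k - i) ?_ ?_ ?_ ?_ ?_
      · intro x hx
        rw [hI, mem_Ico] at hx
        rw [mem_Ico]
        omega
      · intro x hx
        rw [mem_Ico] at hx
        rw [hI, mem_Ico]
        omega
      · intro x _
        omega
      · intro x _
        omega
      · intro x _
        rfl
    rw [e]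
    exact sum_Ico_of_support (by omega) (by omega) hF
  have h1 : (D : ℝ) * ∑ k ∈ Ico K (K + H), g k =
      ∑ x ∈ I, ∑ i ∈ Ico (0 : ℤ) D, g (x + i) := by
    rw [Finset.sum_comm]
    have : ∀ i ∈ Ico (0 : ℤ) D, ∑ x ∈ I, g (x + i) = ∑ k ∈ Ico K (K + H), g k := by
      intro i hi
      rw [mem_Ico] at hi
      exact shift g i hi.1 hi.2 hg
    rw [Finset.sum_congr rfl this, Finset.sum_const, Int.card_Ico, nsmul_eq_mul]
    simp
  have h2 : (∑ x ∈ I, ∑ i ∈ Ico (0 : ℤ) D, g (x + i)) ^ 2 ≤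
      (I.card : ℝ) * ∑ x ∈ I, (∑ i ∈ Ico (0 : ℤ) D, g (x + i)) ^ 2 := by
    exact sq_sum_le_card_mul_sum_sq
  have h3 : ∑ x ∈ I, (∑ i ∈ Ico (0 : ℤ) D, g (x + i)) ^ 2 =
      ∑ d ∈ Ioo (-(D : ℤ)) D,
        ((D : ℝ) - |(d : ℝ)|) * ∑ k ∈ Ico K (K + H), g k * g (k + d) := by
    rw [← sum_pairs D (fun d => ∑ k ∈ Ico K (K + H), g k * g (k + d))]
    have e1 : ∀ x ∈ I, (∑ i ∈ Ico (0 : ℤ) D, g (x + i)) ^ 2 =
        ∑ i ∈ Ico (0 : ℤ) D, ∑ j ∈ Ico (0 : ℤ) D, g (x + i) * g (x + j) := by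
      intro x _
      rw [sq, Finset.sum_mul_sum]
    rw [Finset.sum_congr rfl e1, Finset.sum_comm]
    apply Finset.sum_congr rfl
    intro i hi
    rw [Finset.sum_comm]
    apply Finset.sum_congr rfl
    intro j hj
    rw [mem_Ico] at hi hj
    have := shift (fun k => g k * g (k + (j - i))) i hi.1 hi.2 (fun k hk => by
      apply hg
      intro hz
      apply hk
      simp [hz])
    rw [← this]
    apply Finset.sum_congr rfl
    intro x _
    congr 2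
    ring
  rw [h1, ← h3, ← hcard]
  exact h2

/-- The averaged form: a family `g a`, `a ∈ A`. -/
theorem vdc_family {ι : Type*} (A : Finset ι) {g : ι → ℤ → ℝ} {K : ℤ} {H D : ℕ}
    (hg : ∀ a ∈ A, ∀ k, g a k ≠ 0 → K ≤ k ∧ k < K + H) :
    ((D : ℝ) * ∑ a ∈ A, ∑ k ∈ Ico K (K + H), g a k) ^ 2 ≤
      (A.card : ℝ) * (((H : ℝ) + D) * ∑ d ∈ Ioo (-(D : ℤ)) D,
        ((D : ℝ) - |(d : ℝ)|) * ∑ a ∈ A, ∑ k ∈ Ico K (K + H), g a k * g a (k + d)) := by
  have h1 : ((D : ℝ) * ∑ a ∈ A, ∑ k ∈ Ico K (K + H), g a k) ^ 2 ≤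
      (A.card : ℝ) * ∑ a ∈ A, ((D : ℝ) * ∑ k ∈ Ico K (K + H), g a k) ^ 2 := by
    rw [Finset.mul_sum]
    exact sq_sum_le_card_mul_sum_sq
  refine h1.trans (mul_le_mul_of_nonneg_left ?_ (by positivity))
  have h2 : ∑ a ∈ A, ((D : ℝ) * ∑ k ∈ Ico K (K + H), g a k) ^ 2 ≤
      ∑ a ∈ A, ((H : ℝ) + D) * ∑ d ∈ Ioo (-(D : ℤ)) D,
        ((D : ℝ) - |(d : ℝ)|) * ∑ k ∈ Ico K (K + H), g a k * g a (k + d) :=
    Finset.sum_le_sum (fun a ha => vdc (hg a ha))
  refine h2.trans (le_of_eq ?_)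
  rw [← Finset.mul_sum]
  congr 1
  rw [Finset.sum_comm]
  apply Finset.sum_congr rfl
  intro d _
  rw [← Finset.mul_sum]

end Pool.Agent.AddSq
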