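import Pool.Agent.AddSq.VdC

/-!
# The van der Corput inequality for a family with individual windows
-/

namespace Pool.Agent.AddSq

open Finset

/-- The averaged form with individual windows `[s a, s a + l a)` of the members. -/
theorem vdc_family_w {ι : Type*} (A : Finset ι) {g : ι → ℤ → ℝ} {K : ℤ} {H D : ℕ}
    (s : ι → ℤ) (l : ι → ℕ) (hs : ∀ a ∈ A, K ≤ s a) (hl : ∀ a ∈ A, s a + l a ≤ K + H)
    (hg : ∀ a ∈ A, ∀ k, g a k ≠ 0 → s a ≤ k ∧ k < s a + l a)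
    (hg0 : ∀ a ∈ A, ∀ k, 0 ≤ g a k) :
    ((D : ℝ) * ∑ a ∈ A, ∑ k ∈ Ico K (K + H), g a k) ^ 2 ≤
      (∑ a ∈ A, ((l a : ℝ) + D)) * ∑ d ∈ Ioo (-(D : ℤ)) D,
        ((D : ℝ) - |(d : ℝ)|) * ∑ a ∈ A, ∑ k ∈ Ico K (K + H), g a k * g a (k + d) := by
  -- each member
  have h1 : ∀ a ∈ A, ((D : ℝ) * ∑ k ∈ Ico K (K + H), g a k) ^ 2 ≤
      ((l a : ℝ) + D) * ∑ d ∈ Ioo (-(D : ℤ)) D,
        ((D : ℝ) - |(d : ℝ)|) * ∑ k ∈ Ico K (K + H), g a k * g a (k + d) := by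
    intro a ha
    have h := vdc (g := g a) (K := s a) (H := l a) (D := D) (hg a ha)
    rw [sum_Ico_of_support (hs a ha) (hl a ha) (hg a ha)]
    have h2 : ∀ d ∈ Ioo (-(D : ℤ)) D,
        ((D : ℝ) - |(d : ℝ)|) * ∑ k ∈ Ico K (K + H), g a k * g a (k + d) =
        ((D : ℝ) - |(d : ℝ)|) * ∑ k ∈ Ico (s a) (s a + l a), g a k * g a (k + d) := by
      intro d _
      rw [sum_Ico_of_support (hs a ha) (hl a ha)]
      intro k hk
      exact hg a ha k (left_ne_zero_of_mul hk)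
    rw [Finset.sum_congr rfl h2]
    exact h
  have h3 : (D : ℝ) * ∑ a ∈ A, ∑ k ∈ Ico K (K + H), g a k =
      ∑ a ∈ A, (D : ℝ) * ∑ k ∈ Ico K (K + H), g a k := by
    rw [Finset.mul_sum]
  have h4 : ∑ d ∈ Ioo (-(D : ℤ)) D,
        ((D : ℝ) - |(d : ℝ)|) * ∑ a ∈ A, ∑ k ∈ Ico K (K + H), g a k * g a (k + d) =
      ∑ a ∈ A, ∑ d ∈ Ioo (-(D : ℤ)) D,
        ((D : ℝ) - |(d : ℝ)|) * ∑ k ∈ Ico K (K + H), g a k * g a (k + d) := by
    rw [Finset.sum_comm]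
    apply Finset.sum_congr rfl
    intro d _
    rw [Finset.mul_sum]
  rw [h3, h4]
  apply Finset.sum_sq_le_sum_mul_sum_of_sq_le_mul
  · intro a _
    positivity
  · intro a ha
    apply Finset.sum_nonneg
    intro d hd
    rw [mem_Ioo] at hd
    apply mul_nonneg
    · have h5 : |(d : ℝ)| ≤ D := by
        rw [abs_le]
        have h6 : (-(D : ℤ) : ℝ) < d := by exact_mod_cast hd.1
        have h7 : (d : ℝ) < D := by exact_mod_cast hd.2
        push_cast at h6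
        exact ⟨h6.le, h7.le⟩
      linarith
    · apply Finset.sum_nonneg
      intro k _
      exact mul_nonneg (hg0 a ha _) (hg0 a ha _)
  · exact h1

end Pool.Agent.AddSq
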