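import Pool.Agent.AddSq.Iface

/-!
# Interfaces of the counting inequalities with weighted shifts

`D` = number of shifts, `C` = sum of the weights, `R` = sum of their squares, `S` = the
certified second moment.  `LagBound1 K₀ S` is the case `D = C = R = 110` (flat weights).
-/

namespace Pool.Agent.AddSq

open Finset

/-- the inequality of lag one with weighted shifts -/
def WBound1 (K₀ D C R S : ℕ) : Prop := ∀ (K H : ℕ) (A B : Finset ℕ), K₀ ≤ K → 3 * H ≤ 2 * K →
  ((C : ℝ) * (pairs1 A B K H).card) ^ 2 ≤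
    (D * (A.card : ℝ) + ∑ k ∈ Finset.Ico K (K + H), ((A.filter (fun a => a ≤ 2 * k)).card : ℝ)) *
      (R * (pairs1 A B K H).card + S * (B.card : ℝ) ^ 2)

/-- the inequality of lag two with weighted shifts -/
def WBound2 (K₀ D C R S : ℕ) : Prop := ∀ (K H : ℕ) (A B : Finset ℕ), K₀ ≤ K → 3 * H ≤ 2 * K →
  ((C : ℝ) * (pairs2 A B K H).card) ^ 2 ≤
    (D * (B.card : ℝ) + ∑ k ∈ Finset.Ico K (K + H), ((B.filter (fun c => c ≤ 4 * k)).card : ℝ)) *
      (R * (pairs2 A B K H).card + S * (A.card : ℝ) ^ 2)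

theorem wBound1_of {K₀ S : ℕ} (h : LagBound1 K₀ S) : WBound1 K₀ 110 110 110 S := by
  intro K H A B hK hH
  have := h K H A B hK hH
  push_cast
  exact this

theorem wBound2_of {K₀ S : ℕ} (h : LagBound2 K₀ S) : WBound2 K₀ 110 110 110 S := by
  intro K H A B hK hH
  have := h K H A B hK hH
  push_cast
  exact this

end Pool.Agent.AddSq
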