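import Pool.Agent.AddSq.WvdC
import Pool.Agent.AddSq.Lag1w

/-!
# Counting lemma, lag one, with weighted shifts

`C² N² ≤ (D |A| + Σ_{k ∈ [K, K + H)} |A ∩ [0, 2k]|) (R(0) N + M |B|²)`.
-/

namespace Pool.Agent.AddSq

open Finset

/-- **Counting lemma, lag one, with weighted shifts.** -/
theorem lag1_wc (c : ℕ → ℕ) (A B : Finset ℕ) {K H D M : ℕ} (hK : 1 ≤ K) (E : ℤ → Finset ℤ) (J : ℤ → ℤ → ℕ)
    (comp : ℤ → ℤ → ℤ → Prop) [∀ d e h, Decidable (comp d e h)]
    (hE : ∀ d : ℤ, d ≠ 0 → |d| < D → ∀ k m m' a b b' : ℤ, K ≤ k → k < K + H → K ≤ k + d →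
      k + d < K + H → Sol k m a b → Sol (k + d) m' a b' →
      m' - m ∈ E d ∧ comp d (m' - m) (b' - b))
    (hJ : ∀ d : ℤ, d ≠ 0 → |d| < D → ∀ e ∈ E d, e ≠ 0 ∧
      4 * |(d : ℝ)| ≤ |Real.sqrt 2 * d - e| * K ∧
      ((Int.gcd (2 * d) e : ℕ) : ℝ) * K <
        (J d e + 1) * (2 * |Real.sqrt 2 * d - e| * K - 2 * |(e : ℝ)| - 2 * |(d : ℝ)|))
    (hM : ∀ h : ℤ, ∑ d ∈ (Ioo (-(D : ℤ)) D).erase 0,
      wR c D d.natAbs * ∑ e ∈ E d, (if comp d e h then J d e + 1 else 0) ≤ M) :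
    ((wSum c D : ℝ) * (pairs1 A B K H).card) ^ 2 ≤
      ((D : ℝ) * A.card + (∑ k ∈ Finset.Ico K (K + H), (A.filter (fun a => a ≤ 2 * k)).card : ℕ)) *
        ((wR c D 0 : ℝ) * (pairs1 A B K H).card + M * (B.card : ℝ) ^ 2) := by
  classical
  set N := (pairs1 A B K H).card with hN
  set cond : ℕ → ℤ → Prop := fun a k =>
    (K : ℤ) ≤ k ∧ k < K + H ∧ (a : ℤ) ≤ 2 * k ∧ r1 k.toNat a ∈ B with hcond
  set g : ℕ → ℤ → ℝ := fun a k => if cond a k then 1 else 0 with hg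
  have hsupp : ∀ a ∈ A, ∀ k, g a k ≠ 0 → (K : ℤ) ≤ k ∧ k < (K : ℤ) + H := by
    intro a _ k hk
    by_contra hc
    apply hk
    rw [hg]
    simp only
    rw [if_neg]
    intro h
    exact hc ⟨h.1, h.2.1⟩
  have hst : ∀ a : ℕ, K ≤ startOf K H a ∧ startOf K H a ≤ K + H := by
    intro a
    unfold startOf
    omega
  have key := vdc_family_wc c A (g := g) (K := (K : ℤ)) (H := H) (D := D)
    (fun a => (startOf K H a : ℤ)) (fun a => K + H - startOf K H a)
    (fun a _ => by exact_mod_cast (hst a).1)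
    (fun a _ => by
      have := (hst a).2
      omega)
    (fun a ha k hk => by
      have h0 : cond a k := by
        by_contra hc
        apply hk
        rw [hg]
        simp only
        rw [if_neg hc]
      obtain ⟨h1, h2, h3, _⟩ := h0
      have := (hst a).2
      constructor
      · unfold startOf
        omega
      · omega)
    (fun a _ k => by
      rw [hg]
      simp only
      split_ifs <;> norm_num)
  have hlen : ∑ a ∈ A, (((K + H - startOf K H a : ℕ) : ℝ) + D) = (D : ℝ) * A.card +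
      (∑ k ∈ Finset.Ico K (K + H), (A.filter (fun a => a ≤ 2 * k)).card : ℕ) := by
    rw [Finset.sum_add_distrib, Finset.sum_const, nsmul_eq_mul, ← sum_len A K H]
    push_cast
    ring
  rw [hlen] at key
  -- products
  have hprod : ∀ (d : ℤ), ∑ a ∈ A, ∑ k ∈ Ico (K : ℤ) (K + H), g a k * g a (k + d) =
      (((A ×ˢ Finset.Ico K (K + H)).filter (fun p : ℕ × ℕ =>
        (p.1 ≤ 2 * p.2 ∧ r1 p.2 p.1 ∈ B) ∧
        ((K : ℤ) ≤ p.2 + d ∧ (p.2 : ℤ) + d < K + H ∧ (p.1 : ℤ) ≤ 2 * (p.2 + d) ∧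
          r1 (p.2 + d).toNat p.1 ∈ B))).card : ℝ) := by
    intro d
    rw [Finset.card_filter, Finset.sum_product]
    push_cast
    apply Finset.sum_congr rfl
    intro a _
    symm
    refine Finset.sum_bij' (fun (k : ℕ) _ => (k : ℤ)) (fun (k : ℤ) _ => k.toNat)
      ?_ ?_ ?_ ?_ ?_
    · intro k hk
      rw [mem_Ico] at hk ⊢
      exact ⟨by exact_mod_cast hk.1, by exact_mod_cast hk.2⟩
    · intro k hk
      rw [mem_Ico] at hk ⊢
      omega
    · intro k _
      simp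
    · intro k hk
      rw [mem_Ico] at hk
      exact Int.toNat_of_nonneg (by omega)
    · intro k hk
      rw [mem_Ico] at hk
      have h1 : cond a (k : ℤ) ↔ (a ≤ 2 * k ∧ r1 k a ∈ B) := by
        rw [hcond]
        simp only [Int.toNat_natCast]
        constructor
        · rintro ⟨_, _, q1, q2⟩
          exact ⟨by exact_mod_cast q1, q2⟩
        · rintro ⟨q1, q2⟩
          exact ⟨by exact_mod_cast hk.1, by exact_mod_cast hk.2, by exact_mod_cast q1, q2⟩
      rw [hg]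
      simp only
      by_cases c1 : cond a (k : ℤ)
      · by_cases c2 : cond a ((k : ℤ) + d)
        · rw [if_pos c1, if_pos c2, if_pos ⟨h1.mp c1, c2⟩]
          norm_num
        · rw [if_pos c1, if_neg c2, if_neg (fun h => c2 h.2)]
          norm_num
      · rw [if_neg c1, if_neg (fun h => c1 (h1.mpr h.1))]
        norm_num
  have hsum : ∑ a ∈ A, ∑ k ∈ Ico (K : ℤ) (K + H), g a k = N := by
    have h0 := hprod 0
    have h1 : ∀ a ∈ A, ∑ k ∈ Ico (K : ℤ) (K + H), g a k * g a (k + 0) =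
        ∑ k ∈ Ico (K : ℤ) (K + H), g a k := by
      intro a _
      apply Finset.sum_congr rfl
      intro k _
      rw [add_zero, hg]
      simp only
      split_ifs <;> norm_num
    rw [← Finset.sum_congr rfl h1, h0, hN, pairs1]
    congr 2
    apply Finset.filter_congr
    rintro ⟨a, k⟩ hp
    rw [mem_product, mem_Ico] at hp
    simp only [add_zero, Int.toNat_natCast]
    constructor
    · rintro ⟨q, _⟩
      exact q
    · intro q
      exact ⟨q, by exact_mod_cast hp.2.1, by exact_mod_cast hp.2.2, by exact_mod_cast q.1, q.2⟩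
  have h0 : ∑ a ∈ A, ∑ k ∈ Ico (K : ℤ) (K + H), g a k * g a (k + 0) = N := by
    rw [← hsum]
    apply Finset.sum_congr rfl
    intro a _
    apply Finset.sum_congr rfl
    intro k _
    rw [add_zero, hg]
    simp only
    split_ifs <;> norm_num
  rw [hsum] at key
  refine key.trans (mul_le_mul_of_nonneg_left ?_ (add_nonneg (mul_nonneg (Nat.cast_nonneg _)
    (Nat.cast_nonneg _)) (Nat.cast_nonneg _)))
  -- split off `d = 0`
  rcases Nat.eq_zero_or_pos D with hD0 | hD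
  · subst hD0
    simp
    positivity
  have hmem : (0 : ℤ) ∈ Ioo (-(D : ℤ)) D := by rw [mem_Ioo]; omega
  rw [← Finset.add_sum_erase _ _ hmem, h0]
  rw [Int.natAbs_zero]
  apply add_le_add le_rfl
  -- the terms `d ≠ 0`
  have hterm : ∀ d ∈ (Ioo (-(D : ℤ)) D).erase 0,
      (wR c D d.natAbs : ℝ) * ∑ a ∈ A, ∑ k ∈ Ico (K : ℤ) (K + H), g a k * g a (k + d) ≤
      ((∑ b ∈ B, ∑ b' ∈ B, wR c D d.natAbs *
        ∑ e ∈ E d, (if comp d e ((b' : ℤ) - b) then J d e + 1 else 0) : ℕ) : ℝ) := by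
    intro d hd
    rw [mem_erase, mem_Ioo] at hd
    obtain ⟨hd0, hd1, hd2⟩ := hd
    have habs : |d| < D := abs_lt.mpr ⟨hd1, hd2⟩
    rw [hprod d]
    have hb := pair_bound (B := B) (K := K) (H := H) (d := d) (E := E d) (J := J d)
      (comp := comp d) hK A (hE d hd0 habs) (hJ d hd0 habs)
    have hb2 := Nat.mul_le_mul_left (wR c D d.natAbs) hb
    have e1 : wR c D d.natAbs * ∑ b ∈ B, ∑ b' ∈ B, ∑ e ∈ E d,
        (if comp d e ((b' : ℤ) - b) then J d e + 1 else 0) =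
        ∑ b ∈ B, ∑ b' ∈ B, wR c D d.natAbs *
        ∑ e ∈ E d, (if comp d e ((b' : ℤ) - b) then J d e + 1 else 0) := by
      rw [Finset.mul_sum]
      apply Finset.sum_congr rfl
      intro b _
      rw [Finset.mul_sum]
    rw [e1] at hb2
    exact_mod_cast hb2
  refine (Finset.sum_le_sum hterm).trans ?_
  have hfin : ∑ d ∈ (Ioo (-(D : ℤ)) D).erase 0, ∑ b ∈ B, ∑ b' ∈ B, wR c D d.natAbs *
        ∑ e ∈ E d, (if comp d e ((b' : ℤ) - b) then J d e + 1 else 0) ≤
      M * B.card ^ 2 := by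
    rw [Finset.sum_comm]
    have h1 : ∀ b ∈ B, ∑ d ∈ (Ioo (-(D : ℤ)) D).erase 0, ∑ b' ∈ B, wR c D d.natAbs *
        ∑ e ∈ E d, (if comp d e ((b' : ℤ) - b) then J d e + 1 else 0) ≤ M * B.card := by
      intro b _
      rw [Finset.sum_comm]
      have h2 : ∀ b' ∈ B, ∑ d ∈ (Ioo (-(D : ℤ)) D).erase 0, wR c D d.natAbs *
        ∑ e ∈ E d, (if comp d e ((b' : ℤ) - b) then J d e + 1 else 0) ≤ M := fun b' _ =>
          hM _
      refine (Finset.sum_le_sum h2).trans ?_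
      rw [Finset.sum_const, smul_eq_mul, mul_comm]
    refine (Finset.sum_le_sum h1).trans ?_
    rw [Finset.sum_const, smul_eq_mul]
    apply le_of_eq
    ring
  calc ∑ d ∈ (Ioo (-(D : ℤ)) D).erase 0, ((∑ b ∈ B, ∑ b' ∈ B, wR c D d.natAbs *
        ∑ e ∈ E d, (if comp d e ((b' : ℤ) - b) then J d e + 1 else 0) : ℕ) : ℝ)
      = ((∑ d ∈ (Ioo (-(D : ℤ)) D).erase 0, ∑ b ∈ B, ∑ b' ∈ B, wR c D d.natAbs *
        ∑ e ∈ E d, (if comp d e ((b' : ℤ) - b) then J d e + 1 else 0) : ℕ) : ℝ) := by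
        push_cast; rfl
    _ ≤ ((M * B.card ^ 2 : ℕ) : ℝ) := by exact_mod_cast hfin
    _ = (M : ℝ) * (B.card : ℝ) ^ 2 := by push_cast; ring

end Pool.Agent.AddSq
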