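import Pool.Agent.AddSq.LagOne
import Pool.Agent.AddSq.WLag1

/-!
# Lag one with weighted shifts: the certificate

The same certificate as in `LOneCert`, with the weight `wf δ` of the shift `δ` instead of
`D - δ`.
-/

namespace Pool.Agent.AddSq.L1W

open Finset L1

/-- the weight of a displacement -/
def WW (wf : ℕ → ℕ) (μ δ e T : ℕ) : ℕ := wf δ * (JJ μ δ e T + 1)

/-- contribution of a displacement to the window below `x` -/
def ctr (wf : ℕ → ℕ) (p q sl μ x c δ e T : ℕ) : ℕ :=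
  bif (cl δ e == c) && (Nat.ble T x && Nat.ble (q * x) (p * T + sl)) then WW wf μ δ e T else 0

/-- the sum over the window below `x` -/
def acc (wf : ℕ → ℕ) (p q sl μ x c : ℕ) : ℕ → ℕ
  | 0 => 0
  | δ + 1 => acc wf p q sl μ x c δ + (ctr wf p q sl μ x c (δ + 1) (EP (δ + 1)) (TP (δ + 1)) +
      ctr wf p q sl μ x c (δ + 1) (EN (δ + 1)) (TN (δ + 1)))

/-- the check of all windows -/
def certFrom (wf : ℕ → ℕ) (D p q sl μ M : ℕ) : ℕ → Bool
  | 0 => true
  | δ + 1 => certFrom wf D p q sl μ M δ &&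
      (Nat.ble (acc wf p q sl μ (TP (δ + 1)) (cl (δ + 1) (EP (δ + 1))) (D - 1)) M &&
       Nat.ble (acc wf p q sl μ (TN (δ + 1)) (cl (δ + 1) (EN (δ + 1))) (D - 1)) M)

theorem cert_spec {wf : ℕ → ℕ} {D p q sl μ M n : ℕ} (h : certFrom wf D p q sl μ M n = true) {δ : ℕ}
    (h1 : 1 ≤ δ) (h2 : δ ≤ n) :
    acc wf p q sl μ (TP δ) (cl δ (EP δ)) (D - 1) ≤ M ∧
    acc wf p q sl μ (TN δ) (cl δ (EN δ)) (D - 1) ≤ M := by
  induction n with
  | zero => omega
  | succ n ih =>
    rw [certFrom, Bool.and_eq_true, Bool.and_eq_true] at h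
    obtain ⟨ha, hb, hc⟩ := h
    rcases Nat.lt_or_ge n δ with h3 | h3
    · have : δ = n + 1 := by omega
      subst this
      exact ⟨Nat.le_of_ble_eq_true hb, Nat.le_of_ble_eq_true hc⟩
    · exact ih ha h3

theorem acc_eq (wf : ℕ → ℕ) (p q sl μ x c n : ℕ) :
    acc wf p q sl μ x c n = ∑ i ∈ range n,
      (ctr wf p q sl μ x c (i + 1) (EP (i + 1)) (TP (i + 1)) +
        ctr wf p q sl μ x c (i + 1) (EN (i + 1)) (TN (i + 1))) := by
  induction n with
  | zero => rfl
  | succ n ih => rw [acc, ih, Finset.sum_range_succ]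

/-- The value of `ctr` when the conditions hold. -/
theorem ctr_of {wf : ℕ → ℕ} {p q sl μ x c δ e T : ℕ} (h1 : cl δ e = c) (h2 : T ≤ x)
    (h3 : q * x ≤ p * T + sl) : ctr wf p q sl μ x c δ e T = WW wf μ δ e T := by
  unfold ctr
  have e1 : (cl δ e == c) = true := by simp [h1]
  have e2 : Nat.ble T x = true := Nat.ble_eq_true_of_le h2
  have e3 : Nat.ble (q * x) (p * T + sl) = true := Nat.ble_eq_true_of_le h3
  rw [e1, e2, e3]
  rfl

/-- **The abstract window lemma.** `uP`, `uN` are values (weights or zero) which vanish unless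
the displacement is compatible; any two compatible displacements have the same class and
comparable `T`. -/
theorem window {wf : ℕ → ℕ} {D p q sl μ M : ℕ} (hcert : certFrom wf D p q sl μ M (D - 1) = true)
    (cP cN : ℕ → Prop) [DecidablePred cP] [DecidablePred cN] (c : ℕ)
    (hcP : ∀ δ, 1 ≤ δ → δ ≤ D - 1 → cP δ → cl δ (EP δ) = c)
    (hcN : ∀ δ, 1 ≤ δ → δ ≤ D - 1 → cN δ → cl δ (EN δ) = c)
    (hPP : ∀ δ δ', 1 ≤ δ → δ ≤ D - 1 → 1 ≤ δ' → δ' ≤ D - 1 → cP δ → cP δ' →
      q * TP δ ≤ p * TP δ' + sl)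
    (hPN : ∀ δ δ', 1 ≤ δ → δ ≤ D - 1 → 1 ≤ δ' → δ' ≤ D - 1 → cP δ → cN δ' →
      q * TP δ ≤ p * TN δ' + sl)
    (hNP : ∀ δ δ', 1 ≤ δ → δ ≤ D - 1 → 1 ≤ δ' → δ' ≤ D - 1 → cN δ → cP δ' →
      q * TN δ ≤ p * TP δ' + sl)
    (hNN : ∀ δ δ', 1 ≤ δ → δ ≤ D - 1 → 1 ≤ δ' → δ' ≤ D - 1 → cN δ → cN δ' →
      q * TN δ ≤ p * TN δ' + sl) :
    ∑ i ∈ range (D - 1),
      ((if cP (i + 1) then WW wf μ (i + 1) (EP (i + 1)) (TP (i + 1)) else 0) +
       (if cN (i + 1) then WW wf μ (i + 1) (EN (i + 1)) (TN (i + 1)) else 0)) ≤ M := by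
  classical
  set S := ∑ i ∈ range (D - 1),
      ((if cP (i + 1) then WW wf μ (i + 1) (EP (i + 1)) (TP (i + 1)) else 0) +
       (if cN (i + 1) then WW wf μ (i + 1) (EN (i + 1)) (TN (i + 1)) else 0)) with hS
  -- the maximal `T` among the compatible displacements
  set FP := (range (D - 1)).filter (fun i => cP (i + 1)) with hFP
  set FN := (range (D - 1)).filter (fun i => cN (i + 1)) with hFN
  -- it suffices to find `x` with all conditions
  have main : ∀ x, (∀ i ∈ FP, TP (i + 1) ≤ x ∧ q * x ≤ p * TP (i + 1) + sl) →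
      (∀ i ∈ FN, TN (i + 1) ≤ x ∧ q * x ≤ p * TN (i + 1) + sl) →
      acc wf p q sl μ x c (D - 1) ≤ M → S ≤ M := by
    intro x h1 h2 h3
    refine le_trans ?_ h3
    rw [acc_eq, hS]
    apply Finset.sum_le_sum
    intro i hi
    have hi' := Finset.mem_range.mp hi
    apply Nat.add_le_add
    · split_ifs with h
      · have h4 := h1 i (by rw [hFP, mem_filter]; exact ⟨hi, h⟩)
        rw [ctr_of (hcP _ (by omega) (by omega) h) h4.1 h4.2]
      · exact Nat.zero_le _
    · split_ifs with h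
      · have h4 := h2 i (by rw [hFN, mem_filter]; exact ⟨hi, h⟩)
        rw [ctr_of (hcN _ (by omega) (by omega) h) h4.1 h4.2]
      · exact Nat.zero_le _
  have memP : ∀ i ∈ FP, i + 1 ≤ D - 1 ∧ cP (i + 1) := by
    intro i hi
    rw [hFP, mem_filter, Finset.mem_range] at hi
    exact ⟨by omega, hi.2⟩
  have memN : ∀ i ∈ FN, i + 1 ≤ D - 1 ∧ cN (i + 1) := by
    intro i hi
    rw [hFN, mem_filter, Finset.mem_range] at hi
    exact ⟨by omega, hi.2⟩
  -- candidates
  have caseP : ∀ i₀ ∈ FP, (∀ i ∈ FP, TP (i + 1) ≤ TP (i₀ + 1)) →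
      (∀ i ∈ FN, TN (i + 1) ≤ TP (i₀ + 1)) → S ≤ M := by
    intro i₀ h₀ h1 h2
    obtain ⟨a1, a2⟩ := memP i₀ h₀
    apply main (TP (i₀ + 1))
    · intro i hi
      obtain ⟨b1, b2⟩ := memP i hi
      exact ⟨h1 i hi, hPP _ _ (by omega) a1 (by omega) b1 a2 b2⟩
    · intro i hi
      obtain ⟨b1, b2⟩ := memN i hi
      exact ⟨h2 i hi, hPN _ _ (by omega) a1 (by omega) b1 a2 b2⟩
    · have := (cert_spec hcert (δ := i₀ + 1) (by omega) a1).1
      rw [hcP _ (by omega) a1 a2] at this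
      exact this
  have caseN : ∀ i₀ ∈ FN, (∀ i ∈ FP, TP (i + 1) ≤ TN (i₀ + 1)) →
      (∀ i ∈ FN, TN (i + 1) ≤ TN (i₀ + 1)) → S ≤ M := by
    intro i₀ h₀ h1 h2
    obtain ⟨a1, a2⟩ := memN i₀ h₀
    apply main (TN (i₀ + 1))
    · intro i hi
      obtain ⟨b1, b2⟩ := memP i hi
      exact ⟨h1 i hi, hNP _ _ (by omega) a1 (by omega) b1 a2 b2⟩
    · intro i hi
      obtain ⟨b1, b2⟩ := memN i hi
      exact ⟨h2 i hi, hNN _ _ (by omega) a1 (by omega) b1 a2 b2⟩
    · have := (cert_spec hcert (δ := i₀ + 1) (by omega) a1).2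
      rw [hcN _ (by omega) a1 a2] at this
      exact this
  rcases FP.eq_empty_or_nonempty with hP | hP
  · rcases FN.eq_empty_or_nonempty with hN | hN
    · -- nothing is compatible
      apply le_of_eq_of_le _ (Nat.zero_le M)
      rw [hS]
      apply Finset.sum_eq_zero
      intro i hi
      have c1 : ¬ cP (i + 1) := by
        intro h
        have : i ∈ FP := by rw [hFP, mem_filter]; exact ⟨hi, h⟩
        rw [hP] at this
        exact absurd this (Finset.notMem_empty _)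
      have c2 : ¬ cN (i + 1) := by
        intro h
        have : i ∈ FN := by rw [hFN, mem_filter]; exact ⟨hi, h⟩
        rw [hN] at this
        exact absurd this (Finset.notMem_empty _)
      rw [if_neg c1, if_neg c2, Nat.add_zero]
    · obtain ⟨j, hj, hj2⟩ := FN.exists_max_image (fun i => TN (i + 1)) hN
      apply caseN j hj
      · intro i hi
        rw [hP] at hi
        exact absurd hi (Finset.notMem_empty _)
      · exact hj2
  · obtain ⟨i₀, hi₀, hi2⟩ := FP.exists_max_image (fun i => TP (i + 1)) hP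
    rcases FN.eq_empty_or_nonempty with hN | hN
    · apply caseP i₀ hi₀ hi2
      intro i hi
      rw [hN] at hi
      exact absurd hi (Finset.notMem_empty _)
    · obtain ⟨j, hj, hj2⟩ := FN.exists_max_image (fun i => TN (i + 1)) hN
      rcases Nat.le_total (TP (i₀ + 1)) (TN (j + 1)) with h | h
      · exact caseN j hj (fun i hi => (hi2 i hi).trans h) hj2
      · exact caseP i₀ hi₀ hi2 (fun i hi => (hj2 i hi).trans h)

open Classical in
/-- the sum of the certificate for a fixed difference `h` -/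
noncomputable def hsum (wf : ℕ → ℕ) (K H D μ : ℕ) (h : ℤ) (d : ℤ) : ℕ :=
  wf d.natAbs * ∑ e ∈ E1 d, (if Comp K H D d e h then J1 μ d e + 1 else 0)

theorem hsum_neg {wf : ℕ → ℕ} {K H D μ : ℕ} {h d : ℤ} (hd : d ≠ 0) :
    hsum wf K H D μ (-h) (-d) = hsum wf K H D μ h d := by
  classical
  unfold hsum
  rw [Int.natAbs_neg]
  congr 1
  refine Finset.sum_bij' (fun e _ => -e) (fun e _ => -e) ?_ ?_ ?_ ?_ ?_
  · intro e he
    have := mem_E1_neg (d := -d) (by omega) he
    rwa [neg_neg] at this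
  · intro e he
    exact mem_E1_neg hd he
  · intro e _; simp
  · intro e _; simp
  · intro e _
    have e1 : J1 μ (-d) e = J1 μ d (-e) := by
      have := J1_neg μ d (-e)
      rw [neg_neg] at this
      exact this
    by_cases hc : Comp K H D (-d) e (-h)
    · have h2 := hc.neg
      rw [neg_neg, neg_neg] at h2
      rw [if_pos hc, if_pos h2, e1]
    · have h2 : ¬ Comp K H D d (-e) h := by
        intro h3
        have h4 := h3.neg
        rw [neg_neg] at h4
        exact hc h4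
      rw [if_neg hc, if_neg h2]

/-- `h ≥ 0` -/
theorem hM_nonneg {wf : ℕ → ℕ} {D p q sl μ M K₀ K H tm : ℕ} (hcert : certFrom wf D p q sl μ M (D - 1) = true)
    (hgood : goodFrom D μ K₀ tm (D - 1) = true) (htm : D < tm) (hD : 1 ≤ D) (hK1 : 1 ≤ K)
    (h1 : 4 * D * 1000000000000 ≤ K * (tm - D))
    (h3 : (p + q) * D * K + 6 * q * D * 1000000000000 ≤ sl * K)
    (hKH : q * (K + H) ≤ p * K) (h : ℤ) (hh : 0 ≤ h) :
    ∑ d ∈ (Ioo (-(D : ℤ)) D).erase 0, hsum wf K H D μ h d ≤ M := by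
  classical
  rw [sum_sym]
  set cP : ℕ → Prop := fun δ => Comp K H D δ (EP δ) h with hcP
  set cN : ℕ → Prop := fun δ => Comp K H D (-(δ : ℤ)) (-(EN δ : ℤ)) h with hcN
  have htmr : (D : ℝ) < tm := by exact_mod_cast htm
  have fact : ∀ δ, 1 ≤ δ → δ ≤ D - 1 →
      (tm : ℝ) - D ≤ 1000000000000 * (Real.sqrt 2 * δ - EP δ) ∧
      (tm : ℝ) - D ≤ 1000000000000 * (EN δ - Real.sqrt 2 * δ) := by
    intro δ a1 a2
    obtain ⟨g1, g2, _, _⟩ := good_spec hgood a1 a2
    have g1r : (tm : ℝ) ≤ TP δ := by exact_mod_cast g1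
    have g2r : (tm : ℝ) ≤ TN δ := by exact_mod_cast g2
    have b1 := (valP a2).1
    have b2 := (valN a2).1
    exact ⟨by linarith, by linarith⟩
  have key := window (wf := wf) (D := D) (p := p) (q := q) (sl := sl) (μ := μ) (M := M) hcert cP cN (clh h)
    ?_ ?_ ?_ ?_ ?_ ?_
  · refine le_trans (Finset.sum_le_sum ?_) key
    intro i hi
    rw [Finset.mem_range] at hi
    obtain ⟨f1, f2⟩ := fact (i + 1) (by omega) (by omega)
    have hne : EN (i + 1) ≠ EP (i + 1) := by unfold EN; omega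
    apply Nat.add_le_add
    · -- `d = i + 1`
      unfold hsum E1
      rw [Int.natAbs_natCast, if_pos (by omega : (0 : ℤ) < ((i + 1 : ℕ) : ℤ))]
      rw [Finset.sum_pair (by intro hc; exact hne (by exact_mod_cast hc.symm))]
      have hno : ¬ Comp K H D ((i + 1 : ℕ) : ℤ) (EN (i + 1) : ℤ) h := by
        apply not_comp_neg hD h1 htm hh
        · push_cast at f2 ⊢
          linarith
        · push_cast at f2 ⊢
          exact f2
      rw [if_neg hno, Nat.add_zero]
      by_cases hc : cP (i + 1)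
      · rw [if_pos hc, if_pos hc]
        unfold WW J1
        rw [Int.natAbs_natCast, Int.natAbs_natCast, if_pos rfl]
      · rw [if_neg hc, if_neg hc, Nat.mul_zero]
    · -- `d = -(i + 1)`
      unfold hsum E1
      rw [Int.natAbs_neg, Int.natAbs_natCast,
        if_neg (by omega : ¬ (0 : ℤ) < -((i + 1 : ℕ) : ℤ))]
      rw [Finset.sum_pair (by intro hc; exact hne (by omega))]
      have hno : ¬ Comp K H D (-((i + 1 : ℕ) : ℤ)) (-(EP (i + 1) : ℤ)) h := by
        apply not_comp_neg hD h1 htm hh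
        · push_cast at f1 ⊢
          linarith
        · push_cast at f1 ⊢
          linarith
      rw [if_neg hno, Nat.zero_add]
      by_cases hc : cN (i + 1)
      · rw [if_pos hc, if_pos hc]
        unfold WW J1
        rw [Int.natAbs_neg, Int.natAbs_natCast, Int.natAbs_neg, Int.natAbs_natCast, if_neg hne]
      · rw [if_neg hc, if_neg hc, Nat.mul_zero]
  · -- classes
    intro δ _ _ hc
    have := cl_eq hc.2
    rw [Int.natAbs_natCast, Int.natAbs_natCast] at this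
    exact this
  · intro δ _ _ hc
    have := cl_eq hc.2
    rw [Int.natAbs_neg, Int.natAbs_natCast, Int.natAbs_neg, Int.natAbs_natCast] at this
    exact this
  all_goals
    intro δ δ' a1 a2 a1' a2' hc hc'
    obtain ⟨f1, f2⟩ := fact δ a1 a2
    obtain ⟨f1', f2'⟩ := fact δ' a1' a2'
    obtain ⟨⟨k, hk1, hk2, hk3⟩, _⟩ := hc
    obtain ⟨⟨k', hk1', hk2', hk3'⟩, _⟩ := hc'
    have vP := valP a2
    have vN := valN a2
    have vP' := valP a2'
    have vN' := valN a2'
    push_cast at hk3 hk3'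
  · exact ratio (t := Real.sqrt 2 * δ - EP δ) (t' := Real.sqrt 2 * δ' - EP δ') hK1 hk1 hk2' hk1'
      (by linarith) (by linarith) hk3 hk3' vP.1 vP'.2 h3 hKH
  · have e' : Real.sqrt 2 * (-(δ' : ℝ)) - -(EN δ' : ℝ) = EN δ' - Real.sqrt 2 * δ' := by ring
    rw [e'] at hk3'
    exact ratio (t := Real.sqrt 2 * δ - EP δ) (t' := EN δ' - Real.sqrt 2 * δ') hK1 hk1 hk2' hk1'
      (by linarith) (by linarith) hk3 hk3' vP.1 vN'.2 h3 hKH
  · have e : Real.sqrt 2 * (-(δ : ℝ)) - -(EN δ : ℝ) = EN δ - Real.sqrt 2 * δ := by ring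
    rw [e] at hk3
    exact ratio (t := EN δ - Real.sqrt 2 * δ) (t' := Real.sqrt 2 * δ' - EP δ') hK1 hk1 hk2' hk1'
      (by linarith) (by linarith) hk3 hk3' vN.1 vP'.2 h3 hKH
  · have e : Real.sqrt 2 * (-(δ : ℝ)) - -(EN δ : ℝ) = EN δ - Real.sqrt 2 * δ := by ring
    have e' : Real.sqrt 2 * (-(δ' : ℝ)) - -(EN δ' : ℝ) = EN δ' - Real.sqrt 2 * δ' := by ring
    rw [e] at hk3
    rw [e'] at hk3'
    exact ratio (t := EN δ - Real.sqrt 2 * δ) (t' := EN δ' - Real.sqrt 2 * δ') hK1 hk1 hk2' hk1'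
      (by linarith) (by linarith) hk3 hk3' vN.1 vN'.2 h3 hKH

/-- all `h` -/
theorem hM_all {wf : ℕ → ℕ} {D p q sl μ M K₀ K H tm : ℕ} (hcert : certFrom wf D p q sl μ M (D - 1) = true)
    (hgood : goodFrom D μ K₀ tm (D - 1) = true) (htm : D < tm) (hD : 1 ≤ D) (hK1 : 1 ≤ K)
    (h1 : 4 * D * 1000000000000 ≤ K * (tm - D))
    (h3 : (p + q) * D * K + 6 * q * D * 1000000000000 ≤ sl * K)
    (hKH : q * (K + H) ≤ p * K) (h : ℤ) :
    ∑ d ∈ (Ioo (-(D : ℤ)) D).erase 0, hsum wf K H D μ h d ≤ M := by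
  rcases le_total 0 h with hh | hh
  · exact hM_nonneg hcert hgood htm hD hK1 h1 h3 hKH h hh
  · have h4 := hM_nonneg hcert hgood htm hD hK1 h1 h3 hKH (-h) (by omega)
    refine le_trans (le_of_eq ?_) h4
    refine Finset.sum_bij' (fun d _ => -d) (fun d _ => -d) ?_ ?_ ?_ ?_ ?_
    · intro d hd
      rw [mem_erase, mem_Ioo] at hd ⊢
      omega
    · intro d hd
      rw [mem_erase, mem_Ioo] at hd ⊢
      omega
    · intro d _; simp
    · intro d _; simp
    · intro d hd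
      rw [mem_erase] at hd
      exact (hsum_neg hd.1).symm

/-- **Lag one with a certificate, weighted form.** -/
theorem lag1_cert {wf : ℕ → ℕ} {D p q sl μ M K₀ K H tm : ℕ} (hcert : certFrom wf D p q sl μ M (D - 1) = true)
    (hgood : goodFrom D μ K₀ tm (D - 1) = true) (htm : D < tm) (hD : 1 ≤ D)
    (hK0 : 1 ≤ K₀) (hKK : K₀ ≤ K) (hμ : 1000000000000 ≤ 2 * μ)
    (hK2 : 2 * D ^ 2 ≤ K)
    (h1 : 4 * D * 1000000000000 ≤ K * (tm - D))
    (h3 : (p + q) * D * K + 6 * q * D * 1000000000000 ≤ sl * K)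
    (hKH : q * (K + H) ≤ p * K) (wt : ℕ → ℕ) (hwt : ∀ δ, 1 ≤ δ → δ < D → wR wt D δ = wf δ)
    (A B : Finset ℕ) :
    ((wSum wt D : ℝ) * (pairs1 A B K H).card) ^ 2 ≤
      ((D : ℝ) * A.card + (∑ k ∈ Finset.Ico K (K + H), (A.filter (fun a => a ≤ 2 * k)).card : ℕ)) *
        ((wR wt D 0 : ℝ) * (pairs1 A B K H).card + M * (B.card : ℝ) ^ 2) := by
  classical
  apply lag1_wc wt A B (hK0.trans hKK) E1 (J1 μ) (Comp K H D)
  · intro d hd hd2 k m m' a b b' k1 k2 k3 k4 s s'
    exact hE1 hgood htm hK2 d hd hd2 k m m' a b b' k1 k2 k3 k4 s s'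
  · intro d hd hd2 e he
    exact hJ1 hgood htm h1 hK0 hKK hμ d hd hd2 e he
  · intro h
    have := hM_all hcert hgood htm hD (hK0.trans hKK) h1 h3 hKH h
    refine le_trans (le_of_eq ?_) this
    apply Finset.sum_congr rfl
    intro d hd
    rw [mem_erase, mem_Ioo] at hd
    unfold hsum
    rw [hwt d.natAbs (by omega) (by omega)]

/-! ### Weights read off from a numeral -/

/-- the digit `i` of `N` in base `b` -/
def dg (b N i : ℕ) : ℕ := (N / b ^ i) % b

/-- `Σ_{i < n} c i · c (i + δ)` -/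
def rsum (c : ℕ → ℕ) (δ : ℕ) : ℕ → ℕ
  | 0 => 0
  | n + 1 => rsum c δ n + c n * c (n + δ)

theorem rsum_eq (c : ℕ → ℕ) (δ n : ℕ) : rsum c δ n = ∑ i ∈ range n, c i * c (i + δ) := by
  induction n with
  | zero => rfl
  | succ n ih => rw [rsum, ih, Finset.sum_range_succ]

/-- the check of the table of the autocorrelation -/
def chkR (c wf : ℕ → ℕ) (D : ℕ) : ℕ → Bool
  | 0 => true
  | n + 1 => chkR c wf D n && Nat.beq (rsum c n (D - n)) (wf n)

theorem chkR_spec {c wf : ℕ → ℕ} {D n : ℕ} (h : chkR c wf D n = true) {δ : ℕ} (hδ : δ < n) :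
    wR c D δ = wf δ := by
  induction n with
  | zero => omega
  | succ n ih =>
    rw [chkR, Bool.and_eq_true] at h
    rcases Nat.lt_or_ge δ n with h1 | h1
    · exact ih h.1 h1
    · have : δ = n := by omega
      subst this
      have h2 := Nat.eq_of_beq_eq_true h.2
      rw [rsum_eq] at h2
      exact h2

def csum (c : ℕ → ℕ) : ℕ → ℕ
  | 0 => 0
  | n + 1 => csum c n + c n

theorem csum_eq (c : ℕ → ℕ) (n : ℕ) : csum c n = wSum c n := by
  induction n with
  | zero => rfl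
  | succ n ih => rw [csum, ih, wSum, wSum, Finset.sum_range_succ]

end Pool.Agent.AddSq.L1W
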