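import Pool.Agent.AddSq.WvdC
import Pool.Agent.AddSq.Lag2

/-!
# Counting lemma, lag two, with weighted shifts

`C² N² ≤ (D |B| + Σ_{k ∈ [K, K + H)} |B ∩ [0, 4k]|) (R(0) N + M |A|²)`.
-/

namespace Pool.Agent.AddSq

open Finset

/-- at most `n` pairs `(k, a), (k + d, a')` on the same branch with the shift `(d, e)` -/
def SameBd (K : ℕ) (d e : ℤ) (n : ℕ) : Prop :=
  ∀ (a a' : ℤ) (TE TO : Finset ℤ),
    (∀ k ∈ TE, (K : ℤ) ≤ k ∧ (K : ℤ) ≤ k + d ∧ ∃ m m' b : ℤ,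
      SolE k m a b ∧ SolE (k + d) m' a' b ∧ m' - m = e) →
    (∀ k ∈ TO, (K : ℤ) ≤ k ∧ (K : ℤ) ≤ k + d ∧ ∃ m m' b : ℤ,
      SolO k m a b ∧ SolO (k + d) m' a' b ∧ m' - m = e) →
    TE.card + TO.card ≤ n

theorem SameOK.bd {K : ℕ} {d e : ℤ} {J : ℕ} (h : SameOK K d e J) : SameBd K d e (J + 2) := by
  intro a a' TE TO hTE hTO
  obtain ⟨j1, j2, j3⟩ := h
  exact same_count (d := d) (e := e) (a := a) (a' := a') j1 (by positivity : (0 : ℝ) ≤ K) j2 j3
    TE TO (fun k hk => ⟨by exact_mod_cast (hTE k hk).1, (hTE k hk).2.2⟩)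
    (fun k hk => ⟨by exact_mod_cast (hTO k hk).1, (hTO k hk).2.2⟩)

theorem SameBd.mono {K : ℕ} {d e : ℤ} {n n' : ℕ} (h : SameBd K d e n) (hn : n ≤ n') :
    SameBd K d e n' := fun a a' TE TO h1 h2 => (h a a' TE TO h1 h2).trans hn

theorem SameBd.neg {K : ℕ} {d e : ℤ} {n : ℕ} (h : SameBd K d e n) : SameBd K (-d) (-e) n := by
  classical
  intro a a' TE TO hTE hTO
  have hinj : ∀ T : Finset ℤ, Set.InjOn (fun k : ℤ => k + -d) (T : Set ℤ) := by
    intro T x _ y _ hxy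
    simp only at hxy
    omega
  rw [← Finset.card_image_of_injOn (hinj TE), ← Finset.card_image_of_injOn (hinj TO)]
  apply h a' a
  · intro k hk
    rw [mem_image] at hk
    obtain ⟨k₀, hk₀, rfl⟩ := hk
    obtain ⟨h1, h2, m, m', b, s1, s2, s3⟩ := hTE k₀ hk₀
    have e2 : k₀ + -d + d = k₀ := by ring
    rw [e2]
    exact ⟨h2, h1, m', m, b, s2, s1, by omega⟩
  · intro k hk
    rw [mem_image] at hk
    obtain ⟨k₀, hk₀, rfl⟩ := hk
    obtain ⟨h1, h2, m, m', b, s1, s2, s3⟩ := hTO k₀ hk₀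
    have e2 : k₀ + -d + d = k₀ := by ring
    rw [e2]
    exact ⟨h2, h1, m', m, b, s2, s1, by omega⟩

/-- same branch, all `e` -/
theorem same_fiber_bd {d : ℤ} {K H : ℕ} {a a' : ℤ} {E : Finset ℤ} {ns : ℤ → ℕ}
    {comp : ℤ → ℤ → Prop} [∀ e h, Decidable (comp e h)]
    (hEE : ∀ k m m' b : ℤ, K ≤ k → k < K + H → K ≤ k + d → k + d < K + H →
      SolE k m a b → SolE (k + d) m' a' b → m' - m ∈ E ∧ comp (m' - m) (a' - a))
    (hOO : ∀ k m m' b : ℤ, K ≤ k → k < K + H → K ≤ k + d → k + d < K + H →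
      SolO k m a b → SolO (k + d) m' a' b → m' - m ∈ E ∧ comp (m' - m) (a' - a))
    (hJ : ∀ e ∈ E, SameBd K d e (ns e)) (T : Finset ℤ)
    (hT : ∀ k ∈ T, (K : ℤ) ≤ k ∧ k < K + H ∧ (K : ℤ) ≤ k + d ∧ k + d < K + H ∧
      ∃ m m' b : ℤ, (SolE k m a b ∧ SolE (k + d) m' a' b) ∨
        (SolO k m a b ∧ SolO (k + d) m' a' b)) :
    T.card ≤ ∑ e ∈ E, if comp e (a' - a) then ns e else 0 := by
  classical
  set FE : ℤ → Finset ℤ := fun e => T.filter (fun k => ∃ m m' b : ℤ,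
    SolE k m a b ∧ SolE (k + d) m' a' b ∧ m' - m = e) with hFE
  set FO : ℤ → Finset ℤ := fun e => T.filter (fun k => ∃ m m' b : ℤ,
    SolO k m a b ∧ SolO (k + d) m' a' b ∧ m' - m = e) with hFO
  apply fiber_bound (fun e => FE e ∪ FO e)
  · intro k hk
    obtain ⟨h1, h2, h3, h4, m, m', b, h5 | h5⟩ := hT k hk
    · refine ⟨m' - m, (hEE k m m' b h1 h2 h3 h4 h5.1 h5.2).1, ?_⟩
      rw [mem_union]
      left
      rw [hFE, mem_filter]
      exact ⟨hk, m, m', b, h5.1, h5.2, rfl⟩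
    · refine ⟨m' - m, (hOO k m m' b h1 h2 h3 h4 h5.1 h5.2).1, ?_⟩
      rw [mem_union]
      right
      rw [hFO, mem_filter]
      exact ⟨hk, m, m', b, h5.1, h5.2, rfl⟩
  · intro e he
    rcases (FE e ∪ FO e).eq_empty_or_nonempty with h0 | hne
    · rw [h0]; simp
    have hcomp : comp e (a' - a) := by
      obtain ⟨k, hk⟩ := hne
      rw [mem_union] at hk
      rcases hk with hk | hk
      · rw [hFE, mem_filter] at hk
        obtain ⟨hkT, m, m', b, s1, s2, s3⟩ := hk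
        obtain ⟨h1, h2, h3, h4, _⟩ := hT k hkT
        have := (hEE k m m' b h1 h2 h3 h4 s1 s2).2
        rw [s3] at this
        exact this
      · rw [hFO, mem_filter] at hk
        obtain ⟨hkT, m, m', b, s1, s2, s3⟩ := hk
        obtain ⟨h1, h2, h3, h4, _⟩ := hT k hkT
        have := (hOO k m m' b h1 h2 h3 h4 s1 s2).2
        rw [s3] at this
        exact this
    rw [if_pos hcomp]
    refine (Finset.card_union_le _ _).trans ?_
    apply hJ e he a a'
    · intro k hk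
      rw [hFE, mem_filter] at hk
      exact ⟨(hT k hk.1).1, (hT k hk.1).2.2.1, hk.2⟩
    · intro k hk
      rw [hFO, mem_filter] at hk
      exact ⟨(hT k hk.1).1, (hT k hk.1).2.2.1, hk.2⟩

/-- the double sum of the second moment -/
theorem moment2_c (wt : ℕ → ℕ) (A B : Finset ℕ) {K H D M : ℕ}
    (Es : ℤ → Finset ℤ) (ns : ℤ → ℤ → ℕ)
    (comps : ℤ → ℤ → ℤ → Prop) [∀ d e h, Decidable (comps d e h)]
    (Ec : ℤ → Finset ℤ) (Jc : ℤ → ℤ → ℕ)
    (compc : ℤ → ℤ → ℤ → Prop) [∀ d e h, Decidable (compc d e h)]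
    (hEE : ∀ d : ℤ, d ≠ 0 → |d| < D → ∀ k m m' a a' b : ℤ, K ≤ k → k < K + H → K ≤ k + d →
      k + d < K + H → SolE k m a b → SolE (k + d) m' a' b →
      m' - m ∈ Es d ∧ comps d (m' - m) (a' - a))
    (hOO : ∀ d : ℤ, d ≠ 0 → |d| < D → ∀ k m m' a a' b : ℤ, K ≤ k → k < K + H → K ≤ k + d →
      k + d < K + H → SolO k m a b → SolO (k + d) m' a' b →
      m' - m ∈ Es d ∧ comps d (m' - m) (a' - a))
    (hEO : ∀ d : ℤ, |d| < D → ∀ k m m' a a' b : ℤ, K ≤ k → k < K + H → K ≤ k + d →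
      k + d < K + H → SolE k m a b → SolO (k + d) m' a' b →
      m' - m ∈ Ec d ∧ compc d (m' - m) (a' - a))
    (hJs : ∀ d : ℤ, d ≠ 0 → |d| < D → ∀ e ∈ Es d, SameBd K d e (ns d e))
    (hJc : ∀ d : ℤ, |d| < D → ∀ e ∈ Ec d, CrossOK K d e (Jc d e))
    (hM : ∀ h : ℤ,
      (∑ d ∈ (Ioo (-(D : ℤ)) D).erase 0,
        wR wt D d.natAbs * ∑ e ∈ Es d, (if comps d e h then ns d e else 0)) +
      ∑ d ∈ Ioo (-(D : ℤ)) D, wR wt D d.natAbs *
        ∑ e ∈ Ec d, ((if compc d e h then Jc d e + 1 else 0) +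
          (if compc d e (-h) then Jc d e + 1 else 0)) ≤ M) :
    ∑ d ∈ Ioo (-(D : ℤ)) D, wR wt D d.natAbs * ∑ a ∈ A, ∑ a' ∈ A, (T2 B K H a a' d).card ≤
      wR wt D 0 * ∑ a ∈ A, (T2 B K H a a 0).card + M * A.card ^ 2 := by
  classical
  set c : ℤ → ℤ → ℕ := fun d h => ∑ e ∈ Ec d, if compc d e h then Jc d e + 1 else 0 with hc
  set s : ℤ → ℤ → ℕ := fun d h => ∑ e ∈ Es d, if comps d e h then ns d e else 0 with hs
  -- single bound
  have hb : ∀ d ∈ Ioo (-(D : ℤ)) D, ∀ a a' : ℕ, (T2 B K H a a' d).card ≤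
      (if d = 0 then (if a = a' then (T2 B K H a a 0).card else 0) else s d ((a' : ℤ) - a)) +
        (c d ((a' : ℤ) - a) + c (-d) (-((a' : ℤ) - a))) := by
    intro d hd a a'
    rw [mem_Ioo] at hd
    have habs : |d| < D := abs_lt.mpr hd
    set P : ℤ → Prop := fun k => ∃ m m' b : ℤ, (SolE k m a b ∧ SolE (k + d) m' a' b) ∨
        (SolO k m a b ∧ SolO (k + d) m' a' b) with hP
    have hsplit := Finset.card_filter_add_card_filter_not (s := T2 B K H a a' d) P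
    have hcross : ((T2 B K H a a' d).filter (fun k => ¬ P k)).card ≤
        c d ((a' : ℤ) - a) + c (-d) (-((a' : ℤ) - a)) := by
      apply cross_part (B := B) (K := K) (H := H) (D := D) Ec Jc compc hEO hJc habs a a' _
        (Finset.filter_subset _ _)
      intro k hk
      rw [mem_filter] at hk
      exact hk.2
    have hsame : ((T2 B K H a a' d).filter P).card ≤
        (if d = 0 then (if a = a' then (T2 B K H a a 0).card else 0)
          else s d ((a' : ℤ) - a)) := by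
      by_cases hd0 : d = 0
      · rw [if_pos hd0]
        by_cases haa : a = a'
        · rw [if_pos haa, ← haa, hd0]
          exact Finset.card_le_card (Finset.filter_subset _ _)
        · rw [if_neg haa]
          rw [Nat.le_zero, Finset.card_eq_zero, Finset.filter_eq_empty_iff]
          intro k _ hk
          obtain ⟨m, m', b, h1⟩ := hk
          rw [hd0, add_zero] at h1
          exact haa (by exact_mod_cast same_zero h1)
      · rw [if_neg hd0]
        apply same_fiber_bd (d := d) (K := K) (H := H) (a := a) (a' := a') (comp := comps d)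
          (fun k m m' b => hEE d hd0 habs k m m' a a' b)
          (fun k m m' b => hOO d hd0 habs k m m' a a' b) (hJs d hd0 habs)
        intro k hk
        rw [mem_filter] at hk
        obtain ⟨h1, h2, h3, h4, _⟩ := T2_facts hk.1
        exact ⟨h1, h2, h3, h4, hk.2⟩
    omega
  -- sum of the weights
  set w : ℤ → ℕ := fun d => wR wt D d.natAbs with hw
  have hwneg : ∀ d, w (-d) = w d := by intro d; rw [hw]; simp
  have hrefl : ∀ h : ℤ, ∑ d ∈ Ioo (-(D : ℤ)) D, w d * c (-d) (-h) =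
      ∑ d ∈ Ioo (-(D : ℤ)) D, w d * c d (-h) := by
    intro h
    refine Finset.sum_bij' (fun d _ => -d) (fun d _ => -d) ?_ ?_ ?_ ?_ ?_
    · intro d hd
      rw [mem_Ioo] at hd ⊢
      omega
    · intro d hd
      rw [mem_Ioo] at hd ⊢
      omega
    · intro d _; simp
    · intro d _; simp
    · intro d _
      rw [hwneg]
  have hMh : ∀ h : ℤ, (∑ d ∈ (Ioo (-(D : ℤ)) D).erase 0, w d * s d h) +
      ∑ d ∈ Ioo (-(D : ℤ)) D, w d * (c d h + c (-d) (-h)) ≤ M := by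
    intro h
    have h1 := hM h
    have h2 : ∑ d ∈ Ioo (-(D : ℤ)) D, w d * (c d h + c (-d) (-h)) =
        ∑ d ∈ Ioo (-(D : ℤ)) D, wR wt D d.natAbs *
        ∑ e ∈ Ec d, ((if compc d e h then Jc d e + 1 else 0) +
          (if compc d e (-h) then Jc d e + 1 else 0)) := by
      have h3 : ∀ d, w d * (c d h + c (-d) (-h)) = w d * c d h + w d * c (-d) (-h) :=
        fun d => Nat.mul_add _ _ _
      rw [Finset.sum_congr rfl (fun d _ => h3 d), Finset.sum_add_distrib, hrefl h,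
        ← Finset.sum_add_distrib]
      apply Finset.sum_congr rfl
      intro d _
      rw [← Nat.mul_add, hc, hw]
      simp only
      rw [← Finset.sum_add_distrib]
    rw [h2]
    exact h1
  -- main estimate
  have h1 : ∀ d ∈ Ioo (-(D : ℤ)) D, w d * ∑ a ∈ A, ∑ a' ∈ A, (T2 B K H a a' d).card ≤
      (∑ a ∈ A, ∑ a' ∈ A, w d * (if d = 0 then (if a = a' then (T2 B K H a a 0).card else 0)
        else s d ((a' : ℤ) - a))) +
      ∑ a ∈ A, ∑ a' ∈ A, w d * (c d ((a' : ℤ) - a) + c (-d) (-((a' : ℤ) - a))) := by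
    intro d hd
    rw [← Finset.sum_add_distrib, Finset.mul_sum]
    apply Finset.sum_le_sum
    intro a _
    rw [← Finset.sum_add_distrib, Finset.mul_sum]
    apply Finset.sum_le_sum
    intro a' _
    rw [← Nat.mul_add]
    exact Nat.mul_le_mul_left _ (hb d hd a a')
  refine (Finset.sum_le_sum h1).trans ?_
  rw [Finset.sum_add_distrib]
  rcases Nat.eq_zero_or_pos D with hD0 | hD
  · subst hD0
    simp
  have hmem : (0 : ℤ) ∈ Ioo (-(D : ℤ)) D := by rw [mem_Ioo]; omega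
  rw [← Finset.add_sum_erase _ _ hmem]
  have hzero : ∑ a ∈ A, ∑ a' ∈ A, w 0 * (if (0 : ℤ) = 0 then
      (if a = a' then (T2 B K H a a 0).card else 0) else s 0 ((a' : ℤ) - a)) =
      wR wt D 0 * ∑ a ∈ A, (T2 B K H a a 0).card := by
    rw [Finset.mul_sum]
    apply Finset.sum_congr rfl
    intro a ha
    have h2 : ∀ a' ∈ A, w 0 * (if (0 : ℤ) = 0 then
      (if a = a' then (T2 B K H a a 0).card else 0) else s 0 ((a' : ℤ) - a)) =
      if a = a' then wR wt D 0 * (T2 B K H a a 0).card else 0 := by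
      intro a' _
      rw [if_pos rfl, hw]
      split_ifs <;> simp
    rw [Finset.sum_congr rfl h2, Finset.sum_ite_eq, if_pos ha]
  rw [hzero, add_assoc]
  apply Nat.add_le_add le_rfl
  -- the rest
  have h2 : ∑ d ∈ (Ioo (-(D : ℤ)) D).erase 0, ∑ a ∈ A, ∑ a' ∈ A, w d *
      (if d = 0 then (if a = a' then (T2 B K H a a 0).card else 0)
        else s d ((a' : ℤ) - a)) =
      ∑ a ∈ A, ∑ a' ∈ A, ∑ d ∈ (Ioo (-(D : ℤ)) D).erase 0, w d * s d ((a' : ℤ) - a) := by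
    rw [Finset.sum_comm]
    apply Finset.sum_congr rfl
    intro a _
    rw [Finset.sum_comm]
    apply Finset.sum_congr rfl
    intro a' _
    apply Finset.sum_congr rfl
    intro d hd
    rw [mem_erase] at hd
    rw [if_neg hd.1]
  have h3 : ∑ d ∈ Ioo (-(D : ℤ)) D, ∑ a ∈ A, ∑ a' ∈ A, w d *
      (c d ((a' : ℤ) - a) + c (-d) (-((a' : ℤ) - a))) =
      ∑ a ∈ A, ∑ a' ∈ A, ∑ d ∈ Ioo (-(D : ℤ)) D, w d *
      (c d ((a' : ℤ) - a) + c (-d) (-((a' : ℤ) - a))) := by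
    rw [Finset.sum_comm]
    apply Finset.sum_congr rfl
    intro a _
    rw [Finset.sum_comm]
  rw [h2, h3, ← Finset.sum_add_distrib]
  have h4 : ∀ a ∈ A, (∑ a' ∈ A, ∑ d ∈ (Ioo (-(D : ℤ)) D).erase 0, w d * s d ((a' : ℤ) - a)) +
      ∑ a' ∈ A, ∑ d ∈ Ioo (-(D : ℤ)) D, w d *
      (c d ((a' : ℤ) - a) + c (-d) (-((a' : ℤ) - a))) ≤ M * A.card := by
    intro a _
    rw [← Finset.sum_add_distrib]
    have h5 : ∀ a' ∈ A, (∑ d ∈ (Ioo (-(D : ℤ)) D).erase 0, w d * s d ((a' : ℤ) - a)) +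
        ∑ d ∈ Ioo (-(D : ℤ)) D, w d *
        (c d ((a' : ℤ) - a) + c (-d) (-((a' : ℤ) - a))) ≤ M := fun a' _ => hMh _
    refine (Finset.sum_le_sum h5).trans ?_
    rw [Finset.sum_const, smul_eq_mul, mul_comm]
  refine (Finset.sum_le_sum h4).trans ?_
  rw [Finset.sum_const, smul_eq_mul]
  apply le_of_eq
  ring

/-- the family `g_b(k) = #{a ∈ A : a ≤ 2k, r₂(k, a) = b}` and its second moment -/
theorem lag2_data_c (wt : ℕ → ℕ) (A B : Finset ℕ) {K H D M : ℕ}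
    (Es : ℤ → Finset ℤ) (ns : ℤ → ℤ → ℕ)
    (comps : ℤ → ℤ → ℤ → Prop) [∀ d e h, Decidable (comps d e h)]
    (Ec : ℤ → Finset ℤ) (Jc : ℤ → ℤ → ℕ)
    (compc : ℤ → ℤ → ℤ → Prop) [∀ d e h, Decidable (compc d e h)]
    (hEE : ∀ d : ℤ, d ≠ 0 → |d| < D → ∀ k m m' a a' b : ℤ, K ≤ k → k < K + H → K ≤ k + d →
      k + d < K + H → SolE k m a b → SolE (k + d) m' a' b →
      m' - m ∈ Es d ∧ comps d (m' - m) (a' - a))
    (hOO : ∀ d : ℤ, d ≠ 0 → |d| < D → ∀ k m m' a a' b : ℤ, K ≤ k → k < K + H → K ≤ k + d →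
      k + d < K + H → SolO k m a b → SolO (k + d) m' a' b →
      m' - m ∈ Es d ∧ comps d (m' - m) (a' - a))
    (hEO : ∀ d : ℤ, |d| < D → ∀ k m m' a a' b : ℤ, K ≤ k → k < K + H → K ≤ k + d →
      k + d < K + H → SolE k m a b → SolO (k + d) m' a' b →
      m' - m ∈ Ec d ∧ compc d (m' - m) (a' - a))
    (hJs : ∀ d : ℤ, d ≠ 0 → |d| < D → ∀ e ∈ Es d, SameBd K d e (ns d e))
    (hJc : ∀ d : ℤ, |d| < D → ∀ e ∈ Ec d, CrossOK K d e (Jc d e))
    (hM : ∀ h : ℤ,
      (∑ d ∈ (Ioo (-(D : ℤ)) D).erase 0,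
        wR wt D d.natAbs * ∑ e ∈ Es d, (if comps d e h then ns d e else 0)) +
      ∑ d ∈ Ioo (-(D : ℤ)) D, wR wt D d.natAbs *
        ∑ e ∈ Ec d, ((if compc d e h then Jc d e + 1 else 0) +
          (if compc d e (-h) then Jc d e + 1 else 0)) ≤ M) :
    ∃ g : ℕ → ℤ → ℝ,
      (∀ b ∈ B, ∀ k, g b k ≠ 0 → (K : ℤ) ≤ k ∧ k < (K : ℤ) + H ∧ (b : ℤ) ≤ 4 * k) ∧
      ∑ b ∈ B, ∑ k ∈ Ico (K : ℤ) (K + H), g b k = (pairs2 A B K H).card ∧
      (∀ b ∈ B, ∀ k, 0 ≤ g b k) ∧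
      ∑ d ∈ Ioo (-(D : ℤ)) D, (wR wt D d.natAbs : ℝ) *
        ∑ b ∈ B, ∑ k ∈ Ico (K : ℤ) (K + H), g b k * g b (k + d) ≤
      (wR wt D 0 : ℝ) * (pairs2 A B K H).card + M * (A.card : ℝ) ^ 2 := by
  classical
  set N := (pairs2 A B K H).card with hN
  set cond : ℕ → ℕ → ℤ → Prop := fun b a k =>
    (K : ℤ) ≤ k ∧ k < K + H ∧ (a : ℤ) ≤ 2 * k ∧ r2 k.toNat a = b with hcond
  set χ : ℕ → ℕ → ℤ → ℝ := fun b a k => if cond b a k then 1 else 0 with hχ
  set g : ℕ → ℤ → ℝ := fun b k => ∑ a ∈ A, χ b a k with hg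
  have hsupp : ∀ b ∈ B, ∀ k, g b k ≠ 0 →
      (K : ℤ) ≤ k ∧ k < (K : ℤ) + H ∧ (b : ℤ) ≤ 4 * k := by
    intro b _ k hk
    by_contra hc
    apply hk
    rw [hg]
    simp only
    apply Finset.sum_eq_zero
    intro a _
    rw [hχ]
    simp only
    rw [if_neg]
    rintro ⟨h1, h2, h3, h4⟩
    apply hc
    refine ⟨h1, h2, ?_⟩
    have e1 : (k.toNat : ℤ) = k := Int.toNat_of_nonneg (by omega)
    have h5 : a ≤ 2 * k.toNat := by omega
    have h6 := r2_le_four h5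
    rw [h4] at h6
    omega
  -- products
  have hprod : ∀ d : ℤ, ∑ b ∈ B, ∑ k ∈ Ico (K : ℤ) (K + H), g b k * g b (k + d) =
      ((∑ a ∈ A, ∑ a' ∈ A, (T2 B K H a a' d).card : ℕ) : ℝ) := by
    intro d
    have e1 : ∑ b ∈ B, ∑ k ∈ Ico (K : ℤ) (K + H), g b k * g b (k + d) =
        ∑ b ∈ B, ∑ k ∈ Ico (K : ℤ) (K + H), ∑ a ∈ A, ∑ a' ∈ A, χ b a k * χ b a' (k + d) := by
      apply Finset.sum_congr rfl
      intro b _
      apply Finset.sum_congr rfl
      intro k _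
      rw [hg]
      simp only
      rw [Finset.sum_mul_sum]
    have e2 : ∑ b ∈ B, ∑ k ∈ Ico (K : ℤ) (K + H), ∑ a ∈ A, ∑ a' ∈ A,
        χ b a k * χ b a' (k + d) =
        ∑ a ∈ A, ∑ a' ∈ A, ∑ k ∈ Ico (K : ℤ) (K + H), ∑ b ∈ B, χ b a k * χ b a' (k + d) := by
      calc ∑ b ∈ B, ∑ k ∈ Ico (K : ℤ) (K + H), ∑ a ∈ A, ∑ a' ∈ A, χ b a k * χ b a' (k + d)
          = ∑ b ∈ B, ∑ a ∈ A, ∑ k ∈ Ico (K : ℤ) (K + H), ∑ a' ∈ A, χ b a k * χ b a' (k + d) := by
            apply Finset.sum_congr rfl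
            intro b _
            rw [Finset.sum_comm]
        _ = ∑ a ∈ A, ∑ b ∈ B, ∑ k ∈ Ico (K : ℤ) (K + H), ∑ a' ∈ A,
            χ b a k * χ b a' (k + d) := by rw [Finset.sum_comm]
        _ = ∑ a ∈ A, ∑ b ∈ B, ∑ a' ∈ A, ∑ k ∈ Ico (K : ℤ) (K + H),
            χ b a k * χ b a' (k + d) := by
            apply Finset.sum_congr rfl
            intro a _
            apply Finset.sum_congr rfl
            intro b _
            rw [Finset.sum_comm]
        _ = ∑ a ∈ A, ∑ a' ∈ A, ∑ b ∈ B, ∑ k ∈ Ico (K : ℤ) (K + H),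
            χ b a k * χ b a' (k + d) := by
            apply Finset.sum_congr rfl
            intro a _
            rw [Finset.sum_comm]
        _ = _ := by
            apply Finset.sum_congr rfl
            intro a _
            apply Finset.sum_congr rfl
            intro a' _
            rw [Finset.sum_comm]
    rw [e1, e2]
    push_cast
    apply Finset.sum_congr rfl
    intro a _
    apply Finset.sum_congr rfl
    intro a' _
    unfold T2
    rw [Finset.card_filter]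
    push_cast
    apply Finset.sum_congr rfl
    intro k hk
    rw [mem_Ico] at hk
    by_cases h0 : (K : ℤ) ≤ k + d ∧ k + d < K + H ∧ (a : ℤ) ≤ 2 * k ∧
      (a' : ℤ) ≤ 2 * (k + d) ∧ r2 k.toNat a ∈ B ∧ r2 (k + d).toNat a' = r2 k.toNat a
    · rw [if_pos h0]
      obtain ⟨h1, h2, h3, h4, h5, h6⟩ := h0
      rw [Finset.sum_eq_single (r2 k.toNat a)]
      · rw [hχ]
        simp only
        rw [if_pos, if_pos]
        · norm_num
        · exact ⟨h1, h2, h4, h6⟩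
        · exact ⟨hk.1, hk.2, h3, rfl⟩
      · intro b _ hb
        rw [hχ]
        simp only
        rw [if_neg (fun h => hb h.2.2.2.symm)]
        norm_num
      · intro h
        exact absurd h5 h
    · rw [if_neg h0]
      apply Finset.sum_eq_zero
      intro b hb
      by_cases c1 : cond b a k
      · by_cases c2 : cond b a' (k + d)
        · exfalso
          obtain ⟨_, _, p3, p4⟩ := c1
          obtain ⟨q1, q2, q3, q4⟩ := c2
          exact h0 ⟨q1, q2, p3, q3, by rw [p4]; exact hb, by rw [p4, q4]⟩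
        · rw [hχ]
          simp only
          rw [if_neg c2]
          norm_num
      · rw [hχ]
        simp only
        rw [if_neg c1]
        norm_num
  -- the diagonal
  have hdiag : ∑ a ∈ A, (T2 B K H a a 0).card = N := by
    rw [hN, pairs2, Finset.card_filter, Finset.sum_product]
    apply Finset.sum_congr rfl
    intro a _
    unfold T2
    rw [Finset.card_filter]
    symm
    refine Finset.sum_bij' (fun (k : ℕ) _ => (k : ℤ)) (fun (k : ℤ) _ => k.toNat)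
      ?_ ?_ ?_ ?_ ?_
    · intro k hk
      rw [mem_Ico] at hk ⊢
      exact ⟨by exact_mod_cast hk.1, by exact_mod_cast hk.2⟩
    · intro k hk
      rw [mem_Ico] at hk ⊢
      omega
    · intro k _
      simp
    · intro k hk
      rw [mem_Ico] at hk
      exact Int.toNat_of_nonneg (by omega)
    · intro k hk
      rw [mem_Ico] at hk
      simp only [add_zero, Int.toNat_natCast, and_true]
      have e : (a ≤ 2 * k ∧ r2 k a ∈ B) ↔ ((K : ℤ) ≤ (k : ℤ) ∧ (k : ℤ) < K + H ∧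
          (a : ℤ) ≤ 2 * k ∧ (a : ℤ) ≤ 2 * k ∧ r2 k a ∈ B) := by
        constructor
        · rintro ⟨q1, q2⟩
          exact ⟨by exact_mod_cast hk.1, by exact_mod_cast hk.2, by exact_mod_cast q1,
            by exact_mod_cast q1, q2⟩
        · rintro ⟨_, _, q1, _, q2⟩
          exact ⟨by exact_mod_cast q1, q2⟩
      by_cases hc : a ≤ 2 * k ∧ r2 k a ∈ B
      · rw [if_pos hc, if_pos (e.mp hc)]
      · rw [if_neg hc, if_neg (fun h => hc (e.mpr h))]
  have hsum : ∑ b ∈ B, ∑ k ∈ Ico (K : ℤ) (K + H), g b k = N := by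
    rw [← hdiag]
    have e1 : ∑ b ∈ B, ∑ k ∈ Ico (K : ℤ) (K + H), g b k =
        ∑ a ∈ A, ∑ k ∈ Ico (K : ℤ) (K + H), ∑ b ∈ B, χ b a k := by
      calc ∑ b ∈ B, ∑ k ∈ Ico (K : ℤ) (K + H), g b k
          = ∑ b ∈ B, ∑ a ∈ A, ∑ k ∈ Ico (K : ℤ) (K + H), χ b a k := by
            apply Finset.sum_congr rfl
            intro b _
            rw [Finset.sum_comm]
        _ = ∑ a ∈ A, ∑ b ∈ B, ∑ k ∈ Ico (K : ℤ) (K + H), χ b a k := by rw [Finset.sum_comm]
        _ = _ := by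
            apply Finset.sum_congr rfl
            intro a _
            rw [Finset.sum_comm]
    rw [e1]
    push_cast
    apply Finset.sum_congr rfl
    intro a _
    unfold T2
    rw [Finset.card_filter]
    push_cast
    apply Finset.sum_congr rfl
    intro k hk
    rw [mem_Ico] at hk
    simp only [add_zero]
    by_cases h0 : (a : ℤ) ≤ 2 * k ∧ r2 k.toNat a ∈ B
    · rw [if_pos ⟨hk.1, hk.2, h0.1, h0.1, h0.2, trivial⟩]
      rw [Finset.sum_eq_single (r2 k.toNat a)]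
      · rw [hχ]
        simp only
        rw [if_pos]
        exact ⟨hk.1, hk.2, h0.1, rfl⟩
      · intro b _ hb
        rw [hχ]
        simp only
        rw [if_neg (fun h => hb h.2.2.2.symm)]
      · intro h
        exact absurd h0.2 h
    · rw [if_neg (fun h => h0 ⟨h.2.2.1, h.2.2.2.2.1⟩)]
      apply Finset.sum_eq_zero
      intro b hb
      rw [hχ]
      simp only
      rw [if_neg]
      rintro ⟨_, _, p3, p4⟩
      exact h0 ⟨p3, by rw [p4]; exact hb⟩
  refine ⟨g, hsupp, hsum, ?_, ?_⟩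
  · intro b _ k
    rw [hg]
    apply Finset.sum_nonneg
    intro a _
    rw [hχ]
    simp only
    split_ifs <;> norm_num
  have hmain := moment2_c wt A B Es ns comps Ec Jc compc hEE hOO hEO hJs hJc hM
  rw [hdiag] at hmain
  calc ∑ d ∈ Ioo (-(D : ℤ)) D, (wR wt D d.natAbs : ℝ) *
        ∑ b ∈ B, ∑ k ∈ Ico (K : ℤ) (K + H), g b k * g b (k + d)
      = ((∑ d ∈ Ioo (-(D : ℤ)) D, wR wt D d.natAbs *
          ∑ a ∈ A, ∑ a' ∈ A, (T2 B K H a a' d).card : ℕ) : ℝ) := by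
        rw [Nat.cast_sum]
        apply Finset.sum_congr rfl
        intro d hd
        rw [hprod d, Nat.cast_mul]
    _ ≤ ((wR wt D 0 * N + M * A.card ^ 2 : ℕ) : ℝ) := by exact_mod_cast hmain
    _ = (wR wt D 0 : ℝ) * N + M * (A.card : ℝ) ^ 2 := by push_cast; ring

/-- **Counting lemma, lag two, with weighted shifts.** -/
theorem lag2_wc (wt : ℕ → ℕ) (A B : Finset ℕ) {K H D M : ℕ}
    (Es : ℤ → Finset ℤ) (ns : ℤ → ℤ → ℕ)
    (comps : ℤ → ℤ → ℤ → Prop) [∀ d e h, Decidable (comps d e h)]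
    (Ec : ℤ → Finset ℤ) (Jc : ℤ → ℤ → ℕ)
    (compc : ℤ → ℤ → ℤ → Prop) [∀ d e h, Decidable (compc d e h)]
    (hEE : ∀ d : ℤ, d ≠ 0 → |d| < D → ∀ k m m' a a' b : ℤ, K ≤ k → k < K + H → K ≤ k + d →
      k + d < K + H → SolE k m a b → SolE (k + d) m' a' b →
      m' - m ∈ Es d ∧ comps d (m' - m) (a' - a))
    (hOO : ∀ d : ℤ, d ≠ 0 → |d| < D → ∀ k m m' a a' b : ℤ, K ≤ k → k < K + H → K ≤ k + d →
      k + d < K + H → SolO k m a b → SolO (k + d) m' a' b →
      m' - m ∈ Es d ∧ comps d (m' - m) (a' - a))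
    (hEO : ∀ d : ℤ, |d| < D → ∀ k m m' a a' b : ℤ, K ≤ k → k < K + H → K ≤ k + d →
      k + d < K + H → SolE k m a b → SolO (k + d) m' a' b →
      m' - m ∈ Ec d ∧ compc d (m' - m) (a' - a))
    (hJs : ∀ d : ℤ, d ≠ 0 → |d| < D → ∀ e ∈ Es d, SameBd K d e (ns d e))
    (hJc : ∀ d : ℤ, |d| < D → ∀ e ∈ Ec d, CrossOK K d e (Jc d e))
    (hM : ∀ h : ℤ,
      (∑ d ∈ (Ioo (-(D : ℤ)) D).erase 0,
        wR wt D d.natAbs * ∑ e ∈ Es d, (if comps d e h then ns d e else 0)) +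
      ∑ d ∈ Ioo (-(D : ℤ)) D, wR wt D d.natAbs *
        ∑ e ∈ Ec d, ((if compc d e h then Jc d e + 1 else 0) +
          (if compc d e (-h) then Jc d e + 1 else 0)) ≤ M) :
    ((wSum wt D : ℝ) * (pairs2 A B K H).card) ^ 2 ≤
      ((D : ℝ) * B.card + ∑ k ∈ Ico K (K + H), ((B.filter (fun c => c ≤ 4 * k)).card : ℝ)) *
        ((wR wt D 0 : ℝ) * (pairs2 A B K H).card + M * (A.card : ℝ) ^ 2) := by
  obtain ⟨g, h1, h2, h2n, h3⟩ :=
    lag2_data_c wt A B Es ns comps Ec Jc compc hEE hOO hEO hJs hJc hM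
  have key := vdc_family_from_c wt B (g := g) (fun b => ((b : ℤ) + 3) / 4) (K := (K : ℤ)) (H := H)
    (D := D) (fun b hb k hk => by
      obtain ⟨q1, q2, q3⟩ := h1 b hb k hk
      exact ⟨q1, q2, by omega⟩) h2n
  rw [h2] at key
  have h4 : ∑ k ∈ Ico (K : ℤ) (K + H), ((B.filter (fun b : ℕ => ((b : ℤ) + 3) / 4 ≤ k)).card : ℝ)
      = ∑ k ∈ Ico K (K + H), ((B.filter (fun c => c ≤ 4 * k)).card : ℝ) := by
    symm
    refine Finset.sum_bij' (fun (k : ℕ) _ => (k : ℤ)) (fun (k : ℤ) _ => k.toNat)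
      ?_ ?_ ?_ ?_ ?_
    · intro k hk
      rw [mem_Ico] at hk ⊢
      omega
    · intro k hk
      rw [mem_Ico] at hk ⊢
      omega
    · intro k _
      simp
    · intro k hk
      rw [mem_Ico] at hk
      exact Int.toNat_of_nonneg (by omega)
    · intro k _
      congr 2
      ext c
      rw [mem_filter, mem_filter]
      constructor
      · rintro ⟨q1, q2⟩
        exact ⟨q1, by omega⟩
      · rintro ⟨q1, q2⟩
        exact ⟨q1, by omega⟩
  rw [h4] at key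
  refine key.trans (mul_le_mul_of_nonneg_left h3 ?_)
  positivity

end Pool.Agent.AddSq
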