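import Pool.Agent.AddSq.WLOne
import Pool.Agent.AddSq.WIface

/-!
# Lag one with weighted shifts: `D = 170`, windows `3 H ≤ 2 K`, `K ≥ 20000000`
-/

namespace Pool.Agent.AddSq.L1W

open Finset L1

/-- the weights as digits in base 256 -/
def CT : ℕ := 5013329655363613522555800862455685283438369234847017260791512882295478080257356694497139990176258138098861637373780350853256762713149845646587433558926917467666484610036955565968195241391326568908457816272980869155324136611484202267387597255900890820845021351649444176609010539341342262108160819413800536082343388797298580956391187291929165727996907146361039802888181359148361885516384210988786762658542977064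

/-- their autocorrelation as digits in base `2 ^ 24` -/
def RT : ℕ := 1937726954641077312557659347394491267715498850248994552276262242609820700517219954428415638637331306149417056437092767080875831917496462200696878637409113445119206785455027659545576107358143561794818014695415028852897440355773296019284857431036090930158625178534002341668305094531030496905296549177654949554585608075938634628811024351962191369740904451430637680749735890178016257214881639658132260238084476024264868623311260065631532754076701871624034266808339215619623809093011247949079669549939253450507361120834119915074034151899510531359131605680398974313397516600113087135303097460776769568072435771968505385630016310823634952759854104558083680223069965300067171755921487436293769265473342697958986303855749851945863508025764978349241610870785783538621646042722351093547245705051120444607622068833968177850032663340450925023522445225351670687188829933027552331442671142844692172016538763580186373947175600399093338589106905061945534700772896685340493291740485557978490091938150873032481800485616976112628418194588496103892852992330784476442224440751626190156132900121785469390050934734876449913615146031613478758785871260356614662396478655141873145393404646948663522119679150622491347967059522202918288158524387794953617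

def wt1 (i : ℕ) : ℕ := dg 256 CT i

def wf1 (δ : ℕ) : ℕ := dg 16777216 RT δ

set_option maxRecDepth 10000 in
theorem chk_wf1 : chkR wt1 wf1 170 170 = true := by decide +kernel

theorem sum_wt1 : csum wt1 170 = 2069 := by decide +kernel

theorem wf1_zero : wf1 0 = 75153 := by decide +kernel

set_option maxRecDepth 10000 in
theorem cert170 : certFrom wf1 170 5 3 160000000 505000000000 1248088 169 = true := by decide +kernel

set_option maxRecDepth 10000 in
theorem good170 : goodFrom 170 505000000000 20000000 2092041037 169 = true := by decide +kernel

end Pool.Agent.AddSq.L1W

namespace Pool.Agent.AddSq

/-- **The inequality of lag one with weighted shifts.** -/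
theorem wBound1 : WBound1 20000000 170 2069 75153 1248088 := by
  intro K H A B hK hH
  have hwt : ∀ δ, 1 ≤ δ → δ < 170 → wR L1W.wt1 170 δ = L1W.wf1 δ := fun δ _ h =>
    L1W.chkR_spec L1W.chk_wf1 h
  have h0 : wR L1W.wt1 170 0 = 75153 := (L1W.chkR_spec L1W.chk_wf1 (by norm_num)).trans L1W.wf1_zero
  have hC : wSum L1W.wt1 170 = 2069 := (L1W.csum_eq _ _).symm.trans L1W.sum_wt1
  have := L1W.lag1_cert (wf := L1W.wf1) (D := 170) (p := 5) (q := 3) (K := K) (H := H)
    (tm := 2092041037) (K₀ := 20000000) L1W.cert170 L1W.good170 (by norm_num) (by norm_num)
    (by norm_num) hK (by norm_num) (by omega) (by omega) (by omega) (by omega) L1W.wt1 hwt A B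
  rw [h0, hC] at this
  push_cast at this ⊢
  exact this

end Pool.Agent.AddSq
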