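import Pool.Agent.AddSq.X2Num
import Pool.Agent.AddSq.X2Tab
import Pool.Agent.AddSq.WIface

/-!
# Lag two with weighted shifts: `D = 170`, windows `3 H ≤ 2 K`, `K ≥ 20 000 000`
-/

namespace Pool.Agent.AddSq

open Finset

/-- **The inequality of lag two with weighted shifts.** -/
theorem wBound2 : WBound2 20000000 170 2073 67213 1406598 := by
  intro K H A B hK hH
  have hwt : ∀ δ, δ < 170 → wR X2.wt2 170 δ = X2.wf2 δ := fun δ h =>
    L1W.chkR_spec X2.chk_wf2 h
  have h0 : wR X2.wt2 170 0 = 67213 := (hwt 0 (by norm_num)).trans X2.wf2_zero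
  have hC : wSum X2.wt2 170 = 2073 := (L1W.csum_eq _ _).symm.trans X2.sum_wt2
  have := X2.wBound2_of X2.active_c X2.same_b X2.cross_b X2.wt2 hwt K H A B hK hH
  rw [h0, hC] at this
  push_cast at this ⊢
  exact this

end Pool.Agent.AddSq
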