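import Pool.Agent.AddSq.SysR
import Pool.Agent.AddSq.WLagOne
import Pool.Agent.AddSq.WLagTwo

/-!
# The system of window inequalities with the weighted shifts
-/

namespace Pool.Agent.AddSq

open Finset

/-- division of the weighted lag inequality by `C²` -/
theorem wlag_div {C : ℕ} (hC : 1 ≤ C) {N A r s t : ℝ}
    (h : ((C : ℝ) * N) ^ 2 ≤ A * (r * N + s * t)) :
    N ^ 2 ≤ A * (r / (C : ℝ) ^ 2 * N + s / (C : ℝ) ^ 2 * t) := by
  have hCr : (0 : ℝ) < C := by exact_mod_cast hC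
  have e : A * (r / (C : ℝ) ^ 2 * N + s / (C : ℝ) ^ 2 * t) = (A * (r * N + s * t)) / (C : ℝ) ^ 2 := by
    field_simp
  rw [e, le_div_iff₀ (by positivity)]
  calc N ^ 2 * (C : ℝ) ^ 2 = ((C : ℝ) * N) ^ 2 := by ring
    _ ≤ _ := h

/-- **The normal form for arbitrary sets with the rules, weighted shifts.** -/
theorem sysR_of_wBound {W L : ℕ → Prop} (h : GRules W L) {K₀ D C₁ R₁ S₁ C₂ R₂ S₂ : ℕ}
    (hK₀ : 1 ≤ K₀) (hC₁ : 1 ≤ C₁) (hC₂ : 1 ≤ C₂)
    (b₁ : WBound1 K₀ D C₁ R₁ S₁) (b₂ : WBound2 K₀ D C₂ R₂ S₂) :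
    SysR D (R₁ / (C₁ : ℝ) ^ 2) (S₁ / (C₁ : ℝ) ^ 2) (R₂ / (C₂ : ℝ) ^ 2) (S₂ / (C₂ : ℝ) ^ 2) K₀
      (gcount W) (gcount L) where
  monoW := GW.gcount_mono W
  monoL := GW.gcount_mono L
  leW := GW.gcount_le_of_pos h.wpos
  leL := GW.gcount_le L
  win := GW.gwin h
  loss := by
    intro K z R hK hKz hH hR
    have e : K + (z - K) = z := by omega
    refine ⟨(pairs1 (GW.gset W (2 * (z - 1))) (GW.gset L R) K (z - K)).card,
      (pairs2 (GW.gset W (2 * (z - 1))) (GW.gset W (4 * (z - 1))) K (z - K)).card, ?_, ?_, ?_⟩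
    · have q1 := GW.gloss_window h (K := K) (by omega) (z - K)
      have q2 := GW.gwin1_card_le (W := W) (L := L) (K := K) (H := z - K) (R := R)
        (by rw [e]; exact hR)
      have q3 := GW.gwin2_card_le W K (z - K)
      rw [e] at q1 q2 q3
      omega
    · have h1 := b₁ K (z - K) (GW.gset W (2 * (z - 1))) (GW.gset L R) hK hH
      rw [e, GW.sum_gset_filter 2 K z] at h1
      have h2 := wlag_div hC₁ h1
      refine h2.trans (le_of_eq ?_)
      push_cast
      rfl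
    · have h1 := b₂ K (z - K) (GW.gset W (2 * (z - 1))) (GW.gset W (4 * (z - 1))) hK hH
      rw [e, GW.sum_gset_filter 4 K z] at h1
      have h2 := wlag_div hC₂ h1
      refine h2.trans (le_of_eq ?_)
      push_cast
      rfl

/-- **The system with the certified weights**: `170` shifts, windows from `2·10⁷`. -/
theorem sysR_weighted {W L : ℕ → Prop} (h : GRules W L) :
    SysR 170 (75153 / 2069 ^ 2) (1248088 / 2069 ^ 2) (67213 / 2073 ^ 2) (1406598 / 2073 ^ 2)
      20000000 (gcount W) (gcount L) := by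
  have := sysR_of_wBound h (by norm_num) (by norm_num) (by norm_num) wBound1 wBound2
  push_cast at this
  exact this

end Pool.Agent.AddSq
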