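import Pool.Agent.AddSq.Bridge2
import Pool.Agent.AddSq.Iface

/-!
# Block A: the window inequalities in terms of `cL`, `cW`
-/

namespace Pool.Agent.AddSq

open Finset

theorem cW_eq (x : ℕ) : cW x = winCount x := card_winSet x

theorem cL_eq (x : ℕ) : cL x = 1 + lossCount x := card_lostSet x

/-- **(A3)** -/
theorem cL_mono {x y : ℕ} (h : x ≤ y) : cL x ≤ cL y := by
  rw [cL_eq, cL_eq]
  exact Nat.add_le_add_left (lossCount_mono h) _

theorem cW_mono {x y : ℕ} (h : x ≤ y) : cW x ≤ cW y := by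
  rw [cW_eq, cW_eq]
  exact winCount_mono h

theorem cL_le (x : ℕ) : cL x ≤ x + 1 := by
  have := count_add x
  rw [cL_eq]
  omega

theorem cW_le (x : ℕ) : cW x ≤ x := by
  have := count_add x
  rw [cW_eq]
  omega

theorem one_le_cL (x : ℕ) : 1 ≤ cL x := by
  rw [cL_eq]
  omega

/-- **(A1)** wins up to `x`. -/
theorem cW_rec (x : ℕ) :
    cW x ≤ ∑ k ∈ Icc 1 (Nat.sqrt x), cL (2 * k) + cL (2 * x) := by
  have h := winCount_rec x
  rw [cW_eq, cL_eq]
  have e : ∑ k ∈ Icc 1 (Nat.sqrt x), cL (2 * k) =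
      ∑ k ∈ Icc 1 (Nat.sqrt x), (1 + lossCount (2 * k)) :=
    sum_congr rfl (fun k _ => cL_eq _)
  rw [e]
  omega

/-- `r₁(k, a) ≤ R` for `k < z`, `8 (z - 1) z ≤ R²` -/
theorem r1_le' {k a z R : ℕ} (ha : a ≤ 2 * k) (hk : k < z)
    (hR : 8 * ((z - 1) * z) ≤ R * R) : r1 k a ≤ R := by
  have e1 : Nat.sqrt (k * k + a) = k := sqrt_block ha
  have h1 := (strip (k * k + a)).1
  rw [e1] at h1
  have h2 := rem_le_two_sqrt (up (k * k + a))
  have h3 : r1 k a * r1 k a ≤ (2 * m1 k a) * (2 * m1 k a) := Nat.mul_le_mul h2 h2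
  have h4 : k * (k + 1) ≤ (z - 1) * z := Nat.mul_le_mul (by omega) (by omega)
  have h5 : m1 k a * m1 k a ≤ 2 * (k * k) + 2 * k := h1
  have h6 : r1 k a * r1 k a ≤ R * R := by nlinarith
  by_contra hc
  push Not at hc
  have h7 := Nat.mul_lt_mul'' hc hc
  omega

/-- `r₂(k, a) ≤ 4 k` -/
theorem r2_le {k a : ℕ} (ha : a ≤ 2 * k) : r2 k a ≤ 4 * k := by
  have e1 : Nat.sqrt (k * k + a) = k := sqrt_block ha
  have h2 := rem_le_two_sqrt (up (up (k * k + a)))
  unfold r2
  rcases Nat.lt_or_ge (2 * rem (k * k + a)) (rem (up (k * k + a))) with h | h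
  · have := (case_odd h).1
    rw [e1] at this
    omega
  · have := (case_even h).1
    rw [e1] at this
    omega

theorem win1_card_le {K H R : ℕ} (hR : 8 * ((K + H - 1) * (K + H)) ≤ R * R) :
    (win1 K H).card ≤ (pairs1 (winSet (2 * (K + H - 1))) (lostSet R) K H).card := by
  classical
  apply card_le_card_of_injOn (fun n => (rem n, Nat.sqrt n))
  · intro n hn
    rw [mem_coe, win1, mem_filter, mem_Ico] at hn
    obtain ⟨⟨h1, h2⟩, h3, h4⟩ := hn
    have hk1 : K ≤ Nat.sqrt n := by rw [Nat.le_sqrt]; exact h1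
    have hk2 : Nat.sqrt n < K + H := by rw [Nat.sqrt_lt]; exact h2
    have hr := rem_le_two_sqrt n
    have hn' : Nat.sqrt n * Nat.sqrt n + rem n = n := sq_add_rem n
    rw [mem_coe, pairs1, mem_filter, mem_product, mem_Ico, mem_winSet]
    refine ⟨⟨⟨by simp only; omega, h3⟩, hk1, hk2⟩, hr, ?_⟩
    rw [mem_lostSet]
    refine ⟨r1_le' hr hk2 hR, ?_⟩
    simp only [r1]
    rw [hn']
    exact h4
  · intro n _ n' _ h
    simp only [Prod.mk.injEq] at h
    have h1 := sq_add_rem n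
    have h2 := sq_add_rem n'
    rw [h.1, h.2] at h1
    omega

theorem win2_card_le (K H : ℕ) :
    (win2 K H).card ≤ (pairs2 (winSet (2 * (K + H - 1))) (winSet (4 * (K + H - 1))) K H).card := by
  classical
  apply card_le_card_of_injOn (fun n => (rem n, Nat.sqrt n))
  · intro n hn
    rw [mem_coe, win2, mem_filter, mem_Ico] at hn
    obtain ⟨⟨h1, h2⟩, h3, h4⟩ := hn
    have hk1 : K ≤ Nat.sqrt n := by rw [Nat.le_sqrt]; exact h1
    have hk2 : Nat.sqrt n < K + H := by rw [Nat.sqrt_lt]; exact h2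
    have hr := rem_le_two_sqrt n
    have hn' : Nat.sqrt n * Nat.sqrt n + rem n = n := sq_add_rem n
    rw [mem_coe, pairs2, mem_filter, mem_product, mem_Ico, mem_winSet]
    refine ⟨⟨⟨by simp only; omega, h3⟩, hk1, hk2⟩, hr, ?_⟩
    rw [mem_winSet]
    have h5 := r2_le hr
    refine ⟨by simp only; omega, ?_⟩
    simp only [r2]
    rw [hn']
    exact h4
  · intro n _ n' _ h
    simp only [Prod.mk.injEq] at h
    have h1 := sq_add_rem n
    have h2 := sq_add_rem n'
    rw [h.1, h.2] at h1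
    omega

/-- **(A2)** the lost positions of one window, `z = K + H`. -/
theorem cL_window {K H R : ℕ} (hK : 1 ≤ K) (hR : 8 * ((K + H - 1) * (K + H)) ≤ R * R) :
    cL ((K + H) * (K + H) - 1) ≤ cL (K * K - 1) +
      (pairs1 (winSet (2 * (K + H - 1))) (lostSet R) K H).card +
      (pairs2 (winSet (2 * (K + H - 1))) (winSet (4 * (K + H - 1))) K H).card := by
  have h := lossCount_window hK H
  have h1 := win1_card_le hR
  have h2 := win2_card_le K H
  rw [pow_two, pow_two] at h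
  rw [cL_eq, cL_eq]
  omega

/-- **(A2)** in the form `z = K + H`, `z` and `K` given. -/
theorem cL_window' {K z R : ℕ} (hK : 1 ≤ K) (hKz : K ≤ z) (hR : 8 * ((z - 1) * z) ≤ R * R) :
    cL (z * z - 1) ≤ cL (K * K - 1) +
      (pairs1 (winSet (2 * (z - 1))) (lostSet R) K (z - K)).card +
      (pairs2 (winSet (2 * (z - 1))) (winSet (4 * (z - 1))) K (z - K)).card := by
  have e : K + (z - K) = z := by omega
  have h := cL_window (K := K) (H := z - K) (R := R) hK (by rw [e]; exact hR)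
  rw [e] at h
  exact h

/-- the trivial bound below `z²` -/
theorem cL_trivial {z : ℕ} (hz : 1 ≤ z) : cL (z * z - 1) ≤ z * z := by
  have := cL_le (z * z - 1)
  have : 1 ≤ z * z := Nat.mul_pos hz hz
  omega

end Pool.Agent.AddSq
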