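import Pool.Agent.AddSq.VdCw

/-!
# The van der Corput inequality with weighted shifts

The shifts `s < D` are averaged with weights `c s`.  With `C = Σ c s` and
`R(d) = Σ c s · c (s + |d|)`:
`(C Σ g)² ≤ (H + D) Σ_{|d| < D} R(d) Σ_k g(k) g(k + d)`.
-/

namespace Pool.Agent.AddSq

open Finset

/-- the sum of the weights -/
def wSum (c : ℕ → ℕ) (D : ℕ) : ℕ := ∑ i ∈ range D, c i

/-- the autocorrelation of the weights -/
def wR (c : ℕ → ℕ) (D δ : ℕ) : ℕ := ∑ i ∈ range (D - δ), c i * c (i + δ)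

theorem sum_Ico_toNat (c : ℕ → ℝ) (D : ℕ) :
    ∑ i ∈ Ico (0 : ℤ) D, c i.toNat = ∑ i ∈ range D, c i := by
  refine Finset.sum_bij' (fun i _ => i.toNat) (fun i _ => (i : ℤ)) ?_ ?_ ?_ ?_ ?_
  · intro i hi
    rw [mem_Ico] at hi
    rw [mem_range]
    omega
  · intro i hi
    rw [mem_range] at hi
    rw [mem_Ico]
    omega
  · intro i hi
    rw [mem_Ico] at hi
    omega
  · intro i _
    simp
  · intro i _
    rfl

/-- weighted number of pairs `(i, j)` in `[0, D)²` with `j - i = d` -/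
theorem sum_pairs_c (c : ℕ → ℕ) (D : ℕ) (F : ℤ → ℝ) :
    ∑ i ∈ Ico (0 : ℤ) D, ∑ j ∈ Ico (0 : ℤ) D, (c i.toNat : ℝ) * c j.toNat * F (j - i) =
      ∑ d ∈ Ioo (-(D : ℤ)) D, (wR c D d.natAbs : ℝ) * F d := by
  have h1 : ∑ i ∈ Ico (0 : ℤ) D, ∑ j ∈ Ico (0 : ℤ) D, (c i.toNat : ℝ) * c j.toNat * F (j - i) =
      ∑ i ∈ Ico (0 : ℤ) D, ∑ d ∈ Ioo (-(D : ℤ)) D,
        (if 0 ≤ i + d ∧ i + d < D then (c i.toNat : ℝ) * c (i + d).toNat * F d else 0) := by
    apply Finset.sum_congr rfl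
    intro i hi
    rw [mem_Ico] at hi
    rw [← Finset.sum_filter]
    refine Finset.sum_bij' (fun j _ => j - i) (fun d _ => i + d) ?_ ?_ ?_ ?_ ?_
    · intro j hj
      rw [mem_Ico] at hj
      rw [mem_filter, mem_Ioo]
      omega
    · intro d hd
      rw [mem_filter, mem_Ioo] at hd
      rw [mem_Ico]
      omega
    · intro j _
      omega
    · intro d _
      omega
    · intro j _
      have : i + (j - i) = j := by ring
      rw [this]
  rw [h1, Finset.sum_comm]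
  apply Finset.sum_congr rfl
  intro d hd
  rw [mem_Ioo] at hd
  rw [← Finset.sum_filter, ← Finset.sum_mul]
  congr 1
  unfold wR
  push_cast
  rcases le_total 0 d with h | h
  · refine Finset.sum_bij' (fun i _ => i.toNat) (fun i _ => (i : ℤ)) ?_ ?_ ?_ ?_ ?_
    · intro i hi
      rw [mem_filter, mem_Ico] at hi
      rw [mem_range]
      omega
    · intro i hi
      rw [mem_range] at hi
      rw [mem_filter, mem_Ico]
      omega
    · intro i hi
      rw [mem_filter, mem_Ico] at hi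
      omega
    · intro i _
      simp
    · intro i hi
      rw [mem_filter, mem_Ico] at hi
      have e : (i + d).toNat = i.toNat + d.natAbs := by omega
      rw [e]
  · refine Finset.sum_bij' (fun i _ => (i + d).toNat) (fun i _ => (i : ℤ) + d.natAbs) ?_ ?_ ?_ ?_ ?_
    · intro i hi
      rw [mem_filter, mem_Ico] at hi
      rw [mem_range]
      omega
    · intro i hi
      rw [mem_range] at hi
      rw [mem_filter, mem_Ico]
      omega
    · intro i hi
      rw [mem_filter, mem_Ico] at hi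
      omega
    · intro i _
      omega
    · intro i hi
      rw [mem_filter, mem_Ico] at hi
      have e : i.toNat = (i + d).toNat + d.natAbs := by omega
      rw [← e]
      ring

/-- **van der Corput with weights.** -/
theorem vdc_c (c : ℕ → ℕ) {g : ℤ → ℝ} {K : ℤ} {H D : ℕ}
    (hg : ∀ k, g k ≠ 0 → K ≤ k ∧ k < K + H) :
    ((wSum c D : ℝ) * ∑ k ∈ Ico K (K + H), g k) ^ 2 ≤
      ((H : ℝ) + D) * ∑ d ∈ Ioo (-(D : ℤ)) D,
        (wR c D d.natAbs : ℝ) * ∑ k ∈ Ico K (K + H), g k * g (k + d) := by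
  -- the window sums
  set I : Finset ℤ := Ico (K - D) (K + H) with hI
  have hcard : ((I.card : ℕ) : ℝ) = (H : ℝ) + D := by
    rw [hI, Int.card_Ico]
    have : ((((K + H) - (K - D)).toNat : ℤ) : ℝ) = (H : ℝ) + D := by
      rw [Int.toNat_of_nonneg (by omega)]
      push_cast
      ring
    exact_mod_cast this
  have shift : ∀ (F : ℤ → ℝ) (i : ℤ), 0 ≤ i → i < D →
      (∀ k, F k ≠ 0 → K ≤ k ∧ k < K + H) →
      ∑ x ∈ I, F (x + i) = ∑ k ∈ Ico K (K + H), F k := by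
    intro F i h0 h1 hF
    have e : ∑ x ∈ I, F (x + i) = ∑ k ∈ Ico (K - D + i) (K + H + i), F k := by
      refine Finset.sum_bij' (fun x _ => x + i) (fun k _ => k - i) ?_ ?_ ?_ ?_ ?_
      · intro x hx
        rw [hI, mem_Ico] at hx
        rw [mem_Ico]
        omega
      · intro x hx
        rw [mem_Ico] at hx
        rw [hI, mem_Ico]
        omega
      · intro x _
        omega
      · intro x _
        omega
      · intro x _
        rfl
    rw [e]
    exact sum_Ico_of_support (by omega) (by omega) hF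
  have h1 : (wSum c D : ℝ) * ∑ k ∈ Ico K (K + H), g k =
      ∑ x ∈ I, ∑ i ∈ Ico (0 : ℤ) D, (c i.toNat : ℝ) * g (x + i) := by
    rw [Finset.sum_comm]
    have : ∀ i ∈ Ico (0 : ℤ) D, ∑ x ∈ I, (c i.toNat : ℝ) * g (x + i) =
        (c i.toNat : ℝ) * ∑ k ∈ Ico K (K + H), g k := by
      intro i hi
      rw [mem_Ico] at hi
      rw [← Finset.mul_sum]
      congr 1
      exact shift g i hi.1 hi.2 hg
    rw [Finset.sum_congr rfl this, ← Finset.sum_mul]
    congr 1
    rw [sum_Ico_toNat (fun i => (c i : ℝ)) D]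
    unfold wSum
    push_cast
    rfl
  have h2 : (∑ x ∈ I, ∑ i ∈ Ico (0 : ℤ) D, (c i.toNat : ℝ) * g (x + i)) ^ 2 ≤
      (I.card : ℝ) * ∑ x ∈ I, (∑ i ∈ Ico (0 : ℤ) D, (c i.toNat : ℝ) * g (x + i)) ^ 2 := by
    exact sq_sum_le_card_mul_sum_sq
  have h3 : ∑ x ∈ I, (∑ i ∈ Ico (0 : ℤ) D, (c i.toNat : ℝ) * g (x + i)) ^ 2 =
      ∑ d ∈ Ioo (-(D : ℤ)) D,
        (wR c D d.natAbs : ℝ) * ∑ k ∈ Ico K (K + H), g k * g (k + d) := by
    rw [← sum_pairs_c c D (fun d => ∑ k ∈ Ico K (K + H), g k * g (k + d))]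
    have e1 : ∀ x ∈ I, (∑ i ∈ Ico (0 : ℤ) D, (c i.toNat : ℝ) * g (x + i)) ^ 2 =
        ∑ i ∈ Ico (0 : ℤ) D, ∑ j ∈ Ico (0 : ℤ) D,
          ((c i.toNat : ℝ) * g (x + i)) * ((c j.toNat : ℝ) * g (x + j)) := by
      intro x _
      rw [sq, Finset.sum_mul_sum]
    rw [Finset.sum_congr rfl e1, Finset.sum_comm]
    apply Finset.sum_congr rfl
    intro i hi
    rw [Finset.sum_comm]
    apply Finset.sum_congr rfl
    intro j hj
    rw [mem_Ico] at hi hj
    have := shift (fun k => g k * g (k + (j - i))) i hi.1 hi.2 (fun k hk => by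
      apply hg
      intro hz
      apply hk
      simp [hz])
    rw [← this, Finset.mul_sum]
    apply Finset.sum_congr rfl
    intro x _
    have e2 : x + i + (j - i) = x + j := by ring
    simp only [e2]
    ring
  rw [h1, ← h3, ← hcard]
  exact h2

/-- weighted shifts and individual windows `[s a, s a + l a)` -/
theorem vdc_family_wc (c : ℕ → ℕ) {ι : Type*} (A : Finset ι) {g : ι → ℤ → ℝ} {K : ℤ} {H D : ℕ}
    (s : ι → ℤ) (l : ι → ℕ) (hs : ∀ a ∈ A, K ≤ s a) (hl : ∀ a ∈ A, s a + l a ≤ K + H)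
    (hg : ∀ a ∈ A, ∀ k, g a k ≠ 0 → s a ≤ k ∧ k < s a + l a)
    (hg0 : ∀ a ∈ A, ∀ k, 0 ≤ g a k) :
    ((wSum c D : ℝ) * ∑ a ∈ A, ∑ k ∈ Ico K (K + H), g a k) ^ 2 ≤
      (∑ a ∈ A, ((l a : ℝ) + D)) * ∑ d ∈ Ioo (-(D : ℤ)) D,
        (wR c D d.natAbs : ℝ) * ∑ a ∈ A, ∑ k ∈ Ico K (K + H), g a k * g a (k + d) := by
  -- each member
  have h1 : ∀ a ∈ A, ((wSum c D : ℝ) * ∑ k ∈ Ico K (K + H), g a k) ^ 2 ≤
      ((l a : ℝ) + D) * ∑ d ∈ Ioo (-(D : ℤ)) D,
        (wR c D d.natAbs : ℝ) * ∑ k ∈ Ico K (K + H), g a k * g a (k + d) := by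
    intro a ha
    have h := vdc_c c (g := g a) (K := s a) (H := l a) (D := D) (hg a ha)
    rw [sum_Ico_of_support (hs a ha) (hl a ha) (hg a ha)]
    have h2 : ∀ d ∈ Ioo (-(D : ℤ)) D,
        (wR c D d.natAbs : ℝ) * ∑ k ∈ Ico K (K + H), g a k * g a (k + d) =
        (wR c D d.natAbs : ℝ) * ∑ k ∈ Ico (s a) (s a + l a), g a k * g a (k + d) := by
      intro d _
      rw [sum_Ico_of_support (hs a ha) (hl a ha)]
      intro k hk
      exact hg a ha k (left_ne_zero_of_mul hk)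
    rw [Finset.sum_congr rfl h2]
    exact h
  have h3 : (wSum c D : ℝ) * ∑ a ∈ A, ∑ k ∈ Ico K (K + H), g a k =
      ∑ a ∈ A, (wSum c D : ℝ) * ∑ k ∈ Ico K (K + H), g a k := by
    rw [Finset.mul_sum]
  have h4 : ∑ d ∈ Ioo (-(D : ℤ)) D,
        (wR c D d.natAbs : ℝ) * ∑ a ∈ A, ∑ k ∈ Ico K (K + H), g a k * g a (k + d) =
      ∑ a ∈ A, ∑ d ∈ Ioo (-(D : ℤ)) D,
        (wR c D d.natAbs : ℝ) * ∑ k ∈ Ico K (K + H), g a k * g a (k + d) := by
    rw [Finset.sum_comm]
    apply Finset.sum_congr rfl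
    intro d _
    rw [Finset.mul_sum]
  rw [h3, h4]
  apply Finset.sum_sq_le_sum_mul_sum_of_sq_le_mul
  · intro a _
    positivity
  · intro a ha
    apply Finset.sum_nonneg
    intro d hd
    apply mul_nonneg (Nat.cast_nonneg _)
    apply Finset.sum_nonneg
    intro k _
    exact mul_nonneg (hg0 a ha _) (hg0 a ha _)
  · exact h1

/-- weighted shifts, a family `g b` supported in `{k ∈ [K, K + H) : s b ≤ k}` -/
theorem vdc_family_from_c (c : ℕ → ℕ) {ι : Type*} (B : Finset ι) {g : ι → ℤ → ℝ} (s : ι → ℤ)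
    {K : ℤ} {H D : ℕ} (hg : ∀ b ∈ B, ∀ k, g b k ≠ 0 → K ≤ k ∧ k < K + H ∧ s b ≤ k)
    (hg0 : ∀ b ∈ B, ∀ k, 0 ≤ g b k) :
    ((wSum c D : ℝ) * ∑ b ∈ B, ∑ k ∈ Ico K (K + H), g b k) ^ 2 ≤
      ((D : ℝ) * B.card + ∑ k ∈ Ico K (K + H), ((B.filter (fun b => s b ≤ k)).card : ℝ)) *
        ∑ d ∈ Ioo (-(D : ℤ)) D,
          (wR c D d.natAbs : ℝ) * ∑ b ∈ B, ∑ k ∈ Ico K (K + H), g b k * g b (k + d) := by
  classical
  -- left end and length of the window of `b`
  set a : ι → ℤ := fun b => max K (min (s b) (K + H)) with ha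
  set l : ι → ℕ := fun b => (K + H - a b).toNat with hl
  have haK : ∀ b, K ≤ a b := fun b => le_max_left _ _
  have haH : ∀ b, a b ≤ K + H := fun b => by
    rw [ha]
    simp only
    omega
  have hal : ∀ b, a b + l b = K + H := fun b => by
    have h1 := haH b
    rw [hl]
    simp only
    omega
  have hsupp : ∀ b ∈ B, ∀ k, g b k ≠ 0 → a b ≤ k ∧ k < a b + l b := by
    intro b hb k hk
    obtain ⟨h1, h2, h3⟩ := hg b hb k hk
    rw [hal b]
    refine ⟨?_, h2⟩
    rw [ha]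
    simp only
    omega
  have key := vdc_family_wc c B (g := g) (K := K) (H := H) (D := D) a l (fun b _ => haK b)
    (fun b _ => (hal b).le) hsupp hg0
  -- the weights
  have h3 : ∑ b ∈ B, ((l b : ℝ) + D) =
      (D : ℝ) * B.card + ∑ k ∈ Ico K (K + H), ((B.filter (fun b => s b ≤ k)).card : ℝ) := by
    rw [Finset.sum_add_distrib, Finset.sum_const, nsmul_eq_mul, add_comm, mul_comm]
    congr 1
    have e1 : ∀ k, ((B.filter (fun b => s b ≤ k)).card : ℝ) =
        ∑ b ∈ B, if s b ≤ k then (1 : ℝ) else 0 := by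
      intro k
      rw [Finset.card_filter]
      push_cast
      rfl
    rw [Finset.sum_congr rfl (fun k _ => e1 k), Finset.sum_comm]
    apply Finset.sum_congr rfl
    intro b _
    have e2 : ∑ k ∈ Ico K (K + H), (if s b ≤ k then (1 : ℝ) else 0) =
        (((Ico K (K + H)).filter (fun k => s b ≤ k)).card : ℝ) := by
      rw [Finset.card_filter]
      push_cast
      rfl
    rw [e2]
    have e3 : (Ico K (K + H)).filter (fun k => s b ≤ k) = Ico (a b) (K + H) := by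
      ext k
      rw [mem_filter, mem_Ico, mem_Ico, ha]
      simp only
      omega
    rw [e3, Int.card_Ico]
  rw [h3] at key
  exact key

end Pool.Agent.AddSq
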