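import Pool.Agent.AddSq.Lag2Inst
import Pool.Agent.AddSq.X2Range
import Pool.Agent.AddSq.WLag2

/-!
# Lag two, `D = 170`: the certificate hypothesis `hM` and the multiplicities for `lag2_wc`

`ns d`: bound for the pairs on the same branch, `nc d`: from the even to the odd branch,
`wf δ`: weight of the shift `δ`.
-/

namespace Pool.Agent.AddSq.X2

open Finset

/-- the bound for the pairs on the same branch -/
def nsE (ns : ℤ → ℕ) (d e : ℤ) : ℕ := if e = fl d then ns d else ns (-d)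

/-- the numerical inequalities, same branch -/
def SameB (ns : ℤ → ℕ) : Prop := ∀ d ∈ Dset, tl d ≤ 500100000 → ∀ K : ℕ, 20000000 ≤ K →
  SameBd K d (fl d) (ns d)

/-- the numerical inequalities, from the even to the odd branch -/
def CrossB (nc : ℤ → ℕ) : Prop := ∀ d ∈ Dset, 207000000 ≤ tl d → tl d ≤ 707500000 →
  1 ≤ nc d ∧ CrossOK 20000000 (1 - d) (-fl d) (nc d - 1)

/-- the certificate in terms of active shifts -/
def ActiveC (wf : ℕ → ℕ) (ns nc : ℤ → ℕ) (S : ℕ) : Prop := ∀ K : ℕ, 20000000 ≤ K → ∀ h : ℤ,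
  0 < h → ∀ T₁ ⊆ Dset, ∀ T₂ ⊆ Dset,
    (∀ d ∈ T₁, cls d h = true ∧ NearH K h (tt d)) →
    (∀ d ∈ T₂, cls d (h - 1) = true ∧ NearH K h (tt d)) →
    ∑ d ∈ T₁, wf d.natAbs * ns d + ∑ d ∈ T₂, wf (d - 1).natAbs * nc d ≤ S

theorem hJs2 {ns : ℤ → ℕ} (hnum : SameB ns) {K : ℕ} (hK : 20000000 ≤ K) {d : ℤ} (hd0 : d ≠ 0)
    (hd : |d| < ((170 : ℕ) : ℤ)) : ∀ e ∈ Es2 d, SameBd K d e (nsE ns d e) := by
  intro e he
  have hdi := abs_lt.mp hd
  push_cast at hdi
  have hdD : d ∈ Dset := mem_Dset.mpr ⟨hd0, by omega, by omega⟩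
  unfold Es2 at he
  rw [mem_union] at he
  rcases he with he | he
  · by_cases ht : tl d ≤ 500100000
    · rw [if_pos ht, mem_singleton] at he
      subst he
      unfold nsE
      rw [if_pos rfl]
      exact hnum d hdD ht K hK
    · rw [if_neg ht] at he
      simp at he
  · by_cases ht : tl (-d) ≤ 500100000
    · rw [if_pos ht, mem_singleton] at he
      subst he
      unfold nsE
      rw [if_neg (by omega)]
      have h1 := (hnum (-d) (neg_mem_Dset hdD) ht K hK).neg
      rw [neg_neg, fl_neg' hd0] at h1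
      have e1 : -(-fl d - 1) = fl d + 1 := by ring
      rw [e1] at h1
      exact h1
    · rw [if_neg ht] at he
      simp at he

theorem hJc2 {nc : ℤ → ℕ} (hnum : CrossB nc) {K : ℕ} (hK : 20000000 ≤ K) {d : ℤ}
    (hd : |d| < ((170 : ℕ) : ℤ)) : ∀ e ∈ Ec2 d, CrossOK K d e (nc (1 - d) - 1) := by
  intro e he
  have hKr : (20000000 : ℝ) ≤ K := by exact_mod_cast hK
  have hdi := abs_lt.mp hd
  push_cast at hdi
  unfold Ec2 at he
  by_cases ht : d ≠ 1 ∧ 207000000 ≤ tl (1 - d) ∧ tl (1 - d) ≤ 707500000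
  · rw [if_pos ht, mem_singleton] at he
    obtain ⟨h1, h2, h3⟩ := ht
    have hD : 1 - d ∈ Dset := mem_Dset.mpr ⟨by omega, by omega, by omega⟩
    have h4 := (hnum (1 - d) hD h2 h3).2.mono (by norm_num) hKr
    have e1 : 1 - (1 - d) = d := by ring
    rw [e1] at h4
    rw [he]
    exact h4
  · rw [if_neg ht] at he
    simp at he

open Classical in
/-- `h > 0`, same branch -/
theorem same_sum_pos {ns : ℤ → ℕ} {K : ℕ} {d h : ℤ} (hh : 0 < h) :
    ∑ e ∈ Es2 d, (if comps2 K d e h then nsE ns d e else 0) ≤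
      if cls d h = true ∧ NearH K h (tt d) then ns d else 0 := by
  have h1 : ∀ e ∈ Es2 d, (if comps2 K d e h then nsE ns d e else 0) =
      if e = fl d then (if comps2 K d (fl d) h then nsE ns d (fl d) else 0) else 0 := by
    intro e _
    by_cases he : e = fl d
    · rw [if_pos he, he]
    · rw [if_neg he, if_neg]
      rintro (⟨h2, _⟩ | ⟨_, h3, _⟩)
      · exact he h2
      · omega
  rw [Finset.sum_congr rfl h1, Finset.sum_ite_eq']
  by_cases hmem : fl d ∈ Es2 d
  · rw [if_pos hmem]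
    have htl : tl d ≤ 500100000 := by
      unfold Es2 at hmem
      rw [mem_union] at hmem
      rcases hmem with hm | hm
      · by_contra hc
        rw [if_neg hc] at hm
        simp at hm
      · by_cases ht : tl (-d) ≤ 500100000
        · rw [if_pos ht, mem_singleton] at hm
          omega
        · rw [if_neg ht] at hm
          simp at hm
    by_cases hc : comps2 K d (fl d) h
    · rw [if_pos hc]
      rcases hc with ⟨_, _, q3, q4⟩ | ⟨q1, _⟩
      · rw [if_pos ⟨q3, q4⟩]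
        unfold nsE
        rw [if_pos rfl]
      · omega
    · rw [if_neg hc]
      exact Nat.zero_le _
  · rw [if_neg hmem]
    exact Nat.zero_le _

open Classical in
/-- `h < 0`, same branch -/
theorem same_sum_neg {ns : ℤ → ℕ} {K : ℕ} {d h : ℤ} (hh : h < 0) :
    ∑ e ∈ Es2 d, (if comps2 K d e h then nsE ns d e else 0) ≤
      if cls (-d) (-h) = true ∧ NearH K (-h) (tt (-d)) then ns (-d) else 0 := by
  have h1 : ∀ e ∈ Es2 d, (if comps2 K d e h then nsE ns d e else 0) =
      if e = fl d + 1 then (if comps2 K d (fl d + 1) h then nsE ns d (fl d + 1) else 0)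
        else 0 := by
    intro e _
    by_cases he : e = fl d + 1
    · rw [if_pos he, he]
    · rw [if_neg he, if_neg]
      rintro (⟨_, h3, _⟩ | ⟨h2, _⟩)
      · omega
      · exact he h2
  rw [Finset.sum_congr rfl h1, Finset.sum_ite_eq']
  by_cases hmem : fl d + 1 ∈ Es2 d
  · rw [if_pos hmem]
    have htl : tl (-d) ≤ 500100000 := by
      unfold Es2 at hmem
      rw [mem_union] at hmem
      rcases hmem with hm | hm
      · by_cases ht : tl d ≤ 500100000
        · rw [if_pos ht, mem_singleton] at hm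
          omega
        · rw [if_neg ht] at hm
          simp at hm
      · by_contra hc
        rw [if_neg hc] at hm
        simp at hm
    by_cases hc : comps2 K d (fl d + 1) h
    · rw [if_pos hc]
      rcases hc with ⟨q1, _⟩ | ⟨_, _, q3, q4⟩
      · omega
      · rw [if_pos ⟨q3, q4⟩]
        unfold nsE
        rw [if_neg (by omega)]
    · rw [if_neg hc]
      exact Nat.zero_le _
  · rw [if_neg hmem]
    exact Nat.zero_le _

open Classical in
/-- different branches -/
theorem cross_sum {nc : ℤ → ℕ} (hnc : CrossB nc) {K : ℕ} {d h : ℤ}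
    (hd : |d| < ((170 : ℕ) : ℤ)) :
    ∑ e ∈ Ec2 d, (if compc2 K d e (-h) then nc (1 - d) - 1 + 1 else 0) ≤
      if d ≠ 1 ∧ cls (1 - d) (h - 1) = true ∧ NearH K h (tt (1 - d)) then nc (1 - d)
        else 0 := by
  unfold Ec2
  by_cases ht : d ≠ 1 ∧ 207000000 ≤ tl (1 - d) ∧ tl (1 - d) ≤ 707500000
  · rw [if_pos ht, Finset.sum_singleton]
    by_cases hc : compc2 K d (-fl (1 - d)) (-h)
    · rw [if_pos hc]
      obtain ⟨_, q2, q3⟩ := hc
      rw [neg_neg] at q2 q3
      rw [if_pos ⟨ht.1, q2, q3⟩]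
      have hdi := abs_lt.mp hd
      push_cast at hdi
      have := (hnc (1 - d) (mem_Dset.mpr ⟨by omega, by omega, by omega⟩) ht.2.1 ht.2.2).1
      omega
    · rw [if_neg hc]
      exact Nat.zero_le _
  · rw [if_neg ht, Finset.sum_empty]
    exact Nat.zero_le _

open Classical in
/-- the total for `h > 0` -/
theorem total_le {wf : ℕ → ℕ} {ns nc : ℤ → ℕ} {S : ℕ} (hact : ActiveC wf ns nc S) {K : ℕ}
    (hK : 20000000 ≤ K) {h : ℤ}
    (hh : 0 < h) :
    (∑ d ∈ (Ioo (-((170 : ℕ) : ℤ)) ((170 : ℕ) : ℤ)).erase 0, wf d.natAbs *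
        (if cls d h = true ∧ NearH K h (tt d) then ns d else 0)) +
      ∑ d ∈ Ioo (-((170 : ℕ) : ℤ)) ((170 : ℕ) : ℤ), wf d.natAbs *
        (if d ≠ 1 ∧ cls (1 - d) (h - 1) = true ∧ NearH K h (tt (1 - d)) then nc (1 - d)
        else 0) ≤ S := by
  set T₁ := ((Ioo (-((170 : ℕ) : ℤ)) ((170 : ℕ) : ℤ)).erase 0).filter
    (fun d => cls d h = true ∧ NearH K h (tt d)) with hT₁
  set U := (Ioo (-((170 : ℕ) : ℤ)) ((170 : ℕ) : ℤ)).filter
    (fun d => d ≠ 1 ∧ cls (1 - d) (h - 1) = true ∧ NearH K h (tt (1 - d))) with hU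
  have e1 : (∑ d ∈ (Ioo (-((170 : ℕ) : ℤ)) ((170 : ℕ) : ℤ)).erase 0, wf d.natAbs *
        (if cls d h = true ∧ NearH K h (tt d) then ns d else 0)) = ∑ d ∈ T₁, wf d.natAbs * ns d := by
    rw [hT₁, Finset.sum_filter]
    apply Finset.sum_congr rfl
    intro d _
    rw [mul_ite, mul_zero]
  have e2 : ∑ d ∈ Ioo (-((170 : ℕ) : ℤ)) ((170 : ℕ) : ℤ), wf d.natAbs *
        (if d ≠ 1 ∧ cls (1 - d) (h - 1) = true ∧ NearH K h (tt (1 - d)) then nc (1 - d)
        else 0) = ∑ d ∈ U.image (fun d => 1 - d), wf (d - 1).natAbs * nc d := by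
    rw [Finset.sum_image (by intro x _ y _ hxy; simp only at hxy; omega), hU, Finset.sum_filter]
    apply Finset.sum_congr rfl
    intro d _
    rw [mul_ite, mul_zero]
    have : (1 - d - 1).natAbs = d.natAbs := by omega
    rw [this]
  rw [e1, e2]
  apply hact K hK h hh
  · intro d hd
    rw [hT₁, mem_filter, mem_erase, mem_Ioo] at hd
    rw [mem_Dset]
    obtain ⟨⟨q1, q2, q3⟩, _⟩ := hd
    push_cast at q2 q3
    omega
  · intro d hd
    rw [mem_image] at hd
    obtain ⟨d₀, hd₀, rfl⟩ := hd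
    rw [hU, mem_filter, mem_Ioo] at hd₀
    obtain ⟨⟨q1, q2⟩, q3, _⟩ := hd₀
    push_cast at q1 q2
    rw [mem_Dset]
    omega
  · intro d hd
    rw [hT₁, mem_filter] at hd
    exact hd.2
  · intro d hd
    rw [mem_image] at hd
    obtain ⟨d₀, hd₀, rfl⟩ := hd
    rw [hU, mem_filter] at hd₀
    exact hd₀.2.2

open Classical in
/-- the certificate hypothesis of `lag2` -/
theorem hM2 {wf : ℕ → ℕ} {ns nc : ℤ → ℕ} {S : ℕ} (hact : ActiveC wf ns nc S) (hnc : CrossB nc)
    {K : ℕ} (hK : 20000000 ≤ K) (h : ℤ) :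
    (∑ d ∈ (Ioo (-((170 : ℕ) : ℤ)) ((170 : ℕ) : ℤ)).erase 0, wf d.natAbs *
        ∑ e ∈ Es2 d, (if comps2 K d e h then nsE ns d e else 0)) +
      ∑ d ∈ Ioo (-((170 : ℕ) : ℤ)) ((170 : ℕ) : ℤ), wf d.natAbs *
        ∑ e ∈ Ec2 d, ((if compc2 K d e h then nc (1 - d) - 1 + 1 else 0) +
          (if compc2 K d e (-h) then nc (1 - d) - 1 + 1 else 0)) ≤ S := by
  rcases lt_trichotomy h 0 with hh | hh | hh
  · -- `h < 0`
    have hh' : 0 < -h := by omega
    refine le_trans ?_ (total_le hact hK hh')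
    apply Nat.add_le_add
    · -- reflection
      have h1 : ∑ d ∈ (Ioo (-((170 : ℕ) : ℤ)) ((170 : ℕ) : ℤ)).erase 0, wf d.natAbs *
          (if cls d (-h) = true ∧ NearH K (-h) (tt d) then ns d else 0) =
          ∑ d ∈ (Ioo (-((170 : ℕ) : ℤ)) ((170 : ℕ) : ℤ)).erase 0, wf d.natAbs *
          (if cls (-d) (-h) = true ∧ NearH K (-h) (tt (-d)) then ns (-d) else 0) := by
        refine Finset.sum_bij' (fun d _ => -d) (fun d _ => -d) ?_ ?_ ?_ ?_ ?_
        · intro d hd
          rw [mem_erase, mem_Ioo] at hd ⊢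
          omega
        · intro d hd
          rw [mem_erase, mem_Ioo] at hd ⊢
          omega
        · intro d _; simp
        · intro d _; simp
        · intro d _
          rw [Int.natAbs_neg, neg_neg]
      rw [h1]
      apply Finset.sum_le_sum
      intro d _
      exact Nat.mul_le_mul_left _ (same_sum_neg hh)
    · apply Finset.sum_le_sum
      intro d hd
      apply Nat.mul_le_mul_left
      refine le_trans (le_of_eq ?_) (cross_sum hnc (K := K) (d := d) (h := -h)
        (abs_lt.mpr (mem_Ioo.mp hd)))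
      apply Finset.sum_congr rfl
      intro e _
      rw [neg_neg]
      have h2 : ¬ compc2 K d e (-h) := by
        rintro ⟨q1, _⟩
        omega
      rw [if_neg h2, add_zero]
  · -- `h = 0`
    subst hh
    have h1 : ∀ d e, ¬ comps2 K d e 0 := by
      rintro d e (⟨_, q, _⟩ | ⟨_, q, _⟩) <;> omega
    have h2 : ∀ d e, ¬ compc2 K d e 0 := by
      rintro d e ⟨q, _⟩
      omega
    have h3 : ∀ d e, ¬ compc2 K d e (-0) := by
      rintro d e ⟨q, _⟩
      omega
    simp [h1, h2]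
  · -- `h > 0`
    refine le_trans ?_ (total_le hact hK hh)
    apply Nat.add_le_add
    · apply Finset.sum_le_sum
      intro d _
      exact Nat.mul_le_mul_left _ (same_sum_pos hh)
    · apply Finset.sum_le_sum
      intro d hd
      apply Nat.mul_le_mul_left
      refine le_trans (le_of_eq ?_) (cross_sum hnc (K := K) (d := d) (h := h)
        (abs_lt.mpr (mem_Ioo.mp hd)))
      apply Finset.sum_congr rfl
      intro e _
      have h2 : ¬ compc2 K d e h := by
        rintro ⟨q1, _⟩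
        omega
      rw [if_neg h2, zero_add]

/-- **Lag two with weighted shifts** from the finite certificates. -/
theorem wBound2_of {wf : ℕ → ℕ} {ns nc : ℤ → ℕ} {S : ℕ} (hact : ActiveC wf ns nc S)
    (hs : SameB ns) (hc : CrossB nc) (wt : ℕ → ℕ) (hwt : ∀ δ, δ < 170 → wR wt 170 δ = wf δ)
    (K H : ℕ) (A B : Finset ℕ) (hK : 20000000 ≤ K) (hH : 3 * H ≤ 2 * K) :
    ((wSum wt 170 : ℝ) * (pairs2 A B K H).card) ^ 2 ≤
      (((170 : ℕ) : ℝ) * B.card +
          ∑ k ∈ Ico K (K + H), ((B.filter (fun c => c ≤ 4 * k)).card : ℝ)) *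
        ((wR wt 170 0 : ℝ) * (pairs2 A B K H).card + S * (A.card : ℝ) ^ 2) := by
  classical
  refine lag2_wc wt A B (D := 170) (M := S) Es2 (nsE ns) (comps2 K) Ec2
    (fun d _ => nc (1 - d) - 1) (compc2 K)
    (fun d hd0 hd k m m' a a' b h1 h2 _ _ s s' => range_EE hK hH hd0 hd h1 h2 s s')
    (fun d hd0 hd k m m' a a' b h1 h2 _ _ s s' => range_OO hK hH hd0 hd h1 h2 s s')
    (fun d hd k m m' a a' b h1 h2 _ _ s s' => range_EO hK hH hd h1 h2 s s')
    (fun d hd0 hd => hJs2 hs hK hd0 hd) (fun d hd => hJc2 hc hK hd) (fun h => ?_)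
  refine le_trans (Nat.add_le_add (le_of_eq (Finset.sum_congr rfl fun d hd => ?_))
    (le_of_eq (Finset.sum_congr rfl fun d hd => ?_))) (hM2 hact hc hK h)
  · rw [mem_erase, mem_Ioo] at hd
    rw [hwt d.natAbs (by omega)]
  · rw [mem_Ioo] at hd
    rw [hwt d.natAbs (by omega)]

end Pool.Agent.AddSq.X2
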