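import Pool.Agent.AddSq.FlFacts

/-!
# Elementary facts on `fl`, `tt`, `tl` for `|d| ≤ 170`
-/

namespace Pool.Agent.AddSq.X3

open Finset

/-- the range of `d` (`d ≠ 0`, `|d| ≤ 170`) -/
noncomputable def Dset : Finset ℤ := (Finset.Icc (-170 : ℤ) 170).erase 0

theorem mem_Dset {d : ℤ} : d ∈ Dset ↔ d ≠ 0 ∧ -170 ≤ d ∧ d ≤ 170 := by
  unfold Dset
  rw [mem_erase, mem_Icc]

theorem neg_mem_Dset {d : ℤ} (h : d ∈ Dset) : -d ∈ Dset := by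
  rw [mem_Dset] at *
  omega

/-- all finite checks on `fl`, `tl` for `|d| ≤ 170` -/
theorem tl_check : ∀ i ∈ Finset.range 341, (i : ℤ) - 170 ≠ 0 →
    2092041 ≤ tl ((i : ℤ) - 170) ∧ fl ((i : ℤ) - 170) ≠ 0 := by
  decide +kernel

theorem Dset_check {d : ℤ} (hd : d ∈ Dset) : 2092041 ≤ tl d ∧ fl d ≠ 0 := by
  rw [mem_Dset] at hd
  have h := tl_check (d + 170).toNat (Finset.mem_range.mpr (by omega))
  have e : (((d + 170).toNat : ℕ) : ℤ) - 170 = d := by omega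
  rw [e] at h
  exact h hd.1

theorem tt_lower {d : ℤ} (hd : d ∈ Dset) : (0.00209 : ℝ) < tt d := by
  have h1 := (tl_bounds d).1
  have h2 : (2092041 : ℝ) ≤ tl d := by exact_mod_cast (Dset_check hd).1
  linarith

theorem tt_upper {d : ℤ} (hd : d ∈ Dset) : tt d < (0.99791 : ℝ) := by
  have h := tt_lower (neg_mem_Dset hd)
  rw [tt_neg' (mem_Dset.mp hd).1] at h
  linarith

/-- `h ≈ 2 √2 s κ` for a real `κ ∈ [K, 4 K / 3]` -/
def NearH (K : ℕ) (h : ℤ) (s : ℝ) : Prop :=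
  ∃ κ : ℝ, (K : ℝ) ≤ κ ∧ κ ≤ 4 / 3 * K ∧ |(h : ℝ) - 2 * Real.sqrt 2 * s * κ| ≤ 2000

end Pool.Agent.AddSq.X3
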