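import Pool.Agent.AddSq.Lag2Range
import Pool.Agent.AddSq.X3Facts

/-!
# Lag two, `D = 170`: range lemmas, i.e. the membership hypotheses of `lag2_wc`
-/

namespace Pool.Agent.AddSq.X3

open Finset

/-- same branch: the possible `e` -/
def Es2 (d : ℤ) : Finset ℤ :=
  (if tl d ≤ 500100000 then {fl d} else ∅) ∪ (if tl (-d) ≤ 500100000 then {fl d + 1} else ∅)

def comps2 (K : ℕ) (d e h : ℤ) : Prop :=
  (e = fl d ∧ 0 < h ∧ cls d h = true ∧ NearH K h (tt d)) ∨
    (e = fl d + 1 ∧ h < 0 ∧ cls (-d) (-h) = true ∧ NearH K (-h) (tt (-d)))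

/-- from the even to the odd branch: the possible `e` -/
def Ec2 (d : ℤ) : Finset ℤ :=
  if d ≠ 1 ∧ 207000000 ≤ tl (1 - d) ∧ tl (1 - d) ≤ 707500000 then {-fl (1 - d)} else ∅

def Jc2 (d _e : ℤ) : ℕ := mult2c (1 - d) - 1

def compc2 (K : ℕ) (d _e h : ℤ) : Prop :=
  h < 0 ∧ cls (1 - d) (-h - 1) = true ∧ NearH K (-h) (tt (1 - d))

/-- pairs on the same branch, real estimate -/
theorem core_same {w k d e y y' h i q : ℝ} (hw : w * w = 2) (hw1 : 1.41421356 < w)
    (hw2 : w < 1.41421357) (hk : 8000000 ≤ k) (hd : |d| ≤ 169) (hy : |y| < 1) (hy' : |y'| < 1)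
    (hi : 0 ≤ i) (hi1 : i ≤ 1) (hs : w * d - e = y - y')
    (hq : q = (w * d - e) * (w * d + e))
    (hh : h = 2 * w * (w * d - e) * k - 2 * e * y - 4 * d * i + q)
    (hr : |h + 2 * d * i| ≤ w * k + 245) :
    |w * d - e| < 0.5001 ∧ |h - 2 * w * (w * d - e) * k| ≤ 2000 := by
  set s := w * d - e with hsdef
  have hw0 : 0 < w := by linarith
  have hwd : |w * d| ≤ 239.1 := by
    rw [abs_mul, abs_of_pos hw0]
    have : w * |d| ≤ 1.41421357 * 169 := mul_le_mul hw2.le hd (abs_nonneg _) (by norm_num)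
    linarith
  have hs2 : |s| < 2 := by
    rw [hs]
    have := abs_sub y y'
    linarith
  have he : |e| ≤ 241.2 := by
    have h1 : e = w * d - s := by rw [hsdef]; ring
    rw [h1]
    have := abs_sub (w * d) s
    linarith
  have hq1 : |q| ≤ |s| * 481 := by
    rw [hq, abs_mul]
    apply mul_le_mul_of_nonneg_left _ (abs_nonneg _)
    have := abs_add_le (w * d) e
    linarith
  have hey : |2 * e * y| ≤ 482.4 := by
    rw [abs_mul, abs_mul]
    have h1 : |e| * |y| ≤ 241.2 * 1 := mul_le_mul he hy.le (abs_nonneg _) (by norm_num)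
    norm_num
    norm_num at h1
    linarith
  have hdi : |d * i| ≤ 169 := by
    rw [abs_mul, abs_of_nonneg hi]
    have : |d| * i ≤ 169 * 1 := mul_le_mul hd hi1 hi (by norm_num)
    linarith
  have habs : |2 * w * s * k| = 2 * w * |s| * k := by
    rw [abs_mul, abs_mul, abs_mul, abs_of_pos hw0, abs_of_pos (by norm_num : (0 : ℝ) < 2),
      abs_of_nonneg (by linarith : (0 : ℝ) ≤ k)]
  have hmain : 2 * w * |s| * k ≤ w * k + 245 + 338 + 482.4 + |s| * 481 := by
    rw [← habs]
    have e1 : 2 * w * s * k = (h + 2 * d * i) + 2 * (d * i) + 2 * e * y - q := by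
      rw [hh]; ring
    rw [e1]
    have a1 := abs_sub ((h + 2 * d * i) + 2 * (d * i) + 2 * e * y) q
    have a2 := abs_add_le ((h + 2 * d * i) + 2 * (d * i)) (2 * e * y)
    have a3 := abs_add_le (h + 2 * d * i) (2 * (d * i))
    have a4 : |2 * (d * i)| = 2 * |d * i| := by rw [abs_mul]; norm_num
    linarith
  have hlt : |s| < 0.5001 := by
    by_contra hc
    push Not at hc
    have h1 : 0.5001 * (2 * w * k - 481) ≤ |s| * (2 * w * k - 481) := by
      apply mul_le_mul_of_nonneg_right hc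
      nlinarith
    nlinarith
  refine ⟨hlt, ?_⟩
  have e1 : h - 2 * w * s * k = -(2 * e * y) - 4 * (d * i) + q := by rw [hh]; ring
  rw [e1]
  have a1 := abs_add_le (-(2 * e * y) - 4 * (d * i)) q
  have a2 := abs_sub (-(2 * e * y)) (4 * (d * i))
  rw [abs_neg] at a2
  have a4 : |4 * (d * i)| = 4 * |d * i| := by rw [abs_mul]; norm_num
  linarith

/-- pairs on different branches, real estimate -/
theorem core_cross {w k δ e y y' h q : ℝ} (hw : w * w = 2) (hw1 : 1.41421356 < w)
    (hw2 : w < 1.41421357) (hk : 8000000 ≤ k) (hδ : |δ| ≤ 170) (hy : |y| < 1) (hy' : |y'| < 1)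
    (hs : w * δ - e = y - y' - w)
    (hq : q = (w * δ - e) * (w * δ + e))
    (hh : h + 1 = 2 * w * (w * δ - e) * k - 2 * e * y + q)
    (hr1 : h ≤ -(2 - w) * k + 102) (hr2 : -(2 * k) ≤ h) :
    w * δ - e ≤ -0.20701 ∧ -0.7073 < w * δ - e ∧ |h - 2 * w * (w * δ - e) * k| ≤ 2000 := by
  set s := w * δ - e with hsdef
  have hw0 : 0 < w := by linarith
  have hwd : |w * δ| ≤ 240.5 := by
    rw [abs_mul, abs_of_pos hw0]
    have : w * |δ| ≤ 1.41421357 * 170 := mul_le_mul hw2.le hδ (abs_nonneg _) (by norm_num)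
    linarith
  have he : |e| ≤ 244 := by
    have h1 : e = w * δ + w - (y - y') := by linarith
    rw [h1]
    have a1 := abs_sub (w * δ + w) (y - y')
    have a2 := abs_add_le (w * δ) w
    have a3 := abs_sub y y'
    rw [abs_of_pos hw0] at a2
    linarith
  have hq1 : |q| ≤ |s| * 485 := by
    rw [hq, abs_mul]
    apply mul_le_mul_of_nonneg_left _ (abs_nonneg _)
    have := abs_add_le (w * δ) e
    linarith
  have hey : |2 * e * y| ≤ 488 := by
    rw [abs_mul, abs_mul]
    have h1 : |e| * |y| ≤ 244 * 1 := mul_le_mul he hy.le (abs_nonneg _) (by norm_num)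
    norm_num
    norm_num at h1
    linarith
  have habs : |2 * w * s * k| = 2 * w * |s| * k := by
    rw [abs_mul, abs_mul, abs_mul, abs_of_pos hw0, abs_of_pos (by norm_num : (0 : ℝ) < 2),
      abs_of_nonneg (by linarith : (0 : ℝ) ≤ k)]
  have hh1 : |h| ≤ 2 * k := by
    rw [abs_le]
    constructor
    · exact hr2
    · nlinarith
  have hmain : 2 * w * |s| * k ≤ 2 * k + 1 + 488 + |s| * 485 := by
    rw [← habs]
    have e1 : 2 * w * s * k = (h + 1) + 2 * e * y - q := by
      rw [hh]; ring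
    rw [e1]
    have a1 := abs_sub ((h + 1) + 2 * e * y) q
    have a2 := abs_add_le (h + 1) (2 * e * y)
    have a3 := abs_add_le h 1
    rw [abs_one] at a3
    linarith
  have hlt : |s| < 0.7073 := by
    by_contra hc
    push Not at hc
    have h1 : 0.7073 * (2 * w * k - 485) ≤ |s| * (2 * w * k - 485) := by
      apply mul_le_mul_of_nonneg_right hc
      nlinarith
    nlinarith
  have hey1 := abs_le.mp hey
  have hq2 : |q| ≤ 343.1 := by
    have : |s| * 485 ≤ 0.7073 * 485 := by linarith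
    linarith
  have hq3 := abs_le.mp hq2
  refine ⟨?_, (abs_lt.mp hlt).1, ?_⟩
  · by_contra hc
    push Not at hc
    have h1 : 2 * w * s * k = (h + 1) + 2 * e * y - q := by rw [hh]; ring
    have h2 : 2 * w * (-0.20701) * k ≤ 2 * w * s * k := by
      have : w * k * (-0.20701) ≤ w * k * s := mul_le_mul_of_nonneg_left hc.le (by positivity)
      linarith
    nlinarith
  · have e1 : h - 2 * w * s * k = -(2 * e * y) + q - 1 := by linarith
    rw [e1]
    rw [abs_le]
    constructor <;> linarith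

theorem fl_of {d e : ℤ} (hd : d ∈ Dset) (h0 : 0 ≤ Real.sqrt 2 * d - e)
    (h1 : Real.sqrt 2 * d - e < 1) : e = fl d := by
  have a1 := tt_lower hd
  have a2 := tt_upper hd
  unfold tt at a1 a2
  have b1 : (e : ℝ) < fl d + 1 := by linarith
  have b2 : (fl d : ℝ) < e + 1 := by linarith
  have c1 : e < fl d + 1 := by exact_mod_cast b1
  have c2 : fl d < e + 1 := by exact_mod_cast b2
  omega

/-- the conclusion for pairs on the same branch -/
theorem same_concl {K H : ℕ} (hK : 8000000 ≤ K) (hH : 3 * H ≤ K) {d e h k x m : ℤ}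
    (hd : d ∈ Dset) (hk : K ≤ k) (hk' : k < K + H)
    (hline : h = 2 * (2 * d * x - e * m) + 2 * d ^ 2 - e ^ 2)
    (hs : |Real.sqrt 2 * d - e| < 0.5001)
    (hn : |(h : ℝ) - 2 * Real.sqrt 2 * (Real.sqrt 2 * d - e) * k| ≤ 2000) :
    e ∈ Es2 d ∧ comps2 K d e h := by
  have hd' := neg_mem_Dset hd
  have hkr : (K : ℝ) ≤ k := by exact_mod_cast hk
  have hkr' : (k : ℝ) ≤ 4 / 3 * K := by
    have h1 : (k : ℝ) < (K : ℝ) + H := by exact_mod_cast hk'
    have h2 : 3 * (H : ℝ) ≤ K := by exact_mod_cast hH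
    linarith
  have hKr : (8000000 : ℝ) ≤ K := by exact_mod_cast hK
  have w1 := sqrt_two_lower
  have hd0 := (mem_Dset.mp hd).1
  rcases le_or_gt 0 (Real.sqrt 2 * d - e) with h0 | h0
  · have he : e = fl d := fl_of hd h0 (by rw [abs_of_nonneg h0] at hs; linarith)
    have ht : tt d = Real.sqrt 2 * d - e := by unfold tt; rw [he]
    have htl := (tl_bounds d).1
    have hlow := tt_lower hd
    rw [abs_of_nonneg h0, ← ht] at hs
    rw [← ht] at hn
    refine ⟨?_, Or.inl ⟨he, ?_, ?_, ?_⟩⟩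
    · unfold Es2
      rw [mem_union]
      left
      rw [if_pos]
      · rw [mem_singleton]; exact he
      · have : (tl d : ℝ) ≤ 500100000 := by linarith
        exact_mod_cast this
    · have h1 := (abs_le.mp hn).1
      have h2 : 1.41421356 * (0.00209 * 8000000) ≤ Real.sqrt 2 * (tt d * k) := by
        apply mul_le_mul w1.le _ (by norm_num) (by linarith)
        apply mul_le_mul hlow.le (by linarith) (by norm_num) (by linarith)
      have h3 : (0 : ℝ) < h := by nlinarith
      exact_mod_cast h3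
    · apply cls_of (x := x) (y := m)
      rw [← he]
      exact hline
    · exact ⟨k, hkr, hkr', hn⟩
  · have he' : -e = fl (-d) := by
      apply fl_of hd'
      · push_cast
        linarith
      · rw [abs_of_neg h0] at hs
        push_cast
        linarith
    have he : e = fl d + 1 := by
      have := fl_neg' hd0
      omega
    have ht : tt (-d) = -(Real.sqrt 2 * d - e) := by
      unfold tt
      rw [← he']
      push_cast
      ring
    have htl := (tl_bounds (-d)).1
    have hlow := tt_lower hd'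
    rw [abs_of_neg h0, ← ht] at hs
    have hn' : |(((-h : ℤ) : ℝ)) - 2 * Real.sqrt 2 * tt (-d) * k| ≤ 2000 := by
      have : (((-h : ℤ) : ℝ)) - 2 * Real.sqrt 2 * tt (-d) * k =
          -((h : ℝ) - 2 * Real.sqrt 2 * (Real.sqrt 2 * d - e) * k) := by
        rw [ht]; push_cast; ring
      rw [this, abs_neg]
      exact hn
    refine ⟨?_, Or.inr ⟨he, ?_, ?_, ?_⟩⟩
    · unfold Es2
      rw [mem_union]
      right
      rw [if_pos]
      · rw [mem_singleton]; exact he
      · have : (tl (-d) : ℝ) ≤ 500100000 := by linarith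
        exact_mod_cast this
    · have h1 := (abs_le.mp hn').1
      have h2 : 1.41421356 * (0.00209 * 8000000) ≤ Real.sqrt 2 * (tt (-d) * k) := by
        apply mul_le_mul w1.le _ (by norm_num) (by linarith)
        apply mul_le_mul hlow.le (by linarith) (by norm_num) (by linarith)
      push_cast at h1
      have h3 : (h : ℝ) < 0 := by nlinarith
      exact_mod_cast h3
    · rw [cls_neg]
      apply cls_of (x := -x) (y := -m)
      rw [← he', hline]
      ring
    · exact ⟨k, hkr, hkr', hn'⟩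

/-- membership, both even -/
theorem range_EE {K H : ℕ} (hK : 8000000 ≤ K) (hH : 3 * H ≤ K) {d : ℤ} (hd0 : d ≠ 0)
    (hd : |d| < ((170 : ℕ) : ℤ)) {k m m' a a' b : ℤ} (h1 : K ≤ k) (h2 : k < K + H)
    (s : SolE k m a b) (s' : SolE (k + d) m' a' b) :
    m' - m ∈ Es2 d ∧ comps2 K d (m' - m) (a' - a) := by
  have hdD : d ∈ Dset := mem_Dset.mpr ⟨hd0, by rw [abs_lt] at hd; push_cast at hd; omega,
    by rw [abs_lt] at hd; push_cast at hd; omega⟩
  have hline := s.line s' rfl
  have hdr : |(d : ℝ)| ≤ ((169 : ℕ) : ℝ) := abs_cast_le (by push_cast; push_cast at hd; omega)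
  have hdr' : |(d : ℝ)| ≤ 169 := by exact_mod_cast hdr
  have hd2 := abs_le.mp hdr'
  have hkr : (K : ℝ) ≤ k := by exact_mod_cast h1
  have hKr : (8000000 : ℝ) ≤ K := by exact_mod_cast hK
  have w1 := sqrt_two_lower
  have w2 := sqrt_two_upper
  have ww := sqrt_two_mul_self
  have y1 := s.sol.strip
  have y2 := s'.sol.strip
  have y1' := abs_lt.mp y1
  have y2' := abs_lt.mp y2
  push_cast at y2 y2'
  have hwd : Real.sqrt 2 * d ≤ 240 := by nlinarith
  have key := core_same (w := Real.sqrt 2) (k := (k : ℝ)) (d := (d : ℝ))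
    (e := (((m' - m : ℤ)) : ℝ)) (y := (m : ℝ) - Real.sqrt 2 * k)
    (y' := (m' : ℝ) - Real.sqrt 2 * (k + d)) (h := ((a' - a : ℤ) : ℝ)) (i := 0)
    (q := (Real.sqrt 2 * d - (m' - m : ℤ)) * (Real.sqrt 2 * d + (m' - m : ℤ)))
    ww w1 w2 (by linarith) hdr' y1 y2 le_rfl (by norm_num) (by push_cast; ring) rfl
    (by
      have e1 : ((a' - a : ℤ) : ℝ) =
          ((2 * (2 * d * k - (m' - m) * m) + 2 * d ^ 2 - (m' - m) ^ 2 : ℤ) : ℝ) := by rw [hline]
      rw [e1]
      push_cast
      linear_combination (-(2 * (d : ℝ) * k) - (d : ℝ) ^ 2) * ww)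
    (by
      have b1 : (0 : ℝ) ≤ 2 * a - b := by exact_mod_cast s.sol.b_nonneg
      have b2 : (2 : ℝ) * a - b ≤ 2 * m := by exact_mod_cast s.sol.b_le
      have b3 : (0 : ℝ) ≤ 2 * a' - b := by exact_mod_cast s'.sol.b_nonneg
      have b4 : (2 : ℝ) * a' - b ≤ 2 * m' := by exact_mod_cast s'.sol.b_le
      push_cast
      rw [abs_le]
      constructor <;> linarith)
  exact same_concl hK hH hdD h1 h2 hline key.1 key.2

/-- membership, both odd -/
theorem range_OO {K H : ℕ} (hK : 8000000 ≤ K) (hH : 3 * H ≤ K) {d : ℤ} (hd0 : d ≠ 0)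
    (hd : |d| < ((170 : ℕ) : ℤ)) {k m m' a a' b : ℤ} (h1 : K ≤ k) (h2 : k < K + H)
    (s : SolO k m a b) (s' : SolO (k + d) m' a' b) :
    m' - m ∈ Es2 d ∧ comps2 K d (m' - m) (a' - a) := by
  have hdD : d ∈ Dset := mem_Dset.mpr ⟨hd0, by rw [abs_lt] at hd; push_cast at hd; omega,
    by rw [abs_lt] at hd; push_cast at hd; omega⟩
  have hline := s.line s' rfl
  have hdr : |(d : ℝ)| ≤ ((169 : ℕ) : ℝ) := abs_cast_le (by push_cast; push_cast at hd; omega)
  have hdr' : |(d : ℝ)| ≤ 169 := by exact_mod_cast hdr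
  have hd2 := abs_le.mp hdr'
  have hkr : (K : ℝ) ≤ k := by exact_mod_cast h1
  have hKr : (8000000 : ℝ) ≤ K := by exact_mod_cast hK
  have w1 := sqrt_two_lower
  have w2 := sqrt_two_upper
  have ww := sqrt_two_mul_self
  have y1 := s.sol.strip
  have y2 := s'.sol.strip
  have y1' := abs_lt.mp y1
  have y2' := abs_lt.mp y2
  push_cast at y2 y2'
  have hwd : Real.sqrt 2 * d ≤ 240 := by nlinarith
  have key := core_same (w := Real.sqrt 2) (k := (k : ℝ)) (d := (d : ℝ))
    (e := (((m' - m : ℤ)) : ℝ)) (y := (m : ℝ) - Real.sqrt 2 * k)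
    (y' := (m' : ℝ) - Real.sqrt 2 * (k + d)) (h := ((a' - a : ℤ) : ℝ)) (i := 1)
    (q := (Real.sqrt 2 * d - (m' - m : ℤ)) * (Real.sqrt 2 * d + (m' - m : ℤ)))
    ww w1 w2 (by linarith) hdr' y1 y2 (by norm_num) le_rfl (by push_cast; ring) rfl
    (by
      have e1 : ((a' - a : ℤ) : ℝ) =
          ((2 * (2 * d * (k - 1) - (m' - m) * m) + 2 * d ^ 2 - (m' - m) ^ 2 : ℤ) : ℝ) := by
        rw [hline]
      rw [e1]
      push_cast
      linear_combination (-(2 * (d : ℝ) * k) - (d : ℝ) ^ 2) * ww)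
    (by
      have b1 : (0 : ℝ) ≤ 4 * k - 1 + 2 * a - b := by exact_mod_cast s.sol.b_nonneg
      have b2 : 4 * (k : ℝ) - 1 + 2 * a - b ≤ 2 * m := by exact_mod_cast s.sol.b_le
      have b3 : (0 : ℝ) ≤ 4 * (k + d) - 1 + 2 * a' - b := by exact_mod_cast s'.sol.b_nonneg
      have b4 : 4 * ((k : ℝ) + d) - 1 + 2 * a' - b ≤ 2 * m' := by exact_mod_cast s'.sol.b_le
      push_cast
      rw [abs_le]
      constructor <;> linarith)
  exact same_concl hK hH hdD h1 h2 hline key.1 key.2

/-- membership, even to odd -/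
theorem range_EO {K H : ℕ} (hK : 8000000 ≤ K) (hH : 3 * H ≤ K) {d : ℤ}
    (hd : |d| < ((170 : ℕ) : ℤ)) {k m m' a a' b : ℤ} (h1 : K ≤ k) (h2 : k < K + H)
    (s : SolE k m a b) (s' : SolO (k + d) m' a' b) :
    m' - m ∈ Ec2 d ∧ compc2 K d (m' - m) (a' - a) := by
  have hline := s.line_cross s' rfl
  have hdr : |(d : ℝ)| ≤ ((169 : ℕ) : ℝ) := abs_cast_le (by push_cast; push_cast at hd; omega)
  have hdr' : |(d : ℝ)| ≤ 169 := by exact_mod_cast hdr
  have hd2 := abs_le.mp hdr'
  have hdi := abs_lt.mp hd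
  push_cast at hdi
  have hkr : (K : ℝ) ≤ k := by exact_mod_cast h1
  have hkr' : (k : ℝ) ≤ 4 / 3 * K := by
    have h1 : (k : ℝ) < (K : ℝ) + H := by exact_mod_cast h2
    have h2 : 3 * (H : ℝ) ≤ K := by exact_mod_cast hH
    linarith
  have hKr : (8000000 : ℝ) ≤ K := by exact_mod_cast hK
  have w1 := sqrt_two_lower
  have w2 := sqrt_two_upper
  have ww := sqrt_two_mul_self
  have y1 := s.sol.strip
  have y2 := s'.sol.strip
  have y1' := abs_lt.mp y1
  have y2' := abs_lt.mp y2
  push_cast at y2 y2'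
  have key := core_cross (w := Real.sqrt 2) (k := (k : ℝ)) (δ := (d : ℝ) - 1)
    (e := (((m' - m : ℤ)) : ℝ)) (y := (m : ℝ) - Real.sqrt 2 * k)
    (y' := (m' : ℝ) - Real.sqrt 2 * (k + d)) (h := ((a' - a : ℤ) : ℝ))
    (q := (Real.sqrt 2 * ((d : ℝ) - 1) - (m' - m : ℤ)) *
      (Real.sqrt 2 * ((d : ℝ) - 1) + (m' - m : ℤ)))
    ww w1 w2 (by linarith) (by rw [abs_le]; constructor <;> linarith) y1 y2
    (by push_cast; ring) rfl
    (by
      have e1 : ((a' - a + 1 : ℤ) : ℝ) =
          ((2 * (2 * (d - 1) * k - (m' - m) * m) + 2 * (d - 1) ^ 2 - (m' - m) ^ 2 : ℤ) : ℝ) := by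
        rw [hline]
      push_cast at e1 ⊢
      rw [e1]
      linear_combination (-(2 * ((d : ℝ) - 1) * k) - ((d : ℝ) - 1) ^ 2) * ww)
    (by
      have b1 : (0 : ℝ) ≤ 2 * a - b := by exact_mod_cast s.sol.b_nonneg
      have b4 : 4 * ((k : ℝ) + d) - 1 + 2 * a' - b ≤ 2 * m' := by exact_mod_cast s'.sol.b_le
      push_cast
      have b5 : -(2 - Real.sqrt 2) * d ≤ 99 := by nlinarith
      linarith)
    (by
      have b1 : (a : ℝ) ≤ 2 * k := by exact_mod_cast s.sol.a_le
      have b2 : (0 : ℝ) ≤ a' := by exact_mod_cast s'.sol.a_nonneg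
      push_cast
      linarith)
  obtain ⟨k1, k2, k3⟩ := key
  set e : ℤ := m' - m with he
  -- `d ≠ 1`
  have hd1 : d ≠ 1 := by
    rintro rfl
    have c1 : (0.2 : ℝ) < e := by push_cast at k1 k2 ⊢; linarith
    have c2 : (e : ℝ) < 0.8 := by push_cast at k1 k2 ⊢; linarith
    have c3 : (0 : ℤ) < e := by
      have : (0 : ℝ) < e := by linarith
      exact_mod_cast this
    have c4 : e < 1 := by
      have : (e : ℝ) < 1 := by linarith
      exact_mod_cast this
    omega
  have hD : 1 - d ∈ Dset := mem_Dset.mpr ⟨by omega, by omega, by omega⟩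
  have hfl : -e = fl (1 - d) := by
    apply fl_of hD
    · push_cast
      linarith
    · push_cast
      linarith
  have ht : tt (1 - d) = -(Real.sqrt 2 * (d - 1) - e) := by
    unfold tt
    rw [← hfl]
    push_cast
    ring
  have htl := tl_bounds (1 - d)
  refine ⟨?_, ?_, ?_, ?_⟩
  · unfold Ec2
    rw [if_pos]
    · rw [mem_singleton]
      omega
    · refine ⟨hd1, ?_, ?_⟩
      · have : (207000000 : ℝ) ≤ tl (1 - d) := by linarith [htl.2]
        exact_mod_cast this
      · have : (tl (1 - d) : ℝ) ≤ 707500000 := by linarith [htl.1]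
        exact_mod_cast this
  · have h3 := (abs_le.mp k3).2
    have h4 : Real.sqrt 2 * k * (Real.sqrt 2 * (d - 1) - e) ≤
        Real.sqrt 2 * k * (-0.20701) :=
      mul_le_mul_of_nonneg_left k1 (by have : (0 : ℝ) ≤ k := by linarith
                                       positivity)
    have h5 : (5000000 : ℝ) ≤ Real.sqrt 2 * k := by nlinarith
    have h6 : ((a' - a : ℤ) : ℝ) < 0 := by nlinarith
    exact_mod_cast h6
  · have e1 : -(a' - a) - 1 = -(a' - a + 1) := by ring
    rw [e1, cls_neg]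
    apply cls_of (x := -k) (y := -m)
    rw [← hfl, hline]
    ring
  · refine ⟨k, hkr, hkr', ?_⟩
    have e1 : ((-(a' - a) : ℤ) : ℝ) - 2 * Real.sqrt 2 * tt (1 - d) * k =
        -(((a' - a : ℤ) : ℝ) - 2 * Real.sqrt 2 * (Real.sqrt 2 * (d - 1) - e) * k) := by
      rw [ht]
      push_cast
      ring
    rw [e1, abs_neg]
    exact k3

end Pool.Agent.AddSq.X3
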