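import Pool.Agent.AddSq.Lag2Num
import Pool.Agent.AddSq.X3Data
import Pool.Agent.AddSq.X3Inst
import Pool.Agent.AddSq.Lag2Ref

/-!
# Lag two: the numerical inequalities `NumSame` and `NumCross` (`D = 170`, `K₀ = 8 000 000`)
-/

namespace Pool.Agent.AddSq.X3

open Finset

/-- error term of the step along the line, times `10 ^ 17` -/
def numE (d : ℤ) : ℕ :=
  2 * 141421357 * 10 ^ 9 * ((fl d).natAbs + d.natAbs) + 2 * d.natAbs * 10 ^ 17

/-- additive error of the length, same types -/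
def numC (d : ℤ) : ℕ :=
  2 + 8 * (fl d).natAbs + 12 * d.natAbs + 2 * (2 * d ^ 2 - fl d ^ 2).natAbs

/-- additive error of the length, different types -/
def numC' (d : ℤ) : ℕ :=
  5 + 6 * (fl d).natAbs + 4 * (1 - d).natAbs + 2 * (2 * d ^ 2 - fl d ^ 2).natAbs

/-- the integer check, same types -/
def sameChk (d : ℤ) : Prop :=
  2 ≤ nsf d ∧
  numE d < 16 * 10 ^ 14 * tl d ∧
  gg d * (2 * 141421357 * (10 ^ 9 - 2 * tl d) * 8000000 + numC d * 10 ^ 17) +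
    (nsf d - 2 + 1) * 2 * numE d < (nsf d - 2 + 1) * 2 * (16 * 10 ^ 14 * tl d)

instance (d : ℤ) : Decidable (sameChk d) := by unfold sameChk; infer_instance

/-- the integer check, different types -/
def crossChk (d : ℤ) : Prop :=
  1 ≤ ncf d ∧
  2 * d.natAbs * 10 ^ 17 < 16 * 10 ^ 14 * tl d ∧
  gg d * (4 * 141421357 * (tl d + 1) * 8000000 + 2 * 141421357 * 10 ^ 9 * 8000000 +
    numC' d * 10 ^ 17) + (ncf d - 1 + 1) * 2 * (2 * d.natAbs * 10 ^ 17) <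
    (ncf d - 1 + 1) * 2 * (16 * 10 ^ 14 * tl d) + gg d * (4 * 10 ^ 17 * 8000000)

instance (d : ℤ) : Decidable (crossChk d) := by unfold crossChk; infer_instance

/-- error constant of the refined count -/
def numR (d : ℤ) : ℕ :=
  2 + 6 * (fl d).natAbs + 12 * d.natAbs + 2 * (2 * d ^ 2 - fl d ^ 2).natAbs

/-- the integer check of the refined count -/
def refChk (d : ℤ) : Prop :=
  1 ≤ nsf d ∧
  3 * d.natAbs * 10 ^ 9 ≤ 2 * tl d * 8000000 ∧
  gg d * 8000000 * 10 ^ 9 + (cof d + nsf d) * (d.natAbs * 10 ^ 9) ≤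
    (cof d + nsf d) * (tl d * 8000000) ∧
  gg d * (2 * 141421357 * (10 ^ 9 - 2 * tl d) * 8000000 + numR d * 10 ^ 17) +
    cof d * (32 * 10 ^ 14 * (tl d + 1) + 6 * d.natAbs * 10 ^ 17) <
      4 * gg d * 8000000 * 10 ^ 17 ∧
  gg d * (2 * 141421357 * (10 ^ 9 - 2 * tl d) * 8000000 + numR d * 10 ^ 17) +
    nsf d * (6 * d.natAbs * 10 ^ 17) < nsf d * (32 * 10 ^ 14 * tl d)

instance (d : ℤ) : Decidable (refChk d) := by unfold refChk; infer_instance

theorem same_check : ∀ i ∈ Finset.range 341, (i : ℤ) - 170 ≠ 0 →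
    tl ((i : ℤ) - 170) ≤ 500100000 → refChk ((i : ℤ) - 170) ∨ sameChk ((i : ℤ) - 170) := by
  decide +kernel

theorem cross_check : ∀ i ∈ Finset.range 341, (i : ℤ) - 170 ≠ 0 →
    207000000 ≤ tl ((i : ℤ) - 170) → tl ((i : ℤ) - 170) ≤ 707500000 →
    crossChk ((i : ℤ) - 170) := by
  decide +kernel

/-- the numerical inequalities, same branch -/
def NumSame : Prop := ∀ d ∈ Dset, sameChk d → SameOK 8000000 d (fl d) (nsf d - 2)

/-- the numerical inequalities of the refined count -/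
def NumRef : Prop := ∀ d ∈ Dset, refChk d → RefOK 8000000 d (fl d) (nsf d - 1) (cof d)

/-- the numerical inequalities, from the even to the odd branch -/
def NumCross : Prop := ∀ d ∈ Dset, 207000000 ≤ tl d → tl d ≤ 707500000 →
  CrossOK 8000000 (1 - d) (-fl d) (ncf d - 1)

theorem num_ref : NumRef := by
  intro d hd hc
  obtain ⟨hn, h1, h2, h3, h4⟩ := hc
  obtain ⟨_, he0⟩ := Dset_check hd
  have ht0 := (tt_bounds d).1
  have hl := (tl_bounds d).1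
  have hu := (tl_bounds d).2
  have habs : |Real.sqrt 2 * (d : ℝ) - (fl d : ℝ)| = tt d := by
    rw [show Real.sqrt 2 * (d : ℝ) - (fl d : ℝ) = tt d from rfl, abs_of_nonneg ht0]
  have hs0 := sqrt_two_pos
  have hs1 := sqrt_two_upper
  set s := Real.sqrt 2 with hs
  set t := tt d with htt
  have r1 : 3 * (d.natAbs : ℝ) * 10 ^ 9 ≤ 2 * tl d * 8000000 := by exact_mod_cast h1
  have r2 : ((gg d : ℕ) : ℝ) * 8000000 * 10 ^ 9 +
      ((cof d : ℝ) + nsf d) * ((d.natAbs : ℝ) * 10 ^ 9) ≤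
      ((cof d : ℝ) + nsf d) * ((tl d : ℝ) * 8000000) := by exact_mod_cast h2
  have r3 : ((gg d : ℕ) : ℝ) * (2 * 141421357 * ((10 ^ 9 - 2 * tl d : ℕ) : ℝ) * 8000000 +
      numR d * 10 ^ 17) + (cof d : ℝ) * (32 * 10 ^ 14 * ((tl d : ℝ) + 1) +
        6 * (d.natAbs : ℝ) * 10 ^ 17) <
      4 * ((gg d : ℕ) : ℝ) * 8000000 * 10 ^ 17 := by exact_mod_cast h3
  have r4 : ((gg d : ℕ) : ℝ) * (2 * 141421357 * ((10 ^ 9 - 2 * tl d : ℕ) : ℝ) * 8000000 +
      numR d * 10 ^ 17) + (nsf d : ℝ) * (6 * (d.natAbs : ℝ) * 10 ^ 17) <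
      (nsf d : ℝ) * (32 * 10 ^ 14 * (tl d : ℝ)) := by exact_mod_cast h4
  have eR : (numR d : ℝ) = LR.E d (fl d) := by
    unfold numR LR.E
    rw [abs_cast_natAbs, abs_cast_natAbs]
    have : |2 * (d : ℝ) ^ 2 - (fl d : ℝ) ^ 2| = ((2 * d ^ 2 - fl d ^ 2).natAbs : ℝ) := by
      rw [← abs_cast_natAbs]; push_cast; rfl
    rw [this]
    push_cast
    ring
  have hx : (1 - 2 * t) * 10 ^ 9 ≤ ((10 ^ 9 - 2 * tl d : ℕ) : ℝ) := by
    rcases Nat.le_total (2 * tl d) (10 ^ 9) with h | h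
    · rw [Nat.cast_sub h]
      push_cast
      linarith
    · have : (2 * tl d : ℝ) ≥ 10 ^ 9 := by exact_mod_cast h
      have h3 : (0 : ℝ) ≤ ((10 ^ 9 - 2 * tl d : ℕ) : ℝ) := by positivity
      linarith
  set X : ℝ := ((10 ^ 9 - 2 * tl d : ℕ) : ℝ) with hX
  have hX0 : 0 ≤ X := by positivity
  have hL : (2 * s * (1 - 2 * t) * 8000000) * 10 ^ 17 ≤ 2 * 141421357 * X * 8000000 := by
    have p1 : s * ((1 - 2 * t) * 10 ^ 9) ≤ s * X := mul_le_mul_of_nonneg_left hx hs0.le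
    have p2 : s * X ≤ 1.41421357 * X := mul_le_mul_of_nonneg_right hs1.le hX0
    nlinarith
  have hg0 : (0 : ℝ) ≤ ((Int.gcd (2 * d) (fl d) : ℕ) : ℝ) := by positivity
  have eg : ((gg d : ℕ) : ℝ) = ((Int.gcd (2 * d) (fl d) : ℕ) : ℝ) := rfl
  rw [eg] at r2 r3 r4
  have eJ : ((nsf d - 1 : ℕ) : ℝ) = (nsf d : ℝ) - 1 := by
    rw [Nat.cast_sub hn]; norm_num
  have hc0 : (0 : ℝ) ≤ (cof d : ℝ) := by positivity
  have hn0 : (0 : ℝ) ≤ (nsf d : ℝ) := by positivity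
  have q1 : ((Int.gcd (2 * d) (fl d) : ℕ) : ℝ) *
      (2 * s * (1 - 2 * t) * 8000000 + LR.E d (fl d)) * 10 ^ 17 ≤
      ((Int.gcd (2 * d) (fl d) : ℕ) : ℝ) * (2 * 141421357 * X * 8000000 + numR d * 10 ^ 17) := by
    rw [mul_assoc]
    apply mul_le_mul_of_nonneg_left _ hg0
    rw [eR]
    linarith
  refine ⟨he0, by norm_num, ?_, ?_, ?_, ?_⟩
  · rw [habs, abs_cast_natAbs]
    linarith
  · rw [habs, abs_cast_natAbs, eJ]
    have p1 : (tl d : ℝ) * 8000000 ≤ t * 8000000 * 10 ^ 9 := by linarith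
    have p2 := mul_le_mul_of_nonneg_left p1 (add_nonneg hc0 hn0)
    linarith
  · rw [habs, abs_cast_natAbs]
    have p1 : 4 * t * 8000000 * 10 ^ 17 ≤ 32 * 10 ^ 14 * ((tl d : ℝ) + 1) := by linarith
    have p2 := mul_le_mul_of_nonneg_left p1 hc0
    have p3 : (((Int.gcd (2 * d) (fl d) : ℕ) : ℝ) *
        (2 * s * (1 - 2 * t) * 8000000 + LR.E d (fl d)) +
        (cof d : ℝ) * (4 * t * 8000000 + 6 * (d.natAbs : ℝ))) * 10 ^ 17 <
        (4 * ((Int.gcd (2 * d) (fl d) : ℕ) : ℝ) * 8000000) * 10 ^ 17 := by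
      linarith
    exact lt_of_mul_lt_mul_right p3 (by positivity)
  · rw [habs, abs_cast_natAbs, eJ]
    have p1 : 32 * 10 ^ 14 * (tl d : ℝ) ≤ 4 * t * 8000000 * 10 ^ 17 := by linarith
    have p2 := mul_le_mul_of_nonneg_left p1 hn0
    have p3 : (((Int.gcd (2 * d) (fl d) : ℕ) : ℝ) *
        (2 * s * (1 - 2 * t) * 8000000 + LR.E d (fl d))) * 10 ^ 17 <
        (((nsf d : ℝ) - 1 + 1) * (4 * t * 8000000 - 6 * (d.natAbs : ℝ))) * 10 ^ 17 := by
      have e1 : (nsf d : ℝ) - 1 + 1 = nsf d := by ring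
      rw [e1]
      linarith
    exact lt_of_mul_lt_mul_right p3 (by positivity)

theorem num_same : NumSame := by
  intro d hd hc
  obtain ⟨_, h1, h2⟩ := hc
  obtain ⟨_, he0⟩ := Dset_check hd
  have ht0 := (tt_bounds d).1
  have hl := (tl_bounds d).1
  have habs : |Real.sqrt 2 * (d : ℝ) - (fl d : ℝ)| = tt d := by
    rw [show Real.sqrt 2 * (d : ℝ) - (fl d : ℝ) = tt d from rfl, abs_of_nonneg ht0]
  have hs0 := sqrt_two_pos
  have hs1 := sqrt_two_upper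
  set s := Real.sqrt 2 with hs
  set t := tt d with htt
  have eC : |2 * (d : ℝ) ^ 2 - (fl d : ℝ) ^ 2| = ((2 * d ^ 2 - fl d ^ 2).natAbs : ℝ) := by
    rw [← abs_cast_natAbs]; push_cast; rfl
  have r1 : (numE d : ℝ) < 16 * 10 ^ 14 * tl d := by exact_mod_cast h1
  have r2 : ((gg d : ℕ) : ℝ) * (2 * 141421357 * ((10 ^ 9 - 2 * tl d : ℕ) : ℝ) * 8000000 +
      numC d * 10 ^ 17) + (((nsf d - 2 : ℕ) : ℝ) + 1) * 2 * numE d <
      (((nsf d - 2 : ℕ) : ℝ) + 1) * 2 * (16 * 10 ^ 14 * tl d) := by exact_mod_cast h2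
  have eE : (numE d : ℝ) = 2 * 141421357 * 10 ^ 9 * (((fl d).natAbs : ℝ) + d.natAbs) +
      2 * d.natAbs * 10 ^ 17 := by
    unfold numE; push_cast; ring
  have eCC : (numC d : ℝ) = 2 + 8 * ((fl d).natAbs : ℝ) + 12 * d.natAbs +
      2 * ((2 * d ^ 2 - fl d ^ 2).natAbs : ℝ) := by
    unfold numC; push_cast; ring
  -- the real error term is at most `numE d / 10 ^ 17`
  have hE : (2 * s * (|(fl d : ℝ)| + |(d : ℝ)|) + 2 * |(d : ℝ)|) * 10 ^ 17 ≤ numE d := by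
    rw [abs_cast_natAbs, abs_cast_natAbs, eE]
    have : 0 ≤ ((fl d).natAbs : ℝ) + d.natAbs := by positivity
    nlinarith
  have hx : (1 - 2 * t) * 10 ^ 9 ≤ ((10 ^ 9 - 2 * tl d : ℕ) : ℝ) := by
    rcases Nat.le_total (2 * tl d) (10 ^ 9) with h | h
    · rw [Nat.cast_sub h]
      push_cast
      linarith
    · have : (2 * tl d : ℝ) ≥ 10 ^ 9 := by exact_mod_cast h
      have h3 : (0 : ℝ) ≤ ((10 ^ 9 - 2 * tl d : ℕ) : ℝ) := by positivity
      linarith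
  set X : ℝ := ((10 ^ 9 - 2 * tl d : ℕ) : ℝ) with hX
  have hX0 : 0 ≤ X := by positivity
  have hL : (2 * s * (1 - 2 * t) * 8000000) * 10 ^ 17 ≤ 2 * 141421357 * X * 8000000 := by
    have p1 : s * ((1 - 2 * t) * 10 ^ 9) ≤ s * X := mul_le_mul_of_nonneg_left hx hs0.le
    have p2 : s * X ≤ 1.41421357 * X := mul_le_mul_of_nonneg_right hs1.le hX0
    nlinarith
  refine ⟨by exact he0, ?_, ?_⟩
  · rw [habs]
    nlinarith
  · rw [habs, eC]
    have hg0 : (0 : ℝ) ≤ ((Int.gcd (2 * d) (fl d) : ℕ) : ℝ) := by positivity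
    have eg : ((gg d : ℕ) : ℝ) = ((Int.gcd (2 * d) (fl d) : ℕ) : ℝ) := rfl
    rw [eg] at r2
    set g : ℝ := ((Int.gcd (2 * d) (fl d) : ℕ) : ℝ) with hgd
    set J : ℝ := ((nsf d - 2 : ℕ) : ℝ) with hJ
    have hJ0 : 0 ≤ J := by positivity
    have q1 : g * (2 * s * (1 - 2 * t) * 8000000 +
        (2 + 8 * |(fl d : ℝ)| + 12 * |(d : ℝ)| + 2 * ((2 * d ^ 2 - fl d ^ 2).natAbs : ℝ))) *
          10 ^ 17 ≤ g * (2 * 141421357 * X * 8000000 + numC d * 10 ^ 17) := by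
      rw [mul_assoc]
      apply mul_le_mul_of_nonneg_left _ hg0
      rw [abs_cast_natAbs, abs_cast_natAbs, eCC]
      linarith
    have q2 : (J + 1) * 2 * (16 * 10 ^ 14 * tl d) - (J + 1) * 2 * numE d ≤
        (J + 1) * (2 * (2 * t * 8000000 -
          (2 * s * (|(fl d : ℝ)| + |(d : ℝ)|) + 2 * |(d : ℝ)|))) * 10 ^ 17 := by
      have p1 : 16 * (10 : ℝ) ^ 14 * tl d - numE d ≤ (2 * t * 8000000 -
          (2 * s * (|(fl d : ℝ)| + |(d : ℝ)|) + 2 * |(d : ℝ)|)) * 10 ^ 17 := by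
        linarith
      have p2 : 0 ≤ (J + 1) * 2 := by positivity
      have p3 := mul_le_mul_of_nonneg_left p1 p2
      linarith
    have q3 : g * (2 * s * (1 - 2 * t) * 8000000 +
        (2 + 8 * |(fl d : ℝ)| + 12 * |(d : ℝ)| + 2 * ((2 * d ^ 2 - fl d ^ 2).natAbs : ℝ))) *
          10 ^ 17 < (J + 1) * (2 * (2 * t * 8000000 -
          (2 * s * (|(fl d : ℝ)| + |(d : ℝ)|) + 2 * |(d : ℝ)|))) * 10 ^ 17 := by
      linarith
    exact lt_of_mul_lt_mul_right q3 (by positivity)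

theorem num_cross : NumCross := by
  intro d hd ht1 ht2
  have hd' := hd
  rw [mem_Dset] at hd'
  have hc := cross_check (d + 170).toNat (Finset.mem_range.mpr (by omega))
  have e0 : (((d + 170).toNat : ℕ) : ℤ) - 170 = d := by omega
  rw [e0] at hc
  obtain ⟨_, h1, h2⟩ := hc hd'.1 ht1 ht2
  obtain ⟨_, he0⟩ := Dset_check hd
  have ht0 := (tt_bounds d).1
  have hl := (tl_bounds d).1
  have hu := (tl_bounds d).2
  have e1 : ((1 - d - 1 : ℤ) : ℝ) = -(d : ℝ) := by push_cast; ring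
  have habs : |Real.sqrt 2 * ((1 - d - 1 : ℤ) : ℝ) - ((-fl d : ℤ) : ℝ)| = tt d := by
    rw [show Real.sqrt 2 * ((1 - d - 1 : ℤ) : ℝ) - ((-fl d : ℤ) : ℝ) = -tt d by
      rw [e1]; unfold tt; push_cast; ring]
    rw [abs_neg, abs_of_nonneg ht0]
  have eg' : Int.gcd (2 * (1 - d - 1)) (-fl d) = gg d := by
    unfold gg
    rw [show 2 * (1 - d - 1) = -(2 * d) by ring, Int.gcd_neg, Int.neg_gcd]
  have hs0 := sqrt_two_pos
  have hs1 := sqrt_two_upper
  have eC : |2 * ((1 - d - 1 : ℤ) : ℝ) ^ 2 - ((-fl d : ℤ) : ℝ) ^ 2| =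
      ((2 * d ^ 2 - fl d ^ 2).natAbs : ℝ) := by
    rw [← abs_cast_natAbs, e1]; push_cast; ring_nf
  have ea : |((-fl d : ℤ) : ℝ)| = ((fl d).natAbs : ℝ) := by
    push_cast; rw [abs_neg, abs_cast_natAbs]
  have eb : |((1 - d : ℤ) : ℝ)| = ((1 - d).natAbs : ℝ) := abs_cast_natAbs _
  have ec : |((1 - d - 1 : ℤ) : ℝ)| = (d.natAbs : ℝ) := by
    rw [e1, abs_neg, abs_cast_natAbs]
  have r1 : 2 * (d.natAbs : ℝ) * 10 ^ 17 < 16 * 10 ^ 14 * tl d := by exact_mod_cast h1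
  have r2 : ((gg d : ℕ) : ℝ) * (4 * 141421357 * ((tl d : ℝ) + 1) * 8000000 +
      2 * 141421357 * 10 ^ 9 * 8000000 + numC' d * 10 ^ 17) +
      (((ncf d - 1 : ℕ) : ℝ) + 1) * 2 * (2 * (d.natAbs : ℝ) * 10 ^ 17) <
      (((ncf d - 1 : ℕ) : ℝ) + 1) * 2 * (16 * 10 ^ 14 * tl d) +
        ((gg d : ℕ) : ℝ) * (4 * 10 ^ 17 * 8000000) := by exact_mod_cast h2
  have eCC : (numC' d : ℝ) = 5 + 6 * ((fl d).natAbs : ℝ) + 4 * ((1 - d).natAbs : ℝ) +
      2 * ((2 * d ^ 2 - fl d ^ 2).natAbs : ℝ) := by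
    unfold numC'; push_cast; ring
  refine ⟨by simpa using he0, ?_, ?_⟩
  · rw [habs, ec]
    linarith
  · rw [habs, eC, ea, eb, ec, eg']
    have hg0 : (0 : ℝ) ≤ ((gg d : ℕ) : ℝ) := by positivity
    set g : ℝ := ((gg d : ℕ) : ℝ) with hgd
    set J : ℝ := ((ncf d - 1 : ℕ) : ℝ) with hJ
    set s := Real.sqrt 2 with hs
    set t := tt d with htt
    have hJ0 : 0 ≤ J := by positivity
    have p1 : s * t * 10 ^ 17 ≤ 141421357 * ((tl d : ℝ) + 1) := by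
      have p2 : s * (10 ^ 9 * t) ≤ s * ((tl d : ℝ) + 1) := mul_le_mul_of_nonneg_left hu hs0.le
      have p3 : s * ((tl d : ℝ) + 1) ≤ 1.41421357 * ((tl d : ℝ) + 1) :=
        mul_le_mul_of_nonneg_right hs1.le (by positivity)
      nlinarith
    have p4 : s * 10 ^ 17 ≤ 141421357 * 10 ^ 9 := by nlinarith
    have q1 : g * ((4 * s * t - 4 + 2 * s) * 8000000 +
        (5 + 6 * ((fl d).natAbs : ℝ) + 4 * ((1 - d).natAbs : ℝ) +
          2 * ((2 * d ^ 2 - fl d ^ 2).natAbs : ℝ))) * 10 ^ 17 ≤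
        g * (4 * 141421357 * ((tl d : ℝ) + 1) * 8000000 +
          2 * 141421357 * 10 ^ 9 * 8000000 + numC' d * 10 ^ 17) -
        g * (4 * 10 ^ 17 * 8000000) := by
      rw [mul_assoc, ← mul_sub]
      apply mul_le_mul_of_nonneg_left _ hg0
      rw [eCC]
      linarith
    have q2 : (J + 1) * 2 * (16 * 10 ^ 14 * tl d) - (J + 1) * 2 * (2 * (d.natAbs : ℝ) * 10 ^ 17) ≤
        (J + 1) * (2 * (2 * t * 8000000 - 2 * (d.natAbs : ℝ))) * 10 ^ 17 := by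
      have p5 : 16 * (10 : ℝ) ^ 14 * tl d - 2 * (d.natAbs : ℝ) * 10 ^ 17 ≤
          (2 * t * 8000000 - 2 * (d.natAbs : ℝ)) * 10 ^ 17 := by linarith
      have p6 : 0 ≤ (J + 1) * 2 := by positivity
      have p7 := mul_le_mul_of_nonneg_left p5 p6
      linarith
    have q3 : g * ((4 * s * t - 4 + 2 * s) * 8000000 +
        (5 + 6 * ((fl d).natAbs : ℝ) + 4 * ((1 - d).natAbs : ℝ) +
          2 * ((2 * d ^ 2 - fl d ^ 2).natAbs : ℝ))) * 10 ^ 17 <
        (J + 1) * (2 * (2 * t * 8000000 - 2 * (d.natAbs : ℝ))) * 10 ^ 17 := by linarith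
    exact lt_of_mul_lt_mul_right q3 (by positivity)

theorem same_b : SameB nsf := by
  intro d hd ht K hK
  have hd' := hd
  rw [mem_Dset] at hd'
  have hc := same_check (d + 170).toNat (Finset.mem_range.mpr (by omega))
  have e0 : (((d + 170).toNat : ℕ) : ℤ) - 170 = d := by omega
  rw [e0] at hc
  have hKr : (8000000 : ℝ) ≤ K := by exact_mod_cast hK
  rcases hc hd'.1 ht with h2 | h2
  · have h3 := (num_ref d hd h2).bd hKr
    exact h3.mono (by have := h2.1; omega)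
  · have h3 := ((num_same d hd h2).mono (by norm_num) hKr).bd
    exact h3.mono (by have := h2.1; omega)

theorem cross_b : CrossB ncf := by
  intro d hd ht1 ht2
  have hd' := hd
  rw [mem_Dset] at hd'
  have hc := cross_check (d + 170).toNat (Finset.mem_range.mpr (by omega))
  have e0 : (((d + 170).toNat : ℕ) : ℤ) - 170 = d := by omega
  rw [e0] at hc
  exact ⟨(hc hd'.1 ht1 ht2).1, num_cross d hd ht1 ht2⟩

end Pool.Agent.AddSq.X3
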